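import Mathlib
import Pool.Agent.CTO.Stmts

/-! Parts: CTO.OBSH, CTO.MAIN -/

section

/-!
# Module OBSH (MP_6eac38_gt): obstruction points are moved by homeomorphisms
-/

set_option autoImplicit false

namespace CTO

open Set Topology

namespace OBSH

theorem ext_image {X : Type} [TopologicalSpace X] (h : X ≃ₜ X) {L K : Set X} {f : X → R3}
    (H : Ext L K f) : Ext (h '' L) (h '' K) (f ∘ h.symm) := by
  obtain ⟨F, h1, h2, h3⟩ := H
  refine ⟨F ∘ h.symm, ?_, ?_, ?_⟩
  · apply h1.comp h.symm.continuous.continuousOn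
    rintro _ ⟨x, hx, rfl⟩
    simpa using hx
  · rintro _ ⟨x, hx, rfl⟩
    simpa using h2 x hx
  · rintro _ ⟨x, hx, rfl⟩
    simpa using h3 hx

theorem ext_of_image {X : Type} [TopologicalSpace X] (h : X ≃ₜ X) {L K : Set X} {f : X → R3}
    (H : Ext (h '' L) (h '' K) (f ∘ h.symm)) : Ext L K f := by
  have h1 := ext_image h.symm H
  have h2 : ∀ S : Set X, h.symm '' (h '' S) = S := by
    intro S
    rw [← Set.image_comp]
    simp
  have h3 : (f ∘ h.symm) ∘ h.symm.symm = f := by
    funext x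
    simp
  rw [h2, h2, h3] at h1
  exact h1

end OBSH

open OBSH in
theorem t_OBSH : S_OBSH := by
  intro X _ hX x hx y
  obtain ⟨h, rfl⟩ := hX x y
  obtain ⟨L, K, f, hL, hK, hLK, hxK, hxL, hf, hf0, hne, hW⟩ := hx
  refine ⟨h '' L, h '' K, f ∘ h.symm, h.isClosedMap _ hL, h.isClosedMap _ hK, image_mono hLK,
    mem_image_of_mem _ hxK, ?_, ?_, ?_, ?_, ?_⟩
  · rintro ⟨z, hz, hzx⟩
    rw [h.injective hzx] at hz
    exact hxL hz
  · apply hf.comp h.symm.continuous.continuousOn
    rintro _ ⟨z, hz, rfl⟩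
    simpa using hz
  · rintro _ ⟨z, hz, rfl⟩
    simpa using hf0 z hz
  · intro H
    exact hne (ext_of_image h H)
  · intro W hWo hxW
    have h1 := ext_image h (hW (h ⁻¹' W) (hWo.preimage h.continuous) hxW)
    have h2 : h '' ((K \ (h ⁻¹' W)) ∪ L) = ((h '' K) \ W) ∪ h '' L := by
      rw [image_union, image_diff h.injective, image_preimage_eq _ h.surjective]
    rw [h2] at h1
    exact h1

end CTO


end

section

/-!
# MP_6eac38_gt: the main theorem from the modules (module MAIN)
-/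

set_option autoImplicit false

namespace CTO

open Set Topology

theorem t_MAIN : M_MAIN := by
  intro hSHR hOBS0 hOBS1 hOBSH hBAI1 hBAI2 hOPEN hMAN hEASY X _ _ hX h3 h2
  have h3' : ShrLE X 3 := (hSHR X 3).mp h3
  have h2' : ¬ ShrLE X 2 := fun h => h2 ((hSHR X 2).mpr h)
  obtain ⟨x0, hx0⟩ := hOBS1 X (hOBS0 X h3' h2')
  have hobs : ∀ x, ObsAt X x := hOBSH X hX x0 hx0
  have hne : Nonempty X := ⟨x0⟩
  -- from a generically injective light map to a manifold
  have hmain : ∀ (V : Set X) (g : X → R3), IsOpen V → V.Nonempty → ContinuousOn g V →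
      (∀ z, IsTotallyDisconnected (V ∩ g ⁻¹' {z})) → GenInj V g → IsMfd3 X :=
    fun V g hV hVn hg htd hG =>
      hMAN X hX V g hV hVn hg hG (hOPEN X hobs V g hV hg htd hG)
  refine ⟨⟨fun h => (hEASY X h hne).1, ?_⟩, ⟨fun h => (hEASY X h hne).2, ?_⟩⟩
  · rintro ⟨F, hF, hU, hg⟩
    obtain ⟨i, hi⟩ := nonempty_interior_of_iUnion_of_closed hF hU
    obtain ⟨g, hgc, hgf⟩ := hg i
    have hc : ∀ z, (interior (F i) ∩ g ⁻¹' {z}).Countable := fun z =>
      (hgf z).mono (inter_subset_inter_left _ interior_subset)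
    obtain ⟨V, hVF, hV, hVn, hG⟩ := hBAI2 X (interior (F i)) g isOpen_interior hi
      (hgc.mono interior_subset) hc
    refine hmain V g hV hVn (hgc.mono (hVF.trans interior_subset)) (fun z => ?_) hG
    exact ((hc z).mono (inter_subset_inter_left _ hVF)).isTotallyDisconnected
  · rintro ⟨U, g, hU, hUn, hgc, htd, hiso⟩
    by_contra hM
    apply hiso
    apply hBAI1 X U g hU hgc
    intro V hVU hV hVn hG
    apply hM
    refine hmain V g hV hVn (hgc.mono hVU) (fun z => ?_) hG
    intro s hs hs2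
    exact htd z s (hs.trans (inter_subset_inter_left _ hVU)) hs2

end CTO


end
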