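import Mathlib
import Pool.Agent.CTO.Stmts

/-! Parts: CTO.BAI1, CTO.BAI2, CTO.ED, CTO.RAD, CTO.GRID, CTO.DIM1, CTO.POL, CTO.SPH, CTO.CLOP, CTO.FACT, CTO.LEMX, CTO.SEP, CTO.OBS1, CTO.MAN, CTO.EASY, CTO.OPEN -/

section

set_option autoImplicit false

namespace CTO

open Set Topology

namespace BAI1

/-- points over which the fibre in the closure of `b` has two elements -/
def T {X : Type} [TopologicalSpace X] (g : X → R3) (b : Set X) : Set R3 :=
  {z | ∃ x ∈ closure b, ∃ y ∈ closure b, x ≠ y ∧ g x = z ∧ g y = z}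

theorem open_dense (X : Type) [MetricSpace X] [CompactSpace X] (U : Set X) (g : X → R3)
    (hU : IsOpen U) (hg : ContinuousOn g U)
    (hV : ∀ V ⊆ U, IsOpen V → V.Nonempty → ¬ GenInj V g) (b : Set X) (hb : IsOpen b)
    (hbU : closure b ⊆ U) :
    IsOpen ((g '' closure b)ᶜ ∪ interior (T g b)) ∧ Dense ((g '' closure b)ᶜ ∪ interior (T g b)) := by
  have hK : IsCompact (closure b) := isClosed_closure.isCompact
  have hgK : IsCompact (g '' closure b) := hK.image_of_continuousOn (hg.mono hbU)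
  refine ⟨hgK.isClosed.isOpen_compl.union isOpen_interior, ?_⟩
  rw [dense_iff_inter_open]
  intro O hO hOne
  by_cases hsub : O ⊆ g '' closure b
  · have hbU' : b ⊆ U := subset_closure.trans hbU
    have hVo : IsOpen (b ∩ g ⁻¹' O) := (hg.mono hbU').isOpen_inter_preimage hb hO
    have hVne : (b ∩ g ⁻¹' O).Nonempty := by
      obtain ⟨z, hz⟩ := hOne
      obtain ⟨x, hx, hxz⟩ := hsub hz
      have hcx : ContinuousAt g x := hg.continuousAt (hU.mem_nhds (hbU hx))
      have h1 : g ⁻¹' O ∈ 𝓝 x := hcx (hO.mem_nhds (by rw [hxz]; exact hz))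
      obtain ⟨y, hy1, hy2⟩ := mem_closure_iff_nhds.1 hx _ h1
      exact ⟨y, hy2, hy1⟩
    have h2 := hV (b ∩ g ⁻¹' O) (inter_subset_left.trans hbU') hVo hVne
    unfold GenInj at h2
    push Not at h2
    obtain ⟨C0, C1, _, _, hC0, hC1, hd, hne⟩ := h2
    obtain ⟨z, hz⟩ := hne
    have hT : interior (g '' C0 ∩ g '' C1) ⊆ interior (T g b) := by
      refine interior_mono ?_
      rintro w ⟨⟨x, hx, hxw⟩, y, hy, hyw⟩
      exact ⟨x, subset_closure (hC0 hx).1, y, subset_closure (hC1 hy).1,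
        fun e => Set.disjoint_left.1 hd hx (e ▸ hy), hxw, hyw⟩
    refine ⟨z, ?_, Or.inr (hT hz)⟩
    obtain ⟨⟨x, hx, hxz⟩, _⟩ := interior_subset hz
    rw [← hxz]
    exact (hC0 hx).2
  · obtain ⟨z, hz, hz'⟩ := not_subset.1 hsub
    exact ⟨z, hz, Or.inl hz'⟩

end BAI1

open BAI1 in
theorem t_BAI1 : S_BAI1 := by
  intro X _ _ U g hU hg hV
  set B : Set (Set X) := {b ∈ TopologicalSpace.countableBasis X | closure b ⊆ U} with hB
  have hBc : B.Countable := (TopologicalSpace.countable_countableBasis X).mono fun b hb => hb.1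
  have h1 : (⋂ b ∈ B, ((g '' closure b)ᶜ ∪ interior (T g b))) ∈ residual R3 := by
    rw [countable_bInter_mem hBc]
    intro b hb
    obtain ⟨h2, h3⟩ := open_dense X U g hU hg hV b
      (TopologicalSpace.isOpen_of_mem_countableBasis hb.1) hb.2
    exact residual_of_dense_open h2 h3
  show (Iso U g)ᶜ ∈ residual R3
  refine Filter.mem_of_superset h1 ?_
  intro z hz hiso
  obtain ⟨x, W, hW, hWx⟩ := hiso
  have hx : x ∈ W ∩ (U ∩ g ⁻¹' {z}) := by
    rw [hWx]
    rfl
  obtain ⟨b, hb, hxb, hbs⟩ := (TopologicalSpace.isBasis_countableBasis X).exists_closure_subset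
    ((hW.inter hU).mem_nhds ⟨hx.1, hx.2.1⟩)
  have hbB : b ∈ B := ⟨hb, fun y hy => (hbs hy).2⟩
  have h4 := mem_iInter₂.1 hz b hbB
  rcases h4 with h4 | h4
  · exact h4 ⟨x, subset_closure hxb, hx.2.2⟩
  · obtain ⟨x', hx', y', hy', hne, h5, h6⟩ := interior_subset h4
    have h7 : x' ∈ W ∩ (U ∩ g ⁻¹' {z}) := ⟨(hbs hx').1, (hbs hx').2, h5⟩
    have h8 : y' ∈ W ∩ (U ∩ g ⁻¹' {z}) := ⟨(hbs hy').1, (hbs hy').2, h6⟩
    rw [hWx] at h7 h8
    exact hne ((mem_singleton_iff.1 h7).trans (mem_singleton_iff.1 h8).symm)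

end CTO


end

section

/-!
# Module BAI2
-/

set_option autoImplicit false

namespace CTO

open Set Topology

namespace BAI2

theorem isolated {X : Type} [MetricSpace X] [CompactSpace X] (U : Set X) (g : X → R3)
    (hU : IsOpen U) (hg : ContinuousOn g U) (z : R3) (hc : (U ∩ g ⁻¹' {z}).Countable)
    (hne : (U ∩ g ⁻¹' {z}).Nonempty) : z ∈ Iso U g := by
  obtain ⟨u, hu1, hu2⟩ := continuousOn_iff_isClosed.mp hg {z} isClosed_singleton
  have hlc : IsLocallyClosed (U ∩ g ⁻¹' {z}) := by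
    rw [inter_comm, hu2]
    exact hu1.isLocallyClosed.inter hU.isLocallyClosed
  have : LocallyCompactSpace (U ∩ g ⁻¹' {z} : Set X) := hlc.locallyCompactSpace
  have : Countable (U ∩ g ⁻¹' {z} : Set X) := hc.to_subtype
  have : Nonempty (U ∩ g ⁻¹' {z} : Set X) := hne.to_subtype
  obtain ⟨x, hx⟩ := nonempty_interior_of_iUnion_of_closed
    (f := fun x : (U ∩ g ⁻¹' {z} : Set X) => ({x} : Set (U ∩ g ⁻¹' {z} : Set X)))
    (fun x => isClosed_singleton) (iUnion_of_singleton _)
  have hopen : IsOpen ({x} : Set (U ∩ g ⁻¹' {z} : Set X)) := by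
    have h1 : interior ({x} : Set (U ∩ g ⁻¹' {z} : Set X)) = {x} := by
      apply Subset.antisymm interior_subset
      obtain ⟨y, hy⟩ := hx
      have h2 := interior_subset hy
      rw [mem_singleton_iff] at h2
      subst h2
      exact singleton_subset_iff.mpr hy
    rw [← h1]
    exact isOpen_interior
  obtain ⟨W, hW1, hW2⟩ := isOpen_induced_iff.mp hopen
  refine ⟨x.1, W, hW1, ?_⟩
  ext y
  constructor
  · rintro ⟨hy1, hy2⟩
    have h3 : (⟨y, hy2⟩ : (U ∩ g ⁻¹' {z} : Set X)) ∈ Subtype.val ⁻¹' W := hy1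
    rw [hW2, mem_singleton_iff] at h3
    rw [mem_singleton_iff, ← h3]
  · intro hy
    rw [mem_singleton_iff] at hy
    subst hy
    refine ⟨?_, x.2⟩
    have h3 : x ∈ ({x} : Set (U ∩ g ⁻¹' {z} : Set X)) := rfl
    rw [← hW2] at h3
    exact h3

end BAI2

theorem t_BAI2 : M_BAI2 := by
  intro h1 X _ _ U g hU hUne hg hc
  by_contra hno
  push Not at hno
  have hm : IsMeagre (Iso U g) := h1 X U g hU hg fun V hV hVo hVne => hno V hV hVo hVne
  have hsub : g '' U ⊆ Iso U g := by
    rintro z ⟨x, hx, rfl⟩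
    exact BAI2.isolated U g hU hg (g x) (hc (g x)) ⟨x, hx, rfl⟩
  have hm2 : IsMeagre (g '' U) := hm.mono hsub
  refine hno U Subset.rfl hU hUne ?_
  intro C0 C1 _ _ h0 _ _
  have hm3 : IsMeagre (g '' C0 ∩ g '' C1) :=
    hm2.mono (inter_subset_left.trans (image_mono h0))
  rw [interior_eq_empty_iff_dense_compl]
  exact dense_of_mem_residual hm3

end CTO


end

section

/-!
# Module ED: large fibres
-/

set_option autoImplicit false

namespace CTO

open Set Topology

namespace ED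

/-- a finite union of closed sets with empty interior has empty interior -/
theorem interior_biUnion {ι : Type} {t : Set ι} (ht : t.Finite) (s : ι → Set R3)
    (hc : ∀ i ∈ t, IsClosed (s i)) (hi : ∀ i ∈ t, interior (s i) = ∅) :
    interior (⋃ i ∈ t, s i) = ∅ := by
  have h : IsClosed (⋃ i ∈ t, s i) ∧ interior (⋃ i ∈ t, s i) = ∅ := by
    induction t, ht using Set.Finite.induction_on with
    | empty => simp
    | @insert a t _ _ ih =>
      obtain ⟨h1, h2⟩ := ih (fun i hi' => hc i (mem_insert_of_mem _ hi'))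
        (fun i hi' => hi i (mem_insert_of_mem _ hi'))
      rw [biUnion_insert]
      refine ⟨(hc a (mem_insert _ _)).union h1, ?_⟩
      rw [interior_union_isClosed_of_interior_empty (hc a (mem_insert _ _)) h2]
      exact hi a (mem_insert _ _)
  exact h.2

end ED

open ED in
theorem t_ED : S_ED := by
  intro X _ V N g hN hNV hg hV δ hδ
  have hcl : IsClosed {z : R3 | ∃ a ∈ N, ∃ b ∈ N, g a = z ∧ g b = z ∧ δ ≤ dist a b} := by
    have hNN : IsCompact (N ×ˢ N) := hN.prod hN
    have hf : ContinuousOn (fun p : X × X => (g p.1, g p.2)) (N ×ˢ N) := by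
      refine ContinuousOn.prodMk ?_ ?_
      · exact hg.comp continuousOn_fst fun p hp => hp.1
      · exact hg.comp continuousOn_snd fun p hp => hp.2
    have h1 : IsClosed ((N ×ˢ N) ∩ (fun p : X × X => (g p.1, g p.2)) ⁻¹' diagonal R3) :=
      hf.preimage_isClosed_of_isClosed hNN.isClosed isClosed_diagonal
    have h2 : IsClosed {p : X × X | δ ≤ dist p.1 p.2} :=
      isClosed_le continuous_const continuous_dist
    have h3 : IsCompact (((N ×ˢ N) ∩ (fun p : X × X => (g p.1, g p.2)) ⁻¹' diagonal R3) ∩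
        {p : X × X | δ ≤ dist p.1 p.2}) :=
      hNN.of_isClosed_subset (h1.inter h2) fun p hp => hp.1.1
    have h4 : IsCompact ((fun p : X × X => g p.1) ''
        (((N ×ˢ N) ∩ (fun p : X × X => (g p.1, g p.2)) ⁻¹' diagonal R3) ∩
        {p : X × X | δ ≤ dist p.1 p.2})) := by
      refine h3.image_of_continuousOn ?_
      exact hg.comp continuousOn_fst fun p hp => hp.1.1.1
    have h5 : {z : R3 | ∃ a ∈ N, ∃ b ∈ N, g a = z ∧ g b = z ∧ δ ≤ dist a b} =
        (fun p : X × X => g p.1) ''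
        (((N ×ˢ N) ∩ (fun p : X × X => (g p.1, g p.2)) ⁻¹' diagonal R3) ∩
        {p : X × X | δ ≤ dist p.1 p.2}) := by
      ext z
      constructor
      · rintro ⟨a, ha, b, hb, e1, e2, e3⟩
        exact ⟨(a, b), ⟨⟨⟨ha, hb⟩, e1.trans e2.symm⟩, e3⟩, e1⟩
      · rintro ⟨⟨a, b⟩, ⟨⟨⟨ha, hb⟩, e1⟩, e3⟩, e2⟩
        have e1' : g a = g b := e1
        have e2' : g a = z := e2
        exact ⟨a, ha, b, hb, e2', e1'.symm.trans e2', e3⟩
    rw [h5]
    exact h4.isClosed
  refine ⟨hcl, ?_⟩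
  have he : 0 < δ / 5 := by positivity
  obtain ⟨t, -, htf, htc⟩ := hN.finite_cover_balls he
  have hB : ∀ x : X, IsCompact (N ∩ Metric.closedBall x (δ / 5)) := fun x =>
    hN.inter_right Metric.isClosed_closedBall
  have hgB : ∀ x : X, IsClosed (g '' (N ∩ Metric.closedBall x (δ / 5))) := fun x =>
    ((hB x).image_of_continuousOn (hg.mono inter_subset_left)).isClosed
  have hfin : {p : X × X | (p.1 ∈ t ∧ p.2 ∈ t) ∧
      Disjoint (N ∩ Metric.closedBall p.1 (δ / 5)) (N ∩ Metric.closedBall p.2 (δ / 5))}.Finite :=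
    (htf.prod htf).subset fun p hp => ⟨hp.1.1, hp.1.2⟩
  have hsub : {z : R3 | ∃ a ∈ N, ∃ b ∈ N, g a = z ∧ g b = z ∧ δ ≤ dist a b} ⊆
      ⋃ p ∈ {p : X × X | (p.1 ∈ t ∧ p.2 ∈ t) ∧
        Disjoint (N ∩ Metric.closedBall p.1 (δ / 5)) (N ∩ Metric.closedBall p.2 (δ / 5))},
        (g '' (N ∩ Metric.closedBall p.1 (δ / 5)) ∩ g '' (N ∩ Metric.closedBall p.2 (δ / 5))) := by
    rintro z ⟨a, ha, b, hb, e1, e2, e3⟩
    obtain ⟨x, hx, hax⟩ := mem_iUnion₂.1 (htc ha)
    obtain ⟨y, hy, hby⟩ := mem_iUnion₂.1 (htc hb)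
    rw [Metric.mem_ball] at hax hby
    rw [mem_iUnion₂]
    refine ⟨(x, y), ⟨⟨hx, hy⟩, ?_⟩, ⟨a, ⟨ha, ?_⟩, e1⟩, ⟨b, ⟨hb, ?_⟩, e2⟩⟩
    · rw [Set.disjoint_left]
      rintro c ⟨-, hc1⟩ ⟨-, hc2⟩
      rw [Metric.mem_closedBall] at hc1 hc2
      have h1 : dist a b ≤ dist a x + dist x c + dist c y + dist y b :=
        calc dist a b ≤ dist a y + dist y b := dist_triangle _ _ _
          _ ≤ (dist a c + dist c y) + dist y b := by gcongr; exact dist_triangle _ _ _
          _ ≤ ((dist a x + dist x c) + dist c y) + dist y b := by gcongr; exact dist_triangle _ _ _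
      rw [dist_comm x c, dist_comm y b] at h1
      simp only at hc1 hc2
      linarith
    · rw [Metric.mem_closedBall]; exact hax.le
    · rw [Metric.mem_closedBall]; exact hby.le
  have hemp := interior_biUnion hfin
    (fun p => g '' (N ∩ Metric.closedBall p.1 (δ / 5)) ∩ g '' (N ∩ Metric.closedBall p.2 (δ / 5)))
    (fun p _ => (hgB p.1).inter (hgB p.2))
    (fun p hp => hV _ _ (hB p.1) (hB p.2) (inter_subset_left.trans hNV)
      (inter_subset_left.trans hNV) hp.2)
  exact subset_empty_iff.1 ((interior_mono hsub).trans hemp.subset)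

end CTO


end

section

/-!
# Generic radius
-/

set_option autoImplicit false

namespace CTO

open Set Topology

namespace RAD

/-- the radii for which the piece `B` of the sphere is contained in `E` -/
def R (E : Set R3) (c : R3) (B : Set S2) : Set ℝ := {r | ∀ v ∈ B, c + r • (v : R3) ∈ E}

theorem closed_R {E : Set R3} (hE : IsClosed E) (c : R3) (B : Set S2) : IsClosed (R E c B) := by
  have e : R E c B = ⋂ v ∈ B, (fun r : ℝ => c + r • (v : R3)) ⁻¹' E := by
    ext r
    simp only [R, mem_iInter, mem_preimage]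
    rfl
  rw [e]
  exact isClosed_biInter fun v _ => hE.preimage (by fun_prop)

theorem interior_R {E : Set R3} (hE : interior E = ∅) (c : R3) {B : Set S2} (hB : IsOpen B)
    (hne : B.Nonempty) {a b : ℝ} (ha : 0 ≤ a) : interior (R E c B ∩ Icc a b) = ∅ := by
  rw [eq_empty_iff_forall_notMem]
  intro r hr
  have h1 : r ∈ interior (R E c B) ∩ Ioo a b := by
    rw [interior_inter, interior_Icc] at hr
    exact hr
  obtain ⟨O, hO, hOB⟩ := isOpen_induced_iff.1 hB
  obtain ⟨v, hv⟩ := hne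
  have hc : ContinuousOn (fun x : R3 => ‖x - c‖⁻¹ • (x - c)) {c}ᶜ := by
    have hc1 : ContinuousOn (fun x : R3 => ‖x - c‖) {c}ᶜ := by fun_prop
    have hc2 : ContinuousOn (fun x : R3 => x - c) {c}ᶜ := by fun_prop
    refine ContinuousOn.smul (ContinuousOn.inv₀ hc1 ?_) hc2
    intro x hx
    rw [norm_ne_zero_iff, sub_ne_zero]
    exact hx
  have h2 : IsOpen ({c}ᶜ ∩ (fun x : R3 => ‖x - c‖⁻¹ • (x - c)) ⁻¹' O) :=
    hc.isOpen_inter_preimage isOpen_compl_singleton hO
  have h3 : IsOpen ((fun x : R3 => ‖x - c‖) ⁻¹' (interior (R E c B) ∩ Ioo a b)) :=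
    (isOpen_interior.inter isOpen_Ioo).preimage (by fun_prop)
  have hsub : ({c}ᶜ ∩ (fun x : R3 => ‖x - c‖⁻¹ • (x - c)) ⁻¹' O) ∩
      ((fun x : R3 => ‖x - c‖) ⁻¹' (interior (R E c B) ∩ Ioo a b)) ⊆ E := by
    rintro x ⟨⟨hx1, hx2⟩, hx3⟩
    have hx4 : x - c ≠ 0 := by
      rw [sub_ne_zero]
      exact hx1
    have hx5 : ‖x - c‖ ≠ 0 := norm_ne_zero_iff.2 hx4
    have hS : ‖x - c‖⁻¹ • (x - c) ∈ Metric.sphere (0 : R3) 1 := by
      rw [mem_sphere_zero_iff_norm, norm_smul, norm_inv, norm_norm, inv_mul_cancel₀ hx5]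
    have hxB : (⟨‖x - c‖⁻¹ • (x - c), hS⟩ : S2) ∈ B := by
      rw [← hOB]
      exact hx2
    have h4 := (interior_subset hx3.1 : ‖x - c‖ ∈ R E c B) _ hxB
    have h5 : c + ‖x - c‖ • (((⟨‖x - c‖⁻¹ • (x - c), hS⟩ : S2)) : R3) = x := by
      simp only
      rw [smul_smul, mul_inv_cancel₀ hx5, one_smul]
      abel
    rwa [h5] at h4
  have hrpos : 0 < r := lt_of_le_of_lt ha h1.2.1
  have hvn : ‖(v : R3)‖ = 1 := mem_sphere_zero_iff_norm.1 v.2
  have hnorm : ‖c + r • (v : R3) - c‖ = r := by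
    rw [add_sub_cancel_left, norm_smul, hvn, mul_one, Real.norm_of_nonneg hrpos.le]
  have hmem : c + r • (v : R3) ∈ interior E := by
    refine (interior_maximal hsub (h2.inter h3)) ⟨⟨?_, ?_⟩, ?_⟩
    · intro h6
      rw [mem_singleton_iff] at h6
      rw [h6, sub_self, norm_zero] at hnorm
      exact hrpos.ne hnorm
    · change ‖c + r • (v : R3) - c‖⁻¹ • (c + r • (v : R3) - c) ∈ O
      rw [hnorm, add_sub_cancel_left, smul_smul, inv_mul_cancel₀ hrpos.ne', one_smul]
      rw [← hOB] at hv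
      exact hv
    · rw [mem_preimage, hnorm]
      exact h1
  rw [hE] at hmem
  exact hmem

end RAD

theorem t_RAD : S_RAD := by
  intro E hE hint c a b ha hab
  have hcount : (TopologicalSpace.countableBasis S2).Countable :=
    TopologicalSpace.countable_countableBasis S2
  have hcount2 : (TopologicalSpace.countableBasis S2 ×ˢ (univ : Set ℕ)).Countable :=
    hcount.prod countable_univ
  have hbasis := TopologicalSpace.isBasis_countableBasis S2
  have hdense : Dense (⋂ p ∈ (TopologicalSpace.countableBasis S2 ×ˢ (univ : Set ℕ)),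
      (RAD.R (E p.2) c p.1 ∩ Icc a b)ᶜ) := by
    refine dense_biInter_of_isOpen ?_ hcount2 ?_
    · intro p _
      exact ((RAD.closed_R (hE p.2) c p.1).inter isClosed_Icc).isOpen_compl
    · intro p hp
      rw [← interior_eq_empty_iff_dense_compl]
      refine RAD.interior_R (hint p.2) c (hbasis.isOpen hp.1) ?_ ha
      exact TopologicalSpace.nonempty_of_mem_countableBasis hp.1
  obtain ⟨r, hr1, hr2⟩ := hdense.exists_mem_open isOpen_Ioo (nonempty_Ioo.2 hab)
  refine ⟨r, hr2.1, hr2.2, ?_⟩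
  intro m
  rw [eq_empty_iff_forall_notMem]
  intro v hv
  obtain ⟨B, hB, hvB, hBsub⟩ := hbasis.exists_subset_of_mem_open hv isOpen_interior
  have h1 := mem_iInter₂.1 hr1 (B, m) ⟨hB, mem_univ _⟩
  apply h1
  refine ⟨?_, hr2.1.le, hr2.2.le⟩
  intro w hw
  exact (interior_subset (hBsub hw) : w ∈ {v : S2 | c + r • (v : R3) ∈ E m})

end CTO


end

section

/-!
# Module GRID (MP_6eac38_gt): the square grid
-/

set_option autoImplicit false

namespace CTO

open Set Topology

namespace GRID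

/-- the plane -/
abbrev E2 : Type := EuclideanSpace ℝ (Fin 2)

theorem exists_shift (E : Set E2) (hE : IsCompact E) (hint : interior E = ∅) (s : ℝ) :
    ∃ t : E2, ∀ i j : ℤ, t + !₂[s * i, s * j] ∉ E := by
  have h1 : Dense (⋂ z : ℤ × ℤ, (fun t : E2 => t + !₂[s * z.1, s * z.2]) ⁻¹' Eᶜ) := by
    apply dense_iInter_of_isOpen
    · intro z
      exact hE.isClosed.isOpen_compl.preimage (continuous_id.add continuous_const)
    · intro z
      apply (interior_eq_empty_iff_dense_compl.1 hint).preimage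
      exact isOpenMap_add_right _
  obtain ⟨t, ht⟩ := h1.nonempty
  refine ⟨t, fun i j => ?_⟩
  exact mem_iInter.1 ht (i, j)

/-- the function which vanishes exactly at the vertices -/
noncomputable def ff (s : ℝ) (t p : E2) : ℝ :=
  max |Real.sin (Real.pi * ((p 0 - t 0) / s))| |Real.sin (Real.pi * ((p 1 - t 1) / s))|

theorem ff_cont (s : ℝ) (t : E2) : Continuous (ff s t) := by
  unfold ff
  fun_prop

theorem sin_zero (s x : ℝ) (hs : 0 < s) (h : Real.sin (Real.pi * (x / s)) = 0) :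
    ∃ i : ℤ, x = s * i := by
  obtain ⟨n, hn⟩ := Real.sin_eq_zero_iff.1 h
  refine ⟨n, ?_⟩
  have h1 : (n : ℝ) = x / s := by
    have := Real.pi_pos
    have h2 : Real.pi * n = Real.pi * (x / s) := by linarith
    exact mul_left_cancel₀ this.ne' h2
  rw [h1]
  field_simp

theorem ff_pos (s : ℝ) (hs : 0 < s) (t p : E2) (h : ∀ i j : ℤ, p ≠ t + !₂[s * i, s * j]) :
    0 < ff s t p := by
  unfold ff
  by_contra hle
  have h1 : |Real.sin (Real.pi * ((p 0 - t 0) / s))| = 0 :=
    le_antisymm (le_trans (le_max_left _ _) (not_lt.1 hle)) (abs_nonneg _)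
  have h2 : |Real.sin (Real.pi * ((p 1 - t 1) / s))| = 0 :=
    le_antisymm (le_trans (le_max_right _ _) (not_lt.1 hle)) (abs_nonneg _)
  obtain ⟨i, hi⟩ := sin_zero s _ hs (abs_eq_zero.1 h1)
  obtain ⟨j, hj⟩ := sin_zero s _ hs (abs_eq_zero.1 h2)
  apply h i j
  ext k
  fin_cases k
  · simp
    linarith
  · simp
    linarith

theorem sin_le (s x τ : ℝ) (hs : 0 < s) (i : ℤ) (h : |x - s * i| ≤ τ) :
    |Real.sin (Real.pi * (x / s))| ≤ Real.pi * τ / s := by
  have h1 : Real.pi * (x / s) = Real.pi * ((x - s * i) / s) + i * Real.pi := by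
    field_simp
    ring
  rw [h1, Real.sin_add_int_mul_pi, abs_mul]
  have h2 : |((-1 : ℝ)) ^ i| = 1 := by
    rw [abs_zpow]
    simp
  rw [h2, one_mul]
  refine le_trans Real.abs_sin_le_abs ?_
  rw [abs_mul, abs_div, abs_of_pos Real.pi_pos, abs_of_pos hs, mul_div_assoc]
  have := Real.pi_pos
  gcongr

/-- the intervals containing `a` -/
theorem two (s τ a : ℝ) (hs : 0 < s) (hτs : τ < s / 4) :
    ∃ i1 : ℤ, ∀ i : ℤ, s * i - τ < a → a < s * (i + 1) + τ → i = ⌊a / s⌋ ∨ i = i1 := by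
  have h1 : s * ⌊a / s⌋ ≤ a := by
    have := Int.floor_le (a / s)
    rw [le_div_iff₀ hs] at this
    linarith
  have h2 : a < s * (⌊a / s⌋ + 1) := by
    have := Int.lt_floor_add_one (a / s)
    rw [div_lt_iff₀ hs] at this
    linarith
  generalize ⌊a / s⌋ = i0 at h1 h2 ⊢
  refine ⟨if a < s * i0 + τ then i0 - 1 else i0 + 1, fun i h3 h4 => ?_⟩
  have h5 : i ≤ i0 + 1 := by
    by_contra h
    have h6 : (i0 : ℝ) + 2 ≤ i := by exact_mod_cast (by omega : i0 + 2 ≤ i)
    nlinarith
  have h7 : i0 - 1 ≤ i := by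
    by_contra h
    have h6 : (i : ℝ) + 2 ≤ i0 := by exact_mod_cast (by omega : i + 2 ≤ i0)
    nlinarith
  rcases (by omega : i = i0 ∨ i = i0 + 1 ∨ i = i0 - 1) with h | h | h
  · exact Or.inl h
  · right
    rw [if_neg, h]
    intro h8
    rw [h] at h3
    push_cast at h3
    nlinarith
  · right
    rw [if_pos, h]
    rw [h] at h4
    push_cast at h4
    linarith

theorem one (s τ a : ℝ) (hs : 0 < s) (hτs : τ < s / 4)
    (hfar : ∀ i : ℤ, τ < |a - s * i|) :
    ∀ i : ℤ, s * i - τ < a → a < s * (i + 1) + τ → i = ⌊a / s⌋ := by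
  have h1 : s * ⌊a / s⌋ ≤ a := by
    have := Int.floor_le (a / s)
    rw [le_div_iff₀ hs] at this
    linarith
  have h2 : a < s * (⌊a / s⌋ + 1) := by
    have := Int.lt_floor_add_one (a / s)
    rw [div_lt_iff₀ hs] at this
    linarith
  generalize ⌊a / s⌋ = i0 at h1 h2 ⊢
  intro i h3 h4
  have h5 : i ≤ i0 + 1 := by
    by_contra h
    have h6 : (i0 : ℝ) + 2 ≤ i := by exact_mod_cast (by omega : i0 + 2 ≤ i)
    nlinarith
  have h7 : i0 - 1 ≤ i := by
    by_contra h
    have h6 : (i : ℝ) + 2 ≤ i0 := by exact_mod_cast (by omega : i + 2 ≤ i0)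
    nlinarith
  rcases (by omega : i = i0 ∨ i = i0 + 1 ∨ i = i0 - 1) with h | h | h
  · exact h
  · exfalso
    have h8 := hfar (i0 + 1)
    rw [h] at h3
    push_cast at h3 h8
    rw [abs_of_nonpos (by linarith)] at h8
    linarith
  · exfalso
    have h8 := hfar i0
    rw [h] at h4
    push_cast at h4
    rw [abs_of_nonneg (by linarith)] at h8
    linarith

/-- the squares -/
def Q (s τ : ℝ) (t : E2) (z : ℤ × ℤ) : Set E2 :=
  {p | s * z.1 - τ < p 0 - t 0 ∧ p 0 - t 0 < s * (z.1 + 1) + τ ∧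
    s * z.2 - τ < p 1 - t 1 ∧ p 1 - t 1 < s * (z.2 + 1) + τ}

theorem Q_open (s τ : ℝ) (t : E2) (z : ℤ × ℤ) : IsOpen (Q s τ t z) := by
  have h0 : Continuous fun p : E2 => p 0 - t 0 := by fun_prop
  have h1 : Continuous fun p : E2 => p 1 - t 1 := by fun_prop
  exact (isOpen_lt continuous_const h0).inter ((isOpen_lt h0 continuous_const).inter
    ((isOpen_lt continuous_const h1).inter (isOpen_lt h1 continuous_const)))

theorem Q_diam (s τ : ℝ) (hs : 0 < s) (hτs : τ < s / 4) (t : E2) (z : ℤ × ℤ) (p q : E2)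
    (hp : p ∈ Q s τ t z) (hq : q ∈ Q s τ t z) : dist p q < 4 * s := by
  obtain ⟨p1, p2, p3, p4⟩ := hp
  obtain ⟨q1, q2, q3, q4⟩ := hq
  rw [EuclideanSpace.dist_eq, Fin.sum_univ_two, Real.dist_eq, Real.dist_eq,
    Real.sqrt_lt' (by linarith), sq_abs, sq_abs]
  have h1 : |p 0 - q 0| < 2 * s := by
    rw [abs_lt]
    constructor <;> nlinarith
  have h2 : |p 1 - q 1| < 2 * s := by
    rw [abs_lt]
    constructor <;> nlinarith
  have h3 := abs_lt.1 h1
  have h4 := abs_lt.1 h2
  nlinarith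

end GRID

open GRID in
theorem t_GRID : S_GRID := by
  intro E hE hint ε hε
  set s : ℝ := ε / 4 with hs'
  have hs : 0 < s := by positivity
  obtain ⟨t, ht⟩ := exists_shift E hE hint s
  rcases E.eq_empty_or_nonempty with rfl | hne
  · exact ⟨0, fun i => i.elim0, fun i => i.elim0, fun i => i.elim0, by simp, by simp⟩
  obtain ⟨p0, hp0, hmin⟩ := hE.exists_isMinOn hne (ff_cont s t).continuousOn
  have hμ : 0 < ff s t p0 := ff_pos s hs t p0 fun i j h => ht i j (h ▸ hp0)
  set μ := ff s t p0 with hμ'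
  have hpi := Real.pi_pos
  set τ : ℝ := min (s / 8) (μ * s / (2 * Real.pi)) with hτ'
  have hτ : 0 < τ := by
    rw [hτ', lt_min_iff]
    constructor <;> positivity
  have hτs : τ < s / 4 := lt_of_le_of_lt (min_le_left _ _) (by linarith)
  have hτμ : Real.pi * τ / s < μ := by
    have h1 : τ ≤ μ * s / (2 * Real.pi) := min_le_right _ _
    rw [div_lt_iff₀ hs]
    calc Real.pi * τ ≤ Real.pi * (μ * s / (2 * Real.pi)) := by gcongr
      _ = μ * s / 2 := by field_simp
      _ < μ * s := by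
        have : 0 < μ * s := by positivity
        linarith
  -- bounds
  obtain ⟨B, hB⟩ := hE.isBounded.exists_norm_le
  have hc : ∀ p : E2, ∀ k : Fin 2, |p k| ≤ ‖p‖ := by
    intro p k
    have := PiLp.norm_apply_le p k
    simpa using this
  obtain ⟨M, hM⟩ : ∃ M : ℤ, (B + ‖t‖) / s + 1 < M := by
    obtain ⟨n, hn⟩ := exists_nat_gt ((B + ‖t‖) / s + 1)
    exact ⟨n, by exact_mod_cast hn⟩
  have hfl : ∀ p ∈ E, ∀ k : Fin 2, ⌊(p k - t k) / s⌋ ∈ Finset.Icc (-M) M := by
    intro p hp k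
    have h1 : |(p k - t k) / s| ≤ (B + ‖t‖) / s := by
      rw [abs_div, abs_of_pos hs]
      gcongr
      calc |p k - t k| ≤ |p k| + |t k| := abs_sub _ _
        _ ≤ B + ‖t‖ := add_le_add ((hc p k).trans (hB p hp)) (hc t k)
    have h2 := abs_le.1 h1
    rw [Finset.mem_Icc, Int.le_floor]
    constructor
    · push_cast
      linarith
    · have h3 : (⌊(p k - t k) / s⌋ : ℝ) ≤ M := by
        have := Int.floor_le ((p k - t k) / s)
        linarith
      exact_mod_cast h3
  set F : Finset (ℤ × ℤ) := Finset.Icc (-M) M ×ˢ Finset.Icc (-M) M with hF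
  let e := F.equivFin
  refine ⟨F.card, fun k => Q s τ t (e.symm k).1, fun k => Q_open _ _ _ _, ?_, ?_, ?_⟩
  · intro k p hp q hq
    have := Q_diam s τ hs hτs t _ p q hp hq
    have h4 : 4 * s = ε := by rw [hs']; ring
    linarith
  · intro p hp
    have hz : (⌊(p 0 - t 0) / s⌋, ⌊(p 1 - t 1) / s⌋) ∈ F :=
      Finset.mem_product.2 ⟨hfl p hp 0, hfl p hp 1⟩
    refine mem_iUnion.2 ⟨e ⟨_, hz⟩, ?_⟩
    show p ∈ Q s τ t (e.symm (e ⟨_, hz⟩)).1
    rw [Equiv.symm_apply_apply]
    have h1 : ∀ a : ℝ, s * ⌊a / s⌋ ≤ a := by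
      intro a
      have := Int.floor_le (a / s)
      rw [le_div_iff₀ hs] at this
      linarith
    have h2 : ∀ a : ℝ, a < s * (⌊a / s⌋ + 1) := by
      intro a
      have := Int.lt_floor_add_one (a / s)
      rw [div_lt_iff₀ hs] at this
      linarith
    have a1 := h1 (p 0 - t 0)
    have a2 := h2 (p 0 - t 0)
    have a3 := h1 (p 1 - t 1)
    have a4 := h2 (p 1 - t 1)
    refine ⟨?_, ?_, ?_, ?_⟩
    · show s * (⌊(p 0 - t 0) / s⌋ : ℝ) - τ < _
      linarith
    · show _ < s * ((⌊(p 0 - t 0) / s⌋ : ℝ) + 1) + τ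
      linarith
    · show s * (⌊(p 1 - t 1) / s⌋ : ℝ) - τ < _
      linarith
    · show _ < s * ((⌊(p 1 - t 1) / s⌋ : ℝ) + 1) + τ
      linarith
  · intro p hp
    obtain ⟨i1, hi1⟩ := two s τ (p 0 - t 0) hs hτs
    obtain ⟨j1, hj1⟩ := two s τ (p 1 - t 1) hs hτs
    have hfar : (∀ i : ℤ, τ < |(p 0 - t 0) - s * i|) ∨ (∀ j : ℤ, τ < |(p 1 - t 1) - s * j|) := by
      by_contra h
      push Not at h
      obtain ⟨⟨i, hi⟩, j, hj⟩ := h
      have h1 := sin_le s _ τ hs i hi
      have h2 := sin_le s _ τ hs j hj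
      have h3 : ff s t p ≤ Real.pi * τ / s := max_le h1 h2
      have h4 : μ ≤ ff s t p := hmin hp
      linarith
    have key : ∃ z0 z1 : ℤ × ℤ, ∀ z : ℤ × ℤ, p ∈ Q s τ t z → z = z0 ∨ z = z1 := by
      rcases hfar with hf | hf
      · refine ⟨(⌊(p 0 - t 0) / s⌋, ⌊(p 1 - t 1) / s⌋), (⌊(p 0 - t 0) / s⌋, j1), ?_⟩
        rintro ⟨i, j⟩ ⟨q1, q2, q3, q4⟩
        have h1 := one s τ _ hs hτs hf i q1 q2
        rcases hj1 j q3 q4 with h2 | h2
        · left; rw [h1, h2]
        · right; rw [h1, h2]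
      · refine ⟨(⌊(p 0 - t 0) / s⌋, ⌊(p 1 - t 1) / s⌋), (i1, ⌊(p 1 - t 1) / s⌋), ?_⟩
        rintro ⟨i, j⟩ ⟨q1, q2, q3, q4⟩
        have h1 := one s τ _ hs hτs hf j q3 q4
        rcases hi1 i q1 q2 with h2 | h2
        · left; rw [h1, h2]
        · right; rw [h1, h2]
    obtain ⟨z0, z1, hz⟩ := key
    refine le_trans (Set.ncard_le_ncard_of_injOn (t := {z0, z1}) (fun k => (e.symm k).1) ?_ ?_
      (by simp)) ?_
    · intro k hk
      rcases hz _ hk with h | h
      · exact Or.inl h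
      · exact Or.inr h
    · intro k _ k' _ hkk
      exact e.symm.injective (Subtype.ext hkk)
    · refine le_trans (Set.ncard_insert_le _ _) ?_
      simp

end CTO


end

section

/-!
# Module DIM1: closed nowhere dense subsets of the sphere have dimension at most 1
-/

set_option autoImplicit false

namespace CTO

open Set Topology

theorem t_DIM1 : M_DIM1 := by
  intro hGRID E hE hint k O hO hcov
  have hfact : Fact (Module.finrank ℝ R3 = 2 + 1) := ⟨by simp⟩
  have hne : (Metric.sphere (0 : R3) 1).Nonempty := NormedSpace.sphere_nonempty.2 zero_le_one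
  -- a point that is not in `E`
  obtain ⟨N, hN⟩ : ∃ N : S2, N ∉ E := by
    by_contra hcon
    push Not at hcon
    have h1 : E = univ := eq_univ_of_forall hcon
    rw [h1, interior_univ] at hint
    obtain ⟨x, hx⟩ := hne
    have h2 : (⟨x, hx⟩ : S2) ∈ (univ : Set S2) := mem_univ _
    rw [hint] at h2
    exact h2
  have hk : Nonempty (Fin k) := by
    have h1 : N ∈ ⋃ i, O i := by rw [hcov]; trivial
    obtain ⟨i, -⟩ := mem_iUnion.1 h1
    exact ⟨i⟩
  set h := stereographic' 2 N with hh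
  have hs : h.source = {N}ᶜ := stereographic'_source N
  have ht : h.target = univ := stereographic'_target N
  have hEs : E ⊆ h.source := by
    intro x hx
    rw [hs, mem_compl_iff, mem_singleton_iff]
    rintro rfl
    exact hN hx
  have hEc : IsCompact E := hE.isCompact
  have hE' : IsCompact (h '' E) := hEc.image_of_continuousOn (h.continuousOn.mono hEs)
  have hint' : interior (h '' E) = ∅ := by
    rw [eq_empty_iff_forall_notMem]
    intro p hp
    rw [mem_interior] at hp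
    obtain ⟨U, hUE, hU, hpU⟩ := hp
    have h1 : IsOpen (h.source ∩ h ⁻¹' U) := h.isOpen_inter_preimage hU
    have h2 : h.source ∩ h ⁻¹' U ⊆ E := by
      rintro x ⟨hx, hxU⟩
      obtain ⟨y, hy, hxy⟩ := hUE hxU
      rwa [← h.injOn (hEs hy) hx hxy]
    have h3 : h.source ∩ h ⁻¹' U ⊆ interior E := interior_maximal h2 h1
    rw [hint] at h3
    have hpt : p ∈ h.target := by rw [ht]; trivial
    exact h3 ⟨h.map_target hpt, by rw [mem_preimage, h.right_inv hpt]; exact hpU⟩
  -- the cover in the plane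
  obtain ⟨δ, hδ, hleb⟩ := lebesgue_number_lemma_of_metric (s := h '' E)
    (c := fun i => h.target ∩ h.symm ⁻¹' (O i)) hE'
    (fun i => h.isOpen_inter_preimage_symm (hO i)) (by
      intro p _
      have h1 : h.symm p ∈ ⋃ i, O i := by rw [hcov]; trivial
      obtain ⟨i, hi⟩ := mem_iUnion.1 h1
      exact mem_iUnion.2 ⟨i, by rw [ht]; trivial, hi⟩)
  obtain ⟨n, R, hRo, hRd, hRc, hR2⟩ := hGRID (h '' E) hE' hint' δ hδ
  have hc : ∀ j : Fin n, (R j ∩ h '' E).Nonempty →
      ∃ i : Fin k, R j ⊆ h.target ∩ h.symm ⁻¹' (O i) := by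
    rintro j ⟨x, hxR, hxE⟩
    obtain ⟨i, hi⟩ := hleb x hxE
    exact ⟨i, fun y hy => hi (Metric.mem_ball.2 (hRd j y hy x hxR))⟩
  choose! c hc using hc
  refine ⟨fun i => (O i \ E) ∪ (O i ∩ (h.source ∩ h ⁻¹'
    (⋃ j ∈ {j | (R j ∩ h '' E).Nonempty ∧ c j = i}, R j))), ?_, ?_, ?_, ?_⟩
  · intro i
    refine ((hO i).sdiff hE).union ((hO i).inter (h.isOpen_inter_preimage ?_))
    exact isOpen_biUnion fun j _ => hRo j
  · rintro i x (hx | hx)
    · exact hx.1
    · exact hx.1
  · rw [eq_univ_iff_forall]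
    intro x
    rw [mem_iUnion]
    by_cases hx : x ∈ E
    · have h1 : h x ∈ h '' E := mem_image_of_mem h hx
      obtain ⟨j, hj⟩ := mem_iUnion.1 (hRc h1)
      have hJ : (R j ∩ h '' E).Nonempty := ⟨h x, hj, h1⟩
      have h2 := hc j hJ hj
      have h3 : x ∈ O (c j) := by
        have := h2.2
        rwa [mem_preimage, h.left_inv (hEs hx)] at this
      refine ⟨c j, Or.inr ⟨h3, hEs hx, ?_⟩⟩
      rw [mem_preimage]
      exact mem_biUnion (show j ∈ {j' | (R j' ∩ h '' E).Nonempty ∧ c j' = c j} from ⟨hJ, rfl⟩) hj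
    · have h1 : x ∈ ⋃ i, O i := by rw [hcov]; trivial
      obtain ⟨i, hi⟩ := mem_iUnion.1 h1
      exact ⟨i, Or.inl ⟨hi, hx⟩⟩
  · intro v hv
    have h1 : {i | v ∈ (O i \ E) ∪ (O i ∩ (h.source ∩ h ⁻¹'
        (⋃ j ∈ {j | (R j ∩ h '' E).Nonempty ∧ c j = i}, R j)))} ⊆ c '' {j | h v ∈ R j} := by
      rintro i (hi | hi)
      · exact absurd hv hi.2
      · obtain ⟨-, -, h2⟩ := hi
        rw [mem_preimage, mem_iUnion₂] at h2
        obtain ⟨j, hj, hjv⟩ := h2
        exact ⟨j, hjv, hj.2⟩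
    have h2 := ncard_le_ncard h1 (toFinite _)
    have h3 := ncard_image_le (f := c) (s := {j | h v ∈ R j}) (toFinite _)
    have h4 := hR2 (h v) (mem_image_of_mem h hv)
    exact h2.trans (h3.trans h4)

end CTO


end

section

/-!
# POL: maps of the sphere into `ℝ³` are approximated by maps without zeros
-/

set_option autoImplicit false

namespace CTO

open Set Topology

namespace POL

/-- the algebra of the `C¹` functions -/
def Alg : Subalgebra ℝ C(R3, ℝ) where
  carrier := {g | ContDiff ℝ 1 (fun x => g x)}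
  mul_mem' := by
    intro a b ha hb
    have ha' : ContDiff ℝ 1 (fun x => a x) := ha
    have hb' : ContDiff ℝ 1 (fun x => b x) := hb
    exact ha'.mul hb'
  add_mem' := by
    intro a b ha hb
    have ha' : ContDiff ℝ 1 (fun x => a x) := ha
    have hb' : ContDiff ℝ 1 (fun x => b x) := hb
    exact ha'.add hb'
  algebraMap_mem' := by
    intro r
    change ContDiff ℝ 1 (fun _ : R3 => r)
    exact contDiff_const

theorem contDiff_coord (i : Fin 3) : ContDiff ℝ 1 (fun x : R3 => x i) :=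
  (contDiff_euclidean (𝕜 := ℝ) (f := fun x : R3 => x)).1 contDiff_id i

theorem alg_sep : Alg.SeparatesPoints := by
  intro x y hxy
  have h1 : ∃ i, x i ≠ y i := by
    by_contra hcon
    push Not at hcon
    exact hxy (by ext i; exact hcon i)
  obtain ⟨i, hi⟩ := h1
  exact ⟨fun z => z i, ⟨⟨fun z => z i, (contDiff_coord i).continuous⟩, contDiff_coord i, rfl⟩, hi⟩

/-- the parametrization of the sphere -/
noncomputable def par (x : EuclideanSpace ℝ (Fin 2)) : R3 :=
  WithLp.toLp 2 ![Real.cos (x 0) * Real.cos (x 1), Real.sin (x 0) * Real.cos (x 1), Real.sin (x 1)]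

theorem par_contDiff : ContDiff ℝ 1 par := by
  have hc : ∀ i : Fin 2, ContDiff ℝ 1 (fun x : EuclideanSpace ℝ (Fin 2) => x i) :=
    fun i => (contDiff_euclidean (𝕜 := ℝ) (f := fun x : EuclideanSpace ℝ (Fin 2) => x)).1
      contDiff_id i
  refine (contDiff_euclidean (𝕜 := ℝ)).2 ?_
  intro i
  fin_cases i
  · exact ((hc 0).cos).mul ((hc 1).cos)
  · exact ((hc 0).sin).mul ((hc 1).cos)
  · exact (hc 1).sin

theorem par_surj (v : S2) : ∃ x, par x = (v : R3) := by
  have h1 : ‖(v : R3)‖ = 1 := by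
    have := v.2
    rw [mem_sphere_zero_iff_norm] at this
    exact this
  have h2 : (v : R3) 0 ^ 2 + (v : R3) 1 ^ 2 + (v : R3) 2 ^ 2 = 1 := by
    have h3 := EuclideanSpace.norm_sq_eq (v : R3)
    rw [h1, Fin.sum_univ_three] at h3
    simp only [Real.norm_eq_abs, sq_abs] at h3
    linarith
  set a := (v : R3) 0 with ha
  set b := (v : R3) 1 with hb
  set c := (v : R3) 2 with hc
  have hc1 : -1 ≤ c ∧ c ≤ 1 := by
    constructor <;> nlinarith [sq_nonneg a, sq_nonneg b]
  let z : ℂ := ⟨a, b⟩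
  have hz : ‖z‖ = Real.cos (Real.arcsin c) := by
    rw [Real.cos_arcsin]
    have h4 : ‖z‖ ^ 2 = 1 - c ^ 2 := by
      rw [← Complex.normSq_eq_norm_sq, Complex.normSq_apply]
      change a * a + b * b = 1 - c ^ 2
      nlinarith
    rw [← h4, Real.sqrt_sq (norm_nonneg z)]
  refine ⟨WithLp.toLp 2 ![Complex.arg z, Real.arcsin c], ?_⟩
  ext i
  fin_cases i
  · change Real.cos (Complex.arg z) * Real.cos (Real.arcsin c) = a
    rw [← hz, mul_comm, Complex.norm_mul_cos_arg]
  · change Real.sin (Complex.arg z) * Real.cos (Real.arcsin c) = b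
    rw [← hz, mul_comm, Complex.norm_mul_sin_arg]
  · change Real.sin (Real.arcsin c) = c
    exact Real.sin_arcsin hc1.1 hc1.2

/-- approximation by a `C¹` map of the whole space -/
theorem approx (f : S2 → R3) (hf : Continuous f) (ε : ℝ) (hε : 0 < ε) :
    ∃ p : R3 → R3, ContDiff ℝ 1 p ∧ ∀ v : S2, dist (p v) (f v) < ε := by
  obtain ⟨f', hf'⟩ : ∃ f' : C(R3, R3), ∀ v : S2, f' v = f v := by
    obtain ⟨f', h⟩ := ContinuousMap.exists_restrict_eq (Metric.isClosed_sphere (x := (0 : R3))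
      (ε := 1)) (⟨f, hf⟩ : C(S2, R3))
    refine ⟨f', fun v => ?_⟩
    have h1 := congrArg (fun k : C(S2, R3) => k v) h
    exact h1
  have key : ∀ i : Fin 3, ∃ g : R3 → ℝ, ContDiff ℝ 1 g ∧
      ∀ v : S2, |g v - f v i| < ε / 2 := by
    intro i
    obtain ⟨g, hg, hgf⟩ :=
      ContinuousMap.exists_mem_subalgebra_near_continuous_of_isCompact_of_separatesPoints
        alg_sep (⟨fun x => f' x i, by fun_prop⟩ : C(R3, ℝ))
        (isCompact_sphere (0 : R3) 1) (half_pos hε)
    refine ⟨fun x => g x, hg, fun v => ?_⟩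
    have h1 := hgf v v.2
    rw [Real.norm_eq_abs] at h1
    have h2 : ((⟨fun x => f' x i, by fun_prop⟩ : C(R3, ℝ)) : R3 → ℝ) v = f v i := by
      change f' v i = f v i
      rw [hf' v]
    rw [h2] at h1
    exact h1
  choose g hg hgf using key
  refine ⟨fun x => WithLp.toLp 2 (fun i => g i x), (contDiff_euclidean (𝕜 := ℝ)).2 (fun i => hg i),
    fun v => ?_⟩
  rw [EuclideanSpace.dist_eq, Fin.sum_univ_three]
  have h3 : ∀ i, dist (g i v) (f v i) ^ 2 < (ε / 2) ^ 2 := by
    intro i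
    rw [Real.dist_eq]
    have h4 := hgf i v
    have h5 := abs_nonneg (g i v - f v i)
    nlinarith
  have h0 := h3 0
  have h1 := h3 1
  have h2 := h3 2
  change √(dist (g 0 v) (f v 0) ^ 2 + dist (g 1 v) (f v 1) ^ 2 + dist (g 2 v) (f v 2) ^ 2) < ε
  rw [Real.sqrt_lt' hε]
  nlinarith

end POL

theorem t_POL : S_POL := by
  intro f hf ε hε
  obtain ⟨p, hp, hpf⟩ := POL.approx f hf (ε / 2) (half_pos hε)
  have hdense : Dense (range (fun x => p (POL.par x)))ᶜ := by
    refine ContDiff.dense_compl_range_of_finrank_lt_finrank (hp.comp POL.par_contDiff) ?_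
    simp
  obtain ⟨w, hw, hwd⟩ := hdense.exists_dist_lt 0 (half_pos hε)
  refine ⟨fun v => p v - w, ?_, ?_, ?_⟩
  · exact (hp.continuous.comp continuous_subtype_val).sub continuous_const
  · intro v hv
    obtain ⟨x, hx⟩ := POL.par_surj v
    apply hw
    refine ⟨x, ?_⟩
    change p (POL.par x) = w
    rw [hx]
    exact sub_eq_zero.1 hv
  · intro v
    have h1 : dist (p v - w) (p v) < ε / 2 := by
      rw [dist_eq_norm, sub_sub_cancel_left, norm_neg]
      rwa [dist_zero_left] at hwd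
    calc dist (p v - w) (f v) ≤ dist (p v - w) (p v) + dist (p v) (f v) := dist_triangle _ _ _
      _ < ε / 2 + ε / 2 := add_lt_add h1 (hpf v)
      _ = ε := by ring

end CTO


end

section

set_option autoImplicit false

namespace CTO

open Set Topology

theorem t_SPH : M_SPH := by
  intro hHEP hPOL C f hC hf h0
  -- Tietze
  obtain ⟨f', hf'⟩ : ∃ f' : C(S2, R3), ∀ v ∈ C, f' v = f v := by
    let g : C(C, R3) := ⟨C.domRestrict f, continuousOn_iff_continuous_domRestrict.1 hf⟩
    obtain ⟨f', h⟩ := ContinuousMap.exists_restrict_eq hC g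
    refine ⟨f', fun v hv => ?_⟩
    have h1 := congrArg (fun k : C(C, R3) => k ⟨v, hv⟩) h
    exact h1
  -- a lower bound
  obtain ⟨η, hη, hηf⟩ : ∃ η : ℝ, 0 < η ∧ ∀ v ∈ C, η ≤ ‖f v‖ := by
    rcases C.eq_empty_or_nonempty with rfl | hne
    · exact ⟨1, one_pos, fun v hv => absurd hv (notMem_empty v)⟩
    · obtain ⟨v, hv, hmin⟩ := hC.isCompact.exists_isMinOn hne hf.norm
      exact ⟨‖f v‖, norm_pos_iff.2 (h0 v hv), fun w hw => hmin hw⟩
  obtain ⟨p, hp, hp0, hpf⟩ := hPOL f' f'.continuous η hη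
  refine hHEP S2 C f p p hC hf hp.continuousOn ?_ hp hp0 (fun v _ => rfl)
  intro v hv t ht0 ht1 hz
  have h1 : f v = t • (f v - p v) := by
    have h2 : (1 - t) • f v + t • p v = f v - t • (f v - p v) := by
      rw [sub_smul, one_smul, smul_sub]
      abel
    rw [h2] at hz
    exact sub_eq_zero.1 hz
  have h3 : ‖f v‖ = t * ‖f v - p v‖ := by
    conv_lhs => rw [h1]
    rw [norm_smul, Real.norm_eq_abs, abs_of_nonneg ht0]
  have h4 : ‖f v - p v‖ < η := by
    have h5 := hpf v
    rw [dist_eq_norm, hf' v hv] at h5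
    rwa [norm_sub_rev] at h5
  have h6 := hηf v hv
  have h7 : t * ‖f v - p v‖ ≤ 1 * ‖f v - p v‖ := by gcongr
  linarith

end CTO


end

section

/-!
# MP_6eac38_gt: module CLOP (locally constant approximation over a neighbourhood of a point)
-/

set_option autoImplicit false

namespace CTO

open Set Topology

namespace CLOP

/-- a locally constant approximation on a compact totally disconnected set, with a Lebesgue number -/
theorem approx {P : Type} [MetricSpace P] (Φ : Set P) (hc : IsCompact Φ)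
    (ht : IsTotallyDisconnected Φ) (f : P → R3) (hf : ContinuousOn f Φ) (η : ℝ) (hη : 0 < η) :
    ∃ (g : P → R3) (δ : ℝ), 0 < δ ∧ (range g).Finite ∧ (∀ y ∈ Φ, dist (g y) (f y) < η) ∧
      ∀ y ∈ Φ, ∀ z ∈ Φ, dist y z < δ → g y = g z := by
  classical
  have : CompactSpace Φ := isCompact_iff_compactSpace.1 hc
  have : TotallyDisconnectedSpace Φ := totallyDisconnectedSpace_subtype_iff.2 ht
  have hfc : Continuous (fun y : Φ => f y) := continuousOn_iff_continuous_domRestrict.1 hf
  have h1 : ∀ x : Φ, ∃ V : Set Φ, IsClopen V ∧ x ∈ V ∧ V ⊆ {y : Φ | dist (f y) (f x) < η} := by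
    intro x
    exact compact_exists_isClopen_in_isOpen
      (isOpen_lt (hfc.dist continuous_const) continuous_const) (by simpa using hη)
  choose V hV hxV hVU using h1
  obtain ⟨t, ht⟩ := isCompact_univ.elim_finite_subcover V (fun x => (hV x).isOpen)
    (fun x _ => mem_iUnion.2 ⟨x, hxV x⟩)
  have h2 : ∀ x : Φ, ∃ δ : ℝ, 0 < δ ∧ ∀ y z : Φ, y ∈ V x → dist z y < δ → z ∈ V x := by
    intro x
    obtain ⟨δ, hδ, hs⟩ := (hV x).isClosed.isCompact.exists_thickening_subset_open (hV x).isOpen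
      subset_rfl
    exact ⟨δ, hδ, fun y z hy hz => hs (Metric.mem_thickening_iff.2 ⟨y, hy, hz⟩)⟩
  choose d hd hdV using h2
  obtain ⟨δ, hδ, hδt⟩ : ∃ δ : ℝ, 0 < δ ∧ ∀ x ∈ t, δ ≤ d x := by
    clear ht
    induction t using Finset.induction_on with
    | empty => exact ⟨1, one_pos, by simp⟩
    | insert a s ha ih =>
      obtain ⟨δ, hδ, hδs⟩ := ih
      refine ⟨min δ (d a), lt_min hδ (hd a), ?_⟩
      intro x hx
      rcases Finset.mem_insert.1 hx with rfl | hx
      · exact min_le_right _ _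
      · exact (min_le_left _ _).trans (hδs x hx)
  let sel : Finset Φ → R3 := fun s => if h : s.Nonempty then f (h.choose : Φ) else 0
  let c : P → Finset Φ := fun y => t.filter (fun x => ∃ hy : y ∈ Φ, (⟨y, hy⟩ : Φ) ∈ V x)
  refine ⟨fun y => sel (c y), δ, hδ, ?_, ?_, ?_⟩
  · have hk : ∀ y, sel (c y) ∈ sel '' (t.powerset : Set (Finset Φ)) := fun y =>
      mem_image_of_mem sel (Finset.mem_coe.2 (Finset.mem_powerset.2 (Finset.filter_subset _ _)))
    exact ((t.powerset.finite_toSet).image sel).subset (range_subset_iff.2 hk)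
  · intro y hy
    obtain ⟨x, hx⟩ := mem_iUnion.1 (ht (mem_univ (⟨y, hy⟩ : Φ)))
    obtain ⟨hxt, hyx⟩ := mem_iUnion.1 hx
    have hne : (c y).Nonempty := ⟨x, Finset.mem_filter.2 ⟨hxt, hy, hyx⟩⟩
    obtain ⟨x0, hx0, h6⟩ : ∃ x0 : Φ, x0 ∈ c y ∧ sel (c y) = f (x0 : P) :=
      ⟨hne.choose, hne.choose_spec, dif_pos hne⟩
    obtain ⟨-, hy', h4⟩ := Finset.mem_filter.1 hx0
    have h5 := hVU x0 h4
    simp only [mem_ofPred_eq] at h5
    rw [dist_comm] at h5
    simp only [h6]
    exact h5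
  · intro y hy z hz hyz
    have h3 : c y = c z := by
      apply Finset.filter_congr
      intro x hx
      constructor
      · rintro ⟨hy', h4⟩
        refine ⟨hz, hdV x ⟨y, hy'⟩ ⟨z, hz⟩ h4 ?_⟩
        have : dist (⟨z, hz⟩ : Φ) ⟨y, hy'⟩ = dist y z := by rw [Subtype.dist_eq, dist_comm]
        rw [this]
        exact hyz.trans_le (hδt x hx)
      · rintro ⟨hz', h4⟩
        refine ⟨hy, hdV x ⟨z, hz'⟩ ⟨y, hy⟩ h4 ?_⟩
        have : dist (⟨y, hy⟩ : Φ) ⟨z, hz'⟩ = dist y z := rfl
        rw [this]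
        exact hyz.trans_le (hδt x hx)
    show sel (c y) = sel (c z)
    rw [h3]

end CLOP

theorem t_CLOP : S_CLOP := by
  classical
  intro P _ _ Q b f v hQ hb htd hf η hη
  have hΦc : IsCompact (Q ∩ b ⁻¹' {v}) := (hQ.inter (isClosed_singleton.preimage hb)).isCompact
  obtain ⟨g, δ, hδ, hgf, hg1, hg2⟩ := CLOP.approx (Q ∩ b ⁻¹' {v}) hΦc htd f
    (hf.mono inter_subset_left) (η / 2) (half_pos hη)
  have huc : UniformContinuousOn f Q := hQ.isCompact.uniformContinuousOn_of_continuous hf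
  obtain ⟨δ', hδ', huc'⟩ := Metric.uniformContinuousOn_iff.1 huc (η / 2) (half_pos hη)
  obtain ⟨r, hr, hr1, hr2⟩ : ∃ r : ℝ, 0 < r ∧ r ≤ δ / 2 ∧ r ≤ δ' :=
    ⟨min (δ / 2) δ', lt_min (half_pos hδ) hδ', min_le_left _ _, min_le_right _ _⟩
  let T : Set P := Metric.thickening r (Q ∩ b ⁻¹' {v})
  let w : P → R3 := fun p => if h : ∃ y ∈ Q ∩ b ⁻¹' {v}, dist p y < r then g h.choose else 0
  have hw : ∀ p, ∀ y ∈ Q ∩ b ⁻¹' {v}, dist p y < r → w p = g y := by
    intro p y hy hpy
    have h : ∃ y ∈ Q ∩ b ⁻¹' {v}, dist p y < r := ⟨y, hy, hpy⟩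
    have h1 : w p = g h.choose := dif_pos h
    rw [h1]
    apply hg2 _ h.choose_spec.1 _ hy
    calc dist h.choose y ≤ dist h.choose p + dist p y := dist_triangle _ _ _
      _ = dist p h.choose + dist p y := by rw [dist_comm]
      _ < r + r := add_lt_add h.choose_spec.2 hpy
      _ ≤ δ := by linarith
  have hK : IsClosed (b '' (Q \ T)) :=
    ((hQ.sdiff Metric.isOpen_thickening).isCompact.image hb).isClosed
  refine ⟨(b '' (Q \ T))ᶜ, hK.isOpen_compl, ?_, w, ?_, ?_, ?_⟩
  · rintro ⟨x, ⟨hxQ, hxT⟩, hxv⟩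
    exact hxT (Metric.mem_thickening_iff.2 ⟨x, ⟨hxQ, hxv⟩, by simpa using hr⟩)
  · apply (hgf.insert 0).subset
    rintro _ ⟨p, rfl⟩
    by_cases h : ∃ y ∈ Q ∩ b ⁻¹' {v}, dist p y < r
    · obtain ⟨y, hy, hpy⟩ := h
      rw [hw p y hy hpy]
      exact Or.inr ⟨y, rfl⟩
    · exact Or.inl (dif_neg h)
  · rintro x ⟨hxQ, hxN⟩
    have hxT : x ∈ T := by
      by_contra hxT
      exact hxN ⟨x, ⟨hxQ, hxT⟩, rfl⟩
    obtain ⟨y, hy, hxy⟩ := Metric.mem_thickening_iff.1 hxT
    have he : w =ᶠ[𝓝 x] fun _ => g y := by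
      have ho : IsOpen {p : P | dist p y < r} :=
        isOpen_lt (continuous_id.dist continuous_const) continuous_const
      exact Filter.mem_of_superset (ho.mem_nhds hxy) fun p hp => hw p y hy hp
    exact (continuousAt_const.congr he.symm).continuousWithinAt
  · rintro x ⟨hxQ, hxN⟩
    have hxT : x ∈ T := by
      by_contra hxT
      exact hxN ⟨x, ⟨hxQ, hxT⟩, rfl⟩
    obtain ⟨y, hy, hxy⟩ := Metric.mem_thickening_iff.1 hxT
    rw [hw x y hy hxy]
    have h1 := hg1 y hy
    have h2 := huc' y hy.1 x hxQ (by rw [dist_comm]; exact hxy.trans_le hr2)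
    calc dist (g y) (f x) ≤ dist (g y) (f y) + dist (f y) (f x) := dist_triangle _ _ _
      _ < η / 2 + η / 2 := add_lt_add h1 h2
      _ = η := by ring

end CTO


end

section

/-!
# MP_6eac38_gt: factorisation up to homotopy (module FACT)
-/

set_option autoImplicit false

namespace CTO

open Set Topology

namespace FACT

/-- a lower bound for the norms on a compact set -/
theorem exists_lower {P : Type} [MetricSpace P] [CompactSpace P] (Q : Set P) (f : P → R3)
    (hQ : IsClosed Q) (hf : ContinuousOn f Q) (h0 : ∀ x ∈ Q, f x ≠ 0) :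
    ∃ η : ℝ, 0 < η ∧ ∀ x ∈ Q, η ≤ ‖f x‖ := by
  rcases Q.eq_empty_or_nonempty with h | h
  · exact ⟨1, one_pos, by simp [h]⟩
  · obtain ⟨x, hx, hm⟩ := hQ.isCompact.exists_isMinOn h hf.norm
    exact ⟨‖f x‖, norm_pos_iff.mpr (h0 x hx), fun y hy => hm hy⟩

/-- distinct points of a finite set have distances bounded below -/
theorem finite_sep {S : Set R3} (hS : S.Finite) :
    ∃ ε : ℝ, 0 < ε ∧ ∀ a ∈ S, ∀ b ∈ S, dist a b < ε → a = b := by
  have hf : (S.offDiag).Finite := hS.offDiag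
  rcases (S.offDiag).eq_empty_or_nonempty with h | h
  · refine ⟨1, one_pos, fun a ha b hb _ => ?_⟩
    by_contra hab
    have : (a, b) ∈ S.offDiag := ⟨ha, hb, hab⟩
    rw [h] at this
    exact this
  · obtain ⟨p, hp, hm⟩ := Set.exists_min_image _ (fun p : R3 × R3 => dist p.1 p.2) hf h
    refine ⟨dist p.1 p.2, dist_pos.mpr hp.2.2, fun a ha b hb hd => ?_⟩
    by_contra hab
    have := hm (a, b) ⟨ha, hb, hab⟩
    simp only at this
    linarith

/-- a locally constant function with finite range is locally constant at a uniform scale -/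
theorem unif_const {P : Type} [MetricSpace P] [CompactSpace P] (A : Set P) (w : P → R3)
    (hA : IsCompact A) (hw : ContinuousOn w A) (hr : (range w).Finite) :
    ∃ δ : ℝ, 0 < δ ∧ ∀ x ∈ A, ∀ y ∈ A, dist x y < δ → w x = w y := by
  obtain ⟨ε, hε, h1⟩ := finite_sep hr
  have hu := hA.uniformContinuousOn_of_continuous hw
  rw [Metric.uniformContinuousOn_iff] at hu
  obtain ⟨δ, hδ, h2⟩ := hu ε hε
  exact ⟨δ, hδ, fun x hx y hy hd => h1 _ ⟨x, rfl⟩ _ ⟨y, rfl⟩ (h2 x hx y hy hd)⟩

/-- a direction off finitely many planes -/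
theorem exists_off {W : Set R3} (hW : W.Finite) :
    ∃ q : R3, ∀ a ∈ W, ∀ b ∈ W, q ∉ Submodule.span ℝ {a, b} := by
  classical
  have hf : (W ×ˢ W).Finite := hW.prod hW
  let s : Finset (Submodule ℝ R3) :=
    hf.toFinset.image fun p : R3 × R3 => Submodule.span ℝ {p.1, p.2}
  have hs : ⊤ ∉ s := by
    intro h
    obtain ⟨p, _, h1⟩ := Finset.mem_image.mp h
    have h2 : Module.finrank ℝ (Submodule.span ℝ ({p.1, p.2} : Set R3)) ≤ 2 := by
      have h3 := finrank_span_finset_le_card (R := ℝ) ({p.1, p.2} : Finset R3)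
      have h4 := Finset.card_le_two (a := p.1) (b := p.2)
      have h5 : ((({p.1, p.2} : Finset R3)) : Set R3) = {p.1, p.2} := by simp
      rw [h5] at h3
      exact h3.trans h4
    rw [h1, finrank_top] at h2
    simp at h2
  have h1 := Subspace.biUnion_ne_univ_of_top_notMem hs
  obtain ⟨q, hq⟩ := (Set.ne_univ_iff_exists_notMem _).mp h1
  refine ⟨q, fun a ha b hb hc => hq ?_⟩
  simp only [mem_iUnion]
  refine ⟨Submodule.span ℝ {a, b}, ?_, hc⟩
  exact Finset.mem_image.mpr ⟨(a, b), hf.mem_toFinset.mpr ⟨ha, hb⟩, rfl⟩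

/-- the set of points in at least three of finitely many closed sets is closed -/
theorem closed_three {k : ℕ} (A : Fin k → Set S2) (hA : ∀ i, IsClosed (A i)) :
    IsClosed {v | 3 ≤ {i | v ∈ A i}.ncard} := by
  have h : {v | 3 ≤ {i | v ∈ A i}.ncard} =
      ⋃ s ∈ {s : Set (Fin k) | 3 ≤ s.ncard}, ⋂ i ∈ s, A i := by
    ext v
    simp only [mem_ofPred_eq, mem_iUnion, mem_iInter, exists_prop]
    constructor
    · intro h
      exact ⟨_, h, fun i hi => hi⟩
    · rintro ⟨s, hs, h1⟩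
      exact hs.trans (Set.ncard_le_ncard (fun i hi => h1 i hi) (Set.toFinite _))
  rw [h]
  exact (Set.toFinite _).isClosed_biUnion fun s _ =>
    isClosed_biInter fun i _ => hA i

/-- a map on a compact set which is constant on the fibres of `b` factors -/
theorem factor {P : Type} [MetricSpace P] [CompactSpace P] (Q : Set P) (b : P → S2)
    (h : P → R3) (hQ : IsClosed Q) (hb : Continuous b) (hc : ContinuousOn h Q)
    (hf : ∀ x ∈ Q, ∀ y ∈ Q, b x = b y → h x = h y) :
    ∃ G : S2 → R3, ContinuousOn G (b '' Q) ∧ ∀ x ∈ Q, G (b x) = h x := by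
  classical
  let G : S2 → R3 := fun v => if hv : ∃ x ∈ Q, b x = v then h hv.choose else 0
  have hG : ∀ x ∈ Q, G (b x) = h x := by
    intro x hx
    have hv : ∃ y ∈ Q, b y = b x := ⟨x, hx, rfl⟩
    simp only [G, dif_pos hv]
    exact hf _ hv.choose_spec.1 _ hx hv.choose_spec.2
  refine ⟨G, ?_, hG⟩
  rw [continuousOn_iff_isClosed]
  intro t ht
  obtain ⟨u, hu, hu2⟩ := (continuousOn_iff_isClosed.mp hc) t ht
  refine ⟨b '' (u ∩ Q), ((hu.inter hQ).isCompact.image hb).isClosed, ?_⟩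
  ext v
  constructor
  · rintro ⟨h1, x, hx, rfl⟩
    have h2 : x ∈ h ⁻¹' t ∩ Q := ⟨by
      have h3 : G (b x) ∈ t := h1
      rw [hG x hx] at h3
      exact h3, hx⟩
    rw [hu2] at h2
    exact ⟨⟨x, h2, rfl⟩, x, hx, rfl⟩
  · rintro ⟨⟨x, hx, rfl⟩, _⟩
    have h2 : x ∈ u ∩ Q := hx
    rw [← hu2] at h2
    refine ⟨?_, x, hx.2, rfl⟩
    show G (b x) ∈ t
    rw [hG x hx.2]
    exact h2.1

/-- the set of the values over which there are two points at distance at least `δ` is closed -/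
theorem closed_E {P : Type} [MetricSpace P] [CompactSpace P] (Q : Set P) (b : P → S2)
    (hQ : IsClosed Q) (hb : Continuous b) (δ : ℝ) :
    IsClosed {v : S2 | ∃ x ∈ Q, ∃ y ∈ Q, b x = v ∧ b y = v ∧ δ ≤ dist x y} := by
  have h : {v : S2 | ∃ x ∈ Q, ∃ y ∈ Q, b x = v ∧ b y = v ∧ δ ≤ dist x y} =
      (fun p : P × P => b p.1) '' ((Q ×ˢ Q) ∩ {p | b p.1 = b p.2} ∩ {p | δ ≤ dist p.1 p.2}) := by
    ext v
    constructor
    · rintro ⟨x, hx, y, hy, h1, h2, h3⟩
      exact ⟨(x, y), ⟨⟨⟨hx, hy⟩, by simp [h1, h2]⟩, h3⟩, h1⟩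
    · rintro ⟨⟨x, y⟩, ⟨⟨⟨hx, hy⟩, h1⟩, h2⟩, h3⟩
      exact ⟨x, hx, y, hy, h3, by rw [← h3]; exact h1.symm, h2⟩
  rw [h]
  have h1 : IsClosed ((Q ×ˢ Q) ∩ {p : P × P | b p.1 = b p.2} ∩ {p | δ ≤ dist p.1 p.2}) :=
    ((hQ.prod hQ).inter (isClosed_eq (hb.comp continuous_fst) (hb.comp continuous_snd))).inter
      (isClosed_le continuous_const continuous_dist)
  exact (h1.isCompact.image (hb.comp continuous_fst)).isClosed

/-- the average of the locally constant approximations -/
theorem cont_f1 {P : Type} [MetricSpace P] {k : ℕ} (Q : Set P) (b : P → S2) (hb : Continuous b)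
    (φ : Fin k → C(S2, ℝ)) (N : Fin k → Set S2) (hN : ∀ i, IsOpen (N i))
    (hφ : ∀ i, tsupport (φ i) ⊆ N i) (w : Fin k → P → R3)
    (hw : ∀ i, ContinuousOn (w i) (Q ∩ b ⁻¹' N i)) :
    ContinuousOn (fun x => ∑ i, φ i (b x) • w i x) Q := by
  apply continuousOn_finsetSum
  intro i _ x hx
  by_cases h : b x ∈ tsupport (φ i)
  · have h1 : b x ∈ N i := hφ i h
    have h2 : ContinuousWithinAt (w i) Q x := by
      have h3 := hw i x ⟨hx, h1⟩
      rwa [continuousWithinAt_inter ((hN i).preimage hb |>.mem_nhds h1)] at h3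
    exact (((φ i).continuous.comp hb).continuousWithinAt).smul h2
  · have h1 : (fun x => φ i (b x) • w i x) =ᶠ[𝓝[Q] x] fun _ => (0 : R3) := by
      have h2 : (tsupport (φ i))ᶜ ∈ 𝓝 (b x) := (isClosed_tsupport _).isOpen_compl.mem_nhds h
      have h3 : ∀ᶠ y in 𝓝 x, b y ∈ (tsupport (φ i))ᶜ := hb.continuousAt.eventually h2
      filter_upwards [nhdsWithin_le_nhds h3] with y hy
      rw [image_eq_zero_of_notMem_tsupport hy, zero_smul]
    have h4 : φ i (b x) • w i x = 0 := by
      rw [image_eq_zero_of_notMem_tsupport h, zero_smul]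
    exact (continuousWithinAt_const (b := (0 : R3))).congr_of_eventuallyEq h1 h4

/-- convex combinations of close points are close -/
theorem close_f1 {k : ℕ} (c : Fin k → ℝ) (hc : ∀ i, 0 ≤ c i) (hs : ∑ i, c i = 1)
    (u : Fin k → R3) (y : R3) (η : ℝ) (h : ∀ i, c i ≠ 0 → dist (u i) y ≤ η) :
    ‖(∑ i, c i • u i) - y‖ ≤ η := by
  have h1 : (∑ i, c i • u i) - y = ∑ i, c i • (u i - y) := by
    simp_rw [smul_sub]
    rw [Finset.sum_sub_distrib, ← Finset.sum_smul, hs, one_smul]
  rw [h1]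
  calc ‖∑ i, c i • (u i - y)‖ ≤ ∑ i, ‖c i • (u i - y)‖ := norm_sum_le _ _
    _ ≤ ∑ i, c i * η := by
        apply Finset.sum_le_sum
        intro i _
        rw [norm_smul, Real.norm_eq_abs, abs_of_nonneg (hc i)]
        by_cases h2 : c i = 0
        · rw [h2, zero_mul, zero_mul]
        · rw [← dist_eq_norm]
          exact mul_le_mul_of_nonneg_left (h i h2) (hc i)
    _ = η := by rw [← Finset.sum_mul, hs, one_mul]

end FACT

open FACT in
theorem t_FACT : M_FACT := by
  classical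
  intro hD hCL P _ _ Q b f hQ hb htd hE hf h0
  obtain ⟨η, hη, hη1⟩ := exists_lower Q f hQ hf h0
  have hη2 : 0 < η / 2 := by linarith
  choose N hN hvN w hwr hwc hwd using fun v => hCL P Q b f v hQ hb (htd v) hf (η / 2) hη2
  -- finitely many of the sets `N v`
  obtain ⟨t, ht⟩ := isCompact_univ.elim_finite_subcover N hN
    (fun v _ => mem_iUnion.mpr ⟨v, hvN v⟩)
  let k := t.card
  let e : Fin k ≃ t := t.equivFin.symm
  let N1 : Fin k → Set S2 := fun i => N (e i)
  let w1 : Fin k → P → R3 := fun i => w (e i)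
  have hN1 : ∀ i, IsOpen (N1 i) := fun i => hN _
  have hcov : (⋃ i, N1 i) = univ := by
    apply eq_univ_of_univ_subset
    intro v hv
    have := ht hv
    simp only [mem_iUnion] at this
    obtain ⟨u, hu, hv2⟩ := this
    refine mem_iUnion.mpr ⟨e.symm ⟨u, hu⟩, ?_⟩
    simpa [N1] using hv2
  obtain ⟨O, hOu, hO, hOc⟩ := exists_iUnion_eq_closure_subset hN1
    (fun x => Set.toFinite _) hcov
  -- the scale
  have hδ : ∀ i, ∃ δ : ℝ, 0 < δ ∧ ∀ x ∈ Q ∩ b ⁻¹' closure (O i), ∀ y ∈ Q ∩ b ⁻¹' closure (O i),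
      dist x y < δ → w1 i x = w1 i y := by
    intro i
    apply unif_const
    · exact (hQ.inter (isClosed_closure.preimage hb)).isCompact
    · exact (hwc (e i)).mono (inter_subset_inter_right _ (preimage_mono (hOc i)))
    · exact hwr _
  choose δ0 hδ0 hδ1 using hδ
  obtain ⟨δ, hδ, hδ2⟩ : ∃ δ : ℝ, 0 < δ ∧ ∀ i, δ ≤ δ0 i := by
    rcases isEmpty_or_nonempty (Fin k) with h | h
    · exact ⟨1, one_pos, fun i => (h.false i).elim⟩
    · obtain ⟨i, hi⟩ := Finite.exists_min δ0
      exact ⟨δ0 i, hδ0 i, hi⟩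
  let E : Set S2 := {v : S2 | ∃ x ∈ Q, ∃ y ∈ Q, b x = v ∧ b y = v ∧ δ ≤ dist x y}
  have hEc : IsClosed E := closed_E Q b hQ hb δ
  obtain ⟨O', hO', hO'O, hO'u, hO'2⟩ := hD E hEc (hE δ hδ) k O hO hOu
  obtain ⟨φ, hφ⟩ := PartitionOfUnity.exists_isSubordinate (isClosed_univ (X := S2)) O' hO'
    (by rw [hO'u])
  have hsum : ∀ v, ∑ i, φ i v = 1 := by
    intro v
    have := φ.sum_eq_one (mem_univ v)
    rwa [finsum_eq_sum_of_fintype] at this
  have hnn : ∀ i v, 0 ≤ φ i v := fun i v => φ.nonneg i v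
  have hts : ∀ i, tsupport (φ i) ⊆ O' i := hφ
  have hO'N : ∀ i, O' i ⊆ N1 i := fun i => (hO'O i).trans (subset_closure.trans (hOc i))
  have hmem : ∀ i v, φ i v ≠ 0 → v ∈ tsupport (φ i) := fun i v h =>
    subset_tsupport _ h
  -- the first approximation
  let f1 : P → R3 := fun x => ∑ i, φ i (b x) • w1 i x
  have hf1c : ContinuousOn f1 Q :=
    cont_f1 Q b hb (fun i => φ i) N1 hN1 (fun i => (hts i).trans (hO'N i)) w1 (fun i => hwc _)
  have hf1d : ∀ x ∈ Q, ‖f1 x - f x‖ ≤ η / 2 := by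
    intro x hx
    apply close_f1 _ (fun i => hnn i (b x)) (hsum (b x))
    intro i hi
    exact (hwd (e i) x ⟨hx, hO'N i (hts i (hmem i _ hi))⟩).le
  have hf10 : ∀ x ∈ Q, f1 x ≠ 0 := by
    intro x hx h
    have h1 := hf1d x hx
    rw [h, zero_sub, norm_neg] at h1
    have h2 := hη1 x hx
    linarith
  -- the exceptional direction
  obtain ⟨q, hq⟩ := exists_off (W := ⋃ i, range (w1 i)) (Set.finite_iUnion fun i => hwr _)
  let T : Set S2 := {v | 3 ≤ {i | v ∈ tsupport (φ i)}.ncard}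
  have hT : IsClosed T := closed_three _ fun i => isClosed_tsupport _
  have hTE : Disjoint T E := by
    rw [Set.disjoint_left]
    intro v hv hvE
    have h1 : {i | v ∈ tsupport (φ i)}.ncard ≤ {i | v ∈ O' i}.ncard :=
      Set.ncard_le_ncard (fun i hi => hts i hi) (Set.toFinite _)
    have h2 := hO'2 v hvE
    have h3 : 3 ≤ {i | v ∈ tsupport (φ i)}.ncard := hv
    omega
  obtain ⟨μ, hμT, hμE, hμ⟩ := exists_continuous_zero_one_of_isClosed hT hEc hTE
  have hspan : ∀ x ∈ Q, b x ∉ T → ∃ a ∈ ⋃ i, range (w1 i), ∃ c ∈ ⋃ i, range (w1 i),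
      f1 x ∈ Submodule.span ℝ {a, c} := by
    intro x hx hT1
    have h1 : {i | b x ∈ tsupport (φ i)}.ncard ≤ 2 := by
      have : ¬ 3 ≤ {i | b x ∈ tsupport (φ i)}.ncard := hT1
      omega
    let S : Finset (Fin k) := Finset.univ.filter fun i => φ i (b x) ≠ 0
    have hS : S.card ≤ 2 := by
      have h2 : (S : Set (Fin k)) ⊆ {i | b x ∈ tsupport (φ i)} := by
        intro i hi
        have : φ i (b x) ≠ 0 := by simpa [S] using hi
        exact hmem i _ this
      have h3 := Set.ncard_le_ncard h2 (Set.toFinite _)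
      rw [Set.ncard_coe_finset] at h3
      omega
    have hne : Nonempty (Fin k) := by
      by_contra h
      rw [not_nonempty_iff] at h
      have := hsum (b x)
      simp at this
    obtain ⟨i, j, hij⟩ : ∃ i j, S ⊆ {i, j} := by
      rcases Nat.lt_or_ge S.card 2 with h | h
      · rcases Nat.lt_or_ge S.card 1 with h' | h'
        · have : S = ∅ := Finset.card_eq_zero.mp (by omega)
          obtain ⟨i⟩ := hne
          exact ⟨i, i, by simp [this]⟩
        · obtain ⟨i, hi⟩ := Finset.card_eq_one.mp (show S.card = 1 by omega)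
          exact ⟨i, i, by simp [hi]⟩
      · obtain ⟨i, j, _, hij⟩ := Finset.card_eq_two.mp (show S.card = 2 by omega)
        exact ⟨i, j, by rw [hij]⟩
    refine ⟨w1 i x, mem_iUnion.mpr ⟨i, x, rfl⟩, w1 j x, mem_iUnion.mpr ⟨j, x, rfl⟩, ?_⟩
    apply Submodule.sum_mem
    intro l _
    by_cases hl : φ l (b x) = 0
    · rw [hl, zero_smul]
      exact Submodule.zero_mem _
    · have h2 : l ∈ S := by simp [S, hl]
      have h3 := hij h2
      rw [Finset.mem_insert, Finset.mem_singleton] at h3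
      apply Submodule.smul_mem
      rcases h3 with rfl | rfl
      · exact Submodule.subset_span (by simp)
      · exact Submodule.subset_span (by simp)
  -- the second map
  let f2 : P → R3 := fun x => (1 - μ (b x)) • f1 x - μ (b x) • q
  have hf2c : ContinuousOn f2 Q := by
    have h1 : ContinuousOn (fun x => μ (b x)) Q := (μ.continuous.comp hb).continuousOn
    exact ((continuousOn_const.sub h1).smul hf1c).sub (h1.smul continuousOn_const)
  have hkey : ∀ x ∈ Q, ∀ s : ℝ, 0 ≤ s → (s ≠ 0 → b x ∉ T) → (1 - s) • f1 x - s • q ≠ 0 := by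
    intro x hx s hs hsT h
    by_cases hs0 : s = 0
    · rw [hs0] at h
      simp only [sub_zero, one_smul, zero_smul] at h
      exact hf10 x hx h
    · obtain ⟨a, ha, c, hc, hac⟩ := hspan x hx (hsT hs0)
      apply hq a ha c hc
      have h1 : s • q = (1 - s) • f1 x := (sub_eq_zero.mp h).symm
      have h2 : q = s⁻¹ • ((1 - s) • f1 x) := by
        rw [← h1, smul_smul, inv_mul_cancel₀ hs0, one_smul]
      rw [h2]
      exact Submodule.smul_mem _ _ (Submodule.smul_mem _ _ hac)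
  have hμT1 : ∀ x, μ (b x) ≠ 0 → b x ∉ T := by
    intro x h1 h2
    exact h1 (hμT h2)
  have hf2f : ∀ x ∈ Q, ∀ y ∈ Q, b x = b y → f2 x = f2 y := by
    intro x hx y hy hxy
    by_cases hv : b x ∈ E
    · have h1 : μ (b x) = 1 := hμE hv
      have h2 : μ (b y) = 1 := by rw [← hxy]; exact h1
      show (1 - μ (b x)) • f1 x - μ (b x) • q = (1 - μ (b y)) • f1 y - μ (b y) • q
      rw [h1, h2]
      simp
    · have h1 : dist x y < δ := by
        by_contra h
        exact hv ⟨x, hx, y, hy, rfl, hxy.symm, not_lt.mp h⟩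
      have h2 : f1 x = f1 y := by
        show ∑ i, φ i (b x) • w1 i x = ∑ i, φ i (b y) • w1 i y
        apply Finset.sum_congr rfl
        intro i _
        rw [← hxy]
        by_cases h3 : φ i (b x) = 0
        · rw [h3, zero_smul, zero_smul]
        · have h4 : b x ∈ closure (O i) := subset_closure (hO'O i (hts i (hmem i _ h3)))
          congr 1
          apply hδ1 i x ⟨hx, h4⟩ y ⟨hy, by rw [mem_preimage, ← hxy]; exact h4⟩
          exact h1.trans_le (hδ2 i)
      show (1 - μ (b x)) • f1 x - μ (b x) • q = (1 - μ (b y)) • f1 y - μ (b y) • q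
      rw [← hxy, h2]
  obtain ⟨G, hGc, hG⟩ := factor Q b f2 hQ hb hf2c hf2f
  refine ⟨f1, G, hf1c, hGc, ?_, ?_, ?_⟩
  · rintro v ⟨x, hx, rfl⟩
    rw [hG x hx]
    exact hkey x hx (μ (b x)) (hμ (b x)).1 (hμT1 x)
  · intro x hx t ht0 ht1 h
    have h1 : f x = -(t • (f1 x - f x)) := by
      have : (1 - t) • f x + t • f1 x = f x + t • (f1 x - f x) := by
        rw [sub_smul, one_smul, smul_sub]
        abel
      rw [this] at h
      exact eq_neg_of_add_eq_zero_left h
    have h2 := hη1 x hx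
    rw [h1, norm_neg, norm_smul, Real.norm_eq_abs, abs_of_nonneg ht0] at h2
    have h3 := hf1d x hx
    have h4 := norm_nonneg (f1 x - f x)
    nlinarith
  · intro x hx t ht0 ht1
    rw [hG x hx]
    have h1 : (1 - t) • f1 x + t • f2 x =
        (1 - t * μ (b x)) • f1 x - (t * μ (b x)) • q := by
      show (1 - t) • f1 x + t • ((1 - μ (b x)) • f1 x - μ (b x) • q) = _
      module
    rw [h1]
    apply hkey x hx _ (mul_nonneg ht0 (hμ (b x)).1)
    intro h2
    exact hμT1 x (fun h3 => h2 (by rw [h3, mul_zero]))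

end CTO


end

section

/-!
# MP_6eac38_gt, module LEMX: the extension lemma
-/

set_option autoImplicit false

namespace CTO

open Set Topology

theorem t_LEMX : M_LEMX := by
  intro hHEP hSPH hFACT P _ _ Q b f hQ hb hfib hint hf hf0
  obtain ⟨f1, G, hf1, hG, hG0, h01, h12⟩ := hFACT P Q b f hQ hb hfib hint hf hf0
  have hC : IsClosed (b '' Q) := (hQ.isCompact.image hb).isClosed
  obtain ⟨G', hG'c, hG'0, hG'e⟩ := hSPH (b '' Q) G hC hG hG0
  have hGb : ContinuousOn (fun x => G (b x)) Q :=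
    hG.comp hb.continuousOn (fun x hx => mem_image_of_mem b hx)
  obtain ⟨F', hF'c, hF'0, hF'e⟩ := hHEP P Q f1 (fun x => G (b x)) (fun x => G' (b x)) hQ hf1 hGb
    h12 (hG'c.comp hb) (fun x => hG'0 (b x)) (fun x hx => hG'e (mem_image_of_mem b hx))
  exact hHEP P Q f f1 F' hQ hf hf1 h01 hF'c hF'0 hF'e

end CTO


end

section

set_option autoImplicit false

namespace CTO

open Set Topology

theorem t_SEP : S_SEP := by
  intro X _ _ G g x hG hx hg htd
  obtain ⟨ε, hε, hball⟩ := Metric.nhds_basis_closedBall.mem_iff.1 (hG.mem_nhds hx)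
  set Φ : Set X := Metric.closedBall x ε ∩ g ⁻¹' {g x} with hΦ
  have hΦc : IsClosed Φ :=
    (hg.mono hball).preimage_isClosed_of_isClosed Metric.isClosed_closedBall isClosed_singleton
  have hΦt : IsTotallyDisconnected Φ :=
    fun t ht hpre => htd t (ht.trans fun y hy => ⟨hball hy.1, hy.2⟩) hpre
  have hxΦ : x ∈ Φ := ⟨Metric.mem_closedBall_self hε.le, rfl⟩
  have hK : CompactSpace Φ := isCompact_iff_compactSpace.1 hΦc.isCompact
  have hT : TotallyDisconnectedSpace Φ := (totallyDisconnectedSpace_subtype_iff).2 hΦt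
  obtain ⟨V, hV, hxV, hVb⟩ := compact_exists_isClopen_in_isOpen
    (x := (⟨x, hxΦ⟩ : Φ)) (U := Subtype.val ⁻¹' Metric.ball x ε)
    (Metric.isOpen_ball.preimage continuous_subtype_val) (Metric.mem_ball_self hε)
  have hemb : IsClosedEmbedding (Subtype.val : Φ → X) := hΦc.isClosedEmbedding_subtypeVal
  have h1 : IsClosed (Subtype.val '' V : Set X) := hemb.isClosedMap _ hV.1
  have h2 : IsClosed (Subtype.val '' Vᶜ : Set X) := hemb.isClosedMap _ hV.2.isClosed_compl
  obtain ⟨G1, hG1, hVG1, hG1c⟩ := normal_exists_closure_subset h1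
    (Metric.isOpen_ball.inter h2.isOpen_compl : IsOpen (Metric.ball x ε ∩ (Subtype.val '' Vᶜ)ᶜ))
    (by
      rintro _ ⟨y, hy, rfl⟩
      refine ⟨hVb hy, ?_⟩
      rintro ⟨z, hz, hzy⟩
      exact hz (Subtype.ext hzy ▸ hy))
  have hG1G : closure G1 ⊆ G := fun y hy => hball (Metric.ball_subset_closedBall (hG1c hy).1)
  refine ⟨G1, hG1, hVG1 ⟨_, hxV, rfl⟩, hG1G, ?_⟩
  have hne : ∀ y ∈ closure G1 \ G1, g y ≠ g x := by
    intro y hy he
    have hyΦ : y ∈ Φ := ⟨Metric.ball_subset_closedBall (hG1c hy.1).1, he⟩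
    by_cases hyV : (⟨y, hyΦ⟩ : Φ) ∈ V
    · exact hy.2 (hVG1 ⟨_, hyV, rfl⟩)
    · exact (hG1c hy.1).2 ⟨_, hyV, rfl⟩
  have hcomp : IsCompact (closure G1 \ G1) := (isClosed_closure.sdiff hG1).isCompact
  rcases (closure G1 \ G1).eq_empty_or_nonempty with he | hne'
  · refine ⟨1, one_pos, fun y hy hy' => ?_⟩
    have : y ∈ closure G1 \ G1 := ⟨hy, hy'⟩
    rw [he] at this
    exact this.elim
  · have hg' : ContinuousOn g (closure G1 \ G1) := hg.mono (sdiff_subset.trans hG1G)
    have hc : ContinuousOn (fun y => dist (g y) (g x)) (closure G1 \ G1) :=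
      continuous_dist.comp_continuousOn (hg'.prodMk continuousOn_const)
    obtain ⟨y0, hy0, hmin⟩ := hcomp.exists_isMinOn hne' hc
    refine ⟨dist (g y0) (g x), dist_pos.2 (hne y0 hy0), fun y hy hy' => ?_⟩
    exact hmin ⟨hy, hy'⟩

end CTO


end

section

/-!
# MP_6eac38_gt, module OBS1: a minimal closed set with an obstruction
-/

set_option autoImplicit false

namespace CTO

open Set Topology

namespace OBS1

/-- Tietze's theorem for `ContinuousOn` -/
theorem tietze {X : Type} [MetricSpace X] {K : Set X} (hK : IsClosed K) {F : X → R3}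
    (hF : ContinuousOn F K) : ∃ G : X → R3, Continuous G ∧ EqOn G F K := by
  haveI : TietzeExtension.{0, 0} R3 := TietzeExtension.of_tvs ℝ
  obtain ⟨g, hg⟩ := ContinuousMap.exists_restrict_eq hK
    (⟨K.restrict F, continuousOn_iff_continuous_restrict.1 hF⟩ : C(K, R3))
  refine ⟨g, g.continuous, fun x hx => ?_⟩
  have h := congrArg (fun φ : C(K, R3) => φ ⟨x, hx⟩) hg
  exact h

theorem chain_inf {X : Type} [MetricSpace X] [CompactSpace X] {L : Set X} {f : X → R3}
    (c : Set (Set X)) (hc : ∀ K ∈ c, IsClosed K ∧ L ⊆ K ∧ ¬ Ext L K f)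
    (hch : IsChain (· ⊆ ·) c) (hne : c.Nonempty) : ¬ Ext L (⋂₀ c) f := by
  rintro ⟨F, hF1, hF2, hF3⟩
  have hcl : IsClosed (⋂₀ c) := isClosed_sInter fun K hK => (hc K hK).1
  obtain ⟨G, hG1, hG2⟩ := tietze hcl hF1
  have hU : IsClosed {x | G x = 0} := isClosed_eq hG1 continuous_const
  haveI : Nonempty c := hne.to_subtype
  obtain ⟨K, hK⟩ := hU.isCompact.elim_directed_family_closed (fun K : c => (K : Set X))
    (fun K => (hc K K.2).1) (by
      rw [← sInter_eq_iInter]
      ext x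
      simp only [mem_inter_iff, mem_setOf_eq, mem_empty_iff_false, iff_false, not_and]
      intro h1 h2
      exact hF2 x h2 (by rw [← hG2 h2]; exact h1)) (by
      intro A B
      rcases hch.total A.2 B.2 with h | h
      · exact ⟨A, subset_rfl, h⟩
      · exact ⟨B, h, subset_rfl⟩)
  refine (hc K K.2).2.2 ⟨G, hG1.continuousOn, ?_, ?_⟩
  · intro x hx h0
    have : x ∈ ({x | G x = 0} ∩ (K : Set X) : Set X) := ⟨h0, hx⟩
    rw [hK] at this
    exact this
  · intro x hx
    rw [hG2 (mem_sInter.2 fun K' hK' => (hc K' hK').2.1 hx)]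
    exact hF3 hx

end OBS1

open OBS1 in
theorem t_OBS1 : S_OBS1 := by
  rintro X _ _ ⟨L, K, f, hL, hK, hLK, hf, hf0, hE⟩
  obtain ⟨K', hK'K, hmin⟩ := zorn_superset_nonempty
    {K' : Set X | IsClosed K' ∧ L ⊆ K' ∧ ¬ Ext L K' f} (fun c hc hch hne =>
      ⟨⋂₀ c, ⟨isClosed_sInter fun A hA => (hc hA).1,
        subset_sInter fun A hA => (hc hA).2.1, chain_inf c (fun A hA => hc hA) hch hne⟩,
        fun A hA => sInter_subset_of_mem hA⟩) K ⟨hK, hLK, hE⟩
  obtain ⟨h1, h2, h3⟩ := hmin.prop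
  have hne : ∃ x, x ∈ K' ∧ x ∉ L := by
    by_contra hcon
    push Not at hcon
    have e : K' = L := subset_antisymm hcon h2
    apply h3
    rw [e]
    exact ⟨f, hf, hf0, fun _ _ => rfl⟩
  obtain ⟨x, hx1, hx2⟩ := hne
  refine ⟨x, L, K', f, hL, h1, h2, hx1, hx2, hf, hf0, h3, ?_⟩
  intro W hW hxW
  by_contra hcon
  have hmem : (K' \ W) ∪ L ∈ {K' : Set X | IsClosed K' ∧ L ⊆ K' ∧ ¬ Ext L K' f} :=
    ⟨(h1.sdiff hW).union hL, subset_union_right, hcon⟩
  have hsub : (K' \ W) ∪ L ⊆ K' := union_subset diff_subset h2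
  have h4 := hmin.le_of_le hmem hsub
  rcases h4 hx1 with h5 | h5
  · exact h5.2 hxW
  · exact hx2 h5

end CTO


end

section

/-!
# MAN: a generically injective open map gives a manifold
-/

namespace CTO

open Set Topology

namespace MAN

theorem inj {X : Type} [MetricSpace X] [CompactSpace X] (V : Set X) (g : X → R3) (hV : IsOpen V)
    (hgi : GenInj V g) (ho : ∀ G ⊆ V, IsOpen G → IsOpen (g '' G)) : InjOn g V := by
  intro x hx y hy hxy
  by_contra hne
  have hd : 0 < dist x y := dist_pos.2 hne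
  obtain ⟨r1, hr1, hb1⟩ := Metric.isOpen_iff.1 hV x hx
  obtain ⟨r2, hr2, hb2⟩ := Metric.isOpen_iff.1 hV y hy
  obtain ⟨e, he0, he1, he2, he3⟩ : ∃ e : ℝ, 0 < e ∧ e < r1 ∧ e < r2 ∧ 2 * e < dist x y := by
    refine ⟨min (min r1 r2) (dist x y / 2) / 2, by positivity, ?_, ?_, ?_⟩
    · have h1 : min (min r1 r2) (dist x y / 2) ≤ r1 := (min_le_left _ _).trans (min_le_left _ _)
      linarith
    · have h1 : min (min r1 r2) (dist x y / 2) ≤ r2 := (min_le_left _ _).trans (min_le_right _ _)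
      linarith
    · have h1 : min (min r1 r2) (dist x y / 2) ≤ dist x y / 2 := min_le_right _ _
      linarith
  have hc1 : Metric.closedBall x e ⊆ V := (Metric.closedBall_subset_ball he1).trans hb1
  have hc2 : Metric.closedBall y e ⊆ V := (Metric.closedBall_subset_ball he2).trans hb2
  have hdis : Disjoint (Metric.closedBall x e) (Metric.closedBall y e) :=
    Metric.closedBall_disjoint_closedBall (by linarith)
  have h1 := hgi _ _ Metric.isClosed_closedBall.isCompact Metric.isClosed_closedBall.isCompact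
    hc1 hc2 hdis
  have o1 : IsOpen (g '' Metric.ball x e) :=
    ho _ (Metric.ball_subset_closedBall.trans hc1) Metric.isOpen_ball
  have o2 : IsOpen (g '' Metric.ball y e) :=
    ho _ (Metric.ball_subset_closedBall.trans hc2) Metric.isOpen_ball
  have h2 : g '' Metric.ball x e ∩ g '' Metric.ball y e ⊆
      g '' Metric.closedBall x e ∩ g '' Metric.closedBall y e :=
    inter_subset_inter (image_mono Metric.ball_subset_closedBall)
      (image_mono Metric.ball_subset_closedBall)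
  have h3 : g x ∈ interior (g '' Metric.closedBall x e ∩ g '' Metric.closedBall y e) := by
    rw [mem_interior]
    exact ⟨_, h2, o1.inter o2, ⟨x, Metric.mem_ball_self he0, rfl⟩,
      ⟨y, Metric.mem_ball_self he0, hxy.symm⟩⟩
  rw [h1] at h3
  exact h3

/-- an open ball of `R3` is homeomorphic to `R3` -/
theorem ball_homeo (z : R3) (r : ℝ) (hr : 0 < r) : Nonempty (Metric.ball z r ≃ₜ R3) := by
  let e := OpenPartialHomeomorph.univBall z r
  have hs : e.source = univ := OpenPartialHomeomorph.univBall_source z r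
  have ht : e.target = Metric.ball z r := OpenPartialHomeomorph.univBall_target z hr
  exact ⟨(Homeomorph.setCongr ht.symm).trans (e.toHomeomorphSourceTarget.symm.trans
    ((Homeomorph.setCongr hs).trans (Homeomorph.Set.univ R3)))⟩

theorem local_homeo {X : Type} [MetricSpace X] [CompactSpace X] (V : Set X) (g : X → R3)
    (hV : IsOpen V) (hg : ContinuousOn g V) (hgi : GenInj V g)
    (ho : ∀ G ⊆ V, IsOpen G → IsOpen (g '' G)) (x0 : X) (hx0 : x0 ∈ V) :
    ∃ V0 : Set X, IsOpen V0 ∧ x0 ∈ V0 ∧ Nonempty (V0 ≃ₜ R3) := by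
  have hinj := inj V g hV hgi ho
  obtain ⟨r, hr, hb⟩ := Metric.isOpen_iff.1 (ho V subset_rfl hV) (g x0) ⟨x0, hx0, rfl⟩
  have hV0 : IsOpen (V ∩ g ⁻¹' Metric.ball (g x0) r) :=
    hg.isOpen_inter_preimage hV Metric.isOpen_ball
  refine ⟨V ∩ g ⁻¹' Metric.ball (g x0) r, hV0, ⟨hx0, Metric.mem_ball_self hr⟩, ?_⟩
  let φ : (V ∩ g ⁻¹' Metric.ball (g x0) r : Set X) → R3 := fun v => g v
  have hφc : Continuous φ :=
    (continuousOn_iff_continuous_restrict.1 (hg.mono inter_subset_left))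
  have hφi : Function.Injective φ := by
    intro a b hab
    exact Subtype.ext (hinj a.2.1 b.2.1 hab)
  have hφo : IsOpenMap φ := by
    intro S hS
    have h1 : IsOpen ((Subtype.val : (V ∩ g ⁻¹' Metric.ball (g x0) r : Set X) → X) '' S) :=
      hV0.isOpenMap_subtype_val S hS
    have h2 : φ '' S = g '' ((Subtype.val :
        (V ∩ g ⁻¹' Metric.ball (g x0) r : Set X) → X) '' S) := by
      rw [image_image]
    rw [h2]
    refine ho _ ?_ h1
    rintro _ ⟨a, -, rfl⟩
    exact a.2.1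
  have hemb : IsOpenEmbedding φ := IsOpenEmbedding.of_continuous_injective_isOpenMap hφc hφi hφo
  have hrange : range φ = Metric.ball (g x0) r := by
    ext z
    constructor
    · rintro ⟨a, rfl⟩
      exact a.2.2
    · intro hz
      obtain ⟨v, hv, hvz⟩ := hb hz
      exact ⟨⟨v, hv, by rw [mem_preimage, hvz]; exact hz⟩, hvz⟩
  obtain ⟨e⟩ := ball_homeo (g x0) r hr
  exact ⟨hemb.isEmbedding.toHomeomorph.trans ((Homeomorph.setCongr hrange).trans e)⟩

end MAN

theorem t_MAN : S_MAN := by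
  intro X _ _ hX V g hV hVne hg hgi ho
  refine ⟨inferInstance, inferInstance, ?_⟩
  obtain ⟨x0, hx0⟩ := hVne
  obtain ⟨V0, hV0, hx00, ⟨e⟩⟩ := MAN.local_homeo V g hV hg hgi ho x0 hx0
  intro x
  obtain ⟨h, hh⟩ := hX x x0
  refine ⟨h ⁻¹' V0, hV0.preimage h.continuous, by rw [mem_preimage, hh]; exact hx00, ?_⟩
  exact ⟨(h.subtype (p := fun y => y ∈ h ⁻¹' V0) (q := fun y => y ∈ V0)
    (fun y => Iff.rfl)).trans e⟩

end CTO


end

section

/-!
# MP_6eac38_gt, module EASY: compact metric 3-manifolds have the maps of (b) and (c)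
-/

set_option autoImplicit false

namespace CTO

open Set Topology

namespace EASY

open Classical in
/-- a chart extended by zero -/
noncomputable def ext {X : Type} [TopologicalSpace X] (V : Set X) (h : V ≃ₜ R3) : X → R3 :=
  fun x => if hx : x ∈ V then h ⟨x, hx⟩ else 0

theorem ext_apply {X : Type} [TopologicalSpace X] (V : Set X) (h : V ≃ₜ R3) (x : X) (hx : x ∈ V) :
    ext V h x = h ⟨x, hx⟩ := by
  unfold ext
  rw [dif_pos hx]

theorem ext_cont {X : Type} [TopologicalSpace X] (V : Set X) (h : V ≃ₜ R3) :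
    ContinuousOn (ext V h) V := by
  rw [continuousOn_iff_continuous_domRestrict]
  have : V.domRestrict (ext V h) = h := by
    funext x
    rw [Set.domRestrict_apply, ext_apply V h x.1 x.2]
  rw [this]
  exact h.continuous

theorem ext_inj {X : Type} [TopologicalSpace X] (V : Set X) (h : V ≃ₜ R3) :
    InjOn (ext V h) V := by
  intro x hx y hy hxy
  rw [ext_apply V h x hx, ext_apply V h y hy] at hxy
  have := h.injective hxy
  exact congrArg Subtype.val this

theorem fib_sub {X : Type} [TopologicalSpace X] (V : Set X) (h : V ≃ₜ R3) (z : R3) :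
    (V ∩ ext V h ⁻¹' {z}).Subsingleton := by
  intro x hx y hy
  exact ext_inj V h hx.1 hy.1 (by
    have h1 : ext V h x = z := hx.2
    have h2 : ext V h y = z := hy.2
    rw [h1, h2])

theorem countMaps (X : Type) [MetricSpace X] [CompactSpace X] (hX : IsMfd3 X) :
    CountMaps X := by
  have hc := hX.2.2
  choose V hVo hxV hV using hc
  have hball : ∀ x : X, ∃ ε : ℝ, 0 < ε ∧ Metric.closedBall x ε ⊆ V x := by
    intro x
    exact Metric.nhds_basis_closedBall.mem_iff.1 ((hVo x).mem_nhds (hxV x))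
  choose ε hε hεV using hball
  obtain ⟨t, ht⟩ := isCompact_univ.elim_nhds_subcover (fun x => Metric.ball x (ε x))
    (fun x _ => Metric.ball_mem_nhds x (hε x))
  have ht2 := ht.2
  refine ⟨fun n => match t.toList[n]? with
    | some x => Metric.closedBall x (ε x)
    | none => ∅, ?_, ?_, ?_⟩
  · intro i
    rcases h : t.toList[i]? with _ | x
    · simp only [h]
      exact isClosed_empty
    · simp only [h]
      exact Metric.isClosed_closedBall
  · rw [eq_univ_iff_forall]
    intro y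
    have hy := ht2 (mem_univ y)
    rw [mem_iUnion₂] at hy
    obtain ⟨x, hxt, hyx⟩ := hy
    rw [mem_iUnion]
    have hxl : x ∈ t.toList := Finset.mem_toList.2 hxt
    obtain ⟨n, hn⟩ := List.mem_iff_getElem?.1 hxl
    refine ⟨n, ?_⟩
    simp only [hn]
    exact Metric.ball_subset_closedBall hyx
  · intro i
    rcases h : t.toList[i]? with _ | x
    · refine ⟨fun _ => 0, continuousOn_const, ?_⟩
      intro z
      simp only [h]
      rw [empty_inter]
      exact countable_empty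
    · obtain ⟨hx⟩ := hV x
      refine ⟨ext (V x) hx, ?_, ?_⟩
      · simp only [h]
        exact (ext_cont (V x) hx).mono (hεV x)
      · intro z
        simp only [h]
        exact ((fib_sub (V x) hx z).anti (inter_subset_inter_left _ (hεV x))).countable

theorem lightMap (X : Type) [MetricSpace X] [CompactSpace X] (hX : IsMfd3 X) (hn : Nonempty X) :
    LightMap X := by
  obtain ⟨x0⟩ := hn
  obtain ⟨V, hVo, hxV, ⟨h⟩⟩ := hX.2.2 x0
  refine ⟨V, ext V h, hVo, ⟨x0, hxV⟩, ext_cont V h, ?_, ?_⟩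
  · intro z s hs _
    exact (fib_sub V h z).anti hs
  · have : Iso V (ext V h) = univ := by
      rw [eq_univ_iff_forall]
      intro z
      refine ⟨(h.symm z).1, V, hVo, ?_⟩
      apply Set.Subset.antisymm
      · intro y hy
        rw [mem_singleton_iff]
        refine fib_sub V h z hy.2 ⟨(h.symm z).2, ?_⟩
        rw [mem_preimage, mem_singleton_iff, ext_apply V h _ (h.symm z).2]
        exact h.apply_symm_apply z
      · intro y hy
        rw [mem_singleton_iff] at hy
        subst hy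
        refine ⟨(h.symm z).2, (h.symm z).2, ?_⟩
        rw [mem_preimage, mem_singleton_iff, ext_apply V h _ (h.symm z).2]
        exact h.apply_symm_apply z
    rw [this]
    exact not_isMeagre_of_isOpen isOpen_univ univ_nonempty

end EASY

theorem t_EASY : S_EASY := by
  intro X _ _ hX hn
  exact ⟨EASY.countMaps X hX, EASY.lightMap X hX hn⟩

end CTO


end

section

/-!
# MP_6eac38_gt: the map is open
-/

set_option autoImplicit false

namespace CTO

open Set Topology

namespace OPEN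

theorem td_of_image {P X : Type} [TopologicalSpace P] [TopologicalSpace X] {j : P → X}
    (hj : Continuous j) (hi : Function.Injective j) {S : Set P} {T : Set X}
    (hT : IsTotallyDisconnected T) (h : ∀ x ∈ S, j x ∈ T) : IsTotallyDisconnected S := by
  intro t ht hp a ha b hb
  apply hi
  refine hT (j '' t) ?_ (hp.image j hj.continuousOn) ⟨a, ha, rfl⟩ ⟨b, hb, rfl⟩
  rintro _ ⟨x, hx, rfl⟩
  exact h x (ht hx)

theorem td_mono {X : Type} [TopologicalSpace X] {S T : Set X} (h : S ⊆ T)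
    (hT : IsTotallyDisconnected T) : IsTotallyDisconnected S :=
  fun t ht hp => hT t (ht.trans h) hp

/-- the main step -/
theorem step (hED : S_ED) (hRAD : S_RAD) (hLEMX : S_LEMX) (hSEP : S_SEP) {X : Type}
    [MetricSpace X] [CompactSpace X] {V G : Set X} {g : X → R3} (hg : ContinuousOn g V)
    (htd : ∀ z, IsTotallyDisconnected (V ∩ g ⁻¹' {z})) (hV : GenInj V g) (hGV : G ⊆ V)
    (hG : IsOpen G) {x1 : X} (hx1 : x1 ∈ G) (hobs : ObsAt X x1) : g '' G ∈ 𝓝 (g x1) := by
  classical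
  obtain ⟨L, K, f, hL, hK, hLK, hxK, hxL, hfc, hf0, hnot, hext⟩ := hobs
  set G' := G ∩ Lᶜ with hG'
  have hG'o : IsOpen G' := hG.inter hL.isOpen_compl
  have hxG' : x1 ∈ G' := ⟨hx1, hxL⟩
  have hG'V : G' ⊆ V := fun x hx => hGV hx.1
  obtain ⟨G1, hG1, hxG1, hcl, r0, hr0, hsep⟩ := hSEP X G' g x1 hG'o hxG'
    (hg.mono hG'V) (td_mono (inter_subset_inter_left _ hG'V) (htd (g x1)))
  have hG1G' : G1 ⊆ G' := subset_closure.trans hcl
  have hclV : closure G1 ⊆ V := hcl.trans hG'V
  have hgc : ContinuousOn g (closure G1) := hg.mono hclV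
  by_contra hcon
  have hcon' : g '' G' ∉ 𝓝 (g x1) := fun h =>
    hcon (Filter.mem_of_superset h (image_mono fun x hx => hx.1))
  -- the centre
  have hz' : ∃ z', z' ∉ g '' G' ∧ dist z' (g x1) < r0 / 3 := by
    by_contra h
    push Not at h
    apply hcon'
    rw [Metric.mem_nhds_iff]
    refine ⟨r0 / 3, by positivity, ?_⟩
    intro w hw
    by_contra hw2
    exact absurd (Metric.mem_ball.1 hw) (not_lt.2 (h w hw2))
  obtain ⟨z', hz'G, hz'd⟩ := hz'
  -- the radius
  obtain ⟨r, hr1, hr2, hr3⟩ := hRAD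
    (fun m : ℕ => {z : R3 | ∃ a ∈ closure G1, ∃ b ∈ closure G1, g a = z ∧ g b = z ∧
      1 / ((m : ℝ) + 1) ≤ dist a b})
    (fun m => (hED X V (closure G1) g isClosed_closure.isCompact hclV hgc hV _
      (by positivity)).1)
    (fun m => (hED X V (closure G1) g isClosed_closure.isCompact hclV hgc hV _
      (by positivity)).2) z' (r0 / 3) (2 * (r0 / 3)) (by positivity) (by linarith)
  have hr0' : 0 < r := lt_trans (by positivity) hr1
  -- the neighbourhood `W`
  set W := {y | y ∈ G1 ∧ dist (g y) z' < r} with hW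
  have hWo : IsOpen W := by
    have h1 : ContinuousOn (fun y => dist (g y) z') G1 :=
      Continuous.comp_continuousOn (g := fun w : R3 => dist w z')
        (continuous_id.dist continuous_const) (hgc.mono subset_closure)
    exact h1.isOpen_inter_preimage hG1 isOpen_Iio
  have hxW : x1 ∈ W := ⟨hxG1, by rw [dist_comm]; linarith⟩
  obtain ⟨F, hFc, hF0, hFf⟩ := hext W hWo hxW
  have hLW : ∀ y ∈ L, y ∉ closure G1 := fun y hy hy2 => (hcl hy2).2 hy
  -- the compact set
  set PK := {y | y ∈ K ∩ closure G1 ∧ dist (g y) z' ≤ r} with hPK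
  have hPKc : IsClosed PK := by
    have h1 : ContinuousOn (fun y => dist (g y) z') (K ∩ closure G1) :=
      Continuous.comp_continuousOn (g := fun w : R3 => dist w z')
        (continuous_id.dist continuous_const) (hgc.mono inter_subset_right)
    exact h1.preimage_isClosed_of_isClosed (hK.inter isClosed_closure) isClosed_Iic
  have hPKG1 : ∀ y ∈ PK, y ∈ G1 := by
    intro y hy
    by_contra hy2
    have h1 := hsep y hy.1.2 hy2
    have h2 := dist_triangle (g y) z' (g x1)
    have h3 := hy.2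
    linarith
  have hPKne : ∀ y ∈ PK, g y - z' ≠ 0 := by
    intro y hy h0
    apply hz'G
    exact ⟨y, hG1G' (hPKG1 y hy), sub_eq_zero.1 h0⟩
  have hunit : ∀ y : PK, ‖g y - z'‖⁻¹ • (g y - z') ∈ Metric.sphere (0 : R3) 1 := by
    intro y
    rw [mem_sphere_zero_iff_norm, norm_smul, norm_inv, norm_norm]
    exact inv_mul_cancel₀ (norm_ne_zero_iff.2 (hPKne y y.2))
  have hcomp : CompactSpace PK := isCompact_iff_compactSpace.1 hPKc.isCompact
  have hgPK : Continuous fun y : PK => g y :=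
    continuousOn_iff_continuous_domRestrict.1 (hgc.mono fun y hy => hy.1.2)
  let b : PK → S2 := fun y => ⟨‖g y - z'‖⁻¹ • (g y - z'), hunit y⟩
  have hb : Continuous b := by
    apply Continuous.subtype_mk
    have h1 : Continuous fun y : PK => g y - z' := hgPK.sub continuous_const
    exact (h1.norm.inv₀ fun y => norm_ne_zero_iff.2 (hPKne y y.2)).smul h1
  let Q : Set PK := {y | dist (g y) z' = r}
  have hQc : IsClosed Q := isClosed_eq (hgPK.dist continuous_const) continuous_const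
  have hgb : ∀ y ∈ Q, g y = z' + r • (b y : R3) := by
    intro y hy
    have h1 : ‖g y - z'‖ = r := by rw [← dist_eq_norm]; exact hy
    change g y = z' + r • (‖g y - z'‖⁻¹ • (g y - z'))
    rw [h1, smul_smul, mul_inv_cancel₀ hr0'.ne', one_smul]
    abel
  have hQK : ∀ y ∈ Q, (y : X) ∈ (K \ W) ∪ L := by
    intro y hy
    left
    exact ⟨y.2.1.1, fun h => absurd h.2 (not_lt.2 (le_of_eq (Eq.symm hy)))⟩
  obtain ⟨F', hF'c, hF'0, hF'e⟩ := hLEMX PK Q b (fun y => F y) hQc hb
    (by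
      intro v
      apply td_of_image continuous_subtype_val Subtype.val_injective (htd (z' + r • (v : R3)))
      rintro y ⟨hy, hyv⟩
      refine ⟨hclV y.2.1.2, ?_⟩
      have h1 := hgb y hy
      rw [show b y = v from hyv] at h1
      exact h1)
    (by
      intro δ hδ
      obtain ⟨m, hm⟩ := exists_nat_one_div_lt hδ
      rw [← subset_empty_iff, ← hr3 m]
      apply interior_mono
      rintro v ⟨x, hx, y, hy, hxv, hyv, hxy⟩
      refine ⟨x, x.2.1.2, y, y.2.1.2, ?_, ?_, hm.le.trans hxy⟩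
      · rw [hgb x hx, hxv]
      · rw [hgb y hy, hyv])
    (hFc.comp continuous_subtype_val.continuousOn hQK)
    (fun y hy => hF0 _ (hQK y hy))
  -- the extension
  apply hnot
  let F2 : X → R3 := fun x => if h : x ∈ PK then F' ⟨x, h⟩ else F x
  have hF2P : ∀ (x : X) (h : x ∈ PK), F2 x = F' ⟨x, h⟩ := fun x h => dif_pos h
  have hF2K : EqOn F2 F (K \ W) := by
    intro x hx
    by_cases h : x ∈ PK
    · rw [hF2P x h]
      apply hF'e
      have h1 : ¬ dist (g x) z' < r := fun h2 => hx.2 ⟨hPKG1 x h, h2⟩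
      exact le_antisymm h.2 (not_lt.1 h1)
    · exact dif_neg h
  have hcov : K = (K \ W) ∪ PK := by
    apply Subset.antisymm
    · intro x hx
      by_cases h : x ∈ W
      · right
        exact ⟨⟨hx, subset_closure h.1⟩, h.2.le⟩
      · left
        exact ⟨hx, h⟩
    · rintro x (hx | hx)
      · exact hx.1
      · exact hx.1.1
  refine ⟨F2, ?_, ?_, ?_⟩
  · rw [hcov]
    apply ContinuousOn.union_of_isClosed
    · exact (hFc.mono subset_union_left).congr hF2K
    · rw [continuousOn_iff_continuous_domRestrict]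
      have : PK.domRestrict F2 = F' := by
        funext y
        exact hF2P y.1 y.2
      rw [this]
      exact hF'c
    · exact hK.sdiff hWo
    · exact hPKc
  · intro x hx
    by_cases h : x ∈ PK
    · rw [hF2P x h]
      exact hF'0 _
    · have h2 : x ∈ K \ W := by
        rw [hcov] at hx
        exact hx.resolve_right h
      rw [hF2K h2]
      exact hF0 _ (Or.inl h2)
  · intro x hx
    have h2 : x ∈ K \ W := ⟨hLK hx, fun h => hLW x hx (subset_closure h.1)⟩
    rw [hF2K h2]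
    exact hFf hx

end OPEN

theorem t_OPEN : M_OPEN := by
  intro hED hRAD hLEMX hSEP X _ _ hobs V g _ hg htd hgen G hGV hG
  rw [isOpen_iff_mem_nhds]
  rintro _ ⟨x, hx, rfl⟩
  exact OPEN.step hED hRAD hLEMX hSEP hg htd hgen hGV hG hx (hobs x)

end CTO


end
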