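import Mathlib
import Pool.Agent.CTO.Stmts

/-! Parts: CTO.HEP -/

section

/-!
MP_6eac38_gt, module HEP: homotopy extension for a linear homotopy.
-/

set_option autoImplicit false

namespace CTO

open Set Topology

theorem t_HEP : S_HEP := by
  intro P _ _ Q f0 f1 F1 hQ h0 h1 hseg hF1 hF1n heq
  -- an extension of `f0 - f1`
  let φ : C(Q, R3) := ⟨fun x => f0 x - f1 x,
    (continuousOn_iff_continuous_domRestrict.1 h0).sub (continuousOn_iff_continuous_domRestrict.1 h1)⟩
  obtain ⟨D, hD⟩ := φ.exists_restrict_eq hQ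
  have hD' : ∀ x ∈ Q, D x = f0 x - f1 x := by
    intro x hx
    exact congrArg (fun g : C(Q, R3) => g ⟨x, hx⟩) hD
  -- the bad set
  let T : Set (ℝ × P) := (Icc (0 : ℝ) 1 ×ˢ univ) ∩ {z | F1 z.2 + z.1 • D z.2 = 0}
  have hTc : IsCompact T := by
    apply (isCompact_Icc.prod isCompact_univ).inter_right
    exact isClosed_eq (by fun_prop) continuous_const
  let B : Set P := Prod.snd '' T
  have hB : IsClosed B := (hTc.image continuous_snd).isClosed
  have hBQ : Disjoint B Q := by
    rw [Set.disjoint_left]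
    rintro x ⟨⟨s, y⟩, ⟨⟨hs, _⟩, hz⟩, rfl⟩ hx
    have hz' : F1 y + s • D y = 0 := hz
    rw [heq hx, hD' y hx] at hz'
    apply hseg y hx (1 - s) (by linarith [hs.2]) (by linarith [hs.1])
    rw [← hz']
    module
  obtain ⟨l, hl0, hl1, hl⟩ := exists_continuous_zero_one_of_isClosed hB hQ hBQ
  refine ⟨fun x => F1 x + l x • D x, by fun_prop, ?_, ?_⟩
  · intro x hx
    have hxB : x ∈ B := ⟨(l x, x), ⟨⟨hl x, mem_univ _⟩, hx⟩, rfl⟩
    have h2 : l x = 0 := hl0 hxB
    have hx' : F1 x + l x • D x = 0 := hx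
    rw [h2, zero_smul, add_zero] at hx'
    exact hF1n x hx'
  · intro x hx
    have h2 : l x = 1 := hl1 hx
    show F1 x + l x • D x = f0 x
    rw [h2, one_smul, heq hx, hD' x hx]
    abel

end CTO


end
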