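import Mathlib
import Pool.Agent.CTO.Stmts2

/-! Parts: CTO.SUBD, CTO.SUM, CTO.EFF, LIX.Defs, LIX.KTop, LIX.KSC, LIX.KPot, LIX.StmtsK, Lib_helper47.RBrouwer, LIX.K_EXT, CTO.BRO, CTO.CELL1, CTO.CELL2, CTO.MAN2 -/

section

/-!
# MP_6eac38_gt: closed subspaces
-/

set_option autoImplicit false

namespace CTO

open Set Topology

theorem t_SUBD : S_SUBD := by
  intro X _ n K hK hX k U hU hc
  rcases Nat.eq_zero_or_pos k with rfl | hk
  · refine ⟨U, hU, fun i => subset_rfl, hc, fun x => ?_⟩
    have : {i : Fin 0 | x ∈ U i} = ∅ := Set.eq_empty_of_forall_notMem fun i => i.elim0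
    rw [this, ncard_empty]
    exact Nat.zero_le _
  choose O hO hOU using fun i => isOpen_induced_iff.1 (hU i)
  obtain ⟨V, hV, hVO, hVc, hVn⟩ := hX k (fun i => O i ∪ Kᶜ)
    (fun i => (hO i).union hK.isOpen_compl) (by
      rw [eq_univ_iff_forall]
      intro x
      by_cases hx : x ∈ K
      · have h1 : (⟨x, hx⟩ : K) ∈ ⋃ i, U i := by
          rw [hc]
          trivial
        obtain ⟨i, hi⟩ := mem_iUnion.1 h1
        rw [← hOU i] at hi
        exact mem_iUnion.2 ⟨i, Or.inl hi⟩
      · exact mem_iUnion.2 ⟨⟨0, hk⟩, Or.inr hx⟩)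
  refine ⟨fun i => Subtype.val ⁻¹' V i, fun i => (hV i).preimage continuous_subtype_val,
    fun i x hx => ?_, ?_, fun x => hVn x⟩
  · rw [← hOU i]
    rcases hVO i hx with h | h
    · exact h
    · exact absurd x.2 h
  · rw [eq_univ_iff_forall]
    intro x
    have h1 : (x : X) ∈ ⋃ i, V i := by
      rw [hVc]
      trivial
    obtain ⟨i, hi⟩ := mem_iUnion.1 h1
    exact mem_iUnion.2 ⟨i, hi⟩

end CTO


end

section

/-!
# Module SUM: the finite sum theorem for the covering dimension (with shrinkings)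
-/

set_option autoImplicit false

namespace CTO

open Set Topology

namespace SUM

/-- one step: a shrinking with small order at the points of a closed set of small dimension -/
theorem step {X : Type} [TopologicalSpace X] {n : ℕ} {A : Set X} (hA : IsClosed A)
    (hS : ShrLE A n) {k : ℕ} (U : Fin k → Set X) (hU : ∀ i, IsOpen (U i))
    (hc : (⋃ i, U i) = univ) :
    ∃ V : Fin k → Set X, (∀ i, IsOpen (V i)) ∧ (∀ i, V i ⊆ U i) ∧ (⋃ i, V i) = univ ∧
      ∀ x ∈ A, {i | x ∈ V i}.ncard ≤ n + 1 := by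
  obtain ⟨G, hG1, hG2, hG3, hG4⟩ := hS k (fun i => (Subtype.val : A → X) ⁻¹' (U i))
    (fun i => (hU i).preimage continuous_subtype_val) (by
      rw [eq_univ_iff_forall]
      intro x
      have hx : (x : X) ∈ ⋃ i, U i := by rw [hc]; exact mem_univ _
      obtain ⟨i, hi⟩ := mem_iUnion.1 hx
      exact mem_iUnion.2 ⟨i, hi⟩)
  refine ⟨fun i => U i \ ((Subtype.val : A → X) '' (G i)ᶜ), ?_, ?_, ?_, ?_⟩
  · intro i
    exact (hU i).sdiff (hA.isClosedEmbedding_subtypeVal.isClosedMap _ (hG1 i).isClosed_compl)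
  · intro i
    exact sdiff_subset
  · rw [eq_univ_iff_forall]
    intro x
    by_cases hx : x ∈ A
    · have hx2 : (⟨x, hx⟩ : A) ∈ ⋃ i, G i := by rw [hG3]; exact mem_univ _
      obtain ⟨i, hi⟩ := mem_iUnion.1 hx2
      refine mem_iUnion.2 ⟨i, hG2 i hi, ?_⟩
      rintro ⟨y, hy, hyx⟩
      apply hy
      have e : y = ⟨x, hx⟩ := Subtype.ext hyx
      rw [e]
      exact hi
    · have hx2 : x ∈ ⋃ i, U i := by rw [hc]; exact mem_univ _
      obtain ⟨i, hi⟩ := mem_iUnion.1 hx2
      refine mem_iUnion.2 ⟨i, hi, ?_⟩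
      rintro ⟨y, hy, hyx⟩
      apply hx
      rw [← hyx]
      exact y.2
  · intro x hx
    refine le_trans (ncard_le_ncard ?_ (toFinite _)) (hG4 ⟨x, hx⟩)
    intro i hi
    by_contra hn
    exact hi.2 ⟨⟨x, hx⟩, hn, rfl⟩

/-- the first `j` closed sets -/
theorem steps {X : Type} [TopologicalSpace X] {n m : ℕ} {F : Fin m → Set X}
    (hF : ∀ j, IsClosed (F j)) (hS : ∀ j, ShrLE (F j) n) (j : ℕ) {k : ℕ} (U : Fin k → Set X)
    (hU : ∀ i, IsOpen (U i)) (hc : (⋃ i, U i) = univ) :
    ∃ V : Fin k → Set X, (∀ i, IsOpen (V i)) ∧ (∀ i, V i ⊆ U i) ∧ (⋃ i, V i) = univ ∧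
      ∀ a : Fin m, (a : ℕ) < j → ∀ x ∈ F a, {i | x ∈ V i}.ncard ≤ n + 1 := by
  induction j with
  | zero => exact ⟨U, hU, fun i => subset_rfl, hc, fun a ha => absurd ha (Nat.not_lt_zero _)⟩
  | succ j ih =>
    obtain ⟨V, hV1, hV2, hV3, hV4⟩ := ih
    by_cases hj : j < m
    · obtain ⟨W, hW1, hW2, hW3, hW4⟩ := step (hF ⟨j, hj⟩) (hS ⟨j, hj⟩) V hV1 hV3
      refine ⟨W, hW1, fun i => (hW2 i).trans (hV2 i), hW3, ?_⟩
      intro a ha x hx
      by_cases haj : (a : ℕ) < j
      · refine le_trans (ncard_le_ncard ?_ (toFinite _)) (hV4 a haj x hx)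
        intro i hi
        exact hW2 i hi
      · have e : a = ⟨j, hj⟩ := Fin.ext (by change (a : ℕ) = j; omega)
        rw [e] at hx
        exact hW4 x hx
    · refine ⟨V, hV1, hV2, hV3, ?_⟩
      intro a ha x hx
      exact hV4 a (by have := a.2; omega) x hx

end SUM

theorem t_SUM : S_SUM := by
  intro X _ n m F hF hFc hS k U hU hc
  obtain ⟨V, hV1, hV2, hV3, hV4⟩ := SUM.steps hF hS m U hU hc
  refine ⟨V, hV1, hV2, hV3, ?_⟩
  intro x
  have hx : x ∈ ⋃ j, F j := by rw [hFc]; exact mem_univ _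
  obtain ⟨j, hj⟩ := mem_iUnion.1 hx
  exact hV4 j j.2 x hj

end CTO


end

section

/-!
# MP_6eac38_gt, module EFF: a weak form of Effros' theorem
-/

set_option autoImplicit false

namespace CTO

open Set Topology

namespace EFF

variable {X : Type} [MetricSpace X]

/-- the orbit of `p` under the homeomorphisms near the identity -/
def A (p : X) (ε : ℝ) : Set X := {y | ∃ h : X ≃ₜ X, (∀ x, dist (h x) x < ε) ∧ h p = y}

theorem symm_lt {ε : ℝ} {h : X ≃ₜ X} (hh : ∀ x, dist (h x) x < ε) (x : X) :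
    dist (h.symm x) x < ε := by
  have h1 := hh (h.symm x)
  rw [h.apply_symm_apply, dist_comm] at h1
  exact h1

/-- countably many homeomorphisms that are dense for the uniform distance of the inverses -/
theorem exists_dense [CompactSpace X] {ε : ℝ} (hε : 0 < ε) :
    ∃ D : Set (X ≃ₜ X), D.Countable ∧ ∀ g : X ≃ₜ X, ∃ g' ∈ D, ∀ x, dist (g'.symm x) (g.symm x) < ε := by
  let Ψ : (X ≃ₜ X) → C(X, X) := fun g => ⟨g.symm, g.symm.continuous⟩
  obtain ⟨D, hD1, hD2⟩ := TopologicalSpace.exists_countable_dense (Set.range Ψ)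
  choose! φ hφ using fun t : Set.range Ψ => t.2
  refine ⟨φ '' D, hD1.image φ, fun g => ?_⟩
  obtain ⟨t, ht, htd⟩ := Metric.dense_iff.1 hD2 ⟨Ψ g, g, rfl⟩ ε hε
  refine ⟨φ t, ⟨t, htd, rfl⟩, fun x => ?_⟩
  rw [Metric.mem_ball, Subtype.dist_eq, ← hφ t] at ht
  exact lt_of_le_of_lt (ContinuousMap.dist_apply_le_dist (f := Ψ (φ t)) (g := Ψ g) x) ht

end EFF

/-- Module EFF. -/
theorem t_EFF : S_EFF := by
  intro X _ _ hX p ε hε
  have hε2 : 0 < ε / 2 := half_pos hε
  obtain ⟨D, hD1, hD2⟩ := EFF.exists_dense (X := X) hε2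
  have : Nonempty X := ⟨p⟩
  have : Countable D := hD1.to_subtype
  have hcov : (⋃ g : D, closure ((g : X ≃ₜ X) '' EFF.A p (ε / 2))) = univ := by
    rw [eq_univ_iff_forall]
    intro y
    obtain ⟨g, hg⟩ := hX p y
    obtain ⟨g', hg', hlt⟩ := hD2 g
    rw [mem_iUnion]
    refine ⟨⟨g', hg'⟩, subset_closure ?_⟩
    refine ⟨g'.symm (g p), ⟨g.trans g'.symm, fun x => ?_, rfl⟩, ?_⟩
    · have h1 := hlt (g x)
      rw [g.symm_apply_apply] at h1
      exact h1
    · rw [hg]
      exact g'.apply_symm_apply y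
  obtain ⟨g, hg⟩ := nonempty_interior_of_iUnion_of_closed (fun _ => isClosed_closure) hcov
  rw [← Homeomorph.image_closure, ← Homeomorph.image_interior, image_nonempty] at hg
  obtain ⟨z, hz⟩ := hg
  obtain ⟨y0, hy0, hy0A⟩ := mem_closure_iff.1 (interior_subset hz) _ isOpen_interior hz
  obtain ⟨h0, hh0, rfl⟩ := hy0A
  have h1 : p ∈ h0.symm '' interior (closure (EFF.A p (ε / 2))) :=
    ⟨h0 p, hy0, h0.symm_apply_apply p⟩
  rw [Homeomorph.image_interior, Homeomorph.image_closure] at h1
  refine interior_mono (closure_mono ?_) h1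
  rintro _ ⟨_, ⟨h, hh, rfl⟩, rfl⟩
  refine ⟨h.trans h0.symm, fun x => ?_, rfl⟩
  have h2 := EFF.symm_lt hh0 (h x)
  have h3 := hh x
  have h4 := dist_triangle (h0.symm (h x)) (h x) x
  change dist (h0.symm (h x)) x < ε
  linarith

end CTO


end

section

/-!
# LIX: definitions for MP_a9da24_gt (local index versus Euler characteristic and length)

Category: topological, with locally flat surfaces and bicollared disks in proper position.

* `Cells Y`: a 3-ball `body` with boundary sphere `bd` and the six edges of a tetrahedral cell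
  structure; `stdTet` is the standard 3-simplex.
* `IsSurf`: compact properly embedded surface, boundary missing the vertices and transversal to
  the 1-skeleton.  `HasChi`: Euler characteristic (finite cell decomposition).  `len`: total
  boundary length.
* `IsCompPar`, `IsEdgePar`: parametrised compressing and edge-compressing disks.
* `diskCpx`: the disk complex; `Cpx.Space`: the geometric realization with the weak topology.
* `HasIndex`, `WellDef`: local index, well-defined local index.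
-/

namespace Pool.Agent.LIX

open Set Metric

/-! ## Abstract simplicial complexes and their realizations -/

/-- An abstract simplicial complex on (a subset of) the vertex set `V`: a family of nonempty
finite sets closed under nonempty subsets. -/
structure Cpx (V : Type*) where
  /-- the simplices -/
  faces : Set (Finset V)
  nonempty_of_mem : ∀ s ∈ faces, s.Nonempty
  down_closed : ∀ s ∈ faces, ∀ t, t ⊆ s → t.Nonempty → t ∈ faces

/-- The underlying set of the geometric realization: functions `V → ℝ` (barycentric coordinates)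
with finite support, nonnegative, of total mass one, whose support is a simplex. -/
def Cpx.Space {V : Type*} (K : Cpx V) : Type _ :=
  {x : V →₀ ℝ // (∀ v, 0 ≤ x v) ∧ (x.sum fun _ r => r) = 1 ∧ x.support ∈ K.faces}

open Classical in
/-- The closed simplex spanned by `s`: the inclusion of the standard simplex with vertex set `s`
in the realization. -/
noncomputable def Cpx.simplexMap {V : Type*} (K : Cpx V) (s : K.faces)
    (y : stdSimplex ℝ (s : Finset V)) : K.Space :=
  ⟨Finsupp.onFinset (s : Finset V) (fun v => if h : v ∈ (s : Finset V) then y.1 ⟨v, h⟩ else 0)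
      (fun v hv => by
        by_contra h
        exact hv (dif_neg h)), by
    intro v
    rw [Finsupp.onFinset_apply]
    split_ifs with h
    · exact y.2.1 _
    · exact le_rfl, by
    have h1 : ∀ v ∈ (s : Finset V), (fun (_ : V) (r : ℝ) => r) v 0 = 0 := fun _ _ => rfl
    rw [Finsupp.onFinset_sum _ (fun _ => rfl)]
    rw [← y.2.2, ← Finset.sum_coe_sort (s : Finset V)]
    refine Finset.sum_congr rfl fun v _ => ?_
    rw [dif_pos v.2], by
    have hs : (Finsupp.onFinset (s : Finset V)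
        (fun v => if h : v ∈ (s : Finset V) then y.1 ⟨v, h⟩ else 0)
      (fun v hv => by
        by_contra h
        exact hv (dif_neg h))).support ⊆ (s : Finset V) := Finsupp.support_onFinset_subset
    refine K.down_closed _ s.2 _ hs ?_
    by_contra hne
    rw [Finset.not_nonempty_iff_eq_empty, Finsupp.support_eq_empty] at hne
    have h0 : ∀ v : (s : Finset V), y.1 v = 0 := by
      intro v
      have h2 := DFunLike.congr_fun hne (v : V)
      rw [Finsupp.onFinset_apply, dif_pos v.2] at h2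
      exact h2
    have h3 := y.2.2
    rw [Finset.sum_eq_zero fun v _ => h0 v] at h3
    exact zero_ne_one h3⟩

/-- The weak topology on the realization: a set is open iff its trace on every closed simplex is
open. -/
noncomputable instance Cpx.instTopologicalSpaceSpace {V : Type*} (K : Cpx V) : TopologicalSpace K.Space :=
  ⨆ s : K.faces, TopologicalSpace.coinduced (K.simplexMap s) inferInstance

/-- `π_m(X) ≠ 0`: some homotopy group (set, for `m = 0`) is nontrivial. -/
def PiNe (m : ℕ) (X : Type*) [TopologicalSpace X] : Prop :=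
  ∃ x : X, Nontrivial (HomotopyGroup.Pi m X x)

/-! ## The tetrahedron -/

/-- A cell structure on a subset `body` of `Y`: `bd` is its boundary sphere, `edge i j` (`i ≠ j`)
is the closed edge with end points the vertices `edge i i` and `edge j j`. -/
structure Cells (Y : Type*) where
  /-- the 3-ball -/
  body : Set Y
  /-- its boundary -/
  bd : Set Y
  /-- the closed edges (and, on the diagonal, the vertices) -/
  edge : Fin 4 → Fin 4 → Set Y

/-- The 1-skeleton `T¹`. -/
def Cells.skel {Y : Type*} (T : Cells Y) : Set Y := ⋃ i, ⋃ j, T.edge i j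

/-- The set of vertices. -/
def Cells.vert {Y : Type*} (T : Cells Y) : Set Y := ⋃ i, T.edge i i

/-- The standard 3-simplex with its standard cell structure. -/
def stdTet : Cells (Fin 4 → ℝ) where
  body := stdSimplex ℝ (Fin 4)
  bd := {x | x ∈ stdSimplex ℝ (Fin 4) ∧ ∃ i, x i = 0}
  edge i j := {x | x ∈ stdSimplex ℝ (Fin 4) ∧ ∀ k, k ≠ i → k ≠ j → x k = 0}

section

variable {Y : Type*} [TopologicalSpace Y]

/-! ## Surfaces -/

/-- There is a chart of `T.body` around `p` onto an open subset of the model `M ⊆ ℝ³` which takes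
the surface `H` to the plane `y = 0`, the boundary of the body to `B` and the 1-skeleton
to `S`. -/
def HasChart (T : Cells Y) (H : Set Y) (p : Y) (M B S : Set (ℝ × ℝ × ℝ)) : Prop :=
  ∃ (U : Set Y) (W : Set (ℝ × ℝ × ℝ)), IsOpen U ∧ p ∈ U ∧ IsOpen W ∧
    ∃ e : ↥(U ∩ T.body) ≃ₜ ↥(W ∩ M), ∀ x : ↥(U ∩ T.body),
      ((x : Y) ∈ H ↔ (e x : ℝ × ℝ × ℝ).2.1 = 0) ∧
      ((x : Y) ∈ T.bd ↔ (e x : ℝ × ℝ × ℝ) ∈ B) ∧
      ((x : Y) ∈ T.skel ↔ (e x : ℝ × ℝ × ℝ) ∈ S)

/-- `H` is a compact properly embedded (locally flat) surface in the tetrahedron whose boundary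
misses the vertices and meets the 1-skeleton transversally.  Coordinates of a point of `ℝ³` are
`(x, y, z)`; `H` is `y = 0`, the body is `z ≥ 0` near boundary points, the 1-skeleton is
`x = z = 0`. -/
structure IsSurf (T : Cells Y) (H : Set Y) : Prop where
  sub : H ⊆ T.body
  compact : IsCompact H
  miss : Disjoint H T.vert
  inner : ∀ p ∈ H, p ∉ T.bd → HasChart T H p univ ∅ ∅
  outer : ∀ p ∈ H, p ∈ T.bd → p ∉ T.skel → HasChart T H p {v | 0 ≤ v.2.2} {v | v.2.2 = 0} ∅
  cross : ∀ p ∈ H, p ∈ T.skel →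
    HasChart T H p {v | 0 ≤ v.2.2} {v | v.2.2 = 0} {v | v.1 = 0 ∧ v.2.2 = 0}

/-- The Euler characteristic of `H` is `n`: for some finite partition of `H` in open cells (each
with frontier in the union of the cells of smaller dimension), the alternating number of cells
is `n`. -/
def HasChi (H : Set Y) (n : ℤ) : Prop :=
  ∃ (m : ℕ) (c : Fin m → Set Y) (d : Fin m → ℕ),
    (⋃ i, c i) = H ∧ (∀ i j, i ≠ j → Disjoint (c i) (c j)) ∧
    (∀ i, Nonempty (↥(c i) ≃ₜ (Fin (d i) → ℝ))) ∧
    (∀ i, closure (c i) \ c i ⊆ ⋃ j, ⋃ _ : d j < d i, c j) ∧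
    n = ∑ i, (-1) ^ d i

/-- The total boundary length `|∂H|`: the number of points of `∂H ∩ T¹`. -/
noncomputable def len (T : Cells Y) (H : Set Y) : ℕ := (H ∩ T.skel).ncard

/-! ## Compressing and edge-compressing disks -/

/-- The unit disk. -/
def Disk : Set ℂ := {z | ‖z‖ ≤ 1}

/-- The upper half disk; its boundary is the diameter `im = 0` and the semicircle `‖z‖ = 1`. -/
def HDisk : Set ℂ := {z | ‖z‖ ≤ 1 ∧ 0 ≤ z.im}

/-- `f` (on the unit disk) parametrises a compressing disk `C` for `H`: a bicollared disk in the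
interior of the body with `C ∩ H = ∂C`, such that the loop `∂C` is essential on `H` (it does not
extend to a map from the disk to `H`). -/
def IsCompPar (T : Cells Y) (H : Set Y) (f : ℂ → Y) : Prop :=
  (∃ Φ : ℂ × ℝ → Y, ContinuousOn Φ (Disk ×ˢ Icc (-1) 1) ∧ InjOn Φ (Disk ×ˢ Icc (-1) 1) ∧
    (∀ z ∈ Disk, ∀ s ∈ Icc (-1 : ℝ) 1, Φ (z, s) ∈ T.body ∧ Φ (z, s) ∉ T.bd ∧
      (Φ (z, s) ∈ H ↔ ‖z‖ = 1)) ∧
    (∀ z ∈ Disk, Φ (z, 0) = f z)) ∧
  ¬ ∃ g : ℂ → Y, ContinuousOn g Disk ∧ (∀ z ∈ Disk, g z ∈ H) ∧ ∀ z : ℂ, ‖z‖ = 1 → g z = f z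

/-- `f` (on the upper half disk) parametrises an edge-compressing disk `E` for `H`: a bicollared
disk with `∂E = α ∪ β`, where `α` (the image of the diameter) is `E ∩ H` and `β` (the image of
the semicircle) is `E ∩ T¹ = E ∩ ∂Δ`, a subarc of one edge. -/
def IsEdgePar (T : Cells Y) (H : Set Y) (f : ℂ → Y) : Prop :=
  (∃ Φ : ℂ × ℝ → Y, ContinuousOn Φ (HDisk ×ˢ Icc (-1) 1) ∧ InjOn Φ (HDisk ×ˢ Icc (-1) 1) ∧
    (∀ z ∈ HDisk, ∀ s ∈ Icc (-1 : ℝ) 1, Φ (z, s) ∈ T.body ∧
      (Φ (z, s) ∈ T.bd ↔ ‖z‖ = 1) ∧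
      (Φ (z, s) ∈ H ↔ z.im = 0) ∧
      (Φ (z, s) ∈ T.skel ↔ ‖z‖ = 1 ∧ s = 0)) ∧
    (∀ z ∈ HDisk, Φ (z, 0) = f z)) ∧
  ∃ i j, ∀ z ∈ HDisk, ‖z‖ = 1 → f z ∈ T.edge i j

/-- `D` is a compressing or an edge-compressing disk for `H`: an element of `CE(H)`. -/
def IsCE (T : Cells Y) (H D : Set Y) : Prop :=
  (∃ f, IsCompPar T H f ∧ D = f '' Disk) ∨ (∃ f, IsEdgePar T H f ∧ D = f '' HDisk)

/-- The set `CE(H)`. -/
def CE (T : Cells Y) (H : Set Y) : Type _ := {D : Set Y // IsCE T H D}

/-- `D` and `D'` are isotopic through disks in `CE(H)`. -/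
def Isotopic (T : Cells Y) (H D D' : Set Y) : Prop :=
  (∃ F : ℂ × ℝ → Y, ContinuousOn F (Disk ×ˢ Icc 0 1) ∧
    (∀ t ∈ Icc (0 : ℝ) 1, IsCompPar T H fun z => F (z, t)) ∧
    (fun z => F (z, 0)) '' Disk = D ∧ (fun z => F (z, 1)) '' Disk = D') ∨
  (∃ F : ℂ × ℝ → Y, ContinuousOn F (HDisk ×ˢ Icc 0 1) ∧
    (∀ t ∈ Icc (0 : ℝ) 1, IsEdgePar T H fun z => F (z, t)) ∧
    (fun z => F (z, 0)) '' HDisk = D ∧ (fun z => F (z, 1)) '' HDisk = D')

/-- The vertices of the disk complex: isotopy classes of disks. -/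
def Vtx (T : Cells Y) (H : Set Y) : Type _ :=
  Quot fun D D' : CE T H => Isotopic T H D.1 D'.1

/-- The class of a disk. -/
def cls {T : Cells Y} {H : Set Y} (D : CE T H) : Vtx T H := Quot.mk _ D

/-- The disk complex `[CE(H)]`: a nonempty finite set of classes is a simplex iff the classes
have representatives any two of which are disjoint away from the 1-skeleton. -/
def diskCpx (T : Cells Y) (H : Set Y) : Cpx (Vtx T H) where
  faces := {s | s.Nonempty ∧ ∃ D : Vtx T H → CE T H, (∀ v ∈ s, cls (D v) = v) ∧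
    ∀ v ∈ s, ∀ w ∈ s, v ≠ w → (D v).1 ∩ (D w).1 ⊆ T.skel}
  nonempty_of_mem := fun _ hs => hs.1
  down_closed := fun _ hs _ ht hne =>
    ⟨hne, hs.2.imp fun _ hD => ⟨fun v hv => hD.1 v (ht hv),
      fun v hv w hw => hD.2 v (ht hv) w (ht hw)⟩⟩

/-! ## The local index -/

/-- `H` has a well-defined local index (is topologically minimal): the disk complex is empty or
non-contractible. -/
def WellDef (T : Cells Y) (H : Set Y) : Prop :=
  IsEmpty (Vtx T H) ∨ ¬ ContractibleSpace (diskCpx T H).Space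

/-- The local index of `H` is `n`: `n = 0` and the disk complex is empty, or the disk complex is
nonempty and `n ≥ 1` is least with `π_{n-1} ≠ 0`. -/
def HasIndex (T : Cells Y) (H : Set Y) (n : ℕ) : Prop :=
  (IsEmpty (Vtx T H) ∧ n = 0) ∨
  (Nonempty (Vtx T H) ∧ 1 ≤ n ∧ PiNe (n - 1) (diskCpx T H).Space ∧
    ∀ m, m < n - 1 → ¬ PiNe m (diskCpx T H).Space)

end

/-- The main theorem: two connected surfaces in the tetrahedron with well-defined local index,
with the same Euler characteristic `-1` and the same boundary length `12`, one of local index at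
most `2`, the other of local index `3`. -/
def Main : Prop :=
  ∃ H H' : Set (Fin 4 → ℝ), IsSurf stdTet H ∧ IsSurf stdTet H' ∧
    IsConnected H ∧ IsConnected H' ∧ HasChi H (-1) ∧ HasChi H' (-1) ∧
    len stdTet H = 12 ∧ len stdTet H' = 12 ∧ WellDef stdTet H ∧ WellDef stdTet H' ∧
    (∃ i ≤ 2, HasIndex stdTet H i) ∧ HasIndex stdTet H' 3

end Pool.Agent.LIX


end

section

/-!
# LIX, block K: the topology of the realization of an abstract simplicial complex
-/

set_option autoImplicit false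

open Topology Set
open scoped unitInterval

namespace Pool.Agent.LIX

namespace Cpx

variable {V : Type*} (K : Cpx V)

theorem simplexMap_apply (s : K.faces) (x : stdSimplex ℝ (s : Finset V)) (v : V)
    [Decidable (v ∈ (s : Finset V))] :
    (K.simplexMap s x).1 v = if h : v ∈ (s : Finset V) then x.1 ⟨v, h⟩ else 0 := by
  unfold simplexMap
  simp only [Finsupp.onFinset_apply]
  by_cases h : v ∈ (s : Finset V) <;> simp [h]

theorem simplexMap_support (s : K.faces) (x : stdSimplex ℝ (s : Finset V)) :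
    (K.simplexMap s x).1.support ⊆ s.1 := by
  classical
  intro v hv
  by_contra h
  apply Finsupp.mem_support_iff.1 hv
  rw [simplexMap_apply]
  simp [h]

theorem continuous_iff {Z : Type*} [TopologicalSpace Z] {f : K.Space → Z} :
    Continuous f ↔ ∀ s, Continuous (f ∘ K.simplexMap s) := by
  rw [continuous_iSup_dom]
  refine forall_congr' fun s => ?_
  exact continuous_coinduced_dom

theorem continuous_simplexMap (s : K.faces) : Continuous (K.simplexMap s) :=
  (K.continuous_iff (f := id)).1 continuous_id s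

/-- the map from the disjoint union of the simplices -/
noncomputable def qmap (p : Σ s : K.faces, stdSimplex ℝ (s : Finset V)) : K.Space :=
  K.simplexMap p.1 p.2

/-- a point in a simplex -/
def lift (s : K.faces) (x : K.Space) (h : x.1.support ⊆ s.1) : stdSimplex ℝ (s : Finset V) :=
  ⟨fun v => x.1 v.1, fun v => x.2.1 _, by
    have h1 := x.2.2.1
    rw [Finsupp.sum_of_support_subset _ h _ (by simp)] at h1
    exact (Finset.sum_coe_sort s.1 fun v => x.1 v).trans h1⟩

theorem simplexMap_lift (s : K.faces) (x : K.Space) (h : x.1.support ⊆ s.1) :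
    K.simplexMap s (K.lift s x h) = x := by
  classical
  apply Subtype.ext
  ext v
  rw [simplexMap_apply]
  by_cases hv : v ∈ s.1
  · simp [hv, lift]
  · simp only [hv, dite_false]
    symm
    by_contra h2
    exact hv (h (by simpa using h2))

theorem qmap_surj : Function.Surjective K.qmap := fun x =>
  ⟨⟨⟨x.1.support, x.2.2.2⟩, K.lift _ x (Finset.Subset.refl x.1.support)⟩,
    K.simplexMap_lift _ x (Finset.Subset.refl x.1.support)⟩

theorem isQuotientMap_qmap : IsQuotientMap K.qmap := by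
  refine ⟨⟨?_⟩, K.qmap_surj⟩
  show (⨆ s : K.faces, TopologicalSpace.coinduced (K.simplexMap s) inferInstance) =
    TopologicalSpace.coinduced K.qmap (⨆ s : K.faces, TopologicalSpace.coinduced (Sigma.mk s) _)
  rw [coinduced_iSup]
  rfl

theorem coord_cont (v : V) : Continuous fun x : K.Space => x.1 v := by
  classical
  rw [K.continuous_iff]
  intro s
  by_cases h : v ∈ s.1
  · have : (fun x : K.Space => x.1 v) ∘ K.simplexMap s = fun x => x.1 ⟨v, h⟩ := by
      funext x
      show (K.simplexMap s x).1 v = _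
      rw [simplexMap_apply]
      simp [h]
    rw [this]
    exact (continuous_apply _).comp continuous_subtype_val
  · have : (fun x : K.Space => x.1 v) ∘ K.simplexMap s = fun x => 0 := by
      funext x
      show (K.simplexMap s x).1 v = _
      rw [simplexMap_apply]
      simp [h]
    rw [this]
    exact continuous_const

theorem cont_of_simplex {Z : Type*} [TopologicalSpace Z] (s : Finset V) (hs : s ∈ K.faces)
    (f : Z → K.Space) (hc : ∀ v, Continuous fun z => (f z).1 v)
    (h : ∀ z, (f z).1.support ⊆ s) : Continuous f := by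
  have h1 : f = fun z => K.simplexMap ⟨s, hs⟩ (K.lift ⟨s, hs⟩ (f z) (h z)) := by
    funext z
    rw [simplexMap_lift]
  rw [h1]
  apply (K.continuous_simplexMap _).comp
  apply Continuous.subtype_mk
  exact continuous_pi fun v => hc _

theorem contOn_of_simplex {Z : Type*} [TopologicalSpace Z] (s : Finset V) (hs : s ∈ K.faces)
    (f : Z → K.Space) (U : Set Z) (hc : ∀ v, ContinuousOn (fun z => (f z).1 v) U)
    (h : ∀ z ∈ U, (f z).1.support ⊆ s) : ContinuousOn f U := by
  rw [continuousOn_iff_continuous_restrict]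
  exact K.cont_of_simplex s hs _ (fun v => continuousOn_iff_continuous_restrict.1 (hc v))
    fun z => h _ z.2

theorem cont_of_local {Z : Type*} [TopologicalSpace Z] (f : Z → K.Space)
    (hc : ∀ v, Continuous fun z => (f z).1 v)
    (hs : ∀ z, ∃ U ∈ 𝓝 z, ∃ s ∈ K.faces, ∀ z' ∈ U, (f z').1.support ⊆ s) :
    Continuous f := by
  rw [continuous_iff_continuousAt]
  intro z
  obtain ⟨U, hU, s, hs1, hs2⟩ := hs z
  exact (K.contOn_of_simplex s hs1 f U (fun v => (hc v).continuousOn) hs2).continuousAt hU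

theorem single_mem {s : Finset V} (hs : s ∈ K.faces) {v : V} (hv : v ∈ s) : {v} ∈ K.faces :=
  K.down_closed s hs _ (by simpa using hv) (by simp)

/-- the vertices of the realization -/
noncomputable def vert (v : V) (hv : {v} ∈ K.faces) : K.Space :=
  ⟨Finsupp.single v 1, fun w => by
    classical
    rw [Finsupp.single_apply]
    split_ifs <;> norm_num, by simp, by
    rw [Finsupp.support_single _ one_ne_zero]
    exact hv⟩

/-- the points of a segment in a simplex -/
noncomputable def seg (s : Finset V) (hs : s ∈ K.faces) (x y : K.Space) (hx : x.1.support ⊆ s)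
    (hy : y.1.support ⊆ s) (t : I) : K.Space :=
  have hsum : (((1 - t : ℝ)) • x.1 + (t : ℝ) • y.1).sum (fun _ r => r) = 1 := by
    classical
    rw [Finsupp.sum_add_index' (by simp) (by simp),
      Finsupp.sum_smul_index' (by simp), Finsupp.sum_smul_index' (by simp)]
    simp only [smul_eq_mul]
    rw [← Finsupp.mul_sum, ← Finsupp.mul_sum]
    rw [show (x.1.sum fun _ c => c) = 1 from x.2.2.1, show (y.1.sum fun _ c => c) = 1 from y.2.2.1]
    ring
  ⟨((1 - t : ℝ)) • x.1 + (t : ℝ) • y.1, fun v => by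
    have h1 := x.2.1 v
    have h2 := y.2.1 v
    have h3 := t.2.1
    have h4 := t.2.2
    simp only [Finsupp.coe_add, Finsupp.coe_smul, Pi.add_apply, Pi.smul_apply, smul_eq_mul]
    have : 0 ≤ 1 - (t : ℝ) := by linarith
    positivity, hsum, by
    classical
    refine K.down_closed s hs _ ?_ ?_
    · refine Finset.Subset.trans Finsupp.support_add ?_
      exact Finset.union_subset (Finsupp.support_smul.trans hx) (Finsupp.support_smul.trans hy)
    · by_contra hne
      rw [Finset.not_nonempty_iff_eq_empty, Finsupp.support_eq_empty] at hne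
      rw [hne] at hsum
      simp at hsum⟩

end Cpx

end Pool.Agent.LIX


end

section

/-!
# LIX, block K: simple connectivity of the realization from a potential
-/

set_option autoImplicit false

open Topology Set
open scoped unitInterval

namespace Pool.Agent.LIX

namespace Cpx

variable {V : Type*} (K : Cpx V)

theorem seg_apply (s : Finset V) (hs : s ∈ K.faces) (x y : K.Space) (hx : x.1.support ⊆ s)
    (hy : y.1.support ⊆ s) (t : I) (v : V) :
    (K.seg s hs x y hx hy t).1 v = (1 - t) * x.1 v + t * y.1 v := by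
  simp [seg]

theorem seg_support (s : Finset V) (hs : s ∈ K.faces) (x y : K.Space) (hx : x.1.support ⊆ s)
    (hy : y.1.support ⊆ s) (t : I) : (K.seg s hs x y hx hy t).1.support ⊆ s := by
  intro v hv
  by_contra h
  have h1 : x.1 v = 0 := by
    by_contra h2
    exact h (hx (by simpa using h2))
  have h3 : y.1 v = 0 := by
    by_contra h2
    exact h (hy (by simpa using h2))
  apply Finsupp.mem_support_iff.1 hv
  rw [seg_apply, h1, h3]
  ring

/-- the straight path in a simplex -/
noncomputable def spath (s : Finset V) (hs : s ∈ K.faces) (x y : K.Space)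
    (hx : x.1.support ⊆ s) (hy : y.1.support ⊆ s) : Path x y where
  toFun := K.seg s hs x y hx hy
  continuous_toFun := by
    apply K.cont_of_simplex s hs
    · intro v
      simp only [seg_apply]
      fun_prop
    · exact K.seg_support s hs x y hx hy
  source' := by
    apply Subtype.ext
    ext v
    rw [seg_apply]
    simp
  target' := by
    apply Subtype.ext
    ext v
    rw [seg_apply]
    simp

theorem spath_support (s : Finset V) (hs : s ∈ K.faces) (x y : K.Space)
    (hx : x.1.support ⊆ s) (hy : y.1.support ⊆ s) (t : I) :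
    (K.spath s hs x y hx hy t).1.support ⊆ s :=
  K.seg_support s hs x y hx hy t

/-- two paths in a simplex are homotopic -/
theorem homotopic_of_simplex (s : Finset V) (hs : s ∈ K.faces) {x y : K.Space} (p q : Path x y)
    (hp : ∀ t, (p t).1.support ⊆ s) (hq : ∀ t, (q t).1.support ⊆ s) : p.Homotopic q := by
  refine ⟨⟨⟨⟨fun z => K.seg s hs (p z.2) (q z.2) (hp _) (hq _) z.1, ?_⟩, ?_, ?_⟩, ?_⟩⟩
  · apply K.cont_of_simplex s hs
    · intro v
      simp only [seg_apply]
      have h1 : Continuous fun z : I × I => (p z.2).1 v :=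
        (K.coord_cont v).comp (p.continuous.comp continuous_snd)
      have h2 : Continuous fun z : I × I => (q z.2).1 v :=
        (K.coord_cont v).comp (q.continuous.comp continuous_snd)
      fun_prop
    · intro z
      exact K.seg_support s hs _ _ _ _ _
  · intro t
    apply Subtype.ext
    ext v
    refine (K.seg_apply s hs (p t) (q t) (hp _) (hq _) 0 v).trans ?_
    simp
  · intro t
    apply Subtype.ext
    ext v
    refine (K.seg_apply s hs (p t) (q t) (hp _) (hq _) 1 v).trans ?_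
    simp
  · intro t z hz
    apply Subtype.ext
    ext v
    refine (K.seg_apply s hs (p z) (q z) (hp _) (hq _) t v).trans ?_
    rcases hz with rfl | rfl
    · simp; ring
    · simp; ring

/-- the open star of a vertex -/
def star (v : V) : Set K.Space := {x | 0 < x.1 v}

theorem isOpen_star (v : V) : IsOpen (K.star v) := isOpen_lt continuous_const (K.coord_cont v)

theorem exists_star (x : K.Space) : ∃ v, x ∈ K.star v := by
  have h : x.1.support.Nonempty := K.nonempty_of_mem _ x.2.2.2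
  obtain ⟨v, hv⟩ := h
  exact ⟨v, lt_of_le_of_ne (x.2.1 v) (Finsupp.mem_support_iff.1 hv).symm⟩

theorem star_mem {v : V} {x : K.Space} (h : x ∈ K.star v) : v ∈ x.1.support :=
  Finsupp.mem_support_iff.2 (ne_of_gt h)

theorem star_vert {v : V} {x : K.Space} (h : x ∈ K.star v) : {v} ∈ K.faces :=
  K.single_mem x.2.2.2 (K.star_mem h)

theorem vert_support (v : V) (hv : {v} ∈ K.faces) : (K.vert v hv).1.support = {v} := by
  unfold vert
  exact Finsupp.support_single _ one_ne_zero

theorem vert_sub {s : Finset V} (v : V) (hv : {v} ∈ K.faces) (h : v ∈ s) :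
    (K.vert v hv).1.support ⊆ s := by
  rw [vert_support]
  simpa using h

/-- the deformation of a star to its vertex -/
noncomputable def sdef (v : V) (z : K.star v × I) : K.Space :=
  K.seg z.1.1.1.support z.1.1.2.2.2 z.1.1 (K.vert v (K.star_vert z.1.2)) (Finset.Subset.refl _)
    (K.vert_sub v _ (K.star_mem z.1.2)) z.2

theorem sdef_apply (v w : V) (z : K.star v × I) :
    (K.sdef v z).1 w = (1 - z.2) * z.1.1.1 w + z.2 * (Finsupp.single v (1 : ℝ)) w :=
  K.seg_apply _ _ _ _ _ _ _ _

theorem sdef_cont (v : V) : Continuous (K.sdef v) := by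
  have hq := (K.isQuotientMap_qmap).restrictPreimage_isOpen (K.isOpen_star v)
  apply hq.continuous_lift_prod_left
  apply K.cont_of_local
  · intro w
    simp only [sdef_apply]
    have h1 : Continuous fun z : (K.qmap ⁻¹' (K.star v)) × I =>
        ((K.star v).restrictPreimage K.qmap z.1).1.1 w :=
      (K.coord_cont w).comp (continuous_subtype_val.comp (hq.continuous.comp continuous_fst))
    fun_prop
  · rintro ⟨⟨⟨s, x⟩, hx⟩, t⟩
    refine ⟨(fun z : (K.qmap ⁻¹' (K.star v)) × I => z.1.1) ⁻¹' (range (Sigma.mk s)), ?_, s.1,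
      s.2, ?_⟩
    · apply IsOpen.mem_nhds
      · exact isOpen_range_sigmaMk.preimage (continuous_subtype_val.comp continuous_fst)
      · exact ⟨x, rfl⟩
    · rintro ⟨⟨⟨s', x'⟩, hx'⟩, t'⟩ ⟨y, hy⟩
      simp only at hy
      obtain ⟨rfl, -⟩ := Sigma.mk.inj_iff.1 hy
      refine Finset.Subset.trans (K.seg_support _ _ _ _ _ _ _) ?_
      exact K.simplexMap_support _ _

end Cpx

end Pool.Agent.LIX


end

section

/-!
# LIX, block K: a potential on the vertices makes the realization simply connected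
-/

set_option autoImplicit false

open Topology Set
open scoped unitInterval

namespace Pool.Agent.LIX

namespace Cpx

variable {V : Type*} (K : Cpx V)

/-- the class of the straight path -/
noncomputable def sc (s : Finset V) (hs : s ∈ K.faces) (x y : K.Space)
    (hx : x.1.support ⊆ s) (hy : y.1.support ⊆ s) : Path.Homotopic.Quotient x y :=
  Path.Homotopic.Quotient.mk (K.spath s hs x y hx hy)

theorem sc_eq (s s' : Finset V) (hs : s ∈ K.faces) (hs' : s' ∈ K.faces) (x y : K.Space)
    (hx : x.1.support ⊆ s) (hy : y.1.support ⊆ s) (hx' : x.1.support ⊆ s')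
    (hy' : y.1.support ⊆ s') : K.sc s hs x y hx hy = K.sc s' hs' x y hx' hy' := rfl

theorem sc_trans (s : Finset V) (hs : s ∈ K.faces) (x y z : K.Space)
    (hx : x.1.support ⊆ s) (hy : y.1.support ⊆ s) (hz : z.1.support ⊆ s) :
    (K.sc s hs x y hx hy).trans (K.sc s hs y z hy hz) = K.sc s hs x z hx hz := by
  unfold sc
  rw [← Path.Homotopic.Quotient.mk_trans, Path.Homotopic.Quotient.eq]
  apply K.homotopic_of_simplex s hs
  · intro t
    rw [Path.trans_apply]
    split_ifs
    · exact K.spath_support _ _ _ _ _ _ _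
    · exact K.spath_support _ _ _ _ _ _ _
  · intro t
    exact K.spath_support _ _ _ _ _ _ _

theorem sc_self (s : Finset V) (hs : s ∈ K.faces) (x : K.Space) (hx : x.1.support ⊆ s) :
    K.sc s hs x x hx hx = Path.Homotopic.Quotient.refl x := by
  unfold sc
  rw [← Path.Homotopic.Quotient.mk_refl, Path.Homotopic.Quotient.eq]
  apply K.homotopic_of_simplex s hs
  · intro t
    exact K.spath_support _ _ _ _ _ _ _
  · intro t
    exact hx

theorem sc_star (v : V) {y z : K.Space} (γ : Path y z) (h : ∀ t, γ t ∈ K.star v)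
    (hy : y ∈ K.star v) (hz : z ∈ K.star v) :
    (Path.Homotopic.Quotient.mk γ).trans (K.sc z.1.support z.2.2.2 z (K.vert v (K.star_vert hz))
      (Finset.Subset.refl _) (K.vert_sub v _ (K.star_mem hz))) =
    K.sc y.1.support y.2.2.2 y (K.vert v (K.star_vert hy))
      (Finset.Subset.refl _) (K.vert_sub v _ (K.star_mem hy)) := by
  have hv := K.star_vert hy
  let f : C(K.star v, K.Space) := ⟨Subtype.val, continuous_subtype_val⟩
  let g : C(K.star v, K.Space) := ⟨fun _ => K.vert v hv, continuous_const⟩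
  let F : f.Homotopy g :=
    { toFun := fun p => K.sdef v (p.2, p.1)
      continuous_toFun := (K.sdef_cont v).comp (continuous_snd.prodMk continuous_fst)
      map_zero_left := by
        intro x
        apply Subtype.ext
        ext w
        refine (K.sdef_apply _ _ _).trans ?_
        simp [f]
      map_one_left := by
        intro x
        apply Subtype.ext
        ext w
        refine (K.sdef_apply _ _ _).trans ?_
        simp [g, vert] }
  let p : Path (⟨y, hy⟩ : K.star v) ⟨z, hz⟩ :=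
    { toFun := fun t => ⟨γ t, h t⟩
      continuous_toFun := γ.continuous.subtype_mk _
      source' := by
        apply Subtype.ext
        exact γ.source
      target' := by
        apply Subtype.ext
        exact γ.target }
  have h1 := Path.Homotopic.map_trans_evalAt F p
  have h2 : p.map (map_continuous f) = γ := by
    ext t
    rfl
  have h3 : p.map (map_continuous g) = Path.refl (K.vert v hv) := by
    ext t
    rfl
  rw [h2, h3] at h1
  unfold sc
  rw [← Path.Homotopic.Quotient.mk_trans, Path.Homotopic.Quotient.eq]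
  refine h1.trans ?_
  exact ⟨Path.Homotopy.transRefl _⟩

/-- a potential -/
structure Pot (P : K.Space) where
  /-- the class of paths to a vertex -/
  g : ∀ (v : V) (hv : {v} ∈ K.faces), Path.Homotopic.Quotient P (K.vert v hv)
  comp : ∀ (s : Finset V) (hs : s ∈ K.faces) (a b : V) (ha : a ∈ s) (hb : b ∈ s),
    (g a (K.single_mem hs ha)).trans (K.sc s hs (K.vert a (K.single_mem hs ha))
      (K.vert b (K.single_mem hs hb)) (K.vert_sub a _ ha) (K.vert_sub b _ hb)) =
    g b (K.single_mem hs hb)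

variable {K}

namespace Pot

variable {P : K.Space} (A : Pot K P)

/-- the class to an arbitrary point, via `v` -/
noncomputable def gv (y : K.Space) (v : V) (hv : v ∈ y.1.support) : Path.Homotopic.Quotient P y :=
  (A.g v (K.single_mem y.2.2.2 hv)).trans (K.sc y.1.support y.2.2.2
    (K.vert v (K.single_mem y.2.2.2 hv)) y (K.vert_sub v _ hv) (Finset.Subset.refl _))

theorem gv_eq (y : K.Space) (v w : V) (hv : v ∈ y.1.support) (hw : w ∈ y.1.support) :
    A.gv y v hv = A.gv y w hw := by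
  unfold gv
  rw [← A.comp y.1.support y.2.2.2 v w hv hw, Path.Homotopic.Quotient.trans_assoc, sc_trans]

/-- the class to an arbitrary point -/
def G (y : K.Space) (c : Path.Homotopic.Quotient P y) : Prop := ∀ v hv, c = A.gv y v hv

theorem exG (y : K.Space) : ∃ c, A.G y c := by
  obtain ⟨v, hv⟩ := K.exists_star y
  exact ⟨A.gv y v (K.star_mem hv), fun w hw => A.gv_eq y _ _ _ _⟩

theorem G_unique {y : K.Space} {c d : Path.Homotopic.Quotient P y} (hc : A.G y c) (hd : A.G y d) : c = d := by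
  obtain ⟨v, hv⟩ := K.exists_star y
  rw [hc v (K.star_mem hv), hd v (K.star_mem hv)]

theorem G_step (v : V) {y z : K.Space} (γ : Path y z) (h : ∀ t, γ t ∈ K.star v)
    (c : Path.Homotopic.Quotient P y) (hc : A.G y c) : A.G z (c.trans (Path.Homotopic.Quotient.mk γ)) := by
  have hy : y ∈ K.star v := by simpa using h 0
  have hz : z ∈ K.star v := by simpa using h 1
  have h1 := K.sc_star v γ h hy hz
  have h2 : Path.Homotopic.Quotient.mk γ = (K.sc y.1.support y.2.2.2 y (K.vert v (K.star_vert hy))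
      (Finset.Subset.refl _) (K.vert_sub v _ (K.star_mem hy))).trans
      (K.sc z.1.support z.2.2.2 (K.vert v (K.star_vert hz)) z
       (K.vert_sub v _ (K.star_mem hz)) (Finset.Subset.refl _)) := by
    rw [← h1, Path.Homotopic.Quotient.trans_assoc, sc_trans, sc_self]
    simp
  intro w hw
  rw [A.gv_eq z w v hw (K.star_mem hz), hc v (K.star_mem hy), h2]
  unfold gv
  rw [Path.Homotopic.Quotient.trans_assoc, ← Path.Homotopic.Quotient.trans_assoc (K.sc y.1.support y.2.2.2 _ _ _ _), sc_trans, sc_self]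
  simp

theorem G_cast {y y' : K.Space} (h : y' = y) (c : Path.Homotopic.Quotient P y) :
    A.G y' (c.cast rfl h) ↔ A.G y c := by
  subst h
  simp

theorem cast_trans_cast {X : Type*} [TopologicalSpace X] {a b c b' c' : X} (h : b' = b)
    (h' : c' = c) (u : Path.Homotopic.Quotient a b) (w : Path.Homotopic.Quotient b c) :
    (u.cast rfl h).trans (w.cast h h') = (u.trans w).cast rfl h' := by
  subst h
  subst h'
  simp

theorem G_path {y z : K.Space} (γ : Path y z) (c : Path.Homotopic.Quotient P y) (hc : A.G y c) :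
    A.G z (c.trans (Path.Homotopic.Quotient.mk γ)) := by
  obtain ⟨t, ht0, htm, ⟨n, hn⟩, ht⟩ := exists_monotone_Icc_subset_open_cover_unitInterval
    (c := fun v : V => γ ⁻¹' (K.star v)) (fun v => (K.isOpen_star v).preimage γ.continuous)
    (fun u _ => by
      obtain ⟨v, hv⟩ := K.exists_star (γ u)
      exact mem_iUnion.2 ⟨v, hv⟩)
  have hc' : A.G (γ 0) (c.cast rfl γ.source) := (A.G_cast γ.source c).2 hc
  have key : ∀ k, ∀ u, u = t k →
      A.G (γ u) ((c.cast rfl γ.source).trans (Path.Homotopic.Quotient.mk (γ.subpath 0 u))) := by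
    intro k
    induction k with
    | zero =>
      intro u hu
      rw [ht0] at hu
      subst hu
      rw [Path.subpath_self]
      simpa using hc'
    | succ k ih =>
      intro u hu
      subst hu
      obtain ⟨v, hv⟩ := ht k
      have h1 := A.G_step v (γ.subpath (t k) (t (k + 1))) (by
        intro w
        have h2 : γ.subpath (t k) (t (k + 1)) w ∈ range (γ.subpath (t k) (t (k + 1))) := ⟨w, rfl⟩
        rw [Path.range_subpath_of_le _ _ _ (htm (Nat.le_succ k))] at h2
        obtain ⟨w', hw', h3⟩ := h2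
        rw [← h3]
        exact hv hw') _ (ih (t k) rfl)
      rw [Path.Homotopic.Quotient.trans_assoc, ← Path.Homotopic.Quotient.mk_trans] at h1
      have h4 : Path.Homotopic.Quotient.mk ((γ.subpath 0 (t k)).trans (γ.subpath (t k) (t (k + 1)))) =
          Path.Homotopic.Quotient.mk (γ.subpath 0 (t (k + 1))) :=
        Path.Homotopic.Quotient.eq.2 ⟨Path.Homotopy.subpathTransSubpath γ _ _ _⟩
      rw [h4] at h1
      exact h1
  have h5 := key n 1 (hn n le_rfl).symm
  rw [Path.subpath_zero_one, Path.Homotopic.Quotient.mk_cast, cast_trans_cast] at h5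
  exact (A.G_cast γ.target _).1 h5

include A in
theorem simplyConnected : SimplyConnectedSpace K.Space := by
  rw [simply_connected_iff_paths_homotopic]
  refine ⟨⟨⟨P⟩, ?_⟩, ?_⟩
  · intro x y
    obtain ⟨c, -⟩ := A.exG x
    obtain ⟨d, -⟩ := A.exG y
    obtain ⟨c', -⟩ := Path.Homotopic.Quotient.mk_surjective c
    obtain ⟨d', -⟩ := Path.Homotopic.Quotient.mk_surjective d
    exact ⟨c'.symm.trans d'⟩
  · intro x y
    refine ⟨fun a b => ?_⟩
    obtain ⟨c, hc⟩ := A.exG x
    obtain ⟨p, rfl⟩ := Path.Homotopic.Quotient.mk_surjective a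
    obtain ⟨q, rfl⟩ := Path.Homotopic.Quotient.mk_surjective b
    have h1 := A.G_unique (A.G_path p c hc) (A.G_path q c hc)
    have h2 : c.symm.trans (c.trans (Path.Homotopic.Quotient.mk p)) = c.symm.trans (c.trans (Path.Homotopic.Quotient.mk q)) := by
      rw [h1]
    rw [← Path.Homotopic.Quotient.trans_assoc, ← Path.Homotopic.Quotient.trans_assoc] at h2
    simpa using h2

end Pot

end Cpx

end Pool.Agent.LIX


end

section

/-!
# LIX, block K: statements of the modules (abstract complexes, homotopy, label maps)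

Module `X` proves `theorem t_X : M_X` (or `t_X : S_X` if there is no `M_X`) in the namespace
`Pool.Agent.LIX.K`, in the file `Pool/Agent/LIX/K_X.lean`, importing only this file.

Available and proved (files `KTop`, `KSC`, `KPot`, namespace `Pool.Agent.LIX.Cpx`):
`continuous_iff` (maps out of `K.Space`), `coord_cont` (coordinates are continuous), `cont_of_simplex`
(a map into `K.Space` with all supports in one simplex and continuous coordinates is continuous),
`contOn_of_simplex`, `vert`, `seg`, `spath`, `sc` (class of the straight path), `sc_eq`, `sc_trans`,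
`sc_self`, `Pot`, `Pot.simplyConnected`.
-/

set_option autoImplicit false

namespace Pool.Agent.LIX.K

open Set Topology
open scoped unitInterval

/-- the unit sphere of the `l¹` norm -/
abbrev Sph (m : ℕ) := {z : Fin (m + 1) → ℝ // ∑ i, |z i| = 1}

/-- LAB (K2). A label map whose labels on every simplex have `0` outside their convex hull induces a
continuous map to the complement of `0`. PROOF: `Cpx.continuous_iff`: on the simplex `s` the map is
`y ↦ ∑ v : s, y v • lab v` (`Finsupp.sum_of_support_subset`, `Cpx.simplexMap_apply`), continuous. For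
`x : K.Space` the value is a convex combination of the labels of the support of `x`, which is a simplex
(`Finset.centerMass_mem_convexHull` or `Convex.sum_mem`), so it is not `0`. -/
def S_LAB : Prop := ∀ (V : Type) (K : Cpx V) (n : ℕ) (lab : V → (Fin n → ℝ)),
  (∀ s ∈ K.faces, (0 : Fin n → ℝ) ∉ convexHull ℝ (lab '' (s : Set V))) →
  Continuous (fun x : K.Space => x.1.sum fun v r => r • lab v) ∧
  ∀ x : K.Space, (x.1.sum fun v r => r • lab v) ≠ 0

open Classical in
/-- OCT. The octahedral sphere in the complex. PROOF: `o z` has the coordinates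
`∑ i, (if v = pos i then max (z i) 0 else 0) + ∑ i, (if v = neg i then max (-z i) 0 else 0)`, i.e. the Finsupp
`∑ i, Finsupp.single (pos i) (max (z i) 0) + ∑ i, Finsupp.single (neg i) (max (-z i) 0)`; nonnegative, the sum is
`∑ |z i| = 1`, the support is contained in the face of `b i = decide (0 ≤ z i)` and nonempty (sum 1), so it is a
face by `down_closed`. Continuity: the sphere is the finite union of the closed sets `{z | ∀ i, (b i = true → 0 ≤ z i) ∧
(b i = false → z i ≤ 0)}` (`LocallyFinite.continuous` / `continuous_of_cover_nhds` type lemma: `LocallyFinite.continuous`), on each of them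
the supports are contained in one face: `Cpx.contOn_of_simplex`. (`pos`, `neg` need not be injective for this.)
The label sum is `∑ i, (max (z i) 0) • e_i - ∑ i, (max (-z i) 0) • e_i = z` (`Finsupp.sum_add_index'`,
`Finsupp.sum_finset_sum_index`, `Finsupp.sum_single_index`). -/
def S_OCT : Prop := ∀ (V : Type) (K : Cpx V) (m : ℕ) (pos neg : Fin (m + 1) → V),
  (∀ b : Fin (m + 1) → Bool,
    (Finset.univ.image fun i => if b i = true then pos i else neg i) ∈ K.faces) →
  ∃ o : Sph m → K.Space, Continuous o ∧ ∀ lab : V → (Fin (m + 1) → ℝ),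
    (∀ i, lab (pos i) = Pi.single i 1) → (∀ i, lab (neg i) = - Pi.single i 1) →
    ∀ z : Sph m, ((o z).1.sum fun v r => r • lab v) = z.1

/-- EXT (from Brouwer's theorem). PROOF: (1) Brouwer for the cube: `Pool/Agent/Lib_helper47/RBrouwer.lean`
(`Pool.Agent.Lib_helper47.R.brouwer`) is the theorem for the unit ball of a finite dimensional inner product space;
for `f : cube → cube` apply it to `y ↦ R⁻¹ f (clamp (R y))` on `EuclideanSpace ℝ (Fin n)` with `R = sqrt n + 1`, `clamp` = coordinatewise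
`max (-1) (min 1 _)`: the fixed point `x = R y` satisfies `x = f (clamp x)`, so `x` is in the cube and `clamp x = x`.
(2) Apply it to `f x = - ‖G x‖⁻¹ • G x` (sup norm, values in the cube): a fixed point has sup norm `1`, so
`|x i| = 1` for some `i` (for `n = 0` the hypothesis `G x ≠ 0` is impossible), and `G x = -‖G x‖ • x`. -/
def S_EXT : Prop := ∀ (n : ℕ) (G : (Fin n → ℝ) → (Fin n → ℝ)), ContinuousOn G (Icc (-1) 1) →
  (∀ x ∈ Icc (-1 : Fin n → ℝ) 1, G x ≠ 0) →
  ∃ x ∈ Icc (-1 : Fin n → ℝ) 1, (∃ i, |x i| = 1) ∧ ∃ c : ℝ, 0 < c ∧ G x = - (c • x)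

/-- PI. PROOF: base point `x = o e₀`, `e₀ = Pi.single 0 1`. For `y : Fin m → I` put `w j = 2 y j - 1`, `r = ‖w‖` (sup norm,
`r ≤ 1`) and `F' y = (r - 1/2, (1 - r) w) : Fin (m+1) → ℝ` (`Fin.cons`), nonzero (if `1 - r = 0` the first coordinate is
`1/2`, otherwise if `w = 0` it is `-1/2`), `F y = F' y / ∑ |F' y i|` in `Sph m`; `F` is continuous and `F y = e₀` if `y` is in
`Cube.boundary` (then `r = 1`). So `f = o ∘ F` is a `GenLoop (Fin m) X x`. If `HomotopyGroup.Pi m X x` is trivial, there is a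
homotopy `H` rel boundary from `f` to `GenLoop.const` (`Quotient.exact`, `GenLoop.Homotopic`,
`ContinuousMap.HomotopicRel`). On the cube `[-1,1]^(m+1)` put `G p = Λ (H (t, y))` with `t = (p 0 + 1)/2`, `y j = (p (j+1) + 1)/2`
(use `projIcc` or `Set.projIcc` to stay in `I`). `G` is continuous and nonzero; `S_EXT`: a point `p` with some `|p i| = 1` and
`G p = -c p`, `c > 0`. If `p 0 = 1` or some `|p (j+1)| = 1` (then `y` is in the boundary; `H` is constant `x` there, also at `t = 0`):
`G p = Λ x = e₀`, so `e₀ = -c p`, `p` is `(-1/c, 0, …, 0)` with `p 0 < 0`: contradiction to `p 0 = 1`, and to `|p (j+1)| = 1`.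
Otherwise `p 0 = -1`, `t = 0`, `G p = F y = (a (r - 1/2), a (1 - r) w)` with `a > 0`, `w j = p (j+1)`, so
`a (1 - r) w = -c w` hence `w = 0` (as `a (1-r) + c > 0`), `r = 0`, and the first coordinate gives `-a/2 = c > 0`: contradiction. -/
def S_PI : Prop := ∀ (X : Type) [TopologicalSpace X] (m : ℕ) (Λ : X → (Fin (m + 1) → ℝ))
  (o : Sph m → X), Continuous Λ → (∀ x, Λ x ≠ 0) → Continuous o → (∀ z, Λ (o z) = z.1) →
  PiNe m X

def M_PI : Prop := S_EXT → S_PI

/-- CON. PROOF: let `h : ContinuousMap.Homotopy (id X) (const c)` (from `ContractibleSpace`: `id_nullhomotopic`). For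
`p` in the cube `[-1,1]^(m+1)` define `G p = Λ c` if `‖p‖ ≤ 1/2` and `G p = Λ (h (2 (1 - ‖p‖), o (p / ∑ |p i|)))` if
`‖p‖ ≥ 1/2` (sup norm; both agree for `‖p‖ = 1/2`; continuity: `ContinuousOn.if` / union of two closed sets).
`S_EXT` gives `p` with `‖p‖ = 1` and `G p = -c' p`, `c' > 0`; but `G p = Λ (o (p / ∑ |p i|)) = p / ∑ |p i|`: contradiction. -/
def S_CON : Prop := ∀ (X : Type) [TopologicalSpace X] (m : ℕ) (Λ : X → (Fin (m + 1) → ℝ))
  (o : Sph m → X), Continuous Λ → (∀ x, Λ x ≠ 0) → Continuous o → (∀ z, Λ (o z) = z.1) →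
  ¬ ContractibleSpace X

def M_CON : Prop := S_EXT → S_CON

open Classical in
/-- K34 (assembly of LAB, OCT, PI, CON). -/
def S_K34 : Prop := ∀ (V : Type) (K : Cpx V) (m : ℕ) (lab : V → (Fin (m + 1) → ℝ)) (pos neg : Fin (m + 1) → V),
  (∀ s ∈ K.faces, (0 : Fin (m + 1) → ℝ) ∉ convexHull ℝ (lab '' (s : Set V))) →
  (∀ i, lab (pos i) = Pi.single i 1) → (∀ i, lab (neg i) = - Pi.single i 1) →
  (∀ b : Fin (m + 1) → Bool,
    (Finset.univ.image fun i => if b i = true then pos i else neg i) ∈ K.faces) →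
  PiNe m K.Space ∧ ¬ ContractibleSpace K.Space

def M_K34 : Prop := S_LAB → S_OCT → S_PI → S_CON → S_K34

open Classical in
/-- `u` and `v` have a common element of `C`, and it forms a triangle with them -/
def Good {V : Type} (K : Cpx V) (C : V → Set V) (u v : V) : Prop :=
  ∃ J, J ∈ C u ∧ J ∈ C v ∧ {u, v, J} ∈ K.faces

open Classical in
/-- K5: a criterion for simple connectivity. PROOF: base point `K.vert P`. For `w` with `{w} ∈ K.faces` and `I ∈ C w` let
`c w I = (sc {I,P} (vert P) (vert I)).trans (sc {w,I} (vert I) (vert w))`. Along the relation of h3 it does not change: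
`c w J = c w J'` if `{w,J,J'}` and `{J,J',P}` are faces: in the simplex `{J,J',P}` the class of the straight path `P → J'` is
`P → J → J'`, in `{w,J,J'}` the class `J → w` is `J → J' → w` (`sc_trans`, `sc_eq`). So `g w := c w I` for the chosen `I ∈ C w` (h1)
satisfies `g w = c w I` for all `I ∈ C w`. For a face `s` and `u, v ∈ s` we need `(g u).trans (sc u v) = g v` (`Cpx.Pot.comp`;
`{u,v}` is a face, `sc_eq`). If `Good u v` with `I`: `g u = c u I`, `g v = c v I` and in the simplex `{u,v,I}` the classes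
`I → u → v` and `I → v` agree. Otherwise (h4) there is `w` with `Good u w`, `Good w v` and the face `{u,w,v}`:
`g v = g w · (w → v) = g u · (u → w) · (w → v) = g u · (u → v)`. So there is a potential; `Cpx.Pot.simplyConnected`. Then
`π₀`: `HomotopyGroup.pi0EquivZerothHomotopy` and path connectedness; `π₁`: `HomotopyGroup.pi1EquivFundamentalGroup` and the
instance `Subsingleton (FundamentalGroup X x)`. -/
def S_K5 : Prop := ∀ (V : Type) (K : Cpx V) (P : V) (C : V → Set V),
  (∀ w, (C w).Nonempty) →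
  (∀ w, ∀ J ∈ C w, {w, J} ∈ K.faces ∧ {J, P} ∈ K.faces) →
  (∀ w, ∀ A ∈ C w, ∀ B ∈ C w, Relation.ReflTransGen (fun J J' => J ∈ C w ∧ J' ∈ C w ∧
    {w, J, J'} ∈ K.faces ∧ {J, J', P} ∈ K.faces) A B) →
  (∀ u v, {u, v} ∈ K.faces → Good K C u v ∨
    ∃ w, {u, w, v} ∈ K.faces ∧ Good K C u w ∧ Good K C w v) →
  ¬ PiNe 0 K.Space ∧ ¬ PiNe 1 K.Space

/-- K6 (assembly of the index). PROOF: `PiNe m` gives a point of the realization, hence a vertex (its support is
nonempty). If `PiNe 0` the index is `1`, otherwise `2`. -/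
def S_K6 : Prop := ∀ (Y : Type) [TopologicalSpace Y] (T : Cells Y) (H : Set Y),
  (PiNe 1 (diskCpx T H).Space → ∃ i ≤ 2, HasIndex T H i) ∧
  (PiNe 2 (diskCpx T H).Space → ¬ PiNe 0 (diskCpx T H).Space → ¬ PiNe 1 (diskCpx T H).Space →
    HasIndex T H 3)

/-- K7A. Isomorphic complexes have homeomorphic realizations. PROOF: `x ↦ x.1.mapDomain e`
(`Finsupp.equivMapDomain`); continuity in both directions by `Cpx.continuous_iff` and `Cpx.cont_of_simplex`
(the face `s` is mapped in the face `s.map e`; coordinates are coordinates). -/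
def S_K7A : Prop := ∀ (V V' : Type) (K : Cpx V) (K' : Cpx V') (e : V ≃ V'),
  (∀ s : Finset V, s ∈ K.faces ↔ s.map e.toEmbedding ∈ K'.faces) → Nonempty (K.Space ≃ₜ K'.Space)

/-- K7B. Homotopy groups are transported by homeomorphisms. PROOF: `f ↦ h ∘ f` maps `GenLoop N X x` to
`GenLoop N X' (h x)` and respects `GenLoop.Homotopic` (compose the homotopy with `h`); with `h.symm` one gets an
injection of `HomotopyGroup.Pi m X x` into `HomotopyGroup.Pi m X' (h x)`, so nontriviality is inherited. -/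
def S_K7B : Prop := ∀ (X X' : Type) [TopologicalSpace X] [TopologicalSpace X'] (m : ℕ),
  X ≃ₜ X' → PiNe m X → PiNe m X'

end Pool.Agent.LIX.K


end

section

/-!
# Brouwer's fixed point theorem (Milnor–Rogers proof)
-/

namespace Pool.Agent.Lib_helper47.R

open MeasureTheory Metric Set Polynomial
open scoped Topology NNReal ENNReal

section Interp

variable {E : Type*} [NormedAddCommGroup E] [InnerProductSpace ℝ E] [FiniteDimensional ℝ E]

lemma det_poly (A : E →L[ℝ] E) : ∃ p : ℝ[X], p.natDegree ≤ Module.finrank ℝ E ∧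
    ∀ t : ℝ, p.eval t = ((1 : E →L[ℝ] E) + t • A).det := by
  classical
  let b := Module.finBasis ℝ E
  let M := LinearMap.toMatrix b b (A : E →ₗ[ℝ] E)
  refine ⟨Matrix.det ((X : ℝ[X]) • M.map C + (1 : Matrix _ _ ℝ).map C), ?_, ?_⟩
  · have := Polynomial.natDegree_det_X_add_C_le M (1 : Matrix _ _ ℝ)
    simpa using this
  · intro t
    rw [← Polynomial.coe_evalRingHom, RingHom.map_det]
    have : (((1 : E →L[ℝ] E) + t • A).det) = Matrix.det (LinearMap.toMatrix b b
        (((1 : E →L[ℝ] E) + t • A : E →L[ℝ] E) : E →ₗ[ℝ] E)) := by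
      rw [LinearMap.det_toMatrix]
    rw [this]
    congr 1
    have h2 : (((1 : E →L[ℝ] E) + t • A : E →L[ℝ] E) : E →ₗ[ℝ] E)
        = LinearMap.id + t • (A : E →ₗ[ℝ] E) := by
      ext x; simp
    have h3 : LinearMap.toMatrix b b (LinearMap.id + t • (A : E →ₗ[ℝ] E)) = 1 + t • M := by
      rw [map_add, map_smul, LinearMap.toMatrix_id]
    rw [h2, h3]
    ext i j
    rcases eq_or_ne i j with rfl | hij
    · simp [add_comm, mul_comm t]
    · simp [Matrix.one_apply_ne hij, mul_comm t]

/-- Lagrange interpolation for `t ↦ det (1 + t A)`. -/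
lemma det_interp {t0 : ℝ} (ht0 : 0 < t0) : ∃ (s : Finset ℝ) (w : ℝ → ℝ),
    (∀ t ∈ s, 0 ≤ t ∧ t ≤ t0) ∧ ∑ t ∈ s, w t = 1 ∧
    ∀ A : E →L[ℝ] E, ((1 : E →L[ℝ] E) + A).det = ∑ t ∈ s, w t * ((1 : E →L[ℝ] E) + t • A).det := by
  classical
  set n := Module.finrank ℝ E
  have hinj : Function.Injective (fun i : ℕ => t0 * i / (n + 1) : ℕ → ℝ) := by
    intro i j hij
    have h1 : (0 : ℝ) < n + 1 := by positivity
    simp only at hij
    field_simp at hij
    exact_mod_cast hij
  set s : Finset ℝ := (Finset.range (n + 1)).image (fun i : ℕ => t0 * i / (n + 1) : ℕ → ℝ) with hs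
  have hcard : s.card = n + 1 := by
    rw [hs, Finset.card_image_of_injective _ hinj, Finset.card_range]
  have hne : s.Nonempty := by
    rw [← Finset.card_pos, hcard]; omega
  have hvs : Set.InjOn (id : ℝ → ℝ) (s : Set ℝ) := Function.injective_id.injOn
  refine ⟨s, fun t => (Lagrange.basis s id t).eval 1, ?_, ?_, ?_⟩
  · intro t ht
    simp only [hs, Finset.mem_image, Finset.mem_range] at ht
    obtain ⟨i, hi, rfl⟩ := ht
    have h1 : (0 : ℝ) < n + 1 := by positivity
    have h2 : (i : ℝ) ≤ n + 1 := by exact_mod_cast hi.le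
    constructor
    · positivity
    · rw [div_le_iff₀ h1]
      exact mul_le_mul_of_nonneg_left h2 ht0.le
  · have := congrArg (Polynomial.eval (1 : ℝ)) (Lagrange.sum_basis hvs hne)
    rw [Polynomial.eval_finsetSum, Polynomial.eval_one] at this
    exact this
  · intro A
    obtain ⟨p, hp, hpe⟩ := det_poly A
    have hdeg : p.degree < s.card := by
      rw [hcard]
      refine lt_of_le_of_lt Polynomial.degree_le_natDegree ?_
      exact_mod_cast Nat.lt_succ_of_le hp
    have h1 := Lagrange.eq_interpolate (v := (id : ℝ → ℝ)) hvs hdeg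
    have h2 := hpe 1
    rw [one_smul] at h2
    rw [← h2, h1, Lagrange.interpolate_apply, Polynomial.eval_finsetSum]
    refine Finset.sum_congr rfl fun t _ => ?_
    rw [Polynomial.eval_mul, Polynomial.eval_C, ← hpe t]
    simp [mul_comm]

end Interp

section Retraction

variable {E : Type*} [NormedAddCommGroup E] [InnerProductSpace ℝ E] [FiniteDimensional ℝ E]

omit [FiniteDimensional ℝ E] in
lemma dist_radial_le {x y : E} (hx : ‖x‖ ≤ 1) (hy : 1 < ‖y‖) :
    ‖x - (‖y‖)⁻¹ • y‖ ≤ ‖x - y‖ := by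
  have hy0 : (0 : ℝ) < ‖y‖ := by linarith
  have h1 : inner ℝ x y ≤ ‖y‖ := by
    calc inner ℝ x y ≤ ‖x‖ * ‖y‖ := real_inner_le_norm x y
      _ ≤ 1 * ‖y‖ := by gcongr
      _ = ‖y‖ := one_mul _
  have h2 : ‖x - (‖y‖)⁻¹ • y‖ ^ 2 ≤ ‖x - y‖ ^ 2 := by
    rw [norm_sub_sq_real, norm_sub_sq_real, inner_smul_right, norm_smul, norm_inv, norm_norm,
      inv_mul_cancel₀ hy0.ne']
    have h3 : (‖y‖)⁻¹ * inner ℝ x y ≥ inner ℝ x y - (‖y‖ - 1) := by
      have h4 : inner ℝ x y - (‖y‖)⁻¹ * inner ℝ x y ≤ ‖y‖ - 1 := by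
        have : inner ℝ x y - (‖y‖)⁻¹ * inner ℝ x y = (1 - (‖y‖)⁻¹) * inner ℝ x y := by ring
        rw [this]
        have h5 : 0 ≤ 1 - (‖y‖)⁻¹ := by
          rw [sub_nonneg]; exact inv_le_one_of_one_le₀ hy.le
        calc (1 - (‖y‖)⁻¹) * inner ℝ x y ≤ (1 - (‖y‖)⁻¹) * ‖y‖ := by gcongr
          _ = ‖y‖ - 1 := by rw [sub_mul, inv_mul_cancel₀ hy0.ne', one_mul]
      linarith
    nlinarith [sq_nonneg (‖y‖ - 1)]
  exact (abs_le_abs_of_sq_le_sq' h2)
where
  abs_le_abs_of_sq_le_sq' {a b : E} (h : ‖a‖ ^ 2 ≤ ‖b‖ ^ 2) : ‖a‖ ≤ ‖b‖ := by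
    exact le_of_sq_le_sq h (norm_nonneg _)
  le_of_sq_le_sq {a b : ℝ} (h : a ^ 2 ≤ b ^ 2) (hb : 0 ≤ b) : a ≤ b := by
    exact le_of_abs_le (by simpa [abs_of_nonneg hb] using abs_le_abs_of_sq h)
  abs_le_abs_of_sq {a b : ℝ} (h : a ^ 2 ≤ b ^ 2) : |a| ≤ |b| := sq_le_sq.mp h

/-- A Lipschitz map on the closed unit ball which vanishes on the sphere extends by zero. -/
lemma lipschitz_ext {g : E → E} {C : ℝ≥0} (hg : LipschitzOnWith C g (closedBall 0 1))
    (h0 : ∀ x, ‖x‖ = 1 → g x = 0) :
    LipschitzWith C (fun x => if ‖x‖ ≤ 1 then g x else 0) := by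
  have key : ∀ x y : E, ‖x‖ ≤ 1 → 1 < ‖y‖ → ‖g x‖ ≤ C * ‖x - y‖ := by
    intro x y hx hy
    have hy0 : (0 : ℝ) < ‖y‖ := by linarith
    have hz : ‖(‖y‖)⁻¹ • y‖ = 1 := by
      rw [norm_smul, norm_inv, norm_norm, inv_mul_cancel₀ hy0.ne']
    have h1 := hg.dist_le_mul x (by simpa using hx) ((‖y‖)⁻¹ • y) (by simpa using hz.le)
    rw [dist_eq_norm, dist_eq_norm, h0 _ hz, sub_zero] at h1
    exact h1.trans (by gcongr; exact dist_radial_le hx hy)
  refine LipschitzWith.of_dist_le_mul fun x y => ?_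
  rw [dist_eq_norm, dist_eq_norm]
  by_cases hx : ‖x‖ ≤ 1 <;> by_cases hy : ‖y‖ ≤ 1
  · simp only [hx, hy, if_true]
    have := hg.dist_le_mul x (by simpa using hx) y (by simpa using hy)
    rwa [dist_eq_norm, dist_eq_norm] at this
  · simp only [hx, hy, if_true, if_false, sub_zero]
    exact key x y hx (not_le.mp hy)
  · simp only [hx, hy, if_true, if_false, zero_sub, norm_neg]
    rw [norm_sub_rev]
    exact key y x hy (not_le.mp hx)
  · simp only [hx, hy, if_false, sub_zero, norm_zero]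
    positivity

/-- For small `t`, `x ↦ x + t g(x)` is injective on the closed ball and maps it onto itself. -/
lemma small_perturb {g : E → E} {C : ℝ≥0} (hg : LipschitzOnWith C g (closedBall 0 1))
    (h0 : ∀ x, ‖x‖ = 1 → g x = 0) {t : ℝ} (ht0 : 0 ≤ t) (ht : t * C < 1) :
    InjOn (fun x => x + t • g x) (closedBall 0 1) ∧
    (fun x => x + t • g x) '' (closedBall 0 1) = closedBall 0 1 := by
  set G : E → E := fun x => if ‖x‖ ≤ 1 then g x else 0 with hG
  have hGL : LipschitzWith C G := lipschitz_ext hg h0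
  have hGg : ∀ x, ‖x‖ ≤ 1 → G x = g x := fun x hx => by simp [hG, hx]
  have hGz : ∀ x, 1 < ‖x‖ → G x = 0 := fun x hx => by simp [hG, not_le.mpr hx]
  have hinj : Function.Injective (fun x => x + t • G x) := by
    intro x y hxy
    have hxy' : x + t • G x = y + t • G y := hxy
    have h1 : x - y = t • (G y - G x) := by
      rw [smul_sub]
      have h8 : x = y + t • G y - t • G x := by rw [← hxy']; abel
      nth_rewrite 1 [h8]; abel
    have h2 : ‖x - y‖ ≤ t * C * ‖x - y‖ := by
      calc ‖x - y‖ = t * ‖G y - G x‖ := by rw [h1, norm_smul, Real.norm_of_nonneg ht0]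
        _ ≤ t * (C * ‖x - y‖) := by
            gcongr
            have := hGL.dist_le_mul y x
            rw [dist_eq_norm, dist_eq_norm, norm_sub_rev y x] at this
            exact this
        _ = t * C * ‖x - y‖ := by ring
    have h3 : ‖x - y‖ = 0 := by
      by_contra hne
      have hpos : 0 < ‖x - y‖ := lt_of_le_of_ne (norm_nonneg _) (Ne.symm hne)
      nlinarith
    exact sub_eq_zero.mp (norm_eq_zero.mp h3)
  have hsurj : Function.Surjective (fun x => x + t • G x) := by
    intro y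
    have hc : ContractingWith ⟨t * C, by positivity⟩ (fun x => y - t • G x) := by
      constructor
      · exact ht
      · refine LipschitzWith.of_dist_le_mul fun a b => ?_
        rw [dist_eq_norm, dist_eq_norm]
        have : y - t • G a - (y - t • G b) = t • (G b - G a) := by rw [smul_sub]; abel
        rw [this, norm_smul, Real.norm_of_nonneg ht0]
        have h4 := hGL.dist_le_mul b a
        rw [dist_eq_norm, dist_eq_norm, norm_sub_rev b a] at h4
        calc t * ‖G b - G a‖ ≤ t * (C * ‖a - b‖) := by gcongr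
          _ = (t * C) * ‖a - b‖ := by ring
          _ = _ := rfl
    refine ⟨hc.fixedPoint, ?_⟩
    have := hc.fixedPoint_isFixedPt
    have h5 : y - t • G hc.fixedPoint = hc.fixedPoint := this
    simp only
    nth_rewrite 1 [← h5]
    abel
  constructor
  · intro x hx y hy hxy
    apply hinj
    simp only at hxy ⊢
    rw [hGg x (by simpa using hx), hGg y (by simpa using hy)]
    exact hxy
  · ext y
    constructor
    · rintro ⟨x, hx, rfl⟩
      by_contra hy
      simp only [mem_closedBall, dist_zero_right, not_le] at hy hx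
      have h6 : (x + t • g x) + t • G (x + t • g x) = x + t • G x := by
        rw [hGz _ hy, smul_zero, add_zero, hGg x hx]
      have h7 := hinj h6
      rw [h7] at hy
      linarith
    · intro hy
      obtain ⟨x, hx⟩ := hsurj y
      simp only at hx
      have hx1 : ‖x‖ ≤ 1 := by
        by_contra hx1
        rw [not_le] at hx1
        rw [hGz x hx1, smul_zero, add_zero] at hx
        rw [hx] at hx1
        simp only [mem_closedBall, dist_zero_right] at hy
        linarith
      refine ⟨x, by simpa using hx1, ?_⟩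
      simp only
      rw [← hGg x hx1]; exact hx

/-- There is no `C¹` retraction of the closed unit ball onto the sphere. -/
lemma no_retraction {ρ : E → E} {U : Set E} (hU : IsOpen U) (hBU : closedBall (0 : E) 1 ⊆ U)
    (hρ : ContDiffOn ℝ 1 ρ U) (h1 : ∀ x ∈ U, ‖ρ x‖ = 1) (hid : ∀ x, ‖x‖ = 1 → ρ x = x) : False := by
  borelize E
  set B : Set E := closedBall 0 1 with hB
  have hBc : IsCompact B := isCompact_closedBall 0 1
  have hBconv : Convex ℝ B := convex_closedBall 0 1
  set μ : Measure E := MeasureTheory.Measure.addHaar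
  have hdiff : ∀ x ∈ B, HasFDerivAt ρ (fderiv ℝ ρ x) x := fun x hx =>
    ((hρ.differentiableOn one_ne_zero).differentiableAt (hU.mem_nhds (hBU hx))).hasFDerivAt
  have hcontD : ContinuousOn (fderiv ℝ ρ) B :=
    ((hρ.continuousOn_fderiv_of_isOpen hU le_rfl)).mono hBU
  set D : E → E →L[ℝ] E := fun x => fderiv ℝ ρ x - 1 with hD
  have hDc : ContinuousOn D B := hcontD.sub continuousOn_const
  -- determinant of derivative vanishes
  have hdet0 : ∀ x ∈ B, ((1 : E →L[ℝ] E) + D x).det = 0 := by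
    intro x hx
    have e1 : (1 : E →L[ℝ] E) + D x = fderiv ℝ ρ x := by simp [hD]
    rw [e1]
    by_contra hne
    have horth : ∀ v, inner ℝ (ρ x) (fderiv ℝ ρ x v) = 0 := by
      intro v
      have hd := (hdiff x hx).norm_sq
      have hc : (fun y => ‖ρ y‖ ^ 2) =ᶠ[𝓝 x] fun _ => (1 : ℝ) := by
        filter_upwards [hU.mem_nhds (hBU hx)] with y hy
        rw [h1 y hy]; norm_num
      have hd2 : HasFDerivAt (fun y => ‖ρ y‖ ^ 2) (0 : E →L[ℝ] ℝ) x :=
        (hasFDerivAt_const (1 : ℝ) x).congr_of_eventuallyEq hc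
      have := congrArg (fun L : E →L[ℝ] ℝ => L v) (hd.unique hd2)
      simpa using this
    have hsurj : Function.Surjective (fderiv ℝ ρ x) := by
      have := (LinearMap.equivOfDetNeZero ((fderiv ℝ ρ x : E →L[ℝ] E) : E →ₗ[ℝ] E) hne).surjective
      intro v
      obtain ⟨w, hw⟩ := this v
      exact ⟨w, hw⟩
    obtain ⟨v, hv⟩ := hsurj (ρ x)
    have h2 := horth v
    rw [hv, real_inner_self_eq_norm_sq, h1 x (hBU hx)] at h2
    norm_num at h2
  -- Lipschitz bound
  obtain ⟨C0, hC0⟩ := hBc.exists_bound_of_continuousOn hDc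
  set C : ℝ≥0 := ⟨max C0 0, le_max_right _ _⟩ with hC
  have hCn : ∀ x ∈ B, ‖D x‖ ≤ C := fun x hx => (hC0 x hx).trans (le_max_left _ _)
  set g : E → E := fun x => ρ x - x with hg
  have hgd : ∀ x ∈ B, HasFDerivAt g (D x) x := by
    intro x hx
    have := (hdiff x hx).sub (hasFDerivAt_id x)
    exact this
  have hgL : LipschitzOnWith C g B := by
    refine hBconv.lipschitzOnWith_of_nnnorm_hasFDerivWithin_le
      (fun x hx => (hgd x hx).hasFDerivWithinAt) (fun x hx => ?_)
    exact_mod_cast hCn x hx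
  have hg0 : ∀ x, ‖x‖ = 1 → g x = 0 := fun x hx => by simp [hg, hid x hx]
  -- positivity of determinants near the identity
  have hdetc : Continuous (fun A : E →L[ℝ] E => A.det) := ContinuousLinearMap.continuous_det
  have hnear : ∀ᶠ A : E →L[ℝ] E in 𝓝 1, 0 < A.det := by
    have : (0 : ℝ) < (1 : E →L[ℝ] E).det := by
      have : (1 : E →L[ℝ] E).det = 1 := by
        change LinearMap.det (((1 : E →L[ℝ] E) : E →ₗ[ℝ] E)) = 1
        exact LinearMap.det_id
      rw [this]; norm_num
    exact hdetc.continuousAt.eventually (lt_mem_nhds this)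
  obtain ⟨δ, hδ, hδd⟩ := Metric.eventually_nhds_iff.mp hnear
  set t0 : ℝ := min δ 1 / (2 * (C + 1)) with ht0
  have hCp : (0 : ℝ) < C + 1 := by positivity
  have ht0p : 0 < t0 := by
    have : 0 < min δ 1 := lt_min hδ one_pos
    positivity
  have ht0C : t0 * C < 1 ∧ t0 * C < δ := by
    have h3 : t0 * (C + 1) = min δ 1 / 2 := by rw [ht0]; field_simp
    have h4 : min δ 1 / 2 < 1 ∧ min δ 1 / 2 < δ := by
      have := min_le_left δ 1
      have := min_le_right δ 1
      constructor <;> linarith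
    have h5 : t0 * C ≤ t0 * (C + 1) := by
      apply mul_le_mul_of_nonneg_left _ ht0p.le; linarith
    constructor <;> linarith [h4.1, h4.2]
  have hvol : ∀ t, 0 ≤ t → t ≤ t0 → ∫ x in B, ((1 : E →L[ℝ] E) + t • D x).det ∂μ = (μ B).toReal := by
    intro t ht ht1
    have htC : t * C < 1 := lt_of_le_of_lt (by gcongr) ht0C.1
    obtain ⟨hinj, himg⟩ := small_perturb hgL hg0 ht htC
    have hcov := lintegral_abs_det_fderiv_eq_addHaar_image μ (s := B)
      (f := fun x => x + t • g x) (f' := fun x => (1 : E →L[ℝ] E) + t • D x)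
      measurableSet_closedBall
      (fun x hx => ((hasFDerivAt_id x).add ((hgd x hx).const_smul t)).hasFDerivWithinAt) hinj
    rw [himg] at hcov
    have hpos : ∀ x ∈ B, 0 ≤ ((1 : E →L[ℝ] E) + t • D x).det := by
      intro x hx
      apply le_of_lt
      apply hδd
      rw [dist_eq_norm, add_sub_cancel_left, norm_smul, Real.norm_of_nonneg ht]
      calc t * ‖D x‖ ≤ t0 * C := by
            gcongr
            exact hCn x hx
        _ < δ := ht0C.2
    have hcont : ContinuousOn (fun x => ((1 : E →L[ℝ] E) + t • D x).det) B := by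
      refine hdetc.comp_continuousOn ?_
      exact continuousOn_const.add (hDc.const_smul t)
    rw [integral_eq_lintegral_of_nonneg_ae]
    · rw [← hcov]
      congr 1
      refine setLIntegral_congr_fun measurableSet_closedBall fun x hx => ?_
      rw [abs_of_nonneg (hpos x hx)]
    · exact (ae_restrict_iff' measurableSet_closedBall).mpr (Filter.Eventually.of_forall hpos)
    · exact hcont.aestronglyMeasurable measurableSet_closedBall
  obtain ⟨s, w, hs, hw, hA⟩ := det_interp (E := E) ht0p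
  have hint : ∀ t : ℝ, IntegrableOn (fun x => ((1 : E →L[ℝ] E) + t • D x).det) B μ := by
    intro t
    refine ContinuousOn.integrableOn_compact hBc ?_
    refine hdetc.comp_continuousOn ?_
    exact continuousOn_const.add (hDc.const_smul t)
  have hzero : ∫ x in B, ((1 : E →L[ℝ] E) + D x).det ∂μ = 0 := by
    rw [setIntegral_congr_fun measurableSet_closedBall (fun x hx => hdet0 x hx)]
    simp
  have hone : ∫ x in B, ((1 : E →L[ℝ] E) + D x).det ∂μ = (μ B).toReal := by
    have hA' : (fun x => ((1 : E →L[ℝ] E) + D x).det) =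
        fun x => ∑ t ∈ s, w t * ((1 : E →L[ℝ] E) + t • D x).det := funext fun x => hA (D x)
    rw [hA', integral_finsetSum _ (fun t _ => (hint t).const_mul (w t))]
    rw [Finset.sum_congr rfl (fun t ht => integral_const_mul (w t) _)]
    rw [Finset.sum_congr rfl (fun t ht => by rw [hvol t (hs t ht).1 (hs t ht).2])]
    rw [← Finset.sum_mul, hw, one_mul]
  have hBpos : 0 < (μ B).toReal := by
    refine ENNReal.toReal_pos ?_ hBc.measure_lt_top.ne
    exact (measure_closedBall_pos μ 0 one_pos).ne'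
  rw [hzero] at hone
  linarith

/-- **Brouwer's fixed point theorem** for the closed unit ball. -/
theorem brouwer {f : E → E} (hf : ContinuousOn f (closedBall 0 1))
    (hm : MapsTo f (closedBall 0 1) (closedBall 0 1)) : ∃ x ∈ closedBall (0 : E) 1, f x = x := by
  by_contra hno
  push Not at hno
  set B : Set E := closedBall 0 1 with hB
  have hBc : IsCompact B := isCompact_closedBall 0 1
  have hBne : B.Nonempty := ⟨0, by simp [hB]⟩
  -- distance to fixed points
  obtain ⟨x0, hx0, hmin⟩ := hBc.exists_isMinOn hBne (f := fun x => ‖x - f x‖)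
    ((continuousOn_id.sub hf).norm)
  set δ : ℝ := ‖x0 - f x0‖ with hδ
  have hδp : 0 < δ := norm_pos_iff.mpr (sub_ne_zero.mpr (hno x0 hx0).symm)
  have hδle : ∀ x ∈ B, δ ≤ ‖x - f x‖ := fun x hx => hmin hx
  -- extension
  set pr : E → E := fun x => (max 1 ‖x‖)⁻¹ • x with hpr
  have hprc : Continuous pr := by
    refine Continuous.smul (Continuous.inv₀ (by fun_prop) fun x => ?_) continuous_id
    have : (1 : ℝ) ≤ max 1 ‖x‖ := le_max_left _ _
    linarith
  have hprB : ∀ x, pr x ∈ B := by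
    intro x
    have h1 : (0 : ℝ) < max 1 ‖x‖ := lt_of_lt_of_le one_pos (le_max_left _ _)
    simp only [hB, mem_closedBall, dist_zero_right, hpr, norm_smul, norm_inv,
      Real.norm_of_nonneg h1.le]
    rw [inv_mul_le_iff₀ h1, mul_one]
    exact le_max_right _ _
  have hprid : ∀ x ∈ B, pr x = x := by
    intro x hx
    simp only [hB, mem_closedBall, dist_zero_right] at hx
    simp [hpr, max_eq_left hx]
  have hfc : Continuous (fun x => f (pr x)) := hf.comp_continuous hprc hprB
  obtain ⟨G, hGs, hGa, -⟩ := hfc.exists_contDiff_approx 1 (ε := fun _ => δ / 4)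
    continuous_const (fun _ => by positivity)
  have hGB : ∀ x ∈ B, ‖G x - f x‖ < δ / 4 := by
    intro x hx
    have := hGa x
    rw [dist_eq_norm, hprid x hx] at this
    exact this
  have hfB : ∀ x ∈ B, ‖f x‖ ≤ 1 := fun x hx => by simpa [hB] using hm hx
  set ε : ℝ := δ / 4 with hε
  have hεp : 0 < ε := by positivity
  set p : E → E := fun x => (1 + ε)⁻¹ • G x with hp
  have hpn : ∀ x ∈ B, ‖p x‖ ≤ 1 := by
    intro x hx
    simp only [hp, norm_smul, norm_inv, Real.norm_of_nonneg (by positivity : (0:ℝ) ≤ 1 + ε)]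
    rw [inv_mul_le_iff₀ (by positivity), mul_one]
    calc ‖G x‖ = ‖f x + (G x - f x)‖ := by congr 1; abel
      _ ≤ ‖f x‖ + ‖G x - f x‖ := norm_add_le _ _
      _ ≤ 1 + ε := add_le_add (hfB x hx) (hGB x hx).le
  have hpf : ∀ x ∈ B, ‖p x - f x‖ ≤ 2 * ε := by
    intro x hx
    have h1 : p x - f x = (1 + ε)⁻¹ • ((G x - f x) - ε • f x) := by
      have : f x = (1 + ε)⁻¹ • ((1 + ε) • f x) := by
        rw [smul_smul, inv_mul_cancel₀ (by positivity), one_smul]
      nth_rewrite 1 [this]
      simp only [hp]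
      rw [← smul_sub, add_smul, one_smul]
      congr 1; abel
    rw [h1, norm_smul, norm_inv, Real.norm_of_nonneg (by positivity : (0:ℝ) ≤ 1 + ε),
      inv_mul_le_iff₀ (by positivity)]
    calc ‖(G x - f x) - ε • f x‖ ≤ ‖G x - f x‖ + ‖ε • f x‖ := norm_sub_le _ _
      _ ≤ ε + ε * 1 := by
          rw [norm_smul, Real.norm_of_nonneg hεp.le]
          gcongr
          · exact (hGB x hx).le
          · exact hfB x hx
      _ ≤ (1 + ε) * (2 * ε) := by nlinarith
  have hpne : ∀ x ∈ B, x - p x ≠ 0 := by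
    intro x hx h0
    have h1 := hδle x hx
    have h2 := hpf x hx
    have h3 : x = p x := sub_eq_zero.mp h0
    rw [← h3] at h2
    linarith
  have hps : ContDiff ℝ 1 p := hGs.const_smul _
  -- the retraction
  set u : E → E := fun x => x - p x with hu
  have hus : ContDiff ℝ 1 u := contDiff_id.sub hps
  set Dd : E → ℝ := fun x => (inner ℝ x (u x)) ^ 2 + ‖u x‖ ^ 2 * (1 - ‖x‖ ^ 2) with hDd
  have hDs : ContDiff ℝ 1 Dd := by
    have a1 : ContDiff ℝ 1 (fun x : E => inner ℝ x (u x)) := contDiff_id.inner ℝ hus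
    have a2 : ContDiff ℝ 1 (fun x : E => ‖u x‖ ^ 2) := hus.norm_sq ℝ
    have a3 : ContDiff ℝ 1 (fun x : E => ‖x‖ ^ 2) := contDiff_id.norm_sq ℝ
    exact (a1.pow 2).add (a2.mul (contDiff_const.sub a3))
  set τ : E → ℝ := fun x => (-(inner ℝ x (u x)) + √(Dd x)) / ‖u x‖ ^ 2 with hτ
  set ρ : E → E := fun x => x + τ x • u x with hρ
  set U : Set E := {x | u x ≠ 0} ∩ {x | 0 < Dd x} with hU
  have hUo : IsOpen U := (isOpen_ne_fun hus.continuous continuous_const).inter
    (isOpen_lt continuous_const hDs.continuous)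
  have hsph : ∀ x, ‖x‖ = 1 → 0 < inner ℝ x (u x) := by
    intro x hx
    have hxB : x ∈ B := by simp [hB, hx]
    have h1 : inner ℝ x (u x) = 1 - inner ℝ x (p x) := by
      simp only [hu, inner_sub_right, real_inner_self_eq_norm_sq, hx]; norm_num
    rw [h1, sub_pos]
    have h2 : inner ℝ x (p x) ≤ 1 := by
      calc inner ℝ x (p x) ≤ ‖x‖ * ‖p x‖ := real_inner_le_norm _ _
        _ ≤ 1 * 1 := by rw [hx]; gcongr; exact hpn x hxB
        _ = 1 := one_mul 1
    refine lt_of_le_of_ne h2 fun h3 => ?_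
    have h4 : ‖x - p x‖ ^ 2 ≤ 0 := by
      rw [norm_sub_sq_real, h3, hx]
      have := hpn x hxB
      have h5 : ‖p x‖ ^ 2 ≤ 1 := by
        rw [sq_le_one_iff₀ (norm_nonneg _)]; exact this
      linarith
    have h6 : ‖x - p x‖ = 0 := by
      have := sq_nonneg ‖x - p x‖
      exact pow_eq_zero_iff two_ne_zero |>.mp (le_antisymm h4 this)
    exact hpne x hxB (norm_eq_zero.mp h6)
  have hBU : B ⊆ U := by
    intro x hx
    refine ⟨hpne x hx, ?_⟩
    change 0 < Dd x
    have hx1 : ‖x‖ ≤ 1 := by simpa [hB] using hx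
    rcases eq_or_lt_of_le hx1 with h1 | h1
    · have := hsph x h1
      simp only [hDd, h1]
      nlinarith
    · have h2 : 0 < ‖u x‖ := norm_pos_iff.mpr (hpne x hx)
      have h3 : 0 < 1 - ‖x‖ ^ 2 := by nlinarith [norm_nonneg x]
      have : 0 < ‖u x‖ ^ 2 * (1 - ‖x‖ ^ 2) := by positivity
      simp only [hDd]
      nlinarith [sq_nonneg (inner ℝ x (u x))]
  have hρs : ContDiffOn ℝ 1 ρ U := by
    intro x hx
    apply ContDiffAt.contDiffWithinAt
    have a1 : ContDiffAt ℝ 1 (fun x : E => inner ℝ x (u x)) x := (contDiff_id.inner ℝ hus).contDiffAt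
    have a2 : ContDiffAt ℝ 1 (fun x : E => ‖u x‖ ^ 2) x := (hus.norm_sq ℝ).contDiffAt
    have a3 : ContDiffAt ℝ 1 (fun x : E => √(Dd x)) x := hDs.contDiffAt.sqrt hx.2.ne'
    have a4 : ContDiffAt ℝ 1 τ x := (a1.neg.add a3).div a2 (by
      have := norm_pos_iff.mpr hx.1
      positivity)
    exact contDiffAt_id.add (a4.smul hus.contDiffAt)
  refine no_retraction hUo hBU hρs ?_ ?_
  · intro x hx
    have hux : 0 < ‖u x‖ := norm_pos_iff.mpr hx.1
    have hs : √(Dd x) ^ 2 = Dd x := Real.sq_sqrt hx.2.le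
    have h2 : τ x * ‖u x‖ ^ 2 = -(inner ℝ x (u x)) + √(Dd x) := by
      simp only [hτ]; field_simp
    have h1 : ‖ρ x‖ ^ 2 = 1 := by
      simp only [hρ]
      rw [norm_add_sq_real, inner_smul_right, norm_smul, mul_pow, Real.norm_eq_abs, sq_abs]
      have h3 : τ x * (2 * inner ℝ x (u x) + τ x * ‖u x‖ ^ 2) = 1 - ‖x‖ ^ 2 := by
        rw [h2]
        have h4 : τ x * (2 * inner ℝ x (u x) + (-(inner ℝ x (u x)) + √(Dd x))) * ‖u x‖ ^ 2
            = (1 - ‖x‖ ^ 2) * ‖u x‖ ^ 2 := by
          calc τ x * (2 * inner ℝ x (u x) + (-(inner ℝ x (u x)) + √(Dd x))) * ‖u x‖ ^ 2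
              = (τ x * ‖u x‖ ^ 2) * (inner ℝ x (u x) + √(Dd x)) := by ring
            _ = √(Dd x) ^ 2 - (inner ℝ x (u x)) ^ 2 := by rw [h2]; ring
            _ = (1 - ‖x‖ ^ 2) * ‖u x‖ ^ 2 := by rw [hs]; simp only [hDd]; ring
        exact mul_right_cancel₀ (by positivity) h4
      nlinarith
    exact (pow_eq_one_iff_of_nonneg (norm_nonneg _) two_ne_zero).mp h1
  · intro x hx
    have h1 := hsph x hx
    have h2 : Dd x = (inner ℝ x (u x)) ^ 2 := by simp only [hDd, hx]; ring
    have h3 : τ x = 0 := by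
      simp only [hτ]
      rw [h2, Real.sqrt_sq h1.le]; simp
    simp [hρ, h3]

/-- A continuous nonvanishing field on the closed unit ball is radial somewhere on the sphere. -/
theorem exists_radial {F : E → E} (hF : ContinuousOn F (closedBall 0 1))
    (hne : ∀ x, ‖x‖ ≤ 1 → F x ≠ 0) : ∃ x : E, ‖x‖ = 1 ∧ ∃ r : ℝ, F x = r • x := by
  obtain ⟨x, hx, hfx⟩ := brouwer (f := fun x => -((‖F x‖)⁻¹ • F x))
    ((ContinuousOn.smul (hF.norm.inv₀ fun x hx => norm_ne_zero_iff.mpr
      (hne x (by simpa using hx))) hF).neg) (by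
      intro x hx
      have h1 : ‖F x‖ ≠ 0 := norm_ne_zero_iff.mpr (hne x (by simpa using hx))
      simp only [mem_closedBall, dist_zero_right, norm_neg, norm_smul, norm_inv, norm_norm]
      rw [inv_mul_cancel₀ h1])
  have h1 : ‖F x‖ ≠ 0 := norm_ne_zero_iff.mpr (hne x (by simpa using hx))
  have h2 : ‖x‖ = 1 := by
    rw [← hfx, norm_neg, norm_smul, norm_inv, norm_norm, inv_mul_cancel₀ h1]
  refine ⟨x, h2, -‖F x‖, ?_⟩
  have h3 : (‖F x‖) • (-((‖F x‖)⁻¹ • F x)) = ‖F x‖ • x := by rw [hfx]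
  rw [smul_neg, smul_smul, mul_inv_cancel₀ h1, one_smul] at h3
  rw [neg_smul, ← h3, neg_neg]

end Retraction

end Pool.Agent.Lib_helper47.R


end

section

set_option autoImplicit false

namespace Pool.Agent.LIX.K

open Set Topology

namespace EXTx

/-- coordinatewise projection to the cube -/
noncomputable def clamp {n : ℕ} (x : Fin n → ℝ) : Fin n → ℝ := fun i => max (-1) (min 1 (x i))

theorem clamp_mem {n : ℕ} (x : Fin n → ℝ) : clamp x ∈ Icc (-1 : Fin n → ℝ) 1 := by
  constructor
  · intro i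
    exact le_max_left _ _
  · intro i
    exact max_le (by norm_num [Pi.one_apply]) (min_le_left _ _)

theorem clamp_eq {n : ℕ} {x : Fin n → ℝ} (hx : x ∈ Icc (-1 : Fin n → ℝ) 1) : clamp x = x := by
  funext i
  have h1 : -1 ≤ x i := hx.1 i
  have h2 : x i ≤ 1 := hx.2 i
  show max (-1) (min 1 (x i)) = x i
  rw [min_eq_right h2, max_eq_right h1]

theorem clamp_cont {n : ℕ} : Continuous (clamp (n := n)) := by
  refine continuous_pi fun i => ?_
  exact continuous_const.max (continuous_const.min (continuous_apply i))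

theorem mem_of_norm {n : ℕ} {x : Fin n → ℝ} (hx : ‖x‖ ≤ 1) : x ∈ Icc (-1 : Fin n → ℝ) 1 := by
  have h : ∀ i, |x i| ≤ 1 := fun i => (norm_le_pi_norm x i).trans hx
  exact ⟨fun i => (abs_le.1 (h i)).1, fun i => (abs_le.1 (h i)).2⟩

end EXTx

open EXTx in
theorem t_EXT : S_EXT := by
  intro n G hG h0
  set f : (Fin n → ℝ) → (Fin n → ℝ) := fun x => -(‖G (clamp x)‖⁻¹ • G (clamp x)) with hf
  have hGc : Continuous fun x => G (clamp x) :=
    hG.comp_continuous clamp_cont clamp_mem
  have hne : ∀ x, ‖G (clamp x)‖ ≠ 0 := fun x => norm_ne_zero_iff.2 (h0 _ (clamp_mem x))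
  have hfc : Continuous f := ((hGc.norm.inv₀ hne).smul hGc).neg
  have hfn : ∀ x, ‖f x‖ = 1 := by
    intro x
    rw [hf]
    simp only [norm_neg, norm_smul, norm_inv, norm_norm]
    exact inv_mul_cancel₀ (hne x)
  set e := EuclideanSpace.equiv (Fin n) ℝ with he
  set R : ℝ := n + 1 with hR
  have hRp : 0 < R := by positivity
  set F : EuclideanSpace ℝ (Fin n) → EuclideanSpace ℝ (Fin n) :=
    fun y => e.symm (R⁻¹ • f (R • e y)) with hF
  have hFc : Continuous F := by
    refine e.symm.continuous.comp ?_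
    have h1 : Continuous fun y : EuclideanSpace ℝ (Fin n) => R • e y :=
      e.continuous.const_smul R
    exact (hfc.comp h1).const_smul R⁻¹
  have hFn : ∀ y, ‖F y‖ ≤ 1 := by
    intro y
    have h1 : ‖F y‖ = R⁻¹ * ‖e.symm (f (R • e y))‖ := by
      rw [hF]
      simp only [map_smul, norm_smul, norm_inv, Real.norm_eq_abs, abs_of_pos hRp]
    have h2 : ‖e.symm (f (R • e y))‖ ≤ R := by
      rw [EuclideanSpace.norm_eq]
      refine Real.sqrt_le_iff.2 ⟨hRp.le, ?_⟩
      have h3 : ∀ i ∈ (Finset.univ : Finset (Fin n)),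
          ‖(e.symm (f (R • e y))) i‖ ^ 2 ≤ 1 := by
        intro i _
        have h4 : ‖(e.symm (f (R • e y))) i‖ ≤ 1 := by
          have h5 : (e.symm (f (R • e y))) i = f (R • e y) i := rfl
          rw [h5]
          exact (norm_le_pi_norm _ i).trans (hfn _).le
        exact pow_le_one₀ (norm_nonneg _) h4
      refine (Finset.sum_le_sum h3).trans ?_
      simp only [Finset.sum_const, Finset.card_univ, Fintype.card_fin, nsmul_eq_mul, mul_one]
      nlinarith [Nat.cast_nonneg (α := ℝ) n]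
    rw [h1]
    calc R⁻¹ * ‖e.symm (f (R • e y))‖ ≤ R⁻¹ * R := by gcongr
      _ = 1 := inv_mul_cancel₀ hRp.ne'
  obtain ⟨y, _, hy⟩ := Pool.Agent.Lib_helper47.R.brouwer (f := F) hFc.continuousOn
    (fun y _ => by
      rw [mem_closedBall_zero_iff]
      exact hFn y)
  obtain ⟨x, hx⟩ : ∃ x : Fin n → ℝ, x = R • e y := ⟨_, rfl⟩
  have h1 : x = f x := by
    have h2 : e y = R⁻¹ • f x := by
      conv_lhs => rw [← hy]
      rw [hF]
      simp only [ContinuousLinearEquiv.apply_symm_apply]
      rw [hx]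
    have h3 : R • e y = f x := by
      rw [h2, smul_smul, mul_inv_cancel₀ hRp.ne', one_smul]
    rw [← hx] at h3
    exact h3
  have hxn : ‖x‖ = 1 := by
    rw [h1]
    exact hfn x
  have hxm : x ∈ Icc (-1 : Fin n → ℝ) 1 := mem_of_norm hxn.le
  have hcl : clamp x = x := clamp_eq hxm
  refine ⟨x, hxm, ?_, ‖G x‖, norm_pos_iff.2 (h0 x hxm), ?_⟩
  · by_contra hno
    push Not at hno
    have h3 : ‖x‖ < 1 := by
      rw [pi_norm_lt_iff one_pos]
      intro i
      exact lt_of_le_of_ne ((norm_le_pi_norm x i).trans hxn.le) (hno i)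
    exact absurd hxn h3.ne
  · have h4 : x = -(‖G x‖⁻¹ • G x) := by
      conv_lhs => rw [h1]
      rw [hf]
      simp only [hcl]
    have h5 : ‖G x‖ ≠ 0 := norm_ne_zero_iff.2 (h0 x hxm)
    have h6 : ‖G x‖ • x = -G x := by
      have h7 : ‖G x‖ • x = ‖G x‖ • (-(‖G x‖⁻¹ • G x)) := congrArg _ h4
      rw [h7, smul_neg, smul_smul, mul_inv_cancel₀ h5, one_smul]
    rw [h6, neg_neg]

end Pool.Agent.LIX.K


end

section

/-!
MP_6eac38_gt, module BRO: the collapsing map has no nullhomotopy (Brouwer).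
-/

set_option autoImplicit false

namespace CTO

open Set Topology

theorem t_BRO : S_BRO := by
  rintro ρ hρ ⟨G, hG, h0, htop, hbot, hside⟩
  obtain ⟨x, hx, ⟨i, hi⟩, c, hc, hGx⟩ := Pool.Agent.LIX.K.t_EXT 4 G hG h0
  have hval : ∀ j, G x j = -(c * x j) := fun j => by rw [hGx]; rfl
  -- the sides
  have hS : ∀ j : Fin 4, j ≠ 3 → |x j| = 1 → G x = south → False := by
    intro j hj h1 h2
    have h3 := hval j
    rw [h2] at h3
    have h4 : south j = 0 := by
      fin_cases j
      · rfl
      · rfl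
      · rfl
      · exact absurd rfl hj
    rw [h4] at h3
    have h5 : x j = 0 := by
      have : c * x j = 0 := by linarith
      exact (mul_eq_zero.1 this).resolve_left hc.ne'
    rw [h5, abs_zero] at h1
    exact zero_ne_one h1
  have h3cases : x 3 = 1 ∨ x 3 = -1 ∨ (|x 0| = 1 ∨ |x 1| = 1 ∨ |x 2| = 1) := by
    fin_cases i
    · exact Or.inr (Or.inr (Or.inl hi))
    · exact Or.inr (Or.inr (Or.inr (Or.inl hi)))
    · exact Or.inr (Or.inr (Or.inr (Or.inr hi)))
    · rcases eq_or_eq_neg_of_abs_eq hi with h | h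
      · exact Or.inl h
      · exact Or.inr (Or.inl h)
  rcases h3cases with h | h | h
  · have hc1 := htop x hx h
    set v : Fin 3 → ℝ := ![x 0, x 1, x 2] with hv
    have hk : 0 ≤ max 0 (1 - ‖v‖ / ρ) := le_max_left _ _
    have hz : ∀ y : ℝ, max 0 (1 - ‖v‖ / ρ) * y / ρ = -(c * y) → y = 0 := by
      intro y hy
      have h1 : (max 0 (1 - ‖v‖ / ρ) / ρ + c) * y = 0 := by
        have e : max 0 (1 - ‖v‖ / ρ) * y / ρ = max 0 (1 - ‖v‖ / ρ) / ρ * y := by ring
        rw [e] at hy
        linarith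
      have h2 : 0 < max 0 (1 - ‖v‖ / ρ) / ρ + c := by positivity
      exact (mul_eq_zero.1 h1).resolve_left h2.ne'
    have e0 : x 0 = 0 := by
      apply hz
      have := hval 0
      rw [hc1] at this
      exact this
    have e1 : x 1 = 0 := by
      apply hz
      have := hval 1
      rw [hc1] at this
      exact this
    have e2 : x 2 = 0 := by
      apply hz
      have := hval 2
      rw [hc1] at this
      exact this
    have hv0 : v = 0 := by
      rw [hv, e0, e1, e2]
      ext j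
      fin_cases j <;> rfl
    have h4 := hval 3
    rw [hc1, h] at h4
    have h5 : col ρ v 3 = max (-1) (1 - 2 * (‖v‖ / ρ)) := rfl
    rw [h5, hv0, norm_zero, zero_div, mul_zero, sub_zero, max_eq_right (by norm_num)] at h4
    linarith
  · have h1 := hbot x hx h
    have h4 := hval 3
    have h5 : south 3 = -1 := rfl
    rw [h1, h, h5] at h4
    linarith
  · have h1 := hside x hx h
    rcases h with h | h | h
    · exact hS 0 (by decide) h h1
    · exact hS 1 (by decide) h h1
    · exact hS 2 (by decide) h h1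

end CTO


end

section

/-!
# MP_6eac38_gt, module CELL1: the centre of a 3-cell stays in the image of the cell
-/

set_option autoImplicit false

namespace CTO

open Set Topology

namespace CELL1

theorem norm_le_iff (v : Fin 3 → ℝ) : v ∈ Icc (-1 : Fin 3 → ℝ) 1 ↔ ‖v‖ ≤ 1 := by
  rw [pi_norm_le_iff_of_nonneg zero_le_one]
  constructor
  · intro h i
    rw [Real.norm_eq_abs, abs_le]
    exact ⟨h.1 i, h.2 i⟩
  · intro h
    exact ⟨fun i => (abs_le.1 (by simpa [Real.norm_eq_abs] using h i)).1,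
      fun i => (abs_le.1 (by simpa [Real.norm_eq_abs] using h i)).2⟩

theorem continuous_col (ρ : ℝ) : Continuous (col ρ) := by
  refine continuous_pi fun i => ?_
  fin_cases i
  · show Continuous fun v : Fin 3 → ℝ => max 0 (1 - ‖v‖ / ρ) * v 0 / ρ
    fun_prop
  · show Continuous fun v : Fin 3 → ℝ => max 0 (1 - ‖v‖ / ρ) * v 1 / ρ
    fun_prop
  · show Continuous fun v : Fin 3 → ℝ => max 0 (1 - ‖v‖ / ρ) * v 2 / ρ
    fun_prop
  · show Continuous fun v : Fin 3 → ℝ => max (-1) (1 - 2 * (‖v‖ / ρ))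
    fun_prop

theorem col_eq_south {ρ : ℝ} (hρ : 0 < ρ) {v : Fin 3 → ℝ} (hv : ρ ≤ ‖v‖) : col ρ v = south := by
  have h1 : 1 ≤ ‖v‖ / ρ := by rw [le_div_iff₀ hρ]; linarith
  have h2 : max 0 (1 - ‖v‖ / ρ) = 0 := max_eq_left (by linarith)
  have h3 : max (-1) (1 - 2 * (‖v‖ / ρ)) = -1 := max_eq_left (by linarith)
  rw [col, south, h2, h3]
  simp

theorem south_ne : south ≠ 0 := by
  intro h
  have h1 := congrFun h 3
  have h2 : south 3 = -1 := rfl
  rw [h2] at h1
  norm_num at h1

theorem col_ne {ρ : ℝ} (hρ : 0 < ρ) (v : Fin 3 → ℝ) : col ρ v ≠ 0 := by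
  intro h
  have h3 : max (-1) (1 - 2 * (‖v‖ / ρ)) = 0 := congrFun h 3
  have h4 : ‖v‖ / ρ = 1 / 2 := by
    rcases le_total (-1) (1 - 2 * (‖v‖ / ρ)) with h5 | h5
    · rw [max_eq_right h5] at h3
      linarith
    · rw [max_eq_left h5] at h3
      norm_num at h3
  have h0 : max 0 (1 - ‖v‖ / ρ) * v 0 / ρ = 0 := congrFun h 0
  have h1 : max 0 (1 - ‖v‖ / ρ) * v 1 / ρ = 0 := congrFun h 1
  have h2 : max 0 (1 - ‖v‖ / ρ) * v 2 / ρ = 0 := congrFun h 2
  have h6 : max 0 (1 - ‖v‖ / ρ) = 1 / 2 := by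
    rw [h4]
    rw [max_eq_right (by norm_num)]
    norm_num
  have key : ∀ c : ℝ, max 0 (1 - ‖v‖ / ρ) * c / ρ = 0 → c = 0 := by
    intro c hc
    rw [h6, div_eq_zero_iff] at hc
    rcases hc with hc | hc
    · linarith
    · exact absurd hc hρ.ne'
  have hv : v = 0 := by
    funext i
    fin_cases i
    · exact key _ h0
    · exact key _ h1
    · exact key _ h2
  rw [hv, norm_zero, zero_div] at h4
  norm_num at h4

theorem cube_proj {x : Fin 4 → ℝ} (hx : x ∈ Icc (-1 : Fin 4 → ℝ) 1) :
    (![x 0, x 1, x 2] : Fin 3 → ℝ) ∈ Icc (-1 : Fin 3 → ℝ) 1 := by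
  constructor
  · intro i
    fin_cases i
    · exact hx.1 0
    · exact hx.1 1
    · exact hx.1 2
  · intro i
    fin_cases i
    · exact hx.2 0
    · exact hx.2 1
    · exact hx.2 2

theorem continuous_proj : Continuous fun x : Fin 4 → ℝ => (![x 0, x 1, x 2] : Fin 3 → ℝ) := by
  refine continuous_pi fun i => ?_
  fin_cases i
  · exact continuous_apply (0 : Fin 4)
  · exact continuous_apply (1 : Fin 4)
  · exact continuous_apply (2 : Fin 4)

end CELL1

open CELL1

theorem t_CELL1 : M_CELL1 := by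
  intro hEXT hHOM hBRO X _ _ hANR hShr e he hinj
  have hBc : IsCompact (Icc (-1 : Fin 3 → ℝ) 1) := isCompact_Icc
  have h0B : (0 : Fin 3 → ℝ) ∈ Icc (-1 : Fin 3 → ℝ) 1 := by
    rw [norm_le_iff, norm_zero]
    exact zero_le_one
  have hSc : IsCompact (Icc (-1 : Fin 3 → ℝ) 1 ∩ {v | ‖v‖ = 1}) :=
    hBc.inter_right (isClosed_eq continuous_norm continuous_const)
  have hSB : Icc (-1 : Fin 3 → ℝ) 1 ∩ {v | ‖v‖ = 1} ⊆ Icc (-1 : Fin 3 → ℝ) 1 := inter_subset_left
  have heSc : IsCompact (e '' (Icc (-1 : Fin 3 → ℝ) 1 ∩ {v | ‖v‖ = 1})) :=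
    hSc.image_of_continuousOn (he.mono hSB)
  have hp : e 0 ∈ (e '' (Icc (-1 : Fin 3 → ℝ) 1 ∩ {v | ‖v‖ = 1}))ᶜ := by
    rintro ⟨v, ⟨hv, hv1⟩, hev⟩
    have := hinj hv h0B hev
    rw [this] at hv1
    simp at hv1
  obtain ⟨η, hη, hball⟩ := Metric.isOpen_iff.1 heSc.isClosed.isOpen_compl _ hp
  have hdist : ∀ v ∈ Icc (-1 : Fin 3 → ℝ) 1, ‖v‖ = 1 → η ≤ dist (e v) (e 0) := by
    intro v hv hv1
    by_contra hlt
    exact hball (Metric.mem_ball.2 (not_le.1 hlt)) ⟨v, ⟨hv, hv1⟩, rfl⟩
  obtain ⟨ε, hε, hH⟩ := hHOM X hANR η hη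
  refine ⟨ε, hε, fun h hh hhε => ?_⟩
  obtain ⟨H, hHc, hH0, hH1, hHd⟩ := hH h hh hhε
  by_contra hnot
  -- the bad set
  have hY1 : IsCompact (H '' ((e '' (Icc (-1 : Fin 3 → ℝ) 1 ∩ {v | ‖v‖ = 1})) ×ˢ Icc (0 : ℝ) 1)) :=
    (heSc.prod isCompact_Icc).image_of_continuousOn
      (hHc.mono (prod_mono (subset_univ _) subset_rfl))
  have hY2 : IsCompact (h '' (e '' Icc (-1 : Fin 3 → ℝ) 1)) :=
    (hBc.image_of_continuousOn he).image hh
  obtain ⟨Y, hYdef⟩ : ∃ Y : Set X, Y =
      H '' ((e '' (Icc (-1 : Fin 3 → ℝ) 1 ∩ {v | ‖v‖ = 1})) ×ˢ Icc (0 : ℝ) 1) ∪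
        h '' (e '' Icc (-1 : Fin 3 → ℝ) 1) := ⟨_, rfl⟩
  have hYc : IsCompact Y := by rw [hYdef]; exact hY1.union hY2
  have hpY : e 0 ∉ Y := by
    rw [hYdef]
    rintro (⟨⟨y, t⟩, ⟨⟨v, ⟨hv, hv1⟩, rfl⟩, ht⟩, hyt⟩ | h2)
    · have h3 := hHd (e v) t ht
      rw [hyt, dist_comm] at h3
      exact absurd (hdist v hv hv1) (not_le.2 h3)
    · exact hnot h2
  -- the radius
  have hρ : ∃ ρ : ℝ, 0 < ρ ∧ ∀ v ∈ Icc (-1 : Fin 3 → ℝ) 1, ‖v‖ ≤ ρ → e v ∉ Y := by
    have h1 : ∀ᶠ v in 𝓝[Icc (-1 : Fin 3 → ℝ) 1] 0, e v ∈ Yᶜ :=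
      (he 0 h0B).eventually (hYc.isClosed.isOpen_compl.mem_nhds hpY)
    obtain ⟨δ, hδ, hδB⟩ := Metric.mem_nhdsWithin_iff.1 h1
    refine ⟨δ / 2, half_pos hδ, fun v hv hvρ => ?_⟩
    refine hδB ⟨?_, hv⟩
    rw [Metric.mem_ball, dist_zero_right]
    linarith
  obtain ⟨ρ, hρ0, hρ1⟩ := hρ
  have hBcl : IsClosed (e '' Icc (-1 : Fin 3 → ℝ) 1) := (hBc.image_of_continuousOn he).isClosed
  -- the function on the closed set
  classical
  obtain ⟨f, hfdef⟩ : ∃ f : X → R4, f = fun x => if x ∈ e '' Icc (-1 : Fin 3 → ℝ) 1 then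
      col ρ (Function.invFunOn e (Icc (-1 : Fin 3 → ℝ) 1) x) else south := ⟨_, rfl⟩
  have hfe : ∀ v ∈ Icc (-1 : Fin 3 → ℝ) 1, f (e v) = col ρ v := by
    intro v hv
    have h1 : e v ∈ e '' Icc (-1 : Fin 3 → ℝ) 1 := mem_image_of_mem e hv
    rw [hfdef]
    show (if e v ∈ e '' Icc (-1 : Fin 3 → ℝ) 1 then
      col ρ (Function.invFunOn e (Icc (-1 : Fin 3 → ℝ) 1) (e v)) else south) = _
    rw [if_pos h1, hinj.leftInvOn_invFunOn hv]
  have hfY : ∀ y ∈ Y, f y = south := by
    intro y hy
    by_cases h1 : y ∈ e '' Icc (-1 : Fin 3 → ℝ) 1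
    · obtain ⟨v, hv, rfl⟩ := h1
      rw [hfe v hv]
      apply col_eq_south hρ0
      by_contra h2
      exact hρ1 v hv (not_le.1 h2).le hy
    · rw [hfdef]
      exact if_neg h1
  have hfc1 : ContinuousOn f (e '' Icc (-1 : Fin 3 → ℝ) 1) := by
    rw [continuousOn_iff_isClosed]
    intro t ht
    refine ⟨e '' (Icc (-1 : Fin 3 → ℝ) 1 ∩ col ρ ⁻¹' t), ?_, ?_⟩
    · exact ((hBc.inter_right (ht.preimage (continuous_col ρ))).image_of_continuousOn
        (he.mono inter_subset_left)).isClosed
    · ext x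
      constructor
      · rintro ⟨h1, ⟨v, hv, rfl⟩⟩
        refine ⟨⟨v, ⟨hv, ?_⟩, rfl⟩, ⟨v, hv, rfl⟩⟩
        rw [mem_preimage, ← hfe v hv]
        exact h1
      · rintro ⟨⟨v, ⟨hv, hv2⟩, rfl⟩, h3⟩
        refine ⟨?_, h3⟩
        rw [mem_preimage, hfe v hv]
        exact hv2
  have hfc2 : ContinuousOn f Y := continuousOn_const.congr hfY
  have hfc : ContinuousOn f (e '' Icc (-1 : Fin 3 → ℝ) 1 ∪ Y) :=
    hfc1.union_of_isClosed hfc2 hBcl hYc.isClosed
  have hf0 : ∀ x ∈ e '' Icc (-1 : Fin 3 → ℝ) 1 ∪ Y, f x ≠ 0 := by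
    rintro x (⟨v, hv, rfl⟩ | hy)
    · rw [hfe v hv]
      exact col_ne hρ0 v
    · rw [hfY x hy]
      exact south_ne
  obtain ⟨F, hF, hF0, hFe⟩ := hEXT X hShr _ f (hBcl.union hYc.isClosed) hfc hf0
  refine hBRO ρ hρ0 ⟨fun x => F (H (e ![x 0, x 1, x 2], (1 - x 3) / 2)), ?_, ?_, ?_, ?_, ?_⟩
  · refine hF.comp_continuousOn (hHc.comp ?_ ?_)
    · refine ContinuousOn.prodMk ?_ ?_
      · exact he.comp continuous_proj.continuousOn (fun x hx => cube_proj hx)
      · exact Continuous.continuousOn (by fun_prop)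
    · intro x hx
      have h1 := hx.1 3
      have h2 := hx.2 3
      simp only [Pi.neg_apply, Pi.one_apply] at h1 h2
      exact ⟨mem_univ _, by constructor <;> simp only <;> linarith⟩
  · intro x _
    exact hF0 _
  · intro x hx h3
    show F (H (e ![x 0, x 1, x 2], (1 - x 3) / 2)) = _
    rw [h3, sub_self, zero_div, hH0, hFe (Or.inl ⟨_, cube_proj hx, rfl⟩), hfe _ (cube_proj hx)]
  · intro x hx h3
    show F (H (e ![x 0, x 1, x 2], (1 - x 3) / 2)) = _
    have h4 : (1 - x 3) / 2 = 1 := by rw [h3]; norm_num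
    have h5 : h (e ![x 0, x 1, x 2]) ∈ Y := by
      rw [hYdef]
      exact Or.inr ⟨_, ⟨_, cube_proj hx, rfl⟩, rfl⟩
    rw [h4, hH1, hFe (Or.inr h5), hfY _ h5]
  · intro x hx h3
    show F (H (e ![x 0, x 1, x 2], (1 - x 3) / 2)) = _
    have hn : ‖(![x 0, x 1, x 2] : Fin 3 → ℝ)‖ = 1 := by
      apply le_antisymm ((norm_le_iff _).1 (cube_proj hx))
      rcases h3 with h3 | h3 | h3
      · have := norm_le_pi_norm (![x 0, x 1, x 2] : Fin 3 → ℝ) 0
        rw [← h3]
        simpa [Real.norm_eq_abs] using this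
      · have := norm_le_pi_norm (![x 0, x 1, x 2] : Fin 3 → ℝ) 1
        rw [← h3]
        simpa [Real.norm_eq_abs] using this
      · have := norm_le_pi_norm (![x 0, x 1, x 2] : Fin 3 → ℝ) 2
        rw [← h3]
        simpa [Real.norm_eq_abs] using this
    have h1 := hx.1 3
    have h2 := hx.2 3
    simp only [Pi.neg_apply, Pi.one_apply] at h1 h2
    have h5 : H (e ![x 0, x 1, x 2], (1 - x 3) / 2) ∈ Y := by
      rw [hYdef]
      refine Or.inl ⟨_, ⟨⟨_, ⟨cube_proj hx, hn⟩, rfl⟩, ?_⟩, rfl⟩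
      constructor <;> simp only <;> linarith
    rw [hFe (Or.inr h5), hfY _ h5]

end CTO


end

section

/-!
# A 3-cell is a neighbourhood of its centre
-/

set_option autoImplicit false

namespace CTO

open Set Topology

theorem t_CELL2 : M_CELL2 := by
  intro hEFF hC1 X _ _ hA hH hS e he hi
  obtain ⟨ε, hε, h1⟩ := hC1 X hA hS e he hi
  have h2 := hEFF X hH (e 0) ε hε
  have hcomp : IsCompact (e '' Icc (-1) 1) := isCompact_Icc.image_of_continuousOn he
  refine interior_mono ?_ h2
  refine closure_minimal ?_ hcomp.isClosed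
  rintro y ⟨h, hd, rfl⟩
  obtain ⟨x, hx, hx2⟩ := h1 h.symm h.symm.continuous (by
    intro x
    have h3 := hd (h.symm x)
    rw [h.apply_symm_apply, dist_comm] at h3
    exact h3)
  rw [← hx2, h.apply_symm_apply]
  exact hx

end CTO


end

section

/-!
# MAN2: a homogeneous compact space in which the centre of a 3-cell is an interior point of the cell
is a 3-manifold
-/

set_option autoImplicit false

namespace CTO

open Set Topology

namespace MAN2

/-- an open ball of `Fin 3 → ℝ` is homeomorphic to `R3` -/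
theorem ball_homeo (z : Fin 3 → ℝ) (r : ℝ) (hr : 0 < r) : Nonempty (Metric.ball z r ≃ₜ R3) := by
  let e := OpenPartialHomeomorph.univBall z r
  have hs : e.source = univ := OpenPartialHomeomorph.univBall_source z r
  have ht : e.target = Metric.ball z r := OpenPartialHomeomorph.univBall_target z hr
  exact ⟨(Homeomorph.setCongr ht.symm).trans (e.toHomeomorphSourceTarget.symm.trans
    ((Homeomorph.setCongr hs).trans ((Homeomorph.Set.univ (Fin 3 → ℝ)).trans
      (EuclideanSpace.equiv (Fin 3) ℝ).symm.toHomeomorph)))⟩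

theorem local_homeo {X : Type} [MetricSpace X] [CompactSpace X] (e : (Fin 3 → ℝ) → X)
    (he : ContinuousOn e (Icc (-1) 1)) (hi : InjOn e (Icc (-1) 1))
    (h0 : e 0 ∈ interior (e '' Icc (-1) 1)) :
    ∃ V0 : Set X, IsOpen V0 ∧ e 0 ∈ V0 ∧ Nonempty (V0 ≃ₜ R3) := by
  have hBc : IsCompact (Icc (-1 : Fin 3 → ℝ) 1) := isCompact_Icc
  have hb1 : Metric.ball (0 : Fin 3 → ℝ) 1 ⊆ Icc (-1) 1 := by
    intro v hv
    rw [mem_ball_zero_iff, pi_norm_lt_iff one_pos] at hv
    constructor
    · intro i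
      have := hv i
      rw [Real.norm_eq_abs, abs_lt] at this
      exact this.1.le
    · intro i
      have := hv i
      rw [Real.norm_eq_abs, abs_lt] at this
      exact this.2.le
  have hO : IsOpen (Metric.ball (0 : Fin 3 → ℝ) 1 ∩ e ⁻¹' interior (e '' Icc (-1) 1)) :=
    (he.mono hb1).isOpen_inter_preimage Metric.isOpen_ball isOpen_interior
  obtain ⟨r, hr, hb⟩ := Metric.isOpen_iff.1 hO 0 ⟨Metric.mem_ball_self one_pos, h0⟩
  have hbB : Metric.ball (0 : Fin 3 → ℝ) r ⊆ Icc (-1) 1 := fun v hv => hb1 (hb hv).1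
  have hV : e '' Metric.ball 0 r =
      interior (e '' Icc (-1) 1) \ e '' (Icc (-1) 1 \ Metric.ball 0 r) := by
    ext x
    constructor
    · rintro ⟨v, hv, rfl⟩
      refine ⟨(hb hv).2, ?_⟩
      rintro ⟨u, hu, huv⟩
      exact hu.2 ((hi hu.1 (hbB hv) huv) ▸ hv)
    · rintro ⟨hx, hx2⟩
      obtain ⟨v, hv, rfl⟩ := interior_subset hx
      by_contra hc
      exact hx2 ⟨v, ⟨hv, fun hvb => hc ⟨v, hvb, rfl⟩⟩, rfl⟩
  have hopen : IsOpen (e '' Metric.ball 0 r) := by
    rw [hV]
    have hcomp : IsCompact (Icc (-1 : Fin 3 → ℝ) 1 \ Metric.ball 0 r) :=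
      hBc.diff Metric.isOpen_ball
    exact isOpen_interior.sdiff (hcomp.image_of_continuousOn (he.mono sdiff_subset)).isClosed
  refine ⟨e '' Metric.ball 0 r, hopen, ⟨0, Metric.mem_ball_self hr, rfl⟩, ?_⟩
  have : CompactSpace (Icc (-1 : Fin 3 → ℝ) 1) := isCompact_iff_compactSpace.1 hBc
  have hφ : IsClosedEmbedding ((Icc (-1 : Fin 3 → ℝ) 1).restrict e) :=
    Continuous.isClosedEmbedding (continuousOn_iff_continuous_restrict.1 he)
      (injOn_iff_injective.1 hi)
  have hemb : IsEmbedding (fun v : Metric.ball (0 : Fin 3 → ℝ) r => e v) :=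
    hφ.isEmbedding.comp (IsEmbedding.inclusion hbB)
  have hrange : range (fun v : Metric.ball (0 : Fin 3 → ℝ) r => e v) = e '' Metric.ball 0 r := by
    ext x
    constructor
    · rintro ⟨v, rfl⟩
      exact ⟨v, v.2, rfl⟩
    · rintro ⟨v, hv, rfl⟩
      exact ⟨⟨v, hv⟩, rfl⟩
  obtain ⟨E⟩ := ball_homeo (0 : Fin 3 → ℝ) r hr
  exact ⟨((hemb.toHomeomorph.trans (Homeomorph.setCongr hrange)).symm).trans E⟩

end MAN2

theorem t_MAN2 : S_MAN2 := by
  intro X _ _ hX e he hi h0
  refine ⟨inferInstance, inferInstance, ?_⟩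
  obtain ⟨V0, hV0, hx00, ⟨E⟩⟩ := MAN2.local_homeo e he hi h0
  intro x
  obtain ⟨h, hh⟩ := hX x (e 0)
  refine ⟨h ⁻¹' V0, hV0.preimage h.continuous, by rw [mem_preimage, hh]; exact hx00, ?_⟩
  exact ⟨(h.subtype (p := fun y => y ∈ h ⁻¹' V0) (q := fun y => y ∈ V0)
    (fun y => Iff.rfl)).trans E⟩

end CTO


end
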