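import Mathlib
import Pool.Agent.CTO.Stmts2

/-! Parts: CTO.HOM, CTO.GP, CTO.APX4, CTO.EXT4 -/

section

/-!
# Close maps into a compact ANR are homotopic by small homotopies
-/

set_option autoImplicit false

namespace CTO

open Set Topology

namespace HOM

/-- the uniform neighbourhood -/
lemma unif {X Y : Type} [MetricSpace X] [CompactSpace X] [MetricSpace Y] (e : X → Y)
    (he : Isometry e) (Ω : Set Y) (r : Y → X) (hΩ : IsOpen Ω) (hsub : range e ⊆ Ω)
    (hr : ContinuousOn r Ω) (hre : ∀ x, r (e x) = x) {η : ℝ} (hη : 0 < η) :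
    ∃ δ : ℝ, 0 < δ ∧ ∀ x ∈ (univ : Set X), ∀ u, dist u (e x) < δ → u ∈ Ω ∧ dist (r u) x < η := by
  refine isCompact_univ.induction_on
    (p := fun s : Set X => ∃ δ : ℝ, 0 < δ ∧ ∀ x ∈ s, ∀ u, dist u (e x) < δ →
      u ∈ Ω ∧ dist (r u) x < η) ?_ ?_ ?_ ?_
  · exact ⟨1, one_pos, fun x hx => absurd hx (Set.notMem_empty x)⟩
  · rintro s t hst ⟨δ, hδ, h⟩
    exact ⟨δ, hδ, fun x hx => h x (hst hx)⟩
  · rintro s t ⟨δ, hδ, h⟩ ⟨δ', hδ', h'⟩
    refine ⟨min δ δ', lt_min hδ hδ', ?_⟩
    rintro x (hx | hx) u hu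
    · exact h x hx u (lt_of_lt_of_le hu (min_le_left _ _))
    · exact h' x hx u (lt_of_lt_of_le hu (min_le_right _ _))
  · intro x _
    have hex : e x ∈ Ω := hsub ⟨x, rfl⟩
    have hc : ContinuousAt r (e x) := hr.continuousAt (hΩ.mem_nhds hex)
    obtain ⟨δ1, hδ1, h1⟩ := Metric.continuousAt_iff.mp hc (η / 2) (by positivity)
    obtain ⟨δ2, hδ2, h2⟩ := Metric.isOpen_iff.mp hΩ (e x) hex
    have hδ : 0 < min (min δ1 δ2 / 2) (η / 2) := by positivity
    refine ⟨Metric.ball x (min (min δ1 δ2 / 2) (η / 2)),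
      mem_nhdsWithin_of_mem_nhds (Metric.ball_mem_nhds x hδ),
      min (min δ1 δ2 / 2) (η / 2), hδ, ?_⟩
    intro y hy u hu
    have hy' : dist y x < min (min δ1 δ2 / 2) (η / 2) := hy
    have a1 : dist (e y) (e x) = dist y x := he.dist_eq y x
    have a2 : dist u (e x) < min δ1 δ2 := by
      have b1 := dist_triangle u (e y) (e x)
      have b2 : min (min δ1 δ2 / 2) (η / 2) ≤ min δ1 δ2 / 2 := min_le_left _ _
      linarith
    refine ⟨h2 (lt_of_lt_of_le a2 (min_le_right _ _)), ?_⟩
    have a3 := h1 (lt_of_lt_of_le a2 (min_le_left _ _))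
    rw [hre] at a3
    have b1 := dist_triangle (r u) x y
    have b2 : min (min δ1 δ2 / 2) (η / 2) ≤ η / 2 := min_le_right _ _
    rw [dist_comm x y] at b1
    linarith

end HOM

theorem t_HOM : S_HOM := by
  intro X _ _ hX η hη
  have he : Isometry (kuratowskiEmbedding X) := kuratowskiEmbedding.isometry X
  obtain ⟨Ω, r, hΩ, hsub, hr, hre⟩ := hX _ (kuratowskiEmbedding X) he.isClosedEmbedding
  obtain ⟨δ, hδ, h1⟩ := HOM.unif (kuratowskiEmbedding X) he Ω r hΩ hsub hr hre hη
  refine ⟨δ, hδ, ?_⟩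
  intro h hh hd
  have key : ∀ x : X, ∀ t ∈ Icc (0 : ℝ) 1,
      dist ((1 - t) • kuratowskiEmbedding X x + t • kuratowskiEmbedding X (h x))
        (kuratowskiEmbedding X x) < δ := by
    intro x t ht
    have e1 : (1 - t) • kuratowskiEmbedding X x + t • kuratowskiEmbedding X (h x) -
        kuratowskiEmbedding X x =
        t • (kuratowskiEmbedding X (h x) - kuratowskiEmbedding X x) := by
      module
    rw [dist_eq_norm, e1, norm_smul, ← dist_eq_norm, he.dist_eq, Real.norm_of_nonneg ht.1]
    have h2 := hd x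
    have h3 : (0 : ℝ) ≤ dist (h x) x := dist_nonneg
    nlinarith [ht.2, ht.1]
  refine ⟨fun p => r ((1 - p.2) • kuratowskiEmbedding X p.1 +
    p.2 • kuratowskiEmbedding X (h p.1)), ?_, ?_, ?_, ?_⟩
  · apply ContinuousOn.comp (t := Ω) hr
    · apply Continuous.continuousOn
      have c1 : Continuous fun p : X × ℝ => kuratowskiEmbedding X p.1 :=
        he.continuous.comp continuous_fst
      have c2 : Continuous fun p : X × ℝ => kuratowskiEmbedding X (h p.1) :=
        he.continuous.comp (hh.comp continuous_fst)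
      exact ((continuous_const.sub continuous_snd).smul c1).add (continuous_snd.smul c2)
    · rintro ⟨x, t⟩ ⟨_, ht⟩
      exact (h1 x (mem_univ x) _ (key x t ht)).1
  · intro x
    show r ((1 - (0 : ℝ)) • kuratowskiEmbedding X x + (0 : ℝ) • kuratowskiEmbedding X (h x)) = x
    rw [sub_zero, one_smul, zero_smul, add_zero, hre]
  · intro x
    show r ((1 - (1 : ℝ)) • kuratowskiEmbedding X x + (1 : ℝ) • kuratowskiEmbedding X (h x)) =
      h x
    rw [sub_self, one_smul, zero_smul, zero_add, hre]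
  · intro x t ht
    exact (h1 x (mem_univ x) _ (key x t ht)).2

end CTO


end

section

/-!
# CTO, module GP: general position in 4-space
-/

set_option autoImplicit false

namespace CTO

open Set Topology

namespace GP

/-- a proper subspace of a finite-dimensional space has dense complement -/
lemma dense_compl (p : Submodule ℝ R4) (hp : p ≠ ⊤) : Dense ((p : Set R4)ᶜ) := by
  rw [← interior_eq_empty_iff_dense_compl]
  by_contra h
  exact hp (p.eq_top_of_nonempty_interior' (nonempty_iff_ne_empty.2 h))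

lemma span_ne_top {n : ℕ} (v : Fin n → R4) (t : Finset (Fin n)) (ht : t.card ≤ 3) :
    Submodule.span ℝ (v '' (t : Set (Fin n))) ≠ ⊤ := by
  intro h
  have h1 : Module.finrank ℝ (Submodule.span ℝ (v '' (t : Set (Fin n)))) ≤ t.card := by
    classical
    have h2 := finrank_span_finset_le_card (R := ℝ) (t.image v)
    rw [Finset.coe_image] at h2
    exact h2.trans Finset.card_image_le
  rw [h, finrank_top, Module.finrank_fin_fun] at h1
  omega

end GP

theorem t_GP : S_GP := by
  intro n
  induction n with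
  | zero =>
    intro y ε _
    refine ⟨y, fun i => i.elim0, fun s _ => ?_⟩
    have : IsEmpty s := ⟨fun i => i.1.elim0⟩
    exact linearIndependent_empty_type
  | succ n ih =>
    intro y ε hε
    obtain ⟨v, hv1, hv2⟩ := ih (fun i => y i.castSucc) ε hε
    have hd : Dense (⋂ t : {t : Finset (Fin n) // t.card ≤ 3},
        ((Submodule.span ℝ (v '' (t.1 : Set (Fin n))) : Set R4)ᶜ)) := by
      apply dense_iInter_of_isOpen
      · intro t
        exact (Submodule.closed_of_finiteDimensional _).isOpen_compl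
      · intro t
        exact GP.dense_compl _ (GP.span_ne_top v t.1 t.2)
    obtain ⟨w, hw1, hw2⟩ := hd.exists_dist_lt (y (Fin.last n)) hε
    refine ⟨Fin.snoc v w, ?_, ?_⟩
    · intro i
      refine Fin.lastCases ?_ (fun j => ?_) i
      · rw [Fin.snoc_last, dist_comm]
        exact hw2
      · rw [Fin.snoc_castSucc]
        exact hv1 j
    · intro s hs
      classical
      have hcomp : (Fin.snoc v w : Fin (n + 1) → R4) ∘ Fin.castSucc = v := by
        funext j
        exact Fin.snoc_castSucc _ _ _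
      let t : Finset (Fin n) := Finset.univ.filter fun j => j.castSucc ∈ s
      have ht : (s.erase (Fin.last n) : Set (Fin (n + 1))) = Fin.castSucc '' (t : Set (Fin n)) := by
        ext i
        refine Fin.lastCases ?_ (fun j => ?_) i
        · simp [t, Fin.castSucc_ne_last]
        · simp [t, Fin.castSucc_ne_last]
      have hcard : t.card = (s.erase (Fin.last n)).card := by
        have h1 : (s.erase (Fin.last n)) = t.image Fin.castSucc := by
          rw [← Finset.coe_inj, ht, Finset.coe_image]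
        rw [h1, Finset.card_image_of_injective _ (Fin.castSucc_injective n)]
      have hind : t.card ≤ 4 → LinearIndepOn ℝ (Fin.snoc v w : Fin (n + 1) → R4)
          (s.erase (Fin.last n) : Set (Fin (n + 1))) := by
        intro h4
        rw [ht]
        apply LinearIndepOn.image_of_comp
        rw [hcomp]
        exact hv2 t h4
      show LinearIndepOn ℝ (Fin.snoc v w : Fin (n + 1) → R4) (s : Set (Fin (n + 1)))
      by_cases hl : Fin.last n ∈ s
      · have hc3 : t.card ≤ 3 := by
          rw [hcard, Finset.card_erase_of_mem hl]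
          omega
        have e : (s : Set (Fin (n + 1))) =
            insert (Fin.last n) (s.erase (Fin.last n) : Set (Fin (n + 1))) := by
          rw [← Finset.coe_insert, Finset.insert_erase hl]
        rw [e, linearIndepOn_insert (by simp)]
        refine ⟨hind (by omega), ?_⟩
        rw [ht, ← image_comp, hcomp, Fin.snoc_last]
        exact mem_iInter.1 hw1 ⟨t, hc3⟩
      · have e : s.erase (Fin.last n) = s := Finset.erase_eq_of_notMem hl
        rw [e] at hind hcard
        exact hind (by omega)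

end CTO


end

section

/-!
MP_6eac38_gt, module APX4: maps into 4-space can be approximated by maps without zeros.
-/

set_option autoImplicit false

namespace CTO

open Set Topology

theorem t_APX4 : M_APX4 := by
  intro hGP X _ _ hShr f hf ε hε
  classical
  -- a finite cover
  have hU : ∀ x : X, IsOpen (f ⁻¹' Metric.ball (f x) (ε / 2)) := fun x =>
    Metric.isOpen_ball.preimage hf
  obtain ⟨t, ht⟩ := isCompact_univ.elim_finite_subcover
    (fun x : X => f ⁻¹' Metric.ball (f x) (ε / 2)) hU (fun x _ => by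
      rw [mem_iUnion]
      exact ⟨x, Metric.mem_ball_self (half_pos hε)⟩)
  let c : Fin t.card → X := fun i => (t.equivFin.symm i : X)
  have hcov : (⋃ i, f ⁻¹' Metric.ball (f (c i)) (ε / 2)) = univ := by
    rw [eq_univ_iff_forall]
    intro x
    have hx := ht (mem_univ x)
    rw [mem_iUnion₂] at hx
    obtain ⟨y, hy, hxy⟩ := hx
    rw [mem_iUnion]
    refine ⟨t.equivFin ⟨y, hy⟩, ?_⟩
    have : c (t.equivFin ⟨y, hy⟩) = y := by simp [c]
    rw [this]
    exact hxy
  obtain ⟨V, hVo, hVU, hVc, hVn⟩ := hShr t.card (fun i => f ⁻¹' Metric.ball (f (c i)) (ε / 2))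
    (fun i => hU (c i)) hcov
  obtain ⟨φ, hφ⟩ := PartitionOfUnity.exists_isSubordinate isClosed_univ V hVo hVc.ge
  obtain ⟨v, hv1, hv2⟩ := hGP t.card (fun i => f (c i)) (ε / 2) (half_pos hε)
  have hmem : ∀ x i, φ i x ≠ 0 → x ∈ V i := fun x i h => hφ i (subset_tsupport _ h)
  have hsum1 : ∀ x, ∑ i, φ i x = 1 := by
    intro x
    have := φ.sum_eq_one (mem_univ x)
    rwa [finsum_eq_sum_of_fintype] at this
  have hsum2 : ∀ x, ∑ i ∈ Finset.univ.filter (fun i => φ i x ≠ 0), φ i x = 1 := by
    intro x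
    rw [Finset.sum_filter_ne_zero]
    exact hsum1 x
  have hsum3 : ∀ x, ∑ i, φ i x • v i =
      ∑ i ∈ Finset.univ.filter (fun i => φ i x ≠ 0), φ i x • v i := by
    intro x
    symm
    apply Finset.sum_subset (Finset.subset_univ _)
    intro i _ hi
    have : φ i x = 0 := by
      by_contra h
      exact hi (Finset.mem_filter.2 ⟨Finset.mem_univ _, h⟩)
    rw [this, zero_smul]
  refine ⟨fun x => ∑ i, φ i x • v i, ?_, ?_, ?_⟩
  · exact continuous_finsetSum _ fun i _ => (φ i).continuous.smul continuous_const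
  · intro x hx
    have hx' : ∑ i, φ i x • v i = 0 := hx
    rw [hsum3 x] at hx'
    have hcard : (Finset.univ.filter (fun i => φ i x ≠ 0)).card ≤ 4 := by
      refine le_trans ?_ (hVn x)
      rw [← Set.ncard_coe_finset]
      apply Set.ncard_le_ncard _ (Set.toFinite _)
      intro i hi
      have hi' : i ∈ Finset.univ.filter (fun i => φ i x ≠ 0) := hi
      exact hmem x i (Finset.mem_filter.1 hi').2
    have hli := hv2 _ hcard
    rw [Fintype.linearIndependent_iff] at hli
    have h0 := hli (fun i => φ i.1 x) (by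
      rw [← Finset.sum_coe_sort] at hx'
      exact hx')
    have h1 := hsum2 x
    rw [Finset.sum_eq_zero] at h1
    · exact zero_ne_one h1
    · intro i hi
      exact h0 ⟨i, hi⟩
  · intro x
    have h1 : (∑ i, φ i x • v i) ∈ Metric.ball (f x) ε := by
      rw [hsum3 x]
      refine (convex_ball (f x) ε).sum_mem (fun i _ => φ.nonneg i x) (hsum2 x) ?_
      intro i hi
      have h2 : x ∈ V i := hmem x i (Finset.mem_filter.1 hi).2
      have h3 : dist (f x) (f (c i)) < ε / 2 := hVU i h2
      rw [Metric.mem_ball]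
      calc dist (v i) (f x) ≤ dist (v i) (f (c i)) + dist (f (c i)) (f x) := dist_triangle _ _ _
        _ < ε / 2 + ε / 2 := add_lt_add (hv1 i) (by rw [dist_comm]; exact h3)
        _ = ε := add_halves ε
    exact h1

end CTO


end

section

/-!
# MP_6eac38_gt, module EXT4: maps into 4-space without zeros extend from closed subsets
-/

set_option autoImplicit false

namespace CTO

open Set Topology

namespace EXT4

/-- homotopy extension for a linear homotopy, in 4-space -/
theorem hep {P : Type} [MetricSpace P] [CompactSpace P] {Q : Set P} {f0 f1 F1 : P → R4}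
    (hQ : IsClosed Q) (h0 : ContinuousOn f0 Q) (h1 : ContinuousOn f1 Q)
    (hseg : ∀ x ∈ Q, ∀ t : ℝ, 0 ≤ t → t ≤ 1 → (1 - t) • f0 x + t • f1 x ≠ 0)
    (hF1 : Continuous F1) (hF1n : ∀ x, F1 x ≠ 0) (heq : EqOn F1 f1 Q) :
    ∃ F0 : P → R4, Continuous F0 ∧ (∀ x, F0 x ≠ 0) ∧ EqOn F0 f0 Q := by
  let φ : C(Q, R4) := ⟨fun x => f0 x - f1 x,
    (continuousOn_iff_continuous_domRestrict.1 h0).sub (continuousOn_iff_continuous_domRestrict.1 h1)⟩
  obtain ⟨D, hD⟩ := φ.exists_restrict_eq hQ
  have hD' : ∀ x ∈ Q, D x = f0 x - f1 x := by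
    intro x hx
    exact congrArg (fun g : C(Q, R4) => g ⟨x, hx⟩) hD
  let T : Set (ℝ × P) := (Icc (0 : ℝ) 1 ×ˢ univ) ∩ {z | F1 z.2 + z.1 • D z.2 = 0}
  have hTc : IsCompact T := by
    apply (isCompact_Icc.prod isCompact_univ).inter_right
    exact isClosed_eq (by fun_prop) continuous_const
  let B : Set P := Prod.snd '' T
  have hB : IsClosed B := (hTc.image continuous_snd).isClosed
  have hBQ : Disjoint B Q := by
    rw [Set.disjoint_left]
    rintro x ⟨⟨s, y⟩, ⟨⟨hs, _⟩, hz⟩, rfl⟩ hx
    have hz' : F1 y + s • D y = 0 := hz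
    rw [heq hx, hD' y hx] at hz'
    apply hseg y hx (1 - s) (by linarith [hs.2]) (by linarith [hs.1])
    rw [← hz']
    module
  obtain ⟨l, hl0, hl1, hl⟩ := exists_continuous_zero_one_of_isClosed hB hQ hBQ
  refine ⟨fun x => F1 x + l x • D x, by fun_prop, ?_, ?_⟩
  · intro x hx
    have hxB : x ∈ B := ⟨(l x, x), ⟨⟨hl x, mem_univ _⟩, hx⟩, rfl⟩
    have h2 : l x = 0 := hl0 hxB
    have hx' : F1 x + l x • D x = 0 := hx
    rw [h2, zero_smul, add_zero] at hx'
    exact hF1n x hx'
  · intro x hx
    have h2 : l x = 1 := hl1 hx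
    show F1 x + l x • D x = f0 x
    rw [h2, one_smul, heq hx, hD' x hx]
    abel

theorem lower {X : Type} [MetricSpace X] [CompactSpace X] {C : Set X} {f : X → R4}
    (hC : IsClosed C) (hf : ContinuousOn f C) (h0 : ∀ x ∈ C, f x ≠ 0) :
    ∃ η : ℝ, 0 < η ∧ ∀ x ∈ C, η ≤ ‖f x‖ := by
  rcases C.eq_empty_or_nonempty with rfl | hne
  · exact ⟨1, one_pos, fun x hx => absurd hx (Set.notMem_empty x)⟩
  · obtain ⟨x, hx, hmin⟩ := hC.isCompact.exists_isMinOn hne hf.norm
    exact ⟨‖f x‖, norm_pos_iff.2 (h0 x hx), fun y hy => hmin hy⟩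

end EXT4

open EXT4 in
theorem t_EXT4 : M_EXT4 := by
  intro hapx X _ _ hX C f hC hf h0
  obtain ⟨η, hη, hle⟩ := lower hC hf h0
  let φ : C(C, R4) := ⟨fun x => f x, continuousOn_iff_continuous_domRestrict.1 hf⟩
  obtain ⟨f', hf'⟩ := φ.exists_restrict_eq hC
  have hf'' : ∀ x ∈ C, f' x = f x := by
    intro x hx
    exact congrArg (fun g : C(C, R4) => g ⟨x, hx⟩) hf'
  obtain ⟨p, hp, hp0, hpf⟩ := hapx X hX f' f'.continuous η hη
  refine hep (F1 := p) (f1 := p) hC hf hp.continuousOn ?_ hp hp0 (fun _ _ => rfl)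
  intro x hx t ht0 ht1 hz
  have h1 : ‖p x - f x‖ < η := by
    rw [← dist_eq_norm, ← hf'' x hx]
    exact hpf x
  have h2 : f x = -(t • (p x - f x)) := by
    have h3 : f x = ((1 - t) • f x + t • p x) - t • (p x - f x) := by module
    rw [hz, zero_sub] at h3
    exact h3
  have h4 : ‖f x‖ ≤ ‖p x - f x‖ := by
    calc ‖f x‖ = ‖-(t • (p x - f x))‖ := by rw [← h2]
      _ = |t| * ‖p x - f x‖ := by rw [norm_neg, norm_smul, Real.norm_eq_abs]
      _ ≤ 1 * ‖p x - f x‖ :=
        mul_le_mul_of_nonneg_right (by rw [abs_of_nonneg ht0]; exact ht1) (norm_nonneg _)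
      _ = ‖p x - f x‖ := one_mul _
  linarith [hle x hx]

end CTO


end
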