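import Mathlib

/-! Parts: LIX.Log, LIX.Bors -/

section

/-!
# LIX, block TB: continuous logarithms

`CLog K f`: the function `f` has a continuous logarithm on the set `K`.
-/

namespace Pool.Agent.LIX

open Set Metric Complex Filter Topology

/-- `f` has a continuous logarithm on `K`. -/
def CLog {X : Type*} [TopologicalSpace X] (K : Set X) (f : X → ℂ) : Prop :=
  ∃ g : X → ℂ, ContinuousOn g K ∧ ∀ x ∈ K, exp (g x) = f x

section basic

variable {X Y : Type*} [TopologicalSpace X] [TopologicalSpace Y] {K L : Set X} {f f' : X → ℂ}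

theorem CLog.mono (h : CLog L f) (hKL : K ⊆ L) : CLog K f := by
  obtain ⟨g, hg, he⟩ := h
  exact ⟨g, hg.mono hKL, fun x hx => he x (hKL hx)⟩

theorem CLog.congr (h : CLog K f) (hf : ∀ x ∈ K, f' x = f x) : CLog K f' := by
  obtain ⟨g, hg, he⟩ := h
  exact ⟨g, hg, fun x hx => by rw [he x hx, hf x hx]⟩

theorem CLog.ne_zero (h : CLog K f) {x : X} (hx : x ∈ K) : f x ≠ 0 := by
  obtain ⟨g, _, he⟩ := h
  rw [← he x hx]
  exact exp_ne_zero _

theorem CLog.continuousOn (h : CLog K f) : ContinuousOn f K := by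
  obtain ⟨g, hg, he⟩ := h
  exact (continuous_exp.comp_continuousOn hg).congr fun x hx => (he x hx).symm

theorem CLog.mul (h : CLog K f) (h' : CLog K f') : CLog K fun x => f x * f' x := by
  obtain ⟨g, hg, he⟩ := h
  obtain ⟨g', hg', he'⟩ := h'
  exact ⟨fun x => g x + g' x, hg.add hg', fun x hx => by rw [exp_add, he x hx, he' x hx]⟩

theorem CLog.inv (h : CLog K f) : CLog K fun x => (f x)⁻¹ := by
  obtain ⟨g, hg, he⟩ := h
  exact ⟨fun x => -g x, hg.neg, fun x hx => by rw [exp_neg, he x hx]⟩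

theorem CLog.div (h : CLog K f) (h' : CLog K f') : CLog K fun x => f x / f' x := by
  refine (h.mul h'.inv).congr fun x _ => div_eq_mul_inv _ _

theorem CLog.zpow (h : CLog K f) (n : ℤ) : CLog K fun x => f x ^ n := by
  obtain ⟨g, hg, he⟩ := h
  exact ⟨fun x => n * g x, continuousOn_const.mul hg, fun x hx => by
    rw [exp_int_mul, he x hx]⟩

theorem cLog_const {c : ℂ} (hc : c ≠ 0) : CLog K fun _ => c :=
  ⟨fun _ => log c, continuousOn_const, fun _ _ => exp_log hc⟩

theorem CLog.comp {M : Set Y} {φ : Y → X} (h : CLog K f) (hφ : ContinuousOn φ M)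
    (hm : MapsTo φ M K) : CLog M fun y => f (φ y) := by
  obtain ⟨g, hg, he⟩ := h
  exact ⟨fun y => g (φ y), hg.comp hφ hm, fun y hy => he _ (hm hy)⟩

/-- a function with values near `1` has a logarithm -/
theorem cLog_of_near (hf : ContinuousOn f K) (h1 : ∀ x ∈ K, ‖f x - 1‖ < 1) :
    CLog K f := by
  have hs : ∀ x ∈ K, f x ∈ slitPlane := by
    intro x hx
    refine Or.inl ?_
    have h2 := (abs_re_le_norm (f x - 1)).trans_lt (h1 x hx)
    rw [sub_re, one_re, abs_lt] at h2
    linarith [h2.1]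
  refine ⟨fun x => log (f x), fun x hx => ?_, fun x hx => exp_log (slitPlane_ne_zero (hs x hx))⟩
  exact (continuousAt_clog (hs x hx)).comp_continuousWithinAt (hf x hx)

/-- a function with values in the slit plane has a logarithm -/
theorem cLog_of_slit (hf : ContinuousOn f K) (hs : ∀ x ∈ K, f x ∈ slitPlane) :
    CLog K f := by
  refine ⟨fun x => log (f x), fun x hx => ?_, fun x hx => exp_log (slitPlane_ne_zero (hs x hx))⟩
  exact (continuousAt_clog (hs x hx)).comp_continuousWithinAt (hf x hx)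

/-- two functions that are close relative to the size of the second one -/
theorem CLog.of_close (h : CLog K f') (hf : ContinuousOn f K)
    (h1 : ∀ x ∈ K, ‖f x - f' x‖ < ‖f' x‖) : CLog K f := by
  have h2 : CLog K fun x => f x / f' x := by
    refine cLog_of_near (hf.div h.continuousOn fun x hx => h.ne_zero hx) fun x hx => ?_
    have h3 : f' x ≠ 0 := h.ne_zero hx
    have h4 : f x / f' x - 1 = (f x - f' x) / f' x := by
      field_simp
    rw [h4, norm_div, div_lt_one (norm_pos_iff.2 h3)]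
    exact h1 x hx
  refine (h2.mul h).congr fun x hx => ?_
  exact (div_mul_cancel₀ _ (h.ne_zero hx)).symm

end basic

/-- **Homotopy invariance**: if `H` is a homotopy of nonvanishing functions on a compact set, the
quotient of the two ends has a logarithm. -/
theorem cLog_homotopy {X : Type*} [PseudoMetricSpace X] {K : Set X} (hK : IsCompact K)
    {H : X × ℝ → ℂ} (hH : ContinuousOn H (K ×ˢ Icc 0 1))
    (h0 : ∀ x ∈ K, ∀ t ∈ Icc (0 : ℝ) 1, H (x, t) ≠ 0) :
    CLog K fun x => H (x, 1) / H (x, 0) := by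
  have hc : IsCompact (K ×ˢ Icc (0 : ℝ) 1) := hK.prod isCompact_Icc
  rcases K.eq_empty_or_nonempty with rfl | ⟨x0, hx0⟩
  · exact ⟨fun _ => 0, continuousOn_empty _, fun x hx => hx.elim⟩
  have hne : (K ×ˢ Icc (0 : ℝ) 1).Nonempty := ⟨(x0, 0), hx0, by simp⟩
  -- a lower bound
  obtain ⟨p, hp, hmin⟩ := hc.exists_isMinOn hne hH.norm
  have hδ : 0 < ‖H p‖ := norm_pos_iff.2 (h0 p.1 hp.1 p.2 hp.2)
  have hlow : ∀ x ∈ K, ∀ t ∈ Icc (0 : ℝ) 1, ‖H p‖ ≤ ‖H (x, t)‖ := fun x hx t ht =>
    hmin (⟨hx, ht⟩ : (x, t) ∈ K ×ˢ Icc (0 : ℝ) 1)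
  have hu := hc.uniformContinuousOn_of_continuous hH
  rw [Metric.uniformContinuousOn_iff] at hu
  obtain ⟨η, hη, hη2⟩ := hu ‖H p‖ hδ
  obtain ⟨N, hN⟩ := exists_nat_gt (1 / η)
  have hNpos : (0 : ℝ) < N := lt_trans (by positivity) hN
  have hN1 : (1 : ℝ) / N < η := by
    rw [div_lt_iff₀ hNpos]
    rw [div_lt_iff₀ hη] at hN
    linarith
  -- induction
  have key : ∀ k : ℕ, k ≤ N → CLog K fun x => H (x, k / N) / H (x, 0) := by
    intro k
    induction k with
    | zero =>
      intro _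
      refine (cLog_const (K := K) (one_ne_zero)).congr fun x hx => ?_
      have : ((0 : ℕ) : ℝ) / N = 0 := by simp
      rw [this]
      exact div_self (h0 x hx 0 (by simp))
    | succ k ih =>
      intro hk
      have h1 := ih (by omega)
      have hkN : ((k : ℝ) + 1) ≤ N := by exact_mod_cast hk
      have ht0 : (k : ℝ) / N ∈ Icc (0 : ℝ) 1 :=
        ⟨by positivity, by rw [div_le_one hNpos]; linarith⟩
      have ht1 : ((k : ℝ) + 1) / N ∈ Icc (0 : ℝ) 1 :=
        ⟨by positivity, by rw [div_le_one hNpos]; exact hkN⟩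
      have hc1 : ∀ t ∈ Icc (0 : ℝ) 1, ContinuousOn (fun x => H (x, t)) K := fun t ht =>
        hH.comp (by fun_prop) fun x hx => ⟨hx, ht⟩
      have h2 : CLog K fun x => H (x, ((k : ℝ) + 1) / N) / H (x, k / N) := by
        refine cLog_of_near ((hc1 _ ht1).div (hc1 _ ht0) fun x hx => h0 x hx _ ht0)
          fun x hx => ?_
        have h3 : H (x, (k : ℝ) / N) ≠ 0 := h0 x hx _ ht0
        have h4 : H (x, ((k : ℝ) + 1) / N) / H (x, k / N) - 1 =
            (H (x, ((k : ℝ) + 1) / N) - H (x, k / N)) / H (x, k / N) := by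
          field_simp
        rw [h4, norm_div, div_lt_one (norm_pos_iff.2 h3)]
        refine lt_of_lt_of_le ?_ (hlow x hx _ ht0)
        have h5 := hη2 (x, ((k : ℝ) + 1) / N) ⟨hx, ht1⟩ (x, (k : ℝ) / N) ⟨hx, ht0⟩ (by
          rw [Prod.dist_eq, dist_self, Real.dist_eq]
          have h6 : ((k : ℝ) + 1) / N - k / N = 1 / N := by ring
          rw [h6, abs_of_pos (by positivity)]
          exact max_lt hη hN1)
        rwa [dist_eq_norm] at h5
      refine (h2.mul h1).congr fun x hx => ?_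
      push_cast
      have h3 : H (x, (k : ℝ) / N) ≠ 0 := h0 x hx _ ht0
      rw [div_mul_div_cancel₀ h3]
  have h7 := key N le_rfl
  rwa [div_self hNpos.ne'] at h7

/-- a function on a compact set that contracts in itself -/
theorem cLog_of_contraction {X : Type*} [PseudoMetricSpace X] {K : Set X} (hK : IsCompact K)
    {c : X × ℝ → X} (hc : ContinuousOn c (K ×ˢ Icc 0 1))
    (hm : ∀ x ∈ K, ∀ t ∈ Icc (0 : ℝ) 1, c (x, t) ∈ K) (h1 : ∀ x ∈ K, c (x, 1) = x)
    {p : X} (h0 : ∀ x ∈ K, c (x, 0) = p) {f : X → ℂ} (hf : ContinuousOn f K)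
    (hf0 : ∀ x ∈ K, f x ≠ 0) : CLog K f := by
  rcases K.eq_empty_or_nonempty with rfl | ⟨x0, hx0⟩
  · exact ⟨fun _ => 0, continuousOn_empty _, fun x hx => hx.elim⟩
  have hp : p ∈ K := by
    rw [← h0 x0 hx0]
    exact hm x0 hx0 0 (by simp)
  have h2 := cLog_homotopy hK (H := fun q => f (c q)) (hf.comp hc fun q hq =>
    hm q.1 hq.1 q.2 hq.2) fun x hx t ht => hf0 _ (hm x hx t ht)
  refine (h2.mul (cLog_const (hf0 p hp))).congr fun x hx => ?_
  rw [h1 x hx, h0 x hx, div_mul_cancel₀ _ (hf0 p hp)]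

/-- convex compact sets -/
theorem cLog_convex {E : Type*} [NormedAddCommGroup E] [NormedSpace ℝ E] {K : Set E}
    (hK : IsCompact K) (hc : Convex ℝ K) {f : E → ℂ} (hf : ContinuousOn f K)
    (hf0 : ∀ x ∈ K, f x ≠ 0) : CLog K f := by
  rcases K.eq_empty_or_nonempty with rfl | ⟨x0, hx0⟩
  · exact ⟨fun _ => 0, continuousOn_empty _, fun x hx => hx.elim⟩
  refine cLog_of_contraction hK (c := fun q => q.2 • q.1 + (1 - q.2) • x0) (p := x0)
    (by fun_prop) (fun x hx t ht => ?_) (fun x _ => ?_) (fun x _ => ?_) hf hf0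
  · exact hc hx hx0 ht.1 (by linarith [ht.2]) (by ring)
  · simp
  · simp

/-- images under injective continuous maps -/
theorem CLog.image {X Y : Type*} [TopologicalSpace X] [TopologicalSpace Y] [T2Space Y]
    {K : Set X} (hK : IsCompact K) {φ : X → Y} (hφ : ContinuousOn φ K) (hi : InjOn φ K)
    {f : Y → ℂ} (h : CLog K fun x => f (φ x)) : CLog (φ '' K) f := by
  classical
  obtain ⟨g, hg, he⟩ := h
  rcases K.eq_empty_or_nonempty with rfl | ⟨x0, hx0⟩
  · exact ⟨fun _ => 0, by simp, fun y hy => by simp at hy⟩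
  haveI : Nonempty X := ⟨x0⟩
  have hx : ∀ y ∈ φ '' K, ∃ x ∈ K, φ x = y := fun y hy => hy
  choose! ψ hψ1 hψ2 using hx
  have hψ3 : ∀ x ∈ K, ψ (φ x) = x := fun x hx' =>
    hi (hψ1 _ ⟨x, hx', rfl⟩) hx' (hψ2 _ ⟨x, hx', rfl⟩)
  have hcont : ContinuousOn ψ (φ '' K) := by
    haveI : CompactSpace K := isCompact_iff_compactSpace.1 hK
    have h1 : Continuous (fun x : K => (⟨φ x, x, x.2, rfl⟩ : φ '' K)) :=
      (continuousOn_iff_continuous_domRestrict.1 hφ).subtype_mk _
    have h2 : Function.Bijective (fun x : K => (⟨φ x, x, x.2, rfl⟩ : φ '' K)) := by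
      constructor
      · intro a b hab
        exact Subtype.ext (hi a.2 b.2 (Subtype.ext_iff.1 hab))
      · rintro ⟨y, x, hx', rfl⟩
        exact ⟨⟨x, hx'⟩, rfl⟩
    obtain ⟨e, he'⟩ : ∃ e : K ≃ₜ φ '' K, ∀ x : K, ((e x : φ '' K) : Y) = φ x :=
      ⟨Continuous.homeoOfEquivCompactToT2 (f := Equiv.ofBijective _ h2) h1, fun x => rfl⟩
    rw [continuousOn_iff_continuous_domRestrict]
    refine (continuous_subtype_val.comp e.symm.continuous).congr fun y => ?_
    obtain ⟨x, rfl⟩ := e.surjective y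
    have h4 := hψ3 x x.2
    rw [← he' x] at h4
    rw [Function.comp_apply, e.symm_apply_apply]
    exact h4.symm
  exact ⟨fun y => g (ψ y), hg.comp hcont fun y hy => hψ1 y hy, fun y hy => by
    rw [he _ (hψ1 y hy)]
    exact congrArg f (hψ2 y hy)⟩

end Pool.Agent.LIX


end

section

/-!
# LIX, block TB: Borsuk's criterion in the plane
-/

namespace Pool.Agent.LIX

open Set Metric Complex Filter Topology

/-- the function `z - c` has no logarithm on a circle around `c` -/
theorem not_cLog_sphere (c : ℂ) {R : ℝ} (hR : 0 < R) :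
    ¬ CLog (sphere c R) fun z => z - c := by
  rintro ⟨g, hg, he'⟩
  have he : ∀ z ∈ sphere c R, exp (g z) = z - c := he'
  -- the loop `t ↦ c + R exp (i t)`
  obtain ⟨γ, hγ⟩ : ∃ γ : ℝ → ℂ, ∀ t, γ t = c + R * exp (t * I) := ⟨_, fun _ => rfl⟩
  have hγc : Continuous γ := by
    have : γ = fun t : ℝ => c + R * exp (t * I) := funext hγ
    rw [this]
    fun_prop
  have hγm : ∀ t, γ t ∈ sphere c R := by
    intro t
    rw [mem_sphere, dist_eq_norm, hγ, add_sub_cancel_left, norm_mul, norm_exp_ofReal_mul_I,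
      mul_one, norm_real, Real.norm_eq_abs, abs_of_pos hR]
  have hRne : (R : ℂ) ≠ 0 := by exact_mod_cast hR.ne'
  obtain ⟨h, hh⟩ : ∃ h : ℝ → ℂ, ∀ t, h t = g (γ t) - t * I := ⟨_, fun _ => rfl⟩
  have hhc : Continuous h := by
    have : h = fun t : ℝ => g (γ t) - t * I := funext hh
    rw [this]
    exact (hg.comp_continuous hγc hγm).sub (by fun_prop)
  have hhe : ∀ t, exp (h t) = R := by
    intro t
    rw [hh, exp_sub, he _ (hγm t), hγ, add_sub_cancel_left, mul_div_cancel_right₀ _ (exp_ne_zero _)]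
  -- `(h t - log R) / (2 π i)` is an integer
  obtain ⟨k, hk⟩ : ∃ k : ℝ → ℝ, ∀ t, k t = (h t).im := ⟨_, fun _ => rfl⟩
  have hval : ∀ t, ∃ n : ℤ, (h t).im = n * (2 * Real.pi) := by
    intro t
    have h1 : exp (h t) = exp (Real.log R) := by
      rw [hhe, ← ofReal_exp, Real.exp_log hR]
    rw [exp_eq_exp_iff_exists_int] at h1
    obtain ⟨n, hn⟩ := h1
    refine ⟨n, ?_⟩
    rw [hn]
    simp
  have himc : Continuous fun t => (h t).im := continuous_im.comp hhc
  have h0 : (h 0).im = (h (2 * Real.pi)).im + 2 * Real.pi := by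
    have hγ0 : γ 0 = γ (2 * Real.pi) := by
      rw [hγ, hγ]
      push_cast
      rw [exp_two_pi_mul_I]
      simp
    rw [hh, hh, hγ0]
    simp
  -- intermediate value
  obtain ⟨n, hn⟩ := hval (2 * Real.pi)
  have hiv : (h (2 * Real.pi)).im + Real.pi ∈ (fun t => (h t).im) '' uIcc (2 * Real.pi) 0 := by
    refine intermediate_value_uIcc himc.continuousOn ?_
    rw [h0, uIcc_of_le (by linarith [Real.pi_pos])]
    exact ⟨by linarith [Real.pi_pos], by linarith [Real.pi_pos]⟩
  obtain ⟨t, _, ht⟩ := hiv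
  obtain ⟨m, hm⟩ := hval t
  have h2 : (m : ℝ) * (2 * Real.pi) = n * (2 * Real.pi) + Real.pi := by
    rw [← hm, ← hn]
    exact ht
  have h3 : (2 * m : ℝ) = 2 * n + 1 := by
    have h4 : (2 * m - 2 * n - 1 : ℝ) * Real.pi = 0 := by linarith
    have h5 := (mul_eq_zero.1 h4).resolve_right Real.pi_ne_zero
    linarith
  have h6 : (2 * m : ℤ) = 2 * n + 1 := by exact_mod_cast h3
  omega

/-- a continuous function without zeros on a closed disk cannot be `z - c` on the boundary -/
theorem exists_zero_of_sphere {c : ℂ} {R : ℝ} (hR : 0 < R) {F : ℂ → ℂ}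
    (hF : ContinuousOn F (closedBall c R)) (h : ∀ z ∈ sphere c R, F z = z - c) :
    ∃ z ∈ closedBall c R, F z = 0 := by
  by_contra hne
  push Not at hne
  have h1 := cLog_convex (isCompact_closedBall c R) (convex_closedBall c R) hF hne
  exact not_cLog_sphere c hR ((h1.mono sphere_subset_closedBall).congr fun z hz => (h z hz).symm)

section component

variable {K : Set ℂ}

/-- the logarithm of `z - a` on `K` only depends on the component of `a` -/
theorem cLog_iff_of_component (hK : IsCompact K) {S : Set ℂ} (hS : IsPreconnected S)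
    (hSK : Disjoint S K) {a b : ℂ} (ha : a ∈ S) (hb : b ∈ S) :
    CLog K (fun z => z - a) ↔ CLog K fun z => z - b := by
  refine hS.induction₂ (fun a b => CLog K (fun z => z - a) ↔ CLog K fun z => z - b)
    (fun x hx => ?_) (fun x y z _ _ _ h1 h2 => h1.trans h2) (fun x y _ _ h => h.symm) ha hb
  have hxK : x ∉ K := fun h => Set.disjoint_left.1 hSK hx h
  obtain ⟨d, hd, hdK⟩ : ∃ d > 0, ∀ z ∈ K, d ≤ dist z x := by
    rcases K.eq_empty_or_nonempty with rfl | hne
    · exact ⟨1, one_pos, fun z hz => hz.elim⟩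
    · refine ⟨infDist x K, ?_, fun z hz => ?_⟩
      · exact (hK.isClosed.notMem_iff_infDist_pos hne).1 hxK
      · rw [dist_comm]
        exact infDist_le_dist_of_mem hz
  refine mem_nhdsWithin_of_mem_nhds ?_
  filter_upwards [ball_mem_nhds x (half_pos hd)] with y hy
  rw [mem_ball] at hy
  have hc : ∀ a : ℂ, ContinuousOn (fun z : ℂ => z - a) K := fun a => by fun_prop
  constructor
  · intro h
    refine h.of_close (hc y) fun z hz => ?_
    have h1 : z - y - (z - x) = x - y := by ring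
    rw [h1, ← dist_eq_norm, dist_comm]
    have h2 := hdK z hz
    rw [dist_eq_norm] at h2
    linarith
  · intro h
    refine h.of_close (hc x) fun z hz => ?_
    have h1 : z - x - (z - y) = y - x := by ring
    rw [h1, ← dist_eq_norm]
    have h2 := hdK z hz
    have h3 := dist_triangle z y x
    rw [← dist_eq_norm z y]
    linarith

theorem cLog_far (hK : IsCompact K) : ∃ R : ℝ, ∀ a : ℂ, R < ‖a‖ → CLog K fun z => z - a := by
  obtain ⟨R, hR⟩ := hK.isBounded.exists_norm_le
  refine ⟨max R 0, fun a ha => ?_⟩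
  have ha0 : a ≠ 0 := by
    rw [← norm_pos_iff]
    exact lt_of_le_of_lt (le_max_right _ _) ha
  have h1 : CLog K fun _ : ℂ => -a := cLog_const (neg_ne_zero.2 ha0)
  refine h1.of_close (by fun_prop) fun z hz => ?_
  have h2 : z - a - -a = z := by ring
  rw [h2, norm_neg]
  exact lt_of_le_of_lt ((hR z hz).trans (le_max_left _ _)) ha

/-- points of the unbounded component -/
theorem cLog_of_unbounded (hK : IsCompact K) {S : Set ℂ} (hS : IsPreconnected S)
    (hSK : Disjoint S K) (hb : ¬ Bornology.IsBounded S) {a : ℂ} (ha : a ∈ S) :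
    CLog K fun z => z - a := by
  obtain ⟨R, hR⟩ := cLog_far hK
  obtain ⟨b, hbS, hbR⟩ : ∃ b ∈ S, R < ‖b‖ := by
    by_contra hne
    push Not at hne
    exact hb (isBounded_iff_forall_norm_le.2 ⟨R, hne⟩)
  exact (cLog_iff_of_component hK hS hSK ha hbS).2 (hR b hbR)

/-- the frontier of a component of the complement lies in `K` -/
theorem frontier_component (hK : IsClosed K) (a : ℂ) :
    frontier (connectedComponentIn Kᶜ a) ⊆ K := by
  intro z hz
  by_contra hzK
  have ho : IsOpen (Kᶜ : Set ℂ) := hK.isOpen_compl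
  have hU : IsOpen (connectedComponentIn Kᶜ a) := ho.connectedComponentIn
  have hV : IsOpen (connectedComponentIn Kᶜ z) := ho.connectedComponentIn
  have hzV : z ∈ connectedComponentIn Kᶜ z := mem_connectedComponentIn hzK
  have hzc : z ∈ closure (connectedComponentIn Kᶜ a) := frontier_subset_closure hz
  obtain ⟨w, hwV, hwU⟩ := mem_closure_iff.1 hzc _ hV hzV
  have h1 := connectedComponentIn_eq hwV
  have h2 := connectedComponentIn_eq hwU
  rw [frontier, hU.interior_eq] at hz
  rw [h2, ← h1] at hz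
  exact hz.2 hzV

/-- **Borsuk**: points of bounded components -/
theorem not_cLog_of_bounded (hK : IsCompact K) {a : ℂ} (ha : a ∉ K)
    (hb : Bornology.IsBounded (connectedComponentIn Kᶜ a)) : ¬ CLog K fun z => z - a := by
  classical
  rintro ⟨g, hg, he⟩
  obtain ⟨U, hUdef⟩ : ∃ U, U = connectedComponentIn Kᶜ a := ⟨_, rfl⟩
  rw [← hUdef] at hb
  have ho : IsOpen (Kᶜ : Set ℂ) := hK.isClosed.isOpen_compl
  have hU : IsOpen U := by
    rw [hUdef]
    exact ho.connectedComponentIn
  have haU : a ∈ U := by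
    rw [hUdef]
    exact mem_connectedComponentIn ha
  have hfr : frontier U ⊆ K := by
    rw [hUdef]
    exact frontier_component hK.isClosed a
  -- extension of the logarithm
  obtain ⟨G, hG⟩ : ∃ G : C(ℂ, ℂ), ∀ z ∈ K, G z = g z := by
    obtain ⟨G, hG⟩ := ContinuousMap.exists_restrict_eq hK.isClosed
      (⟨K.domRestrict g, continuousOn_iff_continuous_domRestrict.1 hg⟩ : C(K, ℂ))
    refine ⟨G, fun z hz => ?_⟩
    have := DFunLike.congr_fun hG ⟨z, hz⟩
    exact this
  have hF : Continuous (U.piecewise (fun z => exp (G z)) fun z => z - a) := by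
    refine Continuous.piecewise (fun z hz => ?_) (by fun_prop) (by fun_prop)
    have hzK := hfr hz
    rw [hG z hzK, he z hzK]
  obtain ⟨R, hR⟩ := isBounded_iff_forall_norm_le.1 hb
  obtain ⟨R', hR'⟩ : ∃ R', R' = R + ‖a‖ + 1 := ⟨_, rfl⟩
  have hR'pos : 0 < R' := by
    have := (norm_nonneg a).trans (hR a haU)
    rw [hR']
    positivity
  obtain ⟨z, hz, hz0⟩ := exists_zero_of_sphere hR'pos hF.continuousOn (c := a) (R := R') fun z hz => by
    have hzU : z ∉ U := by
      intro hzU
      have h1 := hR z hzU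
      rw [mem_sphere, dist_eq_norm] at hz
      have h2 := norm_sub_le z a
      rw [hz, hR'] at h2
      linarith
    rw [Set.piecewise_eq_of_notMem _ _ _ hzU]
  by_cases hzU : z ∈ U
  · rw [Set.piecewise_eq_of_mem _ _ _ hzU] at hz0
    exact exp_ne_zero _ hz0
  · rw [Set.piecewise_eq_of_notMem _ _ _ hzU, sub_eq_zero] at hz0
    exact hzU (hz0 ▸ haU)

/-- **Borsuk's criterion** -/
theorem cLog_iff_unbounded (hK : IsCompact K) {a : ℂ} (ha : a ∉ K) :
    CLog K (fun z => z - a) ↔ ¬ Bornology.IsBounded (connectedComponentIn Kᶜ a) := by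
  constructor
  · intro h hb
    exact not_cLog_of_bounded hK ha hb h
  · intro hb
    exact cLog_of_unbounded hK isPreconnected_connectedComponentIn
      (disjoint_left.2 fun z hz hzK => connectedComponentIn_subset Kᶜ a hz hzK) hb
      (mem_connectedComponentIn ha)

/-- an arc does not separate the plane -/
theorem cLog_arc {γ : ℝ → ℂ} (hγ : ContinuousOn γ (Icc 0 1)) (hi : InjOn γ (Icc 0 1)) {a : ℂ}
    (ha : a ∉ γ '' Icc 0 1) : CLog (γ '' Icc 0 1) fun z => z - a := by
  refine CLog.image isCompact_Icc hγ hi ?_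
  refine cLog_convex isCompact_Icc (convex_Icc 0 1) (hγ.sub continuousOn_const) fun t ht h0 => ?_
  exact ha ⟨t, ht, sub_eq_zero.1 h0⟩

end component

end Pool.Agent.LIX


end
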