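import Mathlib
import Pool.Agent.BBM.C08

/-! Parts: BBP.A_VZE, BBP.B_SML, BBP.StmtsC, BBP.C_ACP, BBP.C_CEL, BBP.C_DVA, BBP.C_LMA, BBP.C_LMB, BBP.C_LMS, BBP.C_LMX, BBP.C_THA, BBP.C_THB, BBP.C_THE, BBP.C_ULC, BBP.C_XCT, BBP.StmtsD, BBP.D_ARZ, BBP.D_AXY, BBP.D_CPL, BBP.D_CPS, BBP.D_DSC, BBP.D_LIM, BBP.D_MAIN3, BBP.D_MNI, BBP.D_MSH, BBP.D_OMC, BBP.D_PRM, BBP.D_RFN, BBP.D_STP, BBP.D_SWP -/

section

/-!
# BBP, module VZE: the cochain vanishes on the boundary of the product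
-/

set_option autoImplicit false

namespace BBP

open Set Topology CTO

namespace VZE

theorem chi_zero {Z : Type} [MetricSpace Z] {a b z : Z} {ρ : ℝ} (h : 2 * ρ ≤ dist a b)
    (hz : dist z a < ρ) : chi b ρ z = 0 := by
  unfold chi
  rw [if_neg]
  intro h1
  have h2 : dist a b ≤ dist z a + dist z b := by
    rw [dist_comm z a]
    exact dist_triangle a z b
  linarith

theorem chi_one {Z : Type} [MetricSpace Z] {b z : Z} {ρ : ℝ} (hz : dist z b < ρ) : chi b ρ z = 1 := by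
  unfold chi
  rw [if_pos hz]

theorem dist_fst {K Z : Type} [MetricSpace K] [MetricSpace Z] (p q : K × Z) :
    dist p.1 q.1 ≤ dist p q := by
  rw [Prod.dist_eq]
  exact le_max_left _ _

theorem dist_snd {K Z : Type} [MetricSpace K] [MetricSpace Z] (p q : K × Z) :
    dist p.2 q.2 ≤ dist p q := by
  rw [Prod.dist_eq]
  exact le_max_right _ _

theorem sm_fst {K Z : Type} [MetricSpace K] [MetricSpace Z] {ε ε' : ℝ} {l : List (K × Z)}
    (h : Sm ε l) (he : ε ≤ ε') (l' : List (K × Z)) (hl : ∀ x ∈ l', x ∈ l) :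
    Sm ε' (l'.map Prod.fst) := by
  intro x hx y hy
  obtain ⟨p, hp, rfl⟩ := List.mem_map.1 hx
  obtain ⟨q, hq, rfl⟩ := List.mem_map.1 hy
  exact ((dist_fst p q).trans_lt (h p (hl p hp) q (hl q hq))).trans_le he

end VZE

open VZE in
theorem t_VZE : M_VZE := by
  intro hCOC K Z _ _ _ _ L f a b ρ hL hf hne hρ hab
  obtain ⟨-, ⟨ε1, hε1, hc⟩, -⟩ := hCOC K L f hL hf hne
  refine ⟨min ε1 ρ, lt_min hε1 hρ, ?_⟩
  intro p hp q hq r hr s hs hsm
  have hbd : ∀ x ∈ [p, q, r, s], x ∈ bdP L a b := by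
    intro x hx
    simp only [List.mem_cons, List.not_mem_nil, or_false] at hx
    rcases hx with rfl | rfl | rfl | rfl
    · exact hp
    · exact hq
    · exact hr
    · exact hs
  have mp : p ∈ [p, q, r, s] := by simp
  have mq : q ∈ [p, q, r, s] := by simp
  have mr : r ∈ [p, q, r, s] := by simp
  have ms : s ∈ [p, q, r, s] := by simp
  by_cases ha : ∃ y ∈ [p, q, r, s], y.2 = a
  · obtain ⟨y, hy, hya⟩ := ha
    have h0 : ∀ x ∈ [p, q, r, s], chi b ρ x.2 = 0 := by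
      intro x hx
      apply chi_zero hab
      rw [← hya]
      exact ((dist_snd x y).trans_lt (hsm x hx y hy)).trans_le (min_le_right _ _)
    simp only [d2, vv, h0 p mp, h0 q mq, h0 r mr, h0 s ms, max_self, mul_zero]
    norm_num
  by_cases hb : ∃ y ∈ [p, q, r, s], y.2 = b
  · obtain ⟨y, hy, hyb⟩ := hb
    have h1 : ∀ x ∈ [p, q, r, s], chi b ρ x.2 = 1 := by
      intro x hx
      apply chi_one
      rw [← hyb]
      exact ((dist_snd x y).trans_lt (hsm x hx y hy)).trans_le (min_le_right _ _)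
    simp only [d2, vv, h1 p mp, h1 q mq, h1 r mr, h1 s ms, max_self, mul_one]
    exact d2_d1 (cc L f) p.1 q.1 r.1 s.1
  · have hin : ∀ x ∈ [p, q, r, s], x.1 ∈ L := by
      intro x hx
      rcases hbd x hx with h | h
      · exact h.1
      · exfalso
        rcases h.2 with h2 | h2
        · exact ha ⟨x, hx, h2⟩
        · exact hb ⟨x, hx, h2⟩
    have hz : ∀ x ∈ [p, q, r, s], ∀ y ∈ [p, q, r, s], ∀ z ∈ [p, q, r, s],
        vv L f (chi b ρ) x y z = 0 := by
      intro x hx y hy z hz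
      have h1 : Sm ε1 [x.1, y.1, z.1] := by
        refine sm_fst hsm (min_le_left _ _) [x, y, z] ?_
        intro w hw
        simp only [List.mem_cons, List.not_mem_nil, or_false] at hw
        rcases hw with rfl | rfl | rfl
        · exact hx
        · exact hy
        · exact hz
      have h2 := hc x.1 (hin x hx) y.1 (hin y hy) z.1 (hin z hz) h1
      rw [vv, h2, zero_mul]
    simp only [d2, hz q mq r mr s ms, hz p mp r mr s ms, hz p mp q mq s ms, hz p mp q mq r mr]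
    norm_num

end BBP


end

section

/-!
# BBP, SML: small simple closed curves around a point
-/

set_option autoImplicit false

namespace BBP

open Set Topology
open Pool.Agent.LIX (CLog)

namespace SML

/-- Small connected open neighbourhoods. -/
theorem nb {Y : Type} [MetricSpace Y] [LocallyConnectedSpace Y] {y : Y} {V : Set Y}
    (hV : IsOpen V) (hy : y ∈ V) :
    ∃ B : Set Y, IsOpen B ∧ IsConnected B ∧ y ∈ B ∧ closure B ⊆ V := by
  obtain ⟨ε, hε, hb⟩ := Metric.nhds_basis_closedBall.mem_iff.1 (hV.mem_nhds hy)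
  have hyb : y ∈ Metric.ball y ε := Metric.mem_ball_self hε
  refine ⟨connectedComponentIn (Metric.ball y ε) y, Metric.isOpen_ball.connectedComponentIn,
    isConnected_connectedComponentIn_iff.2 hyb, mem_connectedComponentIn hyb, ?_⟩
  exact ((closure_mono (connectedComponentIn_subset _ _)).trans
    Metric.closure_ball_subset_closedBall).trans hb

/-- A function with a logarithm on a closed set extends to the whole space without zeros. -/
theorem ext_of_log {Y : Type} [MetricSpace Y] {S K : Set Y} {F : Y → ℂ} (hS : IsClosed S)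
    (h : CLog S F) : ExtC S K F := by
  obtain ⟨l, hl, hlF⟩ := h
  obtain ⟨g, hg⟩ := ContinuousMap.exists_restrict_eq hS
    (⟨S.restrict l, hl.restrict⟩ : C(S, ℂ))
  refine ⟨fun x => Complex.exp (g x), (Complex.continuous_exp.comp g.continuous).continuousOn,
    fun x _ => Complex.exp_ne_zero _, fun x hx => ?_⟩
  have h1 : g x = l x := by
    have h2 := congrArg (fun k : C(S, ℂ) => k ⟨x, hx⟩) hg
    exact h2
  show Complex.exp (g x) = F x
  rw [h1, hlF x hx]

end SML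

open SML in
theorem t_SML : M_SML := by
  intro hlpc hlog hnsp hnrm Y _ hax L Q f F y hmem hyQ hF W hW hyW
  have hloc : LocallyPathConnectedSpace Y := hlpc Y hax
  have hlc : LocallyConnectedSpace Y := inferInstance
  obtain ⟨W0, hW0o, hW0c, hyW0, hW0⟩ := nb (hW.inter hmem.opn) ⟨hyW, hyQ⟩
  have hsub : W0 ⊆ W ∩ Q := subset_closure.trans hW0
  have hm0 : Mem (closure W0 \ W0) F W0 := hnrm Y L Q f F y hmem hyQ hF W0 hW0o hW0c hyW0
    (hW0.trans inter_subset_right)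
  have hOm : IsConnected (W0 \ {y}) := by
    refine hnsp Y hax (closure W0 \ W0) W0 {y} F hm0 (singleton_subset_iff.2 hyW0)
      isCompact_singleton ?_
    intro g _ hg
    obtain ⟨z, hz⟩ : ∃ z, Complex.exp z = g y :=
      ⟨Complex.log (g y), Complex.exp_log (hg y rfl)⟩
    refine ⟨fun _ => z, continuousOn_const, fun x hx => ?_⟩
    rw [mem_singleton_iff.1 hx]
    exact hz
  by_contra hcon
  have hlogs : ∀ C : Set Y, Scc C → C ⊆ W0 \ {y} → CLog C F := by
    intro C hC hCs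
    by_contra hno
    exact hcon ⟨C, hC, fun x hx => (hsub (hCs hx).1).1, fun x hx => (hsub (hCs hx).1).2,
      fun hy => (hCs hy).2 rfl, hno⟩
  have hsub2 : W0 \ {y} ⊆ (L ∪ Q) \ {y} := fun x hx => ⟨Or.inr (hsub hx.1).2, hx.2⟩
  have hcl : CLog (W0 \ {y}) F := hlog Y hloc (W0 \ {y}) F
    (hW0o.sdiff isClosed_singleton) hOm (hF.1.mono hsub2) (fun x hx => hF.2.1 x (hsub2 hx)) hlogs
  obtain ⟨B, hBo, hBc, hyB, hB⟩ := nb hW0o hyW0
  have hmB : Mem (closure B \ B) F B := hnrm Y L Q f F y hmem hyQ hF B hBo hBc hyB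
    (hB.trans (hsub.trans inter_subset_right))
  refine hmB.ess (ext_of_log ?_ (hcl.mono ?_))
  · exact isClosed_closure.sdiff hBo
  · intro x hx
    refine ⟨hB hx.1, fun h => hx.2 ?_⟩
    rw [mem_singleton_iff.1 h]
    exact hyB

end BBP


end

section

/-!
# BBP, block C: cells, cross-cuts, theta curves, small subdivisions

Module `X` proves `theorem t_X : M_X` (or `t_X : S_X` if there is no `M_X`) in the namespace `BBP`, in the file
`Pool/Agent/BBP/C_X.lean`, importing this file (the statements `S_PTA`, `S_ARB`, `S_SCA`, `S_SCB`, `S_GLU`, `S_DEG`, `S_TRI`, `S_INC`, `S_ACC` of block B come as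
hypotheses).  Everything happens in a plane-like pair `Pln U V` (structure in `StmtsB.lean`).  The closed cell of an scc `C` is
`C ∪ ins C`.  In an open connected set, any two points are joined by a path (`Pln.lpc`), so by an arc (S_PTA).
For an scc `C ⊆ U`, `ins C` is open and, by `Pln.clos`, closed in `Cᶜ`: a connected set disjoint from `C` which meets `ins C` is contained in it.
-/

set_option autoImplicit false

namespace BBP

open Set Topology Metric
open Pool.Agent.LIX (CLog)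

/-- the scc `C` can be divided by finitely many successive cross-cuts in scc's with the property `R` -/
inductive Div {Y : Type} [MetricSpace Y] (R : Set Y → Prop) : Set Y → Prop
  | leaf (C : Set Y) : R C → Div R C
  | node (C A1 A2 P : Set Y) (a b : Y) : Arc A1 a b → Arc A2 a b → A1 ∪ A2 = C →
      A1 ∩ A2 = {a, b} → Arc P a b → P \ {a, b} ⊆ ins C → Div R (A1 ∪ P) → Div R (A2 ∪ P) →
      Div R C

theorem Div.bind {Y : Type} [MetricSpace Y] {R R' : Set Y → Prop} {C : Set Y} (h : Div R C)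
    (hR : ∀ C' : Set Y, R C' → Div R' C') : Div R' C := by
  induction h with
  | leaf C h => exact hR C h
  | node C A1 A2 P a b h1 h2 h3 h4 h5 h6 _ _ ih1 ih2 =>
    exact Div.node C A1 A2 P a b h1 h2 h3 h4 h5 h6 ih1 ih2

theorem Div.imp {Y : Type} [MetricSpace Y] {R R' : Set Y → Prop} {C : Set Y} (h : Div R C)
    (hR : ∀ C' : Set Y, R C' → R' C') : Div R' C :=
  h.bind fun C' hC' => Div.leaf C' (hR C' hC')

/-- ULC. The inside is uniformly locally connected. PROOF. Let `W'` be an open neighbourhood of `x` with compact closure contained in `W ∩ V`. S_SCB (iv) with `W'`: `C = A ∪ B`, arcs from `a` to `b`, `x ∈ B`, `x ∉ A`, `B ⊆ W'`. `T1 = C`,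
`T2 = A ∪ (closure W' \ W')`, compact, in `V`; `T1 ∩ T2 = A` (as `B ⊆ W'`) is connected. Let `W'' ⊆ W'` be a path connected open neighbourhood of `x` disjoint from `A`. Let `y, z ∈ W'' ∩ ins C`. They are joined in `V \ T1` (in the open connected set `ins C`) and in
`V \ T2` (in `W''`), so by `Pln.jan` in `V \ (T1 ∪ T2)`. This path is disjoint from `C` and starts in `ins C`, so it stays in `ins C`; it is disjoint from `closure W' \ W'` and starts in `W'`, so it stays in `W' ⊆ W`. -/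
def S_ULC : Prop := ∀ (Y : Type) [MetricSpace Y] (U V : Set Y), Pln U V → ∀ C : Set Y, Scc C →
  C ⊆ V → ∀ x ∈ C, ∀ W : Set Y, IsOpen W → x ∈ W → ∃ W2 ⊆ W, IsOpen W2 ∧ x ∈ W2 ∧
    ∀ y ∈ W2 ∩ ins C, ∀ z ∈ W2 ∩ ins C, JoinedIn (W ∩ ins C) y z

def M_ULC : Prop := S_SCB → S_ARB → S_ULC

/-- ACP. All points of `C` are accessible from the inside. PROOF. By S_ULC there are open neighbourhoods `G n ⊆ ball x (1/(n+1))` of `x`, decreasing, such that any two points of `G n ∩ ins C` are joined in `ball x (1/(n+1)) ∩ ins C`. Choose `y n ∈ G n ∩ ins C` (`x ∈ closure (ins C)` by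
`Pln.clos`) and paths `p n` from `y n` to `y (n+1)` in `ball x (1/(n+1)) ∩ ins C`. Run through `p n` on the interval `[1 - 2⁻ⁿ, 1 - 2⁻ⁿ⁻¹]`; value `x` at `1`: continuous. (One can first define a continuous function on `[0, ∞)` with
`γ (n + s) = p n s` and limit `x` at infinity, and reparametrise by `t / (1 - t)`.) -/
def S_ACP : Prop := ∀ (Y : Type) [MetricSpace Y] (U V : Set Y), Pln U V → ∀ C : Set Y, Scc C →
  C ⊆ V → ∀ x ∈ C, Accs (ins C) x

def M_ACP : Prop := S_ULC → S_ACP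

/-- XCT. Cross-cuts exist: S_ACC (II) for the open connected set `ins C`. -/
def S_XCT : Prop := ∀ (Y : Type) [MetricSpace Y] (U V : Set Y), Pln U V → ∀ C : Set Y, Scc C →
  C ⊆ V → ∀ a ∈ C, ∀ b ∈ C, a ≠ b → ∃ P : Set Y, Arc P a b ∧ P \ {a, b} ⊆ ins C

def M_XCT : Prop := S_ACC → S_ACP → S_XCT

/-- THA. Theta curves, first part. PROOF. `P ∩ C = {a, b}` (`P \ {a, b} ⊆ ins C`), so `C1 = A1 ∪ P`, `C2 = A2 ∪ P` are scc's in `U` (S_GLU). Let `E = U \ (C ∪ ins C)`, connected, and `A2' = A2 \ {a, b}`, connected (S_ARB), `A2' ⊆ C ⊆ closure E`. So `E ∪ A2'` is connected, and it is disjoint from `C1`.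
It is not contained in `ins C1`: otherwise `E ⊆ C1 ∪ ins C1`, compact, against `Pln.ncp` for `C`. So it is disjoint from `ins C1`. So `ins C1` is disjoint from `C1`, `A2'`, `E`: `ins C1 ⊆ ins C \ P`. Same for `C2`. Suppose `ins C1` and `ins C2` meet: `ins C1` is connected and disjoint from
`C ∪ P ⊇ C2`, so `ins C1 ⊆ ins C2`, and symmetrically; so they are equal. But `A2' ⊆ closure (ins C2) = C2 ∪ ins C2`, and the points of `A2'` are not in `closure (ins C1) = C1 ∪ ins C1`. -/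
def S_THA : Prop := ∀ (Y : Type) [MetricSpace Y] (U V : Set Y), Pln U V →
  ∀ (C A1 A2 P : Set Y) (a b : Y), Scc C → C ⊆ U → Arc A1 a b → Arc A2 a b → A1 ∪ A2 = C →
  A1 ∩ A2 = {a, b} → Arc P a b → P \ {a, b} ⊆ ins C →
  Scc (A1 ∪ P) ∧ Scc (A2 ∪ P) ∧ ins (A1 ∪ P) ⊆ ins C \ P ∧ ins (A2 ∪ P) ⊆ ins C \ P ∧
    Disjoint (ins (A1 ∪ P)) (ins (A2 ∪ P))

def M_THA : Prop := S_ARB → S_GLU → S_THA

/-- THB. Theta curves, second part. PROOF. Suppose `w ∈ ins C \ P`, `w ∉ ins C1`, `w ∉ ins C2` (`C1 = A1 ∪ P`, `C2 = A2 ∪ P`). Let `R` be the connected component of `w` in the open set `U \ (C ∪ P)`: open, connected, `Clo U (C ∪ P) R`, `R ⊆ ins C`, and disjoint from `ins C1`, `ins C2` (which are connected, contained in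
`U \ (C ∪ P)` by S_THA, and open and closed there). (1) `closure R` meets `A2' = A2 \ {a, b}`: otherwise `closure R ∩ U ⊆ R ∪ C1`, so `R` is open and closed in `U \ C1`; `U \ C1` is the union of the disjoint connected open sets `ins C1` and `U \ (C1 ∪ ins C1)`, so `R` contains one of them, hence
(not the first) `A2' ⊆ U \ (C1 ∪ ins C1) ⊆ R`, but `R ∩ C = ∅`. (2) Similarly `closure R` meets `A1' = A1 \ {a, b}`. (3) By S_ACC (I) (with a neighbourhood `N` such that `N ∩ (C ∪ P) ⊆ A1'`, resp. `A2'`) there are `a1 ∈ A1'`, `a2 ∈ A2'` accessible from `R`, and `a1' ∈ A1'`, `a2' ∈ A2'` accessible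
from `E = U \ (C ∪ ins C)`, with `a1' ≠ a1`, `a2' ≠ a2` (`Clo U C E`, `C ⊆ closure E`). By S_ACC (II) there are arcs `B1 ⊆ R ∪ {a1, a2}` from `a1` to `a2` and `B2 ⊆ E ∪ {a1', a2'}` from `a1'` to `a2'`. Let `D1 ⊆ A1'` be the subarc between `a1` and `a1'`, `D2 ⊆ A2'` between `a2` and `a2'`.
`J' = B1 ∪ D2 ∪ B2 ∪ D1` is an scc in `U` (S_GLU). The set `S = P ∪ (A1 \ D1) ∪ (A2 \ D2)` is connected (`A1 \ D1` consists of two half-open arcs, one contains `a`, the other one `b`) and disjoint from `J'`; `S ∪ J' ⊇ C ∪ P`. (4) `U \ J'` is the disjoint union of the connected sets `ins J'` and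
`U \ (J' ∪ ins J')`, both open; `S` is contained in one of them; let `R'` be the other one: connected, disjoint from `S ∪ J' ⊇ C ∪ P`, `J' ⊆ closure R'` (`Pln.clos`, `Pln.outc`). As `B1 \ {a1, a2} ⊆ R` is nonempty and in `closure R'`, `R'` meets `R`; as `R'` is connected and in `U \ (C ∪ P)`, `R' ⊆ R ⊆ ins C`. In the same way `R'` meets
`E`: contradiction. -/
def S_THB : Prop := ∀ (Y : Type) [MetricSpace Y] (U V : Set Y), Pln U V →
  ∀ (C A1 A2 P : Set Y) (a b : Y), Scc C → C ⊆ U → Arc A1 a b → Arc A2 a b → A1 ∪ A2 = C →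
  A1 ∩ A2 = {a, b} → Arc P a b → P \ {a, b} ⊆ ins C →
  ins C ⊆ ins (A1 ∪ P) ∪ ins (A2 ∪ P) ∪ P

def M_THB : Prop := S_ARB → S_GLU → S_ACC → S_THA → S_THB

/-- THE. Summary: `C ∪ ins C` is divided in the cells of `A1 ∪ P` and `A2 ∪ P`, with intersection `P`. From S_THA, S_THB by set theory: `A1 ∩ P = A2 ∩ P = A1 ∩ A2 = {a, b}`; `ins C1` is disjoint from `C` (`ins C1 ⊆ ins C`), `P`, `ins C2`. -/
def S_THE : Prop := ∀ (Y : Type) [MetricSpace Y] (U V : Set Y), Pln U V →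
  ∀ (C A1 A2 P : Set Y) (a b : Y), Scc C → C ⊆ U → Arc A1 a b → Arc A2 a b → A1 ∪ A2 = C →
  A1 ∩ A2 = {a, b} → Arc P a b → P \ {a, b} ⊆ ins C →
  Scc (A1 ∪ P) ∧ Scc (A2 ∪ P) ∧ P ⊆ C ∪ ins C ∧ ins (A1 ∪ P) ⊆ ins C ∧
    ins (A2 ∪ P) ⊆ ins C ∧ Disjoint (ins (A1 ∪ P)) P ∧ Disjoint (ins (A2 ∪ P)) P ∧
    Disjoint (ins (A1 ∪ P)) (ins (A2 ∪ P)) ∧
    ((A1 ∪ P) ∪ ins (A1 ∪ P)) ∪ ((A2 ∪ P) ∪ ins (A2 ∪ P)) = C ∪ ins C ∧
    ((A1 ∪ P) ∪ ins (A1 ∪ P)) ∩ ((A2 ∪ P) ∪ ins (A2 ∪ P)) = P ∧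
    ins C ⊆ ins (A1 ∪ P) ∪ ins (A2 ∪ P) ∪ P

def M_THE : Prop := S_ARB → S_THA → S_THB → S_THE

/-- LMX. Cross-cuts through a given open set. PROOF. Let `a ≠ b` be in `C`, `w ∈ O ∩ ins C`, `O' ⊆ O ∩ ins C` an open path connected neighbourhood of `w`, `O1` an open path connected neighbourhood of `w` with `closure O1 ⊆ O'`. There is a path from `a` to `w` in `ins C ∪ {a}` (S_ACP, `ins C` is path
connected), so an arc `R` (S_PTA). First hit (S_ARB, last but one item) with `closure O1`: an arc `R' ⊆ R` from `a` to `w'`, `R' ∩ closure O1 = {w'}`; `R' ∩ O1 = ∅` (if `w' ∈ O1`, other points of `R'` near `w'` would be in `O1`). Let `β` be an access path from `ins C` to `b` (S_ACP); `b ∉ R'`, so there is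
`t0 < 1` with `β '' [t0, 1]` disjoint from the compact set `R'`; `y = β t0`. Apply `Pln.jan` with `T1 = C`, `T2 = R'`, `T1 ∩ T2 = {a}`, to `y` and `w`: both are in `ins C` (connected), and `V \ R'` is connected by `Pln.nsp`. So `y` and `w` are joined in `V \ (C ∪ R')`, by a path that stays in
`ins C`. Altogether: `R'` from `a` to `w'`, a path with image `Σ ⊆ O'` from `w'` to `w`, a path with image `ρ ⊆ (ins C ∪ {b}) \ R'` from `w` through `y` to `b`. S_PTA: an arc `P` from `a` to `b` in `R' ∪ Σ ∪ ρ ⊆ ins C ∪ {a, b}`. If `P ∩ O = ∅` then `P` is contained in the union of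
the disjoint compact sets `R' ∋ a` and `ρ ∋ b`: impossible, as `P` is connected. -/
def S_LMX : Prop := ∀ (Y : Type) [MetricSpace Y] (U V : Set Y), Pln U V → ∀ C O : Set Y, Scc C →
  C ⊆ V → IsOpen O → (O ∩ ins C).Nonempty →
  ∃ a ∈ C, ∃ b ∈ C, ∃ P : Set Y, Arc P a b ∧ P \ {a, b} ⊆ ins C ∧ (P ∩ O).Nonempty

def M_LMX : Prop := S_PTA → S_ARB → S_SCB → S_ACP → S_LMX

/-- DVA. Division along finitely many cross-cuts. PROOF. Induction on `s` (on its cardinality, for all `C`). `s = ∅`: leaf. Let `i ∈ s`: S_SCB (v) for `a i ≠ b i` gives `C = A1 ∪ A2`; `C1 = A1 ∪ P i`, `C2 = A2 ∪ P i` (S_THE). For `j ∈ s`, `j ≠ i`, the connected set `P j \ {a j, b j} ⊆ ins C \ P i` is contained in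
`ins C1` or `ins C2`; in the first case `a j, b j ∈ closure (ins C1) = C1 ∪ ins C1`, and they are in `C`, which is disjoint from `ins C1`, so in `C1`. Apply the induction hypothesis to `C1` and `s1 = {j ∈ s | j ≠ i, P j \ {a j, b j} ⊆ ins C1}`, and to `C2` with `s2`. The insides of the cells `C'` in
`C1` are contained in `ins C1` (`Pln.nst`, from `C' ∪ ins C' ⊆ C1 ∪ ins C1`), so disjoint from `P i` and from `P j`, `j ∈ s2` (`P j \ {a j, b j} ⊆ ins C2`, `a j, b j ∈ C`). -/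
def S_DVA : Prop := ∀ (Y : Type) [MetricSpace Y] (U V : Set Y), Pln U V →
  ∀ (ι : Type) (s : Finset ι) (P : ι → Set Y) (a b : ι → Y) (C : Set Y), Scc C → C ⊆ V →
  (∀ i ∈ s, Arc (P i) (a i) (b i) ∧ a i ∈ C ∧ b i ∈ C ∧ P i \ {a i, b i} ⊆ ins C) →
  (∀ i ∈ s, ∀ j ∈ s, i ≠ j → Disjoint (P i \ {a i, b i}) (P j)) →
  Div (fun C' => Scc C' ∧ C' ∪ ins C' ⊆ C ∪ ins C ∧ ∀ i ∈ s, Disjoint (ins C') (P i)) C

def M_DVA : Prop := S_ARB → S_SCB → S_THE → S_DVA

/-- LMA. The core of the subdivision lemma. PROOF. `y, z ∉ Jm` and `y ≠ z`. `f`: from `Pln.dip` for `y, z`; `l`: a logarithm of `f` on `V \ A`. Long intervals: `(s, t)` as in the last hypothesis; they are pairwise disjoint and have length `≥ δ`, so there are finitely many; let `T` be the union of `C` and of the sets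
`β '' [s, t]`, `(s, t)` long: compact, contained in `V \ A` (`A ⊆ ins C` is disjoint from `C`). `θ`: a logarithm of `f ∘ β` on `[0, 1]` (`cLog_convex`). Apply S_TRI. Let `(s, t)` be a complementary interval (`β s, β t ∈ T`, `β r ∉ T` for `r ∈ (s, t)`). Then `β s ∈ C`: otherwise `β s = β r'` with `r'` in an open long interval
`(s', t')`, so `s = r'` (injectivity of `β` on `[0, 1)`, `β 0 = β 1 ∈ C`), and `β r ∈ T` for `r > s` near `s`. Similarly `β t ∈ C`. So `t - s < δ` (otherwise `(s, t)` is long). `β s ≠ β t`: otherwise `s = 0`, `t = 1`, but there is a second point of `C` on `Jm`. Let `B ⊆ C` be the arc from `β s` to `β t` of the hypothesis `hC`,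
`E = β '' [s, t]` (arc, S_SCA), `E ∩ B = {β s, β t}`; `Σ = E ∪ B` is an scc (S_GLU) with diameter `< η`, in `V`, so `Σ ∪ ins Σ ⊆ D` does not contain `y, z`, and `f` has a logarithm on `Σ` (`Pln.dip`). S_INC (`Sg = Σ`, `Ga = B`): `θ t - θ s = l (β t) - l (β s)`. So S_TRI gives `θ 1 - θ 0 = l (β 1) - l (β 0) = 0`, and
`f` has a logarithm on `Jm` (S_DEG, last item): by `Pln.dip`, `y ∈ ins Jm ↔ z ∈ ins Jm`: contradiction. -/
def S_LMA : Prop := ∀ (Y : Type) [MetricSpace Y] (U V : Set Y), Pln U V →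
  ∀ (C Jm D : Set Y) (β : ℝ → Y) (η δ : ℝ), Scc C → C ⊆ V → Scp β → range β = Jm → Jm ⊆ V →
  β 0 ∈ C → (∃ x ∈ Jm, x ∈ C ∧ x ≠ β 0) → 0 < δ → δ ≤ 1 →
  (∀ Sg : Set Y, Scc Sg → Sg ⊆ V → (Sg ∩ Jm).Nonempty → (∀ u ∈ Sg, ∀ v ∈ Sg, dist u v < η) →
    Sg ∪ ins Sg ⊆ D) →
  (∀ s t : ℝ, |s - t| < δ → dist (β s) (β t) < η / 4) →
  (∀ s t : ℝ, |s - t| < δ → β s ∈ C → β t ∈ C → β s ≠ β t →
    ∃ B ⊆ C, Arc B (β s) (β t) ∧ ∀ u ∈ B, ∀ v ∈ B, dist u v < η / 4) →
  ∀ (y z : Y) (A : Set Y), Arc A y z → A ⊆ ins C → y ∉ D → z ∉ D → y ∈ ins Jm → z ∉ ins Jm →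
  z ∉ Jm →
  (∀ s t : ℝ, 0 ≤ s → s < t → t ≤ 1 → δ ≤ t - s → β s ∈ C → β t ∈ C →
    (∀ r ∈ Ioo s t, β r ∉ C) → Disjoint A (β '' Icc s t)) → False

def M_LMA : Prop := S_ARB → S_SCA → S_GLU → S_DEG → S_TRI → S_INC → S_LMA

/-- LMB. Cells with a point of the boundary in `N`. PROOF. If `C ∪ ins C ⊆ ball x ε`: leaf. Otherwise `C ⊄ Jm ∪ ins Jm` (else `ins C ⊆ ins Jm` by `Pln.nst`). `C` meets `N ⊆ ins Jm` and the complement of `Jm ∪ ins Jm`; as `C` is connected, it meets `Jm`, and in at least two points: `C \ {c}` is connected (S_SCB (iii)), and if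
it were disjoint from `Jm` it could not meet both `ins Jm` and its complement. Let `c0 ≠ c1` be in `Jm ∩ C`, `β` a parametrisation of `Jm` with `β 0 = c0` (shift). Let `η1` be from S_SCB (vi) for `η / 4`, and `0 < δ ≤ 1` such that `|s - t| < δ` implies `dist (β s) (β t) < min η1 (η / 4)` (uniform continuity of periodic functions). Let `I` be the
set of the pairs `(s, t)`, `0 ≤ s < t ≤ 1`, `δ ≤ t - s`, `β s, β t ∈ C`, `β '' (s, t) ∩ C = ∅`, `β '' (s, t) ⊆ ins C`: finite (disjoint intervals of length `≥ δ`). The arcs `P (s, t) = β '' [s, t]` (ends `β s ≠ β t`: otherwise `s = 0`, `t = 1` and `c1` would not be in `C`) satisfy the hypotheses of S_DVA, so `C` is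
divided in scc's `C'` with `C' ∪ ins C' ⊆ C ∪ ins C`, `ins C'` disjoint from these arcs. Claim: each of them is as required. Suppose that `C' ∪ ins C' = closure (ins C')` meets `N` and is not contained in `ball x ε`. Then there are `y ∈ ins C' ∩ N`, and `z ∈ ins C'` outside of the closed set
`(Jm ∪ ins Jm) ∪ {u | infDist u Jm ≤ ρ} ⊆ ball x ε`. Let `A ⊆ ins C'` be an arc from `y` to `z` (`ins C'` is open and connected; `y ∈ ins Jm`, so `y ≠ z`). `ins C' ⊆ ins C` (`Pln.nst`). S_LMA with `D = {u | infDist u Jm < ρ}` gives a contradiction; its last hypothesis: the connected set `β '' (s, t)` is disjoint from `C`, so it is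
contained in `ins C` (then `(s, t) ∈ I` and `β '' [s, t]` is disjoint from `ins C'`) or disjoint from `ins C ⊇ A`; the ends are in `C`, which is disjoint from `ins C`. -/
def S_LMB : Prop := ∀ (Y : Type) [MetricSpace Y] (U V : Set Y), Pln U V →
  ∀ (Jm N : Set Y) (x : Y) (ε ρ η : ℝ), Scc Jm → Jm ⊆ V → Jm ∪ ins Jm ⊆ ball x ε →
  0 < ρ → 0 < η → {u | infDist u Jm ≤ ρ} ⊆ ball x ε → IsOpen N → N ⊆ ins Jm →
  (∀ u ∈ N, ρ ≤ infDist u Jm) →
  (∀ Sg : Set Y, Scc Sg → Sg ⊆ V → (Sg ∩ Jm).Nonempty → (∀ u ∈ Sg, ∀ v ∈ Sg, dist u v < η) →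
    Sg ∪ ins Sg ⊆ {u | infDist u Jm < ρ}) →
  ∀ C : Set Y, Scc C → C ⊆ V → (C ∩ N).Nonempty →
  Div (fun C' => Scc C' ∧ C' ∪ ins C' ⊆ C ∪ ins C ∧
    (C' ∪ ins C' ⊆ ball x ε ∨ Disjoint (C' ∪ ins C') N)) C

def M_LMB : Prop := S_PTA → S_ARB → S_SCA → S_SCB → S_DVA → S_LMA → S_LMB

/-- LMS. PROOF. `Pln.sml`: an scc `Jm ⊆ V`, `x ∈ ins Jm`, `Jm ∪ ins Jm ⊆ ball x ε`. Let `ρ > 0` with `{u | infDist u Jm ≤ ρ} ⊆ ball x ε` (compactness of `Jm`) and `2 ρ < infDist x Jm`, `N = ins Jm ∩ ball x ρ`. `η`: for every `p ∈ Jm` let `W1 p` be from `Pln.loc` for `ball p ρ`; let `η` be a Lebesgue number of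
the cover of the compact set `Jm` by the `W1 p`: for `q ∈ Jm`, `ball q η ⊆ W1 p` for some `p`; an scc of diameter `< η` that meets `Jm` in `q` is in `W1 p`, so its cell is in `ball p ρ`. Let `C` be given. If `C ∪ ins C` is disjoint from `N`: leaf. Otherwise `ins C` meets `N` (`C ∪ ins C = closure (ins C)`, `N` open). If `C` meets
`N`: S_LMB. (In general:) S_LMX gives a cross-cut `P` from `a` to `b` that meets `N`; S_SCB (v) gives `A1, A2`; S_THE; both `A1 ∪ P` and `A2 ∪ P` meet `N`; apply S_LMB to them and use `Div.node`, `Div.imp` (the cells of `A1 ∪ P` are in `C ∪ ins C`). -/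
def S_LMS : Prop := ∀ (Y : Type) [MetricSpace Y] (U V : Set Y), Pln U V → ∀ x ∈ V, ∀ ε : ℝ,
  0 < ε → ∃ N : Set Y, IsOpen N ∧ x ∈ N ∧ ∀ C : Set Y, Scc C → C ⊆ V →
    Div (fun C' => Scc C' ∧ C' ∪ ins C' ⊆ C ∪ ins C ∧
      (C' ∪ ins C' ⊆ ball x ε ∨ Disjoint (C' ∪ ins C') N)) C

def M_LMS : Prop := S_SCB → S_THE → S_LMX → S_LMB → S_LMS

/-- a system of cells -/
structure Cel {Y : Type} [MetricSpace Y] (S : Set (Set Y)) : Prop where
  scc : ∀ C ∈ S, Scc C
  cpt : ∀ C ∈ S, IsCompact (C ∪ ins C)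
  dsj : ∀ C ∈ S, Disjoint (ins C) C
  cross : ∀ C ∈ S, ∀ a ∈ C, ∀ b ∈ C, a ≠ b → ∃ P : Set Y, Arc P a b ∧ P \ {a, b} ⊆ ins C
  split : ∀ C ∈ S, ∀ (A1 A2 P : Set Y) (a b : Y), Arc A1 a b → Arc A2 a b → A1 ∪ A2 = C →
    A1 ∩ A2 = {a, b} → Arc P a b → P \ {a, b} ⊆ ins C → A1 ∪ P ∈ S ∧ A2 ∪ P ∈ S ∧
    ((A1 ∪ P) ∪ ins (A1 ∪ P)) ∪ ((A2 ∪ P) ∪ ins (A2 ∪ P)) = C ∪ ins C ∧
    ((A1 ∪ P) ∪ ins (A1 ∪ P)) ∩ ((A2 ∪ P) ∪ ins (A2 ∪ P)) = P
  div : ∀ C ∈ S, ∀ ε : ℝ, 0 < ε →
    Div (fun C' => C' ∈ S ∧ ∀ u ∈ C' ∪ ins C', ∀ v ∈ C' ∪ ins C', dist u v < ε) C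

/-- CEL. `scc`, `cpt`, `dsj`: `Pln`; `cross`: S_XCT; `split`: S_THE (`P ⊆ C ∪ ins C ⊆ V` by `Pln.insV`). `div`: the compact set `C ∪ ins C ⊆ V` is covered by finitely many of the sets `N x` of S_LMS for `x ∈ C ∪ ins C` and `ε / 2`, say `N (x 1), …, N (x m)`. By induction on `m` with `Div.bind`: `C` can be divided in scc's `C'` in
`C ∪ ins C` (so in `V`) such that for `i = 1, …, m`: `C' ∪ ins C' ⊆ ball (x i) (ε / 2)` or `C' ∪ ins C'` is disjoint from `N (x i)` (both properties are inherited by subsets). As `C' ∪ ins C'` is nonempty and covered by the `N (x i)`, it is contained in some `ball (x i) (ε / 2)`. -/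
def S_CEL : Prop := ∀ (Y : Type) [MetricSpace Y] (U V : Set Y), Pln U V →
  Cel {C : Set Y | Scc C ∧ C ⊆ V}

def M_CEL : Prop := S_XCT → S_THE → S_LMS → S_CEL

end BBP


end

section

/-!
# BBP, ACP: all points of a simple closed curve are accessible from the inside
-/

set_option autoImplicit false

namespace BBP

open Set Topology Metric
open Pool.Agent.LIX (CLog)

namespace ACP

/-- infinitely many paths with shrinking distance to `x` form an access path -/
theorem build {Y : Type} [MetricSpace Y] (S : Set Y) (x : Y) (y : ℕ → Y)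
    (h : ∀ n : ℕ, JoinedIn (ball x (1 / ((n : ℝ) + 1)) ∩ S) (y n) (y (n + 1))) : Accs S x := by
  classical
  -- the path on `[0, ∞)`
  obtain ⟨p, hp⟩ : ∃ p : ∀ n : ℕ, Path (y n) (y (n + 1)),
      ∀ (n : ℕ) (t : unitInterval), p n t ∈ ball x (1 / ((n : ℝ) + 1)) ∩ S :=
    ⟨fun n => (h n).somePath, fun n t => (h n).somePath_mem t⟩
  have hpe : ∀ (n : ℕ) (t : ℝ), (p n).extend t ∈ ball x (1 / ((n : ℝ) + 1)) ∩ S :=
    fun n t => hp n _
  obtain ⟨γ, hγ⟩ : ∃ γ : ℝ → Y, ∀ s : ℝ, γ s = (p ⌊s⌋₊).extend (s - ⌊s⌋₊) := ⟨_, fun _ => rfl⟩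
  have hγn : ∀ (n : ℕ) (s : ℝ), s ∈ Icc (n : ℝ) ((n : ℝ) + 1) → γ s = (p n).extend (s - n) := by
    intro n s hs
    rcases lt_or_eq_of_le hs.2 with h1 | h1
    · have h2 : ⌊s⌋₊ = n := (Nat.floor_eq_iff (le_trans (Nat.cast_nonneg n) hs.1)).2 ⟨hs.1, h1⟩
      rw [hγ, h2]
    · have h2 : ⌊s⌋₊ = n + 1 := by
        rw [h1]
        exact_mod_cast Nat.floor_natCast (R := ℝ) (n + 1)
      rw [hγ, h2, h1]
      have h3 : (n : ℝ) + 1 - ((n + 1 : ℕ) : ℝ) = 0 := by
        push_cast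
        ring
      have h4 : (n : ℝ) + 1 - n = 1 := by ring
      rw [h3, h4, Path.extend_zero, Path.extend_one]
  have hcont : ∀ N : ℕ, ContinuousOn γ (Icc 0 (N : ℝ)) := by
    intro N
    induction N with
    | zero =>
      rw [Nat.cast_zero, Icc_self]
      exact continuousOn_singleton _ _
    | succ N ih =>
      have h1 : Icc (0 : ℝ) ((N + 1 : ℕ) : ℝ) = Icc 0 (N : ℝ) ∪ Icc (N : ℝ) ((N : ℝ) + 1) := by
        rw [Icc_union_Icc_eq_Icc (Nat.cast_nonneg N) (by linarith)]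
        push_cast
        rfl
      rw [h1]
      refine ContinuousOn.union_of_isClosed ih ?_ isClosed_Icc isClosed_Icc
      have h2 : ContinuousOn (fun s : ℝ => (p N).extend (s - N)) (Icc (N : ℝ) ((N : ℝ) + 1)) :=
        ((p N).continuous_extend.comp (continuous_id.sub continuous_const)).continuousOn
      exact h2.congr fun s hs => hγn N s hs
  have hball : ∀ (n : ℕ) (s : ℝ), (n : ℝ) ≤ s → γ s ∈ ball x (1 / ((n : ℝ) + 1)) := by
    intro n s hs
    rw [hγ]
    have h1 : n ≤ ⌊s⌋₊ := Nat.le_floor hs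
    have h2 : (n : ℝ) ≤ (⌊s⌋₊ : ℝ) := by exact_mod_cast h1
    refine ball_subset_ball ?_ (hpe ⌊s⌋₊ _).1
    exact one_div_le_one_div_of_le (by positivity) (by linarith)
  have hS : ∀ s : ℝ, γ s ∈ S := by
    intro s
    rw [hγ]
    exact (hpe _ _).2
  -- reparametrisation
  refine ⟨fun t => if t < 1 then γ (t / (1 - t)) else x, ?_, ?_, ?_⟩
  · intro t ht
    rcases lt_or_eq_of_le ht.2 with h1 | h1
    · obtain ⟨N, hN⟩ := exists_nat_gt (t / (1 - t))
      have hφ : ContinuousAt (fun u : ℝ => u / (1 - u)) t :=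
        continuousAt_id.div (continuousAt_const.sub continuousAt_id) (by
          show (1 : ℝ) - t ≠ 0
          linarith)
      have hA1 : ∀ᶠ u : ℝ in 𝓝 t, u < 1 := Iio_mem_nhds h1
      have hA2 : ∀ᶠ u : ℝ in 𝓝 t, u / (1 - u) < N := hφ.eventually (Iio_mem_nhds hN)
      have hA : {u : ℝ | u < 1 ∧ u / (1 - u) < N} ∩ Icc 0 1 ∈ 𝓝[Icc 0 1] t := by
        refine Filter.inter_mem ?_ self_mem_nhdsWithin
        exact mem_nhdsWithin_of_mem_nhds (hA1.and hA2)
      refine ContinuousWithinAt.mono_of_mem_nhdsWithin ?_ hA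
      have hm : MapsTo (fun u : ℝ => u / (1 - u)) ({u : ℝ | u < 1 ∧ u / (1 - u) < N} ∩ Icc 0 1)
          (Icc 0 (N : ℝ)) := by
        rintro u ⟨⟨hu1, hu2⟩, hu3⟩
        exact ⟨div_nonneg hu3.1 (by linarith), hu2.le⟩
      have h2 : ContinuousWithinAt (fun u : ℝ => γ (u / (1 - u)))
          ({u : ℝ | u < 1 ∧ u / (1 - u) < N} ∩ Icc 0 1) t := by
        refine ContinuousWithinAt.comp (t := Icc 0 (N : ℝ)) (g := γ)
          (f := fun u : ℝ => u / (1 - u)) ?_ hφ.continuousWithinAt hm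
        exact hcont N _ ⟨div_nonneg ht.1 (by linarith), hN.le⟩
      refine h2.congr ?_ (if_pos h1)
      rintro u ⟨⟨hu1, -⟩, -⟩
      exact if_pos hu1
    · subst h1
      rw [Metric.continuousWithinAt_iff]
      intro ε hε
      obtain ⟨n, hn⟩ := exists_nat_one_div_lt hε
      refine ⟨1 / ((n : ℝ) + 1), by positivity, ?_⟩
      intro u hu hd
      show dist (if u < 1 then γ (u / (1 - u)) else x) (if (1 : ℝ) < 1 then _ else x) < ε
      rw [if_neg (lt_irrefl _)]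
      by_cases h2 : u < 1
      · rw [if_pos h2]
        have h3 : 1 - u < 1 / ((n : ℝ) + 1) := by
          rw [Real.dist_eq, abs_sub_comm, abs_of_nonneg (by linarith)] at hd
          exact hd
        have h4 : (n : ℝ) ≤ u / (1 - u) := by
          rw [le_div_iff₀ (by linarith)]
          rw [lt_div_iff₀ (by positivity)] at h3
          nlinarith
        exact lt_trans (hball n _ h4) hn
      · rw [if_neg h2, dist_self]
        exact hε
  · exact if_neg (lt_irrefl _)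
  · intro t ht
    show (if t < 1 then γ (t / (1 - t)) else x) ∈ S
    rw [if_pos ht.2]
    exact hS _

end ACP

open ACP in
theorem t_ACP : M_ACP := by
  intro hULC Y _ U V hP C hC hCV x hx
  have h1 : ∀ n : ℕ, ∃ W : Set Y, IsOpen W ∧ x ∈ W ∧ ∀ y ∈ W ∩ ins C, ∀ z ∈ W ∩ ins C,
      JoinedIn (ball x (1 / ((n : ℝ) + 1)) ∩ ins C) y z := by
    intro n
    obtain ⟨W, -, h2, h3, h4⟩ := hULC Y U V hP C hC hCV x hx (ball x (1 / ((n : ℝ) + 1)))
      isOpen_ball (mem_ball_self (by positivity))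
    exact ⟨W, h2, h3, h4⟩
  choose W hW1 hW2 hW3 using h1
  have hcl : x ∈ closure (ins C) := by
    rw [hP.clos C hC (hCV.trans hP.sub)]
    exact Or.inl hx
  have h2 : ∀ n : ℕ, ∃ y : Y, y ∈ W n ∩ W (n - 1) ∧ y ∈ ins C := by
    intro n
    obtain ⟨y, hy1, hy2⟩ := mem_closure_iff.1 hcl (W n ∩ W (n - 1)) ((hW1 n).inter (hW1 _))
      ⟨hW2 n, hW2 _⟩
    exact ⟨y, hy1, hy2⟩
  choose y hy1 hy2 using h2
  exact build (ins C) x y fun n => hW3 n (y n) ⟨(hy1 n).1, hy2 n⟩ (y (n + 1))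
    ⟨(hy1 (n + 1)).2, hy2 (n + 1)⟩

end BBP


end

section

/-!
# BBP: the system of cells
-/

set_option autoImplicit false

namespace BBP

open Set Topology Metric
open Pool.Agent.LIX (CLog)

namespace CEL

theorem sub {Y : Type} [MetricSpace Y] {U V : Set Y} (h : Pln U V) {C : Set Y} (hC : Scc C)
    (hCV : C ⊆ V) : C ∪ ins C ⊆ V :=
  union_subset hCV (h.insV C hC hCV)

theorem divs {Y : Type} [MetricSpace Y] {U V : Set Y} (h : Pln U V) (ε : ℝ) (N : Y → Set Y)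
    (hN : ∀ x ∈ V, ∀ C : Set Y, Scc C → C ⊆ V →
      Div (fun C' => Scc C' ∧ C' ∪ ins C' ⊆ C ∪ ins C ∧
        (C' ∪ ins C' ⊆ ball x ε ∨ Disjoint (C' ∪ ins C') (N x))) C)
    (C : Set Y) (hC : Scc C) (hCV : C ⊆ V) (t : Finset Y) :
    (∀ x ∈ t, x ∈ V) →
    Div (fun C' => Scc C' ∧ C' ∪ ins C' ⊆ C ∪ ins C ∧
      ∀ x ∈ t, (C' ∪ ins C' ⊆ ball x ε ∨ Disjoint (C' ∪ ins C') (N x))) C := by
  classical
  induction t using Finset.induction_on with
  | empty =>
    intro _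
    exact Div.leaf C ⟨hC, subset_rfl, fun x hx => absurd hx (Finset.notMem_empty x)⟩
  | insert x t _ ih =>
    intro ht
    refine (ih fun y hy => ht y (Finset.mem_insert_of_mem hy)).bind ?_
    rintro C' ⟨h1, h2, h3⟩
    have h4 : C' ⊆ V := (subset_union_left.trans h2).trans (sub h hC hCV)
    refine (hN x (ht x (Finset.mem_insert_self x t)) C' h1 h4).imp ?_
    rintro C2 ⟨k1, k2, k3⟩
    refine ⟨k1, k2.trans h2, fun y hy => ?_⟩
    rw [Finset.mem_insert] at hy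
    rcases hy with rfl | hy
    · exact k3
    · rcases h3 y hy with h5 | h5
      · exact Or.inl (k2.trans h5)
      · exact Or.inr (h5.mono_left k2)

theorem nonempty {Y : Type} [MetricSpace Y] {C : Set Y} (hC : Scc C) : C.Nonempty := by
  obtain ⟨γ, -, rfl⟩ := hC
  exact range_nonempty γ

end CEL

/-- The simple closed curves in `V` form a system of cells. -/
theorem t_CEL : M_CEL := by
  intro hXCT hTHE hLMS Y _ U V hP
  refine ⟨?_, ?_, ?_, ?_, ?_, ?_⟩
  · rintro C ⟨h1, -⟩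
    exact h1
  · rintro C ⟨h1, h2⟩
    exact hP.cpt C h1 (h2.trans hP.sub)
  · rintro C ⟨h1, h2⟩
    exact hP.disj C h1 (h2.trans hP.sub)
  · rintro C ⟨h1, h2⟩ a ha b hb hab
    exact hXCT Y U V hP C h1 h2 a ha b hb hab
  · rintro C ⟨h1, h2⟩ A1 A2 P a b hA1 hA2 hu hi hPa hPi
    obtain ⟨t1, t2, t3, -, -, -, -, -, t9, t10, -⟩ :=
      hTHE Y U V hP C A1 A2 P a b h1 (h2.trans hP.sub) hA1 hA2 hu hi hPa hPi
    have hPV : P ⊆ V := t3.trans (CEL.sub hP h1 h2)
    have hA1V : A1 ⊆ V := by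
      refine subset_trans ?_ h2
      rw [← hu]
      exact subset_union_left
    have hA2V : A2 ⊆ V := by
      refine subset_trans ?_ h2
      rw [← hu]
      exact subset_union_right
    exact ⟨⟨t1, union_subset hA1V hPV⟩, ⟨t2, union_subset hA2V hPV⟩, t9, t10⟩
  · rintro C ⟨h1, h2⟩ ε hε
    have hL : ∀ x : Y, x ∈ V → ∃ N : Set Y, IsOpen N ∧ x ∈ N ∧ ∀ C : Set Y, Scc C → C ⊆ V →
        Div (fun C' => Scc C' ∧ C' ∪ ins C' ⊆ C ∪ ins C ∧
          (C' ∪ ins C' ⊆ ball x (ε / 2) ∨ Disjoint (C' ∪ ins C') N)) C :=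
      fun x hx => hLMS Y U V hP x hx (ε / 2) (by linarith)
    choose! N hN1 hN2 hN3 using hL
    have hK : IsCompact (C ∪ ins C) := hP.cpt C h1 (h2.trans hP.sub)
    have hKV : C ∪ ins C ⊆ V := CEL.sub hP h1 h2
    obtain ⟨t, ht1, ht2⟩ := hK.elim_nhds_subcover N
      (fun x hx => (hN1 x (hKV hx)).mem_nhds (hN2 x (hKV hx)))
    refine (CEL.divs hP (ε / 2) N hN3 C h1 h2 t (fun x hx => hKV (ht1 x hx))).imp ?_
    rintro C' ⟨k1, k2, k3⟩
    refine ⟨⟨k1, (subset_union_left.trans k2).trans hKV⟩, ?_⟩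
    obtain ⟨w, hw⟩ := CEL.nonempty k1
    have hw2 := ht2 (k2 (Or.inl hw))
    rw [mem_iUnion₂] at hw2
    obtain ⟨x, hx, hwx⟩ := hw2
    rcases k3 x hx with h5 | h5
    · intro u hu v hv
      have a1 := mem_ball.1 (h5 hu)
      have a2 := mem_ball.1 (h5 hv)
      have a3 := dist_triangle_right u v x
      linarith
    · exact absurd hwx (Set.disjoint_left.1 h5 (Or.inl hw))

end BBP


end

section

/-!
# DVA: division along finitely many cross-cuts
-/

set_option autoImplicit false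

namespace BBP

open Set Topology Metric

namespace DVA

/-- one of the two halves -/
lemma half {Y : Type} [MetricSpace Y] {U V : Set Y} (hP : Pln U V) {ι : Type}
    (s s1 : Finset ι) (P : ι → Set Y) (a b : ι → Y) (C C1 : Set Y) (I2 : Set Y) (i : ι)
    (hC1 : Scc C1) (hC1U : C1 ⊆ U)
    (hCC : Disjoint (ins C) C) (h1 : ins C1 ⊆ ins C) (h2 : C1 ∪ ins C1 ⊆ C ∪ ins C)
    (h3 : Disjoint (ins C1) (P i)) (h4 : Disjoint (ins C1) I2)
    (hab : ∀ j ∈ s, a j ∈ C ∧ b j ∈ C)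
    (hs : ∀ j ∈ s, j = i ∨ j ∈ s1 ∨ P j \ {a j, b j} ⊆ I2)
    (hD : Div (fun C' => Scc C' ∧ C' ∪ ins C' ⊆ C1 ∪ ins C1 ∧
      ∀ j ∈ s1, Disjoint (ins C') (P j)) C1) :
    Div (fun C' => Scc C' ∧ C' ∪ ins C' ⊆ C ∪ ins C ∧ ∀ j ∈ s, Disjoint (ins C') (P j)) C1 := by
  refine hD.imp ?_
  rintro C' ⟨hC', hsub, hdis⟩
  have hins : ins C' ⊆ ins C1 :=
    hP.nst C' C1 hC' hC1 hC1U (subset_union_left.trans hsub)
  refine ⟨hC', hsub.trans h2, ?_⟩
  intro j hj
  rcases hs j hj with rfl | hj1 | hj2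
  · exact h3.mono_left hins
  · exact hdis j hj1
  · rw [Set.disjoint_left]
    intro y hy hyP
    have hyC : y ∉ C := fun h => Set.disjoint_left.1 hCC (h1 (hins hy)) h
    by_cases hyab : y ∈ ({a j, b j} : Set Y)
    · rcases hyab with h | h
      · exact hyC (h ▸ (hab j hj).1)
      · rw [mem_singleton_iff] at h
        exact hyC (h ▸ (hab j hj).2)
    · exact Set.disjoint_left.1 h4 (hins hy) (hj2 ⟨hyP, hyab⟩)

end DVA

open DVA in
theorem t_DVA : M_DVA := by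
  classical
  intro hARB hSCB hTHE Y _ U V hP ι s
  induction s using Finset.strongInduction with
  | H s ih =>
    intro P a b C hC hCV hs hdis
    rcases s.eq_empty_or_nonempty with rfl | ⟨i, hi⟩
    · exact Div.leaf C ⟨hC, subset_rfl, fun i hi => absurd hi (Finset.notMem_empty i)⟩
    obtain ⟨hPi, hai, hbi, hPins⟩ := hs i hi
    have hab := (hARB Y (P i) (a i) (b i) hPi).1
    have hCU : C ⊆ U := hCV.trans hP.sub
    obtain ⟨A1, A2, hA1, hA2, hA12, hA12'⟩ := (hSCB Y C hC).2.2.2.2.1 (a i) hai (b i) hbi hab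
    obtain ⟨hS1, hS2, hPC, hi1, hi2, hd1, hd2, hd12, hun, -, hcov⟩ :=
      hTHE Y U V hP C A1 A2 (P i) (a i) (b i) hC hCU hA1 hA2 hA12 hA12' hPi hPins
    have hCC := hP.disj C hC hCU
    have hclV : C ∪ ins C ⊆ V := union_subset hCV (hP.insV C hC hCV)
    have hA1C : A1 ⊆ C := by
      rw [← hA12]
      exact subset_union_left
    have hA2C : A2 ⊆ C := by
      rw [← hA12]
      exact subset_union_right
    have hC1V : A1 ∪ P i ⊆ V := union_subset (hA1C.trans hCV) (hPC.trans hclV)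
    have hC2V : A2 ∪ P i ⊆ V := union_subset (hA2C.trans hCV) (hPC.trans hclV)
    have hC1U := hC1V.trans hP.sub
    have hC2U := hC2V.trans hP.sub
    have hdich : ∀ j ∈ s, j ≠ i → P j \ {a j, b j} ⊆ ins (A1 ∪ P i) ∨
        P j \ {a j, b j} ⊆ ins (A2 ∪ P i) := by
      intro j hj hji
      have hconn := (hARB Y (P j) (a j) (b j) (hs j hj).1).2.2.2.2.2.2.2.2.1
      refine hconn.isPreconnected.subset_or_subset (hP.opn _ hS1 hC1U) (hP.opn _ hS2 hC2U)
        hd12 ?_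
      intro y hy
      rcases hcov ((hs j hj).2.2.2 hy) with h | h
      · exact h
      · exact absurd h (Set.disjoint_left.1 (hdis j hj i hi hji) hy)
    have hends : ∀ (j : ι) (C1 : Set Y), j ∈ s → Scc C1 → C1 ⊆ U → ins C1 ⊆ ins C →
        P j \ {a j, b j} ⊆ ins C1 → a j ∈ C1 ∧ b j ∈ C1 := by
      intro j C1 hj hS hU' hsub hPj
      obtain ⟨-, hajP, hbjP, -, -, -, -, -, -, hcl, -⟩ := hARB Y (P j) (a j) (b j) (hs j hj).1
      have h1 : P j ⊆ C1 ∪ ins C1 := by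
        rw [← hP.clos C1 hS hU']
        exact hcl.trans (closure_mono hPj)
      constructor
      · rcases h1 hajP with h | h
        · exact h
        · exact absurd (hs j hj).2.1 (Set.disjoint_left.1 hCC (hsub h))
      · rcases h1 hbjP with h | h
        · exact h
        · exact absurd (hs j hj).2.2.1 (Set.disjoint_left.1 hCC (hsub h))
    have habs : ∀ j ∈ s, a j ∈ C ∧ b j ∈ C := fun j hj => ⟨(hs j hj).2.1, (hs j hj).2.2.1⟩
    have hsub1 : (A1 ∪ P i) ∪ ins (A1 ∪ P i) ⊆ C ∪ ins C := by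
      rw [← hun]
      exact subset_union_left
    have hsub2 : (A2 ∪ P i) ∪ ins (A2 ∪ P i) ⊆ C ∪ ins C := by
      rw [← hun]
      exact subset_union_right
    refine Div.node C A1 A2 (P i) (a i) (b i) hA1 hA2 hA12 hA12' hPi hPins ?_ ?_
    · have hss : (s.filter fun j => j ≠ i ∧ P j \ {a j, b j} ⊆ ins (A1 ∪ P i)) ⊂ s := by
        refine Finset.filter_ssubset.2 ⟨i, hi, fun h => h.1 rfl⟩
      refine half hP s (s.filter fun j => j ≠ i ∧ P j \ {a j, b j} ⊆ ins (A1 ∪ P i)) P a b C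
        (A1 ∪ P i) (ins (A2 ∪ P i)) i hS1 hC1U hCC hi1 hsub1 hd1 hd12 habs ?_ ?_
      · intro j hj
        by_cases hji : j = i
        · exact Or.inl hji
        · rcases hdich j hj hji with h | h
          · exact Or.inr (Or.inl (Finset.mem_filter.2 ⟨hj, hji, h⟩))
          · exact Or.inr (Or.inr h)
      · refine ih _ hss P a b (A1 ∪ P i) hS1 hC1V ?_ ?_
        · intro j hj
          obtain ⟨hj1, -, hj3⟩ := Finset.mem_filter.1 hj
          obtain ⟨h1, h2⟩ := hends j _ hj1 hS1 hC1U hi1 hj3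
          exact ⟨(hs j hj1).1, h1, h2, hj3⟩
        · intro j hj k hk hjk
          exact hdis j (Finset.mem_filter.1 hj).1 k (Finset.mem_filter.1 hk).1 hjk
    · have hss : (s.filter fun j => j ≠ i ∧ P j \ {a j, b j} ⊆ ins (A2 ∪ P i)) ⊂ s := by
        refine Finset.filter_ssubset.2 ⟨i, hi, fun h => h.1 rfl⟩
      refine half hP s (s.filter fun j => j ≠ i ∧ P j \ {a j, b j} ⊆ ins (A2 ∪ P i)) P a b C
        (A2 ∪ P i) (ins (A1 ∪ P i)) i hS2 hC2U hCC hi2 hsub2 hd2 hd12.symm habs ?_ ?_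
      · intro j hj
        by_cases hji : j = i
        · exact Or.inl hji
        · rcases hdich j hj hji with h | h
          · exact Or.inr (Or.inr h)
          · exact Or.inr (Or.inl (Finset.mem_filter.2 ⟨hj, hji, h⟩))
      · refine ih _ hss P a b (A2 ∪ P i) hS2 hC2V ?_ ?_
        · intro j hj
          obtain ⟨hj1, -, hj3⟩ := Finset.mem_filter.1 hj
          obtain ⟨h1, h2⟩ := hends j _ hj1 hS2 hC2U hi2 hj3
          exact ⟨(hs j hj1).1, h1, h2, hj3⟩
        · intro j hj k hk hjk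
          exact hdis j (Finset.mem_filter.1 hj).1 k (Finset.mem_filter.1 hk).1 hjk

end BBP


end

section

/-!
# BBP, LMA: the core of the subdivision lemma
-/

set_option autoImplicit false

namespace BBP

open Set Topology Metric
open Pool.Agent.LIX (CLog)

namespace LMA

/-- the long complementary intervals -/
def LL {Y : Type} [TopologicalSpace Y] (C : Set Y) (β : ℝ → Y) (δ : ℝ) : Set (ℝ × ℝ) :=
  {p | 0 ≤ p.1 ∧ p.2 ≤ 1 ∧ δ ≤ p.2 - p.1 ∧ β p.1 ∈ C ∧ β p.2 ∈ C ∧ ∀ r ∈ Ioo p.1 p.2, β r ∉ C}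

theorem isCompact_LL {Y : Type} [TopologicalSpace Y] {C : Set Y} {β : ℝ → Y} {δ : ℝ}
    (hC : IsClosed C) (hβ : Continuous β) (hδ : 0 < δ) : IsCompact (LL C β δ) := by
  have hcl : IsClosed (LL C β δ) := by
    have e : LL C β δ = {p : ℝ × ℝ | 0 ≤ p.1} ∩ {p | p.2 ≤ 1} ∩ {p | δ ≤ p.2 - p.1} ∩
        {p | β p.1 ∈ C} ∩ {p | β p.2 ∈ C} ∩ (⋃ r ∈ {r : ℝ | β r ∈ C},
          {p : ℝ × ℝ | p.1 < r ∧ r < p.2})ᶜ := by
      ext p
      simp only [LL, mem_ofPred_eq, mem_inter_iff, mem_compl_iff, mem_iUnion, exists_prop,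
        not_exists, not_and, mem_Ioo]
      constructor
      · rintro ⟨h1, h2, h3, h4, h5, h6⟩
        exact ⟨⟨⟨⟨⟨h1, h2⟩, h3⟩, h4⟩, h5⟩, fun r hr h7 h8 => h6 r ⟨h7, h8⟩ hr⟩
      · rintro ⟨⟨⟨⟨⟨h1, h2⟩, h3⟩, h4⟩, h5⟩, h6⟩
        exact ⟨h1, h2, h3, h4, h5, fun r hr hc => h6 r hc hr.1 hr.2⟩
    rw [e]
    refine ((((((isClosed_le continuous_const continuous_fst).inter
      (isClosed_le continuous_snd continuous_const)).inter
      (isClosed_le continuous_const (continuous_snd.sub continuous_fst))).inter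
      (hC.preimage (hβ.comp continuous_fst))).inter
      (hC.preimage (hβ.comp continuous_snd))).inter ?_)
    rw [isClosed_compl_iff]
    refine isOpen_biUnion fun r _ => ?_
    exact (isOpen_lt continuous_fst continuous_const).inter
      (isOpen_lt continuous_const continuous_snd)
  refine (isCompact_Icc.prod isCompact_Icc : IsCompact (Icc (0 : ℝ) 1 ×ˢ Icc (0 : ℝ) 1)).of_isClosed_subset hcl ?_
  rintro p ⟨h1, h2, h3, -, -, -⟩
  exact ⟨⟨h1, by linarith⟩, ⟨by linarith, h2⟩⟩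

/-- the points in the long intervals -/
def KK {Y : Type} [TopologicalSpace Y] (C : Set Y) (β : ℝ → Y) (δ : ℝ) : Set ℝ :=
  {r | ∃ p ∈ LL C β δ, p.1 ≤ r ∧ r ≤ p.2}

theorem isCompact_KK {Y : Type} [TopologicalSpace Y] {C : Set Y} {β : ℝ → Y} {δ : ℝ}
    (hC : IsClosed C) (hβ : Continuous β) (hδ : 0 < δ) : IsCompact (KK C β δ) := by
  have e : KK C β δ = (fun q : (ℝ × ℝ) × ℝ => q.1.1 + q.2 * (q.1.2 - q.1.1)) ''
      (LL C β δ ×ˢ Icc 0 1) := by
    ext r
    constructor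
    · rintro ⟨p, hp, h1, h2⟩
      have h3 : 0 < p.2 - p.1 := hδ.trans_le hp.2.2.1
      refine ⟨(p, (r - p.1) / (p.2 - p.1)), ⟨hp, ?_, ?_⟩, ?_⟩
      · exact div_nonneg (by linarith) h3.le
      · rw [div_le_one h3]
        linarith
      · change p.1 + (r - p.1) / (p.2 - p.1) * (p.2 - p.1) = r
        rw [div_mul_cancel₀ _ h3.ne']
        ring
    · rintro ⟨⟨p, u⟩, ⟨hp, hu0, hu1⟩, rfl⟩
      have h3 : 0 < p.2 - p.1 := hδ.trans_le hp.2.2.1
      change 0 ≤ u at hu0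
      change u ≤ 1 at hu1
      refine ⟨p, hp, ?_, ?_⟩
      · change p.1 ≤ p.1 + u * (p.2 - p.1)
        nlinarith
      · change p.1 + u * (p.2 - p.1) ≤ p.2
        nlinarith
  rw [e]
  refine ((isCompact_LL hC hβ hδ).prod isCompact_Icc).image ?_
  exact (continuous_fst.comp continuous_fst).add
    (continuous_snd.mul ((continuous_snd.comp continuous_fst).sub
      (continuous_fst.comp continuous_fst)))

end LMA

theorem t_LMA : M_LMA := by
  intro hARB hSCA hGLU hDEG hTRI hINC Y _ U V hP C Jm D β η δ hC hCV hβ hβJ hJV hβ0 _ hδ hδ1 hD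
    hβδ hCarc y z A hA hAC hyD hzD hyJ hzJ hzJm hlong
  have hJ : Scc Jm := ⟨β, hβ, hβJ⟩
  have hJU : Jm ⊆ U := hJV.trans hP.sub
  have hCU : C ⊆ U := hCV.trans hP.sub
  have hyJm : y ∉ Jm := fun h => Set.disjoint_left.mp (hP.disj Jm hJ hJU) hyJ h
  have hyz : y ≠ z := by
    rintro rfl
    exact hzJ hyJ
  have hAV : A ⊆ V := hAC.trans (hP.insV C hC hCV)
  have hyA : y ∈ A := (hARB Y A y z hA).2.1
  have hzA : z ∈ A := (hARB Y A y z hA).2.2.1
  have hACd : Disjoint A C := Set.disjoint_left.mpr fun u hu hu' =>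
    Set.disjoint_left.mp (hP.disj C hC hCU) (hAC hu) hu'
  obtain ⟨f, hfc, hf0, hfA, hfC⟩ := hP.dip y (hAV hyA) z (hAV hzA) hyz
  obtain ⟨l, hlc, hl⟩ := hfA A hA hAV
  have hCcl : IsClosed C := by
    obtain ⟨γ, hγ, hγC⟩ := hC
    have h1 := ((hSCA Y γ hγ).1 0).2
    rw [hγC] at h1
    rw [← h1]
    exact (isCompact_Icc.image hγ.1).isClosed
  have hηpos : 0 < η := by
    have := hβδ 0 0 (by rw [sub_self, abs_zero]; exact hδ)
    rw [dist_self] at this
    linarith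
  have hβ1 : β 1 = β 0 := by
    have := hβ.2.1 0
    rwa [zero_add] at this
  have hinj : ∀ s t : ℝ, 0 ≤ s → s < 1 → 0 ≤ t → t < 1 → β s = β t → s = t := by
    intro s t h1 h2 h3 h4 h5
    exact hβ.2.2 ⟨h1, h2⟩ ⟨h3, h4⟩ h5
  have hβJm : ∀ t, β t ∈ Jm := fun t => by
    rw [← hβJ]
    exact mem_range_self t
  have hJyz : Jm ⊆ V \ {y, z} := by
    intro u hu
    refine ⟨hJV hu, ?_⟩
    rintro (rfl | rfl)
    · exact hyJm hu
    · exact hzJm hu
  -- the logarithm along the curve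
  obtain ⟨θ, hθc, hθ⟩ : ∃ θ : ℝ → ℂ, ContinuousOn θ (Icc 0 1) ∧
      ∀ t ∈ Icc (0 : ℝ) 1, Complex.exp (θ t) = f (β t) := by
    have h1 : ContinuousOn (fun t => f (β t)) (Icc (0 : ℝ) 1) :=
      (hfc.mono hJyz).comp hβ.1.continuousOn fun t _ => hβJm t
    exact Pool.Agent.LIX.cLog_convex isCompact_Icc (convex_Icc (0 : ℝ) 1) h1
      fun t _ => hf0 _ (hJyz (hβJm t))
  set T : Set Y := C ∪ β '' LMA.KK C β δ with hT
  have hTcl : IsClosed T :=
    hCcl.union ((LMA.isCompact_KK hCcl hβ.1 hδ).image hβ.1).isClosed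
  have hTA : T ⊆ V \ A := by
    rintro u (hu | ⟨r, ⟨p, hp, h1, h2⟩, rfl⟩)
    · exact ⟨hCV hu, fun h => Set.disjoint_left.mp hACd h hu⟩
    · refine ⟨hJV (hβJm r), fun h => ?_⟩
      have h3 := hlong p.1 p.2 hp.1 (by linarith [hp.2.2.1]) hp.2.1 hp.2.2.1 hp.2.2.2.1
        hp.2.2.2.2.1 hp.2.2.2.2.2
      exact Set.disjoint_left.mp h3 h ⟨r, ⟨h1, h2⟩, rfl⟩
  have hkey : θ 1 - θ 0 = l (β 1) - l (β 0) := by
    refine hTRI Y T β l θ hTcl hβ.1.continuousOn (hlc.mono hTA) hθc ?_ (Or.inl hβ0)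
      (Or.inl (by rw [hβ1]; exact hβ0)) ?_
    · intro t ht htT
      rw [hθ t ht, hl _ (hTA htT)]
    · intro s t hs hst ht hsT htT hr
      have hs1 : s < 1 := hst.trans_le ht
      have ht0 : 0 < t := hs.trans_lt hst
      have hsC : β s ∈ C := by
        rcases hsT with h | ⟨r', ⟨p, hp, h1, h2⟩, h3⟩
        · exact h
        by_contra hns
        have e1 : p.1 ≠ r' := by
          rintro rfl
          rw [← h3] at hns
          exact hns hp.2.2.2.1
        have e2 : r' ≠ p.2 := by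
          intro h
          rw [h] at h3
          rw [← h3] at hns
          exact hns hp.2.2.2.2.1
        have f1 : p.1 < r' := lt_of_le_of_ne h1 e1
        have f2 : r' < p.2 := lt_of_le_of_ne h2 e2
        have g1 := hp.1
        have g2 := hp.2.1
        have hsr : r' = s := hinj r' s (by linarith) (by linarith) hs hs1 h3
        subst hsr
        obtain ⟨r, hr1, hr2⟩ := exists_between (lt_min hst f2)
        rw [lt_min_iff] at hr2
        exact hr r ⟨hr1, hr2.1⟩ (Or.inr ⟨r, ⟨p, hp, by linarith, hr2.2.le⟩, rfl⟩)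
      have htC : β t ∈ C := by
        rcases htT with h | ⟨r', ⟨p, hp, h1, h2⟩, h3⟩
        · exact h
        by_contra hns
        have e1 : p.1 ≠ r' := by
          rintro rfl
          rw [← h3] at hns
          exact hns hp.2.2.2.1
        have e2 : r' ≠ p.2 := by
          intro h
          rw [h] at h3
          rw [← h3] at hns
          exact hns hp.2.2.2.2.1
        have f1 : p.1 < r' := lt_of_le_of_ne h1 e1
        have f2 : r' < p.2 := lt_of_le_of_ne h2 e2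
        have g1 := hp.1
        have g2 := hp.2.1
        have ht1 : t < 1 := by
          refine lt_of_le_of_ne ht fun h => hns ?_
          rw [h, hβ1]
          exact hβ0
        have hsr : r' = t := hinj r' t (by linarith) (by linarith) ht0.le ht1 h3
        subst hsr
        obtain ⟨r, hr1, hr2⟩ := exists_between (max_lt hst f1)
        rw [max_lt_iff] at hr1
        exact hr r ⟨hr1.1, hr2⟩ (Or.inr ⟨r, ⟨p, hp, hr1.2.le, by linarith⟩, rfl⟩)
      have hδst : t - s < δ := by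
        by_contra h
        push Not at h
        have hp : (s, t) ∈ LMA.LL C β δ :=
          ⟨hs, ht, h, hsC, htC, fun r hr' hc => hr r hr' (Or.inl hc)⟩
        obtain ⟨r, hr1, hr2⟩ := exists_between hst
        exact hr r ⟨hr1, hr2⟩ (Or.inr ⟨r, ⟨(s, t), hp, hr1.le, hr2.le⟩, rfl⟩)
      have hne : β s ≠ β t := by
        intro h
        rcases lt_or_eq_of_le ht with h1 | h1
        · exact hst.ne (hinj s t hs hs1 ht0.le h1 h)
        · rw [h1, hβ1] at h
          have := hinj s 0 hs hs1 le_rfl zero_lt_one h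
          linarith
      have habs : |s - t| < δ := by
        rw [abs_sub_comm, abs_of_pos (by linarith)]
        exact hδst
      obtain ⟨B, hBC, hB, hBd⟩ := hCarc s t habs hsC htC hne
      obtain ⟨-, hsB, htB, -, -, hBconn, -⟩ := hARB Y B _ _ hB
      have hE : Arc (β '' Icc s t) (β s) (β t) := ((hSCA Y β hβ).2 s t hst (by linarith)).1
      have hEB : β '' Icc s t ∩ B = {β s, β t} := by
        ext u
        constructor
        · rintro ⟨⟨r, hr', rfl⟩, hu⟩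
          by_cases h1 : r = s
          · exact Or.inl (by rw [h1])
          by_cases h2 : r = t
          · exact Or.inr (by rw [h2]; rfl)
          exact absurd (Or.inl (hBC hu)) (hr r ⟨lt_of_le_of_ne hr'.1 (Ne.symm h1),
            lt_of_le_of_ne hr'.2 h2⟩)
        · rintro (rfl | rfl)
          · exact ⟨⟨s, ⟨le_rfl, hst.le⟩, rfl⟩, hsB⟩
          · exact ⟨⟨t, ⟨hst.le, le_rfl⟩, rfl⟩, htB⟩
      have hSg : Scc (β '' Icc s t ∪ B) := (hGLU.1 Y _ B _ _ hE hB hEB).1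
      have hSgV : β '' Icc s t ∪ B ⊆ V := by
        rintro u (⟨r, -, rfl⟩ | hu)
        · exact hJV (hβJm r)
        · exact hCV (hBC hu)
      have hEd : ∀ u ∈ β '' Icc s t, ∀ v ∈ β '' Icc s t, dist u v < η / 4 := by
        rintro _ ⟨r, hr1, rfl⟩ _ ⟨r', hr2, rfl⟩
        refine hβδ r r' ?_
        rw [abs_lt]
        constructor <;> linarith [hr1.1, hr1.2, hr2.1, hr2.2]
      have hsE : β s ∈ β '' Icc s t := ⟨s, ⟨le_rfl, hst.le⟩, rfl⟩
      have hSgd : ∀ u ∈ β '' Icc s t ∪ B, ∀ v ∈ β '' Icc s t ∪ B, dist u v < η := by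
        have hm : ∀ u ∈ β '' Icc s t ∪ B, dist u (β s) < η / 4 := by
          rintro u (hu | hu)
          · exact hEd u hu _ hsE
          · exact hBd u hu _ hsB
        intro u hu v hv
        have h1 := hm u hu
        have h2 := hm v hv
        have h3 := dist_triangle u (β s) v
        rw [dist_comm (β s) v] at h3
        linarith
      have hSgD := hD _ hSg hSgV ⟨β s, Or.inl hsE, hβJm s⟩ hSgd
      have hSgyz : β '' Icc s t ∪ B ⊆ V \ {y, z} := by
        intro u hu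
        refine ⟨hSgV hu, ?_⟩
        rintro (rfl | rfl)
        · exact hyD (hSgD (Or.inl hu))
        · exact hzD (hSgD (Or.inl hu))
      have hlog : CLog (β '' Icc s t ∪ B) f := by
        rw [hfC _ hSg hSgyz]
        exact iff_of_false (fun h => hyD (hSgD (Or.inr h))) (fun h => hzD (hSgD (Or.inr h)))
      have hBA : B ⊆ V \ A := fun u hu => hTA (Or.inl (hBC hu))
      refine hINC Y (β '' Icc s t ∪ B) B f l β θ s t hst.le hβ.1.continuousOn
        (hθc.mono (Icc_subset_Icc hs ht)) (fun r hr' => hθ r ⟨hs.trans hr'.1, hr'.2.trans ht⟩)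
        (hlc.mono hBA) (fun u hu => hl u (hBA hu)) hBconn.isPreconnected hsB htB hlog
        subset_union_left subset_union_right
  rw [hβ1, sub_self, sub_eq_zero] at hkey
  have hlogJ : CLog Jm f := ((hDEG Y Jm hJ).2.2 β f hβ hβJ (hfc.mono hJyz)
    (fun u hu => hf0 u (hJyz hu)) θ hθc hθ).mpr hkey
  exact hzJ (((hfC Jm hJ hJyz).mp hlogJ).mp hyJ)

end BBP


end

section

/-!
# BBP, LMB: cells with a point of the boundary in `N`
-/

set_option autoImplicit false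

namespace BBP

open Set Topology Metric
open Pool.Agent.LIX (CLog)

namespace LMB

variable {Y : Type} [MetricSpace Y]

/-- Uniform continuity of the parametrisation. -/
theorem unif {β : ℝ → Y} (hβ : Scp β) {ε : ℝ} (hε : 0 < ε) :
    ∃ δ : ℝ, 0 < δ ∧ δ ≤ 1 ∧ ∀ s t : ℝ, |s - t| < δ → dist (β s) (β t) < ε := by
  have huc : UniformContinuousOn β (Icc (-1) 2) :=
    isCompact_Icc.uniformContinuousOn_of_continuous hβ.1.continuousOn
  obtain ⟨δ, hδ, h⟩ := Metric.uniformContinuousOn_iff.1 huc ε hε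
  refine ⟨min δ 1, lt_min hδ one_pos, min_le_right _ _, fun s t hst => ?_⟩
  have h1 : |s - t| < δ := lt_of_lt_of_le hst (min_le_left _ _)
  have h2 : |s - t| < 1 := lt_of_lt_of_le hst (min_le_right _ _)
  have e : ∀ r : ℝ, β (r - (⌊s⌋ : ℝ)) = β r := by
    intro r
    have := hβ.2.1.sub_int_mul_eq (x := r) ⌊s⌋
    rwa [mul_one] at this
  have hs1 := Int.floor_le s
  have hs2 := Int.lt_floor_add_one s
  have h3 := abs_lt.1 h2
  have h4 := h (s - ⌊s⌋) ⟨by linarith, by linarith⟩ (t - ⌊s⌋)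
    ⟨by linarith [h3.1, h3.2], by linarith [h3.1, h3.2]⟩
    (by rw [Real.dist_eq, sub_sub_sub_cancel_right]; exact h1)
  rwa [e, e] at h4

/-- A connected set disjoint from `C` which meets the inside of `C` is contained in it. -/
theorem sub_ins {U V C D : Set Y} (hP : Pln U V) (hC : Scc C) (hCU : C ⊆ U)
    (hD : IsPreconnected D) (hDC : Disjoint D C) (hm : (D ∩ ins C).Nonempty) : D ⊆ ins C := by
  have hcl : IsClosed (C ∪ ins C) := by
    rw [← hP.clos C hC hCU]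
    exact isClosed_closure
  refine hD.subset_left_of_subset_union (hP.opn C hC hCU) hcl.isOpen_compl ?_ ?_ hm
  · exact disjoint_left.2 fun x hx hx' => hx' (Or.inr hx)
  · intro x hx
    by_cases h : x ∈ ins C
    · exact Or.inl h
    · refine Or.inr fun h' => ?_
      rcases h' with h' | h'
      · exact disjoint_left.1 hDC hx h'
      · exact h h'

/-- The pairs of the long intervals. -/
def II (β : ℝ → Y) (C : Set Y) (δ : ℝ) : Set (ℝ × ℝ) :=
  {i | 0 ≤ i.1 ∧ i.1 < i.2 ∧ i.2 ≤ 1 ∧ δ ≤ i.2 - i.1 ∧ β i.1 ∈ C ∧ β i.2 ∈ C ∧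
    (∀ r ∈ Ioo i.1 i.2, β r ∉ C) ∧ ∀ r ∈ Ioo i.1 i.2, β r ∈ ins C}

/-- Overlapping intervals are equal. -/
theorem II_eq {β : ℝ → Y} {C : Set Y} {δ : ℝ} {i j : ℝ × ℝ} (hi : i ∈ II β C δ)
    (hj : j ∈ II β C δ) {r : ℝ} (hr : r ∈ Ioo i.1 i.2) (hr' : r ∈ Ioo j.1 j.2) : i = j := by
  obtain ⟨-, -, -, -, hi1, hi2, hi3, -⟩ := hi
  obtain ⟨-, -, -, -, hj1, hj2, hj3, -⟩ := hj
  have h1 : i.1 = j.1 := by
    rcases lt_trichotomy i.1 j.1 with h | h | h
    · exact absurd hj1 (hi3 _ ⟨h, hr'.1.trans hr.2⟩)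
    · exact h
    · exact absurd hi1 (hj3 _ ⟨h, hr.1.trans hr'.2⟩)
  have h2 : i.2 = j.2 := by
    rcases lt_trichotomy i.2 j.2 with h | h | h
    · exact absurd hi2 (hj3 _ ⟨hr'.1.trans hr.2, h⟩)
    · exact h
    · exact absurd hj2 (hi3 _ ⟨hr.1.trans hr'.2, h⟩)
  exact Prod.ext h1 h2

theorem II_finite {β : ℝ → Y} {C : Set Y} {δ : ℝ} (hδ : 0 < δ) : (II β C δ).Finite := by
  refine Set.Finite.of_finite_image (f := fun i : ℝ × ℝ => ⌊i.1 / δ⌋₊) ?_ ?_
  · refine (Set.finite_Iic ⌊1 / δ⌋₊).subset ?_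
    rintro _ ⟨i, hi, rfl⟩
    exact Nat.floor_mono ((div_le_div_iff_of_pos_right hδ).2 (hi.2.1.le.trans hi.2.2.1))
  · intro i hi j hj hij
    have key : ∀ i j : ℝ × ℝ, i ∈ II β C δ → j ∈ II β C δ → ⌊i.1 / δ⌋₊ = ⌊j.1 / δ⌋₊ →
        i.1 ≤ j.1 → j.1 < i.2 := by
      intro i j hi hj hij hle
      by_contra hcon
      rw [not_lt] at hcon
      have h1 : i.1 / δ + 1 ≤ j.1 / δ := by
        rw [div_add_one hδ.ne']
        exact (div_le_div_iff_of_pos_right hδ).2 (by linarith [hi.2.2.2.1])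
      have h2 := Nat.floor_mono h1
      rw [Nat.floor_add_one (div_nonneg hi.1 hδ.le)] at h2
      omega
    rcases le_total i.1 j.1 with h | h
    · have h1 := key i j hi hj hij h
      have h2 : max i.1 j.1 < min i.2 j.2 := by
        rw [max_eq_right h]
        exact lt_min h1 hj.2.1
      obtain ⟨r, hr1, hr2⟩ := exists_between h2
      exact II_eq hi hj ⟨(le_max_left _ _).trans_lt hr1, hr2.trans_le (min_le_left _ _)⟩
        ⟨(le_max_right _ _).trans_lt hr1, hr2.trans_le (min_le_right _ _)⟩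
    · have h1 := key j i hj hi hij.symm h
      have h2 : max i.1 j.1 < min i.2 j.2 := by
        rw [max_eq_left h]
        exact lt_min hi.2.1 h1
      obtain ⟨r, hr1, hr2⟩ := exists_between h2
      exact II_eq hi hj ⟨(le_max_left _ _).trans_lt hr1, hr2.trans_le (min_le_left _ _)⟩
        ⟨(le_max_right _ _).trans_lt hr1, hr2.trans_le (min_le_right _ _)⟩

end LMB

open LMB in
theorem t_LMB : M_LMB := by
  intro hPTA hARB hSCA hSCB hDVA hLMA Y _ U V hP Jm N x ε ρ η hJ hJV hJb hρ hη hρb hNo hNJ hNρ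
    hsm C hC hCV hCN
  have hCU : C ⊆ U := hCV.trans hP.sub
  have hJU : Jm ⊆ U := hJV.trans hP.sub
  by_cases hcase : C ∪ ins C ⊆ ball x ε
  · exact Div.leaf C ⟨hC, subset_rfl, Or.inl hcase⟩
  obtain ⟨-, hCc, hCd, -, -, hC6, -⟩ := hSCB Y C hC
  -- two points of `C` on `Jm`
  have hout : ∃ q ∈ C, q ∉ Jm ∪ ins Jm := by
    by_contra hcon
    push Not at hcon
    have h1 := hP.nst C Jm hC hJ hJU hcon
    refine hcase fun u hu => hJb ?_
    rcases hu with hu | hu
    · exact hcon u hu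
    · exact Or.inr (h1 hu)
  obtain ⟨q, hqC, hq⟩ := hout
  obtain ⟨p, hpC, hpN⟩ := hCN
  have hpJ : p ∈ ins Jm := hNJ hpN
  have hpnJ : p ∉ Jm := fun h => disjoint_left.1 (hP.disj Jm hJ hJU) hpJ h
  have hnd : ∀ D : Set Y, IsPreconnected D → p ∈ D → q ∈ D → ∃ c ∈ D, c ∈ Jm := by
    intro D hD hpD hqD
    by_contra hcon
    push Not at hcon
    have h1 := sub_ins hP hJ hJU hD (disjoint_left.2 hcon) ⟨p, hpD, hpJ⟩
    exact hq (Or.inr (h1 hqD))
  obtain ⟨c0, hc0C, hc0J⟩ := hnd C hCc.isPreconnected hpC hqC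
  have hpc0 : p ≠ c0 := fun h => hpnJ (h ▸ hc0J)
  have hqc0 : q ≠ c0 := fun h => hq (Or.inl (h ▸ hc0J))
  obtain ⟨c1, ⟨hc1C, hc10⟩, hc1J⟩ := hnd (C \ {c0}) (hCd c0 hc0C).isPreconnected ⟨hpC, hpc0⟩
    ⟨hqC, hqc0⟩
  -- the parametrisation
  obtain ⟨γ, hγ, hγr⟩ := hJ
  obtain ⟨t0, ht0⟩ : ∃ t0, γ t0 = c0 := by
    rw [← hγr] at hc0J
    exact hc0J
  obtain ⟨β, hβ, hβr, hβ0⟩ : ∃ β : ℝ → Y, Scp β ∧ range β = Jm ∧ β 0 = c0 := by
    refine ⟨fun t => γ (t + t0), ⟨hγ.1.comp (continuous_id.add continuous_const), ?_, ?_⟩, ?_,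
      by show γ (0 + t0) = c0; rw [zero_add, ht0]⟩
    · intro t
      show γ (t + 1 + t0) = γ (t + t0)
      rw [add_right_comm]
      exact hγ.2.1 _
    · intro s hs t ht hst
      have h0 := ((hSCA Y γ hγ).1 t0).1
      have h1 := h0 (show s + t0 ∈ Ico t0 (t0 + 1) from ⟨by linarith [hs.1], by linarith [hs.2]⟩)
        (show t + t0 ∈ Ico t0 (t0 + 1) from ⟨by linarith [ht.1], by linarith [ht.2]⟩) hst
      linarith
    · rw [← hγr]
      ext y
      constructor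
      · rintro ⟨t, rfl⟩
        exact ⟨t + t0, rfl⟩
      · rintro ⟨t, rfl⟩
        exact ⟨t - t0, by show γ (t - t0 + t0) = γ t; rw [sub_add_cancel]⟩
  have hJ : Scc Jm := ⟨γ, hγ, hγr⟩
  have hβ1 : β 1 = c0 := by
    have := hβ.2.1 0
    rw [zero_add] at this
    rw [this, hβ0]
  -- smallness
  obtain ⟨η1, hη1, hη1'⟩ := hC6 (η / 4) (by positivity)
  obtain ⟨δ, hδ, hδ1, hδu⟩ := unif hβ (lt_min hη1 (show (0 : ℝ) < η / 4 by positivity))
  -- no interval is everything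
  have hlt : ∀ i ∈ II β C δ, i.2 < i.1 + 1 := by
    intro i hi
    obtain ⟨h1, h2, h3, -, -, -, h7, -⟩ := hi
    by_contra hcon
    rw [not_lt] at hcon
    have e1 : i.1 = 0 := by linarith
    have e2 : i.2 = 1 := by linarith
    obtain ⟨r, hr, hrr⟩ : ∃ r ∈ Ico (0 : ℝ) (0 + 1), β r = c1 := by
      have h4 := ((hSCA Y β hβ).1 0).2
      have h5 : c1 ∈ β '' Icc 0 (0 + 1) := by
        rw [h4, hβr]
        exact hc1J
      obtain ⟨r, hr, hrr⟩ := h5
      rcases lt_or_eq_of_le hr.2 with h | h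
      · exact ⟨r, ⟨hr.1, h⟩, hrr⟩
      · refine absurd ?_ hc10
        rw [mem_singleton_iff, ← hrr, h, zero_add, hβ1]
    have hr0 : r ≠ 0 := by
      rintro rfl
      exact hc10 (by rw [mem_singleton_iff, ← hrr, hβ0])
    refine h7 r ⟨?_, ?_⟩ (by rw [hrr]; exact hc1C)
    · rw [e1]
      exact lt_of_le_of_ne hr.1 (Ne.symm hr0)
    · rw [e2]
      linarith [hr.2]
  have hdiff : ∀ i : ℝ × ℝ, β '' Icc i.1 i.2 \ {β i.1, β i.2} ⊆ β '' Ioo i.1 i.2 := by
    rintro i _ ⟨⟨r, hr, rfl⟩, hne⟩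
    refine ⟨r, ⟨lt_of_le_of_ne hr.1 ?_, lt_of_le_of_ne hr.2 ?_⟩, rfl⟩
    · rintro rfl
      exact hne (Or.inl rfl)
    · intro h
      exact hne (Or.inr (by rw [h]; rfl))
  have hfin : (II β C δ).Finite := II_finite hδ
  have hdv := hDVA Y U V hP (ℝ × ℝ) hfin.toFinset (fun i => β '' Icc i.1 i.2)
    (fun i => β i.1) (fun i => β i.2) C hC hCV ?_ ?_
  rotate_left
  · intro i hi
    have hi' : i ∈ II β C δ := hfin.mem_toFinset.1 hi
    refine ⟨((hSCA Y β hβ).2 i.1 i.2 hi'.2.1 (hlt i hi')).1, hi'.2.2.2.2.1, hi'.2.2.2.2.2.1, ?_⟩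
    intro u hu
    obtain ⟨r, hr, rfl⟩ := hdiff i hu
    exact hi'.2.2.2.2.2.2.2 r hr
  · intro i hi j hj hij
    have hi' : i ∈ II β C δ := hfin.mem_toFinset.1 hi
    have hj' : j ∈ II β C δ := hfin.mem_toFinset.1 hj
    rw [disjoint_left]
    intro u hu hu'
    obtain ⟨r, hr, rfl⟩ := hdiff i hu
    obtain ⟨r', hr', hrr⟩ := hu'
    have hrC := hi'.2.2.2.2.2.2.1 r hr
    have hr1 : r' ≠ 1 := by
      rintro rfl
      rw [hβ1] at hrr
      exact hrC (hrr ▸ hc0C)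
    have h5 : r' = r := by
      have hr'1 : r' < 1 := lt_of_le_of_ne (hr'.2.trans hj'.2.2.1) hr1
      exact hβ.2.2 ⟨hj'.1.trans hr'.1, hr'1⟩
        ⟨hi'.1.trans hr.1.le, hr.2.trans_le hi'.2.2.1⟩ hrr
    rw [h5] at hr'
    have h6 : r ≠ j.1 := by
      rintro h
      exact hrC (by rw [h]; exact hj'.2.2.2.2.1)
    have h7 : r ≠ j.2 := by
      rintro h
      exact hrC (by rw [h]; exact hj'.2.2.2.2.2.1)
    exact hij (II_eq hi' hj' hr ⟨lt_of_le_of_ne hr'.1 (Ne.symm h6), lt_of_le_of_ne hr'.2 h7⟩)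
  refine hdv.imp fun C' hC' => ⟨hC'.1, hC'.2.1, ?_⟩
  obtain ⟨hC'1, hC'2, hC'3⟩ := hC'
  by_contra hcon
  rw [not_or] at hcon
  obtain ⟨hcon1, hcon2⟩ := hcon
  have hVV : C ∪ ins C ⊆ V := union_subset hCV (hP.insV C hC hCV)
  have hC'V : C' ⊆ V := (subset_union_left.trans hC'2).trans hVV
  have hC'U : C' ⊆ U := hC'V.trans hP.sub
  have hcl := hP.clos C' hC'1 hC'U
  have hins : ins C' ⊆ ins C := hP.nst C' C hC'1 hC hCU (subset_union_left.trans hC'2)
  -- the point `y`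
  obtain ⟨y, hyN, hyC'⟩ : (N ∩ ins C').Nonempty := by
    rw [not_disjoint_iff] at hcon2
    obtain ⟨y0, h1, h2⟩ := hcon2
    rw [← hcl] at h1
    exact mem_closure_iff.1 h1 N hNo h2
  -- the point `z`
  have hJcl : IsClosed (Jm ∪ ins Jm) := by
    rw [← hP.clos Jm hJ hJU]
    exact isClosed_closure
  have hKcl : IsClosed ((Jm ∪ ins Jm) ∪ {u | infDist u Jm ≤ ρ}) :=
    hJcl.union (isClosed_le (continuous_infDist_pt Jm) continuous_const)
  obtain ⟨z, hzK, hzC'⟩ : ((((Jm ∪ ins Jm) ∪ {u | infDist u Jm ≤ ρ})ᶜ) ∩ ins C').Nonempty := by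
    rw [Set.not_subset] at hcon1
    obtain ⟨z0, h1, h2⟩ := hcon1
    rw [← hcl] at h1
    refine mem_closure_iff.1 h1 _ hKcl.isOpen_compl ?_
    intro h3
    rcases h3 with h3 | h3
    · exact h2 (hJb h3)
    · exact h2 (hρb h3)
  have hyJ : y ∈ ins Jm := hNJ hyN
  have hznJ : z ∉ ins Jm := fun h => hzK (Or.inl (Or.inr h))
  have hyz : y ≠ z := fun h => hznJ (h ▸ hyJ)
  haveI := hP.lpc
  have hpath : IsPathConnected (ins C') :=
    ((hP.opn C' hC'1 hC'U).isConnected_iff_isPathConnected).1 (hP.conn C' hC'1 hC'U)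
  obtain ⟨A, hAC', hA⟩ := hPTA.2 Y (ins C') y z (hpath.joinedIn y hyC' z hzC') hyz
  refine hLMA Y U V hP C Jm {u | infDist u Jm < ρ} β η δ hC hCV hβ hβr hJV (hβ0 ▸ hc0C)
    ⟨c1, hc1J, hc1C, by rw [hβ0]; exact hc10⟩ hδ hδ1 hsm
    (fun s t hst => lt_of_lt_of_le (hδu s t hst) (min_le_right _ _))
    (fun s t hst hs ht hne => hη1' (β s) hs (β t) ht hne
      (lt_of_lt_of_le (hδu s t hst) (min_le_left _ _)))
    y z A hA (hAC'.trans hins) ?_ ?_ hyJ hznJ (fun h => hzK (Or.inl (Or.inl h))) ?_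
  · intro h
    exact absurd (hNρ y hyN) (not_le.2 h)
  · intro h
    exact hzK (Or.inr (show infDist z Jm ≤ ρ from le_of_lt h))
  · intro s t hs hst ht hδst hsC htC hr
    have hpre : IsPreconnected (β '' Ioo s t) :=
      (isPreconnected_Ioo).image β hβ.1.continuousOn
    have hdis : Disjoint (β '' Ioo s t) C := by
      rw [disjoint_left]
      rintro _ ⟨r, hr', rfl⟩
      exact hr r hr'
    by_cases hm : (β '' Ioo s t ∩ ins C).Nonempty
    · have h1 := sub_ins hP hC hCU hpre hdis hm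
      have hi : (s, t) ∈ II β C δ :=
        ⟨hs, hst, ht, hδst, hsC, htC, hr, fun r hr' => h1 ⟨r, hr', rfl⟩⟩
      exact (hC'3 (s, t) (hfin.mem_toFinset.2 hi)).mono_left hAC'
    · rw [disjoint_left]
      rintro _ hA' ⟨r, hr', rfl⟩
      have hrC : β r ∈ ins C := hins (hAC' hA')
      have hrnC : β r ∉ C := fun h => disjoint_left.1 (hP.disj C hC hCU) hrC h
      refine hm ⟨β r, ⟨r, ⟨lt_of_le_of_ne hr'.1 ?_, lt_of_le_of_ne hr'.2 ?_⟩, rfl⟩, hrC⟩
      · rintro rfl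
        exact hrnC hsC
      · rintro rfl
        exact hrnC htC

end BBP


end

section

/-!
# BBP, block C, module LMS: subdivision at one point
-/

set_option autoImplicit false

namespace BBP

open Set Topology Metric
open Pool.Agent.LIX (CLog)

theorem t_LMS : M_LMS := by
  intro hSCB hTHE hLMX hLMB Y _ U V hP x hx ε hε
  obtain ⟨Jm, hJ, hJV, hxJ, hJb⟩ := hP.sml x hx (ball x ε) isOpen_ball (mem_ball_self hε)
  have hJU : Jm ⊆ U := hJV.trans hP.sub
  obtain ⟨hJc, hJconn, -⟩ := hSCB Y Jm hJ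
  have hJne : Jm.Nonempty := hJconn.nonempty
  have hxnJ : x ∉ Jm := fun h => (hP.disj Jm hJ hJU).le_bot ⟨hxJ, h⟩
  have hpos : 0 < infDist x Jm := (hJc.isClosed.notMem_iff_infDist_pos hJne).1 hxnJ
  obtain ⟨δ, hδ, hδs⟩ := hJc.exists_thickening_subset_open isOpen_ball
    (subset_union_left.trans hJb)
  obtain ⟨ρ, hρ, hρδ, hρx⟩ : ∃ ρ : ℝ, 0 < ρ ∧ ρ < δ ∧ 2 * ρ < infDist x Jm := by
    refine ⟨min (δ / 2) (infDist x Jm / 3), lt_min (by linarith) (by linarith), ?_, ?_⟩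
    · exact (min_le_left _ _).trans_lt (by linarith)
    · have := min_le_right (δ / 2) (infDist x Jm / 3)
      linarith
  have hρs : {u | infDist u Jm ≤ ρ} ⊆ ball x ε := by
    intro u hu
    apply hδs
    rw [mem_thickening_iff_infDist_lt hJne]
    exact lt_of_le_of_lt hu hρδ
  have hopJ := hP.opn Jm hJ hJU
  have hNo : IsOpen (ins Jm ∩ ball x ρ) := hopJ.inter isOpen_ball
  -- the Lebesgue number
  have hloc : ∀ p : Jm, ∃ W1 ⊆ ball (p : Y) ρ, IsOpen W1 ∧ (p : Y) ∈ W1 ∧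
      ∀ C : Set Y, Scc C → C ⊆ W1 → C ∪ ins C ⊆ ball (p : Y) ρ ∩ V := fun p =>
    hP.loc p (hJV p.2) (ball p ρ) isOpen_ball (mem_ball_self hρ)
  choose W1 hW1s hW1o hW1m hW1 using hloc
  obtain ⟨η, hη, hηW⟩ := lebesgue_number_lemma_of_metric hJc hW1o
    (fun p hp => mem_iUnion.2 ⟨⟨p, hp⟩, hW1m ⟨p, hp⟩⟩)
  have hmain := hLMB Y U V hP Jm (ins Jm ∩ ball x ρ) x ε ρ η hJ hJV hJb hρ hη hρs hNo
    inter_subset_left
    (by
      intro u hu
      have h1 : infDist x Jm ≤ infDist u Jm + dist x u := infDist_le_infDist_add_dist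
      have h2 : dist u x < ρ := hu.2
      rw [dist_comm] at h2
      linarith)
    (by
      intro Sg hSg _ hmeet hd
      obtain ⟨q, hqS, hqJ⟩ := hmeet
      obtain ⟨p, hp⟩ := hηW q hqJ
      have h1 : Sg ⊆ W1 p := fun u hu => hp (hd u hu q hqS)
      intro u hu
      have h2 : dist u (p : Y) < ρ := (hW1 p Sg hSg h1 hu).1
      exact (infDist_le_dist_of_mem p.2).trans_lt h2)
  refine ⟨ins Jm ∩ ball x ρ, hNo, ⟨hxJ, mem_ball_self hρ⟩, fun C hC hCV => ?_⟩
  have hCU : C ⊆ U := hCV.trans hP.sub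
  by_cases hdis : Disjoint (C ∪ ins C) (ins Jm ∩ ball x ρ)
  · exact Div.leaf C ⟨hC, Subset.rfl, Or.inr hdis⟩
  · have hne : ((ins Jm ∩ ball x ρ) ∩ ins C).Nonempty := by
      rw [not_disjoint_iff] at hdis
      obtain ⟨u, hu1, hu2⟩ := hdis
      rw [← hP.clos C hC hCU] at hu1
      exact mem_closure_iff.1 hu1 _ hNo hu2
    obtain ⟨a, ha, b, hb, P, hPa, hPs, hPN⟩ := hLMX Y U V hP C _ hC hCV hNo hne
    have hab : a ≠ b := by
      obtain ⟨α, -, hinj, h0, h1, -⟩ := hPa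
      intro h
      have h2 : (0 : ℝ) = 1 := hinj (by simp) (by simp) (by rw [h0, h1, h])
      exact zero_ne_one h2
    obtain ⟨-, -, -, -, h5, -, -⟩ := hSCB Y C hC
    obtain ⟨A1, A2, hA1, hA2, hA12, hAi⟩ := h5 a ha b hb hab
    obtain ⟨s1, s2, hPC, -, -, -, -, -, hun, -, -⟩ :=
      hTHE Y U V hP C A1 A2 P a b hC hCU hA1 hA2 hA12 hAi hPa hPs
    have hPV : P ⊆ V := hPC.trans (union_subset hCV (hP.insV C hC hCV))
    have hA1V : A1 ∪ P ⊆ V := union_subset ((hA12 ▸ subset_union_left).trans hCV) hPV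
    have hA2V : A2 ∪ P ⊆ V := union_subset ((hA12 ▸ subset_union_right).trans hCV) hPV
    have hs1 : (A1 ∪ P) ∪ ins (A1 ∪ P) ⊆ C ∪ ins C := hun ▸ subset_union_left
    have hs2 : (A2 ∪ P) ∪ ins (A2 ∪ P) ⊆ C ∪ ins C := hun ▸ subset_union_right
    refine Div.node C A1 A2 P a b hA1 hA2 hA12 hAi hPa hPs ?_ ?_
    · exact (hmain (A1 ∪ P) s1 hA1V
        (hPN.mono (inter_subset_inter_left _ subset_union_right))).imp
        fun C' h => ⟨h.1, h.2.1.trans hs1, h.2.2⟩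
    · exact (hmain (A2 ∪ P) s2 hA2V
        (hPN.mono (inter_subset_inter_left _ subset_union_right))).imp
        fun C' h => ⟨h.1, h.2.1.trans hs2, h.2.2⟩

end BBP


end

section

/-!
# BBP, block C, module LMX: cross-cuts through a given open set
-/

set_option autoImplicit false

namespace BBP

open Set Topology Metric
open Pool.Agent.LIX (CLog)

theorem t_LMX : M_LMX := by
  intro hPTA hARB hSCB hACP Y _ U V hP C O hC hCV hO hOn
  have hlp := hP.lpc
  have hCU : C ⊆ U := hCV.trans hP.sub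
  have hIo := hP.opn C hC hCU
  have hIc := hP.conn C hC hCU
  have hId := hP.disj C hC hCU
  have hIV := hP.insV C hC hCV
  have hIcl := hP.clos C hC hCU
  have hIp := hIo.isConnected_iff_isPathConnected.1 hIc
  have hnot : ∀ z ∈ ins C, z ∉ C := fun z hz => disjoint_left.1 hId hz
  obtain ⟨hCc, -⟩ := hSCB Y C hC
  obtain ⟨a, ha, b, hb, hab⟩ : ∃ a ∈ C, ∃ b ∈ C, a ≠ b := by
    obtain ⟨γ, hγ, hγC⟩ := hC
    refine ⟨γ 0, hγC ▸ mem_range_self _, γ (1 / 2), hγC ▸ mem_range_self _, fun h => ?_⟩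
    have := hγ.2.2 (by norm_num) (by norm_num) h
    norm_num at this
  obtain ⟨w, hwO, hwI⟩ := hOn
  -- the neighbourhood of `w`
  have hO'o : IsOpen (pathComponentIn (O ∩ ins C) w) := (hO.inter hIo).pathComponentIn w
  have hO's : pathComponentIn (O ∩ ins C) w ⊆ O ∩ ins C := pathComponentIn_subset
  have hO'p : IsPathConnected (pathComponentIn (O ∩ ins C) w) :=
    isPathConnected_pathComponentIn ⟨hwO, hwI⟩
  have hwO' : w ∈ pathComponentIn (O ∩ ins C) w := mem_pathComponentIn_self ⟨hwO, hwI⟩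
  generalize pathComponentIn (O ∩ ins C) w = O' at hO'o hO's hO'p hwO'
  obtain ⟨ε, hε, hεO⟩ := Metric.nhds_basis_closedBall.mem_iff.1 (hO'o.mem_nhds hwO')
  have hεO' : closedBall w ε ⊆ O' := hεO
  have haI : a ∉ ins C := fun h => hnot a h ha
  have hbI : b ∉ ins C := fun h => hnot b h hb
  have haN : a ∉ closedBall w ε := fun h => haI (hO's (hεO' h)).2
  -- the arc `R`
  obtain ⟨α, hα, hα1, hαI⟩ := hACP Y U V hP C hC hCV a ha
  have j1 : JoinedIn (ins C ∪ {a}) a w := by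
    have h1 : JoinedIn (ins C ∪ {a}) (α 0) a := by
      refine JoinedIn.ofLine hα rfl hα1 ?_
      rintro z ⟨t, ht, rfl⟩
      rcases ht.2.lt_or_eq with h | h
      · exact Or.inl (hαI t ⟨ht.1, h⟩)
      · rw [h, hα1]
        exact Or.inr rfl
    exact h1.symm.trans ((hIp.joinedIn (α 0) (hαI 0 (by simp)) w hwI).mono subset_union_left)
  have haw : a ≠ w := fun h => haI (h ▸ hwI)
  obtain ⟨R, hRs, hR⟩ := hPTA.2 Y (ins C ∪ {a}) a w j1 haw
  obtain ⟨-, -, -, -, -, -, -, -, -, -, -, hit, -⟩ := hARB Y R a w hR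
  obtain ⟨w', hw'N, R', hR'R, hR', hR'N⟩ := hit _ isClosed_closedBall
    (mem_closedBall_self hε.le) haN
  obtain ⟨haw', haR', hw'R', -, hR'c, hR'con, -, -, -, hR'cl, -, -, α', hα'c, hα'1, hα'0,
    hα'i⟩ := hARB Y R' a w' hR'
  have hR's : R' ⊆ ins C ∪ {a} := hR'R.trans hRs
  have hwR' : w ∉ R' := by
    intro h
    have h1 : w ∈ R' ∩ closedBall w ε := ⟨h, mem_closedBall_self hε.le⟩
    rw [hR'N, mem_singleton_iff] at h1
    obtain ⟨z, hz1, hz2, hz3⟩ := mem_closure_iff.1 (hR'cl h) (ball w ε) isOpen_ball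
      (mem_ball_self hε)
    have h2 : z ∈ R' ∩ closedBall w ε := ⟨hz2, ball_subset_closedBall hz1⟩
    rw [hR'N, mem_singleton_iff] at h2
    exact hz3 (Or.inr h2)
  have hR'V : R' ⊆ V := by
    intro z hz
    rcases hR's hz with h | h
    · exact hIV h
    · rw [mem_singleton_iff.1 h]
      exact hCV ha
  -- the access path to `b`
  obtain ⟨β, hβ, hβ1, hβI⟩ := hACP Y U V hP C hC hCV b hb
  have hbR' : b ∉ R' := by
    intro h
    rcases hR's h with h1 | h1
    · exact hbI h1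
    · exact hab (mem_singleton_iff.1 h1).symm
  have hbn : R'ᶜ ∈ 𝓝 (β 1) := by
    rw [hβ1]
    exact hR'c.isClosed.isOpen_compl.mem_nhds hbR'
  obtain ⟨δ, hδ, hδs⟩ := Metric.mem_nhdsWithin_iff.1 (hβ 1 (by simp) hbn)
  obtain ⟨t0, ht00, ht01, ht0⟩ : ∃ t0 : ℝ, 0 ≤ t0 ∧ t0 < 1 ∧ ∀ t ∈ Icc t0 1, β t ∉ R' := by
    refine ⟨max 0 (1 - δ / 2), le_max_left _ _, max_lt zero_lt_one (by linarith), ?_⟩
    intro t ht
    have h1 : 0 ≤ t := (le_max_left _ _).trans ht.1
    have h2 : 1 - δ / 2 ≤ t := (le_max_right _ _).trans ht.1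
    refine hδs ⟨?_, h1, ht.2⟩
    rw [mem_ball, Real.dist_eq, abs_lt]
    constructor <;> linarith [ht.2]
  have hyI : β t0 ∈ ins C := hβI t0 ⟨ht00, ht01⟩
  have hyR : β t0 ∉ R' := ht0 t0 ⟨le_rfl, ht01.le⟩
  have hCR : C ∩ R' = {a} := by
    ext z
    simp only [mem_inter_iff, mem_singleton_iff]
    constructor
    · rintro ⟨h1, h2⟩
      rcases hR's h2 with h3 | h3
      · exact absurd h1 (hnot z h3)
      · exact h3
    · rintro rfl
      exact ⟨ha, haR'⟩
  have hVR : IsPathConnected (V \ R') :=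
    (hP.opV.sdiff hR'c.isClosed).isConnected_iff_isPathConnected.1 (hP.nsp R' a w' hR' hR'V)
  obtain ⟨p, hp⟩ := hP.jan C R' hCc hR'c hCV hR'V (by rw [hCR]; exact isConnected_singleton)
    (β t0) w ((hIp.joinedIn _ hyI w hwI).mono fun z hz => ⟨hIV hz, hnot z hz⟩)
    (hVR.joinedIn _ ⟨hIV hyI, hyR⟩ w ⟨hIV hwI, hwR'⟩)
  have hpI : range p ⊆ ins C := by
    refine (isPreconnected_range p.continuous).subset_of_closure_inter_subset hIo
      ⟨β t0, ⟨0, p.source⟩, hyI⟩ ?_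
    rintro z ⟨h1, t, rfl⟩
    rw [hIcl] at h1
    rcases h1 with h1 | h1
    · exact absurd (Or.inl h1) (hp t).2
    · exact h1
  -- the compact set `K`
  have hKc : IsCompact (range p ∪ β '' Icc t0 1) :=
    (isCompact_range p.continuous).union
      (isCompact_Icc.image_of_continuousOn (hβ.mono (Icc_subset_Icc_left ht00)))
  have hKR : ∀ z ∈ range p ∪ β '' Icc t0 1, z ∉ R' := by
    rintro z (⟨t, rfl⟩ | ⟨t, ht, rfl⟩) h
    · exact (hp t).2 (Or.inr h)
    · exact ht0 t ht h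
  have hKI : range p ∪ β '' Icc t0 1 ⊆ ins C ∪ {b} := by
    rintro z (h | ⟨t, ht, rfl⟩)
    · exact Or.inl (hpI h)
    · rcases ht.2.lt_or_eq with h | h
      · exact Or.inl (hβI t ⟨ht00.trans ht.1, h⟩)
      · rw [h, hβ1]
        exact Or.inr rfl
  have jK1 : JoinedIn (range p ∪ β '' Icc t0 1) (β t0) w := ⟨p, fun t => Or.inl ⟨t, rfl⟩⟩
  have jK2 : JoinedIn (range p ∪ β '' Icc t0 1) (β t0) b := by
    have h1 : IsPathConnected (β '' Icc t0 1) :=
      ((convex_Icc t0 1).isPathConnected ⟨1, ht01.le, le_rfl⟩).image'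
        (hβ.mono (Icc_subset_Icc_left ht00))
    exact (h1.joinedIn _ ⟨t0, ⟨le_rfl, ht01.le⟩, rfl⟩ b ⟨1, ⟨ht01.le, le_rfl⟩, hβ1⟩).mono
      subset_union_right
  have hbK : b ∈ range p ∪ β '' Icc t0 1 := Or.inr ⟨1, ⟨ht01.le, le_rfl⟩, hβ1⟩
  generalize range p ∪ β '' Icc t0 1 = Q at hKc hKR hKI jK1 jK2 hbK
  have jR : JoinedIn R' a w' := (JoinedIn.ofLine hα'c hα'0 hα'1 hα'i.subset).symm
  have jO : JoinedIn O' w' w := hO'p.joinedIn w' (hεO' hw'N) w hwO'
  have jAll : JoinedIn (R' ∪ O' ∪ Q) a b :=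
    (jR.mono (subset_union_left.trans subset_union_left)).trans
      ((jO.mono (subset_union_right.trans subset_union_left)).trans
        ((jK1.symm.mono subset_union_right).trans (jK2.mono subset_union_right)))
  obtain ⟨P, hPs, hPa⟩ := hPTA.2 Y _ a b jAll hab
  obtain ⟨-, haP, hbP, -, -, hPcon, -⟩ := hARB Y P a b hPa
  refine ⟨a, ha, b, hb, P, hPa, ?_, ?_⟩
  · rintro z ⟨hz, hzn⟩
    have hza : z ≠ a := fun h => hzn (Or.inl h)
    have hzb : z ≠ b := fun h => hzn (Or.inr h)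
    rcases hPs hz with (h | h) | h
    · rcases hR's h with h1 | h1
      · exact h1
      · exact absurd h1 hza
    · exact (hO's h).2
    · rcases hKI h with h1 | h1
      · exact h1
      · exact absurd h1 hzb
  · by_contra h
    have h0 : ∀ z ∈ P, z ∉ O := fun z h1 h2 => h ⟨z, h1, h2⟩
    have h1 : P ⊆ R' ∪ Q := by
      intro z hz
      rcases hPs hz with (h2 | h2) | h2
      · exact Or.inl h2
      · exact absurd (hO's h2).1 (h0 z hz)
      · exact Or.inr h2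
    obtain ⟨z, -, hz1, hz2⟩ := isPreconnected_closed_iff.1 hPcon.isPreconnected R' Q
      hR'c.isClosed hKc.isClosed h1 ⟨a, haP, haR'⟩ ⟨b, hbP, hbK⟩
    exact hKR z hz2 hz1

end BBP


end

section

/-!
# BBP, module THA: theta curves, first part
-/

set_option autoImplicit false

namespace BBP

open Set Topology Metric

namespace THA

variable {Y : Type} [MetricSpace Y]

/-- a connected set disjoint from `C` is inside or outside -/
theorem dich {U V : Set Y} (hp : Pln U V) {C S : Set Y} (hC : Scc C) (hCU : C ⊆ U)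
    (hS : IsPreconnected S) (hd : Disjoint S C) : S ⊆ ins C ∨ Disjoint S (ins C) := by
  have h1 : IsOpen (ins C) := hp.opn C hC hCU
  have h2 : IsOpen (closure (ins C))ᶜ := isClosed_closure.isOpen_compl
  have h3 : Disjoint (ins C) (closure (ins C))ᶜ :=
    Set.disjoint_left.2 fun x hx hx' => hx' (subset_closure hx)
  have h4 : S ⊆ ins C ∪ (closure (ins C))ᶜ := by
    intro x hx
    by_cases hxi : x ∈ ins C
    · exact Or.inl hxi
    · right
      rw [hp.clos C hC hCU]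
      rintro (h | h)
      · exact Set.disjoint_left.1 hd hx h
      · exact hxi h
  by_cases hne : (S ∩ ins C).Nonempty
  · left
    exact hS.subset_left_of_subset_union h1 h2 h3 h4 hne
  · right
    rw [Set.disjoint_iff_inter_eq_empty]
    exact Set.not_nonempty_iff_eq_empty.1 hne

/-- one side of the theta curve -/
theorem side (hARB : S_ARB) (hGLU : S_GLU) {U V : Set Y} (hp : Pln U V)
    (C A1 A2 P : Set Y) (a b : Y) (hC : Scc C) (hCU : C ⊆ U) (hA1 : Arc A1 a b)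
    (hA2 : Arc A2 a b) (hu : A1 ∪ A2 = C) (hi : A1 ∩ A2 = {a, b}) (hP : Arc P a b)
    (hPC : P \ {a, b} ⊆ ins C) :
    Scc (A1 ∪ P) ∧ A1 ∪ P ⊆ U ∧ ins (A1 ∪ P) ⊆ ins C \ P ∧
      ∀ x ∈ A2 \ {a, b}, x ∉ A1 ∪ P := by
  have hdC : Disjoint (ins C) C := hp.disj C hC hCU
  have ha1 : a ∈ A1 := (hARB Y A1 a b hA1).2.1
  have hb1 : b ∈ A1 := (hARB Y A1 a b hA1).2.2.1
  have haP : a ∈ P := (hARB Y P a b hP).2.1
  have hbP : b ∈ P := (hARB Y P a b hP).2.2.1
  have hA1C : A1 ⊆ C := by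
    rw [← hu]
    exact subset_union_left
  have hA2C : A2 ⊆ C := by
    rw [← hu]
    exact subset_union_right
  have hPx : ∀ x ∈ P, x ∈ C → x = a ∨ x = b := by
    intro x hx hxC
    by_contra hne
    have h1 : x ∈ P \ {a, b} := ⟨hx, fun h => hne (by simpa using h)⟩
    exact Set.disjoint_left.1 hdC (hPC h1) hxC
  have hPsub : P ⊆ C ∪ ins C := by
    intro x hx
    by_cases h : x = a ∨ x = b
    · left
      rcases h with h | h
      · rw [h]
        exact hA1C ha1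
      · rw [h]
        exact hA1C hb1
    · right
      exact hPC ⟨hx, fun h' => h (by simpa using h')⟩
  have hinter : A1 ∩ P = {a, b} := by
    ext x
    constructor
    · rintro ⟨h1, h2⟩
      have := hPx x h2 (hA1C h1)
      simpa using this
    · intro h
      have h' : x = a ∨ x = b := by simpa using h
      rcases h' with h' | h'
      · rw [h']
        exact ⟨ha1, haP⟩
      · rw [h']
        exact ⟨hb1, hbP⟩
  have hscc : Scc (A1 ∪ P) := (hGLU.1 Y A1 P a b hA1 hP hinter).1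
  have hsubU : A1 ∪ P ⊆ U := by
    rintro x (hx | hx)
    · exact hCU (hA1C hx)
    · rcases hPsub hx with h | h
      · exact hCU h
      · exact hp.insU C hC hCU h
  have hA2d : ∀ x ∈ A2 \ {a, b}, x ∉ A1 ∪ P := by
    rintro x ⟨hx1, hx2⟩ (h | h)
    · have : x ∈ A1 ∩ A2 := ⟨h, hx1⟩
      rw [hi] at this
      exact hx2 this
    · have := hPx x h (hA2C hx1)
      exact hx2 (by simpa using this)
  refine ⟨hscc, hsubU, ?_, hA2d⟩
  -- the outside
  have hE : IsConnected (U \ (C ∪ ins C)) := hp.out C hC hCU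
  have hEc : C ⊆ closure (U \ (C ∪ ins C)) := hp.outc C hC hCU
  set W : Set Y := (U \ (C ∪ ins C)) ∪ (A2 \ {a, b}) with hW
  have hWc : IsConnected W := by
    refine hE.subset_closure subset_union_left ?_
    rintro x (hx | hx)
    · exact subset_closure hx
    · exact hEc (hA2C hx.1)
  have hWd : Disjoint W (A1 ∪ P) := by
    refine Set.disjoint_left.2 ?_
    rintro x (hx | hx) hx'
    · rcases hx' with h | h
      · exact hx.2 (Or.inl (hA1C h))
      · exact hx.2 (hPsub h)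
    · exact hA2d x hx hx'
  have hWi : Disjoint W (ins (A1 ∪ P)) := by
    rcases dich hp hscc hsubU hWc.isPreconnected hWd with h | h
    · exfalso
      refine hp.ncp C hC hCU ((A1 ∪ P) ∪ ins (A1 ∪ P)) (hp.cpt _ hscc hsubU) ?_ ?_
      · exact union_subset hsubU (hp.insU _ hscc hsubU)
      · intro x hx
        exact Or.inr (h (Or.inl hx))
    · exact h
  have hd1 : Disjoint (ins (A1 ∪ P)) (A1 ∪ P) := hp.disj _ hscc hsubU
  intro x hx
  have hxU : x ∈ U := hp.insU _ hscc hsubU hx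
  have hxP : x ∉ P := fun h => Set.disjoint_left.1 hd1 hx (Or.inr h)
  have hxA1 : x ∉ A1 := fun h => Set.disjoint_left.1 hd1 hx (Or.inl h)
  have hxW : x ∉ W := fun h => Set.disjoint_left.1 hWi h hx
  refine ⟨?_, hxP⟩
  by_contra hxi
  have hxC : x ∉ C := by
    intro h
    rw [← hu] at h
    rcases h with h | h
    · exact hxA1 h
    · refine hxW (Or.inr ⟨h, ?_⟩)
      intro h'
      have h'' : x = a ∨ x = b := by simpa using h'
      rcases h'' with h'' | h''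
      · exact hxA1 (h'' ▸ ha1)
      · exact hxA1 (h'' ▸ hb1)
  refine hxW (Or.inl ⟨hxU, ?_⟩)
  rintro (h | h)
  · exact hxC h
  · exact hxi h

end THA

theorem t_THA : M_THA := by
  intro hARB hGLU Y _ U V hp C A1 A2 P a b hC hCU hA1 hA2 hu hi hP hPC
  obtain ⟨s1, u1, i1, d1⟩ := THA.side hARB hGLU hp C A1 A2 P a b hC hCU hA1 hA2 hu hi hP hPC
  obtain ⟨s2, u2, i2, d2⟩ := THA.side hARB hGLU hp C A2 A1 P a b hC hCU hA2 hA1
    (by rw [union_comm]; exact hu) (by rw [inter_comm]; exact hi) hP hPC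
  refine ⟨s1, s2, i1, i2, ?_⟩
  have hdC : Disjoint (ins C) C := hp.disj C hC hCU
  have hA1C : A1 ⊆ C := by
    rw [← hu]
    exact subset_union_left
  have hA2C : A2 ⊆ C := by
    rw [← hu]
    exact subset_union_right
  have hdis : ∀ B B' : Set Y, B ⊆ C → ins (B' ∪ P) ⊆ ins C \ P →
      Disjoint (ins (B' ∪ P)) (B ∪ P) := by
    intro B B' hB h
    refine Set.disjoint_left.2 ?_
    rintro x hx (h' | h')
    · exact Set.disjoint_left.1 hdC (h hx).1 (hB h')
    · exact (h hx).2 h'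
  by_contra hnd
  rw [Set.not_disjoint_iff] at hnd
  obtain ⟨z, hz1, hz2⟩ := hnd
  have h12 : ins (A1 ∪ P) ⊆ ins (A2 ∪ P) := by
    rcases THA.dich hp s2 u2 (hp.conn _ s1 u1).isPreconnected (hdis A2 A1 hA2C i1) with h | h
    · exact h
    · exact absurd hz2 (Set.disjoint_left.1 h hz1)
  have h21 : ins (A2 ∪ P) ⊆ ins (A1 ∪ P) := by
    rcases THA.dich hp s1 u1 (hp.conn _ s2 u2).isPreconnected (hdis A1 A2 hA1C i2) with h | h
    · exact h
    · exact absurd hz1 (Set.disjoint_left.1 h hz2)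
  have heq : ins (A1 ∪ P) = ins (A2 ∪ P) := Set.Subset.antisymm h12 h21
  have hconn : IsConnected (A2 \ {a, b}) := (hARB Y A2 a b hA2).2.2.2.2.2.2.2.2.1
  obtain ⟨x, hx⟩ := hconn.nonempty
  have h1 : x ∈ closure (ins (A2 ∪ P)) := by
    rw [hp.clos _ s2 u2]
    exact Or.inl (Or.inl hx.1)
  rw [← heq, hp.clos _ s1 u1] at h1
  rcases h1 with h1 | h1
  · exact d1 x hx h1
  · exact Set.disjoint_left.1 hdC (i1 h1).1 (hA2C hx.1)

end BBP


end

section

/-!
# BBP, module THB: theta curves, second part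
-/

set_option autoImplicit false

namespace BBP

open Set Topology Metric

namespace THB

variable {Y : Type} [MetricSpace Y]

theorem open_out {U V : Set Y} (hP : Pln U V) {J : Set Y} (hJ : Scc J) (hJU : J ⊆ U) :
    IsOpen (U \ (J ∪ ins J)) :=
  hP.opU.sdiff (hP.cpt J hJ hJU).isClosed

/-- a connected set disjoint from `J` is inside or outside -/
theorem side {U V : Set Y} (hP : Pln U V) {J : Set Y} (hJ : Scc J) (hJU : J ⊆ U) {X : Set Y}
    (hX : IsPreconnected X) (hXU : X ⊆ U) (hXJ : Disjoint X J) :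
    X ⊆ ins J ∨ X ⊆ U \ (J ∪ ins J) := by
  refine hX.subset_or_subset (hP.opn J hJ hJU) (open_out hP hJ hJU) ?_ ?_
  · rw [Set.disjoint_left]
    intro x hx hx'
    exact hx'.2 (Or.inr hx)
  · intro x hx
    by_cases h : x ∈ ins J
    · exact Or.inl h
    · refine Or.inr ⟨hXU hx, ?_⟩
      rintro (h1 | h1)
      · exact Set.disjoint_left.1 hXJ hx h1
      · exact h h1

/-- the component of a point -/
theorem comp {F : Set Y} (hl : LocallyPathConnectedSpace Y) (hF : IsOpen F) {w : Y}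
    (hw : w ∈ F) : ∃ R : Set Y, IsOpen R ∧ IsConnected R ∧ w ∈ R ∧ R ⊆ F ∧ closure R ∩ F ⊆ R := by
  refine ⟨connectedComponentIn F w, hF.connectedComponentIn,
    isConnected_connectedComponentIn_iff.2 hw, mem_connectedComponentIn hw,
    connectedComponentIn_subset F w, ?_⟩
  rintro z ⟨hz, hzF⟩
  have h1 : IsOpen (connectedComponentIn F z) := hF.connectedComponentIn
  obtain ⟨u, hu1, hu2⟩ := mem_closure_iff.1 hz _ h1 (mem_connectedComponentIn hzF)
  have h2 := connectedComponentIn_eq hu1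
  have h3 := connectedComponentIn_eq hu2
  rw [h3, ← h2]
  exact mem_connectedComponentIn hzF

theorem arc_sub {α : ℝ → Y} (hc : ContinuousOn α (Icc 0 1)) (hi : InjOn α (Icc 0 1)) {s t : ℝ}
    (hs : 0 ≤ s) (hst : s < t) (ht : t ≤ 1) : Arc (α '' Icc s t) (α s) (α t) := by
  have hm : ∀ u ∈ Icc (0 : ℝ) 1, s + u * (t - s) ∈ Icc s t := by
    intro u hu
    have h1 := hu.1
    have h2 := hu.2
    constructor <;> nlinarith
  have hsub : Icc s t ⊆ Icc (0 : ℝ) 1 := Icc_subset_Icc hs ht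
  refine ⟨fun u => α (s + u * (t - s)), ?_, ?_, by simp, by simp, ?_⟩
  · exact hc.comp (by fun_prop) fun u hu => hsub (hm u hu)
  · intro u hu v hv huv
    have := hi (hsub (hm u hu)) (hsub (hm v hv)) huv
    have h3 : u * (t - s) = v * (t - s) := by linarith
    exact mul_right_cancel₀ (sub_ne_zero.2 hst.ne') h3
  · ext z
    constructor
    · rintro ⟨r, hr, rfl⟩
      have hp : 0 < t - s := sub_pos.2 hst
      refine ⟨(r - s) / (t - s), ⟨div_nonneg (by linarith [hr.1]) hp.le, ?_⟩, ?_⟩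
      · rw [div_le_one hp]; linarith [hr.2]
      · show α (s + (r - s) / (t - s) * (t - s)) = α r
        rw [div_mul_cancel₀ _ hp.ne']
        congr 1
        ring
    · rintro ⟨u, hu, rfl⟩
      exact ⟨_, hm u hu, rfl⟩

theorem sub_aux {α : ℝ → Y} (hc : ContinuousOn α (Icc 0 1)) (hi : InjOn α (Icc 0 1)) {s t : ℝ}
    (hs : 0 < s) (hst : s < t) (ht : t < 1) :
    Arc (α '' Icc s t) (α s) (α t) ∧ α '' Icc s t ⊆ α '' Icc 0 1 \ {α 0, α 1} ∧
    ∃ H1 H2 : Set Y, IsPreconnected H1 ∧ IsPreconnected H2 ∧ α 0 ∈ H1 ∧ α 1 ∈ H2 ∧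
      α '' Icc 0 1 \ α '' Icc s t = H1 ∪ H2 := by
  have h0 : (0 : ℝ) ∈ Icc (0 : ℝ) 1 := by simp
  have h1 : (1 : ℝ) ∈ Icc (0 : ℝ) 1 := by simp
  have hsub : Icc s t ⊆ Icc (0 : ℝ) 1 := Icc_subset_Icc hs.le ht.le
  refine ⟨arc_sub hc hi hs.le hst ht.le, ?_, α '' Ico 0 s, α '' Ioc t 1, ?_, ?_,
    ⟨0, ⟨le_refl _, hs⟩, rfl⟩, ⟨1, ⟨ht, le_refl _⟩, rfl⟩, ?_⟩
  · rintro _ ⟨r, hr, rfl⟩
    refine ⟨⟨r, hsub hr, rfl⟩, ?_⟩
    rintro (h | h)
    · have := hi (hsub hr) h0 h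
      linarith [hr.1]
    · have := hi (hsub hr) h1 h
      linarith [hr.2]
  · refine isPreconnected_Ico.image _ (hc.mono ?_)
    intro r hr
    exact ⟨hr.1, by linarith [hr.2]⟩
  · refine isPreconnected_Ioc.image _ (hc.mono ?_)
    intro r hr
    exact ⟨by linarith [hr.1], hr.2⟩
  · ext z
    constructor
    · rintro ⟨⟨r, hr, rfl⟩, hz⟩
      by_cases h : r < s
      · exact Or.inl ⟨r, ⟨hr.1, h⟩, rfl⟩
      · by_cases h' : t < r
        · exact Or.inr ⟨r, ⟨h', hr.2⟩, rfl⟩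
        · exact absurd ⟨r, ⟨not_lt.1 h, not_lt.1 h'⟩, rfl⟩ hz
    · rintro (⟨r, hr, rfl⟩ | ⟨r, hr, rfl⟩)
      · have hr' : r ∈ Icc (0 : ℝ) 1 := ⟨hr.1, by linarith [hr.2]⟩
        refine ⟨⟨r, hr', rfl⟩, ?_⟩
        rintro ⟨r', hr'', h⟩
        have := hi (hsub hr'') hr' h
        linarith [hr.2, hr''.1]
      · have hr' : r ∈ Icc (0 : ℝ) 1 := ⟨by linarith [hr.1], hr.2⟩
        refine ⟨⟨r, hr', rfl⟩, ?_⟩
        rintro ⟨r', hr'', h⟩
        have := hi (hsub hr'') hr' h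
        linarith [hr.1, hr''.2]

/-- subarcs that avoid the ends -/
theorem sub (hA : S_ARB) {A : Set Y} {a b x y : Y} (h : Arc A a b) (hx : x ∈ A \ {a, b})
    (hy : y ∈ A \ {a, b}) (hxy : x ≠ y) : ∃ D : Set Y, Arc D x y ∧ D ⊆ A \ {a, b} ∧
    ∃ H1 H2 : Set Y, IsPreconnected H1 ∧ IsPreconnected H2 ∧ a ∈ H1 ∧ b ∈ H2 ∧
      A \ D = H1 ∪ H2 := by
  obtain ⟨α, hc, hi, rfl, rfl, rfl⟩ := h
  obtain ⟨⟨s, hs, rfl⟩, hx2⟩ := hx
  obtain ⟨⟨t, ht, rfl⟩, hy2⟩ := hy
  have e : ∀ r ∈ Icc (0 : ℝ) 1, α r ∉ ({α 0, α 1} : Set Y) → 0 < r ∧ r < 1 := by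
    intro r hr h
    constructor
    · rcases hr.1.lt_or_eq with h1 | h1
      · exact h1
      · exact absurd (Or.inl (by rw [← h1])) h
    · rcases hr.2.lt_or_eq with h1 | h1
      · exact h1
      · exact absurd (Or.inr (by rw [h1]; rfl)) h
  have es := e s hs hx2
  have et := e t ht hy2
  rcases lt_trichotomy s t with h | h | h
  · exact ⟨_, sub_aux hc hi es.1 h et.2⟩
  · exact absurd (by rw [h]) hxy
  · obtain ⟨h1, h2, h3⟩ := sub_aux hc hi et.1 h es.2
    exact ⟨_, (hA Y _ _ _ h1).2.2.2.1, h2, h3⟩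

theorem second (hA : S_ARB) {A : Set Y} {a b : Y} (h : Arc A a b) (x : Y) :
    ∃ p ∈ A \ {a, b}, p ≠ x := by
  obtain ⟨h1, ha, hb, -, -, -, -, -, -, h2, -⟩ := hA Y A a b h
  by_contra hcon
  push Not at hcon
  have h3 : A \ {a, b} ⊆ {x} := hcon
  have h4 : A ⊆ {x} := by
    refine h2.trans ?_
    have := closure_mono h3
    rwa [closure_singleton] at this
  exact h1 ((h4 ha).trans (h4 hb).symm)

theorem meets {U V : Set Y} (hP : Pln U V) {C A1 A2 P : Set Y} {a b : Y} (hC : Scc C)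
    (hCU : C ⊆ U) (h12 : A1 ∪ A2 = C) (hI : A1 ∩ A2 = {a, b}) (hs1 : Scc (A1 ∪ P))
    (hPU : P ⊆ U) (hi1 : ins (A1 ∪ P) ⊆ ins C \ P)
    (hPC : ∀ z ∈ P, z ∈ C → z ∈ ({a, b} : Set Y)) (hne : (A2 \ {a, b}).Nonempty)
    {R : Set Y} {w : Y} (hRc : IsConnected R) (hRo : IsOpen R) (hRF : R ⊆ U \ (C ∪ P))
    (hcl : closure R ∩ U ⊆ R ∪ (C ∪ P)) (hwR : w ∈ R) (hw1 : w ∉ ins (A1 ∪ P)) :
    ∃ p ∈ A2 \ {a, b}, p ∈ closure R := by
  by_contra hcon
  push Not at hcon
  have hA1C : A1 ⊆ C := by rw [← h12]; exact subset_union_left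
  have hA2C : A2 ⊆ C := by rw [← h12]; exact subset_union_right
  have hC1U : A1 ∪ P ⊆ U := union_subset (hA1C.trans hCU) hPU
  have habA1 : ({a, b} : Set Y) ⊆ A1 := by rw [← hI]; exact inter_subset_left
  have hRU : R ⊆ U := fun x hx => (hRF hx).1
  have hR1 : R ⊆ U \ ((A1 ∪ P) ∪ ins (A1 ∪ P)) := by
    rcases side hP hs1 hC1U hRc.isPreconnected hRU (by
      rw [Set.disjoint_left]
      rintro x hx (h | h)
      · exact (hRF hx).2 (Or.inl (hA1C h))
      · exact (hRF hx).2 (Or.inr h)) with h | h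
    · exact absurd (h hwR) hw1
    · exact h
  have hO : U \ ((A1 ∪ P) ∪ ins (A1 ∪ P)) ⊆ R := by
    refine (hP.out _ hs1 hC1U).isPreconnected.subset_of_closure_inter_subset hRo
      ⟨w, hR1 hwR, hwR⟩ ?_
    rintro z ⟨hz, hzO⟩
    rcases hcl ⟨hz, hzO.1⟩ with h | h | h
    · exact h
    · exfalso
      rw [← h12] at h
      rcases h with h | h
      · exact hzO.2 (Or.inl (Or.inl h))
      · by_cases h' : z ∈ ({a, b} : Set Y)
        · exact hzO.2 (Or.inl (Or.inl (habA1 h')))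
        · exact hcon z ⟨h, h'⟩ hz
    · exact absurd (Or.inl (Or.inr h)) hzO.2
  obtain ⟨p, hp, hp'⟩ := hne
  have hpO : p ∈ U \ ((A1 ∪ P) ∪ ins (A1 ∪ P)) := by
    refine ⟨hCU (hA2C hp), ?_⟩
    rintro ((h | h) | h)
    · apply hp'
      rw [← hI]
      exact ⟨h, hp⟩
    · exact hp' (hPC p h (hA2C hp))
    · exact Set.disjoint_left.1 (hP.disj C hC hCU) (hi1 h).1 (hA2C hp)
  exact (hRF (hO hpO)).2 (Or.inl (hA2C hp))

theorem Accs.mono {W W' : Set Y} {p : Y} (h : Accs W p) (hW : W ⊆ W') : Accs W' p := by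
  obtain ⟨α, h1, h2, h3⟩ := h
  exact ⟨α, h1, h2, fun t ht => hW (h3 t ht)⟩

/-- accessible points on an arc -/
theorem acc (hACC : S_ACC) {U V : Set Y} (hP : Pln U V) {K W B G : Set Y} (hK : IsClosed K)
    (hKU : K ⊆ U) (hW : Clo U K W) (hB : IsClosed B) (hG : ∀ z ∈ K, z ∉ B → z ∈ G)
    {p : Y} (hp : p ∈ K) (hpW : p ∈ closure W) (hpB : p ∉ B) : ∃ p' ∈ G, p' ∉ B ∧ Accs W p' := by
  obtain ⟨p', hp', hac⟩ := hACC.1 Y hP.lpc U K W hP.opU hK hKU hW p hp hpW Bᶜ hB.isOpen_compl hpB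
  exact ⟨p', hG p' hp'.1 hp'.2, hp'.2, Accs.mono hac inter_subset_left⟩

theorem main (hARB : S_ARB) (hGLU : S_GLU) (hACC : S_ACC) {U V : Set Y} (hP : Pln U V)
    {C A1 A2 P : Set Y} {a b : Y} (hC : Scc C) (hCU : C ⊆ U) (hA1 : Arc A1 a b)
    (hA2 : Arc A2 a b) (h12 : A1 ∪ A2 = C) (hI : A1 ∩ A2 = {a, b}) (hPa : Arc P a b)
    (hPi : P \ {a, b} ⊆ ins C) (hs1 : Scc (A1 ∪ P)) (hs2 : Scc (A2 ∪ P))
    (hi1 : ins (A1 ∪ P) ⊆ ins C \ P) (hi2 : ins (A2 ∪ P) ⊆ ins C \ P) :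
    ins C ⊆ ins (A1 ∪ P) ∪ ins (A2 ∪ P) ∪ P := by
  intro w hw
  by_contra hcon
  have hwP : w ∉ P := fun h => hcon (Or.inr h)
  have hw1 : w ∉ ins (A1 ∪ P) := fun h => hcon (Or.inl (Or.inl h))
  have hw2 : w ∉ ins (A2 ∪ P) := fun h => hcon (Or.inl (Or.inr h))
  have hdis := Set.disjoint_left.1 (hP.disj C hC hCU)
  have hA1C : A1 ⊆ C := by rw [← h12]; exact subset_union_left
  have hA2C : A2 ⊆ C := by rw [← h12]; exact subset_union_right
  have habA1 : ({a, b} : Set Y) ⊆ A1 := by rw [← hI]; exact inter_subset_left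
  have habA2 : ({a, b} : Set Y) ⊆ A2 := by rw [← hI]; exact inter_subset_right
  have hPC : ∀ z ∈ P, z ∈ C → z ∈ ({a, b} : Set Y) := by
    intro z hz hzC
    by_contra h
    exact hdis (hPi ⟨hz, h⟩) hzC
  have hPU : P ⊆ U := by
    intro z hz
    by_cases h : z ∈ ({a, b} : Set Y)
    · exact hCU (hA1C (habA1 h))
    · exact hP.insU C hC hCU (hPi ⟨hz, h⟩)
  have hCcl : IsClosed C := by
    have h1 := (hARB Y A1 a b hA1).2.2.2.2.1.isClosed
    have h2 := (hARB Y A2 a b hA2).2.2.2.2.1.isClosed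
    rw [← h12]
    exact h1.union h2
  have hA1cl : IsClosed A1 := (hARB Y A1 a b hA1).2.2.2.2.1.isClosed
  have hA2cl : IsClosed A2 := (hARB Y A2 a b hA2).2.2.2.2.1.isClosed
  have hPcl : IsClosed P := (hARB Y P a b hPa).2.2.2.2.1.isClosed
  have hF : IsOpen (U \ (C ∪ P)) := hP.opU.sdiff (hCcl.union hPcl)
  have hwF : w ∈ U \ (C ∪ P) := by
    refine ⟨hP.insU C hC hCU hw, ?_⟩
    rintro (h | h)
    · exact hdis hw h
    · exact hwP h
  obtain ⟨R, hRo, hRc, hwR, hRF, hRcl⟩ := comp hP.lpc hF hwF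
  have hRU : R ⊆ U := fun x hx => (hRF hx).1
  have hRdC : ∀ x ∈ R, x ∉ C := fun x hx h => (hRF hx).2 (Or.inl h)
  have hRdP : ∀ x ∈ R, x ∉ P := fun x hx h => (hRF hx).2 (Or.inr h)
  have hRC : R ⊆ ins C := by
    rcases side hP hC hCU hRc.isPreconnected hRU (Set.disjoint_left.2 hRdC) with h | h
    · exact h
    · exact absurd (Or.inr hw) (h hwR).2
  have hRclo : closure R ∩ U ⊆ R ∪ (C ∪ P) := by
    rintro z ⟨hz, hzU⟩
    by_cases h : z ∈ C ∪ P
    · exact Or.inr h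
    · exact Or.inl (hRcl ⟨hz, hzU, h⟩)
  have hcloR : Clo U (C ∪ P) R := ⟨hRo, hRc.nonempty, hRF, hRclo⟩
  have hCPU : C ∪ P ⊆ U := union_subset hCU hPU
  have hCPcl : IsClosed (C ∪ P) := hCcl.union hPcl
  -- the outside
  set E := U \ (C ∪ ins C) with hE
  have hEo : IsOpen E := open_out hP hC hCU
  have hEc : IsConnected E := hP.out C hC hCU
  have hEdC : ∀ x ∈ E, x ∉ C := fun x hx h => hx.2 (Or.inl h)
  have hEdI : ∀ x ∈ E, x ∉ ins C := fun x hx h => hx.2 (Or.inr h)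
  have hcloE : Clo U C E := by
    refine ⟨hEo, hEc.nonempty, fun x hx => ⟨hx.1, hEdC x hx⟩, ?_⟩
    rintro z ⟨hz, hzU⟩
    by_cases h : z ∈ C
    · exact Or.inr h
    · refine Or.inl ⟨hzU, ?_⟩
      rintro (h' | h')
      · exact h h'
      · obtain ⟨u, hu1, hu2⟩ := mem_closure_iff.1 hz _ (hP.opn C hC hCU) h'
        exact hEdI u hu2 hu1
  -- accessible points
  obtain ⟨q1, hq1, -⟩ := second hARB hA1 a
  obtain ⟨q2, hq2, -⟩ := second hARB hA2 a
  obtain ⟨p1, hp1, hp1R⟩ := meets hP hC hCU (by rw [union_comm]; exact h12)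
    (by rw [inter_comm]; exact hI) hs2 hPU hi2 hPC ⟨q1, hq1⟩ hRc hRo hRF hRclo hwR hw2
  obtain ⟨p2, hp2, hp2R⟩ := meets hP hC hCU h12 hI hs1 hPU hi1 hPC ⟨q2, hq2⟩ hRc hRo hRF hRclo
    hwR hw1
  have n12 : ∀ z ∈ A1 \ {a, b}, z ∉ A2 := fun z hz h => hz.2 (by rw [← hI]; exact ⟨hz.1, h⟩)
  have n21 : ∀ z ∈ A2 \ {a, b}, z ∉ A1 := fun z hz h => hz.2 (by rw [← hI]; exact ⟨h, hz.1⟩)
  have n1P : ∀ z ∈ A1 \ {a, b}, z ∉ P := fun z hz h => hz.2 (hPC z h (hA1C hz.1))
  have n2P : ∀ z ∈ A2 \ {a, b}, z ∉ P := fun z hz h => hz.2 (hPC z h (hA2C hz.1))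
  have g1 : ∀ z ∈ C, z ∉ A2 → z ∈ A1 \ {a, b} := by
    intro z hz h
    rw [← h12] at hz
    exact ⟨hz.resolve_right h, fun h' => h (habA2 h')⟩
  have g2 : ∀ z ∈ C, z ∉ A1 → z ∈ A2 \ {a, b} := by
    intro z hz h
    rw [← h12] at hz
    exact ⟨hz.resolve_left h, fun h' => h (habA1 h')⟩
  obtain ⟨a1, ha1, -, hac1⟩ := acc hACC hP hCPcl hCPU hcloR (hA2cl.union hPcl)
    (G := A1 \ {a, b}) (by
      rintro z (hz | hz) h
      · exact g1 z hz fun h' => h (Or.inl h')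
      · exact absurd (Or.inr hz) h) (Or.inl (hA1C hp1.1)) hp1R (by
      rintro (h | h)
      · exact n12 p1 hp1 h
      · exact n1P p1 hp1 h)
  obtain ⟨a2, ha2, -, hac2⟩ := acc hACC hP hCPcl hCPU hcloR (hA1cl.union hPcl)
    (G := A2 \ {a, b}) (by
      rintro z (hz | hz) h
      · exact g2 z hz fun h' => h (Or.inl h')
      · exact absurd (Or.inr hz) h) (Or.inl (hA2C hp2.1)) hp2R (by
      rintro (h | h)
      · exact n21 p2 hp2 h
      · exact n2P p2 hp2 h)
  obtain ⟨r1, hr1, hr1'⟩ := second hARB hA1 a1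
  obtain ⟨r2, hr2, hr2'⟩ := second hARB hA2 a2
  have hCE := hP.outc C hC hCU
  obtain ⟨b1, hb1, hb1n, hbc1⟩ := acc hACC hP hCcl hCU hcloE (hA2cl.union
    (isClosed_singleton (x := a1))) (G := A1 \ {a, b}) (fun z hz h => g1 z hz fun h' =>
      h (Or.inl h')) (hA1C hr1.1) (hCE (hA1C hr1.1)) (by
      rintro (h | h)
      · exact n12 r1 hr1 h
      · exact hr1' h)
  obtain ⟨b2, hb2, hb2n, hbc2⟩ := acc hACC hP hCcl hCU hcloE (hA1cl.union
    (isClosed_singleton (x := a2))) (G := A2 \ {a, b}) (fun z hz h => g2 z hz fun h' =>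
      h (Or.inl h')) (hA2C hr2.1) (hCE (hA2C hr2.1)) (by
      rintro (h | h)
      · exact n21 r2 hr2 h
      · exact hr2' h)
  have hab1 : a1 ≠ b1 := fun h => hb1n (Or.inr h.symm)
  have hab2 : b2 ≠ a2 := fun h => hb2n (Or.inr h)
  have ha12 : a1 ≠ a2 := fun h => n12 a1 ha1 (h ▸ ha2.1)
  have hb12 : b1 ≠ b2 := fun h => n12 b1 hb1 (h ▸ hb2.1)
  obtain ⟨B1, hB1, hB1R⟩ := hACC.2 Y hP.lpc R a1 a2 hRo hRc ha12 hac1 hac2
  obtain ⟨B2, hB2, hB2E⟩ := hACC.2 Y hP.lpc E b1 b2 hEo hEc hb12 hbc1 hbc2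
  obtain ⟨D1, hD1, hD1s, H1, H2, hH1, hH2, haH1, hbH2, hH⟩ := sub hARB hA1 ha1 hb1 hab1
  obtain ⟨D2, hD2, hD2s, G1, G2, hG1, hG2, haG1, hbG2, hG⟩ := sub hARB hA2 hb2 ha2 hab2
  have eD1 := hARB Y D1 a1 b1 hD1
  have eD2 := hARB Y D2 b2 a2 hD2
  have eB1 := hARB Y B1 a1 a2 hB1
  have eB2 := hARB Y B2 b1 b2 hB2
  have eP := hARB Y P a b hPa
  have hD1C : D1 ⊆ C := fun z hz => hA1C (hD1s hz).1
  have hD2C : D2 ⊆ C := fun z hz => hA2C (hD2s hz).1
  -- the closed curve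
  have i1 : D1 ∩ B2 = {b1} := by
    ext z
    constructor
    · rintro ⟨h1, h2⟩
      by_contra h3
      by_cases h4 : z = b2
      · exact n12 z (hD1s h1) (h4 ▸ hb2.1)
      · exact hEdC z (hB2E ⟨h2, by rintro (h | h); exacts [h3 h, h4 h]⟩) (hD1C h1)
    · rintro rfl
      exact ⟨eD1.2.2.1, eB2.2.1⟩
  have k1 : Arc (D1 ∪ B2) a1 b2 := hGLU.2 Y D1 B2 a1 b1 b2 hD1 hB2 i1
  have i2 : (D1 ∪ B2) ∩ D2 = {b2} := by
    ext z
    constructor
    · rintro ⟨h1 | h1, h2⟩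
      · exact absurd (hD2s h2).1 (n12 z (hD1s h1))
      · by_contra h3
        by_cases h4 : z = b1
        · exact n21 z (hD2s h2) (h4 ▸ hb1.1)
        · exact hEdC z (hB2E ⟨h1, by rintro (h | h); exacts [h4 h, h3 h]⟩) (hD2C h2)
    · rintro rfl
      exact ⟨Or.inr eB2.2.2.1, eD2.2.1⟩
  have k2 : Arc ((D1 ∪ B2) ∪ D2) a1 a2 := hGLU.2 Y (D1 ∪ B2) D2 a1 b2 a2 k1 hD2 i2
  have hB1in : ∀ z ∈ B1, z ∉ ({a1, a2} : Set Y) → z ∈ R := fun z hz h => hB1R ⟨hz, h⟩
  have hB2in : ∀ z ∈ B2, z ∈ E ∨ z = b1 ∨ z = b2 := by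
    intro z hz
    by_cases h : z ∈ ({b1, b2} : Set Y)
    · exact Or.inr h
    · exact Or.inl (hB2E ⟨hz, h⟩)
  have i3 : ((D1 ∪ B2) ∪ D2) ∩ B1 = {a1, a2} := by
    ext z
    constructor
    · rintro ⟨h1, h2⟩
      by_contra h3
      have h4 := hB1in z h2 h3
      rcases h1 with (h1 | h1) | h1
      · exact hRdC z h4 (hD1C h1)
      · rcases hB2in z h1 with h5 | h5 | h5
        · exact hEdI z h5 (hRC h4)
        · exact hRdC z h4 (h5 ▸ hA1C hb1.1)
        · exact hRdC z h4 (h5 ▸ hA2C hb2.1)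
      · exact hRdC z h4 (hD2C h1)
    · rintro (rfl | rfl)
      · exact ⟨Or.inl (Or.inl eD1.2.1), eB1.2.1⟩
      · exact ⟨Or.inr eD2.2.2.1, eB1.2.2.1⟩
  set J := ((D1 ∪ B2) ∪ D2) ∪ B1 with hJdef
  have hJ : Scc J := (hGLU.1 Y _ B1 a1 a2 k2 hB1 i3).1
  have hJU : J ⊆ U := by
    rintro z (((h | h) | h) | h)
    · exact hCU (hD1C h)
    · rcases hB2in z h with h5 | h5 | h5
      · exact h5.1
      · exact hCU (h5 ▸ hA1C hb1.1)
      · exact hCU (h5 ▸ hA2C hb2.1)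
    · exact hCU (hD2C h)
    · by_cases h5 : z ∈ ({a1, a2} : Set Y)
      · rcases h5 with h5 | h5
        · exact hCU (h5 ▸ hA1C ha1.1)
        · exact hCU (h5 ▸ hA2C ha2.1)
      · exact hRU (hB1in z h h5)
  -- the connected set
  set S := (((P ∪ H1) ∪ H2) ∪ G1) ∪ G2 with hSdef
  have hS : IsPreconnected S := by
    have s1 := IsPreconnected.union a eP.2.1 haH1 eP.2.2.2.2.2.1.isPreconnected hH1
    have s2 := IsPreconnected.union b (Or.inl eP.2.2.1) hbH2 s1 hH2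
    have s3 := IsPreconnected.union a (Or.inl (Or.inl eP.2.1)) haG1 s2 hG1
    exact IsPreconnected.union b (Or.inl (Or.inl (Or.inl eP.2.2.1))) hbG2 s3 hG2
  have hSc : ∀ z ∈ S, z ∈ P ∨ z ∈ A1 \ D1 ∨ z ∈ A2 \ D2 := by
    rintro z ((((h | h) | h) | h) | h)
    · exact Or.inl h
    · exact Or.inr (Or.inl (by rw [hH]; exact Or.inl h))
    · exact Or.inr (Or.inl (by rw [hH]; exact Or.inr h))
    · exact Or.inr (Or.inr (by rw [hG]; exact Or.inl h))
    · exact Or.inr (Or.inr (by rw [hG]; exact Or.inr h))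
  have hSC : ∀ z ∈ C, z ∈ S ∨ z ∈ J := by
    intro z hz
    rw [← h12] at hz
    rcases hz with hz | hz
    · by_cases h : z ∈ D1
      · exact Or.inr (Or.inl (Or.inl (Or.inl h)))
      · have : z ∈ A1 \ D1 := ⟨hz, h⟩
        rw [hH] at this
        rcases this with h' | h'
        · exact Or.inl (Or.inl (Or.inl (Or.inl (Or.inr h'))))
        · exact Or.inl (Or.inl (Or.inl (Or.inr h')))
    · by_cases h : z ∈ D2
      · exact Or.inr (Or.inl (Or.inr h))
      · have : z ∈ A2 \ D2 := ⟨hz, h⟩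
        rw [hG] at this
        rcases this with h' | h'
        · exact Or.inl (Or.inl (Or.inr h'))
        · exact Or.inl (Or.inr h')
  have hSU : S ⊆ U := by
    intro z hz
    rcases hSc z hz with h | h | h
    · exact hPU h
    · exact hCU (hA1C h.1)
    · exact hCU (hA2C h.1)
  have hSJ : Disjoint S J := by
    rw [Set.disjoint_left]
    intro z hz hzJ
    rcases hSc z hz with h | h | h
    · rcases hzJ with ((h1 | h1) | h1) | h1
      · exact n1P z (hD1s h1) h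
      · rcases hB2in z h1 with h5 | h5 | h5
        · by_cases h6 : z ∈ ({a, b} : Set Y)
          · exact hEdC z h5 (hA1C (habA1 h6))
          · exact hEdI z h5 (hPi ⟨h, h6⟩)
        · exact n1P b1 hb1 (h5 ▸ h)
        · exact n2P b2 hb2 (h5 ▸ h)
      · exact n2P z (hD2s h1) h
      · by_cases h5 : z ∈ ({a1, a2} : Set Y)
        · rcases h5 with h5 | h5
          · exact n1P a1 ha1 (h5 ▸ h)
          · exact n2P a2 ha2 (h5 ▸ h)
        · exact hRdP z (hB1in z h1 h5) h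
    · rcases hzJ with ((h1 | h1) | h1) | h1
      · exact h.2 h1
      · rcases hB2in z h1 with h5 | h5 | h5
        · exact hEdC z h5 (hA1C h.1)
        · exact h.2 (h5 ▸ eD1.2.2.1)
        · exact n21 b2 hb2 (h5 ▸ h.1)
      · exact n21 z (hD2s h1) h.1
      · by_cases h5 : z ∈ ({a1, a2} : Set Y)
        · rcases h5 with h5 | h5
          · exact h.2 (h5 ▸ eD1.2.1)
          · exact n21 a2 ha2 (h5 ▸ h.1)
        · exact hRdC z (hB1in z h1 h5) (hA1C h.1)
    · rcases hzJ with ((h1 | h1) | h1) | h1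
      · exact n12 z (hD1s h1) h.1
      · rcases hB2in z h1 with h5 | h5 | h5
        · exact hEdC z h5 (hA2C h.1)
        · exact n12 b1 hb1 (h5 ▸ h.1)
        · exact h.2 (h5 ▸ eD2.2.1)
      · exact h.2 h1
      · by_cases h5 : z ∈ ({a1, a2} : Set Y)
        · rcases h5 with h5 | h5
          · exact n12 a1 ha1 (h5 ▸ h.1)
          · exact h.2 (h5 ▸ eD2.2.2.1)
        · exact hRdC z (hB1in z h1 h5) (hA2C h.1)
  -- the other side
  have fin : ∀ R' : Set Y, IsPreconnected R' → R' ⊆ U → Disjoint R' S → Disjoint R' J →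
      J ⊆ closure R' → False := by
    intro R' hR' hR'U h1 h2 h3
    have hd : Disjoint R' C := by
      rw [Set.disjoint_left]
      intro z hz hzC
      rcases hSC z hzC with h | h
      · exact Set.disjoint_left.1 h1 hz h
      · exact Set.disjoint_left.1 h2 hz h
    obtain ⟨z1, hz1, -⟩ := second hARB hB1 a
    obtain ⟨u1, hu1, hu1'⟩ := mem_closure_iff.1 (h3 (Or.inr hz1.1)) R hRo (hB1R hz1)
    obtain ⟨z2, hz2, -⟩ := second hARB hB2 a
    obtain ⟨u2, hu2, hu2'⟩ := mem_closure_iff.1 (h3 (Or.inl (Or.inl (Or.inr hz2.1)))) E hEo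
      (hB2E hz2)
    rcases side hP hC hCU hR' hR'U hd with h | h
    · exact hEdI u2 hu2 (h hu2')
    · exact (h hu1').2 (Or.inr (hRC hu1))
  have hJcl := hP.clos J hJ hJU
  rcases side hP hJ hJU hS hSU hSJ with h | h
  · refine fin (U \ (J ∪ ins J)) (hP.out J hJ hJU).isPreconnected sdiff_subset ?_ ?_
      (hP.outc J hJ hJU)
    · rw [Set.disjoint_left]
      exact fun z hz hz' => hz.2 (Or.inr (h hz'))
    · rw [Set.disjoint_left]
      exact fun z hz hz' => hz.2 (Or.inl hz')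
  · refine fin (ins J) (hP.conn J hJ hJU).isPreconnected (hP.insU J hJ hJU) ?_
      (hP.disj J hJ hJU) (by rw [hJcl]; exact subset_union_left)
    rw [Set.disjoint_left]
    exact fun z hz hz' => (h hz').2 (Or.inr hz)

end THB

theorem t_THB : M_THB := by
  intro hARB hGLU hACC hTHA Y _ U V hP C A1 A2 P a b hC hCU hA1 hA2 h12 hI hPa hPi
  obtain ⟨hs1, hs2, hi1, hi2, -⟩ := hTHA Y U V hP C A1 A2 P a b hC hCU hA1 hA2 h12 hI hPa hPi
  exact THB.main hARB hGLU hACC hP hC hCU hA1 hA2 h12 hI hPa hPi hs1 hs2 hi1 hi2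

end BBP


end

section

/-!
# Module THE: theta curves, summary
-/

namespace BBP

open Set Topology

theorem t_THE : M_THE := by
  intro hARB hTHA hTHB Y _ U V hPln C A1 A2 P a b hC hCU hA1 hA2 hun hint hP hPC
  obtain ⟨s1, s2, i1, i2, hd⟩ := hTHA Y U V hPln C A1 A2 P a b hC hCU hA1 hA2 hun hint hP hPC
  have hB := hTHB Y U V hPln C A1 A2 P a b hC hCU hA1 hA2 hun hint hP hPC
  obtain ⟨-, ha1, hb1, -⟩ := hARB Y A1 a b hA1
  obtain ⟨-, haP, hbP, -⟩ := hARB Y P a b hP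
  have hdC : Disjoint (ins C) C := hPln.disj C hC hCU
  have hA1C : A1 ⊆ C := by rw [← hun]; exact subset_union_left
  have hA2C : A2 ⊆ C := by rw [← hun]; exact subset_union_right
  have hPsub : P ⊆ C ∪ ins C := by
    intro x hx
    by_cases h : x ∈ ({a, b} : Set Y)
    · left
      rcases h with rfl | h
      · exact hA1C ha1
      · rw [mem_singleton_iff] at h
        rw [h]
        exact hA1C hb1
    · right
      exact hPC ⟨hx, h⟩
  refine ⟨s1, s2, hPsub, fun x hx => (i1 hx).1, fun x hx => (i2 hx).1, ?_, ?_, hd, ?_, ?_, hB⟩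
  · rw [Set.disjoint_left]
    exact fun x hx hxP => (i1 hx).2 hxP
  · rw [Set.disjoint_left]
    exact fun x hx hxP => (i2 hx).2 hxP
  · apply Subset.antisymm
    · rintro x (((hx | hx) | hx) | ((hx | hx) | hx))
      · exact Or.inl (hA1C hx)
      · exact hPsub hx
      · exact Or.inr (i1 hx).1
      · exact Or.inl (hA2C hx)
      · exact hPsub hx
      · exact Or.inr (i2 hx).1
    · rintro x (hx | hx)
      · rw [← hun] at hx
        rcases hx with hx | hx
        · exact Or.inl (Or.inl (Or.inl hx))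
        · exact Or.inr (Or.inl (Or.inl hx))
      · rcases hB hx with (h | h) | h
        · exact Or.inl (Or.inr h)
        · exact Or.inr (Or.inr h)
        · exact Or.inl (Or.inl (Or.inr h))
  · apply Subset.antisymm
    · rintro x ⟨(hx | hx) | hx, (hy | hy) | hy⟩
      · have : x ∈ A1 ∩ A2 := ⟨hx, hy⟩
        rw [hint] at this
        rcases this with h | h
        · rw [h]
          exact haP
        · rw [mem_singleton_iff] at h
          rw [h]
          exact hbP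
      · exact hy
      · exact absurd (hA1C hx) (Set.disjoint_left.1 hdC (i2 hy).1)
      · exact hx
      · exact hx
      · exact hx
      · exact absurd (hA2C hy) (Set.disjoint_left.1 hdC (i1 hx).1)
      · exact hy
      · exact absurd hy (Set.disjoint_left.1 hd hx)
    · intro x hx
      exact ⟨Or.inl (Or.inr hx), Or.inl (Or.inr hx)⟩

end BBP


end

section

/-!
# BBP, module ULC: the inside of a simple closed curve is uniformly locally connected
-/

set_option autoImplicit false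

namespace BBP

open Set Topology Metric
open Pool.Agent.LIX (CLog)

theorem t_ULC : M_ULC := by
  intro hSCB hARB Y _ U V h C hC hCV x hx W hW hxW
  have := h.lc
  have := h.lpc
  have hCU : C ⊆ U := hCV.trans h.sub
  obtain ⟨hCc, -, -, hiv, -, -, -⟩ := hSCB Y C hC
  -- a small neighbourhood
  obtain ⟨W', hW'o, hxW', hW'cl, hW'c⟩ := exists_open_between_and_isCompact_closure
    (isCompact_singleton (x := x)) (hW.inter h.opV) (singleton_subset_iff.2 ⟨hxW, hCV hx⟩)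
  rw [singleton_subset_iff] at hxW'
  obtain ⟨A, B, a, b, hA, -, hAB, -, hxB, hxA, hBW⟩ := hiv x hx W' hW'o hxW'
  obtain ⟨-, -, -, -, hAc, hAconn, -⟩ := hARB Y A a b hA
  have hAC : A ⊆ C := hAB ▸ subset_union_left
  have hop : IsOpen (W' \ A) := hW'o.sdiff hAc.isClosed
  have hxWA : x ∈ W' \ A := ⟨hxW', hxA⟩
  refine ⟨pathComponentIn (W' \ A) x, ?_, hop.pathComponentIn x,
    mem_pathComponentIn_self hxWA, ?_⟩
  · exact fun y hy => (hW'cl (subset_closure (pathComponentIn_subset hy).1)).1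
  rintro y ⟨hy1, hy2⟩ z ⟨hz1, hz2⟩
  have hj : JoinedIn (W' \ A) y z := (JoinedIn.symm hy1).trans hz1
  have hins : IsPathConnected (ins C) :=
    ((h.opn C hC hCU).isConnected_iff_isPathConnected).1 (h.conn C hC hCU)
  have hj1 : JoinedIn (V \ C) y z := (hins.joinedIn y hy2 z hz2).mono fun p hp =>
    ⟨h.insV C hC hCV hp, fun hpC => disjoint_left.1 (h.disj C hC hCU) hp hpC⟩
  have hj2 : JoinedIn (V \ (A ∪ (closure W' \ W'))) y z := hj.mono fun p hp =>
    ⟨(hW'cl (subset_closure hp.1)).2, fun hp' => hp'.elim hp.2 fun h' => h'.2 hp.1⟩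
  have hint : C ∩ (A ∪ (closure W' \ W')) = A := by
    ext p
    constructor
    · rintro ⟨hp1, hp2 | hp2⟩
      · exact hp2
      · rw [← hAB] at hp1
        rcases hp1 with hp1 | hp1
        · exact hp1
        · exact absurd (hBW hp1) hp2.2
    · exact fun hp => ⟨hAC hp, Or.inl hp⟩
  obtain ⟨γ, hγ⟩ := h.jan C (A ∪ (closure W' \ W')) hCc
    (hAc.union (hW'c.diff hW'o)) hCV
    (union_subset (hAC.trans hCV) fun p hp => (hW'cl hp.1).2)
    (by rw [hint]; exact hAconn) y z hj1 hj2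
  have hpc : IsPreconnected (range γ) := isPreconnected_range γ.continuous
  have hyr : y ∈ range γ := ⟨0, γ.source⟩
  have h1 : range γ ⊆ ins C := by
    refine hpc.subset_of_closure_inter_subset (h.opn C hC hCU) ⟨y, hyr, hy2⟩ ?_
    rintro p ⟨hp1, t, rfl⟩
    rw [h.clos C hC hCU] at hp1
    rcases hp1 with hp1 | hp1
    · exact absurd (Or.inl hp1) (hγ t).2
    · exact hp1
  have h2 : range γ ⊆ W' := by
    refine hpc.subset_of_closure_inter_subset hW'o
      ⟨y, hyr, (pathComponentIn_subset hy1).1⟩ ?_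
    rintro p ⟨hp1, t, rfl⟩
    by_contra hp2
    exact (hγ t).2 (Or.inr (Or.inr ⟨hp1, hp2⟩))
  exact ⟨γ, fun t => ⟨(hW'cl (subset_closure (h2 ⟨t, rfl⟩))).1, h1 ⟨t, rfl⟩⟩⟩

end BBP


end

section

/-!
# MP_6eac38_gt, part 3: module XCT (cross-cuts)
-/

set_option autoImplicit false

namespace BBP

theorem t_XCT : M_XCT := by
  intro hA hP Y _ U V h C hC hCV a ha b hb hab
  have hCU : C ⊆ U := hCV.trans h.sub
  exact hA.2 Y h.lpc (ins C) a b (h.opn C hC hCU) (h.conn C hC hCU) hab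
    (hP Y U V h C hC hCV a ha) (hP Y U V h C hC hCV b hb)

end BBP


end

section

/-!
# BBP, block D: back and forth, the complex plane, final assembly

Module `X` proves `theorem t_X : M_X` (or `t_X : S_X` if there is no `M_X`) in the namespace `BBP`, in the file
`Pool/Agent/BBP/D_X.lean`, importing this file.
-/

set_option autoImplicit false

namespace BBP

open Set Topology Metric CTO
open Pool.Agent.LIX (CLog)

/-! ## 1. Back and forth -/

/-- the closed cell -/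
def cel {Y : Type} [TopologicalSpace Y] (C : Set Y) : Set Y := C ∪ ins C

/-- a finite system of pairs of cells with a homeomorphism `g` of the unions of the boundary curves -/
structure Sta {Y Y' : Type} [MetricSpace Y] [MetricSpace Y'] (S : Set (Set Y))
    (S' : Set (Set Y')) (K : Set Y) (K' : Set Y') (Sg : Set (Set Y × Set Y')) (g : Y → Y') :
    Prop where
  fin : Sg.Finite
  mem : ∀ q ∈ Sg, q.1 ∈ S ∧ q.2 ∈ S'
  img : ∀ q ∈ Sg, g '' q.1 = q.2
  cov : (⋃ q ∈ Sg, cel q.1) = K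
  cov' : (⋃ q ∈ Sg, cel q.2) = K'
  int : ∀ q ∈ Sg, ∀ r ∈ Sg, q ≠ r → cel q.1 ∩ cel r.1 ⊆ q.1 ∩ r.1
  int' : ∀ q ∈ Sg, ∀ r ∈ Sg, q ≠ r → cel q.2 ∩ cel r.2 ⊆ q.2 ∩ r.2
  inj : InjOn g (⋃ q ∈ Sg, q.1)
  cont : ContinuousOn g (⋃ q ∈ Sg, q.1)

/-- `Sg'` refines `Sg` -/
def Ref {Y Y' : Type} [TopologicalSpace Y] [TopologicalSpace Y'] (Sg Sg' : Set (Set Y × Set Y')) :
    Prop := ∀ q' ∈ Sg', ∃ q ∈ Sg, cel q'.1 ⊆ cel q.1 ∧ cel q'.2 ⊆ cel q.2

/-- STP. One cross-cut. PROOF. `g a ≠ g b` are in `q.2 = g '' q.1`; `P'`: a cross-cut of `q.2` from `g a` to `g b` (`Cel.cross`). `g '' A1`, `g '' A2` are arcs from `g a` to `g b` with union `q.2` and intersection `{g a, g b}` (`g` is continuous and injective on `q.1`), so `Cel.split` applies to `q.2` too.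
`g' = g` on `G = ⋃ q.1`, and `g' = α' ∘ α⁻¹ : P → P'` on `P` (parametrisations, `a ↦ g a`, `b ↦ g b`); well defined: `P \ {a, b} ⊆ ins q.1` is disjoint from `q.1` and from the other curves `r.1` (`r.1 ∩ cel q.1 ⊆ q.1` by `int`). `G` and `P` are compact, so `g'` is continuous on `G ∪ P`; injective as `P' \ {g a, g b}` is
disjoint from `g '' G = ⋃ q.2`. `int`: for the two new cells `cel ∩ cel = P`; for a new cell, say `A1 ∪ P`, and an old `r ≠ q`: a common point is in `cel q.1 ∩ cel r.1 ⊆ q.1 ∩ r.1`, and if it is in `A2` then it is in both new cells, so in `P`; so it is in `A1 ∪ P`. Similarly in `Y'`. -/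
def S_STP : Prop := ∀ (Y Y' : Type) [MetricSpace Y] [MetricSpace Y'] (S : Set (Set Y))
  (S' : Set (Set Y')) (K : Set Y) (K' : Set Y') (Sg : Set (Set Y × Set Y')) (g : Y → Y'),
  Cel S → Cel S' → Sta S S' K K' Sg g → ∀ q ∈ Sg, ∀ (A1 A2 P : Set Y) (a b : Y), Arc A1 a b →
  Arc A2 a b → A1 ∪ A2 = q.1 → A1 ∩ A2 = {a, b} → Arc P a b → P \ {a, b} ⊆ ins q.1 →
  ∃ (B1 B2 : Set Y') (g' : Y → Y'),
    Sta S S' K K' ((Sg \ {q}) ∪ {(A1 ∪ P, B1), (A2 ∪ P, B2)}) g' ∧
    Ref Sg ((Sg \ {q}) ∪ {(A1 ∪ P, B1), (A2 ∪ P, B2)})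

def M_STP : Prop := S_ARB → S_STP

/-- RFN. Refinement along a division. PROOF. (I) For one cell: if `Div R C`, then for every state `Sg, g` and `q ∈ Sg` with `q.1 = C` there is a state `Sg', g'` that refines it such that every `q' ∈ Sg'` is in `Sg \ {q}` or has `R q'.1`: induction on `Div`; node: S_STP, then the induction hypothesis for the
first new cell, and, if the second new cell `q2` is still there, for `q2` (it is in `Sg' `, or it is not and nothing has to be done). (II) By induction on the number of the members `q` of `Sg` that do not satisfy `R q.1`. `Ref` is transitive. -/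
def S_RFN : Prop := ∀ (Y Y' : Type) [MetricSpace Y] [MetricSpace Y'] (S : Set (Set Y))
  (S' : Set (Set Y')) (K : Set Y) (K' : Set Y') (Sg : Set (Set Y × Set Y')) (g : Y → Y')
  (R : Set Y → Prop), Cel S → Cel S' → Sta S S' K K' Sg g → (∀ q ∈ Sg, Div R q.1) →
  ∃ (Sg' : Set (Set Y × Set Y')) (g' : Y → Y'), Sta S S' K K' Sg' g' ∧ Ref Sg Sg' ∧
    ∀ q ∈ Sg', R q.1

def M_RFN : Prop := S_STP → S_RFN

/-- SWP. Exchange the two spaces: `g` is a homeomorphism from the compact set `⋃ q.1` onto `⋃ q.2`. -/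
def S_SWP : Prop := ∀ (Y Y' : Type) [MetricSpace Y] [MetricSpace Y'] (S : Set (Set Y))
  (S' : Set (Set Y')) (K : Set Y) (K' : Set Y') (Sg : Set (Set Y × Set Y')) (g : Y → Y'),
  Cel S → Cel S' → K.Nonempty → Sta S S' K K' Sg g →
  ∃ g' : Y' → Y, Sta S' S K' K (Prod.swap '' Sg) g'

def M_SWP : Prop := S_SCB → S_SWP

/-- MSH. Small meshes. PROOF. `Cel.div` for `Y` and S_RFN, with `R C' = (C' ∈ S ∧ ∀ u v ∈ C' ∪ ins C', dist u v < ε)`; swap (S_SWP), `Cel.div` for `Y'` and S_RFN; swap back. The cells in `Y` stay small by `Ref`. (`Sg` is nonempty if `K` is.) -/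
def S_MSH : Prop := ∀ (Y Y' : Type) [MetricSpace Y] [MetricSpace Y'] (S : Set (Set Y))
  (S' : Set (Set Y')) (K : Set Y) (K' : Set Y') (Sg : Set (Set Y × Set Y')) (g : Y → Y'),
  Cel S → Cel S' → K.Nonempty → K'.Nonempty → Sta S S' K K' Sg g → ∀ ε : ℝ, 0 < ε →
  ∃ (Sg' : Set (Set Y × Set Y')) (g' : Y → Y'), Sta S S' K K' Sg' g' ∧ Ref Sg Sg' ∧
    ∀ q ∈ Sg', (∀ u ∈ cel q.1, ∀ v ∈ cel q.1, dist u v < ε) ∧
      ∀ u ∈ cel q.2, ∀ v ∈ cel q.2, dist u v < ε

def M_MSH : Prop := S_RFN → S_SWP → S_MSH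

/-- LIM. The homeomorphism. PROOF. Initial state: `{(C, C')}` with a homeomorphism `g : C → C'` (compare two parametrisations). By S_MSH there are states `Sg n, g n`, each refining the former one, with cells of diameter `< 1/(n+1)`. `R n = ⋃ q ∈ Sg n, cel q.1 ×ˢ cel q.2`: compact (`Cel.cpt`), decreasing by `Ref`;
`R = ⋂ R n`. For `x ∈ cel C` the sets `{y | (x, y) ∈ R n}` are nonempty (`cov`), compact and decreasing, so there is `y` with `(x, y) ∈ R`. It is unique: if `(x, y), (x, y') ∈ R n` via `q`, `r`: if `q = r` then `dist y y' < 1/(n+1)`; otherwise `x ∈ cel q.1 ∩ cel r.1 ⊆ q.1 ∩ r.1`, so `g x ∈ q.2 ∩ r.2` and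
`dist y y' ≤ dist y (g x) + dist (g x) y' < 2/(n+1)`. Symmetrically, for every `y ∈ cel C'` there is exactly one `x` (if `y ∈ cel q.2 ∩ cel r.2 ⊆ q.2 ∩ r.2`, `y = g u = g v` with `u ∈ q.1`, `v ∈ r.1`, then `u = v` by `inj`). So `R` is the graph of a bijection `h : cel C → cel C'`, continuous because `R` is compact. -/
def S_LIM : Prop := ∀ (Y Y' : Type) [MetricSpace Y] [MetricSpace Y'] (S : Set (Set Y))
  (S' : Set (Set Y')), Cel S → Cel S' → ∀ C ∈ S, ∀ C' ∈ S', ∃ h : Y → Y',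
    ContinuousOn h (cel C) ∧ InjOn h (cel C) ∧ h '' cel C = cel C'

def M_LIM : Prop := S_SCA → S_SCB → S_MSH → S_LIM

/-! ## 2. The complex plane -/

/-- CPS. Compact proper subsets of a circle. PROOF. Let `p = y + r exp (i τ)` be a point of the circle not in `A`, `γ t = y + r exp (i (τ + 2 π t))`, `A' = {t ∈ [0, 1] | γ t ∈ A}` (compact), `h` a Tietze extension of `f ∘ γ` from `A'` to `ℝ`, `h ≠ 0` on the `δ`-neighbourhood of `A'`. Let `N > 1/δ`. By induction on `k`,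
`h` has a logarithm on `A' ∩ [0, k/N]`: if `[k/N, (k+1)/N]` meets `A'`, `h` has a logarithm on this interval (`cLog_convex`), adjust it by a constant at `k/N` if `k/N ∈ A'`, and glue (the two closed sets have at most the point `k/N` in common). So `f ∘ γ` has a logarithm on `A'`; `γ` is injective on
`A'` (`0, 1 ∉ A'`): `CLog.image`. -/
def S_CPS : Prop := ∀ (y : ℂ) (r : ℝ) (A : Set ℂ) (f : ℂ → ℂ), 0 < r → A ⊆ sphere y r →
  A ≠ sphere y r → IsCompact A → ContinuousOn f A → (∀ x ∈ A, f x ≠ 0) → CLog A f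

/-- OMC. Minimal membranes in the plane are open. PROOF. Let `x ∈ K \ L` and suppose that `x` is not an interior point of `K`. Let `closedBall x (4 s)` be disjoint from `L`, `y ∉ K` with `dist x y < s`, `r = 2 s`, `B = ball y r ∋ x`, `closedBall y r` is disjoint from `L`. By hypothesis (`W = B`) `f` extends to `F` on
`(K \ B) ∪ L = K \ B`. Let `A = K ∩ sphere y r`. There is a continuous `G` on `sphere y r` without zeros, `G = F` on `A`: if `A = sphere y r` take `F`; otherwise `F` has a logarithm on `A` (S_CPS), extend it by Tietze's theorem. Let `π z = y + r (z - y) / ‖z - y‖`. `F` on `K \ B` and `G ∘ π` on `K ∩ closedBall y r` (`y ∉ K`) agree on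
`A` and give an extension of `f` to `K`: contradiction. So `K \ L` is open (every point is an interior point of `K`, and `L` is closed). -/
def S_OMC : Prop := ∀ (L K : Set ℂ) (f : ℂ → ℂ), IsCompact L → IsCompact K → L ⊆ K →
  ContinuousOn f L → (∀ x ∈ L, f x ≠ 0) → ¬ ExtC L K f →
  (∀ W : Set ℂ, IsOpen W → (W ∩ (K \ L)).Nonempty → ExtC L ((K \ W) ∪ L) f) → IsOpen (K \ L)

def M_OMC : Prop := S_CPS → S_OMC

/-- CPL. The plane as an example. `Ax ℂ`: `loc` with balls and straight lines, `om` is S_OMC. Circles: `γ t = r exp (2 π i t)`, generator `z / r`. `Uni`: `mem.ess`: a function without zeros on the closed disk cannot be `z / 3` on the circle (`exists_zero_of_sphere` in `Pool/Agent/LIX/Bors.lean`), `contr`: straight lines to `0`. `ins (sphere 0 r) = ball 0 r`: the ball is a member of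
the family in the definition of `ins`; let `Q` be a member: if it contains a point `z` with `‖z‖ > r`, it contains the ray `{t z | t ≥ 1}` (connected, disjoint from the sphere; `Q` is open, and closed in the complement of the sphere as `sphere ∪ Q` is compact), but it is bounded. -/
def S_CPL : Prop := Ax ℂ ∧ (∀ r : ℝ, 0 < r → Scc (sphere (0 : ℂ) r) ∧
    ins (sphere (0 : ℂ) r) = ball 0 r) ∧
  Uni (ball (0 : ℂ) 3) (sphere 0 3) (closedBall 0 3) (fun z => z / 3)

def M_CPL : Prop := S_OMC → S_CPL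

/-! ## 3. Discs and 3-cells -/

/-- DSC. A disc in `Y`. PROOF. S_UNI: `Uni U J0 T0 f0`. Let `x ∈ U` (`mem.conn`), point function `F` at `x` (S_PNT), scc `J ⊆ U` from S_SML (`W = univ`). S_PLN: `Pln U (ins J)`. `Pln.sml` at a point of `ins J` (`connV`): an scc `C ⊆ ins J`. S_CEL: `Cel {C | Scc C ∧ C ⊆ ins J}`. In the plane: S_CPL, S_PLN with `J = sphere 0 2 ⊆ ball 0 3`, S_CEL, and
`sphere 0 1 ⊆ ball 0 2 = ins (sphere 0 2)`. S_LIM from `ℂ` to `Y`: `cel (sphere 0 1) = closedBall 0 1`. -/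
def S_DSC : Prop := ∀ (Y : Type) [MetricSpace Y], Ax Y → (∃ (L K : Set Y) (f : Y → ℂ),
  IsCompact L ∧ IsCompact K ∧ L ⊆ K ∧ ContinuousOn f L ∧ (∀ x ∈ L, f x ≠ 0) ∧ ¬ ExtC L K f) →
  ∃ h : ℂ → Y, ContinuousOn h (closedBall 0 1) ∧ InjOn h (closedBall 0 1)

def M_DSC : Prop := S_UNI → S_PNT → S_SML → S_PLN → S_CEL → S_CPL → S_LIM → S_DSC

/-- MNI. The interval: `ess`: connectedness; `min`: let `z ∈ O`; `Oᶜ ∩ [0, z]` and `Oᶜ ∩ [z, 1]`. -/
def S_MNI : Prop := MinZ (⟨0, by norm_num, by norm_num⟩ : Icc (0 : ℝ) 1) ⟨1, by norm_num, by norm_num⟩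

/-- ARZ. An arc in the second factor. PROOF. `k ∈ A`. `b0 ∈ B` is not isolated in `Z`. S_LCA at `e (k, b0)` with `W = e '' (A ×ˢ B)`: `W1`, `H`. There is `b1 ≠ b0` with `e (k, b1) ∈ W1` (continuity). `t ↦` second coordinate of the unique `q ∈ A ×ˢ B` with `e q = H (e (k, b1), t)` is a path in `Z` from `b1` to `b0` (`e` is a homeomorphism onto its
range, `K × Z` is compact). S_PTA: an arc. -/
def S_ARZ : Prop := ∀ (X K Z : Type) [MetricSpace X] [CompactSpace X] [MetricSpace K]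
  [CompactSpace K] [MetricSpace Z] [CompactSpace Z] (e : K × Z → X) (A : Set K) (B : Set Z)
  (b0 : Z), IsANR X → Continuous e → Function.Injective e → IsOpen (e '' (A ×ˢ B)) →
  A.Nonempty → b0 ∈ B → (∀ N : Set Z, IsOpen N → b0 ∈ N → ∃ b1 ∈ N, b1 ≠ b0) →
  ∃ ζ : ℝ → Z, ContinuousOn ζ (Icc 0 1) ∧ InjOn ζ (Icc 0 1)

def M_ARZ : Prop := S_LCA → S_PTA → S_ARZ

/-- AXY. The factor. PROOF. Let `Y = Lᶜ` (subtype), `Z = [0, 1]`, `a = 0`, `b = 1`. By S_OPA and S_MNI `O = e '' (Lᶜ ×ˢ {a, b}ᶜ)` is open in `X`, and `e` is a homeomorphism from `Y × (0, 1)` onto it. `Ax Y`: `lc`: open subset of a compact space. `conn`: nonempty, since otherwise `L = univ` and `f` itself is an extension; if `Y` is the union of disjoint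
nonempty open `O1, O2` (open in `K`): `f` extends to `O1ᶜ` and to `O2ᶜ` (`MinK.min`), closed sets with union `K` and intersection `L`: `f` extends to `K`. `ncpt`: if `Y` is compact, `Lᶜ` is closed, and `f` on `L`, `1` on `Lᶜ` is an extension. `loc`: let `y ∈ W`, `W` open in `Y`; S_LCA at `e (y, 1/2)` with `e '' (W ×ˢ (0, 1))` (open in `X`) gives `𝒲1`, `H`;
`W1 = {y' ∈ W | e (y', 1/2) ∈ 𝒲1}`, and the homotopy is the first coordinate of `e⁻¹ (H (e (y', 1/2), t))`. `om`: let `L', K'` be compact in `Y`, `f'` minimal. Apply S_OPA to the compact space `K'` (subtype), `L'`, `f'` (restricted), `e (·, ·)` restricted: `MinK` holds (a set `W` open in `K'`, nonempty and disjoint from `L'` is `K' ∩ W'`; `W' ∩ (K' \ L') ≠ ∅`, and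
`(K' \ W') ∪ L' = K' \ W'`). So `e '' ((K' \ L') ×ˢ {a, b}ᶜ)` is open in `X`, hence `K' \ L'` is open in `Y` (preimage under `y ↦ e (y, 1/2)`). Last item: let `x ∈ Y` and `W` an open neighbourhood of `x` in `K` with `closure W ⊆ Lᶜ`; `F` an extension of `f` to `Wᶜ`; the pair `closure W \ W ⊆ closure W` with `F`: an extension to `closure W` would give an extension
of `f` to `K`. -/
def S_AXY : Prop := ∀ (X K : Type) [MetricSpace X] [CompactSpace X] [MetricSpace K]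
  [CompactSpace K] (e : K × Icc (0 : ℝ) 1 → X) (L : Set K) (f : K → ℂ), IsANR X → Homog X →
  ShrLE X 3 → Continuous e → Function.Injective e → MinK L f →
  Ax (Lᶜ : Set K) ∧ ∃ (L' K' : Set (Lᶜ : Set K)) (f' : (Lᶜ : Set K) → ℂ),
    IsCompact L' ∧ IsCompact K' ∧ L' ⊆ K' ∧ ContinuousOn f' L' ∧ (∀ x ∈ L', f' x ≠ 0) ∧
      ¬ ExtC L' K' f'

def M_AXY : Prop := S_LCA → S_OPA → S_MNI → S_AXY

/-- PRM. Products give manifolds. PROOF. By `CTO.S_SHR` we may use `ShrLE`. `ShrLE (K × Z) 3` by S_EMB, so by S_NPR `¬ ShrLE K 1` or `¬ ShrLE Z 1`; exchanging `K` and `Z` we may assume `¬ ShrLE K 1` (and `¬ ShrLE Z 0`). (If `K × Z` is empty, `ShrLE (K × Z) 2`; so `Z` has a point and S_EMB gives `ShrLE K 3`.) S_NEX: `L, K', f` in `K`; S_KMN: `K0, L', f'` with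
`MinK L' f'`. S_DI0: `a ≠ b` in `Z`, `¬ Sepd univ a b`; S_ZMN: `Z0`, `a', b'`, `MinZ a' b'`. `e` restricted to `K0 × Z0`. S_OPA: `e '' (L'ᶜ ×ˢ {a', b'}ᶜ)` is open. `L'ᶜ ≠ ∅` (otherwise `f'` extends). There is a point `b0 ≠ a', b'` in `Z0`, and it is not isolated: if `Z0 = {a', b'}` then `Sepd univ a' b'`; if `{b0}` is open, `MinZ.min` for `{b0}` separates `Z0 \ {b0}` by closed
`A, B`, and then `A ∪ {b0}`, `B` separate `Z0`. S_ARZ: an arc `ζ`. `e' (k, t) = e (k, ζ t)` on `K0 × [0, 1]`. S_AXY and S_DSC: `h : closedBall 0 1 → L'ᶜ` continuous, injective. `(Fin 3 → ℝ) → X`, `v ↦ e' (h ((v 0 + i v 1) / 2), (1 + v 2) / 2)` on the cube: `ContainsCell`-data; `CTO.S_CELL2` and `CTO.S_MAN2`: `IsMfd3 X`. -/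
def S_PRM : Prop := ∀ (X : Type) [MetricSpace X] [CompactSpace X], IsANR X → Homog X →
  ShrLE X 3 → HasProduct X → IsMfd3 X

def M_PRM : Prop := S_SHR → S_EMB → S_NPR → S_NEX → S_KMN → S_DI0 → S_ZMN → S_OPA → S_ARZ →
  S_AXY → S_DSC → S_CELL2 → S_MAN2 → S_PRM

/-- MAIN3. `X` is nonempty (otherwise `ShrLE X 2`). Manifold → flow: S_ROT. Flow → product: S_FLP. Product → manifold: S_PRM. -/
def M_MAIN3 : Prop := S_SHR → S_ROT → S_FLP → S_PRM → MainStmt3

end BBP


end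

section

/-!
# BBP, module ARZ: an arc in the second factor
-/

set_option autoImplicit false

namespace BBP

open Set Topology Metric CTO

theorem t_ARZ : M_ARZ := by
  intro hLCA hPTA X K Z _ _ _ _ _ _ e A B b0 hX he hinj hop hA hb0 hiso
  obtain ⟨k, hk⟩ := hA
  have : Nonempty (K × Z) := ⟨(k, b0)⟩
  obtain ⟨W1, _, hW1o, hxW1, H, hH, hH0, hH1, hHW⟩ :=
    hLCA X hX (e (k, b0)) (e '' (A ×ˢ B)) hop ⟨(k, b0), ⟨hk, hb0⟩, rfl⟩
  have hek : Continuous fun b : Z => e (k, b) := he.comp (by fun_prop)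
  obtain ⟨b1, hb1, hne⟩ := hiso ((fun b : Z => e (k, b)) ⁻¹' W1) (hW1o.preimage hek) hxW1
  have hb1W : e (k, b1) ∈ W1 := hb1
  set p : ℝ → K × Z := fun t => Function.invFun e (H (e (k, b1), t)) with hp
  have hep : ∀ t ∈ Icc (0 : ℝ) 1, e (p t) = H (e (k, b1), t) := by
    intro t ht
    obtain ⟨q, _, hq⟩ := hHW _ hb1W t ht
    exact Function.invFun_eq ⟨q, hq⟩
  have hemb : IsClosedEmbedding e := he.isClosedEmbedding hinj
  have hpc : ContinuousOn p (Icc 0 1) := by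
    rw [hemb.isInducing.continuousOn_iff]
    have h1 : ContinuousOn (fun t : ℝ => H (e (k, b1), t)) (Icc 0 1) := by
      refine hH.comp (by fun_prop) ?_
      intro t ht
      exact ⟨hb1W, ht⟩
    exact h1.congr fun t ht => hep t ht
  have hp0 : p 0 = (k, b1) := by
    simp only [hp]
    rw [hH0 _ hb1W]
    exact Function.leftInverse_invFun hinj _
  have hp1 : p 1 = (k, b0) := by
    simp only [hp]
    rw [hH1 _ hb1W]
    exact Function.leftInverse_invFun hinj _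
  have hqc : ContinuousOn (fun t => (p t).2) (Icc 0 1) := continuous_snd.comp_continuousOn hpc
  have hq : (fun t => (p t).2) 0 ≠ (fun t => (p t).2) 1 := by
    show (p 0).2 ≠ (p 1).2
    rw [hp0, hp1]
    exact hne
  obtain ⟨A', _, α, hα1, hα2, _⟩ := hPTA.1 Z (fun t => (p t).2) hqc hq
  exact ⟨α, hα1, hα2⟩

end BBP


end

section

/-!
# BBP: the factor of a product is plane-like
-/

set_option autoImplicit false

namespace BBP

open Set Topology Metric CTO
open Pool.Agent.LIX (CLog)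

namespace AXY

theorem glue {Z : Type} [TopologicalSpace Z] {A B : Set Z} (hA : IsClosed A) (hB : IsClosed B)
    {F1 F2 : Z → ℂ} (h1 : ContinuousOn F1 A) (h2 : ContinuousOn F2 B)
    (heq : ∀ x ∈ A, x ∈ B → F1 x = F2 x) (n1 : ∀ x ∈ A, F1 x ≠ 0) (n2 : ∀ x ∈ B, F2 x ≠ 0) :
    ∃ F : Z → ℂ, ContinuousOn F (A ∪ B) ∧ (∀ x ∈ A ∪ B, F x ≠ 0) ∧ EqOn F F1 A ∧
      EqOn F F2 B := by
  classical
  have e1 : EqOn (fun x => if x ∈ A then F1 x else F2 x) F1 A := fun x hx => if_pos hx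
  have e2 : EqOn (fun x => if x ∈ A then F1 x else F2 x) F2 B := by
    intro x hx
    show (if x ∈ A then F1 x else F2 x) = F2 x
    split_ifs with h
    · exact heq x h hx
    · rfl
  refine ⟨fun x => if x ∈ A then F1 x else F2 x,
    (h1.congr e1).union_of_isClosed (h2.congr e2) hA hB, ?_, e1, e2⟩
  rintro x (hx | hx)
  · rw [e1 hx]
    exact n1 x hx
  · rw [e2 hx]
    exact n2 x hx

/-- functions on a subset, extended by a constant -/
theorem exists_ext {Z : Type} [TopologicalSpace Z] (A : Set Z) (G : A → ℂ) :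
    ∃ Gt : Z → ℂ, (∀ y : A, Gt y = G y) ∧
      ∀ B : Set A, ContinuousOn G B → ContinuousOn Gt (Subtype.val '' B) := by
  classical
  refine ⟨fun z => if h : z ∈ A then G ⟨z, h⟩ else 0, ?_, ?_⟩
  · rintro ⟨y, hy⟩
    exact dif_pos hy
  · intro B hB
    rw [IsInducing.subtypeVal.continuousOn_image_iff]
    refine hB.congr ?_
    rintro ⟨y, hy⟩ _
    exact dif_pos hy

section

variable {K : Type} [MetricSpace K] [CompactSpace K] {L : Set K} {f : K → ℂ}

theorem conn (h : MinK L f) : ConnectedSpace (Lᶜ : Set K) := by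
  rw [connectedSpace_iff_clopen]
  have hLo : IsOpen Lᶜ := h.cl.isOpen_compl
  refine ⟨?_, ?_⟩
  · by_contra hne
    apply h.ess
    have hL : L = univ := by
      rw [eq_univ_iff_forall]
      intro x
      by_contra hx
      exact hne ⟨⟨x, hx⟩⟩
    rw [← hL]
    exact ⟨f, h.cont, h.ne, fun _ _ => rfl⟩
  · intro s hs
    by_contra hcon
    push Not at hcon
    obtain ⟨hs1, hs2⟩ := hcon
    have ho1 : IsOpen (Subtype.val '' s : Set K) := hLo.isOpenMap_subtype_val s hs.isOpen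
    have ho2 : IsOpen (Subtype.val '' sᶜ : Set K) := hLo.isOpenMap_subtype_val _ hs.compl.isOpen
    have hn1 : (Subtype.val '' s : Set K).Nonempty := hs1.image _
    have hn2 : (Subtype.val '' sᶜ : Set K).Nonempty :=
      (nonempty_compl.2 hs2).image _
    have hd : ∀ t : Set (Lᶜ : Set K), Disjoint (Subtype.val '' t : Set K) L := by
      intro t
      rw [Set.disjoint_left]
      rintro _ ⟨y, -, rfl⟩ hy
      exact y.2 hy
    obtain ⟨F1, c1, n1, q1⟩ := h.min _ ho1 hn1 (hd s)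
    obtain ⟨F2, c2, n2, q2⟩ := h.min _ ho2 hn2 (hd sᶜ)
    have heq : ∀ x ∈ (Subtype.val '' s : Set K)ᶜ, x ∈ (Subtype.val '' sᶜ : Set K)ᶜ →
        F1 x = F2 x := by
      intro x h1 h2
      have hx : x ∈ L := by
        by_contra hx
        by_cases hxs : (⟨x, hx⟩ : (Lᶜ : Set K)) ∈ s
        · exact h1 ⟨_, hxs, rfl⟩
        · exact h2 ⟨_, hxs, rfl⟩
      rw [q1 hx, q2 hx]
    obtain ⟨F, a1, a2, a3, -⟩ := glue ho1.isClosed_compl ho2.isClosed_compl c1 c2 heq n1 n2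
    have hu : (Subtype.val '' s : Set K)ᶜ ∪ (Subtype.val '' sᶜ : Set K)ᶜ = univ := by
      rw [eq_univ_iff_forall]
      intro x
      by_contra hx
      rw [mem_union, not_or, notMem_compl_iff, notMem_compl_iff] at hx
      obtain ⟨⟨y, hy, rfl⟩, ⟨z, hz, hzy⟩⟩ := hx
      rw [Subtype.val_injective hzy] at hz
      exact hz hy
    rw [hu] at a1 a2
    refine h.ess ⟨F, a1, a2, fun x hx => ?_⟩
    have hx1 : x ∈ (Subtype.val '' s : Set K)ᶜ := fun hx' => Set.disjoint_left.1 (hd s) hx' hx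
    rw [a3 hx1, q1 hx]

theorem ncpt (h : MinK L f) : ¬ CompactSpace (Lᶜ : Set K) := by
  intro hc
  have h1 : IsClosed Lᶜ := (isCompact_iff_compactSpace.2 hc).isClosed
  obtain ⟨F, a1, a2, a3, -⟩ := glue (F1 := f) (F2 := fun _ => 1) h.cl h1 h.cont
    continuousOn_const (fun x hx hx' => absurd hx hx') h.ne (fun _ _ => one_ne_zero)
  rw [union_compl_self] at a1 a2
  exact h.ess ⟨F, a1, a2, a3⟩

theorem nonext (h : MinK L f) : ∃ (L' K' : Set (Lᶜ : Set K)) (f' : (Lᶜ : Set K) → ℂ),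
    IsCompact L' ∧ IsCompact K' ∧ L' ⊆ K' ∧ ContinuousOn f' L' ∧ (∀ x ∈ L', f' x ≠ 0) ∧
      ¬ ExtC L' K' f' := by
  obtain ⟨⟨x, hx⟩⟩ := (conn h).toNonempty
  have hLo : IsOpen Lᶜ := h.cl.isOpen_compl
  obtain ⟨W, hWo, hxW, hWc⟩ : ∃ W : Set K, IsOpen W ∧ x ∈ W ∧ closure W ⊆ Lᶜ := by
    obtain ⟨W, hW1, hW2, hW3⟩ := exists_mem_nhds_isClosed_subset (hLo.mem_nhds hx)
    refine ⟨interior W, isOpen_interior, mem_interior_iff_mem_nhds.2 hW1, ?_⟩
    exact (closure_minimal interior_subset hW2).trans hW3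
  have hWL : Disjoint W L := by
    rw [Set.disjoint_left]
    intro y hy hy'
    exact hWc (subset_closure hy) hy'
  obtain ⟨F, c1, n1, q1⟩ := h.min W hWo ⟨x, hxW⟩ hWL
  have himg : ∀ A : Set K, A ⊆ Lᶜ → Subtype.val '' (Subtype.val ⁻¹' A : Set (Lᶜ : Set K)) = A := by
    intro A hA
    rw [Subtype.image_preimage_coe, inter_eq_right.2 hA]
  have hcpt : ∀ A : Set K, IsClosed A → A ⊆ Lᶜ →
      IsCompact (Subtype.val ⁻¹' A : Set (Lᶜ : Set K)) := by
    intro A hA hA2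
    rw [Subtype.isCompact_iff, himg A hA2]
    exact hA.isCompact
  have hB : IsClosed (closure W \ W) := isClosed_closure.sdiff hWo
  refine ⟨Subtype.val ⁻¹' (closure W \ W), Subtype.val ⁻¹' (closure W), fun y => F y,
    hcpt _ hB (diff_subset.trans hWc), hcpt _ isClosed_closure hWc,
    preimage_mono diff_subset, ?_, ?_, ?_⟩
  · refine c1.comp continuous_subtype_val.continuousOn ?_
    intro y hy
    exact hy.2
  · intro y hy
    exact n1 y hy.2
  · rintro ⟨G, g1, g2, g3⟩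
    obtain ⟨Gt, t1, t2⟩ := exists_ext (Lᶜ) G
    have t3 := t2 _ g1
    rw [himg _ hWc] at t3
    have hGF : ∀ y ∈ closure W, y ∈ Wᶜ → Gt y = F y := by
      intro y hy hy'
      have e1 := t1 ⟨y, hWc hy⟩
      have e2 := g3 (show (⟨y, hWc hy⟩ : (Lᶜ : Set K)) ∈ Subtype.val ⁻¹' (closure W \ W) from
        ⟨hy, hy'⟩)
      exact e1.trans e2
    have hGn : ∀ y ∈ closure W, Gt y ≠ 0 := by
      intro y hy
      have e1 := t1 ⟨y, hWc hy⟩
      rw [e1]
      exact g2 ⟨y, hWc hy⟩ hy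
    obtain ⟨H, a1, a2, -, a4⟩ := glue isClosed_closure hWo.isClosed_compl t3 c1 hGF hGn n1
    have hu : closure W ∪ Wᶜ = univ := by
      rw [eq_univ_iff_forall]
      intro y
      by_cases hy : y ∈ W
      · exact Or.inl (subset_closure hy)
      · exact Or.inr hy
    rw [hu] at a1 a2
    refine h.ess ⟨H, a1, a2, fun y hy => ?_⟩
    have hy' : y ∈ Wᶜ := fun hyW => Set.disjoint_left.1 hWL hyW hy
    rw [a4 hy', q1 hy]

end

/-- the middle of the interval -/
noncomputable def half : Icc (0 : ℝ) 1 := ⟨1 / 2, by norm_num, by norm_num⟩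

theorem half_mem : half ∈ ({⟨0, by norm_num, by norm_num⟩, ⟨1, by norm_num, by norm_num⟩} :
    Set (Icc (0 : ℝ) 1))ᶜ := by
  intro h
  rw [mem_insert_iff, mem_singleton_iff] at h
  rcases h with h | h
  · have h2 := congrArg Subtype.val h
    simp only [half] at h2
    norm_num at h2
  · have h2 := congrArg Subtype.val h
    simp only [half] at h2
    norm_num at h2

section main

variable {X K : Type} [MetricSpace X] [MetricSpace K] [CompactSpace K]

theorem open_img {Z : Type} [TopologicalSpace Z] [CompactSpace Z] {e : K × Z → X}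
    (he : Continuous e) (hi : Function.Injective e) {O V : Set (K × Z)} (hO : IsOpen (e '' O))
    (hV : IsOpen V) (hVO : V ⊆ O) : IsOpen (e '' V) := by
  have h1 : e '' V = e '' O ∩ (e '' Vᶜ)ᶜ := by
    ext z
    constructor
    · rintro ⟨p, hp, rfl⟩
      refine ⟨⟨p, hVO hp, rfl⟩, ?_⟩
      rintro ⟨p', hp', hpp⟩
      rw [hi hpp] at hp'
      exact hp' hp
    · rintro ⟨⟨p, hp, rfl⟩, h⟩
      refine ⟨p, ?_, rfl⟩
      by_contra hpV
      exact h ⟨p, hpV, rfl⟩
  rw [h1]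
  exact hO.inter (hV.isClosed_compl.isCompact.image he).isClosed.isOpen_compl

theorem loc [CompactSpace X] (hLCA : S_LCA) (hX : IsANR X) {e : K × Icc (0 : ℝ) 1 → X}
    {L : Set K} (hL : IsClosed L) (he : Continuous e) (hi : Function.Injective e)
    {J : Set (Icc (0 : ℝ) 1)} (hJ : half ∈ J) (hJo : IsOpen J) (hO : IsOpen (e '' (Lᶜ ×ˢ J)))
    (x : (Lᶜ : Set K)) (W : Set (Lᶜ : Set K)) (hW : IsOpen W) (hxW : x ∈ W) :
    ∃ W1 ⊆ W, IsOpen W1 ∧ x ∈ W1 ∧ ∃ H : (Lᶜ : Set K) × ℝ → (Lᶜ : Set K),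
      ContinuousOn H (W1 ×ˢ Icc 0 1) ∧ (∀ y ∈ W1, H (y, 0) = y) ∧ (∀ y ∈ W1, H (y, 1) = x) ∧
      ∀ y ∈ W1, ∀ t ∈ Icc (0 : ℝ) 1, H (y, t) ∈ W := by
  classical
  have hV : IsOpen ((Subtype.val '' W : Set K) ×ˢ J) :=
    (hL.isOpen_compl.isOpenMap_subtype_val W hW).prod hJo
  have hVO : (Subtype.val '' W : Set K) ×ˢ J ⊆ Lᶜ ×ˢ J := by
    rintro ⟨_, j⟩ ⟨⟨y, -, rfl⟩, hj⟩
    exact ⟨y.2, hj⟩
  obtain ⟨U, -, hUo, hxU, H, hH, h0, h1, hm⟩ := hLCA X hX (e (x.1, half))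
    (e '' ((Subtype.val '' W : Set K) ×ˢ J)) (open_img he hi hO hV hVO)
    ⟨(x.1, half), ⟨⟨x, hxW, rfl⟩, hJ⟩, rfl⟩
  have hemb : IsEmbedding e := (he.isClosedEmbedding hi).isEmbedding
  have hne : Nonempty (K × Icc (0 : ℝ) 1) := ⟨(x.1, half)⟩
  have hg : ∀ q, Function.invFun e (e q) = q := Function.leftInverse_invFun hi
  let j : (Lᶜ : Set K) → X := fun y => e (y.1, half)
  have hj : Continuous j := he.comp (continuous_subtype_val.prodMk continuous_const)
  let Q : (Lᶜ : Set K) × ℝ → K × Icc (0 : ℝ) 1 := fun p => Function.invFun e (H (j p.1, p.2))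
  let U1 : Set (Lᶜ : Set K) := {y | y ∈ W ∧ j y ∈ U}
  have hQ : ∀ p ∈ U1 ×ˢ Icc (0 : ℝ) 1, e (Q p) = H (j p.1, p.2) ∧
      ∃ y ∈ W, y.1 = (Q p).1 := by
    rintro ⟨y, t⟩ ⟨hy, ht⟩
    obtain ⟨q, ⟨⟨z, hz, hzq⟩, hq2⟩, hq⟩ := hm (j y) hy.2 t ht
    have hQq : Q (y, t) = q := by
      show Function.invFun e (H (j y, t)) = q
      rw [← hq, hg]
    rw [hQq]
    exact ⟨hq, z, hz, hzq⟩
  have hQc : ContinuousOn Q (U1 ×ˢ Icc (0 : ℝ) 1) := by
    rw [hemb.continuousOn_iff]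
    have h2 : ContinuousOn (fun p : (Lᶜ : Set K) × ℝ => H (j p.1, p.2))
        (U1 ×ˢ Icc (0 : ℝ) 1) := by
      refine hH.comp ((hj.comp continuous_fst).prodMk continuous_snd).continuousOn ?_
      rintro ⟨y, t⟩ ⟨hy, ht⟩
      exact ⟨hy.2, ht⟩
    exact h2.congr fun p hp => (hQ p hp).1
  let H2 : (Lᶜ : Set K) × ℝ → (Lᶜ : Set K) := fun p =>
    if h : (Q p).1 ∈ Lᶜ then ⟨(Q p).1, h⟩ else x
  have hH2 : ∀ p ∈ U1 ×ˢ Icc (0 : ℝ) 1, H2 p ∈ W ∧ (H2 p).1 = (Q p).1 := by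
    intro p hp
    obtain ⟨y, hy, hyq⟩ := (hQ p hp).2
    have hmem : (Q p).1 ∈ Lᶜ := by
      rw [← hyq]
      exact y.2
    have e1 : H2 p = ⟨(Q p).1, hmem⟩ := dif_pos hmem
    rw [e1]
    refine ⟨?_, rfl⟩
    have e2 : (⟨(Q p).1, hmem⟩ : (Lᶜ : Set K)) = y := Subtype.ext hyq.symm
    rw [e2]
    exact hy
  refine ⟨U1, fun y hy => hy.1, hW.inter (hUo.preimage hj), ⟨hxW, hxU⟩, H2, ?_, ?_, ?_, ?_⟩
  · rw [IsEmbedding.subtypeVal.continuousOn_iff]
    exact (continuous_fst.comp_continuousOn hQc).congr fun p hp => (hH2 p hp).2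
  · intro y hy
    have hp : (y, (0 : ℝ)) ∈ U1 ×ˢ Icc (0 : ℝ) 1 := ⟨hy, le_rfl, zero_le_one⟩
    apply Subtype.ext
    rw [(hH2 _ hp).2]
    show (Function.invFun e (H (j y, 0))).1 = y.1
    rw [h0 _ hy.2]
    show (Function.invFun e (e (y.1, half))).1 = y.1
    rw [hg]
  · intro y hy
    have hp : (y, (1 : ℝ)) ∈ U1 ×ˢ Icc (0 : ℝ) 1 := ⟨hy, zero_le_one, le_rfl⟩
    apply Subtype.ext
    rw [(hH2 _ hp).2]
    show (Function.invFun e (H (j y, 1))).1 = x.1
    rw [h1 _ hy.2, hg]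
  · intro y hy t ht
    exact (hH2 (y, t) ⟨hy, ht⟩).1

theorem om [CompactSpace X] (hOPA : S_OPA) (hMNI : S_MNI) (hX : IsANR X) (hHom : Homog X)
    (hShr : ShrLE X 3) {e : K × Icc (0 : ℝ) 1 → X} {L : Set K} (he : Continuous e)
    (hi : Function.Injective e) (L' K' : Set (Lᶜ : Set K)) (f' : (Lᶜ : Set K) → ℂ)
    (hL' : IsCompact L') (hK' : IsCompact K') (hLK : L' ⊆ K') (hc : ContinuousOn f' L')
    (hn : ∀ x ∈ L', f' x ≠ 0) (hess : ¬ ExtC L' K' f')
    (hmin : ∀ W : Set (Lᶜ : Set K), IsOpen W → (W ∩ (K' \ L')).Nonempty →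
      ExtC L' ((K' \ W) ∪ L') f') : IsOpen (K' \ L') := by
  have hcs : CompactSpace K' := isCompact_iff_compactSpace.1 hK'
  have hM : MinK (Subtype.val ⁻¹' L' : Set K') (fun k : K' => f' k.1) := by
    refine ⟨hL'.isClosed.preimage continuous_subtype_val,
      hc.comp continuous_subtype_val.continuousOn (fun k hk => hk), fun k hk => hn _ hk, ?_, ?_⟩
    · rintro ⟨F, c, n, q⟩
      obtain ⟨Ft, t1, t2⟩ := exists_ext K' F
      have t3 := t2 univ c
      rw [image_univ, Subtype.range_coe] at t3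
      refine hess ⟨Ft, t3, fun y hy => ?_, fun y hy => ?_⟩
      · rw [t1 ⟨y, hy⟩]
        exact n _ (mem_univ _)
      · exact (t1 ⟨y, hLK hy⟩).trans (q (show (⟨y, hLK hy⟩ : K') ∈ Subtype.val ⁻¹' L' from hy))
    · intro W hWo hWn hWd
      obtain ⟨W', hW'o, rfl⟩ := isOpen_induced_iff.1 hWo
      obtain ⟨k, hk⟩ := hWn
      obtain ⟨F, c, n, q⟩ := hmin W' hW'o ⟨k.1, hk, k.2, fun hkL => Set.disjoint_left.1 hWd hk hkL⟩
      refine ⟨fun k => F k.1, ?_, ?_, ?_⟩
      · exact c.comp continuous_subtype_val.continuousOn (fun k hk => Or.inl ⟨k.2, hk⟩)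
      · intro k hk
        exact n _ (Or.inl ⟨k.2, hk⟩)
      · intro k hk
        exact q hk
  have he2 : Continuous (fun p : K' × Icc (0 : ℝ) 1 => e (p.1.1.1, p.2)) := by
    refine he.comp (Continuous.prodMk ?_ continuous_snd)
    exact continuous_subtype_val.comp (continuous_subtype_val.comp continuous_fst)
  have hi2 : Function.Injective (fun p : K' × Icc (0 : ℝ) 1 => e (p.1.1.1, p.2)) := by
    rintro ⟨p1, p2⟩ ⟨q1, q2⟩ h
    have h2 := hi h
    rw [Prod.mk.injEq] at h2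
    obtain ⟨h3, h4⟩ := h2
    rw [Prod.mk.injEq]
    exact ⟨Subtype.ext (Subtype.ext h3), h4⟩
  have hO := hOPA X K' (Icc (0 : ℝ) 1) hX hHom hShr _ _ _ _ _ he2 hi2 hM hMNI
  have hpre : K' \ L' = (fun y : (Lᶜ : Set K) => e (y.1, half)) ⁻¹'
      ((fun p : K' × Icc (0 : ℝ) 1 => e (p.1.1.1, p.2)) ''
        ((Subtype.val ⁻¹' L' : Set K')ᶜ ×ˢ
          ({⟨0, by norm_num, by norm_num⟩, ⟨1, by norm_num, by norm_num⟩} :
            Set (Icc (0 : ℝ) 1))ᶜ)) := by
    ext y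
    constructor
    · rintro ⟨h1, h2⟩
      exact ⟨(⟨y, h1⟩, half), ⟨h2, half_mem⟩, rfl⟩
    · rintro ⟨⟨k, z⟩, ⟨h1, -⟩, h3⟩
      have h4 := hi h3
      rw [Prod.mk.injEq] at h4
      have h5 : k.1 = y := Subtype.ext h4.1
      rw [← h5]
      exact ⟨k.2, h1⟩
  rw [hpre]
  exact hO.preimage (he.comp (continuous_subtype_val.prodMk continuous_const))

end main

end AXY

/-- The factor of a product is plane-like. -/
theorem t_AXY : M_AXY := by
  intro hLCA hOPA hMNI X K _ _ _ _ e L f hX hHom hShr he hi hmin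
  have hO := hOPA X K (Icc (0 : ℝ) 1) hX hHom hShr e L f _ _ he hi hmin hMNI
  have hJo : IsOpen ({⟨0, by norm_num, by norm_num⟩, ⟨1, by norm_num, by norm_num⟩} :
      Set (Icc (0 : ℝ) 1))ᶜ := ((Set.finite_singleton _).insert _).isClosed.isOpen_compl
  refine ⟨⟨hmin.cl.isOpen_compl.isOpenEmbedding_subtypeVal.locallyCompactSpace, AXY.conn hmin,
    AXY.ncpt hmin, fun x W hW hx => ?_, fun L' K' f' h1 h2 h3 h4 h5 h6 h7 => ?_⟩,
    AXY.nonext hmin⟩
  · exact AXY.loc hLCA hX hmin.cl he hi AXY.half_mem hJo hO x W hW hx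
  · exact AXY.om hOPA hMNI hX hHom hShr he hi L' K' f' h1 h2 h3 h4 h5 h6 h7

end BBP


end

section

/-!
# BBP, module CPL: the plane as an example
-/

set_option autoImplicit false

namespace BBP

open Set Topology Metric Complex

namespace CPL

/-- the parametrised circle -/
noncomputable def circ (r : ℝ) (t : ℝ) : ℂ := r * exp (2 * Real.pi * t * I)

theorem circ_cont (r : ℝ) : Continuous (circ r) := by
  unfold circ
  fun_prop

theorem circ_norm {r : ℝ} (hr : 0 < r) (t : ℝ) : ‖circ r t‖ = r := by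
  have h : (2 * Real.pi * t * I : ℂ) = ((2 * Real.pi * t : ℝ) : ℂ) * I := by push_cast; ring
  rw [circ, h, norm_mul, norm_exp_ofReal_mul_I, mul_one, norm_real, Real.norm_eq_abs,
    abs_of_pos hr]

theorem circ_inj {r : ℝ} (hr : 0 < r) {s t : ℝ} (hs : s ∈ Ico (0 : ℝ) 1) (ht : t ∈ Ico (0 : ℝ) 1)
    (h : circ r s = circ r t) : s = t := by
  have hr0 : (r : ℂ) ≠ 0 := by exact_mod_cast hr.ne'
  have h1 : exp (2 * Real.pi * s * I) = exp (2 * Real.pi * t * I) := mul_left_cancel₀ hr0 h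
  rw [exp_eq_exp_iff_exists_int] at h1
  obtain ⟨n, hn⟩ := h1
  have hpi : (2 * Real.pi * I : ℂ) ≠ 0 := by
    simp [Real.pi_ne_zero]
  have h2 : ((s : ℝ) : ℂ) = ((t + n : ℝ) : ℂ) := by
    have h3 : (2 * Real.pi * I : ℂ) * s = (2 * Real.pi * I) * (t + n) := by
      linear_combination hn
    have h4 := mul_left_cancel₀ hpi h3
    push_cast
    exact h4
  have h5 : s = t + n := by exact_mod_cast h2
  have h6 : (n : ℝ) < 1 := by
    have := hs.2
    have := ht.1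
    linarith
  have h7 : (-1 : ℝ) < n := by
    have := hs.1
    have := ht.2
    linarith
  have h8 : n < 1 := by exact_mod_cast h6
  have h9 : -1 < n := by exact_mod_cast h7
  have h10 : n = 0 := by omega
  rw [h5, h10]
  simp

theorem circ_per (r : ℝ) : Function.Periodic (circ r) 1 := by
  intro t
  have h : (2 * Real.pi * ((t + 1 : ℝ) : ℂ) * I : ℂ) = 2 * Real.pi * t * I + 2 * Real.pi * I := by
    push_cast
    ring
  rw [circ, circ, h, exp_add, exp_two_pi_mul_I, mul_one]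

theorem circ_range {r : ℝ} (hr : 0 < r) : range (circ r) = sphere (0 : ℂ) r := by
  apply Subset.antisymm
  · rintro _ ⟨t, rfl⟩
    rw [mem_sphere_zero_iff_norm]
    exact circ_norm hr t
  · intro z hz
    rw [mem_sphere_zero_iff_norm] at hz
    refine ⟨arg z / (2 * Real.pi), ?_⟩
    have h : (2 * Real.pi * ((arg z / (2 * Real.pi) : ℝ) : ℂ) * I : ℂ) = arg z * I := by
      have hpi : (Real.pi : ℂ) ≠ 0 := by exact_mod_cast Real.pi_ne_zero
      push_cast
      field_simp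
    rw [circ, h, ← hz]
    exact norm_mul_exp_arg_mul_I z

theorem circ_scp {r : ℝ} (hr : 0 < r) : Scp (circ r) :=
  ⟨circ_cont r, circ_per r, fun _ hs _ ht h => circ_inj hr hs ht h⟩

theorem scc_sphere {r : ℝ} (hr : 0 < r) : Scc (sphere (0 : ℂ) r) :=
  ⟨circ r, circ_scp hr, circ_range hr⟩

theorem sphere_union_ball (r : ℝ) : sphere (0 : ℂ) r ∪ ball 0 r = closedBall 0 r := by
  rw [union_comm]
  exact ball_union_sphere

theorem isConnected_ball' {r : ℝ} (hr : 0 < r) : IsConnected (ball (0 : ℂ) r) :=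
  ⟨⟨0, mem_ball_self hr⟩, (convex_ball 0 r).isPreconnected⟩

theorem ins_sphere {r : ℝ} (hr : 0 < r) : ins (sphere (0 : ℂ) r) = ball 0 r := by
  apply Subset.antisymm
  · rintro z ⟨Q, ⟨hQo, hQc, hQd, hQk⟩, hzQ⟩
    by_contra hz
    have hz1 : z ∉ sphere (0 : ℂ) r := Set.disjoint_left.mp hQd hzQ
    rw [mem_ball_zero_iff] at hz
    rw [mem_sphere_zero_iff_norm] at hz1
    have hz2 : r < ‖z‖ := lt_of_le_of_ne (not_lt.mp hz) (Ne.symm hz1)
    -- the ray
    obtain ⟨R, hR⟩ : ∃ R : Set ℂ, R = (fun t : ℝ => (t : ℂ) * z) '' Ici 1 := ⟨_, rfl⟩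
    have hRc : IsPreconnected R := by
      rw [hR]
      refine isPreconnected_Ici.image _ (Continuous.continuousOn ?_)
      fun_prop
    have hRd : ∀ w ∈ R, r < ‖w‖ := by
      rintro w hw
      rw [hR] at hw
      obtain ⟨t, ht, rfl⟩ := hw
      have ht1 : (1 : ℝ) ≤ t := ht
      have h1 : ‖(t : ℂ) * z‖ = t * ‖z‖ := by
        rw [norm_mul, norm_real, Real.norm_eq_abs, abs_of_nonneg (by linarith)]
      show r < ‖(t : ℂ) * z‖
      rw [h1]
      have h2 : 0 ≤ ‖z‖ := norm_nonneg z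
      nlinarith
    have hRQ : R ⊆ Q := by
      refine hRc.subset_of_closure_inter_subset hQo ⟨z, ?_, hzQ⟩ ?_
      · rw [hR]
        exact ⟨1, mem_Ici.mpr le_rfl, by simp⟩
      · rintro w ⟨hwc, hwR⟩
        have h1 : closure Q ⊆ sphere (0 : ℂ) r ∪ Q :=
          closure_minimal subset_union_right hQk.isClosed
        rcases h1 hwc with h | h
        · rw [mem_sphere_zero_iff_norm] at h
          exact absurd h (hRd w hwR).ne'
        · exact h
    obtain ⟨b, hb⟩ := hQk.isBounded.exists_norm_le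
    have hzp : 0 < ‖z‖ := hr.trans hz2
    have hmem : (((max 1 ((|b| + 1) / ‖z‖) : ℝ) : ℂ) * z) ∈ R := by
      rw [hR]
      exact ⟨_, mem_Ici.mpr (le_max_left _ _), rfl⟩
    have h1 := hb _ (Or.inr (hRQ hmem))
    have h0 : (0 : ℝ) ≤ max 1 ((|b| + 1) / ‖z‖) := zero_le_one.trans (le_max_left _ _)
    rw [norm_mul, norm_real, Real.norm_eq_abs, abs_of_nonneg h0] at h1
    have h2 : (|b| + 1) / ‖z‖ * ‖z‖ ≤ max 1 ((|b| + 1) / ‖z‖) * ‖z‖ :=
      mul_le_mul_of_nonneg_right (le_max_right _ _) hzp.le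
    rw [div_mul_cancel₀ _ hzp.ne'] at h2
    have h3 := le_abs_self b
    linarith
  · intro z hz
    refine ⟨ball 0 r, ⟨isOpen_ball, isConnected_ball' hr, ?_, ?_⟩, hz⟩
    · rw [Set.disjoint_left]
      intro w hw hw'
      rw [mem_ball_zero_iff] at hw
      rw [mem_sphere_zero_iff_norm] at hw'
      exact hw.ne hw'
    · rw [sphere_union_ball]
      exact isCompact_closedBall _ _

theorem ax (hOMC : S_OMC) : Ax ℂ where
  lc := inferInstance
  conn := inferInstance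
  ncpt := by
    rw [not_compactSpace_iff]
    infer_instance
  loc := by
    intro x W hW hx
    obtain ⟨e, he, heW⟩ := Metric.isOpen_iff.mp hW x hx
    refine ⟨ball x e, heW, isOpen_ball, mem_ball_self he,
      fun p => p.1 + (p.2 : ℂ) * (x - p.1), ?_, ?_, ?_, ?_⟩
    · apply Continuous.continuousOn
      fun_prop
    · intro y _
      simp
    · intro y _
      simp
    · intro y hy t ht
      apply heW
      have h : y + (t : ℂ) * (x - y) = (1 - t) • y + t • x := by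
        simp only [real_smul]
        push_cast
        ring
      show y + (t : ℂ) * (x - y) ∈ ball x e
      rw [h]
      exact (convex_ball x e) hy (mem_ball_self he) (by linarith [ht.2]) ht.1 (by ring)
  om := hOMC

theorem uni (hA : Ax ℂ) :
    Uni (ball (0 : ℂ) 3) (sphere 0 3) (closedBall 0 3) (fun z => z / 3) where
  ax := hA
  scc := scc_sphere (by norm_num)
  gen := by
    refine ⟨circ 3, circ_scp (by norm_num), circ_range (by norm_num), fun t => ?_⟩
    simp [circ]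
  mem :=
    { cont := by
        apply Continuous.continuousOn
        fun_prop
      ne := by
        intro x hx h
        rw [mem_sphere_zero_iff_norm] at hx
        have h1 : x = 0 := by
          have h2 : x / 3 * 3 = 0 := by rw [h, zero_mul]
          rwa [div_mul_cancel₀ _ (by norm_num : (3 : ℂ) ≠ 0)] at h2
        rw [h1, norm_zero] at hx
        norm_num at hx
      cptL := isCompact_sphere _ _
      opn := isOpen_ball
      conn := isConnected_ball' (by norm_num)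
      disj := by
        rw [Set.disjoint_left]
        intro w hw hw'
        rw [mem_ball_zero_iff] at hw
        rw [mem_sphere_zero_iff_norm] at hw'
        exact hw.ne hw'
      clos := by
        refine closure_ball_subset_closedBall.trans ?_
        rw [← ball_union_sphere]
      cpt := by
        rw [sphere_union_ball]
        exact isCompact_closedBall _ _
      ess := by
        rintro ⟨F, hF, hF0, hFe⟩
        rw [sphere_union_ball] at hF hF0
        obtain ⟨z, hz, hz0⟩ := Pool.Agent.LIX.exists_zero_of_sphere (c := 0) (R := 3)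
          (by norm_num) (F := fun z => 3 * F z) (continuousOn_const.mul hF) (fun z hz => by
            have h1 : F z = z / 3 := hFe hz
            show 3 * F z = z - 0
            rw [h1]
            ring)
        rcases mul_eq_zero.mp hz0 with h | h
        · norm_num at h
        · exact hF0 z hz h }
  cptT := isCompact_closedBall _ _
  sub := by
    rw [union_comm, sphere_union_ball]
  contr := by
    intro C _ hCs γ hγ hγr
    refine ⟨fun p => ((1 - p.2 : ℝ) : ℂ) * γ p.1, ?_, ?_, ?_, ?_, ?_⟩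
    · apply Continuous.continuousOn
      have h := hγ.1
      fun_prop
    · intro t _
      simp
    · intro s _
      have h : γ 1 = γ 0 := by
        have := hγ.2.1 0
        rwa [zero_add] at this
      simp only [h]
    · intro t _
      simp
    · rintro ⟨t, s⟩ hq
      have hs : s ∈ Icc (0 : ℝ) 1 := hq.2
      have h1 : γ t ∈ ball (0 : ℂ) 3 := hCs (hγr ▸ mem_range_self t)
      rw [mem_ball_zero_iff] at h1
      show ((1 - s : ℝ) : ℂ) * γ t ∈ closedBall (0 : ℂ) 3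
      rw [mem_closedBall_zero_iff, norm_mul, norm_real, Real.norm_eq_abs,
        abs_of_nonneg (by linarith [hs.2])]
      have h2 : 0 ≤ ‖γ t‖ := norm_nonneg _
      nlinarith [hs.1, hs.2]

end CPL

theorem t_CPL : M_CPL := by
  intro hOMC
  have hA := CPL.ax hOMC
  exact ⟨hA, fun r hr => ⟨CPL.scc_sphere hr, CPL.ins_sphere hr⟩, CPL.uni hA⟩

end BBP


end

section

/-!
# BBP, CPS: functions without zeros on compact proper subsets of a circle have logarithms
-/

set_option autoImplicit false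

namespace BBP

open Set Topology Metric CTO
open Pool.Agent.LIX (CLog)

namespace CPS

/-- gluing of logarithms on two closed sets with at most one common point -/
theorem clog_union {X : Type} [TopologicalSpace X] {A B : Set X} (hA : IsClosed A)
    (hB : IsClosed B) {p : X} (hAB : A ∩ B ⊆ {p}) {f : X → ℂ} (h1 : CLog A f) (h2 : CLog B f) :
    CLog (A ∪ B) f := by
  classical
  obtain ⟨a, ha, hea⟩ := h1
  obtain ⟨b, hb, heb⟩ := h2
  obtain ⟨c, hc1, hc2⟩ : ∃ c : ℂ, Complex.exp c = 1 ∧ ∀ x ∈ A ∩ B, a x = b x + c := by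
    by_cases h : (A ∩ B).Nonempty
    · obtain ⟨x, hx⟩ := h
      refine ⟨a x - b x, ?_, ?_⟩
      · rw [Complex.exp_sub, hea x hx.1, heb x hx.2, div_self]
        rw [← hea x hx.1]
        exact Complex.exp_ne_zero _
      · intro z hz
        have h3 : z = x := (hAB hz).trans (hAB hx).symm
        rw [h3]
        ring
    · exact ⟨0, Complex.exp_zero, fun x hx => absurd ⟨x, hx⟩ h⟩
  have h3 : ∀ x ∈ A, (if x ∈ A then a x else b x + c) = a x := fun x hx => if_pos hx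
  have h4 : ∀ x ∈ B, (if x ∈ A then a x else b x + c) = b x + c := by
    intro x hx
    by_cases hxA : x ∈ A
    · rw [if_pos hxA]
      exact hc2 x ⟨hxA, hx⟩
    · rw [if_neg hxA]
  refine ⟨fun x => if x ∈ A then a x else b x + c, ContinuousOn.union_of_isClosed (ha.congr h3)
    ((hb.add continuousOn_const).congr h4) hA hB, ?_⟩
  rintro x (hx | hx)
  · show Complex.exp (if x ∈ A then a x else b x + c) = f x
    rw [h3 x hx, hea x hx]
  · show Complex.exp (if x ∈ A then a x else b x + c) = f x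
    rw [h4 x hx, Complex.exp_add, hc1, mul_one, heb x hx]

/-- compact subsets of the unit interval -/
theorem clog_real {A : Set ℝ} (hA : IsCompact A) (hA1 : A ⊆ Icc 0 1) {g : ℝ → ℂ}
    (hg : ContinuousOn g A) (h0 : ∀ t ∈ A, g t ≠ 0) : CLog A g := by
  rcases A.eq_empty_or_nonempty with rfl | hne
  · exact ⟨fun _ => 0, continuousOn_empty _, fun x hx => absurd hx (Set.notMem_empty x)⟩
  obtain ⟨t0, ht0, hmin⟩ := hA.exists_isMinOn hne (f := fun t => ‖g t‖) hg.norm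
  have hm : 0 < ‖g t0‖ := norm_pos_iff.2 (h0 t0 ht0)
  have huc : UniformContinuousOn g A := hA.uniformContinuousOn_of_continuous hg
  rw [Metric.uniformContinuousOn_iff] at huc
  obtain ⟨δ, hδ, huc⟩ := huc ‖g t0‖ hm
  -- small pieces
  have hpiece : ∀ a b : ℝ, b - a < δ → CLog (A ∩ Icc a b) g := by
    intro a b hab
    rcases (A ∩ Icc a b).eq_empty_or_nonempty with h | ⟨s, hs⟩
    · rw [h]
      exact ⟨fun _ => 0, continuousOn_empty _, fun x hx => absurd hx (Set.notMem_empty x)⟩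
    · refine Pool.Agent.LIX.CLog.of_close (f' := fun _ => g s)
        (Pool.Agent.LIX.cLog_const (h0 s hs.1)) (hg.mono inter_subset_left) ?_
      intro x hx
      have h1 : dist x s < δ := by
        rw [Real.dist_eq, abs_lt]
        constructor
        · linarith [hx.2.1, hs.2.2]
        · linarith [hx.2.2, hs.2.1]
      have h2 := huc x hx.1 s hs.1 h1
      rw [dist_eq_norm] at h2
      exact lt_of_lt_of_le h2 (hmin hs.1)
  obtain ⟨N, hN⟩ := exists_nat_gt (1 / δ)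
  have hN0 : (0 : ℝ) < N := lt_trans (by positivity) hN
  have hstep : ∀ k : ℕ, CLog (A ∩ Icc 0 ((k : ℝ) / N)) g := by
    intro k
    induction k with
    | zero =>
      refine hpiece 0 _ ?_
      rw [Nat.cast_zero, zero_div, sub_zero]
      exact hδ
    | succ k ih =>
      have h1 : A ∩ Icc (0 : ℝ) (((k + 1 : ℕ) : ℝ) / N) =
          (A ∩ Icc 0 ((k : ℝ) / N)) ∪ (A ∩ Icc ((k : ℝ) / N) (((k + 1 : ℕ) : ℝ) / N)) := by
        rw [← inter_union_distrib_left, Icc_union_Icc_eq_Icc (by positivity)]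
        exact div_le_div_of_nonneg_right (by push_cast; linarith) hN0.le
      rw [h1]
      refine clog_union (p := (k : ℝ) / N) (hA.isClosed.inter isClosed_Icc)
        (hA.isClosed.inter isClosed_Icc) ?_ ih (hpiece _ _ ?_)
      · rintro x ⟨⟨-, hx1⟩, ⟨-, hx2⟩⟩
        exact le_antisymm hx1.2 hx2.1
      · rw [← sub_div]
        push_cast
        rw [add_sub_cancel_left]
        rw [div_lt_iff₀ hδ] at hN
        rw [div_lt_iff₀ hN0]
        linarith
  refine Pool.Agent.LIX.CLog.mono (hstep N) fun t ht => ⟨ht, ?_⟩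
  rw [div_self hN0.ne']
  exact hA1 ht

end CPS

open CPS in
theorem t_CPS : S_CPS := by
  intro y r A f hr hAs hAne hAc hf hf0
  obtain ⟨p, hp, hpA⟩ : ∃ p ∈ sphere y r, p ∉ A := by
    by_contra h
    push Not at h
    exact hAne (Subset.antisymm hAs h)
  have hpy : ‖p - y‖ = r := by rwa [mem_sphere_iff_norm] at hp
  have hpy0 : p - y ≠ 0 := by
    rw [← norm_pos_iff, hpy]
    exact hr
  obtain ⟨γ, hγ⟩ : ∃ γ : ℝ → ℂ, ∀ t : ℝ,
      γ t = y + (p - y) * Complex.exp (2 * Real.pi * t * Complex.I) := ⟨_, fun _ => rfl⟩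
  have hγc : Continuous γ := by
    have h : γ = fun t : ℝ => y + (p - y) * Complex.exp (2 * Real.pi * t * Complex.I) :=
      funext hγ
    rw [h]
    fun_prop
  have hγ0 : γ 0 = p := by
    rw [hγ]
    simp
  have hγ1 : γ 1 = p := by
    rw [hγ]
    have h : (2 * Real.pi * ((1 : ℝ) : ℂ) * Complex.I) = 2 * Real.pi * Complex.I := by
      push_cast
      ring
    rw [h, Complex.exp_two_pi_mul_I]
    ring
  have hsurj : ∀ x ∈ sphere y r, ∃ t ∈ Icc (0 : ℝ) 1, γ t = x := by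
    intro x hx
    rw [mem_sphere_iff_norm] at hx
    obtain ⟨z, hz⟩ : ∃ z : ℂ, z = (x - y) / (p - y) := ⟨_, rfl⟩
    have hz1 : ‖z‖ = 1 := by
      rw [hz, norm_div, hx, hpy, div_self hr.ne']
    have hz2 : Complex.exp (Complex.arg z * Complex.I) = z := by
      have h := Complex.norm_mul_exp_arg_mul_I z
      rwa [hz1, Complex.ofReal_one, one_mul] at h
    refine ⟨Int.fract (Complex.arg z / (2 * Real.pi)),
      ⟨Int.fract_nonneg _, (Int.fract_lt_one _).le⟩, ?_⟩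
    have h1 : (2 * Real.pi * ((Int.fract (Complex.arg z / (2 * Real.pi)) : ℝ) : ℂ) * Complex.I) =
        Complex.arg z * Complex.I -
          (⌊Complex.arg z / (2 * Real.pi)⌋ : ℤ) * (2 * Real.pi * Complex.I) := by
      rw [Int.fract]
      push_cast
      have h2 : (Real.pi : ℂ) ≠ 0 := by exact_mod_cast Real.pi_ne_zero
      field_simp
    rw [hγ, h1, Complex.exp_sub, hz2, Complex.exp_int_mul_two_pi_mul_I, div_one, hz]
    field_simp
    ring
  have hAc' : IsCompact {t ∈ Icc (0 : ℝ) 1 | γ t ∈ A} :=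
    isCompact_Icc.inter_right (hAc.isClosed.preimage hγc)
  have himg : γ '' {t ∈ Icc (0 : ℝ) 1 | γ t ∈ A} = A := by
    apply Subset.antisymm
    · rintro x ⟨t, ht, rfl⟩
      exact ht.2
    · intro x hx
      obtain ⟨t, ht, rfl⟩ := hsurj x (hAs hx)
      exact ⟨t, ⟨ht, hx⟩, rfl⟩
  have hIoo : ∀ t ∈ {t ∈ Icc (0 : ℝ) 1 | γ t ∈ A}, 0 < t ∧ t < 1 := by
    rintro t ⟨ht1, ht2⟩
    constructor
    · refine lt_of_le_of_ne ht1.1 fun h => ?_
      rw [← h, hγ0] at ht2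
      exact hpA ht2
    · refine lt_of_le_of_ne ht1.2 fun h => ?_
      rw [h, hγ1] at ht2
      exact hpA ht2
  have hinj : InjOn γ {t ∈ Icc (0 : ℝ) 1 | γ t ∈ A} := by
    intro s hs t ht hst
    rw [hγ, hγ] at hst
    have h1 : Complex.exp (2 * Real.pi * s * Complex.I) =
        Complex.exp (2 * Real.pi * t * Complex.I) :=
      mul_left_cancel₀ hpy0 (add_left_cancel hst)
    rw [Complex.exp_eq_exp_iff_exists_int] at h1
    obtain ⟨n, hn⟩ := h1
    have h2 : (2 * Real.pi * Complex.I : ℂ) ≠ 0 := Complex.two_pi_I_ne_zero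
    have h3 : (s : ℂ) = t + n := by
      apply mul_left_cancel₀ h2
      linear_combination hn
    have h4 : s = t + n := by exact_mod_cast h3
    have h5 := hIoo s hs
    have h6 := hIoo t ht
    have h7 : (n : ℝ) < 1 := by linarith
    have h8 : (-1 : ℝ) < n := by linarith
    have h9 : n < 1 := by exact_mod_cast h7
    have h10 : -1 < n := by exact_mod_cast h8
    have h11 : n = 0 := by omega
    rw [h4, h11, Int.cast_zero, add_zero]
  rw [← himg]
  refine Pool.Agent.LIX.CLog.image hAc' hγc.continuousOn hinj ?_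
  refine clog_real hAc' (fun t ht => ht.1) ?_ fun t ht => hf0 _ ht.2
  exact hf.comp hγc.continuousOn fun t ht => ht.2

end BBP


end

section

/-!
# BBP, block D, module DSC: a disc in `Y`
-/

set_option autoImplicit false

namespace BBP

open Set Topology Metric CTO
open Pool.Agent.LIX (CLog)

theorem t_DSC : M_DSC := by
  intro hUNI hPNT hSML hPLN hCEL hCPL hLIM Y _ hAx hex
  obtain ⟨U, J0, T0, f0, hU⟩ := hUNI Y hAx hex
  obtain ⟨x, hx⟩ := hU.mem.conn.nonempty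
  obtain ⟨F, hF⟩ := hPNT Y hAx J0 U f0 x hU.mem hx
  obtain ⟨J, hJ, -, hJU, -, -⟩ :=
    hSML Y hAx J0 U f0 F x hU.mem hx hF univ isOpen_univ (mem_univ x)
  have hP := hPLN Y U J0 T0 f0 hU J hJ hJU
  obtain ⟨x1, hx1⟩ := hP.connV.nonempty
  obtain ⟨C, hC, hCV, -, -⟩ := hP.sml x1 hx1 univ isOpen_univ (mem_univ x1)
  have hS := hCEL Y U (ins J) hP
  obtain ⟨-, hcirc, hUC⟩ := hCPL
  have hsub : sphere (0 : ℂ) 2 ⊆ ball 0 3 := by
    intro z hz
    rw [mem_sphere] at hz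
    rw [mem_ball, hz]
    norm_num
  have hPC := hPLN ℂ _ _ _ _ hUC (sphere 0 2) (hcirc 2 (by norm_num)).1 hsub
  have hSC := hCEL ℂ _ _ hPC
  have hsub1 : sphere (0 : ℂ) 1 ⊆ ins (sphere (0 : ℂ) 2) := by
    rw [(hcirc 2 (by norm_num)).2]
    intro z hz
    rw [mem_sphere] at hz
    rw [mem_ball, hz]
    norm_num
  obtain ⟨h, h1, h2, -⟩ := hLIM ℂ Y _ _ hSC hS (sphere 0 1) ⟨(hcirc 1 one_pos).1, hsub1⟩ C
    ⟨hC, hCV⟩
  have hcel : cel (sphere (0 : ℂ) 1) = closedBall 0 1 := by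
    unfold cel
    rw [(hcirc 1 one_pos).2, sphere_union_ball]
  rw [hcel] at h1 h2
  exact ⟨h, h1, h2⟩

end BBP


end

section

/-!
# MP_6eac38_gt, part 3: module LIM (the limit homeomorphism)
-/

set_option autoImplicit false

namespace BBP

open Set Topology Metric

namespace LIM

/-- a function with a compact graph is continuous -/
theorem graph {X X' : Type} [MetricSpace X] [MetricSpace X'] {K : Set X} {h : X → X'}
    {R : Set (X × X')} (hR : IsCompact R) (h1 : ∀ x ∈ K, (x, h x) ∈ R)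
    (h2 : ∀ x y, (x, y) ∈ R → x ∈ K → y = h x) : ContinuousOn h K := by
  rw [continuousOn_iff_isClosed]
  intro F hF
  refine ⟨Prod.fst '' (R ∩ Prod.snd ⁻¹' F), ?_, ?_⟩
  · exact ((hR.inter_right (hF.preimage continuous_snd)).image continuous_fst).isClosed
  · ext x
    constructor
    · rintro ⟨hx, hK⟩
      exact ⟨⟨(x, h x), ⟨h1 x hK, hx⟩, rfl⟩, hK⟩
    · rintro ⟨⟨⟨x', y⟩, ⟨hxy, hy⟩, hx⟩, hK⟩
      have hx' : x' = x := hx
      subst hx'
      refine ⟨?_, hK⟩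
      show h x' ∈ F
      rw [← h2 _ _ hxy hK]
      exact hy

section circle

variable {Y Y' : Type} [MetricSpace Y] [MetricSpace Y']

theorem fract_eq {γ : ℝ → Y} (hγ : Scp γ) (t : ℝ) : γ (Int.fract t) = γ t := by
  have h := hγ.2.1.sub_int_mul_eq (x := t) ⌊t⌋
  rw [mul_one] at h
  exact h

/-- two simple closed curves are homeomorphic -/
theorem circle {C : Set Y} {C' : Set Y'} (hC : Scc C) (hC' : Scc C') :
    ∃ g : Y → Y', InjOn g C ∧ ContinuousOn g C ∧ g '' C = C' := by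
  obtain ⟨γ, hγ, rfl⟩ := hC
  obtain ⟨γ', hγ', rfl⟩ := hC'
  have hne : (Ico (0 : ℝ) 1).Nonempty := ⟨0, le_rfl, one_pos⟩
  have hfr : ∀ t : ℝ, Int.fract t ∈ Ico (0 : ℝ) 1 := fun t =>
    ⟨Int.fract_nonneg t, Int.fract_lt_one t⟩
  have hch : ∀ x : Y, ∃ t : ℝ, t ∈ Ico (0 : ℝ) 1 ∧ (x ∈ range γ → γ t = x) := by
    intro x
    by_cases hx : x ∈ range γ
    · obtain ⟨t, rfl⟩ := hx
      exact ⟨Int.fract t, hfr t, fun _ => fract_eq hγ t⟩
    · exact ⟨0, ⟨le_rfl, one_pos⟩, fun h => absurd h hx⟩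
  choose i hi hi' using hch
  have hg : ∀ t, γ' (i (γ t)) = γ' t := by
    intro t
    have h1 : i (γ t) = Int.fract t := by
      apply hγ.2.2 (hi _) (hfr t)
      rw [hi' _ (mem_range_self t), fract_eq hγ]
    rw [h1, fract_eq hγ']
  refine ⟨fun x => γ' (i x), ?_, ?_, ?_⟩
  · intro x hx y hy hxy
    have h1 := hγ'.2.2 (hi x) (hi y) hxy
    rw [← hi' x hx, ← hi' y hy, h1]
  · have hR : IsCompact ((fun t : ℝ => (γ t, γ' t)) '' Icc 0 1) :=
      isCompact_Icc.image (hγ.1.prodMk hγ'.1)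
    refine graph hR ?_ ?_
    · intro x hx
      refine ⟨i x, ⟨(hi x).1, (hi x).2.le⟩, ?_⟩
      show (γ (i x), γ' (i x)) = (x, γ' (i x))
      rw [hi' x hx]
    · rintro x y ⟨t, _, ht⟩ _
      have h1 : γ t = x := congrArg Prod.fst ht
      have h2 : γ' t = y := congrArg Prod.snd ht
      rw [← h1, ← h2]
      exact (hg t).symm
  · ext y
    constructor
    · rintro ⟨x, _, rfl⟩
      exact mem_range_self _
    · rintro ⟨t, rfl⟩
      exact ⟨γ t, mem_range_self t, hg t⟩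

theorem scc_ne {C : Set Y} (hC : Scc C) : C.Nonempty := by
  obtain ⟨γ, _, rfl⟩ := hC
  exact ⟨γ 0, mem_range_self 0⟩

end circle

variable {Y Y' : Type} [MetricSpace Y] [MetricSpace Y'] {S : Set (Set Y)} {S' : Set (Set Y')}

/-- the initial state -/
theorem init (hS : Cel S) (hS' : Cel S') {C : Set Y} {C' : Set Y'} (hC : C ∈ S) (hC' : C' ∈ S') :
    ∃ g : Y → Y', Sta S S' (cel C) (cel C') {(C, C')} g := by
  obtain ⟨g, h1, h2, h3⟩ := circle (hS.scc C hC) (hS'.scc C' hC')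
  have hU : (⋃ q ∈ ({(C, C')} : Set (Set Y × Set Y')), q.1) = C := by
    rw [biUnion_singleton]
  refine ⟨g, finite_singleton _, ?_, ?_, ?_, ?_, ?_, ?_, ?_, ?_⟩
  · intro q hq
    rw [mem_singleton_iff.1 hq]
    exact ⟨hC, hC'⟩
  · intro q hq
    rw [mem_singleton_iff.1 hq]
    exact h3
  · rw [biUnion_singleton]
  · rw [biUnion_singleton]
  · intro q hq r hr hne
    exact absurd ((mem_singleton_iff.1 hq).trans (mem_singleton_iff.1 hr).symm) hne
  · intro q hq r hr hne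
    exact absurd ((mem_singleton_iff.1 hq).trans (mem_singleton_iff.1 hr).symm) hne
  · rw [hU]
    exact h1
  · rw [hU]
    exact h2

/-- the relation of a state -/
def Rel (Sg : Set (Set Y × Set Y')) : Set (Y × Y') := ⋃ q ∈ Sg, cel q.1 ×ˢ cel q.2

variable {K : Set Y} {K' : Set Y'} {Sg : Set (Set Y × Set Y')} {g : Y → Y'}

theorem rel_mem {x : Y} {y : Y'} : (x, y) ∈ Rel Sg ↔ ∃ q ∈ Sg, x ∈ cel q.1 ∧ y ∈ cel q.2 := by
  constructor
  · intro h
    obtain ⟨q, hq⟩ := mem_iUnion.1 h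
    obtain ⟨hq, hxy⟩ := mem_iUnion.1 hq
    exact ⟨q, hq, hxy.1, hxy.2⟩
  · rintro ⟨q, hq, h1, h2⟩
    exact mem_iUnion.2 ⟨q, mem_iUnion.2 ⟨hq, ⟨h1, h2⟩⟩⟩

theorem rel_compact (hS : Cel S) (hS' : Cel S') (h : Sta S S' K K' Sg g) : IsCompact (Rel Sg) :=
  h.fin.isCompact_biUnion fun q hq => (hS.cpt _ (h.mem q hq).1).prod (hS'.cpt _ (h.mem q hq).2)

theorem rel_ref {Sg' : Set (Set Y × Set Y')} (h : Ref Sg Sg') : Rel Sg' ⊆ Rel Sg := by
  rintro ⟨x, y⟩ hxy
  obtain ⟨q', hq', h1, h2⟩ := rel_mem.1 hxy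
  obtain ⟨q, hq, h3, h4⟩ := h q' hq'
  exact rel_mem.2 ⟨q, hq, h3 h1, h4 h2⟩

theorem rel_left (hS' : Cel S') (h : Sta S S' K K' Sg g) {x : Y} (hx : x ∈ K) :
    ∃ y, (x, y) ∈ Rel Sg := by
  rw [← h.cov] at hx
  obtain ⟨q, hq⟩ := mem_iUnion.1 hx
  obtain ⟨hq, hxq⟩ := mem_iUnion.1 hq
  obtain ⟨y, hy⟩ := scc_ne (hS'.scc _ (h.mem q hq).2)
  exact ⟨y, rel_mem.2 ⟨q, hq, hxq, Or.inl hy⟩⟩

theorem rel_right (hS : Cel S) (h : Sta S S' K K' Sg g) {y : Y'} (hy : y ∈ K') :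
    ∃ x, (x, y) ∈ Rel Sg := by
  rw [← h.cov'] at hy
  obtain ⟨q, hq⟩ := mem_iUnion.1 hy
  obtain ⟨hq, hyq⟩ := mem_iUnion.1 hq
  obtain ⟨x, hx⟩ := scc_ne (hS.scc _ (h.mem q hq).1)
  exact ⟨x, rel_mem.2 ⟨q, hq, Or.inl hx, hyq⟩⟩

theorem rel_K (h : Sta S S' K K' Sg g) {x : Y} {y : Y'} (hxy : (x, y) ∈ Rel Sg) :
    x ∈ K ∧ y ∈ K' := by
  obtain ⟨q, hq, h1, h2⟩ := rel_mem.1 hxy
  rw [← h.cov, ← h.cov']
  exact ⟨mem_iUnion.2 ⟨q, mem_iUnion.2 ⟨hq, h1⟩⟩, mem_iUnion.2 ⟨q, mem_iUnion.2 ⟨hq, h2⟩⟩⟩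

/-- small mesh -/
def Sml (ε : ℝ) (Sg : Set (Set Y × Set Y')) : Prop :=
  ∀ q ∈ Sg, (∀ u ∈ cel q.1, ∀ v ∈ cel q.1, dist u v < ε) ∧
    ∀ u ∈ cel q.2, ∀ v ∈ cel q.2, dist u v < ε

theorem uniq_right (h : Sta S S' K K' Sg g) {ε : ℝ} (hε : 0 < ε) (hs : Sml ε Sg) {x : Y}
    {y y' : Y'} (h1 : (x, y) ∈ Rel Sg) (h2 : (x, y') ∈ Rel Sg) : dist y y' < 2 * ε := by
  obtain ⟨q, hq, hxq, hyq⟩ := rel_mem.1 h1
  obtain ⟨r, hr, hxr, hyr⟩ := rel_mem.1 h2
  by_cases hqr : q = r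
  · subst hqr
    have := (hs q hq).2 y hyq y' hyr
    linarith
  · obtain ⟨h3, h4⟩ := h.int q hq r hr hqr ⟨hxq, hxr⟩
    have h5 : g x ∈ q.2 := by
      rw [← h.img q hq]
      exact ⟨x, h3, rfl⟩
    have h6 : g x ∈ r.2 := by
      rw [← h.img r hr]
      exact ⟨x, h4, rfl⟩
    have h7 := (hs q hq).2 y hyq (g x) (Or.inl h5)
    have h8 := (hs r hr).2 (g x) (Or.inl h6) y' hyr
    have h9 := dist_triangle y (g x) y'
    linarith

theorem uniq_left (h : Sta S S' K K' Sg g) {ε : ℝ} (hε : 0 < ε) (hs : Sml ε Sg) {x x' : Y}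
    {y : Y'} (h1 : (x, y) ∈ Rel Sg) (h2 : (x', y) ∈ Rel Sg) : dist x x' < 2 * ε := by
  obtain ⟨q, hq, hxq, hyq⟩ := rel_mem.1 h1
  obtain ⟨r, hr, hxr, hyr⟩ := rel_mem.1 h2
  by_cases hqr : q = r
  · subst hqr
    have := (hs q hq).1 x hxq x' hxr
    linarith
  · obtain ⟨h3, h4⟩ := h.int' q hq r hr hqr ⟨hyq, hyr⟩
    rw [← h.img q hq] at h3
    rw [← h.img r hr] at h4
    obtain ⟨u, hu, hgu⟩ := h3
    obtain ⟨v, hv, hgv⟩ := h4
    have huv : u = v := by
      apply h.inj (mem_iUnion.2 ⟨q, mem_iUnion.2 ⟨hq, hu⟩⟩)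
        (mem_iUnion.2 ⟨r, mem_iUnion.2 ⟨hr, hv⟩⟩)
      rw [hgu, hgv]
    have h7 := (hs q hq).1 x hxq u (Or.inl hu)
    have h8 := (hs r hr).1 u (Or.inl (by rw [huv]; exact hv)) x' hxr
    have h9 := dist_triangle x u x'
    linarith

end LIM

open LIM in
theorem t_LIM : M_LIM := by
  intro _ _ hM Y Y' _ _ S S' hS hS' C hC C' hC'
  obtain ⟨g0, h0⟩ := init hS hS' hC hC'
  have hK : (cel C).Nonempty := (scc_ne (hS.scc C hC)).mono subset_union_left
  have hK' : (cel C').Nonempty := (scc_ne (hS'.scc C' hC')).mono subset_union_left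
  let St := {p : Set (Set Y × Set Y') × (Y → Y') // Sta S S' (cel C) (cel C') p.1 p.2}
  have hnext : ∀ (s : St) (n : ℕ), ∃ s' : St, Ref s.1.1 s'.1.1 ∧
      Sml (1 / ((n : ℝ) + 1)) s'.1.1 := by
    intro s n
    obtain ⟨Sg', g', h1, h2, h3⟩ := hM Y Y' S S' (cel C) (cel C') s.1.1 s.1.2 hS hS' hK hK' s.2
      (1 / ((n : ℝ) + 1)) (by positivity)
    exact ⟨⟨(Sg', g'), h1⟩, h2, h3⟩
  choose nx hnx1 hnx2 using hnext
  let sq : ℕ → St := fun n => Nat.rec ⟨(_, g0), h0⟩ (fun n s => nx s n) n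
  have hsq : ∀ n, sq (n + 1) = nx (sq n) n := fun n => rfl
  let R : ℕ → Set (Y × Y') := fun n => Rel (sq n).1.1
  have hRc : ∀ n, IsCompact (R n) := fun n => rel_compact hS hS' (sq n).2
  have hRd : ∀ n, R (n + 1) ⊆ R n := fun n => rel_ref (by rw [hsq]; exact hnx1 _ _)
  have hcl : IsClosed (⋂ n, R n) := isClosed_iInter fun n => (hRc n).isClosed
  have hcpt : IsCompact (⋂ n, R n) := (hRc 0).of_isClosed_subset hcl (iInter_subset _ 0)
  have hlim : Filter.Tendsto (fun n : ℕ => 2 * (1 / ((n : ℝ) + 1))) Filter.atTop (𝓝 0) := by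
    have h1 := (tendsto_one_div_add_atTop_nhds_zero_nat (𝕜 := ℝ)).const_mul 2
    rw [mul_zero] at h1
    exact h1
  have hur : ∀ (x : Y) (y y' : Y'), (x, y) ∈ ⋂ n, R n → (x, y') ∈ ⋂ n, R n → y = y' := by
    intro x y y' h1 h2
    apply dist_le_zero.1
    apply ge_of_tendsto' hlim
    intro n
    exact (uniq_right (sq (n + 1)).2 (by positivity) (by rw [hsq]; exact hnx2 _ _)
      (mem_iInter.1 h1 (n + 1)) (mem_iInter.1 h2 (n + 1))).le
  have hul : ∀ (x x' : Y) (y : Y'), (x, y) ∈ ⋂ n, R n → (x', y) ∈ ⋂ n, R n → x = x' := by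
    intro x x' y h1 h2
    apply dist_le_zero.1
    apply ge_of_tendsto' hlim
    intro n
    exact (uniq_left (sq (n + 1)).2 (by positivity) (by rw [hsq]; exact hnx2 _ _)
      (mem_iInter.1 h1 (n + 1)) (mem_iInter.1 h2 (n + 1))).le
  have hel : ∀ x ∈ cel C, ∃ y, (x, y) ∈ ⋂ n, R n := by
    intro x hx
    have hF : IsClosed (Prod.fst ⁻¹' {x} : Set (Y × Y')) := isClosed_singleton.preimage continuous_fst
    obtain ⟨⟨x', y⟩, h1⟩ := IsCompact.nonempty_iInter_of_sequence_nonempty_isCompact_isClosed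
      (fun n => R n ∩ Prod.fst ⁻¹' {x}) (fun n => inter_subset_inter_left _ (hRd n))
      (fun n => by
        obtain ⟨y, hy⟩ := rel_left hS' (sq n).2 hx
        exact ⟨(x, y), hy, rfl⟩) ((hRc 0).inter_right hF)
      (fun n => (hRc n).isClosed.inter hF)
    have hx' : x' = x := (mem_iInter.1 h1 0).2
    subst hx'
    exact ⟨y, mem_iInter.2 fun n => (mem_iInter.1 h1 n).1⟩
  have her : ∀ y ∈ cel C', ∃ x, (x, y) ∈ ⋂ n, R n := by
    intro y hy
    have hF : IsClosed (Prod.snd ⁻¹' {y} : Set (Y × Y')) := isClosed_singleton.preimage continuous_snd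
    obtain ⟨⟨x, y'⟩, h1⟩ := IsCompact.nonempty_iInter_of_sequence_nonempty_isCompact_isClosed
      (fun n => R n ∩ Prod.snd ⁻¹' {y}) (fun n => inter_subset_inter_left _ (hRd n))
      (fun n => by
        obtain ⟨x, hx⟩ := rel_right hS (sq n).2 hy
        exact ⟨(x, y), hx, rfl⟩) ((hRc 0).inter_right hF)
      (fun n => (hRc n).isClosed.inter hF)
    have hy' : y' = y := (mem_iInter.1 h1 0).2
    subst hy'
    exact ⟨x, mem_iInter.2 fun n => (mem_iInter.1 h1 n).1⟩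
  have hch : ∀ x, ∃ y, x ∈ cel C → (x, y) ∈ ⋂ n, R n := by
    intro x
    by_cases hx : x ∈ cel C
    · obtain ⟨y, hy⟩ := hel x hx
      exact ⟨y, fun _ => hy⟩
    · obtain ⟨y, _⟩ := hK'
      exact ⟨y, fun h => absurd h hx⟩
  choose h hh using hch
  refine ⟨h, graph hcpt hh fun x y hxy hx => hur x _ _ hxy (hh x hx), ?_, ?_⟩
  · intro x hx x' hx' hxx
    have h1 := hh x hx
    rw [hxx] at h1
    exact hul _ _ _ h1 (hh x' hx')
  · ext y
    constructor
    · rintro ⟨x, hx, rfl⟩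
      exact (rel_K (sq 0).2 (mem_iInter.1 (hh x hx) 0)).2
    · intro hy
      obtain ⟨x, hx⟩ := her y hy
      have hxK : x ∈ cel C := (rel_K (sq 0).2 (mem_iInter.1 hx 0)).1
      exact ⟨x, hxK, hur x _ _ (hh x hxK) hx⟩

end BBP


end

section

/-!
# MP_6eac38_gt, BBP, module MAIN3: the theorem from the blocks
-/

set_option autoImplicit false

namespace BBP

open Set Topology CTO

theorem t_MAIN3 : M_MAIN3 := by
  intro hSHR hROT hFLP hPRM X _ _ hX hom h3 h2
  have h3' : ShrLE X 3 := (hSHR X 3).1 h3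
  have h2' : ¬ ShrLE X 2 := fun h => h2 ((hSHR X 2).2 h)
  have hne : Nonempty X := by
    by_contra hn
    rw [not_nonempty_iff] at hn
    refine h2' fun k U hU hc => ⟨U, hU, fun i => Subset.rfl, hc, fun x => (hn.false x).elim⟩
  have hm : IsMfd3 X → HasFlow X := fun h => hROT X h hne
  have hf : HasFlow X → HasProduct X := hFLP X hom h3' h2'
  have hp : HasProduct X → IsMfd3 X := hPRM X hX hom h3'
  exact ⟨⟨fun h => hf (hm h), hp⟩, ⟨hm, fun h => hp (hf h)⟩⟩

end BBP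


end

section

/-!
# BBP, module MNI: the unit interval is a minimal connection between its end points
-/

set_option autoImplicit false

namespace BBP

open Set Topology Metric CTO

theorem t_MNI : S_MNI where
  ne := by
    intro h
    have := congrArg Subtype.val h
    norm_num at this
  ess := by
    rintro ⟨A, B, hA, hB, hd, hu, ha, hb⟩
    have hc : IsClopen A := by
      refine ⟨hA, ?_⟩
      have : A = Bᶜ := by
        ext x
        have hx : x ∈ A ∪ B := by rw [hu]; trivial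
        constructor
        · intro h1 h2
          exact Set.disjoint_left.1 hd h1 h2
        · intro h1
          rcases hx with h2 | h2
          · exact h2
          · exact absurd h2 h1
      rw [this]
      exact hB.isOpen_compl
    have := hc.eq_univ ⟨_, ha⟩
    rw [this] at hd
    exact Set.disjoint_left.1 hd (mem_univ _) hb
  min := by
    rintro O hO ⟨z, hz⟩ ha hb
    refine ⟨Oᶜ ∩ Iic z, Oᶜ ∩ Ici z, hO.isClosed_compl.inter isClosed_Iic,
      hO.isClosed_compl.inter isClosed_Ici, ?_, ?_, ⟨ha, ?_⟩, ⟨hb, ?_⟩⟩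
    · rw [Set.disjoint_left]
      rintro x ⟨h1, h2⟩ ⟨-, h3⟩
      have : x = z := le_antisymm h2 h3
      exact h1 (this ▸ hz)
    · rw [← inter_union_distrib_left, Iic_union_Ici, inter_univ]
    · exact z.2.1
    · exact z.2.2

end BBP


end

section

/-!
# BBP, block D: small meshes (module MSH)
-/

set_option autoImplicit false

namespace BBP

open Set Topology

theorem t_MSH : M_MSH := by
  intro hRFN hSWP Y Y' _ _ S S' K K' Sg g hS hS' hK hK' hst ε hε
  obtain ⟨Sg1, g1, hst1, href1, hR1⟩ := hRFN Y Y' S S' K K' Sg g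
    (fun C' => C' ∈ S ∧ ∀ u ∈ C' ∪ ins C', ∀ v ∈ C' ∪ ins C', dist u v < ε) hS hS' hst
    (fun q hq => hS.div q.1 (hst.mem q hq).1 ε hε)
  obtain ⟨g2, hst2⟩ := hSWP Y Y' S S' K K' Sg1 g1 hS hS' hK hst1
  obtain ⟨Sg3, g3, hst3, href3, hR3⟩ := hRFN Y' Y S' S K' K (Prod.swap '' Sg1) g2
    (fun C' => C' ∈ S' ∧ ∀ u ∈ C' ∪ ins C', ∀ v ∈ C' ∪ ins C', dist u v < ε) hS' hS hst2
    (fun q hq => hS'.div q.1 (hst2.mem q hq).1 ε hε)
  obtain ⟨g4, hst4⟩ := hSWP Y' Y S' S K' K Sg3 g3 hS' hS hK' hst3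
  refine ⟨Prod.swap '' Sg3, g4, hst4, ?_, ?_⟩
  · rintro _ ⟨r, hr, rfl⟩
    obtain ⟨s, ⟨t, ht, rfl⟩, h1, h2⟩ := href3 r hr
    obtain ⟨q, hq, h3, h4⟩ := href1 t ht
    exact ⟨q, hq, h2.trans h3, h1.trans h4⟩
  · rintro _ ⟨r, hr, rfl⟩
    obtain ⟨s, ⟨t, ht, rfl⟩, -, h2⟩ := href3 r hr
    exact ⟨fun u hu v hv => (hR1 t ht).2 u (h2 hu) v (h2 hv), fun u hu v hv =>
      (hR3 r hr).2 u hu v hv⟩

end BBP


end

section

/-!
# Minimal membranes in the plane are open
-/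

set_option autoImplicit false

namespace BBP

open Set Topology Metric CTO
open Pool.Agent.LIX (CLog)

namespace OMC

/-- the radial projection to the circle -/
noncomputable def rp (y : ℂ) (r : ℝ) (z : ℂ) : ℂ := y + ((r / ‖z - y‖ : ℝ) : ℂ) * (z - y)

theorem rp_mem {y z : ℂ} {r : ℝ} (hr : 0 < r) (hz : z ≠ y) : rp y r z ∈ sphere y r := by
  have h1 : 0 < ‖z - y‖ := norm_pos_iff.2 (sub_ne_zero.2 hz)
  rw [mem_sphere_iff_norm, rp, add_sub_cancel_left, norm_mul, Complex.norm_real, norm_div,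
    Real.norm_of_nonneg hr.le, norm_norm]
  field_simp

theorem rp_self {y z : ℂ} {r : ℝ} (hr : 0 < r) (hz : z ∈ sphere y r) : rp y r z = z := by
  have h1 : ‖z - y‖ = r := mem_sphere_iff_norm.1 hz
  rw [rp, h1, div_self hr.ne', Complex.ofReal_one, one_mul, add_sub_cancel]

theorem rp_cont (y : ℂ) (r : ℝ) : ContinuousOn (rp y r) {z | z ≠ y} := by
  unfold rp
  apply ContinuousOn.add continuousOn_const
  apply ContinuousOn.mul
  · apply Complex.continuous_ofReal.comp_continuousOn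
    apply ContinuousOn.div continuousOn_const
    · exact (continuous_id.sub continuous_const).norm.continuousOn
    · intro z hz
      exact norm_ne_zero_iff.2 (sub_ne_zero.2 hz)
  · exact (continuous_id.sub continuous_const).continuousOn

/-- extension to the circle -/
theorem ext_circle (hC : S_CPS) (y : ℂ) (r : ℝ) (hr : 0 < r) (A : Set ℂ) (F : ℂ → ℂ)
    (hA : A ⊆ sphere y r) (hAc : IsCompact A) (hF : ContinuousOn F A) (hF0 : ∀ x ∈ A, F x ≠ 0) :
    ∃ G : ℂ → ℂ, ContinuousOn G (sphere y r) ∧ (∀ x ∈ sphere y r, G x ≠ 0) ∧ EqOn G F A := by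
  by_cases h : A = sphere y r
  · rw [h] at hF hF0
    exact ⟨F, hF, hF0, fun _ _ => rfl⟩
  · obtain ⟨g, hg, hg2⟩ := hC y r A F hr hA h hAc hF hF0
    obtain ⟨g', hg'⟩ := ContinuousMap.exists_restrict_eq hAc.isClosed
      (⟨A.restrict g, continuousOn_iff_continuous_restrict.1 hg⟩ : C(A, ℂ))
    refine ⟨fun x => Complex.exp (g' x), (Complex.continuous_exp.comp g'.continuous).continuousOn,
      fun x _ => Complex.exp_ne_zero _, ?_⟩
    intro x hx
    have h1 : g' x = g x := by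
      have := congrArg (fun k : C(A, ℂ) => k ⟨x, hx⟩) hg'
      exact this
    show Complex.exp (g' x) = F x
    rw [h1, hg2 x hx]

end OMC

theorem t_OMC : M_OMC := by
  intro hC L K f hL hK hLK hf hf0 hne hW
  rw [Metric.isOpen_iff]
  intro x hx
  by_contra hcon
  have hcon' : ∀ ε : ℝ, 0 < ε → ¬ ball x ε ⊆ K \ L := fun ε hε h => hcon ⟨ε, hε, h⟩
  have hLc : IsOpen (Lᶜ) := hL.isClosed.isOpen_compl
  obtain ⟨t, ht, hxt⟩ := Metric.isOpen_iff.1 hLc x hx.2
  set s := t / 4 with hs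
  have hs0 : 0 < s := by positivity
  obtain ⟨y, hy, hyn⟩ := Set.not_subset.1 (hcon' s hs0)
  have hyt : ∀ z, dist z y ≤ 2 * s → z ∉ L := by
    intro z hz
    apply hxt
    rw [mem_ball]
    have h1 := dist_triangle z y x
    have h2 : dist y x < s := hy
    have h3 : t = 4 * s := by rw [hs]; ring
    rw [h3]
    linarith
  have hyK : y ∉ K := by
    intro h
    apply hyn
    exact ⟨h, hyt y (by rw [dist_self]; positivity)⟩
  set r := 2 * s with hr
  have hr0 : 0 < r := by positivity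
  have hxB : x ∈ ball y r := by
    rw [mem_ball, dist_comm]
    have h2 : dist y x < s := hy
    rw [hr]
    linarith
  obtain ⟨F, hF, hF0, hFf⟩ := hW (ball y r) isOpen_ball ⟨x, hxB, hx⟩
  have hLB : ∀ z ∈ L, z ∉ ball y r := by
    intro z hz hzb
    exact hyt z (mem_ball.1 hzb).le hz
  have hsub : K ∩ sphere y r ⊆ (K \ ball y r) ∪ L := by
    intro z hz
    left
    refine ⟨hz.1, ?_⟩
    rw [mem_ball, mem_sphere.1 hz.2]
    exact lt_irrefl _
  obtain ⟨G, hG, hG0, hGF⟩ := OMC.ext_circle hC y r hr0 (K ∩ sphere y r) F inter_subset_right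
    (hK.inter_right isClosed_sphere) (hF.mono hsub) (fun z hz => hF0 z (hsub hz))
  apply hne
  classical
  let H : ℂ → ℂ := fun z => if z ∈ ball y r then G (OMC.rp y r z) else F z
  have hH1 : ∀ z, z ∉ ball y r → H z = F z := fun z hz => if_neg hz
  have hne' : ∀ z ∈ K, z ≠ y := by
    rintro z hz rfl
    exact hyK hz
  have hH2 : ∀ z ∈ K ∩ closedBall y r, H z = G (OMC.rp y r z) := by
    intro z hz
    by_cases hzb : z ∈ ball y r
    · exact if_pos hzb
    · rw [hH1 z hzb]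
      have hzs : z ∈ sphere y r := by
        rw [mem_sphere]
        exact le_antisymm hz.2 (not_lt.1 hzb)
      rw [OMC.rp_self hr0 hzs, hGF ⟨hz.1, hzs⟩]
  refine ⟨H, ?_, ?_, ?_⟩
  · have hKu : K = (K \ ball y r) ∪ (K ∩ closedBall y r) := by
      ext z
      constructor
      · intro hz
        by_cases hzb : z ∈ ball y r
        · exact Or.inr ⟨hz, ball_subset_closedBall hzb⟩
        · exact Or.inl ⟨hz, hzb⟩
      · rintro (h | h)
        · exact h.1
        · exact h.1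
    rw [hKu]
    apply ContinuousOn.union_of_isClosed
    · apply (hF.mono (fun z hz => Or.inl hz)).congr
      intro z hz
      exact hH1 z hz.2
    · have h1 : ContinuousOn (fun z => G (OMC.rp y r z)) (K ∩ closedBall y r) := by
        apply hG.comp ((OMC.rp_cont y r).mono fun z hz => hne' z hz.1)
        intro z hz
        exact OMC.rp_mem hr0 (hne' z hz.1)
      exact h1.congr hH2
    · exact hK.isClosed.sdiff isOpen_ball
    · exact hK.isClosed.inter isClosed_closedBall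
  · intro z hz
    by_cases hzb : z ∈ ball y r
    · rw [hH2 z ⟨hz, ball_subset_closedBall hzb⟩]
      exact hG0 _ (OMC.rp_mem hr0 (hne' z hz))
    · rw [hH1 z hzb]
      exact hF0 z (Or.inl ⟨hz, hzb⟩)
  · intro z hz
    rw [hH1 z (hLB z hz)]
    exact hFf hz

end BBP


end

section

/-!
# BBP, PRM: products give manifolds
-/

set_option autoImplicit false

namespace BBP

open Set Topology Metric CTO

namespace PRM

/-- the complement of `L` is nonempty -/
theorem exists_compl {K : Type} [TopologicalSpace K] {L : Set K} {f : K → ℂ} (h : MinK L f) :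
    (Lᶜ : Set K).Nonempty := by
  by_contra h1
  rw [not_nonempty_iff_eq_empty, compl_empty_iff] at h1
  apply h.ess
  refine ⟨f, ?_, fun x _ => h.ne x (by rw [h1]; trivial), fun x _ => rfl⟩
  rw [← h1]
  exact h.cont

/-- there is a third point -/
theorem exists_third {Z : Type} [TopologicalSpace Z] [T1Space Z] {a b : Z} (h : MinZ a b) :
    ∃ b0 : Z, b0 ≠ a ∧ b0 ≠ b := by
  by_contra h1
  push Not at h1
  apply h.ess
  refine ⟨{a}, {b}, isClosed_singleton, isClosed_singleton, ?_, ?_, rfl, rfl⟩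
  · rw [disjoint_singleton]
    exact h.ne
  · rw [eq_univ_iff_forall]
    intro z
    by_cases hz : z = a
    · exact Or.inl hz
    · exact Or.inr (h1 z hz)

/-- no point except `a`, `b` is isolated -/
theorem not_isolated {Z : Type} [TopologicalSpace Z] [T1Space Z] {a b : Z} (h : MinZ a b)
    {b0 : Z} (ha : b0 ≠ a) (hb : b0 ≠ b) (N : Set Z) (hN : IsOpen N) (hbN : b0 ∈ N) :
    ∃ b1 ∈ N, b1 ≠ b0 := by
  by_contra h1
  push Not at h1
  have hN1 : N = {b0} := by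
    ext z
    exact ⟨fun hz => h1 z hz, fun hz => by rw [mem_singleton_iff] at hz; rw [hz]; exact hbN⟩
  rw [hN1] at hN
  obtain ⟨A, B, hA, hB, hd, hu, haA, hbB⟩ := h.min {b0} hN ⟨b0, rfl⟩
    (fun h2 => ha (mem_singleton_iff.1 h2).symm) (fun h2 => hb (mem_singleton_iff.1 h2).symm)
  apply h.ess
  refine ⟨A ∪ {b0}, B, hA.union isClosed_singleton, hB, ?_, ?_, Or.inl haA, hbB⟩
  · rw [disjoint_union_left]
    refine ⟨hd, ?_⟩
    rw [disjoint_singleton_left]
    intro h2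
    have h3 : b0 ∈ ({b0} : Set Z)ᶜ := by rw [← hu]; exact Or.inr h2
    exact h3 rfl
  · rw [eq_univ_iff_forall]
    intro z
    by_cases hz : z = b0
    · exact Or.inl (Or.inr hz)
    · have h3 : z ∈ ({b0} : Set Z)ᶜ := hz
      rw [← hu] at h3
      rcases h3 with h3 | h3
      · exact Or.inl (Or.inl h3)
      · exact Or.inr h3

/-- the point of the square -/
noncomputable def pl (v : Fin 3 → ℝ) : ℂ := ((v 0 : ℂ) + (v 1 : ℂ) * Complex.I) / 2

theorem pl_cont : Continuous pl := by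
  unfold pl
  fun_prop

theorem pl_inj {v w : Fin 3 → ℝ} (h : pl v = pl w) : v 0 = w 0 ∧ v 1 = w 1 := by
  unfold pl at h
  have h1 : (v 0 : ℂ) + (v 1 : ℂ) * Complex.I = (w 0 : ℂ) + (w 1 : ℂ) * Complex.I := by
    have h2 := congrArg (fun z : ℂ => z * 2) h
    simpa using h2
  have hre := congrArg Complex.re h1
  have him := congrArg Complex.im h1
  simp at hre him
  exact ⟨hre, him⟩

theorem pl_mem {v : Fin 3 → ℝ} (h : v ∈ Icc (-1 : Fin 3 → ℝ) 1) : pl v ∈ closedBall (0 : ℂ) 1 := by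
  rw [mem_closedBall_zero_iff]
  unfold pl
  rw [norm_div]
  have h0 := h.1 0
  have h0' := h.2 0
  have h1 := h.1 1
  have h1' := h.2 1
  simp only [Pi.neg_apply, Pi.one_apply] at h0 h0' h1 h1'
  have a0 : ‖(v 0 : ℂ)‖ ≤ 1 := by
    rw [Complex.norm_real, Real.norm_eq_abs, abs_le]
    exact ⟨h0, h0'⟩
  have a1 : ‖(v 1 : ℂ) * Complex.I‖ ≤ 1 := by
    rw [norm_mul, Complex.norm_I, mul_one, Complex.norm_real, Real.norm_eq_abs, abs_le]
    exact ⟨h1, h1'⟩
  have a2 : ‖(v 0 : ℂ) + (v 1 : ℂ) * Complex.I‖ ≤ 2 :=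
    (norm_add_le _ _).trans (by linarith)
  have a3 : ‖(2 : ℂ)‖ = 2 := by simp
  rw [a3]
  linarith

/-- the height -/
noncomputable def ht (v : Fin 3 → ℝ) : Icc (0 : ℝ) 1 := projIcc 0 1 zero_le_one ((1 + v 2) / 2)

theorem ht_cont : Continuous ht := by
  unfold ht
  exact continuous_projIcc.comp (by fun_prop)

theorem ht_inj {v w : Fin 3 → ℝ} (hv : v ∈ Icc (-1 : Fin 3 → ℝ) 1)
    (hw : w ∈ Icc (-1 : Fin 3 → ℝ) 1) (h : ht v = ht w) : v 2 = w 2 := by
  have key : ∀ v ∈ Icc (-1 : Fin 3 → ℝ) 1, ((ht v : Icc (0 : ℝ) 1) : ℝ) = (1 + v 2) / 2 := by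
    intro v hv
    have h2 := hv.1 2
    have h2' := hv.2 2
    simp only [Pi.neg_apply, Pi.one_apply] at h2 h2'
    unfold ht
    rw [projIcc_of_mem zero_le_one ⟨by linarith, by linarith⟩]
  have h1 := congrArg (fun t : Icc (0 : ℝ) 1 => (t : ℝ)) h
  have h2 : ((ht v : Icc (0 : ℝ) 1) : ℝ) = ((ht w : Icc (0 : ℝ) 1) : ℝ) := h1
  rw [key v hv, key w hw] at h2
  linarith

end PRM

/-- the main part -/
theorem PRM.core (hEMB : S_EMB) (hNEX : S_NEX) (hKMN : S_KMN) (hDI0 : S_DI0) (hZMN : S_ZMN)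
    (hOPA : S_OPA) (hARZ : S_ARZ) (hAXY : S_AXY) (hDSC : S_DSC) (hCELL2 : S_CELL2)
    (hMAN2 : S_MAN2) (X : Type) [MetricSpace X] [CompactSpace X] (hA : IsANR X) (hH : Homog X)
    (h3 : ShrLE X 3) (K Z : Type) [MetricSpace K] [CompactSpace K] [MetricSpace Z]
    [CompactSpace Z] (hK : ¬ ShrLE K 1) (hZ : ¬ CovDimLE Z 0) (e : K × Z → X)
    (he : Continuous e) (hinj : Function.Injective e) : IsMfd3 X := by
  obtain ⟨a, b, hab, hsep⟩ := hDI0 Z hZ
  have hK3 : ShrLE K 3 := by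
    apply hEMB X K 3 (fun k => e (k, a)) (by fun_prop) _ h3
    intro k k' h
    exact congrArg Prod.fst (hinj h)
  obtain ⟨L, K1, f, hL, hK1, hLK, hf, hf0, hext⟩ := hNEX K hK3 hK
  obtain ⟨K0, L', f', hK0, hmK⟩ := hKMN K L K1 f hL hK1 hLK hf hf0 hext
  obtain ⟨Z0, a', b', hZ0, hmZ⟩ := hZMN Z a b hab hsep
  have cK0 : CompactSpace K0 := isCompact_iff_compactSpace.1 hK0.isCompact
  have cZ0 : CompactSpace Z0 := isCompact_iff_compactSpace.1 hZ0.isCompact
  let e0 : K0 × Z0 → X := fun q => e (q.1.1, q.2.1)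
  have he0 : Continuous e0 := by
    apply he.comp
    fun_prop
  have hinj0 : Function.Injective e0 := by
    rintro ⟨k, z⟩ ⟨k', z'⟩ h
    have h1 := hinj h
    have h2 : k = k' := Subtype.ext (congrArg Prod.fst h1)
    have h3 : z = z' := Subtype.ext (congrArg Prod.snd h1)
    rw [h2, h3]
  have hopen := hOPA X K0 Z0 hA hH h3 e0 L' f' a' b' he0 hinj0 hmK hmZ
  obtain ⟨b0, hb0a, hb0b⟩ := PRM.exists_third hmZ
  obtain ⟨ζ, hζ, hζi⟩ := hARZ X K0 Z0 e0 L'ᶜ {a', b'}ᶜ b0 hA he0 hinj0 hopen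
    (PRM.exists_compl hmK) (by simp [hb0a, hb0b]) (PRM.not_isolated hmZ hb0a hb0b)
  let e' : K0 × Icc (0 : ℝ) 1 → X := fun q => e0 (q.1, ζ q.2)
  have he' : Continuous e' := by
    have h1 : Continuous fun q : K0 × Icc (0 : ℝ) 1 => ζ (q.2 : ℝ) :=
      (continuousOn_iff_continuous_domRestrict.1 hζ).comp continuous_snd
    exact he0.comp (continuous_fst.prodMk h1)
  have hinj' : Function.Injective e' := by
    rintro ⟨k, t⟩ ⟨k', t'⟩ h
    have h1 := hinj0 h
    have h2 : k = k' := congrArg Prod.fst h1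
    have h3 : ζ (t : ℝ) = ζ (t' : ℝ) := congrArg Prod.snd h1
    have h4 : t = t' := Subtype.ext (hζi t.2 t'.2 h3)
    rw [h2, h4]
  obtain ⟨hax, hdat⟩ := hAXY X K0 e' L' f' hA hH h3 he' hinj' hmK
  obtain ⟨h, hh, hhi⟩ := hDSC _ hax hdat
  let g : (Fin 3 → ℝ) → X := fun v => e' ((h (PRM.pl v)).1, PRM.ht v)
  have hg : ContinuousOn g (Icc (-1) 1) := by
    apply he'.comp_continuousOn
    apply ContinuousOn.prodMk
    · apply continuous_subtype_val.comp_continuousOn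
      exact hh.comp PRM.pl_cont.continuousOn fun v hv => PRM.pl_mem hv
    · exact PRM.ht_cont.continuousOn
  have hgi : InjOn g (Icc (-1) 1) := by
    intro v hv w hw hvw
    have h1 := hinj' hvw
    have h2 : h (PRM.pl v) = h (PRM.pl w) := Subtype.ext (congrArg Prod.fst h1)
    have h3 : PRM.ht v = PRM.ht w := congrArg Prod.snd h1
    have h4 := PRM.pl_inj (hhi (PRM.pl_mem hv) (PRM.pl_mem hw) h2)
    have h5 := PRM.ht_inj hv hw h3
    funext i
    fin_cases i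
    · exact h4.1
    · exact h4.2
    · exact h5
  exact hMAN2 X hH g hg hgi (hCELL2 X hA hH h3 g hg hgi)

theorem t_PRM : M_PRM := by
  intro hSHR hEMB hNPR hNEX hKMN hDI0 hZMN hOPA hARZ hAXY hDSC hCELL2 hMAN2 X _ _ hA hH h3 hP
  obtain ⟨K, Z, _, _, _, _, hK0, hZ0, hKZ, e, he, hinj⟩ := hP
  have hKZ3 : ShrLE (K × Z) 3 := hEMB X (K × Z) 3 e he hinj h3
  have hKZ2 : ¬ ShrLE (K × Z) 2 := fun h => hKZ ((hSHR _ 2).2 h)
  by_cases hK1 : ShrLE K 1
  · have hZ1 : ¬ ShrLE Z 1 := fun h => hKZ2 (hNPR K Z hKZ3 hK1 h)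
    exact PRM.core hEMB hNEX hKMN hDI0 hZMN hOPA hARZ hAXY hDSC hCELL2 hMAN2 X hA hH h3 Z K hZ1
      hK0 (fun q => e (q.2, q.1)) (by fun_prop) (by
        rintro ⟨z, k⟩ ⟨z', k'⟩ h
        have h1 := hinj h
        have h2 : k = k' := congrArg Prod.fst h1
        have h3 : z = z' := congrArg Prod.snd h1
        rw [h2, h3])
  · exact PRM.core hEMB hNEX hKMN hDI0 hZMN hOPA hARZ hAXY hDSC hCELL2 hMAN2 X hA hH h3 K Z hK1
      hZ0 e he hinj

end BBP


end

section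

/-!
# BBP, module RFN: refinement along a division
-/

set_option autoImplicit false

namespace BBP

open Set Topology Metric CTO

namespace RFN

theorem ref_refl {Y Y' : Type} [TopologicalSpace Y] [TopologicalSpace Y']
    (Sg : Set (Set Y × Set Y')) : Ref Sg Sg :=
  fun q' hq' => ⟨q', hq', Subset.rfl, Subset.rfl⟩

theorem ref_trans {Y Y' : Type} [TopologicalSpace Y] [TopologicalSpace Y']
    {Sg Sg' Sg'' : Set (Set Y × Set Y')} (h : Ref Sg Sg') (h' : Ref Sg' Sg'') : Ref Sg Sg'' := by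
  intro q'' hq''
  obtain ⟨q', hq', h1, h2⟩ := h' q'' hq''
  obtain ⟨q, hq, h3, h4⟩ := h q' hq'
  exact ⟨q, hq, h1.trans h3, h2.trans h4⟩

theorem one (hS : S_STP) (Y Y' : Type) [MetricSpace Y] [MetricSpace Y'] (S : Set (Set Y))
    (S' : Set (Set Y')) (K : Set Y) (K' : Set Y') (R : Set Y → Prop) (hc : Cel S)
    (hc' : Cel S') (C : Set Y) (hD : Div R C) :
    ∀ (Sg : Set (Set Y × Set Y')) (g : Y → Y'), Sta S S' K K' Sg g → ∀ q ∈ Sg, q.1 = C →
    ∃ (Sg' : Set (Set Y × Set Y')) (g' : Y → Y'), Sta S S' K K' Sg' g' ∧ Ref Sg Sg' ∧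
      ∀ q' ∈ Sg', q' ∈ Sg \ {q} ∨ R q'.1 := by
  induction hD with
  | leaf C hR =>
    intro Sg g hst q hq hqC
    refine ⟨Sg, g, hst, ref_refl Sg, ?_⟩
    intro q' hq'
    by_cases h : q' = q
    · right
      rw [h, hqC]
      exact hR
    · exact Or.inl ⟨hq', h⟩
  | node C A1 A2 P a b h1 h2 h3 h4 h5 h6 _ _ ih1 ih2 =>
    intro Sg g hst q hq hqC
    obtain ⟨B1, B2, g1, hst1, href1⟩ := hS Y Y' S S' K K' Sg g hc hc' hst q hq A1 A2 P a b
      h1 h2 (by rw [hqC]; exact h3) h4 h5 (by rw [hqC]; exact h6)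
    obtain ⟨Sg2, g2, hst2, href2, hq2⟩ := ih1 _ g1 hst1 (A1 ∪ P, B1)
      (Or.inr (Or.inl rfl)) rfl
    have key : ∀ q' : Set Y × Set Y', q' ∈ ((Sg \ {q}) ∪ {(A1 ∪ P, B1), (A2 ∪ P, B2)}) \
        {(A1 ∪ P, B1)} → q' ≠ (A2 ∪ P, B2) → q' ∈ Sg \ {q} := by
      rintro q' ⟨h7 | h7, h8⟩ h9
      · exact h7
      · rcases h7 with h7 | h7
        · exact absurd h7 h8
        · exact absurd h7 h9
    by_cases hm : (A2 ∪ P, B2) ∈ Sg2
    · obtain ⟨Sg3, g3, hst3, href3, hq3⟩ := ih2 _ g2 hst2 (A2 ∪ P, B2) hm rfl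
      refine ⟨Sg3, g3, hst3, ref_trans (ref_trans href1 href2) href3, ?_⟩
      intro q' hq'
      rcases hq3 q' hq' with ⟨h7, h8⟩ | h7
      · rcases hq2 q' h7 with h9 | h9
        · exact Or.inl (key q' h9 h8)
        · exact Or.inr h9
      · exact Or.inr h7
    · refine ⟨Sg2, g2, hst2, ref_trans href1 href2, ?_⟩
      intro q' hq'
      rcases hq2 q' hq' with h9 | h9
      · exact Or.inl (key q' h9 (fun h => hm (h ▸ hq')))
      · exact Or.inr h9

theorem all (hS : S_STP) (Y Y' : Type) [MetricSpace Y] [MetricSpace Y'] (S : Set (Set Y))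
    (S' : Set (Set Y')) (K : Set Y) (K' : Set Y') (R : Set Y → Prop) (hc : Cel S)
    (hc' : Cel S') (n : ℕ) :
    ∀ (Sg : Set (Set Y × Set Y')) (g : Y → Y'), Sta S S' K K' Sg g → (∀ q ∈ Sg, Div R q.1) →
    {q ∈ Sg | ¬ R q.1}.ncard ≤ n →
    ∃ (Sg' : Set (Set Y × Set Y')) (g' : Y → Y'), Sta S S' K K' Sg' g' ∧ Ref Sg Sg' ∧
      ∀ q ∈ Sg', R q.1 := by
  induction n with
  | zero =>
    intro Sg g hst _ hn
    refine ⟨Sg, g, hst, ref_refl Sg, ?_⟩
    intro q hq
    by_contra hR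
    have hfin : {q ∈ Sg | ¬ R q.1}.Finite := hst.fin.subset fun q hq => hq.1
    have h0 : {q ∈ Sg | ¬ R q.1} = ∅ := (Set.ncard_eq_zero hfin).1 (Nat.le_zero.1 hn)
    have : q ∈ {q ∈ Sg | ¬ R q.1} := ⟨hq, hR⟩
    rw [h0] at this
    exact this
  | succ n ih =>
    intro Sg g hst hD hn
    by_cases hex : ∃ q ∈ Sg, ¬ R q.1
    · obtain ⟨q, hq, hR⟩ := hex
      obtain ⟨Sg1, g1, hst1, href1, hq1⟩ := one hS Y Y' S S' K K' R hc hc' q.1 (hD q hq) Sg g
        hst q hq rfl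
      have hfin : {q ∈ Sg | ¬ R q.1}.Finite := hst.fin.subset fun q hq => hq.1
      have hsub : {q ∈ Sg1 | ¬ R q.1} ⊆ {q ∈ Sg | ¬ R q.1} \ {q} := by
        rintro q' ⟨h1, h2⟩
        rcases hq1 q' h1 with h3 | h3
        · exact ⟨⟨h3.1, h2⟩, h3.2⟩
        · exact absurd h3 h2
      have hlt : {q ∈ Sg1 | ¬ R q.1}.ncard ≤ n := by
        have e1 := Set.ncard_le_ncard hsub hfin.sdiff
        have e2 := Set.ncard_sdiff_singleton_lt_of_mem (a := q) (s := {q ∈ Sg | ¬ R q.1})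
          ⟨hq, hR⟩ hfin
        omega
      obtain ⟨Sg2, g2, hst2, href2, hq2⟩ := ih Sg1 g1 hst1 (fun q' hq' => by
        rcases hq1 q' hq' with h3 | h3
        · exact hD q' h3.1
        · exact Div.leaf _ h3) hlt
      exact ⟨Sg2, g2, hst2, ref_trans href1 href2, hq2⟩
    · refine ⟨Sg, g, hst, ref_refl Sg, ?_⟩
      intro q hq
      by_contra hR
      exact hex ⟨q, hq, hR⟩

end RFN

theorem t_RFN : M_RFN := by
  intro hS Y Y' _ _ S S' K K' Sg g R hc hc' hst hD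
  exact RFN.all hS Y Y' S S' K K' R hc hc' _ Sg g hst hD le_rfl

end BBP


end

section

/-!
# MP_6eac38_gt, module STP: one cross-cut
-/

set_option autoImplicit false

namespace BBP

open Set Topology

namespace STP

variable {Y Y' : Type} [MetricSpace Y] [MetricSpace Y']

/-- `α' ∘ α⁻¹` is continuous -/
theorem inv_cont {α : ℝ → Y} {α' : ℝ → Y'} (hα : ContinuousOn α (Icc 0 1))
    (hi : InjOn α (Icc 0 1)) (hα' : ContinuousOn α' (Icc 0 1)) :
    ∃ h : Y → Y', ContinuousOn h (α '' Icc 0 1) ∧ ∀ t ∈ Icc (0 : ℝ) 1, h (α t) = α' t := by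
  have key : ∀ t ∈ Icc (0 : ℝ) 1, (fun y => α' (Function.invFunOn α (Icc 0 1) y)) (α t) = α' t := by
    intro t ht
    have h1 : Function.invFunOn α (Icc 0 1) (α t) = t := by
      apply hi (Function.invFunOn_mem ⟨t, ht, rfl⟩) ht
      exact Function.invFunOn_eq ⟨t, ht, rfl⟩
    simp only [h1]
  refine ⟨fun y => α' (Function.invFunOn α (Icc 0 1) y), ?_, key⟩
  rw [continuousOn_iff_isClosed]
  intro T hT
  have hc : IsCompact (α '' (Icc 0 1 ∩ α' ⁻¹' T)) := by
    have h1 : IsCompact (Icc (0 : ℝ) 1 ∩ α' ⁻¹' T) := by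
      apply isCompact_Icc.of_isClosed_subset _ inter_subset_left
      exact hα'.preimage_isClosed_of_isClosed isClosed_Icc hT
    exact h1.image_of_continuousOn (hα.mono inter_subset_left)
  refine ⟨_, hc.isClosed, ?_⟩
  ext y
  constructor
  · rintro ⟨h1, t, ht, rfl⟩
    refine ⟨⟨t, ⟨ht, ?_⟩, rfl⟩, t, ht, rfl⟩
    have h2 : α' (Function.invFunOn α (Icc 0 1) (α t)) ∈ T := h1
    have h3 := key t ht
    simp only at h3
    rw [h3] at h2
    exact h2
  · rintro ⟨⟨t, ⟨ht, h1⟩, rfl⟩, h2⟩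
    refine ⟨?_, h2⟩
    change α' (Function.invFunOn α (Icc 0 1) (α t)) ∈ T
    have h3 := key t ht
    simp only at h3
    rw [h3]
    exact h1

theorem scc_compact {C : Set Y} (hC : Scc C) : IsCompact C := by
  obtain ⟨γ, ⟨h1, h2, -⟩, h3⟩ := hC
  have h4 := h2.image_Icc (by norm_num : (0 : ℝ) < 1) 0
  rw [← h3, ← h4]
  exact isCompact_Icc.image h1

theorem int_aux {C D A1 A2 P : Set Y} (h : cel C ∩ cel D ⊆ C ∩ D) (hC : A1 ∪ A2 = C)
    (hu : cel (A1 ∪ P) ∪ cel (A2 ∪ P) = cel C) (hi : cel (A1 ∪ P) ∩ cel (A2 ∪ P) = P) :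
    cel (A1 ∪ P) ∩ cel D ⊆ (A1 ∪ P) ∩ D := by
  rintro y ⟨h1, h2⟩
  have h3 : y ∈ cel C := by
    rw [← hu]
    exact Or.inl h1
  obtain ⟨h4, h5⟩ := h ⟨h3, h2⟩
  refine ⟨?_, h5⟩
  rw [← hC] at h4
  rcases h4 with h4 | h4
  · exact Or.inl h4
  · right
    rw [← hi]
    exact ⟨h1, Or.inl (Or.inl h4)⟩

/-- the conditions `int` for the new cells -/
theorem int_new {Z W : Type} [MetricSpace Z] {Sg : Set W} {φ : W → Set Z} {q p1 p2 : W}
    {A1 A2 P : Set Z} (hq : q ∈ Sg)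
    (h : ∀ s ∈ Sg, ∀ r ∈ Sg, s ≠ r → cel (φ s) ∩ cel (φ r) ⊆ φ s ∩ φ r)
    (hC : A1 ∪ A2 = φ q) (hu : cel (A1 ∪ P) ∪ cel (A2 ∪ P) = cel (φ q))
    (hi : cel (A1 ∪ P) ∩ cel (A2 ∪ P) = P) (h1 : φ p1 = A1 ∪ P) (h2 : φ p2 = A2 ∪ P) :
    ∀ s ∈ (Sg \ {q}) ∪ {p1, p2}, ∀ r ∈ (Sg \ {q}) ∪ {p1, p2}, s ≠ r →
      cel (φ s) ∩ cel (φ r) ⊆ φ s ∩ φ r := by
  have k1 : ∀ r ∈ Sg \ {q}, cel (A1 ∪ P) ∩ cel (φ r) ⊆ (A1 ∪ P) ∩ φ r := by
    intro r hr
    exact int_aux (h q hq r hr.1 (fun e => hr.2 e.symm)) hC hu hi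
  have k2 : ∀ r ∈ Sg \ {q}, cel (A2 ∪ P) ∩ cel (φ r) ⊆ (A2 ∪ P) ∩ φ r := by
    intro r hr
    refine int_aux (A2 := A1) (h q hq r hr.1 (fun e => hr.2 e.symm)) ?_ ?_ ?_
    · rw [union_comm, hC]
    · rw [union_comm, hu]
    · rw [inter_comm, hi]
  intro s hs r hr hsr
  rcases hs with hs | rfl | hs <;> rcases hr with hr | rfl | hr
  · exact h s hs.1 r hr.1 hsr
  · rw [inter_comm, inter_comm (φ s), h1]
    exact k1 s hs
  · rw [mem_singleton_iff.1 hr, inter_comm, inter_comm (φ s), h2]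
    exact k2 s hs
  · rw [h1]
    exact k1 r hr
  · exact absurd rfl hsr
  · rw [mem_singleton_iff.1 hr, h1, h2, hi]
    exact fun y hy => ⟨Or.inr hy, Or.inr hy⟩
  · rw [mem_singleton_iff.1 hs, h2]
    exact k2 r hr
  · rw [mem_singleton_iff.1 hs, h1, h2, inter_comm, hi]
    exact fun y hy => ⟨Or.inr hy, Or.inr hy⟩
  · exact absurd ((mem_singleton_iff.1 hs).trans (mem_singleton_iff.1 hr).symm) hsr

/-- the covering by the new cells -/
theorem cov_new {Z W : Type} [MetricSpace Z] {Sg : Set W} {φ : W → Set Z} {q p1 p2 : W}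
    {A1 A2 P : Set Z} (hq : q ∈ Sg)
    (hu : cel (A1 ∪ P) ∪ cel (A2 ∪ P) = cel (φ q)) (h1 : φ p1 = A1 ∪ P)
    (h2 : φ p2 = A2 ∪ P) :
    (⋃ s ∈ (Sg \ {q}) ∪ {p1, p2}, cel (φ s)) = ⋃ s ∈ Sg, cel (φ s) := by
  ext y
  simp only [mem_iUnion, exists_prop]
  constructor
  · rintro ⟨s, hs | rfl | hs, hy⟩
    · exact ⟨s, hs.1, hy⟩
    · refine ⟨q, hq, ?_⟩
      rw [← hu, ← h1]
      exact Or.inl hy
    · refine ⟨q, hq, ?_⟩
      rw [← hu, ← h2, ← mem_singleton_iff.1 hs]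
      exact Or.inr hy
  · rintro ⟨s, hs, hy⟩
    by_cases e : s = q
    · subst e
      rw [← hu] at hy
      rcases hy with hy | hy
      · exact ⟨p1, Or.inr (Or.inl rfl), by rw [h1]; exact hy⟩
      · exact ⟨p2, Or.inr (Or.inr rfl), by rw [h2]; exact hy⟩
    · exact ⟨s, Or.inl ⟨hs, e⟩, hy⟩

end STP

open STP in
open Classical in
theorem t_STP : M_STP := by
  intro hARB Y Y' _ _ S S' K K' Sg g hS hS' hst q hq A1 A2 P a b hA1 hA2 h12 hi hP hPi
  obtain ⟨hqS, hqS'⟩ := hst.mem q hq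
  set G : Set Y := ⋃ r ∈ Sg, r.1 with hG
  have hsub : ∀ r ∈ Sg, r.1 ⊆ G := fun r hr y hy => by
    rw [hG]
    exact mem_biUnion hr hy
  have hqG : q.1 ⊆ G := hsub q hq
  have hA1q : A1 ⊆ q.1 := by rw [← h12]; exact subset_union_left
  have hA2q : A2 ⊆ q.1 := by rw [← h12]; exact subset_union_right
  obtain ⟨hab, haA1, hbA1, -⟩ := hARB Y A1 a b hA1
  obtain ⟨-, haA2, hbA2, -⟩ := hARB Y A2 a b hA2
  obtain ⟨-, haP, hbP, -, hPc, -⟩ := hARB Y P a b hP
  have haG : a ∈ G := hqG (hA1q haA1)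
  have hbG : b ∈ G := hqG (hA1q hbA1)
  have hgab : g a ≠ g b := fun e => hab (hst.inj haG hbG e)
  have himg := hst.img q hq
  -- the cross-cut on the other side
  obtain ⟨P', hP', hPi'⟩ := hS'.cross q.2 hqS' (g a) (by rw [← himg]; exact ⟨a, hA1q haA1, rfl⟩)
    (g b) (by rw [← himg]; exact ⟨b, hA1q hbA1, rfl⟩) hgab
  have harc : ∀ A ⊆ q.1, Arc A a b → Arc (g '' A) (g a) (g b) := by
    rintro A hA ⟨α, h1, h2, h3, h4, rfl⟩
    have hαG : ∀ t ∈ Icc (0 : ℝ) 1, α t ∈ G := fun t ht => hqG (hA ⟨t, ht, rfl⟩)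
    refine ⟨g ∘ α, hst.cont.comp h1 hαG, fun s hs t ht e => h2 hs ht (hst.inj (hαG s hs)
      (hαG t ht) e), ?_, ?_, ?_⟩
    · rw [Function.comp_apply, h3]
    · rw [Function.comp_apply, h4]
    · rw [image_comp]
  have hB1 := harc A1 hA1q hA1
  have hB2 := harc A2 hA2q hA2
  have h12' : g '' A1 ∪ g '' A2 = q.2 := by rw [← image_union, h12, himg]
  have hi' : g '' A1 ∩ g '' A2 = {g a, g b} := by
    rw [← hst.inj.image_inter (hA1q.trans hqG) (hA2q.trans hqG), hi, image_pair]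
  obtain ⟨s1, s2, s3, s4⟩ := hS.split q.1 hqS A1 A2 P a b hA1 hA2 h12 hi hP hPi
  obtain ⟨s1', s2', s3', s4'⟩ := hS'.split q.2 hqS' (g '' A1) (g '' A2) P' (g a) (g b) hB1 hB2
    h12' hi' hP' hPi'
  -- the insides are disjoint from the curves
  have hdis : ∀ y ∈ ins q.1, y ∉ G := by
    intro y hy hyG
    rw [hG] at hyG
    obtain ⟨r, hr, hyr⟩ := mem_iUnion₂.1 hyG
    have h1 := hS.dsj q.1 hqS
    by_cases e : q = r
    · rw [← e] at hyr
      exact disjoint_left.1 h1 hy hyr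
    · exact disjoint_left.1 h1 hy (hst.int q hq r hr e ⟨Or.inr hy, Or.inl hyr⟩).1
  have hdis' : ∀ y ∈ G, g y ∉ ins q.2 := by
    intro y hyG hy
    rw [hG] at hyG
    obtain ⟨r, hr, hyr⟩ := mem_iUnion₂.1 hyG
    have hyr' : g y ∈ r.2 := by
      rw [← hst.img r hr]
      exact ⟨y, hyr, rfl⟩
    have h1 := hS'.dsj q.2 hqS'
    by_cases e : q = r
    · rw [← e] at hyr'
      exact disjoint_left.1 h1 hy hyr'
    · exact disjoint_left.1 h1 hy (hst.int' q hq r hr e ⟨Or.inr hy, Or.inl hyr'⟩).1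
  have hPG : ∀ y ∈ P, y ∈ G → y = a ∨ y = b := by
    intro y hyP hyG
    by_contra hcon
    exact hdis y (hPi ⟨hyP, by simpa using hcon⟩) hyG
  -- the map on `P`
  obtain ⟨β, b1, b2, b3, b4, b5⟩ := hP
  obtain ⟨β', c1, c2, c3, c4, c5⟩ := hP'
  obtain ⟨h, hh1, hh2⟩ := inv_cont b1 b2 c1
  rw [← b5] at hh1
  have hha : h a = g a := by
    rw [← b3, hh2 0 (by simp), c3, b3]
  have hhb : h b = g b := by
    rw [← b4, hh2 1 (by simp), c4, b4]
  have hhP : h '' P = P' := by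
    rw [b5, c5, image_image]
    exact image_congr fun t ht => hh2 t ht
  have hhinj : InjOn h P := by
    intro y hy z hz e
    rw [b5] at hy hz
    obtain ⟨s, hs, rfl⟩ := hy
    obtain ⟨t, ht, rfl⟩ := hz
    rw [hh2 s hs, hh2 t ht] at e
    rw [c2 hs ht e]
  have e1 : EqOn (fun y => if y ∈ G then g y else h y) g G := fun y hy => by simp only [hy, if_true]
  have e2 : EqOn (fun y => if y ∈ G then g y else h y) h P := fun y hy => by
    by_cases hyG : y ∈ G
    · simp only [hyG, if_true]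
      rcases hPG y hy hyG with rfl | rfl
      · exact hha.symm
      · exact hhb.symm
    · simp only [hyG, if_false]
  have hGc : IsCompact G := by
    rw [hG]
    exact hst.fin.isCompact_biUnion fun r hr => scc_compact (hS.scc _ (hst.mem r hr).1)
  have hnew : (⋃ r ∈ (Sg \ {q}) ∪ {(A1 ∪ P, g '' A1 ∪ P'), (A2 ∪ P, g '' A2 ∪ P')}, r.1) =
      G ∪ P := by
    ext y
    simp only [mem_iUnion, exists_prop]
    constructor
    · rintro ⟨r, hr | rfl | hr, hy⟩
      · exact Or.inl (hsub r hr.1 hy)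
      · rcases hy with hy | hy
        · exact Or.inl (hqG (hA1q hy))
        · exact Or.inr hy
      · rw [mem_singleton_iff.1 hr] at hy
        rcases hy with hy | hy
        · exact Or.inl (hqG (hA2q hy))
        · exact Or.inr hy
    · rintro (hy | hy)
      · rw [hG] at hy
        obtain ⟨r, hr, hyr⟩ := mem_iUnion₂.1 hy
        by_cases e : r = q
        · rw [e, ← h12] at hyr
          rcases hyr with hyr | hyr
          · exact ⟨_, Or.inr (Or.inl rfl), Or.inl hyr⟩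
          · exact ⟨_, Or.inr (Or.inr rfl), Or.inl hyr⟩
        · exact ⟨r, Or.inl ⟨hr, e⟩, hyr⟩
      · exact ⟨_, Or.inr (Or.inl rfl), Or.inr hy⟩
  refine ⟨g '' A1 ∪ P', g '' A2 ∪ P', fun y => if y ∈ G then g y else h y, ⟨?_, ?_, ?_, ?_, ?_,
    ?_, ?_, ?_, ?_⟩, ?_⟩
  · exact (hst.fin.sdiff).union (by simp)
  · rintro r (hr | rfl | hr)
    · exact hst.mem r hr.1
    · exact ⟨s1, s1'⟩
    · rw [mem_singleton_iff.1 hr]
      exact ⟨s2, s2'⟩
  · rintro r (hr | rfl | hr)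
    · rw [(e1.mono (hsub r hr.1)).image_eq]
      exact hst.img r hr.1
    · change _ '' (A1 ∪ P) = _
      rw [image_union, (e1.mono (hA1q.trans hqG)).image_eq, e2.image_eq, hhP]
    · rw [mem_singleton_iff.1 hr]
      change _ '' (A2 ∪ P) = _
      rw [image_union, (e1.mono (hA2q.trans hqG)).image_eq, e2.image_eq, hhP]
  · rw [← hst.cov]
    exact cov_new (φ := Prod.fst) hq s3 rfl rfl
  · rw [← hst.cov']
    exact cov_new (φ := Prod.snd) hq s3' rfl rfl
  · exact int_new (φ := Prod.fst) hq hst.int h12 s3 s4 rfl rfl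
  · exact int_new (φ := Prod.snd) hq hst.int' h12' s3' s4' rfl rfl
  · rw [hnew]
    have hmix : ∀ y ∈ G, ∀ z ∈ P, z ∉ G → g y ≠ h z := by
      intro y hy z hz hzG e
      have hz1 : z ≠ a := fun e => hzG (e ▸ haG)
      have hz2 : z ≠ b := fun e => hzG (e ▸ hbG)
      apply hdis' y hy
      rw [e]
      apply hPi'
      refine ⟨by rw [← hhP]; exact ⟨z, hz, rfl⟩, ?_⟩
      rintro (e3 | e3)
      · rw [← hha] at e3
        exact hz1 (hhinj hz haP e3)
      · rw [mem_singleton_iff, ← hhb] at e3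
        exact hz2 (hhinj hz hbP e3)
    intro y hy z hz e
    by_cases hyG : y ∈ G <;> by_cases hzG : z ∈ G <;> simp only [hyG, hzG, if_true, if_false] at e
    · exact hst.inj hyG hzG e
    · exact absurd e (hmix y hyG z (hz.resolve_left hzG) hzG)
    · exact absurd e.symm (hmix z hzG y (hy.resolve_left hyG) hyG)
    · exact hhinj (hy.resolve_left hyG) (hz.resolve_left hzG) e
  · rw [hnew]
    exact (hst.cont.congr e1).union_of_isClosed (hh1.congr e2) hGc.isClosed hPc.isClosed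
  · rintro r (hr | rfl | hr)
    · exact ⟨r, hr.1, subset_rfl, subset_rfl⟩
    · refine ⟨q, hq, ?_, ?_⟩
      · change (A1 ∪ P) ∪ ins (A1 ∪ P) ⊆ q.1 ∪ ins q.1
        rw [← s3]
        exact subset_union_left
      · change (g '' A1 ∪ P') ∪ ins (g '' A1 ∪ P') ⊆ q.2 ∪ ins q.2
        rw [← s3']
        exact subset_union_left
    · rw [mem_singleton_iff.1 hr]
      refine ⟨q, hq, ?_, ?_⟩
      · change (A2 ∪ P) ∪ ins (A2 ∪ P) ⊆ q.1 ∪ ins q.1
        rw [← s3]
        exact subset_union_right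
      · change (g '' A2 ∪ P') ∪ ins (g '' A2 ∪ P') ⊆ q.2 ∪ ins q.2
        rw [← s3']
        exact subset_union_right

end BBP


end

section

/-!
# BBP, module SWP: exchange of the two spaces
-/

set_option autoImplicit false

namespace BBP

open Set Topology Metric CTO
open Pool.Agent.LIX (CLog)

theorem t_SWP : M_SWP := by
  intro hSCB Y Y' _ _ S S' K K' Sg g hS hS' hK hSta
  classical
  have hne : Nonempty Y := ⟨hK.some⟩
  have hinv : ∀ x ∈ (⋃ q ∈ Sg, q.1 : Set Y), Function.invFunOn g (⋃ q ∈ Sg, q.1) (g x) = x :=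
    fun x hx => hSta.inj.leftInvOn_invFunOn hx
  have hsub : ∀ q ∈ Sg, q.1 ⊆ (⋃ q ∈ Sg, q.1 : Set Y) := fun q hq =>
    subset_biUnion_of_mem (u := fun q : Set Y × Set Y' => q.1) hq
  have hcpt : IsCompact (⋃ q ∈ Sg, q.1 : Set Y) :=
    hSta.fin.isCompact_biUnion fun q hq => (hSCB Y q.1 (hS.scc q.1 (hSta.mem q hq).1)).1
  have hG' : (⋃ q' ∈ Prod.swap '' Sg, q'.1 : Set Y') = g '' (⋃ q ∈ Sg, q.1) := by
    rw [biUnion_image, image_iUnion₂]
    exact iUnion₂_congr fun q hq => (hSta.img q hq).symm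
  refine ⟨Function.invFunOn g (⋃ q ∈ Sg, q.1), ?_, ?_, ?_, ?_, ?_, ?_, ?_, ?_, ?_⟩
  · exact hSta.fin.image _
  · rintro _ ⟨q, hq, rfl⟩
    exact ⟨(hSta.mem q hq).2, (hSta.mem q hq).1⟩
  · rintro _ ⟨q, hq, rfl⟩
    change Function.invFunOn g (⋃ q ∈ Sg, q.1) '' q.2 = q.1
    rw [← hSta.img q hq, image_image]
    ext x
    constructor
    · rintro ⟨y, hy, rfl⟩
      change Function.invFunOn g (⋃ q ∈ Sg, q.1) (g y) ∈ q.1
      rw [hinv y (hsub q hq hy)]
      exact hy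
    · intro hx
      exact ⟨x, hx, hinv x (hsub q hq hx)⟩
  · rw [biUnion_image]
    exact hSta.cov'
  · rw [biUnion_image]
    exact hSta.cov
  · rintro _ ⟨q, hq, rfl⟩ _ ⟨r, hr, rfl⟩ hne'
    exact hSta.int' q hq r hr fun h => hne' (by rw [h])
  · rintro _ ⟨q, hq, rfl⟩ _ ⟨r, hr, rfl⟩ hne'
    exact hSta.int q hq r hr fun h => hne' (by rw [h])
  · rw [hG']
    rintro _ ⟨x, hx, rfl⟩ _ ⟨y, hy, rfl⟩ hxy
    rw [hinv x hx, hinv y hy] at hxy
    rw [hxy]
  · rw [hG', continuousOn_iff_isClosed]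
    intro t ht
    have h1 : IsCompact ((⋃ q ∈ Sg, q.1 : Set Y) ∩ t) := hcpt.inter_right ht
    refine ⟨g '' ((⋃ q ∈ Sg, q.1 : Set Y) ∩ t),
      (h1.image_of_continuousOn (hSta.cont.mono inter_subset_left)).isClosed, ?_⟩
    ext y
    constructor
    · rintro ⟨h2, x, hx, rfl⟩
      refine ⟨⟨x, ⟨hx, ?_⟩, rfl⟩, x, hx, rfl⟩
      have h3 : Function.invFunOn g (⋃ q ∈ Sg, q.1) (g x) ∈ t := h2
      rwa [hinv x hx] at h3
    · rintro ⟨⟨x, hx, rfl⟩, h2⟩
      refine ⟨?_, h2⟩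
      change Function.invFunOn g (⋃ q ∈ Sg, q.1) (g x) ∈ t
      rw [hinv x hx.1]
      exact hx.2

end BBP


end
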