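import Mathlib
import Pool.Agent.BBM.C08

/-! Parts: BBP.A_ALT, BBP.A_DI0, BBP.A_EMB, BBP.A_EXC, BBP.A_FLP, BBP.A_KMN, BBP.A_NPR, BBP.A_OPA, BBP.A_SEL, BBP.A_ZMN, BBP.B_CMP, BBP.B_CTH, BBP.B_CTR, BBP.B_DEG, BBP.B_DGP, BBP.B_ETW, BBP.B_FIV, BBP.B_JAN, BBP.B_JC2, BBP.B_JC3, BBP.B_LOG, BBP.B_MMN, BBP.B_NRM, BBP.B_NSP, BBP.B_NST, BBP.B_PLN, BBP.B_PNT, BBP.B_SCB, BBP.B_SGN, BBP.B_TRI, BBP.B_UNI -/

section

/-!
# BBP, ALT: the coboundary of an antisymmetric 3-cochain vanishes if two points are equal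
-/

set_option autoImplicit false

namespace BBP

theorem t_ALT : S_ALT := by
  intro X φ h a b c d e hn
  have s01 : ∀ a b c d, φ b a c d = -φ a b c d := fun a b c d => (h a b c d).1
  have s12 : ∀ a b c d, φ a c b d = -φ a b c d := fun a b c d => (h a b c d).2.1
  have s23 : ∀ a b c d, φ a b d c = -φ a b c d := fun a b c d => (h a b c d).2.2
  have z01 : ∀ a c d, φ a a c d = 0 := fun a c d => by have := s01 a a c d; omega
  have z12 : ∀ a b d, φ a b b d = 0 := fun a b d => by have := s12 a b b d; omega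
  have z23 : ∀ a b c, φ a b c c = 0 := fun a b c => by have := s23 a b c c; omega
  have z02 : ∀ a b d, φ a b a d = 0 := fun a b d => by
    have h1 := s12 a a b d
    have h2 := z01 a b d
    omega
  have z13 : ∀ a b c, φ a b c b = 0 := fun a b c => by
    have h1 := s23 a b b c
    have h2 := z12 a b c
    omega
  have z03 : ∀ a b c, φ a b c a = 0 := fun a b c => by
    have h1 := s23 a b a c
    have h2 := z02 a b c
    omega
  have hc : a = b ∨ a = c ∨ a = d ∨ a = e ∨ b = c ∨ b = d ∨ b = e ∨ c = d ∨ c = e ∨ d = e := by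
    by_contra hcon
    apply hn
    simp only [not_or] at hcon
    simp only [List.nodup_cons, List.mem_cons, List.not_mem_nil, or_false, not_or,
      not_false_eq_true, List.nodup_nil, and_true]
    tauto
  unfold d3
  rcases hc with rfl | rfl | rfl | rfl | rfl | rfl | rfl | rfl | rfl | rfl
  · rw [z01, z01, z01]; omega
  · have h1 := s01 a b d e
    rw [z01, z02, z02]; omega
  · have h1 := s12 b a c e
    have h2 := s01 a b c e
    rw [z02, z02, z03]; omega
  · have h1 := s23 b c a d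
    have h2 := s12 b a c d
    have h3 := s01 a b c d
    rw [z03, z03, z03]; omega
  · rw [z01, z12, z12]; omega
  · have h1 := s12 a b c e
    rw [z02, z12, z13]; omega
  · have h1 := s23 a c b d
    have h2 := s12 a b c d
    rw [z03, z13, z13]; omega
  · rw [z12, z12, z23]; omega
  · have h1 := s23 a b c d
    rw [z13, z13, z23]; omega
  · rw [z23, z23, z23]; omega

end BBP


end

section

/-!
# BBP: a compact space in which any two points are separated has dimension 0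
-/

set_option autoImplicit false

namespace BBP

open Set Topology CTO

namespace DI0

/-- the atoms of a family of sets -/
def atom {Z : Type} (t : Finset Z) (V : Z → Set Z) (z : Z) : Set Z :=
  {y | ∀ x ∈ t, (y ∈ V x ↔ z ∈ V x)}

theorem mem_atom {Z : Type} (t : Finset Z) (V : Z → Set Z) (z : Z) : z ∈ atom t V z :=
  fun _ _ => Iff.rfl

theorem atom_eq {Z : Type} (t : Finset Z) (V : Z → Set Z) {y z : Z} (h : y ∈ atom t V z) :
    atom t V z = atom t V y := by
  ext w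
  constructor
  · intro hw x hx
    rw [hw x hx, h x hx]
  · intro hw x hx
    rw [hw x hx, h x hx]

theorem atom_open {Z : Type} [TopologicalSpace Z] (t : Finset Z) (V : Z → Set Z)
    (hV : ∀ x, IsClopen (V x)) (z : Z) : IsOpen (atom t V z) := by
  have e : atom t V z = ⋂ x ∈ t, {y | y ∈ V x ↔ z ∈ V x} := by
    ext y
    simp [atom]
  rw [e]
  refine isOpen_biInter_finset fun x _ => ?_
  by_cases h : z ∈ V x
  · have e2 : {y | y ∈ V x ↔ z ∈ V x} = V x := by
      ext y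
      simp [h]
    rw [e2]
    exact (hV x).isOpen
  · have e2 : {y | y ∈ V x ↔ z ∈ V x} = (V x)ᶜ := by
      ext y
      simp [h]
    rw [e2]
    exact (hV x).compl.isOpen

theorem atom_finite {Z : Type} (t : Finset Z) (V : Z → Set Z) : (range (atom t V)).Finite := by
  classical
  have h : range (atom t V) ⊆
      (fun s : Finset Z => {y | ∀ x ∈ t, (y ∈ V x ↔ x ∈ s)}) '' (t.powerset : Set (Finset Z)) := by
    rintro _ ⟨z, rfl⟩
    refine ⟨t.filter fun x => z ∈ V x, ?_, ?_⟩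
    · rw [Finset.mem_coe, Finset.mem_powerset]
      exact Finset.filter_subset _ _
    · ext y
      simp only [mem_setOf_eq, Finset.mem_filter, atom]
      constructor
      · intro h x hx
        rw [h x hx]
        exact ⟨fun h => h.2, fun h => ⟨hx, h⟩⟩
      · intro h x hx
        rw [h x hx]
        exact ⟨fun h => ⟨hx, h⟩, fun h => h.2⟩
  exact (Set.Finite.image _ (Finset.finite_toSet _)).subset h

end DI0

/-- If the covering dimension is not zero, two different points are not separated. -/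
theorem t_DI0 : S_DI0 := by
  intro Z _ _ hZ
  by_contra hcon
  push Not at hcon
  apply hZ
  have hts : TotallySeparatedSpace Z := by
    refine totallySeparatedSpace_iff_exists_isClopen.2 fun a b hab => ?_
    obtain ⟨A, B, hA, hB, hd, hu, ha, hb⟩ := hcon a b hab
    have hAB : B = Aᶜ := by
      ext x
      constructor
      · intro hx hx'
        exact Set.disjoint_left.1 hd hx' hx
      · intro hx
        have : x ∈ A ∪ B := by
          rw [hu]
          exact mem_univ x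
        exact this.resolve_left hx
    refine ⟨A, ⟨hA, ?_⟩, ha, ?_⟩
    · rw [← isClosed_compl_iff, ← hAB]
      exact hB
    · rw [← hAB]
      exact hb
  intro U hUf hUo hUc
  have h1 : ∀ x : Z, ∃ V : Set Z, IsClopen V ∧ x ∈ V ∧ ∃ u ∈ U, V ⊆ u := by
    intro x
    have hx : x ∈ ⋃₀ U := by
      rw [hUc]
      exact mem_univ x
    obtain ⟨u, hu, hxu⟩ := hx
    obtain ⟨V, hV1, hV2, hV3⟩ := compact_exists_isClopen_in_isOpen (hUo u hu) hxu
    exact ⟨V, hV1, hV2, u, hu, hV3⟩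
  choose V hV1 hV2 u hu hVu using h1
  obtain ⟨t, ht⟩ := isCompact_univ.elim_finite_subcover V (fun x => (hV1 x).isOpen)
    (fun x _ => mem_iUnion.2 ⟨x, hV2 x⟩)
  refine ⟨range (DI0.atom t V), DI0.atom_finite t V, ?_, ?_, ?_, ?_⟩
  · rintro _ ⟨z, rfl⟩
    exact DI0.atom_open t V hV1 z
  · rw [eq_univ_iff_forall]
    intro x
    exact ⟨_, ⟨x, rfl⟩, DI0.mem_atom t V x⟩
  · rintro _ ⟨z, rfl⟩
    have hz := ht (mem_univ z)
    rw [mem_iUnion₂] at hz
    obtain ⟨x, hx, hzx⟩ := hz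
    refine ⟨u x, hu x, fun y hy => hVu x ?_⟩
    exact (hy x hx).2 hzx
  · intro x
    have e : {v | v ∈ range (DI0.atom t V) ∧ x ∈ v} ⊆ {DI0.atom t V x} := by
      rintro _ ⟨⟨z, rfl⟩, hx⟩
      exact DI0.atom_eq t V hx
    calc _ ≤ ({DI0.atom t V x} : Set (Set Z)).ncard := Set.ncard_le_ncard e (Set.finite_singleton _)
      _ = 0 + 1 := by rw [Set.ncard_singleton]

end BBP


end

section

/-!
# BBP, EMB: dimension of embedded compact spaces
-/

set_option autoImplicit false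

namespace BBP

open Set Topology CTO

namespace EMB

/-- `ShrLE` is invariant under homeomorphisms. -/
theorem shr_homeo {P Q : Type} [TopologicalSpace P] [TopologicalSpace Q] (h : P ≃ₜ Q) {n : ℕ}
    (hQ : ShrLE Q n) : ShrLE P n := by
  intro k U hU hc
  obtain ⟨V, hV, hVU, hVc, hVn⟩ := hQ k (fun i => h.symm ⁻¹' U i)
    (fun i => (hU i).preimage h.symm.continuous) (by
      rw [← preimage_iUnion, hc, preimage_univ])
  refine ⟨fun i => h ⁻¹' V i, fun i => (hV i).preimage h.continuous, fun i x hx => ?_, ?_,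
    fun x => hVn (h x)⟩
  · have h1 := hVU i hx
    rw [mem_preimage, Homeomorph.symm_apply_apply] at h1
    exact h1
  · rw [← preimage_iUnion, hVc, preimage_univ]

end EMB

theorem t_EMB : M_EMB := by
  intro hS X P _ _ _ _ n e hc hi hX
  have hcl : IsClosedEmbedding e := hc.isClosedEmbedding hi
  exact EMB.shr_homeo hcl.isEmbedding.toHomeomorph
    (hS X n (range e) hcl.isClosed_range hX)

end BBP


end

section

/-!
# Module BBP_EXC: if the cocycle extends then the map extends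
-/

set_option autoImplicit false

namespace BBP

open Set Topology CTO

namespace EXC

theorem sm3 {K : Type} [MetricSpace K] {ε : ℝ} (hε : 0 < ε) {x y z : K} (h1 : dist x y < ε)
    (h2 : dist y z < ε) (h3 : dist x z < ε) : Sm ε [x, y, z] := by
  intro a ha b hb
  simp only [List.mem_cons, List.not_mem_nil, or_false] at ha hb
  rcases ha with rfl | rfl | rfl <;> rcases hb with rfl | rfl | rfl <;>
    first | assumption | (rw [dist_self]; exact hε) | (rw [dist_comm]; assumption)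

/-- weights of a partition of unity with points close to the supports -/
theorem pou {K : Type} [MetricSpace K] [CompactSpace K] (L : Set K) (r : ℝ) (hr : 0 < r) :
    ∃ (t : Finset K) (φ : K → K → ℝ) (pt : K → K), (∀ j, Continuous (φ j)) ∧
      (∀ j x, 0 ≤ φ j x) ∧ (∀ x, ∑ j ∈ t, φ j x = 1) ∧
      (∀ j x, φ j x ≠ 0 → dist x (pt j) < 2 * r) ∧ ∀ j x, φ j x ≠ 0 → x ∈ L → pt j ∈ L := by
  classical
  obtain ⟨t, -, htf, hcov⟩ := finite_cover_balls_of_compact (isCompact_univ (X := K)) hr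
  have hpt : ∀ j : K, ∃ p : K, dist j p < r ∧ ((Metric.ball j r ∩ L).Nonempty → p ∈ L) := by
    intro j
    by_cases h : (Metric.ball j r ∩ L).Nonempty
    · obtain ⟨p, hp1, hp2⟩ := h
      exact ⟨p, Metric.mem_ball'.1 hp1, fun _ => hp2⟩
    · exact ⟨j, by rw [dist_self]; exact hr, fun h' => absurd h' h⟩
  choose pt hpt1 hpt2 using hpt
  set w : K → K → ℝ := fun j x => max 0 (r - dist x j) with hw
  have hwc : ∀ j, Continuous (w j) := fun j =>
    continuous_const.max (continuous_const.sub (continuous_id.dist continuous_const))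
  have hw0 : ∀ j x, 0 ≤ w j x := fun j x => le_max_left _ _
  have hwp : ∀ j x, w j x ≠ 0 → dist x j < r := by
    intro j x h
    by_contra h1
    apply h
    exact max_eq_left (by linarith)
  set W : K → ℝ := fun x => ∑ j ∈ htf.toFinset, w j x with hW
  have hWc : Continuous W := continuous_finsetSum _ fun j _ => hwc j
  have hWp : ∀ x, 0 < W x := by
    intro x
    have hx := hcov (mem_univ x)
    rw [mem_iUnion₂] at hx
    obtain ⟨j, hj, hjx⟩ := hx
    have h1 : 0 < w j x := by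
      have h2 : dist x j < r := hjx
      exact lt_of_lt_of_le (by linarith) (le_max_right 0 (r - dist x j))
    exact Finset.sum_pos' (fun i _ => hw0 i x) ⟨j, htf.mem_toFinset.2 hj, h1⟩
  refine ⟨htf.toFinset, fun j x => w j x / W x, pt, fun j => (hwc j).div hWc fun x =>
    (hWp x).ne', fun j x => div_nonneg (hw0 j x) (hWp x).le, ?_, ?_, ?_⟩
  · intro x
    rw [← Finset.sum_div]
    exact div_self (hWp x).ne'
  · intro j x h
    have h1 : w j x ≠ 0 := fun h0 => h (by simp only [h0, zero_div])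
    calc dist x (pt j) ≤ dist x j + dist j (pt j) := dist_triangle _ _ _
      _ < r + r := add_lt_add (hwp j x h1) (hpt1 j)
      _ = 2 * r := by ring
  · intro j x h hx
    have h1 : w j x ≠ 0 := fun h0 => h (by simp only [h0, zero_div])
    exact hpt2 j ⟨x, hwp j x h1, hx⟩

/-- full turns -/
noncomputable def tu (s : ℝ) : ℂ := Complex.exp (((2 * Real.pi * s : ℝ) : ℂ) * Complex.I)

theorem tu_cont : Continuous tu := by
  unfold tu
  fun_prop

theorem tu_ne (s : ℝ) : tu s ≠ 0 := Complex.exp_ne_zero _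

theorem tu_add (s s' : ℝ) : tu (s + s') = tu s * tu s' := by
  unfold tu
  rw [← Complex.exp_add]
  congr 1
  push_cast
  ring

theorem tu_int (n : ℤ) : tu n = 1 := by
  unfold tu
  rw [← Complex.exp_int_mul_two_pi_mul_I n]
  congr 1
  push_cast
  ring

theorem tu_th {K : Type} (f : K → ℂ) (x : K) : f x = (‖f x‖ : ℂ) * tu (th f x) := by
  have h1 : (2 * Real.pi * th f x : ℝ) = Complex.arg (f x) := by
    unfold th
    have : (2 * Real.pi : ℝ) ≠ 0 := by positivity
    field_simp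
  unfold tu
  rw [h1]
  exact (Complex.norm_mul_exp_arg_mul_I (f x)).symm

theorem tu_re (s : ℝ) : (tu s).re = Real.cos (2 * Real.pi * s) := by
  unfold tu
  rw [Complex.exp_ofReal_mul_I_re]

theorem slit (a s : ℝ) (ha : 0 < a) (hs : |s| ≤ 1 / 16) : (a : ℂ) * tu s ∈ Complex.slitPlane := by
  rw [Complex.mem_slitPlane_iff]
  left
  rw [Complex.re_ofReal_mul, tu_re]
  apply mul_pos ha
  apply Real.cos_pos_of_mem_Ioo
  have h1 := abs_le.1 hs
  have h2 := Real.pi_pos
  constructor <;> nlinarith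

end EXC

open EXC in
theorem t_EXC : M_EXC := by
  intro hCOC K _ _ L f hL hf hne b ε hε hb hbL
  classical
  obtain ⟨-, -, ε1, hε1, h1⟩ := hCOC K L f hL hf hne
  set r : ℝ := min ε ε1 / 8 with hr
  have hr0 : 0 < r := by
    have := lt_min hε hε1
    positivity
  have hr1 : 8 * r ≤ ε := by
    rw [hr]
    have := min_le_left ε ε1
    linarith
  have hr2 : 8 * r ≤ ε1 := by
    rw [hr]
    have := min_le_right ε ε1
    linarith
  obtain ⟨t, φ, pt, hφc, hφ0, hφ1, hφp, hφL⟩ := pou L r hr0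
  -- the function
  set S : K → ℝ := fun x => ∑ j ∈ t, φ j x * b x (pt j) with hS
  set A : K → ℝ := fun x => ∑ j ∈ t, φ j x * th f (pt j) with hA
  have hAc : Continuous A := continuous_finsetSum _ fun j _ => (hφc j).mul continuous_const
  have hFc : Continuous fun x => tu (-(S x)) := by
    rw [continuous_iff_continuousAt]
    intro x
    have hc : ContinuousAt (fun x' => tu (-(∑ j ∈ t, φ j x' * b x (pt j)))) x := by
      apply Continuous.continuousAt
      exact tu_cont.comp (continuous_finsetSum _ fun j _ => (hφc j).mul continuous_const).neg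
    apply hc.congr
    have hball : Metric.ball x r ∈ 𝓝 x := Metric.ball_mem_nhds x hr0
    filter_upwards [hball] with x' hx'
    have hd : dist x' x < r := hx'
    have h2 : S x' = b x' x + ∑ j ∈ t, φ j x' * b x (pt j) := by
      have h3 : ((b x' x : ℤ) : ℝ) = ∑ j ∈ t, φ j x' * (b x' x : ℤ) := by
        rw [← Finset.sum_mul, hφ1, one_mul]
      rw [h3, ← Finset.sum_add_distrib, hS]
      apply Finset.sum_congr rfl
      intro j _
      by_cases h4 : φ j x' = 0
      · rw [h4]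
        ring
      · have h5 := hφp j x' h4
        have h6 : dist x (pt j) < 3 * r := by
          calc dist x (pt j) ≤ dist x x' + dist x' (pt j) := dist_triangle _ _ _
            _ < r + 2 * r := add_lt_add (by rw [dist_comm]; exact hd) h5
            _ = 3 * r := by ring
        have h7 := hb x' x (pt j) (sm3 hε (by linarith) (by linarith) (by linarith))
        have h8 : b x' (pt j) = b x' x + b x (pt j) := by
          unfold d1 at h7
          linarith
        rw [h8]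
        push_cast
        ring
    change tu (-(∑ j ∈ t, φ j x' * b x (pt j))) = tu (-(S x'))
    rw [h2, neg_add, tu_add]
    have h9 : tu (-((b x' x : ℤ) : ℝ)) = 1 := by
      rw [← Int.cast_neg]
      exact tu_int _
    rw [h9, one_mul]
  -- the quotient
  set G : K → ℂ := fun x => tu (-(S x)) * tu (A x) with hG
  have hGc : Continuous G := hFc.mul (tu_cont.comp hAc)
  have hGne : ∀ x, G x ≠ 0 := fun x => mul_ne_zero (tu_ne _) (tu_ne _)
  have hsl : ∀ x ∈ L, f x / G x ∈ Complex.slitPlane := by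
    intro x hx
    set s : ℝ := ∑ j ∈ t, φ j x * (th f (pt j) - th f x - cc L f x (pt j)) with hs
    have hss : |s| ≤ 1 / 16 := by
      calc |s| ≤ ∑ j ∈ t, |φ j x * (th f (pt j) - th f x - cc L f x (pt j))| :=
            Finset.abs_sum_le_sum_abs _ _
        _ ≤ ∑ j ∈ t, φ j x * (1 / 16) := by
            apply Finset.sum_le_sum
            intro j _
            rw [abs_mul, abs_of_nonneg (hφ0 j x)]
            by_cases h4 : φ j x = 0
            · rw [h4]
              simp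
            · apply mul_le_mul_of_nonneg_left _ (hφ0 j x)
              exact h1 x hx (pt j) (hφL j x h4 hx) (by linarith [hφp j x h4])
        _ = 1 / 16 := by rw [← Finset.sum_mul, hφ1, one_mul]
    have h2 : -(S x) + A x = th f x + s := by
      have h3 : th f x = ∑ j ∈ t, φ j x * th f x := by
        rw [← Finset.sum_mul, hφ1, one_mul]
      rw [hs, hS, hA]
      change -(∑ j ∈ t, φ j x * b x (pt j)) + ∑ j ∈ t, φ j x * th f (pt j) = _
      have h3b : th f x + ∑ j ∈ t, φ j x * (th f (pt j) - th f x - cc L f x (pt j)) =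
          ∑ j ∈ t, (φ j x * th f x + φ j x * (th f (pt j) - th f x - cc L f x (pt j))) := by
        rw [Finset.sum_add_distrib, ← h3]
      rw [← Finset.sum_neg_distrib, ← Finset.sum_add_distrib, h3b]
      apply Finset.sum_congr rfl
      intro j _
      by_cases h4 : φ j x = 0
      · rw [h4]
        ring
      · have h5 := hbL x hx (pt j) (hφL j x h4 hx) (by linarith [hφp j x h4])
        rw [h5]
        ring
    have h6 : f x / G x = (‖f x‖ : ℂ) * tu (-s) := by
      rw [div_eq_iff (hGne x)]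
      have h7 : G x = tu (th f x) * tu s := by
        rw [hG]
        change tu (-(S x)) * tu (A x) = _
        rw [← tu_add, h2, tu_add]
      rw [h7]
      have h8 : tu (-s) * tu s = 1 := by
        rw [← tu_add, neg_add_cancel]
        exact_mod_cast tu_int 0
      calc f x = (‖f x‖ : ℂ) * tu (th f x) := tu_th f x
        _ = (‖f x‖ : ℂ) * tu (th f x) * (tu (-s) * tu s) := by rw [h8, mul_one]
        _ = _ := by ring
    rw [h6]
    exact slit _ _ (norm_pos_iff.2 (hne x hx)) (by rwa [abs_neg])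
  have hlog : ContinuousOn (fun x => Complex.log (f x / G x)) L :=
    (hf.div hGc.continuousOn fun x _ => hGne x).clog hsl
  obtain ⟨g, hg⟩ := ContinuousMap.exists_restrict_eq hL
    (⟨L.domRestrict fun x => Complex.log (f x / G x), continuousOn_iff_continuous_domRestrict.1 hlog⟩ :
      C(L, ℂ))
  refine ⟨fun x => G x * Complex.exp (g x), ?_, ?_, ?_⟩
  · exact (hGc.mul (Complex.continuous_exp.comp g.continuous)).continuousOn
  · intro x _
    exact mul_ne_zero (hGne x) (Complex.exp_ne_zero _)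
  · intro x hx
    have h2 : g x = Complex.log (f x / G x) := congrArg (fun h : C(L, ℂ) => h ⟨x, hx⟩) hg
    change G x * Complex.exp (g x) = f x
    rw [h2, Complex.exp_log (div_ne_zero (hne x hx) (hGne x)), mul_div_cancel₀]
    exact hGne x

end BBP


end

section

/-!
# FLP: from a flow to a product
-/

set_option autoImplicit false

namespace BBP

open Set Topology CTO

namespace FLP

/-- the image of an injective continuous map of compact spaces has the same dimension -/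
theorem rng (hEMB : S_EMB) {X P : Type} [MetricSpace X] [MetricSpace P] [CompactSpace P]
    (n : ℕ) (e : P → X) (he : Continuous e) (hi : Function.Injective e) (hP : ShrLE P n) :
    ShrLE (range e) n := by
  have hce : IsClosedEmbedding e := he.isClosedEmbedding hi
  have : CompactSpace (range e) := isCompact_iff_compactSpace.mp (isCompact_range he)
  let g : range e → P := hce.isEmbedding.toHomeomorph.symm
  exact hEMB P (range e) n g (Homeomorph.continuous _) (Homeomorph.injective _) hP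

/-- a homogeneous space with a compact neighbourhood of small dimension has small dimension -/
theorem homg (hEMB : S_EMB) (hSUM : S_SUM) {X P : Type} [MetricSpace X] [CompactSpace X]
    [MetricSpace P] [CompactSpace P] (hX : Homog X) (n : ℕ) (e : P → X) (he : Continuous e)
    (hi : Function.Injective e) (hP : ShrLE P n) (p : X) (hp : range e ∈ 𝓝 p) : ShrLE X n := by
  choose h hh using fun y : X => hX p y
  have hN : ∀ y, range (h y ∘ e) ∈ 𝓝 y := by
    intro y
    have h1 : (h y) '' (range e) ∈ 𝓝 (h y p) := (h y).isOpenMap.image_mem_nhds hp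
    rw [hh y, ← range_comp] at h1
    exact h1
  obtain ⟨t, ht⟩ := CompactSpace.elim_nhds_subcover (fun y => range (h y ∘ e)) hN
  refine hSUM X n t.card (fun j => range (h (t.equivFin.symm j) ∘ e)) ?_ ?_ ?_
  · intro j
    exact (isCompact_range ((h _).continuous.comp he)).isClosed
  · rw [eq_univ_iff_forall]
    intro x
    have hx : x ∈ ⋃ y ∈ t, range (h y ∘ e) := by
      rw [ht]
      trivial
    rw [mem_iUnion₂] at hx
    obtain ⟨y, hy, hxy⟩ := hx
    rw [mem_iUnion]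
    refine ⟨t.equivFin ⟨y, hy⟩, ?_⟩
    rw [Equiv.symm_apply_apply]
    exact hxy
  · intro j
    exact rng hEMB n _ ((h _).continuous.comp he) ((h _).injective.comp hi) hP

end FLP

/-- from a flow to a product -/
theorem t_FLP : M_FLP := by
  intro hSHR hSUM hINT hNPR hEMB hFBX X _ _ hX h3 h2 hF
  obtain ⟨φ, hc, h0, hadd, T, p, hT⟩ := hF
  obtain ⟨S, a, hS, ha, hinj, hnb⟩ := hFBX X φ hc h0 hadd p T hT
  have hKc : CompactSpace S := isCompact_iff_compactSpace.mp hS.isCompact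
  let e : S × Icc (-a) a → X := fun q => φ q.2.1 q.1.1
  have hec : Continuous e := by
    have h1 : Continuous fun q : S × Icc (-a) a => ((q.2.1, q.1.1) : ℝ × X) := by
      fun_prop
    exact hc.comp h1
  have hei : Function.Injective e := by
    intro q q' hq
    have h1 : ((q.1.1, q.2.1) : X × ℝ) ∈ S ×ˢ Icc (-a) a := ⟨q.1.2, q.2.2⟩
    have h1' : ((q'.1.1, q'.2.1) : X × ℝ) ∈ S ×ˢ Icc (-a) a := ⟨q'.1.2, q'.2.2⟩
    have h4 := hinj h1 h1' hq
    have h5 := congrArg Prod.fst h4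
    have h6 := congrArg Prod.snd h4
    exact Prod.ext (Subtype.ext h5) (Subtype.ext h6)
  have her : range e ∈ 𝓝 p := by
    refine Filter.mem_of_superset hnb ?_
    rintro _ ⟨q, hq, rfl⟩
    exact ⟨(⟨q.1, hq.1⟩, ⟨q.2, hq.2⟩), rfl⟩
  have hP2 : ¬ ShrLE (S × Icc (-a) a) 2 := fun h =>
    h2 (FLP.homg hEMB hSUM hX 2 e hec hei h p her)
  have hP3 : ShrLE (S × Icc (-a) a) 3 := hEMB X _ 3 e hec hei h3
  have hZ := hINT.1 a ha
  have hK0 : ¬ ShrLE S 0 := by
    intro hK
    have hK1 : ShrLE S 1 := hINT.2 S 0 1 (Nat.zero_le _) hK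
    exact hP2 (hNPR S (Icc (-a) a) hP3 hK1 hZ.1)
  refine ⟨S, Icc (-a) a, inferInstance, hKc, inferInstance, inferInstance, ?_, ?_, ?_, e, hec,
    hei⟩
  · rw [hSHR]
    exact hK0
  · rw [hSHR]
    exact hZ.2
  · rw [hSHR]
    exact hP2

end BBP


end

section

/-!
# MP_6eac38_gt, third part, module KMN: a minimal closed set with a map to `ℂ \ 0` that cannot be
extended
-/

set_option autoImplicit false

namespace BBP

open Set Topology CTO

namespace KMN

/-- Tietze's theorem for `ContinuousOn` -/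
theorem tietze {X : Type} [MetricSpace X] {K : Set X} (hK : IsClosed K) {F : X → ℂ}
    (hF : ContinuousOn F K) : ∃ G : X → ℂ, Continuous G ∧ EqOn G F K := by
  have : TietzeExtension.{0, 0} ℂ := TietzeExtension.of_tvs ℝ
  obtain ⟨g, hg⟩ := ContinuousMap.exists_restrict_eq hK
    (⟨K.domRestrict F, continuousOn_iff_continuous_domRestrict.1 hF⟩ : C(K, ℂ))
  refine ⟨g, g.continuous, fun x hx => ?_⟩
  have h := congrArg (fun φ : C(K, ℂ) => φ ⟨x, hx⟩) hg
  exact h

theorem chain_inf {X : Type} [MetricSpace X] [CompactSpace X] {L : Set X} {f : X → ℂ}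
    (c : Set (Set X)) (hc : ∀ K ∈ c, IsClosed K ∧ L ⊆ K ∧ ¬ ExtC L K f)
    (hch : IsChain (· ⊆ ·) c) (hne : c.Nonempty) : ¬ ExtC L (⋂₀ c) f := by
  rintro ⟨F, hF1, hF2, hF3⟩
  have hcl : IsClosed (⋂₀ c) := isClosed_sInter fun K hK => (hc K hK).1
  obtain ⟨G, hG1, hG2⟩ := tietze hcl hF1
  have hU : IsClosed {x | G x = 0} := isClosed_eq hG1 continuous_const
  have : Nonempty c := hne.to_subtype
  obtain ⟨K, hK⟩ := hU.isCompact.elim_directed_family_closed (fun K : c => (K : Set X))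
    (fun K => (hc K K.2).1) (by
      rw [← sInter_eq_iInter]
      ext x
      simp only [mem_inter_iff, mem_setOf_eq, mem_empty_iff_false, iff_false, not_and]
      intro h1 h2
      exact hF2 x h2 (by rw [← hG2 h2]; exact h1)) (by
      intro A B
      rcases hch.total A.2 B.2 with h | h
      · exact ⟨A, subset_rfl, h⟩
      · exact ⟨B, h, subset_rfl⟩)
  refine (hc K K.2).2.2 ⟨G, hG1.continuousOn, ?_, ?_⟩
  · intro x hx h0
    have : x ∈ ({x | G x = 0} ∩ (K : Set X) : Set X) := ⟨h0, hx⟩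
    rw [hK] at this
    exact this
  · intro x hx
    rw [hG2 (mem_sInter.2 fun K' hK' => (hc K' hK').2.1 hx)]
    exact hF3 hx

end KMN

open Classical in
theorem t_KMN : S_KMN := by
  intro X _ _ L K f hL hK hLK hf hf0 hE
  obtain ⟨K', hK'K, hmin⟩ := zorn_superset_nonempty
    {K' : Set X | IsClosed K' ∧ L ⊆ K' ∧ ¬ ExtC L K' f} (fun c hc hch hne =>
      ⟨⋂₀ c, ⟨isClosed_sInter fun A hA => (hc hA).1,
        subset_sInter fun A hA => (hc hA).2.1, KMN.chain_inf c (fun A hA => hc hA) hch hne⟩,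
        fun A hA => sInter_subset_of_mem hA⟩) K ⟨hK, hLK, hE⟩
  obtain ⟨h1, h2, h3⟩ := hmin.prop
  refine ⟨K', Subtype.val ⁻¹' L, fun y => f y, h1, hL.preimage continuous_subtype_val, ?_,
    fun y hy => hf0 _ hy, ?_, ?_⟩
  · exact hf.comp continuous_subtype_val.continuousOn fun y hy => hy
  · rintro ⟨F, hF1, hF2, hF3⟩
    refine h3 ⟨fun y => if h : y ∈ K' then F ⟨y, h⟩ else 0, ?_, ?_, ?_⟩
    · rw [continuousOn_iff_continuous_domRestrict]
      refine (continuousOn_univ.1 hF1).congr fun y => ?_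
      have hy : (y : X) ∈ K' := y.2
      change F y = if h : (y : X) ∈ K' then F ⟨y, h⟩ else 0
      rw [dif_pos hy]
    · intro y hy
      simp only [dif_pos hy]
      exact hF2 _ (mem_univ _)
    · intro y hy
      simp only [dif_pos (h2 hy)]
      exact hF3 (show (⟨y, h2 hy⟩ : K') ∈ Subtype.val ⁻¹' L from hy)
  · intro W hW hne hdis
    obtain ⟨x, hxW⟩ := hne
    have hx : (x : X) ∉ L := fun h => Set.disjoint_left.1 hdis hxW h
    obtain ⟨O, hO, rfl⟩ := isOpen_induced_iff.1 hW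
    have hLO : ∀ y ∈ L, y ∉ O := by
      intro y hy hyO
      exact Set.disjoint_left.1 hdis (show (⟨y, h2 hy⟩ : K') ∈ Subtype.val ⁻¹' O from hyO) hy
    have hext : ExtC L (K' \ O) f := by
      by_contra hcon
      have hmem : K' \ O ∈ {K' : Set X | IsClosed K' ∧ L ⊆ K' ∧ ¬ ExtC L K' f} :=
        ⟨h1.sdiff hO, fun y hy => ⟨h2 hy, hLO y hy⟩, hcon⟩
      have h4 := hmin.le_of_le hmem sdiff_subset
      exact (h4 x.2).2 hxW
    obtain ⟨F, hF1, hF2, hF3⟩ := hext
    have hmaps : ∀ y ∈ ((Subtype.val ⁻¹' O)ᶜ : Set K'), (y : X) ∈ K' \ O := by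
      intro y hy
      exact ⟨y.2, hy⟩
    refine ⟨fun y => F y, hF1.comp continuous_subtype_val.continuousOn hmaps,
      fun y hy => hF2 _ (hmaps y hy), fun y hy => hF3 hy⟩

end BBP


end

section

/-!
# Products of two 1-dimensional spaces are 2-dimensional, in a 3-dimensional space
-/

set_option autoImplicit false

namespace BBP

open Set Topology CTO

namespace NPR

/-- a positive lower bound of the norm on a compact set -/
theorem lower {P : Type} [TopologicalSpace P] {L : Set P} (hL : IsCompact L) {f : P → R3}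
    (hf : ContinuousOn f L) (h0 : ∀ y ∈ L, f y ≠ 0) : ∃ ε > 0, ∀ y ∈ L, ε ≤ ‖f y‖ := by
  rcases L.eq_empty_or_nonempty with rfl | hne
  · exact ⟨1, zero_lt_one, fun y hy => absurd hy (Set.notMem_empty y)⟩
  · obtain ⟨x, hx, hm⟩ := hL.exists_isMinOn hne hf.norm
    exact ⟨‖f x‖, norm_pos_iff.2 (h0 x hx), fun y hy => hm hy⟩

/-- Tietze extension -/
theorem tietze {P : Type} [MetricSpace P] {L : Set P} (hL : IsClosed L) {f : P → R3}
    (hf : ContinuousOn f L) : ∃ g : P → R3, Continuous g ∧ EqOn g f L := by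
  obtain ⟨g, hg⟩ := ContinuousMap.exists_restrict_eq hL
    (⟨fun x => f x, continuousOn_iff_continuous_domRestrict.1 hf⟩ : C(L, R3))
  refine ⟨g, g.continuous, fun x hx => ?_⟩
  have := congrArg (fun u : C(L, R3) => u ⟨x, hx⟩) hg
  exact this

end NPR

theorem t_NPR : M_NPR := by
  intro hO hH hX K Z _ _ _ _ h3 hK hZ
  by_contra h2
  obtain ⟨L, K', f, hL, _, _, hf, h0, hE⟩ := hO (K × Z) h3 h2
  obtain ⟨ε, hε, hlow⟩ := NPR.lower hL.isCompact hf h0
  obtain ⟨g, hg, hgf⟩ := NPR.tietze hL hf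
  obtain ⟨p, hp, hp0, hpd⟩ := hX K Z hK hZ g hg ε hε
  obtain ⟨F, hF, hF0, hFf⟩ := hH (K × Z) L f p p hL hf hp.continuousOn (by
    intro x hx t ht0 ht1 hz
    have h1 : f x = -(t • (p x - f x)) := by
      have h4 : (1 - t) • f x + t • p x = f x + t • (p x - f x) := by
        rw [sub_smul, one_smul, smul_sub]
        abel
      rw [h4] at hz
      exact eq_neg_of_add_eq_zero_left hz
    have h5 : ‖f x‖ ≤ ‖p x - f x‖ := by
      calc ‖f x‖ = ‖t • (p x - f x)‖ := by rw [h1, norm_neg]; rw [← h1]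
        _ = |t| * ‖p x - f x‖ := norm_smul t _
        _ ≤ 1 * ‖p x - f x‖ := by
          apply mul_le_mul_of_nonneg_right _ (norm_nonneg _)
          rw [abs_of_nonneg ht0]
          exact ht1
        _ = ‖p x - f x‖ := one_mul _
    have h6 := hpd x
    rw [hgf hx, dist_eq_norm] at h6
    have h7 := hlow x hx
    linarith) hp hp0 (fun _ _ => rfl)
  exact hE ⟨F, hF.continuousOn, fun x _ => hF0 x, hFf⟩

end BBP


end

section

/-!
# BBP, module OPA: minimal membranes are open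
-/

set_option autoImplicit false

namespace BBP

open Set Topology CTO

namespace OPA

theorem alt3_vv {K Z : Type} (L : Set K) (f : K → ℂ) (χ : Z → ℤ) (h : Alt2 (cc L f)) :
    Alt3 (vv L f χ) := by
  intro p q r
  constructor
  · have h1 : d1 (cc L f) q.1 p.1 r.1 = -d1 (cc L f) p.1 q.1 r.1 := by
      simp only [d1]
      rw [h p.1 q.1]
      ring
    have h2 : max (χ q.2) (max (χ p.2) (χ r.2)) = max (χ p.2) (max (χ q.2) (χ r.2)) :=
      max_left_comm _ _ _
    simp only [vv]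
    rw [h1, h2, neg_mul]
  · have h1 : d1 (cc L f) p.1 r.1 q.1 = -d1 (cc L f) p.1 q.1 r.1 := by
      simp only [d1]
      rw [h q.1 r.1]
      ring
    have h2 : max (χ p.2) (max (χ r.2) (χ q.2)) = max (χ p.2) (max (χ q.2) (χ r.2)) := by
      rw [max_comm (χ r.2) (χ q.2)]
    simp only [vv]
    rw [h1, h2, neg_mul]

theorem alt4_d2 {X : Type} (ψ : X → X → X → ℤ) (h : Alt3 ψ) : Alt4 (d2 ψ) := by
  intro a b c d
  refine ⟨?_, ?_, ?_⟩
  · simp only [d2]
    rw [(h a b d).1, (h a b c).1]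
    ring
  · simp only [d2]
    rw [(h b c d).1, (h a b c).2]
    ring
  · simp only [d2]
    rw [(h b c d).2, (h a c d).2]
    ring

end OPA

theorem t_OPA : M_OPA := by
  intro hOL hCOC hVZE hVNZ hVLO X K Z _ _ _ _ _ _ hANR hHom hShr e L f a b he hinj hK hZ
  have hρ : 0 < dist a b / 2 := half_pos (dist_pos.2 hZ.ne)
  have hρ2 : 2 * (dist a b / 2) ≤ dist a b := by linarith
  have hAlt2 : Alt2 (cc L f) := (hCOC K L f hK.cl hK.cont hK.ne).1
  have hcl : IsClosed (bdP L a b) := by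
    unfold bdP
    exact (hK.cl.prod isClosed_univ).union
      (isClosed_univ.prod ((Set.finite_singleton b).insert a).isClosed)
  have hU : IsOpen (Lᶜ ×ˢ ({a, b} : Set Z)ᶜ) :=
    hK.cl.isOpen_compl.prod ((Set.finite_singleton b).insert a).isClosed.isOpen_compl
  have hint : ∀ p0 ∈ Lᶜ ×ˢ ({a, b} : Set Z)ᶜ, e p0 ∈ interior (range e) := by
    intro p0 hp0
    refine hOL X (K × Z) hANR hHom hShr e (bdP L a b) (d2 (vv L f (chi b (dist a b / 2)))) p0
      he hinj ?_
    refine ⟨hcl, ?_, OPA.alt4_d2 _ (OPA.alt3_vv _ _ _ hAlt2), d3_d2 _, ?_, ?_, ?_⟩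
    · rintro (h | h)
      · exact hp0.1 h.1
      · exact hp0.2 h.2
    · exact hVZE K Z L f a b _ hK.cl hK.cont hK.ne hρ hρ2
    · intro W hW hpW
      obtain ⟨W1, O1, hW1, hO1, hx, hz, hsub⟩ :=
        isOpen_prod_iff.1 (hW.inter hU) p0.1 p0.2 ⟨hpW, hp0⟩
      have hW1L : Disjoint W1 L := by
        rw [Set.disjoint_left]
        intro y hy hyL
        exact (hsub (Set.mk_mem_prod hy hz)).2.1 hyL
      have hO1ab : ∀ y ∈ O1, y ∉ ({a, b} : Set Z) := by
        intro y hy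
        exact (hsub (Set.mk_mem_prod hx hy)).2.2
      have haO : a ∉ O1 := fun h => hO1ab a h (by simp)
      have hbO : b ∉ O1 := fun h => hO1ab b h (by simp)
      obtain ⟨ψ, hψ, ε, hε, h1, h2⟩ := hVLO K Z L f a b _ hK.cl hK.cont hK.ne hρ hρ2 W1 O1 hW1 hO1
        hW1L haO hbO (hK.min W1 hW1 ⟨_, hx⟩ hW1L) (hZ.min O1 hO1 ⟨_, hz⟩ haO hbO)
      have hW' : ∀ p, p ∉ W → p ∉ W1 ×ˢ O1 := fun p hp h => hp (hsub h).1
      exact ⟨ψ, hψ, ε, hε, fun p hp q hq r hr s hs hsm =>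
        h1 p (hW' p hp) q (hW' q hq) r (hW' r hr) s (hW' s hs) hsm, h2⟩
    · exact hVNZ K Z L f a b _ hK.cl hK.cont hK.ne hK.ess hZ.ess hρ hρ2
  have hcle : IsClosedMap e := he.isClosedMap
  have hO : IsOpen (e '' (Lᶜ ×ˢ ({a, b} : Set Z)ᶜ)ᶜ)ᶜ := (hcle _ hU.isClosed_compl).isOpen_compl
  rw [isOpen_iff_mem_nhds]
  rintro _ ⟨p0, hp0, rfl⟩
  have h1 : interior (range e) ∩ (e '' (Lᶜ ×ˢ ({a, b} : Set Z)ᶜ)ᶜ)ᶜ ∈ 𝓝 (e p0) := by
    refine (isOpen_interior.inter hO).mem_nhds ⟨hint p0 hp0, ?_⟩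
    rintro ⟨q, hq, hqe⟩
    exact hq (hinj hqe ▸ hp0)
  refine Filter.mem_of_superset h1 ?_
  rintro y ⟨hy1, hy2⟩
  obtain ⟨q, rfl⟩ := interior_subset hy1
  refine ⟨q, ?_, rfl⟩
  by_contra hq
  exact hy2 ⟨q, hq, rfl⟩

end BBP


end

section

/-!
# BBP: module SEL (selection of close points with at most four values on small sets)
-/

set_option autoImplicit false

namespace BBP

open Set Topology CTO

theorem t_SEL : S_SEL := by
  classical
  intro X _ _ hS N δ hδ
  rcases isEmpty_or_nonempty X with hX | hX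
  · exact ⟨id, 1, one_pos, fun x => hX.elim x, fun x => hX.elim x, fun a => hX.elim a⟩
  obtain ⟨t0, -, ht0, hcov⟩ :=
    (isCompact_univ : IsCompact (univ : Set X)).finite_cover_balls (half_pos hδ)
  let t : Finset X := ht0.toFinset
  let c : Fin t.card → X := fun i => (t.equivFin.symm i : X)
  have hUcov : (⋃ i, Metric.ball (c i) (δ / 2)) = univ := by
    rw [Set.eq_univ_iff_forall]
    intro x
    have hx := hcov (mem_univ x)
    rw [Set.mem_iUnion₂] at hx
    obtain ⟨y, hy, hxy⟩ := hx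
    have hyt : y ∈ t := ht0.mem_toFinset.2 hy
    rw [Set.mem_iUnion]
    refine ⟨t.equivFin ⟨y, hyt⟩, ?_⟩
    have hc : c (t.equivFin ⟨y, hyt⟩) = y := by
      change ((t.equivFin.symm (t.equivFin ⟨y, hyt⟩) : t) : X) = y
      rw [Equiv.symm_apply_apply]
    rw [hc]
    exact hxy
  obtain ⟨V, hVo, hVU, hVc, hVn⟩ := hS t.card (fun i => Metric.ball (c i) (δ / 2))
    (fun i => Metric.isOpen_ball) hUcov
  obtain ⟨lam, hlam, hL⟩ := lebesgue_number_lemma_of_metric
    (isCompact_univ : IsCompact (univ : Set X)) hVo hVc.ge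
  choose i hi using fun x => hL x (mem_univ x)
  have hq : ∀ j, ∃ y : X, ((V j).Nonempty → y ∈ V j) ∧ ((N ∩ V j).Nonempty → y ∈ N) := by
    intro j
    by_cases h1 : (N ∩ V j).Nonempty
    · obtain ⟨y, hy1, hy2⟩ := h1
      exact ⟨y, fun _ => hy2, fun _ => hy1⟩
    · by_cases h2 : (V j).Nonempty
      · obtain ⟨y, hy⟩ := h2
        exact ⟨y, fun _ => hy, fun h => absurd h h1⟩
      · exact ⟨hX.some, fun h => absurd h h2, fun h => absurd h h1⟩
  choose r hr1 hr2 using hq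
  have hself : ∀ x, x ∈ V (i x) := fun x => hi x (Metric.mem_ball_self hlam)
  refine ⟨fun x => r (i x), lam, hlam, ?_, ?_, ?_⟩
  · intro x
    have h1 : r (i x) ∈ V (i x) := hr1 (i x) ⟨x, hself x⟩
    have h2 := hVU (i x) h1
    have h3 := hVU (i x) (hself x)
    rw [Metric.mem_ball] at h2 h3
    have h4 := dist_triangle_right (r (i x)) x (c (i x))
    linarith
  · intro x hx
    exact hr2 (i x) ⟨x, hx, hself x⟩
  · intro a b d e f hs hnd
    have hnd' : [i a, i b, i d, i e, i f].Nodup := by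
      apply List.Nodup.of_map r
      exact hnd
    have hmem : ∀ y ∈ [a, b, d, e, f], a ∈ V (i y) := by
      intro y hy
      apply hi y
      rw [Metric.mem_ball]
      exact hs a (by simp) y hy
    have hsub : (([i a, i b, i d, i e, i f].toFinset : Finset (Fin t.card)) : Set (Fin t.card)) ⊆
        {j | a ∈ V j} := by
      intro j hj
      rw [Finset.mem_coe, List.mem_toFinset] at hj
      have hj' : j ∈ [a, b, d, e, f].map i := hj
      rw [List.mem_map] at hj'
      obtain ⟨y, hy, rfl⟩ := hj'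
      exact hmem y hy
    have h1 := Set.ncard_le_ncard hsub (Set.toFinite _)
    rw [Set.ncard_coe_finset, List.toFinset_card_of_nodup hnd'] at h1
    have h2 := hVn a
    have h3 : [i a, i b, i d, i e, i f].length = 5 := rfl
    omega

end BBP


end

section

/-!
# MP_6eac38_gt, third part, module ZMN: a minimal connection
-/

set_option autoImplicit false

namespace BBP

open Set Topology CTO

namespace ZMN

/-- the family of the connections between `a` and `b` -/
def Fam {Z : Type} [TopologicalSpace Z] (a b : Z) : Set (Set Z) :=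
  {E | IsClosed E ∧ a ∈ E ∧ b ∈ E ∧ ¬ Sepd E a b}

/-- the intersection of a chain of connections is a connection -/
theorem chain_inf {Z : Type} [MetricSpace Z] [CompactSpace Z] {a b : Z}
    (c : Set (Set Z)) (hc : c ⊆ Fam a b) (hch : IsChain (· ⊆ ·) c) (hne : c.Nonempty) :
    ¬ Sepd (⋂₀ c) a b := by
  rintro ⟨A, B, hA, hB, hAB, hU, ha, hb⟩
  obtain ⟨U, V, hUo, hVo, hAU, hBV, hUV⟩ := normal_separation hA hB hAB
  have hcl : IsClosed (U ∪ V)ᶜ := (hUo.union hVo).isClosed_compl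
  have : Nonempty c := hne.to_subtype
  obtain ⟨K, hK⟩ := hcl.isCompact.elim_directed_family_closed (fun K : c => (K : Set Z))
    (fun K => (hc K.2).1) (by
      rw [← sInter_eq_iInter, ← hU]
      ext x
      simp only [mem_inter_iff, mem_compl_iff, mem_union, mem_empty_iff_false, iff_false]
      rintro ⟨h1, h2 | h2⟩
      · exact h1 (Or.inl (hAU h2))
      · exact h1 (Or.inr (hBV h2))) (by
      intro A B
      rcases hch.total A.2 B.2 with h | h
      · exact ⟨A, subset_rfl, h⟩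
      · exact ⟨B, h, subset_rfl⟩)
  have hKsub : (K : Set Z) ⊆ U ∪ V := by
    intro x hx
    by_contra hcon
    have : x ∈ (U ∪ V)ᶜ ∩ (K : Set Z) := ⟨hcon, hx⟩
    rw [hK] at this
    exact this
  have hd : ∀ x, x ∈ U → x ∈ V → False := fun x h1 h2 => (Set.disjoint_left.1 hUV) h1 h2
  refine (hc K.2).2.2.2 ⟨(K : Set Z) \ V, (K : Set Z) \ U, (hc K.2).1.sdiff hVo,
    (hc K.2).1.sdiff hUo, ?_, ?_, ?_, ?_⟩
  · rw [Set.disjoint_left]
    rintro x ⟨h1, h2⟩ ⟨-, h3⟩
    rcases hKsub h1 with h | h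
    · exact h3 h
    · exact h2 h
  · ext x
    constructor
    · rintro (h | h)
      · exact h.1
      · exact h.1
    · intro h
      rcases hKsub h with h1 | h1
      · exact Or.inl ⟨h, fun h2 => hd x h1 h2⟩
      · exact Or.inr ⟨h, fun h2 => hd x h2 h1⟩
  · exact ⟨(hc K.2).2.1, fun h2 => hd a (hAU ha) h2⟩
  · exact ⟨(hc K.2).2.2.1, fun h2 => hd b h2 (hBV hb)⟩

end ZMN

open ZMN in
theorem t_ZMN : S_ZMN := by
  intro Z _ _ a b hab hS
  obtain ⟨E, -, hmin⟩ := zorn_superset_nonempty (Fam a b) (fun c hc hch hne =>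
      ⟨⋂₀ c, ⟨isClosed_sInter fun A hA => (hc hA).1,
        mem_sInter.2 fun A hA => (hc hA).2.1, mem_sInter.2 fun A hA => (hc hA).2.2.1,
        chain_inf c hc hch hne⟩,
        fun A hA => sInter_subset_of_mem hA⟩) univ ⟨isClosed_univ, mem_univ _, mem_univ _, hS⟩
  obtain ⟨h1, h2, h3, h4⟩ := hmin.prop
  refine ⟨E, ⟨a, h2⟩, ⟨b, h3⟩, h1, ⟨?_, ?_, ?_⟩⟩
  · intro h
    exact hab (congrArg Subtype.val h)
  · rintro ⟨A, B, hA, hB, hAB, hU, ha, hb⟩
    have hemb : IsClosedEmbedding (Subtype.val : E → Z) := h1.isClosedEmbedding_subtypeVal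
    refine h4 ⟨Subtype.val '' A, Subtype.val '' B, hemb.isClosedMap _ hA,
      hemb.isClosedMap _ hB, ?_, ?_, ⟨_, ha, rfl⟩, ⟨_, hb, rfl⟩⟩
    · exact (Set.disjoint_image_iff Subtype.val_injective).2 hAB
    · rw [← Set.image_union, hU, Set.image_univ, Subtype.range_coe]
  · intro O hO hOne haO hbO
    obtain ⟨O', hO', rfl⟩ := isOpen_induced_iff.1 hO
    obtain ⟨x, hx⟩ := hOne
    have hsep : Sepd (E \ O') a b := by
      by_contra hcon
      have hmem : E \ O' ∈ Fam a b := ⟨h1.sdiff hO', ⟨h2, haO⟩, ⟨h3, hbO⟩, hcon⟩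
      have h5 := hmin.le_of_le hmem sdiff_subset
      exact (h5 x.2).2 hx
    obtain ⟨A, B, hA, hB, hAB, hU, ha, hb⟩ := hsep
    refine ⟨Subtype.val ⁻¹' A, Subtype.val ⁻¹' B, hA.preimage continuous_subtype_val,
      hB.preimage continuous_subtype_val, hAB.preimage _, ?_, ha, hb⟩
    rw [← Set.preimage_union, hU]
    ext y
    constructor
    · intro hy
      exact hy.2
    · intro hy
      exact ⟨y.2, hy⟩

end BBP


end

section

/-!
# MP_6eac38_gt, module CMP: a minimal membrane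
-/

set_option autoImplicit false

namespace BBP

open Set Topology

namespace CMP

/-- Tietze's theorem for `ContinuousOn` -/
theorem tietze {X : Type} [MetricSpace X] {K : Set X} (hK : IsClosed K) {F : X → ℂ}
    (hF : ContinuousOn F K) : ∃ G : X → ℂ, Continuous G ∧ EqOn G F K := by
  haveI : TietzeExtension.{0, 0} ℂ := TietzeExtension.of_tvs ℝ
  obtain ⟨g, hg⟩ := ContinuousMap.exists_restrict_eq hK
    (⟨K.restrict F, continuousOn_iff_continuous_restrict.1 hF⟩ : C(K, ℂ))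
  refine ⟨g, g.continuous, fun x hx => ?_⟩
  have h := congrArg (fun φ : C(K, ℂ) => φ ⟨x, hx⟩) hg
  exact h

theorem chain_inf {X : Type} [MetricSpace X] {L K0 : Set X} (hK0 : IsCompact K0) {f : X → ℂ}
    (c : Set (Set X)) (hc : ∀ K ∈ c, IsClosed K ∧ L ⊆ K ∧ K ⊆ K0 ∧ ¬ ExtC L K f)
    (hch : IsChain (· ⊆ ·) c) (hne : c.Nonempty) : ¬ ExtC L (⋂₀ c) f := by
  rintro ⟨F, hF1, hF2, hF3⟩
  have hcl : IsClosed (⋂₀ c) := isClosed_sInter fun K hK => (hc K hK).1
  obtain ⟨G, hG1, hG2⟩ := tietze hcl hF1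
  have hU : IsClosed {x | G x = 0} := isClosed_eq hG1 continuous_const
  have hUK : IsCompact ({x | G x = 0} ∩ K0) := hK0.inter_left hU
  haveI : Nonempty c := hne.to_subtype
  obtain ⟨K, hK⟩ := hUK.elim_directed_family_closed (fun K : c => (K : Set X))
    (fun K => (hc K K.2).1) (by
      rw [← sInter_eq_iInter]
      ext x
      simp only [mem_inter_iff, mem_setOf_eq, mem_empty_iff_false, iff_false, not_and]
      intro h1 h2
      exact hF2 x h2 (by rw [← hG2 h2]; exact h1.1)) (by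
      intro A B
      rcases hch.total A.2 B.2 with h | h
      · exact ⟨A, subset_rfl, h⟩
      · exact ⟨B, h, subset_rfl⟩)
  refine (hc K K.2).2.2.2 ⟨G, hG1.continuousOn, ?_, ?_⟩
  · intro x hx h0
    have : x ∈ ({x | G x = 0} ∩ K0 ∩ (K : Set X) : Set X) := ⟨⟨h0, (hc K K.2).2.2.1 hx⟩, hx⟩
    rw [hK] at this
    exact this
  · intro x hx
    rw [hG2 (mem_sInter.2 fun K' hK' => (hc K' hK').2.1 hx)]
    exact hF3 hx

open Classical in
/-- two extensions on closed sets with intersection `L` fit together -/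
theorem glue {X : Type} [MetricSpace X] {L A B : Set X} {f : X → ℂ} (hA : IsClosed A)
    (hB : IsClosed B) (hLA : L ⊆ A) (hAB : A ∩ B ⊆ L) (hLB : L ⊆ B) (h1 : ExtC L A f)
    (h2 : ExtC L B f) : ExtC L (A ∪ B) f := by
  obtain ⟨F, hF1, hF2, hF3⟩ := h1
  obtain ⟨G, hG1, hG2, hG3⟩ := h2
  have e1 : EqOn (fun x => if x ∈ A then F x else G x) F A := fun x hx => by simp [hx]
  have e2 : EqOn (fun x => if x ∈ A then F x else G x) G B := fun x hx => by
    by_cases h : x ∈ A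
    · have hxL := hAB ⟨h, hx⟩
      simp only [h, if_true]
      rw [hF3 hxL, hG3 hxL]
    · simp [h]
  refine ⟨fun x => if x ∈ A then F x else G x, ?_, ?_, ?_⟩
  · exact (hF1.congr e1).union_of_isClosed (hG1.congr e2) hA hB
  · rintro x (hx | hx)
    · rw [e1 hx]
      exact hF2 x hx
    · rw [e2 hx]
      exact hG2 x hx
  · intro x hx
    rw [e1 (hLA hx)]
    exact hF3 hx

end CMP

open CMP in
theorem t_CMP : S_CMP := by
  intro Y _ hY L K f hL hK hLK hf hf0 hE
  obtain ⟨K', hK'K, hmin⟩ := zorn_superset_nonempty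
    {K' : Set Y | IsClosed K' ∧ L ⊆ K' ∧ K' ⊆ K ∧ ¬ ExtC L K' f} (fun c hc hch hne =>
      ⟨⋂₀ c, ⟨isClosed_sInter fun A hA => (hc hA).1,
        subset_sInter fun A hA => (hc hA).2.1,
        (sInter_subset_of_mem hne.some_mem).trans (hc hne.some_mem).2.2.1,
        chain_inf hK c (fun A hA => hc hA) hch hne⟩,
        fun A hA => sInter_subset_of_mem hA⟩) K ⟨hK.isClosed, hLK, subset_rfl, hE⟩
  obtain ⟨h1, h2, h2', h3⟩ := hmin.prop
  have hKc : IsCompact K' := hK.of_isClosed_subset h1 h2'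
  have hred : ∀ W : Set Y, IsOpen W → (W ∩ (K' \ L)).Nonempty → ExtC L ((K' \ W) ∪ L) f := by
    intro W hW hxW
    obtain ⟨x, hx1, hx2, hx3⟩ := hxW
    by_contra hcon
    have hsub : (K' \ W) ∪ L ⊆ K' := union_subset diff_subset h2
    have hmem : (K' \ W) ∪ L ∈ {K' : Set Y | IsClosed K' ∧ L ⊆ K' ∧ K' ⊆ K ∧ ¬ ExtC L K' f} :=
      ⟨(h1.sdiff hW).union hL.isClosed, subset_union_right, hsub.trans h2', hcon⟩
    have h4 := hmin.le_of_le hmem hsub
    rcases h4 hx2 with h5 | h5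
    · exact h5.2 hx1
    · exact hx3 h5
  have hop : IsOpen (K' \ L) := hY.om L K' f hL hKc h2 hf hf0 h3 hred
  have hun : L ∪ (K' \ L) = K' := union_diff_cancel h2
  refine ⟨K' \ L, diff_subset.trans h2', ⟨hf, hf0, hL, hop, ⟨?_, ?_⟩, disjoint_sdiff_left, ?_,
    ?_, ?_⟩⟩
  · by_contra hcon
    rw [not_nonempty_iff_eq_empty] at hcon
    rw [hcon, union_empty] at hun
    apply h3
    rw [← hun]
    exact ⟨f, hf, hf0, fun _ _ => rfl⟩
  · rintro U V hU hV hUV ⟨x, hx1, hx2⟩ ⟨y, hy1, hy2⟩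
    by_contra hcon
    rw [not_nonempty_iff_eq_empty] at hcon
    have hdis : ∀ z ∈ K' \ L, z ∈ U → z ∈ V → False := fun z hz hzU hzV => by
      have : z ∈ (K' \ L) ∩ (U ∩ V) := ⟨hz, hzU, hzV⟩
      rw [hcon] at this
      exact this
    have e1 := hred ((K' \ L) ∩ U) (hop.inter hU) ⟨x, ⟨hx1, hx2⟩, hx1⟩
    have e2 := hred ((K' \ L) ∩ V) (hop.inter hV) ⟨y, ⟨hy1, hy2⟩, hy1⟩
    have e3 := glue ((h1.sdiff (hop.inter hU)).union hL.isClosed)
      ((h1.sdiff (hop.inter hV)).union hL.isClosed) subset_union_right (by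
        rintro z ⟨hz1 | hz1, hz2 | hz2⟩
        · by_contra hzL
          rcases hUV ⟨hz1.1, hzL⟩ with h | h
          · exact hz1.2 ⟨⟨hz1.1, hzL⟩, h⟩
          · exact hz2.2 ⟨⟨hz1.1, hzL⟩, h⟩
        · exact hz2
        · exact hz1
        · exact hz1) subset_union_right e1 e2
    apply h3
    have e4 : K' \ ((K' \ L) ∩ U) ∪ L ∪ (K' \ ((K' \ L) ∩ V) ∪ L) = K' := by
      apply subset_antisymm
      · exact union_subset (union_subset diff_subset h2) (union_subset diff_subset h2)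
      · intro z hz
        by_cases h : z ∈ (K' \ L) ∩ U
        · right
          left
          exact ⟨hz, fun h' => hdis z h.1 h.2 h'.2⟩
        · left
          left
          exact ⟨hz, h⟩
    rwa [e4] at e3
  · rw [union_comm, hun]
    exact h1.closure_subset_iff.2 diff_subset
  · rwa [hun]
  · rwa [hun]

end BBP


end

section

/-!
# MP_6eac38_gt, BBP: curves in a contractible set are contractible
-/

set_option autoImplicit false

namespace BBP

open Set Topology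

theorem t_CTH : S_CTH := by
  intro Y _ T C W H x hH h0 h1 hCW hT γ hγ hrange
  have hmem : ∀ t, γ t ∈ C := fun t => hrange ▸ mem_range_self t
  have hγ1 : γ 1 = γ 0 := by
    have h := hγ.2.1 0
    rwa [zero_add] at h
  refine ⟨fun p => H (γ p.1, p.2), ?_, ?_, ?_, ?_, ?_⟩
  · refine hH.comp (((hγ.1.comp continuous_fst).prodMk continuous_snd).continuousOn) ?_
    intro p hp
    exact ⟨hCW (hmem p.1), hp.2⟩
  · intro t _
    exact h0 _ (hCW (hmem t))
  · intro s _
    change H (γ 0, s) = H (γ 1, s)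
    rw [hγ1]
  · intro t _
    exact (h1 _ (hCW (hmem t))).trans (h1 _ (hCW (hmem 0))).symm
  · intro q hq
    exact hT _ (hmem q.1) _ hq.2

end BBP


end

section

/-!
# BBP, module CTR: a contractible simple closed curve has no extension of a nonzero power
-/

set_option autoImplicit false

namespace BBP

open Set Topology
open Pool.Agent.LIX (CLog)

namespace CTR

/-- a continuous function `g` with `exp g = 1` is constant on an interval -/
theorem const_of_exp {g : ℝ → ℂ} (hg : ContinuousOn g (Icc 0 1))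
    (he : ∀ x ∈ Icc (0 : ℝ) 1, Complex.exp (g x) = 1) :
    ∀ x ∈ Icc (0 : ℝ) 1, ∀ y ∈ Icc (0 : ℝ) 1, g x = g y := by
  have hn : ∀ x ∈ Icc (0 : ℝ) 1, ∃ n : ℤ, g x = n * (2 * Real.pi * Complex.I) :=
    fun x hx => Complex.exp_eq_one_iff.1 (he x hx)
  choose! n hn using hn
  have hpi : (0 : ℝ) < 2 * Real.pi := by positivity
  have hr : ∀ x ∈ Icc (0 : ℝ) 1, (g x).im / (2 * Real.pi) = n x := by
    intro x hx
    rw [hn x hx]
    have : ((n x : ℂ) * (2 * Real.pi * Complex.I)).im = n x * (2 * Real.pi) := by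
      simp
    rw [this]
    field_simp
  have hc : ContinuousOn (fun x => (g x).im / (2 * Real.pi)) (Icc 0 1) :=
    (Complex.continuous_im.comp_continuousOn hg).div_const _
  have key : ∀ x ∈ Icc (0 : ℝ) 1, ∀ y ∈ Icc (0 : ℝ) 1, ¬ n x < n y := by
    intro x hx y hy hlt
    have h1 := isPreconnected_Icc.intermediate_value hx hy hc
    have h2 : ((n x : ℝ) + 1 / 2) ∈ Icc ((g x).im / (2 * Real.pi)) ((g y).im / (2 * Real.pi)) := by
      rw [hr x hx, hr y hy]
      have h3 : (n x : ℝ) + 1 ≤ n y := by exact_mod_cast hlt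
      constructor <;> linarith
    obtain ⟨z, hz, hz2⟩ := h1 h2
    simp only at hz2
    rw [hr z hz] at hz2
    have h4 : (n z : ℝ) * 2 = n x * 2 + 1 := by linarith
    have h5 : n z * 2 = n x * 2 + 1 := by exact_mod_cast h4
    omega
  intro x hx y hy
  have h : n x = n y := le_antisymm (not_lt.1 (key y hy x hx)) (not_lt.1 (key x hx y hy))
  rw [hn x hx, hn y hy, h]

end CTR

open CTR in
theorem t_CTR : S_CTR := by
  rintro Y _ T C f n ⟨γ, hγ, hrγ, hfγ⟩ hcon hn ⟨F, hF, hF0, hFC⟩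
  obtain ⟨c, hc, hc0, hcs, hc1, hcT⟩ := hcon γ hγ hrγ
  have hK : IsCompact (Icc (0 : ℝ) 1 ×ˢ Icc (0 : ℝ) 1) := isCompact_Icc.prod isCompact_Icc
  have hKc : Convex ℝ (Icc (0 : ℝ) 1 ×ˢ Icc (0 : ℝ) 1) := (convex_Icc 0 1).prod (convex_Icc 0 1)
  obtain ⟨l, hl, hle⟩ := Pool.Agent.LIX.cLog_convex (f := fun q => F (c q)) hK hKc
    (hF.comp hc fun q hq => hcT q hq) (fun q hq => hF0 _ (hcT q hq))
  replace hle : ∀ q ∈ Icc (0 : ℝ) 1 ×ˢ Icc (0 : ℝ) 1, Complex.exp (l q) = F (c q) := hle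
  have h0 : (0 : ℝ) ∈ Icc (0 : ℝ) 1 := by simp
  have h1 : (1 : ℝ) ∈ Icc (0 : ℝ) 1 := by simp
  have hv : ∀ t ∈ Icc (0 : ℝ) 1, ContinuousOn (fun s => l (t, s)) (Icc 0 1) := fun t ht =>
    hl.comp (by fun_prop) fun s hs => ⟨ht, hs⟩
  have hh : ∀ s ∈ Icc (0 : ℝ) 1, ContinuousOn (fun t => l (t, s)) (Icc 0 1) := fun s hs =>
    hl.comp (by fun_prop) fun t ht => ⟨ht, hs⟩
  -- the difference of the two sides
  have e1 := const_of_exp (g := fun s => l (1, s) - l (0, s)) ((hv 1 h1).sub (hv 0 h0))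
    (fun s hs => by
      rw [Complex.exp_sub, hle _ ⟨h1, hs⟩, hle _ ⟨h0, hs⟩, hcs s hs]
      exact div_self (hF0 _ (hcT _ ⟨h1, hs⟩))) 0 h0 1 h1
  -- the end
  have e2 := const_of_exp (g := fun t => l (t, 1) - l (0, 1)) ((hh 1 h1).sub continuousOn_const)
    (fun t ht => by
      rw [Complex.exp_sub, hle _ ⟨ht, h1⟩, hle _ ⟨h0, h1⟩, hc1 t ht]
      exact div_self (hF0 _ (hcT _ ⟨h0, h1⟩))) 0 h0 1 h1
  -- the beginning
  have e3 := const_of_exp (g := fun t => l (t, 0) - n * (2 * Real.pi * t * Complex.I))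
    ((hh 0 h0).sub (by fun_prop))
    (fun t ht => by
      rw [Complex.exp_sub, hle _ ⟨ht, h0⟩, hc0 t ht, Complex.exp_int_mul, ← hfγ t,
        hFC _ (hrγ ▸ mem_range_self t)]
      refine div_self ?_
      rw [hfγ t]
      exact zpow_ne_zero _ (Complex.exp_ne_zero _)) 0 h0 1 h1
  simp only [Complex.ofReal_zero, Complex.ofReal_one] at e1 e2 e3
  have e4 : (n : ℂ) * (2 * Real.pi * Complex.I) = 0 := by
    linear_combination e3 + e1 - e2
  rcases mul_eq_zero.1 e4 with h | h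
  · exact hn (by exact_mod_cast h)
  · exact Complex.two_pi_I_ne_zero h

end BBP


end

section

/-!
# BBP, block B, module DEG: degrees on simple closed curves
-/

set_option autoImplicit false

namespace BBP

open Set Topology
open Pool.Agent.LIX (CLog)

namespace DEG

theorem const_aux {ψ : ℝ → ℝ} (hc : ContinuousOn ψ (Icc 0 1))
    (hi : ∀ t ∈ Icc (0 : ℝ) 1, ∃ n : ℤ, ψ t = n) : ¬ ψ 0 < ψ 1 := by
  intro h
  obtain ⟨m, hm⟩ := hi 0 (by simp)
  obtain ⟨n, hn⟩ := hi 1 (by simp)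
  have h1 : m < n := by
    rw [hm, hn] at h
    exact_mod_cast h
  have h2 : (m : ℝ) + 1 ≤ n := by exact_mod_cast h1
  obtain ⟨t, ht, hte⟩ := intermediate_value_Icc zero_le_one hc
    (show (m : ℝ) + 1 / 2 ∈ Icc (ψ 0) (ψ 1) by
      rw [hm, hn]
      constructor <;> linarith)
  obtain ⟨k, hk⟩ := hi t ht
  rw [hk] at hte
  have h3 : ((2 * k : ℤ) : ℝ) = ((2 * m + 1 : ℤ) : ℝ) := by
    push_cast
    linarith
  have h4 : 2 * k = 2 * m + 1 := by exact_mod_cast h3
  omega

/-- a continuous function on `[0, 1]` whose exponential is `1` takes the same values at the ends -/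
theorem const_of_exp {φ : ℝ → ℂ} (hc : ContinuousOn φ (Icc 0 1))
    (he : ∀ t ∈ Icc (0 : ℝ) 1, Complex.exp (φ t) = 1) : φ 1 = φ 0 := by
  have hi : ∀ t ∈ Icc (0 : ℝ) 1, ∃ n : ℤ, φ t = n * (2 * Real.pi * Complex.I) := fun t ht =>
    Complex.exp_eq_one_iff.1 (he t ht)
  have hpi : (2 * Real.pi : ℝ) ≠ 0 := by positivity
  set ψ : ℝ → ℝ := fun t => (φ t).im / (2 * Real.pi) with hψ
  have hψc : ContinuousOn ψ (Icc 0 1) :=
    (Complex.continuous_im.comp_continuousOn hc).div_const _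
  have him : ∀ (t : ℝ) (n : ℤ), φ t = n * (2 * Real.pi * Complex.I) → ψ t = n := by
    intro t n h
    have : (φ t).im = n * (2 * Real.pi) := by
      rw [h]
      simp
    rw [hψ]
    simp only [this]
    field_simp
  have hψi : ∀ t ∈ Icc (0 : ℝ) 1, ∃ n : ℤ, ψ t = n := fun t ht => by
    obtain ⟨n, hn⟩ := hi t ht
    exact ⟨n, him t n hn⟩
  have h1 := const_aux hψc hψi
  have h2 := const_aux (ψ := fun t => -ψ t) hψc.neg fun t ht => by
    obtain ⟨n, hn⟩ := hψi t ht
    exact ⟨-n, by rw [hn]; push_cast; ring⟩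
  obtain ⟨m, hm⟩ := hi 0 (by simp)
  obtain ⟨n, hn⟩ := hi 1 (by simp)
  have h3 := him _ _ hm
  have h4 := him _ _ hn
  have h5 : ψ 0 = ψ 1 := le_antisymm (by linarith) (by linarith)
  rw [h3, h4] at h5
  have h6 : m = n := by exact_mod_cast h5
  rw [hm, hn, h6]

variable {Y : Type} [MetricSpace Y]

theorem exists_icc {γ : ℝ → Y} (hγ : Scp γ) {C : Set Y} (hC : range γ = C) :
    ∀ y ∈ C, ∃ t ∈ Ico (0 : ℝ) 1, γ t = y := by
  intro y hy
  rw [← hC] at hy
  obtain ⟨t, rfl⟩ := hy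
  refine ⟨Int.fract t, ⟨Int.fract_nonneg t, Int.fract_lt_one t⟩, ?_⟩
  have h := hγ.2.1.sub_int_mul_eq (x := t) ⌊t⌋
  rw [mul_one] at h
  exact h

theorem per_one {γ : ℝ → Y} (hγ : Scp γ) : γ 1 = γ 0 := by
  have := hγ.2.1 0
  rwa [zero_add] at this

/-- functions on `[0, 1]` with equal values at the ends descend to the curve -/
theorem descend {γ : ℝ → Y} (hγ : Scp γ) {C : Set Y} (hC : range γ = C) {h : ℝ → ℂ}
    (hc : ContinuousOn h (Icc 0 1)) (h01 : h 1 = h 0) :
    ∃ H : Y → ℂ, ContinuousOn H C ∧ ∀ t ∈ Icc (0 : ℝ) 1, H (γ t) = h t := by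
  classical
  have hex := exists_icc hγ hC
  choose! ρ hρ1 hρ2 using hex
  have hmem : ∀ t, γ t ∈ C := fun t => by
    rw [← hC]
    exact mem_range_self t
  have hval : ∀ t ∈ Icc (0 : ℝ) 1, h (ρ (γ t)) = h t := by
    intro t ht
    rcases ht.2.lt_or_eq with h1 | h1
    · rw [hγ.2.2 (hρ1 _ (hmem t)) ⟨ht.1, h1⟩ (hρ2 _ (hmem t))]
    · subst h1
      rw [h01, per_one hγ, hγ.2.2 (hρ1 _ (hmem 0)) ⟨le_rfl, zero_lt_one⟩ (hρ2 _ (hmem 0))]
  refine ⟨fun y => h (ρ y), ?_, hval⟩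
  let q : Icc (0 : ℝ) 1 → C := fun t => ⟨γ t, hmem t⟩
  have hq : Continuous q := (hγ.1.comp continuous_subtype_val).subtype_mk _
  have hs : Function.Surjective q := by
    rintro ⟨y, hy⟩
    exact ⟨⟨ρ y, Ico_subset_Icc_self (hρ1 y hy)⟩, Subtype.ext (hρ2 y hy)⟩
  have hQ : IsQuotientMap q := hq.isClosedMap.isQuotientMap hq hs
  rw [continuousOn_iff_continuous_domRestrict, hQ.continuous_iff]
  refine (continuousOn_iff_continuous_domRestrict.1 hc).congr fun t => ?_
  exact (hval t t.2).symm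

theorem lift_iff {γ : ℝ → Y} (hγ : Scp γ) {C : Set Y} (hC : range γ = C) {g : Y → ℂ}
    {θ : ℝ → ℂ} (hθ : ContinuousOn θ (Icc 0 1))
    (he : ∀ t ∈ Icc (0 : ℝ) 1, Complex.exp (θ t) = g (γ t)) : CLog C g ↔ θ 1 = θ 0 := by
  have hmem : ∀ t, γ t ∈ C := fun t => by
    rw [← hC]
    exact mem_range_self t
  constructor
  · rintro ⟨l, hl, hle⟩
    have h1 := const_of_exp (φ := fun t => l (γ t) - θ t)
      ((hl.comp hγ.1.continuousOn fun t _ => hmem t).sub hθ) fun t ht => by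
        rw [Complex.exp_sub, hle _ (hmem t), he t ht, div_self]
        rw [← he t ht]
        exact Complex.exp_ne_zero _
    simp only [per_one hγ] at h1
    have := sub_right_inj.1 h1
    exact this
  · intro h
    obtain ⟨H, hH, hv⟩ := descend hγ hC hθ h
    refine ⟨H, hH, fun y hy => ?_⟩
    obtain ⟨t, ht, rfl⟩ := exists_icc hγ hC y hy
    rw [hv t (Ico_subset_Icc_self ht), he t (Ico_subset_Icc_self ht)]

theorem exp_cont : Continuous fun t : ℝ => Complex.exp (2 * Real.pi * t * Complex.I) := by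
  fun_prop

theorem exp_one : Complex.exp (2 * Real.pi * ((1 : ℝ) : ℂ) * Complex.I) =
    Complex.exp (2 * Real.pi * ((0 : ℝ) : ℂ) * Complex.I) := by
  push_cast
  rw [mul_one, Complex.exp_two_pi_mul_I]
  simp

end DEG

open DEG in
theorem t_DEG : S_DEG := by
  intro Y _ C hCs
  refine ⟨?_, ?_, ?_⟩
  · obtain ⟨γ, hγ, hC⟩ := hCs
    obtain ⟨f, hf, hv⟩ := descend hγ hC exp_cont.continuousOn exp_one
    refine ⟨f, γ, hγ, hC, fun t => ?_⟩
    have h := hγ.2.1.sub_int_mul_eq (x := t) ⌊t⌋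
    rw [mul_one] at h
    have hfr : t - ⌊t⌋ ∈ Icc (0 : ℝ) 1 := ⟨Int.fract_nonneg t, (Int.fract_lt_one t).le⟩
    rw [← h, hv _ hfr]
    have h1 : (2 * Real.pi * ((t - ⌊t⌋ : ℝ) : ℂ) * Complex.I : ℂ) =
        2 * Real.pi * t * Complex.I - (⌊t⌋ : ℤ) * (2 * Real.pi * Complex.I) := by
      push_cast
      ring
    rw [h1, Complex.exp_sub, Complex.exp_int_mul_two_pi_mul_I, div_one]
  · rintro f ⟨γ, hγ, hC, hf⟩
    have hmem : ∀ t, γ t ∈ C := fun t => by
      rw [← hC]
      exact mem_range_self t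
    have hcont : ContinuousOn f C := by
      obtain ⟨H, hH, hv⟩ := descend hγ hC exp_cont.continuousOn exp_one
      refine hH.congr fun y hy => ?_
      obtain ⟨t, ht, rfl⟩ := exists_icc hγ hC y hy
      rw [hv t (Ico_subset_Icc_self ht), hf]
    have hne : ∀ x ∈ C, f x ≠ 0 := by
      intro y hy
      obtain ⟨t, ht, rfl⟩ := exists_icc hγ hC y hy
      rw [hf]
      exact Complex.exp_ne_zero _
    refine ⟨hcont, hne, ?_, ?_⟩
    · intro g hg hg0
      obtain ⟨θ, hθ, he⟩ := Pool.Agent.LIX.cLog_convex isCompact_Icc (convex_Icc (0 : ℝ) 1)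
        (hg.comp hγ.1.continuousOn fun t _ => hmem t) fun t _ => hg0 _ (hmem t)
      have h1 : Complex.exp (θ 1) = Complex.exp (θ 0) := by
        rw [he 1 (by simp), he 0 (by simp), Function.comp_apply, Function.comp_apply, per_one hγ]
      obtain ⟨n, hn⟩ := Complex.exp_eq_exp_iff_exists_int.1 h1
      refine ⟨n, ?_⟩
      have h2 : ContinuousOn (fun t : ℝ => θ t - n * (2 * Real.pi * t * Complex.I))
          (Icc 0 1) := hθ.sub (by fun_prop)
      refine (lift_iff hγ hC h2 fun t ht => ?_).2 ?_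
      · rw [Complex.exp_sub, Complex.exp_int_mul, he t ht, hf, Function.comp_apply]
      · rw [hn]
        push_cast
        ring
    · intro n hn
      have h2 : ContinuousOn (fun t : ℝ => (n * (2 * Real.pi * t * Complex.I) : ℂ))
          (Icc 0 1) := by fun_prop
      have h3 := (lift_iff hγ hC h2 fun t ht => by
        rw [Complex.exp_int_mul, hf]).1 hn
      have h4 : (n : ℂ) * (2 * Real.pi * Complex.I) = 0 := by
        push_cast at h3
        simpa using h3
      rcases mul_eq_zero.1 h4 with h5 | h5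
      · exact_mod_cast h5
      · exact absurd h5 Complex.two_pi_I_ne_zero
  · intro γ g hγ hC _ _ θ hθ he
    exact lift_iff hγ hC hθ he

end BBP


end

section

/-!
# BBP, module DGP: degrees of point functions
-/

set_option autoImplicit false

namespace BBP

open Set Topology
open Pool.Agent.LIX (CLog)

namespace DGP

/-- extension of a continuous function from a closed set -/
theorem extend {X : Type} [MetricSpace X] {L : Set X} (hL : IsClosed L) {f : X → ℂ}
    (hf : ContinuousOn f L) : ∃ g : X → ℂ, Continuous g ∧ ∀ x ∈ L, g x = f x := by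
  obtain ⟨g, hg⟩ := ContinuousMap.exists_restrict_eq hL ⟨L.domRestrict f, hf.domRestrict⟩
  refine ⟨g, g.continuous, fun x hx => ?_⟩
  have h := congrArg (fun k : C(L, ℂ) => k ⟨x, hx⟩) hg
  exact h

end DGP

theorem t_DGP : M_DGP := by
  intro hDEG hJCT hFIV hNST hSGN Y _ U J0 T0 f0 hU C J fC fJ hC hJ hJU hCJ hgC hgJ
  obtain ⟨s, hs, hsg⟩ := hSGN Y U J0 T0 f0 hU C J fC fJ hC hJ hJU hCJ hgC hgJ
  have hJ1 := hJCT Y U J0 T0 f0 hU J fJ hJ hJU hgJ
  have hCU : C ⊆ U := hCJ.trans hJ1.2.1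
  have hC1 := hJCT Y U J0 T0 f0 hU C fC hC hCU hgC
  have hmJ : Mem J fJ (ins J) := hJ1.1
  have hmC : Mem C fC (ins C) := hC1.1
  have hn : ins C ⊆ ins J := hNST Y U J0 T0 f0 hU C J hC hJ hJU fun x hx => Or.inr (hCJ hx)
  have hDC := (hDEG Y C hC).2.1 fC hgC
  refine ⟨s, hs, ?_⟩
  intro y F hy hF
  obtain ⟨hF1, hF2, hF3⟩ := hF
  have hyJ : y ∉ J := fun h => Set.disjoint_left.1 hmJ.disj hy h
  constructor
  · intro hyC
    have hyC' : y ∉ C := fun h => Set.disjoint_left.1 hmC.disj hyC h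
    have hsub : (J ∪ ins J) \ ins C ⊆ (J ∪ ins J) \ {y} := by
      rintro x ⟨hx1, hx2⟩
      refine ⟨hx1, ?_⟩
      rintro rfl
      exact hx2 hyC
    have hsubC : C ⊆ (J ∪ ins J) \ {y} := by
      intro x hx
      refine ⟨Or.inr (hCJ hx), ?_⟩
      rintro rfl
      exact hyC' hx
    have hDJ : Deg J fJ F 1 := by
      refine (Pool.Agent.LIX.cLog_const (K := J) (one_ne_zero (α := ℂ))).congr ?_
      intro x hx
      show F x / fJ x ^ (1 : ℤ) = 1
      rw [zpow_one, hF3 hx, div_self (hmJ.ne x hx)]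
    obtain ⟨b, hb⟩ := hDC.2.2.1 F (hF1.mono hsubC) fun x hx => hF2 x (hsubC hx)
    have h1 := hsg F 1 b (hF1.mono hsub) (fun x hx => hF2 x (hsub hx)) hDJ hb
    have h2 : b = s := by
      rcases hs with h | h
      · rw [h] at h1 ⊢
        omega
      · rw [h] at h1 ⊢
        omega
    rw [← h2]
    exact hb
  · intro hyC hyC'
    have hsub : C ∪ ins C ⊆ (J ∪ ins J) \ {y} := by
      rintro x (hx | hx)
      · refine ⟨Or.inr (hCJ hx), ?_⟩
        rintro rfl
        exact hyC hx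
      · refine ⟨Or.inr (hn hx), ?_⟩
        rintro rfl
        exact hyC' hx
    have hsubC : C ⊆ (J ∪ ins J) \ {y} := fun x hx => hsub (Or.inl hx)
    obtain ⟨b, hb⟩ := hDC.2.2.1 F (hF1.mono hsubC) fun x hx => hF2 x (hsubC hx)
    have hb0 : b = 0 := by
      by_contra hb0
      obtain ⟨l, hl1, hl2⟩ := hb
      obtain ⟨l', hl'1, hl'2⟩ := DGP.extend hmC.cptL.isClosed hl1
      refine hFIV Y U J0 T0 f0 hU C fC b hC hCU hgC hb0
        ⟨fun x => F x * Complex.exp (-l' x), ?_, ?_, ?_⟩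
      · exact (hF1.mono hsub).mul
          (Complex.continuous_exp.comp hl'1.neg).continuousOn
      · intro x hx
        exact mul_ne_zero (hF2 x (hsub hx)) (Complex.exp_ne_zero _)
      · intro x hx
        show F x * Complex.exp (-l' x) = fC x ^ b
        have h1 : F x ≠ 0 := hF2 x (hsubC hx)
        have h2 : fC x ^ b ≠ 0 := zpow_ne_zero b (hmC.ne x hx)
        rw [hl'2 x hx, Complex.exp_neg, hl2 x hx]
        field_simp
    rw [← hb0]
    exact hb

end BBP


end

section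

/-!
# BBP, module ETW: separation by a set with a logarithm of the quotient of two point functions
-/

set_option autoImplicit false

namespace BBP

open Set Topology
open Pool.Agent.LIX (CLog)

namespace ETW

/-- Tietze extension for functions given on a set. -/
theorem tietze {Y : Type} [MetricSpace Y] {C : Set Y} (hC : IsClosed C) {f : Y → ℂ}
    (hf : ContinuousOn f C) : ∃ g : Y → ℂ, Continuous g ∧ ∀ x ∈ C, g x = f x := by
  obtain ⟨g, hg⟩ := ContinuousMap.exists_restrict_eq hC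
    (⟨C.domRestrict f, continuousOn_iff_continuous_domRestrict.1 hf⟩ : C(C, ℂ))
  refine ⟨g, g.continuous, fun x hx => ?_⟩
  exact congrArg (fun φ : C(C, ℂ) => φ ⟨x, hx⟩) hg

end ETW

theorem t_ETW : S_ETW := by
  intro Y _ J V T R fJ F G y z hM hT hTV hyT hzT hzV hF hG hlog hRo hRV hRT hcl hyR
  classical
  by_contra hzR
  obtain ⟨l, hl, hle⟩ := hlog
  obtain ⟨hFc, hF0, hFJ⟩ := hF
  obtain ⟨hGc, hG0, hGJ⟩ := hG
  have hTJ : ∀ x ∈ T, x ∉ J := fun x hx hJ => Set.disjoint_left.1 hM.disj (hTV hx) hJ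
  have hJcl : IsClosed J := hM.cptL.isClosed
  have hTcl : IsClosed T := hT.isClosed
  have hKcl : IsClosed (J ∪ V) := hM.cpt.isClosed
  -- the logarithm, extended
  obtain ⟨l', hl'c, hl'⟩ := ETW.tietze (hTcl.union hJcl)
    (f := fun x => if x ∈ J then 0 else l x) (by
      refine ContinuousOn.union_of_isClosed ?_ ?_ hTcl hJcl
      · exact hl.congr fun x hx => if_neg (hTJ x hx)
      · exact continuousOn_const.congr fun x hx => if_pos hx)
  have hl'T : ∀ x ∈ T, l' x = l x := fun x hx => by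
    rw [hl' x (Or.inl hx), if_neg (hTJ x hx)]
  have hl'J : ∀ x ∈ J, l' x = 0 := fun x hx => by
    rw [hl' x (Or.inr hx), if_pos hx]
  have hzcl : z ∉ closure R := by
    intro h
    rcases hcl ⟨h, hzV⟩ with h' | h'
    · exact hzR h'
    · exact hzT h'
  have hyJ : y ∉ J := fun h => Set.disjoint_left.1 hM.disj (hRV hyR) h
  have hzJ : z ∉ J := fun h => Set.disjoint_left.1 hM.disj hzV h
  -- the two functions agree on the intersection
  have hagree : ∀ x ∈ closure R, x ∈ J ∪ V → x ∉ R → G x * Complex.exp (l' x) = F x := by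
    intro x hx hJV hxR
    rcases hJV with hJ | hV
    · rw [hl'J x hJ, Complex.exp_zero, mul_one, hFJ hJ, hGJ hJ]
    · have hxT : x ∈ T := by
        rcases hcl ⟨hx, hV⟩ with h | h
        · exact absurd h hxR
        · exact h
      have hGx : G x ≠ 0 := hG0 x ⟨Or.inr hV, fun h => hzT (h ▸ hxT)⟩
      have h1 := hle x hxT
      rw [hl'T x hxT, h1, mul_div_cancel₀ _ hGx]
  apply hM.ess
  refine ⟨fun x => if x ∈ closure R then G x * Complex.exp (l' x) else F x, ?_, ?_, ?_⟩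
  · have hA : J ∪ V = (closure R ∩ (J ∪ V)) ∪ ((J ∪ V) ∩ Rᶜ) := by
      ext x
      constructor
      · intro hx
        by_cases hxR : x ∈ R
        · exact Or.inl ⟨subset_closure hxR, hx⟩
        · exact Or.inr ⟨hx, hxR⟩
      · rintro (hx | hx)
        · exact hx.2
        · exact hx.1
    rw [hA]
    refine ContinuousOn.union_of_isClosed ?_ ?_ (isClosed_closure.inter hKcl)
      (hKcl.inter hRo.isClosed_compl)
    · have h1 : ContinuousOn (fun x => G x * Complex.exp (l' x)) (closure R ∩ (J ∪ V)) := by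
        refine ContinuousOn.mul (hGc.mono ?_) (Complex.continuous_exp.comp hl'c).continuousOn
        rintro x ⟨hx, hJV⟩
        exact ⟨hJV, fun h => hzcl (h ▸ hx)⟩
      exact h1.congr fun x hx => if_pos hx.1
    · have h1 : ContinuousOn F ((J ∪ V) ∩ Rᶜ) := by
        refine hFc.mono ?_
        rintro x ⟨hJV, hx⟩
        exact ⟨hJV, fun h => hx (by rw [h]; exact hyR)⟩
      refine h1.congr ?_
      rintro x ⟨hJV, hx⟩
      by_cases hc : x ∈ closure R
      · simp only [if_pos hc]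
        exact hagree x hc hJV hx
      · simp only [if_neg hc]
  · intro x hJV
    by_cases hc : x ∈ closure R
    · simp only [if_pos hc]
      exact mul_ne_zero (hG0 x ⟨hJV, fun h => hzcl (h ▸ hc)⟩) (Complex.exp_ne_zero _)
    · simp only [if_neg hc]
      exact hF0 x ⟨hJV, fun h => hc (subset_closure (by rw [h]; exact hyR))⟩
  · intro x hx
    by_cases hc : x ∈ closure R
    · simp only [if_pos hc]
      rw [hl'J x hx, Complex.exp_zero, mul_one, hGJ hx]
    · simp only [if_neg hc]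
      exact hFJ hx

end BBP


end

section

/-!
# Module FIV: no nonzero power extends to the inside
-/

set_option autoImplicit false

namespace BBP

open Set Topology

/-- Module FIV. -/
theorem t_FIV : M_FIV := by
  classical
  intro _ _ hCMP hCTR hJCT Y _ U J0 T0 f0 hU C f n hS hCU hG hn
  rintro ⟨k, hk1, hk2, hk3⟩
  obtain ⟨hM, -, -, -, -, -, -, -⟩ := hJCT Y U J0 T0 f0 hU C f hS hCU hG
  have hKc : IsCompact (T0 \ ins C) := hU.cptT.diff hM.opn
  have hCK : C ⊆ T0 \ ins C := fun x hx =>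
    ⟨hU.sub (Or.inl (hCU hx)), fun h => Set.disjoint_left.1 hM.disj h hx⟩
  have hext : ExtC C (T0 \ ins C) f := by
    by_contra h
    obtain ⟨Q, hQ, hMQ⟩ := hCMP Y hU.ax C (T0 \ ins C) f hM.cptL hKc hCK hM.cont hM.ne h
    have h1 : Q ⊆ ins C := by
      intro x hx
      exact ⟨Q, ⟨hMQ.opn, hMQ.conn, hMQ.disj, hMQ.cpt⟩, hx⟩
    obtain ⟨x, hx⟩ := hMQ.conn.nonempty
    exact (hQ hx).2 (h1 hx)
  obtain ⟨F, hF1, hF2, hF3⟩ := hext
  refine hCTR Y T0 C f n hG (hU.contr C hS hCU) hn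
    ⟨fun x => if x ∈ ins C then k x else F x ^ n, ?_, ?_, ?_⟩
  · have hsub : T0 ⊆ (C ∪ ins C) ∪ (T0 \ ins C) := by
      intro x hx
      by_cases h : x ∈ ins C
      · exact Or.inl (Or.inr h)
      · exact Or.inr ⟨hx, h⟩
    refine ContinuousOn.mono ?_ hsub
    apply ContinuousOn.union_of_isClosed
    · refine hk1.congr ?_
      intro x hx
      by_cases h : x ∈ ins C
      · simp only [h, if_true]
      · have hxC : x ∈ C := hx.resolve_right h
        simp only [h, if_false]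
        rw [hF3 hxC, hk3 x hxC]
    · refine ContinuousOn.congr (hF1.zpow₀ n fun x hx => Or.inl (hF2 x hx)) ?_
      intro x hx
      simp only [hx.2, if_false]
    · exact hM.cpt.isClosed
    · exact hKc.isClosed
  · intro x hx
    by_cases h : x ∈ ins C
    · simp only [h, if_true]
      exact hk2 x (Or.inr h)
    · simp only [h, if_false]
      exact zpow_ne_zero n (hF2 x ⟨hx, h⟩)
  · intro x hx
    have h : x ∉ ins C := (hCK hx).2
    simp only [h, if_false]
    rw [hF3 hx]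

end BBP


end

section

/-!
# Module JAN: Janiszewski's theorem
-/

set_option autoImplicit false

namespace BBP

open Set Topology
open Pool.Agent.LIX (CLog)

namespace JAN

theorem int_le {Y : Type} [TopologicalSpace Y] {K : Set Y} (hK : IsPreconnected K) {g : Y → ℝ}
    (hg : ContinuousOn g K) (h : ∀ x ∈ K, ∃ n : ℤ, g x = n) {x y : Y} (hx : x ∈ K) (hy : y ∈ K) :
    g y ≤ g x := by
  by_contra hlt
  rw [not_le] at hlt
  obtain ⟨n, hn⟩ := h x hx
  obtain ⟨m, hm⟩ := h y hy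
  rw [hn, hm] at hlt
  have hlt' : n < m := by exact_mod_cast hlt
  have hle : (n : ℝ) + 1 ≤ m := by exact_mod_cast hlt'
  have hmem : (n : ℝ) + 1 / 2 ∈ g '' K := by
    apply hK.intermediate_value hx hy hg
    rw [hn, hm]
    constructor <;> linarith
  obtain ⟨w, hw, hgw⟩ := hmem
  obtain ⟨k, hk⟩ := h w hw
  rw [hk] at hgw
  have h2 : ((2 * k : ℤ) : ℝ) = ((2 * n + 1 : ℤ) : ℝ) := by
    push_cast
    linarith
  have h3 : 2 * k = 2 * n + 1 := by exact_mod_cast h2
  omega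

theorem const {Y : Type} [TopologicalSpace Y] {K : Set Y} (hK : IsPreconnected K) {l : Y → ℂ}
    (hl : ContinuousOn l K) (h : ∀ x ∈ K, Complex.exp (l x) = 1) {x y : Y} (hx : x ∈ K)
    (hy : y ∈ K) : l x = l y := by
  have hpi : (2 * Real.pi : ℝ) ≠ 0 := by positivity
  have hint : ∀ z ∈ K, ∃ n : ℤ, l z = n * (2 * Real.pi * Complex.I) := fun z hz =>
    Complex.exp_eq_one_iff.1 (h z hz)
  have hg : ContinuousOn (fun z => (l z).im / (2 * Real.pi)) K :=
    (Complex.continuous_im.comp_continuousOn hl).div_const _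
  have hgi : ∀ z ∈ K, ∃ n : ℤ, (l z).im / (2 * Real.pi) = n := by
    intro z hz
    obtain ⟨n, hn⟩ := hint z hz
    refine ⟨n, ?_⟩
    rw [hn, div_eq_iff hpi]
    simp
  have h1 := int_le hK hg hgi hx hy
  have h2 := int_le hK hg hgi hy hx
  have h3 : (l x).im / (2 * Real.pi) = (l y).im / (2 * Real.pi) := le_antisymm h2 h1
  have h4 : (l x).im = (l y).im := by
    rw [div_left_inj' hpi] at h3
    exact h3
  obtain ⟨n, hn⟩ := hint x hx
  obtain ⟨m, hm⟩ := hint y hy
  apply Complex.ext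
  · rw [hn, hm]
    simp
  · exact h4

theorem glue {Y : Type} [TopologicalSpace Y] {S T : Set Y} (hS : IsClosed S) (hT : IsClosed T)
    (hc : IsConnected (S ∩ T)) {f : Y → ℂ} (h1 : CLog S f) (h2 : CLog T f) :
    CLog (S ∪ T) f := by
  classical
  obtain ⟨l1, c1, e1⟩ := h1
  obtain ⟨l2, c2, e2⟩ := h2
  obtain ⟨p, hp⟩ := hc.nonempty
  have hk : ∀ x ∈ S ∩ T, l1 x - l2 x = l1 p - l2 p := by
    intro x hx
    refine const hc.isPreconnected (l := fun x => l1 x - l2 x) ?_ ?_ hx hp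
    · exact (c1.mono inter_subset_left).sub (c2.mono inter_subset_right)
    · intro z hz
      rw [Complex.exp_sub, e1 z hz.1, e2 z hz.2]
      refine div_self ?_
      rw [← e1 z hz.1]
      exact Complex.exp_ne_zero _
  have hone : Complex.exp (l1 p - l2 p) = 1 := by
    rw [Complex.exp_sub, e1 p hp.1, e2 p hp.2]
    refine div_self ?_
    rw [← e1 p hp.1]
    exact Complex.exp_ne_zero _
  refine ⟨fun x => if x ∈ S then l1 x else l2 x + (l1 p - l2 p), ?_, ?_⟩
  · apply ContinuousOn.union_of_isClosed _ _ hS hT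
    · refine c1.congr fun x hx => ?_
      change (if x ∈ S then l1 x else l2 x + (l1 p - l2 p)) = l1 x
      rw [if_pos hx]
    · refine (c2.add continuousOn_const).congr (f := fun x => l2 x + (l1 p - l2 p))
        fun x hx => ?_
      change (if x ∈ S then l1 x else l2 x + (l1 p - l2 p)) = l2 x + (l1 p - l2 p)
      by_cases hxS : x ∈ S
      · rw [if_pos hxS, ← hk x ⟨hxS, hx⟩]
        ring
      · rw [if_neg hxS]
  · intro x hx
    change Complex.exp (if x ∈ S then l1 x else l2 x + (l1 p - l2 p)) = f x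
    by_cases hxS : x ∈ S
    · rw [if_pos hxS, e1 x hxS]
    · rw [if_neg hxS, Complex.exp_add, hone, mul_one]
      rcases hx with hx | hx
      · exact absurd hx hxS
      · exact e2 x hx

end JAN

open JAN in
theorem t_JAN : M_JAN := by
  intro hLPC hPTA hDEG hPNT hJCT hEON hETW Y _ U J0 T0 f0 hU J T1 T2 hJ hJU c1 c2 s1 s2 hconn y z
    j1 j2
  have m1 := j1.mem
  have m2 := j2.mem
  have hy : y ∈ ins J \ (T1 ∪ T2) := ⟨m1.1.1, fun h => h.elim m1.1.2 m2.1.2⟩
  have hz : z ∈ ins J \ (T1 ∪ T2) := ⟨m1.2.1, fun h => h.elim m1.2.2 m2.2.2⟩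
  by_cases hyz : y = z
  · rw [← hyz]
    exact JoinedIn.refl hy
  have hAx := hU.ax
  have := hLPC Y hAx
  obtain ⟨⟨fJ, hfJ⟩, -, -⟩ := hDEG Y J hJ
  obtain ⟨hM, -, -, -, -, -, -, -⟩ := hJCT Y U J0 T0 f0 hU J fJ hJ hJU hfJ
  obtain ⟨F, hF⟩ := hPNT Y hAx J (ins J) fJ y hM hy.1
  obtain ⟨G, hG⟩ := hPNT Y hAx J (ins J) fJ z hM hz.1
  obtain ⟨A1, a1, b1⟩ := hPTA.2 Y (ins J \ T1) y z j1 hyz
  obtain ⟨A2, a2, b2⟩ := hPTA.2 Y (ins J \ T2) y z j2 hyz
  have l1 : CLog T1 fun x => F x / G x := by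
    refine (hEON Y U J0 T0 f0 hU J A1 fJ F G y z hJ hJU hfJ b1 (fun x hx => (a1 hx).1) hF hG).mono
      fun x hx => ⟨s1 hx, fun h => (a1 h).2 hx⟩
  have l2 : CLog T2 fun x => F x / G x := by
    refine (hEON Y U J0 T0 f0 hU J A2 fJ F G y z hJ hJU hfJ b2 (fun x hx => (a2 hx).1) hF hG).mono
      fun x hx => ⟨s2 hx, fun h => (a2 h).2 hx⟩
  have l3 := glue c1.isClosed c2.isClosed hconn l1 l2
  have hTc : IsCompact (T1 ∪ T2) := c1.union c2
  have hop : IsOpen (ins J \ (T1 ∪ T2)) := hM.opn.sdiff hTc.isClosed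
  have hR : z ∈ pathComponentIn (ins J \ (T1 ∪ T2)) y := by
    refine hETW Y J (ins J) (T1 ∪ T2) (pathComponentIn (ins J \ (T1 ∪ T2)) y) fJ F G y z hM hTc
      (union_subset s1 s2) hy.2 hz.2 hz.1 hF hG l3 (hop.pathComponentIn y) ?_ ?_ ?_ ?_
    · intro x hx
      exact (pathComponentIn_subset hx).1
    · rw [Set.disjoint_left]
      intro x hx
      exact (pathComponentIn_subset hx).2
    · rintro x ⟨hx, hxV⟩
      by_cases hxT : x ∈ T1 ∪ T2
      · exact Or.inr hxT
      · left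
        have hxm : x ∈ ins J \ (T1 ∪ T2) := ⟨hxV, hxT⟩
        obtain ⟨w, hw1, hw2⟩ := mem_closure_iff.1 hx (pathComponentIn (ins J \ (T1 ∪ T2)) x)
          (hop.pathComponentIn x) (mem_pathComponentIn_self hxm)
        have h1 : JoinedIn (ins J \ (T1 ∪ T2)) x w := hw1
        have h2 : JoinedIn (ins J \ (T1 ∪ T2)) y w := hw2
        exact h2.trans h1.symm
    · exact mem_pathComponentIn_self hy
  exact hR

end BBP


end

section

/-!
MP_6eac38_gt, module JC2: every side of a simple closed curve has the whole curve in its boundary.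
-/

set_option autoImplicit false

namespace BBP

open Set Topology

theorem t_JC2 : M_JC2 := by
  intro hSCB hARB hNSP Y _ U J0 T0 f0 hU C V hC hCU hV x hx
  by_contra hxV
  obtain ⟨-, -, -, h4, -⟩ := hSCB Y C hC
  obtain ⟨A, B, a, b, hA, -, hAB, -, -, hxA, hBW⟩ :=
    h4 x hx (closure V)ᶜ isClosed_closure.isOpen_compl hxV
  have hAC : A ⊆ C := fun y hy => hAB ▸ Or.inl hy
  obtain ⟨-, -, -, -, hAc, -, hAlog, -⟩ := hARB Y A a b hA
  have hconn : IsConnected (U \ A) :=
    hNSP Y hU.ax J0 U A f0 hU.mem (hAC.trans hCU) hAc hAlog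
  obtain ⟨hVo, ⟨v, hv⟩, hVU, hVc⟩ := hV
  have h1 : U \ A ⊆ V ∪ (closure V)ᶜ := by
    intro y hy
    by_cases hyV : y ∈ closure V
    · rcases hVc ⟨hyV, hy.1⟩ with h | h
      · exact Or.inl h
      · rw [← hAB] at h
        rcases h with h | h
        · exact absurd h hy.2
        · exact absurd hyV (hBW h)
    · exact Or.inr hyV
  obtain ⟨y, -, hy1, hy2⟩ := hconn.isPreconnected V (closure V)ᶜ hVo
    isClosed_closure.isOpen_compl h1 ⟨v, ⟨(hVU hv).1, fun h => (hVU hv).2 (hAC h)⟩, hv⟩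
    ⟨x, ⟨hCU hx, hxA⟩, hxV⟩
  exact hy2 (subset_closure hy1)

end BBP


end

section

/-!
# JC3: an scc has at most two sides
-/

set_option autoImplicit false

namespace BBP

open Set Topology
open Pool.Agent.LIX (CLog)

namespace JC3

variable {Y : Type} [MetricSpace Y]

theorem clo_sub {U C V S : Set Y} (hV : Clo U C V) (hS : IsPreconnected S) (hSU : S ⊆ U \ C)
    (hne : (S ∩ V).Nonempty) : S ⊆ V := by
  apply hS.subset_of_closure_inter_subset hV.1 hne
  rintro x ⟨hx, hxS⟩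
  have h1 := hSU hxS
  rcases hV.2.2.2 ⟨hx, h1.1⟩ with h | h
  · exact h
  · exact absurd h h1.2

theorem clo_comp [LocallyConnectedSpace Y] {U C : Set Y} (hU : IsOpen U) (hC : IsClosed C)
    {x : Y} (hx : x ∈ U \ C) : Clo U C (connectedComponentIn (U \ C) x) := by
  have ho : IsOpen (U \ C) := hU.sdiff hC
  refine ⟨ho.connectedComponentIn, ⟨x, mem_connectedComponentIn hx⟩,
    connectedComponentIn_subset _ _, ?_⟩
  rintro y ⟨hy, hyU⟩
  by_cases hyC : y ∈ C
  · exact Or.inr hyC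
  · left
    have hyUC : y ∈ U \ C := ⟨hyU, hyC⟩
    have h1 : IsOpen (connectedComponentIn (U \ C) y) := ho.connectedComponentIn
    obtain ⟨z, hz1, hz2⟩ := mem_closure_iff.mp hy _ h1 (mem_connectedComponentIn hyUC)
    have e1 := connectedComponentIn_eq hz1
    have e2 := connectedComponentIn_eq hz2
    rw [e2, ← e1]
    exact mem_connectedComponentIn hyUC

/-- small neighbourhoods of the points of an scc -/
theorem nbh {γ : ℝ → Y} (hSCA : S_SCA) (hγ : Scp γ) {a m b : ℝ} (ham : a < m) (hmb : m < b)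
    (hb : b < a + 1) : ∃ N : Set Y, IsOpen N ∧ γ m ∈ N ∧ N ∩ range γ ⊆ γ '' Ioo a b := by
  obtain ⟨h1, -⟩ := hSCA Y γ hγ
  have hper : γ (a + 1) = γ a := hγ.2.1 a
  have e : ∀ {s t : ℝ}, s ∈ Ico a (a + 1) → t ∈ Ico a (a + 1) → γ s = γ t → s = t :=
    fun hs ht h => (h1 a).1 hs ht h
  refine ⟨(γ '' Icc b (a + 1))ᶜ, (isCompact_Icc.image hγ.1).isClosed.isOpen_compl, ?_, ?_⟩
  · rintro ⟨t, ht, hte⟩
    have ht1 := ht.1
    rcases ht.2.lt_or_eq with h | h
    · have h2 := e (s := t) (t := m) ⟨by linarith, h⟩ ⟨ham.le, by linarith⟩ hte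
      linarith
    · rw [h, hper] at hte
      have h2 := e (s := a) (t := m) ⟨le_refl _, by linarith⟩ ⟨ham.le, by linarith⟩ hte
      linarith
  · rintro y ⟨hyN, hyC⟩
    rw [← (h1 a).2] at hyC
    obtain ⟨t, ht, rfl⟩ := hyC
    refine ⟨t, ⟨?_, ?_⟩, rfl⟩
    · rcases ht.1.lt_or_eq with h | h
      · exact h
      · exfalso
        apply hyN
        rw [← h]
        exact ⟨a + 1, ⟨hb.le, le_refl _⟩, hper⟩
    · by_contra h
      exact hyN ⟨t, ⟨not_lt.mp h, ht.2⟩, rfl⟩

theorem access (hSCA : S_SCA) (hACC : S_ACC) [LocallyPathConnectedSpace Y] {U V : Set Y}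
    {γ : ℝ → Y} (hγ : Scp γ) (hU : IsOpen U) (hCc : IsClosed (range γ)) (hCU : range γ ⊆ U)
    (hV : Clo U (range γ) V) (hCV : range γ ⊆ closure V) {a m b : ℝ} (ham : a < m) (hmb : m < b)
    (hb : b < a + 1) : ∃ s ∈ Ioo a b, Accs V (γ s) := by
  obtain ⟨N, hN, hmN, hNC⟩ := nbh hSCA hγ ham hmb hb
  have hmC : γ m ∈ range γ := mem_range_self m
  obtain ⟨p', ⟨hp'C, hp'N⟩, hacc⟩ := hACC.1 Y inferInstance U (range γ) V hU hCc hCU hV (γ m)
    hmC (hCV hmC) N hN hmN
  obtain ⟨s, hs, rfl⟩ := hNC ⟨hp'N, hp'C⟩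
  refine ⟨s, hs, ?_⟩
  obtain ⟨α, h1, h2, h3⟩ := hacc
  exact ⟨α, h1, h2, fun t ht => (h3 t ht).1⟩

/-- the points of a cross-cut -/
theorem cases_A {A V : Set Y} {p q y : Y} (hA : A \ {p, q} ⊆ V) (hy : y ∈ A) :
    y = p ∨ y = q ∨ y ∈ V := by
  by_cases h : y ∈ ({p, q} : Set Y)
  · rcases h with h | h
    · exact Or.inl h
    · exact Or.inr (Or.inl h)
  · exact Or.inr (Or.inr (hA ⟨hy, h⟩))

/-- the second scc -/
theorem theta (hSCA : S_SCA) (hARB : S_ARB) (hGLU : S_GLU) {γ : ℝ → Y} (hγ : Scp γ)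
    {V1 V2 A1 A2 : Set Y} (hd : Disjoint V1 V2) (h1C : Disjoint V1 (range γ))
    (h2C : Disjoint V2 (range γ)) {s1 s2 t1 t2 : ℝ} (h12 : s1 < s2) (h23 : s2 < t1)
    (h34 : t1 < t2) (h45 : t2 < s1 + 1)
    (hA1 : Arc A1 (γ s1) (γ t1)) (hA1V : A1 \ {γ s1, γ t1} ⊆ V1)
    (hA2 : Arc A2 (γ s2) (γ t2)) (hA2V : A2 \ {γ s2, γ t2} ⊆ V2) :
    Scc ((A1 ∪ γ '' Icc t1 t2) ∪ (A2 ∪ γ '' Icc s1 s2)) := by
  obtain ⟨hin, harc⟩ := hSCA Y γ hγ
  have inj := (hin s1).1
  have e : ∀ {s t : ℝ}, s ∈ Ico s1 (s1 + 1) → t ∈ Ico s1 (s1 + 1) → γ s = γ t → s = t :=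
    fun hs ht h => inj hs ht h
  have m1 : s1 ∈ Ico s1 (s1 + 1) := ⟨le_refl _, by linarith⟩
  have m2 : s2 ∈ Ico s1 (s1 + 1) := ⟨by linarith, by linarith⟩
  have m3 : t1 ∈ Ico s1 (s1 + 1) := ⟨by linarith, by linarith⟩
  have m4 : t2 ∈ Ico s1 (s1 + 1) := ⟨by linarith, by linarith⟩
  have mB1 : ∀ {t : ℝ}, t ∈ Icc t1 t2 → t ∈ Ico s1 (s1 + 1) := fun ht =>
    ⟨by linarith [ht.1], by linarith [ht.2]⟩
  have mB2 : ∀ {t : ℝ}, t ∈ Icc s1 s2 → t ∈ Ico s1 (s1 + 1) := fun ht =>
    ⟨ht.1, by linarith [ht.2]⟩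
  have v1 : ∀ {t : ℝ}, γ t ∉ V1 := fun h => Set.disjoint_left.mp h1C h (mem_range_self _)
  have v2 : ∀ {t : ℝ}, γ t ∉ V2 := fun h => Set.disjoint_left.mp h2C h (mem_range_self _)
  have hB1 : Arc (γ '' Icc t1 t2) (γ t1) (γ t2) := (harc t1 t2 h34 (by linarith)).1
  have hB2 : Arc (γ '' Icc s1 s2) (γ s1) (γ s2) := (harc s1 s2 h12 (by linarith)).1
  have hB2' : Arc (γ '' Icc s1 s2) (γ s2) (γ s1) := (hARB Y _ _ _ hB2).2.2.2.1
  have hA1e := hARB Y _ _ _ hA1
  have hA2e := hARB Y _ _ _ hA2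
  have hA2' : Arc A2 (γ t2) (γ s2) := hA2e.2.2.2.1
  have hP : Arc (A1 ∪ γ '' Icc t1 t2) (γ s1) (γ t2) := by
    refine hGLU.2 Y _ _ _ _ _ hA1 hB1 ?_
    ext y
    constructor
    · rintro ⟨hy, t, ht, rfl⟩
      rcases cases_A hA1V hy with h | h | h
      · have h3 := e (mB1 ht) m1 h
        linarith [ht.1]
      · exact h
      · exact absurd h v1
    · rintro rfl
      exact ⟨hA1e.2.2.1, t1, ⟨le_refl _, h34.le⟩, rfl⟩
  have hQ : Arc (A2 ∪ γ '' Icc s1 s2) (γ t2) (γ s1) := by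
    refine hGLU.2 Y _ _ _ _ _ hA2' hB2' ?_
    ext y
    constructor
    · rintro ⟨hy, t, ht, rfl⟩
      rcases cases_A hA2V hy with h | h | h
      · exact h
      · have h3 := e (mB2 ht) m4 h
        linarith [ht.2]
      · exact absurd h v2
    · rintro rfl
      exact ⟨hA2e.2.1, s2, ⟨h12.le, le_refl _⟩, rfl⟩
  have hQ' : Arc (A2 ∪ γ '' Icc s1 s2) (γ s1) (γ t2) := (hARB Y _ _ _ hQ).2.2.2.1
  refine (hGLU.1 Y _ _ _ _ hP hQ' ?_).1
  ext y
  constructor
  · rintro ⟨hy | ⟨t, ht, rfl⟩, hy' | ⟨t', ht', hte⟩⟩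
    · rcases cases_A hA1V hy with rfl | rfl | h
      · rcases cases_A hA2V hy' with h' | h' | h'
        · have h3 := e m1 m2 h'
          linarith
        · have h3 := e m1 m4 h'
          linarith
        · exact absurd h' v2
      · rcases cases_A hA2V hy' with h' | h' | h'
        · have h3 := e m3 m2 h'
          linarith
        · have h3 := e m3 m4 h'
          linarith
        · exact absurd h' v2
      · rcases cases_A hA2V hy' with rfl | rfl | h'
        · exact absurd h v1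
        · exact absurd h v1
        · exact absurd h' (Set.disjoint_left.mp hd h)
    · rcases cases_A hA1V hy with h | h | h
      · exact Or.inl h
      · have h3 := e (mB2 ht') m3 (hte.trans h)
        linarith [ht'.2]
      · rw [← hte] at h
        exact absurd h v1
    · rcases cases_A hA2V hy' with h | h | h
      · have h3 := e (mB1 ht) m2 h
        linarith [ht.1]
      · exact Or.inr h
      · exact absurd h v2
    · have h3 := e (mB2 ht') (mB1 ht) hte
      linarith [ht.1, ht'.2]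
  · rintro (rfl | rfl)
    · exact ⟨Or.inl hA1e.2.1, Or.inr ⟨s1, ⟨le_refl _, h12.le⟩, rfl⟩⟩
    · exact ⟨Or.inr ⟨t2, ⟨h34.le, le_refl _⟩, rfl⟩, Or.inl hA2e.2.2.1⟩

/-- an scc in `U` has two sides, and a connected set misses one of them -/
theorem side (hDEG : S_DEG) (hINQ : S_INQ) (hSCB : S_SCB) [LocallyConnectedSpace Y]
    {U J0 T0 : Set Y} {f0 : Y → ℂ} (hU : Uni U J0 T0 f0) {J S : Set Y} (hJ : Scc J)
    (hJU : J ⊆ U) (hS : IsPreconnected S) (hSU : S ⊆ U \ J) :
    ∃ R : Set Y, Clo U J R ∧ IsPreconnected R ∧ Disjoint R S := by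
  obtain ⟨f, hf⟩ := (hDEG Y J hJ).1
  obtain ⟨Q, hQT, hQU, hQ⟩ := hINQ Y U J0 T0 f0 hU J T0 f hJ hJU hf hU.cptT
    (hU.contr J hJ hJU)
  have hJc : IsClosed J := ((hSCB Y J hJ).1).isClosed
  have hUo : IsOpen U := hU.mem.opn
  have hQclo : Clo U J Q := by
    refine ⟨hQ.opn, hQ.conn.nonempty, ?_, ?_⟩
    · intro y hy
      exact ⟨hQU hy, fun h => Set.disjoint_left.mp hQ.disj hy h⟩
    · rintro y ⟨hy, -⟩
      exact hQ.clos hy
  by_cases hSQ : (S ∩ Q).Nonempty
  · have hSsub : S ⊆ Q := clo_sub hQclo hS hSU hSQ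
    have hne : ∃ y, y ∈ U \ (J ∪ Q) := by
      by_contra hcon
      push Not at hcon
      have hUe : U = J ∪ Q := by
        apply Subset.antisymm
        · intro y hy
          by_contra h
          exact hcon y ⟨hy, h⟩
        · exact union_subset hJU hQU
      have hcU : IsClosed U := by
        rw [hUe]
        exact hQ.cpt.isClosed
      have := hU.ax.conn
      have huniv : U = univ := IsClopen.eq_univ ⟨hcU, hUo⟩ hU.mem.conn.nonempty
      apply hU.ax.ncpt
      rw [← isCompact_univ_iff, ← huniv, hUe]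
      exact hQ.cpt
    obtain ⟨y, hyU, hyJQ⟩ := hne
    have hy : y ∈ U \ J := ⟨hyU, fun h => hyJQ (Or.inl h)⟩
    refine ⟨connectedComponentIn (U \ J) y, clo_comp hUo hJc hy,
      isPreconnected_connectedComponentIn, ?_⟩
    rw [Set.disjoint_left]
    intro z hz hzS
    have h1 : connectedComponentIn (U \ J) y ⊆ Q :=
      clo_sub hQclo isPreconnected_connectedComponentIn (connectedComponentIn_subset _ _)
        ⟨z, hz, hSsub hzS⟩
    exact hyJQ (Or.inr (h1 (mem_connectedComponentIn hy)))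
  · refine ⟨Q, hQclo, hQ.conn.isPreconnected, ?_⟩
    rw [Set.disjoint_left]
    intro z hz hzS
    exact hSQ ⟨z, hzS, hz⟩

end JC3

/-- at most two components -/
theorem t_JC3 : M_JC3 := by
  intro hLPC hSCA hSCB hARB hGLU hDEG hINQ hJC2 hACC Y _ U J0 T0 f0 hU C V1 V2 hC hCU hV1 hV2
    hV1c hV2c hd x hx
  have hlpc : LocallyPathConnectedSpace Y := hLPC Y hU.ax
  by_contra hcon
  have hUo : IsOpen U := hU.mem.opn
  have hCcl : IsClosed C := ((hSCB Y C hC).1).isClosed
  have hx1 : x ∉ V1 := fun h => hcon (Or.inl h)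
  have hx2 : x ∉ V2 := fun h => hcon (Or.inr h)
  set V3 := connectedComponentIn (U \ C) x with hV3d
  have hV3 : Clo U C V3 := JC3.clo_comp hUo hCcl hx
  have hxV3 : x ∈ V3 := mem_connectedComponentIn hx
  have hV3c : IsPreconnected V3 := isPreconnected_connectedComponentIn
  have hd13 : Disjoint V3 V1 := by
    rw [Set.disjoint_left]
    intro z hz hz1
    exact hx1 (JC3.clo_sub hV1 hV3c hV3.2.2.1 ⟨z, hz, hz1⟩ hxV3)
  have hd23 : Disjoint V3 V2 := by
    rw [Set.disjoint_left]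
    intro z hz hz2
    exact hx2 (JC3.clo_sub hV2 hV3c hV3.2.2.1 ⟨z, hz, hz2⟩ hxV3)
  have hc1 : C ⊆ closure V1 := hJC2 Y U J0 T0 f0 hU C V1 hC hCU hV1
  have hc2 : C ⊆ closure V2 := hJC2 Y U J0 T0 f0 hU C V2 hC hCU hV2
  have hc3 : C ⊆ closure V3 := hJC2 Y U J0 T0 f0 hU C V3 hC hCU hV3
  have hdC : ∀ {V : Set Y}, Clo U C V → Disjoint V C := fun hV => by
    rw [Set.disjoint_left]
    intro z hz hzC
    exact (hV.2.2.1 hz).2 hzC
  obtain ⟨γ, hγ, rfl⟩ := id hC
  obtain ⟨s1, hs1, hs1A⟩ := JC3.access (a := 1 / 8) (m := 3 / 16) (b := 1 / 4) hSCA hACC hγ hUo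
    hCcl hCU hV1 hc1 (by norm_num) (by norm_num) (by norm_num)
  obtain ⟨s2, hs2, hs2A⟩ := JC3.access (a := 1 / 4) (m := 5 / 16) (b := 3 / 8) hSCA hACC hγ hUo
    hCcl hCU hV2 hc2 (by norm_num) (by norm_num) (by norm_num)
  obtain ⟨t1, ht1, ht1A⟩ := JC3.access (a := 5 / 8) (m := 11 / 16) (b := 3 / 4) hSCA hACC hγ hUo
    hCcl hCU hV1 hc1 (by norm_num) (by norm_num) (by norm_num)
  obtain ⟨t2, ht2, ht2A⟩ := JC3.access (a := 3 / 4) (m := 13 / 16) (b := 7 / 8) hSCA hACC hγ hUo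
    hCcl hCU hV2 hc2 (by norm_num) (by norm_num) (by norm_num)
  have h12 : s1 < s2 := by linarith [hs1.2, hs2.1]
  have h23 : s2 < t1 := by linarith [hs2.2, ht1.1]
  have h34 : t1 < t2 := by linarith [ht1.2, ht2.1]
  have h45 : t2 < s1 + 1 := by linarith [ht2.2, hs1.1]
  obtain ⟨hin, harc⟩ := hSCA Y γ hγ
  have e : ∀ {s t : ℝ}, s ∈ Ico s1 (s1 + 1) → t ∈ Ico s1 (s1 + 1) → γ s = γ t → s = t :=
    fun hs ht h => (hin s1).1 hs ht h
  have m1 : s1 ∈ Ico s1 (s1 + 1) := ⟨le_refl _, by linarith⟩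
  have m2 : s2 ∈ Ico s1 (s1 + 1) := ⟨by linarith, by linarith⟩
  have m3 : t1 ∈ Ico s1 (s1 + 1) := ⟨by linarith, by linarith⟩
  have m4 : t2 ∈ Ico s1 (s1 + 1) := ⟨by linarith, by linarith⟩
  obtain ⟨A1, hA1, hA1V⟩ := hACC.2 Y hlpc V1 (γ s1) (γ t1) hV1.1 hV1c
    (fun h => by linarith [e m1 m3 h]) hs1A ht1A
  obtain ⟨A2, hA2, hA2V⟩ := hACC.2 Y hlpc V2 (γ s2) (γ t2) hV2.1 hV2c
    (fun h => by linarith [e m2 m4 h]) hs2A ht2A
  have hJ := JC3.theta hSCA hARB hGLU hγ hd (hdC hV1) (hdC hV2) h12 h23 h34 h45 hA1 hA1V hA2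
    hA2V
  set J := (A1 ∪ γ '' Icc t1 t2) ∪ (A2 ∪ γ '' Icc s1 s2) with hJd
  have hJU : J ⊆ U := by
    rintro y ((hy | ⟨t, -, rfl⟩) | (hy | ⟨t, -, rfl⟩))
    · rcases JC3.cases_A hA1V hy with rfl | rfl | h
      · exact hCU (mem_range_self _)
      · exact hCU (mem_range_self _)
      · exact (hV1.2.2.1 h).1
    · exact hCU (mem_range_self _)
    · rcases JC3.cases_A hA2V hy with rfl | rfl | h
      · exact hCU (mem_range_self _)
      · exact hCU (mem_range_self _)
      · exact (hV2.2.2.1 h).1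
    · exact hCU (mem_range_self _)
  have v1 : ∀ {t : ℝ}, γ t ∉ V1 := fun h => (hV1.2.2.1 h).2 (mem_range_self _)
  have v2 : ∀ {t : ℝ}, γ t ∉ V2 := fun h => (hV2.2.2.1 h).2 (mem_range_self _)
  -- a point of the two open arcs is not in `J`
  have hOJ : ∀ r : ℝ, r ∈ Ioo s2 t1 ∪ Ioo t2 (s1 + 1) → γ r ∉ J := by
    intro r hr
    have mr : r ∈ Ico s1 (s1 + 1) := by
      rcases hr with hr | hr
      · exact ⟨by linarith [hr.1], by linarith [hr.2]⟩
      · exact ⟨by linarith [hr.1], hr.2⟩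
    have hr' : r ≠ s1 ∧ r ≠ s2 ∧ r ≠ t1 ∧ r ≠ t2 := by
      rcases hr with hr | hr
      · refine ⟨?_, ?_, ?_, ?_⟩ <;> intro h <;> linarith [hr.1, hr.2]
      · refine ⟨?_, ?_, ?_, ?_⟩ <;> intro h <;> linarith [hr.1, hr.2]
    rintro ((hy | ⟨t, ht, hte⟩) | (hy | ⟨t, ht, hte⟩))
    · rcases JC3.cases_A hA1V hy with h | h | h
      · exact hr'.1 (e mr m1 h)
      · exact hr'.2.2.1 (e mr m3 h)
      · exact v1 h
    · have h3 := e (s := t) (t := r) ⟨by linarith [ht.1], by linarith [ht.2]⟩ mr hte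
      subst h3
      rcases hr with hr | hr
      · linarith [ht.1, hr.2]
      · linarith [ht.2, hr.1]
    · rcases JC3.cases_A hA2V hy with h | h | h
      · exact hr'.2.1 (e mr m2 h)
      · exact hr'.2.2.2 (e mr m4 h)
      · exact v2 h
    · have h3 := e (s := t) (t := r) ⟨ht.1, by linarith [ht.2]⟩ mr hte
      subst h3
      rcases hr with hr | hr
      · linarith [ht.2, hr.1]
      · linarith [ht.2, hr.1]
  -- the third side with the two open arcs
  set S := V3 ∪ γ '' (Ioo s2 t1 ∪ Ioo t2 (s1 + 1)) with hSd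
  have hS : IsPreconnected S := by
    refine hV3c.subset_closure subset_union_left (union_subset subset_closure ?_)
    exact (image_subset_range _ _).trans hc3
  have hSU : S ⊆ U \ J := by
    rintro y (hy | ⟨r, hr, rfl⟩)
    · refine ⟨(hV3.2.2.1 hy).1, ?_⟩
      have hyC : y ∉ range γ := (hV3.2.2.1 hy).2
      rintro ((hy' | ⟨t, -, rfl⟩) | (hy' | ⟨t, -, rfl⟩))
      · rcases JC3.cases_A hA1V hy' with rfl | rfl | h
        · exact hyC (mem_range_self _)
        · exact hyC (mem_range_self _)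
        · exact Set.disjoint_left.mp hd13 hy h
      · exact hyC (mem_range_self _)
      · rcases JC3.cases_A hA2V hy' with rfl | rfl | h
        · exact hyC (mem_range_self _)
        · exact hyC (mem_range_self _)
        · exact Set.disjoint_left.mp hd23 hy h
      · exact hyC (mem_range_self _)
    · exact ⟨hCU (mem_range_self _), hOJ r hr⟩
  obtain ⟨R, hR, hRc, hRS⟩ := JC3.side hDEG hINQ hSCB hU hJ hJU hS hSU
  have hJR : J ⊆ closure R := hJC2 Y U J0 T0 f0 hU J R hJ hJU hR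
  have hRC : R ⊆ U \ range γ := by
    intro y hy
    refine ⟨(hR.2.2.1 hy).1, ?_⟩
    intro hyC
    rw [← (hin s1).2] at hyC
    obtain ⟨t, ht, rfl⟩ := hyC
    have hnJ : γ t ∉ J := (hR.2.2.1 hy).2
    have hnS : γ t ∉ S := fun h => Set.disjoint_left.mp hRS hy h
    rcases le_or_gt t s2 with h1 | h1
    · exact hnJ (Or.inr (Or.inr ⟨t, ⟨ht.1, h1⟩, rfl⟩))
    rcases lt_or_ge t t1 with h2 | h2
    · exact hnS (Or.inr ⟨t, Or.inl ⟨h1, h2⟩, rfl⟩)
    rcases le_or_gt t t2 with h3 | h3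
    · exact hnJ (Or.inl (Or.inr ⟨t, ⟨h2, h3⟩, rfl⟩))
    rcases ht.2.lt_or_eq with h4 | h4
    · exact hnS (Or.inr ⟨t, Or.inr ⟨h3, h4⟩, rfl⟩)
    · have hper : γ (s1 + 1) = γ s1 := hγ.2.1 s1
      rw [h4, hper] at hnJ
      exact hnJ (Or.inr (Or.inr ⟨s1, ⟨le_refl _, h12.le⟩, rfl⟩))
  have key : ∀ {A V : Set Y} {p q : Y}, Arc A p q → A \ {p, q} ⊆ V → A ⊆ J → Clo U (range γ) V →
      R ⊆ V := by
    intro A V p q hA hAV hAJ hV
    obtain ⟨z, hz⟩ := ((hARB Y A p q hA).2.2.2.2.2.2.2.2.1).nonempty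
    obtain ⟨u, hu1, hu2⟩ := mem_closure_iff.mp (hJR (hAJ hz.1)) V hV.1 (hAV hz)
    exact JC3.clo_sub hV hRc hRC ⟨u, hu2, hu1⟩
  have hR1 : R ⊆ V1 := key hA1 hA1V (subset_union_left.trans subset_union_left) hV1
  have hR2 : R ⊆ V2 := key hA2 hA2V (subset_union_left.trans subset_union_right) hV2
  obtain ⟨z, hz⟩ := hR.2.1
  exact Set.disjoint_left.mp hd (hR1 hz) (hR2 hz)

end BBP


end

section

/-!
# BBP, block B: LOG, logarithms on connected open sets from logarithms on simple closed curves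
-/

set_option autoImplicit false

namespace BBP

open Set Topology
open Pool.Agent.LIX (CLog)

namespace LOG

variable {Y : Type} [MetricSpace Y]

/-- the piece of a curve between two parameters is an arc -/
theorem arc_image {α : ℝ → Y} (hα : ContinuousOn α (Icc 0 1)) (hi : InjOn α (Icc 0 1)) {s t : ℝ}
    (h0 : 0 ≤ s) (hst : s < t) (h1 : t ≤ 1) : Arc (α '' Icc s t) (α s) (α t) := by
  have hpos : 0 < t - s := by linarith
  have hmaps : ∀ u ∈ Icc (0 : ℝ) 1, s + u * (t - s) ∈ Icc s t := by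
    intro u hu
    constructor
    · nlinarith [hu.1]
    · nlinarith [hu.2]
  have hsub : Icc s t ⊆ Icc (0 : ℝ) 1 := Icc_subset_Icc h0 h1
  refine ⟨fun u => α (s + u * (t - s)), ?_, ?_, ?_, ?_, ?_⟩
  · refine hα.comp (by fun_prop) ?_
    intro u hu
    exact hsub (hmaps u hu)
  · intro u hu v hv huv
    have h2 := hi (hsub (hmaps u hu)) (hsub (hmaps v hv)) huv
    have h3 : u * (t - s) = v * (t - s) := by linarith
    exact mul_right_cancel₀ hpos.ne' h3
  · simp
  · simp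
  · ext y
    constructor
    · rintro ⟨r, hr, rfl⟩
      refine ⟨(r - s) / (t - s), ⟨div_nonneg (by linarith [hr.1]) hpos.le, ?_⟩, ?_⟩
      · rw [div_le_one hpos]
        linarith [hr.2]
      · simp only
        rw [div_mul_cancel₀ _ hpos.ne']
        congr 1
        ring
    · rintro ⟨u, hu, rfl⟩
      exact ⟨_, hmaps u hu, rfl⟩

/-- increments along two arcs with the same ends -/
theorem arc_inc (hARB : S_ARB) (hGLU : S_GLU) (hTRI : S_TRI) (hINC : S_INC) {Om : Set Y}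
    {f : Y → ℂ} (hC : ∀ C : Set Y, Scc C → C ⊆ Om → CLog C f) {A A' : Set Y} {a b : Y}
    (hA : Arc A a b) (hA' : Arc A' a b) (hAO : A ⊆ Om) (hAO' : A' ⊆ Om) {l l' : Y → ℂ}
    (hl : ContinuousOn l A) (hle : ∀ x ∈ A, Complex.exp (l x) = f x)
    (hl' : ContinuousOn l' A') (hle' : ∀ x ∈ A', Complex.exp (l' x) = f x) :
    l' b - l' a = l b - l a := by
  obtain ⟨-, haA, hbA, -, hAc, -, -, hsubarc, -⟩ := hARB Y A a b hA
  obtain ⟨α, hαc, hαi, hα0, hα1, hαA⟩ := hA'
  have hmem : ∀ t ∈ Icc (0 : ℝ) 1, α t ∈ A' := fun t ht => by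
    rw [hαA]
    exact mem_image_of_mem _ ht
  have hθc : ContinuousOn (fun t => l' (α t)) (Icc 0 1) := hl'.comp hαc hmem
  have key := hTRI Y A α l (fun t => l' (α t)) hAc.isClosed hαc hl hθc
    (fun t ht hA2 => by
      rw [hle' _ (hmem t ht), hle _ hA2])
    (by rw [hα0]; exact haA) (by rw [hα1]; exact hbA) ?_
  · simp only [hα0, hα1] at key
    exact key
  intro s t hs0 hst ht1 hsA htA hno
  have hsI : s ∈ Icc (0 : ℝ) 1 := ⟨hs0, by linarith⟩
  have htI : t ∈ Icc (0 : ℝ) 1 := ⟨by linarith, ht1⟩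
  have hne : α s ≠ α t := fun h => hst.ne (hαi hsI htI h)
  obtain ⟨B, hBA, hB⟩ := hsubarc _ hsA _ htA hne
  obtain ⟨-, hsB, htB, -, -, hBconn, -⟩ := hARB Y B _ _ hB
  have hP := arc_image hαc hαi hs0 hst ht1
  have hinter : B ∩ α '' Icc s t = {α s, α t} := by
    apply Subset.antisymm
    · rintro x ⟨hxB, r, hr, rfl⟩
      rcases eq_or_lt_of_le hr.1 with h | h
      · rw [← h]
        exact Or.inl rfl
      · rcases eq_or_lt_of_le hr.2 with h' | h'
        · rw [h']
          exact Or.inr rfl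
        · exact absurd (hBA hxB) (hno r ⟨h, h'⟩)
    · rintro x (rfl | rfl)
      · exact ⟨hsB, mem_image_of_mem _ (left_mem_Icc.2 hst.le)⟩
      · exact ⟨htB, mem_image_of_mem _ (right_mem_Icc.2 hst.le)⟩
  have hscc := (hGLU.1 Y B _ _ _ hB hP hinter).1
  have hPA : α '' Icc s t ⊆ A' := by
    rintro x ⟨r, hr, rfl⟩
    exact hmem r ⟨le_trans hs0 hr.1, le_trans hr.2 ht1⟩
  have hsubO : B ∪ α '' Icc s t ⊆ Om :=
    union_subset (hBA.trans hAO) (hPA.trans hAO')
  have hIs : Icc s t ⊆ Icc (0 : ℝ) 1 := Icc_subset_Icc hs0 ht1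
  exact hINC Y (B ∪ α '' Icc s t) B f l α (fun t => l' (α t)) s t hst.le (hαc.mono hIs)
    (hθc.mono hIs) (fun r hr => hle' _ (hmem r (hIs hr))) (hl.mono hBA)
    (fun x hx => hle x (hBA hx)) hBconn.isPreconnected hsB htB (hC _ hscc hsubO)
    subset_union_right subset_union_left

/-- `z` is the increment of the logarithm of `f` from `a` to `b` along an arc in `Om` -/
def IsInc (Om : Set Y) (f : Y → ℂ) (a b : Y) (z : ℂ) : Prop :=
  (a = b ∧ z = 0) ∨ (a ≠ b ∧ ∃ A ⊆ Om, Arc A a b ∧ ∃ l : Y → ℂ, ContinuousOn l A ∧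
    (∀ x ∈ A, Complex.exp (l x) = f x) ∧ z = l b - l a)

theorem IsInc.uniq (hARB : S_ARB) (hGLU : S_GLU) (hTRI : S_TRI) (hINC : S_INC) {Om : Set Y}
    {f : Y → ℂ} (hC : ∀ C : Set Y, Scc C → C ⊆ Om → CLog C f) {a b : Y} {z z' : ℂ}
    (h : IsInc Om f a b z) (h' : IsInc Om f a b z') : z = z' := by
  rcases h with ⟨hab, hz⟩ | ⟨hab, A, hAO, hA, l, hl, hle, hz⟩
  · rcases h' with ⟨-, hz'⟩ | ⟨hab', -⟩
    · rw [hz, hz']
    · exact absurd hab hab'
  · rcases h' with ⟨hab', -⟩ | ⟨-, A', hAO', hA', l', hl', hle', hz'⟩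
    · exact absurd hab' hab
    · rw [hz, hz']
      exact (arc_inc hARB hGLU hTRI hINC hC hA hA' hAO hAO' hl hle hl' hle').symm

/-- increments along subarcs -/
theorem isInc_of_mem (hARB : S_ARB) {Om : Set Y} {f : Y → ℂ} {A : Set Y} {a b : Y}
    (hA : Arc A a b) (hAO : A ⊆ Om) {l : Y → ℂ} (hl : ContinuousOn l A)
    (hle : ∀ x ∈ A, Complex.exp (l x) = f x) {x y : Y} (hx : x ∈ A) (hy : y ∈ A) :
    IsInc Om f x y (l y - l x) := by
  by_cases hxy : x = y
  · exact Or.inl ⟨hxy, by rw [hxy, sub_self]⟩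
  · obtain ⟨-, -, -, -, -, -, -, hsub, -⟩ := hARB Y A a b hA
    obtain ⟨B, hBA, hB⟩ := hsub x hx y hy hxy
    exact Or.inr ⟨hxy, B, hBA.trans hAO, hB, l, hl.mono hBA, fun u hu => hle u (hBA hu), rfl⟩

theorem IsInc.rev (hARB : S_ARB) {Om : Set Y} {f : Y → ℂ} {a b : Y} {z : ℂ}
    (h : IsInc Om f a b z) : IsInc Om f b a (-z) := by
  rcases h with ⟨hab, hz⟩ | ⟨hab, A, hAO, hA, l, hl, hle, hz⟩
  · exact Or.inl ⟨hab.symm, by rw [hz, neg_zero]⟩
  · obtain ⟨-, ha, hb, -⟩ := hARB Y A a b hA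
    have h2 := isInc_of_mem hARB hA hAO hl hle hb ha
    rw [hz, neg_sub]
    exact h2

theorem IsInc.add (hARB : S_ARB) (hGLU : S_GLU) (hTRI : S_TRI) (hINC : S_INC) {Om : Set Y}
    {f : Y → ℂ} (hfc : ContinuousOn f Om) (hf0 : ∀ x ∈ Om, f x ≠ 0)
    (hC : ∀ C : Set Y, Scc C → C ⊆ Om → CLog C f) {a b c : Y} {z z' : ℂ}
    (h : IsInc Om f a b z) (h' : IsInc Om f b c z') : IsInc Om f a c (z + z') := by
  rcases h with ⟨hab, hz⟩ | ⟨hab, A, hAO, hA, l, hl, hle, hz⟩
  · rw [hab, hz, zero_add]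
    exact h'
  rcases h' with ⟨hbc, hz'⟩ | ⟨hbc, B, hBO, hB, k, hk, hke, hz'⟩
  · rw [← hbc, hz', add_zero]
    exact Or.inr ⟨hab, A, hAO, hA, l, hl, hle, hz⟩
  obtain ⟨-, haA, hbA, hAr, hAc, -, -, hAsub, -⟩ := hARB Y A a b hA
  obtain ⟨-, hbB, hcB, hBr, -⟩ := hARB Y B b c hB
  have inA : ∀ {x y : Y}, x ∈ A → y ∈ A → IsInc Om f x y (l y - l x) := fun hx hy =>
    isInc_of_mem hARB hA hAO hl hle hx hy
  have inB : ∀ {x y : Y}, x ∈ B → y ∈ B → IsInc Om f x y (k y - k x) := fun hx hy =>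
    isInc_of_mem hARB hB hBO hk hke hx hy
  by_cases hcA : c ∈ A
  · have h1 : k c - k b = l c - l b :=
      IsInc.uniq hARB hGLU hTRI hINC hC (inB hbB hcB) (inA hbA hcA)
    have h2 : z + z' = l c - l a := by
      rw [hz, hz', h1]
      ring
    rw [h2]
    exact inA haA hcA
  · obtain ⟨-, -, -, -, -, -, -, -, -, -, -, hhit, -⟩ := hARB Y B c b hBr
    obtain ⟨w, hwA, B', hB'B, hB', hB'A⟩ := hhit A hAc.isClosed hbA hcA
    obtain ⟨-, hcB', hwB', hB'r, -⟩ := hARB Y B' c w hB'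
    have hwB : w ∈ B := hB'B hwB'
    have h1 : l b - l w = k b - k w :=
      IsInc.uniq hARB hGLU hTRI hINC hC (inA hwA hbA) (inB hwB hbB)
    have h2 : z + z' = (l w - l a) + (k c - k w) := by
      rw [hz, hz']
      linear_combination h1
    rw [h2]
    by_cases hwa : a = w
    · rw [← hwa, sub_self, zero_add]
      exact inB (hwa ▸ hwB) hcB
    · obtain ⟨A', hA'A, hA'⟩ := hAsub a haA w hwA hwa
      obtain ⟨-, haA', hwA', -⟩ := hARB Y A' a w hA'
      have hint : A' ∩ B' = {w} := by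
        apply Subset.antisymm
        · rintro x ⟨hx1, hx2⟩
          rw [← hB'A]
          exact ⟨hx2, hA'A hx1⟩
        · rintro x rfl
          exact ⟨hwA', hwB'⟩
      have hU : Arc (A' ∪ B') a c := hGLU.2 Y A' B' a w c hA' hB'r hint
      have hUO : A' ∪ B' ⊆ Om := union_subset (hA'A.trans hAO) (hB'B.trans hBO)
      obtain ⟨-, -, -, -, -, -, hlog, -⟩ := hARB Y _ a c hU
      obtain ⟨j, hj, hje⟩ := hlog f (hfc.mono hUO) fun x hx => hf0 x (hUO hx)
      have inU : ∀ {x y : Y}, x ∈ A' ∪ B' → y ∈ A' ∪ B' → IsInc Om f x y (j y - j x) :=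
        fun hx hy => isInc_of_mem hARB hU hUO hj hje hx hy
      have e1 : l w - l a = j w - j a :=
        IsInc.uniq hARB hGLU hTRI hINC hC (inA haA hwA) (inU (Or.inl haA') (Or.inl hwA'))
      have e2 : k c - k w = j c - j w :=
        IsInc.uniq hARB hGLU hTRI hINC hC (inB hwB hcB) (inU (Or.inl hwA') (Or.inr hcB'))
      have e3 : (l w - l a) + (k c - k w) = j c - j a := by
        rw [e1, e2]
        ring
      rw [e3]
      exact inU (Or.inl haA') (Or.inr hcB')

theorem IsInc.exp_eq (hARB : S_ARB) {Om : Set Y} {f : Y → ℂ} (hf0 : ∀ x ∈ Om, f x ≠ 0) {a b : Y}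
    {z : ℂ} (ha : a ∈ Om) (h : IsInc Om f a b z) : Complex.exp z = f b / f a := by
  rcases h with ⟨hab, hz⟩ | ⟨hab, A, hAO, hA, l, hl, hle, hz⟩
  · rw [hz, ← hab, div_self (hf0 a ha), Complex.exp_zero]
  · obtain ⟨-, haA, hbA, -⟩ := hARB Y A a b hA
    rw [hz, Complex.exp_sub, hle b hbA, hle a haA]

end LOG

theorem t_LOG : M_LOG := by
  intro hPTA hARB hGLU hTRI hINC Y _ hLPC Om f hO hconn hfc hf0 hC
  have hpc : IsPathConnected Om := hO.isConnected_iff_isPathConnected.1 hconn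
  have hex : ∀ (N : Set Y), N ⊆ Om → ∀ a b : Y, JoinedIn N a b →
      ∃ z : ℂ, LOG.IsInc Om f a b z := by
    intro N hN a b hab
    by_cases h : a = b
    · exact ⟨0, Or.inl ⟨h, rfl⟩⟩
    · obtain ⟨A, hAN, hA⟩ := hPTA.2 Y N a b hab h
      obtain ⟨-, -, -, -, -, -, hlog, -⟩ := hARB Y A a b hA
      have hAO := hAN.trans hN
      obtain ⟨l, hl, hle⟩ := hlog f (hfc.mono hAO) fun x hx => hf0 x (hAO hx)
      exact ⟨l b - l a, Or.inr ⟨h, A, hAO, hA, l, hl, hle, rfl⟩⟩
  obtain ⟨x0, hx0⟩ := hconn.nonempty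
  have hex2 : ∀ x : Y, ∃ z : ℂ, x ∈ Om → LOG.IsInc Om f x0 x z := by
    intro x
    by_cases hx : x ∈ Om
    · obtain ⟨z, hz⟩ := hex Om Subset.rfl x0 x (hpc.joinedIn x0 hx0 x hx)
      exact ⟨z, fun _ => hz⟩
    · exact ⟨0, fun h => absurd h hx⟩
  choose I hI using hex2
  refine ⟨fun x => Complex.log (f x0) + I x, ?_, ?_⟩
  · intro x1 hx1
    apply ContinuousAt.continuousWithinAt
    have hf1 : f x1 ≠ 0 := hf0 x1 hx1
    have hcf : ContinuousAt f x1 := (hfc x1 hx1).continuousAt (hO.mem_nhds hx1)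
    have hcont : ContinuousAt (fun x => ‖f x / f x1 - 1‖) x1 :=
      ((hcf.div_const _).sub continuousAt_const).norm
    have hval : ‖f x1 / f x1 - 1‖ < 1 := by
      rw [div_self hf1, sub_self, norm_zero]
      exact zero_lt_one
    have hev : ∀ᶠ x in 𝓝 x1, x ∈ Om ∧ ‖f x / f x1 - 1‖ < 1 := by
      have hO2 : ∀ᶠ x in 𝓝 x1, x ∈ Om := hO.mem_nhds hx1
      exact hO2.and (hcont.eventually_lt_const hval)
    obtain ⟨N, ⟨hN1, hN2⟩, hN3⟩ := (path_connected_basis x1).mem_iff.1 hev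
    have hN3' : N ⊆ {x | x ∈ Om ∧ ‖f x / f x1 - 1‖ < 1} := hN3
    have hNO : N ⊆ Om := fun x hx => (hN3' hx).1
    have hlogN : CLog N f := by
      have h1 : CLog N fun x => f x / f x1 :=
        Pool.Agent.LIX.cLog_of_near ((hfc.mono hNO).div_const _) fun x hx => (hN3' hx).2
      refine (h1.mul (Pool.Agent.LIX.cLog_const hf1)).congr fun x _ => ?_
      rw [div_mul_cancel₀ _ hf1]
    obtain ⟨lam, hlam, hlame⟩ := hlogN
    have hx1N : x1 ∈ N := mem_of_mem_nhds hN1
    have hloc : ∀ x ∈ N, I x = I x1 + (lam x - lam x1) := by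
      intro x hx
      have hinc : LOG.IsInc Om f x1 x (lam x - lam x1) := by
        by_cases h : x1 = x
        · exact Or.inl ⟨h, by rw [h, sub_self]⟩
        · obtain ⟨A, hAN, hA⟩ := hPTA.2 Y N x1 x (hN2.joinedIn x1 hx1N x hx) h
          exact Or.inr ⟨h, A, hAN.trans hNO, hA, lam, hlam.mono hAN,
            fun u hu => hlame u (hAN hu), rfl⟩
      exact LOG.IsInc.uniq hARB hGLU hTRI hINC hC (hI x (hNO hx))
        (LOG.IsInc.add hARB hGLU hTRI hINC hfc hf0 hC (hI x1 hx1) hinc)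
    have hc : ContinuousAt (fun x => Complex.log (f x0) + (I x1 + (lam x - lam x1))) x1 := by
      have h2 : ContinuousAt lam x1 := (hlam x1 hx1N).continuousAt hN1
      exact continuousAt_const.add (continuousAt_const.add (h2.sub continuousAt_const))
    refine hc.congr ?_
    filter_upwards [hN1] with x hx
    rw [hloc x hx]
  · intro x hx
    simp only
    rw [Complex.exp_add, Complex.exp_log (hf0 x0 hx0),
      LOG.IsInc.exp_eq hARB hf0 hx0 (hI x hx), mul_div_cancel₀ _ (hf0 x0 hx0)]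

end BBP


end

section

/-!
# BBP, module MMN: minimality of minimal membranes
-/

set_option autoImplicit false

namespace BBP

open Set Topology

theorem t_MMN : M_MMN := by
  intro hCMP Y _ hA L Q f hM W hWo hWn hWQ
  by_contra hne
  have hLW : L ⊆ (L ∪ Q) \ W := fun x hx =>
    ⟨Or.inl hx, fun hxW => Set.disjoint_left.mp hM.disj (hWQ hxW) hx⟩
  have hcK : IsCompact ((L ∪ Q) \ W) := hM.cpt.diff hWo
  obtain ⟨Q', hQ'K, hM'⟩ := hCMP Y hA L ((L ∪ Q) \ W) f hM.cptL hcK hLW hM.cont hM.ne hne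
  have hQ'Q : Q' ⊆ Q := fun x hx => by
    rcases (hQ'K hx).1 with h | h
    · exact absurd h (Set.disjoint_left.mp hM'.disj hx)
    · exact h
  have hsub : Q ⊆ Q' := by
    refine hM.conn.isPreconnected.subset_of_closure_inter_subset hM'.opn ?_ ?_
    · obtain ⟨x, hx⟩ := hM'.conn.nonempty
      exact ⟨x, hQ'Q hx, hx⟩
    · rintro x ⟨hxc, hxQ⟩
      rcases hM'.clos hxc with h | h
      · exact h
      · exact absurd h (Set.disjoint_left.mp hM.disj hxQ)
  obtain ⟨w, hw⟩ := hWn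
  exact (hQ'K (hsub (hWQ hw))).2 hw

end BBP


end

section

/-!
# BBP, module NRM: small neighbourhoods are insides of minimal membranes
-/

set_option autoImplicit false

namespace BBP

open Set Topology CTO

theorem t_NRM : S_NRM := by
  classical
  intro Y _ L Q f F y hM hy hF B hB hBc hyB hBQ
  have hLQ : IsCompact (L ∪ Q) := hM.cpt
  have hcB : IsCompact (closure B) :=
    hLQ.of_isClosed_subset isClosed_closure (hBQ.trans subset_union_right)
  have hsub : closure B \ B ⊆ (L ∪ Q) \ {y} := by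
    intro x hx
    refine ⟨Or.inr (hBQ hx.1), ?_⟩
    rintro rfl
    exact hx.2 hyB
  have hun : (closure B \ B) ∪ B = closure B := by
    rw [sdiff_union_self]
    exact union_eq_self_of_subset_right subset_closure
  refine ⟨hF.1.mono hsub, fun x hx => hF.2.1 x (hsub hx), hcB.diff hB, hB, hBc, ?_, ?_, ?_, ?_⟩
  · exact disjoint_sdiff_right
  · intro x hx
    by_cases h : x ∈ B
    · exact Or.inl h
    · exact Or.inr ⟨hx, h⟩
  · rw [hun]
    exact hcB
  · rintro ⟨G, hG1, hG2, hG3⟩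
    rw [hun] at hG1 hG2
    apply hM.ess
    refine ⟨fun x => if x ∈ closure B then G x else F x, ?_, ?_, ?_⟩
    · have h1 : L ∪ Q = closure B ∪ (L ∪ Q) \ B := by
        ext x
        constructor
        · intro hx
          by_cases h : x ∈ B
          · exact Or.inl (subset_closure h)
          · exact Or.inr ⟨hx, h⟩
        · rintro (hx | hx)
          · exact Or.inr (hBQ hx)
          · exact hx.1
      rw [h1]
      refine ContinuousOn.union_of_isClosed ?_ ?_ isClosed_closure (hLQ.diff hB).isClosed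
      · refine hG1.congr fun x hx => ?_
        show (if x ∈ closure B then G x else F x) = G x
        rw [if_pos hx]
      · have h2 : ContinuousOn F ((L ∪ Q) \ B) := by
          refine hF.1.mono fun x hx => ⟨hx.1, ?_⟩
          rintro rfl
          exact hx.2 hyB
        refine h2.congr fun x hx => ?_
        show (if x ∈ closure B then G x else F x) = F x
        by_cases h : x ∈ closure B
        · rw [if_pos h]
          exact hG3 ⟨h, hx.2⟩
        · rw [if_neg h]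
    · intro x hx
      show (if x ∈ closure B then G x else F x) ≠ 0
      by_cases h : x ∈ closure B
      · rw [if_pos h]
        exact hG2 x h
      · rw [if_neg h]
        refine hF.2.1 x ⟨hx, ?_⟩
        rintro rfl
        exact h (subset_closure hyB)
    · intro x hx
      show (if x ∈ closure B then G x else F x) = f x
      have h : x ∉ closure B := fun h => disjoint_left.1 hM.disj (hBQ h) hx
      rw [if_neg h]
      exact hF.2.2 hx

end BBP


end

section

/-!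
# Module BBP_NSP: arcs and points do not separate a minimal membrane
-/

set_option autoImplicit false

namespace BBP

open Set Topology
open Pool.Agent.LIX (CLog)

namespace NSP

/-- a function on the union of two disjoint compact sets, extended to the whole space -/
theorem tietze {Y : Type} [MetricSpace Y] (L A : Set Y) (l : Y → ℂ) (hL : IsCompact L)
    (hA : IsCompact A) (hd : Disjoint A L) (hl : ContinuousOn l A) :
    ∃ g : Y → ℂ, Continuous g ∧ (∀ x ∈ A, g x = l x) ∧ ∀ x ∈ L, g x = 0 := by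
  classical
  set m : Y → ℂ := fun x => if x ∈ A then l x else 0 with hm
  have h1 : ContinuousOn m A := hl.congr fun x hx => if_pos hx
  have h2 : ContinuousOn m L := by
    have h3 : ∀ x ∈ L, m x = 0 := fun x hx => if_neg fun h => disjoint_left.1 hd h hx
    exact continuousOn_const.congr h3
  have h3 : ContinuousOn m (A ∪ L) := h1.union_of_isClosed h2 hA.isClosed hL.isClosed
  obtain ⟨g, hg⟩ := ContinuousMap.exists_restrict_eq (hA.isClosed.union hL.isClosed)
    (⟨(A ∪ L).domRestrict m, continuousOn_iff_continuous_domRestrict.1 h3⟩ :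
      C((A ∪ L : Set Y), ℂ))
  have h4 : ∀ x (hx : x ∈ A ∪ L), g x = m x := fun x hx =>
    congrArg (fun h : C((A ∪ L : Set Y), ℂ) => h ⟨x, hx⟩) hg
  refine ⟨g, g.continuous, fun x hx => ?_, fun x hx => ?_⟩
  · rw [h4 x (Or.inl hx)]
    exact if_pos hx
  · rw [h4 x (Or.inr hx)]
    exact if_neg fun h => disjoint_left.1 hd h hx

end NSP

theorem t_NSP : M_NSP := by
  intro hMMN Y _ hAx L Q A f hM hAQ hA hlog
  classical
  have hne : (Q \ A).Nonempty := by
    by_contra h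
    rw [not_nonempty_iff_eq_empty, sdiff_eq_empty] at h
    have hQA : Q = A := Subset.antisymm h hAQ
    have hcl : IsClopen Q := ⟨by rw [hQA]; exact hA.isClosed, hM.opn⟩
    have := hAx.conn
    have h1 := hcl.eq_univ hM.conn.nonempty
    apply hAx.ncpt
    rw [← isCompact_univ_iff, ← h1, hQA]
    exact hA
  refine ⟨hne, ?_⟩
  intro u v hu hv huv hsu hsv
  by_contra hcon
  have hopn : IsOpen (Q \ A) := hM.opn.sdiff hA.isClosed
  set V1 : Set Y := (Q \ A) ∩ u with hV1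
  set V2 : Set Y := (Q \ A) ∩ v with hV2
  have ho1 : IsOpen V1 := hopn.inter hu
  have ho2 : IsOpen V2 := hopn.inter hv
  have hdis : ∀ x, x ∈ V1 → x ∉ V2 := fun x h1 h2 => hcon ⟨x, h1.1, h1.2, h2.2⟩
  have hV1Q : V1 ⊆ Q := fun x hx => hx.1.1
  have hV2Q : V2 ⊆ Q := fun x hx => hx.1.1
  have hLQ : ∀ x ∈ L, x ∉ Q := fun x hx h => disjoint_left.1 hM.disj h hx
  obtain ⟨F1, hc1, hn1, he1⟩ := hMMN Y hAx L Q f hM V2 ho2 hsv hV2Q
  obtain ⟨F2, hc2, hn2, he2⟩ := hMMN Y hAx L Q f hM V1 ho1 hsu hV1Q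
  have hcl1 : IsClosed ((L ∪ Q) \ V2) := hM.cpt.isClosed.sdiff ho2
  have hcl2 : IsClosed ((L ∪ Q) \ V1) := hM.cpt.isClosed.sdiff ho1
  have hA1 : ∀ x ∈ A, x ∈ (L ∪ Q) \ V2 := fun x hx => ⟨Or.inr (hAQ hx), fun h => h.1.2 hx⟩
  have hA2 : ∀ x ∈ A, x ∈ (L ∪ Q) \ V1 := fun x hx => ⟨Or.inr (hAQ hx), fun h => h.1.2 hx⟩
  have hL1 : ∀ x ∈ L, x ∈ (L ∪ Q) \ V2 := fun x hx => ⟨Or.inl hx, fun h => hLQ x hx (hV2Q h)⟩
  have hL2 : ∀ x ∈ L, x ∈ (L ∪ Q) \ V1 := fun x hx => ⟨Or.inl hx, fun h => hLQ x hx (hV1Q h)⟩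
  obtain ⟨l, hlc, hle⟩ := hlog (fun x => F1 x / F2 x)
    ((hc1.mono hA1).div (hc2.mono hA2) fun x hx => hn2 x (hA2 x hx))
    fun x hx => div_ne_zero (hn1 x (hA1 x hx)) (hn2 x (hA2 x hx))
  obtain ⟨g, hg, hgA, hgL⟩ := NSP.tietze L A l hM.cptL hA
    (disjoint_left.2 fun x hx h => hLQ x h (hAQ hx)) hlc
  apply hM.ess
  set F : Y → ℂ := fun x => if x ∈ (L ∪ Q) \ V2 then F1 x else F2 x * Complex.exp (g x) with hF
  have hF1 : ∀ x ∈ (L ∪ Q) \ V2, F x = F1 x := fun x hx => if_pos hx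
  have hF2 : ∀ x ∈ (L ∪ Q) \ V1, F x = F2 x * Complex.exp (g x) := by
    intro x hx
    by_cases h : x ∈ (L ∪ Q) \ V2
    · rw [hF1 x h]
      have hx0 : x ∈ L ∨ x ∈ A := by
        rcases hx.1 with h1 | h1
        · exact Or.inl h1
        · by_cases h2 : x ∈ A
          · exact Or.inr h2
          · exfalso
            rcases huv ⟨h1, h2⟩ with h3 | h3
            · exact hx.2 ⟨⟨h1, h2⟩, h3⟩
            · exact h.2 ⟨⟨h1, h2⟩, h3⟩
      rcases hx0 with h1 | h1
      · rw [hgL x h1, Complex.exp_zero, mul_one, he1 h1, he2 h1]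
      · rw [hgA x h1, hle x h1, mul_div_cancel₀]
        exact hn2 x hx
    · exact if_neg h
  have hun : L ∪ Q = ((L ∪ Q) \ V2) ∪ ((L ∪ Q) \ V1) := by
    apply Subset.antisymm
    · intro x hx
      by_cases h : x ∈ V2
      · exact Or.inr ⟨hx, fun h1 => hdis x h1 h⟩
      · exact Or.inl ⟨hx, h⟩
    · rintro x (h | h)
      · exact h.1
      · exact h.1
  refine ⟨F, ?_, ?_, ?_⟩
  · rw [hun]
    have a1 : ContinuousOn F ((L ∪ Q) \ V2) := hc1.congr hF1
    have a2 : ContinuousOn F ((L ∪ Q) \ V1) :=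
      (hc2.mul (Complex.continuous_exp.comp hg).continuousOn).congr hF2
    exact a1.union_of_isClosed a2 hcl1 hcl2
  · intro x hx
    rw [hun] at hx
    rcases hx with h | h
    · rw [hF1 x h]
      exact hn1 x h
    · rw [hF2 x h]
      exact mul_ne_zero (hn2 x h) (Complex.exp_ne_zero _)
  · intro x hx
    rw [hF1 x (hL1 x hx)]
    exact he1 hx

end BBP


end

section

/-!
# BBP, NST: nested simple closed curves
-/

set_option autoImplicit false

namespace BBP

open Set Topology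
open Pool.Agent.LIX (CLog)

theorem t_NST : M_NST := by
  intro hDEG hJCT Y _ U J0 T0 f0 hU C J hC hJ hJU hCJ
  obtain ⟨fJ, hfJ⟩ := (hDEG Y J hJ).1
  obtain ⟨fC, hfC⟩ := (hDEG Y C hC).1
  obtain ⟨-, hJ2, hJ3, -, hJ5, hJ6, -, -⟩ := hJCT Y U J0 T0 f0 hU J fJ hJ hJU hfJ
  have hCU : C ⊆ U := hCJ.trans (union_subset hJU hJ2)
  obtain ⟨hC1, hC2, -, -, -, -, -, -⟩ := hJCT Y U J0 T0 f0 hU C fC hC hCU hfC
  have hdis : Disjoint (U \ (J ∪ ins J)) (ins C) := by
    rw [Set.disjoint_iff_inter_eq_empty]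
    by_contra hne
    have hne' : ((U \ (J ∪ ins J)) ∩ ins C).Nonempty := nonempty_iff_ne_empty.mpr hne
    have hcl : IsClosed (C ∪ ins C) := hC1.cpt.isClosed
    have hsub : U \ (J ∪ ins J) ⊆ ins C := by
      refine IsPreconnected.subset_left_of_subset_union hC1.opn hcl.isOpen_compl ?_ ?_ hne'
        hJ3.isPreconnected
      · rw [disjoint_compl_right_iff_subset]
        exact subset_union_right
      · intro x hx
        by_cases h1 : x ∈ ins C
        · exact Or.inl h1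
        · refine Or.inr fun h2 => ?_
          rcases h2 with h2 | h2
          · exact hx.2 (hCJ h2)
          · exact h1 h2
    exact hJ6 (C ∪ ins C) hC1.cpt (union_subset hCU hC2) (hsub.trans subset_union_right)
  have hdis2 : Disjoint (closure (U \ (J ∪ ins J))) (ins C) := hdis.closure_left hC1.opn
  intro x hx
  by_contra h
  by_cases h2 : x ∈ J
  · exact Set.disjoint_left.mp hdis2 (hJ5 h2) hx
  · exact Set.disjoint_left.mp hdis ⟨hC2 hx, fun h3 => h3.elim h2 h⟩ hx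

end BBP


end

section

/-!
# BBP, block B: the summary of the plane-like properties (module PLN)
-/

set_option autoImplicit false

namespace BBP

open Set Topology
open Pool.Agent.LIX (CLog)

namespace PLN

variable {Y : Type} [TopologicalSpace Y] {C : Set Y}

/-- The degree of a quotient. -/
theorem quot {f F G : Y → ℂ} {a b : ℤ} (h0 : ∀ x ∈ C, f x ≠ 0) (hF0 : ∀ x ∈ C, F x ≠ 0)
    (hG0 : ∀ x ∈ C, G x ≠ 0) (hF : Deg C f F a) (hG : Deg C f G b)
    (hz : ∀ n : ℤ, CLog C (fun x => f x ^ n) → n = 0) :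
    CLog C (fun x => F x / G x) ↔ a = b := by
  constructor
  · intro h
    have h1 : CLog C (fun x => f x ^ (a - b)) := by
      refine ((h.div hF).mul hG).congr fun x hx => ?_
      have h2 := h0 x hx
      have h3 := hF0 x hx
      have h4 := hG0 x hx
      rw [zpow_sub₀ h2]
      have h5 : f x ^ a ≠ 0 := zpow_ne_zero _ h2
      have h6 : f x ^ b ≠ 0 := zpow_ne_zero _ h2
      field_simp
    have := hz _ h1
    omega
  · rintro rfl
    refine (CLog.div hF hG).congr fun x hx => ?_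
    have h2 := h0 x hx
    have h4 := hG0 x hx
    have h5 : f x ^ a ≠ 0 := zpow_ne_zero _ h2
    field_simp

end PLN

open PLN in
theorem t_PLN : M_PLN := by
  intro hLPC hARB hDEG hCTH hNSP hPNT hSML hJCT hNST hDGP hEON hJAN
  intro Y _ U J0 T0 f0 hu J hJ hJU
  obtain ⟨⟨fJ, hfJ⟩, hgJ, -⟩ := hDEG Y J hJ
  obtain ⟨hmJ, hinsU, -⟩ := hJCT Y U J0 T0 f0 hu J fJ hJ hJU hfJ
  have key : ∀ C : Set Y, Scc C → C ⊆ U → ∃ f : Y → ℂ, Mem C f (ins C) ∧ ins C ⊆ U ∧
      IsConnected (U \ (C ∪ ins C)) ∧ C ⊆ closure (ins C) ∧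
      C ⊆ closure (U \ (C ∪ ins C)) ∧ (∀ T : Set Y, IsCompact T → T ⊆ U →
        ¬ U \ (C ∪ ins C) ⊆ T) ∧ closure (ins C) = C ∪ ins C ∧
      ∀ T : Set Y, IsCompact T → Contr T C → ins C ⊆ T := by
    intro C hC hCU
    obtain ⟨⟨f, hf⟩, -, -⟩ := hDEG Y C hC
    exact ⟨f, hJCT Y U J0 T0 f0 hu C f hC hCU hf⟩
  have hlc : LocallyCompactSpace Y := hu.ax.lc
  have hloc : ∀ x ∈ ins J, ∀ W : Set Y, IsOpen W → x ∈ W → ∃ W1 ⊆ W, IsOpen W1 ∧ x ∈ W1 ∧
      ∀ C : Set Y, Scc C → C ⊆ W1 → C ∪ ins C ⊆ W ∩ ins J := by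
    intro x hx W hW hxW
    obtain ⟨N0, hN0, hN1, hN2⟩ := exists_compact_subset (hW.inter hmJ.opn)
      (⟨hxW, hx⟩ : x ∈ W ∩ ins J)
    have hcl : closure (interior N0) ⊆ N0 :=
      closure_minimal interior_subset hN0.isClosed
    have hcN : IsCompact (closure (interior N0)) := hN0.of_isClosed_subset isClosed_closure hcl
    obtain ⟨W1, hW1, hW1o, hxW1, H, hH, hH0, hH1, hHm⟩ :=
      hu.ax.loc x (interior N0) isOpen_interior hN1
    have hNW : interior N0 ⊆ W ∩ ins J := interior_subset.trans hN2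
    refine ⟨W1, fun y hy => (hNW (hW1 hy)).1, hW1o, hxW1, ?_⟩
    intro C hC hCW
    have hCN : C ⊆ interior N0 := hCW.trans hW1
    have hCU : C ⊆ U := fun y hy => hinsU (hNW (hCN hy)).2
    have hct : Contr (closure (interior N0)) C :=
      hCTH Y _ C W1 H x hH hH0 hH1 hCW fun y hy t ht => subset_closure (hHm y (hCW hy) t ht)
    obtain ⟨f, -, -, -, -, -, -, -, hlast⟩ := key C hC hCU
    have h1 := hlast _ hcN hct
    exact union_subset (hCN.trans hNW) (h1.trans (hcl.trans hN2))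
  refine
    { lpc := hLPC Y hu.ax
      lc := hlc
      opU := hu.mem.opn
      opV := hmJ.opn
      sub := hinsU
      connV := hmJ.conn
      nsp := ?_
      opn := fun C hC hCU => (key C hC hCU).choose_spec.1.opn
      conn := fun C hC hCU => (key C hC hCU).choose_spec.1.conn
      disj := fun C hC hCU => (key C hC hCU).choose_spec.1.disj
      insU := fun C hC hCU => (key C hC hCU).choose_spec.2.1
      insV := ?_
      clos := fun C hC hCU => (key C hC hCU).choose_spec.2.2.2.2.2.2.1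
      cpt := fun C hC hCU => (key C hC hCU).choose_spec.1.cpt
      out := fun C hC hCU => (key C hC hCU).choose_spec.2.2.1
      outc := fun C hC hCU => (key C hC hCU).choose_spec.2.2.2.2.1
      ncp := fun C hC hCU => (key C hC hCU).choose_spec.2.2.2.2.2.1
      nst := fun C J' hC hJ' hJU' h => hNST Y U J0 T0 f0 hu C J' hC hJ' hJU' h
      loc := hloc
      sml := ?_
      jan := ?_
      dip := ?_ }
  · intro A a b hA hAV
    obtain ⟨-, -, -, -, hAc, -, hAl, -⟩ := hARB Y A a b hA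
    exact hNSP Y hu.ax J (ins J) A fJ hmJ hAV hAc hAl
  · intro C hC hCV
    exact hNST Y U J0 T0 f0 hu C J hC hJ hJU (hCV.trans subset_union_right)
  · intro x hx W hW hxW
    obtain ⟨W1, hW1, hW1o, hxW1, hW1c⟩ := hloc x hx W hW hxW
    obtain ⟨F, hF⟩ := hPNT Y hu.ax J (ins J) fJ x hmJ hx
    obtain ⟨C, hC, hCW, hCJ, hxC, hlog⟩ := hSML Y hu.ax J (ins J) fJ F x hmJ hx hF W1 hW1o hxW1
    obtain ⟨⟨fC, hfC⟩, -, -⟩ := hDEG Y C hC
    obtain ⟨s, -, hs⟩ := hDGP Y U J0 T0 f0 hu C J fC fJ hC hJ hJU hCJ hfC hfJ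
    have hsub := hW1c C hC hCW
    refine ⟨C, hC, hCJ, ?_, fun y hy => (hsub hy).1⟩
    by_contra hxi
    apply hlog
    refine ((hs x F hx hF).2 hxC hxi).congr fun y _ => ?_
    rw [zpow_zero, div_one]
  · intro T1 T2 h1 h2 h3 h4 h5 y z h6 h7
    exact hJAN Y U J0 T0 f0 hu J T1 T2 hJ hJU h1 h2 h3 h4 h5 y z h6 h7
  · intro y hy z hz hyz
    obtain ⟨F, hF⟩ := hPNT Y hu.ax J (ins J) fJ y hmJ hy
    obtain ⟨G, hG⟩ := hPNT Y hu.ax J (ins J) fJ z hmJ hz
    have hs1 : ins J \ {y, z} ⊆ (J ∪ ins J) \ {y} := fun x hx =>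
      ⟨Or.inr hx.1, fun h => hx.2 (Or.inl h)⟩
    have hs2 : ins J \ {y, z} ⊆ (J ∪ ins J) \ {z} := fun x hx =>
      ⟨Or.inr hx.1, fun h => hx.2 (Or.inr h)⟩
    refine ⟨fun x => F x / G x, ?_, ?_, ?_, ?_⟩
    · exact (hF.1.mono hs1).div (hG.1.mono hs2) fun x hx => hG.2.1 x (hs2 hx)
    · intro x hx
      exact div_ne_zero (hF.2.1 x (hs1 hx)) (hG.2.1 x (hs2 hx))
    · intro A hA hAV
      exact hEON Y U J0 T0 f0 hu J A fJ F G y z hJ hJU hfJ hA hAV hF hG
    · intro C hC hCV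
      have hCJ : C ⊆ ins J := fun x hx => (hCV hx).1
      obtain ⟨⟨fC, hfC⟩, hgC, -⟩ := hDEG Y C hC
      obtain ⟨-, hf0, -, hzero⟩ := hgC fC hfC
      obtain ⟨s, hs1', hs⟩ := hDGP Y U J0 T0 f0 hu C J fC fJ hC hJ hJU hCJ hfC hfJ
      have hyC : y ∉ C := fun h => (hCV h).2 (Or.inl rfl)
      have hzC : z ∉ C := fun h => (hCV h).2 (Or.inr rfl)
      have hF0 : ∀ x ∈ C, F x ≠ 0 := fun x hx => hF.2.1 x (hs1 (hCV hx))
      have hG0 : ∀ x ∈ C, G x ≠ 0 := fun x hx => hG.2.1 x (hs2 (hCV hx))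
      have hs0 : s ≠ 0 := by
        rcases hs1' with h | h <;> rw [h] <;> norm_num
      by_cases h1 : y ∈ ins C
      · by_cases h2 : z ∈ ins C
        · rw [quot hf0 hF0 hG0 ((hs y F hy hF).1 h1) ((hs z G hz hG).1 h2) hzero]
          simp [h1, h2]
        · rw [quot hf0 hF0 hG0 ((hs y F hy hF).1 h1) ((hs z G hz hG).2 hzC h2) hzero]
          simp [h1, h2, hs0]
      · by_cases h2 : z ∈ ins C
        · rw [quot hf0 hF0 hG0 ((hs y F hy hF).2 hyC h1) ((hs z G hz hG).1 h2) hzero]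
          simp [h1, h2, hs0.symm]
        · rw [quot hf0 hF0 hG0 ((hs y F hy hF).2 hyC h1) ((hs z G hz hG).2 hzC h2) hzero]
          simp [h1, h2]

end BBP


end

section

/-!
# MP_6eac38_gt, third part, module PNT: point functions
-/

set_option autoImplicit false

namespace BBP

open Set Topology
open Pool.Agent.LIX (CLog)

namespace PNT

variable {Y : Type} [MetricSpace Y]

/-- gluing on closed sets -/
theorem glue {A B : Set Y} {F G : Y → ℂ} (hA : IsClosed A) (hB : IsClosed B)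
    (hF : ContinuousOn F A) (hG : ContinuousOn G B) (h : ∀ x ∈ A ∩ B, F x = G x) :
    ∃ H : Y → ℂ, ContinuousOn H (A ∪ B) ∧ EqOn H F A ∧ EqOn H G B := by
  classical
  have e1 : EqOn (fun x => if x ∈ A then F x else G x) F A := fun x hx => if_pos hx
  have e2 : EqOn (fun x => if x ∈ A then F x else G x) G B := by
    intro x hx
    by_cases hxA : x ∈ A
    · show (if x ∈ A then F x else G x) = G x
      rw [if_pos hxA]
      exact h x ⟨hxA, hx⟩
    · exact if_neg hxA
  exact ⟨fun x => if x ∈ A then F x else G x,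
    (hF.congr e1).union_of_isClosed (hG.congr e2) hA hB, e1, e2⟩

/-- small connected neighbourhoods -/
theorem small (hlp : LocallyPathConnectedSpace Y) (y : Y) {U : Set Y} (hU : IsOpen U)
    (hy : y ∈ U) {δ : ℝ} (hδ : 0 < δ) : ∃ V : Set Y, IsOpen V ∧ IsConnected V ∧ y ∈ V ∧
      closure V ⊆ U ∧ V ⊆ Metric.ball y δ := by
  obtain ⟨ε, hε, h1⟩ := Metric.isOpen_iff.1 hU y hy
  have h2 : Metric.ball y (min (ε / 2) δ) ∈ 𝓝 y :=
    Metric.ball_mem_nhds y (lt_min (half_pos hε) hδ)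
  obtain ⟨V, ⟨hV1, hV2, hV3⟩, hV4⟩ :=
    (LocallyConnectedSpace.open_connected_basis y).mem_iff.1 h2
  refine ⟨V, hV1, hV3, hV2, ?_, fun z hz => ?_⟩
  · intro z hz
    apply h1
    have h3 : z ∈ Metric.closedBall y (min (ε / 2) δ) :=
      Metric.closure_ball_subset_closedBall (closure_mono hV4 hz)
    rw [Metric.mem_closedBall] at h3
    rw [Metric.mem_ball]
    have h4 := min_le_left (ε / 2) δ
    linarith
  · exact Metric.ball_subset_ball (min_le_right _ _) (hV4 hz)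

/-- a state of the construction -/
structure St (L : Set Y) (f : Y → ℂ) (Q : Set Y) (y : Y) (W : Set Y) (F : Y → ℂ) : Prop where
  opn : IsOpen W
  conn : IsConnected W
  mem : y ∈ W
  clos : closure W ⊆ Q
  cont : ContinuousOn F ((L ∪ Q) \ W)
  ne : ∀ x ∈ (L ∪ Q) \ W, F x ≠ 0
  eq : EqOn F f L

/-- the step -/
theorem step (hY : Ax Y) (hlp : LocallyPathConnectedSpace Y) (hM : S_MMN) {L Q : Set Y}
    {f : Y → ℂ} {y : Y} (hQ : Mem L f Q) {W : Set Y} {F : Y → ℂ} (hs : St L f Q y W F) {δ : ℝ}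
    (hδ : 0 < δ) : ∃ (W' : Set Y) (F' : Y → ℂ), St L f Q y W' F' ∧ W' ⊆ W ∧
      W' ⊆ Metric.ball y δ ∧ EqOn F' F ((L ∪ Q) \ W) := by
  have hcl : IsClosed (L ∪ Q) := hQ.cpt.isClosed
  have hLW : ∀ x ∈ L, x ∈ (L ∪ Q) \ W := fun x hx =>
    ⟨Or.inl hx, fun h => Set.disjoint_left.1 hQ.disj (hs.clos (subset_closure h)) hx⟩
  have hcW : closure W \ W ⊆ (L ∪ Q) \ W := fun x hx => ⟨Or.inr (hs.clos hx.1), hx.2⟩
  have hcW2 : (closure W \ W) ∪ W = closure W := by
    rw [sdiff_union_self, union_eq_left.2 subset_closure]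
  have hcpt : IsCompact (closure W) :=
    hQ.cpt.of_isClosed_subset isClosed_closure fun x hx => Or.inr (hs.clos hx)
  -- the membrane in `W`
  have hMem : Mem (closure W \ W) F W := by
    refine ⟨hs.cont.mono hcW, fun x hx => hs.ne x (hcW hx), hcpt.diff hs.opn, hs.opn, hs.conn,
      ?_, ?_, ?_, ?_⟩
    · exact disjoint_sdiff_right
    · rw [union_comm, hcW2]
    · rw [hcW2]
      exact hcpt
    · rintro ⟨G, hG1, hG2, hG3⟩
      rw [hcW2] at hG1 hG2
      obtain ⟨H, hH1, hH2, hH3⟩ := glue (hcl.sdiff hs.opn) isClosed_closure hs.cont hG1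
        (fun x hx => (hG3 ⟨hx.2, hx.1.2⟩).symm)
      have hun : ((L ∪ Q) \ W) ∪ closure W = L ∪ Q := by
        apply subset_antisymm
        · exact union_subset sdiff_subset fun x hx => Or.inr (hs.clos hx)
        · intro x hx
          by_cases hxW : x ∈ W
          · exact Or.inr (subset_closure hxW)
          · exact Or.inl ⟨hx, hxW⟩
      rw [hun] at hH1
      refine hQ.ess ⟨H, hH1, ?_, ?_⟩
      · intro x hx
        rw [← hun] at hx
        rcases hx with hx | hx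
        · rw [hH2 hx]
          exact hs.ne x hx
        · rw [hH3 hx]
          exact hG2 x hx
      · intro x hx
        rw [hH2 (hLW x hx)]
        exact hs.eq hx
  obtain ⟨V, hV1, hV2, hV3, hV4, hV5⟩ := small hlp y hs.opn hs.mem hδ
  have hVW : V ⊆ W := subset_closure.trans hV4
  obtain ⟨G, hG1, hG2, hG3⟩ := hM Y hY _ _ _ hMem V hV1 ⟨y, hV3⟩ hVW
  rw [hcW2] at hG1 hG2
  obtain ⟨H, hH1, hH2, hH3⟩ := glue (hcl.sdiff hs.opn) (isClosed_closure.sdiff hV1) hs.cont hG1
    (fun x hx => (hG3 ⟨hx.2.1, hx.1.2⟩).symm)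
  have hun : ((L ∪ Q) \ W) ∪ (closure W \ V) = (L ∪ Q) \ V := by
    apply subset_antisymm
    · exact union_subset (fun x hx => ⟨hx.1, fun h => hx.2 (hVW h)⟩)
        fun x hx => ⟨Or.inr (hs.clos hx.1), hx.2⟩
    · intro x hx
      by_cases hxW : x ∈ W
      · exact Or.inr ⟨subset_closure hxW, hx.2⟩
      · exact Or.inl ⟨hx.1, hxW⟩
  rw [hun] at hH1
  refine ⟨V, H, ⟨hV1, hV2, hV3, ?_, hH1, ?_, ?_⟩, hVW, hV5, hH2⟩
  · exact hV4.trans (subset_closure.trans hs.clos)
  · intro x hx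
    rw [← hun] at hx
    rcases hx with hx | hx
    · rw [hH2 hx]
      exact hs.ne x hx
    · rw [hH3 hx]
      exact hG2 x hx
  · intro x hx
    rw [hH2 (hLW x hx)]
    exact hs.eq hx

end PNT

open PNT in
theorem t_PNT : M_PNT := by
  classical
  intro hL hM Y _ hY L Q f y hQ hyQ
  have hlp := hL Y hY
  -- the first state
  have h0 : ∃ (W : Set Y) (F : Y → ℂ), St L f Q y W F := by
    obtain ⟨V, hV1, hV2, hV3, hV4, -⟩ := small hlp y hQ.opn hyQ one_pos
    obtain ⟨F, hF1, hF2, hF3⟩ := hM Y hY _ _ _ hQ V hV1 ⟨y, hV3⟩ (subset_closure.trans hV4)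
    exact ⟨V, F, hV1, hV2, hV3, hV4, hF1, hF2, hF3⟩
  obtain ⟨W0, F0, hs0⟩ := h0
  let S := {p : Set Y × (Y → ℂ) // St L f Q y p.1 p.2}
  have hst : ∀ (p : S) (n : ℕ), ∃ p' : S, p'.1.1 ⊆ p.1.1 ∧
      p'.1.1 ⊆ Metric.ball y (1 / ((n : ℝ) + 1)) ∧ EqOn p'.1.2 p.1.2 ((L ∪ Q) \ p.1.1) := by
    intro p n
    obtain ⟨W', F', h1, h2, h3, h4⟩ := step hY hlp hM hQ p.2
      (show 0 < 1 / ((n : ℝ) + 1) by positivity)
    exact ⟨⟨(W', F'), h1⟩, h2, h3, h4⟩
  choose g hg1 hg2 hg3 using hst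
  let u : ℕ → S := fun n => Nat.rec ⟨(W0, F0), hs0⟩ (fun n p => g p n) n
  have hu : ∀ n, u (n + 1) = g (u n) n := fun n => rfl
  have hdec : ∀ n m, n ≤ m → (u m).1.1 ⊆ (u n).1.1 := by
    intro n m h
    induction m, h using Nat.le_induction with
    | base => exact subset_rfl
    | succ m _ ih => exact (hg1 (u m) m).trans ih
  have heq : ∀ n m, n ≤ m → EqOn (u m).1.2 (u n).1.2 ((L ∪ Q) \ (u n).1.1) := by
    intro n m h
    induction m, h using Nat.le_induction with
    | base => exact fun _ _ => rfl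
    | succ m hm ih =>
      intro x hx
      have hx' : x ∈ (L ∪ Q) \ (u m).1.1 := ⟨hx.1, fun h => hx.2 (hdec n m hm h)⟩
      rw [hu, hg3 (u m) m hx', ih hx]
  set F : Y → ℂ := fun x => if h : ∃ n, x ∉ (u n).1.1 then (u (Nat.find h)).1.2 x else 0 with hF
  have hFn : ∀ n x, x ∈ (L ∪ Q) \ (u n).1.1 → F x = (u n).1.2 x := by
    intro n x hx
    have h : ∃ n, x ∉ (u n).1.1 := ⟨n, hx.2⟩
    have h1 : Nat.find h ≤ n := Nat.find_min' h hx.2
    have h2 : F x = (u (Nat.find h)).1.2 x := dif_pos h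
    rw [h2]
    exact (heq _ _ h1 ⟨hx.1, Nat.find_spec h⟩).symm
  -- every point different from `y` is outside the closure of some `W n`
  have hout : ∀ x, x ≠ y → ∃ n, x ∉ closure (u n).1.1 := by
    intro x hx
    have hd : 0 < dist x y := dist_pos.2 hx
    obtain ⟨n, hn⟩ := exists_nat_one_div_lt hd
    refine ⟨n + 1, fun h => ?_⟩
    have h1 : (u (n + 1)).1.1 ⊆ Metric.ball y (1 / ((n : ℝ) + 1)) := by
      rw [hu]
      exact hg2 (u n) n
    have h2 : x ∈ Metric.closedBall y (1 / ((n : ℝ) + 1)) :=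
      Metric.closure_ball_subset_closedBall (closure_mono h1 h)
    rw [Metric.mem_closedBall] at h2
    linarith
  refine ⟨F, ?_, ?_, ?_⟩
  · intro x hx
    obtain ⟨n, hn⟩ := hout x hx.2
    have hx' : x ∈ (L ∪ Q) \ (u n).1.1 := ⟨hx.1, fun h => hn (subset_closure h)⟩
    have h1 : ContinuousWithinAt (u n).1.2 ((L ∪ Q) \ (u n).1.1) x := (u n).2.cont x hx'
    have h2 : ContinuousWithinAt F ((L ∪ Q) \ (u n).1.1) x :=
      h1.congr (fun z hz => hFn n z hz) (hFn n x hx')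
    refine h2.mono_of_mem_nhdsWithin ?_
    rw [mem_nhdsWithin]
    exact ⟨(closure (u n).1.1)ᶜ, isClosed_closure.isOpen_compl, hn,
      fun z hz => ⟨hz.2.1, fun h => hz.1 (subset_closure h)⟩⟩
  · intro x hx
    obtain ⟨n, hn⟩ := hout x hx.2
    have hx' : x ∈ (L ∪ Q) \ (u n).1.1 := ⟨hx.1, fun h => hn (subset_closure h)⟩
    rw [hFn n x hx']
    exact (u n).2.ne x hx'
  · intro x hx
    have hx' : x ∈ (L ∪ Q) \ (u 0).1.1 := ⟨Or.inl hx, fun h =>
      Set.disjoint_left.1 hQ.disj ((u 0).2.clos (subset_closure h)) hx⟩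
    rw [hFn 0 x hx']
    exact (u 0).2.eq hx

end BBP


end

section

/-!
# MP_6eac38_gt, part 3: module SCB (simple closed curves)
-/

set_option autoImplicit false

namespace BBP

open Set Topology

namespace SCB

variable {Y : Type} [MetricSpace Y]

theorem arc_symm {A : Set Y} {a b : Y} (h : Arc A a b) : Arc A b a := by
  obtain ⟨α, hc, hi, h0, h1, hA⟩ := h
  have hmaps : MapsTo (fun t : ℝ => 1 - t) (Icc 0 1) (Icc 0 1) := fun t ht =>
    ⟨by have := ht.2; show 0 ≤ 1 - t; linarith, by have := ht.1; show 1 - t ≤ 1; linarith⟩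
  refine ⟨fun t => α (1 - t), ?_, ?_, ?_, ?_, ?_⟩
  · exact hc.comp (continuous_const.sub continuous_id).continuousOn hmaps
  · intro s hs t ht hst
    have h2 := hi (hmaps hs) (hmaps ht) hst
    have h3 : 1 - s = 1 - t := h2
    linarith
  · show α (1 - 0) = b
    rw [sub_zero, h1]
  · show α (1 - 1) = a
    rw [sub_self, h0]
  · rw [hA]
    ext x
    constructor
    · rintro ⟨t, ht, rfl⟩
      refine ⟨1 - t, hmaps ht, ?_⟩
      show α (1 - (1 - t)) = α t
      rw [sub_sub_cancel]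
    · rintro ⟨t, ht, rfl⟩
      exact ⟨1 - t, hmaps ht, rfl⟩

theorem arc_left {A : Set Y} {a b : Y} (h : Arc A a b) : a ∈ A := by
  obtain ⟨α, _, _, h0, _, hA⟩ := h
  rw [hA, ← h0]
  exact ⟨0, ⟨le_rfl, zero_le_one⟩, rfl⟩

theorem arc_closed {A : Set Y} {a b : Y} (h : Arc A a b) : IsClosed A := by
  obtain ⟨α, hc, _, _, _, hA⟩ := h
  rw [hA]
  exact (isCompact_Icc.image_of_continuousOn hc).isClosed

variable {γ : ℝ → Y}

/-- the second parameter -/
theorem second (hS : S_SCA) (hγ : Scp γ) (s : ℝ) {b : Y} (hb : b ∈ range γ) (hne : γ s ≠ b) :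
    ∃ t, s < t ∧ t < s + 1 ∧ γ t = b := by
  rw [← ((hS Y γ hγ).1 s).2] at hb
  obtain ⟨t, ht, rfl⟩ := hb
  refine ⟨t, lt_of_le_of_ne ht.1 fun h => hne (by rw [h]), lt_of_le_of_ne ht.2 fun h => hne ?_,
    rfl⟩
  rw [h]
  exact (hγ.2.1 s).symm

theorem first (hS : S_SCA) (hγ : Scp γ) {a : Y} (ha : a ∈ range γ) :
    ∃ s, s ∈ Icc (0 : ℝ) 1 ∧ γ s = a := by
  have h1 := ((hS Y γ hγ).1 0).2
  rw [zero_add] at h1
  rw [← h1] at ha
  exact ha

theorem conn_diff (hS : S_SCA) (hγ : Scp γ) (t0 : ℝ) : IsConnected (range γ \ {γ t0}) := by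
  have h1 : range γ \ {γ t0} = γ '' Ioo t0 (t0 + 1) := by
    ext x
    constructor
    · rintro ⟨hx, hx0⟩
      obtain ⟨t, h1, h2, h3⟩ := second hS hγ t0 hx fun h => hx0 h.symm
      exact ⟨t, ⟨h1, h2⟩, h3⟩
    · rintro ⟨t, ht, rfl⟩
      refine ⟨mem_range_self t, fun h => ?_⟩
      have h2 := ((hS Y γ hγ).1 t0).1 ⟨ht.1.le, ht.2⟩ ⟨le_rfl, by linarith⟩ h
      exact ht.1.ne' h2
  rw [h1]
  exact (isConnected_Ioo (by linarith)).image _ hγ.1.continuousOn

theorem small_arc (hS : S_SCA) (hγ : Scp γ) (t0 : ℝ) {W : Set Y} (hW : IsOpen W)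
    (hx : γ t0 ∈ W) : ∃ (A B : Set Y) (a b : Y), Arc A a b ∧ Arc B a b ∧
      A ∪ B = range γ ∧ A ∩ B = {a, b} ∧ γ t0 ∈ B ∧ γ t0 ∉ A ∧ B ⊆ W := by
  have h1 : γ ⁻¹' W ∈ 𝓝 t0 := hγ.1.continuousAt.preimage_mem_nhds (hW.mem_nhds hx)
  obtain ⟨ε, hε, h2⟩ := Metric.mem_nhds_iff.1 h1
  set δ : ℝ := min (ε / 2) (1 / 4) with hδ
  have hδ0 : 0 < δ := lt_min (by linarith) (by norm_num)
  have hδ1 : δ ≤ ε / 2 := min_le_left _ _
  have hδ2 : δ ≤ 1 / 4 := min_le_right _ _
  obtain ⟨h3, h4, h5, h6⟩ := (hS Y γ hγ).2 (t0 - δ) (t0 + δ) (by linarith) (by linarith)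
  refine ⟨_, _, _, _, arc_symm h4, h3, ?_, ?_, ⟨t0, ⟨by linarith, by linarith⟩, rfl⟩, ?_, ?_⟩
  · rw [union_comm]
    exact h5
  · rw [inter_comm]
    exact h6
  · intro h7
    have h8 : γ t0 ∈ ({γ (t0 - δ), γ (t0 + δ)} : Set Y) := by
      rw [← h6]
      exact ⟨⟨t0, ⟨by linarith, by linarith⟩, rfl⟩, h7⟩
    have hinj := ((hS Y γ hγ).1 (t0 - δ)).1
    rcases h8 with h8 | h8
    · have := hinj (x₁ := t0) (x₂ := t0 - δ) ⟨by linarith, by linarith⟩
        ⟨by linarith, by linarith⟩ h8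
      linarith
    · have := hinj (x₁ := t0) (x₂ := t0 + δ) ⟨by linarith, by linarith⟩
        ⟨by linarith, by linarith⟩ h8
      linarith
  · rintro _ ⟨t, ht, rfl⟩
    apply h2
    rw [Metric.mem_ball, Real.dist_eq, abs_lt]
    constructor
    · linarith [ht.1]
    · linarith [ht.2]

theorem two_arcs (hS : S_SCA) (hγ : Scp γ) {a b : Y} (ha : a ∈ range γ) (hb : b ∈ range γ)
    (hab : a ≠ b) : ∃ A B : Set Y, Arc A a b ∧ Arc B a b ∧ A ∪ B = range γ ∧
      A ∩ B = {a, b} := by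
  obtain ⟨s, _, rfl⟩ := first hS hγ ha
  obtain ⟨t, h1, h2, rfl⟩ := second hS hγ s hb hab
  obtain ⟨h3, h4, h5, h6⟩ := (hS Y γ hγ).2 s t h1 h2
  exact ⟨_, _, h3, arc_symm h4, h5, h6⟩

theorem unif (hS : S_SCA) (hγ : Scp γ) {ε : ℝ} (hε : 0 < ε) :
    ∃ η > 0, ∀ x ∈ range γ, ∀ y ∈ range γ, x ≠ y → dist x y < η → ∃ B ⊆ range γ, Arc B x y ∧
      ∀ u ∈ B, ∀ v ∈ B, dist u v < ε := by
  have huc : UniformContinuousOn γ (Icc 0 2) :=
    isCompact_Icc.uniformContinuousOn_of_continuous hγ.1.continuousOn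
  obtain ⟨δ, hδ, huc⟩ := Metric.uniformContinuousOn_iff.1 huc ε hε
  have hsmall : ∀ s t : ℝ, 0 ≤ s → t ≤ 2 → t - s < δ →
      ∀ u ∈ γ '' Icc s t, ∀ v ∈ γ '' Icc s t, dist u v < ε := by
    rintro s t hs ht hst _ ⟨u, hu, rfl⟩ _ ⟨v, hv, rfl⟩
    apply huc u ⟨by linarith [hu.1], by linarith [hu.2]⟩ v ⟨by linarith [hv.1], by linarith [hv.2]⟩
    rw [Real.dist_eq, abs_lt]
    constructor
    · linarith [hu.1, hv.2]
    · linarith [hu.2, hv.1]
  let K : Set (ℝ × ℝ) := {p | (0 ≤ p.1 ∧ p.1 ≤ 1) ∧ p.1 + δ ≤ p.2 ∧ p.2 ≤ p.1 + 1 - δ}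
  have hKsub : K ⊆ Icc 0 1 ×ˢ Icc 0 2 := by
    rintro ⟨s, t⟩ ⟨⟨h1, h2⟩, h3, h4⟩
    simp only at h1 h2 h3 h4
    exact ⟨⟨h1, h2⟩, ⟨by show 0 ≤ t; linarith, by show t ≤ 2; linarith⟩⟩
  have hKclosed : IsClosed K := by
    apply IsClosed.inter
    · exact (isClosed_le continuous_const continuous_fst).inter
        (isClosed_le continuous_fst continuous_const)
    · exact (isClosed_le (continuous_fst.add continuous_const) continuous_snd).inter
        (isClosed_le continuous_snd ((continuous_fst.add continuous_const).sub continuous_const))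
  have hK : IsCompact K := (isCompact_Icc.prod isCompact_Icc).of_isClosed_subset hKclosed hKsub
  have hpos : ∀ p ∈ K, 0 < dist (γ p.1) (γ p.2) := by
    rintro ⟨s, t⟩ ⟨⟨h1, h2⟩, h3, h4⟩
    simp only at h1 h2 h3 h4
    apply dist_pos.2
    intro h5
    have h6 := ((hS Y γ hγ).1 s).1 (x₁ := s) (x₂ := t) ⟨le_rfl, by linarith⟩
      ⟨by linarith, by linarith⟩ h5
    linarith
  have hη : ∃ η > 0, ∀ p ∈ K, η ≤ dist (γ p.1) (γ p.2) := by
    rcases K.eq_empty_or_nonempty with he | hne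
    · exact ⟨1, one_pos, fun p hp => by rw [he] at hp; exact absurd hp (notMem_empty _)⟩
    · obtain ⟨p, hp, hmin⟩ := hK.exists_isMinOn hne
        (f := fun p : ℝ × ℝ => dist (γ p.1) (γ p.2))
        ((hγ.1.comp continuous_fst).dist (hγ.1.comp continuous_snd)).continuousOn
      exact ⟨_, hpos p hp, fun q hq => hmin hq⟩
  obtain ⟨η, hη0, hη⟩ := hη
  refine ⟨η, hη0, fun x hx y hy hxy hd => ?_⟩
  obtain ⟨s, hs, rfl⟩ := first hS hγ hx
  obtain ⟨t, h1, h2, rfl⟩ := second hS hγ s hy hxy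
  obtain ⟨h3, h4, _, _⟩ := (hS Y γ hγ).2 s t h1 h2
  by_cases hst : t - s < δ
  · exact ⟨_, image_subset_range _ _, h3, hsmall s t hs.1 (by linarith [hs.2]) hst⟩
  · by_cases hst2 : s + 1 - t < δ
    · exact ⟨_, image_subset_range _ _, arc_symm h4,
        hsmall t (s + 1) (by linarith [hs.1]) (by linarith [hs.2]) hst2⟩
    · exfalso
      have h5 : (s, t) ∈ K :=
        ⟨⟨hs.1, hs.2⟩, by show s + δ ≤ t; linarith, by show t ≤ s + 1 - δ; linarith⟩
      have h6 := hη _ h5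
      simp only at h6
      linarith

theorem nbhd {C A B : Set Y} {a b : Y} (hA : Arc A a b) (hAB : A ∪ B = C) {x : Y}
    (hx : x ∉ A) : ∃ W : Set Y, IsOpen W ∧ x ∈ W ∧ W ∩ C ⊆ B \ {a, b} := by
  refine ⟨Aᶜ, (arc_closed hA).isOpen_compl, hx, ?_⟩
  rintro y ⟨hy, hyC⟩
  rw [← hAB] at hyC
  refine ⟨hyC.resolve_left hy, ?_⟩
  rintro (rfl | rfl)
  · exact hy (arc_left hA)
  · exact hy (arc_left (arc_symm hA))

end SCB

open SCB in
theorem t_SCB : M_SCB := by
  intro hS Y _ C hC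
  obtain ⟨γ, hγ, rfl⟩ := hC
  refine ⟨?_, isConnected_range hγ.1, ?_, ?_, ?_, fun ε hε => unif hS hγ hε, ?_⟩
  · rw [← ((hS Y γ hγ).1 0).2]
    exact isCompact_Icc.image hγ.1
  · rintro _ ⟨t0, rfl⟩
    exact conn_diff hS hγ t0
  · rintro _ ⟨t0, rfl⟩ W hW hx
    exact small_arc hS hγ t0 hW hx
  · intro a ha b hb hab
    exact two_arcs hS hγ ha hb hab
  · intro A B a b hA _ hAB _ x _ hx
    exact nbhd hA hAB hx

end BBP


end

section

/-!
# BBP, SGN: the sign
-/

set_option autoImplicit false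

namespace BBP

open Set Topology
open Pool.Agent.LIX (CLog)

namespace SGN

/-- Tietze's theorem for complex functions -/
theorem tietze {X : Type} [MetricSpace X] {K : Set X} (hK : IsClosed K) {F : X → ℂ}
    (hF : ContinuousOn F K) : ∃ G : X → ℂ, Continuous G ∧ ∀ x ∈ K, G x = F x := by
  obtain ⟨g, hg⟩ := ContinuousMap.exists_restrict_eq hK
    (⟨K.domRestrict F, continuousOn_iff_continuous_domRestrict.1 hF⟩ : C(K, ℂ))
  refine ⟨g, g.continuous, fun x hx => ?_⟩
  exact congrArg (fun φ : C(K, ℂ) => φ ⟨x, hx⟩) hg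

/-- gluing of two functions on closed sets -/
theorem glue {X : Type} [TopologicalSpace X] {A B : Set X} (hA : IsClosed A) (hB : IsClosed B)
    {f g : X → ℂ} (hf : ContinuousOn f A) (hg : ContinuousOn g B)
    (hfg : ∀ x ∈ A ∩ B, f x = g x) :
    ∃ h : X → ℂ, ContinuousOn h (A ∪ B) ∧ (∀ x ∈ A, h x = f x) ∧ ∀ x ∈ B, h x = g x := by
  classical
  have h1 : ∀ x ∈ A, (if x ∈ A then f x else g x) = f x := fun x hx => if_pos hx
  have h2 : ∀ x ∈ B, (if x ∈ A then f x else g x) = g x := by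
    intro x hx
    by_cases hxA : x ∈ A
    · rw [if_pos hxA]
      exact hfg x ⟨hxA, hx⟩
    · rw [if_neg hxA]
  exact ⟨fun x => if x ∈ A then f x else g x,
    ContinuousOn.union_of_isClosed (hf.congr h1) (hg.congr h2) hA hB, h1, h2⟩

/-- a function without zeros on the closed disk has degree zero on its boundary -/
theorem deg_zero {Y : Type} [MetricSpace Y] {U J0 T0 : Set Y} {f0 : Y → ℂ} (hF : S_FIV)
    (hU : Uni U J0 T0 f0) {J : Set Y} {fJ : Y → ℂ} (hJ : Scc J) (hJU : J ⊆ U) (hG : Gen J fJ)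
    (hcJ : IsClosed J) (hJ0 : ∀ x ∈ J, fJ x ≠ 0) {h : Y → ℂ} {c : ℤ}
    (hc : ContinuousOn h (J ∪ ins J)) (h0 : ∀ x ∈ J ∪ ins J, h x ≠ 0) (hd : Deg J fJ h c) :
    c = 0 := by
  by_contra hne
  obtain ⟨l, hl, he⟩ := hd
  obtain ⟨l', hl', hl2⟩ := tietze hcJ hl
  refine hF Y U J0 T0 f0 hU J fJ c hJ hJU hG hne ⟨fun x => h x / Complex.exp (l' x), ?_, ?_, ?_⟩
  · exact hc.div (Complex.continuous_exp.comp hl').continuousOn
      fun x _ => Complex.exp_ne_zero _
  · intro x hx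
    exact div_ne_zero (h0 x hx) (Complex.exp_ne_zero _)
  · intro x hx
    have h1 : Complex.exp (l x) = h x / fJ x ^ c := he x hx
    have h2 : fJ x ^ c ≠ 0 := zpow_ne_zero _ (hJ0 x hx)
    have h3 : h x ≠ 0 := h0 x (Or.inl hx)
    show h x / Complex.exp (l' x) = fJ x ^ c
    rw [hl2 x hx, h1]
    field_simp

end SGN

open SGN in
theorem t_SGN : M_SGN := by
  intro hDEG hCMP hMMN hJCT hFIV hNST Y _ U J0 T0 f0 hU C J fC fJ hC hJ hJU hCJ hGC hGJ
  -- facts on `J` and `C`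
  obtain ⟨hJm, hJins, -, -, -, -, -, -⟩ := hJCT Y U J0 T0 f0 hU J fJ hJ hJU hGJ
  have hCU : C ⊆ U := hCJ.trans hJins
  obtain ⟨hCm, -, -, -, -, -, -, -⟩ := hJCT Y U J0 T0 f0 hU C fC hC hCU hGC
  have hins : ins C ⊆ ins J := hNST Y U J0 T0 f0 hU C J hC hJ hJU (hCJ.trans subset_union_right)
  obtain ⟨hJc, hJ0, hJd, -⟩ := (hDEG Y J hJ).2.1 fJ hGJ
  obtain ⟨hCc, hC0, hCd, -⟩ := (hDEG Y C hC).2.1 fC hGC
  have hJcl : IsClosed J := hJm.cptL.isClosed
  have hCcl : IsClosed C := hCm.cptL.isClosed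
  have hNc : IsCompact ((J ∪ ins J) \ ins C) := hJm.cpt.diff hCm.opn
  have hCN : C ⊆ (J ∪ ins J) \ ins C := fun x hx =>
    ⟨Or.inr (hCJ hx), fun h => Set.disjoint_left.1 hCm.disj h hx⟩
  have hJN : J ⊆ (J ∪ ins J) \ ins C := fun x hx =>
    ⟨Or.inl hx, fun h => Set.disjoint_left.1 hJm.disj (hins h) hx⟩
  -- (i)
  have hE1 : ExtC C ((J ∪ ins J) \ ins C) fC := by
    by_contra hne
    obtain ⟨Q, hQ, hQm⟩ := hCMP Y hU.ax C _ fC hCm.cptL hNc hCN hCc hC0 hne
    have h1 : Q ⊆ ins C := subset_sUnion_of_mem ⟨hQm.opn, hQm.conn, hQm.disj, hQm.cpt⟩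
    obtain ⟨x, hx⟩ := hQm.conn.nonempty
    exact (hQ hx).2 (h1 hx)
  obtain ⟨g1, hg1c, hg10, hg1e⟩ := hE1
  obtain ⟨n, hn⟩ := hJd g1 (hg1c.mono hJN) fun x hx => hg10 x (hJN hx)
  -- (ii)
  obtain ⟨F, hFc, hF0, hFe⟩ := hMMN Y hU.ax J (ins J) fJ hJm (ins C) hCm.opn hCm.conn.nonempty hins
  obtain ⟨k, hk⟩ := hCd F (hFc.mono hCN) fun x hx => hF0 x (hCN hx)
  -- (iii)
  have key : ∀ (g : Y → ℂ) (a b : ℤ), ContinuousOn g ((J ∪ ins J) \ ins C) →
      (∀ x ∈ (J ∪ ins J) \ ins C, g x ≠ 0) → Deg J fJ g a → Deg C fC g b → a = n * b := by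
    intro g a b hgc hg0 hga hgb
    have hq : ContinuousOn (fun x => g x / g1 x ^ b) ((J ∪ ins J) \ ins C) :=
      hgc.div (hg1c.zpow₀ b fun x hx => Or.inl (hg10 x hx))
        fun x hx => zpow_ne_zero _ (hg10 x hx)
    have hq0 : ∀ x ∈ (J ∪ ins J) \ ins C, g x / g1 x ^ b ≠ 0 := fun x hx =>
      div_ne_zero (hg0 x hx) (zpow_ne_zero _ (hg10 x hx))
    obtain ⟨l, hl, he⟩ := hgb
    obtain ⟨l', hl', hl2⟩ := tietze hCcl hl
    obtain ⟨h, hh1, hh2, hh3⟩ := glue (A := (J ∪ ins J) \ ins C) (B := C ∪ ins C)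
      hNc.isClosed hCm.cpt.isClosed hq (Complex.continuous_exp.comp hl').continuousOn (by
        rintro x ⟨hx1, hx2 | hx2⟩
        · show g x / g1 x ^ b = Complex.exp (l' x)
          rw [hl2 x hx2, he x hx2, hg1e hx2]
        · exact absurd hx2 hx1.2)
    have hsub : J ∪ ins J ⊆ (J ∪ ins J) \ ins C ∪ (C ∪ ins C) := by
      intro x hx
      by_cases hxC : x ∈ ins C
      · exact Or.inr (Or.inr hxC)
      · exact Or.inl ⟨hx, hxC⟩
    have hh0 : ∀ x ∈ J ∪ ins J, h x ≠ 0 := by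
      intro x hx
      rcases hsub hx with h4 | h4
      · rw [hh2 x h4]
        exact hq0 x h4
      · rw [hh3 x h4]
        exact Complex.exp_ne_zero _
    have hdeg : Deg J fJ h (a - n * b) := by
      have h5 : CLog J fun x => (g x / fJ x ^ a) / (g1 x / fJ x ^ n) ^ b :=
        Pool.Agent.LIX.CLog.div hga (Pool.Agent.LIX.CLog.zpow hn b)
      refine Pool.Agent.LIX.CLog.congr h5 fun x hx => ?_
      rw [hh2 x (hJN hx)]
      have h6 : fJ x ≠ 0 := hJ0 x hx
      have h7 : g1 x ≠ 0 := hg10 x (hJN hx)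
      rw [zpow_sub₀ h6, zpow_mul, div_zpow]
      have h8 : fJ x ^ a ≠ 0 := zpow_ne_zero _ h6
      have h9 : (fJ x ^ n) ^ b ≠ 0 := zpow_ne_zero _ (zpow_ne_zero _ h6)
      have h10 : g1 x ^ b ≠ 0 := zpow_ne_zero _ h7
      field_simp
    have h11 := deg_zero hFIV hU hJ hJU hGJ hJcl hJ0 (hh1.mono hsub) hh0 hdeg
    omega
  -- (iv)
  have h1 : Deg J fJ F 1 := by
    refine Pool.Agent.LIX.CLog.congr (Pool.Agent.LIX.cLog_const (one_ne_zero)) fun x hx => ?_
    rw [hFe hx, zpow_one, div_self (hJ0 x hx)]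
  have h2 : 1 = n * k := key F 1 k hFc hF0 h1 hk
  have h3 : n = 1 ∨ n = -1 := Int.isUnit_iff.1 (IsUnit.of_mul_eq_one k h2.symm)
  exact ⟨n, h3, key⟩

end BBP


end

section

/-!
# Module TRI: increments
-/

namespace BBP

open Set Topology

namespace TRI

/-- values of `exp` equal and close: equal -/
theorem eq_of_exp {z w : ℂ} (h : Complex.exp z = Complex.exp w) (hd : dist z w < 2 * Real.pi) :
    z = w := by
  obtain ⟨n, hn⟩ := Complex.exp_eq_exp_iff_exists_int.1 h
  have h1 : dist z w = |(n : ℝ)| * (2 * Real.pi) := by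
    rw [hn, dist_eq_norm]
    have : w + (n : ℂ) * (2 * Real.pi * Complex.I) - w = (n : ℂ) * (2 * Real.pi * Complex.I) := by
      ring
    rw [this, norm_mul, norm_mul, Complex.norm_I, mul_one, norm_mul]
    rw [Complex.norm_intCast, Complex.norm_real, Complex.norm_ofNat, Real.norm_eq_abs,
      abs_of_pos Real.pi_pos]
  rw [h1] at hd
  have hpi := Real.pi_pos
  have h2 : |(n : ℝ)| < 1 := by
    by_contra h3
    push Not at h3
    nlinarith
  have h3 : n = 0 := by
    have h4 : |n| < 1 := by exact_mod_cast h2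
    exact Int.abs_lt_one_iff.1 h4
  rw [hn, h3]
  simp

end TRI

open TRI

theorem t_TRI : S_TRI := by
  intro Y _ T β l θ hT hβ hl hθ hexp h0 h1 hgap
  set K0 : Set ℝ := Icc 0 1 ∩ β ⁻¹' T with hK0
  have hK0c : IsClosed K0 := hβ.preimage_isClosed_of_isClosed isClosed_Icc hT
  set k : ℝ → ℂ := fun t => θ t - l (β t) with hk
  have hkc : ContinuousOn k K0 := by
    refine (hθ.mono inter_subset_left).sub (hl.comp (hβ.mono inter_subset_left) ?_)
    intro t ht
    exact ht.2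
  have hkexp : ∀ t ∈ K0, Complex.exp (k t) = 1 := by
    intro t ht
    rw [hk]
    simp only
    rw [Complex.exp_sub, hexp t ht.1 ht.2, div_self (Complex.exp_ne_zero _)]
  have hloc : ∀ t ∈ K0, ∃ δ > 0, ∀ s ∈ K0, |s - t| < δ → k s = k t := by
    intro t ht
    have h2 := Metric.continuousOn_iff.1 hkc t ht (2 * Real.pi) (by positivity)
    obtain ⟨δ, hδ, h3⟩ := h2
    refine ⟨δ, hδ, fun s hs hst => ?_⟩
    have h4 := h3 s hs (by rw [Real.dist_eq]; exact hst)
    exact eq_of_exp (by rw [hkexp s hs, hkexp t ht]) h4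
  have h0K : (0 : ℝ) ∈ K0 := ⟨⟨le_refl _, zero_le_one⟩, h0⟩
  have h1K : (1 : ℝ) ∈ K0 := ⟨⟨zero_le_one, le_refl _⟩, h1⟩
  set M : Set ℝ := {t | t ∈ K0 ∧ k t = k 0} with hM
  have hMne : M.Nonempty := ⟨0, h0K, rfl⟩
  have hMb : BddAbove M := ⟨1, fun t ht => ht.1.1.2⟩
  set m := sSup M with hm
  have hm0 : 0 ≤ m := le_csSup hMb ⟨h0K, rfl⟩
  have hm1 : m ≤ 1 := csSup_le hMne fun t ht => ht.1.1.2
  have hmcl : m ∈ closure M := csSup_mem_closure hMne hMb
  have hmK : m ∈ K0 := by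
    have : closure M ⊆ K0 := closure_minimal (fun t ht => ht.1) hK0c
    exact this hmcl
  have hmM : k m = k 0 := by
    obtain ⟨δ, hδ, h2⟩ := hloc m hmK
    obtain ⟨t, ht, htd⟩ := Metric.mem_closure_iff.1 hmcl δ hδ
    rw [← ht.2]
    refine (h2 t ht.1 ?_).symm
    rw [Real.dist_eq] at htd
    rw [abs_sub_comm]
    exact htd
  have hmeq : m = 1 := by
    by_contra hne
    have hlt : m < 1 := lt_of_le_of_ne hm1 hne
    set S : Set ℝ := K0 ∩ Ioc m 1 with hS
    have hSne : S.Nonempty := ⟨1, h1K, hlt, le_refl _⟩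
    have hSb : BddBelow S := ⟨m, fun t ht => ht.2.1.le⟩
    set m' := sInf S with hm'
    have hmm' : m ≤ m' := le_csInf hSne fun t ht => ht.2.1.le
    have hm'cl : m' ∈ closure S := csInf_mem_closure hSne hSb
    have hm'K : m' ∈ K0 := by
      have : closure S ⊆ K0 := closure_minimal (fun t ht => ht.1) hK0c
      exact this hm'cl
    have hne' : m < m' := by
      rcases hmm'.lt_or_eq with h | h
      · exact h
      · exfalso
        obtain ⟨δ, hδ, h2⟩ := hloc m hmK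
        rw [← h] at hm'cl
        obtain ⟨t, ht, htd⟩ := Metric.mem_closure_iff.1 hm'cl δ hδ
        have h3 : k t = k m := h2 t ht.1 (by
          rw [Real.dist_eq] at htd
          rw [abs_sub_comm]
          exact htd)
        have h4 : t ≤ m := le_csSup hMb ⟨ht.1, by rw [h3, hmM]⟩
        exact absurd ht.2.1 (not_lt.2 h4)
    have hgap' := hgap m m' hm0 hne' hm'K.1.2 hmK.2 hm'K.2 (by
      intro r hr hrT
      have : r ∈ S := ⟨⟨⟨hm0.trans hr.1.le, hr.2.le.trans hm'K.1.2⟩, hrT⟩, hr.1,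
        hr.2.le.trans hm'K.1.2⟩
      exact absurd hr.2 (not_lt.2 (csInf_le hSb this)))
    have h5 : k m' = k m := by
      rw [hk]
      simp only
      linear_combination hgap'
    have h6 : m' ≤ m := le_csSup hMb ⟨hm'K, by rw [h5, hmM]⟩
    exact absurd hne' (not_lt.2 h6)
  rw [hmeq] at hmM
  rw [hk] at hmM
  simp only at hmM
  linear_combination hmM

end BBP


end

section

/-!
# BBP, block B, module UNI: the universe
-/

set_option autoImplicit false

namespace BBP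

open Set Topology
open Pool.Agent.LIX (CLog)

theorem t_UNI : M_UNI := by
  intro hCMP hPNT hSML hDEG hCTH hCTR Y _ hAx ⟨L, K, f, hL, hK, hLK, hf, hf0, hext⟩
  have := hAx.lc
  obtain ⟨Q, hQK, hQ⟩ := hCMP Y hAx L K f hL hK hLK hf hf0 hext
  obtain ⟨x, hx⟩ := hQ.conn.nonempty
  obtain ⟨G0, -, hG0o, hxG0, H0, hH0c, hH00, hH01, -⟩ := hAx.loc x univ isOpen_univ (mem_univ x)
  obtain ⟨K1, hK1c, hxK1, hK1s⟩ := exists_compact_subset (hG0o.inter hQ.opn) ⟨hxG0, hx⟩
  have hNK1 : closure (interior K1) ⊆ K1 := closure_minimal interior_subset hK1c.isClosed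
  have hNc : IsCompact (closure (interior K1)) := hK1c.of_isClosed_subset isClosed_closure hNK1
  have hNG : closure (interior K1) ⊆ G0 := fun y hy => (hK1s (hNK1 hy)).1
  obtain ⟨W1, hW1N, hW1o, hxW1, H1, hH1c, hH10, hH11, hH1N⟩ :=
    hAx.loc x (interior K1) isOpen_interior hxK1
  obtain ⟨F, hF⟩ := hPNT Y hAx L Q f x hQ hx
  obtain ⟨J0, hJ0, hJ0W, -, -, -⟩ := hSML Y hAx L Q f F x hQ hx hF W1 hW1o hxW1
  obtain ⟨⟨f0, hgen⟩, hD, -⟩ := hDEG Y J0 hJ0
  obtain ⟨hf0c, hf0n, -, -⟩ := hD f0 hgen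
  have hcon : Contr (closure (interior K1)) J0 :=
    hCTH Y _ J0 W1 H1 x hH1c hH10 hH11 hJ0W
      fun y hy t ht => subset_closure (hH1N y (hJ0W hy) t ht)
  have hJ0N : J0 ⊆ closure (interior K1) := (hJ0W.trans hW1N).trans subset_closure
  have hJ0c : IsCompact J0 := by
    obtain ⟨γ, hγ, rfl⟩ := hJ0
    exact hγ.2.1.compact_of_continuous one_ne_zero hγ.1
  have hne : ¬ ExtC J0 (closure (interior K1)) f0 := by
    rintro ⟨F1, h1, h2, h3⟩
    exact hCTR Y _ J0 f0 1 hgen hcon one_ne_zero ⟨F1, h1, h2, fun y hy => by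
      rw [zpow_one]
      exact h3 hy⟩
  obtain ⟨U, hUN, hU⟩ := hCMP Y hAx J0 _ f0 hJ0c hNc hJ0N hf0c hf0n hne
  have hsub : closure (interior K1) ⊆ H0 '' (closure (interior K1) ×ˢ Icc 0 1) := fun y hy =>
    ⟨(y, 0), ⟨hy, by simp⟩, hH00 y (hNG hy)⟩
  refine ⟨U, J0, H0 '' (closure (interior K1) ×ˢ Icc 0 1), f0, hAx, hJ0, hgen, hU, ?_, ?_, ?_⟩
  · exact (hNc.prod isCompact_Icc).image_of_continuousOn
      (hH0c.mono (prod_mono hNG Subset.rfl))
  · exact union_subset (hUN.trans hsub) (hJ0N.trans hsub)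
  · intro C _ hCU
    exact hCTH Y _ C G0 H0 x hH0c hH00 hH01 ((hCU.trans hUN).trans hNG)
      fun y hy t ht => ⟨(y, t), ⟨hUN (hCU hy), ht⟩, rfl⟩

end BBP


end
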