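import Mathlib
import Pool.Agent.BBM.C08

/-! Parts: BBP.A_CEX, BBP.A_COC, BBP.A_EQU, BBP.A_FBX, BBP.A_INT, BBP.A_NEX, BBP.A_OBC, BBP.A_OL, BBP.A_PEX, BBP.A_ROB, BBP.A_ROT, BBP.A_VLO, BBP.A_VNZ, BBP.B_ACC, BBP.B_EON, BBP.B_INC, BBP.B_INQ, BBP.B_JCT, BBP.B_LPC, BBP.B_SCA -/

section

set_option autoImplicit false

namespace BBP

open Set Topology CTO

theorem t_CEX : M_CEX := by
  intro hCOC K _ _ L E f hL hE hLE hf hf0 hext
  obtain ⟨F, hF, hF0, hFf⟩ := hext
  obtain ⟨a1, -, -⟩ := hCOC K L f hL hf hf0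
  obtain ⟨a2, ⟨ε, hε, hco⟩, -⟩ := hCOC K E F hE hF hF0
  refine ⟨fun x y => cc L f x y - cc E F x y, ?_, ?_, ε, hε, ?_⟩
  · intro a b
    simp only
    rw [a1 a b, a2 a b]
    ring
  · intro x hx y hy
    have e1 : th F x = th f x := by simp only [th]; rw [hFf hx]
    have e2 : th F y = th f y := by simp only [th]; rw [hFf hy]
    simp only [cc]
    rw [if_pos ⟨hx, hy⟩, if_pos ⟨hLE hx, hLE hy⟩, e1, e2]
    ring
  · intro a ha b hb c hc hs
    have h := hco a ha b hb c hc hs
    simp only [d1] at h ⊢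
    linarith

end BBP


end

section

/-!
# BBP, module COC: the cocycle of a map to the punctured plane
-/

set_option autoImplicit false

namespace BBP

open Set Topology CTO

namespace COC

theorem rnd_neg (r : ℝ) : rnd (-r) = -rnd r := by
  unfold rnd
  rcases lt_trichotomy r 0 with h | h | h
  · rw [if_pos (by linarith), if_neg (by linarith)]
    simp
  · subst h
    norm_num
  · rw [if_neg (by linarith), if_pos h.le]
    simp

theorem abs_sub_rnd (r : ℝ) : |r - rnd r| ≤ 1 / 2 := by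
  unfold rnd
  split_ifs with h
  · have h1 := Int.floor_le (r + 1 / 2)
    have h2 := Int.lt_floor_add_one (r + 1 / 2)
    rw [abs_le]
    constructor <;> linarith
  · have h1 := Int.floor_le (-r + 1 / 2)
    have h2 := Int.lt_floor_add_one (-r + 1 / 2)
    rw [abs_le]
    push_cast
    constructor <;> linarith

theorem exp_th {K : Type} (f : K → ℂ) (x : K) (hx : f x ≠ 0) :
    Complex.exp (Complex.I * ((2 * Real.pi * th f x : ℝ) : ℂ)) = f x / ‖f x‖ := by
  have h1 : 2 * Real.pi * th f x = Complex.arg (f x) := by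
    unfold th
    field_simp
  rw [h1]
  have h2 := Complex.norm_mul_exp_arg_mul_I (f x)
  have h3 : ((‖f x‖ : ℝ) : ℂ) ≠ 0 := by
    exact_mod_cast norm_ne_zero_iff.2 hx
  rw [eq_div_iff h3, mul_comm, mul_comm Complex.I]
  exact h2

theorem key (t : ℝ) (h : ‖Complex.exp (Complex.I * ((2 * Real.pi * t : ℝ) : ℂ)) - 1‖ ≤ 1 / 4) :
    |t - rnd t| ≤ 1 / 16 := by
  obtain ⟨s, hs⟩ : ∃ s : ℝ, s = t - rnd t := ⟨_, rfl⟩
  have h1 : Complex.exp (Complex.I * ((2 * Real.pi * t : ℝ) : ℂ)) =
      Complex.exp (Complex.I * ((2 * Real.pi * s : ℝ) : ℂ)) := by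
    have h2 : Complex.I * ((2 * Real.pi * t : ℝ) : ℂ) =
        Complex.I * ((2 * Real.pi * s : ℝ) : ℂ) + (rnd t : ℤ) * (2 * Real.pi * Complex.I) := by
      rw [hs]
      push_cast
      ring
    rw [h2, Complex.exp_add, Complex.exp_int_mul_two_pi_mul_I, mul_one]
  rw [h1, Complex.norm_exp_I_mul_ofReal_sub_one] at h
  have h3 : |s| ≤ 1 / 2 := by
    rw [hs]
    exact abs_sub_rnd t
  have hpi := Real.pi_pos
  have h4 : |Real.pi * s| ≤ Real.pi / 2 := by
    rw [abs_mul, abs_of_pos hpi]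
    nlinarith
  have h5 := Real.mul_abs_le_abs_sin h4
  rw [abs_mul, abs_of_pos hpi] at h5
  have h6 : 2 / Real.pi * (Real.pi * |s|) = 2 * |s| := by
    field_simp
  rw [h6] at h5
  have h7 : 2 * Real.pi * s / 2 = Real.pi * s := by ring
  rw [h7, norm_mul, Real.norm_eq_abs, Real.norm_eq_abs] at h
  have h8 : |(2 : ℝ)| = 2 := abs_of_pos two_pos
  rw [h8] at h
  rw [← hs]
  linarith

end COC

open COC in
theorem t_COC : S_COC := by
  intro K _ _ L f hL hf hne
  have h3 : ∃ ε > 0, ∀ x ∈ L, ∀ y ∈ L, dist x y < ε →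
      |th f y - th f x - cc L f x y| ≤ 1 / 16 := by
    have hu : ContinuousOn (fun x => f x / (‖f x‖ : ℂ)) L := by
      refine hf.div ?_ ?_
      · exact Complex.continuous_ofReal.comp_continuousOn hf.norm
      · intro x hx
        exact_mod_cast norm_ne_zero_iff.2 (hne x hx)
    have huc := hL.isCompact.uniformContinuousOn_of_continuous hu
    rw [Metric.uniformContinuousOn_iff] at huc
    obtain ⟨ε, hε, h⟩ := huc (1 / 4) (by norm_num)
    refine ⟨ε, hε, fun x hx y hy hxy => ?_⟩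
    have h1 := h x hx y hy hxy
    have h2 : cc L f x y = rnd (th f y - th f x) := by
      unfold cc
      rw [if_pos ⟨hx, hy⟩]
    rw [h2]
    apply key
    have e1 := exp_th f x (hne x hx)
    have e2 := exp_th f y (hne y hy)
    have e3 : Complex.exp (Complex.I * ((2 * Real.pi * (th f y - th f x) : ℝ) : ℂ)) =
        (f y / ‖f y‖) / (f x / ‖f x‖) := by
      rw [← e1, ← e2, ← Complex.exp_sub]
      congr 1
      push_cast
      ring
    have h5 : ‖f x / (‖f x‖ : ℂ)‖ = 1 := by
      rw [norm_div, Complex.norm_real, norm_norm, div_self (norm_ne_zero_iff.2 (hne x hx))]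
    have h6 : f x / (‖f x‖ : ℂ) ≠ 0 := by
      intro h0
      rw [h0, norm_zero] at h5
      exact zero_ne_one h5
    have h7 : (f y / ‖f y‖) / (f x / ‖f x‖) - 1 = (f y / ‖f y‖ - f x / ‖f x‖) / (f x / ‖f x‖) := by
      rw [sub_div, div_self h6]
    rw [e3, h7, norm_div, h5, div_one]
    rw [dist_eq_norm, norm_sub_rev] at h1
    exact h1.le
  refine ⟨?_, ?_, h3⟩
  · intro x y
    unfold cc
    by_cases h : x ∈ L ∧ y ∈ L
    · rw [if_pos h, if_pos h.symm, ← rnd_neg, neg_sub]
    · rw [if_neg h, if_neg (fun h' => h h'.symm), neg_zero]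
  · obtain ⟨ε, hε, h⟩ := h3
    refine ⟨ε, hε, fun a ha b hb c hc hs => ?_⟩
    have hab := h a ha b hb (hs a (by simp) b (by simp))
    have hac := h a ha c hc (hs a (by simp) c (by simp))
    have hbc := h b hb c hc (hs b (by simp) c (by simp))
    rw [abs_le] at hab hac hbc
    have h1 : |((d1 (cc L f) a b c : ℤ) : ℝ)| < 1 := by
      unfold d1
      push_cast
      rw [abs_lt]
      constructor <;> linarith
    have h2 : |d1 (cc L f) a b c| < 1 := by exact_mod_cast h1
    exact Int.abs_lt_one_iff.1 h2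

end BBP


end

section

/-!
# BBP, EQU: the equator
-/

set_option autoImplicit false

namespace BBP

open Set Topology CTO

namespace EQU

theorem tz {X Y : Type} [TopologicalSpace X] [NormalSpace X] [TopologicalSpace Y]
    [TietzeExtension.{0} Y] {L : Set X} (hL : IsClosed L) (f : X → Y) (hf : ContinuousOn f L) :
    ∃ g : X → Y, Continuous g ∧ EqOn g f L := by
  obtain ⟨g, hg⟩ := ContinuousMap.exists_restrict_eq hL ⟨L.domRestrict f, hf.domRestrict⟩
  refine ⟨g, g.continuous, fun x hx => ?_⟩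
  have h1 := congrArg (fun u : C(L, Y) => u ⟨x, hx⟩) hg
  exact h1

end EQU

theorem t_EQU : S_EQU := by
  intro X _ _ H L K f hL hK hLK hf hf0
  classical
  have hc : ∀ i : Fin 3, ContinuousOn (fun x => f x i) L := by
    intro i
    exact (EuclideanSpace.proj (𝕜 := ℝ) i).continuous.comp_continuousOn hf
  obtain ⟨h, hhc, hh⟩ := EQU.tz (Y := ℝ) hL (fun x => f x 2) (hc 2)
  set K0 : Set X := K ∩ {x | h x = 0} with hK0
  have hK0c : IsClosed K0 := hK.inter (isClosed_eq hhc continuous_const)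
  set g0 : X → ℂ := fun x => ⟨f x 0, f x 1⟩ with hg0
  have hg0c : ContinuousOn g0 L := by
    have e : g0 = fun x => ((f x 0 : ℝ) : ℂ) + ((f x 1 : ℝ) : ℂ) * Complex.I := by
      funext x
      apply Complex.ext <;> simp [hg0]
    rw [e]
    exact (Complex.continuous_ofReal.comp_continuousOn (hc 0)).add
      ((Complex.continuous_ofReal.comp_continuousOn (hc 1)).mul continuousOn_const)
  obtain ⟨G, hGc, hG0, hGe⟩ := H (L ∩ K0) K0 g0 (hL.inter hK0c) hK0c inter_subset_right
    (hg0c.mono inter_subset_left) (by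
      intro y hy h0
      apply hf0 y hy.1
      have h2 : f y 2 = 0 := (hh hy.1).symm.trans hy.2.2
      have h3 : f y 0 = 0 := congrArg Complex.re h0
      have h4 : f y 1 = 0 := congrArg Complex.im h0
      ext i
      fin_cases i
      · exact h3
      · exact h4
      · exact h2)
  set G1 : X → ℂ := fun x => if x ∈ K0 then G x else g0 x with hG1
  have hG1K : EqOn G1 G K0 := fun x hx => if_pos hx
  have hG1L : EqOn G1 g0 L := by
    intro x hx
    by_cases hx0 : x ∈ K0
    · rw [hG1K hx0]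
      exact hGe ⟨hx, hx0⟩
    · exact if_neg hx0
  have hG1c : ContinuousOn G1 (L ∪ K0) :=
    (hg0c.congr hG1L).union_of_isClosed (hGc.congr hG1K) hL hK0c
  obtain ⟨G', hG'c, hG'⟩ := EQU.tz (hL.union hK0c) G1 hG1c
  refine ⟨fun x => !₂[(G' x).re, (G' x).im, h x], ?_, ?_, ?_⟩
  · refine Continuous.continuousOn ?_
    refine (PiLp.continuous_toLp 2 _).comp (continuous_pi fun i => ?_)
    fin_cases i
    · exact Complex.continuous_re.comp hG'c
    · exact Complex.continuous_im.comp hG'c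
    · exact hhc
  · intro x hx h0
    have e0 : (G' x).re = 0 := by
      have := congrArg (fun v : R3 => v 0) h0
      simpa using this
    have e1 : (G' x).im = 0 := by
      have := congrArg (fun v : R3 => v 1) h0
      simpa using this
    have e2 : h x = 0 := by
      have := congrArg (fun v : R3 => v 2) h0
      simpa using this
    have hx0 : x ∈ K0 := ⟨hx, e2⟩
    apply hG0 x hx0
    rw [← hG1K hx0, ← hG' (Or.inr hx0)]
    exact Complex.ext e0 e1
  · intro x hx
    have e : G' x = g0 x := by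
      rw [hG' (Or.inl hx), hG1L hx]
    ext i
    fin_cases i
    · change (G' x).re = f x 0
      rw [e]
    · change (G' x).im = f x 1
      rw [e]
    · change h x = f x 2
      exact hh hx

end BBP


end

section

/-!
# BBP, module FBX: flow box
-/

set_option autoImplicit false

namespace BBP

open Set Topology CTO

namespace FBX

variable {X : Type} [MetricSpace X]

/-- the flow box for `0 < T` -/
theorem pos (φ : ℝ → X → X)
    (hφ : Continuous fun p : ℝ × X => φ p.1 p.2) (h0 : ∀ x, φ 0 x = x)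
    (hadd : ∀ s t x, φ (s + t) x = φ s (φ t x)) (p : X) (T : ℝ) (hTp : φ T p ≠ p) :
    ∃ (S : Set X) (a : ℝ), IsClosed S ∧ 0 < a ∧
      InjOn (fun q : X × ℝ => φ q.2 q.1) (S ×ˢ Icc (-a) a) ∧
      (fun q : X × ℝ => φ q.2 q.1) '' (S ×ˢ Icc (-a) a) ∈ 𝓝 p := by
  set θ : X → ℝ := fun x => ∫ s in (0 : ℝ)..T, dist (φ s x) p with hθ
  have hθc : Continuous θ := by
    refine intervalIntegral.continuous_parametric_intervalIntegral_of_continuous'
      (f := fun (x : X) (s : ℝ) => dist (φ s x) p) ?_ 0 T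
    have : Continuous fun q : X × ℝ => φ q.2 q.1 := hφ.comp (continuous_snd.prodMk continuous_fst)
    exact this.dist continuous_const
  have horb : ∀ x, Continuous fun s : ℝ => dist (φ s x) p := fun x =>
    (hφ.comp (continuous_id.prodMk continuous_const)).dist continuous_const
  have hθt : ∀ t x, θ (φ t x) = ∫ s in t..(t + T), dist (φ s x) p := by
    intro t x
    simp only [hθ]
    have h1 : ∀ s : ℝ, dist (φ s (φ t x)) p = (fun u : ℝ => dist (φ u x) p) (s + t) := by
      intro s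
      simp only [hadd]
    rw [intervalIntegral.integral_congr (fun s _ => h1 s),
      intervalIntegral.integral_comp_add_right (fun u : ℝ => dist (φ u x) p) t]
    rw [zero_add, add_comm T t]
  have hdiff : ∀ t t' x, θ (φ t' x) - θ (φ t x) =
      ∫ s in t..t', (dist (φ (s + T) x) p - dist (φ s x) p) := by
    intro t t' x
    have hi : ∀ u v : ℝ, IntervalIntegrable (fun s : ℝ => dist (φ s x) p) MeasureTheory.volume u v :=
      fun u v => (horb x).intervalIntegrable u v
    have hi2 : IntervalIntegrable (fun s : ℝ => dist (φ (s + T) x) p)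
        MeasureTheory.volume t t' :=
      ((horb x).comp (continuous_id.add continuous_const)).intervalIntegrable t t'
    rw [hθt, hθt, intervalIntegral.integral_sub hi2 (hi t t'),
      intervalIntegral.integral_comp_add_right (fun u : ℝ => dist (φ u x) p) T,
      ← intervalIntegral.integral_add_adjacent_intervals (hi t' t) (hi t (t' + T)),
      ← intervalIntegral.integral_add_adjacent_intervals (hi t (t + T)) (hi (t + T) (t' + T)),
      intervalIntegral.integral_symm t t']
    ring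
  -- the constants
  set c : ℝ := dist (φ T p) p / 2 with hc
  have hc0 : 0 < c := by
    have := dist_pos.2 hTp
    rw [hc]
    positivity
  have hev1 : ∀ᶠ q : ℝ × X in 𝓝 ((0 : ℝ), p),
      c < dist (φ (q.1 + T) q.2) p - dist (φ q.1 q.2) p := by
    have hcont : Continuous fun q : ℝ × X =>
        dist (φ (q.1 + T) q.2) p - dist (φ q.1 q.2) p := by
      refine Continuous.sub ?_ ?_
      · exact (hφ.comp ((continuous_fst.add continuous_const).prodMk continuous_snd)).dist
          continuous_const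
      · exact hφ.dist continuous_const
    refine (hcont.tendsto _).eventually (lt_mem_nhds ?_)
    simp only [zero_add, h0, dist_self, sub_zero]
    have := dist_pos.2 hTp
    rw [hc]
    linarith
  obtain ⟨δ, hδ, hδ1⟩ := Metric.eventually_nhds_iff.1 hev1
  have hB1 : ∀ s x, |s| < δ → dist x p < δ →
      c < dist (φ (s + T) x) p - dist (φ s x) p := by
    intro s x hs hx
    refine hδ1 (y := (s, x)) ?_
    rw [Prod.dist_eq]
    refine max_lt ?_ hx
    simpa [Real.dist_eq] using hs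
  have hmono : ∀ t t' x, |t| < δ → |t'| < δ → dist x p < δ → t ≤ t' →
      c * (t' - t) ≤ θ (φ t' x) - θ (φ t x) := by
    intro t t' x ht ht' hx htt
    rw [hdiff]
    have hcs : ∫ s in t..t', c = c * (t' - t) := by
      rw [intervalIntegral.integral_const, smul_eq_mul, mul_comm]
    rw [← hcs]
    refine intervalIntegral.integral_mono_on htt ?_ ?_ ?_
    · exact continuous_const.intervalIntegrable _ _
    · refine Continuous.intervalIntegrable ?_ _ _
      exact ((horb x).comp (continuous_id.add continuous_const)).sub (horb x)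
    · intro s hs
      refine (hB1 s x ?_ hx).le
      rw [abs_lt] at ht ht' ⊢
      exact ⟨by linarith [hs.1], by linarith [hs.2]⟩
  -- the second neighbourhood
  have hev2 : ∀ᶠ q : ℝ × X in 𝓝 ((0 : ℝ), p), dist (φ q.1 q.2) p < δ / 2 := by
    have hcont : Continuous fun q : ℝ × X => dist (φ q.1 q.2) p := hφ.dist continuous_const
    refine (hcont.tendsto _).eventually (gt_mem_nhds ?_)
    simp only [h0, dist_self]
    linarith
  obtain ⟨η, hη, hη1⟩ := Metric.eventually_nhds_iff.1 hev2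
  have hB2 : ∀ s x, |s| < η → dist x p < η → dist (φ s x) p < δ / 2 := by
    intro s x hs hx
    refine hη1 (y := (s, x)) ?_
    rw [Prod.dist_eq]
    refine max_lt ?_ hx
    simpa [Real.dist_eq] using hs
  set a : ℝ := min (δ / 3) (η / 2) with ha
  have ha0 : 0 < a := by
    rw [ha]
    exact lt_min (by linarith) (by linarith)
  have ha1 : a ≤ δ / 3 := min_le_left _ _
  have ha2 : a ≤ η / 2 := min_le_right _ _
  refine ⟨Metric.closedBall p (δ / 2) ∩ {x | θ x = θ p}, a, ?_, ha0, ?_, ?_⟩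
  · exact Metric.isClosed_closedBall.inter (isClosed_eq hθc continuous_const)
  · rintro ⟨x, t⟩ ⟨⟨hx, hxθ⟩, ht⟩ ⟨x', t'⟩ ⟨⟨hx', hxθ'⟩, ht'⟩ heq
    simp only [mem_ofPred_eq] at hxθ hxθ'
    simp only at heq ht ht'
    have hxx : x' = φ (t - t') x := by
      have h1 : φ (-t') (φ t x) = φ (-t') (φ t' x') := by rw [heq]
      rw [← hadd, ← hadd, neg_add_cancel, h0] at h1
      rw [← h1]
      congr 1
      ring
    have hxd : dist x p < δ := by
      have := Metric.mem_closedBall.1 hx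
      linarith
    have hθx : θ (φ (t - t') x) = θ (φ 0 x) := by
      rw [h0, ← hxx, hxθ, hxθ']
    have hu : |t - t'| < δ := by
      rw [abs_lt]
      have h1 := ht.1
      have h2 := ht.2
      have h3 := ht'.1
      have h4 := ht'.2
      exact ⟨by linarith, by linarith⟩
    have hz : |(0 : ℝ)| < δ := by simpa using hδ
    have htt : t - t' = 0 := by
      rcases le_total (t - t') 0 with h | h
      · have := hmono (t - t') 0 x hu hz hxd h
        rw [hθx, sub_self] at this
        by_contra hne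
        have hlt : t - t' < 0 := lt_of_le_of_ne h hne
        have : 0 < c * (0 - (t - t')) := mul_pos hc0 (by linarith)
        linarith
      · have := hmono 0 (t - t') x hz hu hxd h
        rw [hθx, sub_self] at this
        by_contra hne
        have hlt : 0 < t - t' := lt_of_le_of_ne h (Ne.symm hne)
        have : 0 < c * ((t - t') - 0) := mul_pos hc0 (by linarith)
        linarith
    have hte : t = t' := by linarith
    rw [htt, h0] at hxx
    rw [hxx, hte]
  · have hn1 : ∀ᶠ y in 𝓝 p, dist y p < min η δ :=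
      Metric.ball_mem_nhds p (lt_min hη hδ)
    have hn2 : ∀ᶠ y in 𝓝 p, θ y < θ p + c * a := by
      refine (hθc.tendsto p).eventually (gt_mem_nhds ?_)
      have := mul_pos hc0 ha0
      linarith
    have hn3 : ∀ᶠ y in 𝓝 p, θ p - c * a < θ y := by
      refine (hθc.tendsto p).eventually (lt_mem_nhds ?_)
      have := mul_pos hc0 ha0
      linarith
    filter_upwards [hn1, hn2, hn3] with y hy1 hy2 hy3
    have hyη : dist y p < η := lt_of_lt_of_le hy1 (min_le_left _ _)
    have hyδ : dist y p < δ := lt_of_lt_of_le hy1 (min_le_right _ _)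
    have hz : |(0 : ℝ)| < δ := by simpa using hδ
    have haδ : |a| < δ := by
      rw [abs_of_pos ha0]
      linarith
    have haδ' : |-a| < δ := by
      rw [abs_neg]
      exact haδ
    have hup := hmono 0 a y hz haδ hyδ ha0.le
    have hlo := hmono (-a) 0 y haδ' hz hyδ (by linarith)
    rw [h0] at hup hlo
    have hcont : ContinuousOn (fun t : ℝ => θ (φ t y)) (Icc (-a) a) :=
      (hθc.comp (hφ.comp (continuous_id.prodMk continuous_const))).continuousOn
    have hivt := intermediate_value_Icc (by linarith : -a ≤ a) hcont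
    have hmem : θ p ∈ Icc (θ (φ (-a) y)) (θ (φ a y)) := by
      refine ⟨?_, ?_⟩
      · have : c * (0 - -a) = c * a := by ring
        linarith
      · have : c * (a - 0) = c * a := by ring
        linarith
    obtain ⟨t, ht, hte⟩ := hivt hmem
    refine ⟨(φ t y, -t), ⟨⟨?_, hte⟩, ?_⟩, ?_⟩
    · rw [Metric.mem_closedBall]
      refine (hB2 t y ?_ hyη).le
      rw [abs_lt]
      exact ⟨by linarith [ht.1], by linarith [ht.2]⟩
    · exact ⟨by linarith [ht.2], by linarith [ht.1]⟩
    · show φ (-t) (φ t y) = y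
      rw [← hadd, neg_add_cancel, h0]

end FBX

theorem t_FBX : S_FBX := by
  intro X _ _ φ hφ h0 hadd p T hTp
  exact FBX.pos φ hφ h0 hadd p T hTp

end BBP


end

section

/-!
# MP_6eac38_gt, part 3: module INT (the interval)
-/

set_option autoImplicit false

namespace BBP

open Set Topology CTO

namespace INT

theorem le_one {a : ℝ} (ha : 0 < a) : ShrLE (Icc (-a) a) 1 := by
  intro k U hU hcov
  obtain ⟨δ, hδ, hL⟩ := lebesgue_number_lemma_of_metric (isCompact_univ (X := Icc (-a) a)) hU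
    hcov.symm.subset
  set η : ℝ := δ / 2 with hη
  have hη0 : 0 < η := by positivity
  let W : ℤ → Set (Icc (-a) a) := fun j => {x | |(x : ℝ) / η - j| < 3 / 4}
  have hWo : ∀ j, IsOpen (W j) := by
    intro j
    apply isOpen_lt _ continuous_const
    exact ((continuous_subtype_val.div_const η).sub continuous_const).abs
  have h0 : (0 : ℝ) ∈ Icc (-a) a := ⟨by linarith, ha.le⟩
  have hc : ∀ j, ∃ i, W j ⊆ U i := by
    intro j
    rcases (W j).eq_empty_or_nonempty with he | ⟨x, hx⟩
    · obtain ⟨i, _⟩ := hL ⟨0, h0⟩ (mem_univ _)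
      exact ⟨i, by rw [he]; exact empty_subset _⟩
    · obtain ⟨i, hi⟩ := hL x (mem_univ _)
      refine ⟨i, fun y hy => hi ?_⟩
      rw [Metric.mem_ball, Subtype.dist_eq, Real.dist_eq]
      have h1 : |(y : ℝ) / η - x / η| < 3 / 2 := by
        have h2 : (y : ℝ) / η - x / η = ((y : ℝ) / η - j) - (x / η - j) := by ring
        rw [h2]
        refine (abs_sub _ _).trans_lt ?_
        have h3 : |(y : ℝ) / η - j| < 3 / 4 := hy
        have h4 : |(x : ℝ) / η - j| < 3 / 4 := hx
        linarith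
      rw [← sub_div, abs_div, abs_of_pos hη0, div_lt_iff₀ hη0] at h1
      linarith
  choose c hc using hc
  refine ⟨fun i => ⋃ j, ⋃ _ : c j = i, W j, ?_, ?_, ?_, ?_⟩
  · intro i
    exact isOpen_iUnion fun j => isOpen_iUnion fun _ => hWo j
  · intro i x hx
    obtain ⟨j, hj⟩ := mem_iUnion.1 hx
    obtain ⟨hji, hxj⟩ := mem_iUnion.1 hj
    rw [← hji]
    exact hc j hxj
  · apply eq_univ_of_forall
    intro x
    have h1 := abs_sub_round ((x : ℝ) / η)
    have h2 : x ∈ W (round ((x : ℝ) / η)) := by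
      show |(x : ℝ) / η - round ((x : ℝ) / η)| < 3 / 4
      linarith
    exact mem_iUnion.2 ⟨c _, mem_iUnion.2 ⟨_, mem_iUnion.2 ⟨rfl, h2⟩⟩⟩
  · intro x
    have h1 : {i | x ∈ ⋃ j, ⋃ _ : c j = i, W j} ⊆
        {c ⌊(x : ℝ) / η⌋, c (⌊(x : ℝ) / η⌋ + 1)} := by
      intro i hi
      obtain ⟨j, hj⟩ := mem_iUnion.1 hi
      obtain ⟨hji, hxj⟩ := mem_iUnion.1 hj
      have h2 : |(x : ℝ) / η - j| < 3 / 4 := hxj
      rw [abs_lt] at h2
      have h3 : j = ⌊(x : ℝ) / η⌋ ∨ j = ⌊(x : ℝ) / η⌋ + 1 := by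
        have h4 := Int.floor_le ((x : ℝ) / η)
        have h5 := Int.lt_floor_add_one ((x : ℝ) / η)
        have h6 : ((⌊(x : ℝ) / η⌋ - 1 : ℤ) : ℝ) < (j : ℝ) := by
          push_cast
          linarith [h2.2]
        have h7 : (j : ℝ) < ((⌊(x : ℝ) / η⌋ + 2 : ℤ) : ℝ) := by
          push_cast
          linarith [h2.1]
        have h8 := Int.cast_lt.1 h6
        have h9 := Int.cast_lt.1 h7
        omega
      rw [← hji]
      rcases h3 with h3 | h3
      · rw [h3]
        exact mem_insert _ _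
      · rw [h3]
        exact mem_insert_of_mem _ (mem_singleton _)
    calc {i | x ∈ ⋃ j, ⋃ _ : c j = i, W j}.ncard
        ≤ ({c ⌊(x : ℝ) / η⌋, c (⌊(x : ℝ) / η⌋ + 1)} : Set (Fin k)).ncard :=
          Set.ncard_le_ncard h1 (toFinite _)
      _ ≤ ({c (⌊(x : ℝ) / η⌋ + 1)} : Set (Fin k)).ncard + 1 := Set.ncard_insert_le _ _
      _ = 1 + 1 := by rw [Set.ncard_singleton]

theorem not_zero {a : ℝ} (ha : 0 < a) : ¬ ShrLE (Icc (-a) a) 0 := by
  intro h
  have hm : (-a) ∈ Icc (-a) a := ⟨le_rfl, by linarith⟩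
  have hp : a ∈ Icc (-a) a := ⟨by linarith, le_rfl⟩
  have hconn : PreconnectedSpace (Icc (-a) a) := Subtype.preconnectedSpace isPreconnected_Icc
  let U : Fin 2 → Set (Icc (-a) a) := ![{x | (x : ℝ) < a}, {x | -a < (x : ℝ)}]
  have hU : ∀ i, IsOpen (U i) := by
    intro i
    fin_cases i
    · exact isOpen_lt continuous_subtype_val continuous_const
    · exact isOpen_lt continuous_const continuous_subtype_val
  have hcov : (⋃ i, U i) = univ := by
    apply eq_univ_of_forall
    intro x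
    by_cases hx : (x : ℝ) < a
    · exact mem_iUnion.2 ⟨0, hx⟩
    · refine mem_iUnion.2 ⟨1, ?_⟩
      show -a < (x : ℝ)
      linarith
  obtain ⟨V, hVo, hVU, hVc, hVn⟩ := h 2 U hU hcov
  have hmem : ∀ x, x ∈ V 0 ∨ x ∈ V 1 := by
    intro x
    have hx : x ∈ ⋃ i, V i := by rw [hVc]; exact mem_univ x
    obtain ⟨i, hi⟩ := mem_iUnion.1 hx
    fin_cases i
    · exact Or.inl hi
    · exact Or.inr hi
  have hdis : ∀ x, x ∈ V 0 → x ∉ V 1 := by
    intro x h0 h1
    have h2 := hVn x
    have h3 : ({0, 1} : Set (Fin 2)) ⊆ {i | x ∈ V i} := by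
      rintro i (rfl | rfl)
      · exact h0
      · exact h1
    have h4 := Set.ncard_le_ncard h3 (toFinite _)
    rw [Set.ncard_pair (by decide)] at h4
    omega
  have hcompl : (V 0)ᶜ = V 1 := by
    ext x
    constructor
    · intro hx
      exact (hmem x).resolve_left hx
    · intro hx h0
      exact hdis x h0 hx
  have hclopen : IsClopen (V 0) := ⟨by rw [← isOpen_compl_iff, hcompl]; exact hVo 1, hVo 0⟩
  rcases isClopen_iff.1 hclopen with he | he
  · have h1 : (⟨-a, hm⟩ : Icc (-a) a) ∈ V 1 := by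
      rw [← hcompl, he]
      exact fun hh => hh
    have h2 : -a < -a := hVU 1 h1
    exact lt_irrefl _ h2
  · have h1 : (⟨a, hp⟩ : Icc (-a) a) ∈ V 0 := by
      rw [he]
      exact mem_univ _
    have h2 : a < a := hVU 0 h1
    exact lt_irrefl _ h2

end INT

theorem t_INT : S_INT := by
  refine ⟨fun a ha => ⟨INT.le_one ha, INT.not_zero ha⟩, fun X _ m n hmn h k U hU hc => ?_⟩
  obtain ⟨V, h1, h2, h3, h4⟩ := h k U hU hc
  exact ⟨V, h1, h2, h3, fun x => (h4 x).trans (by omega)⟩

end BBP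


end

section

/-!
# BBP, module NEX: dimension at least 2 gives a map to `ℂ \ 0` that cannot be extended
-/

set_option autoImplicit false

namespace BBP

open Set Topology CTO

theorem t_NEX : M_NEX := by
  intro h0 hC hE X _ _ h3 h1
  by_contra hne
  have hall : ∀ (L K : Set X) (f : X → ℂ), IsClosed L → IsClosed K → L ⊆ K → ContinuousOn f L →
      (∀ y ∈ L, f y ≠ 0) → ExtC L K f := by
    intro L K f a1 a2 a3 a4 a5
    by_contra h
    exact hne ⟨L, K, f, a1, a2, a3, a4, a5, h⟩
  have h2 : ShrLE X 2 := by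
    by_contra h2
    obtain ⟨L, K, f, a1, a2, a3, a4, a5, h⟩ := h0 X h3 h2
    exact h (hE X hall L K f a1 a2 a3 a4 a5)
  obtain ⟨L, K, f, a1, a2, a3, a4, a5, h⟩ := hC X h2 h1
  exact h (hall L K f a1 a2 a3 a4 a5)

end BBP


end

section

/-!
# MP_6eac38_gt: dimension 2 gives a map to the punctured plane that cannot be extended
-/

set_option autoImplicit false

namespace BBP

open Set Topology CTO

namespace OBC

/-- the inductive step on the part of the space where at most three functions are nonzero -/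
theorem core {X : Type} [TopologicalSpace X] (g : Fin 3 → X → ℝ) (hg : ∀ j, Continuous (g j))
    (h0 : ∀ j x, 0 ≤ g j x) (K : Set X) (hK : IsClosed K) (hs : ∀ x ∈ K, ∑ j, g j x = 1)
    (hE : ∀ (L : Set X) (f : X → ℂ), IsClosed L → L ⊆ K → ContinuousOn f L →
      (∀ y ∈ L, f y ≠ 0) → ExtC L K f) :
    ∃ ψ : Fin 3 → X → ℝ, (∀ j, ContinuousOn (ψ j) K) ∧ (∀ x ∈ K, ∑ j, ψ j x = 1) ∧
      (∀ x ∈ K, ∃ j, ψ j x = 0) ∧ (∀ x ∈ K, (∃ j, g j x = 0) → ∀ j, ψ j x = g j x) := by
  classical
  set L : Set X := K ∩ ⋃ j, {x | g j x = 0} with hL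
  have hLc : IsClosed L := by
    refine hK.inter (isClosed_iUnion_of_finite fun j => ?_)
    exact isClosed_eq (hg j) continuous_const
  set f : X → ℂ := fun x => ((g 0 x - 1/3 : ℝ) : ℂ) + ((g 1 x - 1/3 : ℝ) : ℂ) * Complex.I with hf
  have hfc : Continuous f := by
    refine (Complex.continuous_ofReal.comp ((hg 0).sub continuous_const)).add
      ((Complex.continuous_ofReal.comp ((hg 1).sub continuous_const)).mul continuous_const)
  have hf0 : ∀ x, (f x).re = g 0 x - 1/3 := fun x => by simp [hf]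
  have hf1 : ∀ x, (f x).im = g 1 x - 1/3 := fun x => by simp [hf]
  have hfne : ∀ y ∈ L, f y ≠ 0 := by
    rintro y ⟨hyK, hy⟩ h
    have e0 : g 0 y - 1/3 = 0 := by rw [← hf0, h]; rfl
    have e1 : g 1 y - 1/3 = 0 := by rw [← hf1, h]; rfl
    have e := hs y hyK
    rw [Fin.sum_univ_three] at e
    simp only [mem_iUnion, mem_ofPred_eq] at hy
    obtain ⟨j, hj⟩ := hy
    fin_cases j
    · simp at hj; linarith
    · simp at hj; linarith
    · simp at hj; linarith
  obtain ⟨F, hFc, hFne, hFe⟩ := hE L f hLc inter_subset_left hfc.continuousOn hfne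
  have hc0 : ContinuousOn (fun x => (F x).re) K := Complex.continuous_re.comp_continuousOn hFc
  have hc1 : ContinuousOn (fun x => (F x).im) K := Complex.continuous_im.comp_continuousOn hFc
  set G : Fin 3 → X → ℝ := fun j x => ![(F x).re, (F x).im, -(F x).re - (F x).im] j with hG
  have G0 : ∀ x, G 0 x = (F x).re := fun x => by simp [hG]
  have G1 : ∀ x, G 1 x = (F x).im := fun x => by simp [hG]
  have G2 : ∀ x, G 2 x = -(F x).re - (F x).im := fun x => by simp [hG]
  have hGc : ∀ j, ContinuousOn (G j) K := by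
    intro j
    fin_cases j
    · exact hc0
    · exact hc1
    · exact (hc0.neg).sub hc1
  have hGs : ∀ x, ∑ j, G j x = 0 := by
    intro x
    rw [Fin.sum_univ_three, G0, G1, G2]; ring
  set M : X → ℝ := fun x => max (max (-G 0 x) (-G 1 x)) (-G 2 x) with hM
  have hMc : ContinuousOn M K :=
    ContinuousOn.sup (ContinuousOn.sup (hGc 0).neg (hGc 1).neg) (hGc 2).neg
  have hMle : ∀ x j, -G j x ≤ M x := by
    intro x j
    fin_cases j
    · exact (le_max_left _ _).trans (le_max_left _ _)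
    · exact (le_max_right _ _).trans (le_max_left _ _)
    · exact le_max_right _ _
  have hMex : ∀ x, ∃ j, -G j x = M x := by
    intro x
    rcases max_choice (max (-G 0 x) (-G 1 x)) (-G 2 x) with h | h
    · rcases max_choice (-G 0 x) (-G 1 x) with h' | h'
      · exact ⟨0, by rw [hM]; simp only; rw [h, h']⟩
      · exact ⟨1, by rw [hM]; simp only; rw [h, h']⟩
    · exact ⟨2, by rw [hM]; simp only; rw [h]⟩
  have hMpos : ∀ x ∈ K, 0 < M x := by
    intro x hx
    by_contra hc
    push Not at hc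
    have hn : ∀ j, 0 ≤ G j x := fun j => by
      have := hMle x j
      linarith
    have hz : ∀ j, G j x = 0 := fun j =>
      (Finset.sum_eq_zero_iff_of_nonneg (fun j _ => hn j)).1 (hGs x) j (Finset.mem_univ j)
    apply hFne x hx
    apply Complex.ext
    · have := hz 0; rw [G0] at this; simpa using this
    · have := hz 1; rw [G1] at this; simpa using this
  refine ⟨fun j x => 1/3 + G j x / (3 * M x), ?_, ?_, ?_, ?_⟩
  · intro j
    refine continuousOn_const.add ((hGc j).div (continuousOn_const.mul hMc) ?_)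
    intro x hx
    have := hMpos x hx
    positivity
  · intro x hx
    have e1 : ∑ j, G j x / (3 * M x) = 0 := by rw [← Finset.sum_div, hGs x, zero_div]
    rw [Finset.sum_add_distrib, e1]
    norm_num
  · intro x hx
    obtain ⟨j, hj⟩ := hMex x
    refine ⟨j, ?_⟩
    have hp := hMpos x hx
    have hG' : G j x = -M x := by linarith
    simp only [hG']
    field_simp
    norm_num
  · intro x hx hex
    have hxL : x ∈ L := ⟨hx, by simpa using hex⟩
    have hFx : F x = f x := hFe hxL
    have hsx := hs x hx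
    rw [Fin.sum_univ_three] at hsx
    have hGx : ∀ j, G j x = g j x - 1/3 := by
      intro j
      fin_cases j
      · change G 0 x = g 0 x - 1/3
        rw [G0, hFx, hf0]
      · change G 1 x = g 1 x - 1/3
        rw [G1, hFx, hf1]
      · change G 2 x = g 2 x - 1/3
        rw [G2, hFx, hf0, hf1]; linarith
    have hMx : M x = 1/3 := by
      apply le_antisymm
      · obtain ⟨j, hj⟩ := hMex x
        rw [← hj, hGx j]
        have := h0 j x
        linarith
      · obtain ⟨j, hj⟩ := hex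
        have := hMle x j
        rw [hGx j, hj] at this
        linarith
    intro j
    simp only [hGx j, hMx]
    norm_num

/-- the same for a set of three indices -/
theorem core' {X : Type} [TopologicalSpace X] {k : ℕ} (p : Fin k → X → ℝ)
    (hp : ∀ i, Continuous (p i)) (h0 : ∀ i x, 0 ≤ p i x) (h1 : ∀ x, ∑ i, p i x = 1)
    (hE : ∀ (L K : Set X) (f : X → ℂ), IsClosed L → IsClosed K → L ⊆ K → ContinuousOn f L →
      (∀ y ∈ L, f y ≠ 0) → ExtC L K f) (s : Finset (Fin k)) (hs4 : s.card = 3) :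
    ∃ ψ : Fin k → X → ℝ, (∀ i, ContinuousOn (ψ i) {x | ∀ i ∉ s, p i x = 0}) ∧
      (∀ x, (∀ i ∉ s, p i x = 0) → ∑ i, ψ i x = 1) ∧
      (∀ i ∉ s, ∀ x, ψ i x = 0) ∧
      (∀ x, (∀ i ∉ s, p i x = 0) → ∃ i ∈ s, ψ i x = 0) ∧
      (∀ x, (∀ i ∉ s, p i x = 0) → (∃ i ∈ s, p i x = 0) → ∀ i, ψ i x = p i x) := by
  classical
  set K : Set X := {x | ∀ i ∉ s, p i x = 0} with hK
  have hKc : IsClosed K := by
    have : K = ⋂ i, ⋂ (_ : i ∉ s), {x | p i x = 0} := by
      ext x; simp [hK]
    rw [this]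
    exact isClosed_iInter fun i => isClosed_iInter fun _ => isClosed_eq (hp i) continuous_const
  let e : Fin 3 ≃ s := (s.orderIsoOfFin hs4).toEquiv
  have hsum : ∀ (q : Fin k → ℝ), (∀ i ∉ s, q i = 0) → ∑ i, q i = ∑ j : Fin 3, q (e j) := by
    intro q hq
    rw [← Finset.sum_subset (Finset.subset_univ s) (fun i _ hi => hq i hi)]
    rw [← Finset.sum_coe_sort s q]
    exact (Equiv.sum_comp e (fun i : s => q i)).symm
  obtain ⟨ψ, hc, hs1, hz, hagree⟩ := core (fun j x => p (e j) x) (fun j => hp _)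
    (fun j x => h0 _ x) K hKc (fun x hx => by
      rw [← hsum (fun i => p i x) hx]; exact h1 x)
    (fun L f hL hLK hf hne => hE L K f hL hKc hLK hf hne)
  refine ⟨fun i x => if h : i ∈ s then ψ (e.symm ⟨i, h⟩) x else 0, ?_, ?_, ?_, ?_, ?_⟩
  · intro i
    by_cases h : i ∈ s
    · simp only [h, dif_pos]
      exact hc _
    · simp only [h, dif_neg, not_false_eq_true]
      exact continuousOn_const
  · intro x hx
    rw [hsum (fun i => if h : i ∈ s then ψ (e.symm ⟨i, h⟩) x else 0)
      (fun i hi => by simp [hi])]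
    rw [← hs1 x hx]
    refine Finset.sum_congr rfl fun j _ => ?_
    simp
  · intro i hi x
    simp [hi]
  · intro x hx
    obtain ⟨j, hj⟩ := hz x hx
    exact ⟨e j, (e j).2, by simpa using hj⟩
  · intro x hx hex i
    obtain ⟨i0, hi0, h00⟩ := hex
    have hag := hagree x hx ⟨e.symm ⟨i0, hi0⟩, by simpa using h00⟩
    by_cases h : i ∈ s
    · simp only [h, dif_pos]
      rw [hag]
      simp
    · simp only [h, dif_neg, not_false_eq_true]
      exact (hx i h).symm

end OBC

open OBC in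
theorem t_OBC : S_OBC := by
  classical
  intro X _ _ h3 h2
  by_contra hcon
  apply h2
  have hE : ∀ (L K : Set X) (f : X → ℂ), IsClosed L → IsClosed K → L ⊆ K → ContinuousOn f L →
      (∀ y ∈ L, f y ≠ 0) → ExtC L K f := by
    intro L K f hL hK hLK hf hne
    by_contra hx
    exact hcon ⟨L, K, f, hL, hK, hLK, hf, hne, hx⟩
  intro k U hU hUc
  obtain ⟨V, hVo, hVU, hVc, hV4⟩ := h3 k U hU hUc
  obtain ⟨P, hP⟩ := PartitionOfUnity.exists_isSubordinate (isClosed_univ (X := X)) V hVo
    (by rw [hVc])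
  set p : Fin k → X → ℝ := fun i x => P i x with hp
  have hpc : ∀ i, Continuous (p i) := fun i => (P i).continuous
  have hp0 : ∀ i x, 0 ≤ p i x := fun i x => P.nonneg i x
  have hp1 : ∀ x, ∑ i, p i x = 1 := by
    intro x
    rw [← finsum_eq_sum_of_fintype]
    exact P.sum_eq_one (mem_univ x)
  have hpV : ∀ i x, p i x ≠ 0 → x ∈ V i := fun i x h => hP i (subset_closure h)
  choose! ψ hψc hψ1 hψs hψz hψa using fun (s : Finset (Fin k)) (hs : s.card = 3) =>
    core' p hpc hp0 hp1 hE s hs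
  let supp : X → Finset (Fin k) := fun x => Finset.univ.filter fun i => p i x ≠ 0
  have hsupp : ∀ x i, i ∈ supp x ↔ p i x ≠ 0 := fun x i => by simp [supp]
  have hcard : ∀ x, (supp x).card ≤ 3 := by
    intro x
    have h1 : ((supp x : Finset (Fin k)) : Set (Fin k)) ⊆ {i | x ∈ V i} := by
      intro i hi
      exact hpV i x ((hsupp x i).1 (by simpa using hi))
    have h2 := Set.ncard_le_ncard h1 (Set.toFinite _)
    rw [Set.ncard_coe_finset] at h2
    exact h2.trans (hV4 x)
  let q : Fin k → X → ℝ := fun i x => if (supp x).card = 3 then ψ (supp x) i x else p i x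
  have hq4 : ∀ x i, (supp x).card = 3 → q i x = ψ (supp x) i x := fun x i h => by
    simp only [q, h, if_true]
  have hq3 : ∀ x i, (supp x).card ≠ 3 → q i x = p i x := fun x i h => by
    simp only [q, h, if_false]
  have hmem : ∀ x, ∀ i ∉ supp x, p i x = 0 := fun x i hi => by
    by_contra h
    exact hi ((hsupp x i).2 h)
  -- continuity
  have hqc : ∀ i, Continuous (q i) := by
    intro i
    let F : Finset (Fin k) → Set X := fun s => if s.card ≤ 3 then {x | ∀ i ∉ s, p i x = 0} else ∅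
    have hF : ∀ s : Finset (Fin k), s.card ≤ 3 → F s = {x | ∀ i ∉ s, p i x = 0} := fun s h => by
      simp only [F, h, if_true]
    have hF' : ∀ s : Finset (Fin k), ¬ s.card ≤ 3 → F s = ∅ := fun s h => by
      simp only [F, h, if_false]
    refine (locallyFinite_of_finite F).continuous ?_ ?_ ?_
    · refine eq_univ_of_forall fun x => mem_iUnion.2 ⟨supp x, ?_⟩
      rw [hF _ (hcard x)]
      exact hmem x
    · intro s
      by_cases h : s.card ≤ 3
      · rw [hF s h]
        have : {x | ∀ i ∉ s, p i x = 0} = ⋂ i, ⋂ (_ : i ∉ s), {x | p i x = 0} := by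
          ext x; simp
        rw [this]
        exact isClosed_iInter fun i => isClosed_iInter fun _ =>
          isClosed_eq (hpc i) continuous_const
      · rw [hF' s h]
        exact isClosed_empty
    · intro s
      by_cases h : s.card ≤ 3
      · rw [hF s h]
        by_cases h4 : s.card = 3
        · refine (hψc s h4 i).congr ?_
          intro x hx
          have hsub : supp x ⊆ s := by
            intro j hj
            by_contra hjs
            exact ((hsupp x j).1 hj) (hx j hjs)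
          by_cases hc : (supp x).card = 3
          · have : supp x = s := Finset.eq_of_subset_of_card_le hsub (by omega)
            rw [hq4 x i hc, this]
          · rw [hq3 x i hc]
            have : ∃ j ∈ s, p j x = 0 := by
              by_contra hne
              push Not at hne
              apply hc
              have : supp x = s := Finset.Subset.antisymm hsub
                (fun j hj => (hsupp x j).2 (hne j hj))
              rw [this, h4]
            exact (hψa s h4 x hx this i).symm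
        · refine (hpc i).continuousOn.congr ?_
          intro x hx
          have hsub : supp x ⊆ s := by
            intro j hj
            by_contra hjs
            exact ((hsupp x j).1 hj) (hx j hjs)
          have hc : (supp x).card ≠ 3 := by
            have := Finset.card_le_card hsub
            omega
          exact hq3 x i hc
      · rw [hF' s h]
        exact continuousOn_empty _
  have hq1 : ∀ x, ∑ i, q i x = 1 := by
    intro x
    by_cases hc : (supp x).card = 3
    · rw [Finset.sum_congr rfl fun i _ => hq4 x i hc]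
      exact hψ1 _ hc x (hmem x)
    · rw [Finset.sum_congr rfl fun i _ => hq3 x i hc]
      exact hp1 x
  have hqs : ∀ x i, q i x ≠ 0 → p i x ≠ 0 := by
    intro x i h
    by_cases hc : (supp x).card = 3
    · rw [hq4 x i hc] at h
      by_contra hp
      exact h (hψs _ hc i (fun hh => ((hsupp x i).1 hh) hp) x)
    · rwa [hq3 x i hc] at h
  refine ⟨fun i => {x | q i x ≠ 0}, ?_, ?_, ?_, ?_⟩
  · intro i
    exact isOpen_ne_fun (hqc i) continuous_const
  · intro i x hx
    exact hVU i (hpV i x (hqs x i hx))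
  · refine eq_univ_of_forall fun x => ?_
    by_contra hx
    simp only [mem_iUnion, mem_ofPred_eq, not_exists, not_not] at hx
    have := hq1 x
    rw [Finset.sum_eq_zero fun i _ => hx i] at this
    exact zero_ne_one this
  · intro x
    have hsub : {i | x ∈ {x | q i x ≠ 0}} ⊆ ((supp x : Finset (Fin k)) : Set (Fin k)) := by
      intro i hi
      simp only [mem_ofPred_eq] at hi
      simpa using (hsupp x i).2 (hqs x i hi)
    by_cases hc : (supp x).card = 3
    · obtain ⟨j, hj, hj0⟩ := hψz _ hc x (hmem x)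
      have hsub2 : {i | x ∈ {x | q i x ≠ 0}} ⊆
          (((supp x).erase j : Finset (Fin k)) : Set (Fin k)) := by
        intro i hi
        have h1 := hsub hi
        simp only [Finset.coe_erase, mem_sdiff, mem_singleton_iff]
        refine ⟨h1, ?_⟩
        rintro rfl
        simp only [mem_ofPred_eq] at hi
        exact hi (by rw [hq4 x i hc]; exact hj0)
      have := Set.ncard_le_ncard hsub2 (Set.toFinite _)
      rw [Set.ncard_coe_finset, Finset.card_erase_of_mem hj, hc] at this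
      exact this
    · have h5 := Set.ncard_le_ncard hsub (Set.toFinite _)
      rw [Set.ncard_coe_finset] at h5
      have h6 := hcard x
      have h7 : (supp x).card ≤ 1 + 1 := by omega
      exact h5.trans h7

end BBP


end

section

/-!
# BBP, OL: the image of a compact space with an essential relative 3-cochain is a neighbourhood of the
obstruction point
-/

set_option autoImplicit false

namespace BBP

open Set Topology CTO

theorem t_OL : M_OL := by
  intro hEFF hROB X P _ _ _ _ hA hH hS e D u p0 he hi hE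
  obtain ⟨ε, hε, h1⟩ := hROB X P hA hS e D u p0 he hi hE
  have h2 := hEFF X hH (e p0) ε hε
  refine interior_mono ?_ h2
  refine closure_minimal ?_ (isCompact_range he).isClosed
  rintro y ⟨h, hd, rfl⟩
  obtain ⟨x, hx, hx2⟩ := h1 h.symm h.symm.continuous (by
    intro x
    have h3 := hd (h.symm x)
    rw [h.apply_symm_apply, dist_comm] at h3
    exact h3)
  rw [← hx2, h.apply_symm_apply]
  exact hx

end BBP


end

section

/-!
MP_6eac38_gt, module PEX: maps of products of two 1-dimensional spaces into 3-space can be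
approximated by maps without zeros.
-/

set_option autoImplicit false

namespace BBP

open Set Topology CTO

namespace PEX

theorem pou (K : Type) [MetricSpace K] [CompactSpace K] (hK : ShrLE K 1) (δ : ℝ) (hδ : 0 < δ) :
    ∃ (k : ℕ) (c : Fin k → K) (φ : Fin k → K → ℝ), (∀ i, Continuous (φ i)) ∧
      (∀ i x, 0 ≤ φ i x) ∧ (∀ x, ∑ i, φ i x = 1) ∧ (∀ i x, φ i x ≠ 0 → dist x (c i) < δ) ∧
      ∀ x, (Finset.univ.filter fun i => φ i x ≠ 0).card ≤ 2 := by
  classical
  obtain ⟨t, ht⟩ := isCompact_univ.elim_finite_subcover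
    (fun x : K => Metric.ball x δ) (fun x => Metric.isOpen_ball) (fun x _ => by
      rw [mem_iUnion]
      exact ⟨x, Metric.mem_ball_self hδ⟩)
  let c : Fin t.card → K := fun i => (t.equivFin.symm i : K)
  have hcov : (⋃ i, Metric.ball (c i) δ) = univ := by
    rw [eq_univ_iff_forall]
    intro x
    have hx := ht (mem_univ x)
    rw [mem_iUnion₂] at hx
    obtain ⟨y, hy, hxy⟩ := hx
    rw [mem_iUnion]
    refine ⟨t.equivFin ⟨y, hy⟩, ?_⟩
    have : c (t.equivFin ⟨y, hy⟩) = y := by simp [c]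
    rw [this]
    exact hxy
  obtain ⟨V, hVo, hVU, hVc, hVn⟩ := hK t.card (fun i => Metric.ball (c i) δ)
    (fun i => Metric.isOpen_ball) hcov
  obtain ⟨φ, hφ⟩ := PartitionOfUnity.exists_isSubordinate isClosed_univ V hVo hVc.ge
  have hmem : ∀ x i, φ i x ≠ 0 → x ∈ V i := fun x i h => hφ i (subset_tsupport _ h)
  refine ⟨t.card, c, fun i x => φ i x, fun i => (φ i).continuous, fun i x => φ.nonneg i x, ?_, ?_, ?_⟩
  · intro x
    have := φ.sum_eq_one (mem_univ x)
    rwa [finsum_eq_sum_of_fintype] at this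
  · intro i x h
    exact hVU i (hmem x i h)
  · intro x
    refine le_trans ?_ (hVn x)
    rw [← Set.ncard_coe_finset]
    apply Set.ncard_le_ncard _ (Set.toFinite _)
    intro i hi
    have hi' : i ∈ Finset.univ.filter (fun i => φ i x ≠ 0) := hi
    exact hmem x i (Finset.mem_filter.1 hi').2

theorem two {k : ℕ} (a : Fin k → ℝ) (h1 : ∑ i, a i = 1)
    (h2 : (Finset.univ.filter fun i => a i ≠ 0).card ≤ 2) :
    ∃ (i i' : Fin k) (s : ℝ), ∀ u : Fin k → R3, ∑ l, a l • u l = (1 - s) • u i + s • u i' := by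
  classical
  have hs1 : ∑ l ∈ Finset.univ.filter (fun i => a i ≠ 0), a l = 1 := by
    rw [Finset.sum_filter_ne_zero]
    exact h1
  have hs2 : ∀ u : Fin k → R3, ∑ l, a l • u l =
      ∑ l ∈ Finset.univ.filter (fun i => a i ≠ 0), a l • u l := by
    intro u
    symm
    apply Finset.sum_subset (Finset.subset_univ _)
    intro i _ hi
    have : a i = 0 := by
      by_contra h
      exact hi (Finset.mem_filter.2 ⟨Finset.mem_univ _, h⟩)
    rw [this, zero_smul]
  rcases Nat.lt_or_ge (Finset.univ.filter fun i => a i ≠ 0).card 2 with h | h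
  · rcases Nat.lt_or_ge (Finset.univ.filter fun i => a i ≠ 0).card 1 with h' | h'
    · exfalso
      have h0 : (Finset.univ.filter fun i => a i ≠ 0) = ∅ :=
        Finset.card_eq_zero.1 (Nat.lt_one_iff.1 h')
      rw [h0, Finset.sum_empty] at hs1
      exact zero_ne_one hs1
    · obtain ⟨i, hi⟩ := Finset.card_eq_one.1 (le_antisymm (Nat.lt_succ_iff.1 h) h')
      refine ⟨i, i, 0, fun u => ?_⟩
      rw [hs2, hi, Finset.sum_singleton]
      rw [hi, Finset.sum_singleton] at hs1
      rw [hs1]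
      simp
  · obtain ⟨i, i', hne, hi⟩ := Finset.card_eq_two.1 (le_antisymm h2 h)
    refine ⟨i, i', a i', fun u => ?_⟩
    rw [hs2, hi, Finset.sum_pair hne]
    rw [hi, Finset.sum_pair hne] at hs1
    rw [← hs1, add_sub_cancel_right]

/-- the quadratic map -/
noncomputable def qm (v1 v2 v3 v4 : R3) (z : ℝ × ℝ) : R3 :=
  (1 - z.1) • ((1 - z.2) • v1 + z.2 • v2) + z.1 • ((1 - z.2) • v3 + z.2 • v4)

theorem dimH_qm (v1 v2 v3 v4 : R3) : dimH (range (qm v1 v2 v3 v4)) ≤ 2 := by
  have h : ContDiff ℝ 1 (qm v1 v2 v3 v4) := by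
    unfold qm
    fun_prop
  have h1 := h.dimH_range_le
  have h2 : Module.finrank ℝ (ℝ × ℝ) = 2 := by simp
  rw [h2] at h1
  exact_mod_cast h1

theorem avoid {ι : Type} [Finite ι] (g : ι → ℝ × ℝ → R3)
    (hg : ∀ a, dimH (range (g a)) ≤ 2) (ε : ℝ) (hε : 0 < ε) :
    ∃ w : R3, ‖w‖ < ε ∧ ∀ a z, g a z ≠ w := by
  have h1 : dimH (⋃ a, range (g a)) < Module.finrank ℝ R3 := by
    rw [dimH_iUnion]
    have h2 : Module.finrank ℝ R3 = 3 := by simp
    rw [h2]
    refine lt_of_le_of_lt (iSup_le hg) ?_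
    norm_num
  have h3 := dense_compl_of_dimH_lt_finrank h1
  obtain ⟨w, hw1, hw2⟩ := h3.inter_open_nonempty (Metric.ball (0 : R3) ε) Metric.isOpen_ball
    ⟨0, Metric.mem_ball_self hε⟩
  refine ⟨w, by simpa using hw1, fun a z h => hw2 ?_⟩
  rw [mem_iUnion]
  exact ⟨a, z, h⟩

end PEX

open PEX in
theorem t_PEX : S_PEX := by
  intro K Z _ _ _ _ hK hZ f hf ε hε
  classical
  have hu := CompactSpace.uniformContinuous_of_continuous hf
  rw [Metric.uniformContinuous_iff] at hu
  obtain ⟨δ, hδ, hd⟩ := hu (ε / 2) (half_pos hε)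
  obtain ⟨k, c, φ, a1, a2, a3, a4, a5⟩ := pou K hK δ hδ
  obtain ⟨m, d, ψ, b1, b2, b3, b4, b5⟩ := pou Z hZ δ hδ
  obtain ⟨w, hw1, hw2⟩ := avoid
    (fun a : (Fin k × Fin k) × (Fin m × Fin m) => qm (f (c a.1.1, d a.2.1)) (f (c a.1.1, d a.2.2))
      (f (c a.1.2, d a.2.1)) (f (c a.1.2, d a.2.2))) (fun a => dimH_qm _ _ _ _) (ε / 2)
    (half_pos hε)
  have hq : ∀ x : K × Z, ∑ i, φ i x.1 • ∑ j, ψ j x.2 • f (c i, d j) ≠ w := by
    intro x
    obtain ⟨i, i', s, hs⟩ := two (fun i => φ i x.1) (a3 x.1) (a5 x.1)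
    obtain ⟨j, j', t, ht⟩ := two (fun j => ψ j x.2) (b3 x.2) (b5 x.2)
    rw [hs, ht, ht]
    exact hw2 ((i, i'), (j, j')) (s, t)
  have hc : ∀ x : K × Z, dist (∑ i, φ i x.1 • ∑ j, ψ j x.2 • f (c i, d j)) (f x) < ε / 2 := by
    intro x
    have h1 : (∑ i, φ i x.1 • ∑ j, ψ j x.2 • f (c i, d j)) =
        ∑ y : Fin k × Fin m, (φ y.1 x.1 * ψ y.2 x.2) • f (c y.1, d y.2) := by
      rw [Fintype.sum_prod_type]
      refine Finset.sum_congr rfl fun i _ => ?_
      rw [Finset.smul_sum]
      refine Finset.sum_congr rfl fun j _ => ?_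
      rw [smul_smul]
    have h2 : ∑ y : Fin k × Fin m, φ y.1 x.1 * ψ y.2 x.2 = 1 := by
      rw [Fintype.sum_prod_type]
      simp only [← Finset.mul_sum, b3, mul_one, a3]
    have h3 : ∑ y : Fin k × Fin m, (φ y.1 x.1 * ψ y.2 x.2) • f (c y.1, d y.2) =
        ∑ y ∈ Finset.univ.filter (fun y : Fin k × Fin m => φ y.1 x.1 * ψ y.2 x.2 ≠ 0),
          (φ y.1 x.1 * ψ y.2 x.2) • f (c y.1, d y.2) := by
      symm
      apply Finset.sum_subset (Finset.subset_univ _)
      intro i _ hi
      have : φ i.1 x.1 * ψ i.2 x.2 = 0 := by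
        by_contra h
        exact hi (Finset.mem_filter.2 ⟨Finset.mem_univ _, h⟩)
      rw [this, zero_smul]
    have h4 : ∑ y ∈ Finset.univ.filter (fun y : Fin k × Fin m => φ y.1 x.1 * ψ y.2 x.2 ≠ 0),
        φ y.1 x.1 * ψ y.2 x.2 = 1 := by
      rw [Finset.sum_filter_ne_zero]
      exact h2
    rw [h1, h3]
    refine Metric.mem_ball.1 ((convex_ball (f x) (ε / 2)).sum_mem (fun y _ =>
      mul_nonneg (a2 _ _) (b2 _ _)) h4 ?_)
    intro y hy
    have h5 := (Finset.mem_filter.1 hy).2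
    have h6 := a4 y.1 x.1 (left_ne_zero_of_mul h5)
    have h7 := b4 y.2 x.2 (right_ne_zero_of_mul h5)
    rw [Metric.mem_ball]
    apply hd
    rw [dist_comm, Prod.dist_eq]
    exact max_lt h6 h7
  refine ⟨fun x => (∑ i, φ i x.1 • ∑ j, ψ j x.2 • f (c i, d j)) - w, ?_, fun x => ?_, fun x => ?_⟩
  · refine Continuous.sub ?_ continuous_const
    refine continuous_finsetSum _ fun i _ => ((a1 i).comp continuous_fst).smul ?_
    exact continuous_finsetSum _ fun j _ => ((b1 j).comp continuous_snd).smul continuous_const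
  · exact sub_ne_zero.2 (hq x)
  · calc dist ((∑ i, φ i x.1 • ∑ j, ψ j x.2 • f (c i, d j)) - w) (f x)
        ≤ dist ((∑ i, φ i x.1 • ∑ j, ψ j x.2 • f (c i, d j)) - w)
          (∑ i, φ i x.1 • ∑ j, ψ j x.2 • f (c i, d j)) +
          dist (∑ i, φ i x.1 • ∑ j, ψ j x.2 • f (c i, d j)) (f x) := dist_triangle _ _ _
      _ < ε / 2 + ε / 2 := by
        refine add_lt_add ?_ (hc x)
        rw [dist_eq_norm]
        simpa using hw1
      _ = ε := add_halves ε

end BBP


end

section

/-! Module ROB: the point `e p0` stays in the image under maps near the identity. -/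

set_option autoImplicit false

namespace BBP

open Set Topology CTO

namespace ROB

theorem map2 {X P : Type} [MetricSpace X] [MetricSpace P] {ε lam : ℝ} {l : List P} (h : Sm ε l)
    (f g : P → X) (h1 : ∀ x y, dist x y < ε → dist (f x) (f y) < lam)
    (h2 : ∀ x y, dist x y < ε → dist (f x) (g y) < lam)
    (h3 : ∀ x y, dist x y < ε → dist (g x) (g y) < lam) : Sm lam (l.map f ++ l.map g) := by
  intro x hx y hy
  rw [List.mem_append, List.mem_map, List.mem_map] at hx hy
  rcases hx with ⟨a, ha, rfl⟩ | ⟨a, ha, rfl⟩ <;> rcases hy with ⟨b, hb, rfl⟩ | ⟨b, hb, rfl⟩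
  · exact h1 a b (h a ha b hb)
  · exact h2 a b (h a ha b hb)
  · rw [dist_comm]
    exact h2 b a (h b hb a ha)
  · exact h3 a b (h a ha b hb)

theorem map1 {X P : Type} [MetricSpace X] [MetricSpace P] {ε lam : ℝ} {l : List P} (h : Sm ε l)
    (f : P → X) (h1 : ∀ x y, dist x y < ε → dist (f x) (f y) < lam) : Sm lam (l.map f) := by
  intro x hx y hy
  rw [List.mem_map] at hx hy
  obtain ⟨a, ha, rfl⟩ := hx
  obtain ⟨b, hb, rfl⟩ := hy
  exact h1 a b (h a ha b hb)

theorem unif {X P : Type} [MetricSpace X] [MetricSpace P] [CompactSpace P] (f : P → X)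
    (hf : Continuous f) (δ : ℝ) (hδ : 0 < δ) : ∃ ε : ℝ, 0 < ε ∧ ∀ x y, dist x y < ε →
      dist (f x) (f y) < δ := by
  have h1 := CompactSpace.uniformContinuous_of_continuous hf
  obtain ⟨ε, hε, h2⟩ := Metric.uniformContinuous_iff.1 h1 δ hδ
  exact ⟨ε, hε, fun x y h => h2 h⟩

theorem inv_unif {X P : Type} [MetricSpace X] [MetricSpace P] [CompactSpace P] (e : P → X)
    (he : Continuous e) (hi : Function.Injective e) (ε : ℝ) (hε : 0 < ε) :
    ∃ δ : ℝ, 0 < δ ∧ ∀ x y, dist (e x) (e y) < δ → dist x y < ε := by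
  have hK : IsCompact {q : P × P | ε ≤ dist q.1 q.2} := by
    apply IsClosed.isCompact
    exact isClosed_le continuous_const (by fun_prop)
  rcases Set.eq_empty_or_nonempty {q : P × P | ε ≤ dist q.1 q.2} with h0 | h0
  · refine ⟨1, one_pos, fun x y _ => ?_⟩
    by_contra h
    have : (x, y) ∈ {q : P × P | ε ≤ dist q.1 q.2} := not_lt.1 h
    rw [h0] at this
    exact this
  · obtain ⟨q, hq, hmin⟩ := hK.exists_isMinOn h0
      (f := fun q : P × P => dist (e q.1) (e q.2)) (by fun_prop)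
    refine ⟨dist (e q.1) (e q.2), ?_, fun x y h => ?_⟩
    · apply dist_pos.2
      intro h
      have h2 : q.1 = q.2 := hi h
      have h3 : ε ≤ dist q.1 q.2 := hq
      rw [h2, dist_self] at h3
      exact absurd hε (not_lt.2 h3)
    · by_contra hc
      have h2 : (x, y) ∈ {q : P × P | ε ≤ dist q.1 q.2} := not_lt.1 hc
      exact absurd h (not_lt.2 (hmin h2))

theorem d3_add {X : Type} (φ φ' : X → X → X → X → ℤ) (a b c d e : X) :
    d3 (fun a b c d => φ a b c d + φ' a b c d) a b c d e = d3 φ a b c d e + d3 φ' a b c d e := by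
  simp only [d3]
  ring

theorem d2_add {X : Type} (ψ ψ' : X → X → X → ℤ) (a b c d : X) :
    d2 (fun a b c => ψ a b c + ψ' a b c) a b c d = d2 ψ a b c d + d2 ψ' a b c d := by
  simp only [d2]
  ring

theorem d2_sub {X : Type} (ψ ψ' : X → X → X → ℤ) (a b c d : X) :
    d2 (fun a b c => ψ a b c - ψ' a b c) a b c d = d2 ψ a b c d - d2 ψ' a b c d := by
  simp only [d2]
  ring

theorem alt_d2 {X : Type} (ψ : X → X → X → ℤ) (h : Alt3 ψ) : Alt4 (d2 ψ) := by
  intro a b c d
  simp only [d2]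
  refine ⟨?_, ?_, ?_⟩
  · rw [(h a b d).1, (h a b c).1]
    ring
  · rw [(h b c d).1, (h a b c).2]
    ring
  · rw [(h b c d).2, (h a c d).2]
    ring

/-- extension of a cochain that is a cocycle on `N` -/
theorem extend (hALT : S_ALT) (hSEL : S_SEL) (X : Type) [MetricSpace X] [CompactSpace X]
    (hX : ShrLE X 3) (N : Set X) (Φ : X → X → X → X → ℤ) (hΦ : Alt4 Φ) (δ : ℝ) (hδ : 0 < δ)
    (h0 : ∀ a ∈ N, ∀ b ∈ N, ∀ c ∈ N, ∀ d ∈ N, ∀ e ∈ N, Sm δ [a, b, c, d, e] →
      d3 Φ a b c d e = 0) :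
    ∃ (Φ' : X → X → X → X → ℤ) (δ' : ℝ), 0 < δ' ∧
      (∀ a b c d e, Sm δ' [a, b, c, d, e] → d3 Φ' a b c d e = 0) ∧
      ∀ a ∈ N, ∀ b ∈ N, ∀ c ∈ N, ∀ d ∈ N, Sm δ' [a, b, c, d] → Φ' a b c d = Φ a b c d := by
  obtain ⟨r, lam, hlam, hr1, hr2, hr3⟩ := hSEL X hX N (δ / 4) (by positivity)
  refine ⟨fun a b c d => Φ a b c d + pr4 id r (d3 Φ) a b c d, min lam (δ / 4),
    lt_min hlam (by positivity), ?_, ?_⟩
  · intro a b c d e hs
    have h1 := prism4 id r (d3 Φ) a b c d e
    have h2 := hALT X Φ hΦ (r a) (r b) (r c) (r d) (r e)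
      (hr3 a b c d e (hs.mono (fun _ h => h) (min_le_left _ _)))
    have h3 : pr5 id r (d4 (d3 Φ)) a b c d e = 0 := by
      simp only [pr5, d4_d3]
      norm_num
    rw [d3_add]
    rw [h2, h3] at h1
    simp only [id] at h1
    linarith
  · intro a ha b hb c hc d hd hs
    have h1 : Sm δ ([a, b, c, d].map id ++ [a, b, c, d].map r) := by
      have hs' : Sm (δ / 4) [a, b, c, d] := hs.mono (fun _ h => h) (min_le_right _ _)
      refine map2 hs' id r ?_ ?_ ?_
      · intro x y h
        simp only [id]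
        linarith
      · intro x y h
        simp only [id]
        have h2 := dist_triangle x y (r y)
        have h3 := hr1 y
        rw [dist_comm] at h3
        linarith
      · intro x y h
        have h2 := dist_triangle4 (r x) x y (r y)
        have h3 := hr1 y
        rw [dist_comm] at h3
        have h4 := hr1 x
        linarith
    have h2 : pr4 id r (d3 Φ) a b c d = 0 := by
      simp only [pr4, id]
      rw [h0 a ha (r a) (hr2 a ha) (r b) (hr2 b hb) (r c) (hr2 c hc) (r d) (hr2 d hd)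
          (h1.mono (by simp) le_rfl),
        h0 a ha b hb (r b) (hr2 b hb) (r c) (hr2 c hc) (r d) (hr2 d hd)
          (h1.mono (by simp) le_rfl),
        h0 a ha b hb c hc (r c) (hr2 c hc) (r d) (hr2 d hd)
          (h1.mono (by simp) le_rfl),
        h0 a ha b hb c hc d hd (r d) (hr2 d hd)
          (h1.mono (by simp) le_rfl)]
      norm_num
    simp only [h2, add_zero]

/-- homotopy -/
theorem homot {X P : Type} [MetricSpace X] [MetricSpace P] [CompactSpace P]
    (Φ' : X → X → X → X → ℤ) (δ : ℝ) (hδ : 0 < δ)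
    (h0 : ∀ a b c d e, Sm δ [a, b, c, d, e] → d3 Φ' a b c d e = 0) (F : P × ℝ → X)
    (hF : ContinuousOn F (univ ×ˢ Icc 0 1)) (D : Set P)
    (hD : ∀ a ∈ D, ∀ b ∈ D, ∀ c ∈ D, ∀ d ∈ D, ∀ s ∈ Icc (0 : ℝ) 1, ∀ s' ∈ Icc (0 : ℝ) 1,
      ∀ t ∈ Icc (0 : ℝ) 1, ∀ t' ∈ Icc (0 : ℝ) 1, Sm δ [F (a, s), F (b, s'), F (c, t), F (d, t')] →
        Φ' (F (a, s)) (F (b, s')) (F (c, t)) (F (d, t')) = 0) :
    ∃ (κ : P → P → P → ℤ) (ε : ℝ), 0 < ε ∧
      (∀ a b c d, Sm ε [a, b, c, d] → Φ' (F (a, 1)) (F (b, 1)) (F (c, 1)) (F (d, 1)) -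
        Φ' (F (a, 0)) (F (b, 0)) (F (c, 0)) (F (d, 0)) = d2 κ a b c d) ∧
      ∀ a ∈ D, ∀ b ∈ D, ∀ c ∈ D, Sm ε [a, b, c] → κ a b c = 0 := by
  have hK : IsCompact ((univ : Set P) ×ˢ Icc (0 : ℝ) 1) := isCompact_univ.prod isCompact_Icc
  have hU := hK.uniformContinuousOn_of_continuous hF
  obtain ⟨μ, hμ, hU⟩ := Metric.uniformContinuousOn_iff.1 hU δ hδ
  obtain ⟨m', hm'⟩ := exists_nat_one_div_lt hμ
  set m : ℕ := m' + 1 with hm
  have hmpos : (0 : ℝ) < m := by positivity
  have hmμ : 1 / (m : ℝ) < μ := by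
    rw [hm]
    push_cast
    exact hm'
  let f : ℕ → P → X := fun j a => F (a, (j : ℝ) / m)
  have hI : ∀ j : ℕ, j ≤ m → (j : ℝ) / m ∈ Icc (0 : ℝ) 1 := by
    intro j hj
    refine ⟨by positivity, ?_⟩
    rw [div_le_one hmpos]
    exact_mod_cast hj
  have h1 : ∀ j : ℕ, j ≤ m → ∀ x y, dist x y < μ → dist (f j x) (f j y) < δ := by
    intro j hj x y hxy
    apply hU _ ⟨mem_univ _, hI j hj⟩ _ ⟨mem_univ _, hI j hj⟩
    rw [Prod.dist_eq]
    simp only [dist_self]
    exact max_lt hxy hμ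
  have h2 : ∀ j : ℕ, j + 1 ≤ m → ∀ x y, dist x y < μ → dist (f j x) (f (j + 1) y) < δ := by
    intro j hj x y hxy
    apply hU _ ⟨mem_univ _, hI j (by omega)⟩ _ ⟨mem_univ _, hI (j + 1) hj⟩
    rw [Prod.dist_eq]
    refine max_lt hxy ?_
    simp only [Real.dist_eq]
    have : (j : ℝ) / m - ((j + 1 : ℕ) : ℝ) / m = - (1 / (m : ℝ)) := by
      push_cast
      ring
    rw [this, abs_neg, abs_of_pos (by positivity)]
    exact hmμ
  have h3 : ∀ j : ℕ, j + 1 ≤ m → ∀ l : List P, Sm μ l →
      Sm δ (l.map (f j) ++ l.map (f (j + 1))) := by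
    intro j hj l hl
    exact map2 hl _ _ (h1 j (by omega)) (h2 j hj) (h1 (j + 1) hj)
  -- the sum
  have h4 : ∀ k : ℕ, k ≤ m → ∀ a b c d, Sm μ [a, b, c, d] →
      Φ' (f k a) (f k b) (f k c) (f k d) - Φ' (f 0 a) (f 0 b) (f 0 c) (f 0 d) =
        d2 (fun a b c => ∑ j ∈ Finset.range k, pr3 (f j) (f (j + 1)) Φ' a b c) a b c d := by
    intro k
    induction k with
    | zero =>
      intro _ a b c d _
      simp [d2]
    | succ k ih =>
      intro hk a b c d hs
      have h5 := ih (by omega) a b c d hs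
      simp only [Finset.sum_range_succ]
      rw [d2_add, ← h5]
      have h6 := prism3 (f k) (f (k + 1)) Φ' a b c d
      have h7 := h3 k hk _ hs
      have h8 : pr4 (f k) (f (k + 1)) (d3 Φ') a b c d = 0 := by
        simp only [pr4]
        rw [h0 _ _ _ _ _ (h7.mono (by simp) le_rfl), h0 _ _ _ _ _ (h7.mono (by simp) le_rfl),
          h0 _ _ _ _ _ (h7.mono (by simp) le_rfl), h0 _ _ _ _ _ (h7.mono (by simp) le_rfl)]
        norm_num
      rw [h8] at h6
      linarith
  refine ⟨fun a b c => ∑ j ∈ Finset.range m, pr3 (f j) (f (j + 1)) Φ' a b c, μ, hμ, ?_, ?_⟩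
  · intro a b c d hs
    have h5 := h4 m le_rfl a b c d hs
    have h6 : ∀ x, f m x = F (x, 1) := by
      intro x
      change F (x, (m : ℝ) / m) = _
      rw [div_self hmpos.ne']
    have h7 : ∀ x, f 0 x = F (x, 0) := by
      intro x
      change F (x, ((0 : ℕ) : ℝ) / m) = _
      rw [Nat.cast_zero, zero_div]
    simp only [h6, h7] at h5
    exact h5
  · intro a ha b hb c hc hs
    apply Finset.sum_eq_zero
    intro j hj
    have hj' : j + 1 ≤ m := Finset.mem_range.1 hj
    have h7 := h3 j hj' _ hs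
    have hj0 := hI j (by omega)
    have hj1 := hI (j + 1) hj'
    simp only [pr3]
    rw [hD a ha a ha b hb c hc _ hj0 _ hj1 _ hj1 _ hj1 (h7.mono (by simp [f]) le_rfl),
      hD a ha b hb b hb c hc _ hj0 _ hj0 _ hj1 _ hj1 (h7.mono (by simp [f]) le_rfl),
      hD a ha b hb c hc c hc _ hj0 _ hj0 _ hj0 _ hj1 (h7.mono (by simp [f]) le_rfl)]
    norm_num

end ROB

open Classical in
theorem t_ROB : M_ROB := by
  intro hHOM hALT hSEL X P _ _ _ _ hANR hShr e D u p0 he hi hE
  have hp0 : e p0 ∈ (e '' D)ᶜ := by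
    rintro ⟨q, hq, hq2⟩
    exact hE.nD (hi hq2 ▸ hq)
  have hDc : IsCompact D := hE.clD.isCompact
  have hopen : IsOpen (e '' D)ᶜ := (hDc.image he).isClosed.isOpen_compl
  obtain ⟨η, hη, hball⟩ := Metric.isOpen_iff.1 hopen _ hp0
  have hη2 : ∀ q ∈ D, η ≤ dist (e q) (e p0) := by
    intro q hq
    by_contra h
    exact hball (Metric.mem_ball.2 (not_le.1 h)) ⟨q, hq, rfl⟩
  obtain ⟨ε, hε, hH⟩ := hHOM X hANR η hη
  refine ⟨ε, hε, fun h hh hhε => ?_⟩
  by_contra hne
  obtain ⟨H, hHc, hH0, hH1, hHη⟩ := hH h hh hhε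
  set Z : Set X := h '' range e ∪ H '' ((e '' D) ×ˢ Icc 0 1) with hZ
  have hZc : IsCompact Z := by
    refine ((isCompact_range he).image hh).union ?_
    refine ((hDc.image he).prod isCompact_Icc).image_of_continuousOn (hHc.mono ?_)
    exact Set.prod_mono (subset_univ _) subset_rfl
  have hpZ : e p0 ∈ Zᶜ := by
    rintro (h1 | ⟨⟨x, t⟩, ⟨⟨q, hq, rfl⟩, ht⟩, hx⟩)
    · exact hne h1
    · have h1 := hHη (e q) t ht
      have h2 := hη2 q hq
      rw [hx, dist_comm] at h1
      linarith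
  obtain ⟨ρ2, hρ2, hballZ⟩ := Metric.isOpen_iff.1 hZc.isClosed.isOpen_compl _ hpZ
  set ρ : ℝ := ρ2 / 2 with hρ
  have hρpos : 0 < ρ := by positivity
  have hZρ : ∀ z ∈ Z, 2 * ρ ≤ dist z (e p0) := by
    intro z hz
    by_contra hc
    apply hballZ (Metric.mem_ball.2 _) hz
    have := not_le.1 hc
    linarith
  set B : Set X := Metric.ball (e p0) ρ with hB
  set W : Set P := e ⁻¹' B with hW
  have hWo : IsOpen W := Metric.isOpen_ball.preimage he
  have hpW : p0 ∈ W := Metric.mem_ball_self hρpos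
  obtain ⟨ψ, hψA, ε1, hε1, hψ1, hψ2⟩ := hE.loc W hWo hpW
  let ψ' : P → P → P → ℤ := fun a b c => if a ∉ W ∧ b ∉ W ∧ c ∉ W then ψ a b c else 0
  have hψ'A : Alt3 ψ' := by
    intro a b c
    simp only [ψ']
    by_cases ha : a ∈ W
    · simp [ha]
    · by_cases hb : b ∈ W
      · simp [hb]
      · by_cases hc : c ∈ W
        · simp [hc]
        · simp only [ha, hb, hc, not_false_eq_true, and_self, if_true]
          exact hψA a b c
  have : Nonempty P := ⟨p0⟩
  set g : X → P := Function.invFun e with hg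
  have hge : ∀ a, g (e a) = a := Function.leftInverse_invFun hi
  let U : P → P → P → P → ℤ := fun a b c d => u a b c d - d2 ψ' a b c d
  have hUA : Alt4 U := by
    intro a b c d
    have h1 := hE.alt a b c d
    have h2 := ROB.alt_d2 ψ' hψ'A a b c d
    refine ⟨?_, ?_, ?_⟩
    · change u b a c d - d2 ψ' b a c d = - (u a b c d - d2 ψ' a b c d)
      rw [h1.1, h2.1]
      ring
    · change u a c b d - d2 ψ' a c b d = - (u a b c d - d2 ψ' a b c d)
      rw [h1.2.1, h2.2.1]
      ring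
    · change u a b d c - d2 ψ' a b d c = - (u a b c d - d2 ψ' a b c d)
      rw [h1.2.2, h2.2.2]
      ring
  let Φ : X → X → X → X → ℤ := fun x y z w =>
    if x ∈ range e ∧ y ∈ range e ∧ z ∈ range e ∧ w ∈ range e then U (g x) (g y) (g z) (g w) else 0
  have hΦA : Alt4 Φ := by
    intro a b c d
    simp only [Φ]
    by_cases ha : a ∈ range e
    · by_cases hb : b ∈ range e
      · by_cases hc : c ∈ range e
        · by_cases hd : d ∈ range e
          · simp only [ha, hb, hc, hd, and_self, if_true]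
            exact hUA _ _ _ _
          · simp only [hd, and_false, false_and, if_false, neg_zero, and_self]
        · simp only [hc, and_false, false_and, if_false, neg_zero, and_self]
      · simp only [hb, and_false, false_and, if_false, neg_zero, and_self]
    · simp only [ha, and_false, false_and, if_false, neg_zero, and_self]
  have hΦe : ∀ a b c d, Φ (e a) (e b) (e c) (e d) = U a b c d := by
    intro a b c d
    simp only [Φ, mem_range_self, and_self, if_true, hge]
  obtain ⟨δ1, hδ1, hinv⟩ := ROB.inv_unif e he hi ε1 hε1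
  -- (i)
  have hΦ0 : ∀ x y z w, x ∉ B → y ∉ B → z ∉ B → w ∉ B → Sm δ1 [x, y, z, w] →
      Φ x y z w = 0 := by
    intro x y z w hx hy hz hw hs
    by_cases hr : x ∈ range e ∧ y ∈ range e ∧ z ∈ range e ∧ w ∈ range e
    · obtain ⟨⟨a, rfl⟩, ⟨b, rfl⟩, ⟨c, rfl⟩, ⟨d, rfl⟩⟩ := hr
      rw [hΦe]
      have ha : a ∉ W := hx
      have hb : b ∉ W := hy
      have hc : c ∉ W := hz
      have hd : d ∉ W := hw
      have hs' : Sm ε1 [a, b, c, d] := by
        intro p hp q hq
        apply hinv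
        exact hs (e p) (List.mem_map_of_mem (f := e) hp) (e q) (List.mem_map_of_mem (f := e) hq)
      change u a b c d - d2 ψ' a b c d = 0
      rw [hψ1 a ha b hb c hc d hd hs']
      simp only [d2, ψ', ha, hb, hc, hd, not_false_eq_true, and_self, if_true]
      ring
    · simp only [Φ, hr, if_false]
  set N : Set X := range e ∪ Z with hN
  set δ2 : ℝ := min δ1 ρ with hδ2
  have hδ2pos : 0 < δ2 := lt_min hδ1 hρpos
  -- (ii)
  have hΘ : ∀ a ∈ N, ∀ b ∈ N, ∀ c ∈ N, ∀ d ∈ N, ∀ f ∈ N, Sm δ2 [a, b, c, d, f] →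
      d3 Φ a b c d f = 0 := by
    intro a ha b hb c hc d hd f hf hs
    by_cases hr : ∀ x ∈ [a, b, c, d, f], x ∈ range e
    · obtain ⟨a', rfl⟩ := hr a (by simp)
      obtain ⟨b', rfl⟩ := hr b (by simp)
      obtain ⟨c', rfl⟩ := hr c (by simp)
      obtain ⟨d', rfl⟩ := hr d (by simp)
      obtain ⟨f', rfl⟩ := hr f (by simp)
      have h1 := hE.cyc a' b' c' d' f'
      have h2 := d3_d2 ψ' a' b' c' d' f'
      have h3 : d3 Φ (e a') (e b') (e c') (e d') (e f') =
          d3 u a' b' c' d' f' - d3 (d2 ψ') a' b' c' d' f' := by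
        simp only [d3, hΦe, U]
        ring
      rw [h3, h1, h2, sub_zero]
    · push Not at hr
      obtain ⟨x, hx, hxr⟩ := hr
      have hxZ : x ∈ Z := by
        have hxN : x ∈ N := by
          simp only [List.mem_cons, List.not_mem_nil, or_false] at hx
          rcases hx with rfl | rfl | rfl | rfl | rfl <;> assumption
        rcases hxN with h1 | h1
        · exact absurd h1 hxr
        · exact h1
      have h1 := hZρ x hxZ
      have hout : ∀ y ∈ [a, b, c, d, f], y ∉ B := by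
        intro y hy hyB
        have h2 := hs x hx y hy
        have h3 : dist y (e p0) < ρ := hyB
        have h4 := dist_triangle x y (e p0)
        have h5 : δ2 ≤ ρ := min_le_right _ _
        linarith
      have ha' := hout a (by simp)
      have hb' := hout b (by simp)
      have hc' := hout c (by simp)
      have hd' := hout d (by simp)
      have hf' := hout f (by simp)
      simp only [d3]
      have hle : δ2 ≤ δ1 := min_le_left _ _
      rw [hΦ0 b c d f hb' hc' hd' hf' (hs.mono (by simp) hle),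
        hΦ0 a c d f ha' hc' hd' hf' (hs.mono (by simp) hle),
        hΦ0 a b d f ha' hb' hd' hf' (hs.mono (by simp) hle),
        hΦ0 a b c f ha' hb' hc' hf' (hs.mono (by simp) hle),
        hΦ0 a b c d ha' hb' hc' hd' (hs.mono (by simp) hle)]
      norm_num
  obtain ⟨Φ', δ3, hδ3, hc3, hN3⟩ := ROB.extend hALT hSEL X hShr N Φ hΦA δ2 hδ2pos hΘ
  set δ4 : ℝ := min δ3 δ1 with hδ4
  have hδ4pos : 0 < δ4 := lt_min hδ3 hδ1
  have hZB : ∀ z ∈ Z, z ∉ B := by
    intro z hz hzB
    have h1 := hZρ z hz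
    have h2 : dist z (e p0) < ρ := hzB
    linarith
  have hZ0 : ∀ x ∈ Z, ∀ y ∈ Z, ∀ z ∈ Z, ∀ w ∈ Z, Sm δ4 [x, y, z, w] → Φ' x y z w = 0 := by
    intro x hx y hy z hz w hw hs
    rw [hN3 x (Or.inr hx) y (Or.inr hy) z (Or.inr hz) w (Or.inr hw)
      (hs.mono (fun _ h => h) (min_le_left _ _))]
    exact hΦ0 x y z w (hZB x hx) (hZB y hy) (hZB z hz) (hZB w hw)
      (hs.mono (fun _ h => h) (min_le_right _ _))
  obtain ⟨κ, ε2, hε2, hκ1, hκ2⟩ := ROB.homot Φ' δ4 hδ4pos
    (fun a b c d f hs => hc3 a b c d f (hs.mono (fun _ h => h) (min_le_left _ _)))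
    (fun q : P × ℝ => H (e q.1, q.2)) (by
      refine hHc.comp (by fun_prop) ?_
      rintro ⟨a, t⟩ ⟨_, ht⟩
      exact ⟨mem_univ _, ht⟩) D (by
      intro a ha b hb c hc d hd s hs s' hs' t ht t' ht' hsm
      exact hZ0 _ (Or.inr ⟨(e a, s), ⟨⟨a, ha, rfl⟩, hs⟩, rfl⟩)
        _ (Or.inr ⟨(e b, s'), ⟨⟨b, hb, rfl⟩, hs'⟩, rfl⟩)
        _ (Or.inr ⟨(e c, t), ⟨⟨c, hc, rfl⟩, ht⟩, rfl⟩)
        _ (Or.inr ⟨(e d, t'), ⟨⟨d, hd, rfl⟩, ht'⟩, rfl⟩) hsm)
  obtain ⟨ε3, hε3, hu3⟩ := ROB.unif e he δ4 hδ4pos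
  obtain ⟨ε4, hε4, hu4⟩ := ROB.unif (fun a => h (e a)) (hh.comp he) δ4 hδ4pos
  apply hE.ess
  refine ⟨fun a b c => ψ' a b c - κ a b c, min (min ε1 ε2) (min ε3 ε4),
    lt_min (lt_min hε1 hε2) (lt_min hε3 hε4), ?_, ?_⟩
  · intro a b c d hs
    have hs2 : Sm ε2 [a, b, c, d] :=
      hs.mono (fun _ h => h) ((min_le_left _ _).trans (min_le_right _ _))
    have hs3 : Sm ε3 [a, b, c, d] :=
      hs.mono (fun _ h => h) ((min_le_right _ _).trans (min_le_left _ _))
    have hs4 : Sm ε4 [a, b, c, d] :=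
      hs.mono (fun _ h => h) ((min_le_right _ _).trans (min_le_right _ _))
    have h1 := hκ1 a b c d hs2
    simp only [hH0, hH1] at h1
    have h2 : Sm δ4 [e a, e b, e c, e d] := ROB.map1 hs3 e hu3
    have h3 : Sm δ4 [h (e a), h (e b), h (e c), h (e d)] := ROB.map1 hs4 (fun a => h (e a)) hu4
    have hz : ∀ x, h (e x) ∈ Z := fun x => Or.inl ⟨e x, ⟨x, rfl⟩, rfl⟩
    rw [hZ0 _ (hz a) _ (hz b) _ (hz c) _ (hz d) h3] at h1
    have hn : ∀ x, e x ∈ N := fun x => Or.inl ⟨x, rfl⟩
    rw [hN3 _ (hn a) _ (hn b) _ (hn c) _ (hn d) (h2.mono (fun _ h => h) (min_le_left _ _)),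
      hΦe] at h1
    rw [ROB.d2_sub, ← h1]
    simp only [U]
    ring
  · intro a ha b hb c hc hs
    have hs2 : Sm ε2 [a, b, c] :=
      hs.mono (fun _ h => h) ((min_le_left _ _).trans (min_le_right _ _))
    have hs1 : Sm ε1 [a, b, c] :=
      hs.mono (fun _ h => h) ((min_le_left _ _).trans (min_le_left _ _))
    have h1 := hκ2 a ha b hb c hc hs2
    have h2 : ψ' a b c = 0 := by
      simp only [ψ']
      split_ifs
      · exact hψ2 a ha b hb c hc hs1
      · rfl
    simp only [h1, h2, sub_zero]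

end BBP


end

section

/-!
# BBP, module ROT: manifolds have nontrivial flows
-/

set_option autoImplicit false

namespace BBP

open Set Topology CTO

namespace ROT

/-- the speed of the rotation -/
noncomputable def b (v : R3) : ℝ := max 0 (1 - ‖v‖)

/-- the rotation -/
noncomputable def rot (a : ℝ) (v : R3) : R3 :=
  WithLp.toLp 2 ![Real.cos a * v 0 - Real.sin a * v 1, Real.sin a * v 0 + Real.cos a * v 1, v 2]

theorem rot_0 (a : ℝ) (v : R3) : rot a v 0 = Real.cos a * v 0 - Real.sin a * v 1 := rfl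
theorem rot_1 (a : ℝ) (v : R3) : rot a v 1 = Real.sin a * v 0 + Real.cos a * v 1 := rfl
theorem rot_2 (a : ℝ) (v : R3) : rot a v 2 = v 2 := rfl

theorem ext3 {u v : R3} (h0 : u 0 = v 0) (h1 : u 1 = v 1) (h2 : u 2 = v 2) : u = v := by
  ext i
  fin_cases i
  · exact h0
  · exact h1
  · exact h2

theorem norm_rot (a : ℝ) (v : R3) : ‖rot a v‖ = ‖v‖ := by
  rw [EuclideanSpace.norm_eq, EuclideanSpace.norm_eq]
  congr 1
  rw [Fin.sum_univ_three, Fin.sum_univ_three, rot_0, rot_1, rot_2]
  simp only [Real.norm_eq_abs, sq_abs]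
  have h := Real.sin_sq_add_cos_sq a
  linear_combination (v 0 ^ 2 + v 1 ^ 2) * h

theorem rot_rot (a c : ℝ) (v : R3) : rot a (rot c v) = rot (a + c) v := by
  apply ext3
  · rw [rot_0, rot_0, rot_1, rot_0, Real.cos_add, Real.sin_add]
    ring
  · rw [rot_1, rot_0, rot_1, rot_1, Real.cos_add, Real.sin_add]
    ring
  · rw [rot_2, rot_2, rot_2]

theorem rot_zero (v : R3) : rot 0 v = v := by
  apply ext3
  · rw [rot_0, Real.cos_zero, Real.sin_zero]
    ring
  · rw [rot_1, Real.cos_zero, Real.sin_zero]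
    ring
  · rw [rot_2]

/-- the flow on the space -/
noncomputable def psi (t : ℝ) (v : R3) : R3 := rot (t * b v) v

theorem b_psi (t : ℝ) (v : R3) : b (psi t v) = b v := by
  rw [b, psi, norm_rot, ← b]

theorem psi_zero (v : R3) : psi 0 v = v := by
  rw [psi, zero_mul, rot_zero]

theorem psi_add (s t : ℝ) (v : R3) : psi (s + t) v = psi s (psi t v) := by
  rw [psi, psi, b_psi, psi, rot_rot]
  congr 1
  ring

theorem psi_out (t : ℝ) (v : R3) (h : 1 ≤ ‖v‖) : psi t v = v := by
  have hb : b v = 0 := by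
    rw [b, max_eq_left]
    linarith
  rw [psi, hb, mul_zero, rot_zero]

theorem psi_cont : Continuous fun p : ℝ × R3 => psi p.1 p.2 := by
  have hb : Continuous fun p : ℝ × R3 => p.1 * b p.2 := by
    unfold b
    fun_prop
  have hc : ∀ i : Fin 3, Continuous fun p : ℝ × R3 => p.2 i := by
    intro i
    fun_prop
  unfold psi rot
  apply (PiLp.continuous_toLp 2 (fun _ : Fin 3 => ℝ)).comp
  apply continuous_pi
  intro i
  fin_cases i
  · exact ((Real.continuous_cos.comp hb).mul (hc 0)).sub ((Real.continuous_sin.comp hb).mul (hc 1))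
  · exact ((Real.continuous_sin.comp hb).mul (hc 0)).add ((Real.continuous_cos.comp hb).mul (hc 1))
  · exact hc 2

theorem psi_nontriv : ∃ t v, psi t v ≠ v := by
  refine ⟨2 * Real.pi, WithLp.toLp 2 ![1 / 2, 0, 0], ?_⟩
  intro h
  have h0 := congrArg (fun u : R3 => u 0) h
  have hn : ‖(WithLp.toLp 2 ![1 / 2, 0, 0] : R3)‖ = 1 / 2 := by
    rw [EuclideanSpace.norm_eq, Fin.sum_univ_three]
    have e : ‖(WithLp.toLp 2 ![1 / 2, 0, 0] : R3) 0‖ ^ 2 + ‖(WithLp.toLp 2 ![1 / 2, 0, 0] : R3) 1‖ ^ 2 +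
        ‖(WithLp.toLp 2 ![1 / 2, 0, 0] : R3) 2‖ ^ 2 = (1 / 2) ^ 2 := by
      change ‖(1 / 2 : ℝ)‖ ^ 2 + ‖(0 : ℝ)‖ ^ 2 + ‖(0 : ℝ)‖ ^ 2 = (1 / 2) ^ 2
      norm_num
    rw [e]
    exact Real.sqrt_sq (by norm_num)
  have hb : b (WithLp.toLp 2 ![1 / 2, 0, 0] : R3) = 1 / 2 := by
    rw [b, hn]
    norm_num
  change rot (2 * Real.pi * b (WithLp.toLp 2 ![1 / 2, 0, 0])) (WithLp.toLp 2 ![1 / 2, 0, 0]) 0 = 1 / 2 at h0
  rw [hb, rot_0] at h0
  have e : 2 * Real.pi * (1 / 2) = Real.pi := by ring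
  rw [e, Real.cos_pi, Real.sin_pi] at h0
  change (-1 : ℝ) * (1 / 2) - 0 * 0 = 1 / 2 at h0
  norm_num at h0

open Classical in
/-- the extension of a flow on a chart -/
noncomputable def phi {X : Type} [TopologicalSpace X] {V : Set X} (F : ℝ → R3 → R3) (h : V ≃ₜ R3)
    (t : ℝ) (x : X) : X :=
  if hx : x ∈ V then (h.symm (F t (h ⟨x, hx⟩)) : V) else x

section

variable {X : Type} [TopologicalSpace X] {V : Set X} (F : ℝ → R3 → R3) (h : V ≃ₜ R3)

theorem phi_in (t : ℝ) (x : V) : phi F h t x = (h.symm (F t (h x)) : V) := by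
  rw [phi, dif_pos x.2]

theorem phi_out (t : ℝ) {x : X} (hx : x ∉ V) : phi F h t x = x := by
  rw [phi, dif_neg hx]

theorem phi_cont [T2Space X] (hV : IsOpen V) (hc : Continuous fun p : ℝ × R3 => F p.1 p.2)
    (ho : ∀ t v, 1 ≤ ‖v‖ → F t v = v) : Continuous fun p : ℝ × X => phi F h p.1 p.2 := by
  rw [continuous_iff_continuousAt]
  rintro ⟨t0, x0⟩
  by_cases hx : x0 ∈ V
  · have h1 : ContinuousOn (fun p : ℝ × X => phi F h p.1 p.2) (univ ×ˢ V) := by
      rw [continuousOn_iff_continuous_domRestrict]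
      have h2 : ((univ : Set ℝ) ×ˢ V).domRestrict (fun p : ℝ × X => phi F h p.1 p.2) =
          fun p : ((univ : Set ℝ) ×ˢ V : Set (ℝ × X)) =>
            ((h.symm (F p.1.1 (h ⟨p.1.2, p.2.2⟩)) : V) : X) := by
        funext p
        exact phi_in F h p.1.1 ⟨p.1.2, p.2.2⟩
      rw [h2]
      have h3 : Continuous fun p : ((univ : Set ℝ) ×ˢ V : Set (ℝ × X)) =>
          ((p.1.1, h ⟨p.1.2, p.2.2⟩) : ℝ × R3) := by
        refine (continuous_fst.comp continuous_subtype_val).prodMk ?_
        exact h.continuous.comp ((continuous_snd.comp continuous_subtype_val).subtype_mk _)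
      exact continuous_subtype_val.comp (h.symm.continuous.comp (hc.comp h3))
    exact h1.continuousAt ((isOpen_univ.prod hV).mem_nhds ⟨mem_univ _, hx⟩)
  · -- the compact set
    have hK : IsCompact (Subtype.val '' (h.symm '' Metric.closedBall (0 : R3) 1)) :=
      ((isCompact_closedBall (0 : R3) 1).image h.symm.continuous).image continuous_subtype_val
    have hO : IsOpen (Subtype.val '' (h.symm '' Metric.closedBall (0 : R3) 1))ᶜ :=
      hK.isClosed.isOpen_compl
    have hx0 : x0 ∈ (Subtype.val '' (h.symm '' Metric.closedBall (0 : R3) 1))ᶜ := by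
      rintro ⟨y, -, rfl⟩
      exact hx y.2
    have hev : (fun p : ℝ × X => phi F h p.1 p.2) =ᶠ[𝓝 (t0, x0)] Prod.snd := by
      filter_upwards [(isOpen_univ.prod hO).mem_nhds ⟨mem_univ t0, hx0⟩] with p hp
      by_cases hp2 : p.2 ∈ V
      · have h4 : 1 ≤ ‖h ⟨p.2, hp2⟩‖ := by
          by_contra hlt
          push Not at hlt
          apply hp.2
          refine ⟨⟨p.2, hp2⟩, ⟨h ⟨p.2, hp2⟩, ?_, ?_⟩, rfl⟩
          · rw [mem_closedBall_zero_iff]
            exact hlt.le
          · rw [Homeomorph.symm_apply_apply]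
        have h5 := phi_in F h p.1 ⟨p.2, hp2⟩
        rw [ho _ _ h4, Homeomorph.symm_apply_apply] at h5
        exact h5
      · exact phi_out F h p.1 hp2
    exact (continuous_snd.continuousAt (x := (t0, x0))).congr hev.symm

theorem phi_zero (h0 : ∀ v, F 0 v = v) (x : X) : phi F h 0 x = x := by
  by_cases hx : x ∈ V
  · have h5 := phi_in F h 0 ⟨x, hx⟩
    rwa [h0, Homeomorph.symm_apply_apply] at h5
  · exact phi_out F h 0 hx

theorem phi_add (ha : ∀ s t v, F (s + t) v = F s (F t v)) (s t : ℝ) (x : X) :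
    phi F h (s + t) x = phi F h s (phi F h t x) := by
  by_cases hx : x ∈ V
  · have h5 := phi_in F h (s + t) ⟨x, hx⟩
    have h6 := phi_in F h t ⟨x, hx⟩
    change phi F h (s + t) x = _ at h5
    change phi F h t x = _ at h6
    rw [h5, h6, phi_in, Homeomorph.apply_symm_apply, ha]
  · rw [phi_out F h _ hx, phi_out F h _ hx, phi_out F h _ hx]

include h in
theorem flow [T2Space X] (hV : IsOpen V) (hc : Continuous fun p : ℝ × R3 => F p.1 p.2)
    (ho : ∀ t v, 1 ≤ ‖v‖ → F t v = v) (h0 : ∀ v, F 0 v = v)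
    (ha : ∀ s t v, F (s + t) v = F s (F t v)) (hn : ∃ t v, F t v ≠ v) : HasFlow X := by
  refine ⟨phi F h, phi_cont F h hV hc ho, phi_zero F h h0, phi_add F h ha, ?_⟩
  obtain ⟨t, v, htv⟩ := hn
  refine ⟨t, (h.symm v : V), ?_⟩
  rw [phi_in, Homeomorph.apply_symm_apply]
  intro he
  exact htv (h.symm.injective (Subtype.ext he))

end

end ROT

/-- Module ROT. -/
theorem t_ROT : S_ROT := by
  intro X _ hX hne
  obtain ⟨hT, -, hch⟩ := hX
  obtain ⟨x0⟩ := hne
  obtain ⟨V, hV, -, ⟨h⟩⟩ := hch x0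
  exact ROT.flow ROT.psi h hV ROT.psi_cont ROT.psi_out ROT.psi_zero ROT.psi_add ROT.psi_nontriv

end BBP


end

section

/-!
# BBP, block A, module VLO: the cochain is null away from the point
-/

set_option autoImplicit false

namespace BBP

open Set Topology CTO

namespace VLO

variable {K Z : Type}

/-- the 1-cochain `ψK * max` on the product -/
def kap (ψK : K → K → ℤ) (χ : Z → ℤ) (p q : K × Z) : ℤ :=
  ψK p.1 q.1 * max (χ p.2) (χ q.2)

/-- the 2-cochain on the product -/
def eta (c ψK : K → K → ℤ) (χ : Z → ℤ) (p q r : K × Z) : ℤ :=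
  if χ p.2 = 1 ∧ χ q.2 = 1 ∧ χ r.2 = 1 then d1 c p.1 q.1 r.1
  else if χ p.2 = 0 ∧ χ q.2 = 0 ∧ χ r.2 = 0 then 0 else d1 (kap ψK χ) p q r

theorem kap_alt {ψK : K → K → ℤ} (h : Alt2 ψK) (χ : Z → ℤ) : Alt2 (kap ψK χ) := by
  intro p q
  unfold kap
  rw [h p.1 q.1, max_comm]
  ring

theorem d1_alt {X : Type} {κ : X → X → ℤ} (h : Alt2 κ) : Alt3 (d1 κ) := by
  intro a b c
  have h1 := h a b
  have h2 := h b c
  constructor
  · unfold d1
    linarith
  · unfold d1
    linarith

theorem eta_alt {c ψK : K → K → ℤ} (hc : Alt2 c) (h : Alt2 ψK) (χ : Z → ℤ) :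
    Alt3 (eta c ψK χ) := by
  intro p q r
  have h1 := d1_alt hc p.1 q.1 r.1
  have h2 := d1_alt (kap_alt h χ) p q r
  constructor
  · unfold eta
    by_cases a1 : χ p.2 = 1 ∧ χ q.2 = 1 ∧ χ r.2 = 1
    · rw [if_pos a1, if_pos ⟨a1.2.1, a1.1, a1.2.2⟩]
      exact h1.1
    · rw [if_neg a1, if_neg fun h => a1 ⟨h.2.1, h.1, h.2.2⟩]
      by_cases a2 : χ p.2 = 0 ∧ χ q.2 = 0 ∧ χ r.2 = 0
      · rw [if_pos a2, if_pos ⟨a2.2.1, a2.1, a2.2.2⟩, neg_zero]
      · rw [if_neg a2, if_neg fun h => a2 ⟨h.2.1, h.1, h.2.2⟩]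
        exact h2.1
  · unfold eta
    by_cases a1 : χ p.2 = 1 ∧ χ q.2 = 1 ∧ χ r.2 = 1
    · rw [if_pos a1, if_pos ⟨a1.1, a1.2.2, a1.2.1⟩]
      exact h1.2
    · rw [if_neg a1, if_neg fun h => a1 ⟨h.1, h.2.2, h.2.1⟩]
      by_cases a2 : χ p.2 = 0 ∧ χ q.2 = 0 ∧ χ r.2 = 0
      · rw [if_pos a2, if_pos ⟨a2.1, a2.2.2, a2.2.1⟩, neg_zero]
      · rw [if_neg a2, if_neg fun h => a2 ⟨h.1, h.2.2, h.2.1⟩]
        exact h2.2

theorem vv_alt {L : Set K} {f : K → ℂ} (h : Alt2 (cc L f)) (χ : Z → ℤ) :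
    Alt3 (vv L f χ) := by
  intro p q r
  have h1 := d1_alt h p.1 q.1 r.1
  constructor
  · unfold vv
    rw [h1.1, max_left_comm (χ q.2)]
    ring
  · unfold vv
    rw [h1.2, max_comm (χ r.2) (χ q.2)]
    ring

theorem eta_one {c ψK : K → K → ℤ} {χ : Z → ℤ} {p q r : K × Z} (h1 : χ p.2 = 1)
    (h2 : χ q.2 = 1) (h3 : χ r.2 = 1) : eta c ψK χ p q r = d1 c p.1 q.1 r.1 :=
  if_pos ⟨h1, h2, h3⟩

theorem eta_zero {c ψK : K → K → ℤ} {χ : Z → ℤ} {p q r : K × Z} (h1 : χ p.2 = 0)
    (h2 : χ q.2 = 0) (h3 : χ r.2 = 0) : eta c ψK χ p q r = 0 := by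
  unfold eta
  rw [if_neg (by rw [h1]; simp), if_pos ⟨h1, h2, h3⟩]

theorem eta_face {c ψK : K → K → ℤ} {χ : Z → ℤ} {p q r : K × Z}
    (h : d1 c p.1 q.1 r.1 = d1 ψK p.1 q.1 r.1) :
    eta c ψK χ p q r = d1 (kap ψK χ) p q r := by
  unfold eta
  by_cases a1 : χ p.2 = 1 ∧ χ q.2 = 1 ∧ χ r.2 = 1
  · rw [if_pos a1, h]
    unfold d1 kap
    rw [a1.1, a1.2.1, a1.2.2, max_self, mul_one, mul_one, mul_one]
  · rw [if_neg a1]
    by_cases a2 : χ p.2 = 0 ∧ χ q.2 = 0 ∧ χ r.2 = 0
    · rw [if_pos a2]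
      unfold d1 kap
      rw [a2.1, a2.2.1, a2.2.2, max_self, mul_zero, mul_zero, mul_zero]
      simp
    · rw [if_neg a2]

theorem Sm.fst [MetricSpace K] [MetricSpace Z] {ε : ℝ} {l : List (K × Z)} (h : Sm ε l) :
    Sm ε (l.map Prod.fst) := by
  intro x hx y hy
  obtain ⟨p, hp, rfl⟩ := List.mem_map.1 hx
  obtain ⟨q, hq, rfl⟩ := List.mem_map.1 hy
  refine lt_of_le_of_lt ?_ (h p hp q hq)
  rw [Prod.dist_eq]
  exact le_max_left _ _

theorem dist_snd [MetricSpace K] [MetricSpace Z] {ε : ℝ} {l : List (K × Z)} (h : Sm ε l)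
    {p q : K × Z} (hp : p ∈ l) (hq : q ∈ l) : dist p.2 q.2 < ε := by
  refine lt_of_le_of_lt ?_ (h p hp q hq)
  rw [Prod.dist_eq]
  exact le_max_right _ _

end VLO

open VLO in
theorem t_VLO : M_VLO := by
  classical
  intro hCOC hCEX K Z _ _ _ _ L f a b ρ hL hf hf0 hρ hab WK OZ hWK hOZ hdis haO hbO hext hsep
  obtain ⟨hcc, ⟨ε2, hε2, hd⟩, -⟩ := hCOC K L f hL hf hf0
  have hLE : L ⊆ WKᶜ := fun x hx hxW => (Set.disjoint_left.1 hdis) hxW hx
  obtain ⟨ψK, hψa, hψ0, ε1, hε1, hψ⟩ := hCEX K L WKᶜ f hL hWK.isClosed_compl hLE hf hf0 hext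
  obtain ⟨Za, Zb, hZa, hZb, hdisj, hun, haZ, hbZ⟩ := hsep
  obtain ⟨δ, hδ, hth⟩ := hdisj.exists_thickenings hZa.isCompact hZb
  let χ : Z → ℤ := fun z => if z ∈ Metric.thickening δ Zb then 1 else 0
  have hχb : ∀ z ∈ Zb, ∀ z', dist z' z < δ → χ z' = 1 := by
    intro z hz z' hzz
    exact if_pos (Metric.mem_thickening_iff.2 ⟨z, hz, hzz⟩)
  have hχa : ∀ z ∈ Za, ∀ z', dist z' z < δ → χ z' = 0 := by
    intro z hz z' hzz
    refine if_neg fun h => ?_
    exact (Set.disjoint_left.1 hth) (Metric.mem_thickening_iff.2 ⟨z, hz, hzz⟩) h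
  have hχc : ∀ z ∉ OZ, (∀ z', dist z' z < δ → χ z' = 1) ∨ ∀ z', dist z' z < δ → χ z' = 0 := by
    intro z hz
    have : z ∈ Za ∪ Zb := by rw [hun]; exact hz
    rcases this with h | h
    · exact Or.inr (hχa z h)
    · exact Or.inl (hχb z h)
  set c := cc L f with hc
  refine ⟨fun p q r => vv L f (chi b ρ) p q r - eta c ψK χ p q r, ?_,
    min (min ε1 ε2) (min δ ρ), by positivity, ?_, ?_⟩
  · intro p q r
    have h1 := vv_alt hcc (chi b ρ) p q r
    have h2 := eta_alt hcc hψa χ p q r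
    constructor
    · show vv L f (chi b ρ) q p r - eta c ψK χ q p r =
        -(vv L f (chi b ρ) p q r - eta c ψK χ p q r)
      rw [h1.1, h2.1]; ring
    · show vv L f (chi b ρ) p r q - eta c ψK χ p r q =
        -(vv L f (chi b ρ) p q r - eta c ψK χ p q r)
      rw [h1.2, h2.2]; ring
  · intro p hp q hq r hr s hs hsm
    have key : d2 (eta c ψK χ) p q r s = 0 := by
      by_cases a1 : χ p.2 = 1 ∧ χ q.2 = 1 ∧ χ r.2 = 1 ∧ χ s.2 = 1
      · obtain ⟨e1, e2, e3, e4⟩ := a1
        unfold d2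
        rw [eta_one e2 e3 e4, eta_one e1 e3 e4, eta_one e1 e2 e4, eta_one e1 e2 e3]
        exact d2_d1 c p.1 q.1 r.1 s.1
      by_cases a2 : χ p.2 = 0 ∧ χ q.2 = 0 ∧ χ r.2 = 0 ∧ χ s.2 = 0
      · obtain ⟨e1, e2, e3, e4⟩ := a2
        unfold d2
        rw [eta_zero e2 e3 e4, eta_zero e1 e3 e4, eta_zero e1 e2 e4, eta_zero e1 e2 e3]
        simp
      -- all second coordinates are in `OZ`
      have hin : ∀ x ∈ [p, q, r, s], x.2 ∈ OZ := by
        intro x hx
        by_contra hxO
        have hdist : ∀ y ∈ [p, q, r, s], dist y.2 x.2 < δ := fun y hy =>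
          (dist_snd hsm hy hx).trans_le ((min_le_right _ _).trans (min_le_left _ _))
        rcases hχc x.2 hxO with h | h
        · exact a1 ⟨h _ (hdist p (by simp)), h _ (hdist q (by simp)), h _ (hdist r (by simp)),
            h _ (hdist s (by simp))⟩
        · exact a2 ⟨h _ (hdist p (by simp)), h _ (hdist q (by simp)), h _ (hdist r (by simp)),
            h _ (hdist s (by simp))⟩
      have hK : ∀ x ∈ [p, q, r, s], x ∉ WK ×ˢ OZ → x.1 ∈ WKᶜ := fun x hx hxn hxW =>
        hxn ⟨hxW, hin x hx⟩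
      have kp := hK p (by simp) hp
      have kq := hK q (by simp) hq
      have kr := hK r (by simp) hr
      have ks := hK s (by simp) hs
      have hface : ∀ x ∈ [p, q, r, s], ∀ y ∈ [p, q, r, s], ∀ z ∈ [p, q, r, s],
          Sm ε1 [x.1, y.1, z.1] := by
        intro x hx y hy z hz
        have h1 : Sm ε1 ([x, y, z].map Prod.fst) := by
          refine Sm.fst (Sm.mono hsm ?_ ((min_le_left _ _).trans (min_le_left _ _)))
          intro w hw
          simp only [List.mem_cons, List.not_mem_nil, or_false] at hw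
          rcases hw with rfl | rfl | rfl
          · exact hx
          · exact hy
          · exact hz
        exact h1
      have f1 := eta_face (χ := χ) (hψ _ kq _ kr _ ks
        (hface q (by simp) r (by simp) s (by simp)))
      have f2 := eta_face (χ := χ) (hψ _ kp _ kr _ ks
        (hface p (by simp) r (by simp) s (by simp)))
      have f3 := eta_face (χ := χ) (hψ _ kp _ kq _ ks
        (hface p (by simp) q (by simp) s (by simp)))
      have f4 := eta_face (χ := χ) (hψ _ kp _ kq _ kr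
        (hface p (by simp) q (by simp) r (by simp)))
      unfold d2
      rw [f1, f2, f3, f4]
      exact d2_d1 (kap ψK χ) p q r s
    have e : d2 (fun p q r => vv L f (chi b ρ) p q r - eta c ψK χ p q r) p q r s =
        d2 (vv L f (chi b ρ)) p q r s - d2 (eta c ψK χ) p q r s := by
      simp only [d2]
      ring
    rw [e, key, sub_zero]
  · intro p hp q hq r hr hsm
    show vv L f (chi b ρ) p q r - eta c ψK χ p q r = 0
    by_cases ha : ∃ x ∈ [p, q, r], x.2 = a
    · obtain ⟨x, hx, hxa⟩ := ha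
      have h1 : ∀ y ∈ [p, q, r], χ y.2 = 0 ∧ chi b ρ y.2 = 0 := by
        intro y hy
        have hd1 : dist y.2 a < min (min ε1 ε2) (min δ ρ) := by
          rw [← hxa]
          exact dist_snd hsm hy hx
        refine ⟨hχa a haZ _ (hd1.trans_le ((min_le_right _ _).trans (min_le_left _ _))), ?_⟩
        refine if_neg ?_
        have h2 : dist y.2 a < ρ := hd1.trans_le ((min_le_right _ _).trans (min_le_right _ _))
        have h3 := dist_triangle_left a b y.2
        intro h4
        linarith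
      have e1 := h1 p (by simp)
      have e2 := h1 q (by simp)
      have e3 := h1 r (by simp)
      rw [eta_zero e1.1 e2.1 e3.1]
      unfold vv
      rw [e1.2, e2.2, e3.2]
      simp
    by_cases hb : ∃ x ∈ [p, q, r], x.2 = b
    · obtain ⟨x, hx, hxb⟩ := hb
      have h1 : ∀ y ∈ [p, q, r], χ y.2 = 1 ∧ chi b ρ y.2 = 1 := by
        intro y hy
        have hd1 : dist y.2 b < min (min ε1 ε2) (min δ ρ) := by
          rw [← hxb]
          exact dist_snd hsm hy hx
        refine ⟨hχb b hbZ _ (hd1.trans_le ((min_le_right _ _).trans (min_le_left _ _))), ?_⟩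
        exact if_pos (hd1.trans_le ((min_le_right _ _).trans (min_le_right _ _)))
      have e1 := h1 p (by simp)
      have e2 := h1 q (by simp)
      have e3 := h1 r (by simp)
      rw [eta_one e1.1 e2.1 e3.1]
      unfold vv
      rw [e1.2, e2.2, e3.2]
      simp [hc]
    -- all first coordinates are in `L`
    have hLm : ∀ x ∈ [p, q, r], x ∈ bdP L a b → x.1 ∈ L := by
      intro x hx hxb
      rcases hxb with h | h
      · exact h.1
      · rcases h.2 with h2 | h2
        · exact absurd ⟨x, hx, h2⟩ ha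
        · exact absurd ⟨x, hx, h2⟩ hb
    have lp := hLm p (by simp) hp
    have lq := hLm q (by simp) hq
    have lr := hLm r (by simp) hr
    have h0 : d1 c p.1 q.1 r.1 = 0 := by
      refine hd _ lp _ lq _ lr ?_
      have h1 : Sm ε2 ([p, q, r].map Prod.fst) :=
        Sm.fst (Sm.mono hsm (fun _ h => h) ((min_le_left _ _).trans (min_le_right _ _)))
      exact h1
    have h2 : eta c ψK χ p q r = 0 := by
      have h3 : d1 ψK p.1 q.1 r.1 = 0 := by
        unfold d1
        rw [hψ0 _ lq _ lr, hψ0 _ lp _ lr, hψ0 _ lp _ lq]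
        simp
      rw [eta_face (by rw [h0, h3])]
      unfold d1 kap
      rw [hψ0 _ lq _ lr, hψ0 _ lp _ lr, hψ0 _ lp _ lq]
      simp
    have h4 : vv L f (chi b ρ) p q r = 0 := by
      unfold vv
      rw [← hc, h0, zero_mul]
    rw [h2, h4, sub_zero]

end BBP


end

section

/-!
# VNZ: the cochain on the product is not null
-/

set_option autoImplicit false

namespace BBP

open Set Topology CTO

namespace VNZ

variable {K Z : Type} [MetricSpace K] [MetricSpace Z]

lemma chain (a b : Z) (h : ¬ Sepd (univ : Set Z) a b) (δ : ℝ) (hδ : 0 < δ) :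
    Relation.ReflTransGen (fun z z' : Z => dist z z' < δ) a b := by
  by_contra hb
  apply h
  have hmove : ∀ z z' : Z, dist z z' < δ →
      Relation.ReflTransGen (fun z z' : Z => dist z z' < δ) a z →
      Relation.ReflTransGen (fun z z' : Z => dist z z' < δ) a z' :=
    fun z z' h1 h2 => h2.tail h1
  refine ⟨{z | Relation.ReflTransGen (fun z z' : Z => dist z z' < δ) a z},
    {z | Relation.ReflTransGen (fun z z' : Z => dist z z' < δ) a z}ᶜ, ?_, ?_,
    disjoint_compl_right, union_compl_self _, Relation.ReflTransGen.refl, hb⟩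
  · rw [← isOpen_compl_iff, Metric.isOpen_iff]
    intro z hz
    refine ⟨δ, hδ, fun z' hz' hz'' => hz (hmove z' z ?_ hz'')⟩
    exact hz'
  · rw [isClosed_compl_iff, Metric.isOpen_iff]
    intro z hz
    refine ⟨δ, hδ, fun z' hz' => hmove z z' ?_ hz⟩
    rw [dist_comm]
    exact hz'

lemma dlt {x y : K} {z z' : Z} {ε : ℝ} (h1 : dist x y < ε) (h2 : dist z z' < ε) :
    dist (x, z) (y, z') < ε := by
  rw [Prod.dist_eq]
  exact max_lt h1 h2

end VNZ

theorem t_VNZ : M_VNZ := by
  intro hCOC hEXC K Z _ _ _ _ L f a b ρ hL hf hf0 hext hsep hρ hρ2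
  rintro ⟨ψ, ε, hε, hd, hb⟩
  obtain ⟨halt, -, -⟩ := hCOC K L f hL hf hf0
  have hcc0 : ∀ x, cc L f x x = 0 := by
    intro x
    have := halt x x
    omega
  set ζ : K × Z → K × Z → K × Z → ℤ := fun p q r => vv L f (chi b ρ) p q r - ψ p q r with hζ
  have hdζ : ∀ p q r s, Sm ε [p, q, r, s] → d2 ζ p q r s = 0 := by
    intro p q r s h
    have h1 := hd p q r s h
    simp only [d2, hζ] at h1 ⊢
    linarith
  have key : ∀ z : Z, Relation.ReflTransGen (fun z z' : Z => dist z z' < ε) a z →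
      ∃ κ : K → K → ℤ, (∀ x y w, Sm ε [x, y, w] → ζ (x, z) (y, z) (w, z) = d1 κ x y w) ∧
        ∀ x ∈ L, ∀ y ∈ L, dist x y < ε → κ x y = 0 := by
    intro z hz
    induction hz with
    | refl =>
      refine ⟨fun _ _ => 0, ?_, fun _ _ _ _ _ => rfl⟩
      intro x y w hs
      have h1 : ψ (x, a) (y, a) (w, a) = 0 := by
        refine hb _ ?_ _ ?_ _ ?_ ?_
        · exact Or.inr ⟨mem_univ _, Or.inl rfl⟩
        · exact Or.inr ⟨mem_univ _, Or.inl rfl⟩
        · exact Or.inr ⟨mem_univ _, Or.inl rfl⟩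
        · intro p hp q hq
          have hp' : p.2 = a ∧ p.1 ∈ [x, y, w] := by
            simp only [List.mem_cons, List.not_mem_nil, or_false] at hp ⊢
            rcases hp with rfl | rfl | rfl <;> simp
          have hq' : q.2 = a ∧ q.1 ∈ [x, y, w] := by
            simp only [List.mem_cons, List.not_mem_nil, or_false] at hq ⊢
            rcases hq with rfl | rfl | rfl <;> simp
          rw [Prod.dist_eq, hp'.1, hq'.1, dist_self]
          exact max_lt (hs _ hp'.2 _ hq'.2) hε
      have h2 : chi b ρ a = 0 := by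
        rw [chi, if_neg]
        linarith
      simp only [hζ, vv, h1, h2, d1, max_self, mul_zero, sub_self, add_zero]
    | @tail z z' hz hzz' ih =>
      obtain ⟨κ, hκ1, hκ2⟩ := ih
      have hz'z : dist z' z < ε := by rwa [dist_comm]
      refine ⟨fun x y => κ x y + pr2 (fun x => (x, z)) (fun x => (x, z')) ζ x y, ?_, ?_⟩
      · intro x y w hs
        have h1 := prism2 (fun x : K => (x, z)) (fun x : K => (x, z')) ζ x y w
        have hsm : ∀ l : List (K × Z), (∀ p ∈ l, p.1 ∈ [x, y, w] ∧ (p.2 = z ∨ p.2 = z')) →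
            Sm ε l := by
          intro l hl p hp q hq
          obtain ⟨h2, h3⟩ := hl p hp
          obtain ⟨h4, h5⟩ := hl q hq
          rw [Prod.dist_eq]
          refine max_lt (hs _ h2 _ h4) ?_
          rcases h3 with h3 | h3 <;> rcases h5 with h5 | h5 <;> rw [h3, h5]
          · rw [dist_self]
            exact hε
          · exact hzz'
          · exact hz'z
          · rw [dist_self]
            exact hε
        have h2 : pr3 (fun x : K => (x, z)) (fun x : K => (x, z')) (d2 ζ) x y w = 0 := by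
          rw [pr3]
          rw [hdζ, hdζ, hdζ]
          · ring
          all_goals
            apply hsm
            intro p hp
            simp only [List.mem_cons, List.not_mem_nil, or_false] at hp ⊢
            rcases hp with rfl | rfl | rfl | rfl <;> simp
        rw [h2, add_zero] at h1
        have h3 := hκ1 x y w hs
        simp only [d1] at h1 h3 ⊢
        linarith
      · intro x hx y hy hxy
        have hbd : ∀ u : Z, (x, u) ∈ bdP L a b ∧ (y, u) ∈ bdP L a b :=
          fun u => ⟨Or.inl ⟨hx, mem_univ _⟩, Or.inl ⟨hy, mem_univ _⟩⟩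
        have hyx : dist y x < ε := by rwa [dist_comm]
        have hsm : ∀ l : List (K × Z),
            (∀ p ∈ l, (p.1 = x ∨ p.1 = y) ∧ (p.2 = z ∨ p.2 = z')) → Sm ε l := by
          intro l hl p hp q hq
          obtain ⟨h2, h3⟩ := hl p hp
          obtain ⟨h4, h5⟩ := hl q hq
          rw [Prod.dist_eq]
          refine max_lt ?_ ?_
          · rcases h2 with h2 | h2 <;> rcases h4 with h4 | h4 <;> rw [h2, h4]
            · rw [dist_self]
              exact hε
            · exact hxy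
            · exact hyx
            · rw [dist_self]
              exact hε
          · rcases h3 with h3 | h3 <;> rcases h5 with h5 | h5 <;> rw [h3, h5]
            · rw [dist_self]
              exact hε
            · exact hzz'
            · exact hz'z
            · rw [dist_self]
              exact hε
        have h1 : ψ (x, z) (x, z') (y, z') = 0 := by
          refine hb _ (hbd z).1 _ (hbd z').1 _ (hbd z').2 (hsm _ ?_)
          intro p hp
          simp only [List.mem_cons, List.not_mem_nil, or_false] at hp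
          rcases hp with rfl | rfl | rfl <;> simp
        have h2 : ψ (x, z) (y, z) (y, z') = 0 := by
          refine hb _ (hbd z).1 _ (hbd z).2 _ (hbd z').2 (hsm _ ?_)
          intro p hp
          simp only [List.mem_cons, List.not_mem_nil, or_false] at hp
          rcases hp with rfl | rfl | rfl <;> simp
        have h3 : d1 (cc L f) x x y = 0 := by
          rw [d1, hcc0 x]
          ring
        have h4 : d1 (cc L f) x y y = 0 := by
          rw [d1, hcc0 y]
          ring
        have h5 := hκ2 x hx y hy hxy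
        simp only [pr2, hζ, vv, h1, h2, h3, h4, h5]
        ring
  obtain ⟨κ, hκ1, hκ2⟩ := key b (VNZ.chain a b hsep ε hε)
  apply hext
  refine hEXC K L f hL hf hf0 (fun x y => cc L f x y - κ x y) ε hε ?_ ?_
  · intro x y z hs
    have h1 := hκ1 x y z hs
    have h2 : ψ (x, b) (y, b) (z, b) = 0 := by
      refine hb _ ?_ _ ?_ _ ?_ ?_
      · exact Or.inr ⟨mem_univ _, Or.inr rfl⟩
      · exact Or.inr ⟨mem_univ _, Or.inr rfl⟩
      · exact Or.inr ⟨mem_univ _, Or.inr rfl⟩
      · intro p hp q hq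
        have hp' : p.2 = b ∧ p.1 ∈ [x, y, z] := by
          simp only [List.mem_cons, List.not_mem_nil, or_false] at hp ⊢
          rcases hp with rfl | rfl | rfl <;> simp
        have hq' : q.2 = b ∧ q.1 ∈ [x, y, z] := by
          simp only [List.mem_cons, List.not_mem_nil, or_false] at hq ⊢
          rcases hq with rfl | rfl | rfl <;> simp
        rw [Prod.dist_eq, hp'.1, hq'.1, dist_self]
        exact max_lt (hs _ hp'.2 _ hq'.2) hε
    have h3 : chi b ρ b = 1 := by
      rw [chi, if_pos]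
      rw [dist_self]
      exact hρ
    simp only [hζ, vv, h2, h3, max_self, mul_one, sub_zero] at h1
    simp only [d1] at h1 ⊢
    linarith
  · intro x hx y hy hxy
    have h1 := hκ2 x hx y hy hxy
    simp only [h1, sub_zero]

end BBP


end

section

/-!
# BBP, block B: accessible points (module ACC)
-/

set_option autoImplicit false

namespace BBP

open Set Topology

namespace ACC

theorem part1 (Y : Type) [MetricSpace Y] (hY : LocallyPathConnectedSpace Y) (U C V : Set Y)
    (hU : IsOpen U) (hC : IsClosed C) (hCU : C ⊆ U) (hV : Clo U C V) (p : Y) (hp : p ∈ C)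
    (hpV : p ∈ closure V) (N : Set Y) (hN : IsOpen N) (hpN : p ∈ N) :
    ∃ p' ∈ C ∩ N, Accs (V ∩ N) p' := by
  obtain ⟨hVo, -, hVU, hcl⟩ := hV
  have hNU : N ∩ U ∈ 𝓝 p := (hN.inter hU).mem_nhds ⟨hpN, hCU hp⟩
  obtain ⟨N', ⟨hN'1, hN'2⟩, hN'3⟩ := (path_connected_basis p).mem_iff.mp hNU
  obtain ⟨v, hvN, hvV⟩ := mem_closure_iff_nhds.mp hpV N' hN'1
  obtain ⟨γ, hγ⟩ := hN'2.joinedIn v hvN p (mem_of_mem_nhds hN'1)
  -- the first time in `C`
  set g : ℝ → Y := fun t => γ.extend t with hg
  have hgc : Continuous g := γ.extend.continuous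
  have hg0 : g 0 = v := γ.extend_zero
  have hg1 : g 1 = p := γ.extend_one
  have hgN : ∀ t : ℝ, t ∈ Icc (0 : ℝ) 1 → g t ∈ N' := by
    intro t ht
    have h1 : g t = γ ⟨t, ht⟩ := γ.extend_apply ht
    rw [h1]
    exact hγ _
  set S : Set ℝ := Icc (0 : ℝ) 1 ∩ g ⁻¹' C with hS
  have hScl : IsClosed S := isClosed_Icc.inter (hC.preimage hgc)
  have hS1 : (1 : ℝ) ∈ S := ⟨by simp, by show g 1 ∈ C; rw [hg1]; exact hp⟩
  have hSb : BddBelow S := ⟨0, fun t ht => ht.1.1⟩
  have ht0 : sInf S ∈ S := hScl.csInf_mem ⟨1, hS1⟩ hSb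
  set t0 := sInf S with ht0d
  have hlt : ∀ t : ℝ, 0 ≤ t → t < t0 → g t ∉ C := by
    intro t h0 h1 h2
    have h3 : t ∈ S := ⟨⟨h0, (h1.trans_le ht0.1.2).le⟩, h2⟩
    exact absurd (csInf_le hSb h3) (not_le.mpr h1)
  have ht0pos : 0 < t0 := by
    rcases ht0.1.1.lt_or_eq with h | h
    · exact h
    · exfalso
      have h1 : g 0 ∈ C := by
        rw [h]
        exact ht0.2
      rw [hg0] at h1
      exact (hVU hvV).2 h1
  have hV' : g '' Ico 0 t0 ⊆ V := by
    have hcon : IsPreconnected (g '' Ico 0 t0) :=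
      isPreconnected_Ico.image g hgc.continuousOn
    have hne : (g '' Ico 0 t0 ∩ V).Nonempty :=
      ⟨g 0, ⟨0, ⟨le_refl _, ht0pos⟩, rfl⟩, by rw [hg0]; exact hvV⟩
    have hsub : g '' Ico 0 t0 ⊆ V ∪ (closure V)ᶜ := by
      rintro _ ⟨t, ht, rfl⟩
      by_cases h1 : g t ∈ closure V
      · left
        have h2 : g t ∈ N' := hgN t ⟨ht.1, (ht.2.trans_le ht0.1.2).le⟩
        rcases hcl ⟨h1, (hN'3 h2).2⟩ with h3 | h3
        · exact h3
        · exact absurd h3 (hlt t ht.1 ht.2)
      · right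
        exact h1
    exact hcon.subset_left_of_subset_union hVo isClosed_closure.isOpen_compl
      (disjoint_compl_right_iff_subset.mpr subset_closure) hsub hne
  refine ⟨g t0, ⟨ht0.2, (hN'3 (hgN t0 ht0.1)).1⟩, fun t => g (t * t0), ?_, ?_, ?_⟩
  · exact (hgc.comp (continuous_id.mul continuous_const)).continuousOn
  · show g (1 * t0) = g t0
    rw [one_mul]
  · intro t ht
    have h1 : t * t0 < t0 := by
      have := mul_lt_mul_of_pos_right ht.2 ht0pos
      rwa [one_mul] at this
    have h2 : 0 ≤ t * t0 := mul_nonneg ht.1 ht0pos.le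
    exact ⟨hV' ⟨t * t0, ⟨h2, h1⟩, rfl⟩,
      (hN'3 (hgN (t * t0) ⟨h2, (h1.trans_le ht0.1.2).le⟩)).1⟩

theorem joined {Y : Type} [MetricSpace Y] {V W : Set Y} {p : Y} (h : Accs V p) (hVW : V ⊆ W)
    (hp : p ∈ W) : ∃ v ∈ V, JoinedIn W v p := by
  obtain ⟨α, h1, h2, h3⟩ := h
  refine ⟨α 0, h3 0 (by simp), JoinedIn.ofLine h1 rfl h2 ?_⟩
  rintro _ ⟨t, ht, rfl⟩
  rcases ht.2.lt_or_eq with h4 | h4
  · exact hVW (h3 t ⟨ht.1, h4⟩)
  · rw [h4, h2]
    exact hp

end ACC

open ACC in
theorem t_ACC : M_ACC := by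
  intro hA
  refine ⟨fun Y _ hY U C V hU hC hCU hV p hp hpV N hN hpN =>
    part1 Y hY U C V hU hC hCU hV p hp hpV N hN hpN, ?_⟩
  intro Y _ hY V p q hVo hVc hpq hp hq
  have hsub : V ⊆ V ∪ {p, q} := subset_union_left
  obtain ⟨v, hv, h1⟩ := joined hp hsub (by simp)
  obtain ⟨w, hw, h2⟩ := joined hq hsub (by simp)
  have h3 : JoinedIn V v w :=
    ((hVo.isConnected_iff_isPathConnected).mp hVc).joinedIn v hv w hw
  obtain ⟨A, hAs, hArc⟩ := hA.2 Y (V ∪ {p, q}) p q ((h1.symm.trans (h3.mono hsub)).trans h2) hpq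
  refine ⟨A, hArc, ?_⟩
  rintro x ⟨hx1, hx2⟩
  rcases hAs hx1 with h4 | h4
  · exact h4
  · exact absurd h4 hx2

end BBP


end

section

set_option autoImplicit false

namespace BBP

open Set Topology
open Pool.Agent.LIX (CLog)

theorem t_EON : M_EON := by
  intro hLPC hARB hLOG hNSP hDEG hJCT hDGP Y _ U J0 T0 f0 hU J A fJ F G y z hJ hJU hfJ hA hAJ hF hG
  have hlp : LocallyPathConnectedSpace Y := hLPC Y hU.ax
  obtain ⟨hMem, -⟩ := hJCT Y U J0 T0 f0 hU J fJ hJ hJU hfJ
  obtain ⟨-, hyA, hzA, -, hAc, hAconn, hAlog, -⟩ := hARB Y A y z hA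
  have hconn : IsConnected (ins J \ A) := hNSP Y hU.ax J (ins J) A fJ hMem hAJ hAc hAlog
  have hopen : IsOpen (ins J \ A) := hMem.opn.sdiff hAc.isClosed
  have hsubF : ins J \ A ⊆ (J ∪ ins J) \ {y} := fun x hx =>
    ⟨Or.inr hx.1, fun h => hx.2 (by rw [mem_singleton_iff] at h; rw [h]; exact hyA)⟩
  have hsubG : ins J \ A ⊆ (J ∪ ins J) \ {z} := fun x hx =>
    ⟨Or.inr hx.1, fun h => hx.2 (by rw [mem_singleton_iff] at h; rw [h]; exact hzA)⟩
  have hF0 : ∀ x ∈ ins J \ A, F x ≠ 0 := fun x hx => hF.2.1 x (hsubF hx)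
  have hG0 : ∀ x ∈ ins J \ A, G x ≠ 0 := fun x hx => hG.2.1 x (hsubG hx)
  have hFc : ContinuousOn F (ins J \ A) := hF.1.mono hsubF
  have hGc : ContinuousOn G (ins J \ A) := hG.1.mono hsubG
  refine hLOG Y hlp (ins J \ A) (fun x => F x / G x) hopen hconn (hFc.div hGc hG0)
    (fun x hx => div_ne_zero (hF0 x hx) (hG0 x hx)) ?_
  intro C hC hCsub
  obtain ⟨⟨fC, hfC⟩, -⟩ := hDEG Y C hC
  obtain ⟨-, hgen, -⟩ := hDEG Y C hC
  have hCJ : C ⊆ ins J := fun x hx => (hCsub hx).1
  have hCU : C ⊆ U := hCJ.trans (hJCT Y U J0 T0 f0 hU J fJ hJ hJU hfJ).2.1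
  obtain ⟨hMC, -, -, -, -, -, hclos, -⟩ := hJCT Y U J0 T0 f0 hU C fC hC hCU hfC
  have hAC : Disjoint A C := by
    rw [Set.disjoint_left]
    intro x hx hxC
    exact (hCsub hxC).2 hx
  obtain ⟨s, -, hs⟩ := hDGP Y U J0 T0 f0 hU C J fC fJ hC hJ hJU hCJ hfC hfJ
  obtain ⟨hy1, hy2⟩ := hs y F (hAJ hyA) hF
  obtain ⟨hz1, hz2⟩ := hs z G (hAJ hzA) hG
  have hyC : y ∉ C := fun h => Set.disjoint_left.1 hAC hyA h
  have hzC : z ∉ C := fun h => Set.disjoint_left.1 hAC hzA h
  obtain ⟨hfCc, hfC0, -, -⟩ := hgen fC hfC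
  have key : ∀ n : ℤ, Deg C fC F n → Deg C fC G n → CLog C fun x => F x / G x := by
    intro n h1 h2
    refine (CLog.div h1 h2).congr fun x hx => ?_
    have h3 : fC x ^ n ≠ 0 := zpow_ne_zero n (hfC0 x hx)
    have h4 : G x ≠ 0 := hG0 x (hCsub hx)
    field_simp
  have hAcov : A ⊆ ins C ∪ (closure (ins C))ᶜ := by
    intro x hx
    by_cases h : x ∈ ins C
    · exact Or.inl h
    · refine Or.inr fun h' => ?_
      rw [hclos] at h'
      rcases h' with h' | h'
      · exact Set.disjoint_left.1 hAC hx h'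
      · exact h h'
  have hdis : Disjoint (ins C) (closure (ins C))ᶜ := by
    rw [Set.disjoint_left]
    intro x hx hx'
    exact hx' (subset_closure hx)
  have hiff : ∀ u ∈ A, ∀ v ∈ A, u ∈ ins C → v ∈ ins C := by
    intro u hu v hv huC
    by_contra hvC
    have hv' : v ∈ (closure (ins C))ᶜ := (hAcov hv).resolve_left hvC
    obtain ⟨w, -, hw1, hw2⟩ := hAconn.isPreconnected (ins C) (closure (ins C))ᶜ hMC.opn
      isClosed_closure.isOpen_compl hAcov ⟨u, hu, huC⟩ ⟨v, hv, hv'⟩
    exact Set.disjoint_left.1 hdis hw1 hw2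
  by_cases h : y ∈ ins C
  · exact key s (hy1 h) (hz1 (hiff y hyA z hzA h))
  · exact key 0 (hy2 hyC h) (hz2 hzC fun h' => h (hiff z hzA y hyA h'))

end BBP


end

section

/-!
# BBP, module INC: equal increments over a set with a logarithm
-/

set_option autoImplicit false

namespace BBP

open Set Topology
open Pool.Agent.LIX (CLog)

namespace INC

theorem disc : DiscreteTopology (Set.range ((↑) : ℤ → ℝ)) :=
  (Int.isClosedEmbedding_coe_real.isEmbedding.toHomeomorph.symm.isEmbedding).discreteTopology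

/-- two continuous logarithms on a preconnected set differ by a constant -/
theorem lift_const {X : Type*} [TopologicalSpace X] {S : Set X} (hS : IsPreconnected S)
    {g1 g2 : X → ℂ} (h1 : ContinuousOn g1 S) (h2 : ContinuousOn g2 S)
    (he : ∀ x ∈ S, Complex.exp (g1 x) = Complex.exp (g2 x)) {x y : X} (hx : x ∈ S) (hy : y ∈ S) :
    g1 x - g2 x = g1 y - g2 y := by
  have hπ : (2 * Real.pi * Complex.I : ℂ) ≠ 0 := Complex.two_pi_I_ne_zero
  have hn : ∀ z ∈ S, ∃ n : ℤ, g1 z - g2 z = n * (2 * Real.pi * Complex.I) := by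
    intro z hz
    obtain ⟨n, hn⟩ := Complex.exp_eq_exp_iff_exists_int.1 (he z hz)
    exact ⟨n, by rw [hn]; ring⟩

  let h : X → ℝ := fun z => ((g1 z - g2 z) / (2 * Real.pi * Complex.I)).re
  have hh : ∀ z ∈ S, ∀ n : ℤ, g1 z - g2 z = n * (2 * Real.pi * Complex.I) → h z = n := by
    intro z _ n hn
    change ((g1 z - g2 z) / (2 * Real.pi * Complex.I)).re = n
    rw [hn, mul_div_cancel_right₀ _ hπ]
    exact Complex.intCast_re n
  have hc : ContinuousOn h S :=
    Complex.continuous_re.comp_continuousOn ((h1.sub h2).div_const _)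
  have hm : MapsTo h S (Set.range ((↑) : ℤ → ℝ)) := by
    intro z hz
    obtain ⟨n, hn'⟩ := hn z hz
    exact ⟨n, (hh z hz n hn').symm⟩
  have hxy : h x = h y := hS.constant_of_mapsTo ⟨disc⟩ hc hm hx hy
  obtain ⟨n, hn1⟩ := hn x hx
  obtain ⟨m, hm1⟩ := hn y hy
  rw [hh x hx n hn1, hh y hy m hm1, Int.cast_inj] at hxy
  rw [hn1, hm1, hxy]

end INC

/-- Equal increments over a set with a logarithm. -/
theorem t_INC : S_INC := by
  intro Y _ Sg Ga f l β θ s t hst hβ hθ he hl hel hGa hs ht hlog hsub hGS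
  obtain ⟨m, hm, hem⟩ := hlog
  have hmem : ∀ r ∈ Icc s t, β r ∈ Sg := fun r hr => hsub (mem_image_of_mem β hr)
  have h1 : θ t - m (β t) = θ s - m (β s) := by
    refine INC.lift_const (isPreconnected_Icc (a := s) (b := t)) hθ
      (hm.comp hβ fun r hr => hmem r hr) ?_ (right_mem_Icc.2 hst) (left_mem_Icc.2 hst)
    intro r hr
    rw [he r hr]
    exact (hem _ (hmem r hr)).symm
  have h2 : l (β t) - m (β t) = l (β s) - m (β s) := by
    refine INC.lift_const hGa hl (hm.mono hGS) ?_ ht hs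
    intro x hx
    rw [hel x hx, hem x (hGS hx)]
  have h3 : θ t - θ s = m (β t) - m (β s) := by linear_combination h1
  have h4 : l (β t) - l (β s) = m (β t) - m (β s) := by linear_combination h2
  rw [h3, h4]

end BBP


end

section

/-!
# BBP, module INQ: the inside of a simple closed curve
-/

set_option autoImplicit false

namespace BBP

open Set Topology
open Pool.Agent.LIX (CLog)

namespace INQ

/-- the outside of `U` is preconnected -/
theorem compl_conn {Y : Type} [TopologicalSpace Y] [PreconnectedSpace Y] {U J : Set Y}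
    (hU : IsOpen U) (hne : U.Nonempty) (hJ : IsConnected J) (hd : Disjoint U J)
    (hc : closure U ⊆ U ∪ J) : IsPreconnected Uᶜ := by
  have key : ∀ u v : Set Y, IsClosed u → IsClosed v → Uᶜ ⊆ u ∪ v → Disjoint u v → J ⊆ u →
      Uᶜ ⊆ u := by
    intro u v hu hv huv hdis hJu
    have hR : IsClosed (Uᶜ ∩ v) := hU.isClosed_compl.inter hv
    have hP : IsClosed (Uᶜ ∩ u) := hU.isClosed_compl.inter hu
    have hJc : ∀ x ∈ J, x ∉ U := fun x hx hxU => Set.disjoint_left.1 hd hxU hx
    have hcompl : (Uᶜ ∩ v)ᶜ = closure U ∪ (Uᶜ ∩ u) := by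
      ext x
      constructor
      · intro hx
        by_cases hxU : x ∈ U
        · exact Or.inl (subset_closure hxU)
        · rcases huv hxU with h | h
          · exact Or.inr ⟨hxU, h⟩
          · exact absurd ⟨hxU, h⟩ hx
      · rintro (hx | hx)
        · rcases hc hx with h | h
          · exact fun h' => h'.1 h
          · exact fun h' => Set.disjoint_left.1 hdis (hJu h) h'.2
        · exact fun h' => Set.disjoint_left.1 hdis hx.2 h'.2
    have hR' : IsOpen (Uᶜ ∩ v) := by
      rw [← isClosed_compl_iff, hcompl]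
      exact isClosed_closure.union hP
    rcases isClopen_iff.1 ⟨hR, hR'⟩ with h | h
    · intro x hx
      rcases huv hx with h1 | h1
      · exact h1
      · have : x ∈ (∅ : Set Y) := h ▸ ⟨hx, h1⟩
        exact absurd this (Set.notMem_empty x)
    · obtain ⟨x, hx⟩ := hne
      have : x ∈ Uᶜ ∩ v := h ▸ Set.mem_univ x
      exact absurd hx this.1
  rw [isPreconnected_iff_subset_of_fully_disjoint_closed hU.isClosed_compl]
  intro u v hu hv huv hdis
  have hJU : J ⊆ Uᶜ := fun x hx hxU => Set.disjoint_left.1 hd hxU hx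
  rcases (isPreconnected_iff_subset_of_disjoint_closed.1 hJ.isPreconnected) u v hu hv
    (hJU.trans huv) (by rw [hdis.inter_eq, Set.inter_empty]) with h | h
  · exact Or.inl (key u v hu hv huv hdis h)
  · exact Or.inr (key v u hv hu (by rwa [Set.union_comm]) hdis.symm h)

/-- a contractible curve lies in the set in which it is contracted -/
theorem contr_sub {Y : Type} [TopologicalSpace Y] {T C : Set Y} (hC : Scc C)
    (h : Contr T C) : C ⊆ T := by
  obtain ⟨γ, hγ, hr⟩ := hC
  obtain ⟨c, -, h0, -, -, hT⟩ := h γ hγ hr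
  intro x hx
  rw [← hr] at hx
  obtain ⟨t, rfl⟩ := hx
  have h1 : γ (Int.fract t) = γ t := by
    have := hγ.2.1.sub_int_mul_eq (x := t) ⌊t⌋
    rw [mul_one] at this
    rw [Int.fract]
    exact this
  have h2 : Int.fract t ∈ Icc (0 : ℝ) 1 := ⟨Int.fract_nonneg t, (Int.fract_lt_one t).le⟩
  rw [← h1, ← h0 _ h2]
  exact hT _ ⟨h2, by simp⟩

end INQ

theorem t_INQ : M_INQ := by
  intro hDEG hSCB hCTR hCMP Y _ U J0 T0 f0 hU C T f hC hCU hf hT hCT
  have hcC : IsCompact C := (hSCB Y C hC).1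
  have hJc : IsConnected J0 := (hSCB Y J0 hU.scc).2.1
  have hCT' : C ⊆ T := INQ.contr_sub hC hCT
  obtain ⟨hfc, hf0, -, -⟩ := (hDEG Y C hC).2.1 f hf
  have hne : ¬ ExtC C T f := by
    rintro ⟨F, hF, hF0, hFf⟩
    exact hCTR Y T C f 1 hf hCT one_ne_zero ⟨F, hF, hF0, fun x hx => by
      rw [zpow_one]; exact hFf hx⟩
  obtain ⟨Q, hQT, hQ⟩ := hCMP Y hU.ax C T f hcC hT hCT' hfc hf0 hne
  refine ⟨Q, hQT, ?_, hQ⟩
  have : ConnectedSpace Y := hU.ax.conn
  have hpre : IsPreconnected Uᶜ :=
    INQ.compl_conn hU.mem.opn hU.mem.conn.nonempty hJc hU.mem.disj hU.mem.clos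
  intro x hxQ
  by_contra hxU
  have hsub : Uᶜ ⊆ Q := by
    refine hpre.subset_left_of_subset_union hQ.opn (isClosed_closure (s := Q)).isOpen_compl ?_ ?_
      ⟨x, hxU, hxQ⟩
    · rw [Set.disjoint_left]
      exact fun y hy hy' => hy' (subset_closure hy)
    · intro y hy
      by_cases hyQ : y ∈ closure Q
      · rcases hQ.clos hyQ with h | h
        · exact Or.inl h
        · exact absurd (hCU h) hy
      · exact Or.inr hyQ
  apply hU.ax.ncpt
  refine ⟨?_⟩
  have huniv : (Set.univ : Set Y) = (J0 ∪ U) ∪ T := by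
    symm
    rw [Set.eq_univ_iff_forall]
    intro y
    by_cases hy : y ∈ U
    · exact Or.inl (Or.inr hy)
    · exact Or.inr (hQT (hsub hy))
  rw [huniv]
  exact hU.mem.cpt.union hT

end BBP


end

section

/-!
# BBP, block B, module JCT: the Jordan curve theorem
-/

set_option autoImplicit false

namespace BBP

open Set Topology

namespace JCT

variable {Y : Type} [MetricSpace Y] {U J0 T0 : Set Y} {f0 : Y → ℂ}

/-- the universe is not compact -/
theorem ncp (hU : Uni U J0 T0 f0) : ¬ IsCompact U := by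
  intro h
  have hc : ConnectedSpace Y := hU.ax.conn
  have h1 : IsClopen U := ⟨h.isClosed, hU.mem.opn⟩
  rcases isClopen_iff.1 h1 with h2 | h2
  · obtain ⟨x, hx⟩ := hU.mem.conn.nonempty
    rw [h2] at hx
    exact hx
  · exact hU.ax.ncpt ⟨by rwa [h2] at h⟩

/-- the complement of the universe is connected -/
theorem pre (hU : Uni U J0 T0 f0) (hJ : IsConnected J0) : IsPreconnected Uᶜ := by
  have hc : ConnectedSpace Y := hU.ax.conn
  have hJU : J0 ⊆ Uᶜ := fun x hx hxU => (Set.disjoint_left.1 hU.mem.disj) hxU hx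
  have key : ∀ u v : Set Y, IsClosed u → IsClosed v → Uᶜ ⊆ u ∪ v → Uᶜ ∩ (u ∩ v) = ∅ →
      J0 ⊆ u → Uᶜ ⊆ u := by
    intro u v hu hv huv hd hJu
    have hR : IsClosed (Uᶜ ∩ v) := hU.mem.opn.isClosed_compl.inter hv
    have hP : IsClosed (U ∪ (Uᶜ ∩ u)) := by
      apply isClosed_of_closure_subset
      rw [closure_union]
      rintro x (hx | hx)
      · rcases hU.mem.clos hx with h | h
        · exact Or.inl h
        · exact Or.inr ⟨hJU h, hJu h⟩
      · rw [(hU.mem.opn.isClosed_compl.inter hu).closure_eq] at hx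
        exact Or.inr hx
    have he : (Uᶜ ∩ v)ᶜ = U ∪ (Uᶜ ∩ u) := by
      ext x
      constructor
      · intro hx
        by_cases hxU : x ∈ U
        · exact Or.inl hxU
        · rcases huv hxU with h | h
          · exact Or.inr ⟨hxU, h⟩
          · exact absurd ⟨hxU, h⟩ hx
      · rintro (hx | hx) ⟨h1, h2⟩
        · exact h1 hx
        · have : x ∈ Uᶜ ∩ (u ∩ v) := ⟨h1, hx.2, h2⟩
          rw [hd] at this
          exact this
    have hop : IsOpen (Uᶜ ∩ v) := by
      rw [← compl_compl (Uᶜ ∩ v), he]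
      exact hP.isOpen_compl
    rcases isClopen_iff.1 (⟨hR, hop⟩ : IsClopen (Uᶜ ∩ v)) with h | h
    · intro x hx
      rcases huv hx with h1 | h1
      · exact h1
      · have : x ∈ Uᶜ ∩ v := ⟨hx, h1⟩
        rw [h] at this
        exact this.elim
    · obtain ⟨x, hx⟩ := hU.mem.conn.nonempty
      have : x ∈ Uᶜ ∩ v := by rw [h]; exact mem_univ x
      exact absurd hx this.1
  rw [isPreconnected_iff_subset_of_disjoint_closed]
  intro u v hu hv huv hd
  rcases (isPreconnected_iff_subset_of_disjoint_closed.1 hJ.isPreconnected) u v hu hv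
    (hJU.trans huv) (subset_empty_iff.1 (by
      rw [← hd]; exact inter_subset_inter_left _ hJU)) with h | h
  · exact Or.inl (key u v hu hv huv hd h)
  · exact Or.inr (key v u hv hu (by rwa [union_comm]) (by rwa [inter_comm v u]) h)

/-- the members of the family in the definition of `ins` -/
def Fam (C Q : Set Y) : Prop :=
  IsOpen Q ∧ IsConnected Q ∧ Disjoint Q C ∧ IsCompact (C ∪ Q)

/-- a connected set disjoint from `C` is in `Q` or disjoint from it -/
theorem dich {C Q Z : Set Y} (hQ : Fam C Q) (hZ : IsPreconnected Z) (hZC : Disjoint Z C) :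
    Z ⊆ Q ∨ Disjoint Z Q := by
  rcases (isPreconnected_iff_subset_of_disjoint.1 hZ) Q (C ∪ Q)ᶜ hQ.1
    hQ.2.2.2.isClosed.isOpen_compl (by
      intro x hx
      by_cases h : x ∈ Q
      · exact Or.inl h
      · refine Or.inr ?_
        rintro (h1 | h1)
        · exact (Set.disjoint_left.1 hZC) hx h1
        · exact h h1) (by
      ext x
      constructor
      · rintro ⟨_, h1, h2⟩
        exact h2 (Or.inr h1)
      · intro h
        exact h.elim) with h | h
  · exact Or.inl h
  · exact Or.inr (Set.disjoint_left.2 fun x hx hxQ => h hx (Or.inr hxQ))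

theorem fam_sub (hU : Uni U J0 T0 f0) (hJ : IsConnected J0) {C Q : Set Y} (hCU : C ⊆ U)
    (hQ : Fam C Q) : Q ⊆ U := by
  have hd : Disjoint Uᶜ C := Set.disjoint_left.2 fun x hx hxC => hx (hCU hxC)
  rcases dich hQ (pre hU hJ) hd with h | h
  · exfalso
    apply hU.ax.ncpt
    refine ⟨?_⟩
    have e : (univ : Set Y) = (J0 ∪ U) ∪ (C ∪ Q) := by
      ext x
      constructor
      · intro _
        by_cases hx : x ∈ U
        · exact Or.inl (Or.inr hx)
        · exact Or.inr (Or.inr (h hx))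
      · intro _
        exact mem_univ x
    rw [e]
    exact hU.mem.cpt.union hQ.2.2.2
  · intro x hx
    by_contra hxU
    exact (Set.disjoint_left.1 h) hxU hx

theorem fam_clo (hU : Uni U J0 T0 f0) (hJ : IsConnected J0) {C Q : Set Y} (hCU : C ⊆ U)
    (hQ : Fam C Q) : Clo U C Q := by
  refine ⟨hQ.1, hQ.2.1.nonempty, fun x hx => ⟨fam_sub hU hJ hCU hQ hx, fun hxC =>
    (Set.disjoint_left.1 hQ.2.2.1) hx hxC⟩, ?_⟩
  rintro x ⟨hx, _⟩
  have h1 : closure Q ⊆ C ∪ Q := closure_minimal subset_union_right hQ.2.2.2.isClosed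
  rcases h1 hx with h | h
  · exact Or.inr h
  · exact Or.inl h

theorem fam_uniq (hU : Uni U J0 T0 f0) (hJ : IsConnected J0) (h3 : S_JC3) {C Q Q' : Set Y}
    (hC : Scc C) (hCU : C ⊆ U) (hQ : Fam C Q) (hQ' : Fam C Q') : Q = Q' := by
  rcases dich hQ hQ'.2.1.isPreconnected hQ'.2.2.1 with h1 | h1
  · rcases dich hQ' hQ.2.1.isPreconnected hQ.2.2.1 with h2 | h2
    · exact Subset.antisymm h2 h1
    · obtain ⟨x, hx⟩ := hQ'.2.1.nonempty
      exact ((Set.disjoint_left.1 h2) (h1 hx) hx).elim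
  · exfalso
    have h2 := h3 Y U J0 T0 f0 hU C Q Q' hC hCU (fam_clo hU hJ hCU hQ) (fam_clo hU hJ hCU hQ')
      hQ.2.1 hQ'.2.1 h1.symm
    apply ncp hU
    have e : U = (C ∪ Q) ∪ (C ∪ Q') := by
      ext x
      constructor
      · intro hx
        by_cases hxC : x ∈ C
        · exact Or.inl (Or.inl hxC)
        · rcases h2 ⟨hx, hxC⟩ with h | h
          · exact Or.inl (Or.inr h)
          · exact Or.inr (Or.inr h)
      · rintro ((h | h) | (h | h))
        · exact hCU h
        · exact fam_sub hU hJ hCU hQ h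
        · exact hCU h
        · exact fam_sub hU hJ hCU hQ' h
    rw [e]
    exact hQ.2.2.2.union hQ'.2.2.2

theorem fam_of_mem {C Q : Set Y} {f : Y → ℂ} (h : Mem C f Q) : Fam C Q :=
  ⟨h.opn, h.conn, h.disj, h.cpt⟩

end JCT

open JCT in
theorem t_JCT : M_JCT := by
  intro hLPC hSCB hINQ hJC2 hJC3 Y _ U J0 T0 f0 hU C f hC hCU hf
  have hJ : IsConnected J0 := (hSCB Y J0 hU.scc).2.1
  have hCc : IsCompact C := (hSCB Y C hC).1
  obtain ⟨Q, -, hQU, hQ⟩ := hINQ Y U J0 T0 f0 hU C T0 f hC hCU hf hU.cptT (hU.contr C hC hCU)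
  have hFQ : Fam C Q := fam_of_mem hQ
  have hins : ins C = Q := by
    apply Subset.antisymm
    · rintro x ⟨Q', hQ', hx⟩
      rw [fam_uniq hU hJ hJC3 hC hCU hFQ hQ']
      exact hx
    · intro x hx
      exact ⟨Q, hFQ, hx⟩
  rw [hins]
  have hcl : IsClosed (C ∪ Q) := hFQ.2.2.2.isClosed
  have hclo : Clo U C Q := fam_clo hU hJ hCU hFQ
  have hbd : C ⊆ closure Q := hJC2 Y U J0 T0 f0 hU C Q hC hCU hclo
  set E := U \ (C ∪ Q) with hE
  have hEo : IsOpen E := hU.mem.opn.sdiff hcl
  have hEn : E.Nonempty := by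
    by_contra h
    rw [Set.not_nonempty_iff_eq_empty] at h
    apply ncp hU
    have e : U = C ∪ Q := by
      apply Subset.antisymm
      · rw [hE, Set.diff_eq_empty] at h
        exact h
      · exact union_subset hCU hQU
    rw [e]
    exact hFQ.2.2.2
  obtain ⟨x, hx⟩ := hEn
  have hlpc : LocallyPathConnectedSpace Y := hLPC Y hU.ax
  set V2 := connectedComponentIn E x with hV2
  have hV2o : IsOpen V2 := hEo.connectedComponentIn
  have hV2c : IsConnected V2 := isConnected_connectedComponentIn_iff.2 hx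
  have hV2E : V2 ⊆ E := connectedComponentIn_subset E x
  have hV2clo : Clo U C V2 := by
    refine ⟨hV2o, hV2c.nonempty, fun y hy => ⟨(hV2E hy).1, fun h => (hV2E hy).2 (Or.inl h)⟩, ?_⟩
    rintro y ⟨hy, hyU⟩
    by_cases hyC : y ∈ C
    · exact Or.inr hyC
    left
    have hyQ : y ∉ Q := by
      intro h
      obtain ⟨z, hz1, hz2⟩ := mem_closure_iff.1 hy Q hFQ.1 h
      exact (hV2E hz2).2 (Or.inr hz1)
    have hyE : y ∈ E := ⟨hyU, fun h => h.elim hyC hyQ⟩
    have h1 : IsPreconnected (insert y V2) := by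
      refine hV2c.isPreconnected.subset_closure (subset_insert _ _) ?_
      exact insert_subset hy subset_closure
    have h2 : insert y V2 ⊆ connectedComponentIn E x :=
      h1.subset_connectedComponentIn (mem_insert_of_mem _ (mem_connectedComponentIn hx))
        (insert_subset hyE hV2E)
    exact h2 (mem_insert _ _)
  have hEV : E = V2 := by
    apply Subset.antisymm _ hV2E
    have hd : Disjoint Q V2 := Set.disjoint_left.2 fun y hy hyV => (hV2E hyV).2 (Or.inr hy)
    have h1 := hJC3 Y U J0 T0 f0 hU C Q V2 hC hCU hclo hV2clo hFQ.2.1 hV2c hd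
    intro y hy
    rcases h1 ⟨hy.1, fun h => hy.2 (Or.inl h)⟩ with h | h
    · exact absurd (Or.inr h) hy.2
    · exact h
  refine ⟨hQ, hQU, ?_, hbd, ?_, ?_, ?_, ?_⟩
  · rw [hEV]
    exact hV2c
  · rw [hEV]
    exact hJC2 Y U J0 T0 f0 hU C V2 hC hCU hV2clo
  · intro T hT hTU hET
    apply ncp hU
    have e : U = (C ∪ Q) ∪ T := by
      ext y
      constructor
      · intro hy
        by_cases h : y ∈ C ∪ Q
        · exact Or.inl h
        · exact Or.inr (hET ⟨hy, h⟩)
      · rintro (h | h)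
        · exact (union_subset hCU hQU) h
        · exact hTU h
    rw [e]
    exact hFQ.2.2.2.union hT
  · apply Subset.antisymm
    · exact closure_minimal subset_union_right hcl
    · exact union_subset hbd subset_closure
  · intro T hT hcT
    obtain ⟨Q', hQT, -, hQ'⟩ := hINQ Y U J0 T0 f0 hU C T f hC hCU hf hT hcT
    rw [fam_uniq hU hJ hJC3 hC hCU hFQ (fam_of_mem hQ')]
    exact hQT

end BBP


end

section

/-!
# BBP, module LPC: the space is locally path connected
-/

set_option autoImplicit false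

namespace BBP

open Set Topology

theorem t_LPC : S_LPC := by
  intro Y _ hY
  rw [locallyPathConnectedSpace_iff_pathComponentIn_mem_nhds]
  intro x u hu hxu
  obtain ⟨W1, hW1, hW1o, hxW1, H, hH, h0, h1, h2⟩ := hY.loc x u hu hxu
  refine Filter.mem_of_superset (hW1o.mem_nhds hxW1) ?_
  intro y hy
  have hc : Continuous fun t : unitInterval => H (y, (t : ℝ)) := by
    have h3 : Continuous fun t : unitInterval => ((y, (t : ℝ)) : Y × ℝ) := by fun_prop
    exact hH.comp_continuous h3 fun t => ⟨hy, t.2⟩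
  have hj : JoinedIn u y x :=
    ⟨⟨⟨fun t : unitInterval => H (y, (t : ℝ)), hc⟩, by simpa using h0 y hy,
      by simpa using h1 y hy⟩, fun t => h2 y hy t t.2⟩
  exact hj.symm

end BBP


end

section

/-!
# BBP, module SCA: arcs of a parametrised simple closed curve
-/

set_option autoImplicit false

namespace BBP

open Set Topology

namespace SCA

variable {Y : Type} [MetricSpace Y]

theorem injOn {γ : ℝ → Y} (hγ : Scp γ) (s : ℝ) : InjOn γ (Ico s (s + 1)) := by
  obtain ⟨_, hp, hi⟩ := hγ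
  intro x hx y hy hxy
  have hfr : ∀ z : ℝ, γ (Int.fract z) = γ z := by
    intro z
    have h := hp.sub_int_mul_eq (x := z) ⌊z⌋
    rw [mul_one] at h
    exact h
  have h1 : Int.fract x = Int.fract y := by
    refine hi ⟨Int.fract_nonneg x, Int.fract_lt_one x⟩ ⟨Int.fract_nonneg y, Int.fract_lt_one y⟩ ?_
    rw [hfr, hfr, hxy]
  obtain ⟨n, hn⟩ := Int.fract_eq_fract.1 h1
  have h2 : (n : ℝ) < 1 := by
    rw [← hn]
    linarith [hx.2, hy.1]
  have h3 : (-1 : ℝ) < n := by
    rw [← hn]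
    linarith [hx.1, hy.2]
  have h4 : n < 1 := by exact_mod_cast h2
  have h5 : -1 < n := by exact_mod_cast h3
  have h6 : n = 0 := by omega
  rw [h6, Int.cast_zero] at hn
  linarith

theorem arc {γ : ℝ → Y} (hc : Continuous γ) {s t : ℝ} (hst : s < t) (hi : InjOn γ (Icc s t)) :
    Arc (γ '' Icc s t) (γ s) (γ t) := by
  have hpos : 0 < t - s := by linarith
  have hmem : ∀ u ∈ Icc (0 : ℝ) 1, s + u * (t - s) ∈ Icc s t := by
    intro u hu
    have h1 : 0 ≤ u * (t - s) := mul_nonneg hu.1 hpos.le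
    have h2 : u * (t - s) ≤ 1 * (t - s) := mul_le_mul_of_nonneg_right hu.2 hpos.le
    exact ⟨by linarith, by linarith⟩
  refine ⟨fun u => γ (s + u * (t - s)), ?_, ?_, ?_, ?_, ?_⟩
  · exact (hc.comp (by fun_prop)).continuousOn
  · intro u hu u' hu' h
    have h1 := hi (hmem u hu) (hmem u' hu') h
    have h2 : u * (t - s) = u' * (t - s) := by linarith
    exact mul_right_cancel₀ hpos.ne' h2
  · show γ (s + 0 * (t - s)) = γ s
    congr 1
    ring
  · show γ (s + 1 * (t - s)) = γ t
    congr 1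
    ring
  · ext y
    constructor
    · rintro ⟨z, hz, rfl⟩
      refine ⟨(z - s) / (t - s), ⟨?_, ?_⟩, ?_⟩
      · exact div_nonneg (by linarith [hz.1]) hpos.le
      · rw [div_le_one hpos]
        linarith [hz.2]
      · show γ (s + (z - s) / (t - s) * (t - s)) = γ z
        congr 1
        rw [div_mul_cancel₀ _ hpos.ne']
        ring
    · rintro ⟨u, hu, rfl⟩
      exact ⟨_, hmem u hu, rfl⟩

end SCA

theorem t_SCA : S_SCA := by
  intro Y _ γ hγ
  have hper : ∀ s : ℝ, γ (s + 1) = γ s := hγ.2.1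
  have himg : ∀ s : ℝ, γ '' Icc s (s + 1) = range γ := fun s => hγ.2.1.image_Icc one_pos s
  refine ⟨fun s => ⟨SCA.injOn hγ s, himg s⟩, ?_⟩
  intro s t hst hts
  refine ⟨?_, ?_, ?_, ?_⟩
  · refine SCA.arc hγ.1 hst ((SCA.injOn hγ s).mono ?_)
    intro u hu
    exact ⟨hu.1, lt_of_le_of_lt hu.2 hts⟩
  · rw [← hper s]
    refine SCA.arc hγ.1 hts ((SCA.injOn hγ t).mono ?_)
    intro u hu
    exact ⟨hu.1, by linarith [hu.2]⟩
  · rw [← image_union, Icc_union_Icc_eq_Icc hst.le hts.le]
    exact himg s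
  · ext y
    constructor
    · rintro ⟨⟨u, hu, rfl⟩, v, hv, hvu⟩
      rcases eq_or_lt_of_le hv.2 with h | h
      · left
        rw [← hvu, h, hper]
      · right
        have h1 : v = u := SCA.injOn hγ s ⟨by linarith [hv.1], h⟩ ⟨hu.1, by linarith [hu.2]⟩ hvu
        have h2 : u = t := le_antisymm hu.2 (by rw [← h1]; exact hv.1)
        rw [mem_singleton_iff, h2]
    · rintro (h | h)
      · rw [h]
        exact ⟨⟨s, ⟨le_refl _, hst.le⟩, rfl⟩, s + 1, ⟨hts.le, le_refl _⟩, hper s⟩
      · rw [mem_singleton_iff.1 h]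
        exact ⟨⟨t, ⟨hst.le, le_refl _⟩, rfl⟩, t, ⟨le_refl _, hts.le⟩, rfl⟩

end BBP


end
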