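import Mathlib
import Pool.Agent.BBM.C08

/-! Parts: BBP.B_PTM, BBP.B_PTA, BBP.B_ARB, BBP.B_GLU -/

section

/-! Module PTM: a path without returns. -/

set_option autoImplicit false

namespace BBP

open Set Topology

namespace PTM

/-- the family of closed sets -/
structure Fam {Y : Type} (p : ℝ → Y) (F : Set ℝ) : Prop where
  cl : IsClosed F
  sub : F ⊆ Icc 0 1
  zero : (0 : ℝ) ∈ F
  one : (1 : ℝ) ∈ F
  gap : ∀ s ∈ F, ∀ t ∈ F, s < t → (∀ x ∈ F, ¬ (s < x ∧ x < t)) → p s = p t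

theorem Fam.base {Y : Type} (p : ℝ → Y) : Fam p (Icc (0 : ℝ) 1) where
  cl := isClosed_Icc
  sub := subset_rfl
  zero := by simp
  one := by simp
  gap := by
    intro s hs t ht hst h
    exact absurd ⟨by linarith, by linarith⟩ (h ((s + t) / 2) ⟨by linarith [hs.1, ht.1],
      by linarith [hs.2, ht.2]⟩)

theorem exists_greatest {F : Set ℝ} (hF : IsClosed F) {a b x : ℝ} (hx : x ∈ F ∩ Icc a b) :
    ∃ l, IsGreatest (F ∩ Icc a b) l :=
  (isCompact_Icc.inter_left hF).exists_isGreatest ⟨x, hx⟩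

theorem exists_least {F : Set ℝ} (hF : IsClosed F) {a b x : ℝ} (hx : x ∈ F ∩ Icc a b) :
    ∃ l, IsLeast (F ∩ Icc a b) l :=
  (isCompact_Icc.inter_left hF).exists_isLeast ⟨x, hx⟩

theorem chain {Y : Type} [MetricSpace Y] (p : ℝ → Y) (hp : ContinuousOn p (Icc 0 1))
    (c : Set (Set ℝ)) (hc : ∀ F ∈ c, Fam p F) (hch : IsChain (· ⊆ ·) c) (hne : c.Nonempty) :
    Fam p (⋂₀ c) := by
  obtain ⟨F0, hF0⟩ := hne
  refine ⟨isClosed_sInter fun F hF => (hc F hF).cl, fun x hx => (hc F0 hF0).sub (hx F0 hF0),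
    fun F hF => (hc F hF).zero, fun F hF => (hc F hF).one, ?_⟩
  intro s hs t ht hst hgap
  have hs1 : s ∈ Icc (0 : ℝ) 1 := (hc F0 hF0).sub (hs F0 hF0)
  have ht1 : t ∈ Icc (0 : ℝ) 1 := (hc F0 hF0).sub (ht F0 hF0)
  by_contra hne
  have hd : 0 < dist (p s) (p t) := dist_pos.2 hne
  have hs2 := Metric.continuousWithinAt_iff.1 (hp s hs1) (dist (p s) (p t) / 2) (by positivity)
  have ht2 := Metric.continuousWithinAt_iff.1 (hp t ht1) (dist (p s) (p t) / 2) (by positivity)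
  obtain ⟨δ1, hδ1, hs3⟩ := hs2
  obtain ⟨δ2, hδ2, ht3⟩ := ht2
  obtain ⟨δ, hδ, hδa, hδb, hδc⟩ : ∃ δ : ℝ, 0 < δ ∧ δ < δ1 ∧ δ < δ2 ∧ s + δ < t - δ := by
    refine ⟨min (min (δ1 / 2) (δ2 / 2)) ((t - s) / 4), ?_, ?_, ?_, ?_⟩
    · exact lt_min (lt_min (by positivity) (by positivity)) (by linarith)
    · have := (min_le_left (min (δ1 / 2) (δ2 / 2)) ((t - s) / 4)).trans (min_le_left _ _)
      linarith
    · have := (min_le_left (min (δ1 / 2) (δ2 / 2)) ((t - s) / 4)).trans (min_le_right _ _)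
      linarith
    · have := min_le_right (min (δ1 / 2) (δ2 / 2)) ((t - s) / 4)
      linarith
  have : Nonempty c := ⟨⟨F0, hF0⟩⟩
  have hdir : Directed (· ⊇ ·) (fun F : c => (F : Set ℝ)) := by
    intro A B
    rcases hch.total A.2 B.2 with h | h
    · exact ⟨A, subset_rfl, h⟩
    · exact ⟨B, h, subset_rfl⟩
  have hemp : Icc (s + δ) (t - δ) ∩ ⋂ F : c, (F : Set ℝ) = ∅ := by
    rw [Set.eq_empty_iff_forall_notMem]
    rintro x ⟨hx1, hx2⟩
    rw [mem_iInter] at hx2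
    have hx3 : x ∈ ⋂₀ c := fun F hF => hx2 ⟨F, hF⟩
    exact hgap x hx3 ⟨by linarith [hx1.1], by linarith [hx1.2]⟩
  obtain ⟨⟨F, hF⟩, hFe⟩ := (isCompact_Icc (a := s + δ) (b := t - δ)).elim_directed_family_closed
    (fun F : c => (F : Set ℝ)) (fun F => (hc F F.2).cl) hemp hdir
  have hFF := hc F hF
  have hsF : s ∈ F := hs F hF
  have htF : t ∈ F := ht F hF
  obtain ⟨s', hs', hs'm⟩ := exists_greatest hFF.cl (a := 0) (b := s + δ) (x := s)
    ⟨hsF, hs1.1, by linarith⟩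
  obtain ⟨t', ht', ht'm⟩ := exists_least hFF.cl (a := t - δ) (b := 1) (x := t)
    ⟨htF, by linarith, ht1.2⟩
  have h1 : s ≤ s' := hs'm ⟨hsF, hs1.1, by linarith⟩
  have h2 : t' ≤ t := ht'm ⟨htF, by linarith, ht1.2⟩
  have h3 : p s' = p t' := by
    apply hFF.gap s' hs'.1 t' ht'.1 (by linarith [hs'.2.2, ht'.2.1])
    rintro x hx ⟨hx1, hx2⟩
    have hxI := hFF.sub hx
    by_cases hxa : x ≤ s + δ
    · have := hs'm ⟨hx, hxI.1, hxa⟩
      linarith
    · by_cases hxb : t - δ ≤ x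
      · have := ht'm ⟨hx, hxb, hxI.2⟩
        linarith
      · have : x ∈ Icc (s + δ) (t - δ) ∩ F := ⟨⟨by linarith, by linarith⟩, hx⟩
        rw [hFe] at this
        exact this
  have h4 : dist (p s') (p s) < dist (p s) (p t) / 2 := by
    apply hs3 (hFF.sub hs'.1)
    rw [Real.dist_eq, abs_of_nonneg (by linarith)]
    linarith [hs'.2.2]
  have h5 : dist (p t') (p t) < dist (p s) (p t) / 2 := by
    apply ht3 (hFF.sub ht'.1)
    rw [Real.dist_eq, abs_of_nonpos (by linarith)]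
    linarith [ht'.2.1]
  have h6 := dist_triangle (p s) (p s') (p t)
  rw [dist_comm] at h4
  rw [← h3] at h5
  linarith

/-- a minimal member -/
theorem exists_min {Y : Type} [MetricSpace Y] (p : ℝ → Y) (hp : ContinuousOn p (Icc 0 1)) :
    ∃ F : Set ℝ, Fam p F ∧ ∀ x ∈ F, ∀ y ∈ F, x < y → p x = p y → ∀ z ∈ F, ¬ (x < z ∧ z < y) := by
  obtain ⟨F, hF⟩ := zorn_superset {F : Set ℝ | Fam p F} (by
    intro c hc hch
    rcases c.eq_empty_or_nonempty with rfl | hne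
    · exact ⟨Icc 0 1, Fam.base p, by simp⟩
    · exact ⟨⋂₀ c, chain p hp c (fun F hF => hc hF) hch hne, fun F hF => sInter_subset_of_mem hF⟩)
  have hFF : Fam p F := hF.prop
  refine ⟨F, hFF, ?_⟩
  intro x hx y hy hxy hpxy z hz hxz
  have h1 : Fam p (F \ Ioo x y) := by
    refine ⟨hFF.cl.sdiff isOpen_Ioo, fun a ha => hFF.sub ha.1, ⟨hFF.zero, ?_⟩, ⟨hFF.one, ?_⟩, ?_⟩
    · intro h
      exact absurd h.1 (not_lt.2 (hFF.sub hx).1)
    · intro h
      exact absurd h.2 (not_lt.2 (hFF.sub hy).2)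
    · intro s hs t ht hst hgap
      by_cases hg : ∀ a ∈ F, ¬ (s < a ∧ a < t)
      · exact hFF.gap s hs.1 t ht.1 hst hg
      · push Not at hg
        obtain ⟨a, ha, ha1, ha2⟩ := hg
        have haI : a ∈ Ioo x y := by
          by_contra hc
          exact hgap a ⟨ha, hc⟩ ⟨ha1, ha2⟩
        have hxF : x ∈ F \ Ioo x y := ⟨hx, fun h => lt_irrefl _ h.1⟩
        have hyF : y ∈ F \ Ioo x y := ⟨hy, fun h => lt_irrefl _ h.2⟩
        have h2 : x ≤ s := by
          by_contra hc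
          exact hgap x hxF ⟨not_le.1 hc, haI.1.trans ha2⟩
        have h3 : t ≤ y := by
          by_contra hc
          exact hgap y hyF ⟨ha1.trans haI.2, not_le.1 hc⟩
        have h4 : s ≤ x := by
          by_contra hc
          exact hs.2 ⟨not_le.1 hc, ha1.trans haI.2⟩
        have h5 : y ≤ t := by
          by_contra hc
          exact ht.2 ⟨haI.1.trans ha2, not_le.1 hc⟩
        rw [le_antisymm h4 h2, le_antisymm h3 h5]
        exact hpxy
  have h2 : F ⊆ F \ Ioo x y := hF.le_of_le h1 sdiff_subset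
  exact (h2 hz).2 hxz

end PTM

theorem t_PTM : S_PTM := by
  intro Y _ p hp
  obtain ⟨F, hF, hmin⟩ := PTM.exists_min p hp
  -- the neighbours
  have hex : ∀ z : ℝ, ∃ l : ℝ, z ∈ Icc (0 : ℝ) 1 → IsGreatest (F ∩ Icc 0 z) l := by
    intro z
    by_cases hz : z ∈ Icc (0 : ℝ) 1
    · obtain ⟨l, hl⟩ := PTM.exists_greatest hF.cl (a := 0) (b := z) (x := 0)
        ⟨hF.zero, le_rfl, hz.1⟩
      exact ⟨l, fun _ => hl⟩
    · exact ⟨0, fun h => absurd h hz⟩
  have hex' : ∀ z : ℝ, ∃ r : ℝ, z ∈ Icc (0 : ℝ) 1 → IsLeast (F ∩ Icc z 1) r := by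
    intro z
    by_cases hz : z ∈ Icc (0 : ℝ) 1
    · obtain ⟨l, hl⟩ := PTM.exists_least hF.cl (a := z) (b := 1) (x := 1)
        ⟨hF.one, hz.2, le_rfl⟩
      exact ⟨l, fun _ => hl⟩
    · exact ⟨0, fun h => absurd h hz⟩
  choose l hl using hex
  choose r hr using hex'
  have hlr : ∀ z ∈ Icc (0 : ℝ) 1, p (l z) = p (r z) := by
    intro z hz
    have h1 := hl z hz
    have h2 := hr z hz
    have h3 : l z ≤ z := h1.1.2.2
    have h4 : z ≤ r z := h2.1.2.1
    rcases (h3.trans h4).lt_or_eq with h5 | h5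
    · apply hF.gap _ h1.1.1 _ h2.1.1 h5
      rintro x hx ⟨hx1, hx2⟩
      have hxI := hF.sub hx
      rcases le_total x z with h6 | h6
      · exact absurd (h1.2 ⟨hx, hxI.1, h6⟩) (not_le.2 hx1)
      · exact absurd (h2.2 ⟨hx, h6, hxI.2⟩) (not_le.2 hx2)
    · rw [h5]
  have hmem : ∀ z ∈ F, l z = z := by
    intro z hz
    have hzI := hF.sub hz
    have h1 := hl z hzI
    exact le_antisymm h1.1.2.2 (h1.2 ⟨hz, hzI.1, le_rfl⟩)
  -- no points between
  have hno : ∀ x y, 0 ≤ x → x ≤ y → y ≤ 1 → (∀ z ∈ F, ¬ (x ≤ z ∧ z ≤ y)) → l x = l y := by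
    intro x y hx hxy hy hn
    have h1 := hl x ⟨hx, hxy.trans hy⟩
    have h2 := hl y ⟨hx.trans hxy, hy⟩
    apply le_antisymm
    · exact h2.2 ⟨h1.1.1, h1.1.2.1, h1.1.2.2.trans hxy⟩
    · apply h1.2
      refine ⟨h2.1.1, h2.1.2.1, ?_⟩
      by_contra hc
      exact hn _ h2.1.1 ⟨(not_le.1 hc).le, h2.1.2.2⟩
  -- points between
  have hyes : ∀ x y, 0 ≤ x → x ≤ y → y ≤ 1 → (∃ z ∈ F, x ≤ z ∧ z ≤ y) →
      x ≤ r x ∧ r x ≤ l y ∧ l y ≤ y := by
    rintro x y hx hxy hy ⟨z, hz, hz1, hz2⟩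
    have h1 := hr x ⟨hx, hxy.trans hy⟩
    have h2 := hl y ⟨hx.trans hxy, hy⟩
    have hzI := hF.sub hz
    refine ⟨h1.1.2.1, ?_, h2.1.2.2⟩
    exact (h1.2 ⟨hz, hz1, hzI.2⟩).trans (h2.2 ⟨hz, hzI.1, hz2⟩)
  refine ⟨fun z => p (l z), ?_, ?_, ?_, ?_, ?_⟩
  · -- continuity
    have hU := isCompact_Icc.uniformContinuousOn_of_continuous hp
    apply UniformContinuousOn.continuousOn
    rw [Metric.uniformContinuousOn_iff] at hU ⊢
    intro ε hε
    obtain ⟨δ, hδ, h⟩ := hU ε hε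
    refine ⟨δ, hδ, ?_⟩
    have key : ∀ x ∈ Icc (0 : ℝ) 1, ∀ y ∈ Icc (0 : ℝ) 1, x ≤ y → dist x y < δ →
        dist (p (l x)) (p (l y)) < ε := by
      intro x hx y hy hxy hd
      by_cases hc : ∃ z ∈ F, x ≤ z ∧ z ≤ y
      · obtain ⟨h1, h2, h3⟩ := hyes x y hx.1 hxy hy.2 hc
        rw [hlr x hx]
        apply h _ (hF.sub (hr x hx).1.1) _ (hF.sub (hl y hy).1.1)
        rw [Real.dist_eq, abs_of_nonpos (by linarith)] at hd ⊢
        linarith
      · push Not at hc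
        rw [hno x y hx.1 hxy hy.2 (fun z hz h => absurd h.2 (not_le.2 (hc z hz h.1))), dist_self]
        exact hε
    intro x hx y hy hd
    rcases le_total x y with hxy | hxy
    · exact key x hx y hy hxy hd
    · rw [dist_comm] at hd ⊢
      exact key y hy x hx hxy hd
  · change p (l 0) = p 0
    rw [hmem 0 hF.zero]
  · change p (l 1) = p 1
    rw [hmem 1 hF.one]
  · rintro _ ⟨z, hz, rfl⟩
    exact ⟨l z, hF.sub (hl z hz).1.1, rfl⟩
  · intro x y hx hxy hy hq z hz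
    change p (l z) = p (l x)
    change p (l x) = p (l y) at hq
    have hxI : x ∈ Icc (0 : ℝ) 1 := ⟨hx, hxy.trans hy⟩
    have hyI : y ∈ Icc (0 : ℝ) 1 := ⟨hx.trans hxy, hy⟩
    have hzI : z ∈ Icc (0 : ℝ) 1 := ⟨hx.trans hz.1, hz.2.trans hy⟩
    by_cases hc : ∃ z ∈ F, x ≤ z ∧ z ≤ y
    · obtain ⟨h1, h2, h3⟩ := hyes x y hx hxy hy hc
      have hrF : r x ∈ F := (hr x hxI).1.1
      have hlF : l y ∈ F := (hl y hyI).1.1
      have hpp : p (r x) = p (l y) := by rw [← hlr x hxI, hq]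
      have hgap : ∀ a ∈ F, ¬ (r x < a ∧ a < l y) := by
        rcases h2.lt_or_eq with h4 | h4
        · exact hmin _ hrF _ hlF h4 hpp
        · rintro a _ ⟨ha1, ha2⟩
          linarith
      rcases lt_or_ge z (r x) with h5 | h5
      · rw [hno x z hx hz.1 hzI.2 ?_]
        rintro a ha ⟨ha1, ha2⟩
        have := (hr x hxI).2 ⟨ha, ha1, (hF.sub ha).2⟩
        linarith
      · rcases lt_or_ge z (l y) with h6 | h6
        · -- `l z = r x`
          have h7 : l z = r x := by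
            apply le_antisymm
            · by_contra hcc
              exact hgap _ (hl z hzI).1.1 ⟨not_le.1 hcc, (hl z hzI).1.2.2.trans_lt h6⟩
            · exact (hl z hzI).2 ⟨hrF, (hF.sub hrF).1, h5⟩
          rw [h7, ← hlr x hxI]
        · have h7 : l z = l y := by
            apply le_antisymm
            · exact (hl y hyI).2 ⟨(hl z hzI).1.1, (hl z hzI).1.2.1, (hl z hzI).1.2.2.trans hz.2⟩
            · exact (hl z hzI).2 ⟨hlF, (hF.sub hlF).1, h6⟩
          rw [h7, hq]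
    · push Not at hc
      rw [hno x z hx hz.1 hzI.2 (fun a ha h => absurd (h.2.trans hz.2) (not_le.2 (hc a ha h.1)))]

end BBP


end

section

/-!
# BBP: a path contains an arc
-/

set_option autoImplicit false

namespace BBP

open Set Topology

namespace PTA

section diam

variable {Y : Type} [MetricSpace Y] {Q : ℝ → Y}

/-- the diameter of the path on `[a, x]` -/
noncomputable def dm (Q : ℝ → Y) (a x : ℝ) : ℝ := Metric.diam (Q '' Icc a x)

theorem bdd (hQ : Continuous Q) (a x : ℝ) : Bornology.IsBounded (Q '' Icc a x) :=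
  (isCompact_Icc.image hQ).isBounded

theorem dm_nonneg (a x : ℝ) : 0 ≤ dm Q a x := Metric.diam_nonneg

theorem dm_mono (hQ : Continuous Q) (a : ℝ) {x y : ℝ} (h : x ≤ y) : dm Q a x ≤ dm Q a y :=
  Metric.diam_mono (image_mono (Icc_subset_Icc_right h)) (bdd hQ a y)

theorem dm_le (hQ : Continuous Q) (a : ℝ) {x y η : ℝ} (hη : 0 ≤ η) (h : x ≤ y)
    (hd : ∀ z ∈ Icc x y, dist (Q z) (Q x) ≤ η) : dm Q a y ≤ dm Q a x + 2 * η := by
  have h0 := dm_nonneg (Q := Q) a x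
  refine Metric.diam_le_of_forall_dist_le (by linarith) ?_
  rintro _ ⟨z1, hz1, rfl⟩ _ ⟨z2, hz2, rfl⟩
  by_cases hax : a ≤ x
  · have key : ∀ z ∈ Icc a y, min z x ∈ Icc a x ∧ dist (Q z) (Q (min z x)) ≤ η := by
      intro z hz
      refine ⟨⟨le_min hz.1 hax, min_le_right _ _⟩, ?_⟩
      rcases le_total z x with hzx | hzx
      · rw [min_eq_left hzx, dist_self]
        exact hη
      · rw [min_eq_right hzx]
        exact hd z ⟨hzx, hz.2⟩
    obtain ⟨k1, k2⟩ := key z1 hz1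
    obtain ⟨k3, k4⟩ := key z2 hz2
    have k5 : dist (Q (min z1 x)) (Q (min z2 x)) ≤ dm Q a x :=
      Metric.dist_le_diam_of_mem (bdd hQ a x) (mem_image_of_mem _ k1) (mem_image_of_mem _ k3)
    have k6 := dist_triangle4 (Q z1) (Q (min z1 x)) (Q (min z2 x)) (Q z2)
    rw [dist_comm (Q (min z2 x)) (Q z2)] at k6
    linarith
  · have k1 := hd z1 ⟨by linarith [hz1.1], hz1.2⟩
    have k2 := hd z2 ⟨by linarith [hz2.1], hz2.2⟩
    have k3 := dist_triangle_right (Q z1) (Q z2) (Q x)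
    linarith

theorem dm_cont (hQ : Continuous Q) (a : ℝ) : Continuous (dm Q a) := by
  rw [Metric.continuous_iff]
  intro x ε hε
  obtain ⟨δ, hδ, h⟩ := Metric.continuous_iff.1 hQ x (ε / 8) (by linarith)
  refine ⟨δ, hδ, fun y hy => ?_⟩
  have key : ∀ s t, s ≤ t → dist s x < δ → dist t x < δ → dm Q a t ≤ dm Q a s + ε / 2 := by
    intro s t hst hs ht
    have h1 := dm_le hQ a (η := ε / 4) (by linarith) hst (fun z hz => by
      have hz' : dist z x < δ := by
        rw [Real.dist_eq, abs_lt] at hs ht ⊢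
        exact ⟨by linarith [hz.1], by linarith [hz.2]⟩
      have h2 := h z hz'
      have h3 := h s hs
      have h4 := dist_triangle_right (Q z) (Q s) (Q x)
      linarith)
    linarith
  have hx : dist x x < δ := by
    rw [dist_self]
    exact hδ
  rw [Real.dist_eq, abs_lt]
  rcases le_total x y with hxy | hxy
  · have h1 := key x y hxy hx hy
    have h2 := dm_mono hQ a hxy
    exact ⟨by linarith, by linarith⟩
  · have h1 := key y x hxy hy hx
    have h2 := dm_mono hQ a hxy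
    exact ⟨by linarith, by linarith⟩

theorem dm_const (hQ : Continuous Q) (a : ℝ) {x y : ℝ} (h : x ≤ y)
    (hc : ∀ z ∈ Icc x y, Q z = Q x) : dm Q a x = dm Q a y := by
  apply le_antisymm (dm_mono hQ a h)
  have h1 := dm_le hQ a (η := 0) le_rfl h (fun z hz => by rw [hc z hz, dist_self])
  linarith

/-- the function that measures the movement -/
noncomputable def mm (Q : ℝ → Y) (x : ℝ) : ℝ :=
  ∑' n : ℕ, (1 / 2 : ℝ) ^ n * min 1 (dm Q (TopologicalSpace.denseSeq ℝ n) x)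

theorem term_nonneg (n : ℕ) (x : ℝ) :
    0 ≤ (1 / 2 : ℝ) ^ n * min 1 (dm Q (TopologicalSpace.denseSeq ℝ n) x) :=
  mul_nonneg (by positivity) (le_min zero_le_one (dm_nonneg _ _))

theorem term_le (n : ℕ) (x : ℝ) :
    (1 / 2 : ℝ) ^ n * min 1 (dm Q (TopologicalSpace.denseSeq ℝ n) x) ≤ (1 / 2 : ℝ) ^ n :=
  mul_le_of_le_one_right (by positivity) (min_le_left _ _)

theorem term_summable (x : ℝ) :
    Summable fun n : ℕ => (1 / 2 : ℝ) ^ n * min 1 (dm Q (TopologicalSpace.denseSeq ℝ n) x) :=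
  Summable.of_nonneg_of_le (fun n => term_nonneg n x) (fun n => term_le n x)
    summable_geometric_two

theorem mm_cont (hQ : Continuous Q) : Continuous (mm Q) := by
  refine continuous_tsum (u := fun n : ℕ => (1 / 2 : ℝ) ^ n) (fun n => ?_) summable_geometric_two
    (fun n x => ?_)
  · exact continuous_const.mul (continuous_const.min (dm_cont hQ _))
  · rw [Real.norm_eq_abs, abs_of_nonneg (term_nonneg n x)]
    exact term_le n x

theorem term_mono (hQ : Continuous Q) (n : ℕ) {x y : ℝ} (h : x ≤ y) :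
    (1 / 2 : ℝ) ^ n * min 1 (dm Q (TopologicalSpace.denseSeq ℝ n) x) ≤
      (1 / 2 : ℝ) ^ n * min 1 (dm Q (TopologicalSpace.denseSeq ℝ n) y) :=
  mul_le_mul_of_nonneg_left (min_le_min_left _ (dm_mono hQ _ h)) (by positivity)

theorem mm_mono (hQ : Continuous Q) {x y : ℝ} (h : x ≤ y) : mm Q x ≤ mm Q y :=
  (term_summable x).tsum_le_tsum (fun n => term_mono hQ n h) (term_summable y)

theorem mm_const (hQ : Continuous Q) {x y : ℝ} (h : x ≤ y)
    (hc : ∀ z ∈ Icc x y, Q z = Q x) : mm Q x = mm Q y := by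
  unfold mm
  congr 1
  funext n
  rw [dm_const hQ _ h hc]

theorem mm_lt (hQ : Continuous Q) {x y : ℝ} (h : x < y) (hne : Q x ≠ Q y) :
    mm Q x < mm Q y := by
  have ho : IsOpen ({z | Q z ≠ Q y} ∩ Ioo x y) :=
    (isOpen_ne_fun hQ continuous_const).inter isOpen_Ioo
  have hn : ({z | Q z ≠ Q y} ∩ Ioo x y).Nonempty := by
    have h1 : ∀ᶠ z in 𝓝[>] x, Q z ≠ Q y :=
      nhdsWithin_le_nhds ((isOpen_ne_fun hQ continuous_const).mem_nhds hne)
    have h2 : ∀ᶠ z in 𝓝[>] x, z ∈ Ioo x y := Ioo_mem_nhdsGT h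
    obtain ⟨z, hz1, hz2⟩ := (h1.and h2).exists
    exact ⟨z, hz1, hz2⟩
  obtain ⟨n, hn1, hn2⟩ := (TopologicalSpace.denseRange_denseSeq ℝ).exists_mem_open ho hn
  refine (term_summable x).tsum_lt_tsum (i := n) (fun k => term_mono hQ k h.le) ?_
    (term_summable y)
  refine mul_lt_mul_of_pos_left ?_ (by positivity)
  have h1 : dm Q (TopologicalSpace.denseSeq ℝ n) x = 0 := by
    unfold dm
    rw [Icc_eq_empty (not_le.2 hn2.1), image_empty, Metric.diam_empty]
  have h2 : 0 < dm Q (TopologicalSpace.denseSeq ℝ n) y := by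
    have h3 : dist (Q (TopologicalSpace.denseSeq ℝ n)) (Q y) ≤
        dm Q (TopologicalSpace.denseSeq ℝ n) y :=
      Metric.dist_le_diam_of_mem (bdd hQ _ _) (mem_image_of_mem _ ⟨le_rfl, hn2.2.le⟩)
        (mem_image_of_mem _ ⟨hn2.2.le, le_rfl⟩)
    exact (dist_pos.2 hn1).trans_le h3
  rw [h1, min_eq_right zero_le_one]
  exact lt_min zero_lt_one h2

end diam

theorem core {Y : Type} [MetricSpace Y] (Q : ℝ → Y) (m : ℝ → ℝ) (hQ : Continuous Q)
    (hm : Continuous m) (hmono : ∀ x y, x ≤ y → m x ≤ m y)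
    (hiff : ∀ x y, x ≤ y → (m x = m y ↔ Q x = Q y)) (hne : Q 0 ≠ Q 1) :
    Arc (Q '' Icc 0 1) (Q 0) (Q 1) := by
  have hiff' : ∀ x y, (m x = m y ↔ Q x = Q y) := by
    intro x y
    rcases le_total x y with h | h
    · exact hiff x y h
    · rw [eq_comm, hiff y x h, eq_comm]
  have hM : 0 < m 1 - m 0 := by
    have h1 := hmono 0 1 zero_le_one
    have h2 : m 0 ≠ m 1 := fun h => hne ((hiff' 0 1).1 h)
    have h3 := lt_of_le_of_ne h1 h2
    linarith
  have hr : ∀ x ∈ Icc (0 : ℝ) 1, (m x - m 0) / (m 1 - m 0) ∈ Icc (0 : ℝ) 1 := by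
    intro x hx
    have h1 := hmono 0 x hx.1
    have h2 := hmono x 1 hx.2
    exact ⟨div_nonneg (by linarith) hM.le, (div_le_one hM).2 (by linarith)⟩
  let φ : Icc (0 : ℝ) 1 → Icc (0 : ℝ) 1 := fun x => ⟨(m x - m 0) / (m 1 - m 0), hr x x.2⟩
  have hφc : Continuous φ := by
    refine Continuous.subtype_mk ?_ _
    exact ((hm.comp continuous_subtype_val).sub continuous_const).div_const _
  have hφs : Function.Surjective φ := by
    rintro ⟨u, hu⟩
    have h1 : m 0 + u * (m 1 - m 0) ∈ Icc (m 0) (m 1) := by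
      refine ⟨?_, ?_⟩
      · have := mul_nonneg hu.1 hM.le
        linarith
      · have := mul_le_mul_of_nonneg_right hu.2 hM.le
        linarith
    obtain ⟨x, hx, hxu⟩ := intermediate_value_Icc zero_le_one hm.continuousOn h1
    refine ⟨⟨x, hx⟩, Subtype.ext ?_⟩
    show (m x - m 0) / (m 1 - m 0) = u
    rw [hxu]
    field_simp
    ring
  have hφq : IsQuotientMap φ := hφc.isClosedMap.isQuotientMap hφc hφs
  have hφi : ∀ x y : Icc (0 : ℝ) 1, φ x = φ y ↔ Q x = Q y := by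
    intro x y
    rw [← hiff', Subtype.ext_iff]
    show (m x - m 0) / (m 1 - m 0) = (m y - m 0) / (m 1 - m 0) ↔ _
    rw [div_left_inj' hM.ne', sub_left_inj]
  let β : Icc (0 : ℝ) 1 → Y := fun u => Q ((Function.surjInv hφs u : Icc (0 : ℝ) 1) : ℝ)
  have hβφ : ∀ x, β (φ x) = Q x := fun x => (hφi _ _).1 (Function.surjInv_eq hφs (φ x))
  have hβc : Continuous β := by
    rw [hφq.continuous_iff]
    have e : β ∘ φ = fun x : Icc (0 : ℝ) 1 => Q x := funext hβφ
    rw [e]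
    exact hQ.comp continuous_subtype_val
  have hβi : Function.Injective β := by
    intro u v huv
    obtain ⟨x, rfl⟩ := hφs u
    obtain ⟨y, rfl⟩ := hφs v
    rw [hβφ, hβφ] at huv
    exact (hφi x y).2 huv
  have h01 : (0 : ℝ) ≤ 1 := zero_le_one
  refine ⟨fun u => β (projIcc 0 1 h01 u), ?_, ?_, ?_, ?_, ?_⟩
  · exact (hβc.comp continuous_projIcc).continuousOn
  · intro u hu v hv huv
    have h1 := hβi huv
    rw [projIcc_of_mem h01 hu, projIcc_of_mem h01 hv] at h1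
    exact congrArg Subtype.val h1
  · show β (projIcc 0 1 h01 0) = Q 0
    have e : projIcc 0 1 h01 0 = φ ⟨0, ⟨le_rfl, h01⟩⟩ := by
      rw [projIcc_of_mem h01 ⟨le_rfl, h01⟩]
      apply Subtype.ext
      show (0 : ℝ) = (m 0 - m 0) / (m 1 - m 0)
      rw [sub_self, zero_div]
    rw [e, hβφ]
  · show β (projIcc 0 1 h01 1) = Q 1
    have e : projIcc 0 1 h01 1 = φ ⟨1, ⟨h01, le_rfl⟩⟩ := by
      rw [projIcc_of_mem h01 ⟨h01, le_rfl⟩]
      apply Subtype.ext
      show (1 : ℝ) = (m 1 - m 0) / (m 1 - m 0)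
      rw [div_self hM.ne']
    rw [e, hβφ]
  · ext y
    constructor
    · rintro ⟨x, hx, rfl⟩
      refine ⟨φ ⟨x, hx⟩, (φ ⟨x, hx⟩).2, ?_⟩
      show β (projIcc 0 1 h01 (φ ⟨x, hx⟩)) = Q x
      rw [projIcc_of_mem h01 (φ ⟨x, hx⟩).2]
      exact hβφ ⟨x, hx⟩
    · rintro ⟨u, hu, rfl⟩
      exact ⟨((Function.surjInv hφs (projIcc 0 1 h01 u) : Icc (0 : ℝ) 1) : ℝ),
        (Function.surjInv hφs (projIcc 0 1 h01 u)).2, rfl⟩

end PTA

/-- A path contains an arc with the same ends. -/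
theorem t_PTA : M_PTA := by
  intro hPTM
  have first : ∀ (Y : Type) [MetricSpace Y] (p : ℝ → Y), ContinuousOn p (Icc 0 1) →
      p 0 ≠ p 1 → ∃ A ⊆ p '' Icc 0 1, Arc A (p 0) (p 1) := by
    intro Y _ p hp hne
    obtain ⟨q, hq, hq0, hq1, hqp, hqr⟩ := hPTM Y p hp
    have hcl : ∀ x : ℝ, max 0 (min 1 x) ∈ Icc (0 : ℝ) 1 :=
      fun x => ⟨le_max_left _ _, max_le zero_le_one (min_le_left _ _)⟩
    have hcid : ∀ x ∈ Icc (0 : ℝ) 1, max 0 (min 1 x) = x := by
      intro x hx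
      rw [min_eq_right hx.2, max_eq_right hx.1]
    let Q : ℝ → Y := fun x => q (max 0 (min 1 x))
    have hQ : Continuous Q :=
      hq.comp_continuous (continuous_const.max (continuous_const.min continuous_id)) hcl
    have hQr : ∀ x y, x ≤ y → Q x = Q y → ∀ z ∈ Icc x y, Q z = Q x := by
      intro x y hxy h z hz
      exact hqr _ _ (hcl x).1 (max_le_max_left _ (min_le_min_left _ hxy)) (hcl y).2 h _
        ⟨max_le_max_left _ (min_le_min_left _ hz.1), max_le_max_left _ (min_le_min_left _ hz.2)⟩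
    have hQ0 : Q 0 = p 0 := by
      show q (max 0 (min 1 0)) = p 0
      rw [hcid 0 ⟨le_rfl, zero_le_one⟩, hq0]
    have hQ1 : Q 1 = p 1 := by
      show q (max 0 (min 1 1)) = p 1
      rw [hcid 1 ⟨zero_le_one, le_rfl⟩, hq1]
    have hA := PTA.core Q (PTA.mm Q) hQ (PTA.mm_cont hQ) (fun x y h => PTA.mm_mono hQ h)
      (fun x y h => by
        constructor
        · intro hm
          by_contra hne'
          have hlt : x < y := lt_of_le_of_ne h (fun e => hne' (by rw [e]))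
          exact absurd hm (PTA.mm_lt hQ hlt hne').ne
        · intro hqq
          exact PTA.mm_const hQ h (hQr x y h hqq)) (by rw [hQ0, hQ1]; exact hne)
    rw [hQ0, hQ1] at hA
    refine ⟨_, ?_, hA⟩
    rintro _ ⟨x, hx, rfl⟩
    exact hqp ⟨_, hcl x, rfl⟩
  refine ⟨first, ?_⟩
  intro Y _ S a b hab hne
  have h0 : hab.somePath.extend 0 = a := Path.extend_zero _
  have h1 : hab.somePath.extend 1 = b := Path.extend_one _
  obtain ⟨A, hA1, hA2⟩ := first Y hab.somePath.extend hab.somePath.continuous_extend.continuousOn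
    (by rw [h0, h1]; exact hne)
  rw [h0, h1] at hA2
  refine ⟨A, hA1.trans ?_, hA2⟩
  rintro _ ⟨x, hx, rfl⟩
  rw [Path.extend_apply _ hx]
  exact hab.somePath_mem _

end BBP


end

section

/-!
# BBP, ARB: basic facts on arcs
-/

set_option autoImplicit false

namespace BBP

open Set Topology
open Pool.Agent.LIX (CLog)

namespace ARB

variable {Y : Type} [MetricSpace Y]

/-- subarcs -/
theorem sub {α : ℝ → Y} (hc : ContinuousOn α (Icc 0 1)) (hi : InjOn α (Icc 0 1)) {s t : ℝ}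
    (hs : 0 ≤ s) (hst : s < t) (ht : t ≤ 1) : Arc (α '' Icc s t) (α s) (α t) := by
  have hd : 0 < t - s := by linarith
  have hm : MapsTo (fun u : ℝ => s + u * (t - s)) (Icc 0 1) (Icc s t) := by
    intro u hu
    constructor
    · show s ≤ s + u * (t - s)
      nlinarith [hu.1]
    · show s + u * (t - s) ≤ t
      nlinarith [hu.2]
  have hsub : Icc s t ⊆ Icc 0 1 := Icc_subset_Icc hs ht
  refine ⟨fun u => α (s + u * (t - s)), ?_, ?_, ?_, ?_, ?_⟩
  · exact hc.comp (by fun_prop) fun u hu => hsub (hm hu)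
  · intro u hu v hv huv
    have h1 := hi (hsub (hm hu)) (hsub (hm hv)) huv
    have h2 : u * (t - s) = v * (t - s) := by
      have : s + u * (t - s) = s + v * (t - s) := h1
      linarith
    exact mul_right_cancel₀ hd.ne' h2
  · show α (s + 0 * (t - s)) = α s
    rw [zero_mul, add_zero]
  · show α (s + 1 * (t - s)) = α t
    congr 1
    ring
  · apply Subset.antisymm
    · rintro _ ⟨u, hu, rfl⟩
      refine ⟨(u - s) / (t - s), ⟨?_, ?_⟩, ?_⟩
      · exact div_nonneg (by linarith [hu.1]) hd.le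
      · rw [div_le_one hd]
        linarith [hu.2]
      · show α (s + (u - s) / (t - s) * (t - s)) = α u
        rw [div_mul_cancel₀ _ hd.ne']
        congr 1
        ring
    · rintro _ ⟨u, hu, rfl⟩
      exact ⟨_, hm hu, rfl⟩

/-- reversed arcs -/
theorem rev {A : Set Y} {a b : Y} (h : Arc A a b) : Arc A b a := by
  obtain ⟨α, hc, hi, h0, h1, hA⟩ := h
  have hm : MapsTo (fun u : ℝ => 1 - u) (Icc 0 1) (Icc 0 1) := by
    intro u hu
    constructor
    · show 0 ≤ 1 - u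
      linarith [hu.2]
    · show 1 - u ≤ 1
      linarith [hu.1]
  refine ⟨fun u => α (1 - u), hc.comp (by fun_prop) hm, ?_, ?_, ?_, ?_⟩
  · intro u hu v hv huv
    have h2 : (1 : ℝ) - u = 1 - v := hi (hm hu) (hm hv) huv
    linarith
  · show α (1 - 0) = b
    rw [sub_zero, h1]
  · show α (1 - 1) = a
    rw [sub_self, h0]
  · rw [hA]
    apply Subset.antisymm
    · rintro _ ⟨u, hu, rfl⟩
      refine ⟨1 - u, hm hu, ?_⟩
      show α (1 - (1 - u)) = α u
      rw [sub_sub_cancel]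
    · rintro _ ⟨u, hu, rfl⟩
      exact ⟨_, hm hu, rfl⟩

end ARB

theorem t_ARB : S_ARB := by
  intro Y _ A a b hA
  have hrev := ARB.rev hA
  obtain ⟨α, hc, hi, h0, h1, rfl⟩ := hA
  have z0 : (0 : ℝ) ∈ Icc (0 : ℝ) 1 := by simp
  have z1 : (1 : ℝ) ∈ Icc (0 : ℝ) 1 := by simp
  have hcp : IsCompact (α '' Icc 0 1) := isCompact_Icc.image_of_continuousOn hc
  have himg : α '' Icc 0 1 \ {a, b} = α '' Ioo 0 1 := by
    apply Subset.antisymm
    · rintro _ ⟨⟨u, hu, rfl⟩, hn⟩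
      refine ⟨u, ⟨lt_of_le_of_ne hu.1 ?_, lt_of_le_of_ne hu.2 ?_⟩, rfl⟩
      · rintro rfl
        exact hn (Or.inl h0)
      · rintro rfl
        exact hn (Or.inr h1)
    · rintro _ ⟨u, hu, rfl⟩
      refine ⟨⟨u, Ioo_subset_Icc_self hu, rfl⟩, ?_⟩
      rintro (h | h)
      · exact hu.1.ne' (hi (Ioo_subset_Icc_self hu) z0 (h.trans h0.symm))
      · exact hu.2.ne (hi (Ioo_subset_Icc_self hu) z1 (h.trans h1.symm))
  have himg1 : α '' Icc 0 1 \ {a} = α '' Ioc 0 1 := by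
    apply Subset.antisymm
    · rintro _ ⟨⟨u, hu, rfl⟩, hn⟩
      refine ⟨u, ⟨lt_of_le_of_ne hu.1 ?_, hu.2⟩, rfl⟩
      rintro rfl
      exact hn h0
    · rintro _ ⟨u, hu, rfl⟩
      refine ⟨⟨u, Ioc_subset_Icc_self hu, rfl⟩, ?_⟩
      intro h
      exact hu.1.ne' (hi (Ioc_subset_Icc_self hu) z0 (Eq.trans h h0.symm))
  refine ⟨?_, ⟨0, z0, h0⟩, ⟨1, z1, h1⟩, hrev, hcp, ?_, ?_, ?_, ?_, ?_, ?_, ?_, ?_⟩
  · intro hab
    rw [← h0, ← h1] at hab
    exact zero_ne_one (hi z0 z1 hab)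
  · exact (isConnected_Icc zero_le_one).image α hc
  · intro f hf hf0
    have h2 := Pool.Agent.LIX.cLog_convex (isCompact_Icc (a := (0 : ℝ)) (b := 1))
      (convex_Icc 0 1) (f := fun x => f (α x)) (hf.comp hc fun x hx => ⟨x, hx, rfl⟩)
      fun x hx => hf0 _ ⟨x, hx, rfl⟩
    exact CLog.image isCompact_Icc hc hi h2
  · rintro _ ⟨s, hs, rfl⟩ _ ⟨t, ht, rfl⟩ hst
    rcases lt_trichotomy s t with h | h | h
    · exact ⟨α '' Icc s t, image_mono (Icc_subset_Icc hs.1 ht.2), ARB.sub hc hi hs.1 h ht.2⟩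
    · rw [h] at hst
      exact absurd rfl hst
    · exact ⟨α '' Icc t s, image_mono (Icc_subset_Icc ht.1 hs.2),
        ARB.rev (ARB.sub hc hi ht.1 h hs.2)⟩
  · rw [himg]
    exact (isConnected_Ioo zero_lt_one).image α (hc.mono Ioo_subset_Icc_self)
  · rw [himg]
    have h2 : Icc (0 : ℝ) 1 = closure (Ioo 0 1) := (closure_Ioo zero_ne_one).symm
    rw [h2]
    apply ContinuousOn.image_closure
    rw [← h2]
    exact hc
  · rw [himg1]
    exact (isConnected_Ioc zero_lt_one).image α (hc.mono Ioc_subset_Icc_self)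
  · intro N hN hbN haN
    have hcl : IsClosed (Icc (0 : ℝ) 1 ∩ α ⁻¹' N) :=
      hc.preimage_isClosed_of_isClosed isClosed_Icc hN
    have hne : (Icc (0 : ℝ) 1 ∩ α ⁻¹' N).Nonempty := ⟨1, z1, by
      show α 1 ∈ N
      rw [h1]
      exact hbN⟩
    have hbd : BddBelow (Icc (0 : ℝ) 1 ∩ α ⁻¹' N) := ⟨0, fun x hx => hx.1.1⟩
    have hmem := hcl.csInf_mem hne hbd
    obtain ⟨t, ht⟩ : ∃ t, t = sInf (Icc (0 : ℝ) 1 ∩ α ⁻¹' N) := ⟨_, rfl⟩
    rw [← ht] at hmem
    have hmin : ∀ u ∈ Icc (0 : ℝ) 1, α u ∈ N → t ≤ u := fun u hu hu' => by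
      rw [ht]
      exact csInf_le hbd ⟨hu, hu'⟩
    have ht0 : 0 < t := by
      refine lt_of_le_of_ne hmem.1.1 ?_
      intro h
      apply haN
      rw [← h0, h]
      exact hmem.2
    have hs := ARB.sub hc hi le_rfl ht0 hmem.1.2
    rw [h0] at hs
    refine ⟨α t, hmem.2, α '' Icc 0 t, image_mono (Icc_subset_Icc le_rfl hmem.1.2), hs, ?_⟩
    apply Subset.antisymm
    · rintro _ ⟨⟨u, hu, rfl⟩, huN⟩
      have := hmin u ⟨hu.1, hu.2.trans hmem.1.2⟩ huN
      have h3 : u = t := le_antisymm hu.2 this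
      rw [h3]
      rfl
    · rintro x hx
      rw [mem_singleton_iff] at hx
      rw [hx]
      exact ⟨⟨t, ⟨ht0.le, le_rfl⟩, rfl⟩, hmem.2⟩
  · obtain ⟨α', hc', hi', h0', h1', hA'⟩ := hrev
    exact ⟨α', hc', h1', h0', hA'.symm⟩

end BBP


end

section

/-!
# GLU: gluing of arcs
-/

set_option autoImplicit false

namespace BBP

open Set Topology

namespace GLU

/-- two functions put together at `1/2` -/
noncomputable def gl {Y : Type} (f g : ℝ → Y) (t : ℝ) : Y := if t ≤ 1 / 2 then f t else g t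

lemma gl_left {Y : Type} (f g : ℝ → Y) {t : ℝ} (h : t ≤ 1 / 2) : gl f g t = f t := if_pos h

lemma gl_right {Y : Type} (f g : ℝ → Y) (hfg : f (1 / 2) = g (1 / 2)) {t : ℝ}
    (h : 1 / 2 ≤ t) : gl f g t = g t := by
  rcases h.eq_or_lt with h | h
  · rw [← h, gl, if_pos le_rfl, hfg]
  · rw [gl, if_neg (not_le.2 h)]

lemma gl_cont {Y : Type} [TopologicalSpace Y] (f g : ℝ → Y) (hfg : f (1 / 2) = g (1 / 2))
    (hf : ContinuousOn f (Icc 0 (1 / 2))) (hg : ContinuousOn g (Icc (1 / 2) 1)) :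
    ContinuousOn (gl f g) (Icc 0 1) := by
  have h1 : ContinuousOn (gl f g) (Icc 0 (1 / 2)) :=
    hf.congr fun t ht => gl_left f g ht.2
  have h2 : ContinuousOn (gl f g) (Icc (1 / 2) 1) :=
    hg.congr fun t ht => gl_right f g hfg ht.1
  have h3 : Icc (0 : ℝ) 1 = Icc 0 (1 / 2) ∪ Icc (1 / 2) 1 :=
    (Icc_union_Icc_eq_Icc (by norm_num) (by norm_num)).symm
  rw [h3]
  exact h1.union_of_isClosed h2 isClosed_Icc isClosed_Icc

lemma img {Y : Type} (f : ℝ → Y) : (fun t => f (2 * t)) '' Icc 0 (1 / 2) = f '' Icc 0 1 := by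
  ext y
  constructor
  · rintro ⟨t, ⟨h1, h2⟩, rfl⟩
    exact ⟨2 * t, ⟨by linarith, by linarith⟩, rfl⟩
  · rintro ⟨t, ⟨h1, h2⟩, rfl⟩
    refine ⟨t / 2, ⟨by linarith, by linarith⟩, ?_⟩
    change f (2 * (t / 2)) = f t
    congr 1
    ring

lemma img2 {Y : Type} (f : ℝ → Y) : (fun t => f (2 * t - 1)) '' Icc (1 / 2) 1 = f '' Icc 0 1 := by
  ext y
  constructor
  · rintro ⟨t, ⟨h1, h2⟩, rfl⟩
    exact ⟨2 * t - 1, ⟨by linarith, by linarith⟩, rfl⟩
  · rintro ⟨t, ⟨h1, h2⟩, rfl⟩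
    refine ⟨(t + 1) / 2, ⟨by linarith, by linarith⟩, ?_⟩
    change f (2 * ((t + 1) / 2) - 1) = f t
    congr 1
    ring

lemma img3 {Y : Type} (f : ℝ → Y) : (fun t => f (2 - 2 * t)) '' Icc (1 / 2) 1 = f '' Icc 0 1 := by
  ext y
  constructor
  · rintro ⟨t, ⟨h1, h2⟩, rfl⟩
    exact ⟨2 - 2 * t, ⟨by linarith, by linarith⟩, rfl⟩
  · rintro ⟨t, ⟨h1, h2⟩, rfl⟩
    refine ⟨1 - t / 2, ⟨by linarith, by linarith⟩, ?_⟩
    change f (2 - 2 * (1 - t / 2)) = f t
    congr 1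
    ring

lemma cont1 {Y : Type} [TopologicalSpace Y] (f : ℝ → Y) (hf : ContinuousOn f (Icc 0 1)) :
    ContinuousOn (fun t => f (2 * t)) (Icc 0 (1 / 2)) := by
  refine hf.comp (Continuous.continuousOn (by fun_prop)) ?_
  rintro t ⟨h1, h2⟩
  exact ⟨by linarith, by linarith⟩

lemma cont2 {Y : Type} [TopologicalSpace Y] (f : ℝ → Y) (hf : ContinuousOn f (Icc 0 1)) :
    ContinuousOn (fun t => f (2 * t - 1)) (Icc (1 / 2) 1) := by
  refine hf.comp (Continuous.continuousOn (by fun_prop)) ?_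
  rintro t ⟨h1, h2⟩
  exact ⟨by linarith, by linarith⟩

lemma cont3 {Y : Type} [TopologicalSpace Y] (f : ℝ → Y) (hf : ContinuousOn f (Icc 0 1)) :
    ContinuousOn (fun t => f (2 - 2 * t)) (Icc (1 / 2) 1) := by
  refine hf.comp (Continuous.continuousOn (by fun_prop)) ?_
  rintro t ⟨h1, h2⟩
  exact ⟨by linarith, by linarith⟩

end GLU

open GLU in
theorem t_GLU : S_GLU := by
  constructor
  · rintro Y _ A B a b ⟨α, hα, hαi, hα0, hα1, rfl⟩ ⟨β, hβ, hβi, hβ0, hβ1, rfl⟩ hAB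
    have hfg : (fun t : ℝ => α (2 * t)) (1 / 2) = (fun t : ℝ => β (2 - 2 * t)) (1 / 2) := by
      change α (2 * (1 / 2)) = β (2 - 2 * (1 / 2))
      norm_num
      rw [hα1, hβ1]
    set δ : ℝ → Y := gl (fun t => α (2 * t)) (fun t => β (2 - 2 * t)) with hδ
    have hδl : ∀ t : ℝ, t ≤ 1 / 2 → δ t = α (2 * t) := fun t h => gl_left _ _ h
    have hδr : ∀ t : ℝ, 1 / 2 ≤ t → δ t = β (2 - 2 * t) := fun t h => gl_right _ _ hfg h
    have hδc : ContinuousOn δ (Icc 0 1) := gl_cont _ _ hfg (cont1 α hα) (cont3 β hβ)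
    have hδ0 : δ 0 = a := by
      rw [hδl 0 (by norm_num), mul_zero, hα0]
    have hδ1 : δ 1 = a := by
      rw [hδr 1 (by norm_num)]
      norm_num
      exact hβ0
    have hγc : Continuous (δ ∘ Int.fract) := hδc.comp_fract'' (hδ0.trans hδ1.symm)
    have hγ : ∀ t : ℝ, 0 ≤ t → t < 1 → (δ ∘ Int.fract) t = δ t := by
      intro t h0 h1
      rw [Function.comp_apply, Int.fract_eq_self.2 ⟨h0, h1⟩]
    have hγ' : ∀ t : ℝ, 0 ≤ t → t ≤ 1 → (δ ∘ Int.fract) t = δ t := by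
      intro t h0 h1
      rcases h1.eq_or_lt with h1 | h1
      · rw [h1, Function.comp_apply, Int.fract_one, hδ0, hδ1]
      · exact hγ t h0 h1
    have hper : Function.Periodic (δ ∘ Int.fract) 1 := by
      intro t
      rw [Function.comp_apply, Function.comp_apply, Int.fract_add_one]
    have himA : (δ ∘ Int.fract) '' Icc 0 (1 / 2) = α '' Icc 0 1 := by
      rw [← img α]
      refine image_congr fun t ht => ?_
      rw [hγ t ht.1 (by linarith [ht.2]), hδl t ht.2]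
    have himB : (δ ∘ Int.fract) '' Icc (1 / 2) 1 = β '' Icc 0 1 := by
      rw [← img3 β]
      refine image_congr fun t ht => ?_
      rw [hγ' t (by linarith [ht.1]) ht.2, hδr t ht.1]
    have hrange : range (δ ∘ Int.fract) = α '' Icc 0 1 ∪ β '' Icc 0 1 := by
      rw [← himA, ← himB, ← image_union, Icc_union_Icc_eq_Icc (by norm_num) (by norm_num)]
      apply Subset.antisymm
      · rintro _ ⟨t, rfl⟩
        refine ⟨Int.fract t, ⟨Int.fract_nonneg t, (Int.fract_lt_one t).le⟩, ?_⟩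
        rw [Function.comp_apply, Function.comp_apply, Int.fract_fract]
      · exact image_subset_range _ _
    have hinj : InjOn (δ ∘ Int.fract) (Ico 0 1) := by
      have key : ∀ s t : ℝ, 0 ≤ s → s ≤ 1 / 2 → 1 / 2 < t → t < 1 → δ s ≠ δ t := by
        intro s t h1 h2 h3 h4 heq
        rw [hδl s h2, hδr t h3.le] at heq
        have h5 : β (2 - 2 * t) ∈ α '' Icc 0 1 ∩ β '' Icc 0 1 :=
          ⟨⟨2 * s, ⟨by linarith, by linarith⟩, heq⟩, ⟨2 - 2 * t, ⟨by linarith, by linarith⟩, rfl⟩⟩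
        rw [hAB] at h5
        rcases h5 with h5 | h5
        · rw [← hβ0] at h5
          have := hβi ⟨by linarith, by linarith⟩ ⟨le_rfl, zero_le_one⟩ h5
          linarith
        · rw [mem_singleton_iff, ← hβ1] at h5
          have := hβi ⟨by linarith, by linarith⟩ ⟨zero_le_one, le_rfl⟩ h5
          linarith
      rintro s ⟨hs0, hs1⟩ t ⟨ht0, ht1⟩ heq
      rw [hγ s hs0 hs1, hγ t ht0 ht1] at heq
      rcases le_or_gt s (1 / 2) with h1 | h1 <;> rcases le_or_gt t (1 / 2) with h2 | h2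
      · rw [hδl s h1, hδl t h2] at heq
        have := hαi ⟨by linarith, by linarith⟩ ⟨by linarith, by linarith⟩ heq
        linarith
      · exact absurd heq (key s t hs0 h1 h2 ht1)
      · exact absurd heq.symm (key t s ht0 h2 h1 hs1)
      · rw [hδr s h1.le, hδr t h2.le] at heq
        have := hβi ⟨by linarith, by linarith⟩ ⟨by linarith, by linarith⟩ heq
        linarith
    have hscp : Scp (δ ∘ Int.fract) := ⟨hγc, hper, hinj⟩
    refine ⟨⟨δ ∘ Int.fract, hscp, hrange⟩, δ ∘ Int.fract, hscp, hrange, ?_, ?_, himA, himB⟩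
    · rw [hγ 0 le_rfl one_pos, hδ0]
    · rw [hγ (1 / 2) (by norm_num) (by norm_num), hδl (1 / 2) le_rfl]
      norm_num
      exact hα1
  · rintro Y _ A B a b c ⟨α, hα, hαi, hα0, hα1, rfl⟩ ⟨β, hβ, hβi, hβ0, hβ1, rfl⟩ hAB
    have hfg : (fun t : ℝ => α (2 * t)) (1 / 2) = (fun t : ℝ => β (2 * t - 1)) (1 / 2) := by
      change α (2 * (1 / 2)) = β (2 * (1 / 2) - 1)
      norm_num
      rw [hα1, hβ0]
    set δ : ℝ → Y := gl (fun t => α (2 * t)) (fun t => β (2 * t - 1)) with hδ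
    have hδl : ∀ t : ℝ, t ≤ 1 / 2 → δ t = α (2 * t) := fun t h => gl_left _ _ h
    have hδr : ∀ t : ℝ, 1 / 2 ≤ t → δ t = β (2 * t - 1) := fun t h => gl_right _ _ hfg h
    have hδc : ContinuousOn δ (Icc 0 1) := gl_cont _ _ hfg (cont1 α hα) (cont2 β hβ)
    refine ⟨δ, hδc, ?_, ?_, ?_, ?_⟩
    · have key : ∀ s t : ℝ, 0 ≤ s → s ≤ 1 / 2 → 1 / 2 < t → t ≤ 1 → δ s ≠ δ t := by
        intro s t h1 h2 h3 h4 heq
        rw [hδl s h2, hδr t h3.le] at heq
        have h5 : β (2 * t - 1) ∈ α '' Icc 0 1 ∩ β '' Icc 0 1 :=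
          ⟨⟨2 * s, ⟨by linarith, by linarith⟩, heq⟩, ⟨2 * t - 1, ⟨by linarith, by linarith⟩, rfl⟩⟩
        rw [hAB, mem_singleton_iff, ← hβ0] at h5
        have := hβi ⟨by linarith, by linarith⟩ ⟨le_rfl, zero_le_one⟩ h5
        linarith
      rintro s ⟨hs0, hs1⟩ t ⟨ht0, ht1⟩ heq
      rcases le_or_gt s (1 / 2) with h1 | h1 <;> rcases le_or_gt t (1 / 2) with h2 | h2
      · rw [hδl s h1, hδl t h2] at heq
        have := hαi ⟨by linarith, by linarith⟩ ⟨by linarith, by linarith⟩ heq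
        linarith
      · exact absurd heq (key s t hs0 h1 h2 ht1)
      · exact absurd heq.symm (key t s ht0 h2 h1 hs1)
      · rw [hδr s h1.le, hδr t h2.le] at heq
        have := hβi ⟨by linarith, by linarith⟩ ⟨by linarith, by linarith⟩ heq
        linarith
    · rw [hδl 0 (by norm_num), mul_zero, hα0]
    · rw [hδr 1 (by norm_num)]
      norm_num
      exact hβ1
    · have h0 : δ '' Icc 0 1 = δ '' Icc 0 (1 / 2) ∪ δ '' Icc (1 / 2) 1 := by
        rw [← image_union, Icc_union_Icc_eq_Icc (by norm_num) (by norm_num)]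
      rw [h0, ← img α, ← img2 β]
      congr 1
      · exact image_congr fun t ht => (hδl t ht.2).symm
      · exact image_congr fun t ht => (hδr t ht.1).symm

end BBP


end
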