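import Mathlib
import Pool.Agent.BBM.C08

/-! Parts: BBP.A_LCA -/

section

/-!
# BBP, LCA: compact ANRs are locally contractible
-/

set_option autoImplicit false

namespace BBP

open Set Topology CTO

theorem t_LCA : S_LCA := by
  intro X _ _ hX x W hW hxW
  have he : Isometry (kuratowskiEmbedding X) := kuratowskiEmbedding.isometry X
  obtain ⟨Ω, r, hΩ, hsub, hr, hre⟩ := hX _ (kuratowskiEmbedding X) he.isClosedEmbedding
  have hex : kuratowskiEmbedding X x ∈ Ω := hsub ⟨x, rfl⟩
  have hc : ContinuousAt r (kuratowskiEmbedding X x) := hr.continuousAt (hΩ.mem_nhds hex)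
  have hn : ∀ᶠ u in 𝓝 (kuratowskiEmbedding X x), u ∈ Ω ∧ r u ∈ W := by
    have h0 : ∀ᶠ u in 𝓝 (kuratowskiEmbedding X x), u ∈ Ω := hΩ.mem_nhds hex
    have h : ∀ᶠ u in 𝓝 (kuratowskiEmbedding X x), r u ∈ W :=
      hc.eventually (by rw [hre]; exact hW.mem_nhds hxW)
    exact h0.and h
  obtain ⟨δ, hδ, h1⟩ := Metric.eventually_nhds_iff.1 hn
  have key : ∀ y ∈ Metric.ball x δ ∩ W, ∀ t ∈ Icc (0 : ℝ) 1,
      dist ((1 - t) • kuratowskiEmbedding X y + t • kuratowskiEmbedding X x)
        (kuratowskiEmbedding X x) < δ := by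
    intro y hy t ht
    have e1 : (1 - t) • kuratowskiEmbedding X y + t • kuratowskiEmbedding X x -
        kuratowskiEmbedding X x =
        (1 - t) • (kuratowskiEmbedding X y - kuratowskiEmbedding X x) := by
      module
    have ht1 : 0 ≤ 1 - t := by linarith [ht.2]
    rw [dist_eq_norm, e1, norm_smul, Real.norm_of_nonneg ht1, ← dist_eq_norm, he.dist_eq]
    have h2 : dist y x < δ := hy.1
    have h3 : (0 : ℝ) ≤ dist y x := dist_nonneg
    nlinarith [ht.2, ht.1]
  refine ⟨Metric.ball x δ ∩ W, inter_subset_right, Metric.isOpen_ball.inter hW,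
    ⟨Metric.mem_ball_self hδ, hxW⟩, fun p => r ((1 - p.2) • kuratowskiEmbedding X p.1 +
    p.2 • kuratowskiEmbedding X x), ?_, ?_, ?_, ?_⟩
  · apply ContinuousOn.comp (t := Ω) hr
    · apply Continuous.continuousOn
      have c1 : Continuous fun p : X × ℝ => kuratowskiEmbedding X p.1 :=
        he.continuous.comp continuous_fst
      exact ((continuous_const.sub continuous_snd).smul c1).add
        (continuous_snd.smul continuous_const)
    · rintro ⟨y, t⟩ ⟨hy, ht⟩
      exact (h1 (key y hy t ht)).1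
  · intro y _
    show r ((1 - (0 : ℝ)) • kuratowskiEmbedding X y + (0 : ℝ) • kuratowskiEmbedding X x) = y
    rw [sub_zero, one_smul, zero_smul, add_zero, hre]
  · intro y _
    show r ((1 - (1 : ℝ)) • kuratowskiEmbedding X y + (1 : ℝ) • kuratowskiEmbedding X x) = x
    rw [sub_self, one_smul, zero_smul, zero_add, hre]
  · intro y hy t ht
    exact (h1 (key y hy t ht)).2

end BBP


end
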