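import Mathlib
import Pool.Agent.BBM.C02
import Pool.Agent.CTO.Stmts2

/-! Parts: CTO.MIN, CTO.CELLG, CTO.EASY2, CTO.CELLS, CTO.MAIN2 -/

section

/-!
# MP_6eac38_gt, module MIN: a minimal closed set, all of whose new points are obstruction points
-/

set_option autoImplicit false

namespace CTO

open Set Topology

open Classical in
theorem t_MIN : S_MIN := by
  rintro X _ _ ⟨L, K, f, hL, hK, hLK, hf, hf0, hE⟩
  obtain ⟨K', hK'K, hmin⟩ := zorn_superset_nonempty
    {K' : Set X | IsClosed K' ∧ L ⊆ K' ∧ ¬ Ext L K' f} (fun c hc hch hne =>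
      ⟨⋂₀ c, ⟨isClosed_sInter fun A hA => (hc hA).1,
        subset_sInter fun A hA => (hc hA).2.1, OBS1.chain_inf c (fun A hA => hc hA) hch hne⟩,
        fun A hA => sInter_subset_of_mem hA⟩) K ⟨hK, hLK, hE⟩
  obtain ⟨h1, h2, h3⟩ := hmin.prop
  have hne : ∃ x, x ∈ K' ∧ x ∉ L := by
    by_contra hcon
    push Not at hcon
    have e : K' = L := subset_antisymm hcon h2
    apply h3
    rw [e]
    exact ⟨f, hf, hf0, fun _ _ => rfl⟩
  obtain ⟨x0, hx1, hx2⟩ := hne
  refine ⟨K', Subtype.val ⁻¹' Lᶜ, h1, hL.isOpen_compl.preimage continuous_subtype_val,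
    ⟨⟨x0, hx1⟩, hx2⟩, ?_⟩
  intro x hx
  refine ⟨Subtype.val ⁻¹' L, univ, fun y => f y, hL.preimage continuous_subtype_val,
    isClosed_univ, subset_univ _, mem_univ _, hx, ?_, fun y hy => hf0 _ hy, ?_, ?_⟩
  · exact hf.comp continuous_subtype_val.continuousOn fun y hy => hy
  · rintro ⟨F, hF1, hF2, hF3⟩
    refine h3 ⟨fun y => if h : y ∈ K' then F ⟨y, h⟩ else 0, ?_, ?_, ?_⟩
    · rw [continuousOn_iff_continuous_domRestrict]
      refine (continuousOn_univ.1 hF1).congr fun y => ?_
      have hy : (y : X) ∈ K' := y.2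
      change F y = if h : (y : X) ∈ K' then F ⟨y, h⟩ else 0
      rw [dif_pos hy]
    · intro y hy
      simp only [dif_pos hy]
      exact hF2 _ (mem_univ _)
    · intro y hy
      simp only [dif_pos (h2 hy)]
      exact hF3 (show (⟨y, h2 hy⟩ : K') ∈ Subtype.val ⁻¹' L from hy)
  · intro W hW hxW
    obtain ⟨O, hO, rfl⟩ := isOpen_induced_iff.1 hW
    have hext : Ext L ((K' \ O) ∪ L) f := by
      by_contra hcon
      have hmem : (K' \ O) ∪ L ∈ {K' : Set X | IsClosed K' ∧ L ⊆ K' ∧ ¬ Ext L K' f} :=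
        ⟨(h1.sdiff hO).union hL, subset_union_right, hcon⟩
      have hsub : (K' \ O) ∪ L ⊆ K' := union_subset sdiff_subset h2
      have h4 := hmin.le_of_le hmem hsub
      rcases h4 x.2 with h5 | h5
      · exact h5.2 hxW
      · exact hx h5
    obtain ⟨F, hF1, hF2, hF3⟩ := hext
    have hmaps : ∀ y ∈ (univ \ Subtype.val ⁻¹' O) ∪ (Subtype.val ⁻¹' L : Set K'),
        (y : X) ∈ (K' \ O) ∪ L := by
      rintro y (hy | hy)
      · exact Or.inl ⟨y.2, hy.2⟩
      · exact Or.inr hy
    refine ⟨fun y => F y, hF1.comp continuous_subtype_val.continuousOn hmaps,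
      fun y hy => hF2 _ (hmaps y hy), fun y hy => hF3 hy⟩

end CTO


end

section

/-!
# CELLG: a generically injective open map gives a 3-cell
-/

set_option autoImplicit false

namespace CTO

open Set Topology

theorem t_CELLG : S_CELLG := by
  intro X _ _ V g hV hVne hg hgi ho
  obtain ⟨x0, hx0⟩ := hVne
  obtain ⟨V0, _, _, ⟨φ⟩⟩ := MAN.local_homeo V g hV hg hgi ho x0 hx0
  refine ⟨fun v => (φ.symm (WithLp.toLp 2 v)).1, ?_, ?_⟩
  · refine Continuous.continuousOn ?_
    exact continuous_subtype_val.comp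
      (φ.symm.continuous.comp (PiLp.continuous_toLp 2 (fun _ : Fin 3 => ℝ)))
  · intro v _ w _ h
    have h1 := φ.symm.injective (Subtype.ext h)
    exact (WithLp.toLp_injective 2) h1

end CTO


end

section

/-!
# MP_6eac38_gt, module EASY2: a compact metric 3-manifold contains a closed set of dimension 3
with a countable-to-one map into `ℝ³`
-/

set_option autoImplicit false

namespace CTO

open Set Topology

namespace EASY2

/-- a compact metric 3-manifold is a finite union of closed sets contained in charts -/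
theorem cover (X : Type) [MetricSpace X] [CompactSpace X] (hX : IsMfd3 X) :
    ∃ (m : ℕ) (F : Fin m → Set X), (∀ j, IsClosed (F j)) ∧ (⋃ j, F j) = univ ∧
      ∀ j, ∃ g : X → R3, ContinuousOn g (F j) ∧ InjOn g (F j) := by
  have hc := hX.2.2
  choose V hVo hxV hV using hc
  have hball : ∀ x : X, ∃ ε : ℝ, 0 < ε ∧ Metric.closedBall x ε ⊆ V x := by
    intro x
    exact Metric.nhds_basis_closedBall.mem_iff.1 ((hVo x).mem_nhds (hxV x))
  choose ε hε hεV using hball
  obtain ⟨t, ht⟩ := isCompact_univ.elim_nhds_subcover (fun x => Metric.ball x (ε x))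
    (fun x _ => Metric.ball_mem_nhds x (hε x))
  have ht2 := ht.2
  refine ⟨t.card, fun j => Metric.closedBall (t.equivFin.symm j).1 (ε (t.equivFin.symm j).1),
    fun j => Metric.isClosed_closedBall, ?_, ?_⟩
  · rw [eq_univ_iff_forall]
    intro y
    have hy := ht2 (mem_univ y)
    rw [mem_iUnion₂] at hy
    obtain ⟨x, hxt, hyx⟩ := hy
    rw [mem_iUnion]
    refine ⟨t.equivFin ⟨x, hxt⟩, ?_⟩
    rw [Equiv.symm_apply_apply]
    exact Metric.ball_subset_closedBall hyx
  · intro j
    obtain ⟨hx⟩ := hV (t.equivFin.symm j).1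
    exact ⟨EASY.ext _ hx, (EASY.ext_cont _ hx).mono (hεV _), (EASY.ext_inj _ hx).mono (hεV _)⟩

end EASY2

theorem t_EASY2 : M_EASY2 := by
  intro hsum X _ _ hX hn
  obtain ⟨m, F, hF, hU, hg⟩ := EASY2.cover X hX
  have hex : ∃ j, ¬ ShrLE (F j) 2 := by
    by_contra hcon
    push Not at hcon
    exact hn (hsum X 2 m F hF hU hcon)
  obtain ⟨j, hj⟩ := hex
  obtain ⟨g, hgc, hgi⟩ := hg j
  refine ⟨F j, hF j, hj, fun x => g x.1, continuousOn_iff_continuous_domRestrict.1 hgc, ?_⟩
  intro z
  refine Set.Subsingleton.countable ?_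
  intro x hx y hy
  apply Subtype.ext
  refine hgi x.2 y.2 ?_
  have h1 : g x.1 = z := hx
  have h2 : g y.1 = z := hy
  rw [h1, h2]

end CTO


end

section

/-!
# MP_6eac38_gt: a compactum of dimension 3 with a countable-to-one map contains a cell
-/

set_option autoImplicit false

namespace CTO

open Set Topology

theorem t_CELLS : M_CELLS := by
  intro hOBS0 hMIN hBAI2 hED hRAD hLEMX hSEP hCELLG K _ _ h3 h2 hex
  obtain ⟨g, hg, hgc⟩ := hex
  obtain ⟨K', V, hK', hV, hVn, hobs⟩ := hMIN K (hOBS0 K h3 h2)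
  have : CompactSpace K' := isCompact_iff_compactSpace.mp hK'.isCompact
  let g' : K' → R3 := fun x => g x
  have hg' : Continuous g' := hg.comp continuous_subtype_val
  have hg'c : ∀ z, (g' ⁻¹' {z}).Countable := fun z =>
    (hgc z).preimage Subtype.val_injective
  obtain ⟨V', hV'V, hV'o, hV'n, hG⟩ := hBAI2 K' V g' hV hVn hg'.continuousOn
    (fun z => (hg'c z).mono inter_subset_right)
  have hopen : ∀ G ⊆ V', IsOpen G → IsOpen (g' '' G) := by
    intro G hGV hGo
    rw [isOpen_iff_mem_nhds]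
    rintro _ ⟨x, hx, rfl⟩
    exact OPEN.step hED hRAD hLEMX hSEP (V := V') hg'.continuousOn
      (fun z => ((hg'c z).mono inter_subset_right).isTotallyDisconnected) hG hGV hGo hx
      (hobs x (hV'V (hGV hx)))
  obtain ⟨e, he, hi⟩ := hCELLG K' V' g' hV'o hV'n hg'.continuousOn hG hopen
  exact ⟨fun v => (e v : K), continuous_subtype_val.comp_continuousOn he,
    fun a ha b hb h => hi ha hb (Subtype.val_injective h)⟩

end CTO


end

section

/-!
# MP_6eac38_gt: the second main theorem from the modules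
-/

set_option autoImplicit false

namespace CTO

open Set Topology

theorem t_MAIN2 : M_MAIN2 := by
  intro hSHR hSUBD hCELLS hCELL2 hMAN2 hEASY2
  refine ⟨?_, ?_⟩
  · intro K _ _ h3 h2 hg
    exact hCELLS K ((hSHR K 3).mp h3) (fun h => h2 ((hSHR K 2).mpr h)) hg
  · intro X _ _ hA hX h3 h2
    constructor
    · intro h
      obtain ⟨K, hK, hK2, hg⟩ := hEASY2 X h (fun h' => h2 ((hSHR X 2).mpr h'))
      exact ⟨K, hK, fun h' => hK2 ((hSHR K 2).mp h'), hg⟩
    · rintro ⟨K, hK, hK2, hg⟩
      have : CompactSpace K := isCompact_iff_compactSpace.mp hK.isCompact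
      obtain ⟨e, he, hi⟩ := hCELLS K (hSUBD X 3 K hK ((hSHR X 3).mp h3))
        (fun h => hK2 ((hSHR K 2).mpr h)) hg
      have he' : ContinuousOn (fun v => (e v : X)) (Icc (-1) 1) :=
        continuous_subtype_val.comp_continuousOn he
      have hi' : InjOn (fun v => (e v : X)) (Icc (-1) 1) :=
        fun a ha b hb h => hi ha hb (Subtype.val_injective h)
      exact hMAN2 X hX _ he' hi' (hCELL2 X hA hX ((hSHR X 3).mp h3) _ he' hi')

end CTO


end
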