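import Mathlib

/-! Parts: BBH.Core, BBH.Germ, BBH.Hmod, BBH.Maps, BBH.Fun -/

section

/-!
# BBH: Alexander-Spanier cohomology with coefficients, the core

Total cochains on `X` with values in the abelian group `M` are functions `List X → M`; a cochain of degree `p : ℤ` is
supported on the nonempty lists of length `p + 1`.  The coboundary `dd`, the cup product and the prism operator are defined
by recursion.  `Z A` is the set of the cochains that vanish on all small lists near `A`.  The cohomology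
`H^p(A, B)` is `{c ∈ Dg p ∩ Z B : dd c ∈ Z A} / (dd (Dg (p-1) ∩ Z B) + Z A)`; predicates `Cyc` and `Bd`.
(Adapted from `Pool/Agent/VC/Core.lean`, where the coefficients are `ZMod 2`.)
-/

set_option autoImplicit false
set_option linter.unusedSectionVars false
set_option linter.unusedSimpArgs false

namespace BBH

open Set Filter Topology

/-- total cochains -/
abbrev Cc (M X : Type) := List X → M

section algebra

variable {M X Y V : Type} [AddCommGroup M]

/-- the cochain `l ↦ c (x :: l)` -/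
def sh {M X : Type} (c : Cc M X) (x : X) : Cc M X := fun l => c (x :: l)

/-- the coboundary -/
def dd : Cc M X → Cc M X
  | _, [] => 0
  | c, x :: l => c l - dd (sh c x) l
termination_by _ l => l.length

/-- pull back of cochains -/
def pull {M X Y : Type} (f : X → Y) (c : Cc M Y) : Cc M X := fun l => c (l.map f)

/-- the prism operator of two maps -/
def pr (f g : X → Y) : Cc M Y → Cc M X
  | _, [] => 0
  | c, x :: l => c (f x :: g x :: l.map g) - pr f g (sh c (f x)) l
termination_by _ l => l.length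

@[simp] theorem sh_apply (c : Cc M X) (x : X) (l : List X) : sh c x l = c (x :: l) := rfl
@[simp] theorem sh_add (c e : Cc M X) (x : X) : sh (c + e) x = sh c x + sh e x := rfl
@[simp] theorem sh_sub (c e : Cc M X) (x : X) : sh (c - e) x = sh c x - sh e x := rfl
@[simp] theorem sh_neg (c : Cc M X) (x : X) : sh (-c) x = -sh c x := rfl
@[simp] theorem sh_zero (x : X) : sh (0 : Cc M X) x = 0 := rfl

@[simp] theorem dd_nil (c : Cc M X) : dd c [] = 0 := by rw [dd]
@[simp] theorem dd_cons (c : Cc M X) (x : X) (l : List X) :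
    dd c (x :: l) = c l - dd (sh c x) l := by rw [dd]
@[simp] theorem pr_nil (f g : X → Y) (c : Cc M Y) : pr f g c [] = 0 := by rw [pr]
@[simp] theorem pr_cons (f g : X → Y) (c : Cc M Y) (x : X) (l : List X) :
    pr f g c (x :: l) = c (f x :: g x :: l.map g) - pr f g (sh c (f x)) l := by rw [pr]
@[simp] theorem pull_apply {M X Y : Type} (f : X → Y) (c : Cc M Y) (l : List X) :
    pull f c l = c (l.map f) := rfl

/-! ### Linearity -/

theorem dd_add_apply (c e : Cc M X) (l : List X) : dd (c + e) l = dd c l + dd e l := by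
  induction l generalizing c e with
  | nil => simp
  | cons x l ih =>
    simp only [dd_cons, sh_add, ih, Pi.add_apply]
    abel

theorem dd_add (c e : Cc M X) : dd (c + e) = dd c + dd e := funext (dd_add_apply c e)

theorem dd_map {M' : Type} [AddCommGroup M'] (φ : M →+ M') (c : Cc M X) (l : List X) :
    dd (fun l => φ (c l)) l = φ (dd c l) := by
  induction l generalizing c with
  | nil => simp
  | cons x l ih =>
    have h1 : sh (fun l => φ (c l)) x = fun l => φ (sh c x l) := rfl
    rw [dd_cons, dd_cons, h1, ih, map_sub]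

/-- the coboundary as a homomorphism -/
def ddH : Cc M X →+ Cc M X where
  toFun := dd
  map_add' := dd_add
  map_zero' := by
    have h := dd_add (0 : Cc M X) 0
    rw [add_zero] at h
    exact left_eq_add.1 h

@[simp] theorem dd_zero : dd (0 : Cc M X) = 0 := (ddH (M := M) (X := X)).map_zero
theorem dd_sub (c e : Cc M X) : dd (c - e) = dd c - dd e := (ddH (M := M) (X := X)).map_sub c e
theorem dd_neg (c : Cc M X) : dd (-c) = -dd c := (ddH (M := M) (X := X)).map_neg c
theorem dd_sum {ι : Type*} (s : Finset ι) (c : ι → Cc M X) :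
    dd (∑ i ∈ s, c i) = ∑ i ∈ s, dd (c i) := map_sum (ddH (M := M) (X := X)) c s

theorem dd_smul {R : Type} [CommRing R] [Module R M] (a : R) (c : Cc M X) :
    dd (a • c) = a • dd c := by
  funext l
  exact dd_map (DistribSMul.toAddMonoidHom M a) c l

theorem sh_dd (c : Cc M X) (x : X) : sh (dd c) x = c - dd (sh c x) := by
  funext l
  simp

theorem dd_dd_apply (c : Cc M X) (l : List X) : dd (dd c) l = 0 := by
  induction l generalizing c with
  | nil => simp
  | cons x l ih =>
    rw [dd_cons, sh_dd, dd_sub, Pi.sub_apply, ih, sub_zero, sub_self]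

@[simp] theorem dd_dd (c : Cc M X) : dd (dd c) = 0 := funext (dd_dd_apply c)

/-! ### Naturality -/

theorem pull_add {M X Y : Type} [AddCommGroup M] (f : X → Y) (c e : Cc M Y) :
    pull f (c + e) = pull f c + pull f e := rfl
theorem pull_sub (f : X → Y) (c e : Cc M Y) : pull f (c - e) = pull f c - pull f e := rfl
theorem pull_neg (f : X → Y) (c : Cc M Y) : pull f (-c) = -pull f c := rfl
@[simp] theorem pull_zero (f : X → Y) : pull f (0 : Cc M Y) = 0 := rfl
theorem pull_smul {R : Type} [CommRing R] [Module R M] (f : X → Y) (a : R) (c : Cc M Y) :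
    pull f (a • c) = a • pull f c := rfl
theorem sh_pull {M X Y : Type} (f : X → Y) (c : Cc M Y) (x : X) :
    sh (pull f c) x = pull f (sh c (f x)) := rfl
theorem pull_pull {M X Y V : Type} (f : X → Y) (g : Y → V) (c : Cc M V) :
    pull f (pull g c) = pull (g ∘ f) c := by
  funext l
  simp

@[simp] theorem pull_id {M X : Type} (c : Cc M X) : pull id c = c := by
  funext l
  simp

theorem dd_pull_apply (f : X → Y) (c : Cc M Y) (l : List X) :
    dd (pull f c) l = dd c (l.map f) := by
  induction l generalizing c with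
  | nil => simp
  | cons x l ih => simp [sh_pull, ih]

theorem dd_pull (f : X → Y) (c : Cc M Y) : dd (pull f c) = pull f (dd c) :=
  funext (dd_pull_apply f c)

theorem pr_add_apply (f g : X → Y) (c e : Cc M Y) (l : List X) :
    pr f g (c + e) l = pr f g c l + pr f g e l := by
  induction l generalizing c e with
  | nil => simp
  | cons x l ih =>
    simp only [pr_cons, sh_add, ih, Pi.add_apply]
    abel

theorem pr_add (f g : X → Y) (c e : Cc M Y) : pr f g (c + e) = pr f g c + pr f g e :=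
  funext (pr_add_apply f g c e)

/-- the prism as a homomorphism -/
def prH (f g : X → Y) : Cc M Y →+ Cc M X where
  toFun := pr f g
  map_add' := pr_add f g
  map_zero' := by
    have h := pr_add f g (0 : Cc M Y) 0
    rw [add_zero] at h
    exact left_eq_add.1 h

@[simp] theorem pr_zero (f g : X → Y) : pr f g (0 : Cc M Y) = 0 := (prH (M := M) f g).map_zero
theorem pr_sub (f g : X → Y) (c e : Cc M Y) : pr f g (c - e) = pr f g c - pr f g e :=
  (prH (M := M) f g).map_sub c e

/-- the prism is a homotopy -/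
theorem prism_apply (f g : X → Y) (c : Cc M Y) (l : List X) :
    dd (pr f g c) l + pr f g (dd c) l = c (l.map g) - c (l.map f) := by
  induction l generalizing c with
  | nil => simp
  | cons x l ih =>
    have h1 : sh (pr f g c) x = pull g (sh (sh c (f x)) (g x)) - pr f g (sh c (f x)) := by
      funext l'
      simp
    have h3 := ih (sh c (f x))
    rw [dd_cons, h1, dd_sub, Pi.sub_apply, dd_pull_apply, pr_cons, sh_dd, pr_sub, Pi.sub_apply]
    simp only [dd_cons, sh_apply, List.map_cons] at h3 ⊢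
    have h4 : dd (pr f g (sh c (f x))) l =
        c (f x :: l.map g) - c (f x :: l.map f) - pr f g (dd (sh c (f x))) l := by
      rw [← h3]
      abel
    rw [h4]
    abel

/-! ### Cup product -/

/-- the cup product; the first factor has values in `R` -/
def cup {R M X : Type} [CommRing R] [AddCommGroup M] [Module R M] : Cc R X → Cc M X → Cc M X
  | _, _, [] => 0
  | c, e, x :: l => c [x] • e (x :: l) + cup (sh c x) e l
termination_by _ _ l => l.length

section cupp

variable {R : Type} [CommRing R] [Module R M]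

@[simp] theorem cup_nil (c : Cc R X) (e : Cc M X) : cup c e [] = 0 := by rw [cup]
@[simp] theorem cup_cons (c : Cc R X) (e : Cc M X) (x : X) (l : List X) :
    cup c e (x :: l) = c [x] • e (x :: l) + cup (sh c x) e l := by rw [cup]

theorem cup_add_left_apply (c c' : Cc R X) (e : Cc M X) (l : List X) :
    cup (c + c') e l = cup c e l + cup c' e l := by
  induction l generalizing c c' with
  | nil => simp
  | cons x l ih =>
    simp only [cup_cons, sh_add, ih, Pi.add_apply, add_smul]
    abel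

theorem cup_add_right_apply (c : Cc R X) (e e' : Cc M X) (l : List X) :
    cup c (e + e') l = cup c e l + cup c e' l := by
  induction l generalizing c with
  | nil => simp
  | cons x l ih =>
    simp only [cup_cons, ih, Pi.add_apply, smul_add]
    abel

theorem cup_smul_left_apply (a : R) (c : Cc R X) (e : Cc M X) (l : List X) :
    cup (a • c) e l = a • cup c e l := by
  induction l generalizing c with
  | nil => simp
  | cons x l ih =>
    have h : sh (a • c) x = a • sh c x := rfl
    simp only [cup_cons, h, ih, Pi.smul_apply, smul_eq_mul, smul_add, mul_smul]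

theorem cup_smul_right_apply (a : R) (c : Cc R X) (e : Cc M X) (l : List X) :
    cup c (a • e) l = a • cup c e l := by
  induction l generalizing c with
  | nil => simp
  | cons x l ih =>
    simp only [cup_cons, ih, Pi.smul_apply, smul_add]
    rw [smul_comm a (c [x]) (e (x :: l))]

theorem cup_add_left (c c' : Cc R X) (e : Cc M X) : cup (c + c') e = cup c e + cup c' e :=
  funext (cup_add_left_apply c c' e)
theorem cup_add_right (c : Cc R X) (e e' : Cc M X) : cup c (e + e') = cup c e + cup c e' :=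
  funext (cup_add_right_apply c e e')
theorem cup_smul_left (a : R) (c : Cc R X) (e : Cc M X) : cup (a • c) e = a • cup c e :=
  funext (cup_smul_left_apply a c e)
theorem cup_smul_right (a : R) (c : Cc R X) (e : Cc M X) : cup c (a • e) = a • cup c e :=
  funext (cup_smul_right_apply a c e)

@[simp] theorem cup_zero_left (e : Cc M X) : cup (0 : Cc R X) e = 0 := by
  have h := cup_smul_left (0 : R) (0 : Cc R X) e
  simpa using h
@[simp] theorem cup_zero_right (c : Cc R X) : cup c (0 : Cc M X) = 0 := by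
  have h := cup_smul_right (0 : R) c (0 : Cc M X)
  simpa using h
theorem cup_neg_left (c : Cc R X) (e : Cc M X) : cup (-c) e = -cup c e := by
  have h := cup_smul_left (-1 : R) c e
  rwa [neg_one_smul, neg_one_smul] at h
theorem cup_neg_right (c : Cc R X) (e : Cc M X) : cup c (-e) = -cup c e := by
  have h := cup_smul_right (-1 : R) c e
  rwa [neg_one_smul, neg_one_smul] at h
theorem cup_sub_left (c c' : Cc R X) (e : Cc M X) : cup (c - c') e = cup c e - cup c' e := by
  rw [sub_eq_add_neg, cup_add_left, cup_neg_left, ← sub_eq_add_neg]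
theorem cup_sub_right (c : Cc R X) (e e' : Cc M X) : cup c (e - e') = cup c e - cup c e' := by
  rw [sub_eq_add_neg, cup_add_right, cup_neg_right, ← sub_eq_add_neg]

end cupp

/-! ### Vanishing on families of lists -/

/-- a family of lists that is closed under passing to lists with fewer members -/
def Cl {X : Type} (K : Set (List X)) : Prop := ∀ l ∈ K, ∀ l' : List X, l' ⊆ l → l' ∈ K

theorem Cl.shift {X : Type} {K : Set (List X)} (h : Cl K) (x : X) : Cl {l | x :: l ∈ K} := by
  intro l hl l' hl'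
  exact h _ hl _ (List.cons_subset_cons x hl')

theorem dd_van {K : Set (List X)} (hK : Cl K) {c : Cc M X} (hc : ∀ l ∈ K, c l = 0) :
    ∀ l ∈ K, dd c l = 0 := by
  intro l
  induction l generalizing c K with
  | nil => intro _; simp
  | cons x l ih =>
    intro hl
    rw [dd_cons, hc l (hK _ hl _ (List.subset_cons_self x l)),
      ih (hK.shift x) (c := sh c x) (fun l' hl' => hc _ hl') hl, sub_zero]

theorem dd_congr {K : Set (List X)} (hK : Cl K) {c e : Cc M X} (hc : ∀ l ∈ K, c l = e l) :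
    ∀ l ∈ K, dd c l = dd e l := by
  intro l hl
  have h := dd_van hK (c := c - e) (fun l hl => by rw [Pi.sub_apply, hc l hl, sub_self]) l hl
  rwa [dd_sub, Pi.sub_apply, sub_eq_zero] at h

theorem cup_van_left {R : Type} [CommRing R] [Module R M] {K : Set (List X)} (hK : Cl K)
    {c : Cc R X} (e : Cc M X) (hc : ∀ l ∈ K, c l = 0) : ∀ l ∈ K, cup c e l = 0 := by
  intro l
  induction l generalizing c K with
  | nil => intro _; simp
  | cons x l ih =>
    intro hl
    have h1 : [x] ∈ K := hK _ hl _ (by simp)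
    rw [cup_cons, hc _ h1, ih (hK.shift x) (c := sh c x) (fun l' hl' => hc _ hl') hl, zero_smul,
      add_zero]

theorem cup_van_right {R : Type} [CommRing R] [Module R M] {K : Set (List X)} (hK : Cl K)
    (c : Cc R X) {e : Cc M X} (he : ∀ l ∈ K, e l = 0) : ∀ l ∈ K, cup c e l = 0 := by
  intro l
  induction l generalizing c with
  | nil => intro _; simp
  | cons x l ih =>
    intro hl
    rw [cup_cons, he _ hl, ih (sh c x) (hK _ hl _ (List.subset_cons_self x l)), smul_zero,
      add_zero]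

theorem pr_van (f g : X → Y) {c : Cc M Y} {l : List X}
    (hc : ∀ l', l' ⊆ l.map f ++ l.map g → c l' = 0) : pr f g c l = 0 := by
  induction l generalizing c with
  | nil => simp
  | cons x l ih =>
    rw [pr_cons, hc, ih, sub_zero]
    · intro l' hl'
      refine hc _ ?_
      intro y hy
      rcases List.mem_cons.1 hy with rfl | hy
      · simp
      · have := hl' hy
        simp only [List.mem_append, List.mem_map, List.map_cons, List.mem_cons] at this ⊢
        rcases this with h | h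
        · exact Or.inl (Or.inr h)
        · exact Or.inr (Or.inr h)
    · intro y hy
      simp only [List.mem_append, List.mem_map, List.map_cons, List.mem_cons] at hy ⊢
      rcases hy with h | h | h
      · exact Or.inl (Or.inl h)
      · exact Or.inr (Or.inl h)
      · exact Or.inr (Or.inr h)

/-! ### Degrees -/

/-- cochains of degree `p` -/
def Dg {M : Type} [AddCommGroup M] (X : Type) (p : ℤ) (c : Cc M X) : Prop :=
  ∀ l, c l ≠ 0 → l ≠ [] ∧ (l.length : ℤ) = p + 1

theorem Dg.zero {p : ℤ} : Dg X p (0 : Cc M X) := fun _ h => absurd rfl h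

theorem Dg.add {p : ℤ} {c e : Cc M X} (h : Dg X p c) (h' : Dg X p e) : Dg X p (c + e) := by
  intro l hl
  by_cases h1 : c l = 0
  · refine h' l ?_
    intro h2
    exact hl (by simp [h1, h2])
  · exact h l h1

theorem Dg.neg {p : ℤ} {c : Cc M X} (h : Dg X p c) : Dg X p (-c) := by
  intro l hl
  exact h l (fun h1 => hl (by simp [h1]))

theorem Dg.sub {p : ℤ} {c e : Cc M X} (h : Dg X p c) (h' : Dg X p e) : Dg X p (c - e) := by
  rw [sub_eq_add_neg]
  exact h.add h'.neg

theorem Dg.smul {R : Type} [CommRing R] [Module R M] {p : ℤ} {c : Cc M X} (a : R)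
    (h : Dg X p c) : Dg X p (a • c) := by
  intro l hl
  exact h l (fun h1 => hl (by simp [h1]))

theorem Dg.sum {ι : Type*} {p : ℤ} {s : Finset ι} {c : ι → Cc M X}
    (h : ∀ i ∈ s, Dg X p (c i)) : Dg X p (∑ i ∈ s, c i) := by
  classical
  induction s using Finset.induction_on with
  | empty => simpa using Dg.zero
  | insert a s ha ih =>
    rw [Finset.sum_insert ha]
    exact (h a (Finset.mem_insert_self a s)).add
      (ih fun i hi => h i (Finset.mem_insert_of_mem hi))

theorem Dg.nil {p : ℤ} {c : Cc M X} (h : Dg X p c) : c [] = 0 := by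
  by_contra h1
  exact (h [] h1).1 rfl

theorem Dg.eq_zero {p : ℤ} {c : Cc M X} (h : Dg X p c) (hp : p < 0) : c = 0 := by
  funext l
  by_contra h1
  obtain ⟨h2, h3⟩ := h l h1
  have : 0 < l.length := List.length_pos_of_ne_nil h2
  omega

theorem dd_len {c : Cc M X} {m : ℤ} (h : ∀ l, c l ≠ 0 → (l.length : ℤ) = m) :
    ∀ l, dd c l ≠ 0 → (l.length : ℤ) = m + 1 := by
  intro l
  induction l generalizing c m with
  | nil => intro h1; exact absurd (dd_nil c) h1
  | cons x l ih =>
    intro h1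
    rw [dd_cons] at h1
    by_cases h2 : c l = 0
    · rw [h2, zero_sub, neg_ne_zero] at h1
      have h3 := ih (c := sh c x) (m := m - 1) (fun l' hl' => by
        have := h _ hl'
        simp only [List.length_cons, Nat.cast_add, Nat.cast_one] at this
        omega) h1
      simp only [List.length_cons, Nat.cast_add, Nat.cast_one]
      omega
    · have := h l h2
      simp only [List.length_cons, Nat.cast_add, Nat.cast_one]
      omega

theorem Dg.dd {p : ℤ} {c : Cc M X} (h : Dg X p c) : Dg X (p + 1) (BBH.dd c) := by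
  intro l hl
  refine ⟨?_, ?_⟩
  · rintro rfl
    exact hl (dd_nil c)
  · exact dd_len (fun l hl => (h l hl).2) l hl

theorem Dg.dd' {p : ℤ} {c : Cc M X} (h : Dg X (p - 1) c) : Dg X p (BBH.dd c) := by
  have h1 := h.dd
  rwa [sub_add_cancel] at h1

theorem cup_len {R : Type} [CommRing R] [Module R M] {c : Cc R X} {e : Cc M X} {m n : ℤ}
    (h : ∀ l, c l ≠ 0 → (l.length : ℤ) = m) (h' : ∀ l, e l ≠ 0 → (l.length : ℤ) = n) :
    ∀ l, cup c e l ≠ 0 → (l.length : ℤ) = m + n - 1 := by
  intro l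
  induction l generalizing c m with
  | nil => intro h1; exact absurd (cup_nil c e) h1
  | cons x l ih =>
    intro h1
    rw [cup_cons] at h1
    by_cases h2 : c [x] • e (x :: l) = 0
    · rw [h2, zero_add] at h1
      have h3 := ih (c := sh c x) (m := m - 1) (fun l' hl' => by
        have := h _ hl'
        simp only [List.length_cons, Nat.cast_add, Nat.cast_one] at this
        omega) h1
      simp only [List.length_cons, Nat.cast_add, Nat.cast_one]
      omega
    · have h3 := h [x] (fun h0 => h2 (by rw [h0, zero_smul]))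
      have h4 := h' (x :: l) (fun h0 => h2 (by rw [h0, smul_zero]))
      simp only [List.length_cons, List.length_nil, Nat.cast_add, Nat.cast_one, Nat.cast_zero]
        at h3 h4 ⊢
      omega

theorem Dg.cup {R : Type} [CommRing R] [Module R M] {p q : ℤ} {c : Cc R X} {e : Cc M X}
    (h : Dg X p c) (h' : Dg X q e) : Dg X (p + q) (BBH.cup c e) := by
  intro l hl
  refine ⟨?_, ?_⟩
  · rintro rfl
    exact hl (cup_nil c e)
  · have := cup_len (fun l hl => (h l hl).2) (fun l hl => (h' l hl).2) l hl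
    omega

theorem Dg.pull {p : ℤ} (f : X → Y) {c : Cc M Y} (h : Dg Y p c) : Dg X p (BBH.pull f c) := by
  intro l hl
  obtain ⟨h1, h2⟩ := h _ hl
  refine ⟨?_, ?_⟩
  · rintro rfl
    exact h1 rfl
  · simpa using h2

theorem pr_len (f g : X → Y) {c : Cc M Y} {m : ℤ} (h : ∀ l, c l ≠ 0 → (l.length : ℤ) = m) :
    ∀ l, pr f g c l ≠ 0 → (l.length : ℤ) = m - 1 := by
  intro l
  induction l generalizing c m with
  | nil => intro h1; exact absurd (pr_nil f g c) h1
  | cons x l ih =>
    intro h1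
    rw [pr_cons] at h1
    by_cases h2 : c (f x :: g x :: l.map g) = 0
    · rw [h2, zero_sub, neg_ne_zero] at h1
      have h3 := ih (c := sh c (f x)) (m := m - 1) (fun l' hl' => by
        have := h _ hl'
        simp only [List.length_cons, Nat.cast_add, Nat.cast_one] at this
        omega) h1
      simp only [List.length_cons, Nat.cast_add, Nat.cast_one]
      omega
    · have := h _ h2
      simp only [List.length_cons, Nat.cast_add, Nat.cast_one, List.length_map] at this ⊢
      omega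

theorem Dg.pr {p : ℤ} (f g : X → Y) {c : Cc M Y} (h : Dg Y p c) :
    Dg X (p - 1) (BBH.pr f g c) := by
  intro l hl
  refine ⟨?_, ?_⟩
  · rintro rfl
    exact hl (pr_nil f g c)
  · have := pr_len f g (fun l hl => (h l hl).2) l hl
    omega

/-- Leibniz rule, total form -/
theorem dd_cup_apply {R : Type} [CommRing R] [Module R M] (c : Cc R X) (e : Cc M X) (m : ℕ)
    (h : ∀ l, c l ≠ 0 → l.length = m) (l : List X) :
    dd (cup c e) l = cup (dd c) e l - (-1 : R) ^ m • cup c (dd e) l - c [] • e l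
      + (-1 : R) ^ m • (c l • e []) := by
  induction l generalizing c m with
  | nil =>
    by_cases h0 : m = 0
    · subst h0
      simp
    · have h1 : c [] = 0 := by
        by_contra h1
        exact h0 (h [] h1).symm
      simp [h1]
  | cons x l ih =>
    have h1 : sh (cup c e) x = c [x] • sh e x + cup (sh c x) e := by
      funext l'
      simp
    rcases Nat.eq_zero_or_pos m with h0 | h0
    · subst h0
      have hc : ∀ l, l ≠ [] → c l = 0 := by
        intro l hl
        by_contra h2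
        exact hl (List.length_eq_zero_iff.1 (h l h2))
      have hs : sh c x = 0 := by
        funext l'
        exact hc _ (by simp)
      rw [dd_cons, h1, hs]
      have hx : c [x] = 0 := hc _ (by simp)
      have hxl : c (x :: l) = 0 := hc _ (by simp)
      rw [hx, zero_smul, cup_zero_left, add_zero, dd_zero, cup_cons, cup_cons, dd_cons, sh_dd, hs,
        dd_zero, hx, hxl]
      -- `dd c [x] = c []`
      have h2 : cup (c - (0 : Cc R X)) e l = cup c e l := by rw [sub_zero]
      rw [h2]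
      simp
    · obtain ⟨n, rfl⟩ : ∃ n, m = n + 1 := ⟨m - 1, by omega⟩
      have hc0 : c [] = 0 := by
        by_contra h2
        have := h [] h2
        simp at this
      have h2 : ∀ l, sh c x l ≠ 0 → l.length = n := by
        intro l' hl'
        have := h _ hl'
        simpa using this
      have h3 := ih (sh c x) n h2
      rw [dd_cons, h1, dd_add, Pi.add_apply, dd_smul, Pi.smul_apply, h3, cup_cons, cup_cons, sh_dd,
        cup_sub_left, Pi.sub_apply]
      simp only [dd_cons, dd_nil, sh_apply, sub_zero, pow_succ, hc0, zero_smul, zero_add]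
      simp only [smul_sub, smul_add, mul_smul, neg_smul, one_smul, smul_neg, mul_neg, mul_one,
        neg_mul, one_mul]
      by_cases hn : n = 0
      · subst hn
        simp only [pow_zero, one_smul]
        abel
      · have hx : c [x] = 0 := by
          by_contra h4
          have := h [x] h4
          simp at this
          omega
        rw [hx]
        simp only [zero_smul, smul_zero]
        abel

/-- Leibniz rule -/
theorem dd_cup {R : Type} [CommRing R] [Module R M] {p : ℕ} {q : ℤ} {c : Cc R X} {e : Cc M X}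
    (h : Dg X p c) (h' : Dg X q e) :
    dd (cup c e) = cup (dd c) e + (-1 : R) ^ p • cup c (dd e) := by
  funext l
  have h1 := dd_cup_apply c e (p + 1) (fun l hl => by
    have := (h l hl).2
    omega) l
  rw [h1, h.nil, h'.nil, pow_succ]
  simp [mul_smul]

/-- associativity of the cup product -/
theorem cup_assoc_apply {R : Type} [CommRing R] [Module R M] (c e : Cc R X) (g : Cc M X)
    (l : List X) : cup (cup c e) g l = cup c (cup e g) l := by
  induction l generalizing c with
  | nil => simp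
  | cons x l ih =>
    have h1 : sh (cup c e) x = c [x] • sh e x + cup (sh c x) e := by
      funext l'
      simp
    rw [cup_cons, h1, cup_add_left_apply, cup_smul_left_apply, ih, cup_cons, cup_cons]
    simp [mul_smul, smul_add]
    abel

theorem cup_assoc {R : Type} [CommRing R] [Module R M] (c e : Cc R X) (g : Cc M X) :
    cup (cup c e) g = cup c (cup e g) := funext (cup_assoc_apply c e g)

/-- multiplication by the indicator function of a set of lists -/
noncomputable def ind (K : Set (List X)) (c : Cc M X) : Cc M X := K.indicator c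

theorem ind_of_mem {K : Set (List X)} {c : Cc M X} {l : List X} (h : l ∈ K) :
    ind K c l = c l := indicator_of_mem h c

theorem ind_of_notMem {K : Set (List X)} {c : Cc M X} {l : List X} (h : l ∉ K) :
    ind K c l = 0 := indicator_of_notMem h c

theorem ind_van {K : Set (List X)} {c : Cc M X} {l : List X} (h : c l = 0) : ind K c l = 0 := by
  by_cases h1 : l ∈ K
  · rw [ind_of_mem h1, h]
  · exact ind_of_notMem h1

theorem Dg.ind {K : Set (List X)} {c : Cc M X} {p : ℤ} (h : Dg X p c) :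
    Dg X p (BBH.ind K c) := by
  intro l hl
  exact h l (fun h1 => hl (ind_van h1))

theorem ind_add_compl (K : Set (List X)) (c : Cc M X) : ind K c + ind Kᶜ c = c := by
  funext l
  by_cases h : l ∈ K
  · rw [Pi.add_apply, ind_of_mem h, ind_of_notMem (show l ∉ Kᶜ from not_not_intro h), add_zero]
  · rw [Pi.add_apply, ind_of_notMem h, ind_of_mem (show l ∈ Kᶜ from h), zero_add]

theorem ind_compl (K : Set (List X)) (c : Cc M X) : ind Kᶜ c = c - ind K c := by
  rw [eq_sub_iff_add_eq, add_comm]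
  exact ind_add_compl K c

/-- the cochain of degree zero of a function -/
def c0 {M X : Type} [AddCommGroup M] (f : X → M) : Cc M X
  | [x] => f x
  | _ => 0

@[simp] theorem c0_single (f : X → M) (x : X) : c0 f [x] = f x := rfl
@[simp] theorem c0_nil (f : X → M) : c0 f [] = 0 := rfl
@[simp] theorem c0_two (f : X → M) (x y : X) (l : List X) : c0 f (x :: y :: l) = 0 := rfl

theorem Dg.c0 (f : X → M) : Dg X 0 (BBH.c0 f) := by
  intro l hl
  rcases l with _ | ⟨x, _ | ⟨y, l⟩⟩
  · exact absurd rfl hl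
  · exact ⟨by simp, by simp⟩
  · exact absurd rfl hl

/-- cochains of degree zero are functions -/
theorem Dg.eq_c0 {c : Cc M X} (h : Dg X 0 c) : c = BBH.c0 fun x => c [x] := by
  funext l
  rcases l with _ | ⟨x, _ | ⟨y, l⟩⟩
  · exact h.nil
  · rfl
  · by_contra h1
    have := (h _ h1).2
    simp only [List.length_cons] at this
    push_cast at this
    omega

theorem dd_c0_two (f : X → M) (x y : X) : dd (c0 f) [x, y] = f y - f x := by
  simp

theorem c0_sub (f g : X → M) : c0 (f - g) = c0 f - c0 g := by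
  funext l
  rcases l with _ | ⟨x, _ | ⟨y, l⟩⟩ <;> simp

theorem c0_add (f g : X → M) : c0 (f + g) = c0 f + c0 g := by
  funext l
  rcases l with _ | ⟨x, _ | ⟨y, l⟩⟩ <;> simp

theorem c0_smul {R : Type} [CommRing R] [Module R M] (a : R) (f : X → M) :
    c0 (a • f) = a • c0 f := by
  funext l
  rcases l with _ | ⟨x, _ | ⟨y, l⟩⟩ <;> simp

end algebra

end BBH


end

section

/-!
# BBH: small lists, germs of cochains, cocycles and coboundaries of pairs

`Z A` (as a predicate `Zr A c`): the cochain `c` vanishes on the small lists near `A`.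
`Cyc p A B c`: `c` is a cocycle of degree `p` of the pair `(A, B)`; `Bd p A B c`: `c` is a coboundary.
`CyO p V c`, `BdO p V c`: the same for the pair `(X, X \ V)`, `V` open: compact support in `V` (for compact `X`).
-/

set_option autoImplicit false
set_option linter.unusedSectionVars false
set_option linter.unusedSimpArgs false

namespace BBH

open Set Filter Topology

variable {M X Y : Type} [AddCommGroup M] [MetricSpace X] [MetricSpace Y]

/-- lists of points near `A` with small distances -/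
def Small (A : Set X) (ε : ℝ) : Set (List X) :=
  {l | (∀ x ∈ l, x ∈ Metric.thickening ε A) ∧ ∀ x ∈ l, ∀ y ∈ l, dist x y < ε}

theorem Small.cl (A : Set X) (ε : ℝ) : Cl (Small A ε) := fun _ hl _ hl' =>
  ⟨fun x hx => hl.1 x (hl' hx), fun x hx y hy => hl.2 x (hl' hx) y (hl' hy)⟩

theorem Small.mono {A B : Set X} {ε δ : ℝ} (hAB : A ⊆ B) (hε : ε ≤ δ) : Small A ε ⊆ Small B δ :=
  fun _ hl => ⟨fun x hx => Metric.thickening_mono hε _ (Metric.thickening_subset_of_subset ε hAB
    (hl.1 x hx)), fun x hx y hy => lt_of_lt_of_le (hl.2 x hx y hy) hε⟩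

/-- `c` vanishes on the small lists near `A` -/
def Zr (A : Set X) (c : Cc M X) : Prop := ∃ ε > 0, ∀ l ∈ Small A ε, c l = 0

theorem Zr.zero (A : Set X) : Zr A (0 : Cc M X) := ⟨1, one_pos, fun _ _ => rfl⟩

theorem Zr.add {A : Set X} {a b : Cc M X} (ha : Zr A a) (hb : Zr A b) : Zr A (a + b) := by
  obtain ⟨ε, hε, ha⟩ := ha
  obtain ⟨δ, hδ, hb⟩ := hb
  refine ⟨min ε δ, lt_min hε hδ, fun l hl => ?_⟩
  rw [Pi.add_apply, ha l (Small.mono Subset.rfl (min_le_left _ _) hl),
    hb l (Small.mono Subset.rfl (min_le_right _ _) hl), add_zero]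

theorem Zr.neg {A : Set X} {a : Cc M X} (ha : Zr A a) : Zr A (-a) := by
  obtain ⟨ε, hε, ha⟩ := ha
  exact ⟨ε, hε, fun l hl => by rw [Pi.neg_apply, ha l hl, neg_zero]⟩

theorem Zr.sub {A : Set X} {a b : Cc M X} (ha : Zr A a) (hb : Zr A b) : Zr A (a - b) := by
  rw [sub_eq_add_neg]
  exact ha.add hb.neg

theorem Zr.smul {R : Type} [CommRing R] [Module R M] {A : Set X} {a : Cc M X} (r : R)
    (ha : Zr A a) : Zr A (r • a) := by
  obtain ⟨ε, hε, ha⟩ := ha
  exact ⟨ε, hε, fun l hl => by rw [Pi.smul_apply, ha l hl, smul_zero]⟩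

theorem Zr.anti {A B : Set X} {c : Cc M X} (hc : Zr B c) (h : A ⊆ B) : Zr A c := by
  obtain ⟨ε, hε, hc⟩ := hc
  exact ⟨ε, hε, fun l hl => hc l (Small.mono h le_rfl hl)⟩

theorem Zr.dd {A : Set X} {c : Cc M X} (h : Zr A c) : Zr A (BBH.dd c) := by
  obtain ⟨ε, hε, hc⟩ := h
  exact ⟨ε, hε, dd_van (Small.cl A ε) hc⟩

theorem Zr.cup_left {R : Type} [CommRing R] [Module R M] {A : Set X} {c : Cc R X} (e : Cc M X)
    (h : Zr A c) : Zr A (cup c e) := by
  obtain ⟨ε, hε, hc⟩ := h
  exact ⟨ε, hε, cup_van_left (Small.cl A ε) e hc⟩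

theorem Zr.cup_right {R : Type} [CommRing R] [Module R M] {A : Set X} (c : Cc R X) {e : Cc M X}
    (h : Zr A e) : Zr A (cup c e) := by
  obtain ⟨ε, hε, he⟩ := h
  exact ⟨ε, hε, cup_van_right (Small.cl A ε) c he⟩

theorem Zr.ind {K : Set (List X)} {c : Cc M X} {A : Set X} (h : Zr A c) :
    Zr A (BBH.ind K c) := by
  obtain ⟨ε, hε, hc⟩ := h
  exact ⟨ε, hε, fun l hl => ind_van (hc l hl)⟩

/-- Cochains of some degree vanish on the empty list, so they are zero near the empty set. -/
theorem Zr.empty {p : ℤ} {c : Cc M X} (h : Dg X p c) : Zr (∅ : Set X) c := by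
  refine ⟨1, one_pos, fun l hl => ?_⟩
  rcases l with _ | ⟨x, l⟩
  · exact Dg.nil h
  · have := hl.1 x (by simp)
    simp [Metric.thickening_empty] at this

/-- gluing -/
theorem Zr.union {A B : Set X} {c : Cc M X} (hA : Zr A c) (hB : Zr B c) : Zr (A ∪ B) c := by
  obtain ⟨ε, hε, ha⟩ := hA
  obtain ⟨δ, hδ, hb⟩ := hB
  set m : ℝ := min ε δ with hm
  have hm0 : 0 < m := lt_min hε hδ
  refine ⟨m / 2, by positivity, fun l hl => ?_⟩
  have key : ∀ (S : Set X), (∃ x ∈ l, x ∈ Metric.thickening (m / 2) S) → l ∈ Small S m := by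
    rintro S ⟨x, hx, hxS⟩
    refine ⟨fun y hy => ?_, fun y hy z hz => lt_of_lt_of_le (hl.2 y hy z hz) (by linarith)⟩
    rw [Metric.mem_thickening_iff] at hxS ⊢
    obtain ⟨z, hz, hxz⟩ := hxS
    refine ⟨z, hz, ?_⟩
    have h1 := hl.2 y hy x hx
    have h2 := dist_triangle y x z
    linarith
  rcases l with _ | ⟨x, l⟩
  · exact ha [] ⟨by simp, by simp⟩
  · have hx := hl.1 x (by simp)
    rw [Metric.mem_thickening_iff] at hx
    obtain ⟨z, hz, hxz⟩ := hx
    rcases hz with hz | hz
    · exact ha _ (Small.mono Subset.rfl (min_le_left _ _) (key A ⟨x, by simp,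
        Metric.mem_thickening_iff.2 ⟨z, hz, hxz⟩⟩))
    · exact hb _ (Small.mono Subset.rfl (min_le_right _ _) (key B ⟨x, by simp,
        Metric.mem_thickening_iff.2 ⟨z, hz, hxz⟩⟩))

/-- near the intersection of two compact sets -/
theorem exists_thickening_inter {A B : Set X} (hA : IsCompact A) (hB : IsClosed B) {ε : ℝ}
    (hε : 0 < ε) : ∃ η > 0, Metric.thickening η A ∩ Metric.thickening η B ⊆
      Metric.thickening ε (A ∩ B) := by
  by_contra hcon
  push Not at hcon
  have h1 : ∀ n : ℕ, ∃ x, x ∈ Metric.thickening (1 / ((n : ℝ) + 1)) A ∧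
      x ∈ Metric.thickening (1 / ((n : ℝ) + 1)) B ∧ x ∉ Metric.thickening ε (A ∩ B) := by
    intro n
    have := hcon (1 / ((n : ℝ) + 1)) (by positivity)
    rw [not_subset] at this
    obtain ⟨x, hx, hx'⟩ := this
    exact ⟨x, hx.1, hx.2, hx'⟩
  choose x hxA hxB hx using h1
  have h2 : ∀ n : ℕ, ∃ a ∈ A, dist (x n) a < 1 / ((n : ℝ) + 1) := fun n =>
    Metric.mem_thickening_iff.1 (hxA n)
  have h3 : ∀ n : ℕ, ∃ b ∈ B, dist (x n) b < 1 / ((n : ℝ) + 1) := fun n =>
    Metric.mem_thickening_iff.1 (hxB n)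
  choose a haA ha using h2
  choose b hbB hb using h3
  obtain ⟨y, hyA, φ, hφ, hlim⟩ := hA.tendsto_subseq haA
  have hz : Tendsto (fun n : ℕ => 1 / ((n : ℝ) + 1)) atTop (𝓝 0) :=
    tendsto_one_div_add_atTop_nhds_zero_nat
  have hz' : Tendsto (fun n : ℕ => 1 / ((φ n : ℝ) + 1)) atTop (𝓝 0) :=
    hz.comp hφ.tendsto_atTop
  have hxlim : Tendsto (fun n => x (φ n)) atTop (𝓝 y) := by
    rw [tendsto_iff_dist_tendsto_zero]
    have h5 : Tendsto (fun n => 1 / ((φ n : ℝ) + 1) + dist (a (φ n)) y) atTop (𝓝 0) := by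
      have := hz'.add (tendsto_iff_dist_tendsto_zero.1 hlim)
      simpa using this
    refine squeeze_zero (fun _ => dist_nonneg) (fun n => ?_) h5
    have := dist_triangle (x (φ n)) (a (φ n)) y
    have := ha (φ n)
    linarith
  have hblim : Tendsto (fun n => b (φ n)) atTop (𝓝 y) := by
    rw [tendsto_iff_dist_tendsto_zero]
    have h5 : Tendsto (fun n => 1 / ((φ n : ℝ) + 1) + dist (x (φ n)) y) atTop (𝓝 0) := by
      have := hz'.add (tendsto_iff_dist_tendsto_zero.1 hxlim)
      simpa using this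
    refine squeeze_zero (fun _ => dist_nonneg) (fun n => ?_) h5
    have := dist_triangle (b (φ n)) (x (φ n)) y
    have h6 := hb (φ n)
    rw [dist_comm] at h6
    linarith
  have hyB : y ∈ B := hB.mem_of_tendsto hblim (Eventually.of_forall fun n => hbB _)
  have h7 : ∀ᶠ n in atTop, dist (x (φ n)) y < ε := by
    have := Metric.tendsto_nhds.1 hxlim ε hε
    exact this
  obtain ⟨n, hn⟩ := h7.exists
  exact hx (φ n) (Metric.mem_thickening_iff.2 ⟨y, ⟨hyA, hyB⟩, hn⟩)

/-- splitting: a cochain that vanishes near `A ∩ B` is the sum of a cochain that vanishes near `A` and one that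
vanishes near `B`; the splitting keeps every kind of vanishing -/
theorem Zr.inter {A B : Set X} (hA : IsCompact A) (hB : IsClosed B) {c : Cc M X}
    (h : Zr (A ∩ B) c) : ∃ K : Set (List X), Zr A (BBH.ind K c) ∧ Zr B (BBH.ind Kᶜ c) := by
  obtain ⟨ε, hε, hc⟩ := h
  obtain ⟨η, hη, hsub⟩ := exists_thickening_inter hA hB hε
  refine ⟨{l | ¬ ∀ x ∈ l, x ∈ Metric.thickening η A}, ⟨η, hη, fun l hl => ?_⟩,
    ⟨min η ε, lt_min hη hε, fun l hl => ?_⟩⟩
  · exact ind_of_notMem (fun h => h hl.1)
  · by_cases h1 : ∀ x ∈ l, x ∈ Metric.thickening η A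
    · refine ind_van (hc l ⟨fun x hx => hsub ⟨h1 x hx, ?_⟩, fun x hx y hy =>
        lt_of_lt_of_le (hl.2 x hx y hy) (min_le_right _ _)⟩)
      exact Metric.thickening_mono (min_le_left _ _) _ (hl.1 x hx)
    · exact ind_of_notMem (fun h => h h1)

/-- continuity: a cochain that vanishes near `A` vanishes near every `B` in a neighbourhood of `A` -/
theorem Zr.nhds {A : Set X} {c : Cc M X} (h : Zr A c) :
    ∃ r > 0, ∀ B ⊆ Metric.thickening r A, Zr B c := by
  obtain ⟨ε, hε, hc⟩ := h
  refine ⟨ε / 2, by positivity, fun B hB => ⟨ε / 2, by positivity, fun l hl => hc l ⟨?_, ?_⟩⟩⟩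
  · intro x hx
    obtain ⟨y, hy, hxy⟩ := Metric.mem_thickening_iff.1 (hl.1 x hx)
    obtain ⟨z, hz, hyz⟩ := Metric.mem_thickening_iff.1 (hB hy)
    refine Metric.mem_thickening_iff.2 ⟨z, hz, ?_⟩
    have := dist_triangle x y z
    linarith
  · intro x hx y hy
    have := hl.2 x hx y hy
    linarith

/-! ### Cocycles and coboundaries of pairs -/

/-- `c` is a cocycle of degree `p` of the pair `(A, B)` -/
structure Cyc (p : ℤ) (A B : Set X) (c : Cc M X) : Prop where
  deg : Dg X p c
  rel : Zr B c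
  cyc : Zr A (dd c)

/-- `c` is a coboundary of degree `p` of the pair `(A, B)` -/
def Bd (p : ℤ) (A B : Set X) (c : Cc M X) : Prop :=
  ∃ b : Cc M X, Dg X (p - 1) b ∧ Zr B b ∧ Zr A (c - dd b)

/-- `H^p(A, B; M) = 0` -/
def Van (M : Type) [AddCommGroup M] (p : ℤ) (A B : Set X) : Prop :=
  ∀ c : Cc M X, Cyc p A B c → Bd p A B c

theorem Cyc.zero {p : ℤ} {A B : Set X} : Cyc p A B (0 : Cc M X) :=
  ⟨Dg.zero, Zr.zero _, by rw [dd_zero]; exact Zr.zero _⟩

theorem Cyc.add {p : ℤ} {A B : Set X} {c c' : Cc M X} (h : Cyc p A B c) (h' : Cyc p A B c') :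
    Cyc p A B (c + c') :=
  ⟨h.deg.add h'.deg, h.rel.add h'.rel, by rw [dd_add]; exact h.cyc.add h'.cyc⟩

theorem Cyc.neg {p : ℤ} {A B : Set X} {c : Cc M X} (h : Cyc p A B c) : Cyc p A B (-c) :=
  ⟨h.deg.neg, h.rel.neg, by rw [dd_neg]; exact h.cyc.neg⟩

theorem Cyc.sub {p : ℤ} {A B : Set X} {c c' : Cc M X} (h : Cyc p A B c) (h' : Cyc p A B c') :
    Cyc p A B (c - c') :=
  ⟨h.deg.sub h'.deg, h.rel.sub h'.rel, by rw [dd_sub]; exact h.cyc.sub h'.cyc⟩

theorem Cyc.smul {R : Type} [CommRing R] [Module R M] {p : ℤ} {A B : Set X} {c : Cc M X} (a : R)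
    (h : Cyc p A B c) : Cyc p A B (a • c) :=
  ⟨h.deg.smul a, h.rel.smul a, by rw [dd_smul]; exact h.cyc.smul a⟩

theorem Cyc.mono {p : ℤ} {A B A' B' : Set X} {c : Cc M X} (h : Cyc p A B c) (hA : A' ⊆ A)
    (hB : B' ⊆ B) : Cyc p A' B' c := ⟨h.deg, h.rel.anti hB, h.cyc.anti hA⟩

theorem Bd.mono {p : ℤ} {A B A' B' : Set X} {c : Cc M X} (h : Bd p A B c) (hA : A' ⊆ A)
    (hB : B' ⊆ B) : Bd p A' B' c := by
  obtain ⟨b, h1, h2, h3⟩ := h
  exact ⟨b, h1, h2.anti hB, h3.anti hA⟩

theorem Bd.zero {p : ℤ} {A B : Set X} : Bd p A B (0 : Cc M X) :=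
  ⟨0, Dg.zero, Zr.zero _, by rw [dd_zero, sub_zero]; exact Zr.zero _⟩

theorem Bd.add {p : ℤ} {A B : Set X} {c c' : Cc M X} (h : Bd p A B c) (h' : Bd p A B c') :
    Bd p A B (c + c') := by
  obtain ⟨b, h1, h2, h3⟩ := h
  obtain ⟨b', h1', h2', h3'⟩ := h'
  refine ⟨b + b', h1.add h1', h2.add h2', ?_⟩
  rw [dd_add, add_sub_add_comm]
  exact h3.add h3'

theorem Bd.neg {p : ℤ} {A B : Set X} {c : Cc M X} (h : Bd p A B c) : Bd p A B (-c) := by
  obtain ⟨b, h1, h2, h3⟩ := h
  refine ⟨-b, h1.neg, h2.neg, ?_⟩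
  have h4 := h3.neg
  rw [neg_sub'] at h4
  rwa [dd_neg]

theorem Bd.sub {p : ℤ} {A B : Set X} {c c' : Cc M X} (h : Bd p A B c) (h' : Bd p A B c') :
    Bd p A B (c - c') := by
  rw [sub_eq_add_neg]
  exact h.add h'.neg

theorem Bd.smul {R : Type} [CommRing R] [Module R M] {p : ℤ} {A B : Set X} {c : Cc M X} (a : R)
    (h : Bd p A B c) : Bd p A B (a • c) := by
  obtain ⟨b, h1, h2, h3⟩ := h
  refine ⟨a • b, h1.smul a, h2.smul a, ?_⟩
  rw [dd_smul, ← smul_sub]
  exact h3.smul a

/-- cochains that vanish near `A` are coboundaries -/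
theorem Bd.of_Zr {p : ℤ} {A B : Set X} {c : Cc M X} (h : Zr A c) : Bd p A B c :=
  ⟨0, Dg.zero, Zr.zero _, by rw [dd_zero, sub_zero]; exact h⟩

theorem Bd.of_dd {p : ℤ} {A B : Set X} {b : Cc M X} (h : Dg X (p - 1) b) (hb : Zr B b) :
    Bd p A B (dd b) := ⟨b, h, hb, by rw [sub_self]; exact Zr.zero _⟩

/-- a coboundary is a cocycle -/
theorem Bd.cyc {p : ℤ} {A B : Set X} {c : Cc M X} (hd : Dg X p c) (hB : Zr B c)
    (h : Bd p A B c) : Cyc p A B c := by
  obtain ⟨b, h1, h2, h3⟩ := h
  refine ⟨hd, hB, ?_⟩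
  have := h3.dd
  rwa [dd_sub, dd_dd, sub_zero] at this

theorem Bd.trans {p : ℤ} {A B : Set X} {a b c : Cc M X} (h : Bd p A B (a - b))
    (h' : Bd p A B (b - c)) : Bd p A B (a - c) := by
  have := h.add h'
  rwa [sub_add_sub_cancel] at this

theorem Bd.symm {p : ℤ} {A B : Set X} {a b : Cc M X} (h : Bd p A B (a - b)) :
    Bd p A B (b - a) := by
  have := h.neg
  rwa [neg_sub] at this

theorem Bd.of_sub {p : ℤ} {A B : Set X} {a b : Cc M X} (h : Bd p A B (a - b))
    (h' : Bd p A B b) : Bd p A B a := by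
  have := h.add h'
  rwa [sub_add_cancel] at this

/-- negative degrees -/
theorem Van.neg {p : ℤ} (hp : p < 0) (A B : Set X) : Van M p A B := by
  intro c hc
  rw [hc.deg.eq_zero hp]
  exact Bd.zero

theorem Van.empty (p : ℤ) (B : Set X) : Van M p (∅ : Set X) B := by
  intro c hc
  exact Bd.of_Zr (Zr.empty hc.deg)

theorem Van.self (p : ℤ) (A : Set X) : Van M p A A := by
  intro c hc
  exact Bd.of_Zr hc.rel

/-! ### Long exact sequence of a triple `C ⊆ B ⊆ A` -/

section les

variable {A B C : Set X} {p : ℤ} {c : Cc M X}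

/-- exactness at `H^p(A, C)` -/
theorem les_mid (h : Cyc p A C c) (hb : Bd p B C c) :
    ∃ c' : Cc M X, Cyc p A B c' ∧ Bd p A C (c - c') := by
  obtain ⟨b, h1, h2, h3⟩ := hb
  refine ⟨c - dd b, ⟨h.deg.sub h1.dd', h3, ?_⟩, ?_⟩
  · rw [dd_sub, dd_dd, sub_zero]
    exact h.cyc
  · rw [sub_sub_cancel]
    exact Bd.of_dd h1 h2

/-- the connecting homomorphism is the coboundary -/
theorem les_conn (h : Cyc p B C c) : Cyc (p + 1) A B (dd c) :=
  ⟨h.deg.dd, h.cyc, by rw [dd_dd]; exact Zr.zero _⟩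

theorem les_conn_bd (hd : Dg X p c) (h : Bd p B C c) : Bd (p + 1) A B (dd c) := by
  obtain ⟨b, h1, h2, h3⟩ := h
  have h4 : dd c = dd (c - dd b) := by rw [dd_sub, dd_dd, sub_zero]
  rw [h4]
  refine Bd.of_dd ?_ h3
  rw [add_sub_cancel_right]
  exact hd.sub h1.dd'

/-- exactness at `H^p(B, C)` -/
theorem les_right (hBC : C ⊆ B) (h : Cyc p B C c) (hb : Bd (p + 1) A B (dd c)) :
    ∃ c' : Cc M X, Cyc p A C c' ∧ Bd p B C (c - c') := by
  obtain ⟨b, h1, h2, h3⟩ := hb
  rw [add_sub_cancel_right] at h1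
  refine ⟨c - b, ⟨h.deg.sub h1, h.rel.sub (h2.anti hBC), ?_⟩, ?_⟩
  · rw [dd_sub]
    exact h3
  · rw [sub_sub_cancel]
    exact Bd.of_Zr h2

/-- exactness at `H^{p+1}(A, B)` -/
theorem les_left (hAB : B ⊆ A) (h : Cyc (p + 1) A B c) (hb : Bd (p + 1) A C c) :
    ∃ b : Cc M X, Cyc p B C b ∧ Bd (p + 1) A B (c - dd b) := by
  obtain ⟨b, h1, h2, h3⟩ := hb
  rw [add_sub_cancel_right] at h1
  refine ⟨b, ⟨h1, h2, ?_⟩, Bd.of_Zr h3⟩
  have h4 := h.rel.sub (h3.anti hAB)
  rwa [sub_sub_cancel] at h4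

end les

/-! ### Open sets: compact supports -/

/-- `c` is a cocycle of degree `p` with compact support in the open set `V` (`X` compact) -/
def CyO (p : ℤ) (V : Set X) (c : Cc M X) : Prop := Cyc p univ Vᶜ c

/-- `c` is a coboundary in this sense -/
def BdO (p : ℤ) (V : Set X) (c : Cc M X) : Prop := Bd p univ Vᶜ c

/-- `H^p_c(V; M) = 0` -/
def VanO (M : Type) [AddCommGroup M] (p : ℤ) (V : Set X) : Prop :=
  ∀ c : Cc M X, CyO p V c → BdO p V c

theorem CyO.mono {p : ℤ} {V W : Set X} {c : Cc M X} (h : CyO p V c) (hV : V ⊆ W) :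
    CyO p W c := Cyc.mono h Subset.rfl (compl_subset_compl.2 hV)

theorem BdO.mono {p : ℤ} {V W : Set X} {c : Cc M X} (h : BdO p V c) (hV : V ⊆ W) :
    BdO p W c := Bd.mono h Subset.rfl (compl_subset_compl.2 hV)

end BBH


end

section

/-!
# BBH: the cohomology modules

`H R M p A B` is the `R`-module `H^p(A, B; M)`; `cls c h` is the class of the cocycle `c`; `res` is the restriction
to a smaller pair.  `HO R M p V` is `H^p_c(V; M)` for an open set `V` and `ext` the extension by zero.
-/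

set_option autoImplicit false
set_option linter.unusedSectionVars false

namespace BBH

open Set Topology

section

variable (R M : Type) {X : Type} [CommRing R] [AddCommGroup M] [Module R M] [MetricSpace X]

/-- cocycles -/
def ZZ (p : ℤ) (A B : Set X) : Submodule R (Cc M X) where
  carrier := {c | Cyc p A B c}
  zero_mem' := Cyc.zero
  add_mem' := fun h h' => Cyc.add h h'
  smul_mem' := fun a _ h => Cyc.smul a h

/-- coboundaries, as a submodule of the cocycles -/
def BB (p : ℤ) (A B : Set X) : Submodule R (ZZ R M p A B) where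
  carrier := {c | Bd p A B (c : Cc M X)}
  zero_mem' := Bd.zero
  add_mem' := fun h h' => Bd.add h h'
  smul_mem' := fun a _ h => Bd.smul a h

/-- `H^p(A, B; M)` -/
abbrev H (p : ℤ) (A B : Set X) : Type := (ZZ R M p A B) ⧸ (BB R M p A B)

/-- restriction of cocycles -/
def resZ {p : ℤ} {A B A' B' : Set X} (hA : A' ⊆ A) (hB : B' ⊆ B) :
    ZZ R M p A B →ₗ[R] ZZ R M p A' B' :=
  Submodule.inclusion (fun _ h => Cyc.mono h hA hB)

/-- restriction to a smaller pair -/
def res {p : ℤ} {A B A' B' : Set X} (hA : A' ⊆ A) (hB : B' ⊆ B) :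
    H R M p A B →ₗ[R] H R M p A' B' :=
  Submodule.mapQ _ _ (resZ R M hA hB) (fun _ h => Bd.mono h hA hB)

/-- the class of a cocycle -/
def cls {M X : Type} [AddCommGroup M] [Module R M] [MetricSpace X] {p : ℤ} {A B : Set X}
    (c : Cc M X) (h : Cyc p A B c) : H R M p A B :=
  Submodule.Quotient.mk ⟨c, h⟩

end

section

variable {R M X : Type} [CommRing R] [AddCommGroup M] [Module R M] [MetricSpace X]
  {p : ℤ} {A B A' B' A'' B'' : Set X}

theorem cls_surj (a : H R M p A B) : ∃ (c : Cc M X) (h : Cyc p A B c), cls R c h = a := by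
  obtain ⟨⟨c, h⟩, rfl⟩ := Submodule.Quotient.mk_surjective _ a
  exact ⟨c, h, rfl⟩

theorem cls_eq_zero {c : Cc M X} (h : Cyc p A B c) : cls R c h = 0 ↔ Bd p A B c := by
  rw [cls, Submodule.Quotient.mk_eq_zero]
  exact Iff.rfl

theorem cls_eq {c c' : Cc M X} (h : Cyc p A B c) (h' : Cyc p A B c') :
    cls R c h = cls R c' h' ↔ Bd p A B (c - c') := by
  rw [cls, cls, Submodule.Quotient.eq]
  exact Iff.rfl

theorem cls_add {c c' : Cc M X} (h : Cyc p A B c) (h' : Cyc p A B c') :
    cls R (c + c') (h.add h') = cls R c h + cls R c' h' := rfl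

theorem cls_sub {c c' : Cc M X} (h : Cyc p A B c) (h' : Cyc p A B c') :
    cls R (c - c') (h.sub h') = cls R c h - cls R c' h' := rfl

theorem cls_smul {c : Cc M X} (a : R) (h : Cyc p A B c) :
    cls R (a • c) (h.smul a) = a • cls R c h := rfl

@[simp] theorem res_cls {c : Cc M X} (h : Cyc p A B c) (hA : A' ⊆ A) (hB : B' ⊆ B) :
    res R M hA hB (cls R c h) = cls R c (h.mono hA hB) := rfl

theorem res_res (hA : A' ⊆ A) (hB : B' ⊆ B) (hA' : A'' ⊆ A') (hB' : B'' ⊆ B')
    (a : H R M p A B) :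
    res R M hA' hB' (res R M hA hB a) = res R M (hA'.trans hA) (hB'.trans hB) a := by
  obtain ⟨c, h, rfl⟩ := cls_surj a
  rfl

theorem res_self (a : H R M p A B) : res R M Subset.rfl Subset.rfl a = a := by
  obtain ⟨c, h, rfl⟩ := cls_surj a
  rfl

/-- linear maps out of the cohomology -/
theorem exists_lift {N : Type} [AddCommGroup N] [Module R N] (f : ZZ R M p A B →ₗ[R] N)
    (hf : ∀ c : ZZ R M p A B, Bd p A B (c : Cc M X) → f c = 0) :
    ∃ F : H R M p A B →ₗ[R] N, ∀ c (h : Cyc p A B c), F (cls R c h) = f ⟨c, h⟩ :=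
  ⟨Submodule.liftQ _ f (fun c hc => hf c hc), fun _ _ => rfl⟩

variable (R M) in
/-- `H^p_c(V; M)` -/
abbrev HO (p : ℤ) (V : Set X) : Type := H R M p univ Vᶜ

variable (R M) in
/-- extension by zero -/
def ext {p : ℤ} {V W : Set X} (h : V ⊆ W) : HO R M p V →ₗ[R] HO R M p W :=
  res R M Subset.rfl (compl_subset_compl.2 h)

@[simp] theorem ext_cls {V W : Set X} {c : Cc M X} (h : CyO p V c) (hV : V ⊆ W) :
    ext R M hV (cls R c h) = cls R c (h.mono hV) := rfl

theorem ext_ext {V W U : Set X} (h : V ⊆ W) (h' : W ⊆ U) (a : HO R M p V) :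
    ext R M h' (ext R M h a) = ext R M (h.trans h') a := by
  obtain ⟨c, h, rfl⟩ := cls_surj a
  rfl

theorem ext_self {V : Set X} (a : HO R M p V) : ext R M Subset.rfl a = a := by
  obtain ⟨c, h, rfl⟩ := cls_surj a
  rfl

/-- a linear functional `s` on cochains vanishes on the coboundaries in `V`: it is a functional on `H^p_c(V)`
(the same `s` is its restriction to smaller open sets) -/
def Kil {k X : Type} [Field k] [MetricSpace X] (p : ℤ) (V : Set X) (s : Cc k X →ₗ[k] k) : Prop :=
  ∀ c, CyO p V c → BdO p V c → s c = 0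

/-- the germ of the functional `s` at `x` is zero -/
def Zg {k X : Type} [Field k] [MetricSpace X] (p : ℤ) (s : Cc k X →ₗ[k] k) (x : X) : Prop :=
  ∃ W : Set X, IsOpen W ∧ x ∈ W ∧ ∀ c, CyO p W c → s c = 0

theorem Kil.mono {k X : Type} [Field k] [MetricSpace X] {p : ℤ} {V W : Set X}
    {s : Cc k X →ₗ[k] k} (h : Kil p W s) (hV : V ⊆ W) : Kil p V s :=
  fun c hc hb => h c (hc.mono hV) (hb.mono hV)

end

end BBH


end

section

/-!
# BBH: maps and homotopies

`PMap f A A' B B'`: `f` is uniformly continuous at the points of `A` and maps `(A, A')` to `(B, B')`; `A'` need not be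
closed.  (Adapted from `Pool/Agent/VC/MapX.lean`.)
-/

set_option autoImplicit false
set_option linter.unusedSectionVars false
set_option linter.unusedVariables false

namespace BBH

open Set Filter Topology

variable {M X Y V : Type} [AddCommGroup M]
variable [MetricSpace X] [MetricSpace Y] [MetricSpace V]

/-! ### Uniform continuity at the points of a compact set -/

/-- Uniform continuity of `f` at the points of `A`. -/
def UAt (f : X → Y) (A : Set X) : Prop :=
  ∀ ε > 0, ∃ δ > 0, ∀ a ∈ A, ∀ x, dist x a < δ → dist (f x) (f a) < ε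

theorem UAt.mono {f : X → Y} {A A' : Set X} (h : UAt f A) (hA : A' ⊆ A) : UAt f A' := by
  intro ε hε
  obtain ⟨δ, hδ, h'⟩ := h ε hε
  exact ⟨δ, hδ, fun a ha => h' a (hA ha)⟩

theorem uAt_of_CA {f : X → Y} {A : Set X} (hA : IsCompact A)
    (h : ∀ x ∈ A, ContinuousAt f x) : UAt f A := by
  intro ε hε
  have h1 := hA.uniformContinuousAt_of_continuousAt f h (Metric.dist_mem_uniformity hε)
  obtain ⟨δ, hδ, h2⟩ := Metric.mem_uniformity_dist.1 h1
  refine ⟨δ, hδ, fun a ha x hx => ?_⟩
  rw [dist_comm] at hx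
  have h3 : dist (f a) (f x) < ε := h2 hx ha
  rwa [dist_comm] at h3

/-- Two functions that are equal on `A` map small lists near `A` to joint small lists. -/
theorem UAt.small2 {f g : X → Y} {A : Set X} {B : Set Y} (hf : UAt f A) (hg : UAt g A)
    (hfg : EqOn f g A) (hB : MapsTo f A B) {ε : ℝ} (hε : 0 < ε) :
    ∃ δ > 0, ∀ l ∈ Small A δ, l.map f ++ l.map g ∈ Small B ε := by
  obtain ⟨δ₁, h1, h1'⟩ := hf (ε / 2) (by positivity)
  obtain ⟨δ₂, h2, h2'⟩ := hg (ε / 2) (by positivity)
  have hm : 0 < min δ₁ δ₂ := lt_min h1 h2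
  refine ⟨min δ₁ δ₂ / 2, by positivity, fun l hl => ?_⟩
  -- every member of the joint list is near `f a`, for any `a ∈ A` near a member of `l`
  have key : ∀ x ∈ l, ∀ a ∈ A, dist x a < min δ₁ δ₂ / 2 → ∀ y ∈ l,
      dist (f y) (f a) < ε / 2 ∧ dist (g y) (f a) < ε / 2 := by
    intro x hx a ha hxa y hy
    have h3 : dist y a < min δ₁ δ₂ := by
      have := dist_triangle y x a
      have := hl.2 y hy x hx
      linarith
    refine ⟨h1' a ha y (lt_of_lt_of_le h3 (min_le_left _ _)), ?_⟩
    rw [hfg ha]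
    exact h2' a ha y (lt_of_lt_of_le h3 (min_le_right _ _))
  have mem : ∀ y ∈ l.map f ++ l.map g, ∃ x ∈ l, y = f x ∨ y = g x := by
    intro y hy
    rcases List.mem_append.1 hy with h | h
    · obtain ⟨x, hx, rfl⟩ := List.mem_map.1 h
      exact ⟨x, hx, Or.inl rfl⟩
    · obtain ⟨x, hx, rfl⟩ := List.mem_map.1 h
      exact ⟨x, hx, Or.inr rfl⟩
  refine ⟨fun y hy => ?_, fun y hy z hz => ?_⟩
  · obtain ⟨x, hx, h⟩ := mem y hy
    obtain ⟨a, ha, hxa⟩ := Metric.mem_thickening_iff.1 (hl.1 x hx)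
    have h3 := key x hx a ha hxa x hx
    refine Metric.mem_thickening_iff.2 ⟨f a, hB ha, ?_⟩
    rcases h with rfl | rfl
    · linarith [h3.1]
    · linarith [h3.2]
  · obtain ⟨x, hx, h⟩ := mem y hy
    obtain ⟨x', hx', h'⟩ := mem z hz
    obtain ⟨a, ha, hxa⟩ := Metric.mem_thickening_iff.1 (hl.1 x hx)
    have h3 := key x hx a ha hxa x hx
    have h4 := key x hx a ha hxa x' hx'
    have h5 : dist y (f a) < ε / 2 := by
      rcases h with rfl | rfl
      · exact h3.1
      · exact h3.2
    have h6 : dist z (f a) < ε / 2 := by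
      rcases h' with rfl | rfl
      · exact h4.1
      · exact h4.2
    have := dist_triangle_right y z (f a)
    linarith

theorem UAt.small {f : X → Y} {A : Set X} {B : Set Y} (hf : UAt f A) (hB : MapsTo f A B)
    {ε : ℝ} (hε : 0 < ε) : ∃ δ > 0, ∀ l ∈ Small A δ, l.map f ∈ Small B ε := by
  obtain ⟨δ, hδ, h⟩ := hf.small2 hf (fun _ _ => rfl) hB hε
  exact ⟨δ, hδ, fun l hl => Small.cl B ε _ (h l hl) _ (List.subset_append_left _ _)⟩

theorem UAt.pull_Z {f : X → Y} {A : Set X} {B : Set Y} (hf : UAt f A) (hB : MapsTo f A B)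
    {c : Cc M Y} (hc : Zr B c) : Zr A (pull f c) := by
  obtain ⟨ε, hε, hc⟩ := hc
  obtain ⟨δ, hδ, h⟩ := hf.small hB hε
  exact ⟨δ, hδ, fun l hl => hc _ (h l hl)⟩

theorem UAt.pr_Z {f g : X → Y} {A : Set X} {B : Set Y} (hf : UAt f A) (hg : UAt g A)
    (hfg : EqOn f g A) (hB : MapsTo f A B) {c : Cc M Y} (hc : Zr B c) : Zr A (pr f g c) := by
  obtain ⟨ε, hε, hc⟩ := hc
  obtain ⟨δ, hδ, h⟩ := hf.small2 hg hfg hB hε
  exact ⟨δ, hδ, fun l hl => pr_van f g fun l' hl' => hc _ (Small.cl B ε _ (h l hl) _ hl')⟩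

/-! ### Induced maps -/

/-- `f` is continuous at the points of the compact set `A` and maps `(A, A')` to `(B, B')`. -/
structure PMap (f : X → Y) (A A' : Set X) (B B' : Set Y) : Prop where
  uat : UAt f A
  sub : A' ⊆ A
  maps : MapsTo f A B
  maps' : MapsTo f A' B'

theorem PMap.of_CA {f : X → Y} {A A' : Set X} {B B' : Set Y} (hA : IsCompact A)
    (hf : ∀ x ∈ A, ContinuousAt f x) (hs : A' ⊆ A) (h : MapsTo f A B) (h' : MapsTo f A' B') : PMap f A A' B B' :=
  ⟨uAt_of_CA hA hf, hs, h, h'⟩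

theorem PMap.of_continuous {f : X → Y} {A A' : Set X} {B B' : Set Y} (hA : IsCompact A)
    (hf : Continuous f) (hs : A' ⊆ A) (h : MapsTo f A B) (h' : MapsTo f A' B') :
    PMap f A A' B B' := PMap.of_CA hA (fun _ _ => hf.continuousAt) hs h h'

theorem UAt.comp {f : X → Y} {g : Y → V} {A : Set X} {B : Set Y} (hf : UAt f A) (hg : UAt g B)
    (h : MapsTo f A B) : UAt (g ∘ f) A := by
  intro ε hε
  obtain ⟨δ, hδ, h1⟩ := hg ε hε
  obtain ⟨δ', hδ', h2⟩ := hf δ hδ
  exact ⟨δ', hδ', fun a ha x hx => h1 _ (h ha) _ (h2 a ha x hx)⟩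

theorem PMap.comp {f : X → Y} {g : Y → V} {A A' : Set X} {B B' : Set Y} {C C' : Set V}
    (hf : PMap f A A' B B') (hg : PMap g B B' C C') : PMap (g ∘ f) A A' C C' :=
  ⟨hf.uat.comp hg.uat hf.maps, hf.sub, hg.maps.comp hf.maps, hg.maps'.comp hf.maps'⟩

theorem UAt.id (A : Set X) : UAt (id : X → X) A := fun ε hε => ⟨ε, hε, fun _ _ _ h => h⟩

theorem PMap.id {A A' : Set X} (h : A' ⊆ A) : PMap (id : X → X) A A' A A' :=
  ⟨UAt.id A, h, fun _ h => h, fun _ h => h⟩

theorem cyc_pull {p : ℤ} {f : X → Y} {A A' : Set X} {B B' : Set Y} {c : Cc M Y}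
    (hf : PMap f A A' B B') (h : Cyc p B B' c) : Cyc p A A' (pull f c) :=
  ⟨h.deg.pull f, (hf.uat.mono hf.sub).pull_Z hf.maps' h.rel, by
    rw [dd_pull]; exact hf.uat.pull_Z hf.maps h.cyc⟩

theorem bd_pull {p : ℤ} {f : X → Y} {A A' : Set X} {B B' : Set Y} {c : Cc M Y}
    (hf : PMap f A A' B B') (h : Bd p B B' c) : Bd p A A' (pull f c) := by
  obtain ⟨b, h1, h2, h3⟩ := h
  refine ⟨pull f b, h1.pull f, (hf.uat.mono hf.sub).pull_Z hf.maps' h2, ?_⟩
  rw [dd_pull, ← pull_sub]
  exact hf.uat.pull_Z hf.maps h3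

/-- Contiguity at a fixed scale. -/
theorem bd_of_contig {p : ℤ} {f g : X → Y} {A A' : Set X} {B B' : Set Y} {c : Cc M Y} {ε δ : ℝ}
    (hd : Dg Y p c) (hc' : ∀ l ∈ Small B' ε, c l = 0) (hc : ∀ l ∈ Small B ε, dd c l = 0)
    (hδ : 0 < δ) (h : ∀ l ∈ Small A δ, l.map f ++ l.map g ∈ Small B ε)
    (h' : ∀ l ∈ Small A' δ, l.map f ++ l.map g ∈ Small B' ε) :
    Bd p A A' (pull g c - pull f c) := by
  refine ⟨pr f g c, hd.pr f g, ⟨δ, hδ, fun l hl => pr_van f g fun l' hl' =>
    hc' _ (Small.cl B' ε _ (h' l hl) _ hl')⟩, δ, hδ, fun l hl => ?_⟩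
  have h1 := prism_apply f g c l
  have h2 : pr f g (dd c) l = 0 := pr_van f g fun l' hl' =>
    hc _ (Small.cl B ε _ (h l hl) _ hl')
  rw [h2, add_zero] at h1
  simp only [Pi.sub_apply, pull_apply]
  rw [h1]
  exact sub_self _

/-- The induced map depends only on the restriction to `A`. -/
theorem bd_of_eqOn {p : ℤ} {f g : X → Y} {A A' : Set X} {B B' : Set Y} {c : Cc M Y}
    (hf : PMap f A A' B B') (hg : PMap g A A' B B') (hfg : EqOn f g A) (hc : Cyc p B B' c) :
    Bd p A A' (pull g c - pull f c) := by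
  obtain ⟨ε₁, h1, h1'⟩ := hc.rel
  obtain ⟨ε₂, h2, h2'⟩ := hc.cyc
  have hm : 0 < min ε₁ ε₂ := lt_min h1 h2
  obtain ⟨δ₁, h3, h3'⟩ := hf.uat.small2 hg.uat hfg hf.maps hm
  obtain ⟨δ₂, h4, h4'⟩ := (hf.uat.mono hf.sub).small2 (hg.uat.mono hf.sub) (hfg.mono hf.sub)
    hf.maps' hm
  refine bd_of_contig (ε := min ε₁ ε₂) (δ := min δ₁ δ₂) hc.deg
    (fun l hl => h1' l (Small.mono Subset.rfl (min_le_left _ _) hl))
    (fun l hl => h2' l (Small.mono Subset.rfl (min_le_right _ _) hl)) (lt_min h3 h4)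
    (fun l hl => h3' l (Small.mono Subset.rfl (min_le_left _ _) hl))
    (fun l hl => h4' l (Small.mono Subset.rfl (min_le_right _ _) hl))

/-! ### Homotopies -/

/-- Homotopy invariance. `F` is continuous at the points of `A × [0,1]`. -/
theorem bd_of_homotopy {p : ℤ} {F : X × ℝ → Y} {A A' : Set X} {B B' : Set Y} {c : Cc M Y}
    (hF : UAt F (A ×ˢ Icc (0 : ℝ) 1)) (hs : A' ⊆ A)
    (hB : MapsTo F (A ×ˢ Icc (0 : ℝ) 1) B) (hB' : MapsTo F (A' ×ˢ Icc (0 : ℝ) 1) B')
    (hc : Cyc p B B' c) :
    Bd p A A' (pull (fun x => F (x, 1)) c - pull (fun x => F (x, 0)) c) := by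
  obtain ⟨ε₁, h1, h1'⟩ := hc.rel
  obtain ⟨ε₂, h2, h2'⟩ := hc.cyc
  have hm : 0 < min ε₁ ε₂ := lt_min h1 h2
  obtain ⟨δ, hδ, h3⟩ := hF (min ε₁ ε₂ / 2) (by positivity)
  obtain ⟨n, hn⟩ := exists_nat_gt (1 / δ)
  have hn0 : (0 : ℝ) < n := lt_trans (by positivity) hn
  have hn1 : 1 / (n : ℝ) < δ := by
    rw [div_lt_iff₀ hn0]
    rw [div_lt_iff₀ hδ] at hn
    linarith
  -- the points near `A`
  have key : ∀ (S : Set X), S ⊆ A → ∀ (T : Set Y), MapsTo F (S ×ˢ Icc (0 : ℝ) 1) T →
      ∀ k : ℕ, k + 1 ≤ n → ∀ l ∈ Small S (δ / 2),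
      l.map (fun x => F (x, (k : ℝ) / n)) ++ l.map (fun x => F (x, ((k + 1 : ℕ) : ℝ) / n)) ∈
        Small T (min ε₁ ε₂) := by
    intro S hS T hT k hk l hl
    have hk0 : (0 : ℝ) ≤ (k : ℝ) / n := by positivity
    have hk2 : ((k + 1 : ℕ) : ℝ) / n ≤ 1 := by
      rw [div_le_one hn0]
      exact_mod_cast hk
    have hk3 : ((k + 1 : ℕ) : ℝ) / n = (k : ℝ) / n + 1 / n := by
      push_cast
      ring
    have hk1 : (k : ℝ) / n ≤ 1 := by
      have : 0 < 1 / (n : ℝ) := by positivity
      linarith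
    have near : ∀ x ∈ l, ∀ a ∈ S, dist x a < δ / 2 → ∀ y ∈ l,
        dist (F (y, (k : ℝ) / n)) (F (a, (k : ℝ) / n)) < min ε₁ ε₂ / 2 ∧
        dist (F (y, ((k + 1 : ℕ) : ℝ) / n)) (F (a, (k : ℝ) / n)) < min ε₁ ε₂ / 2 := by
      intro x hx a ha hxa y hy
      have h4 : dist y a < δ := by
        have := dist_triangle y x a
        have := hl.2 y hy x hx
        linarith
      have ha' : ((a, (k : ℝ) / n) : X × ℝ) ∈ A ×ˢ Icc (0 : ℝ) 1 := ⟨hS ha, hk0, hk1⟩
      refine ⟨h3 _ ha' _ ?_, h3 _ ha' _ ?_⟩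
      · rw [Prod.dist_eq]
        refine max_lt h4 ?_
        rw [dist_self]
        exact hδ
      · rw [Prod.dist_eq]
        refine max_lt h4 ?_
        rw [hk3, Real.dist_eq]
        have : (k : ℝ) / n + 1 / n - (k : ℝ) / n = 1 / n := by ring
        rw [this, abs_of_pos (by positivity)]
        exact hn1
    have mem : ∀ y ∈ l.map (fun x => F (x, (k : ℝ) / n)) ++
        l.map (fun x => F (x, ((k + 1 : ℕ) : ℝ) / n)), ∃ x ∈ l,
        y = F (x, (k : ℝ) / n) ∨ y = F (x, ((k + 1 : ℕ) : ℝ) / n) := by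
      intro y hy
      rcases List.mem_append.1 hy with h | h
      · obtain ⟨x, hx, rfl⟩ := List.mem_map.1 h
        exact ⟨x, hx, Or.inl rfl⟩
      · obtain ⟨x, hx, rfl⟩ := List.mem_map.1 h
        exact ⟨x, hx, Or.inr rfl⟩
    refine ⟨fun y hy => ?_, fun y hy z hz => ?_⟩
    · obtain ⟨x, hx, h⟩ := mem y hy
      obtain ⟨a, ha, hxa⟩ := Metric.mem_thickening_iff.1 (hl.1 x hx)
      have h4 := near x hx a ha hxa x hx
      refine Metric.mem_thickening_iff.2 ⟨F (a, (k : ℝ) / n), hT ⟨ha, hk0, hk1⟩, ?_⟩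
      rcases h with rfl | rfl
      · linarith [h4.1]
      · linarith [h4.2]
    · obtain ⟨x, hx, h⟩ := mem y hy
      obtain ⟨x', hx', h'⟩ := mem z hz
      obtain ⟨a, ha, hxa⟩ := Metric.mem_thickening_iff.1 (hl.1 x hx)
      have h4 := near x hx a ha hxa x hx
      have h5 := near x hx a ha hxa x' hx'
      have h6 : dist y (F (a, (k : ℝ) / n)) < min ε₁ ε₂ / 2 := by
        rcases h with rfl | rfl
        · exact h4.1
        · exact h4.2
      have h7 : dist z (F (a, (k : ℝ) / n)) < min ε₁ ε₂ / 2 := by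
        rcases h' with rfl | rfl
        · exact h5.1
        · exact h5.2
      have := dist_triangle_right y z (F (a, (k : ℝ) / n))
      linarith
  have step : ∀ k : ℕ, k ≤ n → Bd p A A'
      (pull (fun x => F (x, (k : ℝ) / n)) c - pull (fun x => F (x, 0)) c) := by
    intro k
    induction k with
    | zero =>
      intro _
      simp only [Nat.cast_zero, zero_div]
      rw [sub_self]
      exact Bd.zero
    | succ k ih =>
      intro hk
      refine Bd.trans ?_ (ih (by omega))
      exact bd_of_contig (ε := min ε₁ ε₂) (δ := δ / 2) hc.deg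
        (fun l hl => h1' l (Small.mono Subset.rfl (min_le_left _ _) hl))
        (fun l hl => h2' l (Small.mono Subset.rfl (min_le_right _ _) hl)) (by positivity)
        (key A Subset.rfl B hB k hk) (key A' hs B' hB' k hk)
  have := step n le_rfl
  rwa [div_self hn0.ne'] at this

/-! ### Extending functions from compact sets -/

/-- A nearest point function of a compact set. -/
theorem exists_nearest {A : Set X} (hA : IsCompact A) (hne : A.Nonempty) :
    ∃ r : X → X, (∀ x, r x ∈ A) ∧ (∀ x, ∀ a ∈ A, dist x (r x) ≤ dist x a) := by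
  have : ∀ x, ∃ y ∈ A, Metric.infDist x A = dist x y := fun x => hA.exists_infDist_eq_dist hne x
  choose r hr hr' using this
  exact ⟨r, hr, fun x a ha => by rw [← hr' x]; exact Metric.infDist_le_dist_of_mem ha⟩

/-- A continuous function on a compact set extends to a function that is uniformly continuous at
the points of this set, with values in the image of the set. -/
theorem exists_extend {A : Set X} (hA : IsCompact A) (hne : A.Nonempty) {φ : X → Y}
    (hφ : ContinuousOn φ A) : ∃ f : X → Y, EqOn f φ A ∧ UAt f A ∧ ∀ x, f x ∈ φ '' A := by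
  obtain ⟨r, hr, hr'⟩ := exists_nearest hA hne
  have hu : ∀ ε > 0, ∃ δ > 0, ∀ a ∈ A, ∀ b ∈ A, dist a b < δ → dist (φ a) (φ b) < ε := by
    intro ε hε
    have := hA.uniformContinuousOn_of_continuous hφ
    rw [Metric.uniformContinuousOn_iff] at this
    exact this ε hε
  have hd : ∀ x, ∀ a ∈ A, dist (r x) a ≤ 2 * dist x a := by
    intro x a ha
    have h1 := dist_triangle_left (r x) a x
    have h2 := hr' x a ha
    linarith
  classical
  refine ⟨fun x => if x ∈ A then φ x else φ (r x), fun a ha => if_pos ha, ?_, fun x => ?_⟩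
  · intro ε hε
    obtain ⟨δ, hδ, h⟩ := hu ε hε
    refine ⟨δ / 2, by positivity, fun a ha x hx => ?_⟩
    beta_reduce
    rw [if_pos ha]
    by_cases hxA : x ∈ A
    · rw [if_pos hxA]
      exact h x hxA a ha (by linarith)
    · rw [if_neg hxA]
      exact h _ (hr x) a ha (by linarith [hd x a ha])
  · by_cases hxA : x ∈ A
    · simp only [if_pos hxA]
      exact ⟨x, hxA, rfl⟩
    · simp only [if_neg hxA]
      exact ⟨r x, hr x, rfl⟩

/-- Homotopy invariance, for homotopies that are defined on `A × [0,1]`. -/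
theorem bd_of_homotopyOn {p : ℤ} {φ : X × ℝ → Y} {f g : X → Y} {A A' : Set X} {B B' : Set Y}
    {c : Cc M Y} (hA : IsCompact A) (hφ : ContinuousOn φ (A ×ˢ Icc (0 : ℝ) 1))
    (hf : PMap f A A' B B') (hg : PMap g A A' B B') (hf0 : ∀ a ∈ A, φ (a, 0) = f a)
    (hg1 : ∀ a ∈ A, φ (a, 1) = g a) (hB : MapsTo φ (A ×ˢ Icc (0 : ℝ) 1) B)
    (hB' : MapsTo φ (A' ×ˢ Icc (0 : ℝ) 1) B') (hc : Cyc p B B' c) :
    Bd p A A' (pull g c - pull f c) := by
  rcases A.eq_empty_or_nonempty with rfl | hne
  · exact Bd.of_Zr (Zr.empty ((hc.deg.pull g).sub (hc.deg.pull f)))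
  · obtain ⟨F, hF1, hF2, hF3⟩ := exists_extend (hA.prod isCompact_Icc)
      (hne.prod ⟨0, by simp⟩) hφ
    have e0 : ∀ a ∈ A, F (a, 0) = f a := fun a ha => by
      rw [hF1 ⟨ha, by simp⟩, hf0 a ha]
    have e1 : ∀ a ∈ A, F (a, 1) = g a := fun a ha => by
      rw [hF1 ⟨ha, by simp⟩, hg1 a ha]
    have hs := hf.sub
    have hFB : MapsTo F (A ×ˢ Icc (0 : ℝ) 1) B := fun x hx => by rw [hF1 hx]; exact hB hx
    have hFB' : MapsTo F (A' ×ˢ Icc (0 : ℝ) 1) B' := fun x hx => by
      rw [hF1 ⟨hs hx.1, hx.2⟩]; exact hB' hx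
    have hat : ∀ t ∈ Icc (0 : ℝ) 1, UAt (fun x => F (x, t)) A := by
      intro t ht ε hε
      obtain ⟨δ, hδ, h⟩ := hF2 ε hε
      refine ⟨δ, hδ, fun a ha x hx => h (a, t) ⟨ha, ht⟩ (x, t) ?_⟩
      rw [Prod.dist_eq]
      refine max_lt hx ?_
      rw [dist_self]
      exact hδ
    have hP : ∀ t ∈ Icc (0 : ℝ) 1, PMap (fun x => F (x, t)) A A' B B' := fun t ht =>
      ⟨hat t ht, hs, fun a ha => hFB ⟨ha, ht⟩, fun a ha => hFB' ⟨ha, ht⟩⟩
    have h1 := bd_of_homotopy hF2 hs hFB hFB' hc
    have h2 := bd_of_eqOn hf (hP 0 (by simp)) (fun a ha => (e0 a ha).symm) hc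
    have h3 := bd_of_eqOn (hP 1 (by simp)) hg e1 hc
    exact (h3.trans h1).trans h2


end BBH


end

section

/-!
# BBH: functionals, local properties; definitions and small lemmas

* `exists_total`, `exists_fun`: linear functionals on `HO k k p V` and total functionals `s` with `Kil p V s`.
* `Zr.local`: vanishing near a compact set is a local property.
* `LT M p x`: `H^p_c` is locally trivial at `x`.  `GB k B`, `GN B`, `NZat k x`, `Sj k X`, `UCat k p x`: see the comments.
-/

set_option autoImplicit false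
set_option linter.unusedSectionVars false

namespace BBH

open Set Topology

section

variable {k X : Type} [Field k] [MetricSpace X]

/-- a functional on `H^p_c(V)` as a total functional -/
theorem exists_total {p : ℤ} {V : Set X} (φ : HO k k p V →ₗ[k] k) :
    ∃ s : Cc k X →ₗ[k] k, Kil p V s ∧ ∀ c (h : CyO p V c), s c = φ (cls k c h) := by
  obtain ⟨s, hs⟩ := LinearMap.exists_extend (φ ∘ₗ (BB k k p univ Vᶜ).mkQ)
  have h1 : ∀ c (h : CyO p V c), s c = φ (cls k c h) := by
    intro c h
    have h2 := LinearMap.congr_fun hs ⟨c, h⟩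
    exact h2
  refine ⟨s, fun c hc hb => ?_, h1⟩
  rw [h1 c hc, (cls_eq_zero (R := k) hc).2 hb, map_zero]

/-- a total functional as a functional on `H^p_c(V)` -/
theorem exists_fun {p : ℤ} {V : Set X} {s : Cc k X →ₗ[k] k} (hs : Kil p V s) :
    ∃ φ : HO k k p V →ₗ[k] k, ∀ c (h : CyO p V c), φ (cls k c h) = s c := by
  obtain ⟨F, hF⟩ := exists_lift (R := k) (p := p) (A := univ) (B := Vᶜ)
    (s ∘ₗ (ZZ k k p univ Vᶜ).subtype) (fun c hc => hs c.1 c.2 hc)
  exact ⟨F, fun c h => hF c h⟩

end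

section

variable {M X : Type} [AddCommGroup M] [MetricSpace X]

/-- vanishing near a compact set is a local property -/
theorem Zr.local {C : Set X} (hC : IsCompact C) {c : Cc M X} (h0 : c [] = 0)
    (h : ∀ y ∈ C, ∃ V : Set X, IsOpen V ∧ y ∈ V ∧ Zr V c) : Zr C c := by
  refine hC.induction_on (p := fun S => Zr S c) ?_ ?_ ?_ ?_
  · refine ⟨1, one_pos, fun l hl => ?_⟩
    rcases l with _ | ⟨x, l⟩
    · exact h0
    · have := hl.1 x (by simp)
      simp [Metric.thickening_empty] at this
  · exact fun s t hst ht => Zr.anti ht hst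
  · exact fun s t hs ht => Zr.union hs ht
  · intro y hy
    obtain ⟨V, hV, hyV, hz⟩ := h y hy
    exact ⟨V, mem_nhdsWithin_of_mem_nhds (hV.mem_nhds hyV), hz⟩

/-- cochains that vanish near `univ` are trivial -/
theorem CyO.of_Zr {p : ℤ} {V : Set X} {c : Cc M X} (hd : Dg X p c) (h : Zr univ c) :
    CyO p V c := ⟨hd, h.anti (subset_univ _), h.dd⟩

theorem BdO.of_Zr {p : ℤ} {V : Set X} {c : Cc M X} (h : Zr univ c) : BdO p V c :=
  Bd.of_Zr h

theorem Zr.univ_of {V : Set X} {c : Cc M X} (h : Zr V c) (h' : Zr Vᶜ c) : Zr univ c := by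
  have := h.union h'
  rwa [union_compl_self] at this

/-- `H^p_c( ; M)` is locally trivial at `x` -/
def LT (M : Type) {X : Type} [AddCommGroup M] [MetricSpace X] (p : ℤ) (x : X) : Prop :=
  ∀ U : Set X, IsOpen U → x ∈ U → ∃ V ⊆ U, IsOpen V ∧ x ∈ V ∧
    ∀ c : Cc M X, CyO p V c → BdO p U c

/-- good sets with respect to the field `k`: connected, all nonempty open subsets have `H^3_c ≠ 0` -/
def GB (k : Type) {X : Type} [Field k] [MetricSpace X] (B : Set X) : Prop :=
  IsOpen B ∧ IsConnected B ∧ ∀ V ⊆ B, IsOpen V → V.Nonempty → ¬ VanO k 3 V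

/-- connected open sets such that no point and no finite union of arcs separates a connected open subset -/
def GN {X : Type} [MetricSpace X] (B : Set X) : Prop :=
  IsOpen B ∧ IsConnected B ∧ ∀ B' ⊆ B, IsOpen B' → IsConnected B' →
    (∀ y ∈ B', IsConnected (B' \ {y})) ∧
    ∀ (n : ℕ) (A : Fin n → Set X), (∀ i, ∃ α : ℝ → X, ContinuousOn α (Icc 0 1) ∧
      InjOn α (Icc 0 1) ∧ A i = α '' Icc 0 1) → (⋃ i, A i) ⊆ B' →
      IsPreconnected (B' \ ⋃ i, A i)

/-- small open neighbourhoods of `x` have `H^3_c( ; k) ≠ 0` -/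
def NZat (k : Type) {X : Type} [Field k] [MetricSpace X] (x : X) : Prop :=
  ∃ U : Set X, IsOpen U ∧ x ∈ U ∧ ∀ V ⊆ U, IsOpen V → x ∈ V → ¬ VanO k 3 V

/-- surjectivity: `H^3_c(W) → H^3_c(V)` is onto if `V` is connected and `W ≠ ∅` -/
def Sj (k X : Type) [Field k] [MetricSpace X] : Prop :=
  ∀ V W : Set X, IsOpen V → IsConnected V → IsOpen W → W ⊆ V → W.Nonempty →
    ∀ c : Cc k X, CyO 3 V c → ∃ c' : Cc k X, CyO 3 W c' ∧ BdO 3 V (c - c')

/-- unique continuation at `x`: functionals with nonzero germ at `x` have nonzero germs near `x` -/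
def UCat (k : Type) {X : Type} [Field k] [MetricSpace X] (p : ℤ) (x : X) : Prop :=
  ∀ (V : Set X) (s : Cc k X →ₗ[k] k), IsOpen V → x ∈ V → Kil p V s → ¬ Zg p s x →
    ∃ W : Set X, IsOpen W ∧ x ∈ W ∧ ∀ y ∈ W, ¬ Zg p s y

end

end BBH


end
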