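import Mathlib
import Pool.Agent.BBM.C08
import Pool.Agent.BBM.C15
import Pool.Agent.CTO.Stmts2

/-! Parts: BBH.StmtsB, BBH.StmtsC, BBH.StmtsD, BBH.StmtsE, BBH.StmtsF, BBH.StmtsG, BBH.StmtsH -/

section

/-!
# BBH, block B: basic cohomology

Module `X` proves `theorem t_X : M_X` (or `t_X : S_X` if there is no `M_X`) in the namespace `BBH`, in the file
`Pool/Agent/BBH/B_X.lean`, importing this file.  The files `Core.lean`, `Germ.lean`, `Hmod.lean`, `Maps.lean` (same directory)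
contain the definitions and many lemmas: READ THEM FIRST (`Zr.union`, `Zr.inter`, `Zr.nhds`, `les_mid`, `les_right`,
`les_left`, `les_conn`, `cyc_pull`, `bd_pull`, `bd_of_eqOn`, `bd_of_homotopyOn`, `exists_lift`, …).  Similar proofs with
coefficients mod 2 are in `Pool/Agent/VC/` and `Pool/Agent/TI/Dim.lean`; they may be copied (mind the signs).
`CyO p V c`, `BdO p V c` are `Cyc p univ Vᶜ c`, `Bd p univ Vᶜ c`.
-/

set_option autoImplicit false

namespace BBH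

open Set Topology CTO

/-! ## 1. Points, contractible and connected sets -/

/-- PNT. A point. If `l ∈ Small {x} ε` then `x :: l ∈ Small {x} ε`; so `dd c (x :: l) = 0` gives `c l = dd (sh c x) l`. For `p ≥ 1`
`sh c x` has degree `p - 1`. For `p = 0` evaluate at `l = [y]`: `sh c x` is `c [x]` at `[]`. Compare `van_point`, `ext_point` in
`Pool/Agent/TI/Dim.lean`. -/
def S_PNT : Prop := ∀ (M X : Type) [AddCommGroup M] [MetricSpace X] (x : X),
  (∀ p : ℤ, 1 ≤ p → Van M p {x} ∅) ∧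
  ∀ c : Cc M X, Cyc 0 {x} ∅ c → Zr {x} (c - c0 fun _ => c [x])

/-- `K` contracts in `K'` -/
def Ctr {X : Type} [TopologicalSpace X] (K K' : Set X) : Prop :=
  ∃ (w : X) (F : X × ℝ → X), w ∈ K' ∧ ContinuousOn F (K ×ˢ Icc (0 : ℝ) 1) ∧
    MapsTo F (K ×ˢ Icc (0 : ℝ) 1) K' ∧ (∀ x ∈ K, F (x, 0) = x) ∧ ∀ x ∈ K, F (x, 1) = w

/-- CTR. `bd_of_homotopyOn` for `F`, the identity and the constant map `w` gives `Bd p K ∅ (pull (fun _ => w) c - c)`. By S_PNT `c - dd b`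
vanishes near `{w}`, so `pull (fun _ => w) c = dd (pull (fun _ => w) b)` (everywhere: the lists with all members equal to `w` are in
`Small {w} ε`). -/
def S_CTR : Prop := ∀ (M X : Type) [AddCommGroup M] [MetricSpace X] (K K' : Set X),
  IsCompact K → K ⊆ K' → Ctr K K' → ∀ p : ℤ, 1 ≤ p → ∀ c : Cc M X, Cyc p K' ∅ c → Bd p K ∅ c

def M_CTR : Prop := S_PNT → S_CTR

/-- CON. `c [y] - c [x] = dd c [x, y] = 0` for `x, y` near each other and near `A`; so `x ↦ c [x]` is locally constant on `A`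
(and constant `= m` as `A` is preconnected), and `c [y] = m` for `y` near `A`. -/
def S_CON : Prop := ∀ (M X : Type) [AddCommGroup M] [MetricSpace X] (A : Set X),
  IsPreconnected A → ∀ c : Cc M X, Cyc 0 A ∅ c → ∃ m : M, Zr A (c - c0 fun _ => m)

/-! ## 2. Mayer-Vietoris -/

/-- MVC. Mayer-Vietoris for compact sets. `c - dd b₁` vanishes near `A`, `c - dd b₂` near `B`: `e = b₁ - b₂`. Given `e₁`, `e₂` and `f` of degree
`p - 2` such that `w = e - e₁ - e₂ - dd f` vanishes near `A ∩ B`; `Zr.inter`: `w = w₁ + w₂`, `w₁ = ind K w` vanishes near `A`, `w₂` near `B`. Let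
`b = b₁ - e₁ - w₁ = b₂ + e₂ + dd f + w₂`: `c - dd b = (c - dd b₁) + dd e₁ + dd w₁` vanishes near `A`, and `= (c - dd b₂) - dd e₂ - dd w₂`
near `B`; `Zr.union`. -/
def S_MVC : Prop := ∀ (M X : Type) [AddCommGroup M] [MetricSpace X] (p : ℤ) (A B : Set X)
  (c : Cc M X), IsCompact A → IsClosed B → Bd p A ∅ c → Bd p B ∅ c →
  ∃ e : Cc M X, Cyc (p - 1) (A ∩ B) ∅ e ∧ ∀ e₁ e₂ : Cc M X, Cyc (p - 1) A ∅ e₁ →
    Cyc (p - 1) B ∅ e₂ → Bd (p - 1) (A ∩ B) ∅ (e - e₁ - e₂) → Bd p (A ∪ B) ∅ c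

/-- MVO. Mayer-Vietoris for open sets `U`, `V` of a compact space, `MVr p U V c d`: `d` is a representative of the image of `c` under the
connecting homomorphism. (1) `Zr.inter` for `Uᶜ ∩ Vᶜ = (U ∪ V)ᶜ`: `c = c₁ + c₂`; `d = dd c₁`, which vanishes near `Uᶜ` and, as `dd c₁ = dd c - dd c₂`, near
`Vᶜ` (`Zr.union`, `(U ∩ V)ᶜ = Uᶜ ∪ Vᶜ`). (2) `c - dd b` vanishes near `univ`, `b` near `(U ∪ V)ᶜ`, `b = b₁ + b₂` by `Zr.inter`; `e = c₁ - dd b₁`
vanishes near `Uᶜ` and, as `e = (c - dd b) - (c - c₁ - c₂) - c₂ + dd b₂`, near `Vᶜ`, and `d - dd e` vanishes near `univ`. (3) `d - dd b₁`, `d - dd b₂` vanish near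
`univ`, `b₁` near `Uᶜ`, `b₂` near `Vᶜ`: `c = b₁ - b₂`, `c₁ = b₁`, `c₂ = - b₂`. (4) `c₁ + c₂ - dd b` vanishes near `univ`, `b = b₁ + b₂`; `e = c₁ - dd b₁`
vanishes near `Uᶜ`, and near `Vᶜ` as `e = - (c₂ - dd b₂)` near `univ`. (5) `c₁ - e`, `c₂ + e` where `e` comes from `BdO (p + 1) (U ∩ V) d`. -/
def MVr {M X : Type} [AddCommGroup M] [MetricSpace X] (p : ℤ) (U V : Set X) (c d : Cc M X) :
    Prop :=
  ∃ c₁ c₂ : Cc M X, Dg X p c₁ ∧ Dg X p c₂ ∧ Zr Uᶜ c₁ ∧ Zr Vᶜ c₂ ∧ Zr univ (c - c₁ - c₂) ∧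
    Zr univ (d - dd c₁)

def S_MVO : Prop := ∀ (M X : Type) [AddCommGroup M] [MetricSpace X] [CompactSpace X] (p : ℤ)
  (U V : Set X), IsOpen U → IsOpen V →
  (∀ c : Cc M X, CyO p (U ∪ V) c → ∃ d, CyO (p + 1) (U ∩ V) d ∧ MVr p U V c d) ∧
  (∀ c d : Cc M X, CyO p (U ∪ V) c → CyO (p + 1) (U ∩ V) d → MVr p U V c d →
    BdO p (U ∪ V) c → BdO (p + 1) (U ∩ V) d) ∧
  (∀ d : Cc M X, CyO (p + 1) (U ∩ V) d → BdO (p + 1) U d → BdO (p + 1) V d →
    ∃ c, CyO p (U ∪ V) c ∧ MVr p U V c d) ∧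
  (∀ c₁ c₂ : Cc M X, CyO p U c₁ → CyO p V c₂ → BdO p (U ∪ V) (c₁ + c₂) →
    ∃ e, CyO p (U ∩ V) e ∧ BdO p U (c₁ - e) ∧ BdO p V (c₂ + e)) ∧
  (∀ c : Cc M X, CyO p (U ∪ V) c → (∀ d : Cc M X, CyO (p + 1) (U ∩ V) d →
    BdO (p + 1) (U ∩ V) d) → ∃ c₁ c₂, CyO p U c₁ ∧ CyO p V c₂ ∧ BdO p (U ∪ V) (c - c₁ - c₂))

/-- MVT. Triviality on unions. Let `c` be a cocycle in `V₁ ∪ V₂`, `d` from S_MVO (1) for `V₁`, `V₂`, a cocycle in `V₁ ∩ V₂`; it is a coboundary in
`U₁ ∩ U₂`; `MVr` for `V₁`, `V₂` implies `MVr` for `U₁`, `U₂`, so (as in S_MVO (5)) `c` is in `U₁ ∪ U₂` the sum of cocycles in `U₁` and `U₂` up to a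
coboundary; these are coboundaries in `W`. -/
def S_MVT : Prop := ∀ (M X : Type) [AddCommGroup M] [MetricSpace X] [CompactSpace X] (p : ℤ)
  (V₁ V₂ U₁ U₂ W : Set X), IsOpen V₁ → IsOpen V₂ → IsOpen U₁ → IsOpen U₂ → IsOpen W →
  V₁ ⊆ U₁ → V₂ ⊆ U₂ → U₁ ⊆ W → U₂ ⊆ W →
  (∀ d : Cc M X, CyO (p + 1) (V₁ ∩ V₂) d → BdO (p + 1) (U₁ ∩ U₂) d) →
  (∀ c : Cc M X, CyO p U₁ c → BdO p W c) → (∀ c : Cc M X, CyO p U₂ c → BdO p W c) →
  ∀ c : Cc M X, CyO p (V₁ ∪ V₂) c → BdO p W c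

def M_MVT : Prop := S_MVO → S_MVT

/-! ## 3. Continuity -/

/-- NBH. Continuity. (1) `Zr.nhds` for `Vᶜ` gives `r`; `W = {x | r / 2 < infDist x Vᶜ}` (if `V = univ` take `W = univ`); `Wᶜ` is in the `r`-thickening.
(2) The closed sets `(U i)ᶜ` decrease to `(⋃ i, U i)ᶜ`; by compactness some `(U i)ᶜ` is in the `r`-thickening of the intersection (if the intersection
is empty, some `(U i)ᶜ` is empty). (3) compactness: `N = thickening (r / 2) K`. (4) as (2). -/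
def S_NBH : Prop := ∀ (M X : Type) [AddCommGroup M] [MetricSpace X] [CompactSpace X]
  (c : Cc M X),
  (∀ V : Set X, IsOpen V → Zr Vᶜ c → ∃ W : Set X, IsOpen W ∧ closure W ⊆ V ∧ Zr Wᶜ c) ∧
  (∀ U : ℕ → Set X, Monotone U → (∀ i, IsOpen (U i)) → Zr (⋃ i, U i)ᶜ c → ∃ i, Zr (U i)ᶜ c) ∧
  (∀ K : Set X, IsCompact K → Zr K c → ∃ N : Set X, IsOpen N ∧ K ⊆ N ∧ Zr (closure N) c) ∧
  (∀ K : ℕ → Set X, Antitone K → (∀ i, IsClosed (K i)) → Zr (⋂ i, K i) c → ∃ i, Zr (K i) c)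

/-- CUT. Cutting off. Let `K = {l | ∀ x ∈ l, x ∈ N}` with `closure N ⊆ B`; `c' = ind K c`: it equals `c` on lists in `N`, so near `D`, and it is zero on
the lists near `Bᶜ` (the distance of `closure N` and `Bᶜ` is positive). -/
def S_CUT : Prop := ∀ (M X : Type) [AddCommGroup M] [MetricSpace X] [CompactSpace X] (p : ℤ)
  (c : Cc M X) (D B : Set X), IsClosed D → IsOpen B → D ⊆ B → Dg X p c →
  ∃ c' : Cc M X, Dg X p c' ∧ Zr Bᶜ c' ∧ Zr D (c - c') ∧ ∀ A : Set X, Zr A c → Zr A c'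

/-- TRP. Transport by a homeomorphism of a compact space (uniformly continuous in both directions): `cyc_pull` and `bd_pull` for `h` and `h.symm`,
`pull_pull`, `pull_id`. -/
def S_TRP : Prop := ∀ (M X : Type) [AddCommGroup M] [MetricSpace X] [CompactSpace X]
  (h : X ≃ₜ X) (p : ℤ) (V : Set X) (c : Cc M X),
  (CyO p V c ↔ CyO p (h ⁻¹' V) (pull h c)) ∧ (BdO p V c ↔ BdO p (h ⁻¹' V) (pull h c))

/-! ## 4. Dimension one, arcs -/

/-- VA1. Compact sets with an injective continuous real function. Port of `Dim.slice_vanish` in `Pool/Agent/TI/Dim.lean` with signs: every slice `A ∩ f ⁻¹' {t}`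
is empty or a point, so `c` is a coboundary on it (S_PNT) and on `A ∩ f ⁻¹' [t - r, t + r]` (`Zr.nhds` and compactness); Lebesgue number; glue the pieces
`A ∩ f ⁻¹' [s i, s (i+1)]` one after the other with S_MVC: the intersection with the union of the former ones is a slice, `e` is there (for
`p = 1`, S_PNT) a constant cochain `c0 fun _ => m`, a cocycle everywhere (`e₁`), or (for `p ≥ 2`) a coboundary. -/
def S_VA1 : Prop := ∀ (M X : Type) [AddCommGroup M] [MetricSpace X] (A : Set X) (f : X → ℝ),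
  IsCompact A → ContinuousOn f A → InjOn f A → ∀ p : ℤ, 1 ≤ p → Van M p A ∅

def M_VA1 : Prop := S_PNT → S_MVC → S_VA1

/-- ARC. Closed subsets of arcs and finite unions of arcs. (1) The inverse `f : A → [0, 1]` of the parametrisation is continuous on the compact set
`A`; S_VA1 for `F` and `f`. (2) Induction on `n` with S_MVC: the intersection of the last arc with the union of the others is a closed subset of an arc,
without cohomology in the degree `p - 1 ≥ 1`. (3) S_MVC in the same way. -/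
def S_ARC : Prop := (∀ (M X : Type) [AddCommGroup M] [MetricSpace X] (A F : Set X) (a b : X),
    BBP.Arc A a b → IsClosed F → F ⊆ A → ∀ p : ℤ, 1 ≤ p → Van M p F ∅) ∧
  (∀ (M X : Type) [AddCommGroup M] [MetricSpace X] (n : ℕ) (A : Fin n → Set X)
    (a b : Fin n → X), (∀ i, BBP.Arc (A i) (a i) (b i)) → ∀ p : ℤ, 2 ≤ p →
    Van M p (⋃ i, A i) ∅) ∧
  ∀ (M X : Type) [AddCommGroup M] [MetricSpace X] (D A : Set X) (a b : X), IsCompact D →
    BBP.Arc A a b → ∀ p : ℤ, 2 ≤ p → Van M p D ∅ → Van M p (D ∪ A) ∅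

def M_ARC : Prop := S_MVC → S_VA1 → S_ARC

/-! ## 5. Finite generation -/

/-- FGU. Mayer-Vietoris for finite generation. `F : H^p(A ∪ B) → H^p(A) × H^p(B)` (restrictions); its range is f. g. (Noetherian). Kernel: let `T` be the submodule
of the triples `(c, b₁, b₂)` of cochains with `Cyc p (A ∪ B) ∅ c`, `Dg X (p - 1) b₁, b₂`, `Zr A (c - dd b₁)`, `Zr B (c - dd b₂)`; `φ : T → H^p(A ∪ B)`, `(c, b₁, b₂) ↦ [c]` has
the kernel of `F` as range; `ψ : T → H^{p-1}(A ∩ B)`, `↦ [b₁ - b₂]`. `ker ψ ⊆ ker φ`: see the proof of S_MVC (with `e₁ = e₂ = 0`). So the range of `φ` is a quotient of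
the range of `ψ`, which is f. g.; `Module.Finite` by `Submodule.fg_of_fg_map_of_fg_inf_ker` or similar. -/
def S_FGU : Prop := ∀ (R M X : Type) [CommRing R] [IsNoetherianRing R] [AddCommGroup M]
  [Module R M] [MetricSpace X] (p : ℤ) (A B : Set X), IsCompact A → IsClosed B →
  Module.Finite R (H R M p A ∅) → Module.Finite R (H R M p B ∅) →
  Module.Finite R (H R M (p - 1) (A ∩ B) ∅) → Module.Finite R (H R M p (A ∪ B) ∅)

/-- FGR. Relative groups. The map `H^p(A, B) → H^p(A)` has f. g. range; its kernel is (exactness, `les_left`) the range of the map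
`H^{p-1}(B) → H^p(A, B)`, `[b] ↦ [dd b]` (`exists_lift`, `les_conn`, `les_conn_bd`). -/
def S_FGR : Prop := ∀ (R M X : Type) [CommRing R] [IsNoetherianRing R] [AddCommGroup M]
  [Module R M] [MetricSpace X] (p : ℤ) (A B : Set X), B ⊆ A →
  Module.Finite R (H R M p A ∅) → Module.Finite R (H R M (p - 1) B ∅) →
  Module.Finite R (H R M p A B)

/-- FGC. Finite unions of compact convex sets. Induction on `n` for all `p` at the same time, with S_FGU: the intersection of the last set with the union of the others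
is a union of `n` compact convex sets. `n = 0`: `Van.empty`. One convex compact set `C`: for `p ≥ 1` S_CTR (`F (x, t) = (1 - t) • x + t • w`), for `p < 0` `Van.neg`, and for
`p = 0` S_CON: the map `M → H^0(C)`, `m ↦ [c0 fun _ => m]` is onto (`dd (c0 fun _ => m) = 0`). -/
def S_FGC : Prop := ∀ (R M E : Type) [CommRing R] [IsNoetherianRing R] [AddCommGroup M]
  [Module R M] [Module.Finite R M] [NormedAddCommGroup E] [NormedSpace ℝ E] (n : ℕ)
  (C : Fin n → Set E), (∀ i, IsCompact (C i)) → (∀ i, Convex ℝ (C i)) → ∀ p : ℤ,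
  Module.Finite R (H R M p (⋃ i, C i) ∅)

def M_FGC : Prop := S_CTR → S_CON → S_FGU → S_FGC

/-- HUL. Compact convex sets near an ANR. `e : X → E` an isometric embedding into a Banach space (see `Pool/Agent/CTO/HOM.lean`), `Ω`, `r` from `IsANR`. By compactness there is `δ > 0`
such that for `x ∈ K` `ball (e x) δ ⊆ Ω` and `r` maps it to `K'` (`r` is continuous, `r (e x) = x ∈ interior K'`), and for `x ∈ L` to `L'`. Cover `K` by
finitely many `Ki = K ∩ closedBall (x i) (δ / 4)`, `x i ∈ K`; `C i` = the closure of the convex hull of `e '' Ki` (compact: `TotallyBounded.convexHull`, `E` complete),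
contained in `closedBall (e (x i)) (δ / 4)`; `J = {i | (Ki ∩ L).Nonempty}`: then `C i ⊆ ball (e y) δ` for `y ∈ Ki ∩ L`. (`K` may be empty.) -/
def S_HUL : Prop := ∀ (X : Type) [MetricSpace X] [CompactSpace X], IsANR X →
  ∀ K K' L L' : Set X, IsClosed K → IsClosed L → K ⊆ interior K' → L ⊆ interior L' → L ⊆ K →
  ∃ (E : Type) (_ : NormedAddCommGroup E) (_ : NormedSpace ℝ E) (e : X → E) (r : E → X)
    (Ω : Set E) (n : ℕ) (C : Fin n → Set E) (J : Set (Fin n)), Continuous e ∧ IsOpen Ω ∧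
    ContinuousOn r Ω ∧ (∀ x, r (e x) = x) ∧ (∀ i, IsCompact (C i)) ∧ (∀ i, Convex ℝ (C i)) ∧
    (⋃ i, C i) ⊆ Ω ∧ MapsTo e K (⋃ i, C i) ∧ MapsTo e L (⋃ i ∈ J, C i) ∧
    MapsTo r (⋃ i, C i) K' ∧ MapsTo r (⋃ i ∈ J, C i) L'

/-- FIN. Restriction maps have f. g. range. `P = ⋃ i, C i`, `Q = ⋃ i ∈ J, C i` from S_HUL; `H^p(P, Q)` is f. g. (S_FGC for `P` and for `Q` (reindex `J` by `Fin m`), S_FGR). The
linear map `e* : H^p(P, Q) → H^p(K, L)` (`Submodule.mapQ` or `exists_lift`, with `cyc_pull`, `bd_pull`) has f. g. range, and the range of `res` is contained in it: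
`cls c = e* (cls (pull r c))`, because `pull e (pull r c) = c`. `r` is `UAt` on `P` as it is continuous on the open set `Ω ⊇ P`, `P` compact (`uAt_of_CA`). -/
def S_FIN : Prop := ∀ (R M X : Type) [CommRing R] [IsNoetherianRing R] [AddCommGroup M]
  [Module R M] [Module.Finite R M] [MetricSpace X] [CompactSpace X], IsANR X →
  ∀ (p : ℤ) (K K' L L' : Set X), IsClosed K → IsClosed L → K ⊆ interior K' →
  L ⊆ interior L' → L ⊆ K → L' ⊆ K' → ∀ (h : K ⊆ K') (h' : L ⊆ L'),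
  (LinearMap.range (res R M (p := p) h h')).FG

def M_FIN : Prop := S_FGR → S_FGC → S_HUL → S_FIN

/-- FIO. The same for open sets. (1) S_FIN with `K = K' = univ`, `L = Vᶜ`, `L' = Wᶜ` (`L ⊆ interior L'` iff `closure W ⊆ V`). (2) Let `W n = {x | dist x₀ x < 1 / (n + 1)}`; the ranges of
`H^p_c(W n) → H^p_c(V)` form, for `n ≥ n₀` with `closure (W n₀) ⊆ V`, a decreasing sequence of subspaces of a finite dimensional space, so it is stationary, `= L` for `n ≥ n₁`.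
`W = W n₁`; every open `W' ∋ x₀` contains some `W n`. -/
def S_FIO : Prop := (∀ (R M X : Type) [CommRing R] [IsNoetherianRing R] [AddCommGroup M]
    [Module R M] [Module.Finite R M] [MetricSpace X] [CompactSpace X], IsANR X →
    ∀ (p : ℤ) (W V : Set X), IsOpen W → IsOpen V → closure W ⊆ V → ∀ h : W ⊆ V,
    (LinearMap.range (ext R M (p := p) h)).FG) ∧
  ∀ (k X : Type) [Field k] [MetricSpace X] [CompactSpace X], IsANR X →
    ∀ (p : ℤ) (V : Set X) (x₀ : X), IsOpen V → x₀ ∈ V → ∃ W ⊆ V, IsOpen W ∧ x₀ ∈ W ∧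
    ∀ W' ⊆ W, IsOpen W' → x₀ ∈ W' → ∀ c : Cc k X, CyO p W c →
    ∃ c', CyO p W' c' ∧ BdO p V (c - c')

def M_FIO : Prop := S_FIN → S_FIO

/-! ## 6. Dimension -/

/-- CMB. Complexes of small dimension, combinatorial. Induction on `m` and, inside, on the number of vertices `s`. If `m = 0` all lists in `K` are empty, `b = 0`. If `s = ∅` the same. Otherwise
let `v ∈ s`. `Kv = {l ∈ K | v :: l ∈ K}` (all `l ∈ K` with `v ∈ l` are in `Kv`), `K' = {l ∈ K | v ∉ l}`, `Lk = Kv ∩ K'`: the lists in `Lk` have at most `m - 1` different members (not `v`). `L' = {l ∈ L | v ∉ l}`.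
(i) On `Kv`: `c = dd b₁` with `b₁ = sh c v` (as `dd c (v :: l) = 0`), of degree `q - 1 ≥ 0`. `b₁ = 0` on the lists `l` with `v :: l ∈ L`. On `Q' = L' ∩ Lk` `dd b₁ = c = 0`, and `b₁ = 0` on
`Lk_L = {l ∈ L' | v :: l ∈ L} ⊆ Q'`; induction (`m - 1`, `q - 1`) for the pair `(Q', Lk_L)` gives `e` with `b₁ = dd e` on `Q'`, `e = 0` on `Lk_L`; make `e = 0` outside of `Q'` (`ind`). Then
`b₁ = dd e` on `L ∩ Kv`: its lists are in `Q'` or satisfy `v :: l ∈ L` (if `v ∈ l` or not), and in the second case `b₁ l = 0` and `dd e l = 0` as `e = 0` on all sublists. So `b₁' = b₁ - dd e` is zero on `L ∩ Kv`, and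
`c = dd b₁'` on `Kv`. (ii) On `K'`: induction (fewer vertices) for `(K', L')` gives `b₂`, `c = dd b₂` on `K'`, `b₂ = 0` on `L'`. (iii) On `Lk` `b₁' - b₂` is a cocycle that is zero on `L' ∩ Lk`: induction (`m - 1`) for the pair
`(Lk, L' ∩ Lk)` gives `e₂`, `b₁' - b₂ = dd e₂` on `Lk`, `e₂ = 0` on `L' ∩ Lk`; make `e₂ = 0` outside of `Lk`. (iv) `b l = b₁' l` if `v :: l ∈ K`, `b l = (b₂ + dd e₂) l` otherwise. On `K'` it is `b₂ + dd e₂`
(also on `Lk`), on `Kv` it is `b₁'`; `dd_congr`; it is zero on `L`. -/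
def S_CMB : Prop := ∀ (M V : Type) [AddCommGroup M] [DecidableEq V] (m : ℕ) (s : Finset V)
  (K L : Set (List V)), Cl K → Cl L → L ⊆ K →
  (∀ l ∈ K, l.toFinset.card ≤ m ∧ ∀ v ∈ l, v ∈ s) → ∀ q : ℤ, m ≤ q → ∀ c : Cc M V, Dg V q c →
  (∀ l ∈ K, dd c l = 0) → (∀ l ∈ L, c l = 0) →
  ∃ b : Cc M V, Dg V (q - 1) b ∧ (∀ l ∈ L, b l = 0) ∧ ∀ l ∈ K, c l = dd b l

/-- DIM. No cohomology above the dimension. Let `ε` be such that `c = 0` on `Small B ε`, `dd c = 0` on `Small A ε`. Selection (compare `Pool/Agent/BBP/A_SEL.lean`): a cover by balls of radius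
`ε / 8`, an open shrinking `V i` (`i : Fin k`) with at most `n + 1` sets at every point, a Lebesgue number `lam`, `i x` with `ball x lam ⊆ V (i x)`, points `q i ∈ V i`; `r x = q (i x)`,
`dist (r x) x < ε / 2`. If the list `l` has diameter `< lam` then its head is in `V (i y)` for all `y ∈ l`, so `(l.map i).toFinset.card ≤ n + 1`. With `δ ≤ min lam (ε / 4)`: `l ++ l.map r ∈ Small A ε` for `l ∈ Small A δ`, also for `B`; by
`bd_of_contig` it is enough that `pull r c = pull i (pull q c)` is a coboundary. `K = {t | ∃ l ∈ Small A δ, t ⊆ l.map i}`, `L = {t | ∃ l ∈ Small B δ, t ⊆ l.map i}`; S_CMB (`m = n + 1`) for `pull q c` gives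
`b`; then `pull i b`. (If `X` is empty everything is trivial.) -/
def S_DIM : Prop := ∀ (M X : Type) [AddCommGroup M] [MetricSpace X] [CompactSpace X] (n : ℕ),
  ShrLE X n → ∀ (p : ℤ) (A B : Set X), (n : ℤ) < p → B ⊆ A → Van M p A B

def M_DIM : Prop := S_CMB → S_DIM

/-! ## 7. Topology -/

/-- LPX. Compact ANRs are locally path connected: `BBP.t_LCA` (file `Pool/Agent/BBP/A_LCA.lean`): every point `x` has arbitrarily small open neighbourhoods `W1 ⊆ W` all of whose points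
are joined to `x` in `W`; compare `Pool/Agent/BBP/B_LPC.lean`. (2) with `W1` from `BBP.t_LCA` for `W`, and `V` an open set with `x ∈ V`, `closure V ⊆ W1`. -/
def S_LPX : Prop := ∀ (X : Type) [MetricSpace X] [CompactSpace X], IsANR X →
  LocallyPathConnectedSpace X ∧ ∀ (x : X) (W : Set X), IsOpen W → x ∈ W →
    ∃ V : Set X, IsOpen V ∧ x ∈ V ∧ closure V ⊆ W ∧ Ctr (closure V) W

/-- OUT. The outside. `B` connected open, `J ⊆ B` compact, `B \ J` connected, `w ∈ B \ J`, `J ⊆ N` open. Let `Ki` be the closed `1/(i+1)`-neighbourhoods of `J` (for large `i` they are in `B`), `Wi` the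
connected component of `w` in the open set `B \ Ki` (open, `X` is locally connected). `⋃ Wi = B \ J`: a path in `B \ J` (connected, open, locally path connected) from `w` to `y` misses `Ki` for large
`i`. Let `R` be a compact set with `J ⊆ interior R`, `R ⊆ N ∩ B`. Its frontier is compact and contained in `B \ J`, so in `Wi` for large `i`; let also `Ki ⊆ interior R`. Any other component `P` of `B \ Ki` is disjoint from
the frontier of `R`; if it is disjoint from `R` then it is closed in `B` (`closure P ∩ B ⊆ P ∪ Ki`), so `P = B`, impossible; so `P ⊆ interior R`. So `B \ Wi ⊆ R`, and `B \ Wi` is compact (closed in `B`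
and contained in the compact set `R ⊆ B`; or `= R \ Wi`). (For the last claim: `K = Ki`.) -/
def S_OUT : Prop := ∀ (X : Type) [MetricSpace X] [CompactSpace X],
  LocallyPathConnectedSpace X → ∀ (B J N : Set X) (w : X), IsOpen B → IsConnected B →
  IsCompact J → J.Nonempty → J ⊆ B → IsConnected (B \ J) → w ∈ B \ J → IsOpen N → J ⊆ N →
  ∃ K W : Set X, IsCompact K ∧ J ⊆ interior K ∧ K ⊆ B ∩ N ∧ w ∈ W ∧ IsOpen W ∧
    IsConnected W ∧ W ⊆ B \ K ∧ closure W ∩ (B \ K) ⊆ W ∧ IsCompact (B \ W) ∧ B \ W ⊆ N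

/-- OUS. The sequence in the proof of S_OUT for `J = {x}`. -/
def S_OUS : Prop := ∀ (X : Type) [MetricSpace X] [CompactSpace X],
  LocallyPathConnectedSpace X → ∀ (B N : Set X) (x : X), IsOpen B → IsConnected B →
  x ∈ B → IsConnected (B \ {x}) → IsOpen N → x ∈ N →
  ∃ W : ℕ → Set X, Monotone W ∧ (∀ i, IsOpen (W i)) ∧ (∀ i, IsConnected (W i)) ∧
    (⋃ i, W i) = B \ {x} ∧ (∀ i, IsCompact (B \ W i)) ∧ (∀ i, B \ W i ⊆ N) ∧
    ∀ i, x ∈ interior (B \ W i)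

end BBH


end

section

/-!
# BBH, block C: unique continuation

Module `X` proves `theorem t_X : M_X` (or `t_X : S_X`) in the namespace `BBH`, in the file `Pool/Agent/BBH/C_X.lean`.
`Fun.lean` contains definitions (`LT`, `GB`, `GN`, `NZat`, `Sj`, `UCat`) and lemmas.
-/

set_option autoImplicit false

namespace BBH

open Set Topology CTO

/-! ## 1. Unique continuation -/

/-- UCA. Unique continuation at some point. Let `Bs i` be a countable base of the topology. For `i, j` with `closure (Bs i) ⊆ Bs j` the range of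
`ext : HO (Bs i) → HO (Bs j)` is finite dimensional (S_FIO (1)); so there are finitely many `a m ∈ CyO p (Bs i)` such that every `c ∈ CyO p (Bs i)` is a linear combination of them
up to `BdO p (Bs j)`, and for `s` with `Kil p (Bs j) s` the values `s c`, `c ∈ CyO p (Bs i)`, are determined by the vector `v m = s (a m)`. There are countably many vectors `v` (`k` is countable);
for every `v` that occurs choose such a functional `s i j v`. The set `E i j v = closure {y ∈ Bs i | ¬ Zg p (s i j v) y}` is closed, its frontier is closed and nowhere dense; by Baire's theorem some `x` is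
in none of these countably many frontiers. Let `V, s` be as in `UCat`; choose `x ∈ Bs j ⊆ V` and `x ∈ Bs i`, `closure (Bs i) ⊆ Bs j`, and `v` for `s`; `s` and `s i j v` agree on `CyO p (Bs i)`,
so they have the same points with nonzero germ in `Bs i` (use small `W ⊆ Bs i`; `CyO.mono`). `x ∈ E i j v`, so `x` is in the interior `O` of `E i j v`; the set of the `y ∈ Bs i` with zero germ is open, so all points of `O ∩ Bs i` have nonzero
germs. -/
def S_UCA : Prop := ∀ (k X : Type) [Field k] [Countable k] [MetricSpace X] [CompactSpace X]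
  [Nonempty X], IsANR X → ∀ p : ℤ, ∃ x : X, UCat k p x

def M_UCA : Prop := S_FIO → S_UCA

/-- UCB. Transport. Let `h x = y`, and `V ∋ y`, `s` as in `UCat` for `y`; `s' c = s (pull h.symm c)` (a linear map), `V' = h ⁻¹' V`. By S_TRP (for `h.symm`: `h.symm ⁻¹' (h ⁻¹' V) = V`)
`Kil p V' s'`, and `Zg p s' z ↔ Zg p s (h z)` for all `z`. -/
def S_UCB : Prop := ∀ (k X : Type) [Field k] [MetricSpace X] [CompactSpace X], Homog X →
  ∀ p : ℤ, (∃ x : X, UCat k p x) → ∀ y : X, UCat k p y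

def M_UCB : Prop := S_TRP → S_UCB

/-- UC. Unique continuation. `{y ∈ V | Zg p s y}` is open, and so is `{y ∈ V | ¬ Zg p s y}` by `UCat`; `V` is preconnected. -/
def S_UC : Prop := ∀ (k X : Type) [Field k] [Countable k] [MetricSpace X] [CompactSpace X],
  IsANR X → Homog X → ∀ (p : ℤ) (V : Set X) (s : Cc k X →ₗ[k] k), IsOpen V →
  IsPreconnected V → Kil p V s → (∃ y ∈ V, Zg p s y) → ∀ y ∈ V, Zg p s y

def M_UC : Prop := S_UCA → S_UCB → S_UC

/-! ## 2. Degree three -/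

/-- GEN. In the top degree `n` the cohomology with compact supports is generated by small sets. S_NBH (1): `c ∈ CyO n W'`, `closure W' ⊆ V`; cover the compact set `closure W'` by finitely many sets `W y` as in the hypothesis; `c ∈ CyO n` of
their union. Induction on the number of sets with S_MVO (5) (`CyO (n + 1) ⊆ BdO (n + 1)` by S_DIM); use `Q` for `BdO n V`. -/
def S_GEN : Prop := ∀ (M X : Type) [AddCommGroup M] [MetricSpace X] [CompactSpace X] (n : ℕ),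
  ShrLE X n → ∀ (V : Set X) (Q : Cc M X → Prop), IsOpen V →
  (∀ a b, Q a → Q b → Q (a + b)) → (∀ c, CyO n V c → BdO n V c → Q c) →
  (∀ y ∈ V, ∃ W ⊆ V, IsOpen W ∧ y ∈ W ∧ ∀ c : Cc M X, CyO n W c → Q c) →
  ∀ c : Cc M X, CyO n V c → Q c

def M_GEN : Prop := S_DIM → S_MVO → S_NBH → S_GEN

/-- SRJ. Surjectivity (`Sj`). Suppose that `c ∈ CyO 3 V` is not the image of any `c' ∈ CyO 3 W`: its class is not in the range `R` of `ext : HO W → HO V`; there is a linear `φ : HO V → k` with `φ = 0` on `R`, `φ (class of c) ≠ 0`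
(`Submodule.exists_le_ker_of_notMem` or similar); `exists_total` gives `s`; `s = 0` on `CyO 3 W`, so `Zg 3 s y` for `y ∈ W`, so for all `y ∈ V` (S_UC), so `s c = 0` by S_GEN with `Q e := s e = 0`
(shrink `W` in `Zg` to a subset of `V`): contradiction. -/
def S_SRJ : Prop := ∀ (k X : Type) [Field k] [Countable k] [MetricSpace X] [CompactSpace X],
  IsANR X → Homog X → ShrLE X 3 → Sj k X

def M_SRJ : Prop := S_UC → S_GEN → S_SRJ

/-- FDV. `H^3_c(V)` is finite dimensional for connected `V`: let `W` be open, nonempty, `closure W ⊆ V`; the range of `ext` is f. g. (S_FIO) and everything (`Sj`). -/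
def S_FDV : Prop := ∀ (k X : Type) [Field k] [MetricSpace X] [CompactSpace X],
  IsANR X → Sj k X → ∀ V : Set X, IsOpen V → IsConnected V → Module.Finite k (HO k k 3 V)

def M_FDV : Prop := S_FIO → S_FDV

/-- EXJ. Exactness for a compact subset `J` of the open set `B`. (1) `les_left` for `Bᶜ ⊆ Bᶜ ∪ J ⊆ univ` gives `b ∈ Cyc p (Bᶜ ∪ J) Bᶜ` with `Bd (p + 1) univ (Bᶜ ∪ J) (c - dd b)`; `b` is a coboundary near `J`, `b - dd f` vanishes near `J`, `f'` from S_CUT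
for `f`: `b - dd f'` vanishes near `J` and near `Bᶜ`, and `dd b = dd (b - dd f')`. Note `(B \ J)ᶜ = Bᶜ ∪ J`. (2) `c - dd f` vanishes near `J`, `f'` from S_CUT: `c' = c - dd f'`. (3) `c'` from S_CUT for `c`; `dd c'` vanishes near `J` and
near `Bᶜ`. -/
def S_EXJ : Prop := ∀ (M X : Type) [AddCommGroup M] [MetricSpace X] [CompactSpace X] (p : ℤ)
  (B J : Set X), IsOpen B → IsCompact J → J ⊆ B →
  (Van M p J ∅ → ∀ c : Cc M X, CyO (p + 1) (B \ J) c → BdO (p + 1) B c →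
    BdO (p + 1) (B \ J) c) ∧
  (∀ c : Cc M X, CyO p B c → Bd p J ∅ c → ∃ c', CyO p (B \ J) c' ∧ BdO p B (c - c')) ∧
  ∀ c : Cc M X, Cyc p J ∅ c → ∃ c', Dg X p c' ∧ Zr Bᶜ c' ∧ Zr J (c - c') ∧
    CyO (p + 1) (B \ J) (dd c') ∧ BdO (p + 1) B (dd c')

def M_EXJ : Prop := S_CUT → S_EXJ

/-- NZA. (1) If no point `y ∈ V` has `NZat k y` then for every `y ∈ V` there is an open `W ∋ y`, `W ⊆ V`, with `VanO k 3 W`; S_GEN with `Q c := BdO 3 V c`: `VanO k 3 V`. (2) transport by homeomorphisms (S_TRP). -/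
def S_NZA : Prop := ∀ (k X : Type) [Field k] [MetricSpace X] [CompactSpace X], Homog X →
  ShrLE X 3 → (∃ V : Set X, IsOpen V ∧ ¬ VanO k 3 V) → ∀ x : X, NZat k x

def M_NZA : Prop := S_GEN → S_TRP → S_NZA

/-- NZB. Good sets exist. `U` from `NZat`; `B` = the connected component of `x` in `U ∩ N` (open). If `V ⊆ B` is open, nonempty and `VanO k 3 V`, then by `Sj` every `c ∈ CyO 3 B` is equivalent to a `c' ∈ CyO 3 V`, so `VanO k 3 B`,
against `NZat`. -/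
def S_NZB : Prop := ∀ (k X : Type) [Field k] [MetricSpace X] [CompactSpace X],
  LocallyPathConnectedSpace X → Sj k X → (∀ x : X, NZat k x) → ∀ (x : X) (N : Set X),
  IsOpen N → x ∈ N → ∃ B ⊆ N, x ∈ B ∧ GB k B

/-- NSB. Compact sets `J` with `H^2(J) = 0` do not separate good sets. Suppose `B \ J = P ∪ Q`, disjoint, open, nonempty. Let `z ∈ CyO 3 B`, not in `BdO 3 B`. By `Sj` there are `a ∈ CyO 3 P`, `b ∈ CyO 3 Q` with `z - a, z - b ∈ BdO 3 B`, so `a - b ∈ BdO 3 B`; by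
S_EXJ (1) `a - b ∈ BdO 3 (B \ J)`; S_MVO (4) for `U = P`, `V = Q` (`P ∩ Q = ∅`, `CyO 3 ∅ e` means that `e` vanishes near `univ`) gives `a ∈ BdO 3 P ⊆ BdO 3 B`, so `z ∈ BdO 3 B`: contradiction. -/
def S_NSB : Prop := ∀ (k X : Type) [Field k] [MetricSpace X] [CompactSpace X], Sj k X →
  ∀ B J : Set X, GB k B → IsCompact J → J ⊆ B → Van k 2 J ∅ → IsPreconnected (B \ J)

def M_NSB : Prop := S_EXJ → S_MVO → S_NSB

/-- GNB. Good sets are not separated by points and arcs. `B' ⊆ B` is again good (`GB k B'`). Points: S_PNT and S_NSB; `B' \ {y}` is nonempty: if `B' = {y}`, then `{y}` is open and closed, `c ∈ CyO 3 {y}` is a coboundary near `{y}` by S_PNT,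
`c - dd f` vanishes near `{y}`; cut `f` off (S_CUT): `VanO k 3 {y}`, impossible. Arcs: S_ARC (2). -/
def S_GNB : Prop := ∀ (k X : Type) [Field k] [MetricSpace X] [CompactSpace X], Sj k X →
  ∀ B : Set X, GB k B → GN B

def M_GNB : Prop := S_PNT → S_CUT → S_ARC → S_NSB → S_GNB

/-- HAR. Hartogs. `W i` from S_OUS (`B \ {x}` is connected: S_NSB and S_PNT, nonempty as otherwise `VanO k 3 B`, see S_GNB). `HO (W i)` is finite dimensional (S_FDV) and `ext : HO (W i) → HO (W (i+1))` is onto (`Sj`); so `finrank` decreases and is constant for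
`i ≥ i₀`, and then all `ext : HO (W i₀) → HO (W j)`, `j ≥ i₀`, are injective. `D = B \ W i₀`, `B \ D = W i₀`. If `c ∈ CyO 3 (W i₀)` is in `BdO 3 B` then by S_EXJ (1) for `J = {x}` it is in `BdO 3 (B \ {x})`; `B \ {x} = ⋃ W j`, so by
S_NBH (2) in `BdO 3 (W j)` for some `j ≥ i₀`, so in `BdO 3 (W i₀)`. -/
def S_HAR : Prop := ∀ (k X : Type) [Field k] [MetricSpace X] [CompactSpace X], IsANR X →
  Sj k X → ∀ (B N : Set X) (x : X), GB k B → GN B → x ∈ B → IsOpen N → x ∈ N →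
  ∃ D : Set X, IsCompact D ∧ D ⊆ B ∩ N ∧ x ∈ interior D ∧ IsConnected (B \ D) ∧
    ∀ c : Cc k X, CyO 3 (B \ D) c → BdO 3 B c → BdO 3 (B \ D) c

def M_HAR : Prop := S_FDV → S_OUS → S_LPX → S_EXJ → S_NBH → S_PNT → S_HAR

/-- HAS. `H^2(D) = 0`. Let `c ∈ Cyc 2 D ∅`; `c'` from S_EXJ (3) (`J = D`, `p = 2`): `dd c' ∈ CyO 3 (B \ D) ∩ BdO 3 B`, so `dd c' ∈ BdO 3 (B \ D)`: `dd c' - dd e` vanishes near `univ`, `e` near `(B \ D)ᶜ`. `c' - e ∈ CyO 2 B`, so
`c' - e ∈ BdO 2 B'`, `c' - e - dd f` vanishes near `univ`; near `D`: `c = c'`, `e = 0`. -/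
def S_HAS : Prop := ∀ (M X : Type) [AddCommGroup M] [MetricSpace X] [CompactSpace X]
  (B B' D : Set X), IsOpen B → B ⊆ B' → IsCompact D → D ⊆ B →
  (∀ c : Cc M X, CyO 3 (B \ D) c → BdO 3 B c → BdO 3 (B \ D) c) →
  (∀ c : Cc M X, CyO 2 B c → BdO 2 B' c) → Van M 2 D ∅

def M_HAS : Prop := S_EXJ → S_HAS

end BBH


end

section

/-!
# BBH, block D: Alexandroff's theorem in dimension three

A compact ANR of covering dimension 3 has `H^3_c(V; ℤ/p) ≠ 0` for some prime `p` and some open `V`.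
The map `f : L → ℝ³ \ 0` that does not extend to `K` (`CTO.S_OBS0`) is treated as a line bundle with two sections: `S² = ℂP¹`,
`hp : ℂ² → ℝ³` is the Hopf map.  If the integral class in `H^3(K, L)` is zero, the line bundle extends to `K`, and then the
two sections extend without common zeros because `dim X ≤ 3 < 4` (`CTO.S_EXT4`).
Module `X` proves `theorem t_X : M_X` (or `t_X : S_X`) in the namespace `BBH`, in the file `Pool/Agent/BBH/D_X.lean`.
The theorems of `Pool/Agent/CTO/` (`CTO.t_EXT4` etc.) may be imported; they are hypotheses here when they are needed.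
-/

set_option autoImplicit false

namespace BBH

open Set Topology CTO

/-- the Hopf map -/
noncomputable def hp (v : ℂ × ℂ) : R3 :=
  !₂[2 * (v.1 * (starRingEnd ℂ) v.2).re, 2 * (v.1 * (starRingEnd ℂ) v.2).im,
    ‖v.1‖ ^ 2 - ‖v.2‖ ^ 2]

/-- the hermitian product -/
noncomputable def ip (v w : ℂ × ℂ) : ℂ :=
  (starRingEnd ℂ) v.1 * w.1 + (starRingEnd ℂ) v.2 * w.2

/-- HPF. Facts on the Hopf map. (5): if `‖v.1‖² = (‖h‖ + h 2) / 2 ≠ 0`, `λ = w.1 / v.1` works (`w.1 * conj w.2 = v.1 * conj v.2` and `‖w.1‖ = ‖v.1‖`), otherwise `v.1 = w.1 = 0` and `‖v.2‖ = ‖w.2‖`. (4) `v.1 = sqrt ((‖y‖ + y 2) / 2)`, `v.2 = conj ((y 0 + i y 1) / 2) / v.1`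
(or `(0, sqrt ‖y‖)` if `v.1 = 0`). (6) `ip v u • v = (‖v.1‖² u.1 + (v.1 * conj v.2) u.2, conj (v.1 * conj v.2) u.1 + ‖v.2‖² u.2)` and for a unit vector `v` `‖v.1‖² = (1 + h 2) / 2`, `‖v.2‖² = (1 - h 2) / 2`, `v.1 * conj v.2 = (h 0 + i h 1) / 2`.
(7) with `‖ip v w‖² = (1 + ⟪hp v, hp w⟫) / 2 = 1 - ‖hp v - hp w‖² / 4` and `λ = ip w v / ‖ip w v‖` (so that `ip v (λ • w) > 0`): `‖(λ • w - v).1‖² + ‖(λ • w - v).2‖² = 2 - 2 ‖ip v w‖`. -/
def S_HPF : Prop := Continuous hp ∧ (∀ v, ‖hp v‖ = ‖v.1‖ ^ 2 + ‖v.2‖ ^ 2) ∧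
  (∀ (z : ℂ) (v : ℂ × ℂ), hp (z • v) = (‖z‖ ^ 2) • hp v) ∧ (∀ y, ∃ v, hp v = y) ∧
  (∀ v w, hp v = hp w → ∃ z : ℂ, ‖z‖ = 1 ∧ w = z • v) ∧
  (∃ Q : R3 × (ℂ × ℂ) → ℂ × ℂ, Continuous Q ∧ ∀ v u : ℂ × ℂ, ‖v.1‖ ^ 2 + ‖v.2‖ ^ 2 = 1 →
    Q (hp v, u) = ip v u • v) ∧
  ∀ η : ℝ, 0 < η → ∃ δ : ℝ, 0 < δ ∧ ∀ v w : ℂ × ℂ, ‖v.1‖ ^ 2 + ‖v.2‖ ^ 2 = 1 →
    ‖w.1‖ ^ 2 + ‖w.2‖ ^ 2 = 1 → ‖hp v - hp w‖ < δ → ∃ z : ℂ, ‖z‖ = 1 ∧ ‖z • w - v‖ < η

/-- the data of the line bundle: `v x` a unit vector in the line of `x`, `t x y` the phase of `ip (v x) (v y)` in full turns, `c` the integral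
cocycle, `ε` the scale -/
structure Lin {X : Type} [MetricSpace X] (L : Set X) (v : X → ℂ × ℂ) (t : X → X → ℝ)
    (c : X → X → X → ℤ) (ε : ℝ) : Prop where
  pos : 0 < ε
  unit : ∀ x, ‖(v x).1‖ ^ 2 + ‖(v x).2‖ ^ 2 = 1
  ph : ∀ x y, ip (v x) (v y) = ‖ip (v x) (v y)‖ * Complex.exp (2 * Real.pi * t x y * Complex.I)
  uat : UAt (fun x => hp (v x)) L
  ne : ∀ x y, [x, y] ∈ Small L ε → ip (v x) (v y) ≠ 0
  sm : ∀ x y z, [x, y, z] ∈ Small L ε → |t y z - t x z + t x y - c x y z| ≤ 1 / 16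
  cy : ∀ x y z w, [x, y, z, w] ∈ Small L ε → c y z w - c x z w + c x y w - c x y z = 0

/-- LNA. The data exist. `exists_extend` (Maps.lean) for `x ↦ (1 / ‖f x‖) • f x` on `L`: `f'`, uniformly continuous at `L`, with values of norm 1; `v x` with `hp (v x) = f' x` (S_HPF (4), unit by (2)); `t x y = Complex.arg (ip (v x) (v y)) / (2 π)`,
`c x y z = round (t y z - t x z + t x y)` (the nearest integer). If `x, y, z` are close to each other and near `L`, the points `hp (v x)`, … are close to each other, so by (7) there are `z₁ z₂` of norm 1 with `z₁ • v y`, `z₂ • v z` close to `v x`; the number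
`ip (v x) (v y) * ip (v y) (v z) * ip (v z) (v x)` does not change when the vectors are multiplied by numbers of norm 1, so it is close to `1`, and `ip (v x) (v y) ≠ 0`. Its phase is `exp (2 π i (t y z - t x z + t x y))` (`ip w v = conj (ip v w)`), so
`t y z - t x z + t x y` is close to an integer. `cy`: the alternating sum of the four real numbers `t - t + t` is `0`, so the integer is `≤ 4 / 16` in absolute value. -/
def S_LNA : Prop := ∀ (X : Type) [MetricSpace X] [CompactSpace X] (L : Set X) (f : X → R3),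
  IsClosed L → L.Nonempty → ContinuousOn f L → (∀ x ∈ L, f x ≠ 0) →
  ∃ (v : X → ℂ × ℂ) (t : X → X → ℝ) (c : X → X → X → ℤ) (ε : ℝ), Lin L v t c ε ∧
    ∀ x ∈ L, f x = ‖f x‖ • hp (v x)

def M_LNA : Prop := S_HPF → S_LNA

/-- the functions `φ j`, `j < n`, are a partition of unity; `g j k` are transition functions for the cover by the sets `{φ j ≠ 0}` over `K` -/
structure Trn {X : Type} [MetricSpace X] {n : ℕ} (K : Set X) (φ : Fin n → X → ℝ)
    (g : Fin n → Fin n → X → ℂ) : Prop where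
  con : ∀ j, Continuous (φ j)
  nn : ∀ j x, 0 ≤ φ j x
  sum : ∀ x, ∑ j, φ j x = 1
  cg : ∀ j k, ContinuousOn (g j k) {x | x ∈ K ∧ φ j x ≠ 0 ∧ φ k x ≠ 0}
  ne : ∀ j k, ∀ x ∈ K, g j k x ≠ 0
  mul : ∀ i j k, ∀ x ∈ K, φ i x ≠ 0 → φ j x ≠ 0 → φ k x ≠ 0 → g i j x * g j k x = g i k x

/-- `F` is a pair of sections without common zeros over `S` -/
structure Sct {X : Type} [MetricSpace X] {n : ℕ} (S : Set X) (φ : Fin n → X → ℝ)
    (g : Fin n → Fin n → X → ℂ) (F : Fin n → X → ℂ × ℂ) : Prop where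
  con : ∀ j, ContinuousOn (F j) {x | x ∈ S ∧ φ j x ≠ 0}
  ne : ∀ j, ∀ x ∈ S, φ j x ≠ 0 → F j x ≠ 0
  tr : ∀ j k, ∀ x ∈ S, φ j x ≠ 0 → φ k x ≠ 0 → F k x = g j k x • F j x

/-- EXS. Sections extend from `L` to `K` if `dim X ≤ 3`. The closed sets `K j = {x ∈ K | 1 / n ≤ φ j x}` cover `K`. Extend successively over `L ∪ K 0`, `L ∪ K 0 ∪ K 1`, …: let `F` be a section over the closed set `S` (`L ⊆ S ⊆ K`); `F i` on the closed set `S ∩ K i` is continuous without zeros;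
`CTO.S_EXT4` (identify `ℂ × ℂ` with `R4` by real and imaginary parts) extends it to `F'` on `X`. Put `F' j x = F j x` for `x ∈ S` and `F' j x = g i j x • F' x` for `x ∈ K i`, `φ j x ≠ 0`: the two definitions agree on `S ∩ K i`; continuity: both sets are closed relative to
`{x | φ j x ≠ 0}`. `g i i = 1` on `K ∩ {φ i ≠ 0}` by `mul`. -/
def S_EXS : Prop := ∀ (X : Type) [MetricSpace X] [CompactSpace X], ShrLE X 3 →
  ∀ (n : ℕ) (K L : Set X) (φ : Fin n → X → ℝ) (g : Fin n → Fin n → X → ℂ)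
    (F : Fin n → X → ℂ × ℂ), IsClosed K → IsClosed L → L ⊆ K → Trn K φ g → Sct L φ g F →
  ∃ F' : Fin n → X → ℂ × ℂ, Sct K φ g F' ∧ ∀ j, ∀ x ∈ L, φ j x ≠ 0 → F' j x = F j x

def M_EXS : Prop := S_EXT4 → S_EXS

/-- the transition functions of the cocycle `C` -/
noncomputable def trn {X : Type} {n : ℕ} (q : Fin n → X) (φ : Fin n → X → ℝ)
    (C : X → X → X → ℤ) (j k : Fin n) (x : X) : ℂ :=
  Complex.exp (2 * Real.pi * (∑ m, φ m x * C (q j) (q k) (q m) : ℝ) * Complex.I)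

/-- TRN. `trn q φ C` are transition functions: with `τ j k x = ∑ m, φ m x * C (q j) (q k) (q m)`: for `x` with `φ i x, φ j x, φ k x ≠ 0` and every `m` with `φ m x ≠ 0` the list `[q i, q j, q k, q m]` is in `Small K ε` (all points are in `ball x (ε / 4)`), so
`τ j k x - τ i k x + τ i j x = ∑ m, φ m x * C (q i) (q j) (q k) = C (q i) (q j) (q k)`, an integer. -/
def S_TRN : Prop := ∀ (X : Type) [MetricSpace X] (n : ℕ) (K : Set X) (φ : Fin n → X → ℝ)
  (q : Fin n → X) (C : X → X → X → ℤ) (ε : ℝ), 0 < ε → (∀ j, Continuous (φ j)) →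
  (∀ j x, 0 ≤ φ j x) → (∀ x, ∑ j, φ j x = 1) → (∀ j x, φ j x ≠ 0 → dist x (q j) < ε / 4) →
  (∀ x y z w, [x, y, z, w] ∈ Small K ε → C y z w - C x z w + C x y w - C x y z = 0) →
  Trn K φ (trn q φ C)

/-- SLL. The sections over `L`. For `x ∈ L`, `φ j x ≠ 0` (and arbitrary otherwise): `F j x = exp (2 π i ∑ m, φ m x * (t x (q m) + c x (q j) (q m) - κ (q j) (q m))) • v x`. For `x ∈ L` all the points `q j` with `φ j x ≠ 0` are in `ball x (ε / 4)`, so lists of `x` and such points are in `Small L ε`.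
`tr`: by `Lin.cy` for `[x, q j, q k, q m]`: `c x k m - c x j m = c j k m - c x j k`, and `c j k m = C j k m + κ k m - κ j m + κ j k` (short: `j` for `q j`), so the exponent for `k` minus the exponent for `j` is `∑ m, φ m x * (C j k m + κ j k - c x j k)`, i.e.
`τ j k x` plus an integer. Continuity at `x₀ ∈ L`, `φ j x₀ ≠ 0`: write `F j x = exp (2 π i ψ x) • w x`, `w x = exp (2 π i t x (q j)) • v x = (1 / ‖ip (v x) (v (q j))‖) • (ip (v x) (v (q j)) • v x)` (by `Lin.ph`): by S_HPF (6) it is a continuous function of `hp (v x)` (the norm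
of the vector `ip (v x) u • v x` determines `‖ip (v x) u‖`), and `x ↦ hp (v x)` is continuous on `L`. `ψ x = ∑ m, φ m x * (t (q j) (q m) - κ (q j) (q m) - σ x (q j) (q m))`, where `σ x y z = t y z - t x z + t x y - c x y z`, `|σ| ≤ 1 / 16`; the terms with `φ m x = 0` can be
neglected; for `φ m x ≠ 0`: `exp (2 π i σ x (q j) (q m))` is the phase of `B = ip (v x) (v (q j)) * ip (v (q j)) (v (q m)) * ip (v (q m)) (v x) = ip (v (q j)) (v (q m)) * ip (v (q m)) (ip (v x) (v (q j)) • v x)`, continuous in `x ∈ L` and nonzero, so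
`σ = arg B / (2 π)` is continuous there (`|σ| < 1 / 2`, positive real part); and `φ m x * σ` is continuous at the points with `φ m x = 0` as `σ` is bounded (put it `0` there). -/
def S_SLL : Prop := ∀ (X : Type) [MetricSpace X] [CompactSpace X] (L : Set X) (v : X → ℂ × ℂ)
  (t : X → X → ℝ) (c C : X → X → X → ℤ) (κ : X → X → ℤ) (ε : ℝ) (n : ℕ)
  (φ : Fin n → X → ℝ) (q : Fin n → X), IsClosed L → Lin L v t c ε → (∀ j, Continuous (φ j)) →
  (∀ j x, 0 ≤ φ j x) → (∀ x, ∑ j, φ j x = 1) → (∀ j x, φ j x ≠ 0 → dist x (q j) < ε / 4) →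
  (∀ x y z, [x, y, z] ∈ Small L ε → c x y z - C x y z = κ y z - κ x z + κ x y) →
  ∃ F : Fin n → X → ℂ × ℂ, Sct L φ (trn q φ C) F ∧
    ∀ j, ∀ x ∈ L, φ j x ≠ 0 → ∃ z : ℂ, ‖z‖ = 1 ∧ F j x = z • v x

def M_SLL : Prop := S_HPF → S_SLL

/-- ALX. If `H^3(K, L; ℤ) = 0` then `f` extends. `L` empty: trivial. `Lin` from S_LNA. Let `c2 : Cc ℤ X` be `c x y z` on `[x, y, z]` and `0` on the other lists: `Cyc 2 L ∅ c2` (`dd c2 [x, y, z, w] = c y z w - c x z w + c x y w - c x y z`). `dd c2 ∈ Cyc 3 K L` (`les_conn`) is a coboundary; `les_right`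
gives `C2 ∈ Cyc 2 K ∅` and `κ2` of degree 1 with `c2 - C2 - dd κ2` zero near `L` (`dd κ2 [x, y, z] = κ y z - κ x z + κ x y`). Let `ε` be small for all these conditions (`Lin` with a smaller `ε` is clear). A finite net `q j` of `X` with balls of radius `ε / 8`,
`h j x = max 0 (ε / 4 - dist x (q j))`, `φ j = h j / ∑ h` (if `h j x ≠ 0` then `dist x (q j) < ε / 4`; the sum is `≥ ε / 8`). S_TRN, S_SLL, S_EXS give `F'`. For `x ∈ K` let `G x = (1 / ‖hp (F' j x)‖) • hp (F' j x)` for any `j` with `φ j x ≠ 0`: independent of `j`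
(S_HPF (3)), continuous on `K` (the sets `{φ j ≠ 0}` are open), without zeros, and `= hp (v x)` on `L`. `log ‖f x‖` on `L` extends continuously to `l : X → ℝ` (Tietze); the extension is `exp (l x) • G x`. -/
def S_ALX : Prop := ∀ (X : Type) [MetricSpace X] [CompactSpace X], ShrLE X 3 →
  ∀ (K L : Set X) (f : X → R3), IsClosed K → IsClosed L → L ⊆ K → ContinuousOn f L →
  (∀ x ∈ L, f x ≠ 0) → Van ℤ 3 K L → Ext L K f

def M_ALX : Prop := S_HPF → S_LNA → S_EXS → S_TRN → S_SLL → S_ALX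

/-- ZNZ. An open set with `H^3_c(V; ℤ) ≠ 0`. `CTO.S_OBS0` gives `L, K, f`; by S_ALX there is `c ∈ Cyc 3 K L`, not a coboundary. `dd c ∈ Cyc 4 univ K` is a coboundary by S_DIM; `les_right` gives `c' ∈ Cyc 3 univ L` with `Bd 3 K L (c - c')`. `V = Lᶜ`. -/
def S_ZNZ : Prop := ∀ (X : Type) [MetricSpace X] [CompactSpace X], ShrLE X 3 → ¬ ShrLE X 2 →
  ∃ V : Set X, IsOpen V ∧ ¬ VanO ℤ 3 V

def M_ZNZ : Prop := S_OBS0 → S_ALX → S_DIM → S_ZNZ

/-- DVP. Divisibility. Let `c ∈ CyO q V` be integral. The reduction `l ↦ (c l : ZMod p)` is in `CyO q V`, so it is `dd b̄` near `univ`, `b̄` of degree `q - 1`, zero near `Vᶜ`. Lift `b̄` to an integral `b` with `b l = 0` if `b̄ l = 0` (`ZMod.val`). For `l` with `p ∣ (c - dd b) l` let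
`c' l = (c - dd b) l / p`, otherwise `c' l = 0`: `c - dd b - p • c'` vanishes near `univ` (`dd` commutes with the reduction: `dd_map`), `c' ∈ CyO q V` (`p • dd c' = 0` on small lists). -/
def S_DVP : Prop := ∀ (X : Type) [MetricSpace X] (p : ℕ) (q : ℤ) (V : Set X), 0 < p →
  VanO (ZMod p) q V → ∀ c : Cc ℤ X, CyO q V c → ∃ c' : Cc ℤ X, CyO q V c' ∧
    BdO q V (c - (p : ℤ) • c')

/-- FGD. Finitely generated divisible abelian groups are trivial: if `A ≠ 0` is f. g. there is a maximal subgroup (`A` is a Noetherian `ℤ`-module, `A ≠ ⊥`; or use the structure theorem `AddCommGroup.equiv_free_prod_directSum_zmod`), the quotient is a simple abelian group, `ℤ/p` for a prime `p`, but it is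
`p`-divisible: contradiction. -/
def S_FGD : Prop := ∀ (A : Type) [AddCommGroup A] [Module.Finite ℤ A],
  (∀ p : ℕ, p.Prime → ∀ a : A, ∃ b : A, a = (p : ℤ) • b) → ∀ a : A, a = 0

/-- PRM. A prime. Suppose `VanO (ZMod p) 3 V` for all primes `p` and all open `V`. Let `c ∈ CyO 3 V` be integral; `c ∈ CyO 3 W` with `closure W ⊆ V` (S_NBH (1) for `c`; `dd c` vanishes near `univ` anyway). The range `I` of `ext : HO ℤ ℤ 3 W → HO ℤ ℤ 3 V` is f. g. (S_FIO (1) with `R = M = ℤ`) and divisible by all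
primes by S_DVP for `W`; so `I = 0` (S_FGD) and `BdO 3 V c`. So `VanO ℤ 3 V` for all open `V`, against S_ZNZ. -/
def S_PRM : Prop := ∀ (X : Type) [MetricSpace X] [CompactSpace X], IsANR X → ShrLE X 3 →
  ¬ ShrLE X 2 → ∃ (p : ℕ) (V : Set X), p.Prime ∧ IsOpen V ∧ ¬ VanO (ZMod p) 3 V

def M_PRM : Prop := S_NBH → S_FIO → S_ZNZ → S_DVP → S_FGD → S_PRM

/-- GNX. Good sets for the arcs. `p`, `V` from S_PRM; `k = ZMod p` is a countable (finite) field (`Fact p.Prime`, `ZMod.instField`); S_SRJ, S_NZA, S_NZB, S_GNB. -/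
def S_GNX : Prop := ∀ (X : Type) [MetricSpace X] [CompactSpace X], IsANR X → Homog X →
  ShrLE X 3 → ¬ ShrLE X 2 → ∀ (x : X) (N : Set X), IsOpen N → x ∈ N → ∃ B ⊆ N, x ∈ B ∧ GN B

def M_GNX : Prop := S_LPX → S_PRM → S_SRJ → S_NZA → S_NZB → S_GNB → S_GNX

end BBH


end

section

/-!
# BBH, block E: the local groups in the degrees 0, 1, 2

Module `X` proves `theorem t_X : M_X` (or `t_X : S_X`) in the namespace `BBH`, in the file `Pool/Agent/BBH/E_X.lean`.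
`LT M p x` (Fun.lean): `H^p_c( ; M)` is locally trivial at `x`.
-/

set_option autoImplicit false

namespace BBH

open Set Topology CTO

/-- every point has small neighbourhoods that are not separated by arcs -/
def GNs (X : Type) [MetricSpace X] : Prop :=
  ∀ (x : X) (N : Set X), IsOpen N → x ∈ N → ∃ B ⊆ N, x ∈ B ∧ GN B

/-- GEQ. Local triviality is global if the next group is zero. Proof as for S_GEN (`Pool/Agent/BBH/C_GEN.lean`): S_NBH (1): `c ∈ CyO q W'`, `closure W' ⊆ V`; cover the compact set `closure W'` by finitely many open `Vy ⊆ V` such that `CyO q Vy ⊆ BdO q V` (`LT` with `U = V`); induction on the number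
of sets with S_MVO (5). -/
def S_GEQ : Prop := ∀ (M X : Type) [AddCommGroup M] [MetricSpace X] [CompactSpace X] (q : ℤ),
  (∀ V : Set X, IsOpen V → VanO M (q + 1) V) → (∀ x : X, LT M q x) →
  ∀ V : Set X, IsOpen V → VanO M q V

def M_GEQ : Prop := S_MVO → S_NBH → S_GEQ

/-- LT0. Given `U ∋ x`, let `B ⊆ U` with `GN B`, `x ∈ B`; `B \ {x}` is nonempty, `w ∈ B \ {x}`, and `V ∋ x` open, `V ⊆ B`, `w ∉ closure V`. `c ∈ CyO 0 V` is near `B` a constant cochain `c0 fun _ => m` (S_CON for `A = B`) and `c [w] = 0`, so `m = 0`, `c` vanishes near `B` and near `Vᶜ`. -/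
def S_LT0 : Prop := ∀ (M X : Type) [AddCommGroup M] [MetricSpace X] [CompactSpace X], GNs X →
  ∀ x : X, LT M 0 x

def M_LT0 : Prop := S_CON → S_LT0

/-- LT1. Degree one. Given `U ∋ x`; S_LPX (2) with `W = univ`: `V₀ ∋ x` with `Ctr (closure V₀) univ`; `B ⊆ U ∩ V₀`, `x ∈ B`, `GN B`; `Ctr (closure B) univ`. S_OUT for `J = {x}`, `N = B` (`w ∈ B \ {x}` arbitrary) gives `K`, `W`; `V = interior K`. Let `c ∈ CyO 1 V`. By S_CTR `c - dd f` vanishes near `closure B`, `f`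
of degree 0. `c` vanishes near `Vᶜ ⊇ W`, so `dd f` vanishes near `W`, and by S_CON `f - c0 (fun _ => m)` vanishes near `W`; replace `f` by this difference: `f` vanishes near `W`, `c - dd f` near `closure B`. Let `f' = ind {l | ∀ y ∈ l, y ∈ B} f`. Then `f'` vanishes near `Bᶜ` (points of `B` near
`Bᶜ` are in `W`, as `B \ W` is compact: near `B \ W` the set `Bᶜ` is not met), and `c - dd f'` vanishes near `univ = (B \ W) ∪ W ∪ Bᶜ` (`Zr.union`, `dd_congr`): near `B \ W` small lists are in `B`, `f' = f`; near `W` and near `Bᶜ` both `c` and `f'` vanish (`f` near `W`). So `BdO 1 B c`, `BdO 1 U c`. -/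
def S_LT1 : Prop := ∀ (M X : Type) [AddCommGroup M] [MetricSpace X] [CompactSpace X],
  IsANR X → GNs X → ∀ x : X, LT M 1 x

def M_LT1 : Prop := S_CTR → S_CON → S_OUT → S_LPX → S_LT1

/-! ## Monodromy -/

/-- the 1-cochain `g` is `dd f` near the arc `A` from `a` to `b`, and `m = f b - f a` -/
def Mo {k X : Type} [Field k] [MetricSpace X] (A : Set X) (a b : X) (g : Cc k X) (m : k) :
    Prop := ∃ f : X → k, Zr A (g - dd (c0 f)) ∧ m = f b - f a

/-- MOA. Monodromy along arcs. (1) S_ARC (1) for `F = A`, `p = 1`, and `Dg.eq_c0`. (2) `dd (c0 (f - f'))` vanishes near `A`, `A` is connected: S_CON. (3), (4) clear. (5) `f w = g [a, w]`: for `w, w'` near `A` and close to each other `[a, w, w'] ∈ Small S ε`, so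
`g [w, w'] = g [a, w'] - g [a, w]`; `g [a, a] = dd g [a, a, a] = 0`. On the lists of other lengths both sides are `0`. -/
def S_MOA : Prop := ∀ (k X : Type) [Field k] [MetricSpace X] (A : Set X) (a b : X),
  BBP.Arc A a b →
  (∀ g : Cc k X, Cyc 1 A ∅ g → ∃ m, Mo A a b g m) ∧
  (∀ (g : Cc k X) (m m' : k), Mo A a b g m → Mo A a b g m' → m = m') ∧
  (∀ (g g' : Cc k X) (m m' : k), Mo A a b g m → Mo A a b g' m' → Mo A a b (g + g') (m + m')) ∧
  (∀ (g : Cc k X) (t m : k), Mo A a b g m → Mo A a b (t • g) (t * m)) ∧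
  (∀ (g g' : Cc k X) (m : k), Zr A (g - g') → Mo A a b g m → Mo A a b g' m) ∧
  ∀ (g : Cc k X) (S : Set X) (ε : ℝ), 0 < ε → Dg X 1 g → (∀ l ∈ Small S ε, dd g l = 0) →
    A ⊆ S → A ⊆ Metric.ball a (ε / 4) → Mo A a b g (g [a, b])

def M_MOA : Prop := S_ARC → S_CON → S_MOA

/-- a 1-cycle with coefficients in `k` made of finitely many arcs -/
structure ACy {k X : Type} [Field k] [MetricSpace X] {n : ℕ} (A : Fin n → Set X)
    (a b : Fin n → X) (z : Fin n → k) : Prop where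
  arc : ∀ i, BBP.Arc (A i) (a i) (b i)
  bd : ∀ f : X → k, ∑ i, z i * (f (b i) - f (a i)) = 0

/-- MOC. A primitive on the arcs. Let `ι` be the type of the triples `(A, a, b)` with `Arc A a b`, `A ⊆ O`, and `m : ι → k` the monodromies (S_MOA (1): `dd g` vanishes near `A`; unique by (2)). Linear maps `D : (ι →₀ k) → (X →₀ k)`, `single i 1 ↦ single b 1 - single a 1`, and `μ : (ι →₀ k) → k`, `single i 1 ↦ m i`.
`ker D ≤ ker μ`: for `w ∈ ker D` enumerate its support by `Fin n`: it is an `ACy` in `O`, so `μ w = 0`. So there is a linear `ψ` with `ψ ∘ D = μ` (extend from the range of `D`); `f x = ψ (single x 1)`. -/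
def S_MOC : Prop := ∀ (k X : Type) [Field k] [MetricSpace X] (O : Set X) (g : Cc k X),
  Dg X 1 g → Zr O (dd g) →
  (∀ (n : ℕ) (A : Fin n → Set X) (a b : Fin n → X) (z m : Fin n → k), ACy A a b z →
    (∀ i, A i ⊆ O) → (∀ i, Mo (A i) (a i) (b i) g (m i)) → ∑ i, z i * m i = 0) →
  ∃ f : X → k, ∀ (A : Set X) (a b : X), BBP.Arc A a b → A ⊆ O → Mo A a b g (f b - f a)

def M_MOC : Prop := S_MOA → S_MOC

/-- MOD. `g = dd f` near compact subsets. Let `dd g = 0` on `Small O ε`. For `y ∈ K` let `P y ⊆ O ∩ ball y (ε / 8)` be an open path connected neighbourhood of `y`; there is `δ > 0` such that any `u`, `v` at distance `< δ` and at distance `< δ` from `K` are in some `P y`. If `u ≠ v` there is an arc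
`A ⊆ P y ⊆ ball u (ε / 4)` from `u` to `v` (`BBP.S_PTA`), so `g [u, v] = f v - f u` (S_MOA (5), (2)); `g [u, u] = 0`. -/
def S_MOD : Prop := ∀ (k X : Type) [Field k] [MetricSpace X] [CompactSpace X],
  LocallyPathConnectedSpace X → ∀ (O K : Set X) (g : Cc k X) (f : X → k), IsOpen O →
  IsCompact K → K ⊆ O → Dg X 1 g → Zr O (dd g) →
  (∀ (A : Set X) (a b : X), BBP.Arc A a b → A ⊆ O → Mo A a b g (f b - f a)) →
  Zr K (g - dd (c0 f))

def M_MOD : Prop := S_MOA → BBP.S_PTA → S_MOD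

/-- MOE. The functional of a cycle. `Z = ⋃ i, A i`. Let `T` be the subspace of the pairs `(c, g)` with `CyO 2 Zᶜ c`, `Dg X 1 g`, `Zr K (c - dd g)`; then `g ∈ Cyc 1 Z ∅` (`c` vanishes near `Z`), the monodromies `m i` exist and are unique and linear in `g` (S_MOA), `μ (c, g) = ∑ i, z i * m i`. If `c = 0` near … : if `c` is such that
`(c, g) ∈ T` with `c = 0` then `g ∈ Cyc 1 K ∅`, so `g = dd f` near `Q ⊇ Z` with `f` of degree 0 (`Dg.eq_c0`) and `μ (c, g) = 0` by `ACy.bd`. So `μ` factors through the projection `T → Cc k X`, `(c, g) ↦ c`, and extends to `s : Cc k X → k`. If `c ∈ CyO 2 Zᶜ` is in `BdO 2 Zᶜ`, `c - dd b` vanishes near `univ` and `b`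
near `Z`, then `(c, b) ∈ T` and all monodromies of `b` are `0`: `s c = 0`. -/
def S_MOE : Prop := ∀ (k X : Type) [Field k] [MetricSpace X] [CompactSpace X] (K Q : Set X)
  (n : ℕ) (A : Fin n → Set X) (a b : Fin n → X) (z : Fin n → k), ACy A a b z → Q ⊆ K →
  (⋃ i, A i) ⊆ Q → (∀ g : Cc k X, Cyc 1 K ∅ g → Bd 1 Q ∅ g) →
  ∃ s : Cc k X →ₗ[k] k, Kil 2 (⋃ i, A i)ᶜ s ∧
    ∀ (c g : Cc k X) (m : Fin n → k), CyO 2 (⋃ i, A i)ᶜ c → Dg X 1 g → Zr K (c - dd g) →
      (∀ i, Mo (A i) (a i) (b i) g (m i)) → s c = ∑ i, z i * m i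

def M_MOE : Prop := S_MOA → S_MOE

/-- LT2. Degree two. Given `U ∋ x`. Choose: `B ∋ x` with `GN B`, and a point `w ∈ B`, `w ≠ x`. `K` a compact neighbourhood of `x` in `B`, `w ∉ K`, with `Ctr K univ` (S_LPX (2)), so `CyO 2 univ`-classes are coboundaries near `K` (S_CTR, `p = 2`): for `c` with `Cyc 2 univ ∅ c` there is `g` of degree 1 with
`Zr K (c - dd g)`. `Q ⊆ interior K` a compact neighbourhood of `x` with `Ctr Q K`: `Cyc 1 K ∅ g → Bd 1 Q ∅ g` (S_CTR). Open sets `x ∈ U' ⊆ closure U' ⊆ U₁ ⊆ closure U₁ ⊆ interior Q'`, `Q'` compact, `Q' ⊆ interior Q`, `U₁ ⊆ U`. S_FIO (2) for `V = U'`: `W ⊆ U'`, `x ∈ W` open, such that every `c ∈ CyO 2 W` is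
equivalent in `BdO 2 U'` to some `c' ∈ CyO 2 W'`, for every open `W' ∋ x`, `W' ⊆ W`. CLAIM: `CyO 2 W ⊆ BdO 2 U₁`. Let `c ∈ CyO 2 W`, `c - dd g` zero near `K`, `O = interior Q \ closure U'` (open); `c` vanishes near `Wᶜ ⊇ O`, so `Zr O (dd g)`. (A) Suppose all cycles in `O` have monodromy `0`: S_MOC gives `f`, S_MOD
for the compact set `C = Q' \ U₁ ⊆ O`: `e = g - dd (c0 f)` vanishes near `C`; `b = ind {l | ∀ y ∈ l, y ∈ Q'} e`: `b` vanishes near `U₁ᶜ` (`exists_thickening_inter`: points of `Q'` near `U₁ᶜ` are near `C`), and `c - dd b` vanishes near `closure U₁` (small lists are in `Q'`, `dd b = dd e = dd g = c`) and near `U₁ᶜ`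
(both vanish): `BdO 2 U₁ c`. (B) Otherwise there is a cycle `(A, a, b, z)` in `O` with monodromies `m i` of `g`, `∑ z i * m i ≠ 0`; `Z = ⋃ A i`; `s` from S_MOE. `V = B \ Z` is open and preconnected (`GN B`), `Kil 2 V s`. `w ∈ V` and `Zg 2 s w` (`Kᶜ` is an open neighbourhood; for `c' ∈ CyO 2 Kᶜ` use `g = 0`). By S_UC `Zg 2 s x`:
`s = 0` on `CyO 2 W'` for an open `W' ∋ x`, `W' ⊆ W`. Let `c' ∈ CyO 2 W'`, `c - c' - dd e` zero near `univ`, `e` of degree 1 and zero near `U'ᶜ ⊇ Z`; then `c' - dd (g - e)` vanishes near `K` and the monodromies of `g - e` are `m i` (S_MOA (5th item)): `0 = s c' = ∑ z i * m i`: contradiction. (`Z ⊆ Q`, `Z` is disjoint from `W`, `x ∉ Z`.) -/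
def S_LT2 : Prop := ∀ (k X : Type) [Field k] [Countable k] [MetricSpace X] [CompactSpace X],
  IsANR X → Homog X → GNs X → ∀ x : X, LT k 2 x

def M_LT2 : Prop := S_UC → S_FIO → S_CTR → S_LPX → S_MOA → S_MOC → S_MOD → S_MOE → S_LT2

/-- NZK. `H^3_c ≠ 0` for every countable field. Otherwise `VanO k 3 V` for all open `V` (S_NZA); S_DIM is not needed. By S_GEQ for `q = 2, 1, 0` (S_LT2, S_LT1, S_LT0) `VanO k 0 univ`: the cocycle `c0 fun _ => 1` would be zero near `univ` (`Dg (-1)` is zero), but `X` is nonempty. -/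
def S_NZK : Prop := ∀ (k X : Type) [Field k] [Countable k] [MetricSpace X] [CompactSpace X]
  [Nonempty X], IsANR X → Homog X → ShrLE X 3 → GNs X → ∀ x : X, NZat k x

def M_NZK : Prop := S_NZA → S_GEQ → S_LT0 → S_LT1 → S_LT2 → S_NZK

end BBH


end

section

/-!
# BBH, block F: the key lemma (twisted cohomology)

Module `X` proves `theorem t_X : M_X` (or `t_X : S_X`) in the namespace `BBH`, in the file `Pool/Agent/BBH/F_X.lean`.

Situation `Ky B B' D O N K W`: `N ⊆ K`, `O ⊆ D ⊆ B ⊆ B'`, `W` is a connected open subset of `B \ K` that contains the connected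
set `B \ D`.  `θ ∈ CyO 2 N`, `Θ` of degree 1 vanishes near `Oᶜ` and `dd Θ = θ` near `univ`.  `s` is a functional on `H^3_c(B)` with
`s (θ ∪ g) = 0` for all `g ∈ Cyc 1 K ∅`.  Conclusion (S_KEY): `θ` is a coboundary in every open set that contains `B \ W`.
The twisted cochains are the pairs `(c₀, c₁)` with the coboundary `(dd c₀ + Θ ∪ c₁, dd c₁)`.
Useful: `dd_cup` (for `p = 1`: `dd (cup Θ c) = cup (dd Θ) c + (-1)^1 • cup Θ (dd c)`, for `p = 0` with `(-1)^0`), `Zr.cup_left`,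
`Zr.cup_right`, `Zr.univ_of`, `Zr.union`, `CyO.of_Zr`, `BdO.of_Zr`, `Dg.cup`, `exists_total`, `exists_fun`.
-/

set_option autoImplicit false

namespace BBH

open Set Topology CTO

/-- the situation of the key lemma -/
structure Ky (k : Type) {X : Type} [Field k] [MetricSpace X] (B B' D O N K W : Set X) :
    Prop where
  opB : IsOpen B
  conB : IsConnected B
  opB' : IsOpen B'
  subB : B ⊆ B'
  tr : ∀ c : Cc k X, CyO 2 B c → BdO 2 B' c
  cD : IsCompact D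
  subD : D ⊆ B
  conD : IsConnected (B \ D)
  inj : ∀ c : Cc k X, CyO 3 (B \ D) c → BdO 3 B c → BdO 3 (B \ D) c
  opO : IsOpen O
  subO : O ⊆ D
  opN : IsOpen N
  subN : N ⊆ K
  opW : IsOpen W
  conW : IsConnected W
  subW : W ⊆ B \ K
  outW : B \ D ⊆ W

/-- `Θ` is a primitive of `θ` with support in `O` -/
structure Pri {k X : Type} [Field k] [MetricSpace X] (O N : Set X) (θ Θ : Cc k X) : Prop where
  cy : CyO 2 N θ
  deg : Dg X 1 Θ
  zer : Zr Oᶜ Θ
  eq : Zr univ (θ - dd Θ)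

/-- KA. (1) `cup Θ η` has degree 3 and vanishes near `Wᶜ`; `dd (cup Θ η) = cup (dd Θ) η - cup Θ (dd η)`: `dd Θ` vanishes near `Nᶜ`, `η` near `Wᶜ`, and `N` and `W` are disjoint; `dd η` vanishes near `univ`. (2) `η ∈ CyO 2 B`, so `η - dd h` vanishes near `univ` for some `h` of degree 1 (`tr`; `h`
vanishes near `B'ᶜ`, not needed); `Cyc 1 K ∅ h` (`η` vanishes near `Wᶜ ⊇ K`), so `s (cup θ h) = 0`. `cup Θ h` has degree 2 and vanishes near `Oᶜ`, `O ⊆ B`: `dd (cup Θ h) ∈ CyO 3 B ∩ BdO 3 B`, `s (dd (cup Θ h)) = 0`. `dd (cup Θ h) = cup (dd Θ) h - cup Θ (dd h)`, and `cup (dd Θ) h - cup θ h`,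
`cup Θ (dd h) - cup Θ η` vanish near `univ` (so `s` is zero on them, they are in `CyO 3 B ∩ BdO 3 B`). So `s (cup Θ η) = s (cup θ h) = 0`. -/
def S_KA : Prop := ∀ (k X : Type) [Field k] [MetricSpace X] (B B' D O N K W : Set X)
  (θ Θ : Cc k X) (s : Cc k X →ₗ[k] k), Ky k B B' D O N K W → Pri O N θ Θ → Kil 3 B s →
  (∀ g : Cc k X, Cyc 1 K ∅ g → s (cup θ g) = 0) →
  ∀ η : Cc k X, CyO 2 W η → CyO 3 W (cup Θ η) ∧ s (cup Θ η) = 0

/-- a functional on the twisted cohomology of `W` that extends `s`; (a), (b), (c) -/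
structure TwP {k X : Type} [Field k] [MetricSpace X] (W : Set X) (Θ : Cc k X)
    (s : Cc k X →ₗ[k] k) (P : (Cc k X × Cc k X) →ₗ[k] k) : Prop where
  a : ∀ c, CyO 3 W c → P (c, 0) = s c
  b : ∀ b₀ b₁ : Cc k X, Dg X 2 b₀ → Dg X 2 b₁ → Zr Wᶜ b₀ → Zr Wᶜ b₁ →
    P (dd b₀ + cup Θ b₁, dd b₁) = 0
  c : ∀ z₀ z₁ : Cc k X, Dg X 3 z₀ → Dg X 3 z₁ → Zr univ z₀ → Zr univ z₁ → P (z₀, z₁) = 0

/-- KB. Existence of `P`. Let `A` be the space of the tuples `(c, b₀, b₁, z₀, z₁)` with `CyO 3 W c`, `b₀, b₁` as in (b), `z₀, z₁` as in (c), `F : A → Cc k X × Cc k X`, `F = (c + dd b₀ + cup Θ b₁ + z₀, dd b₁ + z₁)`, `σ : A → k`, `σ = s c`. `ker F ≤ ker σ`: `dd b₁ = - z₁` vanishes near `univ`, so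
`b₁ ∈ CyO 2 W` and `s (cup Θ b₁) = 0`; `c = - dd b₀ - cup Θ b₁ - z₀`, `dd b₀, z₀ ∈ CyO 3 W ∩ BdO 3 W`, so `s c = 0`. So there is `P` with `P ∘ F = σ` (factor through the range of `F` and extend). -/
def S_KB : Prop := ∀ (k X : Type) [Field k] [MetricSpace X] (W : Set X) (Θ : Cc k X)
  (s : Cc k X →ₗ[k] k), Dg X 1 Θ → Kil 3 W s →
  (∀ η : Cc k X, CyO 2 W η → CyO 3 W (cup Θ η) ∧ s (cup Θ η) = 0) →
  ∃ P : (Cc k X × Cc k X) →ₗ[k] k, TwP W Θ s P

/-- KC. Normalisation outside of `D`. `W₀ = B \ D` (open, connected, nonempty, `⊆ W`). The linear map `c ↦ P (0, c)` on `CyO 3 W₀` kills `BdO 3 W₀`: `c = dd b + z`, `b` of degree 2 zero near `W₀ᶜ`, `z` zero near `univ`; `P (0, dd b) = P (dd 0 + cup Θ b, dd b) - P (cup Θ b, 0)`, and `cup Θ b` vanishes near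
`univ` (`Θ` near `Oᶜ`, `b` near `W₀ᶜ`, `O` and `W₀` are disjoint): all terms are zero by (b), (c). `ext : HO W₀ → HO B` is bijective (`inj`, `Sj`); so (`exists_lift`, `exists_total`) there is `p` with `Kil 3 B p` and `p c = P (0, c)` for `c ∈ CyO 3 W₀`. `P' = P - p ∘ snd`. -/
def S_KC : Prop := ∀ (k X : Type) [Field k] [MetricSpace X] (B B' D O N K W : Set X)
  (θ Θ : Cc k X) (s : Cc k X →ₗ[k] k) (P : (Cc k X × Cc k X) →ₗ[k] k), Sj k X →
  Ky k B B' D O N K W → Pri O N θ Θ → TwP W Θ s P →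
  ∃ P' : (Cc k X × Cc k X) →ₗ[k] k, TwP W Θ s P' ∧ ∀ c, CyO 3 (B \ D) c → P' (0, c) = 0

/-- KD. Local triviality of `Θ`. `dd Θ` vanishes near `Nᶜ`, `y ∈ W ⊆ Nᶜ`; so `Cyc 1 {y} ∅ Θ`, and by S_PNT `Θ - dd f` vanishes near `{y}`, `f = c0 u` (`Dg.eq_c0`); `Zr.nhds`; `V` a small connected open neighbourhood of `y` (locally connected). -/
def S_KD : Prop := ∀ (k X : Type) [Field k] [MetricSpace X], LocallyPathConnectedSpace X →
  ∀ (B B' D O N K W : Set X) (θ Θ : Cc k X), Ky k B B' D O N K W → Pri O N θ Θ →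
  ∀ y ∈ W, ∃ V ⊆ W, IsOpen V ∧ IsConnected V ∧ y ∈ V ∧ ∃ u : X → k, Zr V (Θ - dd (c0 u))

def M_KD : Prop := S_PNT → S_KD

/-- KE. The functional `q c = P (- cup (c0 u) c, c)`. (0) `cup (c0 fun _ => a) c = a • c` for `c` of degree `≥ 0` (evaluate: `sh (c0 f) x` is supported on `[]`, its cup product with anything is `0`). (1) Let `c ∈ CyO 3 V` be in `BdO 3 V`: `c = dd b + z`, `b` of degree 2 zero near `Vᶜ`, `z` zero near `univ`. With
`b₀ = - cup (c0 u) b`: `dd b₀ = - cup (dd (c0 u)) b - cup (c0 u) (dd b)`, so `(dd b₀ + cup Θ b, dd b) = (- cup (c0 u) (dd b) + cup (Θ - dd (c0 u)) b, dd b)`, and `cup (Θ - dd (c0 u)) b` vanishes near `univ` (`Zr V`, `Zr Vᶜ`). So `q (dd b) = 0` by (b), (c), and `q z = 0` by (c). (2) `cup (c0 u - c0 u' - c0 (fun _ => a)) c` vanishes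
near `univ`; `P (a • c, 0) = a * s c` by (a) (`CyO 3 W c`). -/
def S_KE : Prop := ∀ (k X : Type) [Field k] [MetricSpace X] (W : Set X) (Θ : Cc k X)
  (s : Cc k X →ₗ[k] k) (P : (Cc k X × Cc k X) →ₗ[k] k), Dg X 1 Θ → TwP W Θ s P →
  ∀ V ⊆ W, IsOpen V → ∀ u : X → k, Zr V (Θ - dd (c0 u)) →
  (∀ c, CyO 3 V c → BdO 3 V c → P (-cup (c0 u) c, c) = 0) ∧
  ∀ (u' : X → k) (a : k), Zr V (c0 u - c0 u' - c0 fun _ => a) → ∀ c, CyO 3 V c →
    P (-cup (c0 u) c, c) = P (-cup (c0 u') c, c) - a * s c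

/-- good points -/
def Gd {k X : Type} [Field k] [MetricSpace X] (W : Set X) (Θ : Cc k X)
    (P : (Cc k X × Cc k X) →ₗ[k] k) (y : X) : Prop :=
  ∃ V ⊆ W, IsOpen V ∧ IsConnected V ∧ y ∈ V ∧ ∃ u : X → k, Zr V (Θ - dd (c0 u)) ∧
    ∀ c, CyO 3 V c → P (-cup (c0 u) c, c) = 0

/-- KF. All points of `W` are good. Points of `B \ D`: `V = B \ D`, `u = 0` (`Θ` vanishes near `Oᶜ`). The set of good points is open. It is closed in `W`: let `y ∈ W` be in its closure, `(V, u)` from S_KD for `y`, `z ∈ V` a good point with `(Vz, uz)`, `V' ⊆ V ∩ Vz` a connected open neighbourhood of `z`. `dd (c0 u - c0 uz)` vanishes near `V'`,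
so by S_CON `c0 u - c0 uz - c0 (fun _ => a)` vanishes near `V'` for some `a`, and by S_KE (2) for `V'` `P (- cup (c0 u) c, c) = - a * s c` for `c ∈ CyO 3 V'`. Let `u' = u - a`: by S_KE (2) for `V`, `u'`, `u`, `- a` `P (- cup (c0 u') c, c) = P (- cup (c0 u) c, c) + a * s c` for `c ∈ CyO 3 V`, so it is `0` for
`c ∈ CyO 3 V'`, and by S_KE (1) for `u'` (`dd (c0 u') = dd (c0 u)`) and `Sj` (`c - c' ∈ BdO 3 V`, `c' ∈ CyO 3 V'`) for all `c ∈ CyO 3 V`. So `y` is good. `W` is connected (`IsPreconnected.subset_of_closure_inter_subset`). -/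
def S_KF : Prop := ∀ (k X : Type) [Field k] [MetricSpace X], LocallyPathConnectedSpace X →
  Sj k X → ∀ (B B' D O N K W : Set X) (θ Θ : Cc k X) (s : Cc k X →ₗ[k] k)
    (P : (Cc k X × Cc k X) →ₗ[k] k), Ky k B B' D O N K W → Pri O N θ Θ → TwP W Θ s P →
  (∀ c, CyO 3 (B \ D) c → P (0, c) = 0) → ∀ y ∈ W, Gd W Θ P y

def M_KF : Prop := S_CON → S_KD → S_KE → S_KF

/-- KG. The primitive on `W`. Let `(V y, u y)` be as in `Gd` for `y ∈ W`, and `(B \ D, 0)` for `y ∈ B \ D`. If `z ∈ V ∩ V'` for two good pairs `(V, u)`, `(V', u')` then `u z = u' z`: on a connected open neighbourhood `V'' ⊆ V ∩ V'` of `z` `c0 u - c0 u' - c0 (fun _ => a)` vanishes (S_CON), so by S_KE (2) `a * s c = 0` for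
`c ∈ CyO 3 V''`; if `a ≠ 0` then `s = 0` on `CyO 3 V''`, so by `Sj` `s = 0` on `CyO 3 B`: contradiction; so `a = 0` and `u z = u' z` (evaluate at `[z]`). `U y = u y y` for `y ∈ W`, `0` otherwise. On `V y` `U = u y`; let `V' ∋ y` be open with `closure V'` at positive distance from `(V y)ᶜ` (a small ball):
near `V'` `U = u y`, so `Zr V' (Θ - dd (c0 U))`. -/
def S_KG : Prop := ∀ (k X : Type) [Field k] [MetricSpace X], LocallyPathConnectedSpace X →
  Sj k X → ∀ (B B' D O N K W : Set X) (θ Θ : Cc k X) (s : Cc k X →ₗ[k] k)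
    (P : (Cc k X × Cc k X) →ₗ[k] k), Ky k B B' D O N K W → Pri O N θ Θ → TwP W Θ s P →
  Kil 3 B s → (∃ c, CyO 3 B c ∧ s c ≠ 0) →
  (∀ c, CyO 3 (B \ D) c → P (0, c) = 0) → (∀ y ∈ W, Gd W Θ P y) →
  ∃ U : X → k, (∀ y ∈ W, ∃ V : Set X, IsOpen V ∧ y ∈ V ∧ Zr V (Θ - dd (c0 U))) ∧
    (∀ y ∈ B \ D, U y = 0) ∧ ∀ y ∉ W, U y = 0

def M_KG : Prop := S_CON → S_KE → S_KG

/-- KH. End of the proof. `e = Θ - dd (c0 U)`: `θ - dd e = θ - dd Θ` vanishes near `univ`. `e` vanishes near `N'ᶜ`: by `Zr.local` (`N'ᶜ` is compact) it is enough to find for every `y ∈ N'ᶜ` an open `V ∋ y` with `Zr V e`. If `y ∈ D` then `y ∈ B`, `y ∉ N' ⊇ B \ W`, so `y ∈ W`. If `y ∉ D`: `V` a small ball with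
`closure V` at positive distance from the closed set `D`; outside of `D` `U = 0` (points of `B \ D`, and points not in `B ⊇ W`), so `c0 U` vanishes near `V`, and `Θ` vanishes near `V ⊆ Oᶜ`. -/
def S_KH : Prop := ∀ (k X : Type) [Field k] [MetricSpace X] [CompactSpace X]
  (B B' D O N K W N' : Set X) (θ Θ : Cc k X) (U : X → k), Ky k B B' D O N K W →
  Pri O N θ Θ → (∀ y ∈ W, ∃ V : Set X, IsOpen V ∧ y ∈ V ∧ Zr V (Θ - dd (c0 U))) →
  (∀ y ∈ B \ D, U y = 0) → (∀ y ∉ W, U y = 0) → IsOpen N' → B \ W ⊆ N' → BdO 2 N' θ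

/-- KEY. The key lemma. `Θ` from `BdO 2 O₁ θ`; S_KA, S_KB, S_KC, S_KF, S_KG, S_KH. -/
def S_KEY : Prop := ∀ (k X : Type) [Field k] [MetricSpace X] [CompactSpace X],
  LocallyPathConnectedSpace X → Sj k X →
  ∀ (B B' D O N K W N' : Set X) (θ : Cc k X) (s : Cc k X →ₗ[k] k), Ky k B B' D O N K W →
  CyO 2 N θ → BdO 2 O θ → Kil 3 B s → (∃ c, CyO 3 B c ∧ s c ≠ 0) →
  (∀ g : Cc k X, Cyc 1 K ∅ g → s (cup θ g) = 0) → IsOpen N' → B \ W ⊆ N' → BdO 2 N' θ

def M_KEY : Prop := S_KA → S_KB → S_KC → S_KF → S_KG → S_KH → S_KEY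

end BBH


end

section

/-!
# BBH, block G: the local groups in degree three have dimension at most one

Module `X` proves `theorem t_X : M_X` (or `t_X : S_X`) in the namespace `BBH`, in the file `Pool/Agent/BBH/G_X.lean`.
The finished files of `Pool/Agent/BBP/` (`BBP.t_PTA`, `BBP.t_ARB`, `BBP.t_GLU`: look for the files) may be imported.
-/

set_option autoImplicit false

namespace BBH

open Set Topology CTO

/-! ## 1. Arcs -/

/-- ARI. Arcs have no interior. Suppose that `U` is not empty, `α` a parametrisation of `A`. `α` is a homeomorphism of `[0, 1]` onto `A`, so there are `0 ≤ s < t ≤ 1` with `α '' Ioo s t ⊆ U`, and `α '' Ioo s' t'` is open in `X` for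
`s ≤ s' < t' ≤ t` (it is open in `A`, so of the form `G ∩ A`, and equals `G ∩ U`). For `m = (s + t) / 2` the connected open set `B' = α '' Ioo s t ⊆ O` minus the point `α m` is the union of the two disjoint nonempty open sets `α '' Ioo s m`, `α '' Ioo m t`: against `GN O`. -/
def S_ARI : Prop := ∀ (X : Type) [MetricSpace X] (O A U : Set X) (a b : X), GN O →
  BBP.Arc A a b → IsOpen U → U ⊆ A → U ⊆ O → U = ∅

/-- LAM. An arc with the ends in `D₀`, otherwise outside of `D₀`, not contained in `Dp`. `a₁ ∈ V₀`, `p₁ ∈ O \ Dp`; `O` is path connected (`IsOpen.isConnected_iff_isPathConnected`), so by `BBP.S_PTA` there is an arc `Σ ⊆ O` from `a₁` to `p₁`. `P` = the path component of `p₁` in the open set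
`O \ Dp` (open, path connected). By S_ARI there are `p₂ ∈ P \ Σ` and `a₂ ∈ V₀ \ Σ`. `O \ Σ` is open and preconnected (`GN O` with `n = 1`), so `JoinedIn (O \ Σ) p₂ a₂`. On a path in `P` from `p₂` to `p₁ ∈ Σ` let `q` be the first point in `Σ`: `q ∈ P ∩ Σ` and `JoinedIn ({q} ∪ (O \ Σ)) q a₂`. `BBP.S_PTA`: an arc
`B ⊆ {q} ∪ (O \ Σ)` from `q` to `a₂`. `q ∉ Dp ⊇ D₀`. `BBP.S_ARB` (first hit, `N = D₀`): `B' ⊆ B` from `q` to `w`, `B' ∩ D₀ = {w}`; a subarc of `Σ` from `q` to `a₁` and in it `C'` from `q` to `w'`, `C' ∩ D₀ = {w'}`. `C' ∩ B' = {q}`. `BBP.S_GLU` (2): `La = C' ∪ B'` is an arc from `w'` to `w`. -/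
def S_LAM : Prop := ∀ (X : Type) [MetricSpace X] [CompactSpace X],
  LocallyPathConnectedSpace X → ∀ (O Dp D₀ V₀ : Set X), GN O → IsCompact Dp → Dp ⊆ O →
  (O \ Dp).Nonempty → IsCompact D₀ → D₀ ⊆ Dp → IsOpen V₀ → V₀.Nonempty → V₀ ⊆ D₀ →
  ∃ (La : Set X) (P Q : X), BBP.Arc La P Q ∧ La ⊆ O ∧ D₀ ∩ La = {P, Q} ∧ ¬ La ⊆ Dp

def M_LAM : Prop := BBP.S_PTA → BBP.S_ARB → BBP.S_GLU → S_ARI → S_LAM

/-- the configuration: `As = D₀ ∪` two arcs, `Ap = Dp ∪` the same arcs, `Ga` the middle arc from `x` to `y` -/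
structure Cfg {X : Type} [MetricSpace X] (O Dp D₀ La As Ap Ga : Set X) (P Q x y : X) :
    Prop where
  arc : BBP.Arc La P Q
  int : D₀ ∩ La = {P, Q}
  sub : Dp ∪ La ⊆ O
  cAs : IsCompact As
  conAs : IsConnected As
  D₀As : D₀ ⊆ As
  AsAp : As ⊆ Ap
  cAp : IsCompact Ap
  cGa : IsCompact Ga
  conGa : IsConnected Ga
  ne : x ≠ y
  xAs : x ∈ As
  yAs : y ∈ As
  inter : Ap ∩ Ga = {x, y}
  uJ : As ∪ Ga = D₀ ∪ La
  uJp : Ap ∪ Ga = Dp ∪ La

/-- CFG. `α` a parametrisation of `La`, `α t₀ ∉ Dp`; `0 < t₀ < 1` as `α 0, α 1 ∈ D₀ ⊆ Dp`; `Dp` is closed, so there are `0 < a < b < 1` with `α '' Icc a b` disjoint from `Dp`. `Ga = α '' Icc a b`, `x = α a`, `y = α b`, `As = D₀ ∪ α '' Icc 0 a ∪ α '' Icc b 1`,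
`Ap = Dp ∪ α '' Icc 0 a ∪ α '' Icc b 1`. Connected: `α 0, α 1 ∈ D₀`. -/
def S_CFG : Prop := ∀ (X : Type) [MetricSpace X] [CompactSpace X],
  LocallyPathConnectedSpace X → ∀ (O Dp D₀ V₀ : Set X), GN O → IsCompact Dp → Dp ⊆ O →
  (O \ Dp).Nonempty → IsCompact D₀ → IsConnected D₀ → D₀ ⊆ Dp → IsOpen V₀ → V₀.Nonempty →
  V₀ ⊆ D₀ → ∃ (La As Ap Ga : Set X) (P Q x y : X), Cfg O Dp D₀ La As Ap Ga P Q x y

def M_CFG : Prop := S_LAM → S_CFG

/-- THK. Thickenings. `V = Vx ∪ Vy`; `Ap \ V` and `Ga` are disjoint compact sets, contained in disjoint open sets `P₁`, `P₂` (`SeparatedNhds.of_isCompact_isCompact`); `Pa = (P₁ ∪ V) ∩ O`, `Pg = P₂ ∩ O`. (2) `LocallyConnectedSpace`: the connected component (`connectedComponentIn`) of a point of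
`C` in `U`. -/
def S_THK : Prop := (∀ (X : Type) [MetricSpace X] (Ap Ga O Vx Vy : Set X) (x y : X),
    IsCompact Ap → IsCompact Ga → Ap ∩ Ga = {x, y} → IsOpen O → Ap ∪ Ga ⊆ O → IsOpen Vx →
    x ∈ Vx → IsOpen Vy → y ∈ Vy → ∃ Pa Pg : Set X, IsOpen Pa ∧ IsOpen Pg ∧ Ap ⊆ Pa ∧ Ga ⊆ Pg ∧
      Pa ⊆ O ∧ Pg ⊆ O ∧ Pa ∩ Pg ⊆ Vx ∪ Vy) ∧
  ∀ (X : Type) [MetricSpace X], LocallyPathConnectedSpace X → ∀ C U : Set X, IsOpen U →
    IsConnected C → C ⊆ U → ∃ V ⊆ U, IsOpen V ∧ IsConnected V ∧ C ⊆ V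

/-! ## 2. The neighbourhoods -/

/-- the situation: `O₂ ⊆ O₁ ⊆ D ⊆ B ⊆ B'` -/
structure Stp (k : Type) {X : Type} [Field k] [MetricSpace X] (B B' D O₁ O₂ : Set X) :
    Prop where
  gb : GB k B
  gn : GN B
  opB' : IsOpen B'
  subB : B ⊆ B'
  tr : ∀ c : Cc k X, CyO 2 B c → BdO 2 B' c
  cD : IsCompact D
  subD : D ⊆ B
  conD : IsConnected (B \ D)
  inj : ∀ c : Cc k X, CyO 3 (B \ D) c → BdO 3 B c → BdO 3 (B \ D) c
  op1 : IsOpen O₁
  sub1 : O₁ ⊆ D
  op2 : IsOpen O₂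
  con2 : IsConnected O₂
  sub2 : O₂ ⊆ O₁
  tr2 : ∀ c : Cc k X, CyO 2 O₂ c → BdO 2 O₁ c

/-- STP. `LT k 2 x` for `U = univ` gives an open `V ∋ x` with `CyO 2 V ⊆ BdO 2 univ`; `B' = univ`. `GNs` gives `B₁ ⊆ N ∩ V`, `x ∈ B₁`, `GN B₁`; S_NZB gives `B ⊆ B₁`, `x ∈ B`, `GB k B`; `GN B` as `GN` is hereditary for connected open subsets. `D` from S_HAR (`N = univ`), `O₁ = interior D ∋ x`;
`LT k 2 x` for `U = O₁` gives `V₂`; `O₂` = the connected component of `x` in `V₂`. -/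
def S_STP : Prop := ∀ (k X : Type) [Field k] [MetricSpace X] [CompactSpace X],
  LocallyPathConnectedSpace X → IsANR X → Sj k X → GNs X → (∀ x : X, NZat k x) →
  (∀ x : X, LT k 2 x) → ∀ (x : X) (N : Set X), IsOpen N → x ∈ N →
  ∃ B B' D O₁ O₂ : Set X, B ⊆ N ∧ x ∈ B ∧ Stp k B B' D O₁ O₂

def M_STP : Prop := S_NZB → S_HAR → S_STP

/-- DPL. `x ∈ O₂`. `GB k O₂`, `GN O₂` are inherited from `B`. `Dp` from S_HAR for `O₂` (`N = univ`); `O₂ \ Dp` is connected, so nonempty; `Van k 2 Dp ∅` by S_HAS (with `B = O₂`, `B' = O₁`, `tr2`). S_LPX (2) for `interior Dp` gives an open `V ∋ x` with `closure V ⊆ interior Dp`, `Ctr (closure V) (interior Dp)`,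
so `Ctr (closure V) Dp`; by S_CTR `Cyc 1 Dp ∅ g → Bd 1 (closure V) ∅ g`. `V₀` = the connected component of `x` in `V`, `D₀ = closure V₀`. -/
def S_DPL : Prop := ∀ (k X : Type) [Field k] [MetricSpace X] [CompactSpace X],
  LocallyPathConnectedSpace X → IsANR X → Sj k X → ∀ B B' D O₁ O₂ : Set X,
  Stp k B B' D O₁ O₂ → ∃ Dp D₀ V₀ : Set X, GN O₂ ∧ IsCompact Dp ∧ Dp ⊆ O₂ ∧
    (O₂ \ Dp).Nonempty ∧ Van k 2 Dp ∅ ∧ IsCompact D₀ ∧ IsConnected D₀ ∧ D₀ ⊆ Dp ∧
    IsOpen V₀ ∧ IsConnected V₀ ∧ V₀ ⊆ D₀ ∧ ∀ g : Cc k X, Cyc 1 Dp ∅ g → Bd 1 D₀ ∅ g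

def M_DPL : Prop := S_HAR → S_HAS → S_LPX → S_CTR → S_DPL

/-! ## 3. Ranks -/

/-- RKA. The restriction `H^1(Dp ∪ La) → H^1(D₀ ∪ La)` has rank at most one. (i) Claim: if `Zr D₀ (g - dd b₁)`, `Zr La (g - dd b₂)`, `b₁, b₂` of degree 0, and `(b₁ - b₂) [P] = (b₁ - b₂) [Q]`, then `Bd 1 (D₀ ∪ La) ∅ g`. Let `m` be this value; replace `b₂` by `b₂ + c0 (fun _ => m)`; `e = b₁ - b₂`
is a cocycle near `P` and near `Q` with `e [P] = e [Q] = 0`, so by S_PNT (2) it vanishes near `{P}` and near `{Q}`, i.e. near `D₀ ∩ La` (`Zr.union`); `Zr.inter`: `e = w₁ + w₂`, `w₁` zero near `D₀`, `w₂` near `La`; `b = b₁ - w₁ = b₂ + w₂`; `Zr.union`. (ii) every `g ∈ Cyc 1 (Dp ∪ La) ∅` has such `b₁`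
(hypothesis) and `b₂` (S_ARC (1), `F = La`); let `φ` be the number `(b₁ - b₂) [P] - (b₁ - b₂) [Q]`. If `φ = 0` for all choices, `g1 = 0`. Otherwise let `g1` have `b₁'`, `b₂'` with `φ' ≠ 0`, and `t = φ / φ'`: (i) for `g - t • g1`, `b₁ - t • b₁'`, `b₂ - t • b₂'`. -/
def S_RKA : Prop := ∀ (k X : Type) [Field k] [MetricSpace X] (Dp D₀ La : Set X) (P Q : X),
  IsCompact D₀ → D₀ ⊆ Dp → BBP.Arc La P Q → D₀ ∩ La = {P, Q} →
  (∀ g : Cc k X, Cyc 1 Dp ∅ g → Bd 1 D₀ ∅ g) →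
  ∃ g1 : Cc k X, ∀ g : Cc k X, Cyc 1 (Dp ∪ La) ∅ g → ∃ t : k, Bd 1 (D₀ ∪ La) ∅ (g - t • g1)

def M_RKA : Prop := S_PNT → S_ARC → S_RKA

/-- RKB. From `J` to a neighbourhood of `J`. `K₀` compact with `J ⊆ interior K₀`, `K₀ ⊆ interior K`. By S_FIN (`L = L' = ∅`) the range `R` of `res : H^1(K) → H^1(K₀)` is finite dimensional. Let `Z` be the space of the `g` with `Cyc 1 K ∅ g`, `ZJ` its subspace of the `g` with `Bd 1 J ∅ g`. The image of `ZJ` in `R` is spanned by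
the classes of finitely many `g i ∈ ZJ`, `g i - dd (f i)` vanishes near `J`, so near an open set `N i ⊇ J` (S_NBH (3)); `N₀ = interior K₀ ∩ ⋂ i, N i`. Every `g ∈ ZJ` is a linear combination of the `g i` up to `Bd 1 K₀ ∅`, so `Bd 1 N₀ ∅ g`. If `ZJ = Z` let `g0 = 0`. Otherwise `g0 ∈ Z \ ZJ`,
`Bd 1 J ∅ (g0 - t₀ • g1)`, `t₀ ≠ 0`; if `Bd 1 J ∅ (g - t • g1)` then `g - (t / t₀) • g0 ∈ ZJ`. -/
def S_RKB : Prop := ∀ (k X : Type) [Field k] [MetricSpace X] [CompactSpace X], IsANR X →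
  ∀ (K J : Set X) (g1 : Cc k X), IsCompact K → IsCompact J → J ⊆ interior K →
  (∀ g : Cc k X, Cyc 1 K ∅ g → ∃ t : k, Bd 1 J ∅ (g - t • g1)) →
  ∃ (N₀ : Set X) (g0 : Cc k X), IsOpen N₀ ∧ J ⊆ N₀ ∧ Cyc 1 K ∅ g0 ∧
    ∀ g : Cc k X, Cyc 1 K ∅ g → ∃ t : k, Bd 1 N₀ ∅ (g - t • g0)

def M_RKB : Prop := S_NBH → S_FIN → S_RKB

/-- PRG. The pairing. `g - t • g0 - dd b` vanishes near `N₀`, `b` of degree 0. `cup θ (g - t • g0 - dd b)` vanishes near `N₀` (`Zr.cup_right`) and near `Nᶜ` (`Zr.cup_left`), so near `univ`; `dd (cup θ b) = cup (dd θ) b + cup θ (dd b)` (`dd_cup` for `p = 2`), `dd θ` vanishes near `univ`, `cup θ b` has degree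
2 and vanishes near `Nᶜ ⊇ Bᶜ`. So `cup θ g - t • cup θ g0` is in `BdO 3 B`. `cup θ g, cup θ g0 ∈ CyO 3 B`: `dd (cup θ g) = cup (dd θ) g + cup θ (dd g)`, `dd g` vanishes near `K ⊇ N` and `θ` near `Nᶜ`. -/
def S_PRG : Prop := ∀ (k X : Type) [Field k] [MetricSpace X] (B K N N₀ : Set X)
  (g g0 : Cc k X) (t : k), N ⊆ B → N ⊆ K → N ⊆ N₀ → Cyc 1 K ∅ g → Cyc 1 K ∅ g0 →
  Bd 1 N₀ ∅ (g - t • g0) → ∀ (θ : Cc k X) (s : Cc k X →ₗ[k] k), CyO 2 N θ → Kil 3 B s →
  s (cup θ g) = t * s (cup θ g0)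

/-- FRS. `ext` is onto by `Sj` (and `cls_surj`, `cls_eq`), `HO k k 3 W` is finite dimensional (S_FDV): `LinearMap.finrank_le_finrank_of_surjective` or similar. -/
def S_FRS : Prop := ∀ (k X : Type) [Field k] [MetricSpace X] [CompactSpace X], IsANR X →
  Sj k X → ∀ V W : Set X, IsOpen V → IsConnected V → IsOpen W → IsConnected W → W ⊆ V →
  Module.finrank k (HO k k 3 V) ≤ Module.finrank k (HO k k 3 W)

def M_FRS : Prop := S_FDV → S_FRS

/-- FRH. Let `v₀ ∈ V₀`, `h v₀ = x` (homogeneity), `V₁ = h.symm ⁻¹' V₀` (open, connected, `x ∈ V₁`); by S_TRP for `h.symm` `HO V₀` and `HO V₁` are isomorphic (`c ↦ pull h.symm c`, inverse `pull h`; `exists_lift` or `Submodule.mapQ`), so they have the same `finrank`. `Vx` = the connected component of `x` in `V₁ ∩ N`;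
S_FRS. -/
def S_FRH : Prop := ∀ (k X : Type) [Field k] [MetricSpace X] [CompactSpace X],
  LocallyPathConnectedSpace X → IsANR X → Homog X → Sj k X → ∀ V₀ : Set X, IsOpen V₀ →
  IsConnected V₀ → ∀ (x : X) (N : Set X), IsOpen N → x ∈ N → ∃ Vx ⊆ N, IsOpen Vx ∧
    IsConnected Vx ∧ x ∈ Vx ∧
    Module.finrank k (HO k k 3 V₀) ≤ Module.finrank k (HO k k 3 Vx)

def M_FRH : Prop := S_TRP → S_FRS → S_FRH

/-- LNL. Linear algebra. `W = π (ker f)`. The surjection `Z → V → V / W` vanishes on `ker f`, so `finrank (V / W) ≤ finrank (range f) ≤ finrank (ker g) = finrank A - finrank D`; `finrank W = finrank V - finrank (V / W) ≥ finrank D ≥ 2`; take two linearly independent vectors of `W`. -/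
def S_LNL : Prop := ∀ (k Z A V D : Type) [Field k] [AddCommGroup Z] [Module k Z]
  [AddCommGroup A] [Module k A] [Module.Finite k A] [AddCommGroup V] [Module k V]
  [Module.Finite k V] [AddCommGroup D] [Module k D] (π : Z →ₗ[k] V) (f : Z →ₗ[k] A)
  (g : A →ₗ[k] D), Function.Surjective π → Function.Surjective g → (∀ z, g (f z) = 0) →
  Module.finrank k A ≤ Module.finrank k V → 2 ≤ Module.finrank k D →
  ∃ z₁ z₂ : Z, f z₁ = 0 ∧ f z₂ = 0 ∧ ∀ a b : k, a • π z₁ + b • π z₂ = 0 → a = 0 ∧ b = 0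

/-- CNT. The count. `P = HO (Na ∩ Ng ∩ Vx)`, `P' = HO (Na ∩ Ng ∩ Vy)`, `A = HO Na`, `G = HO Ng` (degree 3), `Z = {(u, v) ∈ P × P' | u + v = 0 in G}` (a submodule), `π : Z → HO Vx`, `(u, v) ↦ u`, `f : Z → A`, `(u, v) ↦ u + v`, `g = ext : HO Na → HO B`. `π` is onto: `P → HO Vx` is onto by `Sj` (`Vx` connected),
and for every `u` there is a `v` with `v = - u` in `G` as `P' → G` is onto by `Sj` (`Ng` connected). `g` is onto by `Sj`; `g (f (u, v)) = 0` as `u + v = 0` in `G` (`Ng ⊆ B`). S_LNL (S_FDV) gives `z₁, z₂`; `z i = (u i, v i)`, `d i` = the sum of representatives of `u i` and `v i`: `CyO 3 (Na ∩ Ng) (d i)`, `BdO 3 Na (d i)` (`f = 0`),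
`BdO 3 Ng (d i)`. If `a • d₁ + b • d₂ ∈ BdO 3 (Vx ∪ Vy)` then by S_MVO (4) for `Vx`, `Vy` (`c₁ = a • u₁ + b • u₂ ∈ CyO 3 Vx`, `c₂` similarly; `CyO 3 ∅ e` implies `Zr univ e`) `c₁ ∈ BdO 3 Vx`, i.e. `a • π z₁ + b • π z₂ = 0`. -/
def S_CNT : Prop := ∀ (k X : Type) [Field k] [MetricSpace X] [CompactSpace X], IsANR X →
  Sj k X → ∀ B Na Ng Vx Vy : Set X, IsOpen B → IsConnected B → IsOpen Na → IsConnected Na →
  IsOpen Ng → IsConnected Ng → IsOpen Vx → IsConnected Vx → IsOpen Vy → Na ⊆ B → Ng ⊆ B →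
  Na ∩ Ng ⊆ Vx ∪ Vy → Vx ∩ Vy = ∅ → (Na ∩ Ng ∩ Vx).Nonempty → (Na ∩ Ng ∩ Vy).Nonempty →
  Module.finrank k (HO k k 3 Na) ≤ Module.finrank k (HO k k 3 Vx) →
  2 ≤ Module.finrank k (HO k k 3 B) →
  ∃ d₁ d₂ : Cc k X, CyO 3 (Na ∩ Ng) d₁ ∧ CyO 3 (Na ∩ Ng) d₂ ∧ BdO 3 Na d₁ ∧ BdO 3 Na d₂ ∧
    BdO 3 Ng d₁ ∧ BdO 3 Ng d₂ ∧
    ∀ a b : k, BdO 3 (Vx ∪ Vy) (a • d₁ + b • d₂) → a = 0 ∧ b = 0

def M_CNT : Prop := S_LNL → S_FDV → S_MVO → S_CNT

/-! ## 4. Assembly -/

/-- the final configuration -/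
structure Fic (k : Type) {X : Type} [Field k] [MetricSpace X]
    (B B' D O₁ K W Na Ng Pa Pg Vx Vy : Set X) (g0 : Cc k X) : Prop where
  ky : Ky k B B' D O₁ (Na ∪ Ng) K W
  NB : Na ∪ Ng ⊆ B
  opNa : IsOpen Na
  conNa : IsConnected Na
  opNg : IsOpen Ng
  conNg : IsConnected Ng
  NaPa : Na ⊆ Pa
  NgPg : Ng ⊆ Pg
  opPa : IsOpen Pa
  opPg : IsOpen Pg
  out : B \ W ⊆ Pa ∪ Pg
  opVx : IsOpen Vx
  conVx : IsConnected Vx
  opVy : IsOpen Vy
  int : Pa ∩ Pg ⊆ Vx ∪ Vy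
  dis : Vx ∩ Vy = ∅
  neX : (Na ∩ Ng ∩ Vx).Nonempty
  neY : (Na ∩ Ng ∩ Vy).Nonempty
  rk : Module.finrank k (HO k k 3 Na) ≤ Module.finrank k (HO k k 3 Vx)
  one : ∀ g : Cc k X, Cyc 1 K ∅ g → ∃ t : k, ∀ (θ : Cc k X) (s : Cc k X →ₗ[k] k),
    CyO 2 (Na ∪ Ng) θ → Kil 3 B s → s (cup θ g) = t * s (cup θ g0)
  bd : ∀ c : Cc k X, CyO 2 (Na ∪ Ng) c → BdO 2 O₁ c

/-- LEC. The choices. `Dp, D₀, V₀` from S_DPL, `La, As, Ap, Ga, P, Q, x, y` from S_CFG for `O = O₂`. `J = D₀ ∪ La`, `Jp = Dp ∪ La = Ap ∪ Ga`: compact, `⊆ O₂ ⊆ O₁ ⊆ D ⊆ B`; `Van k 2 Jp ∅` by S_ARC (3). Disjoint open `Ox ∋ x`, `Oy ∋ y`; `Vx ⊆ Ox` from S_FRH, `Vy = Oy`.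
`Pa, Pg ⊆ O₂` from S_THK (1). S_OUT for `B`, `J := Jp`, `N := Pa ∪ Pg`, `w ∈ B \ D` (`B \ Jp` is preconnected by S_NSB and nonempty): `K`, `W`. `K ⊆ O₂ ⊆ D`, so `B \ D ⊆ B \ K` is connected, meets `W`, and `W` is open and relatively closed in `B \ K`: `B \ D ⊆ W`
(`IsPreconnected.subset_of_closure_inter_subset`). `g1` from S_RKA (`Cyc 1 K ∅ g` implies `Cyc 1 (Dp ∪ La) ∅ g`), `N₀, g0` from S_RKB for `K`, `J` (`J ⊆ Jp ⊆ interior K`). `Na` from S_THK (2) for `C = As`, `U = Pa ∩ N₀ ∩ interior K`, `Ng` for `Ga`, `U = Pg ∩ N₀ ∩ interior K`. `x ∈ Na ∩ Ng ∩ Vx`, `y ∈ Na ∩ Ng ∩ Vy`.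
`rk`: `V₀ ⊆ D₀ ⊆ As ⊆ Na`, S_FRS: `finrank (HO Na) ≤ finrank (HO V₀) ≤ finrank (HO Vx)`. `one`: S_PRG. `bd`: `CyO 2 O₂ ⊆ BdO 2 O₁`. -/
def S_LEC : Prop := ∀ (k X : Type) [Field k] [MetricSpace X] [CompactSpace X],
  LocallyPathConnectedSpace X → IsANR X → Homog X → Sj k X → ∀ B B' D O₁ O₂ : Set X,
  Stp k B B' D O₁ O₂ → ∃ (K W Na Ng Pa Pg Vx Vy : Set X) (g0 : Cc k X),
    Fic k B B' D O₁ K W Na Ng Pa Pg Vx Vy g0

def M_LEC : Prop := S_DPL → S_CFG → S_ARC → S_FRH → S_THK → S_OUT → S_NSB → S_RKA → S_RKB →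
  S_FRS → S_PRG → S_LEC

/-- LED. The contradiction. Suppose `2 ≤ finrank`. `d₁, d₂` from S_CNT; S_MVO (3) (`p = 2`, `U = Na`, `V = Ng`) gives `θ i ∈ CyO 2 (Na ∪ Ng)` with `MVr 2 Na Ng (θ i) (d i)`. `s` with `Kil 3 B s` and `s c ≠ 0` for some `c ∈ CyO 3 B` (a nonzero linear functional on `HO k k 3 B`, `exists_total`). Choose `(a, b) ≠ (0, 0)` with
`a * s (cup θ₁ g0) + b * s (cup θ₂ g0) = 0`; `θ = a • θ₁ + b • θ₂`, `d = a • d₁ + b • d₂` (`cup` is linear in the first variable). S_KEY (`O = O₁`, `N = Na ∪ Ng`, `N' = Pa ∪ Pg`; `s (cup θ g) = t * s (cup θ g0) = 0`): `BdO 2 (Pa ∪ Pg) θ`. `MVr 2 Pa Pg θ d` (add the decompositions; `Zr.anti`). S_MVO (2)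
for `Pa`, `Pg`: `BdO 3 (Pa ∩ Pg) d`, so `BdO 3 (Vx ∪ Vy) d`, so `a = b = 0`. -/
def S_LED : Prop := ∀ (k X : Type) [Field k] [MetricSpace X] [CompactSpace X],
  LocallyPathConnectedSpace X → IsANR X → Sj k X →
  ∀ (B B' D O₁ K W Na Ng Pa Pg Vx Vy : Set X) (g0 : Cc k X),
  Fic k B B' D O₁ K W Na Ng Pa Pg Vx Vy g0 → Module.finrank k (HO k k 3 B) ≤ 1

def M_LED : Prop := S_CNT → S_MVO → S_KEY → S_LED

/-- LEV. `x ∈ V`; S_STP for `N = V`, S_LEC, S_LED, S_FRS for `B ⊆ V`. -/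
def S_LEV : Prop := ∀ (k X : Type) [Field k] [MetricSpace X] [CompactSpace X],
  LocallyPathConnectedSpace X → IsANR X → Homog X → Sj k X → GNs X → (∀ x : X, NZat k x) →
  (∀ x : X, LT k 2 x) → ∀ V : Set X, IsOpen V → IsConnected V →
  Module.finrank k (HO k k 3 V) ≤ 1

def M_LEV : Prop := S_STP → S_LEC → S_LED → S_FRS → S_LEV

/-- ONE. For countable fields: (1) `finrank ≤ 1` and generation by one element for all connected open sets; (2) good sets: `B` from S_NZB. `Sj` from S_SRJ, `LocallyPathConnectedSpace` from S_LPX, `GNs` from S_GNX, `NZat` from S_NZK, `LT k 2` from S_LT2, S_LEV, finite dimension from S_FDV. (2), injectivity: `HO V` and `HO W` have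
dimension exactly 1 (not `VanO`), `ext` is onto by `Sj`, so bijective. -/
def S_ONE : Prop := ∀ (k X : Type) [Field k] [Countable k] [MetricSpace X] [CompactSpace X],
  IsANR X → Homog X → ShrLE X 3 → ¬ ShrLE X 2 →
  (∀ V : Set X, IsOpen V → IsConnected V →
    ∃ g : Cc k X, CyO 3 V g ∧ ∀ c : Cc k X, CyO 3 V c → ∃ t : k, BdO 3 V (c - t • g)) ∧
  ∀ (x : X) (N : Set X), IsOpen N → x ∈ N → ∃ B ⊆ N, x ∈ B ∧ GB k B ∧
    ∀ V W : Set X, W ⊆ B → V ⊆ W → IsOpen V → IsConnected V → IsOpen W → IsConnected W →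
      ∀ c : Cc k X, CyO 3 V c → BdO 3 W c → BdO 3 V c

def M_ONE : Prop := S_LEV → S_LPX → S_SRJ → S_GNX → S_NZK → S_LT2 → S_FDV → S_NZB → S_ONE

end BBH


end

section

/-!
# BBH, block H: integral coefficients, the fundamental class mod 2, corollaries

Module `X` proves `theorem t_X : M_X` (or `t_X : S_X`) in the namespace `BBH`, in the file `Pool/Agent/BBH/H_X.lean`.
-/

set_option autoImplicit false

namespace BBH

open Set Topology CTO

/-! ## 1. Integral cochains -/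

/-- DVU. Divisibility (as `Pool/Agent/BBH/D_DVP.lean`). The reduction `l ↦ (c l : ZMod p)` is `dd b'` near `univ`, `b'` of degree `q - 1`, zero near `Vᶜ`. Lift `b'` to an integral `b` with `b l = 0` if `b' l = 0` (`ZMod.val`). For `l` with `p ∣ (c - dd b) l`
let `c' l = (c - dd b) l / p`, otherwise `c' l = 0`: `c - dd b - p • c'` vanishes near `univ`; `c' ∈ CyO q V` (`p • dd c' = 0` on small lists). -/
def S_DVU : Prop := ∀ (X : Type) [MetricSpace X] (p : ℕ) (q : ℤ) (V : Set X), 0 < p →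
  ∀ c : Cc ℤ X, CyO q V c → BdO q V (fun l => (c l : ZMod p)) →
  ∃ c' : Cc ℤ X, CyO q V c' ∧ BdO q V (c - (p : ℤ) • c')

/-- LFT. Lifting. `a l = (c' l).val`, an integral cochain of degree 3 that vanishes near `Wᶜ`; `dd a` is divisible by `p` on small lists: `e l = (dd a) l / p` there (and `0` on the lists where `dd a` is not divisible), `e ∈ CyO 4 W` (`p • dd e = 0`). By S_DIM `e - dd f` vanishes near `univ`, `f` of degree 3 zero near `Wᶜ`;
`c = a - p • f`. -/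
def S_LFT : Prop := ∀ (X : Type) [MetricSpace X] [CompactSpace X], ShrLE X 3 →
  ∀ (p : ℕ) (W : Set X), 0 < p → IsOpen W → ∀ c' : Cc (ZMod p) X, CyO 3 W c' →
  ∃ c : Cc ℤ X, CyO 3 W c ∧ (fun l => (c l : ZMod p)) = c'

def M_LFT : Prop := S_DIM → S_LFT

/-- FSL. Finite selections. Let `c - pull r c` be as in `bd_of_contig` for `f = id`, `g = r`. A finite `ε`-net `t` of `X` (compact), `r x ∈ t` with `dist (r x) x < ε`. -/
def S_FSL : Prop := ∀ (X : Type) [MetricSpace X] [CompactSpace X] (ε : ℝ), 0 < ε →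
  ∃ r : X → X, (range r).Finite ∧ ∀ x, dist (r x) x < ε

/-- TOR. A rational coboundary is a torsion class. `c - dd b` vanishes near `univ`, `b` rational of degree `q - 1`, zero near `Uᶜ`. `r` from S_FSL for small `ε`: `c - pull r c ∈ BdO q U` (`bd_of_contig` with `f = id`, `g = r`, integral); `b' = pull r b` vanishes near `Uᶜ` (lists near `Uᶜ` go to lists near `Uᶜ`), `pull r c - dd b'` vanishes
near `univ`, and `b'` has finitely many values (the lists of length `q` with members in the finite set `range r`; `Dg`), so there is `m > 0` such that `m • b'` is integral, `= e`. `m • c = m • (c - pull r c) + (m • pull r c - dd e) + dd e`. -/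
def S_TOR : Prop := ∀ (X : Type) [MetricSpace X] [CompactSpace X] (q : ℤ) (U : Set X)
  (c : Cc ℤ X), CyO q U c → BdO q U (fun l => (c l : ℚ)) →
  ∃ m : ℕ, 0 < m ∧ BdO q U ((m : ℤ) • c)

def M_TOR : Prop := S_FSL → S_TOR

/-- RAT. A multiple of a rational cocycle is integral. As in S_TOR: `c - pull r c ∈ BdO q U`, `m • pull r c` is integral. -/
def S_RAT : Prop := ∀ (X : Type) [MetricSpace X] [CompactSpace X] (q : ℤ) (U : Set X)
  (c : Cc ℚ X), CyO q U c → ∃ (m : ℕ) (c' : Cc ℤ X), 0 < m ∧ CyO q U c' ∧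
    BdO q U ((m : ℚ) • c - fun l => (c' l : ℚ))

def M_RAT : Prop := S_FSL → S_RAT

/-! ## 2. Degree two -/

/-- SZN. Induction on the prime factorisation of `n` (`Nat.recOnMul` or `induction_on_primes`) for all `x`, `U`. `n = 1`: `V = U`, `c' = c`. `n = p`: `V` from `LT (ZMod p) q x`; the reduction of `c` is in `BdO q U`; S_DVU for `U`. `n = a * b`: `V₁` for `a`, `U`; `V` for `b`, `V₁`: `c - b • c' ∈ BdO q V₁`, `c' - a • c'' ∈ BdO q U`. -/
def S_SZN : Prop := ∀ (X : Type) [MetricSpace X] (q : ℤ),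
  (∀ p : ℕ, p.Prime → ∀ x : X, LT (ZMod p) q x) → ∀ n : ℕ, 0 < n → ∀ (x : X) (U : Set X),
  IsOpen U → x ∈ U → ∃ V ⊆ U, IsOpen V ∧ x ∈ V ∧ ∀ c : Cc ℤ X, CyO q V c →
    ∃ c' : Cc ℤ X, CyO q U c' ∧ BdO q U (c - (n : ℤ) • c')

def M_SZN : Prop := S_DVU → S_SZN

/-- LTZ. Let `x ∈ U' ⊆ closure U' ⊆ U`, `V₁ ⊆ U'` from `LT ℚ q x` for `U'`. The range `I` of `ext : HO ℤ ℤ q V₁ → HO ℤ ℤ q U` is f. g. (S_FIO (1), `R = M = ℤ`; `closure V₁ ⊆ U`) and all its elements are torsion (S_TOR; `BdO q U' ⊆ BdO q U`), so `n • I = 0` for some `n > 0`. `V ⊆ V₁` from S_SZN for `V₁`, `n`: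
for `c ∈ CyO q V` `c - n • c' ∈ BdO q V₁`, `c' ∈ CyO q V₁`, and `n • c' ∈ BdO q U`. -/
def S_LTZ : Prop := ∀ (X : Type) [MetricSpace X] [CompactSpace X], IsANR X → ∀ q : ℤ,
  (∀ x : X, LT ℚ q x) → (∀ p : ℕ, p.Prime → ∀ x : X, LT (ZMod p) q x) → ∀ x : X, LT ℤ q x

def M_LTZ : Prop := S_TOR → S_SZN → S_FIO → S_LTZ

/-! ## 3. Degree three -/

/-- surjectivity for general coefficients -/
def SjM (M X : Type) [AddCommGroup M] [MetricSpace X] : Prop :=
  ∀ V W : Set X, IsOpen V → IsConnected V → IsOpen W → W ⊆ V → W.Nonempty →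
    ∀ c : Cc M X, CyO 3 V c → ∃ c' : Cc M X, CyO 3 W c' ∧ BdO 3 V (c - c')

/-- SJZ. S_GEN (`n = 3`) for `Q c := ∃ c' : Cc ℤ X, CyO 3 W c' ∧ BdO 3 V (c - c')`. Let `y ∈ V`, `w ∈ W`, `C` the range of a path in `V` from `y` to `w` (compact, connected), `U₁` open, `C ⊆ U₁`, `closure U₁ ⊆ V`, `V'` connected open with `C ⊆ V' ⊆ U₁` (S_THK (2)). Claim: `Q c` for all `c ∈ CyO 3 V'`. Let `A = HO ℤ ℤ 3 V`, `R` the range of
`ext : HO ℤ ℤ 3 W → A`, `I` the image in `A ⧸ R` of the range of `ext : HO ℤ ℤ 3 V' → A`: f. g. by S_FIO (1) as `closure V' ⊆ V`. `I` is divisible by every prime `p`: let `c ∈ CyO 3 V'`; by `Sj (ZMod p) X` for the reduction of `c`, `V'` and `V' ∩ W` (nonempty) and S_LFT there is `c₁ ∈ CyO 3 (V' ∩ W)` such that the reduction of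
`c - c₁` is in `BdO 3 V'`; S_DVU: `c - c₁ - p • c₂ ∈ BdO 3 V'`, `c₂ ∈ CyO 3 V'`. By S_FGD `I = 0`. -/
def S_SJZ : Prop := ∀ (X : Type) [MetricSpace X] [CompactSpace X],
  LocallyPathConnectedSpace X → IsANR X → ShrLE X 3 →
  (∀ (p : ℕ) [Fact p.Prime], Sj (ZMod p) X) → SjM ℤ X

def M_SJZ : Prop := S_GEN → S_THK → S_FIO → S_LFT → S_DVU → S_FGD → S_SJZ

/-- ALZ. Structure theorem (`Module.equiv_free_prod_directSum` or `AddCommGroup.equiv_free_prod_directSum_zmod`): `A` is the sum of `ℤ ^ r` and finitely many `ZMod (p i ^ e i)`. `r ≥ 1` as `A` is not torsion. `r ≥ 2` contradicts the hypothesis for `p = 2` and two basis vectors; a nontrivial summand `ZMod (p ^ e)` contradicts it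
for `p`, `a` = a basis vector, `b` = the generator of the summand. -/
def S_ALZ : Prop := ∀ (A : Type) [AddCommGroup A] [Module.Finite ℤ A],
  (∃ a : A, ∀ n : ℤ, n ≠ 0 → n • a ≠ 0) →
  (∀ p : ℕ, p.Prime → ∀ a b : A, ∃ (s t : ℤ) (e : A), ¬ ((p : ℤ) ∣ s ∧ (p : ℤ) ∣ t) ∧
    s • a + t • b = (p : ℤ) • e) → Nonempty (A ≃ₗ[ℤ] ℤ)

/-- HZ3. `H^3_c(V; ℤ) = ℤ`. S_ALZ for `A = HO ℤ ℤ 3 V`. Finite: `W` open, nonempty, `closure W ⊆ V`; S_FIO (1) and `SjM`. Not torsion: let `c` be a rational cocycle in `V`, not in `BdO 3 V`; S_RAT: `m • c ~ c'`; if `n • c' ∈ BdO 3 V` with `n ≠ 0` then (rationally) `c' ∈ BdO 3 V`, `c ∈ BdO 3 V`. The last condition: let `ca, cb` be integral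
cocycles, `g` from the hypothesis for `p`; the reductions are `ta • g`, `tb • g` up to `BdO 3 V`. If `ta = tb = 0`: `s = 1, t = 0`; otherwise `s, t` are lifts of `tb`, `- ta`; S_DVU for `s • ca + t • cb`. -/
def S_HZ3 : Prop := ∀ (X : Type) [MetricSpace X] [CompactSpace X], IsANR X → SjM ℤ X →
  (∀ (p : ℕ) [Fact p.Prime] (V : Set X), IsOpen V → IsConnected V →
    ∃ g : Cc (ZMod p) X, CyO 3 V g ∧
      ∀ c : Cc (ZMod p) X, CyO 3 V c → ∃ t : ZMod p, BdO 3 V (c - t • g)) →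
  ∀ V : Set X, IsOpen V → IsConnected V → ¬ VanO ℚ 3 V → Nonempty (HO ℤ ℤ 3 V ≃ₗ[ℤ] ℤ)

def M_HZ3 : Prop := S_ALZ → S_FIO → S_RAT → S_DVU → S_HZ3

/-! ## 4. The fundamental class mod 2 -/

/-- `s` is an orientation of `U` mod 2 -/
def Orr {X : Type} [MetricSpace X] (U : Set X) (s : Cc (ZMod 2) X →ₗ[ZMod 2] ZMod 2) : Prop :=
  Kil 3 U s ∧ ∀ V ⊆ U, IsOpen V → V.Nonempty → ∃ c, CyO 3 V c ∧ s c ≠ 0

/-- connected open sets have at most one nonzero class mod 2 -/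
def Ucl (X : Type) [MetricSpace X] : Prop :=
  ∀ V : Set X, IsOpen V → IsConnected V → ∃ g : Cc (ZMod 2) X, CyO 3 V g ∧
    ∀ c : Cc (ZMod 2) X, CyO 3 V c → ∃ t : ZMod 2, BdO 3 V (c - t • g)

/-- ORA. Uniqueness. S_GEN for `Q c := s c = s' c`. For `y ∈ U` let `W ∋ y`, `W ⊆ U` be open and connected (locally connected), `g` from `Ucl`: `s c = t * s g`, `s' c = t * s' g`, `s g ≠ 0`, `s' g ≠ 0`, so both are `1`. -/
def S_ORA : Prop := ∀ (X : Type) [MetricSpace X] [CompactSpace X],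
  LocallyPathConnectedSpace X → ShrLE X 3 → Ucl X →
  ∀ (U : Set X) (s s' : Cc (ZMod 2) X →ₗ[ZMod 2] ZMod 2), IsOpen U → Orr U s → Orr U s' →
  ∀ c, CyO 3 U c → s c = s' c

def M_ORA : Prop := S_GEN → S_ORA

/-- ORG. Gluing. `s = s'` on `CyO 3 (U ∩ V)` by S_ORA (`Orr` is inherited by subsets). Let `T` be the module of the pairs `(c₁, c₂)`, `CyO 3 U c₁`, `CyO 3 V c₂`, `ψ : T → HO (U ∪ V)`, `(c₁, c₂) ↦ [c₁ + c₂]`, `σ (c₁, c₂) = s c₁ + s' c₂`. `ψ` is onto by S_MVO (5) and S_DIM (degree 4). `ker ψ ≤ ker σ`: S_MVO (4) gives `e`,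
`s c₁ = s e`, `s' c₂ = - s' e = - s e`. So `σ = φ ∘ ψ`, and `exists_total` gives `s''`, equal to `s` on `CyO 3 U` and to `s'` on `CyO 3 V`. -/
def S_ORG : Prop := ∀ (X : Type) [MetricSpace X] [CompactSpace X],
  LocallyPathConnectedSpace X → ShrLE X 3 → Ucl X →
  ∀ (U V : Set X) (s s' : Cc (ZMod 2) X →ₗ[ZMod 2] ZMod 2), IsOpen U → IsOpen V → Orr U s →
  Orr V s' → ∃ s'', Orr (U ∪ V) s''

def M_ORG : Prop := S_DIM → S_MVO → S_ORA → S_ORG

/-- ORI. Existence. Every `x` has a neighbourhood `B` with `GB (ZMod 2) B`; a nonzero linear functional on `HO (ZMod 2) (ZMod 2) 3 B` (`exists_total`) gives `Orr B s`, by `Sj`: for `V ⊆ B` open, nonempty, `CyO 3 V` generates `CyO 3 B` up to `BdO 3 B`. `IsCompact.induction_on` for `univ` and the property `∃ U ⊇ S` open, `∃ s, Orr U s` of `S`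
(for `∅`: `U = ∅`, `s = 0`), with S_ORG. -/
def S_ORI : Prop := ∀ (X : Type) [MetricSpace X] [CompactSpace X],
  LocallyPathConnectedSpace X → ShrLE X 3 → Sj (ZMod 2) X → Ucl X →
  (∀ x : X, ∃ B, x ∈ B ∧ GB (ZMod 2) B) → ∃ s, Orr (univ : Set X) s

def M_ORI : Prop := S_ORG → S_ORI

/-! ## 5. Corollaries -/

/-- CLA. Closed sets. `c ∈ Cyc 3 A ∅`; `dd c ∈ Cyc 4 univ A` (`les_conn`) is a coboundary by S_DIM; `les_right` gives `c' ∈ Cyc 3 univ ∅` with `Bd 3 A ∅ (c - c')`. `SjM` for `V = univ`, `W = Aᶜ`: `c''` with `BdO 3 univ (c' - c'')`, `c''` vanishes near `A`. -/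
def S_CLA : Prop := ∀ (M X : Type) [AddCommGroup M] [MetricSpace X] [CompactSpace X],
  ShrLE X 3 → IsConnected (univ : Set X) → SjM M X → ∀ A : Set X, IsClosed A → A ≠ univ →
  Van M 3 A ∅

def M_CLA : Prop := S_DIM → S_CLA

/-- NCT. If `X` is contractible then `Ctr univ univ` (from the homotopy of the identity to a constant map), so S_CTR for `p = 3`. -/
def S_NCT : Prop := ∀ (M X : Type) [AddCommGroup M] [MetricSpace X] [CompactSpace X],
  ¬ VanO M 3 (univ : Set X) → ¬ ContractibleSpace X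

def M_NCT : Prop := S_CTR → S_NCT

/-- cohomology `n`-manifolds over `R` (without the condition on the dimension) -/
def CohMfd (R : Type) [CommRing R] (n : ℤ) (X : Type) [MetricSpace X] : Prop :=
  ∀ (x : X) (N : Set X), IsOpen N → x ∈ N →
    (∃ V ⊆ N, IsOpen V ∧ x ∈ V ∧ ∀ p : ℤ, p ≠ n → ∀ c : Cc R X, CyO p V c → BdO p N c) ∧
    ∃ B ⊆ N, IsOpen B ∧ x ∈ B ∧ ∀ V ⊆ B, IsOpen V → IsConnected V →
      Nonempty (HO R R n V ≃ₗ[R] R) ∧ ∀ (W : Set X) (h : W ⊆ V), IsOpen W → IsConnected W →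
        Function.Bijective (ext R R (p := n) h)

/-- CMK. Fields. `LT k 0, 1, 2 x` (S_LT0, S_LT1, S_LT2; `GNs` from S_GNX) and `VanO` in the degrees `≥ 4` (S_DIM) and `< 0` (`Van.neg`): one `V` for `p = 0, 1, 2` by intersection (`CyO.mono`). `B` from S_ONE (2): for connected `V ⊆ B` the module `HO k k 3 V` is generated by one element (S_ONE (1)) and not zero (`GB`), so isomorphic
to `k`; `ext` is onto (S_SRJ) and injective (S_ONE (2)). -/
def S_CMK : Prop := ∀ (k X : Type) [Field k] [Countable k] [MetricSpace X] [CompactSpace X],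
  IsANR X → Homog X → ShrLE X 3 → ¬ ShrLE X 2 → CohMfd k 3 X

def M_CMK : Prop := S_LT0 → S_LT1 → S_LT2 → S_GNX → S_DIM → S_ONE → S_SRJ → S_CMK

/-- CMZ. Integers. `LT ℤ 0, 1 x` (S_LT0, S_LT1 for `M = ℤ`), `LT ℤ 2 x` (S_LTZ; S_LT2 for `ℚ` and `ZMod p`). `B` from S_ONE (2) for `ℚ` (`GB ℚ B`). `SjM ℤ X` from S_SJZ and S_SRJ; `HO ℤ ℤ 3 V ≃ ℤ` from S_HZ3 and S_ONE (1) for `ZMod p`; `ext` is onto by `SjM`, and a surjective linear map between modules isomorphic to `ℤ`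
is bijective (Noetherian, `OrzechProperty`). -/
def S_CMZ : Prop := ∀ (X : Type) [MetricSpace X] [CompactSpace X],
  IsANR X → Homog X → ShrLE X 3 → ¬ ShrLE X 2 → SjM ℤ X ∧ CohMfd ℤ 3 X

def M_CMZ : Prop := S_LPX → S_LT0 → S_LT1 → S_LT2 → S_LTZ → S_GNX → S_DIM → S_ONE → S_SRJ →
  S_SJZ → S_HZ3 → S_CMZ

/-- COR. The fundamental class mod 2 and its consequences. `s` from S_ORI (S_SRJ, S_ONE for `ZMod 2`, S_LPX). (1) `s c ≠ 0` for some `c ∈ CyO 3 univ` (`X` is nonempty), so `¬ BdO 3 univ c`. (2) S_NCT. (3) `GB (ZMod 2) univ` from `Orr`; S_NSB for `B = univ`. (4) S_CLA for `ZMod 2`, similarly every countable field: `SjM k X` is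
`Sj k X`. -/
def S_COR : Prop := ∀ (X : Type) [MetricSpace X] [CompactSpace X] [Nonempty X],
  IsANR X → Homog X → ShrLE X 3 → ¬ ShrLE X 2 → ¬ VanO (ZMod 2) 3 (univ : Set X) ∧
  ¬ ContractibleSpace X ∧ (ConnectedSpace X →
    (∀ A : Set X, IsClosed A → Van (ZMod 2) 2 A ∅ → IsPreconnected Aᶜ) ∧
    (∀ A : Set X, IsClosed A → A ≠ univ → Van ℤ 3 A ∅ ∧
      ∀ (k : Type) [Field k] [Countable k], Van k 3 A ∅) ∧
    Nonempty (HO (ZMod 2) (ZMod 2) 3 (univ : Set X) ≃ₗ[ZMod 2] ZMod 2))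

def M_COR : Prop := S_LPX → S_ORI → S_SRJ → S_ONE → S_NSB → S_NCT → S_CLA → S_CMZ → S_COR

end BBH


end
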