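import Mathlib
import Pool.Agent.BBM.C06
import Pool.Agent.BBM.C16

/-! Parts: BBH.B_CTR, BBH.B_MVC, BBH.B_HUL, BBH.B_DIM, BBH.B_OUT, BBH.E_GEQ, BBH.F_KB, BBH.F_KD, BBH.F_KG, BBH.G_LNL, BBH.G_LED, BBH.H_CMZ, BBH.H_COR -/

section

/-!
# CTR: sets that contract in a larger set
-/

set_option autoImplicit false

namespace BBH

open Set Topology CTO

theorem t_CTR : M_CTR := by
  intro hPNT M X _ _ K K' hK hKK' hctr p hp c hc
  obtain ⟨w, F, hw, hF, hmap, h0, h1⟩ := hctr
  have hid : PMap (id : X → X) K ∅ K' ∅ :=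
    ⟨UAt.id K, empty_subset K, fun x hx => hKK' hx, mapsTo_empty _ _⟩
  have hu : UAt (fun _ : X => w) K := uAt_of_CA hK fun _ _ => continuousAt_const
  have hcw : PMap (fun _ : X => w) K ∅ K' ∅ :=
    ⟨hu, empty_subset K, fun _ _ => hw, mapsTo_empty _ _⟩
  have hcw' : PMap (fun _ : X => w) K ∅ {w} ∅ :=
    ⟨hu, empty_subset K, fun _ _ => rfl, mapsTo_empty _ _⟩
  have h2 : Bd p K ∅ (pull (fun _ : X => w) c - pull id c) :=
    bd_of_homotopyOn hK hF hid hcw h0 h1 hmap (fun x hx => hx.1.elim) hc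
  have h3 : Bd p ({w} : Set X) ∅ c :=
    (hPNT M X w).1 p hp c (hc.mono (singleton_subset_iff.2 hw) Subset.rfl)
  have h4 : Bd p K ∅ (pull (fun _ : X => w) c) := bd_pull hcw' h3
  have h5 := h4.sub h2
  rw [sub_sub_cancel, pull_id] at h5
  exact h5

end BBH


end

section

/-!
# BBH: Mayer-Vietoris for compact sets
-/

set_option autoImplicit false

namespace BBH

open Set Topology CTO

theorem t_MVC : S_MVC := by
  intro M X _ _ p A B c hA hB h1 h2
  obtain ⟨b₁, d1, z1, k1⟩ := h1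
  obtain ⟨b₂, d2, z2, k2⟩ := h2
  refine ⟨b₁ - b₂, ⟨d1.sub d2, Zr.empty (d1.sub d2), ?_⟩, ?_⟩
  · have h3 : dd (b₁ - b₂) = (c - dd b₂) - (c - dd b₁) := by
      rw [dd_sub]
      abel
    rw [h3]
    exact (k2.anti inter_subset_right).sub (k1.anti inter_subset_left)
  · intro e₁ e₂ he1 he2 hw
    obtain ⟨f, df, zf, kf⟩ := hw
    obtain ⟨K, hK1, hK2⟩ := Zr.inter hA hB kf
    have hw1 : Dg X (p - 1) (b₁ - b₂ - e₁ - e₂ - dd f) :=
      ((((d1.sub d2).sub he1.deg).sub he2.deg).sub df.dd')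
    set w : Cc M X := b₁ - b₂ - e₁ - e₂ - dd f with hwd
    have hb : b₁ - e₁ - ind K w = b₂ + e₂ + dd f + ind Kᶜ w := by
      rw [ind_compl, hwd]
      abel
    have hdeg : Dg X (p - 1) (b₁ - e₁ - ind K w) := (d1.sub he1.deg).sub hw1.ind
    refine ⟨b₁ - e₁ - ind K w, hdeg, Zr.empty hdeg, Zr.union ?_ ?_⟩
    · have h4 : c - dd (b₁ - e₁ - ind K w) = (c - dd b₁) + dd e₁ + dd (ind K w) := by
        rw [dd_sub, dd_sub]
        abel
      rw [h4]
      exact (k1.add he1.cyc).add hK1.dd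
    · have h4 : c - dd (b₁ - e₁ - ind K w) = (c - dd b₂) - dd e₂ - dd (ind Kᶜ w) := by
        rw [hb, dd_add, dd_add, dd_add, dd_dd]
        abel
      rw [h4]
      exact (k2.sub he2.cyc).sub hK2.dd

end BBH


end

section

/-!
# BBH, HUL: compact convex sets near an ANR
-/

set_option autoImplicit false

namespace BBH

open Set Topology CTO

theorem t_HUL : S_HUL := by
  intro X _ _ hX K K' L L' hK hL hKK hLL hLK
  have he : Isometry (kuratowskiEmbedding X) := kuratowskiEmbedding.isometry X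
  obtain ⟨Ω, r, hΩ, hsub, hr, hre⟩ := hX _ (kuratowskiEmbedding X) he.isClosedEmbedding
  obtain ⟨η1, hη1, hT1⟩ := hK.isCompact.exists_thickening_subset_open isOpen_interior hKK
  obtain ⟨η2, hη2, hT2⟩ := hL.isCompact.exists_thickening_subset_open isOpen_interior hLL
  obtain ⟨δ, hδ, h1⟩ := CTO.HOM.unif (kuratowskiEmbedding X) he Ω r hΩ hsub hr hre
    (lt_min hη1 hη2)
  have hK' : ∀ x ∈ K, ∀ u, dist u (kuratowskiEmbedding X x) < δ → r u ∈ K' := by
    intro x hx u hu
    refine interior_subset (hT1 ?_)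
    rw [Metric.mem_thickening_iff]
    exact ⟨x, hx, lt_of_lt_of_le (h1 x (mem_univ x) u hu).2 (min_le_left _ _)⟩
  have hL' : ∀ x ∈ L, ∀ u, dist u (kuratowskiEmbedding X x) < δ → r u ∈ L' := by
    intro x hx u hu
    refine interior_subset (hT2 ?_)
    rw [Metric.mem_thickening_iff]
    exact ⟨x, hx, lt_of_lt_of_le (h1 x (mem_univ x) u hu).2 (min_le_right _ _)⟩
  have hδ4 : 0 < δ / 4 := by positivity
  obtain ⟨t, htK, htf, hcov⟩ := hK.isCompact.finite_cover_balls hδ4
  have := htf.fintype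
  let q : Fin (Fintype.card t) ≃ t := (Fintype.equivFin t).symm
  let Ki : Fin (Fintype.card t) → Set X := fun i => K ∩ Metric.closedBall (q i : X) (δ / 4)
  let C : Fin (Fintype.card t) → Set (lp (fun _ : ℕ => ℝ) ⊤) := fun i =>
    closure (convexHull ℝ (kuratowskiEmbedding X '' Ki i))
  have hC : ∀ i, C i ⊆ Metric.closedBall (kuratowskiEmbedding X (q i : X)) (δ / 4) := by
    intro i
    refine closure_minimal (convexHull_min ?_ (convex_closedBall _ _)) Metric.isClosed_closedBall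
    rintro _ ⟨y, hy, rfl⟩
    rw [Metric.mem_closedBall, he.dist_eq]
    exact hy.2
  have hcomp : ∀ i, IsCompact (C i) := by
    intro i
    have hKi : IsCompact (Ki i) := hK.isCompact.inter_right Metric.isClosed_closedBall
    have h2 : TotallyBounded (kuratowskiEmbedding X '' Ki i) :=
      (hKi.image he.continuous).totallyBounded
    exact (totallyBounded_convexHull.2 h2).closure.isCompact_of_isClosed isClosed_closure
  have hin : ∀ x ∈ K, ∃ i, x ∈ Ki i := by
    intro x hx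
    have h2 := hcov hx
    simp only [mem_iUnion] at h2
    obtain ⟨y, hy, hxy⟩ := h2
    refine ⟨q.symm ⟨y, hy⟩, hx, ?_⟩
    rw [Equiv.apply_symm_apply]
    exact Metric.ball_subset_closedBall hxy
  have hmem : ∀ i, ∀ x ∈ Ki i, kuratowskiEmbedding X x ∈ C i := fun i x hx =>
    subset_closure (subset_convexHull ℝ _ (mem_image_of_mem _ hx))
  refine ⟨lp (fun _ : ℕ => ℝ) ⊤, inferInstance, inferInstance, kuratowskiEmbedding X, r, Ω,
    Fintype.card t, C, {i | (Ki i ∩ L).Nonempty}, he.continuous, hΩ, hr, hre, hcomp, ?_, ?_, ?_,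
    ?_, ?_, ?_⟩
  · intro i
    exact (convex_convexHull ℝ _).closure
  · refine iUnion_subset fun i u hu => ?_
    have h3 : dist u (kuratowskiEmbedding X (q i : X)) < δ :=
      lt_of_le_of_lt (hC i hu) (by linarith)
    exact (h1 _ (mem_univ _) u h3).1
  · intro x hx
    obtain ⟨i, hi⟩ := hin x hx
    exact mem_iUnion.2 ⟨i, hmem i x hi⟩
  · intro x hx
    obtain ⟨i, hi⟩ := hin x (hLK hx)
    exact mem_iUnion₂.2 ⟨i, ⟨x, hi, hx⟩, hmem i x hi⟩
  · intro u hu
    obtain ⟨i, hi⟩ := mem_iUnion.1 hu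
    exact hK' (q i : X) (htK (q i).2) u (lt_of_le_of_lt (hC i hi) (by linarith))
  · intro u hu
    obtain ⟨i, ⟨y, hy, hyL⟩, hi⟩ := mem_iUnion₂.1 hu
    refine hL' y hyL u ?_
    have h3 : dist u (kuratowskiEmbedding X (q i : X)) ≤ δ / 4 := hC i hi
    have h4 : dist (kuratowskiEmbedding X (q i : X)) (kuratowskiEmbedding X y) ≤ δ / 4 := by
      rw [he.dist_eq, dist_comm]
      exact hy.2
    have h5 := dist_triangle u (kuratowskiEmbedding X (q i : X)) (kuratowskiEmbedding X y)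
    linarith

end BBH


end

section

/-!
# BBH: module DIM (no cohomology above the dimension)
-/

set_option autoImplicit false

namespace BBH

open Set Topology CTO

namespace DIM

/-- selection of close points with few values on small sets -/
theorem select {X : Type} [MetricSpace X] [CompactSpace X] [Nonempty X] (n : ℕ) (hS : ShrLE X n)
    (ε : ℝ) (hε : 0 < ε) :
    ∃ (k : ℕ) (i : X → Fin k) (q : Fin k → X) (lam : ℝ), 0 < lam ∧
      (∀ x, dist (q (i x)) x < ε / 4) ∧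
      ∀ l : List X, (∀ x ∈ l, ∀ y ∈ l, dist x y < lam) → (l.map i).toFinset.card ≤ n + 1 := by
  classical
  have hδ : 0 < ε / 8 := by positivity
  obtain ⟨t0, -, ht0, hcov⟩ :=
    (isCompact_univ : IsCompact (univ : Set X)).finite_cover_balls hδ
  let t : Finset X := ht0.toFinset
  let c : Fin t.card → X := fun i => (t.equivFin.symm i : X)
  have hUcov : (⋃ i, Metric.ball (c i) (ε / 8)) = univ := by
    rw [Set.eq_univ_iff_forall]
    intro x
    have hx := hcov (mem_univ x)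
    rw [Set.mem_iUnion₂] at hx
    obtain ⟨y, hy, hxy⟩ := hx
    have hyt : y ∈ t := ht0.mem_toFinset.2 hy
    rw [Set.mem_iUnion]
    refine ⟨t.equivFin ⟨y, hyt⟩, ?_⟩
    have hc : c (t.equivFin ⟨y, hyt⟩) = y := by
      change ((t.equivFin.symm (t.equivFin ⟨y, hyt⟩) : t) : X) = y
      rw [Equiv.symm_apply_apply]
    rw [hc]
    exact hxy
  obtain ⟨V, hVo, hVU, hVc, hVn⟩ := hS t.card (fun i => Metric.ball (c i) (ε / 8))
    (fun i => Metric.isOpen_ball) hUcov
  obtain ⟨lam, hlam, hL⟩ := lebesgue_number_lemma_of_metric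
    (isCompact_univ : IsCompact (univ : Set X)) hVo hVc.ge
  choose i hi using fun x => hL x (mem_univ x)
  have hq : ∀ j, ∃ y : X, (V j).Nonempty → y ∈ V j := by
    intro j
    by_cases h2 : (V j).Nonempty
    · obtain ⟨y, hy⟩ := h2
      exact ⟨y, fun _ => hy⟩
    · exact ⟨Classical.arbitrary X, fun h => absurd h h2⟩
  choose q hq1 using hq
  have hself : ∀ x, x ∈ V (i x) := fun x => hi x (Metric.mem_ball_self hlam)
  refine ⟨t.card, i, q, lam, hlam, ?_, ?_⟩
  · intro x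
    have h1 : q (i x) ∈ V (i x) := hq1 (i x) ⟨x, hself x⟩
    have h2 := hVU (i x) h1
    have h3 := hVU (i x) (hself x)
    rw [Metric.mem_ball] at h2 h3
    have h4 := dist_triangle_right (q (i x)) x (c (i x))
    linarith
  · intro l hl
    rcases l with _ | ⟨a, l⟩
    · simp
    · have hsub : ((((a :: l).map i).toFinset : Finset (Fin t.card)) : Set (Fin t.card)) ⊆
          {j | a ∈ V j} := by
        intro j hj
        rw [Finset.mem_coe, List.mem_toFinset, List.mem_map] at hj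
        obtain ⟨y, hy, rfl⟩ := hj
        apply hi y
        rw [Metric.mem_ball]
        exact hl a List.mem_cons_self y hy
      have h1 := Set.ncard_le_ncard hsub (Set.toFinite _)
      rw [Set.ncard_coe_finset] at h1
      exact h1.trans (hVn a)

/-- the selection is contiguous to the identity -/
theorem contig {X : Type} [MetricSpace X] {r : X → X} {ε δ : ℝ} (hr : ∀ x, dist (r x) x < ε / 4)
    (hδ : δ ≤ ε / 4) (A : Set X) (l : List X) (hl : l ∈ Small A δ) :
    l.map id ++ l.map r ∈ Small A ε := by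
  have key : ∀ z ∈ l.map id ++ l.map r, ∃ x ∈ l, dist z x ≤ ε / 4 := by
    intro z hz
    rw [List.mem_append] at hz
    rcases hz with hz | hz
    · rw [List.map_id] at hz
      refine ⟨z, hz, ?_⟩
      rw [dist_self]
      have h1 := hr z
      have h2 := dist_nonneg (x := r z) (y := z)
      linarith
    · rw [List.mem_map] at hz
      obtain ⟨x, hx, rfl⟩ := hz
      exact ⟨x, hx, (hr x).le⟩
  constructor
  · intro z hz
    obtain ⟨x, hx, hzx⟩ := key z hz
    have h1 := hl.1 x hx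
    rw [Metric.mem_thickening_iff] at h1 ⊢
    obtain ⟨a, ha, hxa⟩ := h1
    refine ⟨a, ha, ?_⟩
    have h2 := dist_triangle z x a
    have h3 := dist_nonneg (x := x) (y := a)
    linarith
  · intro z hz w hw
    obtain ⟨x, hx, hzx⟩ := key z hz
    obtain ⟨y, hy, hwy⟩ := key w hw
    have h1 := hl.2 x hx y hy
    have h2 := dist_triangle4 z x y w
    rw [dist_comm y w] at h2
    have h3 := dist_nonneg (x := x) (y := y)
    linarith

end DIM

open DIM in
theorem t_DIM : M_DIM := by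
  classical
  intro hC M X _ _ _ n hS p A B hp hBA c hc
  rcases isEmpty_or_nonempty X with hX | hX
  · have hA : A = ∅ := Set.eq_empty_of_isEmpty A
    subst hA
    exact Van.empty p B c hc
  obtain ⟨ε₁, h1, h1'⟩ := hc.rel
  obtain ⟨ε₂, h2, h2'⟩ := hc.cyc
  set ε : ℝ := min ε₁ ε₂ with hεd
  have hε : 0 < ε := lt_min h1 h2
  have hc' : ∀ l ∈ Small B ε, c l = 0 := fun l hl =>
    h1' l (Small.mono Subset.rfl (min_le_left _ _) hl)
  have hcc : ∀ l ∈ Small A ε, dd c l = 0 := fun l hl =>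
    h2' l (Small.mono Subset.rfl (min_le_right _ _) hl)
  obtain ⟨k, i, q, lam, hlam, hq, hcard⟩ := select n hS ε hε
  set δ : ℝ := min lam (ε / 4) with hδd
  have hδ : 0 < δ := lt_min hlam (by positivity)
  have hδε : δ ≤ ε / 4 := min_le_right _ _
  have hδl : δ ≤ lam := min_le_left _ _
  have hcon : ∀ (D : Set X), ∀ l ∈ Small D δ, l.map id ++ l.map (q ∘ i) ∈ Small D ε :=
    fun D l hl => contig (r := q ∘ i) hq hδε D l hl
  have hb1 : Bd p A B (pull (q ∘ i) c - pull id c) :=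
    bd_of_contig hc.deg hc' hcc hδ (hcon A) (hcon B)
  rw [pull_id] at hb1
  -- the combinatorial complexes
  set K : Set (List (Fin k)) := {t | ∃ l ∈ Small A δ, t ⊆ l.map i} with hK
  set L : Set (List (Fin k)) := {t | ∃ l ∈ Small B δ, t ⊆ l.map i} with hL
  have hmap : ∀ (D : Set X) (t : List (Fin k)), (∃ l ∈ Small D δ, t ⊆ l.map i) →
      t.map q ∈ Small D ε := by
    rintro D t ⟨l, hl, htl⟩
    refine Small.cl D ε _ (hcon D l hl) _ ?_
    intro z hz
    rw [List.mem_map] at hz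
    obtain ⟨j, hj, rfl⟩ := hz
    have hj2 := htl hj
    rw [List.mem_map] at hj2
    obtain ⟨x, hx, rfl⟩ := hj2
    rw [List.mem_append]
    right
    rw [List.mem_map]
    exact ⟨x, hx, rfl⟩
  obtain ⟨b, hb, hbL, hbK⟩ := hC M (Fin k) (n + 1) Finset.univ K L
    (fun t ht t' htt => by
      obtain ⟨l, hl, htl⟩ := ht
      exact ⟨l, hl, fun v hv => htl (htt hv)⟩)
    (fun t ht t' htt => by
      obtain ⟨l, hl, htl⟩ := ht
      exact ⟨l, hl, fun v hv => htl (htt hv)⟩)
    (fun t ht => by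
      obtain ⟨l, hl, htl⟩ := ht
      exact ⟨l, Small.mono hBA le_rfl hl, htl⟩)
    (fun t ht => by
      obtain ⟨l, hl, htl⟩ := ht
      refine ⟨?_, fun v _ => Finset.mem_univ v⟩
      have h3 : t.toFinset ⊆ (l.map i).toFinset := by
        intro v hv
        rw [List.mem_toFinset] at hv ⊢
        exact htl hv
      exact (Finset.card_le_card h3).trans
        (hcard l fun x hx y hy => lt_of_lt_of_le (hl.2 x hx y hy) hδl))
    p (by push_cast; omega) (pull q c) (hc.deg.pull q)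
    (fun t ht => by
      rw [dd_pull_apply]
      exact hcc _ (hmap A t ht))
    (fun t ht => by
      rw [pull_apply]
      exact hc' _ (hmap B t ht))
  have hb2 : Bd p A B (pull (q ∘ i) c) := by
    refine ⟨pull i b, hb.pull i, ⟨δ, hδ, fun l hl => ?_⟩, δ, hδ, fun l hl => ?_⟩
    · rw [pull_apply]
      exact hbL _ ⟨l, hl, List.Subset.refl _⟩
    · rw [← pull_pull, Pi.sub_apply, pull_apply, dd_pull_apply,
        hbK _ ⟨l, hl, List.Subset.refl _⟩, sub_self]
  have h5 := hb2.sub hb1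
  rwa [sub_sub_cancel] at h5

end BBH


end

section

/-!
# BBH: the outside of a compact set
-/

set_option autoImplicit false

namespace BBH

open Set Topology CTO

namespace OUT

/-- a relatively closed and open subset of a connected set -/
lemma sub_of_clopen {X : Type} [TopologicalSpace X] {B S : Set X} (hB : IsPreconnected B)
    (hS : IsOpen S) (hne : (B ∩ S).Nonempty) (hcl : closure S ∩ B ⊆ S) : B ⊆ S := by
  by_contra h
  rw [not_subset] at h
  obtain ⟨y, hyB, hyS⟩ := h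
  have h1 : B ⊆ S ∪ (closure S)ᶜ := by
    intro z hz
    by_cases h2 : z ∈ closure S
    · exact Or.inl (hcl ⟨h2, hz⟩)
    · exact Or.inr h2
  have h3 : (B ∩ (closure S)ᶜ).Nonempty := ⟨y, hyB, fun h => hyS (hcl ⟨h, hyB⟩)⟩
  obtain ⟨z, _, hz1, hz2⟩ := hB S (closure S)ᶜ hS isClosed_closure.isOpen_compl h1 hne h3
  exact hz2 (subset_closure hz1)

/-- the components of open sets are relatively closed -/
lemma closure_comp {X : Type} [TopologicalSpace X] [LocallyConnectedSpace X] {O : Set X} {w z : X}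
    (hO : IsOpen O) (hz : z ∈ closure (connectedComponentIn O w)) (hzO : z ∈ O) :
    z ∈ connectedComponentIn O w := by
  have h2 : IsOpen (connectedComponentIn O z) := hO.connectedComponentIn
  obtain ⟨u, hu1, hu2⟩ := mem_closure_iff.1 hz _ h2 (mem_connectedComponentIn hzO)
  have h3 := connectedComponentIn_eq hu1
  have h4 := connectedComponentIn_eq hu2
  rw [h4, ← h3]
  exact mem_connectedComponentIn hzO

/-- compact sets are in the component for small `δ` -/
lemma cover {X : Type} [MetricSpace X] [LocallyPathConnectedSpace X] {B J F : Set X} {w : X}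
    (hBo : IsOpen B) (hJ : IsClosed J) (hBJ : IsConnected (B \ J)) (hw : w ∈ B \ J)
    (hF : IsCompact F) (hFB : F ⊆ B \ J) :
    ∃ δ₀ : ℝ, 0 < δ₀ ∧ ∀ δ : ℝ, 0 < δ → δ ≤ δ₀ →
      F ⊆ connectedComponentIn (B \ Metric.cthickening δ J) w := by
  have hmono : ∀ a b : ℝ, a ≤ b → connectedComponentIn (B \ Metric.cthickening b J) w ⊆
      connectedComponentIn (B \ Metric.cthickening a J) w := fun a b hab =>
    connectedComponentIn_mono w (sdiff_subset_sdiff_right (Metric.cthickening_mono hab J))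
  refine hF.induction_on (p := fun S => ∃ δ₀ : ℝ, 0 < δ₀ ∧ ∀ δ : ℝ, 0 < δ → δ ≤ δ₀ →
      S ⊆ connectedComponentIn (B \ Metric.cthickening δ J) w) ?_ ?_ ?_ ?_
  · exact ⟨1, one_pos, fun _ _ _ => empty_subset _⟩
  · rintro S T hST ⟨δ₀, h0, h1⟩
    exact ⟨δ₀, h0, fun δ h2 h3 => hST.trans (h1 δ h2 h3)⟩
  · rintro S T ⟨a, ha, ha'⟩ ⟨b, hb, hb'⟩
    exact ⟨min a b, lt_min ha hb, fun δ h2 h3 => union_subset (ha' δ h2 (h3.trans (min_le_left _ _)))
      (hb' δ h2 (h3.trans (min_le_right _ _)))⟩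
  · intro y hy
    have hyB := hFB hy
    have hO : IsOpen (B \ J) := hBo.sdiff hJ
    have hP : IsPathConnected (B \ J) := (hO.isConnected_iff_isPathConnected).1 hBJ
    obtain ⟨γ, hγ⟩ := hP.joinedIn w hw y hyB
    have hK : IsCompact (range γ) := isCompact_range γ.continuous
    have hdis : Disjoint (range γ) J := by
      rw [Set.disjoint_left]
      rintro _ ⟨t, rfl⟩ h
      exact (hγ t).2 h
    obtain ⟨δ, hδ, hd⟩ := hdis.exists_cthickenings hK hJ
    have hyW : y ∈ connectedComponentIn (B \ Metric.cthickening δ J) w := by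
      have hsub : range γ ⊆ B \ Metric.cthickening δ J := by
        rintro _ ⟨t, rfl⟩
        refine ⟨(hγ t).1, fun h => ?_⟩
        exact (Set.disjoint_left.1 hd) (Metric.self_subset_cthickening _ (mem_range_self t)) h
      have hpre : IsPreconnected (range γ) := isPreconnected_range γ.continuous
      exact hpre.subset_connectedComponentIn ⟨0, γ.source⟩ hsub ⟨1, γ.target⟩
    have hWo : IsOpen (connectedComponentIn (B \ Metric.cthickening δ J) w) :=
      (hBo.sdiff Metric.isClosed_cthickening).connectedComponentIn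
    exact ⟨_, mem_nhdsWithin_of_mem_nhds (hWo.mem_nhds hyW), δ, hδ, fun a _ h3 => hmono a δ h3⟩

end OUT

open OUT in
theorem t_OUT : S_OUT := by
  intro X _ _ hX B J N w hBo hBc hJc hJn hJB hBJ hwB hNo hJN
  have := hX
  obtain ⟨ρ, hρ, hρs⟩ := hJc.exists_cthickening_subset_open (hBo.inter hNo) (subset_inter hJB hJN)
  have hJcl : IsClosed J := hJc.isClosed
  -- the frontier
  have hF : IsCompact (Metric.cthickening ρ J \ Metric.thickening ρ J) :=
    (Metric.isClosed_cthickening.sdiff Metric.isOpen_thickening).isCompact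
  have hFB : Metric.cthickening ρ J \ Metric.thickening ρ J ⊆ B \ J := fun y hy =>
    ⟨(hρs hy.1).1, fun h => hy.2 (Metric.self_subset_thickening hρ J h)⟩
  obtain ⟨δ₁, hδ₁, h1⟩ := cover hBo hJcl hBJ hwB hF hFB
  obtain ⟨δ₂, hδ₂, h2⟩ := cover hBo hJcl hBJ hwB (isCompact_singleton (x := w))
    (singleton_subset_iff.2 hwB)
  set δ : ℝ := min (ρ / 2) (min δ₁ δ₂) with hδdef
  have hδ : 0 < δ := lt_min (by positivity) (lt_min hδ₁ hδ₂)
  have hδρ : δ < ρ := lt_of_le_of_lt (min_le_left _ _) (by linarith)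
  have hF1 := h1 δ hδ ((min_le_right _ _).trans (min_le_left _ _))
  have hwW : w ∈ connectedComponentIn (B \ Metric.cthickening δ J) w :=
    h2 δ hδ ((min_le_right _ _).trans (min_le_right _ _)) rfl
  set W : Set X := connectedComponentIn (B \ Metric.cthickening δ J) w with hW
  have hOo : IsOpen (B \ Metric.cthickening δ J) := hBo.sdiff Metric.isClosed_cthickening
  have hWo : IsOpen W := hOo.connectedComponentIn
  have hWs : W ⊆ B \ Metric.cthickening δ J := connectedComponentIn_subset _ _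
  have hwO : w ∈ B \ Metric.cthickening δ J := hWs hwW
  have hKU : Metric.cthickening δ J ⊆ Metric.thickening ρ J :=
    Metric.cthickening_subset_thickening' hρ hδρ J
  have key : B ⊆ W ∪ Metric.thickening ρ J := by
    apply sub_of_clopen hBc.isPreconnected (hWo.union Metric.isOpen_thickening)
    · exact ⟨w, hwO.1, Or.inl hwW⟩
    · rintro z ⟨hz, hzB⟩
      by_cases hzb : z ∈ Metric.thickening ρ J
      · exact Or.inr hzb
      · left
        rw [closure_union] at hz
        rcases hz with hz | hz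
        · exact closure_comp hOo hz ⟨hzB, fun h => hzb (hKU h)⟩
        · exact hF1 ⟨Metric.closure_thickening_subset_cthickening ρ J hz, hzb⟩
  have hdiff : B \ W = Metric.cthickening ρ J \ W := by
    apply Subset.antisymm
    · intro y hy
      exact ⟨Metric.thickening_subset_cthickening ρ J ((key hy.1).resolve_left hy.2), hy.2⟩
    · intro y hy
      exact ⟨(hρs hy.1).1, hy.2⟩
  refine ⟨Metric.cthickening δ J, W, Metric.isClosed_cthickening.isCompact, ?_, ?_, hwW, hWo,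
    isConnected_connectedComponentIn_iff.2 hwO, hWs, ?_, ?_, ?_⟩
  · exact (Metric.self_subset_thickening hδ J).trans (Metric.thickening_subset_interior_cthickening δ J)
  · exact (Metric.cthickening_mono hδρ.le J).trans hρs
  · rintro z ⟨hz, hzO⟩
    exact closure_comp hOo hz hzO
  · rw [hdiff]
    exact (Metric.isClosed_cthickening.sdiff hWo).isCompact
  · rw [hdiff]
    exact fun y hy => (hρs hy.1).2

end BBH


end

section

/-!
# Module GEQ: local triviality is global if the next group is zero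
-/

set_option autoImplicit false

namespace BBH

open Set Topology CTO

namespace GEQ

variable {M X : Type} [AddCommGroup M] [MetricSpace X]

/-- finite unions of small sets -/
theorem finite_union (hM : S_MVO) [CompactSpace X] {q : ℤ}
    (hq : ∀ V : Set X, IsOpen V → VanO M (q + 1) V) {V : Set X} (W : X → Set X) :
    ∀ t : Finset X, (∀ y ∈ t, W y ⊆ V ∧ IsOpen (W y) ∧
        ∀ c : Cc M X, CyO q (W y) c → BdO q V c) →
      ∀ c : Cc M X, CyO q (⋃ y ∈ t, W y) c → BdO q V c := by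
  classical
  intro t
  induction t using Finset.induction_on with
  | empty =>
    intro _ c hc
    have h0 : (⋃ y ∈ (∅ : Finset X), W y) = ∅ := by simp
    rw [h0] at hc
    have hz : Zr univ c := by
      have h1 := hc.rel
      rwa [compl_empty] at h1
    exact BdO.of_Zr hz
  | insert a t ha ih =>
    intro h c hc
    have e : (⋃ y ∈ insert a t, W y) = W a ∪ ⋃ y ∈ t, W y := by
      rw [Finset.set_biUnion_insert]
    rw [e] at hc
    obtain ⟨haV, hao, haQ⟩ := h a (Finset.mem_insert_self a t)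
    have ht : ∀ y ∈ t, W y ⊆ V ∧ IsOpen (W y) ∧ ∀ c : Cc M X, CyO q (W y) c → BdO q V c :=
      fun y hy => h y (Finset.mem_insert_of_mem hy)
    have hto : IsOpen (⋃ y ∈ t, W y) := isOpen_biUnion fun y hy => (ht y hy).2.1
    have htV : (⋃ y ∈ t, W y) ⊆ V := iUnion₂_subset fun y hy => (ht y hy).1
    obtain ⟨c₁, c₂, h1, h2, h3⟩ := (hM M X q (W a) (⋃ y ∈ t, W y) hao hto).2.2.2.2 c hc
      (fun d hd => hq _ (hao.inter hto) d hd)
    have huV : W a ∪ (⋃ y ∈ t, W y) ⊆ V := union_subset haV htV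
    have hr : BdO q V (c - c₁ - c₂) := BdO.mono h3 huV
    have h4 : BdO q V (c - c₁ - c₂ + c₂ + c₁) :=
      Bd.add (Bd.add hr (ih ht c₂ h2)) (haQ c₁ h1)
    have e2 : c - c₁ - c₂ + c₂ + c₁ = c := by abel
    rwa [e2] at h4

end GEQ

theorem t_GEQ : M_GEQ := by
  intro hM hN M X _ _ _ q hq hL V hV c hc
  obtain ⟨W', hW'o, hW'V, hW'c⟩ := (hN M X c).1 V hV hc.rel
  have hloc : ∀ x ∈ V, ∃ W ⊆ V, IsOpen W ∧ x ∈ W ∧
      ∀ c : Cc M X, CyO q W c → BdO q V c := fun x hx => hL x V hV hx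
  choose! W hW using hloc
  have hcp : IsCompact (closure W') := isClosed_closure.isCompact
  obtain ⟨t, htV, ht⟩ := hcp.elim_nhds_subcover W
    (fun y hy => (hW y (hW'V hy)).2.1.mem_nhds (hW y (hW'V hy)).2.2.1)
  refine GEQ.finite_union hM hq W t (fun y hy => ?_) c ?_
  · obtain ⟨h1, h2, -, h4⟩ := hW y (hW'V (htV y hy))
    exact ⟨h1, h2, h4⟩
  · have h1 : CyO q W' c := ⟨hc.deg, hW'c, hc.cyc⟩
    exact CyO.mono h1 (subset_closure.trans ht)

end BBH


end

section

/-!
# BBH, module KB: a functional on the twisted cochains that extends `s`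
-/

set_option autoImplicit false

namespace BBH

open Set Topology CTO

namespace KB

section

variable {k X : Type} [Field k]

/-- the coboundary as a linear map -/
def ddL (k X : Type) [Field k] : Cc k X →ₗ[k] Cc k X where
  toFun := dd
  map_add' := dd_add
  map_smul' := fun a c => dd_smul a c

/-- the cup product with `Θ` as a linear map -/
def cupL (Θ : Cc k X) : Cc k X →ₗ[k] Cc k X where
  toFun := cup Θ
  map_add' := cup_add_right Θ
  map_smul' := fun a c => cup_smul_right a Θ c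

theorem ddL_apply (c : Cc k X) : ddL k X c = dd c := rfl

theorem cupL_apply (Θ c : Cc k X) : cupL Θ c = cup Θ c := rfl

variable [MetricSpace X]

/-- the cochains of degree `p` that vanish near `A` -/
def DZ (p : ℤ) (A : Set X) : Submodule k (Cc k X) where
  carrier := {c | Dg X p c ∧ Zr A c}
  zero_mem' := ⟨Dg.zero, Zr.zero _⟩
  add_mem' := fun h h' => ⟨h.1.add h'.1, h.2.add h'.2⟩
  smul_mem' := fun a _ h => ⟨h.1.smul a, h.2.smul a⟩

theorem mem_DZ {p : ℤ} {A : Set X} {c : Cc k X} : c ∈ DZ (k := k) p A ↔ Dg X p c ∧ Zr A c :=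
  Iff.rfl

theorem mem_ZZ {p : ℤ} {W : Set X} {c : Cc k X} : c ∈ ZZ k k p univ Wᶜ ↔ CyO p W c := Iff.rfl

end

/-- a functional that vanishes on the kernel factors -/
theorem factor {k A V : Type} [Field k] [AddCommGroup A] [Module k A] [AddCommGroup V]
    [Module k V] (F : A →ₗ[k] V) (σ : A →ₗ[k] k) (h : ∀ a, F a = 0 → σ a = 0) :
    ∃ P : V →ₗ[k] k, ∀ a, P (F a) = σ a := by
  have h1 : σ ∈ (LinearMap.ker F).dualAnnihilator := by
    rw [Submodule.mem_dualAnnihilator]
    intro a ha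
    exact h a (LinearMap.mem_ker.1 ha)
  rw [← LinearMap.range_dualMap_eq_dualAnnihilator_ker] at h1
  obtain ⟨P, hP⟩ := h1
  refine ⟨P, fun a => ?_⟩
  rw [← hP]
  rfl

end KB

open KB in
theorem t_KB : S_KB := by
  intro k X _ _ W Θ s hΘ hs hη
  let ZC : Submodule k (Cc k X) := ZZ k k 3 univ Wᶜ
  let B2 : Submodule k (Cc k X) := DZ 2 Wᶜ
  let Z3 : Submodule k (Cc k X) := DZ 3 univ
  let f0 : ZC →ₗ[k] Cc k X × Cc k X := LinearMap.inl k _ _ ∘ₗ ZC.subtype
  let f1 : B2 →ₗ[k] Cc k X × Cc k X := LinearMap.inl k _ _ ∘ₗ ddL k X ∘ₗ B2.subtype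
  let f2 : B2 →ₗ[k] Cc k X × Cc k X :=
    LinearMap.prod (cupL Θ ∘ₗ B2.subtype) (ddL k X ∘ₗ B2.subtype)
  let f3 : Z3 →ₗ[k] Cc k X × Cc k X := LinearMap.inl k _ _ ∘ₗ Z3.subtype
  let f4 : Z3 →ₗ[k] Cc k X × Cc k X := LinearMap.inr k _ _ ∘ₗ Z3.subtype
  let F : (ZC × B2 × B2 × Z3 × Z3) →ₗ[k] Cc k X × Cc k X :=
    f0.coprod (f1.coprod (f2.coprod (f3.coprod f4)))
  let σ : (ZC × B2 × B2 × Z3 × Z3) →ₗ[k] k := (s ∘ₗ ZC.subtype).coprod 0
  have hF : ∀ (c : ZC) (b₀ b₁ : B2) (z₀ z₁ : Z3), F (c, b₀, b₁, z₀, z₁) =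
      ((c : Cc k X) + (dd (b₀ : Cc k X) + (cup Θ (b₁ : Cc k X) + (z₀ : Cc k X))),
        dd (b₁ : Cc k X) + (z₁ : Cc k X)) := by
    intro c b₀ b₁ z₀ z₁
    simp [F, f0, f1, f2, f3, f4, LinearMap.coprod_apply, ddL_apply, cupL_apply]
  have hσ : ∀ (c : ZC) (r : B2 × B2 × Z3 × Z3), σ (c, r) = s (c : Cc k X) := by
    intro c r
    simp [σ, LinearMap.coprod_apply]
  obtain ⟨P, hP⟩ := factor F σ (by
    rintro ⟨c, b₀, b₁, z₀, z₁⟩ h0
    rw [hF] at h0
    rw [hσ]
    obtain ⟨c, hc⟩ := c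
    obtain ⟨b₀, hb₀⟩ := b₀
    obtain ⟨b₁, hb₁⟩ := b₁
    obtain ⟨z₀, hz₀⟩ := z₀
    obtain ⟨z₁, hz₁⟩ := z₁
    have hc' : CyO 3 W c := hc
    have e1 : c + (dd b₀ + (cup Θ b₁ + z₀)) = 0 := congrArg Prod.fst h0
    have e2 : dd b₁ + z₁ = 0 := congrArg Prod.snd h0
    change s c = 0
    have h1 : CyO 2 W b₁ := by
      refine ⟨hb₁.1, hb₁.2, ?_⟩
      rw [eq_neg_of_add_eq_zero_left e2]
      exact hz₁.2.neg
    have h2 := (hη b₁ h1).2
    have h3 : CyO 3 W (dd b₀) ∧ BdO 3 W (dd b₀) := by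
      have hd : Dg X 3 (dd b₀) := hb₀.1.dd
      refine ⟨⟨hd, hb₀.2.dd, ?_⟩, Bd.of_dd hb₀.1 hb₀.2⟩
      rw [dd_dd]
      exact Zr.zero _
    have h4 : s (dd b₀) = 0 := hs _ h3.1 h3.2
    have h5 : s z₀ = 0 := hs _ (CyO.of_Zr hz₀.1 hz₀.2) (BdO.of_Zr hz₀.2)
    have h6 := congrArg s e1
    rw [map_add, map_add, map_add, h2, h4, h5, map_zero, add_zero, add_zero, add_zero] at h6
    exact h6)
  refine ⟨P, ⟨fun c hc => ?_, fun b₀ b₁ h0 h1 h2 h3 => ?_, fun z₀ z₁ h0 h1 h2 h3 => ?_⟩⟩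
  · have h := hP ((⟨c, hc⟩ : ZC), 0, 0, 0, 0)
    rw [hF, hσ] at h
    simpa [dd_zero] using h
  · have h := hP (0, (⟨b₀, h0, h2⟩ : B2), (⟨b₁, h1, h3⟩ : B2), 0, 0)
    rw [hF, hσ] at h
    simpa using h
  · have h := hP (0, 0, 0, (⟨z₀, h0, h2⟩ : Z3), (⟨z₁, h1, h3⟩ : Z3))
    rw [hF, hσ] at h
    simpa [dd_zero, cup_zero_right] using h

end BBH


end

section

/-!
# Module KD: local triviality of the twisting cochain
-/

set_option autoImplicit false

namespace BBH

open Set Topology CTO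

theorem t_KD : M_KD := by
  intro hP k X _ _ hL B B' D O N K W θ Θ hK hT y hy
  have hyN : {y} ⊆ Nᶜ := by
    rw [singleton_subset_iff]
    exact fun h => (hK.subW hy).2 (hK.subN h)
  have h1 : Zr {y} (dd Θ) := by
    have h := (hT.cy.rel.anti hyN).sub (hT.eq.anti (subset_univ {y}))
    rwa [sub_sub_cancel] at h
  obtain ⟨b, hb, -, hz⟩ := (hP k X y).1 1 le_rfl Θ ⟨hT.deg, Zr.empty hT.deg, h1⟩
  have e10 : (1 : ℤ) - 1 = 0 := by norm_num
  rw [e10] at hb
  rw [hb.eq_c0] at hz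
  obtain ⟨r, hr, hrz⟩ := hz.nhds
  have hO : IsOpen (W ∩ Metric.ball y r) := hK.opW.inter Metric.isOpen_ball
  have hyO : y ∈ W ∩ Metric.ball y r := ⟨hy, Metric.mem_ball_self hr⟩
  have hVs : connectedComponentIn (W ∩ Metric.ball y r) y ⊆ W ∩ Metric.ball y r :=
    connectedComponentIn_subset _ _
  refine ⟨connectedComponentIn (W ∩ Metric.ball y r) y, hVs.trans inter_subset_left,
    hO.connectedComponentIn, isConnected_connectedComponentIn_iff.2 hyO,
    mem_connectedComponentIn hyO, fun x => b [x], hrz _ (hVs.trans fun z hz => ?_)⟩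
  rw [Metric.thickening_singleton]
  exact hz.2

end BBH


end

section

/-!
# BBH, module KG: the primitive on `W`
-/

set_option autoImplicit false

namespace BBH

open Set Topology CTO

namespace KG

/-- a good pair -/
def GP {k X : Type} [Field k] [MetricSpace X] (W : Set X) (Θ : Cc k X)
    (P : (Cc k X × Cc k X) →ₗ[k] k) (V : Set X) (u : X → k) : Prop :=
  V ⊆ W ∧ IsOpen V ∧ Zr V (Θ - dd (c0 u)) ∧ ∀ c, CyO 3 V c → P (-cup (c0 u) c, c) = 0

lemma dd_c0_zero {k X : Type} [Field k] : dd (c0 fun _ : X => (0 : k)) = 0 := by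
  have h1 : (c0 fun _ : X => (0 : k)) = 0 := by
    funext l
    rcases l with _ | ⟨x, _ | ⟨y, l⟩⟩ <;> simp
  rw [h1, dd_zero]

lemma agree (hCON : S_CON) (hKE : S_KE) {k X : Type} [Field k] [MetricSpace X]
    (hLPC : LocallyPathConnectedSpace X) (hSj : Sj k X) {B W : Set X} {Θ : Cc k X}
    {s : Cc k X →ₗ[k] k} {P : (Cc k X × Cc k X) →ₗ[k] k} (hΘ : Dg X 1 Θ) (hP : TwP W Θ s P)
    (hBo : IsOpen B) (hBc : IsConnected B) (hWB : W ⊆ B)
    (hs : Kil 3 B s) (hne : ∃ c, CyO 3 B c ∧ s c ≠ 0) {V V' : Set X} {u u' : X → k}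
    (h : GP W Θ P V u) (h' : GP W Θ P V' u') {z : X} (hz : z ∈ V) (hz' : z ∈ V') :
    u z = u' z := by
  obtain ⟨hVW, hVo, hu, hc⟩ := h
  obtain ⟨hV'W, hV'o, hu', hc'⟩ := h'
  have hVV : IsOpen (V ∩ V') := hVo.inter hV'o
  have hzVV : z ∈ V ∩ V' := ⟨hz, hz'⟩
  obtain ⟨U, hU⟩ : ∃ U, U = connectedComponentIn (V ∩ V') z := ⟨_, rfl⟩
  have hUo : IsOpen U := by
    rw [hU]
    exact hVV.connectedComponentIn
  have hzU : z ∈ U := by
    rw [hU]
    exact mem_connectedComponentIn hzVV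
  have hUs : U ⊆ V ∩ V' := by
    rw [hU]
    exact connectedComponentIn_subset _ _
  have hUc : IsConnected U := by
    rw [hU]
    exact isConnected_connectedComponentIn_iff.2 hzVV
  have hUV : U ⊆ V := fun w hw => (hUs hw).1
  have hUV' : U ⊆ V' := fun w hw => (hUs hw).2
  have hcyc : Cyc 0 U ∅ (c0 u - c0 u') := by
    have hdeg : Dg X 0 (c0 u - c0 u') := (Dg.c0 u).sub (Dg.c0 u')
    refine ⟨hdeg, Zr.empty hdeg, ?_⟩
    have h1 := (hu'.anti hUV').sub (hu.anti hUV)
    have h2 : Θ - dd (c0 u') - (Θ - dd (c0 u)) = dd (c0 u - c0 u') := by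
      rw [dd_sub]
      abel
    rwa [h2] at h1
  obtain ⟨m, hm⟩ := hCON k X U hUc.isPreconnected _ hcyc
  have hE := (hKE k X W Θ s P hΘ hP U (hUV.trans hVW) hUo u (hu.anti hUV)).2 u' m hm
  have hms : ∀ c, CyO 3 U c → m * s c = 0 := by
    intro c hcU
    have h1 := hE c hcU
    rw [hc c (hcU.mono hUV), hc' c (hcU.mono hUV'), zero_sub] at h1
    exact neg_eq_zero.1 h1.symm
  have hm0 : m = 0 := by
    by_contra hm0
    obtain ⟨c, hcB, hsc⟩ := hne
    have hUB : U ⊆ B := (hUV.trans hVW).trans hWB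
    obtain ⟨c', hc'U, hcc⟩ := hSj B U hBo hBc hUo hUB ⟨z, hzU⟩ c hcB
    have h1 : s c' = 0 := (mul_eq_zero.1 (hms c' hc'U)).resolve_left hm0
    have h2 : s (c - c') = 0 := hs _ (Cyc.sub hcB (hc'U.mono hUB)) hcc
    rw [map_sub, h1, sub_zero] at h2
    exact hsc h2
  obtain ⟨ε, hε, hz0⟩ := hm
  have h3 := hz0 [z] ⟨fun x hx => by
      rw [List.mem_singleton] at hx
      rw [hx]
      exact Metric.self_subset_thickening hε U hzU, fun x hx y hy => by
      rw [List.mem_singleton] at hx hy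
      rw [hx, hy, dist_self]
      exact hε⟩
  simp only [Pi.sub_apply, c0_single, hm0, sub_zero] at h3
  exact sub_eq_zero.1 h3

/-- `Θ - dd (c0 U)` vanishes near a small ball if `U = u` near the centre -/
lemma loc {k X : Type} [Field k] [MetricSpace X] {Θ : Cc k X} {V : Set X} {u U : X → k}
    (hVo : IsOpen V) (hu : Zr V (Θ - dd (c0 u))) (h : ∀ z ∈ V, U z = u z) {y : X} (hy : y ∈ V) :
    ∃ V' : Set X, IsOpen V' ∧ y ∈ V' ∧ Zr V' (Θ - dd (c0 U)) := by
  obtain ⟨r, hr, hrV⟩ := Metric.isOpen_iff.1 hVo y hy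
  refine ⟨Metric.ball y (r / 2), Metric.isOpen_ball, Metric.mem_ball_self (by positivity), ?_⟩
  have hsub : Metric.ball y (r / 2) ⊆ V := fun z hz =>
    hrV (Metric.ball_subset_ball (by linarith) hz)
  have h1 : Zr (Metric.ball y (r / 2)) (dd (c0 u - c0 U)) := by
    refine Zr.dd ⟨r / 2, by positivity, fun l hl => ?_⟩
    rcases l with _ | ⟨x, _ | ⟨w, l⟩⟩
    · simp
    · have hx := hl.1 x (by simp)
      obtain ⟨w, hw, hxw⟩ := Metric.mem_thickening_iff.1 hx
      have hxV : x ∈ V := by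
        refine hrV ?_
        rw [Metric.mem_ball] at hw ⊢
        have := dist_triangle x w y
        linarith
      simp only [Pi.sub_apply, c0_single, h x hxV, sub_self]
    · simp
  have h2 := (hu.anti hsub).add h1
  have h3 : Θ - dd (c0 u) + dd (c0 u - c0 U) = Θ - dd (c0 U) := by
    rw [dd_sub]
    abel
  rwa [h3] at h2

end KG

open KG in
theorem t_KG : M_KG := by
  intro hCON hKE k X _ _ hLPC hSj B B' D O N K W θ Θ s P hK hPri hP hs hne h0 hG
  classical
  have hg : ∀ y : X, ∃ u : X → k, y ∈ W → ∃ V : Set X, y ∈ V ∧ GP W Θ P V u := by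
    intro y
    by_cases hy : y ∈ W
    · obtain ⟨V, hVW, hVo, -, hyV, u, hu, hc⟩ := hG y hy
      exact ⟨u, fun _ => ⟨V, hyV, hVW, hVo, hu, hc⟩⟩
    · exact ⟨fun _ => 0, fun h => absurd h hy⟩
  choose u hu using hg
  have hWB : W ⊆ B := fun w hw => (hK.subW hw).1
  obtain ⟨U, hU⟩ : ∃ U : X → k, U = fun y => if y ∈ W then u y y else 0 := ⟨_, rfl⟩
  have hUe : ∀ (V : Set X) (v : X → k), GP W Θ P V v → ∀ z ∈ V, U z = v z := by
    intro V v hV z hz
    have hzW : z ∈ W := hV.1 hz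
    obtain ⟨V', hzV', hV'⟩ := hu z hzW
    have h1 : U z = u z z := by
      rw [hU]
      exact if_pos hzW
    rw [h1]
    exact agree hCON hKE hLPC hSj hPri.deg hP hK.opB hK.conB hWB hs hne hV' hV hzV' hz
  refine ⟨U, ?_, ?_, ?_⟩
  · intro y hy
    obtain ⟨V, hyV, hV⟩ := hu y hy
    exact loc hV.2.1 hV.2.2.1 (hUe V (u y) hV) hyV
  · intro y hy
    refine hUe (B \ D) (fun _ => 0) ⟨hK.outW, hK.opB.sdiff hK.cD.isClosed, ?_, ?_⟩ y hy
    · rw [dd_c0_zero, sub_zero]
      exact hPri.zer.anti fun z hz hzO => hz.2 (hK.subO hzO)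
    · intro c hc
      have h1 : (c0 fun _ : X => (0 : k)) = 0 := by
        funext l
        rcases l with _ | ⟨x, _ | ⟨y, l⟩⟩ <;> simp
      rw [h1, cup_zero_left, neg_zero]
      exact h0 c hc
  · intro y hy
    rw [hU]
    exact if_neg hy

end BBH


end

section

/-!
# BBH: linear algebra (S_LNL)
-/

set_option autoImplicit false

namespace BBH

open Set Topology

theorem t_LNL : S_LNL := by
  intro k Z A V D _ _ _ _ _ _ _ _ _ _ _ π f g hπ hg hgf hAV hD
  set W : Submodule k V := (LinearMap.ker f).map π with hW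
  let ψ : Z →ₗ[k] V ⧸ W := W.mkQ ∘ₗ π
  have hψ : LinearMap.ker f ≤ LinearMap.ker ψ := by
    intro z hz
    rw [LinearMap.mem_ker]
    change W.mkQ (π z) = 0
    rw [Submodule.mkQ_apply, Submodule.Quotient.mk_eq_zero]
    exact Submodule.mem_map_of_mem hz
  have hψs : Function.Surjective ψ := (W.mkQ_surjective).comp hπ
  let χ : (Z ⧸ LinearMap.ker f) →ₗ[k] V ⧸ W := (LinearMap.ker f).liftQ ψ hψ
  have hχ : Function.Surjective χ := by
    intro y
    obtain ⟨z, hz⟩ := hψs y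
    exact ⟨Submodule.Quotient.mk z, hz⟩
  have h1 : Module.finrank k (V ⧸ W) ≤ Module.finrank k (LinearMap.range f) := by
    have h2 : Function.Surjective (χ ∘ₗ (f.quotKerEquivRange.symm : LinearMap.range f →ₗ[k] _)) :=
      hχ.comp f.quotKerEquivRange.symm.surjective
    exact LinearMap.finrank_le_finrank_of_surjective h2
  have h3 : Module.finrank k (LinearMap.range f) ≤ Module.finrank k (LinearMap.ker g) := by
    apply Submodule.finrank_mono
    rintro _ ⟨z, rfl⟩
    exact hgf z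
  have h4 : Module.finrank k D + Module.finrank k (LinearMap.ker g) = Module.finrank k A := by
    have h5 := LinearMap.finrank_range_add_finrank_ker g
    rwa [LinearMap.range_eq_top.2 hg, finrank_top] at h5
  have h6 : Module.finrank k (V ⧸ W) + Module.finrank k W = Module.finrank k V :=
    Submodule.finrank_quotient_add_finrank W
  have h7 : 2 ≤ Module.finrank k W := by omega
  let b := Module.finBasis k W
  have hi : LinearIndependent k ![b ⟨0, by omega⟩, b ⟨1, by omega⟩] := by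
    have h8 := b.linearIndependent.comp ![⟨0, by omega⟩, ⟨1, by omega⟩] (by
      intro i j hij
      fin_cases i <;> fin_cases j <;> simp_all)
    have h9 : b ∘ ![⟨0, by omega⟩, ⟨1, by omega⟩] = ![b ⟨0, by omega⟩, b ⟨1, by omega⟩] := by
      funext i
      fin_cases i <;> rfl
    rwa [h9] at h8
  obtain ⟨z₁, hz₁, e₁⟩ := (b ⟨0, by omega⟩).2
  obtain ⟨z₂, hz₂, e₂⟩ := (b ⟨1, by omega⟩).2
  refine ⟨z₁, z₂, hz₁, hz₂, fun s t hst => ?_⟩
  rw [e₁, e₂] at hst
  exact LinearIndependent.pair_iff.1 hi s t (Subtype.ext hst)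

end BBH


end

section

/-!
# BBH, module LED: the contradiction, the local groups in degree three have dimension at most one
-/

set_option autoImplicit false

namespace BBH

open Set Topology CTO

namespace LED

variable {k X : Type} [Field k] [MetricSpace X]

/-- a linear combination of two relations, on larger open sets -/
theorem MVr.comb {p : ℤ} {U V U' V' : Set X} {c c' d d' : Cc k X} (hU : U ⊆ U') (hV : V ⊆ V')
    (h : MVr p U V c d) (h' : MVr p U V c' d') (a b : k) :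
    MVr p U' V' (a • c + b • c') (a • d + b • d') := by
  obtain ⟨c₁, c₂, h1, h2, h3, h4, h5, h6⟩ := h
  obtain ⟨e₁, e₂, g1, g2, g3, g4, g5, g6⟩ := h'
  refine ⟨a • c₁ + b • e₁, a • c₂ + b • e₂, (h1.smul a).add (g1.smul b),
    (h2.smul a).add (g2.smul b),
    ((h3.smul a).add (g3.smul b)).anti (compl_subset_compl.2 hU),
    ((h4.smul a).add (g4.smul b)).anti (compl_subset_compl.2 hV), ?_, ?_⟩
  · have h7 := (h5.smul a).add (g5.smul b)
    have h8 : a • (c - c₁ - c₂) + b • (c' - e₁ - e₂) =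
        a • c + b • c' - (a • c₁ + b • e₁) - (a • c₂ + b • e₂) := by
      simp only [smul_sub]
      abel
    rwa [h8] at h7
  · have h7 := (h6.smul a).add (g6.smul b)
    have h8 : a • (d - dd c₁) + b • (d' - dd e₁) =
        a • d + b • d' - dd (a • c₁ + b • e₁) := by
      rw [dd_add, dd_smul, dd_smul, smul_sub, smul_sub]
      abel
    rwa [h8] at h7

/-- a nontrivial solution of one linear equation in two unknowns -/
theorem exists_pair (u v : k) : ∃ a b : k, a * u + b * v = 0 ∧ ¬ (a = 0 ∧ b = 0) := by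
  by_cases hu : u = 0
  · exact ⟨1, 0, by rw [hu]; ring, fun h => one_ne_zero h.1⟩
  · exact ⟨-v, u, by ring, fun h => hu h.2⟩

/-- a functional that is not zero -/
theorem exists_fn {p : ℤ} {B : Set X} (h : 2 ≤ Module.finrank k (HO k k p B)) :
    ∃ s : Cc k X →ₗ[k] k, Kil p B s ∧ ∃ c, CyO p B c ∧ s c ≠ 0 := by
  have hn : Nontrivial (HO k k p B) :=
    Module.nontrivial_of_finrank_pos (R := k) (lt_of_lt_of_le (by norm_num) h)
  obtain ⟨z, hz⟩ := exists_ne (0 : HO k k p B)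
  obtain ⟨φ, hφ⟩ : ∃ φ : HO k k p B →ₗ[k] k, φ z ≠ 0 := by
    by_contra hcon
    push Not at hcon
    exact hz ((Module.forall_dual_apply_eq_zero_iff k z).1 hcon)
  obtain ⟨c, hc, rfl⟩ := cls_surj z
  obtain ⟨s, hs, hs'⟩ := exists_total φ
  exact ⟨s, hs, c, hc, by rw [hs' c hc]; exact hφ⟩

theorem core (hCNT : S_CNT) (hMVO : S_MVO) (hKEY : S_KEY) [CompactSpace X]
    (lpc : LocallyPathConnectedSpace X) (anr : IsANR X) (sj : Sj k X)
    (B B' D O₁ K W Na Ng Pa Pg Vx Vy : Set X) (g0 : Cc k X)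
    (F : Fic k B B' D O₁ K W Na Ng Pa Pg Vx Vy g0) (NB : Na ∪ Ng ⊆ B) :
    Module.finrank k (HO k k 3 B) ≤ 1 := by
  by_contra hcon
  have h2 : 2 ≤ Module.finrank k (HO k k 3 B) := by omega
  obtain ⟨d₁, d₂, hd₁, hd₂, ha₁, ha₂, hg₁, hg₂, hind⟩ := hCNT k X anr sj B Na Ng Vx Vy
    F.ky.opB F.ky.conB F.opNa F.conNa F.opNg F.conNg F.opVx F.conVx F.opVy
    (subset_union_left.trans NB) (subset_union_right.trans NB)
    ((inter_subset_inter F.NaPa F.NgPg).trans F.int) F.dis F.neX F.neY F.rk h2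
  obtain ⟨-, -, h3, -, -⟩ := hMVO k X 2 Na Ng F.opNa F.opNg
  obtain ⟨θ₁, hθ₁, hr₁⟩ := h3 d₁ hd₁ ha₁ hg₁
  obtain ⟨θ₂, hθ₂, hr₂⟩ := h3 d₂ hd₂ ha₂ hg₂
  obtain ⟨s, hs, hsc⟩ := exists_fn h2
  obtain ⟨a, b, hab, hne⟩ := exists_pair (s (cup θ₁ g0)) (s (cup θ₂ g0))
  have hθ : CyO 2 (Na ∪ Ng) (a • θ₁ + b • θ₂) := (Cyc.smul a hθ₁).add (Cyc.smul b hθ₂)
  have hd : CyO 3 (Na ∩ Ng) (a • d₁ + b • d₂) := (Cyc.smul a hd₁).add (Cyc.smul b hd₂)
  have h0 : s (cup (a • θ₁ + b • θ₂) g0) = 0 := by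
    rw [cup_add_left, cup_smul_left, cup_smul_left, map_add, map_smul, map_smul, smul_eq_mul,
      smul_eq_mul, hab]
  have hbd : BdO 2 (Pa ∪ Pg) (a • θ₁ + b • θ₂) := by
    refine hKEY k X lpc sj B B' D O₁ (Na ∪ Ng) K W (Pa ∪ Pg) _ s F.ky hθ (F.bd _ hθ) hs hsc
      ?_ (F.opPa.union F.opPg) F.out
    intro g hg
    obtain ⟨t, ht⟩ := F.one g hg
    rw [ht _ s hθ hs, h0, mul_zero]
  obtain ⟨-, h4, -, -, -⟩ := hMVO k X 2 Pa Pg F.opPa F.opPg
  have h5 : BdO (2 + 1) (Pa ∩ Pg) (a • d₁ + b • d₂) :=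
    h4 _ _ (hθ.mono (union_subset_union F.NaPa F.NgPg))
      (CyO.mono hd (inter_subset_inter F.NaPa F.NgPg)) (MVr.comb F.NaPa F.NgPg hr₁ hr₂ a b) hbd
  exact hne (hind a b (BdO.mono h5 F.int))

end LED

theorem t_LED : M_LED := by
  intro hCNT hMVO hKEY k X _ _ _ lpc anr sj B B' D O₁ K W Na Ng Pa Pg Vx Vy g0 F
  exact LED.core hCNT hMVO hKEY lpc anr sj B B' D O₁ K W Na Ng Pa Pg Vx Vy g0 F F.NB

end BBH


end

section

/-!
# BBH, CMZ: homogeneous compact ANRs of dimension three are cohomology manifolds over the integers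
-/

set_option autoImplicit false

namespace BBH

open Set Topology CTO

namespace CMZ

/-- a surjective linear map between modules isomorphic to the ring is bijective -/
theorem bij_of_surj {R A B : Type} [CommRing R] [AddCommGroup A] [Module R A] [AddCommGroup B]
    [Module R B] (eA : A ≃ₗ[R] R) (eB : B ≃ₗ[R] R) (f : A →ₗ[R] B)
    (hf : Function.Surjective f) : Function.Bijective f := by
  refine ⟨?_, hf⟩
  have hfin : Module.Finite R A := Module.Finite.equiv eA.symm
  have h1 : Function.Surjective (((eB.trans eA.symm).toLinearMap) ∘ₗ f) := by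
    rw [LinearMap.coe_comp]
    exact (eB.trans eA.symm).surjective.comp hf
  have h2 := OrzechProperty.injective_of_surjective_endomorphism _ h1
  rw [LinearMap.coe_comp] at h2
  exact Function.Injective.of_comp h2

end CMZ

theorem t_CMZ : M_CMZ := by
  intro hLPX hLT0 hLT1 hLT2 hLTZ hGNX hDIM hONE hSRJ hSJZ hHZ3 X _ _ hA hH h3 h2
  have hGN : GNs X := hGNX X hA hH h3 h2
  have hLP : LocallyPathConnectedSpace X := (hLPX X hA).1
  have hcount : ∀ p : ℕ, p.Prime → Countable (ZMod p) := by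
    intro p hp
    haveI : NeZero p := ⟨hp.ne_zero⟩
    infer_instance
  have hSj : SjM ℤ X := by
    refine hSJZ X hLP hA h3 (fun p hp => ?_)
    haveI := hcount p hp.out
    exact hSRJ (ZMod p) X hA hH h3
  have hLTZ2 : ∀ x : X, LT ℤ 2 x := by
    refine hLTZ X hA 2 (hLT2 ℚ X hA hH hGN) (fun p hp => ?_)
    haveI := Fact.mk hp
    haveI := hcount p hp
    exact hLT2 (ZMod p) X hA hH hGN
  refine ⟨hSj, ?_⟩
  intro x N hN hx
  refine ⟨?_, ?_⟩
  · obtain ⟨V0, h0N, h0o, h0x, h0⟩ := hLT0 ℤ X hGN x N hN hx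
    obtain ⟨V1, h1N, h1o, h1x, h1⟩ := hLT1 ℤ X hA hGN x N hN hx
    obtain ⟨V2, h2N, h2o, h2x, h2'⟩ := hLTZ2 x N hN hx
    refine ⟨V0 ∩ V1 ∩ V2, fun y hy => h2N hy.2, (h0o.inter h1o).inter h2o,
      ⟨⟨h0x, h1x⟩, h2x⟩, ?_⟩
    intro p hp c hc
    rcases lt_or_ge p 0 with hneg | hnn
    · exact Van.neg hneg _ _ c (hc.mono (fun y hy => h2N hy.2))
    · rcases lt_or_ge 3 p with hbig | hle
      · exact hDIM ℤ X 3 h3 p univ Nᶜ (by exact_mod_cast hbig) (subset_univ _) c
          (hc.mono (fun y hy => h2N hy.2))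
      · have hcase : p = 0 ∨ p = 1 ∨ p = 2 := by omega
        rcases hcase with rfl | rfl | rfl
        · exact h0 c (hc.mono (fun y hy => hy.1.1))
        · exact h1 c (hc.mono (fun y hy => hy.1.2))
        · exact h2' c (hc.mono (fun y hy => hy.2))
  · obtain ⟨B, hBN, hxB, hGB, -⟩ := (hONE ℚ X hA hH h3 h2).2 x N hN hx
    refine ⟨B, hBN, hGB.1, hxB, ?_⟩
    have hiso : ∀ V ⊆ B, IsOpen V → IsConnected V → Nonempty (HO ℤ ℤ 3 V ≃ₗ[ℤ] ℤ) := by
      intro V hVB hV hVc
      refine hHZ3 X hA hSj (fun p hp V hV hVc => ?_) V hV hVc (hGB.2.2 V hVB hV hVc.nonempty)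
      haveI := hcount p hp.out
      exact (hONE (ZMod p) X hA hH h3 h2).1 V hV hVc
    intro V hVB hV hVc
    refine ⟨hiso V hVB hV hVc, fun W h hW hWc => ?_⟩
    obtain ⟨e⟩ := hiso V hVB hV hVc
    obtain ⟨f⟩ := hiso W (h.trans hVB) hW hWc
    refine CMZ.bij_of_surj f e _ ?_
    intro a
    obtain ⟨c, hc, rfl⟩ := cls_surj a
    obtain ⟨c', hc', hb⟩ := hSj V W hV hVc hW h hWc.nonempty c hc
    refine ⟨cls ℤ c' hc', ?_⟩
    rw [ext_cls]
    exact ((cls_eq _ _).2 hb).symm

end BBH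


end

section

/-!
# BBH, module COR: the fundamental class mod 2 and its consequences
-/

set_option autoImplicit false

namespace BBH

open Set Topology CTO

namespace COR

variable {X : Type} [MetricSpace X]

theorem not_van {s : Cc (ZMod 2) X →ₗ[ZMod 2] ZMod 2} (hs : Orr (univ : Set X) s) {V : Set X}
    (hV : IsOpen V) (hne : V.Nonempty) : ¬ VanO (ZMod 2) 3 V := by
  intro hv
  obtain ⟨c, hc, hsc⟩ := hs.2 V (subset_univ _) hV hne
  exact hsc ((hs.1.mono (subset_univ V)) c hc (hv c hc))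

theorem line {V : Set X} (hnv : ¬ VanO (ZMod 2) 3 V)
    (h : ∃ g : Cc (ZMod 2) X, CyO 3 V g ∧
      ∀ c : Cc (ZMod 2) X, CyO 3 V c → ∃ t : ZMod 2, BdO 3 V (c - t • g)) :
    Nonempty (HO (ZMod 2) (ZMod 2) 3 V ≃ₗ[ZMod 2] ZMod 2) := by
  obtain ⟨g, hg, hgen⟩ := h
  have hx : cls (ZMod 2) g hg ≠ 0 := by
    intro h0
    refine hnv fun c hc => ?_
    obtain ⟨t, ht⟩ := hgen c hc
    exact Bd.of_sub ht (Bd.smul t ((cls_eq_zero hg).1 h0))
  have hinj : Function.Injective
      (LinearMap.toSpanSingleton (ZMod 2) (HO (ZMod 2) (ZMod 2) 3 V) (cls (ZMod 2) g hg)) := by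
    intro a b hab
    rw [LinearMap.toSpanSingleton_apply, LinearMap.toSpanSingleton_apply, ← sub_eq_zero,
      ← sub_smul, smul_eq_zero] at hab
    exact sub_eq_zero.1 (hab.resolve_right hx)
  have hsur : Function.Surjective
      (LinearMap.toSpanSingleton (ZMod 2) (HO (ZMod 2) (ZMod 2) 3 V) (cls (ZMod 2) g hg)) := by
    intro y
    obtain ⟨c, hc, rfl⟩ := cls_surj y
    obtain ⟨t, ht⟩ := hgen c hc
    refine ⟨t, ?_⟩
    rw [LinearMap.toSpanSingleton_apply]
    have h1 : cls (ZMod 2) c hc = cls (ZMod 2) (t • g) (Cyc.smul t hg) :=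
      (cls_eq hc (Cyc.smul t hg)).2 ht
    exact h1.symm
  exact ⟨(LinearEquiv.ofBijective _ ⟨hinj, hsur⟩).symm⟩

end COR

theorem t_COR : M_COR := by
  intro hLPX hORI hSRJ hONE hNSB hNCT hCLA hCMZ X _ _ _ anr hom shr nshr
  have lpc := (hLPX X anr).1
  have sj := hSRJ (ZMod 2) X anr hom shr
  have one := hONE (ZMod 2) X anr hom shr nshr
  obtain ⟨s, hs⟩ := hORI X lpc shr sj one.1 (fun x => by
    obtain ⟨B, _, hx, hB, _⟩ := one.2 x univ isOpen_univ (mem_univ x)
    exact ⟨B, hx, hB⟩)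
  have hnv : ∀ V : Set X, IsOpen V → V.Nonempty → ¬ VanO (ZMod 2) 3 V :=
    fun V hV hne => COR.not_van hs hV hne
  have h1 := hnv univ isOpen_univ univ_nonempty
  refine ⟨h1, hNCT (ZMod 2) X h1, fun hconn => ?_⟩
  have hcu : IsConnected (univ : Set X) := isConnected_univ
  refine ⟨fun A hA hv => ?_, fun A hA hne => ⟨?_, fun k _ _ => ?_⟩, ?_⟩
  · have h2 := hNSB (ZMod 2) X sj univ A ⟨isOpen_univ, hcu, fun V _ hV hVn => hnv V hV hVn⟩
      hA.isCompact (subset_univ _) hv
    rwa [← compl_eq_univ_sdiff] at h2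
  · exact hCLA ℤ X shr hcu (hCMZ X anr hom shr nshr).1 A hA hne
  · exact hCLA k X shr hcu (hSRJ k X anr hom shr) A hA hne
  · exact COR.line h1 (one.1 univ isOpen_univ hcu)

end BBH


end
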