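import Mathlib
import Pool.Agent.BBM.C16

/-! Parts: BBH.B_FGU, BBH.B_FGR, BBH.B_CMB, BBH.E_MOD, BBH.F_KEY, BBH.G_LAM, BBH.G_CFG, BBH.G_ONE, BBH.H_LFT, BBH.H_ORG, BBH.H_CMK -/

section

/-!
# BBH, module FGU: finite generation of the cohomology of a union (Mayer-Vietoris)
-/

set_option autoImplicit false

namespace BBH

open Set Topology CTO

namespace FGU

variable {R M X : Type} [CommRing R] [AddCommGroup M] [Module R M] [MetricSpace X]
  {p : ℤ} {A B : Set X}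

/-- the property of the triples -/
structure Tri (p : ℤ) (A B : Set X) (t : Cc M X × Cc M X × Cc M X) : Prop where
  cyc : Cyc p (A ∪ B) ∅ t.1
  d1 : Dg X (p - 1) t.2.1
  d2 : Dg X (p - 1) t.2.2
  z1 : Zr A (t.1 - dd t.2.1)
  z2 : Zr B (t.1 - dd t.2.2)

/-- the module of the triples -/
def T (R M : Type) {X : Type} [CommRing R] [AddCommGroup M] [Module R M] [MetricSpace X]
    (p : ℤ) (A B : Set X) : Submodule R (Cc M X × Cc M X × Cc M X) where
  carrier := {t | Tri p A B t}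
  zero_mem' := by
    refine ⟨Cyc.zero, Dg.zero, Dg.zero, ?_, ?_⟩
    · rw [show ((0 : Cc M X × Cc M X × Cc M X).1 - dd (0 : Cc M X × Cc M X × Cc M X).2.1) =
        (0 : Cc M X) - dd 0 from rfl, dd_zero, sub_zero]
      exact Zr.zero _
    · rw [show ((0 : Cc M X × Cc M X × Cc M X).1 - dd (0 : Cc M X × Cc M X × Cc M X).2.2) =
        (0 : Cc M X) - dd 0 from rfl, dd_zero, sub_zero]
      exact Zr.zero _
  add_mem' := by
    intro s t hs ht
    refine ⟨hs.cyc.add ht.cyc, hs.d1.add ht.d1, hs.d2.add ht.d2, ?_, ?_⟩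
    · rw [show ((s + t).1 - dd (s + t).2.1) = s.1 + t.1 - dd (s.2.1 + t.2.1) from rfl, dd_add,
        add_sub_add_comm]
      exact hs.z1.add ht.z1
    · rw [show ((s + t).1 - dd (s + t).2.2) = s.1 + t.1 - dd (s.2.2 + t.2.2) from rfl, dd_add,
        add_sub_add_comm]
      exact hs.z2.add ht.z2
  smul_mem' := by
    intro a t ht
    refine ⟨ht.cyc.smul a, ht.d1.smul a, ht.d2.smul a, ?_, ?_⟩
    · rw [show ((a • t).1 - dd (a • t).2.1) = a • t.1 - dd (a • t.2.1) from rfl, dd_smul,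
        ← smul_sub]
      exact ht.z1.smul a
    · rw [show ((a • t).1 - dd (a • t).2.2) = a • t.1 - dd (a • t.2.2) from rfl, dd_smul,
        ← smul_sub]
      exact ht.z2.smul a

theorem cyc_sub {t : Cc M X × Cc M X × Cc M X} (h : Tri p A B t) :
    Cyc (p - 1) (A ∩ B) ∅ (t.2.1 - t.2.2) := by
  refine ⟨h.d1.sub h.d2, Zr.empty (h.d1.sub h.d2), ?_⟩
  have h1 := (h.z2.anti inter_subset_right).sub (h.z1.anti (inter_subset_left (t := B)))
  rwa [sub_sub_sub_cancel_left, ← dd_sub] at h1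

/-- the class of the cocycle -/
def phi (R M : Type) {X : Type} [CommRing R] [AddCommGroup M] [Module R M] [MetricSpace X]
    (p : ℤ) (A B : Set X) : T R M p A B →ₗ[R] H R M p (A ∪ B) (∅ : Set X) where
  toFun t := cls R t.1.1 t.2.cyc
  map_add' _ _ := rfl
  map_smul' _ _ := rfl

/-- the class of the difference -/
def psi (R M : Type) {X : Type} [CommRing R] [AddCommGroup M] [Module R M] [MetricSpace X]
    (p : ℤ) (A B : Set X) : T R M p A B →ₗ[R] H R M (p - 1) (A ∩ B) (∅ : Set X) where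
  toFun t := cls R (t.1.2.1 - t.1.2.2) (cyc_sub t.2)
  map_add' s t := by
    rw [← cls_add]
    congr 1
    exact add_sub_add_comm _ _ _ _
  map_smul' a t := by
    rw [RingHom.id_apply, ← cls_smul]
    congr 1
    exact (smul_sub a _ _).symm

theorem ker_le (hA : IsCompact A) (hB : IsClosed B) :
    LinearMap.ker (psi R M p A B) ≤ LinearMap.ker (phi R M p A B) := by
  rintro ⟨⟨c, b₁, b₂⟩, h⟩ ht
  rw [LinearMap.mem_ker] at ht ⊢
  have h1 : Bd (p - 1) (A ∩ B) ∅ (b₁ - b₂) := (cls_eq_zero (R := R) (cyc_sub h)).1 ht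
  refine (cls_eq_zero (R := R) h.cyc).2 ?_
  obtain ⟨f, hf1, -, hf3⟩ := h1
  obtain ⟨K, hK1, hK2⟩ := Zr.inter hA hB hf3
  set w : Cc M X := b₁ - b₂ - dd f with hw
  have hwd : Dg X (p - 1) w := (h.d1.sub h.d2).sub hf1.dd'
  have hsum : ind K w + ind Kᶜ w = w := ind_add_compl K w
  refine ⟨b₁ - ind K w, h.d1.sub hwd.ind, Zr.empty (h.d1.sub hwd.ind), ?_⟩
  have e1 : c - dd (b₁ - ind K w) = (c - dd b₁) + dd (ind K w) := by
    rw [dd_sub]
    abel
  have e2 : c - dd (b₁ - ind K w) = (c - dd b₂) - dd (ind Kᶜ w) := by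
    have h3 : b₁ - ind K w = b₂ + dd f + ind Kᶜ w := by
      have h4 : ind K w = w - ind Kᶜ w := eq_sub_of_add_eq hsum
      rw [h4, hw]
      abel
    rw [h3, dd_add, dd_add, dd_dd]
    abel
  refine Zr.union ?_ ?_
  · show Zr A (c - dd (b₁ - ind K w))
    rw [e1]
    exact h.z1.add hK1.dd
  · show Zr B (c - dd (b₁ - ind K w))
    rw [e2]
    exact h.z2.sub hK2.dd

/-- the restrictions -/
def F (R M : Type) {X : Type} [CommRing R] [AddCommGroup M] [Module R M] [MetricSpace X]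
    (p : ℤ) (A B : Set X) :
    H R M p (A ∪ B) (∅ : Set X) →ₗ[R] H R M p A (∅ : Set X) × H R M p B (∅ : Set X) :=
  LinearMap.prod (res R M subset_union_left Subset.rfl) (res R M subset_union_right Subset.rfl)

theorem range_eq_ker (hA : IsCompact A) (hB : IsClosed B) :
    LinearMap.range ((LinearMap.ker (psi R M p A B)).liftQ (phi R M p A B) (ker_le hA hB)) =
      LinearMap.ker (F R M p A B) := by
  rw [Submodule.range_liftQ]
  apply le_antisymm
  · rintro _ ⟨⟨⟨c, b₁, b₂⟩, h⟩, rfl⟩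
    rw [LinearMap.mem_ker]
    refine Prod.ext ?_ ?_
    · exact (cls_eq_zero (R := R) (h.cyc.mono subset_union_left Subset.rfl)).2
        ⟨b₁, h.d1, Zr.empty h.d1, h.z1⟩
    · exact (cls_eq_zero (R := R) (h.cyc.mono subset_union_right Subset.rfl)).2
        ⟨b₂, h.d2, Zr.empty h.d2, h.z2⟩
  · intro a ha
    obtain ⟨c, h, rfl⟩ := cls_surj a
    rw [LinearMap.mem_ker] at ha
    have h1 : Bd p A ∅ c :=
      (cls_eq_zero (R := R) (h.mono subset_union_left Subset.rfl)).1 (congrArg Prod.fst ha)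
    have h2 : Bd p B ∅ c :=
      (cls_eq_zero (R := R) (h.mono subset_union_right Subset.rfl)).1 (congrArg Prod.snd ha)
    obtain ⟨b₁, d1, -, z1⟩ := h1
    obtain ⟨b₂, d2, -, z2⟩ := h2
    exact ⟨⟨(c, b₁, b₂), ⟨h, d1, d2, z1, z2⟩⟩, rfl⟩

end FGU

theorem t_FGU : S_FGU := by
  intro R M X _ _ _ _ _ p A B hA hB h1 h2 h3
  have : IsNoetherian R (H R M p A (∅ : Set X)) := isNoetherian_of_isNoetherianRing_of_finite R _
  have : IsNoetherian R (H R M p B (∅ : Set X)) := isNoetherian_of_isNoetherianRing_of_finite R _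
  have : IsNoetherian R (H R M (p - 1) (A ∩ B) (∅ : Set X)) :=
    isNoetherian_of_isNoetherianRing_of_finite R _
  have : IsNoetherian R (FGU.T R M p A B ⧸ LinearMap.ker (FGU.psi R M p A B)) :=
    isNoetherian_of_linearEquiv (LinearMap.quotKerEquivRange (FGU.psi R M p A B)).symm
  have : IsNoetherian R (H R M p (A ∪ B) (∅ : Set X)) :=
    isNoetherian_of_range_eq_ker _ _ (FGU.range_eq_ker hA hB)
  infer_instance

end BBH


end

section

/-!
# BBH, module FGR: finite generation of the cohomology of a pair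
-/

set_option autoImplicit false

namespace BBH

open Set Topology CTO

namespace FGR

variable {R M X : Type} [CommRing R] [AddCommGroup M] [Module R M] [MetricSpace X]
  {p : ℤ} {A B : Set X}

theorem cyc_dd {c : Cc M X} (h : Cyc (p - 1) B ∅ c) : Cyc p A B (dd c) :=
  ⟨h.deg.dd', h.cyc, by rw [dd_dd]; exact Zr.zero _⟩

/-- the coboundary, on cocycles -/
def ddL (R M : Type) {X : Type} [CommRing R] [AddCommGroup M] [Module R M] [MetricSpace X]
    (p : ℤ) (A B : Set X) : ZZ R M (p - 1) B (∅ : Set X) →ₗ[R] ZZ R M p A B where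
  toFun c := ⟨dd (c : Cc M X), cyc_dd c.2⟩
  map_add' c e := Subtype.ext (dd_add (c : Cc M X) (e : Cc M X))
  map_smul' a c := Subtype.ext (dd_smul a (c : Cc M X))

/-- the connecting map -/
def del (R M : Type) {X : Type} [CommRing R] [AddCommGroup M] [Module R M] [MetricSpace X]
    (p : ℤ) (A B : Set X) : H R M (p - 1) B (∅ : Set X) →ₗ[R] H R M p A B :=
  Submodule.mapQ _ _ (ddL R M p A B) (fun c hc => by
    have h1 : Bd (p - 1) B ∅ (c : Cc M X) := hc
    have h2 := les_conn_bd (A := A) (c.2 : Cyc (p - 1) B ∅ (c : Cc M X)).deg h1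
    rw [sub_add_cancel] at h2
    exact h2)

theorem del_cls {c : Cc M X} (h : Cyc (p - 1) B ∅ c) :
    del R M p A B (cls R c h) = cls R (dd c) (cyc_dd h) := rfl

theorem range_eq_ker (hAB : B ⊆ A) : LinearMap.range (del R M p A B) =
    LinearMap.ker (res R M (p := p) (Subset.rfl : A ⊆ A) (empty_subset B)) := by
  apply le_antisymm
  · rintro _ ⟨a, rfl⟩
    obtain ⟨c, h, rfl⟩ := cls_surj a
    rw [LinearMap.mem_ker, del_cls, res_cls, cls_eq_zero]
    exact Bd.of_dd h.deg (Zr.empty h.deg)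
  · intro a ha
    obtain ⟨c, h, rfl⟩ := cls_surj a
    rw [LinearMap.mem_ker, res_cls, cls_eq_zero] at ha
    have h1 : Cyc (p - 1 + 1) A B c := by rw [sub_add_cancel]; exact h
    have h2 : Bd (p - 1 + 1) A ∅ c := by rw [sub_add_cancel]; exact ha
    obtain ⟨b, hb, hb2⟩ := les_left hAB h1 h2
    rw [sub_add_cancel] at hb2
    refine ⟨cls R b hb, ?_⟩
    rw [del_cls, cls_eq]
    exact hb2.symm

end FGR

theorem t_FGR : S_FGR := by
  intro R M X _ _ _ _ _ p A B hAB h1 h2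
  have : IsNoetherian R (H R M p A (∅ : Set X)) := isNoetherian_of_isNoetherianRing_of_finite R _
  have : IsNoetherian R (H R M (p - 1) B (∅ : Set X)) := isNoetherian_of_isNoetherianRing_of_finite R _
  have : IsNoetherian R (H R M p A B) :=
    isNoetherian_of_range_eq_ker (FGR.del R M p A B) _ (FGR.range_eq_ker hAB)
  infer_instance

end BBH


end

section

/-!
# BBH, module CMB: complexes of small dimension
-/

set_option autoImplicit false

namespace BBH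

open Set

namespace CMB

variable {M V : Type} [AddCommGroup M]

theorem cl_shift {K : Set (List V)} (h : Cl K) (v : V) : Cl {l | v :: l ∈ K} := h.shift v

theorem cl_inter {K L : Set (List V)} (h : Cl K) (h' : Cl L) : Cl (K ∩ L) :=
  fun l hl l' hl' => ⟨h l hl.1 l' hl', h' l hl.2 l' hl'⟩

theorem cl_avoid (v : V) : Cl {l : List V | v ∉ l} := fun _ hl _ hl' h => hl (hl' h)

theorem dd_sub_dd (b e : Cc M V) : dd (b - dd e) = dd b := by
  rw [dd_sub, dd_dd, sub_zero]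

theorem dd_add_dd (b e : Cc M V) : dd (b + dd e) = dd b := by
  rw [dd_add, dd_dd, add_zero]

theorem step [DecidableEq V] (m : ℕ)
    (ihm : ∀ (s : Finset V) (K L : Set (List V)), Cl K → Cl L → L ⊆ K →
      (∀ l ∈ K, l.toFinset.card ≤ m ∧ ∀ v ∈ l, v ∈ s) → ∀ q : ℤ, m ≤ q → ∀ c : Cc M V,
      Dg V q c → (∀ l ∈ K, dd c l = 0) → (∀ l ∈ L, c l = 0) →
      ∃ b : Cc M V, Dg V (q - 1) b ∧ (∀ l ∈ L, b l = 0) ∧ ∀ l ∈ K, c l = dd b l)
    (s : Finset V) : ∀ (K L : Set (List V)), Cl K → Cl L → L ⊆ K →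
      (∀ l ∈ K, l.toFinset.card ≤ m + 1 ∧ ∀ v ∈ l, v ∈ s) → ∀ q : ℤ, (m + 1 : ℕ) ≤ q →
      ∀ c : Cc M V, Dg V q c → (∀ l ∈ K, dd c l = 0) → (∀ l ∈ L, c l = 0) →
      ∃ b : Cc M V, Dg V (q - 1) b ∧ (∀ l ∈ L, b l = 0) ∧ ∀ l ∈ K, c l = dd b l := by
  classical
  induction s using Finset.induction_on with
  | empty =>
    intro K L hK hL hLK hs q hq c hc hd hz
    refine ⟨0, Dg.zero, fun l _ => rfl, fun l hl => ?_⟩
    have h1 : l = [] := by
      rcases l with _ | ⟨x, l⟩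
      · rfl
      · exact absurd ((hs _ hl).2 x (by simp)) (by simp)
    subst h1
    rw [hc.nil, dd_nil]
  | insert v s hv ihs =>
    intro K L hK hL hLK hs q hq c hc hd hz
    have hq' : (m : ℤ) ≤ q - 1 := by
      push_cast at hq
      omega
    have hq1 : (0 : ℤ) < q := by
      push_cast at hq
      omega
    -- the families
    have hKv : Cl {l | v :: l ∈ K} := hK.shift v
    have hLv : Cl {l | v :: l ∈ L} := hL.shift v
    have hav : Cl {l : List V | v ∉ l} := cl_avoid v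
    have hK' : Cl (K ∩ {l | v ∉ l}) := cl_inter hK hav
    have hL' : Cl (L ∩ {l | v ∉ l}) := cl_inter hL hav
    have hLk : Cl ({l | v :: l ∈ K} ∩ {l | v ∉ l}) := cl_inter hKv hav
    have hQ : Cl ((L ∩ {l | v ∉ l}) ∩ {l | v :: l ∈ K}) := cl_inter hL' hKv
    have hLkL : Cl ({l | v :: l ∈ L} ∩ {l | v ∉ l}) := cl_inter hLv hav
    have sub1 : ∀ l, v :: l ∈ K → l ∈ K := fun l h => hK _ h _ (List.subset_cons_self v l)
    have sub2 : ∀ l, v :: l ∈ L → l ∈ L := fun l h => hL _ h _ (List.subset_cons_self v l)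
    have dup : ∀ l, v ∈ l → l ∈ L → v :: l ∈ L := fun l h h' => hL _ h' _ (by
      intro x hx
      rcases List.mem_cons.1 hx with rfl | hx
      · exact h
      · exact hx)
    have dupK : ∀ l, v ∈ l → l ∈ K → v :: l ∈ K := fun l h h' => hK _ h' _ (by
      intro x hx
      rcases List.mem_cons.1 hx with rfl | hx
      · exact h
      · exact hx)
    -- small number of members in the link
    have small : ∀ l, v :: l ∈ K → v ∉ l → l.toFinset.card ≤ m ∧ ∀ w ∈ l, w ∈ insert v s := by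
      intro l h1 h2
      have h3 := hs _ h1
      refine ⟨?_, fun w hw => h3.2 w (List.mem_cons_of_mem _ hw)⟩
      have h4 := h3.1
      rw [List.toFinset_cons, Finset.card_insert_of_notMem (by simpa using h2)] at h4
      omega
    -- (i)
    have hb1 : Dg V (q - 1) (sh c v) := by
      intro l hl
      have h1 := (hc _ hl).2
      simp only [List.length_cons] at h1
      push_cast at h1
      refine ⟨?_, by omega⟩
      rintro rfl
      simp only [List.length_nil] at h1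
      push_cast at h1
      omega
    have hcb : ∀ l, v :: l ∈ K → c l = dd (sh c v) l := by
      intro l hl
      have h1 := hd _ hl
      rw [dd_cons, sub_eq_zero] at h1
      exact h1
    obtain ⟨e, he1, he2, he3⟩ := ihm (insert v s) ((L ∩ {l | v ∉ l}) ∩ {l | v :: l ∈ K})
      ({l | v :: l ∈ L} ∩ {l | v ∉ l}) hQ hLkL
      (fun l hl => ⟨⟨sub2 l hl.1, hl.2⟩, hLK hl.1⟩)
      (fun l hl => small l hl.2 hl.1.2) (q - 1) hq' (sh c v) hb1
      (fun l hl => by rw [← hcb l hl.2]; exact hz l hl.1.1)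
      (fun l hl => hz _ hl.1)
    obtain ⟨e', he'⟩ : ∃ e', e' = ind ((L ∩ {l | v ∉ l}) ∩ {l | v :: l ∈ K}) e := ⟨_, rfl⟩
    have he'd : Dg V (q - 1 - 1) e' := by
      rw [he']
      exact he1.ind
    have he'Q : ∀ l ∈ (L ∩ {l | v ∉ l}) ∩ {l | v :: l ∈ K}, dd e' l = dd e l := by
      refine dd_congr hQ (fun l hl => ?_)
      rw [he', ind_of_mem hl]
    have he'L : ∀ l ∈ {l | v :: l ∈ L}, e' l = 0 := by
      intro l hl
      rw [he']
      by_cases h1 : l ∈ (L ∩ {l | v ∉ l}) ∩ {l | v :: l ∈ K}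
      · exact ind_van (he2 l ⟨hl, h1.1.2⟩)
      · exact ind_of_notMem h1
    have hddL := dd_van hLv he'L
    obtain ⟨b1, hb1e⟩ : ∃ b1, b1 = sh c v - dd e' := ⟨_, rfl⟩
    have hb1d : Dg V (q - 1) b1 := by
      rw [hb1e]
      exact hb1.sub he'd.dd'
    have hb1L : ∀ l ∈ L, v :: l ∈ K → b1 l = 0 := by
      intro l hl hlK
      rw [hb1e, Pi.sub_apply, sub_eq_zero]
      by_cases h1 : v ∈ l
      · have h2 := dup l h1 hl
        rw [hddL l h2]
        exact hz _ h2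
      · have h2 : l ∈ (L ∩ {l | v ∉ l}) ∩ {l | v :: l ∈ K} := ⟨⟨hl, h1⟩, hlK⟩
        rw [he'Q l h2]
        exact he3 l h2
    have hb1K : ∀ l, v :: l ∈ K → c l = dd b1 l := by
      intro l hl
      rw [hb1e, dd_sub_dd]
      exact hcb l hl
    -- (ii)
    obtain ⟨b2, hb2d, hb2L, hb2K⟩ := ihs (K ∩ {l | v ∉ l}) (L ∩ {l | v ∉ l}) hK' hL'
      (fun l hl => ⟨hLK hl.1, hl.2⟩)
      (fun l hl => ⟨(hs l hl.1).1, fun w hw => by
        rcases Finset.mem_insert.1 ((hs l hl.1).2 w hw) with rfl | h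
        · exact absurd hw hl.2
        · exact h⟩) q hq c hc (fun l hl => hd l hl.1) (fun l hl => hz l hl.1)
    -- (iii)
    obtain ⟨e2, he21, he22, he23⟩ := ihm (insert v s) ({l | v :: l ∈ K} ∩ {l | v ∉ l})
      ((L ∩ {l | v ∉ l}) ∩ {l | v :: l ∈ K}) hLk hQ
      (fun l hl => ⟨hl.2, hl.1.2⟩)
      (fun l hl => small l hl.1 hl.2) (q - 1) hq' (b1 - b2) (hb1d.sub hb2d)
      (fun l hl => by
        rw [dd_sub, Pi.sub_apply, ← hb1K l hl.1, ← hb2K l ⟨sub1 l hl.1, hl.2⟩, sub_self])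
      (fun l hl => by
        rw [Pi.sub_apply, hb1L l hl.1.1 hl.2, hb2L l hl.1, sub_zero])
    obtain ⟨f, hf⟩ : ∃ f, f = ind ({l | v :: l ∈ K} ∩ {l | v ∉ l}) e2 := ⟨_, rfl⟩
    have hfd : Dg V (q - 1 - 1) f := by
      rw [hf]
      exact he21.ind
    have hfK : ∀ l ∈ {l | v :: l ∈ K} ∩ {l | v ∉ l}, dd f l = dd e2 l := by
      refine dd_congr hLk (fun l hl => ?_)
      rw [hf, ind_of_mem hl]
    have hfL : ∀ l ∈ L ∩ {l | v ∉ l}, f l = 0 := by
      intro l hl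
      rw [hf]
      by_cases h1 : l ∈ {l | v :: l ∈ K} ∩ {l | v ∉ l}
      · exact ind_van (he22 l ⟨hl, h1.1⟩)
      · exact ind_of_notMem h1
    have hddf := dd_van hL' hfL
    -- (iv)
    obtain ⟨b, hb⟩ : ∃ b : Cc M V, b = fun l => if v :: l ∈ K then b1 l else (b2 + dd f) l :=
      ⟨_, rfl⟩
    have hbv : ∀ l ∈ {l | v :: l ∈ K}, b l = b1 l := by
      intro l hl
      rw [hb]
      exact if_pos hl
    have hb' : ∀ l ∈ K ∩ {l | v ∉ l}, b l = (b2 + dd f) l := by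
      intro l hl
      by_cases h1 : v :: l ∈ K
      · rw [hbv l h1, Pi.add_apply, hfK l ⟨h1, hl.2⟩, ← he23 l ⟨h1, hl.2⟩, Pi.sub_apply]
        abel
      · rw [hb]
        exact if_neg h1
    refine ⟨b, ?_, ?_, ?_⟩
    · intro l hl
      by_cases h1 : v :: l ∈ K
      · rw [hbv l h1] at hl
        exact hb1d l hl
      · have h2 : b l = (b2 + dd f) l := by
          rw [hb]
          exact if_neg h1
        rw [h2] at hl
        exact (hb2d.add hfd.dd') l hl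
    · intro l hl
      by_cases h1 : v :: l ∈ K
      · rw [hbv l h1]
        exact hb1L l hl h1
      · have h2 : v ∉ l := fun h => h1 (hLK (dup l h hl))
        rw [hb' l ⟨hLK hl, h2⟩, Pi.add_apply, hb2L l ⟨hl, h2⟩, hddf l ⟨hl, h2⟩, add_zero]
    · intro l hl
      by_cases h1 : v :: l ∈ K
      · rw [dd_congr hKv hbv l h1]
        exact hb1K l h1
      · have h2 : v ∉ l := fun h => h1 (dupK l h hl)
        rw [dd_congr hK' hb' l ⟨hl, h2⟩, dd_add_dd]
        exact hb2K l ⟨hl, h2⟩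

end CMB

theorem t_CMB : S_CMB := by
  intro M V _ _ m
  induction m with
  | zero =>
    intro s K L hK hL hLK hs q hq c hc hd hz
    refine ⟨0, Dg.zero, fun l _ => rfl, fun l hl => ?_⟩
    have h1 : l = [] := by
      have h2 := (hs l hl).1
      have h3 : l.toFinset = ∅ := Finset.card_eq_zero.1 (by omega)
      rcases l with _ | ⟨x, l⟩
      · rfl
      · exfalso
        have : x ∈ (x :: l).toFinset := by simp
        rw [h3] at this
        exact absurd this (Finset.notMem_empty x)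
    subst h1
    rw [hc.nil, dd_nil]
  | succ m ih =>
    intro s K L hK hL hLK hs q hq c hc hd hz
    exact CMB.step m (fun s K L h1 h2 h3 h4 q h5 c h6 h7 h8 => ih s K L h1 h2 h3 h4 q h5 c h6 h7 h8)
      s K L hK hL hLK hs q hq c hc hd hz

end BBH


end

section

/-!
# BBH: a primitive on arcs is a primitive near compact sets
-/

set_option autoImplicit false

namespace BBH

open Set Topology CTO

namespace MOD

variable {k X : Type} [Field k] [MetricSpace X]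

theorem diag (g : Cc k X) (S : Set X) (ε : ℝ) (hε : 0 < ε)
    (hd : ∀ l ∈ Small S ε, dd g l = 0) {a : X} (ha : a ∈ S) : g [a, a] = 0 := by
  have h1 : [a, a, a] ∈ Small S ε := by
    refine ⟨fun y hy => ?_, fun y hy z hz => ?_⟩
    · have : y = a := by simpa using hy
      subst this
      exact Metric.self_subset_thickening hε S ha
    · have h2 : y = a := by simpa using hy
      have h3 : z = a := by simpa using hz
      subst h2
      rw [h3, dist_self]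
      exact hε
  have h2 := hd _ h1
  simp only [dd_cons, dd_nil, sh_apply] at h2
  have h3 : g [a, a] - (g [a, a] - (g [a, a] - 0)) = g [a, a] := by ring
  rwa [h3] at h2

theorem main (hM : S_MOA) (hP : BBP.S_PTA) : S_MOD := by
  intro k X _ _ _ hL O K g f hO hK hKO hg hz hmo
  have := hL
  obtain ⟨ε, hε, hd⟩ := hz
  have hopen : ∀ y : X, IsOpen (pathComponentIn (O ∩ Metric.ball y (ε / 8)) y) := fun y =>
    (hO.inter Metric.isOpen_ball).pathComponentIn y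
  have hmem : ∀ y ∈ K, y ∈ pathComponentIn (O ∩ Metric.ball y (ε / 8)) y := by
    intro y hy
    exact mem_pathComponentIn_self ⟨hKO hy, Metric.mem_ball_self (by positivity)⟩
  obtain ⟨δ, hδ, hleb⟩ := lebesgue_number_lemma_of_metric (s := K)
    (c := fun y : K => pathComponentIn (O ∩ Metric.ball (y : X) (ε / 8)) (y : X)) hK
    (fun y => hopen y) (fun y hy => mem_iUnion.2 ⟨⟨y, hy⟩, hmem y hy⟩)
  refine ⟨δ / 2, by positivity, fun l hl => ?_⟩
  by_contra hne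
  have hdeg : Dg X 1 (g - dd (c0 f)) := hg.sub (Dg.c0 _).dd
  have h1 := (hdeg l hne).2
  obtain ⟨u, v, rfl⟩ : ∃ u v, l = [u, v] := by
    rcases l with _ | ⟨w, _ | ⟨w', _ | ⟨w2, l⟩⟩⟩
    · simp at h1
    · simp at h1
    · exact ⟨w, w', rfl⟩
    · simp only [List.length_cons] at h1
      push_cast at h1
      omega
  apply hne
  rw [Pi.sub_apply, dd_c0_two, sub_eq_zero]
  obtain ⟨x, hxK, hux⟩ := Metric.mem_thickening_iff.1 (hl.1 u (by simp))
  have huv : dist u v < δ / 2 := hl.2 u (by simp) v (by simp)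
  obtain ⟨y, hy⟩ := hleb x hxK
  have hu : u ∈ pathComponentIn (O ∩ Metric.ball (y : X) (ε / 8)) (y : X) := by
    apply hy
    rw [Metric.mem_ball]
    linarith
  have hv : v ∈ pathComponentIn (O ∩ Metric.ball (y : X) (ε / 8)) (y : X) := by
    apply hy
    rw [Metric.mem_ball]
    have h2 := dist_triangle v u x
    rw [dist_comm v u] at h2
    linarith
  have hsub : pathComponentIn (O ∩ Metric.ball (y : X) (ε / 8)) (y : X) ⊆
      O ∩ Metric.ball (y : X) (ε / 8) := pathComponentIn_subset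
  by_cases huv' : u = v
  · subst huv'
    rw [sub_self]
    exact diag g O ε hε hd (hsub hu).1
  · have hj : JoinedIn (O ∩ Metric.ball (y : X) (ε / 8)) u v :=
      (show JoinedIn (O ∩ Metric.ball (y : X) (ε / 8)) y u from hu).symm.trans hv
    obtain ⟨A, hA, harc⟩ := hP.2 X _ u v hj huv'
    have hAO : A ⊆ O := fun z hz => (hA hz).1
    have hAb : A ⊆ Metric.ball u (ε / 4) := by
      intro z hz
      have h3 := (hA hz).2
      have h4 := (hsub hu).2
      rw [Metric.mem_ball] at h3 h4 ⊢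
      have h5 := dist_triangle z (y : X) u
      rw [dist_comm (y : X) u] at h5
      linarith
    obtain ⟨_, hu2, _, _, _, hu6⟩ := hM k X A u v harc
    exact hu2 g _ _ (hu6 g O ε hε hg hd hAO hAb) (hmo A u v harc hAO)

end MOD

theorem t_MOD : M_MOD := fun h1 h2 => MOD.main h1 h2

end BBH


end

section

/-!
# Module KEY: the key lemma, assembly
-/

set_option autoImplicit false

namespace BBH

open Set Topology CTO

theorem t_KEY : M_KEY := by
  intro hKA hKB hKC hKF hKG hKH k X _ _ _ hL hSj B B' D O N K W N' θ s hK hθ hb hs hne hg hN' hBW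
  obtain ⟨Θ, hΘd, hΘz, hΘe⟩ := hb
  have hΘd' : Dg X 1 Θ := by
    have h : (2 : ℤ) - 1 = 1 := by norm_num
    rw [h] at hΘd
    exact hΘd
  have hP : Pri O N θ Θ := ⟨hθ, hΘd', hΘz, hΘe⟩
  have hA := hKA k X B B' D O N K W θ Θ s hK hP hs hg
  have hWB : W ⊆ B := fun y hy => (hK.subW hy).1
  have hsW : Kil 3 W s := fun c hc hbc => hs c (hc.mono hWB) (hbc.mono hWB)
  obtain ⟨P, hP1⟩ := hKB k X W Θ s hΘd' hsW hA
  obtain ⟨P', hP2, hP3⟩ := hKC k X B B' D O N K W θ Θ s P hSj hK hP hP1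
  have hF := hKF k X hL hSj B B' D O N K W θ Θ s P' hK hP hP2 hP3
  obtain ⟨U, hU1, hU2, hU3⟩ := hKG k X hL hSj B B' D O N K W θ Θ s P' hK hP hP2 hs hne hP3 hF
  exact hKH k X B B' D O N K W N' θ Θ U hK hP hU1 hU2 hU3 hN' hBW

end BBH


end

section

/-!
# BBH, module LAM: an arc with the ends in a compact set
-/

set_option autoImplicit false

namespace BBH

open Set Topology CTO

namespace LAM

/-- the first point of a path in a closed set -/
theorem first_point {X : Type} [MetricSpace X] {S F : Set X} {a b : X} (hF : IsClosed F)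
    (h : JoinedIn S a b) (ha : a ∉ F) (hb : b ∈ F) :
    ∃ q ∈ F ∩ S, JoinedIn ({q} ∪ (S \ F)) a q := by
  obtain ⟨γ, hγ⟩ := h
  have hcont : Continuous γ.extend := γ.continuous_extend
  have hS : ∀ t ∈ Icc (0 : ℝ) 1, γ.extend t ∈ S := by
    intro t ht
    rw [γ.extend_apply ht]
    exact hγ _
  have hT : IsCompact (Icc (0 : ℝ) 1 ∩ γ.extend ⁻¹' F) :=
    isCompact_Icc.inter_right (hF.preimage hcont)
  have hne : (Icc (0 : ℝ) 1 ∩ γ.extend ⁻¹' F).Nonempty := by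
    refine ⟨1, ⟨by norm_num, by norm_num⟩, ?_⟩
    rw [mem_preimage, γ.extend_one]
    exact hb
  obtain ⟨t, ht, hmin⟩ := hT.exists_isLeast hne
  have ht0 : 0 ≤ t := ht.1.1
  refine ⟨γ.extend t, ⟨ht.2, hS t ht.1⟩, ?_⟩
  have hpc : IsPathConnected (γ.extend '' Icc 0 t) :=
    ((convex_Icc (0 : ℝ) t).isPathConnected ⟨0, le_rfl, ht0⟩).image hcont
  have hj : JoinedIn (γ.extend '' Icc 0 t) (γ.extend 0) (γ.extend t) :=
    hpc.joinedIn _ ⟨0, ⟨le_rfl, ht0⟩, rfl⟩ _ ⟨t, ⟨ht0, le_rfl⟩, rfl⟩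
  rw [γ.extend_zero] at hj
  refine hj.mono ?_
  rintro z ⟨s, hs, rfl⟩
  have hs1 : s ∈ Icc (0 : ℝ) 1 := ⟨hs.1, hs.2.trans ht.1.2⟩
  by_cases h1 : γ.extend s ∈ F
  · left
    have h2 : t ≤ s := hmin ⟨hs1, h1⟩
    rw [le_antisymm hs.2 h2]
    exact mem_singleton _
  · right
    exact ⟨hS s hs1, h1⟩

end LAM

theorem t_LAM : M_LAM := by
  intro hPTA hARB hGLU hARI X _ _ hloc O Dp D₀ V₀ hO hDp hDpO hne hD₀ hD₀p hV₀ hV₀ne hV₀D
  obtain ⟨p₁, hp₁O, hp₁D⟩ := hne
  obtain ⟨a₁, ha₁⟩ := hV₀ne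
  have hOpen : IsOpen O := hO.1
  have hOpc : IsPathConnected O := hOpen.isConnected_iff_isPathConnected.1 hO.2.1
  have ha₁O : a₁ ∈ O := hDpO (hD₀p (hV₀D ha₁))
  have hne₁ : a₁ ≠ p₁ := by
    rintro rfl
    exact hp₁D (hD₀p (hV₀D ha₁))
  obtain ⟨Sg, hSgO, hSg⟩ := hPTA.2 X O a₁ p₁ (hOpc.joinedIn _ ha₁O _ hp₁O) hne₁
  obtain ⟨-, ha₁S, hp₁S, -, hSgc, -, -, hsub, -⟩ := hARB X Sg a₁ p₁ hSg
  -- the path component of `p₁`
  have hUo : IsOpen (O \ Dp) := hOpen.sdiff hDp.isClosed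
  set P : Set X := pathComponentIn (O \ Dp) p₁ with hP
  have hPo : IsOpen P := hUo.pathComponentIn p₁
  have hPsub : P ⊆ O \ Dp := pathComponentIn_subset
  have hp₁P : p₁ ∈ P := mem_pathComponentIn_self ⟨hp₁O, hp₁D⟩
  obtain ⟨p₂, hp₂P, hp₂S⟩ : ∃ p₂ ∈ P, p₂ ∉ Sg := by
    by_contra hcon
    push Not at hcon
    have h1 := hARI X O Sg P a₁ p₁ hO hSg hPo hcon (hPsub.trans diff_subset)
    rw [h1] at hp₁P
    exact hp₁P
  obtain ⟨a₂, ha₂V, ha₂S⟩ : ∃ a₂ ∈ V₀, a₂ ∉ Sg := by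
    by_contra hcon
    push Not at hcon
    have h1 := hARI X O Sg V₀ a₁ p₁ hO hSg hV₀ hcon ((hV₀D.trans hD₀p).trans hDpO)
    rw [h1] at ha₁
    exact ha₁
  -- the complement of the arc
  have hOS : IsOpen (O \ Sg) := hOpen.sdiff hSgc.isClosed
  have hpre : IsPreconnected (O \ Sg) := by
    have h1 := (hO.2.2 O Subset.rfl hOpen hO.2.1).2 1 (fun _ => Sg) (fun _ => ?_) ?_
    · have h2 : (⋃ _ : Fin 1, Sg) = Sg := iUnion_const Sg
      rw [h2] at h1
      exact h1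
    · obtain ⟨α, h1, h2, -, -, h3⟩ := hSg
      exact ⟨α, h1, h2, h3⟩
    · exact iUnion_subset fun _ => hSgO
  have hp₂O : p₂ ∈ O \ Sg := ⟨(hPsub hp₂P).1, hp₂S⟩
  have ha₂O : a₂ ∈ O \ Sg := ⟨hDpO (hD₀p (hV₀D ha₂V)), ha₂S⟩
  have hpc2 : IsPathConnected (O \ Sg) :=
    hOS.isConnected_iff_isPathConnected.1 ⟨⟨p₂, hp₂O⟩, hpre⟩
  have hj2 : JoinedIn (O \ Sg) p₂ a₂ := hpc2.joinedIn _ hp₂O _ ha₂O
  -- the first point of a path from `p₂` to `p₁`
  have hj1 : JoinedIn (O \ Dp) p₂ p₁ := by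
    have h1 : JoinedIn (O \ Dp) p₁ p₂ := hp₂P
    exact h1.symm
  obtain ⟨q, ⟨hqS, hqO⟩, hj3⟩ := LAM.first_point hSgc.isClosed hj1 hp₂S hp₁S
  have hj4 : JoinedIn ({q} ∪ (O \ Sg)) q a₂ := by
    refine (hj3.symm.mono ?_).trans (hj2.mono subset_union_right)
    exact union_subset_union_right _ (diff_subset_diff_left diff_subset)
  have hqa₂ : q ≠ a₂ := by
    rintro rfl
    exact ha₂S hqS
  obtain ⟨B, hBsub, hB⟩ := hPTA.2 X _ q a₂ hj4 hqa₂
  have hqD : q ∉ D₀ := fun h => hqO.2 (hD₀p h)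
  obtain ⟨-, -, -, -, -, -, -, -, -, -, -, hhitB, -⟩ := hARB X B q a₂ hB
  obtain ⟨w, hwD, B', hB'B, hB', hB'D⟩ := hhitB D₀ hD₀.isClosed (hV₀D ha₂V) hqD
  have hqa₁ : q ≠ a₁ := by
    rintro rfl
    exact hqD (hV₀D ha₁)
  obtain ⟨C, hCS, hC⟩ := hsub q hqS a₁ ha₁S hqa₁
  obtain ⟨-, -, -, -, -, -, -, -, -, -, -, hhitC, -⟩ := hARB X C q a₁ hC
  obtain ⟨w', hw'D, C', hC'C, hC', hC'D⟩ := hhitC D₀ hD₀.isClosed (hV₀D ha₁) hqD
  have hqB' : q ∈ B' := (hARB X B' q w hB').2.1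
  have hqC' : q ∈ C' := (hARB X C' q w' hC').2.1
  have hCr : BBP.Arc C' w' q := (hARB X C' q w' hC').2.2.2.1
  have hint : C' ∩ B' = {q} := by
    refine Subset.antisymm ?_ ?_
    · rintro z ⟨hzC, hzB⟩
      rcases hBsub (hB'B hzB) with h1 | h1
      · exact h1
      · exact absurd (hCS (hC'C hzC)) h1.2
    · rintro z hz
      rw [mem_singleton_iff.1 hz]
      exact ⟨hqC', hqB'⟩
  refine ⟨C' ∪ B', w', w, hGLU.2 X C' B' w' q w hCr hB' hint, ?_, ?_, ?_⟩
  · refine union_subset ((hC'C.trans hCS).trans hSgO) ?_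
    intro z hz
    rcases hBsub (hB'B hz) with h1 | h1
    · rw [mem_singleton_iff.1 h1]
      exact hqO.1
    · exact h1.1
  · rw [inter_comm, union_inter_distrib_right, hC'D, hB'D]
    rfl
  · intro h1
    exact hqO.2 (h1 (Or.inl hqC'))

end BBH


end

section

set_option autoImplicit false

namespace BBH

open Set Topology CTO

namespace CFG

/-- cutting an interval into three pieces -/
theorem icc_cut {a b : ℝ} (h0 : 0 ≤ a) (hab : a ≤ b) (h1 : b ≤ 1) :
    Icc (0 : ℝ) a ∪ Icc b 1 ∪ Icc a b = Icc 0 1 := by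
  ext t
  simp only [mem_union, mem_Icc]
  constructor
  · rintro ((⟨h, h'⟩ | ⟨h, h'⟩) | ⟨h, h'⟩) <;> constructor <;> linarith
  · rintro ⟨h, h'⟩
    by_cases h2 : t ≤ a
    · exact Or.inl (Or.inl ⟨h, h2⟩)
    · by_cases h3 : b ≤ t
      · exact Or.inl (Or.inr ⟨h3, h'⟩)
      · exact Or.inr ⟨le_of_not_ge h2, le_of_not_ge h3⟩

end CFG

theorem t_CFG : M_CFG := by
  intro hLAM X _ _ hlpc O Dp D₀ V₀ hGN hDp hDpO hne hD₀ hD₀c hD₀Dp hV₀ hV₀n hV₀D
  obtain ⟨La, P, Q, hArc, hLaO, hint, hnot⟩ := hLAM X hlpc O Dp D₀ V₀ hGN hDp hDpO hne hD₀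
    hD₀Dp hV₀ hV₀n hV₀D
  obtain ⟨α, hc, hi, hα0, hα1, hLa⟩ := id hArc
  have hP : P ∈ D₀ := by
    have : P ∈ D₀ ∩ La := by rw [hint]; exact mem_insert _ _
    exact this.1
  have hQ : Q ∈ D₀ := by
    have : Q ∈ D₀ ∩ La := by rw [hint]; exact mem_insert_of_mem _ (mem_singleton _)
    exact this.1
  obtain ⟨t₀, ht₀, ht₀D⟩ : ∃ t ∈ Icc (0 : ℝ) 1, α t ∉ Dp := by
    by_contra hcon
    push Not at hcon
    apply hnot
    rw [hLa]
    rintro _ ⟨t, ht, rfl⟩
    exact hcon t ht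
  have h0 : t₀ ≠ 0 := by
    rintro rfl
    exact ht₀D (hD₀Dp (by rw [hα0]; exact hP))
  have h1 : t₀ ≠ 1 := by
    rintro rfl
    exact ht₀D (hD₀Dp (by rw [hα1]; exact hQ))
  have hIoo : t₀ ∈ Ioo (0 : ℝ) 1 := ⟨lt_of_le_of_ne ht₀.1 h0.symm, lt_of_le_of_ne ht₀.2 h1⟩
  have hca : ContinuousAt α t₀ := hc.continuousAt (Icc_mem_nhds hIoo.1 hIoo.2)
  have hmem : α ⁻¹' Dpᶜ ∩ Ioo 0 1 ∈ 𝓝 t₀ :=
    Filter.inter_mem (hca (hDp.isClosed.isOpen_compl.mem_nhds ht₀D)) (Ioo_mem_nhds hIoo.1 hIoo.2)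
  obtain ⟨ε, hε, hball⟩ := Metric.nhds_basis_closedBall.mem_iff.1 hmem
  rw [Real.closedBall_eq_Icc] at hball
  obtain ⟨a, ha⟩ : ∃ a, a = t₀ - ε := ⟨_, rfl⟩
  obtain ⟨b, hb⟩ : ∃ b, b = t₀ + ε := ⟨_, rfl⟩
  rw [← ha, ← hb] at hball
  have hab : a < b := by rw [ha, hb]; linarith
  have haI : a ∈ Ioo (0 : ℝ) 1 := (hball ⟨le_rfl, hab.le⟩).2
  have hbI : b ∈ Ioo (0 : ℝ) 1 := (hball ⟨hab.le, le_rfl⟩).2
  have hs0 : Icc (0 : ℝ) a ⊆ Icc 0 1 := Icc_subset_Icc le_rfl haI.2.le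
  have hs1 : Icc b (1 : ℝ) ⊆ Icc 0 1 := Icc_subset_Icc hbI.1.le le_rfl
  have hs2 : Icc a b ⊆ Icc (0 : ℝ) 1 := Icc_subset_Icc haI.1.le hbI.2.le
  have hcomp : ∀ s t : ℝ, Icc s t ⊆ Icc (0 : ℝ) 1 → IsCompact (α '' Icc s t) :=
    fun s t h => isCompact_Icc.image_of_continuousOn (hc.mono h)
  have hconn : ∀ s t : ℝ, s ≤ t → Icc s t ⊆ Icc (0 : ℝ) 1 → IsConnected (α '' Icc s t) :=
    fun s t hst h => (isConnected_Icc hst).image α (hc.mono h)
  have hunion : α '' Icc 0 a ∪ α '' Icc b 1 ∪ α '' Icc a b = La := by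
    rw [← image_union, ← image_union, CFG.icc_cut haI.1.le hab.le hbI.2.le, hLa]
  have hcon1 : IsConnected (D₀ ∪ α '' Icc 0 a) :=
    IsConnected.union ⟨P, hP, ⟨0, ⟨le_rfl, haI.1.le⟩, hα0⟩⟩ hD₀c (hconn 0 a haI.1.le hs0)
  have hcon2 : IsConnected (D₀ ∪ α '' Icc 0 a ∪ α '' Icc b 1) :=
    IsConnected.union ⟨Q, Or.inl hQ, ⟨1, ⟨hbI.2.le, le_rfl⟩, hα1⟩⟩ hcon1
      (hconn b 1 hbI.2.le hs1)
  refine ⟨La, D₀ ∪ α '' Icc 0 a ∪ α '' Icc b 1, Dp ∪ α '' Icc 0 a ∪ α '' Icc b 1,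
    α '' Icc a b, P, Q, α a, α b, ?_⟩
  exact {
    arc := hArc
    int := hint
    sub := union_subset hDpO hLaO
    cAs := (hD₀.union (hcomp 0 a hs0)).union (hcomp b 1 hs1)
    conAs := hcon2
    D₀As := fun z hz => Or.inl (Or.inl hz)
    AsAp := by
      rintro z ((hz | hz) | hz)
      · exact Or.inl (Or.inl (hD₀Dp hz))
      · exact Or.inl (Or.inr hz)
      · exact Or.inr hz
    cAp := (hDp.union (hcomp 0 a hs0)).union (hcomp b 1 hs1)
    cGa := hcomp a b hs2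
    conGa := hconn a b hab.le hs2
    ne := fun h => hab.ne (hi (hs2 ⟨le_rfl, hab.le⟩) (hs2 ⟨hab.le, le_rfl⟩) h)
    xAs := Or.inl (Or.inr ⟨a, ⟨haI.1.le, le_rfl⟩, rfl⟩)
    yAs := Or.inr ⟨b, ⟨le_rfl, hbI.2.le⟩, rfl⟩
    inter := by
      ext z
      constructor
      · rintro ⟨hz, ⟨t, ht, rfl⟩⟩
        rcases hz with (hz | ⟨s, hs, hst⟩) | ⟨s, hs, hst⟩
        · exact absurd hz (hball ht).1
        · have h := hi (hs0 hs) (hs2 ht) hst
          have : t = a := le_antisymm (h ▸ hs.2) ht.1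
          rw [this]
          exact mem_insert _ _
        · have h := hi (hs1 hs) (hs2 ht) hst
          have : t = b := le_antisymm ht.2 (h ▸ hs.1)
          rw [this]
          exact mem_insert_of_mem _ (mem_singleton _)
      · rintro (rfl | hz)
        · exact ⟨Or.inl (Or.inr ⟨a, ⟨haI.1.le, le_rfl⟩, rfl⟩), ⟨a, ⟨le_rfl, hab.le⟩, rfl⟩⟩
        · rw [mem_singleton_iff] at hz
          rw [hz]
          exact ⟨Or.inr ⟨b, ⟨le_rfl, hbI.2.le⟩, rfl⟩, ⟨b, ⟨hab.le, le_rfl⟩, rfl⟩⟩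
    uJ := by rw [← hunion]; simp only [union_assoc]
    uJp := by rw [← hunion]; simp only [union_assoc] }

end BBH


end

section

/-!
# ONE: the groups in degree three have dimension at most one, for countable fields
-/

set_option autoImplicit false

namespace BBH

open Set Topology CTO

namespace ONE

variable {k X : Type} [Field k] [MetricSpace X]

/-- a one-dimensional group is generated by one class -/
theorem gen_one {V : Set X} (hfin : Module.Finite k (HO k k 3 V))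
    (hle : Module.finrank k (HO k k 3 V) ≤ 1) :
    ∃ g : Cc k X, CyO 3 V g ∧ ∀ c : Cc k X, CyO 3 V c → ∃ t : k, BdO 3 V (c - t • g) := by
  obtain ⟨v, hv⟩ := finrank_le_one_iff.1 hle
  obtain ⟨g, hg, rfl⟩ := cls_surj v
  refine ⟨g, hg, fun c hc => ?_⟩
  obtain ⟨t, ht⟩ := hv (cls k c hc)
  refine ⟨t, ?_⟩
  have h1 : cls k c hc = cls k (t • g) (Cyc.smul t hg) := ht.symm
  exact (cls_eq (R := k) hc (Cyc.smul t hg)).1 h1

theorem ext_surj (hSj : Sj k X) {V W : Set X} (hV : IsOpen V) (hVc : IsConnected V)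
    (hW : IsOpen W) (hWV : W ⊆ V) (hWne : W.Nonempty) :
    Function.Surjective (ext k k (p := 3) hWV) := by
  intro a
  obtain ⟨c, hc, rfl⟩ := cls_surj a
  obtain ⟨c', hc', hb⟩ := hSj V W hV hVc hW hWV hWne c hc
  refine ⟨cls k c' hc', ?_⟩
  have h1 : cls k c hc = cls k c' (CyO.mono hc' hWV) :=
    (cls_eq (R := k) hc (CyO.mono hc' hWV)).2 hb
  exact h1.symm

theorem finrank_pos_of {V : Set X} (hfin : Module.Finite k (HO k k 3 V))
    (h : ¬ VanO k 3 V) : 0 < Module.finrank k (HO k k 3 V) := by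
  unfold VanO at h
  push Not at h
  obtain ⟨c, hc, hb⟩ := h
  have hne : cls k c hc ≠ 0 := fun h0 => hb ((cls_eq_zero (R := k) hc).1 h0)
  exact Module.finrank_pos_iff_exists_ne_zero.2 ⟨_, hne⟩

end ONE

theorem t_ONE : M_ONE := by
  intro hLEV hLPX hSRJ hGNX hNZK hLT2 hFDV hNZB k X _ _ _ _ hX hH hS hS2
  have hLP : LocallyPathConnectedSpace X := (hLPX X hX).1
  have hSj : Sj k X := hSRJ k X hX hH hS
  have hGNs : GNs X := hGNX X hX hH hS hS2
  have hNZ : ∀ x : X, NZat k x := by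
    intro x
    have : Nonempty X := ⟨x⟩
    exact hNZK k X hX hH hS hGNs x
  have hLT : ∀ x : X, LT k 2 x := hLT2 k X hX hH hGNs
  have hfin : ∀ V : Set X, IsOpen V → IsConnected V → Module.Finite k (HO k k 3 V) :=
    hFDV k X hX hSj
  have hle : ∀ V : Set X, IsOpen V → IsConnected V → Module.finrank k (HO k k 3 V) ≤ 1 :=
    hLEV k X hLP hX hH hSj hGNs hNZ hLT
  refine ⟨fun V hV hVc => ONE.gen_one (hfin V hV hVc) (hle V hV hVc), fun x N hN hx => ?_⟩
  obtain ⟨B, hBN, hxB, hB⟩ := hNZB k X hLP hSj hNZ x N hN hx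
  refine ⟨B, hBN, hxB, hB, fun V W hWB hVW hV hVc hW hWc c hc hb => ?_⟩
  have := hfin V hV hVc
  have := hfin W hW hWc
  have hV1 : Module.finrank k (HO k k 3 V) = 1 := le_antisymm (hle V hV hVc)
    (ONE.finrank_pos_of (hfin V hV hVc) (hB.2.2 V (hVW.trans hWB) hV hVc.nonempty))
  have hW1 : Module.finrank k (HO k k 3 W) = 1 := le_antisymm (hle W hW hWc)
    (ONE.finrank_pos_of (hfin W hW hWc) (hB.2.2 W hWB hW hWc.nonempty))
  have hsurj : Function.Surjective (ext k k (p := 3) hVW) :=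
    ONE.ext_surj hSj hW hWc hV hVW hVc.nonempty
  have hinj : Function.Injective (ext k k (p := 3) hVW) :=
    (LinearMap.injective_iff_surjective_of_finrank_eq_finrank (hV1.trans hW1.symm)).2 hsurj
  have h0 : ext k k (p := 3) hVW (cls k c hc) = 0 := by
    have h1 : cls k c (CyO.mono hc hVW) = 0 := (cls_eq_zero (R := k) (CyO.mono hc hVW)).2 hb
    exact h1
  have h2 : cls k c hc = 0 := hinj (h0.trans (map_zero _).symm)
  exact (cls_eq_zero (R := k) hc).1 h2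

end BBH


end

section

/-!
# Module LFT: cocycles mod `p` of degree three lift to integral cocycles
-/

set_option autoImplicit false

namespace BBH

open Set Topology CTO

theorem t_LFT : M_LFT := by
  intro hD X _ _ hX p W hp hW c' hc'
  have : NeZero p := ⟨hp.ne'⟩
  have hpz : (p : ℤ) ≠ 0 := by exact_mod_cast hp.ne'
  obtain ⟨a, ha⟩ : ∃ a : Cc ℤ X, a = fun l => ((c' l).val : ℤ) := ⟨_, rfl⟩
  have hred : ∀ l, ((a l : ℤ) : ZMod p) = c' l := by
    intro l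
    rw [ha]
    simp
  have ha0 : ∀ l, c' l = 0 → a l = 0 := by
    intro l hl
    rw [ha]
    simp [hl]
  have hadeg : Dg X 3 a := fun l hl => hc'.deg l fun h => hl (ha0 l h)
  have harel : Zr Wᶜ a := by
    obtain ⟨ε, hε, h⟩ := hc'.rel
    exact ⟨ε, hε, fun l hl => ha0 l (h l hl)⟩
  have hdd : ∀ l, ((dd a l : ℤ) : ZMod p) = dd c' l := by
    intro l
    have h1 := dd_map (Int.castAddHom (ZMod p)) a l
    have h2 : (fun l => Int.castAddHom (ZMod p) (a l)) = c' := by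
      funext l
      exact hred l
    rw [h2] at h1
    rw [h1]
    rfl
  obtain ⟨ε, hε, hcyc⟩ := hc'.cyc
  have hdiv : ∀ l ∈ Small univ ε, (p : ℤ) ∣ dd a l := by
    intro l hl
    rw [← ZMod.intCast_zmod_eq_zero_iff_dvd, hdd, hcyc l hl]
  obtain ⟨e, he⟩ : ∃ e : Cc ℤ X, e = fun l => dd a l / p * (if (p : ℤ) ∣ dd a l then 1 else 0) :=
    ⟨_, rfl⟩
  have he0 : ∀ l, dd a l = 0 → e l = 0 := by
    intro l hl
    rw [he]
    simp [hl]
  have hep : ∀ l ∈ Small univ ε, ((p : ℤ) • e) l = dd a l := by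
    intro l hl
    rw [Pi.smul_apply, he]
    simp only [if_pos (hdiv l hl), mul_one, smul_eq_mul]
    exact Int.mul_ediv_cancel' (hdiv l hl)
  have h31 : (3 : ℤ) + 1 = 4 := by norm_num
  have hedeg : Dg X 4 e := by
    intro l hl
    have h1 := hadeg.dd l fun h => hl (he0 l h)
    rwa [h31] at h1
  have herel : Zr Wᶜ e := by
    obtain ⟨δ, hδ, h⟩ := harel.dd
    exact ⟨δ, hδ, fun l hl => he0 l (h l hl)⟩
  have hecyc : Zr univ (dd e) := by
    refine ⟨ε, hε, fun l hl => ?_⟩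
    have h1 := dd_congr (Small.cl univ ε) (c := (p : ℤ) • e) (e := dd a) hep l hl
    rw [dd_dd, Pi.zero_apply, dd_smul, Pi.smul_apply, smul_eq_mul] at h1
    exact (mul_eq_zero.1 h1).resolve_left hpz
  obtain ⟨f, hf1, hf2, hf3⟩ := hD ℤ X 3 hX 4 univ Wᶜ (by norm_num) (subset_univ _) e
    ⟨hedeg, herel, hecyc⟩
  have h41 : (4 : ℤ) - 1 = 3 := by norm_num
  rw [h41] at hf1
  refine ⟨a - (p : ℤ) • f, ⟨hadeg.sub (hf1.smul _), harel.sub (hf2.smul _), ?_⟩, ?_⟩
  · have h1 : Zr univ (dd a - (p : ℤ) • e) := by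
      refine ⟨ε, hε, fun l hl => ?_⟩
      rw [Pi.sub_apply, hep l hl, sub_self]
    have h2 := h1.add (hf3.smul (p : ℤ))
    have h3 : dd a - (p : ℤ) • e + (p : ℤ) • (e - dd f) = dd (a - (p : ℤ) • f) := by
      rw [dd_sub, dd_smul, smul_sub]
      abel
    rwa [h3] at h2
  · funext l
    rw [Pi.sub_apply, Pi.smul_apply, smul_eq_mul]
    push_cast
    rw [hred l, ZMod.natCast_self, zero_mul, sub_zero]

end BBH


end

section

/-!
# Module ORG: gluing of orientations mod 2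
-/

set_option autoImplicit false

namespace BBH

open Set Topology CTO

namespace ORG

theorem Orr.mono {X : Type} [MetricSpace X] {U W : Set X}
    {s : Cc (ZMod 2) X →ₗ[ZMod 2] ZMod 2} (h : Orr U s) (hW : W ⊆ U) : Orr W s :=
  ⟨h.1.mono hW, fun V hV hVo hVn => h.2 V (hV.trans hW) hVo hVn⟩

/-- a functional that factors through a surjective linear map -/
theorem factor {k T H : Type} [Field k] [AddCommGroup T] [Module k T] [AddCommGroup H]
    [Module k H] (ψ : T →ₗ[k] H) (σ : T →ₗ[k] k) (hψ : Function.Surjective ψ)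
    (hk : ∀ t, ψ t = 0 → σ t = 0) : ∃ φ : H →ₗ[k] k, ∀ t, φ (ψ t) = σ t := by
  obtain ⟨g, hg⟩ := ψ.exists_rightInverse_of_surjective (LinearMap.range_eq_top.2 hψ)
  refine ⟨σ ∘ₗ g, fun t => ?_⟩
  have h1 : ψ (g (ψ t)) = ψ t := by
    have := LinearMap.congr_fun hg (ψ t)
    simpa using this
  have h2 : σ (g (ψ t) - t) = 0 := hk _ (by rw [map_sub, h1, sub_self])
  rw [map_sub, sub_eq_zero] at h2
  exact h2

end ORG

theorem t_ORG : M_ORG := by
  intro hDIM hMVO hORA X _ _ hL hS hU U V s s' hUo hVo hs hs'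
  obtain ⟨-, -, -, h4, h5⟩ := hMVO (ZMod 2) X 3 U V hUo hVo
  let ψ : (ZZ (ZMod 2) (ZMod 2) 3 univ Uᶜ) × (ZZ (ZMod 2) (ZMod 2) 3 univ Vᶜ)
      →ₗ[ZMod 2] HO (ZMod 2) (ZMod 2) 3 (U ∪ V) :=
    (ext (ZMod 2) (ZMod 2) (p := 3) (subset_union_left (s := U) (t := V)) ∘ₗ
      (BB (ZMod 2) (ZMod 2) 3 univ Uᶜ).mkQ).coprod
    (ext (ZMod 2) (ZMod 2) (p := 3) (subset_union_right (s := U) (t := V)) ∘ₗ
      (BB (ZMod 2) (ZMod 2) 3 univ Vᶜ).mkQ)
  let σ : (ZZ (ZMod 2) (ZMod 2) 3 univ Uᶜ) × (ZZ (ZMod 2) (ZMod 2) 3 univ Vᶜ)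
      →ₗ[ZMod 2] ZMod 2 :=
    (s ∘ₗ (ZZ (ZMod 2) (ZMod 2) 3 univ Uᶜ).subtype).coprod
      (s' ∘ₗ (ZZ (ZMod 2) (ZMod 2) 3 univ Vᶜ).subtype)
  have hψ : ∀ (c₁ c₂ : Cc (ZMod 2) X) (h₁ : CyO 3 U c₁) (h₂ : CyO 3 V c₂),
      ψ (⟨c₁, h₁⟩, ⟨c₂, h₂⟩) = cls (ZMod 2) (c₁ + c₂)
        ((h₁.mono subset_union_left).add (h₂.mono subset_union_right)) := by
    intro c₁ c₂ h₁ h₂
    rfl
  have hσ : ∀ (c₁ c₂ : Cc (ZMod 2) X) (h₁ : CyO 3 U c₁) (h₂ : CyO 3 V c₂),
      σ (⟨c₁, h₁⟩, ⟨c₂, h₂⟩) = s c₁ + s' c₂ := by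
    intro c₁ c₂ h₁ h₂
    rfl
  have hsurj : Function.Surjective ψ := by
    intro a
    obtain ⟨c, hc, rfl⟩ := cls_surj a
    obtain ⟨c₁, c₂, h₁, h₂, hb⟩ := h5 c hc (fun d hd => by
      have h := hDIM (ZMod 2) X 3 hS (3 + 1) univ (U ∩ V)ᶜ (by norm_num) (subset_univ _)
      exact h d hd)
    refine ⟨(⟨c₁, h₁⟩, ⟨c₂, h₂⟩), ?_⟩
    rw [hψ]
    refine ((cls_eq _ hc).2 ?_)
    have h6 := hb.neg
    have h7 : -(c - c₁ - c₂) = c₁ + c₂ - c := by abel
    rw [h7] at h6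
    exact h6
  have hker : ∀ t, ψ t = 0 → σ t = 0 := by
    rintro ⟨⟨c₁, h₁⟩, ⟨c₂, h₂⟩⟩ ht
    rw [hψ, cls_eq_zero] at ht
    obtain ⟨e, he, hb₁, hb₂⟩ := h4 c₁ c₂ h₁ h₂ ht
    have h6 : s (c₁ - e) = 0 := hs.1 _ (h₁.sub (he.mono inter_subset_left)) hb₁
    have h7 : s' (c₂ + e) = 0 := hs'.1 _ (h₂.add (he.mono inter_subset_right)) hb₂
    have h8 : s e = s' e := hORA X hL hS hU (U ∩ V) s s' (hUo.inter hVo)
      (ORG.Orr.mono hs inter_subset_left) (ORG.Orr.mono hs' inter_subset_right) e he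
    rw [map_sub, sub_eq_zero] at h6
    rw [map_add] at h7
    rw [hσ, h6, h8, add_comm]
    exact h7
  obtain ⟨φ, hφ⟩ := ORG.factor ψ σ hsurj hker
  obtain ⟨s'', hs1, hs2⟩ := exists_total φ
  have hU'' : ∀ c, CyO 3 U c → s'' c = s c := by
    intro c hc
    have h0 : CyO 3 V (0 : Cc (ZMod 2) X) := Cyc.zero
    have h6 := hφ (⟨c, hc⟩, ⟨0, h0⟩)
    rw [hψ c 0 hc h0, hσ c 0 hc h0] at h6
    have h7 : s c + s' 0 = s c := by rw [map_zero, add_zero]
    rw [← h7, ← h6, hs2 c (hc.mono subset_union_left)]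
    congr 1
    exact (cls_eq _ _).2 (by rw [add_zero, sub_self]; exact Bd.zero)
  have hV'' : ∀ c, CyO 3 V c → s'' c = s' c := by
    intro c hc
    have h0 : CyO 3 U (0 : Cc (ZMod 2) X) := Cyc.zero
    have h6 := hφ (⟨0, h0⟩, ⟨c, hc⟩)
    rw [hψ 0 c h0 hc, hσ 0 c h0 hc] at h6
    have h7 : s 0 + s' c = s' c := by rw [map_zero, zero_add]
    rw [← h7, ← h6, hs2 c (hc.mono subset_union_right)]
    congr 1
    exact (cls_eq _ _).2 (by rw [zero_add, sub_self]; exact Bd.zero)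
  refine ⟨s'', hs1, fun W hW hWo hWn => ?_⟩
  obtain ⟨x, hx⟩ := hWn
  rcases hW hx with hxU | hxV
  · obtain ⟨c, hc, hne⟩ := hs.2 (W ∩ U) inter_subset_right (hWo.inter hUo) ⟨x, hx, hxU⟩
    exact ⟨c, hc.mono inter_subset_left, by rw [hU'' c (hc.mono inter_subset_right)]; exact hne⟩
  · obtain ⟨c, hc, hne⟩ := hs'.2 (W ∩ V) inter_subset_right (hWo.inter hVo) ⟨x, hx, hxV⟩
    exact ⟨c, hc.mono inter_subset_left, by rw [hV'' c (hc.mono inter_subset_right)]; exact hne⟩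

end BBH


end

section

/-!
# BBH, CMK: homogeneous compact ANRs of dimension three are cohomology manifolds over countable fields
-/

set_option autoImplicit false

namespace BBH

open Set Topology CTO

namespace CMKx

/-- a module generated by one element that is not zero is isomorphic to the field -/
theorem iso_of_gen {k A : Type} [Field k] [AddCommGroup A] [Module k A] (g : A)
    (hg : ∀ a : A, ∃ t : k, a = t • g) (h0 : ∃ a : A, a ≠ 0) : Nonempty (A ≃ₗ[k] k) := by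
  have hg0 : g ≠ 0 := by
    rintro rfl
    obtain ⟨a, ha⟩ := h0
    obtain ⟨t, ht⟩ := hg a
    exact ha (by rw [ht, smul_zero])
  refine ⟨(LinearEquiv.ofBijective (LinearMap.toSpanSingleton k A g) ⟨?_, ?_⟩).symm⟩
  · rw [← LinearMap.ker_eq_bot]
    exact LinearMap.ker_toSpanSingleton k hg0
  · intro a
    obtain ⟨t, ht⟩ := hg a
    exact ⟨t, by rw [LinearMap.toSpanSingleton_apply, ht]⟩

end CMKx

theorem t_CMK : M_CMK := by
  intro hLT0 hLT1 hLT2 hGNX hDIM hONE hSRJ k X _ _ _ _ hA hH h3 h2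
  have hGN : GNs X := hGNX X hA hH h3 h2
  have hSj : Sj k X := hSRJ k X hA hH h3
  have one := hONE k X hA hH h3 h2
  intro x N hN hx
  refine ⟨?_, ?_⟩
  · obtain ⟨V0, h0N, h0o, h0x, h0⟩ := hLT0 k X hGN x N hN hx
    obtain ⟨V1, h1N, h1o, h1x, h1⟩ := hLT1 k X hA hGN x N hN hx
    obtain ⟨V2, h2N, h2o, h2x, h2'⟩ := hLT2 k X hA hH hGN x N hN hx
    refine ⟨V0 ∩ V1 ∩ V2, fun y hy => h2N hy.2, (h0o.inter h1o).inter h2o,
      ⟨⟨h0x, h1x⟩, h2x⟩, ?_⟩
    intro p hp c hc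
    rcases lt_or_ge p 0 with hneg | hnn
    · exact Van.neg hneg _ _ c (hc.mono (fun y hy => h2N hy.2))
    · rcases lt_or_ge 3 p with hbig | hle
      · exact hDIM k X 3 h3 p univ Nᶜ (by exact_mod_cast hbig) (subset_univ _) c
          (hc.mono (fun y hy => h2N hy.2))
      · have hcase : p = 0 ∨ p = 1 ∨ p = 2 := by omega
        rcases hcase with rfl | rfl | rfl
        · exact h0 c (hc.mono (fun y hy => hy.1.1))
        · exact h1 c (hc.mono (fun y hy => hy.1.2))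
        · exact h2' c (hc.mono (fun y hy => hy.2))
  · obtain ⟨B, hBN, hxB, hGB, hinj⟩ := one.2 x N hN hx
    refine ⟨B, hBN, hGB.1, hxB, ?_⟩
    intro V hVB hV hVc
    refine ⟨?_, fun W h hW hWc => ⟨?_, ?_⟩⟩
    · obtain ⟨g, hg, hgen⟩ := one.1 V hV hVc
      refine CMKx.iso_of_gen (cls k g hg) ?_ ?_
      · intro a
        obtain ⟨c, hc, rfl⟩ := cls_surj a
        obtain ⟨t, ht⟩ := hgen c hc
        refine ⟨t, ?_⟩
        rw [← cls_smul]
        exact (cls_eq _ _).2 ht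
      · by_contra hcon
        push Not at hcon
        refine hGB.2.2 V hVB hV hVc.nonempty (fun c hc => ?_)
        exact (cls_eq_zero (R := k) hc).1 (hcon _)
    · rw [← LinearMap.ker_eq_bot, LinearMap.ker_eq_bot']
      intro a ha
      obtain ⟨c, hc, rfl⟩ := cls_surj a
      rw [ext_cls] at ha
      have hb := (cls_eq_zero _).1 ha
      exact (cls_eq_zero _).2 (hinj W V hVB h hW hWc hV hVc c hc hb)
    · intro a
      obtain ⟨c, hc, rfl⟩ := cls_surj a
      obtain ⟨c', hc', hb⟩ := hSj V W hV hVc hW h hWc.nonempty c hc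
      refine ⟨cls k c' hc', ?_⟩
      rw [ext_cls]
      exact ((cls_eq _ _).2 hb).symm

end BBH


end
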