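import Mathlib
import Pool.Agent.BBM.C16

/-! Parts: BBH.B_TRP, BBH.B_VA1, BBH.C_GEN, BBH.G_THK, BBH.G_RKA, BBH.G_FRS, BBH.G_CNT, BBH.H_NCT -/

section

/-!
# BBH, TRP: transport by a homeomorphism
-/

set_option autoImplicit false

namespace BBH

open Set Topology CTO

namespace TRP

variable {M X : Type} [AddCommGroup M] [MetricSpace X] [CompactSpace X]

lemma pm (h : X ≃ₜ X) (V : Set X) : PMap (h : X → X) univ (h ⁻¹' V)ᶜ univ Vᶜ :=
  PMap.of_continuous isCompact_univ h.continuous (subset_univ _) (mapsTo_univ _ _)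
    (fun _ hx => hx)

lemma pms (h : X ≃ₜ X) (V : Set X) : PMap (h.symm : X → X) univ Vᶜ univ (h ⁻¹' V)ᶜ := by
  refine PMap.of_continuous isCompact_univ h.symm.continuous (subset_univ _) (mapsTo_univ _ _)
    (fun x hx => ?_)
  intro hx'
  apply hx
  have h1 : h (h.symm x) ∈ V := hx'
  rwa [h.apply_symm_apply] at h1

omit [AddCommGroup M] [CompactSpace X] in
lemma back (h : X ≃ₜ X) (c : Cc M X) : pull h.symm (pull h c) = c := by
  rw [pull_pull]
  have h1 : (h : X → X) ∘ (h.symm : X → X) = id := by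
    funext x
    exact h.apply_symm_apply x
  rw [h1, pull_id]

end TRP

theorem t_TRP : S_TRP := by
  intro M X _ _ _ h p V c
  refine ⟨⟨fun hc => cyc_pull (TRP.pm h V) hc, fun hc => ?_⟩,
    ⟨fun hc => bd_pull (TRP.pm h V) hc, fun hc => ?_⟩⟩
  · have h1 := cyc_pull (TRP.pms h V) hc
    rwa [TRP.back] at h1
  · have h1 := bd_pull (TRP.pms h V) hc
    rwa [TRP.back] at h1

end BBH


end

section

/-!
# Compact sets with an injective continuous real function
-/

set_option autoImplicit false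

namespace BBH

open Set Topology CTO

namespace VA1

variable {M X : Type} [AddCommGroup M] [MetricSpace X]

theorem bd_local {p : ℤ} {A : Set X} (hA : IsCompact A) {f : X → ℝ} (hf : ContinuousOn f A)
    {c : Cc M X} (t : ℝ) (h : Bd p (A ∩ f ⁻¹' {t}) ∅ c) :
    ∃ r > 0, Bd p (A ∩ f ⁻¹' Icc (t - r) (t + r)) ∅ c := by
  obtain ⟨b, hb, hb', h⟩ := h
  obtain ⟨r₀, hr₀, h1⟩ := h.nhds
  have h2 : ∃ r > 0, A ∩ f ⁻¹' Icc (t - r) (t + r) ⊆ Metric.thickening r₀ (A ∩ f ⁻¹' {t}) := by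
    set C : Set X := A \ Metric.thickening r₀ (A ∩ f ⁻¹' {t}) with hC
    have hCc : IsCompact C := hA.diff Metric.isOpen_thickening
    rcases C.eq_empty_or_nonempty with hCe | hCne
    · refine ⟨1, one_pos, fun x hx => ?_⟩
      by_contra h3
      have : x ∈ C := ⟨hx.1, h3⟩
      rw [hCe] at this
      exact this
    · obtain ⟨y, hy, hmin⟩ := hCc.exists_isMinOn hCne
        (f := fun x => |f x - t|) ((hf.mono sdiff_subset).sub continuousOn_const).abs
      have hyt : 0 < |f y - t| := by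
        rw [abs_pos, sub_ne_zero]
        intro h3
        exact hy.2 (Metric.self_subset_thickening hr₀ _ ⟨hy.1, h3⟩)
      refine ⟨|f y - t| / 2, by positivity, fun x hx => ?_⟩
      by_contra h3
      have h4 : |f y - t| ≤ |f x - t| := hmin (show x ∈ C from ⟨hx.1, h3⟩)
      have h5 : |f x - t| ≤ |f y - t| / 2 := by
        obtain ⟨h6, h7⟩ := hx.2
        rw [abs_le]
        constructor <;> linarith
      linarith
  obtain ⟨r, hr, h2⟩ := h2
  exact ⟨r, hr, b, hb, hb', h1 _ h2⟩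

theorem isCompact_slice {A : Set X} (hA : IsCompact A) {f : X → ℝ} (hf : ContinuousOn f A)
    {s : Set ℝ} (hs : IsClosed s) : IsCompact (A ∩ f ⁻¹' s) :=
  hA.of_isClosed_subset (hf.preimage_isClosed_of_isClosed hA.isClosed hs) inter_subset_left

omit [MetricSpace X] in
theorem dd_const (m : M) : dd (c0 fun _ : X => m) = 0 := by
  funext l
  rcases l with _ | ⟨x, _ | ⟨y, _ | ⟨z, l⟩⟩⟩
  · simp
  · simp
  · simp
  · by_contra h
    have h1 := ((Dg.c0 fun _ : X => m).dd _ h).2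
    simp only [List.length_cons] at h1
    push_cast at h1
    omega

/-- gluing along a point or the empty set -/
theorem glue (hP : S_PNT) (hM : S_MVC) {p : ℤ} (hp : 1 ≤ p) {A B : Set X} (hA : IsCompact A)
    (hB : IsClosed B) (hs : (A ∩ B).Subsingleton) {c : Cc M X} (h1 : Bd p A ∅ c)
    (h2 : Bd p B ∅ c) : Bd p (A ∪ B) ∅ c := by
  obtain ⟨e, he, key⟩ := hM M X p A B c hA hB h1 h2
  rcases hs.eq_empty_or_singleton with h | ⟨x, h⟩
  · refine key 0 0 Cyc.zero Cyc.zero ?_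
    rw [h, sub_zero, sub_zero]
    exact Bd.of_Zr (Zr.empty he.deg)
  · rw [h] at he key
    rcases hp.eq_or_lt with hp1 | hp1
    · have h0 : p - 1 = 0 := by omega
      rw [h0] at he key
      have hc : ∀ D : Set X, Cyc 0 D ∅ (c0 fun _ : X => e [x]) := fun D =>
        ⟨Dg.c0 _, Zr.empty (Dg.c0 _), by rw [dd_const]; exact Zr.zero _⟩
      refine key (c0 fun _ => e [x]) 0 (hc A) Cyc.zero ?_
      rw [sub_zero]
      exact Bd.of_Zr ((hP M X x).2 e he)
    · refine key 0 0 Cyc.zero Cyc.zero ?_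
      rw [sub_zero, sub_zero]
      exact (hP M X x).1 (p - 1) (by omega) e he

end VA1

open VA1 in
theorem t_VA1 : M_VA1 := by
  intro hP hM M X _ _ A f hA hf hinj p hp c hc
  have hsl : ∀ t, (A ∩ f ⁻¹' {t}).Subsingleton := by
    intro t x hx y hy
    have e1 : f x = t := hx.2
    have e2 : f y = t := hy.2
    exact hinj hx.1 hy.1 (e1.trans e2.symm)
  have h1 : ∀ t, Bd p (A ∩ f ⁻¹' {t}) ∅ c := by
    intro t
    rcases (hsl t).eq_empty_or_singleton with h | ⟨x, h⟩
    · rw [h]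
      exact Bd.of_Zr (Zr.empty hc.deg)
    · have hx : {x} ⊆ A := by
        rw [← h]
        exact inter_subset_left
      rw [h]
      exact (hP M X x).1 p hp c (hc.mono hx Subset.rfl)
  choose r hr hbd using fun t => bd_local hA hf t (h1 t)
  obtain ⟨R, hR⟩ := (hA.image_of_continuousOn hf).isBounded.subset_closedBall 0
  set a : ℝ := -(|R| + 1) with ha
  set b : ℝ := |R| + 1 with hb
  have hab : a < b := by
    have := abs_nonneg R
    rw [ha, hb]
    linarith
  have himg : ∀ x ∈ A, f x ∈ Icc a b := by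
    intro x hx
    have h3 := hR (mem_image_of_mem f hx)
    rw [mem_closedBall_zero_iff, Real.norm_eq_abs] at h3
    have h4 := le_abs_self R
    have h5 := abs_le.1 (h3.trans h4)
    exact ⟨by rw [ha]; linarith [h5.1], by rw [hb]; linarith [h5.2]⟩
  obtain ⟨δ, hδ, hleb⟩ := lebesgue_number_lemma_of_metric (isCompact_Icc (a := a) (b := b))
    (c := fun t : ℝ => Ioo (t - r t) (t + r t)) (fun t => isOpen_Ioo)
    (fun t _ => mem_iUnion.2 ⟨t, by constructor <;> linarith [hr t]⟩)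
  obtain ⟨N, hN⟩ := exists_nat_gt ((b - a) / δ)
  have hN0 : (0 : ℝ) < N := lt_trans (div_pos (by linarith) hδ) hN
  set s : ℕ → ℝ := fun i => a + i * ((b - a) / N) with hs
  have hstep : (b - a) / N < δ := by
    rw [div_lt_iff₀ hN0]
    rw [div_lt_iff₀ hδ] at hN
    linarith
  have hstep0 : 0 < (b - a) / N := div_pos (by linarith) hN0
  have hs0 : s 0 = a := by simp [hs]
  have hsN : s N = b := by
    simp only [hs]
    field_simp
    ring
  have hsucc : ∀ i, s (i + 1) = s i + (b - a) / N := by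
    intro i
    simp only [hs]
    push_cast
    ring
  have hsmono : ∀ i, a ≤ s i := by
    intro i
    simp only [hs]
    have : 0 ≤ (i : ℝ) * ((b - a) / N) := by positivity
    linarith
  have hsle : ∀ i, i ≤ N → s i ≤ b := by
    intro i hi
    rw [← hsN]
    simp only [hs]
    have : (i : ℝ) ≤ N := by exact_mod_cast hi
    have := mul_le_mul_of_nonneg_right this hstep0.le
    linarith
  have key : ∀ i, i ≤ N → Bd p (A ∩ f ⁻¹' Icc a (s i)) ∅ c := by
    intro i
    induction i with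
    | zero =>
      intro _
      rw [hs0, Icc_self]
      exact h1 a
    | succ i ih =>
      intro hi
      have h3 := ih (by omega)
      have hsi : s i ∈ Icc a b := ⟨hsmono i, hsle i (by omega)⟩
      obtain ⟨t, ht⟩ := hleb (s i) hsi
      have h4 : Bd p (A ∩ f ⁻¹' Icc (s i) (s (i + 1))) ∅ c := by
        refine (hbd t).mono (inter_subset_inter_right _ (preimage_mono ?_)) Subset.rfl
        intro y hy
        have h5 : y ∈ Metric.ball (s i) δ := by
          rw [Metric.mem_ball, Real.dist_eq, abs_of_nonneg (by linarith [hy.1])]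
          have := hy.2
          rw [hsucc] at this
          linarith
        exact Ioo_subset_Icc_self (ht h5)
      have h5 : (A ∩ f ⁻¹' Icc a (s i)) ∩ (A ∩ f ⁻¹' Icc (s i) (s (i + 1))) ⊆
          A ∩ f ⁻¹' {s i} := by
        rintro x ⟨⟨h6, -, h7⟩, -, h8, -⟩
        exact ⟨h6, le_antisymm h7 h8⟩
      have h6 : (A ∩ f ⁻¹' Icc a (s i)) ∪ (A ∩ f ⁻¹' Icc (s i) (s (i + 1))) =
          A ∩ f ⁻¹' Icc a (s (i + 1)) := by
        rw [← inter_union_distrib_left, ← preimage_union,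
          Icc_union_Icc_eq_Icc (hsmono i) (by rw [hsucc]; linarith)]
      rw [← h6]
      exact glue hP hM hp (isCompact_slice hA hf isClosed_Icc)
        (isCompact_slice hA hf isClosed_Icc).isClosed ((hsl (s i)).anti h5) h3 h4
  have h7 := key N le_rfl
  have h8 : A ∩ f ⁻¹' Icc a (s N) = A := by
    rw [hsN]
    exact inter_eq_left.2 himg
  rwa [h8] at h7

end BBH


end

section

/-!
# Module GEN: in the top degree the cohomology with compact supports is generated by small sets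
-/

set_option autoImplicit false

namespace BBH

open Set Topology CTO

namespace GEN

variable {M X : Type} [AddCommGroup M] [MetricSpace X]

/-- finite unions of small sets -/
theorem finite_union (hD : S_DIM) (hM : S_MVO) [CompactSpace X] {n : ℕ} (hX : ShrLE X n)
    {V : Set X} {Q : Cc M X → Prop} (hadd : ∀ a b, Q a → Q b → Q (a + b))
    (hbd : ∀ c, CyO n V c → BdO n V c → Q c) (W : X → Set X) :
    ∀ t : Finset X, (∀ y ∈ t, W y ⊆ V ∧ IsOpen (W y) ∧ ∀ c : Cc M X, CyO n (W y) c → Q c) →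
      ∀ c : Cc M X, CyO n (⋃ y ∈ t, W y) c → Q c := by
  classical
  intro t
  induction t using Finset.induction_on with
  | empty =>
    intro _ c hc
    have h0 : (⋃ y ∈ (∅ : Finset X), W y) = ∅ := by simp
    rw [h0] at hc
    have hz : Zr univ c := by
      have h1 := hc.rel
      rwa [compl_empty] at h1
    exact hbd c (CyO.mono hc (empty_subset V)) (Bd.of_Zr hz)
  | insert a t ha ih =>
    intro h c hc
    have e : (⋃ y ∈ insert a t, W y) = W a ∪ ⋃ y ∈ t, W y := by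
      rw [Finset.set_biUnion_insert]
    rw [e] at hc
    obtain ⟨haV, hao, haQ⟩ := h a (Finset.mem_insert_self a t)
    have ht : ∀ y ∈ t, W y ⊆ V ∧ IsOpen (W y) ∧ ∀ c : Cc M X, CyO n (W y) c → Q c :=
      fun y hy => h y (Finset.mem_insert_of_mem hy)
    have hto : IsOpen (⋃ y ∈ t, W y) := isOpen_biUnion fun y hy => (ht y hy).2.1
    have htV : (⋃ y ∈ t, W y) ⊆ V := iUnion₂_subset fun y hy => (ht y hy).1
    obtain ⟨c₁, c₂, h1, h2, h3⟩ := (hM M X n (W a) (⋃ y ∈ t, W y) hao hto).2.2.2.2 c hc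
      (fun d hd => hD M X n hX ((n : ℤ) + 1) univ _ (lt_add_one _) (subset_univ _) d hd)
    have huV : W a ∪ (⋃ y ∈ t, W y) ⊆ V := union_subset haV htV
    have hr : Q (c - c₁ - c₂) := by
      refine hbd _ ?_ (BdO.mono h3 huV)
      exact Cyc.sub (Cyc.sub (CyO.mono hc huV) (CyO.mono h1 haV)) (CyO.mono h2 htV)
    have h4 := hadd _ _ (hadd _ _ hr (ih ht c₂ h2)) (haQ c₁ h1)
    have e2 : c - c₁ - c₂ + c₂ + c₁ = c := by abel
    rwa [e2] at h4

end GEN

theorem t_GEN : M_GEN := by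
  intro hD hM hN M X _ _ _ n hX V Q hV hadd hbd hloc c hc
  obtain ⟨W', hW'o, hW'V, hW'c⟩ := (hN M X c).1 V hV hc.rel
  choose! W hW using hloc
  have hcp : IsCompact (closure W') := isClosed_closure.isCompact
  obtain ⟨t, htV, ht⟩ := hcp.elim_nhds_subcover W
    (fun y hy => (hW y (hW'V hy)).2.1.mem_nhds (hW y (hW'V hy)).2.2.1)
  refine GEN.finite_union hD hM hX hadd hbd W t
    (fun y hy => ?_) c ?_
  · obtain ⟨h1, h2, -, h4⟩ := hW y (hW'V (htV y hy))
    exact ⟨h1, h2, h4⟩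
  · have h1 : CyO n W' c := ⟨hc.deg, hW'c, hc.cyc⟩
    exact CyO.mono h1 (subset_closure.trans ht)

end BBH


end

section

/-!
# THK: thickenings
-/

set_option autoImplicit false

namespace BBH

open Set Topology

theorem t_THK : S_THK := by
  refine ⟨?_, ?_⟩
  · intro X _ Ap Ga O Vx Vy x y hAp hGa hint hO hsub hVx hx hVy hy
    have hV : IsOpen (Vx ∪ Vy) := hVx.union hVy
    have h1 : IsCompact (Ap \ (Vx ∪ Vy)) := hAp.diff hV
    have hdis : Disjoint (Ap \ (Vx ∪ Vy)) Ga := by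
      rw [Set.disjoint_left]
      rintro z ⟨hz1, hz2⟩ hz3
      have h2 : z ∈ ({x, y} : Set X) := hint ▸ ⟨hz1, hz3⟩
      rcases h2 with rfl | h2
      · exact hz2 (Or.inl hx)
      · rw [Set.mem_singleton_iff] at h2
        subst h2
        exact hz2 (Or.inr hy)
    obtain ⟨P₁, P₂, o1, o2, s1, s2, hd⟩ := SeparatedNhds.of_isCompact_isCompact h1 hGa hdis
    refine ⟨(P₁ ∪ (Vx ∪ Vy)) ∩ O, P₂ ∩ O, (o1.union hV).inter hO, o2.inter hO, ?_, ?_,
      Set.inter_subset_right, Set.inter_subset_right, ?_⟩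
    · intro z hz
      refine ⟨?_, hsub (Or.inl hz)⟩
      by_cases h : z ∈ Vx ∪ Vy
      · exact Or.inr h
      · exact Or.inl (s1 ⟨hz, h⟩)
    · intro z hz
      exact ⟨s2 hz, hsub (Or.inr hz)⟩
    · rintro z ⟨⟨h1 | h1, _⟩, h3, _⟩
      · exact absurd h3 (Set.disjoint_left.1 hd h1)
      · exact h1
  · intro X _ hX C U hU hC hCU
    obtain ⟨c, hc⟩ := hC.nonempty
    have hcU : c ∈ U := hCU hc
    exact ⟨connectedComponentIn U c, connectedComponentIn_subset U c, hU.connectedComponentIn,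
      isConnected_connectedComponentIn_iff.2 hcU, hC.isPreconnected.subset_connectedComponentIn hc hCU⟩

end BBH


end

section

/-!
# Module RKA: a restriction of rank at most one
-/

set_option autoImplicit false

namespace BBH

open Set Topology CTO

namespace RKA

theorem dd_const {M X : Type} [AddCommGroup M] (m : M) :
    dd (c0 (fun _ : X => m)) = (0 : Cc M X) := by
  funext l
  by_contra h
  have h1 := dd_len (c := c0 (fun _ : X => m)) (m := 1) (fun l hl => by
    have := (Dg.c0 (fun _ : X => m) l hl).2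
    omega) l h
  match l, h, h1 with
  | [], h, _ => exact h (dd_nil _)
  | [x], h, h1 => simp at h1
  | [x, y], h, _ =>
    apply h
    rw [dd_c0_two, sub_self]
    rfl
  | x :: y :: z :: l, _, h1 =>
    simp only [List.length_cons, Nat.cast_add, Nat.cast_one] at h1
    omega

/-- an element of degree zero with small coboundary near a point and value zero there vanishes near the point -/
theorem zr_pt (hPNT : S_PNT) {M X : Type} [AddCommGroup M] [MetricSpace X] {e : Cc M X}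
    (hd : Dg X 0 e) {A : Set X} (hA : Zr A (dd e)) {x : X} (hx : x ∈ A) (h0 : e [x] = 0) :
    Zr {x} e := by
  have h1 : Cyc 0 {x} ∅ e := ⟨hd, Zr.empty hd, hA.anti (singleton_subset_iff.2 hx)⟩
  have h2 := (hPNT M X x).2 e h1
  have h3 : e - c0 (fun _ => e [x]) = e := by
    rw [h0]
    have h4 : (c0 (fun _ : X => (0 : M)) : Cc M X) = 0 := by
      funext l
      rcases l with _ | ⟨y, _ | ⟨z, l⟩⟩ <;> simp
    rw [h4, sub_zero]
  rwa [h3] at h2

theorem glue (hPNT : S_PNT) {M X : Type} [AddCommGroup M] [MetricSpace X] {D La : Set X}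
    {P Q : X} (hD : IsCompact D) (hLa : IsClosed La) (hI : D ∩ La = {P, Q}) {g b₁ b₂ : Cc M X}
    (h1 : Dg X 0 b₁) (h2 : Dg X 0 b₂) (hz1 : Zr D (g - dd b₁)) (hz2 : Zr La (g - dd b₂))
    (hPQ : (b₁ - b₂) [P] = (b₁ - b₂) [Q]) : Bd 1 (D ∪ La) ∅ g := by
  set m : M := (b₁ - b₂) [P] with hm
  set b₃ : Cc M X := b₂ + c0 (fun _ => m) with hb₃
  have h3 : Dg X 0 b₃ := h2.add (Dg.c0 _)
  have hdd : dd b₃ = dd b₂ := by rw [hb₃, dd_add, dd_const, add_zero]
  have hz3 : Zr La (g - dd b₃) := by rw [hdd]; exact hz2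
  have he : Dg X 0 (b₁ - b₃) := h1.sub h3
  have heP : (b₁ - b₃) [P] = 0 := by
    have h : (b₁ - b₃) [P] = (b₁ - b₂) [P] - m := by
      rw [hb₃]
      simp only [Pi.sub_apply, Pi.add_apply, c0_single]
      abel
    rw [h, ← hm, sub_self]
  have heQ : (b₁ - b₃) [Q] = 0 := by
    have h : (b₁ - b₃) [Q] = (b₁ - b₂) [Q] - m := by
      rw [hb₃]
      simp only [Pi.sub_apply, Pi.add_apply, c0_single]
      abel
    rw [h, ← hPQ, sub_self]
  have hdz : Zr (D ∩ La) (dd (b₁ - b₃)) := by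
    have h : dd (b₁ - b₃) = (g - dd b₃) - (g - dd b₁) := by
      rw [dd_sub]
      abel
    rw [h]
    exact (hz3.anti inter_subset_right).sub (hz1.anti inter_subset_left)
  have hP : P ∈ D ∩ La := by rw [hI]; simp
  have hQ : Q ∈ D ∩ La := by rw [hI]; simp
  have hzP := zr_pt hPNT he hdz hP heP
  have hzQ := zr_pt hPNT he hdz hQ heQ
  have hz : Zr (D ∩ La) (b₁ - b₃) := by
    rw [hI, insert_eq]
    exact hzP.union hzQ
  obtain ⟨K, hK1, hK2⟩ := hz.inter hD hLa
  have hsum := ind_add_compl K (b₁ - b₃)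
  refine ⟨b₁ - ind K (b₁ - b₃), ?_, ?_, ?_⟩
  · have h0 : (1 : ℤ) - 1 = 0 := by norm_num
    rw [h0]
    exact h1.sub he.ind
  · exact Zr.empty (h1.sub he.ind)
  · refine Zr.union ?_ ?_
    · have h : g - dd (b₁ - ind K (b₁ - b₃)) = (g - dd b₁) + dd (ind K (b₁ - b₃)) := by
        rw [dd_sub]
        abel
      rw [h]
      exact hz1.add hK1.dd
    · have h4 : b₁ - ind K (b₁ - b₃) = b₃ + ind Kᶜ (b₁ - b₃) := by
        rw [ind_compl]
        abel
      have h : g - dd (b₁ - ind K (b₁ - b₃)) = (g - dd b₃) - dd (ind Kᶜ (b₁ - b₃)) := by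
        rw [h4, dd_add]
        abel
      rw [h]
      exact hz3.sub hK2.dd

end RKA

theorem t_RKA : M_RKA := by
  intro hPNT hARC k X _ _ Dp D₀ La P Q hD hDp hArc hI hres
  have hLa : IsClosed La := by
    obtain ⟨α, hα, _, _, _, rfl⟩ := hArc
    exact (isCompact_Icc.image_of_continuousOn hα).isClosed
  have key : ∀ g : Cc k X, Cyc 1 (Dp ∪ La) ∅ g → ∃ b₁ b₂ : Cc k X, Dg X 0 b₁ ∧ Dg X 0 b₂ ∧
      Zr D₀ (g - dd b₁) ∧ Zr La (g - dd b₂) := by
    intro g hg
    obtain ⟨b₁, h1, _, h3⟩ := hres g (hg.mono subset_union_left subset_rfl)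
    obtain ⟨b₂, h4, _, h6⟩ := hARC.1 k X La La P Q hArc hLa subset_rfl 1 le_rfl g
      (hg.mono subset_union_right subset_rfl)
    have h0 : (1 : ℤ) - 1 = 0 := by norm_num
    rw [h0] at h1 h4
    exact ⟨b₁, b₂, h1, h4, h3, h6⟩
  by_cases hall : ∀ g b₁ b₂ : Cc k X, Cyc 1 (Dp ∪ La) ∅ g → Dg X 0 b₁ → Dg X 0 b₂ →
      Zr D₀ (g - dd b₁) → Zr La (g - dd b₂) → (b₁ - b₂) [P] = (b₁ - b₂) [Q]
  · refine ⟨0, fun g hg => ⟨0, ?_⟩⟩
    obtain ⟨b₁, b₂, h1, h2, h3, h4⟩ := key g hg
    rw [smul_zero, sub_zero]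
    exact RKA.glue hPNT hD hLa hI h1 h2 h3 h4 (hall g b₁ b₂ hg h1 h2 h3 h4)
  · push Not at hall
    obtain ⟨g1, c₁, c₂, hg1, hc1, hc2, hz1, hz2, hne⟩ := hall
    refine ⟨g1, fun g hg => ?_⟩
    obtain ⟨b₁, b₂, h1, h2, h3, h4⟩ := key g hg
    set φ' : k := (c₁ - c₂) [P] - (c₁ - c₂) [Q] with hφ'
    have hφ'0 : φ' ≠ 0 := sub_ne_zero.2 hne
    set φ : k := (b₁ - b₂) [P] - (b₁ - b₂) [Q] with hφ
    refine ⟨φ / φ', ?_⟩
    refine RKA.glue hPNT hD hLa hI (b₁ := b₁ - (φ / φ') • c₁) (b₂ := b₂ - (φ / φ') • c₂)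
      (h1.sub (hc1.smul _)) (h2.sub (hc2.smul _)) ?_ ?_ ?_
    · have h : g - (φ / φ') • g1 - dd (b₁ - (φ / φ') • c₁) =
          (g - dd b₁) - (φ / φ') • (g1 - dd c₁) := by
        rw [dd_sub, dd_smul, smul_sub]
        abel
      rw [h]
      exact h3.sub (hz1.smul _)
    · have h : g - (φ / φ') • g1 - dd (b₂ - (φ / φ') • c₂) =
          (g - dd b₂) - (φ / φ') • (g1 - dd c₂) := by
        rw [dd_sub, dd_smul, smul_sub]
        abel
      rw [h]
      exact h4.sub (hz2.smul _)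
    · rw [← sub_eq_zero]
      have h : (b₁ - (φ / φ') • c₁ - (b₂ - (φ / φ') • c₂)) [P] -
          (b₁ - (φ / φ') • c₁ - (b₂ - (φ / φ') • c₂)) [Q] = φ - (φ / φ') * φ' := by
        rw [hφ, hφ']
        simp only [Pi.sub_apply, Pi.smul_apply, smul_eq_mul]
        ring
      rw [h, div_mul_cancel₀ _ hφ'0, sub_self]

end BBH


end

section

/-!
# FRS: the dimension of the top cohomology with compact supports decreases with the open set
-/

set_option autoImplicit false

namespace BBH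

open Set Topology CTO

theorem t_FRS : M_FRS := by
  intro hFDV k X _ _ _ hX hSj V W hV hVc hW hWc hWV
  have hfin : Module.Finite k (HO k k 3 W) := hFDV k X hX hSj W hW hWc
  have hsurj : Function.Surjective (ext k k (p := 3) hWV) := by
    intro a
    obtain ⟨c, hc, rfl⟩ := cls_surj a
    obtain ⟨c', hc', hb⟩ := hSj V W hV hVc hW hWV hWc.nonempty c hc
    refine ⟨cls k c' hc', ?_⟩
    have h1 : cls k c hc = cls k c' (CyO.mono hc' hWV) :=
      (cls_eq (R := k) hc (CyO.mono hc' hWV)).2 hb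
    exact h1.symm
  exact LinearMap.finrank_le_finrank_of_surjective hsurj

end BBH


end

section

/-!
# CNT: the count
-/

set_option autoImplicit false

namespace BBH

open Set Topology CTO

namespace CNT

lemma ext_surj {k X : Type} [Field k] [MetricSpace X] (hSj : Sj k X) {V W : Set X}
    (hV : IsOpen V) (hVc : IsConnected V) (hW : IsOpen W) (hWV : W ⊆ V) (hWn : W.Nonempty) :
    Function.Surjective (ext k k (p := 3) hWV) := by
  intro a
  obtain ⟨c, hc, rfl⟩ := cls_surj a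
  obtain ⟨c', hc', hb⟩ := hSj V W hV hVc hW hWV hWn c hc
  refine ⟨cls k c' hc', ?_⟩
  have h1 : cls k c hc = cls k c' (CyO.mono hc' hWV) :=
    (cls_eq (R := k) hc (CyO.mono hc' hWV)).2 hb
  exact h1.symm

end CNT

theorem t_CNT : M_CNT := by
  intro hLNL hFDV hMVO k X _ _ _ hX hSj B Na Ng Vx Vy hB hBc hNa hNac hNg hNgc hVx hVxc hVy hNaB
    hNgB hint hdis hneX hneY hrk h2
  have fN : Module.Finite k (HO k k 3 Na) := hFDV k X hX hSj Na hNa hNac
  have fV : Module.Finite k (HO k k 3 Vx) := hFDV k X hX hSj Vx hVx hVxc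
  have hWxo : IsOpen (Na ∩ Ng ∩ Vx) := (hNa.inter hNg).inter hVx
  have hWyo : IsOpen (Na ∩ Ng ∩ Vy) := (hNa.inter hNg).inter hVy
  have hxV : Na ∩ Ng ∩ Vx ⊆ Vx := inter_subset_right
  have hyV : Na ∩ Ng ∩ Vy ⊆ Vy := inter_subset_right
  have hxI : Na ∩ Ng ∩ Vx ⊆ Na ∩ Ng := inter_subset_left
  have hyI : Na ∩ Ng ∩ Vy ⊆ Na ∩ Ng := inter_subset_left
  have hxa : Na ∩ Ng ∩ Vx ⊆ Na := hxI.trans inter_subset_left
  have hya : Na ∩ Ng ∩ Vy ⊆ Na := hyI.trans inter_subset_left
  have hxg : Na ∩ Ng ∩ Vx ⊆ Ng := hxI.trans inter_subset_right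
  have hyg : Na ∩ Ng ∩ Vy ⊆ Ng := hyI.trans inter_subset_right
  let iG : (HO k k 3 (Na ∩ Ng ∩ Vx) × HO k k 3 (Na ∩ Ng ∩ Vy)) →ₗ[k] HO k k 3 Ng :=
    LinearMap.coprod (ext k k hxg) (ext k k hyg)
  let iA : (HO k k 3 (Na ∩ Ng ∩ Vx) × HO k k 3 (Na ∩ Ng ∩ Vy)) →ₗ[k] HO k k 3 Na :=
    LinearMap.coprod (ext k k hxa) (ext k k hya)
  let Z := LinearMap.ker iG
  let π : Z →ₗ[k] HO k k 3 Vx := (ext k k hxV).comp ((LinearMap.fst k _ _).comp Z.subtype)
  let f : Z →ₗ[k] HO k k 3 Na := iA.comp Z.subtype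
  let g : HO k k 3 Na →ₗ[k] HO k k 3 B := ext k k hNaB
  have hπ : Function.Surjective π := by
    intro w
    obtain ⟨u, hu⟩ := CNT.ext_surj hSj hVx hVxc hWxo hxV hneX w
    obtain ⟨v, hv⟩ := CNT.ext_surj hSj hNg hNgc hWyo hyg hneY (-(ext k k hxg u))
    refine ⟨⟨(u, v), ?_⟩, hu⟩
    show iG (u, v) = 0
    simp only [iG, LinearMap.coprod_apply]
    rw [hv, add_neg_cancel]
  have hg : Function.Surjective g :=
    CNT.ext_surj hSj hB hBc hNa hNaB hNac.nonempty
  have hgf : ∀ z, g (f z) = 0 := by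
    rintro ⟨⟨u, v⟩, hz⟩
    have hz' : ext k k hxg u + ext k k hyg v = 0 := hz
    show ext k k hNaB (ext k k hxa u + ext k k hya v) = 0
    rw [map_add, ext_ext, ext_ext]
    have h3 : ext k k hNgB (ext k k hxg u + ext k k hyg v) = 0 := by rw [hz', map_zero]
    rw [map_add, ext_ext, ext_ext] at h3
    exact h3
  obtain ⟨z₁, z₂, hf1, hf2, hind⟩ := hLNL k Z (HO k k 3 Na) (HO k k 3 Vx) (HO k k 3 B) π f g hπ hg
    hgf hrk h2
  -- representatives
  have key : ∀ z : Z, f z = 0 → ∃ (cu cv : Cc k X) (hu : CyO 3 (Na ∩ Ng ∩ Vx) cu)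
      (_ : CyO 3 (Na ∩ Ng ∩ Vy) cv), BdO 3 Na (cu + cv) ∧ BdO 3 Ng (cu + cv) ∧
      π z = cls k cu (CyO.mono hu hxV) := by
    rintro ⟨⟨u, v⟩, hz⟩ hfz
    obtain ⟨cu, hu, rfl⟩ := cls_surj u
    obtain ⟨cv, hv, rfl⟩ := cls_surj v
    refine ⟨cu, cv, hu, hv, ?_, ?_, rfl⟩
    · exact (cls_eq_zero (R := k) ((CyO.mono hu hxa).add (CyO.mono hv hya))).1 hfz
    · exact (cls_eq_zero (R := k) ((CyO.mono hu hxg).add (CyO.mono hv hyg))).1 hz
  obtain ⟨u1, v1, hu1, hv1, ha1, hg1, e1⟩ := key z₁ hf1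
  obtain ⟨u2, v2, hu2, hv2, ha2, hg2, e2⟩ := key z₂ hf2
  refine ⟨u1 + v1, u2 + v2, (CyO.mono hu1 hxI).add (CyO.mono hv1 hyI),
    (CyO.mono hu2 hxI).add (CyO.mono hv2 hyI), ha1, ha2, hg1, hg2, fun a b hab => ?_⟩
  apply hind a b
  have hc1 : CyO 3 Vx (a • u1 + b • u2) :=
    (Cyc.smul a (CyO.mono hu1 hxV)).add (Cyc.smul b (CyO.mono hu2 hxV))
  have hc2 : CyO 3 Vy (a • v1 + b • v2) :=
    (Cyc.smul a (CyO.mono hv1 hyV)).add (Cyc.smul b (CyO.mono hv2 hyV))
  have hsum : (a • u1 + b • u2) + (a • v1 + b • v2) = a • (u1 + v1) + b • (u2 + v2) := by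
    rw [smul_add, smul_add]
    abel
  obtain ⟨e, he, hb1, -⟩ := (hMVO k X 3 Vx Vy hVx hVy).2.2.2.1 (a • u1 + b • u2) (a • v1 + b • v2)
    hc1 hc2 (by rw [hsum]; exact hab)
  have hez : Zr univ e := by
    have h4 := he.rel
    rw [hdis, compl_empty] at h4
    exact h4
  have hb : BdO 3 Vx (a • u1 + b • u2) := Bd.of_sub hb1 (Bd.of_Zr hez)
  rw [e1, e2]
  exact (cls_eq_zero (R := k) hc1).2 hb

end BBH


end

section

/-!
# BBH, module NCT: no top-dimensional cohomology in contractible spaces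
-/

set_option autoImplicit false

namespace BBH

open Set Topology CTO

namespace NCT

/-- A contractible space contracts in itself in the sense of `Ctr`. -/
theorem ctr_univ (X : Type) [TopologicalSpace X] [ContractibleSpace X] :
    Ctr (univ : Set X) univ := by
  obtain ⟨w, ⟨H⟩⟩ := id_nullhomotopic X
  refine ⟨w, fun q => H (projIcc (0 : ℝ) 1 zero_le_one q.2, q.1), mem_univ _, ?_,
    fun _ _ => mem_univ _, ?_, ?_⟩
  · apply Continuous.continuousOn
    exact H.continuous.comp ((continuous_projIcc.comp continuous_snd).prodMk continuous_fst)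
  · intro x _
    have h0 : projIcc (0 : ℝ) 1 zero_le_one 0 = (0 : unitInterval) := by
      simp [projIcc_left]
    show H (projIcc (0 : ℝ) 1 zero_le_one 0, x) = x
    rw [h0, H.apply_zero]
    rfl
  · intro x _
    have h1 : projIcc (0 : ℝ) 1 zero_le_one 1 = (1 : unitInterval) := by
      simp [projIcc_right]
    show H (projIcc (0 : ℝ) 1 zero_le_one 1, x) = w
    rw [h1, H.apply_one]
    rfl

end NCT

theorem t_NCT : M_NCT := by
  intro hCTR M X _ _ _ hV hX
  apply hV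
  intro c hc
  have h1 : Cyc 3 univ ∅ c := by
    have h := hc
    unfold CyO at h
    rwa [compl_univ] at h
  have h2 := hCTR M X univ univ isCompact_univ (Subset.refl _) (NCT.ctr_univ X) 3 (by norm_num)
    c h1
  unfold BdO
  rwa [compl_univ]

end BBH


end
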