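import Mathlib
import Pool.Agent.BBM.C16

/-! Parts: BBH.B_CON, BBH.B_MVO, BBH.B_NBH, BBH.C_EXJ, BBH.C_GNB, BBH.D_ZNZ, BBH.D_GNX, BBH.E_LT1, BBH.F_KA, BBH.F_KC, BBH.F_KF, BBH.H_DVU, BBH.H_FSL, BBH.H_TOR, BBH.H_HZ3, BBH.H_CLA -/

section

/-!
# Module CON: cocycles of degree zero near a connected set are constant
-/

set_option autoImplicit false

namespace BBH

open Set Filter Topology

theorem t_CON : S_CON := by
  intro M X _ _ A hA c hc
  obtain ⟨ε, hε, hcyc⟩ := hc.cyc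
  have hloc : ∀ x y : X, x ∈ Metric.thickening ε A → y ∈ Metric.thickening ε A → dist x y < ε →
      c [x] = c [y] := by
    intro x y hx hy hxy
    have h1 : dd c [x, y] = 0 := by
      apply hcyc
      constructor
      · intro z hz
        simp only [List.mem_cons, List.not_mem_nil, or_false] at hz
        rcases hz with rfl | rfl
        · exact hx
        · exact hy
      · intro z hz w hw
        simp only [List.mem_cons, List.not_mem_nil, or_false] at hz hw
        rcases hz with rfl | rfl <;> rcases hw with rfl | rfl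
        · rw [dist_self]
          exact hε
        · exact hxy
        · rw [dist_comm]
          exact hxy
        · rw [dist_self]
          exact hε
    rw [hc.deg.eq_c0, dd_c0_two] at h1
    exact (sub_eq_zero.mp h1).symm
  rcases A.eq_empty_or_nonempty with rfl | ⟨a, ha⟩
  · exact ⟨0, Zr.empty (hc.deg.sub (Dg.c0 _))⟩
  · have hself : ∀ x ∈ A, x ∈ Metric.thickening ε A := fun x hx =>
      Metric.self_subset_thickening hε A hx
    have hconst : ∀ x ∈ A, c [a] = c [x] := by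
      intro x hx
      have h2 := hA.induction₂ (fun x y => c [x] = c [y]) (fun z hz => by
        have h3 : Metric.ball z ε ∈ 𝓝[A] z := mem_nhdsWithin_of_mem_nhds (Metric.ball_mem_nhds z hε)
        filter_upwards [h3, self_mem_nhdsWithin] with y hy hyA
        refine hloc z y (hself z hz) (hself y hyA) ?_
        rw [dist_comm]
        exact hy) (fun x y z _ _ _ h h' => h.trans h') (fun x y _ _ h => h.symm) ha hx
      exact h2
    refine ⟨c [a], ε, hε, fun l hl => ?_⟩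
    rw [Pi.sub_apply]
    rcases l with _ | ⟨x, _ | ⟨y, l⟩⟩
    · rw [hc.deg.nil, c0_nil, sub_zero]
    · have hx := hl.1 x (by simp)
      obtain ⟨z, hz, hxz⟩ := Metric.mem_thickening_iff.1 hx
      rw [c0_single, hloc x z hx (hself z hz) hxz, hconst z hz, sub_self]
    · rw [hc.deg.eq_c0, c0_two, c0_two, sub_self]

end BBH


end

section

/-!
# BBH: Mayer-Vietoris for open sets (S_MVO)
-/

set_option autoImplicit false

namespace BBH

open Set Topology

namespace MVO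

variable {M X : Type} [AddCommGroup M] [MetricSpace X] [CompactSpace X]

/-- splitting of a cochain with support in a union -/
theorem split {p : ℤ} {U V : Set X} (hU : IsOpen U) (hV : IsOpen V) {c : Cc M X}
    (hd : Dg X p c) (hc : Zr (U ∪ V)ᶜ c) :
    ∃ c₁ c₂ : Cc M X, Dg X p c₁ ∧ Dg X p c₂ ∧ Zr Uᶜ c₁ ∧ Zr Vᶜ c₂ ∧ c = c₁ + c₂ := by
  rw [compl_union] at hc
  obtain ⟨K, h1, h2⟩ := Zr.inter hU.isClosed_compl.isCompact hV.isClosed_compl hc
  exact ⟨ind K c, ind Kᶜ c, hd.ind, hd.ind, h1, h2, (ind_add_compl K c).symm⟩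

theorem union {U V : Set X} {c : Cc M X} (h1 : Zr Uᶜ c) (h2 : Zr Vᶜ c) : Zr (U ∩ V)ᶜ c := by
  rw [compl_inter]
  exact h1.union h2

theorem one {p : ℤ} {U V : Set X} (hU : IsOpen U) (hV : IsOpen V) {c : Cc M X}
    (hc : CyO p (U ∪ V) c) : ∃ d, CyO (p + 1) (U ∩ V) d ∧ MVr p U V c d := by
  obtain ⟨c₁, c₂, d1, d2, z1, z2, rfl⟩ := split hU hV hc.deg hc.rel
  have h3 : Zr Vᶜ (dd c₁) := by
    have h4 := (hc.cyc.anti (subset_univ Vᶜ)).sub z2.dd
    rwa [dd_add, add_sub_cancel_right] at h4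
  refine ⟨dd c₁, ⟨d1.dd, union z1.dd h3, by rw [dd_dd]; exact Zr.zero _⟩,
    c₁, c₂, d1, d2, z1, z2, ?_, ?_⟩
  · have : c₁ + c₂ - c₁ - c₂ = 0 := by abel
    rw [this]
    exact Zr.zero _
  · rw [sub_self]
    exact Zr.zero _

theorem two {p : ℤ} {U V : Set X} (hU : IsOpen U) (hV : IsOpen V) {c d : Cc M X}
    (hm : MVr p U V c d) (hb : BdO p (U ∪ V) c) : BdO (p + 1) (U ∩ V) d := by
  obtain ⟨c₁, c₂, d1, d2, z1, z2, h3, h4⟩ := hm
  obtain ⟨b, e1, e2, e3⟩ := hb
  obtain ⟨b₁, b₂, f1, f2, y1, y2, rfl⟩ := split hU hV e1 e2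
  refine ⟨c₁ - dd b₁, ?_, union (z1.sub y1.dd) ?_, ?_⟩
  · rw [add_sub_cancel_right]
    exact d1.sub f1.dd'
  · have h5 : c₁ - dd b₁ = (c - dd (b₁ + b₂)) - (c - c₁ - c₂) - c₂ + dd b₂ := by
      rw [dd_add]
      abel
    rw [h5]
    exact (((e3.anti (subset_univ _)).sub (h3.anti (subset_univ _))).sub z2).add y2.dd
  · rw [dd_sub, dd_dd, sub_zero]
    exact h4

theorem three {p : ℤ} {U V : Set X} {d : Cc M X} (hu : BdO (p + 1) U d)
    (hv : BdO (p + 1) V d) : ∃ c, CyO p (U ∪ V) c ∧ MVr p U V c d := by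
  obtain ⟨b₁, d1, z1, e1⟩ := hu
  obtain ⟨b₂, d2, z2, e2⟩ := hv
  rw [add_sub_cancel_right] at d1 d2
  have s1 : (U ∪ V)ᶜ ⊆ Uᶜ := compl_subset_compl.2 subset_union_left
  have s2 : (U ∪ V)ᶜ ⊆ Vᶜ := compl_subset_compl.2 subset_union_right
  refine ⟨b₁ - b₂, ⟨d1.sub d2, (z1.anti s1).sub (z2.anti s2), ?_⟩, b₁, -b₂, d1, d2.neg, z1,
    z2.neg, ?_, e1⟩
  · have h5 : dd (b₁ - b₂) = (d - dd b₂) - (d - dd b₁) := by
      rw [dd_sub]
      abel
    rw [h5]
    exact e2.sub e1
  · have : b₁ - b₂ - b₁ - -b₂ = 0 := by abel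
    rw [this]
    exact Zr.zero _

theorem four {p : ℤ} {U V : Set X} (hU : IsOpen U) (hV : IsOpen V) {c₁ c₂ : Cc M X}
    (h1 : CyO p U c₁) (h2 : CyO p V c₂) (hb : BdO p (U ∪ V) (c₁ + c₂)) :
    ∃ e, CyO p (U ∩ V) e ∧ BdO p U (c₁ - e) ∧ BdO p V (c₂ + e) := by
  obtain ⟨b, e1, e2, e3⟩ := hb
  obtain ⟨b₁, b₂, f1, f2, y1, y2, rfl⟩ := split hU hV e1 e2
  refine ⟨c₁ - dd b₁, ⟨h1.deg.sub f1.dd', union (h1.rel.sub y1.dd) ?_, ?_⟩, ?_,
    b₂, f2, y2, ?_⟩
  · have h5 : c₁ - dd b₁ = (c₁ + c₂ - dd (b₁ + b₂)) - c₂ + dd b₂ := by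
      rw [dd_add]
      abel
    rw [h5]
    exact ((e3.anti (subset_univ _)).sub h2.rel).add y2.dd
  · rw [dd_sub, dd_dd, sub_zero]
    exact h1.cyc
  · rw [sub_sub_cancel]
    exact Bd.of_dd f1 y1
  · have h5 : c₂ + (c₁ - dd b₁) - dd b₂ = c₁ + c₂ - dd (b₁ + b₂) := by
      rw [dd_add]
      abel
    rw [h5]
    exact e3

theorem five {p : ℤ} {U V : Set X} {c d : Cc M X} (hc : CyO p (U ∪ V) c)
    (hm : MVr p U V c d) (hd : BdO (p + 1) (U ∩ V) d) :
    ∃ c₁ c₂, CyO p U c₁ ∧ CyO p V c₂ ∧ BdO p (U ∪ V) (c - c₁ - c₂) := by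
  obtain ⟨c₁, c₂, d1, d2, z1, z2, h3, h4⟩ := hm
  obtain ⟨e, e1, e2, e3⟩ := hd
  rw [add_sub_cancel_right] at e1
  have s1 : Uᶜ ⊆ (U ∩ V)ᶜ := compl_subset_compl.2 inter_subset_left
  have s2 : Vᶜ ⊆ (U ∩ V)ᶜ := compl_subset_compl.2 inter_subset_right
  refine ⟨c₁ - e, c₂ + e, ⟨d1.sub e1, z1.sub (e2.anti s1), ?_⟩,
    ⟨d2.add e1, z2.add (e2.anti s2), ?_⟩, Bd.of_Zr ?_⟩
  · have h5 : dd (c₁ - e) = (d - dd e) - (d - dd c₁) := by
      rw [dd_sub]
      abel
    rw [h5]
    exact e3.sub h4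
  · have h5 : dd (c₂ + e) = dd c - dd (c - c₁ - c₂) - ((d - dd e) - (d - dd c₁)) := by
      rw [dd_sub, dd_sub, dd_add]
      abel
    rw [h5]
    exact (hc.cyc.sub h3.dd).sub (e3.sub h4)
  · have h5 : c - (c₁ - e) - (c₂ + e) = c - c₁ - c₂ := by abel
    rw [h5]
    exact h3

end MVO

theorem t_MVO : S_MVO := by
  intro M X _ _ _ p U V hU hV
  refine ⟨fun c hc => MVO.one hU hV hc, fun c d _ _ hm hb => MVO.two hU hV hm hb,
    fun d _ hu hv => MVO.three hu hv, fun c₁ c₂ h1 h2 hb => MVO.four hU hV h1 h2 hb,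
    fun c hc H => ?_⟩
  obtain ⟨d, hd, hm⟩ := MVO.one hU hV hc
  exact MVO.five hc hm (H d hd)

end BBH


end

section

/-!
# BBH, module NBH: continuity
-/

set_option autoImplicit false

namespace BBH

open Set Topology CTO

namespace NBH

variable {M X : Type} [AddCommGroup M] [MetricSpace X]

theorem part1 {c : Cc M X} {V : Set X} (h : Zr Vᶜ c) :
    ∃ W : Set X, IsOpen W ∧ closure W ⊆ V ∧ Zr Wᶜ c := by
  obtain ⟨r, hr, hB⟩ := h.nhds
  refine ⟨(Metric.cthickening (r / 2) Vᶜ)ᶜ, Metric.isClosed_cthickening.isOpen_compl, ?_, ?_⟩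
  · have h1 : closure (Metric.cthickening (r / 2) Vᶜ)ᶜ ⊆ (Metric.thickening (r / 2) Vᶜ)ᶜ :=
      closure_minimal (compl_subset_compl.2 (Metric.thickening_subset_cthickening _ _))
        Metric.isOpen_thickening.isClosed_compl
    refine h1.trans ?_
    rw [compl_subset_comm]
    exact Metric.self_subset_thickening (by positivity) _
  · rw [compl_compl]
    exact hB _ (Metric.cthickening_subset_thickening' hr (by linarith) _)

theorem part2 [CompactSpace X] {c : Cc M X} {U : ℕ → Set X} (hU : Monotone U)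
    (ho : ∀ i, IsOpen (U i)) (h : Zr (⋃ i, U i)ᶜ c) : ∃ i, Zr (U i)ᶜ c := by
  obtain ⟨r, hr, hB⟩ := h.nhds
  have hK : IsCompact (Metric.thickening r (⋃ i, U i)ᶜ)ᶜ :=
    Metric.isOpen_thickening.isClosed_compl.isCompact
  have hsub : (Metric.thickening r (⋃ i, U i)ᶜ)ᶜ ⊆ ⋃ i, U i := by
    rw [compl_subset_comm]
    exact Metric.self_subset_thickening hr _
  obtain ⟨i, hi⟩ := hK.elim_directed_cover U ho hsub hU.directed_le
  exact ⟨i, hB _ (by rwa [compl_subset_comm])⟩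

theorem part3 {c : Cc M X} {K : Set X} (h : Zr K c) :
    ∃ N : Set X, IsOpen N ∧ K ⊆ N ∧ Zr (closure N) c := by
  obtain ⟨r, hr, hB⟩ := h.nhds
  refine ⟨Metric.thickening (r / 2) K, Metric.isOpen_thickening,
    Metric.self_subset_thickening (by positivity) _, hB _ ?_⟩
  exact (Metric.closure_thickening_subset_cthickening _ _).trans
    (Metric.cthickening_subset_thickening' hr (by linarith) _)

end NBH

open NBH in
theorem t_NBH : S_NBH := by
  intro M X _ _ _ c
  refine ⟨fun V _ h => part1 h, fun U hU ho h => part2 hU ho h, fun K _ h => part3 h, ?_⟩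
  intro K hK hc h
  have h1 : Zr (⋃ i, (K i)ᶜ)ᶜ c := by
    rw [compl_iUnion]
    simpa using h
  obtain ⟨i, hi⟩ := part2 (U := fun i => (K i)ᶜ) (fun i j hij => compl_subset_compl.2 (hK hij))
    (fun i => (hc i).isOpen_compl) h1
  exact ⟨i, by simpa using hi⟩

end BBH


end

section

/-!
# EXJ: exactness for a compact subset of an open set
-/

set_option autoImplicit false

namespace BBH

open Set Topology

namespace EXJ

theorem compl_diff_eq {X : Type} (B J : Set X) : (B \ J)ᶜ = Bᶜ ∪ J := by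
  ext x
  simp only [mem_compl_iff, mem_diff, mem_union, not_and, not_not]
  by_cases h : x ∈ B <;> simp [h]

end EXJ

theorem t_EXJ : M_EXJ := by
  intro hcut M X _ _ _ p B J hB hJ hJB
  refine ⟨?_, ?_, ?_⟩
  · intro hV c hc hb
    unfold CyO at hc
    unfold BdO at hb ⊢
    rw [EXJ.compl_diff_eq] at hc ⊢
    obtain ⟨b, hb1, hb2⟩ := les_left (subset_univ (Bᶜ ∪ J)) hc hb
    have hbJ : Cyc p J ∅ b := hb1.mono subset_union_right (empty_subset _)
    obtain ⟨f, hf1, _, hf3⟩ := hV b hbJ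
    obtain ⟨f', hf'1, hf'2, hf'3, _⟩ := hcut M X (p - 1) f J B hJ.isClosed hB hJB hf1
    have h1 : Zr J (b - dd f') := by
      have h2 := hf3.add hf'3.dd
      rwa [dd_sub, sub_add_sub_cancel] at h2
    have h2 : Zr (Bᶜ ∪ J) (b - dd f') := (hb1.rel.sub hf'2.dd).union h1
    have h3 : dd b = dd (b - dd f') := by rw [dd_sub, dd_dd, sub_zero]
    have h4 : Bd (p + 1) univ (Bᶜ ∪ J) (dd b) := by
      rw [h3]
      refine Bd.of_dd ?_ h2
      rw [add_sub_cancel_right]
      exact hb1.deg.sub hf'1.dd'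
    exact Bd.of_sub hb2 h4
  · intro c hc hb
    obtain ⟨f, hf1, _, hf3⟩ := hb
    obtain ⟨f', hf'1, hf'2, hf'3, _⟩ := hcut M X (p - 1) f J B hJ.isClosed hB hJB hf1
    have h1 : Zr J (c - dd f') := by
      have h2 := hf3.add hf'3.dd
      rwa [dd_sub, sub_add_sub_cancel] at h2
    refine ⟨c - dd f', ⟨hc.deg.sub hf'1.dd', ?_, ?_⟩, ?_⟩
    · rw [EXJ.compl_diff_eq]
      exact (hc.rel.sub hf'2.dd).union h1
    · rw [dd_sub, dd_dd, sub_zero]
      exact hc.cyc
    · rw [sub_sub_cancel]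
      exact Bd.of_dd hf'1 hf'2
  · intro c hc
    obtain ⟨c', h1, h2, h3, _⟩ := hcut M X p c J B hJ.isClosed hB hJB hc.deg
    refine ⟨c', h1, h2, h3, ⟨h1.dd, ?_, ?_⟩, ?_⟩
    · rw [EXJ.compl_diff_eq]
      refine h2.dd.union ?_
      have h4 := hc.cyc.sub h3.dd
      rwa [dd_sub, sub_sub_cancel] at h4
    · rw [dd_dd]
      exact Zr.zero _
    · refine Bd.of_dd ?_ h2
      rw [add_sub_cancel_right]
      exact h1

end BBH


end

section

/-!
# BBH, GNB: good sets are not separated by points and arcs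
-/

set_option autoImplicit false

namespace BBH

open Set Topology CTO

namespace GNB

/-- an open point has no cohomology with compact supports in degree three -/
theorem van_open_point (hP : S_PNT) (hC : S_CUT) {k X : Type} [Field k] [MetricSpace X]
    [CompactSpace X] {y : X} (hy : IsOpen ({y} : Set X)) : VanO k 3 ({y} : Set X) := by
  intro c hc
  have h1 : Cyc 3 ({y} : Set X) ∅ c :=
    ⟨hc.deg, hc.rel.anti (empty_subset _), hc.cyc.anti (subset_univ _)⟩
  obtain ⟨f, hf1, -, hf3⟩ := (hP k X y).1 3 (by norm_num) c h1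
  obtain ⟨f', hf1', hf2', hf3', -⟩ :=
    hC k X (3 - 1) f {y} {y} isClosed_singleton hy Subset.rfl hf1
  refine ⟨f', hf1', hf2', ?_⟩
  refine Zr.univ_of (V := {y}) ?_ ?_
  · have h2 : c - dd f' = (c - dd f) + dd (f - f') := by
      rw [dd_sub]
      abel
    rw [h2]
    exact hf3.add hf3'.dd
  · exact hc.rel.sub hf2'.dd

theorem good_sub {k X : Type} [Field k] [MetricSpace X] {B B' : Set X} (h : GB k B)
    (hB : B' ⊆ B) (ho : IsOpen B') (hc : IsConnected B') : GB k B' :=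
  ⟨ho, hc, fun V hV hVo hVn => h.2.2 V (hV.trans hB) hVo hVn⟩

end GNB

theorem t_GNB : M_GNB := by
  intro hP hC hA hN k X _ _ _ hS B hB
  refine ⟨hB.1, hB.2.1, fun B' hB' ho hc => ?_⟩
  have hG : GB k B' := GNB.good_sub hB hB' ho hc
  refine ⟨fun y hy => ⟨?_, ?_⟩, fun n A hAr hAB => ?_⟩
  · by_contra hne
    rw [Set.not_nonempty_iff_eq_empty] at hne
    have h1 : B' = {y} := Subset.antisymm (sdiff_eq_empty.1 hne) (singleton_subset_iff.2 hy)
    have h2 : IsOpen ({y} : Set X) := by rwa [← h1]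
    exact hG.2.2 {y} (singleton_subset_iff.2 hy) h2 (singleton_nonempty y)
      (GNB.van_open_point hP hC h2)
  · exact hN k X hS B' {y} hG isCompact_singleton (singleton_subset_iff.2 hy)
      ((hP k X y).1 2 (by norm_num))
  · choose α h1 h2 h3 using hAr
    have h4 : ∀ i, IsCompact (A i) := by
      intro i
      rw [h3 i]
      exact isCompact_Icc.image_of_continuousOn (h1 i)
    refine hN k X hS B' (⋃ i, A i) hG (isCompact_iUnion h4) hAB ?_
    exact hA.2.1 k X n A (fun i => α i 0) (fun i => α i 1)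
      (fun i => ⟨α i, h1 i, h2 i, rfl, rfl, h3 i⟩) 2 le_rfl

end BBH


end

section

/-!
# BBH, ZNZ: an open set with nonzero integral cohomology in degree three
-/

set_option autoImplicit false

namespace BBH

open Set Topology CTO

theorem t_ZNZ : M_ZNZ := by
  intro hOBS hALX hDIM X _ _ h3 h2
  obtain ⟨L, K, f, hL, hK, hLK, hf, hne, hx⟩ := hOBS X h3 h2
  refine ⟨Lᶜ, hL.isOpen_compl, fun hV => ?_⟩
  refine hx (hALX X h3 K L f hK hL hLK hf hne fun c hc => ?_)
  have h4 : Cyc (3 + 1) univ K (dd c) := les_conn hc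
  have h5 : Bd (3 + 1) univ K (dd c) :=
    hDIM ℤ X 3 h3 (3 + 1) univ K (by norm_num) (subset_univ K) (dd c) h4
  obtain ⟨c', h6, h7⟩ := les_right hLK hc h5
  have h8 : BdO 3 Lᶜ c' := hV c' (by
    unfold CyO
    rw [compl_compl]
    exact h6)
  unfold BdO at h8
  rw [compl_compl] at h8
  have h9 : Bd 3 K L c' := h8.mono (subset_univ K) Subset.rfl
  have h10 := h7.add h9
  rwa [sub_add_cancel] at h10

end BBH


end

section

/-!
# BBH, GNX: good sets exist
-/

set_option autoImplicit false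

namespace BBH

open Set Topology CTO

theorem t_GNX : M_GNX := by
  intro hLPX hPRM hSRJ hNZA hNZB hGNB X _ _ hA hH h3 h2 x N hN hx
  obtain ⟨p, V, hp, hV, hv⟩ := hPRM X hA h3 h2
  have : Fact p.Prime := ⟨hp⟩
  have : NeZero p := ⟨hp.ne_zero⟩
  have hSj : Sj (ZMod p) X := hSRJ (ZMod p) X hA hH h3
  have hnz : ∀ x : X, NZat (ZMod p) x := hNZA (ZMod p) X hH h3 ⟨V, hV, hv⟩
  have : LocallyPathConnectedSpace X := (hLPX X hA).1
  obtain ⟨B, hBN, hxB, hB⟩ := hNZB (ZMod p) X inferInstance hSj hnz x N hN hx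
  exact ⟨B, hBN, hxB, hGNB (ZMod p) X hSj B hB⟩

end BBH


end

section

/-!
# Module LT1: local triviality in degree one
-/

set_option autoImplicit false

namespace BBH

open Set Topology CTO

namespace LT1

theorem dd_c0_const {M X : Type} [AddCommGroup M] (m : M) :
    dd (c0 (X := X) fun _ => m) = 0 := by
  funext l
  rcases l with _ | ⟨x, _ | ⟨y, _ | ⟨z, l⟩⟩⟩
  · simp
  · simp
  · simp
  · by_contra h
    have h1 := (Dg.c0 (X := X) fun _ => m).dd
    have h2 := (h1 _ h).2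
    simp only [List.length_cons] at h2
    push_cast at h2
    omega

theorem ctr_mono {X : Type} [TopologicalSpace X] {K L K' : Set X} (h : Ctr L K') (hK : K ⊆ L) :
    Ctr K K' := by
  obtain ⟨w, F, hw, hF, hm, h0, h1⟩ := h
  exact ⟨w, F, hw, hF.mono (prod_mono hK Subset.rfl),
    hm.mono (prod_mono hK Subset.rfl) Subset.rfl, fun x hx => h0 x (hK hx),
    fun x hx => h1 x (hK hx)⟩

end LT1

theorem t_LT1 : M_LT1 := by
  intro hCTR hCON hOUT hLPX M X _ _ _ hX hG x U hU hxU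
  obtain ⟨hlpc, hL⟩ := hLPX X hX
  obtain ⟨V₀, hV₀, hxV₀, -, hctr⟩ := hL x univ isOpen_univ (mem_univ x)
  obtain ⟨B, hBU, hxB, hB⟩ := hG x (U ∩ V₀) (hU.inter hV₀) ⟨hxU, hxV₀⟩
  obtain ⟨hBo, hBc, hBs⟩ := hB
  have hcon : IsConnected (B \ {x}) := (hBs B Subset.rfl hBo hBc).1 x hxB
  obtain ⟨w, hw⟩ := hcon.nonempty
  have hctrB : Ctr (closure B) (univ : Set X) :=
    LT1.ctr_mono hctr (closure_mono (hBU.trans inter_subset_right))
  obtain ⟨K, W, hKc, hxK, hKB, hwW, hWo, hWc, hWB, -, hBW, -⟩ :=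
    hOUT X hlpc B {x} B w hBo hBc isCompact_singleton (singleton_nonempty x)
      (singleton_subset_iff.2 hxB) hcon hw hBo (singleton_subset_iff.2 hxB)
  have hKB' : K ⊆ B := fun y hy => (hKB hy).1
  have hVB : interior K ⊆ B := interior_subset.trans hKB'
  refine ⟨interior K, hVB.trans (hBU.trans inter_subset_left), isOpen_interior,
    hxK (mem_singleton x), fun c hc => ?_⟩
  have hcW : Zr W c := hc.rel.anti (fun y hy h => (hWB hy).2 (interior_subset h))
  have hcB : Zr Bᶜ c := hc.rel.anti (compl_subset_compl.2 hVB)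
  obtain ⟨f0, hf0, -, hf0z⟩ := hCTR M X (closure B) univ isClosed_closure.isCompact
    (subset_univ _) hctrB 1 le_rfl c (Cyc.mono hc Subset.rfl (empty_subset _))
  have e10 : (1 : ℤ) - 1 = 0 := by norm_num
  rw [e10] at hf0
  have hWcl : W ⊆ closure B := fun y hy => subset_closure (hWB hy).1
  have hdW : Zr W (dd f0) := by
    have h := hcW.sub (hf0z.anti hWcl)
    rwa [sub_sub_cancel] at h
  obtain ⟨m, hm⟩ := hCON M X W hWc.isPreconnected f0 ⟨hf0, Zr.empty hf0, hdW⟩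
  set f : Cc M X := f0 - c0 fun _ => m with hf
  have hfd : Dg X 0 f := hf0.sub (Dg.c0 _)
  have hfz : Zr (closure B) (c - dd f) := by
    rw [hf, dd_sub, LT1.dd_c0_const, sub_zero]
    exact hf0z
  set S : Set (List X) := {l | ∀ y ∈ l, y ∈ B} with hS
  obtain ⟨δ, hδ, hδB⟩ := hBW.exists_thickening_subset_open hBo (fun y hy => hy.1)
  -- `f'` vanishes near `Bᶜ`
  have h1 : Zr Bᶜ (ind S f) := by
    obtain ⟨ε, hε, hfε⟩ := hm
    refine ⟨min ε δ, lt_min hε hδ, fun l hl => ?_⟩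
    by_cases hlS : l ∈ S
    · rw [ind_of_mem hlS]
      refine hfε l ⟨fun y hy => ?_, fun y hy z hz => lt_of_lt_of_le (hl.2 y hy z hz)
        (min_le_left _ _)⟩
      have hyB : y ∈ B := hlS y hy
      have hyW : y ∈ W := by
        by_contra hyW
        obtain ⟨z, hz, hyz⟩ := Metric.mem_thickening_iff.1 (hl.1 y hy)
        refine hz (hδB (Metric.mem_thickening_iff.2 ⟨y, ⟨hyB, hyW⟩, ?_⟩))
        rw [dist_comm]
        exact lt_of_lt_of_le hyz (min_le_right _ _)
      exact Metric.self_subset_thickening hε _ hyW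
    · exact ind_of_notMem hlS
  have h2 : Zr (B \ W) (c - dd (ind S f)) := by
    obtain ⟨ε, hε, hfε⟩ := hfz
    refine ⟨min ε δ, lt_min hε hδ, fun l hl => ?_⟩
    have h3 : dd (ind S f) l = dd f l := by
      refine dd_congr (Small.cl (B \ W) (min ε δ)) (fun l' hl' => ?_) l hl
      refine ind_of_mem (fun y hy => hδB ?_)
      exact Metric.thickening_mono (min_le_right _ _) _ (hl'.1 y hy)
    rw [Pi.sub_apply, h3]
    exact hfε l (Small.mono (fun y hy => subset_closure hy.1) (min_le_left _ _) hl)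
  have h3 : Zr W (c - dd (ind S f)) := hcW.sub (Zr.ind hm).dd
  have h4 : Zr Bᶜ (c - dd (ind S f)) := hcB.sub h1.dd
  have h5 : Zr univ (c - dd (ind S f)) := by
    refine ((h2.union h3).union h4).anti (fun y _ => ?_)
    by_cases hy : y ∈ B
    · by_cases hy' : y ∈ W
      · exact Or.inl (Or.inr hy')
      · exact Or.inl (Or.inl ⟨hy, hy'⟩)
    · exact Or.inr hy
  have h6 : BdO 1 B c := by
    refine ⟨ind S f, ?_, h1, h5⟩
    rw [e10]
    exact hfd.ind
  exact BdO.mono h6 (hBU.trans inter_subset_left)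

end BBH


end

section

/-!
# Module KA: cup products with the twisting cochain
-/

set_option autoImplicit false

namespace BBH

open Set Topology CTO

namespace KA

variable {k X : Type} [Field k] [MetricSpace X]

/-- a functional that kills coboundaries is zero on the cochains that vanish near `univ` -/
theorem kil_zr {B : Set X} {s : Cc k X →ₗ[k] k} (hs : Kil 3 B s) {c : Cc k X}
    (hd : Dg X 3 c) (hz : Zr univ c) : s c = 0 := by
  refine hs c ⟨hd, hz.anti (subset_univ _), hz.dd⟩ ?_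
  exact Bd.of_Zr hz

end KA

theorem t_KA : S_KA := by
  intro k X _ _ B B' D O N K W θ Θ s hK hT hs hg η hη
  have e3 : (1 : ℤ) + 2 = 3 := by norm_num
  have e3' : (2 : ℤ) + 1 = 3 := by norm_num
  have e2 : (2 : ℤ) - 1 = 1 := by norm_num
  -- `dd Θ` vanishes near `Nᶜ`
  have hΘN : Zr Nᶜ (dd Θ) := by
    have h := hT.cy.rel.sub (hT.eq.anti (subset_univ Nᶜ))
    rwa [sub_sub_cancel] at h
  have hNW : Nᶜ ∪ Wᶜ = univ := by
    rw [← compl_inter, compl_eq_comm, compl_univ, eq_comm, eq_empty_iff_forall_notMem]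
    rintro x ⟨hxN, hxW⟩
    exact (hK.subW hxW).2 (hK.subN hxN)
  have hWB : W ⊆ B := fun x hx => (hK.subW hx).1
  have hdeg : Dg X 3 (cup Θ η) := by
    have h := hT.deg.cup hη.deg
    rwa [e3] at h
  have hleib : ∀ {q : ℤ} {c : Cc k X}, Dg X q c →
      dd (cup Θ c) = cup (dd Θ) c - cup Θ (dd c) := by
    intro q c hc
    have h := dd_cup (p := 1) (q := q) hT.deg hc
    rw [h, pow_one, neg_one_smul, ← sub_eq_add_neg]
  have h1 : CyO 3 W (cup Θ η) := by
    refine ⟨hdeg, Zr.cup_right Θ hη.rel, ?_⟩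
    rw [hleib hη.deg]
    refine Zr.sub ?_ (Zr.cup_right Θ hη.cyc)
    rw [← hNW]
    exact (Zr.cup_left η hΘN).union (Zr.cup_right (dd Θ) hη.rel)
  refine ⟨h1, ?_⟩
  obtain ⟨h, hd, -, hz⟩ := hK.tr η (hη.mono hWB)
  rw [e2] at hd
  have hKW : K ⊆ Wᶜ := fun x hx hxW => (hK.subW hxW).2 hx
  have hcyc : Cyc 1 K ∅ h := by
    refine ⟨hd, Zr.empty hd, ?_⟩
    have h2 := (hη.rel.anti hKW).sub (hz.anti (subset_univ K))
    rwa [sub_sub_cancel] at h2
  have hs0 := hg h hcyc
  -- the coboundary of `cup Θ h`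
  have hb2 : Dg X 2 (cup Θ h) := by
    have h2 := hT.deg.cup hd
    have e4 : (1 : ℤ) + 1 = 2 := by norm_num
    rwa [e4] at h2
  have hbz : Zr Bᶜ (cup Θ h) := by
    refine Zr.cup_left h (hT.zer.anti ?_)
    exact compl_subset_compl.2 (hK.subO.trans hK.subD)
  have hs1 : s (dd (cup Θ h)) = 0 := by
    refine hs _ ⟨?_, hbz.dd, ?_⟩ ?_
    · have h2 := hb2.dd
      rwa [e3'] at h2
    · rw [dd_dd]
      exact Zr.zero _
    · refine Bd.of_dd ?_ hbz
      have e5 : (3 : ℤ) - 1 = 2 := by norm_num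
      rwa [e5]
  rw [hleib hd, map_sub] at hs1
  have hθd : Dg X 2 θ := hT.cy.deg
  have hs2 : s (cup (θ - dd Θ) h) = 0 := by
    refine KA.kil_zr hs ?_ (Zr.cup_left h hT.eq)
    have hdT : Dg X 2 (dd Θ) := by
      have h2 := hT.deg.dd
      have e4 : (1 : ℤ) + 1 = 2 := by norm_num
      rwa [e4] at h2
    have h2 := (hθd.sub hdT).cup hd
    rwa [e3'] at h2
  have hs3 : s (cup Θ (η - dd h)) = 0 := by
    refine KA.kil_zr hs ?_ (Zr.cup_right Θ hz)
    have hdh : Dg X 2 (dd h) := by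
      have h2 := hd.dd
      have e4 : (1 : ℤ) + 1 = 2 := by norm_num
      rwa [e4] at h2
    have h2 := hT.deg.cup (hη.deg.sub hdh)
    rwa [e3] at h2
  rw [cup_sub_left, map_sub, hs0, zero_sub, neg_eq_zero] at hs2
  rw [cup_sub_right, map_sub] at hs3
  rw [hs2, zero_sub, neg_eq_zero] at hs1
  rw [hs1, sub_zero] at hs3
  exact hs3

end BBH


end

section

/-!
# BBH, module KC: normalisation outside of `D`
-/

set_option autoImplicit false

namespace BBH

open Set Topology CTO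

open Classical in
theorem t_KC : S_KC := by
  intro k X _ _ B B' D O N K W θ Θ s P hSj hK hPri hP
  have hW₀ : IsOpen (B \ D) := hK.opB.sdiff hK.cD.isClosed
  have hWB : W ⊆ B := hK.subW.trans sdiff_subset
  -- `c ↦ P (0, c)` kills the coboundaries
  have hkill : ∀ c : Cc k X, CyO 3 (B \ D) c → BdO 3 (B \ D) c → P (0, c) = 0 := by
    intro c hc hb
    obtain ⟨b, hb1, hb2, hb3⟩ := hb
    have hb1' : Dg X 2 b := by
      have h : (3 : ℤ) - 1 = 2 := by norm_num
      rwa [h] at hb1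
    have hbW : Zr Wᶜ b := hb2.anti (compl_subset_compl.2 hK.outW)
    have e1 : P (dd (0 : Cc k X) + cup Θ b, dd b) = 0 :=
      hP.b 0 b Dg.zero hb1' (Zr.zero _) hbW
    have hcup : Dg X 3 (cup Θ b) := by
      have h := hPri.deg.cup hb1'
      have h' : (1 : ℤ) + 2 = 3 := by norm_num
      rwa [h'] at h
    have hcup0 : Zr univ (cup Θ b) := by
      refine Zr.univ_of (V := O) ?_ (hPri.zer.cup_left b)
      refine (hb2.anti ?_).cup_right Θ
      intro y hy h
      exact h.2 (hK.subO hy)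
    have e2 : P (cup Θ b, 0) = 0 := hP.c _ 0 hcup Dg.zero hcup0 (Zr.zero _)
    have hddb : Dg X 3 (dd b) := hb1.dd'
    have e3 : P (0, c - dd b) = 0 :=
      hP.c 0 _ Dg.zero (hc.deg.sub hddb) (Zr.zero _) hb3
    have e4 : ((0 : Cc k X), c) =
        (dd (0 : Cc k X) + cup Θ b, dd b) - (cup Θ b, (0 : Cc k X)) + (0, c - dd b) := by
      rw [dd_zero, zero_add]
      ext1
      · simp
      · simp
    rw [e4, map_add, map_sub, e1, e2, e3, sub_zero, add_zero]
  obtain ⟨F, hF⟩ := exists_lift (R := k) (p := 3) (A := univ) (B := (B \ D)ᶜ)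
    ((P ∘ₗ LinearMap.inr k (Cc k X) (Cc k X)) ∘ₗ (ZZ k k 3 univ (B \ D)ᶜ).subtype)
    (fun c hc => hkill c.1 c.2 hc)
  -- the extension map is bijective
  have hbij : Function.Bijective (ext k k (p := 3) (sdiff_subset : B \ D ⊆ B)) := by
    constructor
    · rw [← LinearMap.ker_eq_bot, LinearMap.ker_eq_bot']
      intro a ha
      obtain ⟨c, h, rfl⟩ := cls_surj a
      have h0 : CyO 3 (B \ D) c := h
      have ha' : cls k c (h0.mono (sdiff_subset : B \ D ⊆ B)) = 0 := ha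
      rw [cls_eq_zero]
      exact hK.inj c h0 ((cls_eq_zero _).1 ha')
    · intro a
      obtain ⟨c, h, rfl⟩ := cls_surj a
      obtain ⟨c', h1, h2⟩ := hSj B (B \ D) hK.opB hK.conB hW₀ sdiff_subset
        hK.conD.nonempty c h
      refine ⟨cls k c' h1, ?_⟩
      exact ((cls_eq (R := k) h (h1.mono (sdiff_subset : B \ D ⊆ B))).2 h2).symm
  obtain ⟨p, hp, hpv⟩ := exists_total (p := 3) (V := B)
    (F ∘ₗ ((LinearEquiv.ofBijective _ hbij).symm : HO k k 3 B →ₗ[k] HO k k 3 (B \ D)))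
  have hpc : ∀ c : Cc k X, CyO 3 (B \ D) c → p c = P (0, c) := by
    intro c hc
    rw [hpv c (hc.mono sdiff_subset), LinearMap.comp_apply]
    have h1 : cls k c (hc.mono sdiff_subset) =
        (LinearEquiv.ofBijective _ hbij) (cls k c hc) := rfl
    rw [h1, LinearEquiv.coe_coe, LinearEquiv.symm_apply_apply, hF c hc]
    rfl
  refine ⟨P - p ∘ₗ LinearMap.snd k (Cc k X) (Cc k X), ⟨?_, ?_, ?_⟩, ?_⟩
  · intro c hc
    rw [LinearMap.sub_apply, LinearMap.comp_apply, LinearMap.snd_apply, map_zero, sub_zero]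
    exact hP.a c hc
  · intro b₀ b₁ h0 h1 h0' h1'
    have hB : Zr Bᶜ b₁ := h1'.anti (compl_subset_compl.2 hWB)
    have h2 : Dg X (3 - 1) b₁ := by
      have h : (3 : ℤ) - 1 = 2 := by norm_num
      rwa [h]
    have h3 : CyO 3 B (dd b₁) :=
      ⟨h2.dd', hB.dd, by rw [dd_dd]; exact Zr.zero _⟩
    have h4 : p (dd b₁) = 0 := hp _ h3 (Bd.of_dd h2 hB)
    rw [LinearMap.sub_apply, LinearMap.comp_apply, LinearMap.snd_apply, h4, sub_zero]
    exact hP.b b₀ b₁ h0 h1 h0' h1'
  · intro z₀ z₁ h0 h1 h0' h1'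
    have h4 : p z₁ = 0 := hp _ (CyO.of_Zr h1 h1') (BdO.of_Zr h1')
    rw [LinearMap.sub_apply, LinearMap.comp_apply, LinearMap.snd_apply, h4, sub_zero]
    exact hP.c z₀ z₁ h0 h1 h0' h1'
  · intro c hc
    rw [LinearMap.sub_apply, LinearMap.comp_apply, LinearMap.snd_apply, hpc c hc, sub_self]

end BBH


end

section

/-!
# BBH, module KF: all points of `W` are good
-/

set_option autoImplicit false

namespace BBH

open Set Topology CTO

namespace KF

lemma dd_const {k X : Type} [Field k] (m : k) : dd (c0 fun _ : X => m) = 0 := by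
  funext l
  rcases l with _ | ⟨x, _ | ⟨y, _ | ⟨z, l⟩⟩⟩
  · simp
  · simp
  · rw [dd_c0_two]
    simp
  · by_contra h
    have h1 := ((Dg.c0 (fun _ : X => m)).dd _ h).2
    simp only [List.length_cons] at h1
    push_cast at h1
    have h2 : (0 : ℤ) ≤ (l.length : ℤ) := Int.natCast_nonneg _
    omega

lemma split {k X : Type} [Field k] (P : (Cc k X × Cc k X) →ₗ[k] k) (e c c' : Cc k X) :
    P (-cup e c, c) = P (-cup e (c - c'), c - c') + P (-cup e c', c') := by
  rw [← map_add]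
  congr 1
  ext1
  · simp only [Prod.fst_add]
    rw [cup_sub_right]
    abel
  · simp only [Prod.snd_add]
    abel

end KF

theorem t_KF : M_KF := by
  intro hCON hKD hKE k X _ _ hLPC hSj B B' D O N K W θ Θ s P hK hPri hP h0
  have hopen : IsOpen {y | Gd W Θ P y} := by
    rw [isOpen_iff_forall_mem_open]
    rintro y ⟨V, hVW, hVo, hVc, hyV, u, hu, hc⟩
    exact ⟨V, fun z hz => ⟨V, hVW, hVo, hVc, hz, u, hu, hc⟩, hVo, hyV⟩
  refine hK.conW.isPreconnected.subset_of_closure_inter_subset hopen ?_ ?_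
  · obtain ⟨y, hy⟩ := hK.conD.nonempty
    refine ⟨y, hK.outW hy, B \ D, hK.outW, hK.opB.sdiff hK.cD.isClosed, hK.conD, hy,
      fun _ => 0, ?_, ?_⟩
    · rw [KF.dd_const, sub_zero]
      exact hPri.zer.anti fun z hz hzO => hz.2 (hK.subO hzO)
    · intro c hc
      have h1 : (c0 fun _ : X => (0 : k)) = 0 := by
        funext l
        rcases l with _ | ⟨x, _ | ⟨y, l⟩⟩ <;> simp
      rw [h1, cup_zero_left, neg_zero]
      exact h0 c hc
  · rintro y ⟨hyG, hyW⟩
    obtain ⟨V, hVW, hVo, hVc, hyV, u, hu⟩ := hKD k X hLPC B B' D O N K W θ Θ hK hPri y hyW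
    obtain ⟨z, hzV, Vz, hVzW, hVzo, hVzc, hzVz, uz, huz, hcz⟩ :=
      mem_closure_iff.1 hyG V hVo hyV
    have hVV : IsOpen (V ∩ Vz) := hVo.inter hVzo
    have hzVV : z ∈ V ∩ Vz := ⟨hzV, hzVz⟩
    obtain ⟨V', hV'⟩ : ∃ V', V' = connectedComponentIn (V ∩ Vz) z := ⟨_, rfl⟩
    have hV'o : IsOpen V' := by
      rw [hV']
      exact hVV.connectedComponentIn
    have hzV' : z ∈ V' := by
      rw [hV']
      exact mem_connectedComponentIn hzVV
    have hV's : V' ⊆ V ∩ Vz := by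
      rw [hV']
      exact connectedComponentIn_subset _ _
    have hV'c : IsConnected V' := by
      rw [hV']
      exact isConnected_connectedComponentIn_iff.2 hzVV
    have hV'V : V' ⊆ V := fun w hw => (hV's hw).1
    have hV'Vz : V' ⊆ Vz := fun w hw => (hV's hw).2
    have hcyc : Cyc 0 V' ∅ (c0 u - c0 uz) := by
      have hdeg : Dg X 0 (c0 u - c0 uz) := (Dg.c0 u).sub (Dg.c0 uz)
      refine ⟨hdeg, Zr.empty hdeg, ?_⟩
      have h1 := (huz.anti hV'Vz).sub (hu.anti hV'V)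
      have h2 : Θ - dd (c0 uz) - (Θ - dd (c0 u)) = dd (c0 u - c0 uz) := by
        rw [dd_sub]
        abel
      rwa [h2] at h1
    obtain ⟨m, hm⟩ := hCON k X V' hV'c.isPreconnected _ hcyc
    have hE1 := (hKE k X W Θ s P hPri.deg hP V' (hV'V.trans hVW) hV'o u (hu.anti hV'V)).2 uz m hm
    have hE2 : ∀ c, CyO 3 V' c → P (-cup (c0 u) c, c) = -(m * s c) := by
      intro c hc
      rw [hE1 c hc, hcz c (hc.mono hV'Vz), zero_sub]
    have hu'0 : c0 (u - fun _ => m) = c0 u - c0 fun _ => m := c0_sub _ _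
    have hu' : Zr V (Θ - dd (c0 (u - fun _ => m))) := by
      rw [hu'0, dd_sub, KF.dd_const, sub_zero]
      exact hu
    have hE3 := hKE k X W Θ s P hPri.deg hP V hVW hVo (u - fun _ => m) hu'
    have hE4 : ∀ c, CyO 3 V c → P (-cup (c0 (u - fun _ => m)) c, c) =
        P (-cup (c0 u) c, c) - -m * s c := by
      refine hE3.2 u (-m) ?_
      have h1 : c0 (u - fun _ => m) - c0 u - c0 (fun _ : X => -m) = 0 := by
        funext l
        rcases l with _ | ⟨x, _ | ⟨y, l⟩⟩ <;> simp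
      rw [h1]
      exact Zr.zero _
    refine ⟨V, hVW, hVo, hVc, hyV, u - fun _ => m, hu', ?_⟩
    intro c hc
    obtain ⟨c', hc', hcc⟩ := hSj V V' hVo hVc hV'o hV'V ⟨z, hzV'⟩ c hc
    rw [KF.split P _ c c', hE3.1 _ (hc.sub (hc'.mono hV'V)) hcc, hE4 c' (hc'.mono hV'V),
      hE2 c' hc']
    ring

end BBH


end

section

/-!
# BBH, module DVU: divisibility
-/

set_option autoImplicit false

namespace BBH

open Set Topology CTO

namespace DVU

/-- the reduction of an integral cochain -/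
theorem dd_red {X : Type} (p : ℕ) (c : Cc ℤ X) (l : List X) :
    dd (fun l => ((c l : ℤ) : ZMod p)) l = ((dd c l : ℤ) : ZMod p) :=
  dd_map (Int.castAddHom (ZMod p)) c l

end DVU

open DVU in
theorem t_DVU : S_DVU := by
  intro X _ p q V hp c hc hV
  have : NeZero p := ⟨hp.ne'⟩
  have hp0 : (p : ℤ) ≠ 0 := by exact_mod_cast hp.ne'
  obtain ⟨b', hb1, hb2, hb3⟩ := hV
  -- the lift
  let b : Cc ℤ X := fun l => ((b' l).val : ℤ)
  have hb0 : ∀ l, b' l = 0 → b l = 0 := by
    intro l hl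
    change ((b' l).val : ℤ) = 0
    rw [hl, ZMod.val_zero, Nat.cast_zero]
  have hbdeg : Dg X (q - 1) b := fun l hl => hb1 l fun h => hl (hb0 l h)
  have hbrel : Zr Vᶜ b := by
    obtain ⟨ε, hε, h⟩ := hb2
    exact ⟨ε, hε, fun l hl => hb0 l (h l hl)⟩
  have hbred : (fun l => ((b l : ℤ) : ZMod p)) = b' := by
    funext l
    change ((((b' l).val : ℕ) : ℤ) : ZMod p) = b' l
    rw [Int.cast_natCast, ZMod.natCast_zmod_val]
  let e : Cc ℤ X := c - dd b
  have hedeg : Dg X q e := hc.deg.sub hbdeg.dd'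
  have herel : Zr Vᶜ e := hc.rel.sub hbrel.dd
  have hecyc : Zr univ (dd e) := by
    change Zr univ (dd (c - dd b))
    rw [dd_sub, dd_dd, sub_zero]
    exact hc.cyc
  have hdvd : ∃ ε > 0, ∀ l ∈ Small (univ : Set X) ε, (p : ℤ) ∣ e l := by
    obtain ⟨ε, hε, h⟩ := hb3
    refine ⟨ε, hε, fun l hl => ?_⟩
    rw [← ZMod.intCast_zmod_eq_zero_iff_dvd]
    change (((c l - dd b l : ℤ)) : ZMod p) = 0
    rw [Int.cast_sub, ← dd_red, hbred]
    exact h l hl
  let c' : Cc ℤ X := fun l => e l / (p : ℤ)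
  have hc0 : ∀ l, e l = 0 → c' l = 0 := by
    intro l hl
    change e l / (p : ℤ) = 0
    rw [hl, Int.zero_ediv]
  have hdeg : Dg X q c' := fun l hl => hedeg l fun h => hl (hc0 l h)
  have hrel : Zr Vᶜ c' := by
    obtain ⟨ε, hε, h⟩ := herel
    exact ⟨ε, hε, fun l hl => hc0 l (h l hl)⟩
  have hdiff : Zr univ (e - (p : ℤ) • c') := by
    obtain ⟨ε, hε, h⟩ := hdvd
    refine ⟨ε, hε, fun l hl => ?_⟩
    change e l - (p : ℤ) * (e l / (p : ℤ)) = 0
    rw [Int.mul_ediv_cancel' (h l hl), sub_self]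
  have hcyc : Zr univ (dd c') := by
    have h1 := hecyc.sub hdiff.dd
    obtain ⟨ε, hε, h⟩ := h1
    refine ⟨ε, hε, fun l hl => ?_⟩
    have h2 := h l hl
    rw [← dd_sub, sub_sub_cancel, dd_smul] at h2
    change (p : ℤ) * dd c' l = 0 at h2
    exact (mul_eq_zero.1 h2).resolve_left hp0
  refine ⟨c', ⟨hdeg, hrel, hcyc⟩, b, hbdeg, hbrel, ?_⟩
  have h1 : c - (p : ℤ) • c' - dd b = e - (p : ℤ) • c' := by
    change c - (p : ℤ) • c' - dd b = c - dd b - (p : ℤ) • c'
    abel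
  rw [h1]
  exact hdiff

end BBH


end

section

/-!
# BBH: finite selections (S_FSL)
-/

set_option autoImplicit false

namespace BBH

open Set Topology

theorem t_FSL : S_FSL := by
  intro X _ _ ε hε
  obtain ⟨t, -, ht, hcov⟩ := finite_cover_balls_of_compact (isCompact_univ (X := X)) hε
  have h1 : ∀ x : X, ∃ y ∈ t, dist x y < ε := by
    intro x
    have h2 := hcov (mem_univ x)
    simp only [mem_iUnion, Metric.mem_ball, exists_prop] at h2
    exact h2
  choose r hr hr' using h1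
  refine ⟨r, ht.subset (range_subset_iff.2 hr), fun x => ?_⟩
  rw [dist_comm]
  exact hr' x

end BBH


end

section

/-!
# BBH, module TOR: a rational coboundary is a torsion class
-/

set_option autoImplicit false

namespace BBH

open Set Topology CTO

namespace TOR

theorem small_join {X : Type} [MetricSpace X] {A : Set X} {r : X → X} {ε : ℝ} (hε : 0 < ε)
    (hr : ∀ x, dist (r x) x < ε / 4) {l : List X} (hl : l ∈ Small A (ε / 4)) :
    l.map id ++ l.map r ∈ Small A ε := by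
  have h4 : ∀ x ∈ l, ∃ a ∈ A, dist x a < ε / 4 := fun x hx =>
    Metric.mem_thickening_iff.1 (hl.1 x hx)
  have hmem : ∀ z ∈ l.map id ++ l.map r, ∃ x ∈ l, dist z x < ε / 4 := by
    intro z hz
    rw [List.mem_append] at hz
    rcases hz with hz | hz
    · rw [List.map_id] at hz
      exact ⟨z, hz, by rw [dist_self]; positivity⟩
    · obtain ⟨x, hx, rfl⟩ := List.mem_map.1 hz
      exact ⟨x, hx, hr x⟩
  refine ⟨fun z hz => ?_, fun z hz w hw => ?_⟩
  · obtain ⟨x, hx, hzx⟩ := hmem z hz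
    obtain ⟨a, ha, hxa⟩ := h4 x hx
    refine Metric.mem_thickening_iff.2 ⟨a, ha, ?_⟩
    have := dist_triangle z x a
    linarith
  · obtain ⟨x, hx, hzx⟩ := hmem z hz
    obtain ⟨y, hy, hwy⟩ := hmem w hw
    have h1 := hl.2 x hx y hy
    have h2 := dist_triangle z x w
    have h3 := dist_triangle x y w
    rw [dist_comm w y] at hwy
    linarith

theorem small_map {X : Type} [MetricSpace X] {A : Set X} {r : X → X} {ε : ℝ} (hε : 0 < ε)
    (hr : ∀ x, dist (r x) x < ε / 4) {l : List X} (hl : l ∈ Small A (ε / 4)) :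
    l.map r ∈ Small A ε :=
  Small.cl A ε _ (small_join hε hr hl) _ (List.subset_append_right _ _)

theorem finite_lists {X : Type} {S : Set X} (hS : S.Finite) (n : ℕ) :
    {l : List X | l.length = n ∧ ∀ x ∈ l, x ∈ S}.Finite := by
  have : Finite S := hS
  refine ((List.finite_length_eq S n).image (List.map Subtype.val)).subset ?_
  rintro l ⟨hl, hS'⟩
  refine ⟨l.attachWith (· ∈ S) hS', ?_, ?_⟩
  · change (l.attachWith (· ∈ S) hS').length = n
    rw [List.length_attachWith, hl]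
  · have h := List.attachWith_map_val (f := fun x : X => x) (p := (· ∈ S)) (l := l) hS'
    rw [List.map_id'] at h
    exact h

theorem exists_denom {ι : Type} (T : Set ι) (hT : T.Finite) (f : ι → ℚ) :
    ∃ m : ℕ, 0 < m ∧ ∀ i ∈ T, ∃ z : ℤ, (m : ℚ) * f i = z := by
  classical
  refine ⟨∏ i ∈ hT.toFinset, (f i).den, Finset.prod_pos fun i _ => (f i).den_pos,
    fun i hi => ?_⟩
  obtain ⟨k, hk⟩ := Finset.dvd_prod_of_mem (fun i => (f i).den) (hT.mem_toFinset.2 hi)
  refine ⟨(k : ℤ) * (f i).num, ?_⟩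
  rw [hk]
  push_cast
  rw [← Rat.mul_den_eq_num (f i)]
  ring

end TOR

open TOR in
theorem t_TOR : M_TOR := by
  intro hFSL X _ _ q U c hc hb
  obtain ⟨b, hbdg, ⟨ε₃, h3, h3'⟩, ⟨ε₄, h4, h4'⟩⟩ := hb
  obtain ⟨ε₁, h1, h1'⟩ := hc.rel
  obtain ⟨ε₂, h2, h2'⟩ := hc.cyc
  obtain ⟨ε, hε, he1, he2, he3, he4⟩ : ∃ ε : ℝ, 0 < ε ∧ ε ≤ ε₁ ∧ ε ≤ ε₂ ∧ ε ≤ ε₃ ∧ ε ≤ ε₄ :=
    ⟨min (min ε₁ ε₂) (min ε₃ ε₄), lt_min (lt_min h1 h2) (lt_min h3 h4),
      (min_le_left _ _).trans (min_le_left _ _), (min_le_left _ _).trans (min_le_right _ _),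
      (min_le_right _ _).trans (min_le_left _ _), (min_le_right _ _).trans (min_le_right _ _)⟩
  have hε4 : 0 < ε / 4 := by positivity
  have hrel : ∀ l ∈ Small Uᶜ ε, c l = 0 := fun l hl => h1' l (Small.mono Subset.rfl he1 hl)
  have hcyc : ∀ l ∈ Small (univ : Set X) ε, dd c l = 0 := fun l hl =>
    h2' l (Small.mono Subset.rfl he2 hl)
  have hbrel : ∀ l ∈ Small Uᶜ ε, b l = 0 := fun l hl => h3' l (Small.mono Subset.rfl he3 hl)
  have hcb : ∀ l ∈ Small (univ : Set X) ε, (c l : ℚ) = dd b l := fun l hl =>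
    sub_eq_zero.1 (h4' l (Small.mono Subset.rfl he4 hl))
  obtain ⟨r, hrf, hr⟩ := hFSL X (ε / 4) hε4
  have hbd : BdO q U (c - pull r c) := by
    have h := bd_of_contig (f := id) (g := r) (A := univ) (A' := Uᶜ) (B := univ) (B' := Uᶜ)
      hc.deg hrel hcyc hε4 (fun l hl => small_join hε hr hl) (fun l hl => small_join hε hr hl)
    have h3 := h.neg
    rwa [neg_sub, pull_id] at h3
  have hT := finite_lists hrf q.toNat
  obtain ⟨m, hm, hmz⟩ := exists_denom _ hT b
  have hz : ∀ l : List X, ∃ z : ℤ, (m : ℚ) * b (l.map r) = z := by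
    intro l
    by_cases h0 : b (l.map r) = 0
    · exact ⟨0, by rw [h0]; simp⟩
    · refine hmz _ ⟨?_, fun x hx => ?_⟩
      · have := (hbdg _ h0).2
        omega
      · obtain ⟨y, -, rfl⟩ := List.mem_map.1 hx
        exact mem_range_self y
  choose e he using hz
  have hfun : (fun l => (e l : ℚ)) = (m : ℚ) • pull r b := by
    funext l
    rw [← he l]
    rfl
  have hzero : ∀ l, b (l.map r) = 0 → e l = 0 := by
    intro l hl
    have h := he l
    rw [hl, mul_zero] at h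
    exact_mod_cast h.symm
  have hpull : BdO q U ((m : ℤ) • pull r c) := by
    refine ⟨e, ?_, ?_, ?_⟩
    · intro l hl
      have h0 : b (l.map r) ≠ 0 := fun h => hl (hzero l h)
      obtain ⟨h3, h4⟩ := hbdg _ h0
      rw [List.length_map] at h4
      exact ⟨fun h => h3 (by rw [h]; rfl), h4⟩
    · exact ⟨ε / 4, hε4, fun l hl => hzero l (hbrel _ (small_map hε hr hl))⟩
    · refine ⟨ε / 4, hε4, fun l hl => ?_⟩
      have h3 : dd (fun l => (Int.castAddHom ℚ) (e l)) l = (Int.castAddHom ℚ) (dd e l) :=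
        dd_map (Int.castAddHom ℚ) e l
      have h4 : (fun l => (Int.castAddHom ℚ) (e l)) = (m : ℚ) • pull r b := hfun
      rw [h4, dd_smul, dd_pull, Pi.smul_apply] at h3
      have h5 : pull r (dd b) l = (c (l.map r) : ℚ) := (hcb _ (small_map hε hr hl)).symm
      rw [h5] at h3
      have h6 : ((dd e l : ℤ) : ℚ) = (m : ℚ) * (c (l.map r) : ℚ) := h3.symm
      have h7 : dd e l = (m : ℤ) * c (l.map r) := by exact_mod_cast h6
      show (m : ℤ) • c (l.map r) - dd e l = 0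
      rw [h7, smul_eq_mul, sub_self]
  refine ⟨m, hm, ?_⟩
  have h5 : BdO q U ((m : ℤ) • (c - pull r c) + (m : ℤ) • pull r c) :=
    Bd.add (hbd.smul (m : ℤ)) hpull
  rwa [← smul_add, sub_add_cancel] at h5

end BBH


end

section

/-!
# BBH, module HZ3: the third cohomology of a connected open set with integral coefficients
-/

set_option autoImplicit false

namespace BBH

open Set Topology CTO

namespace HZ3

/-- images of cocycles under an additive map -/
theorem map_CyO {M M' X : Type} [AddCommGroup M] [AddCommGroup M'] [MetricSpace X] {q : ℤ}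
    {V : Set X} (φ : M →+ M') {c : Cc M X} (h : CyO q V c) : CyO q V (fun l => φ (c l)) := by
  refine ⟨?_, ?_, ?_⟩
  · intro l hl
    refine h.deg l fun h => hl ?_
    change φ (c l) = 0
    rw [h, map_zero]
  · obtain ⟨ε, hε, h⟩ := h.rel
    refine ⟨ε, hε, fun l hl => ?_⟩
    change φ (c l) = 0
    rw [h l hl, map_zero]
  · obtain ⟨ε, hε, h⟩ := h.cyc
    refine ⟨ε, hε, fun l hl => ?_⟩
    rw [dd_map, h l hl, map_zero]

/-- images of coboundaries under an additive map -/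
theorem map_BdO {M M' X : Type} [AddCommGroup M] [AddCommGroup M'] [MetricSpace X] {q : ℤ}
    {V : Set X} (φ : M →+ M') {c : Cc M X} (h : BdO q V c) : BdO q V (fun l => φ (c l)) := by
  obtain ⟨b, h1, h2, h3⟩ := h
  refine ⟨fun l => φ (b l), ?_, ?_, ?_⟩
  · intro l hl
    refine h1 l fun h => hl ?_
    change φ (b l) = 0
    rw [h, map_zero]
  · obtain ⟨ε, hε, h⟩ := h2
    refine ⟨ε, hε, fun l hl => ?_⟩
    change φ (b l) = 0
    rw [h l hl, map_zero]
  · obtain ⟨ε, hε, h⟩ := h3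
    refine ⟨ε, hε, fun l hl => ?_⟩
    have h4 := h l hl
    rw [Pi.sub_apply] at h4 ⊢
    rw [dd_map]
    change φ (c l) - φ (dd b l) = 0
    rw [← map_sub, h4, map_zero]

end HZ3

open HZ3 in
theorem t_HZ3 : M_HZ3 := by
  intro hALZ hFIO hRAT hDVU X _ _ hX hSj hg V hV hVc hnv
  -- finiteness
  have hfin : Module.Finite ℤ (HO ℤ ℤ 3 V) := by
    obtain ⟨x₀, hx₀⟩ := hVc.nonempty
    obtain ⟨ε, hε, hεV⟩ := Metric.nhds_basis_closedBall.mem_iff.1 (hV.mem_nhds hx₀)
    have hcl : closure (Metric.ball x₀ ε) ⊆ V := Metric.closure_ball_subset_closedBall.trans hεV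
    have hWV : Metric.ball x₀ ε ⊆ V := subset_closure.trans hcl
    have hfg := hFIO.1 ℤ ℤ X hX 3 (Metric.ball x₀ ε) V Metric.isOpen_ball hV hcl hWV
    have htop : LinearMap.range (ext ℤ ℤ (p := 3) hWV) = ⊤ := by
      rw [LinearMap.range_eq_top]
      intro a
      obtain ⟨c, hc, rfl⟩ := cls_surj a
      obtain ⟨c', hc', hb⟩ := hSj V (Metric.ball x₀ ε) hV hVc Metric.isOpen_ball hWV
        ⟨x₀, Metric.mem_ball_self hε⟩ c hc
      refine ⟨cls ℤ c' hc', ?_⟩
      have h1 : cls ℤ c hc = cls ℤ c' (CyO.mono hc' hWV) :=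
        (cls_eq (R := ℤ) hc (CyO.mono hc' hWV)).2 hb
      exact h1.symm
    rw [htop] at hfg
    exact Module.finite_def.2 hfg
  refine hALZ (HO ℤ ℤ 3 V) ?_ ?_
  · -- not torsion
    rw [VanO] at hnv
    push Not at hnv
    obtain ⟨c, hc, hcb⟩ := hnv
    obtain ⟨m, c', hm, hc', hb⟩ := hRAT X 3 V c hc
    refine ⟨cls ℤ c' hc', fun n hn h0 => hcb ?_⟩
    have h1 : BdO 3 V (n • c') := by
      rw [← cls_smul] at h0
      exact (cls_eq_zero (R := ℤ) (Cyc.smul n hc')).1 h0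
    have h2 : BdO 3 V (fun l => (Int.castAddHom ℚ) ((n • c') l)) := map_BdO _ h1
    have h3 : BdO 3 V ((n : ℚ)⁻¹ • (fun l => (Int.castAddHom ℚ) ((n • c') l))) :=
      Bd.smul (R := ℚ) _ h2
    have hnQ : (n : ℚ) ≠ 0 := by exact_mod_cast hn
    have h4 : ((n : ℚ)⁻¹ • (fun l => (Int.castAddHom ℚ) ((n • c') l)) : Cc ℚ X) =
        fun l => ((c' l : ℤ) : ℚ) := by
      funext l
      change (n : ℚ)⁻¹ * (((n * c' l : ℤ)) : ℚ) = ((c' l : ℤ) : ℚ)
      rw [Int.cast_mul, inv_mul_cancel_left₀ hnQ]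
    rw [h4] at h3
    have h5 : BdO 3 V ((m : ℚ) • c) := Bd.of_sub hb h3
    have h6 : BdO 3 V ((m : ℚ)⁻¹ • ((m : ℚ) • c)) := Bd.smul (R := ℚ) _ h5
    have hmQ : (m : ℚ) ≠ 0 := by exact_mod_cast hm.ne'
    rwa [inv_smul_smul₀ hmQ] at h6
  · -- rank one mod p
    intro p hp a b
    have : Fact p.Prime := ⟨hp⟩
    obtain ⟨ca, hca, rfl⟩ := cls_surj a
    obtain ⟨cb, hcb, rfl⟩ := cls_surj b
    obtain ⟨g, hgc, hgu⟩ := hg p V hV hVc
    obtain ⟨ta, hta⟩ := hgu _ (map_CyO (Int.castAddHom (ZMod p)) hca)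
    obtain ⟨tb, htb⟩ := hgu _ (map_CyO (Int.castAddHom (ZMod p)) hcb)
    -- the choice of the coefficients
    obtain ⟨s, t, hst, hrel⟩ : ∃ s t : ℤ, ¬ ((p : ℤ) ∣ s ∧ (p : ℤ) ∣ t) ∧
        (s : ZMod p) * ta + (t : ZMod p) * tb = 0 := by
      by_cases h0 : ta = 0 ∧ tb = 0
      · refine ⟨1, 0, fun h => ?_, ?_⟩
        · have h1 := h.1
          have h2 : (p : ℤ) ∣ 1 := h1
          have h3 : p ∣ 1 := by exact_mod_cast h2
          exact hp.one_lt.ne' (Nat.dvd_one.1 h3)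
        · rw [h0.1, h0.2, mul_zero, mul_zero, add_zero]
      · refine ⟨(tb.val : ℤ), -(ta.val : ℤ), fun h => h0 ?_, ?_⟩
        · have h1 := h.1
          have h2 := (dvd_neg.1 h.2)
          rw [← ZMod.intCast_zmod_eq_zero_iff_dvd, Int.cast_natCast, ZMod.natCast_zmod_val] at h1 h2
          exact ⟨h2, h1⟩
        · rw [Int.cast_neg, Int.cast_natCast, Int.cast_natCast, ZMod.natCast_zmod_val,
            ZMod.natCast_zmod_val]
          ring
    -- the combination
    have hcomb : CyO 3 V (s • ca + t • cb) := Cyc.add (Cyc.smul s hca) (Cyc.smul t hcb)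
    have h1 : BdO 3 V ((s : ZMod p) • ((fun l => (Int.castAddHom (ZMod p)) (ca l)) - ta • g) +
        (t : ZMod p) • ((fun l => (Int.castAddHom (ZMod p)) (cb l)) - tb • g)) :=
      Bd.add (Bd.smul (R := ZMod p) _ hta) (Bd.smul (R := ZMod p) _ htb)
    have h2 : ((s : ZMod p) • ((fun l => (Int.castAddHom (ZMod p)) (ca l)) - ta • g) +
        (t : ZMod p) • ((fun l => (Int.castAddHom (ZMod p)) (cb l)) - tb • g) : Cc (ZMod p) X) =
        fun l => (((s • ca + t • cb : Cc ℤ X) l : ℤ) : ZMod p) := by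
      funext l
      change (s : ZMod p) * (((ca l : ℤ) : ZMod p) - ta * g l) +
        (t : ZMod p) * (((cb l : ℤ) : ZMod p) - tb * g l) =
        ((s * ca l + t * cb l : ℤ) : ZMod p)
      rw [Int.cast_add, Int.cast_mul, Int.cast_mul]
      linear_combination (- g l) * hrel
    rw [h2] at h1
    obtain ⟨c', hc', hb'⟩ := hDVU X p 3 V hp.pos _ hcomb h1
    refine ⟨s, t, cls ℤ c' hc', hst, ?_⟩
    have h3 : cls ℤ (s • ca + t • cb) hcomb = cls ℤ ((p : ℤ) • c') (Cyc.smul (p : ℤ) hc') :=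
      (cls_eq (R := ℤ) hcomb (Cyc.smul (p : ℤ) hc')).2 hb'
    exact h3

end BBH


end

section

/-!
# Module CLA: proper closed sets have no cohomology in degree three
-/

set_option autoImplicit false

namespace BBH

open Set Topology CTO

theorem t_CLA : M_CLA := by
  intro hDim M X _ _ _ hS hcon hSj A hA hne c hc
  have h4 : Cyc (3 + 1) (univ : Set X) A (dd c) := les_conn hc
  have hb : Bd (3 + 1) (univ : Set X) A (dd c) :=
    hDim M X 3 hS (3 + 1) univ A (by norm_num) (subset_univ A) (dd c) h4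
  obtain ⟨c', hc', hcc'⟩ := les_right (empty_subset A) hc hb
  have hO : CyO 3 (univ : Set X) c' := by
    have h := hc'
    rw [← compl_univ] at h
    exact h
  obtain ⟨c'', hc'', hbd⟩ := hSj univ Aᶜ isOpen_univ hcon hA.isOpen_compl (subset_univ _)
    (nonempty_compl.2 hne) c' hO
  have hz : Zr A c'' := by
    have h := hc''.rel
    rwa [compl_compl] at h
  have h1 : Bd 3 A ∅ (c' - c'') := by
    refine Bd.mono hbd (subset_univ A) (empty_subset _)
  have h2 : Bd 3 A ∅ c'' := Bd.of_Zr hz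
  have h3 := (hcc'.add h1).add h2
  rwa [sub_add_sub_cancel, sub_add_cancel] at h3

end BBH


end
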