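import Mathlib
import Pool.Agent.BBM.C16

/-! Parts: BBH.B_FGC, BBH.B_FIN, BBH.C_UC, BBH.D_EXS, BBH.D_FGD, BBH.E_MOA, BBH.E_MOC, BBH.G_RKB, BBH.G_FRH, BBH.G_LEV, BBH.H_RAT, BBH.H_LTZ, BBH.H_ORI -/

section

/-!
# BBH, module FGC: finite unions of compact convex sets have finitely generated cohomology

Induction on the number of sets, with the Mayer-Vietoris statement `S_FGU`.
-/

set_option autoImplicit false

namespace BBH

open Set Topology CTO

namespace FGC

variable {R M X E : Type}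

/-- no cohomology: finitely generated -/
theorem fin_of_van [CommRing R] [AddCommGroup M] [Module R M] [MetricSpace X] {p : ℤ}
    {A B : Set X} (h : Van M p A B) : Module.Finite R (H R M p A B) := by
  have hs : Subsingleton (H R M p A B) := by
    refine ⟨fun a b => ?_⟩
    obtain ⟨c, hc, rfl⟩ := cls_surj a
    obtain ⟨c', hc', rfl⟩ := cls_surj b
    exact (cls_eq hc hc').2 (h _ (hc.sub hc'))
  infer_instance

/-- constant cochains of degree `0` are cocycles everywhere -/
theorem dd_const [AddCommGroup M] [MetricSpace X] (m : M) :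
    dd (c0 fun _ : X => m) = 0 := by
  have hd : Dg X (0 + 1) (dd (c0 fun _ : X => m)) := (Dg.c0 _).dd
  funext l
  rcases l with _ | ⟨x, _ | ⟨y, _ | ⟨z, l⟩⟩⟩
  · exact Dg.nil hd
  · by_contra hne
    have h1 := hd _ hne
    simp at h1
  · rw [dd_c0_two, sub_self]
    rfl
  · by_contra hne
    have h1 := hd _ hne
    simp only [List.length_cons] at h1
    push_cast at h1
    omega

theorem cyc_const [AddCommGroup M] [MetricSpace X] (A : Set X) (m : M) :
    Cyc 0 A ∅ (c0 fun _ : X => m) :=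
  ⟨Dg.c0 _, Zr.empty (Dg.c0 _), by rw [dd_const]; exact Zr.zero _⟩

/-- preconnected sets, degree `0` -/
theorem fin_zero [CommRing R] [AddCommGroup M] [Module R M] [Module.Finite R M] [MetricSpace X]
    (hCON : S_CON) {A : Set X} (hA : IsPreconnected A) : Module.Finite R (H R M 0 A ∅) := by
  let f : M →ₗ[R] H R M 0 A (∅ : Set X) :=
    { toFun := fun m => cls R (c0 fun _ : X => m) (cyc_const A m)
      map_add' := fun m m' => by
        rw [← cls_add, cls_eq]
        have h1 : (c0 fun _ : X => m + m') = (c0 fun _ : X => m) + (c0 fun _ : X => m') :=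
          c0_add (fun _ : X => m) (fun _ : X => m')
        rw [h1, sub_self]
        exact Bd.zero
      map_smul' := fun a m => by
        rw [RingHom.id_apply, ← cls_smul, cls_eq]
        have h1 : (c0 fun _ : X => a • m) = a • (c0 fun _ : X => m) :=
          c0_smul a (fun _ : X => m)
        rw [h1, sub_self]
        exact Bd.zero }
  refine Module.Finite.of_surjective f ?_
  intro a
  obtain ⟨c, hc, rfl⟩ := cls_surj a
  obtain ⟨m, hm⟩ := hCON M X A hA c hc
  refine ⟨m, ?_⟩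
  change cls R (c0 fun _ : X => m) (cyc_const A m) = cls R c hc
  rw [cls_eq]
  exact (Bd.of_Zr hm).symm

/-- convex sets contract -/
theorem ctr_convex [NormedAddCommGroup E] [NormedSpace ℝ E] {C : Set E} (hC : Convex ℝ C)
    (hne : C.Nonempty) : Ctr C C := by
  obtain ⟨w, hw⟩ := hne
  refine ⟨w, fun q => (1 - q.2) • q.1 + q.2 • w, hw, ?_, ?_, ?_, ?_⟩
  · have h1 : Continuous fun q : E × ℝ => (1 - q.2) • q.1 + q.2 • w := by fun_prop
    exact h1.continuousOn
  · rintro ⟨x, t⟩ ⟨hx, ht⟩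
    exact hC hx hw (sub_nonneg.2 ht.2) ht.1 (by simp)
  · intro x _
    simp
  · intro x _
    simp

/-- one compact convex set -/
theorem fin_one [CommRing R] [AddCommGroup M] [Module R M] [Module.Finite R M]
    [NormedAddCommGroup E] [NormedSpace ℝ E] (hCTR : S_CTR) (hCON : S_CON) {C : Set E}
    (hK : IsCompact C) (hC : Convex ℝ C) (p : ℤ) : Module.Finite R (H R M p C ∅) := by
  rcases C.eq_empty_or_nonempty with rfl | hne
  · exact fin_of_van (Van.empty p ∅)
  · rcases lt_trichotomy p 0 with hp | rfl | hp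
    · exact fin_of_van (Van.neg hp _ _)
    · exact fin_zero hCON hC.isPreconnected
    · exact fin_of_van fun c hc => hCTR M E C C hK Subset.rfl (ctr_convex hC hne) p (by omega) c hc

theorem fin_all [CommRing R] [IsNoetherianRing R] [AddCommGroup M] [Module R M]
    [Module.Finite R M] [NormedAddCommGroup E] [NormedSpace ℝ E] (hCTR : S_CTR) (hCON : S_CON)
    (hFGU : S_FGU) (n : ℕ) : ∀ (C : Fin n → Set E), (∀ i, IsCompact (C i)) →
    (∀ i, Convex ℝ (C i)) → ∀ p : ℤ, Module.Finite R (H R M p (⋃ i, C i) ∅) := by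
  induction n with
  | zero =>
    intro C _ _ p
    have h1 : (⋃ i, C i) = (∅ : Set E) := by
      rw [iUnion_eq_empty]
      exact fun i => i.elim0
    rw [h1]
    exact fin_of_van (Van.empty p ∅)
  | succ n ih =>
    intro C hK hC p
    have h1 : (⋃ i, C i) = C (Fin.last n) ∪ ⋃ i : Fin n, C i.castSucc := by
      ext x
      simp only [mem_iUnion, mem_union]
      constructor
      · rintro ⟨i, hi⟩
        rcases Fin.eq_castSucc_or_eq_last i with ⟨j, rfl⟩ | rfl
        · exact Or.inr ⟨j, hi⟩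
        · exact Or.inl hi
      · rintro (hi | ⟨j, hj⟩)
        · exact ⟨_, hi⟩
        · exact ⟨_, hj⟩
    have h2 : C (Fin.last n) ∩ (⋃ i : Fin n, C i.castSucc) =
        ⋃ i : Fin n, C (Fin.last n) ∩ C i.castSucc := inter_iUnion _ _
    rw [h1]
    refine hFGU R M E p _ _ (hK _) ?_ (fin_one hCTR hCON (hK _) (hC _) p)
      (ih (fun i => C i.castSucc) (fun i => hK _) (fun i => hC _) p) ?_
    · exact isClosed_iUnion_of_finite fun i => (hK _).isClosed
    · rw [h2]
      exact ih (fun i => C (Fin.last n) ∩ C i.castSucc)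
        (fun i => (hK _).inter_right (hK _).isClosed) (fun i => (hC _).inter (hC _)) (p - 1)

end FGC

theorem t_FGC : M_FGC := by
  intro hCTR hCON hFGU R M E _ _ _ _ _ _ _ n C hK hC p
  exact FGC.fin_all hCTR hCON hFGU n C hK hC p

end BBH


end

section

/-!
# BBH: restriction maps of compact ANRs have finitely generated range
-/

set_option autoImplicit false

namespace BBH

open Set Topology CTO

namespace FIN

section pull

variable {R M X Y : Type} [CommRing R] [AddCommGroup M] [Module R M] [MetricSpace X]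
  [MetricSpace Y] {p : ℤ} {A A' : Set X} {B B' : Set Y}

variable (R M) in
/-- pull back of cocycles -/
def pullZ {f : X → Y} (hf : PMap f A A' B B') : ZZ R M p B B' →ₗ[R] ZZ R M p A A' where
  toFun c := ⟨pull f c.1, cyc_pull hf c.2⟩
  map_add' _ _ := rfl
  map_smul' _ _ := rfl

/-- the induced map of cohomology -/
theorem exists_pull {f : X → Y} (hf : PMap f A A' B B') :
    ∃ F : H R M p B B' →ₗ[R] H R M p A A', ∀ c (h : Cyc p B B' c),
      F (cls R c h) = cls R (pull f c) (cyc_pull hf h) := by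
  obtain ⟨F, hF⟩ := exists_lift ((BB R M p A A').mkQ.comp (pullZ R M hf)) (by
    intro c hc
    rw [LinearMap.comp_apply, Submodule.mkQ_apply, Submodule.Quotient.mk_eq_zero]
    exact bd_pull hf hc)
  exact ⟨F, fun c h => hF c h⟩

end pull

theorem main (h1 : S_FGR) (h2 : S_FGC) (h3 : S_HUL) : S_FIN := by
  intro R M X _ _ _ _ _ _ _ hX p K K' L L' hK hL hKK hLL hLK hL'K' h h'
  obtain ⟨E, _, _, e, r, Ω, n, C, J, he, hΩ, hr, hre, hCc, hCv, hCΩ, heK, heL, hrK, hrL⟩ :=
    h3 X hX K K' L L' hK hL hKK hLL hLK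
  have hQP : (⋃ i ∈ J, C i) ⊆ ⋃ i, C i := by
    intro x hx
    obtain ⟨i, _, hi⟩ := Set.mem_iUnion₂.1 hx
    exact Set.mem_iUnion.2 ⟨i, hi⟩
  have hP : ∀ q : ℤ, Module.Finite R (H R M q (⋃ i, C i) ∅) := fun q =>
    h2 R M E n C hCc hCv q
  have hQ : ∀ q : ℤ, Module.Finite R (H R M q (⋃ i ∈ J, C i) ∅) := by
    intro q
    obtain ⟨m, ⟨φ⟩⟩ := Finite.exists_equiv_fin J
    have h4 : (⋃ i ∈ J, C i) = ⋃ j : Fin m, C (φ.symm j).1 := by
      rw [Set.biUnion_eq_iUnion]
      exact (φ.symm.surjective.iUnion_comp fun i : J => C i.1).symm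
    rw [h4]
    exact h2 R M E m _ (fun _ => hCc _) (fun _ => hCv _) q
  have hfin : Module.Finite R (H R M p (⋃ i, C i) (⋃ i ∈ J, C i)) :=
    h1 R M E p _ _ hQP (hP p) (hQ (p - 1))
  have hPc : IsCompact (⋃ i, C i) := isCompact_iUnion hCc
  have hpe : PMap e K L (⋃ i, C i) (⋃ i ∈ J, C i) :=
    PMap.of_continuous hK.isCompact he hLK heK heL
  have hpr : PMap r (⋃ i, C i) (⋃ i ∈ J, C i) K' L' :=
    PMap.of_CA hPc (fun x hx => hr.continuousAt (hΩ.mem_nhds (hCΩ hx))) hQP hrK hrL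
  obtain ⟨F, hF⟩ := exists_pull (R := R) (M := M) (p := p) hpe
  have hFG : (LinearMap.range F).FG := by
    rw [LinearMap.range_eq_map]
    exact (Module.Finite.fg_top).map F
  refine Submodule.FG.of_le hFG ?_
  rintro _ ⟨a, rfl⟩
  obtain ⟨c, hc, rfl⟩ := cls_surj a
  refine ⟨cls R (pull r c) (cyc_pull hpr hc), ?_⟩
  rw [hF, res_cls]
  have h5 : pull e (pull r c) = c := by
    rw [pull_pull]
    have h6 : r ∘ e = id := funext hre
    rw [h6, pull_id]
  rw [cls_eq, h5, sub_self]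
  exact Bd.zero

end FIN

theorem t_FIN : M_FIN := fun h1 h2 h3 => FIN.main h1 h2 h3

end BBH


end

section

/-!
# Module UC: unique continuation
-/

set_option autoImplicit false

namespace BBH

open Set Topology CTO

/-- UC -/
theorem t_UC : M_UC := by
  intro hA hB k X _ _ _ _ hX hH p V s hV hVc hK hex y hy
  have : Nonempty X := ⟨y⟩
  have hU : ∀ z : X, UCat k p z := hB k X hH p (hA k X hX p)
  by_contra hn
  obtain ⟨y₀, hy₀, hz₀⟩ := hex
  have o1 : IsOpen {z : X | Zg p s z} := by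
    rw [isOpen_iff_mem_nhds]
    rintro z ⟨W, hW, hzW, h⟩
    exact Filter.mem_of_superset (hW.mem_nhds hzW) fun z' hz' => ⟨W, hW, hz', h⟩
  have o2 : IsOpen {z : X | z ∈ V ∧ ¬ Zg p s z} := by
    rw [isOpen_iff_mem_nhds]
    rintro z ⟨hzV, hz⟩
    obtain ⟨W, hW, hzW, h⟩ := hU z V s hV hzV hK hz
    exact Filter.mem_of_superset ((hW.inter hV).mem_nhds ⟨hzW, hzV⟩)
      fun z' hz' => ⟨hz'.2, h z' hz'.1⟩
  obtain ⟨z, _, hz1, hz2⟩ := hVc _ _ o1 o2
    (fun z hz => by
      by_cases h : Zg p s z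
      · exact Or.inl h
      · exact Or.inr ⟨hz, h⟩)
    ⟨y₀, hy₀, hz₀⟩ ⟨y, hy, hy, hn⟩
  exact hz2.2 hz1

end BBH


end

section

/-!
# BBH: sections of the line bundle extend
-/

set_option autoImplicit false

namespace BBH

open Set Topology CTO

namespace EXS

/-- `ℂ × ℂ` to `R4` -/
noncomputable def toR (v : ℂ × ℂ) : R4 := ![v.1.re, v.1.im, v.2.re, v.2.im]

/-- `R4` to `ℂ × ℂ` -/
noncomputable def ofR (y : R4) : ℂ × ℂ := (⟨y 0, y 1⟩, ⟨y 2, y 3⟩)

theorem ofR_toR (v : ℂ × ℂ) : ofR (toR v) = v := by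
  refine Prod.ext ?_ ?_ <;> apply Complex.ext <;> simp [ofR, toR]

theorem toR_ofR (y : R4) : toR (ofR y) = y := by
  funext i
  fin_cases i <;> simp [ofR, toR]

theorem toR_cont : Continuous toR := by
  refine continuous_pi fun i => ?_
  fin_cases i
  · exact Complex.continuous_re.comp continuous_fst
  · exact Complex.continuous_im.comp continuous_fst
  · exact Complex.continuous_re.comp continuous_snd
  · exact Complex.continuous_im.comp continuous_snd

theorem ofR_cont : Continuous ofR := by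
  have h : ∀ i j : Fin 4, Continuous fun y : R4 => (⟨y i, y j⟩ : ℂ) := by
    intro i j
    have h1 : (fun y : R4 => (⟨y i, y j⟩ : ℂ)) = fun y : R4 => (y i : ℂ) + (y j : ℂ) * Complex.I := by
      funext y
      exact Complex.mk_eq_add_mul_I _ _
    rw [h1]
    exact (Complex.continuous_ofReal.comp (continuous_apply i)).add
      ((Complex.continuous_ofReal.comp (continuous_apply j)).mul continuous_const)
  exact (h 0 1).prodMk (h 2 3)

theorem toR_ne {v : ℂ × ℂ} (h : v ≠ 0) : toR v ≠ 0 := by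
  intro h1
  apply h
  rw [← ofR_toR v, h1]
  refine Prod.ext ?_ ?_ <;> apply Complex.ext <;> simp [ofR]

theorem ofR_ne {y : R4} (h : y ≠ 0) : ofR y ≠ 0 := by
  intro h1
  apply h
  rw [← toR_ofR y, h1]
  funext i
  fin_cases i <;> simp [toR]

variable {X : Type} [MetricSpace X] [CompactSpace X]

open Classical in
/-- one step -/
theorem step (hE : S_EXT4) (hX : ShrLE X 3) {n : ℕ} {K S : Set X} {φ : Fin n → X → ℝ}
    {g : Fin n → Fin n → X → ℂ} {F : Fin n → X → ℂ × ℂ} (hK : IsClosed K) (hS : IsClosed S)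
    (hT : Trn K φ g) (hF : Sct S φ g F) (i : Fin n) (c : ℝ) (hc : 0 < c) :
    ∃ F' : Fin n → X → ℂ × ℂ, Sct (S ∪ {x | x ∈ K ∧ c ≤ φ i x}) φ g F' ∧
      ∀ j, ∀ x ∈ S, F' j x = F j x := by
  have hKi : IsClosed {x | x ∈ K ∧ c ≤ φ i x} :=
    hK.inter (isClosed_le continuous_const (hT.con i))
  have hne : ∀ x, c ≤ φ i x → φ i x ≠ 0 := fun x hx => (lt_of_lt_of_le hc hx).ne'
  obtain ⟨Fh, hFc, hFn, hFe⟩ := hE X hX (S ∩ {x | x ∈ K ∧ c ≤ φ i x}) (fun x => toR (F i x))
    (hS.inter hKi)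
    (toR_cont.comp_continuousOn ((hF.con i).mono fun x hx => ⟨hx.1, hne x hx.2.2⟩))
    (fun x hx => toR_ne (hF.ne i x hx.1 (hne x hx.2.2)))
  set G : X → ℂ × ℂ := fun x => ofR (Fh x) with hG
  have hGc : Continuous G := ofR_cont.comp hFc
  have hGn : ∀ x, G x ≠ 0 := fun x => ofR_ne (hFn x)
  have hGe : ∀ x, x ∈ S → x ∈ K → c ≤ φ i x → G x = F i x := by
    intro x h1 h2 h3
    have h4 : Fh x = toR (F i x) := hFe ⟨h1, h2, h3⟩
    show ofR (Fh x) = F i x
    rw [h4, ofR_toR]
  let F' : Fin n → X → ℂ × ℂ := fun j x => if x ∈ S then F j x else g i j x • G x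
  have h1 : ∀ j, ∀ x ∈ S, F' j x = F j x := fun j x hx => if_pos hx
  have h2 : ∀ j x, x ∈ K → c ≤ φ i x → φ j x ≠ 0 → F' j x = g i j x • G x := by
    intro j x hxK hx hj
    by_cases hxS : x ∈ S
    · rw [h1 j x hxS, hGe x hxS hxK hx]
      exact hF.tr i j x hxS (hne x hx) hj
    · exact if_neg hxS
  refine ⟨F', ⟨fun j => ?_, fun j x hx hj => ?_, fun j k x hx hj hk => ?_⟩, h1⟩
  · have hset : {x | x ∈ S ∪ {x | x ∈ K ∧ c ≤ φ i x} ∧ φ j x ≠ 0} =
        {x | x ∈ S ∧ φ j x ≠ 0} ∪ {x | (x ∈ K ∧ c ≤ φ i x) ∧ φ j x ≠ 0} := by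
      ext x
      simp only [mem_union, Set.mem_ofPred_eq]
      tauto
    rw [hset]
    have hA : ContinuousOn (F' j) {x | x ∈ S ∧ φ j x ≠ 0} :=
      (hF.con j).congr fun x hx => h1 j x hx.1
    have hB : ContinuousOn (F' j) {x | (x ∈ K ∧ c ≤ φ i x) ∧ φ j x ≠ 0} := by
      have h3 : ContinuousOn (fun x => g i j x • G x)
          {x | (x ∈ K ∧ c ≤ φ i x) ∧ φ j x ≠ 0} := by
        refine ContinuousOn.smul ((hT.cg i j).mono fun x hx => ?_) hGc.continuousOn
        exact ⟨hx.1.1, hne x hx.1.2, hx.2⟩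
      exact h3.congr fun x hx => h2 j x hx.1.1 hx.1.2 hx.2
    intro x hx
    have hj : φ j x ≠ 0 := by
      rcases hx with h | h
      · exact h.2
      · exact h.2
    refine ContinuousWithinAt.union ?_ ?_
    · by_cases h : x ∈ S
      · exact hA x ⟨h, hj⟩
      · refine continuousWithinAt_of_notMem_closure fun h' => h ?_
        exact closure_minimal (fun y hy => hy.1) hS h'
    · by_cases h : x ∈ K ∧ c ≤ φ i x
      · exact hB x ⟨h, hj⟩
      · refine continuousWithinAt_of_notMem_closure fun h' => h ?_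
        exact closure_minimal (fun y hy => hy.1) hKi h'
  · by_cases hxS : x ∈ S
    · rw [h1 j x hxS]
      exact hF.ne j x hxS hj
    · obtain ⟨hxK, hxi⟩ : x ∈ K ∧ c ≤ φ i x := hx.resolve_left hxS
      rw [h2 j x hxK hxi hj]
      exact smul_ne_zero (hT.ne i j x hxK) (hGn x)
  · by_cases hxS : x ∈ S
    · rw [h1 j x hxS, h1 k x hxS]
      exact hF.tr j k x hxS hj hk
    · obtain ⟨hxK, hxi⟩ : x ∈ K ∧ c ≤ φ i x := hx.resolve_left hxS
      rw [h2 j x hxK hxi hj, h2 k x hxK hxi hk, smul_smul,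
        ← hT.mul i j k x hxK (hne x hxi) hj hk, mul_comm]

theorem main (hE : S_EXT4) : S_EXS := by
  intro X _ _ hX n K L φ g F hK hL hLK hT hF
  have key : ∀ s : Finset (Fin n), ∃ S : Set X, IsClosed S ∧ S ⊆ K ∧ L ⊆ S ∧
      (∀ j ∈ s, ∀ x ∈ K, 1 / (n : ℝ) ≤ φ j x → x ∈ S) ∧
      ∃ F' : Fin n → X → ℂ × ℂ, Sct S φ g F' ∧ ∀ j, ∀ x ∈ L, F' j x = F j x := by
    intro s
    classical
    induction s using Finset.induction_on with
    | empty =>
      exact ⟨L, hL, hLK, Subset.rfl, fun j hj => absurd hj (Finset.notMem_empty j), F, hF,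
        fun _ _ _ => rfl⟩
    | insert i s _ ih =>
      obtain ⟨S, h1, h2, h3, h4, F1, h5, h6⟩ := ih
      have hn : 0 < n := Fin.pos i
      have hc : 0 < 1 / (n : ℝ) := by positivity
      obtain ⟨F2, h7, h8⟩ := step hE hX hK h1 hT h5 i (1 / (n : ℝ)) hc
      refine ⟨S ∪ {x | x ∈ K ∧ 1 / (n : ℝ) ≤ φ i x}, ?_, ?_, h3.trans subset_union_left, ?_, F2,
        h7, fun j x hx => ?_⟩
      · exact h1.union (hK.inter (isClosed_le continuous_const (hT.con i)))
      · exact union_subset h2 fun x hx => hx.1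
      · intro j hj x hx hjx
        rcases Finset.mem_insert.1 hj with rfl | hj
        · exact Or.inr ⟨hx, hjx⟩
        · exact Or.inl (h4 j hj x hx hjx)
      · rw [h8 j x (h3 hx), h6 j x hx]
  obtain ⟨S, h1, h2, h3, h4, F', h5, h6⟩ := key Finset.univ
  have hKS : K ⊆ S := by
    intro x hx
    by_contra hxS
    have h7 : ∀ j, φ j x < 1 / (n : ℝ) := by
      intro j
      by_contra h8
      exact hxS (h4 j (Finset.mem_univ j) x hx (not_lt.1 h8))
    have h9 := hT.sum x
    rcases Nat.eq_zero_or_pos n with rfl | hn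
    · simp at h9
    · have h10 : ∑ j, φ j x < ∑ _j : Fin n, 1 / (n : ℝ) :=
        Finset.sum_lt_sum_of_nonempty ⟨⟨0, hn⟩, Finset.mem_univ _⟩ fun j _ => h7 j
      have hn' : (n : ℝ) ≠ 0 := by
        have : (0 : ℝ) < n := by exact_mod_cast hn
        exact this.ne'
      rw [h9, Finset.sum_const, Finset.card_univ, Fintype.card_fin, nsmul_eq_mul,
        mul_one_div, div_self hn'] at h10
      exact lt_irrefl _ h10
  have hSK : S = K := Subset.antisymm h2 hKS
  subst hSK
  exact ⟨F', h5, fun j x hx _ => h6 j x hx⟩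

end EXS

theorem t_EXS : M_EXS := fun h => EXS.main h

end BBH


end

section

/-!
# BBH, FGD: finitely generated divisible abelian groups are trivial
-/

set_option autoImplicit false

namespace BBH

namespace FGD

/-- a divisible group killed by a positive integer is trivial -/
theorem of_killed {A : Type} [AddCommGroup A]
    (h : ∀ p : ℕ, p.Prime → ∀ a : A, ∃ b : A, a = (p : ℤ) • b) :
    ∀ n : ℕ, 0 < n → (∀ a : A, (n : ℤ) • a = 0) → ∀ a : A, a = 0 := by
  intro n
  induction n using Nat.strong_induction_on with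
  | _ n ih =>
    intro hn hk a
    by_cases h1 : n = 1
    · have h2 := hk a
      rw [h1] at h2
      simpa using h2
    · have hp := Nat.minFac_prime h1
      obtain ⟨m, hm⟩ := Nat.minFac_dvd n
      have hm0 : 0 < m := by
        rcases Nat.eq_zero_or_pos m with h0 | h0
        · rw [h0, mul_zero] at hm
          omega
        · exact h0
      have hmn : m < n := by
        have h3 := hp.two_le
        calc m < 2 * m := by omega
          _ ≤ n.minFac * m := Nat.mul_le_mul_right m h3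
          _ = n := hm.symm
      refine ih m hmn hm0 (fun a' => ?_) a
      obtain ⟨b, hb⟩ := h _ hp a'
      rw [hb, smul_smul]
      have h4 : (m : ℤ) * (n.minFac : ℤ) = (n : ℤ) := by
        rw [mul_comm]
        exact_mod_cast hm.symm
      rw [h4]
      exact hk b

end FGD

theorem t_FGD : S_FGD := by
  intro A _ _ h
  have hle : (⊤ : Submodule ℤ A) ≤ Ideal.span {(2 : ℤ)} • (⊤ : Submodule ℤ A) := by
    intro a _
    obtain ⟨b, hb⟩ := h 2 Nat.prime_two a
    rw [hb]
    exact Submodule.smul_mem_smul (Ideal.mem_span_singleton_self _) Submodule.mem_top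
  obtain ⟨r, hr, hr0⟩ := Submodule.exists_sub_one_mem_and_smul_eq_zero_of_fg_of_le_smul
    (Ideal.span {(2 : ℤ)}) (⊤ : Submodule ℤ A) Module.Finite.fg_top hle
  rw [Ideal.mem_span_singleton] at hr
  have hr1 : r ≠ 0 := by
    rintro rfl
    omega
  refine FGD.of_killed h r.natAbs (Int.natAbs_pos.2 hr1) (fun a => ?_)
  rcases Int.natAbs_eq r with h1 | h1
  · rw [← h1]
    exact hr0 a Submodule.mem_top
  · have h2 : ((r.natAbs : ℕ) : ℤ) = -r := by omega
    rw [h2, neg_smul, hr0 a Submodule.mem_top, neg_zero]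

end BBH


end

section

/-!
# BBH: monodromy along arcs
-/

set_option autoImplicit false

namespace BBH

open Set Topology CTO

namespace MOA

variable {k X : Type} [Field k] [MetricSpace X] {A : Set X} {a b : X}

theorem arc_compact (h : BBP.Arc A a b) : IsCompact A := by
  obtain ⟨e, h1, h2, h3, h4, h5⟩ := h
  rw [h5]
  exact isCompact_Icc.image_of_continuousOn h1

theorem arc_conn (h : BBP.Arc A a b) : IsPreconnected A := by
  obtain ⟨e, h1, h2, h3, h4, h5⟩ := h
  rw [h5]
  exact isPreconnected_Icc.image _ h1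

theorem arc_left (h : BBP.Arc A a b) : a ∈ A := by
  obtain ⟨e, h1, h2, h3, h4, h5⟩ := h
  rw [h5, ← h3]
  exact mem_image_of_mem e (by simp)

theorem arc_right (h : BBP.Arc A a b) : b ∈ A := by
  obtain ⟨e, h1, h2, h3, h4, h5⟩ := h
  rw [h5, ← h4]
  exact mem_image_of_mem e (by simp)

theorem single_small {x : X} (hx : x ∈ A) {ε : ℝ} (hε : 0 < ε) : [x] ∈ Small A ε := by
  refine ⟨fun y hy => ?_, fun y hy z hz => ?_⟩
  · rw [List.mem_singleton] at hy
    subst hy
    exact Metric.self_subset_thickening hε A hx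
  · rw [List.mem_singleton] at hy hz
    subst hy
    subst hz
    rw [dist_self]
    exact hε

theorem uniq (hC : S_CON) (h : BBP.Arc A a b) (g : Cc k X) (m m' : k) (h1 : Mo A a b g m)
    (h2 : Mo A a b g m') : m = m' := by
  obtain ⟨f, hf, rfl⟩ := h1
  obtain ⟨f', hf', rfl⟩ := h2
  have h3 : Zr A (dd (c0 (f - f'))) := by
    have h4 := hf'.sub hf
    have h5 : g - dd (c0 f') - (g - dd (c0 f)) = dd (c0 (f - f')) := by
      rw [c0_sub, dd_sub]
      abel
    rwa [h5] at h4
  obtain ⟨m0, ε, hε, hm⟩ := hC k X A (arc_conn h) (c0 (f - f'))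
    ⟨Dg.c0 _, Zr.empty (Dg.c0 _), h3⟩
  have h6 : ∀ x ∈ A, f x - f' x = m0 := by
    intro x hx
    have h7 := hm [x] (single_small hx hε)
    rw [Pi.sub_apply, c0_single, c0_single, Pi.sub_apply, sub_eq_zero] at h7
    exact h7
  have h8 := h6 a (arc_left h)
  have h9 := h6 b (arc_right h)
  linear_combination h9 - h8

theorem near (g : Cc k X) (S : Set X) (ε : ℝ) (hε : 0 < ε) (hg : Dg X 1 g)
    (hd : ∀ l ∈ Small S ε, dd g l = 0) (hAS : A ⊆ S) (hab : A ⊆ Metric.ball a (ε / 4))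
    (ha : a ∈ A) : Mo A a b g (g [a, b]) := by
  have haa : g [a, a] = 0 := by
    have h1 : [a, a, a] ∈ Small S ε := by
      refine ⟨fun y hy => ?_, fun y hy z hz => ?_⟩
      · have : y = a := by simpa using hy
        subst this
        exact Metric.self_subset_thickening hε S (hAS ha)
      · have h2 : y = a := by simpa using hy
        have h3 : z = a := by simpa using hz
        subst h2
        rw [h3, dist_self]
        exact hε
    have h2 := hd _ h1
    simp only [dd_cons, dd_nil, sh_apply] at h2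
    have h3 : g [a, a] - (g [a, a] - (g [a, a] - 0)) = g [a, a] := by ring
    rwa [h3] at h2
  refine ⟨fun w => g [a, w], ⟨ε / 4, by positivity, fun l hl => ?_⟩, by
    show g [a, b] = g [a, b] - g [a, a]
    rw [haa, sub_zero]⟩
  have hdeg : Dg X 1 (g - dd (c0 fun w => g [a, w])) := hg.sub (Dg.c0 _).dd
  by_contra hne
  have h1 := (hdeg l hne).2
  obtain ⟨w, w', rfl⟩ : ∃ w w', l = [w, w'] := by
    rcases l with _ | ⟨w, _ | ⟨w', _ | ⟨w2, l⟩⟩⟩
    · simp at h1
    · simp at h1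
    · exact ⟨w, w', rfl⟩
    · simp only [List.length_cons] at h1
      push_cast at h1
      omega
  have near : ∀ y ∈ [w, w'], dist y a < ε / 2 ∧ y ∈ Metric.thickening ε S := by
    intro y hy
    obtain ⟨z, hz, hyz⟩ := Metric.mem_thickening_iff.1 (hl.1 y hy)
    have h2 : dist z a < ε / 4 := hab hz
    have h3 := dist_triangle y z a
    refine ⟨by linarith, Metric.mem_thickening_iff.2 ⟨z, hAS hz, by linarith⟩⟩
  have hw := near w (by simp)
  have hw' := near w' (by simp)
  have hww : dist w w' < ε / 4 := hl.2 w (by simp) w' (by simp)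
  have h2 : [a, w, w'] ∈ Small S ε := by
    have hmem : ∀ y ∈ [a, w, w'], y = a ∨ y ∈ [w, w'] := by
      intro y hy
      rcases List.mem_cons.1 hy with h | h
      · exact Or.inl h
      · exact Or.inr h
    refine ⟨fun y hy => ?_, fun y hy z hz => ?_⟩
    · rcases hmem y hy with rfl | h
      · exact Metric.self_subset_thickening hε S (hAS ha)
      · exact (near y h).2
    · rcases hmem y hy with rfl | h
      · rcases hmem z hz with rfl | h'
        · rw [dist_self]
          exact hε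
        · rw [dist_comm]
          linarith [(near z h').1]
      · rcases hmem z hz with rfl | h'
        · linarith [(near y h).1]
        · linarith [hl.2 y h z h']
  have h3 := hd _ h2
  apply hne
  simp only [dd_cons, dd_nil, sh_apply] at h3
  rw [Pi.sub_apply, dd_c0_two]
  linear_combination h3

theorem main (hR : S_ARC) (hC : S_CON) : S_MOA := by
  intro k X _ _ A a b h
  refine ⟨fun g hg => ?_, fun g m m' h1 h2 => uniq hC h g m m' h1 h2, ?_, ?_, ?_, ?_⟩
  · obtain ⟨c, h1, _, h3⟩ := hR.1 k X A A a b h (arc_compact h).isClosed Subset.rfl 1 le_rfl g hg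
    have h4 : Dg X 0 c := h1
    rw [h4.eq_c0] at h3
    exact ⟨_, fun x => c [x], h3, rfl⟩
  · rintro g g' m m' ⟨f, hf, rfl⟩ ⟨f', hf', rfl⟩
    refine ⟨f + f', ?_, ?_⟩
    · rw [c0_add, dd_add, add_sub_add_comm]
      exact hf.add hf'
    · simp only [Pi.add_apply]
      ring
  · rintro g t m ⟨f, hf, rfl⟩
    refine ⟨t • f, ?_, ?_⟩
    · rw [c0_smul, dd_smul, ← smul_sub]
      exact hf.smul t
    · simp only [Pi.smul_apply, smul_eq_mul]
      ring
  · rintro g g' m h1 ⟨f, hf, rfl⟩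
    refine ⟨f, ?_, rfl⟩
    have h2 := hf.sub h1
    have h3 : g - dd (c0 f) - (g - g') = g' - dd (c0 f) := by abel
    rwa [h3] at h2
  · intro g S ε hε hg hd hAS hab
    exact near g S ε hε hg hd hAS hab (arc_left h)

end MOA

theorem t_MOA : M_MOA := fun h1 h2 => MOA.main h1 h2

end BBH


end

section

/-!
# BBH: a primitive on the arcs
-/

set_option autoImplicit false

namespace BBH

open Set Topology CTO

namespace MOC

variable {k : Type} [Field k]

/-- a functional that vanishes on the kernel factors through the map -/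
theorem factor {V W : Type} [AddCommGroup V] [Module k V] [AddCommGroup W] [Module k W]
    (D : V →ₗ[k] W) (mu : V →ₗ[k] k) (h : ∀ w, D w = 0 → mu w = 0) :
    ∃ psi : W →ₗ[k] k, ∀ w, psi (D w) = mu w := by
  have h1 : mu ∈ LinearMap.range D.dualMap := by
    rw [LinearMap.range_dualMap_eq_dualAnnihilator_ker, Submodule.mem_dualAnnihilator]
    intro w hw
    exact h w (LinearMap.mem_ker.1 hw)
  obtain ⟨psi, hpsi⟩ := h1
  refine ⟨psi, fun w => ?_⟩
  rw [← hpsi]
  rfl

/-- the sum over the support, enumerated by `Fin n` -/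
theorem sum_enum {I : Type} (w : I →₀ k) (u : I → k) :
    ∑ i : Fin w.support.card, w (w.support.equivFin.symm i).1 * u (w.support.equivFin.symm i).1 =
      Finsupp.linearCombination k u w := by
  rw [Finsupp.linearCombination_apply, Finsupp.sum,
    ← Finset.sum_coe_sort w.support (fun j => w j • u j)]
  exact Equiv.sum_comp w.support.equivFin.symm (fun j : w.support => w j.1 * u j.1)

end MOC

theorem t_MOC : M_MOC := by
  intro hMOA k X _ _ O g hg hO hz
  let I : Type := {t : Set X × X × X // BBP.Arc t.1 t.2.1 t.2.2 ∧ t.1 ⊆ O}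
  have h1 : ∀ i : I, ∃ m, Mo i.1.1 i.1.2.1 i.1.2.2 g m := fun i =>
    (hMOA k X i.1.1 i.1.2.1 i.1.2.2 i.2.1).1 g
      ⟨hg, Zr.empty hg, hO.anti i.2.2⟩
  choose m hm using h1
  let D : (I →₀ k) →ₗ[k] (X →₀ k) := Finsupp.linearCombination k
    (fun i : I => Finsupp.single i.1.2.2 (1 : k) - Finsupp.single i.1.2.1 1)
  have hker : ∀ w, D w = 0 → Finsupp.linearCombination k m w = 0 := by
    intro w hw
    rw [← MOC.sum_enum w m]
    refine hz _ (fun i => (w.support.equivFin.symm i).1.1.1)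
      (fun i => (w.support.equivFin.symm i).1.1.2.1)
      (fun i => (w.support.equivFin.symm i).1.1.2.2)
      (fun i => w (w.support.equivFin.symm i).1)
      (fun i => m (w.support.equivFin.symm i).1)
      ⟨fun i => (w.support.equivFin.symm i).1.2.1, fun f => ?_⟩
      (fun i => (w.support.equivFin.symm i).1.2.2)
      (fun i => hm (w.support.equivFin.symm i).1)
    have h2 := MOC.sum_enum w (fun i : I => f i.1.2.2 - f i.1.2.1)
    rw [h2]
    have h3 : Finsupp.linearCombination k (fun i : I => f i.1.2.2 - f i.1.2.1) w =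
        Finsupp.linearCombination k f (D w) := by
      simp only [D]
      rw [← LinearMap.comp_apply]
      congr 1
      ext i
      simp
    rw [h3, hw, map_zero]
  obtain ⟨psi, hpsi⟩ := MOC.factor D (Finsupp.linearCombination k m) hker
  refine ⟨fun x => psi (Finsupp.single x 1), fun A a b hA hAO => ?_⟩
  have h4 := hpsi (Finsupp.single (⟨(A, a, b), hA, hAO⟩ : I) 1)
  simp only [D, Finsupp.linearCombination_single, one_smul, map_sub] at h4
  have h5 := hm ⟨(A, a, b), hA, hAO⟩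
  rw [← h4] at h5
  exact h5

end BBH


end

section

/-!
# BBH, module RKB: from `J` to a neighbourhood of `J`
-/

set_option autoImplicit false

namespace BBH

open Set Topology CTO

namespace RKB

/-- The coboundary near `J` gives a coboundary near an open neighbourhood of `J`. -/
theorem bd_nbhd (hN : S_NBH) {k X : Type} [Field k] [MetricSpace X] [CompactSpace X]
    {J : Set X} (hJ : IsCompact J) {g : Cc k X} (h : Bd 1 J ∅ g) :
    ∃ N : Set X, IsOpen N ∧ J ⊆ N ∧ Bd 1 N ∅ g := by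
  obtain ⟨b, hb, hb0, hz⟩ := h
  obtain ⟨N, hNo, hJN, hzN⟩ := (hN k X (g - dd b)).2.2.1 J hJ hz
  exact ⟨N, hNo, hJN, b, hb, hb0, hzN.anti subset_closure⟩

/-- One neighbourhood for all cocycles on `K` that are coboundaries near `J`. -/
theorem uniform (hN : S_NBH) (hF : S_FIN) {k X : Type} [Field k] [MetricSpace X]
    [CompactSpace X] (hX : IsANR X) {K J : Set X} (hJ : IsCompact J)
    (hJK : J ⊆ interior K) : ∃ N₀ : Set X, IsOpen N₀ ∧ J ⊆ N₀ ∧
      ∀ g : Cc k X, Cyc 1 K ∅ g → Bd 1 J ∅ g → Bd 1 N₀ ∅ g := by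
  classical
  obtain ⟨K₀, hK₀, hJ₀, h₀K⟩ := exists_compact_between hJ isOpen_interior hJK
  have hK₀K : K₀ ⊆ K := h₀K.trans interior_subset
  have hJK' : J ⊆ K := hJK.trans interior_subset
  have hfg := hF k k X hX 1 K₀ K ∅ ∅ hK₀.isClosed isClosed_empty h₀K (empty_subset _)
    (empty_subset _) (empty_subset _) hK₀K Subset.rfl
  set ρ := res k k (p := 1) (A := K) (B := (∅ : Set X)) hK₀K Subset.rfl with hρ
  set σ := res k k (p := 1) (A := K) (B := (∅ : Set X)) hJK' Subset.rfl with hσ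
  set S := (LinearMap.ker σ).map ρ with hS
  have hSfg : S.FG := by
    refine Submodule.FG.of_le hfg ?_
    rw [hS]
    exact LinearMap.map_le_range
  obtain ⟨T, hT⟩ := hSfg
  have h1 : ∀ t : H k k 1 K₀ (∅ : Set X), t ∈ T → ∃ (g : Cc k X) (h : Cyc 1 K ∅ g) (N : Set X),
      IsOpen N ∧ J ⊆ N ∧ Bd 1 N ∅ g ∧ ρ (cls k g h) = t := by
    intro t ht
    have h2 : t ∈ S := by
      rw [← hT]
      exact Submodule.subset_span ht
    obtain ⟨a, ha, hat⟩ := Submodule.mem_map.1 h2
    obtain ⟨g, hg, rfl⟩ := cls_surj a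
    have h3 : Bd 1 J ∅ g := by
      have h4 : σ (cls k g hg) = 0 := LinearMap.mem_ker.1 ha
      rw [hσ, res_cls, cls_eq_zero] at h4
      exact h4
    obtain ⟨N, hNo, hJN, hbd⟩ := bd_nbhd hN hJ h3
    exact ⟨g, hg, N, hNo, hJN, hbd, hat⟩
  choose! gg hgg NN hNNo hJNN hbd hcls using h1
  refine ⟨interior K₀ ∩ ⋂ t ∈ T, NN t, ?_, ?_, ?_⟩
  · exact isOpen_interior.inter (isOpen_biInter_finset fun t ht => hNNo t ht)
  · exact subset_inter hJ₀ (subset_iInter₂ fun t ht => hJNN t ht)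
  · intro g hg hgJ
    set N₀ : Set X := interior K₀ ∩ ⋂ t ∈ T, NN t with hN₀
    have hN₀K₀ : N₀ ⊆ K₀ := inter_subset_left.trans interior_subset
    set τ := res k k (p := 1) (A := K₀) (B := (∅ : Set X)) hN₀K₀ Subset.rfl with hτ
    have h2 : S ≤ LinearMap.ker τ := by
      rw [← hT, Submodule.span_le]
      intro t ht
      have ht' : t ∈ T := ht
      rw [SetLike.mem_coe, LinearMap.mem_ker, ← hcls t ht', hρ, hτ, res_cls, res_cls, cls_eq_zero]
      exact (hbd t ht').mono (inter_subset_right.trans (iInter₂_subset t ht')) Subset.rfl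
    have h3 : ρ (cls k g hg) ∈ S := by
      refine Submodule.mem_map_of_mem ?_
      rw [LinearMap.mem_ker, hσ, res_cls, cls_eq_zero]
      exact hgJ
    have h4 := LinearMap.mem_ker.1 (h2 h3)
    rw [hρ, hτ, res_cls, res_cls, cls_eq_zero] at h4
    exact h4

end RKB

theorem t_RKB : M_RKB := by
  intro hN hF k X _ _ _ hX K J g1 hK hJ hJK hrk
  obtain ⟨N₀, hN₀, hJN₀, huni⟩ := RKB.uniform (k := k) hN hF hX hJ hJK
  by_cases hall : ∀ g : Cc k X, Cyc 1 K ∅ g → Bd 1 J ∅ g
  · refine ⟨N₀, 0, hN₀, hJN₀, Cyc.zero, fun g hg => ⟨0, ?_⟩⟩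
    rw [smul_zero, sub_zero]
    exact huni g hg (hall g hg)
  · push Not at hall
    obtain ⟨g0, hg0, hg0J⟩ := hall
    obtain ⟨t₀, ht₀⟩ := hrk g0 hg0
    have ht₀0 : t₀ ≠ 0 := by
      rintro rfl
      rw [zero_smul, sub_zero] at ht₀
      exact hg0J ht₀
    refine ⟨N₀, g0, hN₀, hJN₀, hg0, fun g hg => ?_⟩
    obtain ⟨t, ht⟩ := hrk g hg
    refine ⟨t / t₀, huni _ (hg.sub (hg0.smul _)) ?_⟩
    have h1 : g - (t / t₀) • g0 = (g - t • g1) - (t / t₀) • (g0 - t₀ • g1) := by
      rw [smul_sub, smul_smul, div_mul_cancel₀ _ ht₀0]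
      abel
    rw [h1]
    exact ht.sub (ht₀.smul _)

end BBH


end

section

/-!
# FRH: by homogeneity there are small connected open sets with large top cohomology
-/

set_option autoImplicit false

namespace BBH

open Set Topology CTO

namespace FRH

/-- a homeomorphism induces an isomorphism of the top cohomology with compact supports -/
theorem finrank_preimage (hT : S_TRP) {k X : Type} [Field k] [MetricSpace X] [CompactSpace X]
    (e : X ≃ₜ X) (V : Set X) :
    Module.finrank k (HO k k 3 V) = Module.finrank k (HO k k 3 (e ⁻¹' V)) := by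
  have hcy : ∀ c : Cc k X, CyO 3 V c ↔ CyO 3 (e ⁻¹' V) (pull e c) := fun c =>
    (hT k X e 3 V c).1
  have hbd : ∀ c : Cc k X, BdO 3 V c ↔ BdO 3 (e ⁻¹' V) (pull e c) := fun c =>
    (hT k X e 3 V c).2
  let f : ZZ k k 3 univ Vᶜ →ₗ[k] HO k k 3 (e ⁻¹' V) :=
    { toFun := fun c => cls k (pull e c.1) ((hcy c.1).1 c.2)
      map_add' := fun _ _ => rfl
      map_smul' := fun _ _ => rfl }
  obtain ⟨F, hF⟩ := exists_lift (R := k) (p := 3) (A := univ) (B := Vᶜ) f (by
    intro c hc
    exact (cls_eq_zero (R := k) ((hcy c.1).1 c.2)).2 ((hbd c.1).1 hc))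
  have hbij : Function.Bijective F := by
    constructor
    · rw [← LinearMap.ker_eq_bot, LinearMap.ker_eq_bot']
      intro a ha
      obtain ⟨c, h, rfl⟩ := cls_surj a
      rw [hF] at ha
      have h1 : BdO 3 (e ⁻¹' V) (pull e c) := (cls_eq_zero (R := k) ((hcy c).1 h)).1 ha
      exact (cls_eq_zero (R := k) h).2 ((hbd c).2 h1)
    · intro a
      obtain ⟨c, h, rfl⟩ := cls_surj a
      have e1 : pull e (pull e.symm c) = c := by
        rw [pull_pull]
        have : (e.symm ∘ e : X → X) = id := by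
          funext x
          simp
        rw [this, pull_id]
      have h1 : CyO 3 V (pull e.symm c) := by
        rw [hcy, e1]
        exact h
      refine ⟨cls k (pull e.symm c) h1, ?_⟩
      rw [hF]
      change cls k (pull e (pull e.symm c)) _ = cls k c h
      simp only [e1]
  exact (LinearEquiv.ofBijective F hbij).finrank_eq

end FRH

theorem t_FRH : M_FRH := by
  intro hTRP hFRS k X _ _ _ hL hX hH hSj V₀ hV₀ hV₀c x N hN hxN
  obtain ⟨v₀, hv₀⟩ := hV₀c.nonempty
  obtain ⟨h, hh⟩ := hH v₀ x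
  have hx : h.symm x = v₀ := by rw [← hh]; simp
  have hV₁ : IsOpen (h.symm ⁻¹' V₀) := hV₀.preimage h.symm.continuous
  have hV₁c : IsConnected (h.symm ⁻¹' V₀) := by
    have : h.symm ⁻¹' V₀ = h '' V₀ := by
      rw [Homeomorph.preimage_symm]
    rw [this]
    exact hV₀c.image h h.continuous.continuousOn
  have hx₁ : x ∈ h.symm ⁻¹' V₀ := by
    rw [mem_preimage, hx]
    exact hv₀
  have hxI : x ∈ h.symm ⁻¹' V₀ ∩ N := ⟨hx₁, hxN⟩
  have hsub := connectedComponentIn_subset (h.symm ⁻¹' V₀ ∩ N) x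
  have hW : IsOpen (connectedComponentIn (h.symm ⁻¹' V₀ ∩ N) x) :=
    (hV₁.inter hN).connectedComponentIn
  have hWc : IsConnected (connectedComponentIn (h.symm ⁻¹' V₀ ∩ N) x) :=
    isConnected_connectedComponentIn_iff.2 hxI
  refine ⟨connectedComponentIn (h.symm ⁻¹' V₀ ∩ N) x, fun y hy => (hsub hy).2, hW, hWc,
    mem_connectedComponentIn hxI, ?_⟩
  rw [FRH.finrank_preimage hTRP h.symm V₀]
  exact hFRS k X hX hSj _ _ hV₁ hV₁c hW hWc fun y hy => (hsub hy).1

end BBH


end

section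

/-!
# BBH, module LEV: the local groups in degree three have dimension at most one
-/

set_option autoImplicit false

namespace BBH

open Set Topology CTO

theorem t_LEV : M_LEV := by
  intro hSTP hLEC hLED hFRS k X _ _ _ hLPC hANR hHom hSj hGN hNZ hLT V hV hcV
  obtain ⟨x, hx⟩ := hcV.nonempty
  obtain ⟨B, B', D, O₁, O₂, hBV, _, hst⟩ := hSTP k X hLPC hANR hSj hGN hNZ hLT x V hV hx
  obtain ⟨K, W, Na, Ng, Pa, Pg, Vx, Vy, g0, hfic⟩ :=
    hLEC k X hLPC hANR hHom hSj B B' D O₁ O₂ hst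
  exact (hFRS k X hANR hSj V B hV hcV hst.gb.1 hst.gb.2.1 hBV).trans
    (hLED k X hLPC hANR hSj B B' D O₁ K W Na Ng Pa Pg Vx Vy g0 hfic)

end BBH


end

section

/-!
# BBH, module RAT: a multiple of a rational cocycle is integral
-/

set_option autoImplicit false

namespace BBH

open Set Topology CTO

namespace RAT

theorem small_join {X : Type} [MetricSpace X] {A : Set X} {r : X → X} {ε : ℝ} (hε : 0 < ε)
    (hr : ∀ x, dist (r x) x < ε / 4) {l : List X} (hl : l ∈ Small A (ε / 4)) :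
    l.map id ++ l.map r ∈ Small A ε := by
  have h4 : ∀ x ∈ l, ∃ a ∈ A, dist x a < ε / 4 := fun x hx =>
    Metric.mem_thickening_iff.1 (hl.1 x hx)
  have hmem : ∀ z ∈ l.map id ++ l.map r, ∃ x ∈ l, dist z x < ε / 4 := by
    intro z hz
    rw [List.mem_append] at hz
    rcases hz with hz | hz
    · rw [List.map_id] at hz
      exact ⟨z, hz, by rw [dist_self]; positivity⟩
    · obtain ⟨x, hx, rfl⟩ := List.mem_map.1 hz
      exact ⟨x, hx, hr x⟩
  refine ⟨fun z hz => ?_, fun z hz w hw => ?_⟩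
  · obtain ⟨x, hx, hzx⟩ := hmem z hz
    obtain ⟨a, ha, hxa⟩ := h4 x hx
    refine Metric.mem_thickening_iff.2 ⟨a, ha, ?_⟩
    have := dist_triangle z x a
    linarith
  · obtain ⟨x, hx, hzx⟩ := hmem z hz
    obtain ⟨y, hy, hwy⟩ := hmem w hw
    have h1 := hl.2 x hx y hy
    have h2 := dist_triangle z x w
    have h3 := dist_triangle x y w
    rw [dist_comm w y] at hwy
    linarith

theorem small_map {X : Type} [MetricSpace X] {A : Set X} {r : X → X} {ε : ℝ} (hε : 0 < ε)
    (hr : ∀ x, dist (r x) x < ε / 4) {l : List X} (hl : l ∈ Small A (ε / 4)) :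
    l.map r ∈ Small A ε :=
  Small.cl A ε _ (small_join hε hr hl) _ (List.subset_append_right _ _)

theorem finite_lists {X : Type} {S : Set X} (hS : S.Finite) (n : ℕ) :
    {l : List X | l.length = n ∧ ∀ x ∈ l, x ∈ S}.Finite := by
  have : Finite S := hS
  refine ((List.finite_length_eq S n).image (List.map Subtype.val)).subset ?_
  rintro l ⟨hl, hS'⟩
  refine ⟨l.attachWith (· ∈ S) hS', ?_, ?_⟩
  · change (l.attachWith (· ∈ S) hS').length = n
    rw [List.length_attachWith, hl]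
  · have h := List.attachWith_map_val (f := fun x : X => x) (p := (· ∈ S)) (l := l) hS'
    rw [List.map_id'] at h
    exact h

theorem exists_denom {ι : Type} (T : Set ι) (hT : T.Finite) (f : ι → ℚ) :
    ∃ m : ℕ, 0 < m ∧ ∀ i ∈ T, ∃ z : ℤ, (m : ℚ) * f i = z := by
  classical
  refine ⟨∏ i ∈ hT.toFinset, (f i).den, Finset.prod_pos fun i _ => (f i).den_pos,
    fun i hi => ?_⟩
  obtain ⟨k, hk⟩ := Finset.dvd_prod_of_mem (fun i => (f i).den) (hT.mem_toFinset.2 hi)
  refine ⟨(k : ℤ) * (f i).num, ?_⟩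
  rw [hk]
  push_cast
  rw [← Rat.mul_den_eq_num (f i)]
  ring

end RAT

open RAT in
theorem t_RAT : M_RAT := by
  intro hFSL X _ _ q U c hc
  obtain ⟨ε₁, h1, h1'⟩ := hc.rel
  obtain ⟨ε₂, h2, h2'⟩ := hc.cyc
  obtain ⟨ε, hε, he1, he2⟩ : ∃ ε : ℝ, 0 < ε ∧ ε ≤ ε₁ ∧ ε ≤ ε₂ :=
    ⟨min ε₁ ε₂, lt_min h1 h2, min_le_left _ _, min_le_right _ _⟩
  have hε4 : 0 < ε / 4 := by positivity
  have hrel : ∀ l ∈ Small Uᶜ ε, c l = 0 := fun l hl => h1' l (Small.mono Subset.rfl he1 hl)
  have hcyc : ∀ l ∈ Small (univ : Set X) ε, dd c l = 0 := fun l hl =>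
    h2' l (Small.mono Subset.rfl he2 hl)
  obtain ⟨r, hrf, hr⟩ := hFSL X (ε / 4) hε4
  have hbd : BdO q U (c - pull r c) := by
    have h := bd_of_contig (f := id) (g := r) (A := univ) (A' := Uᶜ) (B := univ) (B' := Uᶜ)
      hc.deg hrel hcyc hε4 (fun l hl => small_join hε hr hl) (fun l hl => small_join hε hr hl)
    have h3 := h.neg
    rwa [neg_sub, pull_id] at h3
  have hT := finite_lists hrf (q + 1).toNat
  obtain ⟨m, hm, hmz⟩ := exists_denom _ hT c
  have hz : ∀ l : List X, ∃ z : ℤ, (m : ℚ) * c (l.map r) = z := by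
    intro l
    by_cases h0 : c (l.map r) = 0
    · exact ⟨0, by rw [h0]; simp⟩
    · refine hmz _ ⟨?_, fun x hx => ?_⟩
      · have := (hc.deg _ h0).2
        omega
      · obtain ⟨y, -, rfl⟩ := List.mem_map.1 hx
        exact mem_range_self y
  choose c' hc' using hz
  have hfun : (fun l => (c' l : ℚ)) = (m : ℚ) • pull r c := by
    funext l
    rw [← hc' l]
    rfl
  have hzero : ∀ l, c (l.map r) = 0 → c' l = 0 := by
    intro l hl
    have h := hc' l
    rw [hl, mul_zero] at h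
    exact_mod_cast h.symm
  refine ⟨m, c', hm, ⟨?_, ?_, ?_⟩, ?_⟩
  · intro l hl
    have h0 : c (l.map r) ≠ 0 := fun h => hl (hzero l h)
    obtain ⟨h3, h4⟩ := hc.deg _ h0
    rw [List.length_map] at h4
    exact ⟨fun h => h3 (by rw [h]; rfl), h4⟩
  · exact ⟨ε / 4, hε4, fun l hl => hzero l (hrel _ (small_map hε hr hl))⟩
  · refine ⟨ε / 4, hε4, fun l hl => ?_⟩
    have h3 : dd (fun l => (Int.castAddHom ℚ) (c' l)) l = (Int.castAddHom ℚ) (dd c' l) :=
      dd_map (Int.castAddHom ℚ) c' l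
    have h4 : (fun l => (Int.castAddHom ℚ) (c' l)) = (m : ℚ) • pull r c := hfun
    rw [h4, dd_smul, dd_pull, Pi.smul_apply] at h3
    have h5 : pull r (dd c) l = 0 := hcyc _ (small_map hε hr hl)
    rw [h5, smul_zero] at h3
    have h6 : ((dd c' l : ℤ) : ℚ) = 0 := h3.symm
    exact_mod_cast h6
  · rw [hfun, ← smul_sub]
    exact hbd.smul (m : ℚ)

end BBH


end

section

/-!
# Module LTZ: local triviality for integral coefficients
-/

set_option autoImplicit false

namespace BBH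

open Set Topology CTO

namespace LTZ

/-- the rational cochain of an integral cocycle is a cocycle -/
theorem cyO_rat {X : Type} [MetricSpace X] {q : ℤ} {V : Set X} {c : Cc ℤ X} (h : CyO q V c) :
    CyO q V (fun l => (c l : ℚ) : Cc ℚ X) := by
  refine ⟨fun l hl => h.deg l (fun h0 => hl (by simp [h0])), ?_, ?_⟩
  · obtain ⟨ε, hε, hz⟩ := h.rel
    exact ⟨ε, hε, fun l hl => by simp [hz l hl]⟩
  · obtain ⟨ε, hε, hz⟩ := h.cyc
    refine ⟨ε, hε, fun l hl => ?_⟩
    have h1 := dd_map (Int.castAddHom ℚ) c l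
    have h2 : (fun l => (Int.castAddHom ℚ) (c l)) = (fun l => (c l : ℚ)) := rfl
    rw [h2] at h1
    rw [h1, hz l hl, map_zero]

/-- a finitely generated torsion group is killed by a positive integer -/
theorem exists_kill {A : Type} [AddCommGroup A] (I : Submodule ℤ A) (hI : I.FG)
    (ht : ∀ a ∈ I, ∃ m : ℕ, 0 < m ∧ (m : ℤ) • a = 0) :
    ∃ n : ℕ, 0 < n ∧ ∀ a ∈ I, (n : ℤ) • a = 0 := by
  classical
  obtain ⟨S, hS⟩ := hI
  have hm : ∀ s : A, ∃ m : ℕ, 0 < m ∧ (s ∈ S → (m : ℤ) • s = 0) := by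
    intro s
    by_cases hs : s ∈ S
    · obtain ⟨m, h1, h2⟩ := ht s (by rw [← hS]; exact Submodule.subset_span hs)
      exact ⟨m, h1, fun _ => h2⟩
    · exact ⟨1, one_pos, fun h => absurd h hs⟩
  choose m hm0 hm using hm
  refine ⟨∏ s ∈ S, m s, Finset.prod_pos fun s _ => hm0 s, fun a ha => ?_⟩
  rw [← hS] at ha
  induction ha using Submodule.span_induction with
  | mem s hs =>
    have hs' : s ∈ S := hs
    rw [← Finset.mul_prod_erase S m hs', Nat.cast_mul, mul_comm, mul_smul, hm s hs', smul_zero]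
  | zero => rw [smul_zero]
  | add a b _ _ ha hb => rw [smul_add, ha, hb, add_zero]
  | smul r a _ ha => rw [smul_comm, ha, smul_zero]

end LTZ

theorem t_LTZ : M_LTZ := by
  intro hTOR hSZN hFIO X _ _ hX q hQ hP x U hU hxU
  obtain ⟨ε, hε, hεU⟩ := Metric.isOpen_iff.1 hU x hxU
  have hcl : closure (Metric.ball x (ε / 2)) ⊆ U := by
    refine Metric.closure_ball_subset_closedBall.trans (fun y hy => hεU ?_)
    rw [Metric.mem_closedBall] at hy
    rw [Metric.mem_ball]
    linarith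
  obtain ⟨V₁, hV₁, hV₁o, hxV₁, hV₁c⟩ := hQ x (Metric.ball x (ε / 2)) Metric.isOpen_ball
    (Metric.mem_ball_self (half_pos hε))
  have hsub : Metric.ball x (ε / 2) ⊆ U := subset_closure.trans hcl
  have hV₁U : V₁ ⊆ U := hV₁.trans hsub
  have hfg := hFIO.1 ℤ ℤ X hX q V₁ U hV₁o hU ((closure_mono hV₁).trans hcl) hV₁U
  obtain ⟨n, hn, hkill⟩ := LTZ.exists_kill _ hfg (by
    rintro a ⟨b, rfl⟩
    obtain ⟨c, hc, rfl⟩ := cls_surj b
    have h1 := hV₁c _ (LTZ.cyO_rat hc)
    obtain ⟨m, hm, hb⟩ := hTOR X q U c (CyO.mono hc hV₁U) (BdO.mono h1 hsub)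
    refine ⟨m, hm, ?_⟩
    have h2 := (cls_eq_zero (R := ℤ) ((CyO.mono hc hV₁U).smul (m : ℤ))).2 hb
    rw [cls_smul] at h2
    exact h2)
  obtain ⟨V, hV, hVo, hxV, hVc⟩ := hSZN X q hP n hn x V₁ hV₁o hxV₁
  refine ⟨V, hV.trans hV₁U, hVo, hxV, fun c hc => ?_⟩
  obtain ⟨c', hc', hb⟩ := hVc c hc
  have h3 : (n : ℤ) • ext ℤ ℤ hV₁U (cls ℤ c' hc') = 0 := hkill _ ⟨_, rfl⟩
  rw [ext_cls, ← cls_smul, cls_eq_zero] at h3
  exact Bd.of_sub (BdO.mono hb hV₁U) h3

end BBH


end

section

/-!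
# Module ORI: existence of an orientation mod 2
-/

set_option autoImplicit false

namespace BBH

open Set Topology CTO

namespace ORI

/-- a good set has an orientation -/
theorem local_orr {X : Type} [MetricSpace X] (hSj : Sj (ZMod 2) X) {B : Set X}
    (hB : GB (ZMod 2) B) : ∃ s, Orr B s := by
  obtain ⟨hBo, hBc, hBn⟩ := hB
  have h0 : ¬ VanO (ZMod 2) 3 B := hBn B Subset.rfl hBo hBc.nonempty
  have h1 : ∃ c0 : Cc (ZMod 2) X, CyO 3 B c0 ∧ ¬ BdO 3 B c0 := by
    by_contra hcon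
    apply h0
    intro c hc
    by_contra hn
    exact hcon ⟨c, hc, hn⟩
  obtain ⟨c0, hc0, hn0⟩ := h1
  have h2 : cls (ZMod 2) c0 hc0 ≠ 0 := fun h => hn0 ((cls_eq_zero hc0).1 h)
  obtain ⟨φ, hφ⟩ : ∃ φ : HO (ZMod 2) (ZMod 2) 3 B →ₗ[ZMod 2] ZMod 2,
      φ (cls (ZMod 2) c0 hc0) ≠ 0 := by
    by_contra hcon
    push Not at hcon
    exact h2 ((Module.forall_dual_apply_eq_zero_iff (ZMod 2) _).1 hcon)
  obtain ⟨s, hs1, hs2⟩ := exists_total φ
  refine ⟨s, hs1, fun V hV hVo hVn => ?_⟩
  obtain ⟨c', hc', hb⟩ := hSj B V hBo hBc hVo hV hVn c0 hc0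
  refine ⟨c', hc', ?_⟩
  have h3 : s (c0 - c') = 0 := hs1 _ (hc0.sub (hc'.mono hV)) hb
  rw [map_sub, sub_eq_zero] at h3
  rw [← h3, hs2 c0 hc0]
  exact hφ

end ORI

theorem t_ORI : M_ORI := by
  intro hORG X _ _ hL hS hSj hU hloc
  have key : ∃ U : Set X, (univ : Set X) ⊆ U ∧ IsOpen U ∧ ∃ s, Orr U s := by
    refine isCompact_univ.induction_on
      (p := fun S => ∃ U : Set X, S ⊆ U ∧ IsOpen U ∧ ∃ s, Orr U s) ?_ ?_ ?_ ?_
    · refine ⟨∅, Subset.rfl, isOpen_empty, 0, fun c _ _ => rfl, fun V hV _ hVn => ?_⟩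
      exact absurd (hVn.mono hV) (by simp)
    · rintro S T hST ⟨U, hTU, hUo, hs⟩
      exact ⟨U, hST.trans hTU, hUo, hs⟩
    · rintro S T ⟨U, hSU, hUo, s, hs⟩ ⟨V, hTV, hVo, s', hs'⟩
      exact ⟨U ∪ V, union_subset_union hSU hTV, hUo.union hVo,
        hORG X hL hS hU U V s s' hUo hVo hs hs'⟩
    · intro x _
      obtain ⟨B, hxB, hB⟩ := hloc x
      exact ⟨B, mem_nhdsWithin_of_mem_nhds (hB.1.mem_nhds hxB), B, Subset.rfl, hB.1,
        ORI.local_orr hSj hB⟩
  obtain ⟨U, hUU, _, s, hs⟩ := key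
  obtain rfl : U = univ := univ_subset_iff.1 hUU
  exact ⟨s, hs⟩

end BBH


end
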