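import Mathlib
import Pool.Agent.BBM.C13
import Pool.Agent.BBM.C16

/-! Parts: BBH.B_PNT, BBH.B_LPX, BBH.B_OUS, BBH.D_TRN, BBH.D_ALX, BBH.E_LT0, BBH.E_NZK, BBH.F_KE, BBH.G_PRG, BBH.H_ALZ, BBH.H_ORA -/

section

/-!
# BBH, module PNT: the cohomology of a point
-/

set_option autoImplicit false

namespace BBH

open Set Topology

namespace PNT

variable {M X : Type} [AddCommGroup M] [MetricSpace X]

theorem small_cons {x : X} {ε : ℝ} (hε : 0 < ε) {l : List X} (hl : l ∈ Small ({x} : Set X) ε) :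
    x :: l ∈ Small ({x} : Set X) ε := by
  have h1 : ∀ y ∈ l, dist y x < ε := by
    intro y hy
    obtain ⟨z, hz, hyz⟩ := Metric.mem_thickening_iff.1 (hl.1 y hy)
    rw [mem_singleton_iff.1 hz] at hyz
    exact hyz
  refine ⟨fun y hy => ?_, fun y hy z hz => ?_⟩
  · rcases List.mem_cons.1 hy with rfl | hy
    · exact Metric.mem_thickening_iff.2 ⟨y, mem_singleton y, by rw [dist_self]; exact hε⟩
    · exact hl.1 y hy
  · rcases List.mem_cons.1 hy with hyx | hy
    · rcases List.mem_cons.1 hz with hzx | hz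
      · rw [hyx, hzx, dist_self]
        exact hε
      · rw [hyx, dist_comm]
        exact h1 z hz
    · rcases List.mem_cons.1 hz with hzx | hz
      · rw [hzx]
        exact h1 y hy
      · exact hl.2 y hy z hz

theorem van_point (x : X) {p : ℤ} (hp : 1 ≤ p) : Van M p ({x} : Set X) ∅ := by
  intro c hc
  obtain ⟨ε, hε, h⟩ := hc.cyc
  have hdeg : Dg X (p - 1) (sh c x) := by
    intro l hl
    obtain ⟨-, h2⟩ := hc.deg (x :: l) hl
    rw [List.length_cons] at h2
    push_cast at h2
    refine ⟨?_, by omega⟩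
    rintro rfl
    rw [List.length_nil] at h2
    push_cast at h2
    omega
  refine ⟨sh c x, hdeg, Zr.empty hdeg, ε, hε, fun l hl => ?_⟩
  have h1 := h _ (small_cons hε hl)
  rw [dd_cons] at h1
  exact h1

theorem point_zero (x : X) (c : Cc M X) (hc : Cyc 0 ({x} : Set X) ∅ c) :
    Zr ({x} : Set X) (c - c0 fun _ => c [x]) := by
  obtain ⟨ε, hε, h⟩ := hc.cyc
  refine ⟨ε, hε, fun l hl => ?_⟩
  rcases l with _ | ⟨y, _ | ⟨z, l⟩⟩
  · rw [Pi.sub_apply, c0_nil, sub_zero]
    exact hc.deg.nil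
  · have h1 := h _ (small_cons hε hl)
    rw [dd_cons, dd_cons, sh_apply, dd_nil, sub_zero] at h1
    rw [Pi.sub_apply, c0_single]
    exact h1
  · rw [Pi.sub_apply, c0_two, sub_zero]
    by_contra h1
    have h2 := (hc.deg _ h1).2
    simp only [List.length_cons] at h2
    push_cast at h2
    omega

end PNT

theorem t_PNT : S_PNT := by
  intro M X _ _ x
  exact ⟨fun p hp => PNT.van_point x hp, fun c hc => PNT.point_zero x c hc⟩

end BBH


end

section

/-!
# BBH, module LPX: compact ANRs are locally path connected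
-/

set_option autoImplicit false

namespace BBH

open Set Topology CTO

theorem t_LPX : S_LPX := by
  intro X _ _ hX
  have hL := BBP.t_LCA X hX
  constructor
  · rw [locallyPathConnectedSpace_iff_pathComponentIn_mem_nhds]
    intro x u hu hxu
    obtain ⟨W1, hW1, hW1o, hxW1, H, hH, h0, h1, h2⟩ := hL x u hu hxu
    refine Filter.mem_of_superset (hW1o.mem_nhds hxW1) ?_
    intro y hy
    have hc : Continuous fun t : unitInterval => H (y, (t : ℝ)) := by
      have h3 : Continuous fun t : unitInterval => ((y, (t : ℝ)) : X × ℝ) := by fun_prop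
      exact hH.comp_continuous h3 fun t => ⟨hy, t.2⟩
    have hj : JoinedIn u y x :=
      ⟨⟨⟨fun t : unitInterval => H (y, (t : ℝ)), hc⟩, by simpa using h0 y hy,
        by simpa using h1 y hy⟩, fun t => h2 y hy t t.2⟩
    exact hj.symm
  · intro x W hW hxW
    obtain ⟨W1, hW1, hW1o, hxW1, H, hH, h0, h1, h2⟩ := hL x W hW hxW
    obtain ⟨ε, hε, hB⟩ := Metric.isOpen_iff.1 hW1o x hxW1
    have hV : closure (Metric.ball x (ε / 2)) ⊆ W1 :=
      (Metric.closure_ball_subset_closedBall.trans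
        (Metric.closedBall_subset_ball (by linarith))).trans hB
    refine ⟨Metric.ball x (ε / 2), Metric.isOpen_ball, Metric.mem_ball_self (by linarith),
      hV.trans hW1, x, H, hxW, ?_, ?_, ?_, ?_⟩
    · exact hH.mono (prod_mono hV subset_rfl)
    · rintro ⟨y, t⟩ ⟨hy, ht⟩
      exact h2 y (hV hy) t ht
    · intro y hy
      exact h0 y (hV hy)
    · intro y hy
      exact h1 y (hV hy)

end BBH


end

section

/-!
# BBH: the outside of a point
-/

set_option autoImplicit false

namespace BBH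

open Set Topology CTO

namespace OUS

/-- a relatively closed and open subset of a connected set -/
lemma sub_of_clopen {X : Type} [TopologicalSpace X] {B S : Set X} (hB : IsPreconnected B)
    (hS : IsOpen S) (hne : (B ∩ S).Nonempty) (hcl : closure S ∩ B ⊆ S) : B ⊆ S := by
  by_contra h
  rw [not_subset] at h
  obtain ⟨y, hyB, hyS⟩ := h
  have h1 : B ⊆ S ∪ (closure S)ᶜ := by
    intro z hz
    by_cases h2 : z ∈ closure S
    · exact Or.inl (hcl ⟨h2, hz⟩)
    · exact Or.inr h2
  have h3 : (B ∩ (closure S)ᶜ).Nonempty := ⟨y, hyB, fun h => hyS (hcl ⟨h, hyB⟩)⟩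
  obtain ⟨z, _, hz1, hz2⟩ := hB S (closure S)ᶜ hS isClosed_closure.isOpen_compl h1 hne h3
  exact hz2 (subset_closure hz1)

end OUS

open OUS in
theorem t_OUS : S_OUS := by
  intro X _ _ hX B N x hBo hBc hxB hBx hNo hxN
  haveI := hX
  obtain ⟨w, hwB, hwx⟩ := hBx.nonempty
  have hwx' : 0 < dist w x := dist_pos.2 hwx
  obtain ⟨ρ₀, hρ₀, hsub₀⟩ := Metric.isOpen_iff.1 (hBo.inter hNo) x ⟨hxB, hxN⟩
  set ρ : ℝ := min (ρ₀ / 2) (dist w x / 2) with hρdef
  have hρ : 0 < ρ := lt_min (by positivity) (by positivity)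
  have hρw : ρ < dist w x := lt_of_le_of_lt (min_le_right _ _) (by linarith)
  have hsub : Metric.closedBall x ρ ⊆ B ∩ N := by
    intro y hy
    apply hsub₀
    rw [Metric.mem_closedBall] at hy
    rw [Metric.mem_ball]
    have : ρ ≤ ρ₀ / 2 := min_le_left _ _
    linarith
  -- the radii
  have hr0 : ∀ i : ℕ, 0 < ρ / ((i : ℝ) + 2) := fun i => by positivity
  have hrρ : ∀ i : ℕ, ρ / ((i : ℝ) + 2) < ρ := by
    intro i
    rw [div_lt_iff₀ (by positivity)]
    have : (0 : ℝ) ≤ i := Nat.cast_nonneg i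
    nlinarith
  set V : ℕ → Set X := fun i => connectedComponentIn (B \ Metric.closedBall x (ρ / ((i : ℝ) + 2))) w
    with hV
  have hOi : ∀ i : ℕ, IsOpen (B \ Metric.closedBall x (ρ / ((i : ℝ) + 2))) := fun i =>
    hBo.sdiff Metric.isClosed_closedBall
  have hwi : ∀ i : ℕ, w ∈ B \ Metric.closedBall x (ρ / ((i : ℝ) + 2)) := by
    intro i
    refine ⟨hwB, fun h => ?_⟩
    rw [Metric.mem_closedBall] at h
    have := hrρ i
    linarith
  have hVo : ∀ i, IsOpen (V i) := fun i => (hOi i).connectedComponentIn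
  have hVc : ∀ i, IsConnected (V i) := fun i => isConnected_connectedComponentIn_iff.2 (hwi i)
  have hVs : ∀ i, V i ⊆ B \ Metric.closedBall x (ρ / ((i : ℝ) + 2)) := fun i =>
    connectedComponentIn_subset _ _
  have hVm : Monotone V := by
    intro i j hij
    apply connectedComponentIn_mono
    intro y hy
    refine ⟨hy.1, fun h => hy.2 ?_⟩
    rw [Metric.mem_closedBall] at h ⊢
    refine h.trans ?_
    apply div_le_div_of_nonneg_left hρ.le (by positivity)
    have : (i : ℝ) ≤ j := by exact_mod_cast hij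
    linarith
  have hVu : (⋃ i, V i) = B \ {x} := by
    apply Subset.antisymm
    · apply iUnion_subset
      intro i y hy
      have h1 := hVs i hy
      refine ⟨h1.1, fun h => h1.2 ?_⟩
      rw [mem_singleton_iff] at h
      rw [h]
      exact Metric.mem_closedBall_self (hr0 i).le
    · intro y hy
      have hO : IsOpen (B \ {x}) := hBo.sdiff isClosed_singleton
      have hP : IsPathConnected (B \ {x}) := (hO.isConnected_iff_isPathConnected).1 hBx
      obtain ⟨γ, hγ⟩ := hP.joinedIn w ⟨hwB, hwx⟩ y hy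
      have hK : IsCompact (range γ) := isCompact_range γ.continuous
      have hne : (range γ).Nonempty := ⟨γ 0, mem_range_self _⟩
      obtain ⟨z, hz, hzmin⟩ := hK.exists_isMinOn hne
        (Continuous.continuousOn (continuous_id.dist (continuous_const (y := x))))
      have hz0 : 0 < dist z x := by
        obtain ⟨t, rfl⟩ := hz
        exact dist_pos.2 (hγ t).2
      obtain ⟨i, hi⟩ := exists_nat_gt (ρ / dist z x)
      have hsubi : range γ ⊆ B \ Metric.closedBall x (ρ / ((i : ℝ) + 2)) := by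
        rintro _ ⟨t, rfl⟩
        refine ⟨(hγ t).1, fun h => ?_⟩
        rw [Metric.mem_closedBall] at h
        have h1 : dist z x ≤ dist (γ t) x := hzmin (mem_range_self t)
        have h2 : ρ / ((i : ℝ) + 2) < dist z x := by
          rw [div_lt_iff₀ (by positivity)]
          rw [div_lt_iff₀ hz0] at hi
          nlinarith
        linarith
      rw [mem_iUnion]
      refine ⟨i, ?_⟩
      have hpre : IsPreconnected (range γ) := isPreconnected_range γ.continuous
      have hwγ : w ∈ range γ := ⟨0, γ.source⟩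
      exact hpre.subset_connectedComponentIn hwγ hsubi ⟨1, γ.target⟩
  -- the sphere
  have hF : IsCompact (Metric.sphere x ρ) := Metric.isClosed_sphere.isCompact
  obtain ⟨i₁, hi₁⟩ : ∃ i₁, Metric.sphere x ρ ⊆ V i₁ := by
    apply hF.elim_directed_cover V hVo
    · rw [hVu]
      intro y hy
      refine ⟨(hsub (Metric.sphere_subset_closedBall hy)).1, fun h => ?_⟩
      rw [mem_singleton_iff] at h
      rw [h, Metric.mem_sphere, dist_self] at hy
      linarith
    · exact hVm.directed_le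
  have key : ∀ i, i₁ ≤ i → B \ V i ⊆ Metric.ball x ρ := by
    intro i hi
    have hsph : Metric.sphere x ρ ⊆ V i := hi₁.trans (hVm hi)
    have h1 : B ⊆ V i ∪ Metric.ball x ρ := by
      apply sub_of_clopen hBc.isPreconnected ((hVo i).union Metric.isOpen_ball)
      · exact ⟨x, hxB, Or.inr (Metric.mem_ball_self hρ)⟩
      · rintro z ⟨hz, hzB⟩
        by_cases hzb : z ∈ Metric.ball x ρ
        · exact Or.inr hzb
        · left
          rw [closure_union] at hz
          rcases hz with hz | hz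
          · have hzO : z ∈ B \ Metric.closedBall x (ρ / ((i : ℝ) + 2)) := by
              refine ⟨hzB, fun h => hzb ?_⟩
              rw [Metric.mem_closedBall] at h
              rw [Metric.mem_ball]
              exact lt_of_le_of_lt h (hrρ i)
            have h2 : IsOpen (connectedComponentIn (B \ Metric.closedBall x (ρ / ((i : ℝ) + 2))) z) :=
              (hOi i).connectedComponentIn
            obtain ⟨u, hu1, hu2⟩ := mem_closure_iff.1 hz _ h2 (mem_connectedComponentIn hzO)
            have h3 := connectedComponentIn_eq hu1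
            have h4 := connectedComponentIn_eq hu2
            show z ∈ connectedComponentIn _ w
            rw [h4, ← h3]
            exact mem_connectedComponentIn hzO
          · have h2 : z ∈ Metric.closedBall x ρ := Metric.closure_ball_subset_closedBall hz
            apply hsph
            rw [Metric.mem_sphere]
            rw [Metric.mem_closedBall] at h2
            rw [Metric.mem_ball, not_lt] at hzb
            exact le_antisymm h2 hzb
    rintro y ⟨hyB, hyV⟩
    exact (h1 hyB).resolve_left hyV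
  refine ⟨fun i => V (i + i₁), fun i j hij => hVm (by omega), fun i => hVo _, fun i => hVc _, ?_, ?_,
    ?_, ?_⟩
  · rw [← hVu]
    apply Subset.antisymm
    · exact iUnion_subset fun i => subset_iUnion V (i + i₁)
    · exact iUnion_subset fun i => (hVm (by omega : i ≤ i + i₁)).trans
        (subset_iUnion (fun i => V (i + i₁)) i)
  · intro i
    have h1 := key (i + i₁) (by omega)
    have h2 : B \ V (i + i₁) = Metric.closedBall x ρ \ V (i + i₁) := by
      apply Subset.antisymm
      · intro y hy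
        exact ⟨Metric.ball_subset_closedBall (h1 hy), hy.2⟩
      · intro y hy
        exact ⟨(hsub hy.1).1, hy.2⟩
    rw [h2]
    exact (Metric.isClosed_closedBall.sdiff (hVo _)).isCompact
  · intro i y hy
    exact (hsub (Metric.ball_subset_closedBall (key (i + i₁) (by omega) hy))).2
  · intro i
    rw [mem_interior]
    refine ⟨Metric.ball x (ρ / (((i + i₁ : ℕ) : ℝ) + 2)), ?_, Metric.isOpen_ball,
      Metric.mem_ball_self (hr0 _)⟩
    intro y hy
    have h1 : y ∈ Metric.closedBall x (ρ / (((i + i₁ : ℕ) : ℝ) + 2)) := Metric.ball_subset_closedBall hy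
    refine ⟨(hsub ?_).1, fun h => (hVs _ h).2 h1⟩
    rw [Metric.mem_closedBall] at h1 ⊢
    exact h1.trans (hrρ _).le

end BBH


end

section

/-!
# BBH, module TRN: the transition functions of a cocycle
-/

set_option autoImplicit false

namespace BBH

open Set Topology CTO

namespace TRN

theorem sum_eq {X : Type} [MetricSpace X] {n : ℕ} {K : Set X} {φ : Fin n → X → ℝ}
    {q : Fin n → X} {C : X → X → X → ℤ} {ε : ℝ} (hε : 0 < ε)
    (hs : ∀ x, ∑ j, φ j x = 1) (hd : ∀ j x, φ j x ≠ 0 → dist x (q j) < ε / 4)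
    (hC : ∀ x y z w, [x, y, z, w] ∈ Small K ε → C y z w - C x z w + C x y w - C x y z = 0)
    {i j k : Fin n} {x : X} (hx : x ∈ K) (hi : φ i x ≠ 0) (hj : φ j x ≠ 0) (hk : φ k x ≠ 0) :
    (∑ m, φ m x * C (q i) (q j) (q m) : ℝ) + (∑ m, φ m x * C (q j) (q k) (q m) : ℝ) =
      (∑ m, φ m x * C (q i) (q k) (q m) : ℝ) + (C (q i) (q j) (q k) : ℝ) := by
  have h1 : ((C (q i) (q j) (q k) : ℤ) : ℝ) =
      ∑ m, φ m x * (C (q i) (q j) (q k) : ℝ) := by
    rw [← Finset.sum_mul, hs x, one_mul]
  rw [h1, ← Finset.sum_add_distrib, ← Finset.sum_add_distrib]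
  refine Finset.sum_congr rfl fun m _ => ?_
  by_cases hm : φ m x = 0
  · rw [hm]
    ring
  · have hsm : [q i, q j, q k, q m] ∈ Small K ε := by
      have key : ∀ y ∈ [q i, q j, q k, q m], dist x y < ε / 4 := by
        intro y hy
        simp only [List.mem_cons, List.not_mem_nil, or_false] at hy
        rcases hy with rfl | rfl | rfl | rfl
        · exact hd _ _ hi
        · exact hd _ _ hj
        · exact hd _ _ hk
        · exact hd _ _ hm
      refine ⟨fun y hy => ?_, fun y hy z hz => ?_⟩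
      · refine Metric.mem_thickening_iff.2 ⟨x, hx, ?_⟩
        rw [dist_comm]
        have := key y hy
        linarith
      · have h2 := key y hy
        have h3 := key z hz
        have h4 := dist_triangle_left y z x
        linarith
    have h5 := hC _ _ _ _ hsm
    have h6 : (C (q j) (q k) (q m) : ℝ) - C (q i) (q k) (q m) + C (q i) (q j) (q m)
        - C (q i) (q j) (q k) = 0 := by exact_mod_cast h5
    have h7 : (C (q i) (q j) (q m) : ℝ) + C (q j) (q k) (q m) =
        C (q i) (q k) (q m) + C (q i) (q j) (q k) := by linarith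
    rw [← mul_add, h7, mul_add]

theorem exp_eq (a b c : ℝ) (n : ℤ) (h : a + b = c + n) :
    Complex.exp (2 * Real.pi * (a : ℂ) * Complex.I) *
      Complex.exp (2 * Real.pi * (b : ℂ) * Complex.I) =
      Complex.exp (2 * Real.pi * (c : ℂ) * Complex.I) := by
  have h1 : (a : ℂ) + b = c + n := by exact_mod_cast h
  rw [← Complex.exp_add]
  have h2 : 2 * Real.pi * (a : ℂ) * Complex.I + 2 * Real.pi * (b : ℂ) * Complex.I =
      2 * Real.pi * (c : ℂ) * Complex.I + n * (2 * Real.pi * Complex.I) := by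
    have : 2 * Real.pi * (a : ℂ) * Complex.I + 2 * Real.pi * (b : ℂ) * Complex.I =
      2 * Real.pi * ((a : ℂ) + b) * Complex.I := by ring
    rw [this, h1]
    ring
  rw [h2, Complex.exp_add, Complex.exp_int_mul_two_pi_mul_I, mul_one]

end TRN

theorem t_TRN : S_TRN := by
  intro X _ n K φ q C ε hε hφ hnn hs hd hC
  refine ⟨hφ, hnn, hs, ?_, ?_, ?_⟩
  · intro j k
    refine Continuous.continuousOn ?_
    have h1 : Continuous fun x => (∑ m, φ m x * C (q j) (q k) (q m) : ℝ) :=
      continuous_finset_sum _ fun m _ => (hφ m).mul continuous_const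
    have h2 : Continuous fun x => ((∑ m, φ m x * C (q j) (q k) (q m) : ℝ) : ℂ) :=
      Complex.continuous_ofReal.comp h1
    exact Complex.continuous_exp.comp ((continuous_const.mul h2).mul continuous_const)
  · intro j k x _
    exact Complex.exp_ne_zero _
  · intro i j k x hx hi hj hk
    exact TRN.exp_eq _ _ _ _ (TRN.sum_eq hε hs hd hC hx hi hj hk)

end BBH


end

section

/-!
# BBH, module ALX: if `H^3(K, L; ℤ) = 0` then maps to `ℝ³ \ 0` extend from `L` to `K`
-/

set_option autoImplicit false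
set_option linter.unusedSectionVars false

namespace BBH

open Set Topology CTO

namespace ALX

variable {X : Type} [MetricSpace X]

/-- the cochain of degree 2 of a function of three variables -/
def k2 (c : X → X → X → ℤ) : Cc ℤ X
  | [x, y, z] => c x y z
  | _ => 0

theorem k2_three (c : X → X → X → ℤ) (x y z : X) : k2 c [x, y, z] = c x y z := rfl

theorem k2_deg (c : X → X → X → ℤ) : Dg X 2 (k2 c) := by
  intro l hl
  rcases l with _ | ⟨x, _ | ⟨y, _ | ⟨z, _ | ⟨w, l⟩⟩⟩⟩
  · exact absurd rfl hl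
  · exact absurd rfl hl
  · exact absurd rfl hl
  · exact ⟨by simp, by simp⟩
  · exact absurd rfl hl

theorem dd_four (c : Cc ℤ X) (x y z w : X) :
    dd c [x, y, z, w] = c [y, z, w] - c [x, z, w] + c [x, y, w] - c [x, y, z] := by
  simp only [dd_cons, dd_nil, sh_apply]
  ring

theorem dd_three (c : Cc ℤ X) (x y z : X) :
    dd c [x, y, z] = c [y, z] - c [x, z] + c [x, y] := by
  simp only [dd_cons, dd_nil, sh_apply]
  ring

theorem k2_cyc {L : Set X} {v : X → ℂ × ℂ} {t : X → X → ℝ} {c : X → X → X → ℤ} {ε : ℝ}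
    (h : Lin L v t c ε) : Cyc 2 L ∅ (k2 c) := by
  refine ⟨k2_deg c, Zr.empty (k2_deg c), ε, h.pos, fun l hl => ?_⟩
  by_contra h1
  have h2 := ((k2_deg c).dd l h1).2
  rcases l with _ | ⟨x, _ | ⟨y, _ | ⟨z, _ | ⟨w, _ | ⟨u, l⟩⟩⟩⟩⟩
  · simp at h2
  · simp at h2
  · simp at h2
  · simp at h2
  · apply h1
    rw [dd_four]
    exact h.cy x y z w hl
  · simp only [List.length_cons] at h2
    push_cast at h2
    omega

theorem lin_mono {L : Set X} {v : X → ℂ × ℂ} {t : X → X → ℝ} {c : X → X → X → ℤ} {ε ε' : ℝ}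
    (h : Lin L v t c ε) (h0 : 0 < ε') (hle : ε' ≤ ε) : Lin L v t c ε' where
  pos := h0
  unit := h.unit
  ph := h.ph
  uat := h.uat
  ne := fun x y hxy => h.ne x y (Small.mono Subset.rfl hle hxy)
  sm := fun x y z hxy => h.sm x y z (Small.mono Subset.rfl hle hxy)
  cy := fun x y z w hxy => h.cy x y z w (Small.mono Subset.rfl hle hxy)

/-- a finite net and a partition of unity -/
theorem exists_part [CompactSpace X] {ε : ℝ} (hε : 0 < ε) :
    ∃ (n : ℕ) (q : Fin n → X) (φ : Fin n → X → ℝ), (∀ j, Continuous (φ j)) ∧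
      (∀ j x, 0 ≤ φ j x) ∧ (∀ x, ∑ j, φ j x = 1) ∧ ∀ j x, φ j x ≠ 0 → dist x (q j) < ε / 4 := by
  obtain ⟨s, -, hs, hcov⟩ := (isCompact_univ (X := X)).finite_cover_balls
    (show (0 : ℝ) < ε / 8 by positivity)
  classical
  let e := hs.toFinset.equivFin.symm
  let q : Fin hs.toFinset.card → X := fun j => (e j : X)
  let h : Fin hs.toFinset.card → X → ℝ := fun j x => max 0 (ε / 4 - dist x (q j))
  have hc : ∀ j, Continuous (h j) := fun j =>
    continuous_const.max (continuous_const.sub (continuous_id.dist continuous_const))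
  have h0 : ∀ j x, 0 ≤ h j x := fun j x => le_max_left _ _
  have hpos : ∀ x, 0 < ∑ j, h j x := by
    intro x
    obtain ⟨y, hy, hxy⟩ := Set.mem_iUnion₂.1 (hcov (mem_univ x))
    rw [Metric.mem_ball] at hxy
    have hy' : y ∈ hs.toFinset := hs.mem_toFinset.2 hy
    have h1 : q (e.symm ⟨y, hy'⟩) = y := by
      simp only [q, Equiv.apply_symm_apply]
    have h2 : 0 < h (e.symm ⟨y, hy'⟩) x := by
      refine lt_of_lt_of_le ?_ (le_max_right _ _)
      rw [h1]
      linarith
    exact lt_of_lt_of_le h2 (Finset.single_le_sum (f := fun j => h j x) (fun j _ => h0 j x)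
      (Finset.mem_univ _))
  refine ⟨_, q, fun j x => h j x / ∑ i, h i x, ?_, ?_, ?_, ?_⟩
  · intro j
    exact (hc j).div (continuous_finsetSum _ fun i _ => hc i) fun x => (hpos x).ne'
  · intro j x
    exact div_nonneg (h0 j x) (hpos x).le
  · intro x
    rw [← Finset.sum_div]
    exact div_self (hpos x).ne'
  · intro j x hx
    have h1 : h j x ≠ 0 := by
      intro h1
      apply hx
      simp only [h1, zero_div]
    by_contra h2
    apply h1
    exact max_eq_left (by linarith)

end ALX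

open ALX in
theorem t_ALX : M_ALX := by
  intro hHPF hLNA hEXS hTRN hSLL X _ _ hX K L f hK hL hLK hf hf0 hvan
  rcases L.eq_empty_or_nonempty with rfl | hne
  · refine ⟨fun _ => EuclideanSpace.single 0 1, continuousOn_const, fun x _ h => ?_,
      fun x hx => absurd hx (notMem_empty x)⟩
    have := congrArg norm h
    simp at this
  obtain ⟨hpc, hpn, hps, -, -, -, -⟩ := hHPF
  obtain ⟨v, t, c, ε₀, hlin, hfv⟩ := hLNA X L f hL hne hf hf0
  -- the cocycles
  have h1 := k2_cyc hlin
  have h2 : Cyc 3 K L (dd (k2 c)) := by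
    have := les_conn (A := K) h1
    norm_num at this
    exact this
  have h3 : Bd (2 + 1) K L (dd (k2 c)) := by
    have := hvan _ h2
    norm_num
    exact this
  obtain ⟨C2, hC2, κ2, hκ1, -, hκ2⟩ := les_right (empty_subset L) h1 h3
  obtain ⟨ε₁, hε₁, hκ3⟩ := hκ2
  obtain ⟨ε₂, hε₂, hC3⟩ := hC2.cyc
  have hε₀ := hlin.pos
  set ε : ℝ := min ε₀ (min ε₁ ε₂) with hε
  have hε0 : 0 < ε := lt_min hε₀ (lt_min hε₁ hε₂)
  have hle0 : ε ≤ ε₀ := min_le_left _ _
  have hle1 : ε ≤ ε₁ := (min_le_right _ _).trans (min_le_left _ _)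
  have hle2 : ε ≤ ε₂ := (min_le_right _ _).trans (min_le_right _ _)
  have hlin' := lin_mono hlin hε0 hle0
  let C : X → X → X → ℤ := fun x y z => C2 [x, y, z]
  let κ : X → X → ℤ := fun x y => κ2 [x, y]
  have hC : ∀ x y z w, [x, y, z, w] ∈ Small K ε →
      C y z w - C x z w + C x y w - C x y z = 0 := by
    intro x y z w h
    have := hC3 _ (Small.mono Subset.rfl hle2 h)
    rw [dd_four] at this
    exact this
  have hκ : ∀ x y z, [x, y, z] ∈ Small L ε → c x y z - C x y z = κ y z - κ x z + κ x y := by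
    intro x y z h
    have := hκ3 _ (Small.mono Subset.rfl hle1 h)
    rw [Pi.sub_apply, Pi.sub_apply, dd_three, k2_three] at this
    exact sub_eq_zero.1 this
  obtain ⟨n, q, φ, hφ1, hφ2, hφ3, hφ4⟩ := exists_part (X := X) hε0
  have hT : Trn K φ (trn q φ C) := hTRN X n K φ q C ε hε0 hφ1 hφ2 hφ3 hφ4 hC
  obtain ⟨F, hF1, hF2⟩ := hSLL X L v t c C κ ε n φ q hL hlin' hφ1 hφ2 hφ3 hφ4 hκ
  obtain ⟨F', hF3, hF4⟩ := hEXS X hX n K L φ (trn q φ C) F hK hL hLK hT hF1
  -- the choice of the index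
  have hj : ∀ x, ∃ j, φ j x ≠ 0 := by
    intro x
    by_contra h
    push Not at h
    have := hφ3 x
    rw [Finset.sum_eq_zero fun j _ => h j] at this
    norm_num at this
  choose j hj using hj
  have hn0 : ∀ u : ℂ × ℂ, u ≠ 0 → ‖hp u‖ ≠ 0 := by
    intro u hu h
    rw [hpn] at h
    apply hu
    have h5 : ‖u.1‖ = 0 := by nlinarith [norm_nonneg u.1, sq_nonneg ‖u.2‖, sq_nonneg ‖u.1‖]
    have h6 : ‖u.2‖ = 0 := by nlinarith [norm_nonneg u.2, sq_nonneg ‖u.2‖, sq_nonneg ‖u.1‖]
    exact Prod.ext (norm_eq_zero.1 h5) (norm_eq_zero.1 h6)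
  let N : ℂ × ℂ → R3 := fun u => (1 / ‖hp u‖) • hp u
  have hN1 : ∀ (z : ℂ) (u : ℂ × ℂ), z ≠ 0 → N (z • u) = N u := by
    intro z u hz
    have hz' : ‖z‖ ^ 2 ≠ 0 := pow_ne_zero 2 (norm_ne_zero_iff.2 hz)
    simp only [N]
    rw [hps, norm_smul, smul_smul, norm_pow, norm_norm]
    congr 1
    rw [one_div, mul_inv, mul_comm, ← mul_assoc, mul_inv_cancel₀ hz', one_mul, one_div]
  have hN2 : ∀ u : ℂ × ℂ, u ≠ 0 → ContinuousAt N u := by
    intro u hu
    exact ((continuousAt_const).div hpc.norm.continuousAt (hn0 u hu)).smul hpc.continuousAt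
  have hN3 : ∀ u : ℂ × ℂ, u ≠ 0 → ‖N u‖ = 1 := by
    intro u hu
    simp only [N]
    rw [norm_smul, norm_div, norm_one, norm_norm, one_div, inv_mul_cancel₀ (hn0 u hu)]
  let G : X → R3 := fun x => N (F' (j x) x)
  have hG1 : ∀ x ∈ K, ∀ i, φ i x ≠ 0 → G x = N (F' i x) := by
    intro x hx i hi
    simp only [G]
    rw [hF3.tr i (j x) x hx hi (hj x)]
    exact hN1 _ _ (hT.ne _ _ x hx)
  have hG2 : ContinuousOn G K := by
    intro x hx
    have h5 : ContinuousWithinAt (F' (j x)) {y | y ∈ K ∧ φ (j x) y ≠ 0} x :=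
      hF3.con (j x) x ⟨hx, hj x⟩
    have h6 : ContinuousWithinAt (fun y => N (F' (j x) y)) {y | y ∈ K ∧ φ (j x) y ≠ 0} x :=
      (hN2 _ (hF3.ne (j x) x hx (hj x))).comp_continuousWithinAt h5
    have h7 : IsOpen {y | φ (j x) y ≠ 0} := (hφ1 (j x)).isOpen_preimage _ isOpen_ne
    have h8 : ContinuousWithinAt (fun y => N (F' (j x) y)) K x := by
      have : {y | y ∈ K ∧ φ (j x) y ≠ 0} = K ∩ {y | φ (j x) y ≠ 0} := rfl
      rw [this] at h6
      exact (continuousWithinAt_inter (h7.mem_nhds (hj x))).1 h6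
    refine h8.congr_of_eventuallyEq ?_ (hG1 x hx _ (hj x))
    filter_upwards [self_mem_nhdsWithin, mem_nhdsWithin_of_mem_nhds (h7.mem_nhds (hj x))] with y hy hy2
    exact hG1 y hy _ hy2
  have hG3 : ∀ x ∈ K, ‖G x‖ = 1 := fun x hx => hN3 _ (hF3.ne (j x) x hx (hj x))
  have hG4 : ∀ x ∈ L, G x = hp (v x) := by
    intro x hx
    obtain ⟨z, hz, hz2⟩ := hF2 (j x) x hx (hj x)
    have hz0 : z ≠ 0 := by
      intro h
      rw [h, norm_zero] at hz
      norm_num at hz
    simp only [G]
    rw [hF4 (j x) x hx (hj x), hz2, hN1 z _ hz0]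
    simp only [N]
    rw [hpn, hlin.unit, div_one, one_smul]
  -- the norm
  obtain ⟨l, hl⟩ := ContinuousMap.exists_restrict_eq (Y := ℝ) hL
    ⟨fun x : L => Real.log ‖f x‖, by
      refine Continuous.log (continuous_norm.comp (continuousOn_iff_continuous_domRestrict.1 hf)) ?_
      intro x
      exact norm_ne_zero_iff.2 (hf0 x x.2)⟩
  have hl2 : ∀ x ∈ L, l x = Real.log ‖f x‖ := fun x hx => by
    have := congrArg (fun g : C(L, ℝ) => g ⟨x, hx⟩) hl
    exact this
  refine ⟨fun x => Real.exp (l x) • G x, ?_, ?_, ?_⟩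
  · exact (Real.continuous_exp.comp l.continuous).continuousOn.smul hG2
  · intro x hx h
    have h5 := congrArg norm h
    rw [norm_smul, hG3 x hx, mul_one, norm_zero, Real.norm_eq_abs, abs_of_pos (Real.exp_pos _)] at h5
    exact (Real.exp_pos _).ne' h5
  · intro x hx
    simp only
    rw [hl2 x hx, Real.exp_log (norm_pos_iff.2 (hf0 x hx)), hG4 x hx]
    exact (hfv x hx).symm

end BBH


end

section

/-!
# Module LT0: the local groups in degree zero

`V = B \ {w}` for a good neighbourhood `B ⊆ U` of `x` and a point `w ∈ B \ {x}`: a cocycle of degree zero that vanishes near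
`Vᶜ` vanishes at `w`, so it vanishes near the connected set `B`, and then everywhere.
-/

set_option autoImplicit false

namespace BBH

open Set Topology

theorem t_LT0 : M_LT0 := by
  intro hCON M X _ _ _ hGN x U hU hx
  obtain ⟨B, hBU, hxB, hB⟩ := hGN x U hU hx
  obtain ⟨hBo, hBc, hB3⟩ := hB
  obtain ⟨w, hwB, hwx⟩ := ((hB3 B Subset.rfl hBo hBc).1 x hxB).nonempty
  have hwx' : x ≠ w := fun h => hwx (by rw [← h]; rfl)
  refine ⟨B \ {w}, fun y hy => hBU hy.1, hBo.sdiff isClosed_singleton, ⟨hxB, hwx'⟩,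
    fun c hc => ?_⟩
  have hc1 : Cyc 0 B ∅ c := Cyc.mono hc (subset_univ _) (empty_subset _)
  obtain ⟨m, hm⟩ := hCON M X B hBc.isPreconnected c hc1
  have hwV : w ∈ (B \ {w})ᶜ := fun h => h.2 rfl
  have hsmall : ∀ (A : Set X) (ε : ℝ), 0 < ε → w ∈ A → [w] ∈ Small A ε := by
    intro A ε hε hw
    refine ⟨fun y hy => ?_, fun y hy z hz => ?_⟩
    · rw [List.mem_singleton] at hy
      rw [hy]
      exact Metric.self_subset_thickening hε A hw
    · rw [List.mem_singleton] at hy hz
      rw [hy, hz, dist_self]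
      exact hε
  have hcw : c [w] = 0 := by
    obtain ⟨ε, hε, h⟩ := hc.rel
    exact h _ (hsmall _ ε hε hwV)
  have hm0 : m = 0 := by
    obtain ⟨ε, hε, h⟩ := hm
    have h1 := h _ (hsmall _ ε hε hwB)
    rw [Pi.sub_apply, hcw, c0_single, zero_sub, neg_eq_zero] at h1
    exact h1
  have h0 : (c0 fun _ => m : Cc M X) = 0 := by
    subst hm0
    funext l
    rcases l with _ | ⟨y, _ | ⟨z, l⟩⟩ <;> rfl
  rw [h0, sub_zero] at hm
  have h1 : Zr (B \ {w}) c := hm.anti sdiff_subset
  exact BdO.of_Zr (Zr.univ_of h1 hc.rel)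

end BBH


end

section

/-!
# BBH, module NZK: the third group is not zero for a countable field
-/

set_option autoImplicit false

namespace BBH

open Set Topology CTO

namespace NZK

theorem dd_one {M X : Type} [AddCommGroup M] (m : M) : dd (c0 fun _ : X => m) = 0 := by
  funext l
  rcases l with _ | ⟨x, _ | ⟨y, _ | ⟨z, l⟩⟩⟩
  · simp
  · simp
  · simp
  · by_contra h
    have h1 := ((Dg.c0 fun _ : X => m).dd _ h).2
    simp only [List.length_cons] at h1
    push_cast at h1
    omega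

theorem not_van {k X : Type} [Field k] [MetricSpace X] (x : X) :
    ¬ VanO k 0 (univ : Set X) := by
  intro h
  have h1 : CyO 0 (univ : Set X) (c0 fun _ : X => (1 : k)) := by
    refine ⟨Dg.c0 _, ?_, ?_⟩
    · rw [compl_univ]
      exact Zr.empty (Dg.c0 _)
    · rw [dd_one]
      exact Zr.zero _
  obtain ⟨b, hb, -, ε, hε, hz⟩ := h _ h1
  have hb0 : b = 0 := hb.eq_zero (by norm_num)
  have h2 := hz [x] ⟨fun y _ => Metric.self_subset_thickening hε _ (mem_univ y), by
    intro y hy z hz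
    rw [List.mem_singleton] at hy hz
    rw [hy, hz, dist_self]
    exact hε⟩
  rw [hb0, dd_zero, sub_zero, c0_single] at h2
  exact one_ne_zero h2

end NZK

theorem t_NZK : M_NZK := by
  intro hNZA hGEQ h0 h1 h2 k X _ _ _ _ _ hX hH hS hG x
  refine hNZA k X hH hS ?_ x
  by_contra hc
  have v3 : ∀ V : Set X, IsOpen V → VanO k (2 + 1) V := by
    intro V hV
    by_contra hn
    exact hc ⟨V, hV, hn⟩
  have v2 := hGEQ k X 2 v3 (h2 k X hX hH hG)
  have v1 := hGEQ k X 1 v2 (h1 k X hX hG)
  have v0 := hGEQ k X 0 v1 (h0 k X hG)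
  exact NZK.not_van x (v0 univ isOpen_univ)

end BBH


end

section

/-!
# Module KE: the functional `q c = P (- cup (c0 u) c, c)`
-/

set_option autoImplicit false

namespace BBH

open Set Topology CTO

namespace KE

variable {k X : Type} [Field k]

theorem cup_top (g e : Cc k X) (h : ∀ l, l ≠ [] → g l = 0) (l : List X) : cup g e l = 0 := by
  rcases l with _ | ⟨x, l⟩
  · exact cup_nil g e
  · have h1 : sh g x = 0 := by
      funext l'
      exact h _ (List.cons_ne_nil x l')
    rw [cup_cons, h1, cup_zero_left, h [x] (List.cons_ne_nil x []), zero_smul, Pi.zero_apply,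
      add_zero]

theorem cup_c0_cons (f : X → k) (e : Cc k X) (x : X) (l : List X) :
    cup (c0 f) e (x :: l) = f x • e (x :: l) := by
  rw [cup_cons, cup_top (sh (c0 f) x) e, add_zero, c0_single]
  intro l' hl'
  rcases l' with _ | ⟨y, l'⟩
  · exact absurd rfl hl'
  · rfl

theorem cup_c0_const (a : k) {e : Cc k X} (h : e [] = 0) :
    cup (c0 fun _ => a) e = a • e := by
  funext l
  rcases l with _ | ⟨x, l⟩
  · rw [cup_nil, Pi.smul_apply, h, smul_zero]
  · rw [cup_c0_cons, Pi.smul_apply]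

end KE

theorem t_KE : S_KE := by
  intro k X _ _ W Θ s P hΘ hP V hVW hV u hu
  have hWV : Wᶜ ⊆ Vᶜ := compl_subset_compl.2 hVW
  -- cochains near `univ`
  have hz : ∀ z : Cc k X, Dg X 3 z → Zr univ z → P (-cup (c0 u) z, z) = 0 := by
    intro z hz hz'
    have hd : Dg X 3 (-cup (c0 u) z) := by
      have h1 := (Dg.cup (Dg.c0 u) hz).neg
      rwa [zero_add] at h1
    exact hP.c _ _ hd hz (hz'.cup_right (c0 u)).neg hz'
  have hd1 : Dg X 1 (dd (c0 u)) := by
    have h1 := (Dg.c0 u).dd
    rwa [zero_add] at h1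
  refine ⟨?_, ?_⟩
  · intro c hc hb
    obtain ⟨b, hb1, hb2, hb3⟩ := hb
    have hb1' : Dg X 2 b := by
      have e : (3 : ℤ) - 1 = 2 := by norm_num
      rwa [e] at hb1
    have hbW : Zr Wᶜ b := hb2.anti hWV
    have hb0 : Dg X 2 (-cup (c0 u) b) := by
      have h1 := (Dg.cup (Dg.c0 u) hb1').neg
      rwa [zero_add] at h1
    have hb0z : Zr Wᶜ (-cup (c0 u) b) := (hbW.cup_right (c0 u)).neg
    have hmain := hP.b (-cup (c0 u) b) b hb0 hb1' hb0z hbW
    have hleib : dd (cup (c0 u) b) = cup (dd (c0 u)) b + cup (c0 u) (dd b) := by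
      have h1 := dd_cup (p := 0) (Dg.c0 u) hb1'
      rwa [pow_zero, one_smul] at h1
    have hr : Dg X 3 (cup (Θ - dd (c0 u)) b) := by
      have h1 := Dg.cup (hΘ.sub hd1) hb1'
      have e : (1 : ℤ) + 2 = 3 := by norm_num
      rwa [e] at h1
    have hrz : Zr univ (cup (Θ - dd (c0 u)) b) :=
      Zr.univ_of (hu.cup_left b) (hb2.cup_right _)
    have hr0 : P (cup (Θ - dd (c0 u)) b, 0) = 0 := hP.c _ _ hr Dg.zero hrz (Zr.zero _)
    have hddb : P (-cup (c0 u) (dd b), dd b) = 0 := by
      have e : ((-cup (c0 u) (dd b), dd b) : Cc k X × Cc k X)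
          = (dd (-cup (c0 u) b) + cup Θ b, dd b) - (cup (Θ - dd (c0 u)) b, 0) := by
        refine Prod.ext ?_ ?_
        · show -cup (c0 u) (dd b) = dd (-cup (c0 u) b) + cup Θ b - cup (Θ - dd (c0 u)) b
          rw [dd_neg, hleib, cup_sub_left]
          abel
        · show dd b = dd b - 0
          rw [sub_zero]
      rw [e, map_sub, hmain, hr0, sub_zero]
    have hzd : Dg X 3 (c - dd b) := hc.deg.sub hb1.dd'
    have hz0 := hz (c - dd b) hzd hb3
    have e : ((-cup (c0 u) c, c) : Cc k X × Cc k X)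
        = (-cup (c0 u) (dd b), dd b) + (-cup (c0 u) (c - dd b), c - dd b) := by
      refine Prod.ext ?_ ?_
      · show -cup (c0 u) c = -cup (c0 u) (dd b) + -cup (c0 u) (c - dd b)
        rw [cup_sub_right]
        abel
      · show c = dd b + (c - dd b)
        abel
    rw [e, map_add, hddb, hz0, add_zero]
  · intro u' a hua c hc
    have hcW : CyO 3 W c := hc.mono hVW
    have hg : Dg X 0 (c0 u - c0 u' - c0 fun _ => a) :=
      ((Dg.c0 u).sub (Dg.c0 u')).sub (Dg.c0 _)
    have hd : Dg X 3 (cup (c0 u - c0 u' - c0 fun _ => a) c) := by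
      have h1 := Dg.cup hg hc.deg
      rwa [zero_add] at h1
    have hzr : Zr univ (cup (c0 u - c0 u' - c0 fun _ => a) c) :=
      Zr.univ_of (hua.cup_left c) (hc.rel.cup_right _)
    have h0 : P (cup (c0 u - c0 u' - c0 fun _ => a) c, 0) = 0 :=
      hP.c _ _ hd Dg.zero hzr (Zr.zero _)
    have ha : P (a • c, 0) = a * s c := by
      have e : ((a • c, 0) : Cc k X × Cc k X) = a • (c, 0) := by
        refine Prod.ext rfl ?_
        show (0 : Cc k X) = a • 0
        rw [smul_zero]
      rw [e, map_smul, hP.a c hcW, smul_eq_mul]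
    have e : ((-cup (c0 u) c, c) : Cc k X × Cc k X)
        = (-cup (c0 u') c, c) - (cup (c0 u - c0 u' - c0 fun _ => a) c, 0) - (a • c, 0) := by
      refine Prod.ext ?_ ?_
      · show -cup (c0 u) c
          = -cup (c0 u') c - cup (c0 u - c0 u' - c0 fun _ => a) c - a • c
        rw [cup_sub_left, cup_sub_left, KE.cup_c0_const a hc.deg.nil]
        abel
      · show c = c - 0 - 0
        rw [sub_zero, sub_zero]
    rw [e, map_sub, map_sub, h0, ha, sub_zero]

end BBH


end

section

/-!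
# BBH: the pairing
-/

set_option autoImplicit false

namespace BBH

open Set Topology CTO

namespace PRG

variable {k X : Type} [Field k] [MetricSpace X]

theorem zr_cup {N : Set X} {θ e : Cc k X} (hθ : Zr Nᶜ θ) (he : Zr N e) : Zr univ (cup θ e) := by
  have h := Zr.union (Zr.cup_right θ he) (Zr.cup_left e hθ)
  rwa [union_compl_self] at h

theorem cyc_cup {B K N : Set X} {θ g : Cc k X} (hNB : N ⊆ B) (hNK : N ⊆ K)
    (hg : Cyc 1 K ∅ g) (hθ : CyO 2 N θ) : CyO 3 B (cup θ g) := by
  refine ⟨?_, ?_, ?_⟩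
  · exact Dg.cup hθ.deg hg.deg
  · exact (Zr.cup_left g hθ.rel).anti (compl_subset_compl.2 hNB)
  · have h1 : Dg X ((2 : ℕ) : ℤ) θ := hθ.deg
    rw [dd_cup h1 hg.deg]
    refine (Zr.cup_left g hθ.cyc).add (Zr.smul _ (zr_cup hθ.rel (hg.cyc.anti hNK)))

end PRG

theorem t_PRG : S_PRG := by
  intro k X _ _ B K N N₀ g g0 t hNB hNK hNN hg hg0 hb θ s hθ hs
  obtain ⟨b, db, -, kb⟩ := hb
  have hc : CyO 3 B (cup θ g - t • cup θ g0) :=
    Cyc.sub (PRG.cyc_cup hNB hNK hg hθ) (Cyc.smul t (PRG.cyc_cup hNB hNK hg0 hθ))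
  have hbd : BdO 3 B (cup θ g - t • cup θ g0) := by
    have h0 : Dg X (0 : ℤ) b := by
      have : (1 : ℤ) - 1 = 0 := by norm_num
      rwa [this] at db
    refine ⟨cup θ b, ?_, (Zr.cup_left b hθ.rel).anti (compl_subset_compl.2 hNB), ?_⟩
    · have h2 := Dg.cup hθ.deg h0
      have : (2 : ℤ) + 0 = 3 - 1 := by norm_num
      rwa [this] at h2
    · have h1 : Dg X ((2 : ℕ) : ℤ) θ := hθ.deg
      have h3 : cup θ g - t • cup θ g0 - dd (cup θ b) =
          cup θ (g - t • g0 - dd b) - cup (dd θ) b := by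
        rw [dd_cup h1 h0, cup_sub_right, cup_sub_right, cup_smul_right]
        have : ((-1 : k)) ^ 2 = 1 := by norm_num
        rw [this, one_smul]
        abel
      rw [h3]
      exact (PRG.zr_cup hθ.rel (kb.anti hNN)).sub (Zr.cup_left b hθ.cyc)
  have h4 := hs _ hc hbd
  rw [map_sub, map_smul, smul_eq_mul, sub_eq_zero] at h4
  exact h4

end BBH


end

section

/-!
# Module ALZ: a finitely generated abelian group with one dimensional reductions
-/

set_option autoImplicit false

namespace BBH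

open Set Topology

open scoped DirectSum

namespace ALZ

theorem dvd_of_zmod (p e : ℕ) (he : e ≠ 0) (t x : ℤ)
    (h : ((t : ℤ) : ZMod (p ^ e)) = (p : ℤ) • ((x : ℤ) : ZMod (p ^ e))) : (p : ℤ) ∣ t := by
  have h1 : (((t - p * x : ℤ)) : ZMod (p ^ e)) = 0 := by
    push_cast
    rw [h]
    simp
  rw [ZMod.intCast_zmod_eq_zero_iff_dvd] at h1
  have h2 : (p : ℤ) ∣ ((p ^ e : ℕ) : ℤ) := by
    push_cast
    exact dvd_pow_self _ he
  have h3 := (h2.trans h1)
  have h4 : (p : ℤ) ∣ p * x := Dvd.intro _ rfl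
  have h5 := dvd_add h3 h4
  rwa [sub_add_cancel] at h5

end ALZ

theorem t_ALZ : S_ALZ := by
  classical
  intro A _ hfin hnt hp
  have hfg : AddGroup.FG A := Module.Finite.iff_addGroup_fg.1 hfin
  obtain ⟨n, ι, _, p, hpp, e, ⟨φ⟩⟩ := AddCommGroup.equiv_free_prod_directSum_zmod A
  have hn0 : n ≠ 0 := by
    rintro rfl
    obtain ⟨a, ha⟩ := hnt
    have hN : ((∏ i, p i ^ e i : ℕ) : ℤ) ≠ 0 := by
      exact_mod_cast (Finset.prod_ne_zero_iff.2 fun i _ => pow_ne_zero _ (hpp i).ne_zero)
    apply ha _ hN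
    apply φ.injective
    rw [map_zsmul, map_zero]
    refine Prod.ext (Subsingleton.elim _ _) ?_
    rw [Prod.smul_snd, Prod.snd_zero]
    refine DFinsupp.ext fun i => ?_
    rw [DFinsupp.smul_apply, DFinsupp.zero_apply, zsmul_eq_mul]
    have h1 : (((∏ i, p i ^ e i : ℕ) : ℤ) : ZMod (p i ^ e i)) = 0 := by
      rw [ZMod.intCast_zmod_eq_zero_iff_dvd]
      exact_mod_cast Finset.dvd_prod_of_mem (fun i => p i ^ e i) (Finset.mem_univ i)
    rw [h1, zero_mul]
  have hn1 : ∀ i j : Fin n, i = j := by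
    intro i j
    by_contra hij
    obtain ⟨s, t, x, hst, hx⟩ := hp 2 Nat.prime_two (φ.symm (Finsupp.single i 1, 0))
      (φ.symm (Finsupp.single j 1, 0))
    have h1 := congrArg φ hx
    rw [map_add, map_zsmul, map_zsmul, map_zsmul, φ.apply_symm_apply, φ.apply_symm_apply] at h1
    have h2 := congrArg Prod.fst h1
    have h3 := DFunLike.congr_fun h2 i
    have h4 := DFunLike.congr_fun h2 j
    simp [hij, Ne.symm hij] at h3 h4
    apply hst
    exact ⟨⟨_, h3⟩, ⟨_, h4⟩⟩
  have he : ∀ i, e i = 0 := by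
    intro i
    by_contra hei
    have h0 : 0 < n := Nat.pos_of_ne_zero hn0
    obtain ⟨s, t, x, hst, hx⟩ := hp (p i) (hpp i) (φ.symm (Finsupp.single ⟨0, h0⟩ 1, 0))
      (φ.symm (0, DirectSum.of (fun i => ZMod (p i ^ e i)) i 1))
    have h1 := congrArg φ hx
    rw [map_add, map_zsmul, map_zsmul, map_zsmul, φ.apply_symm_apply, φ.apply_symm_apply] at h1
    have h2 := DFunLike.congr_fun (congrArg Prod.fst h1) ⟨0, h0⟩
    have h3 := DFunLike.congr_fun (congrArg Prod.snd h1) i
    have h2' : s = (p i : ℤ) * (φ x).1 ⟨0, h0⟩ := by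
      have e1 : (s • ((Finsupp.single ⟨0, h0⟩ 1, 0) : (Fin n →₀ ℤ) × ⨁ i : ι, ZMod (p i ^ e i)) +
          t • ((0, DirectSum.of (fun i => ZMod (p i ^ e i)) i 1) :
            (Fin n →₀ ℤ) × ⨁ i : ι, ZMod (p i ^ e i))).1 ⟨0, h0⟩ = s := by
        simp
      rw [← e1, h2]
      simp
    have h3' : ((t : ℤ) : ZMod (p i ^ e i)) = (p i : ℤ) • ((φ x).2 i) := by
      have e1 : (s • ((Finsupp.single ⟨0, h0⟩ 1, 0) : (Fin n →₀ ℤ) × ⨁ i : ι, ZMod (p i ^ e i)) +
          t • ((0, DirectSum.of (fun i => ZMod (p i ^ e i)) i 1) :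
            (Fin n →₀ ℤ) × ⨁ i : ι, ZMod (p i ^ e i))).2 i = (t : ZMod (p i ^ e i)) := by
        rw [Prod.snd_add, Prod.smul_snd, Prod.smul_snd, smul_zero, zero_add, DirectSum.smul_apply,
          DirectSum.of_eq_same, zsmul_eq_mul, mul_one]
      rw [← e1, h3]
      rfl
    apply hst
    refine ⟨Dvd.intro _ h2'.symm, ?_⟩
    obtain ⟨z, hz⟩ := ZMod.intCast_surjective ((φ x).2 i)
    rw [← hz] at h3'
    exact ALZ.dvd_of_zmod _ _ hei t z h3'
  have hT : Subsingleton (⨁ i : ι, ZMod (p i ^ e i)) := by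
    refine ⟨fun a b => DFinsupp.ext fun i => ?_⟩
    have h1 : Subsingleton (ZMod (p i ^ e i)) := by
      rw [he i, pow_zero]
      infer_instance
    exact Subsingleton.elim _ _
  obtain rfl : n = 1 := by
    by_contra h1
    have h2 : 2 ≤ n := by omega
    have h3 := hn1 ⟨0, by omega⟩ ⟨1, by omega⟩
    simp at h3
  have ψ : (Fin 1 →₀ ℤ) × (⨁ i : ι, ZMod (p i ^ e i)) ≃+ ℤ :=
    { toFun := fun a => a.1 0
      invFun := fun z => (Finsupp.single 0 z, 0)
      left_inv := fun a => by
        refine Prod.ext ?_ (Subsingleton.elim _ _)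
        refine Finsupp.ext fun j => ?_
        rw [Subsingleton.elim j 0]
        simp
      right_inv := fun z => by simp
      map_add' := fun a b => by simp }
  exact ⟨(φ.trans ψ).toIntLinearEquiv⟩

end BBH


end

section

/-!
# BBH, module ORA: uniqueness of orientations mod 2
-/

set_option autoImplicit false

namespace BBH

open Set Topology CTO

namespace ORA

variable {X : Type} [MetricSpace X]

theorem eq_mul {W : Set X} {s : Cc (ZMod 2) X →ₗ[ZMod 2] ZMod 2} {c g : Cc (ZMod 2) X}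
    {t : ZMod 2} (hs : Kil 3 W s) (hc : CyO 3 W c) (hg : CyO 3 W g)
    (h : BdO 3 W (c - t • g)) : s c = t * s g := by
  have h1 : s (c - t • g) = 0 := hs _ (Cyc.sub hc (Cyc.smul t hg)) h
  rw [map_sub, map_smul, smul_eq_mul] at h1
  exact sub_eq_zero.1 h1

theorem eq_one {W : Set X} {s : Cc (ZMod 2) X →ₗ[ZMod 2] ZMod 2} {g : Cc (ZMod 2) X}
    (hs : Kil 3 W s) (hg : CyO 3 W g)
    (h : ∀ c : Cc (ZMod 2) X, CyO 3 W c → ∃ t : ZMod 2, BdO 3 W (c - t • g))
    (hne : ∃ c, CyO 3 W c ∧ s c ≠ 0) : s g = 1 := by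
  obtain ⟨c, hc, hsc⟩ := hne
  obtain ⟨t, ht⟩ := h c hc
  have h1 : s g ≠ 0 := by
    intro h0
    exact hsc (by rw [eq_mul hs hc hg ht, h0, mul_zero])
  have h2 : ∀ z : ZMod 2, z ≠ 0 → z = 1 := by decide
  exact h2 _ h1

end ORA

theorem t_ORA : M_ORA := by
  intro hG X _ _ lpc shr ucl U s s' hU hs hs'
  refine hG (ZMod 2) X 3 shr U (fun c => s c = s' c) hU ?_ ?_ ?_
  · intro a b ha hb
    rw [map_add, map_add, ha, hb]
  · intro c hc hb
    rw [hs.1 c hc hb, hs'.1 c hc hb]
  · intro y hy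
    have hWU : connectedComponentIn U y ⊆ U := connectedComponentIn_subset U y
    have hWo : IsOpen (connectedComponentIn U y) := hU.connectedComponentIn
    have hWc : IsConnected (connectedComponentIn U y) := isConnected_connectedComponentIn_iff.2 hy
    have hyW : y ∈ connectedComponentIn U y := mem_connectedComponentIn hy
    obtain ⟨g, hg, hgen⟩ := ucl _ hWo hWc
    refine ⟨_, hWU, hWo, hyW, ?_⟩
    intro c hc
    obtain ⟨t, ht⟩ := hgen c hc
    have hk := hs.1.mono hWU
    have hk' := hs'.1.mono hWU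
    rw [ORA.eq_mul hk hc hg ht, ORA.eq_mul hk' hc hg ht,
      ORA.eq_one hk hg hgen (hs.2 _ hWU hWo ⟨y, hyW⟩),
      ORA.eq_one hk' hg hgen (hs'.2 _ hWU hWo ⟨y, hyW⟩)]

end BBH


end
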