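import Mathlib
import Pool.Agent.BBM.C16

/-! Parts: BBH.C_UCA, BBH.C_UCB, BBH.C_SRJ, BBH.C_FDV, BBH.C_NSB, BBH.C_HAS, BBH.D_DVP, BBH.D_PRM, BBH.E_MOE, BBH.G_ARI, BBH.G_STP, BBH.G_DPL, BBH.G_LEC, BBH.H_SZN, BBH.H_SJZ -/

section

/-!
# Module UCA: unique continuation at some point
-/

set_option autoImplicit false

namespace BBH

open Set Topology CTO

namespace UCA

variable {k X : Type} [Field k] [MetricSpace X]

/-- the points of `i` with nonzero germ, for a functional on `H^p_c(i)` -/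
def NN (p : ℤ) (i : Set X) (θ : HO k k p i →ₗ[k] k) : Set X :=
  {y | y ∈ i ∧ ∀ (W : Set X) (hW : W ⊆ i), IsOpen W → y ∈ W →
    ∃ (c : Cc k X) (h : CyO p W c), θ (cls k c (CyO.mono h hW)) ≠ 0}

/-- the closed sets of points with nonzero germs, for functionals on the range of the extension -/
def EE (k : Type) {X : Type} [Field k] [MetricSpace X] (p : ℤ) (i j : Set X) : Set (Set X) :=
  ⋃ h : i ⊆ j, range fun ψ : LinearMap.range (ext k k (p := p) h) →ₗ[k] k =>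
    closure (NN p i (ψ ∘ₗ (ext k k (p := p) h).rangeRestrict))

theorem countable_dual {R : Type} [AddCommGroup R] [Module k R] [Countable k]
    [Module.Finite k R] : Countable (R →ₗ[k] k) := by
  have hinj : Function.Injective (fun (ψ : R →ₗ[k] k) (m : Fin (Module.finrank k R)) =>
      ψ (Module.finBasis k R m)) := by
    intro ψ ψ' h
    exact (Module.finBasis k R).ext fun m => congrFun h m
  exact hinj.countable

theorem countable_EE [Countable k] {p : ℤ} {i j : Set X}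
    (hfg : ∀ h : i ⊆ j, (LinearMap.range (ext k k (p := p) h)).FG) :
    (EE k p i j).Countable := by
  refine countable_iUnion fun h => ?_
  have : Module.Finite k (LinearMap.range (ext k k (p := p) h)) := Module.Finite.iff_fg.2 (hfg h)
  have := countable_dual (k := k) (R := LinearMap.range (ext k k (p := p) h))
  exact countable_range _

theorem closed_EE {p : ℤ} {i j E : Set X} (hE : E ∈ EE k p i j) : IsClosed E := by
  simp only [EE, mem_iUnion, mem_range] at hE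
  obtain ⟨_, _, rfl⟩ := hE
  exact isClosed_closure

theorem mem_EE {p : ℤ} {i j : Set X} (hi : IsOpen i) (hij : i ⊆ j) {s : Cc k X →ₗ[k] k}
    (hs : Kil p j s) : closure {y | y ∈ i ∧ ¬ Zg p s y} ∈ EE k p i j := by
  obtain ⟨φ, hφ⟩ := exists_fun hs
  simp only [EE, mem_iUnion, mem_range]
  refine ⟨hij, φ ∘ₗ (LinearMap.range (ext k k (p := p) hij)).subtype, ?_⟩
  congr 1
  have key : ∀ (W : Set X) (hW : W ⊆ i) (c : Cc k X) (h : CyO p W c),
      ((φ ∘ₗ (LinearMap.range (ext k k (p := p) hij)).subtype) ∘ₗ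
        (ext k k (p := p) hij).rangeRestrict) (cls k c (CyO.mono h hW)) = s c := by
    intro W hW c h
    exact hφ c (CyO.mono h (hW.trans hij))
  ext y
  constructor
  · rintro ⟨hy, h⟩
    refine ⟨hy, ?_⟩
    rintro ⟨W, hWo, hyW, hz⟩
    obtain ⟨c, hc, hne⟩ := h (W ∩ i) inter_subset_right (hWo.inter hi) ⟨hyW, hy⟩
    rw [key (W ∩ i) inter_subset_right c hc] at hne
    exact hne (hz c (CyO.mono hc inter_subset_left))
  · rintro ⟨hy, h⟩
    refine ⟨hy, fun W hW hWo hyW => ?_⟩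
    by_contra hcon
    push Not at hcon
    refine h ⟨W, hWo, hyW, fun c hc => ?_⟩
    have := hcon c hc
    rwa [key W hW c hc] at this

theorem isOpen_Zg (p : ℤ) (s : Cc k X →ₗ[k] k) : IsOpen {y | Zg p s y} := by
  rw [isOpen_iff_forall_mem_open]
  rintro y ⟨W, hW, hyW, hz⟩
  exact ⟨W, fun z hz' => ⟨W, hW, hz', hz⟩, hW, hyW⟩

end UCA

theorem t_UCA : M_UCA := by
  intro hFIO k X _ _ _ _ _ hX p
  obtain ⟨b, hbc, -, hb⟩ := TopologicalSpace.exists_countable_basis X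
  set S : Set (Set X) := ⋃ i ∈ b, ⋃ j ∈ b, ⋃ _ : closure i ⊆ j, UCA.EE k p i j with hS
  have hSc : S.Countable := by
    refine hbc.biUnion fun i hi => hbc.biUnion fun j hj => countable_iUnion fun h => ?_
    exact UCA.countable_EE fun hij => hFIO.1 k k X hX p i j (hb.isOpen hi) (hb.isOpen hj) h hij
  have hcl : ∀ E ∈ S, IsClosed E := by
    intro E hE
    simp only [hS, mem_iUnion] at hE
    obtain ⟨i, _, j, _, _, hE⟩ := hE
    exact UCA.closed_EE hE
  have hd : Dense (⋂ E ∈ S, (frontier E)ᶜ) := by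
    refine dense_biInter_of_isOpen (fun E _ => isClosed_frontier.isOpen_compl) hSc fun E hE => ?_
    rw [← interior_eq_empty_iff_dense_compl]
    exact interior_frontier (hcl E hE)
  obtain ⟨x, hx⟩ := hd.nonempty
  simp only [mem_iInter, mem_compl_iff] at hx
  refine ⟨x, fun V s hV hxV hs hZ => ?_⟩
  obtain ⟨j, hj, hxj, hjV⟩ := hb.exists_subset_of_mem_open hxV hV
  obtain ⟨i, hi, hxi, hij⟩ := hb.exists_closure_subset ((hb.isOpen hj).mem_nhds hxj)
  have hio := hb.isOpen hi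
  set E : Set X := closure {y | y ∈ i ∧ ¬ Zg p s y} with hE
  have hES : E ∈ S := by
    simp only [hS, mem_iUnion]
    exact ⟨i, hi, j, hj, hij, UCA.mem_EE hio (subset_closure.trans hij) (hs.mono hjV)⟩
  have hxE : x ∈ E := subset_closure ⟨hxi, hZ⟩
  have hxint : x ∈ interior E := by
    by_contra hcon
    exact hx E hES ⟨subset_closure hxE, hcon⟩
  refine ⟨interior E, isOpen_interior, hxint, fun y hy hz => ?_⟩
  have hyE : y ∈ closure {y | y ∈ i ∧ ¬ Zg p s y} := interior_subset hy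
  obtain ⟨w, hw1, hw2⟩ := mem_closure_iff.1 hyE _ (UCA.isOpen_Zg p s) hz
  exact hw2.2 hw1

end BBH


end

section

/-!
# UCB: transport of unique continuation
-/

set_option autoImplicit false

namespace BBH

open Set Topology CTO

noncomputable section

namespace UCB

variable {k X : Type} [Field k] [MetricSpace X]

/-- the transported functional -/
def tr (h : X ≃ₜ X) (s : Cc k X →ₗ[k] k) : Cc k X →ₗ[k] k where
  toFun c := s (pull h.symm c)
  map_add' a b := by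
    rw [← map_add]
    rfl
  map_smul' r a := by
    rw [RingHom.id_apply, ← map_smul]
    rfl

theorem tr_apply (h : X ≃ₜ X) (s : Cc k X →ₗ[k] k) (c : Cc k X) : tr h s c = s (pull h.symm c) :=
  rfl

theorem pre1 (h : X ≃ₜ X) (V : Set X) : h.symm ⁻¹' (h ⁻¹' V) = V := by
  ext z
  simp

theorem pre2 (h : X ≃ₜ X) (V : Set X) : h ⁻¹' (h.symm ⁻¹' V) = V := by
  ext z
  simp

omit [Field k] in
theorem pull_symm (h : X ≃ₜ X) (c : Cc k X) : pull h.symm (pull h c) = c := by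
  funext l
  rw [pull_apply, pull_apply, List.map_map]
  have e : (h : X → X) ∘ (h.symm : X → X) = id := by
    funext z
    simp
  rw [e, List.map_id]

end UCB

open UCB in
theorem t_UCB : M_UCB := by
  intro hT k X _ _ _ hH p hx y
  obtain ⟨x, hx⟩ := hx
  obtain ⟨h, rfl⟩ := hH x y
  intro V s hV hyV hK hZ
  -- the transported functional kills coboundaries
  have key : ∀ (W : Set X) (c : Cc k X), CyO p (h ⁻¹' W) c → CyO p W (pull h.symm c) := by
    intro W c hc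
    have h1 := ((hT k X h.symm p (h ⁻¹' W) c).1).1 hc
    rwa [pre1] at h1
  have key2 : ∀ (W : Set X) (c : Cc k X), BdO p (h ⁻¹' W) c → BdO p W (pull h.symm c) := by
    intro W c hc
    have h1 := ((hT k X h.symm p (h ⁻¹' W) c).2).1 hc
    rwa [pre1] at h1
  have hK' : Kil p (h ⁻¹' V) (tr h s) := fun c hc hb => hK _ (key V c hc) (key2 V c hb)
  have z1 : ∀ z, Zg p (tr h s) z → Zg p s (h z) := by
    rintro z ⟨W, hW, hz, hc⟩
    refine ⟨h.symm ⁻¹' W, hW.preimage h.symm.continuous, by simpa using hz, fun c hcy => ?_⟩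
    have h2 := ((hT k X h p (h.symm ⁻¹' W) c).1).1 hcy
    rw [pre2] at h2
    have h3 := hc _ h2
    rwa [tr_apply, pull_symm] at h3
  have z2 : ∀ z, Zg p s (h z) → Zg p (tr h s) z := by
    rintro z ⟨W, hW, hz, hc⟩
    exact ⟨h ⁻¹' W, hW.preimage h.continuous, hz, fun c hcy => hc _ (key W c hcy)⟩
  obtain ⟨W, hW, hxW, hno⟩ := hx (h ⁻¹' V) (tr h s) (hV.preimage h.continuous) hyV hK'
    fun hz => hZ (z1 x hz)
  refine ⟨h.symm ⁻¹' W, hW.preimage h.symm.continuous, by simpa using hxW, fun w hw hz => ?_⟩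
  refine hno (h.symm w) hw (z2 _ ?_)
  simpa using hz

end

end BBH


end

section

/-!
# Module SRJ: surjectivity in degree three
-/

set_option autoImplicit false

namespace BBH

open Set Topology CTO

/-- SRJ -/
theorem t_SRJ : M_SRJ := by
  intro hUC hGEN k X _ _ _ _ hX hH hS V W hV hVc hW hWV hWne c hc
  by_contra hcon
  have hx : cls k c hc ∉ LinearMap.range (ext k k (p := 3) hWV) := by
    rintro ⟨a, ha⟩
    obtain ⟨c', h', rfl⟩ := cls_surj a
    refine hcon ⟨c', h', ?_⟩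
    have h1 : cls k c' (CyO.mono h' hWV) = cls k c hc := ha
    exact (cls_eq (R := k) hc (CyO.mono h' hWV)).1 h1.symm
  obtain ⟨φ, hφ, hker⟩ := Submodule.exists_le_ker_of_notMem hx
  obtain ⟨s, hK, hs⟩ := exists_total φ
  have hW0 : ∀ e, CyO 3 W e → s e = 0 := by
    intro e he
    rw [hs e (CyO.mono he hWV)]
    exact hker ⟨cls k e he, rfl⟩
  obtain ⟨y₀, hy₀⟩ := hWne
  have hZ : ∀ y ∈ V, Zg 3 s y := hUC k X hX hH 3 V s hV hVc.isPreconnected hK
    ⟨y₀, hWV hy₀, W, hW, hy₀, hW0⟩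
  have h0 : s c = 0 := by
    refine hGEN k X 3 hS V (fun e => s e = 0) hV ?_ ?_ ?_ c hc
    · intro a b ha hb
      show s (a + b) = 0
      rw [map_add, ha, hb, add_zero]
    · intro e he hb
      exact hK e he hb
    · intro y hy
      obtain ⟨W', hW', hyW', h⟩ := hZ y hy
      exact ⟨W' ∩ V, inter_subset_right, hW'.inter hV, ⟨hyW', hy⟩,
        fun e he => h e (CyO.mono he inter_subset_left)⟩
  rw [hs c hc] at h0
  exact hφ h0

end BBH


end

section

/-!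
# FDV: the top cohomology with compact supports of a connected open set is finite dimensional
-/

set_option autoImplicit false

namespace BBH

open Set Topology CTO

theorem t_FDV : M_FDV := by
  intro hFIO k X _ _ _ hX hSj V hV hVc
  obtain ⟨x₀, hx₀⟩ := hVc.nonempty
  obtain ⟨ε, hε, hεV⟩ := Metric.nhds_basis_closedBall.mem_iff.1 (hV.mem_nhds hx₀)
  have hcl : closure (Metric.ball x₀ ε) ⊆ V := Metric.closure_ball_subset_closedBall.trans hεV
  have hWV : Metric.ball x₀ ε ⊆ V := subset_closure.trans hcl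
  have hfg := hFIO.1 k k X hX 3 (Metric.ball x₀ ε) V Metric.isOpen_ball hV hcl hWV
  have htop : LinearMap.range (ext k k (p := 3) hWV) = ⊤ := by
    rw [LinearMap.range_eq_top]
    intro a
    obtain ⟨c, hc, rfl⟩ := cls_surj a
    obtain ⟨c', hc', hb⟩ := hSj V (Metric.ball x₀ ε) hV hVc Metric.isOpen_ball hWV
      ⟨x₀, Metric.mem_ball_self hε⟩ c hc
    refine ⟨cls k c' hc', ?_⟩
    have h1 : cls k c hc = cls k c' (CyO.mono hc' hWV) :=
      (cls_eq (R := k) hc (CyO.mono hc' hWV)).2 hb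
    exact h1.symm
  rw [htop] at hfg
  exact Module.finite_def.2 hfg

end BBH


end

section

/-!
# Module NSB: compact sets without cohomology in degree two do not separate good sets
-/

set_option autoImplicit false

namespace BBH

open Set Topology

theorem t_NSB : M_NSB := by
  intro hE hM k X _ _ _ hS B J hB hJ hJB hV
  obtain ⟨hBo, hBc, hBn⟩ := hB
  have hso : IsOpen (B \ J) := hBo.sdiff hJ.isClosed
  intro u v hu hv hsub hsu hsv
  by_contra hne
  rw [Set.not_nonempty_iff_eq_empty] at hne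
  have hPo : IsOpen ((B \ J) ∩ u) := hso.inter hu
  have hQo : IsOpen ((B \ J) ∩ v) := hso.inter hv
  have hPs : (B \ J) ∩ u ⊆ B \ J := inter_subset_left
  have hQs : (B \ J) ∩ v ⊆ B \ J := inter_subset_left
  have hsB : B \ J ⊆ B := fun x hx => hx.1
  have hPQ : (B \ J) ∩ u ∩ ((B \ J) ∩ v) = ∅ := by
    rw [← hne]
    ext x
    constructor
    · rintro ⟨⟨h1, h2⟩, -, h3⟩
      exact ⟨h1, h2, h3⟩
    · rintro ⟨h1, h2, h3⟩
      exact ⟨⟨h1, h2⟩, h1, h3⟩
  have hun : (B \ J) ∩ u ∪ (B \ J) ∩ v = B \ J := by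
    rw [← inter_union_distrib_left]
    exact inter_eq_left.2 hsub
  have hnB := hBn B Subset.rfl hBo hBc.nonempty
  unfold VanO at hnB
  push Not at hnB
  obtain ⟨z, hz, hz'⟩ := hnB
  obtain ⟨a, ha, haz⟩ := hS B _ hBo hBc hPo (hPs.trans hsB) hsu z hz
  obtain ⟨b, hb, hbz⟩ := hS B _ hBo hBc hQo (hQs.trans hsB) hsv z hz
  have hab : BdO 3 B (a - b) := by
    have h1 : BdO 3 B (z - b - (z - a)) := Bd.sub hbz haz
    have e : z - b - (z - a) = a - b := by abel
    rwa [e] at h1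
  have h21 : (2 : ℤ) + 1 = 3 := by norm_num
  have h2 := (hE k X 2 B J hBo hJ hJB).1 hV (a - b)
  rw [h21] at h2
  have hcy : CyO 3 (B \ J) (a - b) := Cyc.sub (CyO.mono ha hPs) (CyO.mono hb hQs)
  have h3 := h2 hcy hab
  obtain ⟨e, he, he1, -⟩ := (hM k X 3 _ _ hPo hQo).2.2.2.1 a (-b) ha (Cyc.neg hb) (by
    rw [hun, ← sub_eq_add_neg]
    exact h3)
  have heZ : Zr univ e := by
    have h4 := he.rel
    rwa [hPQ, compl_empty] at h4
  have h5 : BdO 3 ((B \ J) ∩ u) a := Bd.of_sub he1 (BdO.of_Zr heZ)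
  have h6 : BdO 3 B a := BdO.mono h5 (hPs.trans hsB)
  exact hz' (Bd.of_sub haz h6)

end BBH


end

section

/-!
# Module HAS: vanishing of the cohomology of `D` in degree two
-/

set_option autoImplicit false

namespace BBH

open Set Topology

theorem t_HAS : M_HAS := by
  intro hE M X _ _ _ B B' D hB _ hD hDB h1 h2 c hc
  have h23 : (2 : ℤ) + 1 = 3 := by norm_num
  obtain ⟨c', hc'd, hc'B, hc'D, hc'c, hc'b⟩ := (hE M X 2 B D hB hD hDB).2.2 c hc
  rw [h23] at hc'c hc'b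
  obtain ⟨e, he1, he2, he3⟩ := h1 (dd c') hc'c hc'b
  have h31 : (3 : ℤ) - 1 = 2 := by norm_num
  rw [h31] at he1
  have hBc : Bᶜ ⊆ (B \ D)ᶜ := compl_subset_compl.2 sdiff_subset
  have hDc : D ⊆ (B \ D)ᶜ := fun x hx hx' => hx'.2 hx
  have hcy : CyO 2 B (c' - e) := by
    refine ⟨hc'd.sub he1, hc'B.sub (he2.anti hBc), ?_⟩
    rw [dd_sub]
    exact he3
  obtain ⟨f, hf1, _, hf3⟩ := h2 (c' - e) hcy
  refine ⟨f, hf1, Zr.empty hf1, ?_⟩
  have h4 : c - dd f = (c - c') + (c' - e - dd f) + e := by abel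
  rw [h4]
  exact (hc'D.add (hf3.anti (subset_univ D))).add (he2.anti hDc)

end BBH


end

section

/-!
# BBH, module DVP: divisibility
-/

set_option autoImplicit false

namespace BBH

open Set Topology CTO

namespace DVP

/-- the reduction of an integral cochain -/
theorem dd_red {X : Type} (p : ℕ) (c : Cc ℤ X) (l : List X) :
    dd (fun l => ((c l : ℤ) : ZMod p)) l = ((dd c l : ℤ) : ZMod p) :=
  dd_map (Int.castAddHom (ZMod p)) c l

end DVP

open DVP in
theorem t_DVP : S_DVP := by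
  intro X _ p q V hp hV c hc
  have : NeZero p := ⟨hp.ne'⟩
  have hp0 : (p : ℤ) ≠ 0 := by exact_mod_cast hp.ne'
  -- the reduction
  have hred : CyO q V (fun l => ((c l : ℤ) : ZMod p)) := by
    refine ⟨?_, ?_, ?_⟩
    · intro l hl
      refine hc.deg l fun h => hl ?_
      change ((c l : ℤ) : ZMod p) = 0
      rw [h, Int.cast_zero]
    · obtain ⟨ε, hε, h⟩ := hc.rel
      refine ⟨ε, hε, fun l hl => ?_⟩
      change ((c l : ℤ) : ZMod p) = 0
      rw [h l hl, Int.cast_zero]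
    · obtain ⟨ε, hε, h⟩ := hc.cyc
      refine ⟨ε, hε, fun l hl => ?_⟩
      rw [dd_red, h l hl, Int.cast_zero]
  obtain ⟨b', hb1, hb2, hb3⟩ := hV _ hred
  -- the lift
  let b : Cc ℤ X := fun l => ((b' l).val : ℤ)
  have hb0 : ∀ l, b' l = 0 → b l = 0 := by
    intro l hl
    change ((b' l).val : ℤ) = 0
    rw [hl, ZMod.val_zero, Nat.cast_zero]
  have hbdeg : Dg X (q - 1) b := fun l hl => hb1 l fun h => hl (hb0 l h)
  have hbrel : Zr Vᶜ b := by
    obtain ⟨ε, hε, h⟩ := hb2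
    exact ⟨ε, hε, fun l hl => hb0 l (h l hl)⟩
  have hbred : (fun l => ((b l : ℤ) : ZMod p)) = b' := by
    funext l
    change ((((b' l).val : ℕ) : ℤ) : ZMod p) = b' l
    rw [Int.cast_natCast, ZMod.natCast_zmod_val]
  let e : Cc ℤ X := c - dd b
  have hedeg : Dg X q e := hc.deg.sub hbdeg.dd'
  have herel : Zr Vᶜ e := hc.rel.sub hbrel.dd
  have hecyc : Zr univ (dd e) := by
    change Zr univ (dd (c - dd b))
    rw [dd_sub, dd_dd, sub_zero]
    exact hc.cyc
  have hdvd : ∃ ε > 0, ∀ l ∈ Small (univ : Set X) ε, (p : ℤ) ∣ e l := by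
    obtain ⟨ε, hε, h⟩ := hb3
    refine ⟨ε, hε, fun l hl => ?_⟩
    rw [← ZMod.intCast_zmod_eq_zero_iff_dvd]
    change (((c l - dd b l : ℤ)) : ZMod p) = 0
    rw [Int.cast_sub, ← dd_red, hbred]
    exact h l hl
  let c' : Cc ℤ X := fun l => e l / (p : ℤ)
  have hc0 : ∀ l, e l = 0 → c' l = 0 := by
    intro l hl
    change e l / (p : ℤ) = 0
    rw [hl, Int.zero_ediv]
  have hdeg : Dg X q c' := fun l hl => hedeg l fun h => hl (hc0 l h)
  have hrel : Zr Vᶜ c' := by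
    obtain ⟨ε, hε, h⟩ := herel
    exact ⟨ε, hε, fun l hl => hc0 l (h l hl)⟩
  have hdiff : Zr univ (e - (p : ℤ) • c') := by
    obtain ⟨ε, hε, h⟩ := hdvd
    refine ⟨ε, hε, fun l hl => ?_⟩
    change e l - (p : ℤ) * (e l / (p : ℤ)) = 0
    rw [Int.mul_ediv_cancel' (h l hl), sub_self]
  have hcyc : Zr univ (dd c') := by
    have h1 := hecyc.sub hdiff.dd
    obtain ⟨ε, hε, h⟩ := h1
    refine ⟨ε, hε, fun l hl => ?_⟩
    have h2 := h l hl
    rw [← dd_sub, sub_sub_cancel, dd_smul] at h2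
    change (p : ℤ) * dd c' l = 0 at h2
    exact (mul_eq_zero.1 h2).resolve_left hp0
  refine ⟨c', ⟨hdeg, hrel, hcyc⟩, b, hbdeg, hbrel, ?_⟩
  have h1 : c - (p : ℤ) • c' - dd b = e - (p : ℤ) • c' := by
    change c - (p : ℤ) • c' - dd b = c - dd b - (p : ℤ) • c'
    abel
  rw [h1]
  exact hdiff

end BBH


end

section

/-!
# BBH, PRM: a prime and an open set with nonzero cohomology in degree three
-/

set_option autoImplicit false

namespace BBH

open Set Topology CTO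

namespace PRM

/-- a finitely generated subgroup, divisible by all primes, is zero; for submodules over the integers -/
theorem range_zero (hFGD : S_FGD) {N : Type} [AddCommGroup N] [Module ℤ N] (I : Submodule ℤ N)
    (hI : I.FG) (hd : ∀ p : ℕ, p.Prime → ∀ a ∈ I, ∃ b ∈ I, a = (p : ℤ) • b) :
    ∀ a ∈ I, a = 0 := by
  have h1 : @Module.Finite ℤ I _ _ I.module := Module.Finite.iff_fg.2 hI
  have e : (AddCommGroup.toIntModule I : Module ℤ I) = I.module := Subsingleton.elim _ _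
  have h2 : @Module.Finite ℤ I _ _ (AddCommGroup.toIntModule I) := by
    rw [e]
    exact h1
  intro a ha
  have h3 := @hFGD I _ h2 (fun p hp x => by
    obtain ⟨b, hb, hab⟩ := hd p hp x.1 x.2
    refine ⟨⟨b, hb⟩, Subtype.ext ?_⟩
    rw [hab]
    have h4 : ((p : ℤ) • (⟨b, hb⟩ : I) : I).1 = (p : ℤ) • b := by
      simp
    exact h4.symm) ⟨a, ha⟩
  exact congrArg Subtype.val h3

end PRM

theorem t_PRM : M_PRM := by
  intro hNBH hFIO hZNZ hDVP hFGD X _ _ hX h3 h2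
  by_contra hcon
  push Not at hcon
  obtain ⟨V, hVo, hV⟩ := hZNZ X h3 h2
  refine hV fun c hc => ?_
  obtain ⟨W, hW, hWV, hcW⟩ := (hNBH ℤ X c).1 V hVo hc.rel
  have hcyc : CyO 3 W c := ⟨hc.deg, hcW, hc.cyc⟩
  have hsub : W ⊆ V := subset_closure.trans hWV
  have hfg := hFIO.1 ℤ ℤ X hX 3 W V hW hVo hWV hsub
  have key := PRM.range_zero hFGD _ hfg (fun p hp a ha => by
    obtain ⟨b, rfl⟩ := ha
    obtain ⟨c₁, h₁, rfl⟩ := cls_surj b
    obtain ⟨c', h', hb⟩ := hDVP X p 3 W hp.pos (hcon p W hp hW) c₁ h₁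
    refine ⟨ext ℤ ℤ hsub (cls ℤ c' h'), ⟨_, rfl⟩, ?_⟩
    rw [← map_smul, ← cls_smul]
    congr 1
    rw [cls_eq]
    exact hb) (ext ℤ ℤ hsub (cls ℤ c hcyc)) ⟨_, rfl⟩
  rw [ext_cls, cls_eq_zero] at key
  exact key

end BBH


end

section

/-!
# BBH: the functional of a 1-cycle made of arcs
-/

set_option autoImplicit false

namespace BBH

open Set Topology CTO

namespace MOE

variable {k X : Type} [Field k] [MetricSpace X]

theorem mo_zero {A : Set X} {a b : X} {g : Cc k X} (h : Zr A g) : Mo A a b g (0 : k) := by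
  refine ⟨0, ?_, by simp⟩
  have h1 : c0 (0 : X → k) = 0 := by
    funext l
    rcases l with _ | ⟨x, _ | ⟨y, l⟩⟩ <;> simp
  rw [h1, dd_zero, sub_zero]
  exact h

/-- the graph of the functional of a cycle -/
def gr (hM : S_MOA) (K Z : Set X) {n : ℕ} (A : Fin n → Set X) (a b : Fin n → X) (z : Fin n → k)
    (hA : ∀ i, BBP.Arc (A i) (a i) (b i)) : Submodule k (Cc k X × k) where
  carrier := {q | ∃ (g : Cc k X) (m : Fin n → k), CyO 2 Zᶜ q.1 ∧ Dg X 1 g ∧
    Zr K (q.1 - dd g) ∧ (∀ i, Mo (A i) (a i) (b i) g (m i)) ∧ q.2 = ∑ i, z i * m i}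
  zero_mem' := by
    refine ⟨0, 0, Cyc.zero, Dg.zero, ?_, fun i => mo_zero (Zr.zero _), ?_⟩
    · rw [dd_zero, Prod.fst_zero, sub_zero]
      exact Zr.zero _
    · simp
  add_mem' := by
    rintro q q' ⟨g, m, h1, h2, h3, h4, h5⟩ ⟨g', m', h1', h2', h3', h4', h5'⟩
    refine ⟨g + g', m + m', h1.add h1', h2.add h2', ?_, fun i =>
      (hM k X (A i) (a i) (b i) (hA i)).2.2.1 g g' (m i) (m' i) (h4 i) (h4' i), ?_⟩
    · rw [dd_add, Prod.fst_add, add_sub_add_comm]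
      exact h3.add h3'
    · rw [Prod.snd_add, h5, h5', ← Finset.sum_add_distrib]
      exact Finset.sum_congr rfl fun i _ => by rw [Pi.add_apply, mul_add]
  smul_mem' := by
    rintro t q ⟨g, m, h1, h2, h3, h4, h5⟩
    refine ⟨t • g, t • m, h1.smul t, h2.smul t, ?_, fun i =>
      (hM k X (A i) (a i) (b i) (hA i)).2.2.2.1 g t (m i) (h4 i), ?_⟩
    · rw [dd_smul, Prod.smul_fst, ← smul_sub]
      exact h3.smul t
    · rw [Prod.smul_snd, h5, smul_eq_mul, Finset.mul_sum]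
      exact Finset.sum_congr rfl fun i _ => by rw [Pi.smul_apply, smul_eq_mul]; ring

theorem main (hM : S_MOA) : S_MOE := by
  intro k X _ _ _ K Q n A a b z hz hQK hAQ hB
  set Z : Set X := ⋃ i, A i with hZ
  have hAZ : ∀ i, A i ⊆ Z := fun i => subset_iUnion A i
  have hgr : ∀ q ∈ gr hM K Z A a b z hz.arc, q.1 = 0 → q.2 = 0 := by
    rintro q ⟨g, m, _, h2, h3, h4, h5⟩ h0
    rw [h0, zero_sub] at h3
    have h3' : Zr K (dd g) := by
      have := h3.neg
      rwa [neg_neg] at this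
    obtain ⟨e, he, _, heQ⟩ := hB g ⟨h2, Zr.empty h2, h3'⟩
    have he' : Dg X 0 e := he
    rw [he'.eq_c0] at heQ
    have h6 : ∀ i, m i = e [b i] - e [a i] := fun i =>
      (hM k X (A i) (a i) (b i) (hz.arc i)).2.1 g _ _ (h4 i)
        ⟨fun x => e [x], heQ.anti ((hAZ i).trans hAQ), rfl⟩
    rw [h5, ← hz.bd fun x => e [x]]
    exact Finset.sum_congr rfl fun i _ => by rw [h6 i]
  obtain ⟨s, hs⟩ := LinearMap.exists_extend (gr hM K Z A a b z hz.arc).toLinearPMap.toFun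
  have key : ∀ (c g : Cc k X) (m : Fin n → k), CyO 2 Zᶜ c → Dg X 1 g → Zr K (c - dd g) →
      (∀ i, Mo (A i) (a i) (b i) g (m i)) → s c = ∑ i, z i * m i := by
    intro c g m h1 h2 h3 h4
    have hmem : (c, ∑ i, z i * m i) ∈ gr hM K Z A a b z hz.arc := ⟨g, m, h1, h2, h3, h4, rfl⟩
    rw [← Submodule.toLinearPMap_graph_eq _ hgr, LinearPMap.mem_graph_iff] at hmem
    obtain ⟨y, hy1, hy2⟩ := hmem
    have h5 := LinearMap.congr_fun hs y
    simp only at hy1 hy2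
    rw [← hy2, ← hy1]
    exact h5
  refine ⟨s, ?_, key⟩
  rintro c hc ⟨e, he1, he2, he3⟩
  rw [compl_compl] at he2
  have h1 := key c e (fun _ => 0) hc he1 (he3.anti (subset_univ _)) fun i =>
    mo_zero (he2.anti (hAZ i))
  rw [h1]
  simp

end MOE

theorem t_MOE : M_MOE := fun h => MOE.main h

end BBH


end

section

/-!
# Module ARI: arcs have no interior
-/

set_option autoImplicit false

namespace BBH

open Set Topology CTO

namespace ARI

variable {X : Type} [MetricSpace X]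

/-- the images of small open intervals are open -/
theorem isOpen_image {α : ℝ → X} (hc : ContinuousOn α (Icc 0 1)) (hi : InjOn α (Icc 0 1))
    {U : Set X} (hU : IsOpen U) (hUA : U ⊆ α '' Icc 0 1) {s t : ℝ}
    (h1 : Ioo s t ⊆ Icc 0 1) (h2 : α '' Ioo s t ⊆ U) : IsOpen (α '' Ioo s t) := by
  have hK : IsCompact (α '' (Icc 0 1 \ Ioo s t)) :=
    (isCompact_Icc.diff isOpen_Ioo).image_of_continuousOn (hc.mono sdiff_subset)
  have hG : IsOpen (U ∩ (α '' (Icc 0 1 \ Ioo s t))ᶜ) := hU.inter hK.isClosed.isOpen_compl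
  have he : U ∩ (α '' (Icc 0 1 \ Ioo s t))ᶜ = α '' Ioo s t := by
    apply Subset.antisymm
    · rintro x ⟨hxU, hx⟩
      obtain ⟨r, hr, rfl⟩ := hUA hxU
      by_contra hcon
      exact hx ⟨r, ⟨hr, fun h => hcon ⟨r, h, rfl⟩⟩, rfl⟩
    · rintro x ⟨r, hr, rfl⟩
      refine ⟨h2 ⟨r, hr, rfl⟩, ?_⟩
      rintro ⟨q, ⟨hq, hq'⟩, hqr⟩
      have := hi hq (h1 hr) hqr
      rw [this] at hq'
      exact hq' hr
  rwa [he] at hG

end ARI

theorem t_ARI : S_ARI := by
  intro X _ O A U a b hO hA hU hUA hUO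
  by_contra hne
  obtain ⟨α, hc, hi, -, -, rfl⟩ := hA
  obtain ⟨x, hx⟩ := nonempty_iff_ne_empty.2 hne
  obtain ⟨t0, ht0, rfl⟩ := hUA hx
  have hn : α ⁻¹' U ∈ 𝓝[Icc 0 1] t0 := (hc t0 ht0) (hU.mem_nhds hx)
  obtain ⟨ε, hε, hball⟩ := Metric.mem_nhdsWithin_iff.1 hn
  set s : ℝ := max 0 (t0 - ε) with hs
  set t : ℝ := min 1 (t0 + ε) with ht
  have hs0 : 0 ≤ s := le_max_left _ _
  have hs1 : t0 - ε ≤ s := le_max_right _ _
  have ht1 : t ≤ 1 := min_le_left _ _
  have ht2 : t ≤ t0 + ε := min_le_right _ _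
  have hst : s < t := by
    rw [hs, ht, max_lt_iff, lt_min_iff, lt_min_iff]
    refine ⟨⟨one_pos, ?_⟩, ⟨?_, ?_⟩⟩
    · linarith [ht0.1]
    · linarith [ht0.2]
    · linarith
  have hsub : ∀ {s' t' : ℝ}, s ≤ s' → t' ≤ t → Ioo s' t' ⊆ Icc 0 1 := by
    intro s' t' h1 h2 r hr
    exact ⟨by linarith [hr.1], by linarith [hr.2]⟩
  have himg : ∀ {s' t' : ℝ}, s ≤ s' → t' ≤ t → α '' Ioo s' t' ⊆ U := by
    rintro s' t' h1 h2 _ ⟨r, hr, rfl⟩
    refine hball ⟨?_, hsub h1 h2 hr⟩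
    rw [Metric.mem_ball, Real.dist_eq, abs_lt]
    exact ⟨by linarith [hr.1], by linarith [hr.2]⟩
  have hop : ∀ {s' t' : ℝ}, s ≤ s' → t' ≤ t → IsOpen (α '' Ioo s' t') := fun h1 h2 =>
    ARI.isOpen_image hc hi hU hUA (hsub h1 h2) (himg h1 h2)
  set m : ℝ := (s + t) / 2 with hm
  have hsm : s < m := by rw [hm]; linarith
  have hmt : m < t := by rw [hm]; linarith
  have hcon : IsConnected (α '' Ioo s t) :=
    (isConnected_Ioo hst).image α (hc.mono (hsub le_rfl le_rfl))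
  have hmB : α m ∈ α '' Ioo s t := ⟨m, ⟨hsm, hmt⟩, rfl⟩
  have hkey := (hO.2.2 (α '' Ioo s t) ((himg le_rfl le_rfl).trans hUO) (hop le_rfl le_rfl)
    hcon).1 (α m) hmB
  have hmI : m ∈ Icc (0 : ℝ) 1 := hsub le_rfl le_rfl ⟨hsm, hmt⟩
  obtain ⟨z, -, ⟨r1, hr1, hz1⟩, ⟨r2, hr2, hz2⟩⟩ := hkey.isPreconnected (α '' Ioo s m)
    (α '' Ioo m t) (hop le_rfl hmt.le) (hop hsm.le le_rfl) (by
      rintro y ⟨⟨r, hr, rfl⟩, hy⟩
      rcases lt_trichotomy r m with h | h | h
      · exact Or.inl ⟨r, ⟨hr.1, h⟩, rfl⟩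
      · exact absurd (by rw [h]; rfl) hy
      · exact Or.inr ⟨r, ⟨h, hr.2⟩, rfl⟩) (by
      obtain ⟨r, hr⟩ := exists_between hsm
      refine ⟨α r, ⟨⟨r, ⟨hr.1, hr.2.trans hmt⟩, rfl⟩, ?_⟩, ⟨r, hr, rfl⟩⟩
      intro h
      have := hi (hsub le_rfl hmt.le ⟨hr.1, hr.2⟩) hmI h
      exact hr.2.ne this) (by
      obtain ⟨r, hr⟩ := exists_between hmt
      refine ⟨α r, ⟨⟨r, ⟨hsm.trans hr.1, hr.2⟩, rfl⟩, ?_⟩, ⟨r, hr, rfl⟩⟩
      intro h
      have := hi (hsub hsm.le le_rfl ⟨hr.1, hr.2⟩) hmI h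
      exact hr.1.ne this.symm)
  have h12 := hi (hsub le_rfl hmt.le hr1) (hsub hsm.le le_rfl hr2) (hz1.trans hz2.symm)
  rw [h12] at hr1
  exact absurd hr1.2 (not_lt.2 hr2.1.le)

end BBH


end

section

/-!
# Module STP: the basic neighbourhoods
-/

set_option autoImplicit false

namespace BBH

open Set Topology CTO

/-- connected open subsets inherit `GN` -/
theorem STP.gn_mono {X : Type} [MetricSpace X] {B B₁ : Set X} (h : GN B₁) (hB : B ⊆ B₁)
    (ho : IsOpen B) (hc : IsConnected B) : GN B :=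
  ⟨ho, hc, fun B' hB' => h.2.2 B' (hB'.trans hB)⟩

theorem t_STP : M_STP := by
  intro hNZB hHAR k X _ _ _ hLPC hANR hSj hGNs hNZ hLT x N hN hxN
  obtain ⟨V, -, hVo, hxV, hV⟩ := hLT x univ isOpen_univ (mem_univ x)
  obtain ⟨B₁, hB₁, hxB₁, hGN₁⟩ := hGNs x (N ∩ V) (hN.inter hVo) ⟨hxN, hxV⟩
  obtain ⟨B, hBB₁, hxB, hGB⟩ := hNZB k X hLPC hSj hNZ x B₁ hGN₁.1 hxB₁
  have hGN : GN B := STP.gn_mono hGN₁ hBB₁ hGB.1 hGB.2.1
  obtain ⟨D, hDc, hDB, hxD, hDcon, hDinj⟩ :=
    hHAR k X hANR hSj B univ x hGB hGN hxB isOpen_univ (mem_univ x)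
  obtain ⟨V₂, hV₂s, hV₂o, hxV₂, hV₂⟩ := hLT x (interior D) isOpen_interior hxD
  have hO₂o : IsOpen (connectedComponentIn V₂ x) := hV₂o.connectedComponentIn
  have hO₂c : IsConnected (connectedComponentIn V₂ x) :=
    isConnected_connectedComponentIn_iff.2 hxV₂
  have hO₂s : connectedComponentIn V₂ x ⊆ V₂ := connectedComponentIn_subset _ _
  refine ⟨B, univ, D, interior D, connectedComponentIn V₂ x,
    fun y hy => (hB₁ (hBB₁ hy)).1, hxB, ?_⟩
  exact
    { gb := hGB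
      gn := hGN
      opB' := isOpen_univ
      subB := subset_univ _
      tr := fun c hc => hV c (hc.mono fun y hy => (hB₁ (hBB₁ hy)).2)
      cD := hDc
      subD := fun y hy => (hDB hy).1
      conD := hDcon
      inj := hDinj
      op1 := isOpen_interior
      sub1 := interior_subset
      op2 := hO₂o
      con2 := hO₂c
      sub2 := hO₂s.trans hV₂s
      tr2 := fun c hc => hV₂ c (hc.mono hO₂s) }

end BBH


end

section

/-!
# BBH, module DPL: the sets `Dp`, `D₀`, `V₀`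
-/

set_option autoImplicit false

namespace BBH

open Set Topology CTO

namespace DPL

theorem gb_mono {k X : Type} [Field k] [MetricSpace X] {B O : Set X} (h : GB k B)
    (hO : IsOpen O) (hc : IsConnected O) (hs : O ⊆ B) : GB k O :=
  ⟨hO, hc, fun V hV => h.2.2 V (hV.trans hs)⟩

theorem gn_mono {X : Type} [MetricSpace X] {B O : Set X} (h : GN B)
    (hO : IsOpen O) (hc : IsConnected O) (hs : O ⊆ B) : GN O :=
  ⟨hO, hc, fun V hV => h.2.2 V (hV.trans hs)⟩

theorem ctr_mono {X : Type} [TopologicalSpace X] {K K' K'' : Set X} (h : Ctr K K')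
    (hs : K' ⊆ K'') : Ctr K K'' := by
  obtain ⟨w, F, h1, h2, h3, h4, h5⟩ := h
  exact ⟨w, F, hs h1, h2, fun z hz => hs (h3 hz), h4, h5⟩

end DPL

open DPL in
theorem t_DPL : M_DPL := by
  intro hHAR hHAS hLPX hCTR k X _ _ _ hlp hANR hSj B B' D O₁ O₂ hS
  obtain ⟨x, hx⟩ := hS.con2.nonempty
  have hOB : O₂ ⊆ B := (hS.sub2.trans hS.sub1).trans hS.subD
  have hgb : GB k O₂ := gb_mono hS.gb hS.op2 hS.con2 hOB
  have hgn : GN O₂ := gn_mono hS.gn hS.op2 hS.con2 hOB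
  obtain ⟨Dp, hDc, hDs, hxD, hcon, hinj⟩ :=
    hHAR k X hANR hSj O₂ univ x hgb hgn hx isOpen_univ (mem_univ x)
  have hDO : Dp ⊆ O₂ := fun z hz => (hDs hz).1
  have hvan : Van k 2 Dp ∅ := hHAS k X O₂ O₁ Dp hS.op2 hS.sub2 hDc hDO hinj hS.tr2
  obtain ⟨V, hVo, hxV, hVc, hctr⟩ := (hLPX X hANR).2 x (interior Dp) isOpen_interior hxD
  have hVD : closure V ⊆ Dp := hVc.trans interior_subset
  have hbd := hCTR k X (closure V) Dp isClosed_closure.isCompact hVD
    (ctr_mono hctr interior_subset) 1 le_rfl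
  have hV₀ : connectedComponentIn V x ⊆ V := connectedComponentIn_subset V x
  have hcl : closure (connectedComponentIn V x) ⊆ closure V := closure_mono hV₀
  have hV₀c : IsConnected (connectedComponentIn V x) :=
    isConnected_connectedComponentIn_iff.2 hxV
  refine ⟨Dp, closure (connectedComponentIn V x), connectedComponentIn V x, hgn, hDc, hDO,
    hcon.nonempty, hvan, isClosed_closure.isCompact, hV₀c.closure, hcl.trans hVD,
    hVo.connectedComponentIn, hV₀c, subset_closure, fun g hg => ?_⟩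
  exact (hbd g hg).mono hcl Subset.rfl

end BBH


end

section

/-!
# LEC: the choices
-/

set_option autoImplicit false

namespace BBH

open Set Topology CTO

theorem t_LEC : M_LEC := by
  intro hDPL hCFG hARC hFRH hTHK hOUT hNSB hRKA hRKB hFRS hPRG
  intro k X _ _ _ hlp hANR hHom hSj B B' D O₁ O₂ hS
  obtain ⟨Dp, D₀, V₀, hGN, hcDp, hDpO, hne, hVan, hcD₀, hconD₀, hD₀Dp, hopV₀, hconV₀, hV₀D₀, hD₀⟩ :=
    hDPL k X hlp hANR hSj B B' D O₁ O₂ hS
  obtain ⟨La, As, Ap, Ga, P, Q, x, y, hC⟩ := hCFG X hlp O₂ Dp D₀ V₀ hGN hcDp hDpO hne hcD₀ hconD₀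
    hD₀Dp hopV₀ hconV₀.nonempty hV₀D₀
  have hcLa : IsCompact La := by
    obtain ⟨α, hα, -, -, -, rfl⟩ := hC.arc
    exact isCompact_Icc.image_of_continuousOn hα
  have hcJ : IsCompact (D₀ ∪ La) := hcD₀.union hcLa
  have hcJp : IsCompact (Dp ∪ La) := hcDp.union hcLa
  have hO₂D : O₂ ⊆ D := hS.sub2.trans hS.sub1
  have hO₂B : O₂ ⊆ B := hO₂D.trans hS.subD
  have hJpne : (Dp ∪ La).Nonempty := by
    obtain ⟨v, hv⟩ := hconV₀.nonempty
    exact ⟨v, Or.inl (hD₀Dp (hV₀D₀ hv))⟩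
  have hVanJ : Van k 2 (Dp ∪ La) ∅ := hARC.2.2 k X Dp La P Q hcDp hC.arc 2 le_rfl hVan
  obtain ⟨w, hwB, hwD⟩ := hS.conD.nonempty
  have hwJ : w ∈ B \ (Dp ∪ La) := ⟨hwB, fun h => hwD (hO₂D (hC.sub h))⟩
  have hconJ : IsConnected (B \ (Dp ∪ La)) :=
    ⟨⟨w, hwJ⟩, hNSB k X hSj B (Dp ∪ La) hS.gb hcJp (hC.sub.trans hO₂B) hVanJ⟩
  -- the points
  obtain ⟨Ox, Oy, hOx, hOy, hxO, hyO, hdis⟩ := t2_separation hC.ne
  obtain ⟨Vx, hVxO, hopVx, hconVx, hxV, hrk⟩ :=
    hFRH k X hlp hANR hHom hSj V₀ hopV₀ hconV₀ x Ox hOx hxO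
  obtain ⟨Pa, Pg, hopPa, hopPg, hApPa, hGaPg, hPaO, hPgO, hint⟩ := hTHK.1 X Ap Ga O₂ Vx Oy x y hC.cAp
    hC.cGa hC.inter hS.op2 (by rw [hC.uJp]; exact hC.sub) hopVx hxV hOy hyO
  have hJpP : Dp ∪ La ⊆ Pa ∪ Pg := by
    rw [← hC.uJp]
    exact union_subset_union hApPa hGaPg
  obtain ⟨K, W, hcK, hJK, hKN, hwW, hopW, hconW, hWK, hWcl, hcBW, hBWN⟩ := hOUT X hlp B (Dp ∪ La)
    (Pa ∪ Pg) w hS.gb.1 hS.gb.2.1 hcJp hJpne (hC.sub.trans hO₂B) hconJ hwJ (hopPa.union hopPg) hJpP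
  have hKO : K ⊆ O₂ := by
    intro z hz
    rcases (hKN hz).2 with h | h
    · exact hPaO h
    · exact hPgO h
  have hout : B \ D ⊆ W := by
    refine hS.conD.isPreconnected.subset_of_closure_inter_subset hopW ⟨w, ⟨hwB, hwD⟩, hwW⟩ ?_
    rintro z ⟨hz1, hz2⟩
    exact hWcl ⟨hz1, hz2.1, fun h => hz2.2 (hO₂D (hKO h))⟩
  -- ranks
  have hJJp : D₀ ∪ La ⊆ Dp ∪ La := union_subset_union_left _ hD₀Dp
  obtain ⟨g1, hg1⟩ := hRKA k X Dp D₀ La P Q hcD₀ hD₀Dp hC.arc hC.int hD₀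
  obtain ⟨N₀, g0, hopN₀, hJN₀, hg0, hN₀⟩ := hRKB k X hANR K (D₀ ∪ La) g1 hcK hcJ (hJJp.trans hJK)
    (fun g hg => hg1 g (hg.mono (hJK.trans interior_subset) Subset.rfl))
  have hAsJ : As ⊆ D₀ ∪ La := by rw [← hC.uJ]; exact subset_union_left
  have hGaJ : Ga ⊆ D₀ ∪ La := by rw [← hC.uJ]; exact subset_union_right
  obtain ⟨Na, hNaU, hopNa, hconNa, hAsNa⟩ := hTHK.2 X hlp As (Pa ∩ N₀ ∩ interior K)
    ((hopPa.inter hopN₀).inter isOpen_interior) hC.conAs (fun z hz =>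
      ⟨⟨hApPa (hC.AsAp hz), hJN₀ (hAsJ hz)⟩, hJK (hJJp (hAsJ hz))⟩)
  obtain ⟨Ng, hNgU, hopNg, hconNg, hGaNg⟩ := hTHK.2 X hlp Ga (Pg ∩ N₀ ∩ interior K)
    ((hopPg.inter hopN₀).inter isOpen_interior) hC.conGa (fun z hz =>
      ⟨⟨hGaPg hz, hJN₀ (hGaJ hz)⟩, hJK (hJJp (hGaJ hz))⟩)
  have hNK : Na ∪ Ng ⊆ K := union_subset (fun z hz => interior_subset (hNaU hz).2)
    (fun z hz => interior_subset (hNgU hz).2)
  have hNN₀ : Na ∪ Ng ⊆ N₀ := union_subset (fun z hz => (hNaU hz).1.2) (fun z hz => (hNgU hz).1.2)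
  have hxG : x ∈ Ap ∩ Ga := by rw [hC.inter]; simp
  have hyG : y ∈ Ap ∩ Ga := by rw [hC.inter]; simp
  refine ⟨K, W, Na, Ng, Pa, Pg, Vx, Oy, g0, ?_⟩
  exact
    { ky :=
        { opB := hS.gb.1
          conB := hS.gb.2.1
          opB' := hS.opB'
          subB := hS.subB
          tr := hS.tr
          cD := hS.cD
          subD := hS.subD
          conD := hS.conD
          inj := hS.inj
          opO := hS.op1
          subO := hS.sub1
          opN := hopNa.union hopNg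
          subN := hNK
          opW := hopW
          conW := hconW
          subW := hWK
          outW := hout }
      NB := hNK.trans (hKO.trans hO₂B)
      opNa := hopNa
      conNa := hconNa
      opNg := hopNg
      conNg := hconNg
      NaPa := fun z hz => (hNaU hz).1.1
      NgPg := fun z hz => (hNgU hz).1.1
      opPa := hopPa
      opPg := hopPg
      out := hBWN
      opVx := hopVx
      conVx := hconVx
      opVy := hOy
      int := hint
      dis := (hdis.mono_left hVxO).inter_eq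
      neX := ⟨x, ⟨hAsNa hC.xAs, hGaNg hxG.2⟩, hxV⟩
      neY := ⟨y, ⟨hAsNa hC.yAs, hGaNg hyG.2⟩, hyO⟩
      rk := (hFRS k X hANR hSj Na V₀ hopNa hconNa hopV₀ hconV₀
        (hV₀D₀.trans (hC.D₀As.trans hAsNa))).trans hrk
      one := by
        intro g hg
        obtain ⟨t, ht⟩ := hN₀ g hg
        refine ⟨t, fun θ s hθ hs => ?_⟩
        exact hPRG k X B K (Na ∪ Ng) N₀ g g0 t (hNK.trans (hKO.trans hO₂B)) hNK hNN₀ hg hg0 ht θ s
          hθ hs
      bd := fun c hc => hS.tr2 c (hc.mono (hNK.trans hKO)) }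

end BBH


end

section

/-!
# BBH, module SZN: divisibility by `n` up to coboundaries, locally
-/

set_option autoImplicit false

namespace BBH

open Set Topology CTO

namespace SZN

/-- the reduction of an integral cochain -/
theorem dd_red {X : Type} (p : ℕ) (c : Cc ℤ X) (l : List X) :
    dd (fun l => ((c l : ℤ) : ZMod p)) l = ((dd c l : ℤ) : ZMod p) :=
  dd_map (Int.castAddHom (ZMod p)) c l

/-- the reduction of an integral cocycle -/
theorem cyO_red {X : Type} [MetricSpace X] (p : ℕ) {q : ℤ} {V : Set X} {c : Cc ℤ X}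
    (hc : CyO q V c) : CyO q V (fun l => ((c l : ℤ) : ZMod p)) := by
  refine ⟨?_, ?_, ?_⟩
  · intro l hl
    refine hc.deg l fun h => hl ?_
    change ((c l : ℤ) : ZMod p) = 0
    rw [h, Int.cast_zero]
  · obtain ⟨ε, hε, h⟩ := hc.rel
    refine ⟨ε, hε, fun l hl => ?_⟩
    change ((c l : ℤ) : ZMod p) = 0
    rw [h l hl, Int.cast_zero]
  · obtain ⟨ε, hε, h⟩ := hc.cyc
    refine ⟨ε, hε, fun l hl => ?_⟩
    rw [dd_red, h l hl, Int.cast_zero]

end SZN

open SZN in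
theorem t_SZN : M_SZN := by
  intro hDVU X _ q hLT n
  refine Nat.recOnMul (motive := fun n => 0 < n → ∀ (x : X) (U : Set X),
    IsOpen U → x ∈ U → ∃ V ⊆ U, IsOpen V ∧ x ∈ V ∧ ∀ c : Cc ℤ X, CyO q V c →
      ∃ c' : Cc ℤ X, CyO q U c' ∧ BdO q U (c - (n : ℤ) • c')) ?_ ?_ ?_ ?_ n
  · intro h
    exact absurd h (lt_irrefl 0)
  · intro _ x U hU hx
    refine ⟨U, Subset.rfl, hU, hx, fun c hc => ⟨c, hc, ?_⟩⟩
    rw [Nat.cast_one, one_smul, sub_self]
    exact Bd.zero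
  · intro p hp hp0 x U hU hx
    obtain ⟨V, hVU, hV, hxV, h⟩ := hLT p hp x U hU hx
    refine ⟨V, hVU, hV, hxV, fun c hc => ?_⟩
    exact hDVU X p q U hp0 c (hc.mono hVU) (h _ (cyO_red p hc))
  · intro a b iha ihb hab x U hU hx
    have ha : 0 < a := Nat.pos_of_ne_zero fun h => by simp [h] at hab
    have hb : 0 < b := Nat.pos_of_ne_zero fun h => by simp [h] at hab
    obtain ⟨V₁, hV₁U, hV₁, hxV₁, h₁⟩ := iha ha x U hU hx
    obtain ⟨V, hVV₁, hV, hxV, h⟩ := ihb hb x V₁ hV₁ hxV₁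
    refine ⟨V, hVV₁.trans hV₁U, hV, hxV, fun c hc => ?_⟩
    obtain ⟨c', hc', hb'⟩ := h c hc
    obtain ⟨c'', hc'', hb''⟩ := h₁ c' hc'
    refine ⟨c'', hc'', ?_⟩
    have h3 : c - ((a * b : ℕ) : ℤ) • c'' = (c - (b : ℤ) • c') + (b : ℤ) • (c' - (a : ℤ) • c'') := by
      rw [smul_sub, smul_smul, Nat.cast_mul, mul_comm (b : ℤ) (a : ℤ)]
      abel
    rw [h3]
    exact Bd.add (hb'.mono hV₁U) (Bd.smul (b : ℤ) hb'')

end BBH


end

section

/-!
# SJZ: surjectivity in degree three for integral coefficients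
-/

set_option autoImplicit false

namespace BBH

open Set Topology CTO

namespace SJZ

/-- the reduction of an integral cochain -/
theorem dd_red {X : Type} (p : ℕ) (c : Cc ℤ X) (l : List X) :
    dd (fun l => ((c l : ℤ) : ZMod p)) l = ((dd c l : ℤ) : ZMod p) :=
  dd_map (Int.castAddHom (ZMod p)) c l

/-- the reduction of an integral cocycle is a cocycle -/
theorem red_CyO {X : Type} [MetricSpace X] (p : ℕ) {q : ℤ} {V : Set X} {c : Cc ℤ X}
    (hc : CyO q V c) : CyO q V (fun l => ((c l : ℤ) : ZMod p)) := by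
  refine ⟨?_, ?_, ?_⟩
  · intro l hl
    refine hc.deg l fun h => hl ?_
    change ((c l : ℤ) : ZMod p) = 0
    rw [h, Int.cast_zero]
  · obtain ⟨ε, hε, h⟩ := hc.rel
    refine ⟨ε, hε, fun l hl => ?_⟩
    change ((c l : ℤ) : ZMod p) = 0
    rw [h l hl, Int.cast_zero]
  · obtain ⟨ε, hε, h⟩ := hc.cyc
    refine ⟨ε, hε, fun l hl => ?_⟩
    rw [dd_red, h l hl, Int.cast_zero]

/-- finitely generated subgroups that are divisible by all primes vanish -/
theorem sub_zero_of (hFGD : S_FGD) {A : Type} [AddCommGroup A] [Module ℤ A]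
    (I : Submodule ℤ A) (hfg : I.FG)
    (hdiv : ∀ p : ℕ, p.Prime → ∀ a ∈ I, ∃ b ∈ I, a = (p : ℤ) • b) : ∀ a ∈ I, a = 0 := by
  have hfin : @Module.Finite ℤ I _ _ I.module := Module.Finite.iff_fg.2 hfg
  have e : (I.module : Module ℤ I) = AddCommGroup.toIntModule I := Subsingleton.elim _ _
  have hfin2 : @Module.Finite ℤ I _ _ (AddCommGroup.toIntModule I) := e ▸ hfin
  intro a ha
  have h := @hFGD I _ hfin2 (by
    intro p hp b
    obtain ⟨d, hd, hbd⟩ := hdiv p hp b.1 b.2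
    refine ⟨⟨d, hd⟩, Subtype.ext ?_⟩
    rw [hbd]
    have h1 : ∀ n : ℤ, ∀ x : I, ((n • x : I) : A) = n • (x : A) := fun n x => by
      exact map_zsmul I.subtype.toAddMonoidHom n x
    exact (h1 p ⟨d, hd⟩).symm) ⟨a, ha⟩
  exact congrArg Subtype.val h

end SJZ

theorem t_SJZ : M_SJZ := by
  intro hGEN hTHK hFIO hLFT hDVU hFGD X _ _ hLP hX hS hSj V W hV hVc hW hWV hWne c hc
  refine hGEN ℤ X 3 hS V (fun c => ∃ c' : Cc ℤ X, CyO 3 W c' ∧ BdO 3 V (c - c')) hV
    ?_ ?_ ?_ c hc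
  · rintro a b ⟨a', ha, ha'⟩ ⟨b', hb, hb'⟩
    refine ⟨a' + b', Cyc.add ha hb, ?_⟩
    have h1 : BdO 3 V ((a - a') + (b - b')) := Bd.add ha' hb'
    have h2 : a + b - (a' + b') = (a - a') + (b - b') := by abel
    show BdO 3 V (a + b - (a' + b'))
    rw [h2]
    exact h1
  · intro a _ hb
    refine ⟨0, Cyc.zero, ?_⟩
    show BdO 3 V (a - 0)
    rw [sub_zero]
    exact hb
  · intro y hy
    obtain ⟨w, hw⟩ := hWne
    have hPC : IsPathConnected V := hV.isConnected_iff_isPathConnected.1 hVc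
    have hj : JoinedIn V y w := hPC.joinedIn y hy w (hWV hw)
    obtain ⟨γ, hγ⟩ := hj
    have hCcp : IsCompact (range γ) := isCompact_range γ.continuous
    have hCcn : IsConnected (range γ) := isConnected_range γ.continuous
    have hCV : range γ ⊆ V := by
      rintro _ ⟨t, rfl⟩
      exact hγ t
    have hyC : y ∈ range γ := ⟨0, γ.source⟩
    have hwC : w ∈ range γ := ⟨1, γ.target⟩
    obtain ⟨U₁, hU₁, hCU₁, hU₁V⟩ := normal_exists_closure_subset hCcp.isClosed hV hCV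
    obtain ⟨V', hV'U, hV'o, hV'c, hCV'⟩ := hTHK.2 X hLP (range γ) U₁ hU₁ hCcn hCU₁
    have hcl : closure V' ⊆ V := (closure_mono hV'U).trans hU₁V
    have hV'V : V' ⊆ V := subset_closure.trans hcl
    refine ⟨V', hV'V, hV'o, hCV' hyC, ?_⟩
    have hfg := hFIO.1 ℤ ℤ X hX 3 V' V hV'o hV hcl hV'V
    have hI := hfg.map (LinearMap.range (ext ℤ ℤ (p := 3) hWV)).mkQ
    have hz := SJZ.sub_zero_of hFGD _ hI (by
      rintro p hp _ ⟨_, ⟨u, rfl⟩, rfl⟩
      obtain ⟨c, hc, rfl⟩ := cls_surj u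
      have : Fact p.Prime := ⟨hp⟩
      obtain ⟨c', hc', hb'⟩ := hSj p V' (V' ∩ W) hV'o hV'c (hV'o.inter hW) inter_subset_left
        ⟨w, hCV' hwC, hw⟩ _ (SJZ.red_CyO p hc)
      obtain ⟨c₁, hc₁, hc₁'⟩ := hLFT X hS p (V' ∩ W) hp.pos (hV'o.inter hW) c' hc'
      have hd : CyO 3 V' (c - c₁) := Cyc.sub hc (CyO.mono hc₁ inter_subset_left)
      have hbd : BdO 3 V' (fun l => (((c - c₁) l : ℤ) : ZMod p)) := by
        have h1 : (fun l => (((c - c₁) l : ℤ) : ZMod p)) =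
            (fun l => ((c l : ℤ) : ZMod p)) - c' := by
          rw [← hc₁']
          funext l
          show ((c l - c₁ l : ℤ) : ZMod p) = _
          rw [Int.cast_sub]
          rfl
        rw [h1]
        exact hb'
      obtain ⟨c₂, hc₂, hb₂⟩ := hDVU X p 3 V' hp.pos (c - c₁) hd hbd
      refine ⟨_, ⟨_, ⟨cls ℤ c₂ hc₂, rfl⟩, rfl⟩, ?_⟩
      have h2 : BdO 3 V (c - c₁ - (p : ℤ) • c₂) := BdO.mono hb₂ hV'V
      have h3 : cls ℤ (c - c₁) (CyO.mono hd hV'V) =
          cls ℤ ((p : ℤ) • c₂) (Cyc.smul (p : ℤ) (CyO.mono hc₂ hV'V)) :=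
        (cls_eq (R := ℤ) _ _).2 h2
      have h4 : ext ℤ ℤ (p := 3) hV'V (cls ℤ c hc) -
          ext ℤ ℤ (p := 3) hWV (cls ℤ c₁ (CyO.mono hc₁ inter_subset_right)) =
          (p : ℤ) • ext ℤ ℤ (p := 3) hV'V (cls ℤ c₂ hc₂) := h3
      have h5 := congrArg (LinearMap.range (ext ℤ ℤ (p := 3) hWV)).mkQ h4
      rw [map_sub, map_smul] at h5
      have h6 : (LinearMap.range (ext ℤ ℤ (p := 3) hWV)).mkQ
          (ext ℤ ℤ (p := 3) hWV (cls ℤ c₁ (CyO.mono hc₁ inter_subset_right))) = 0 := by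
        rw [Submodule.mkQ_apply, Submodule.Quotient.mk_eq_zero]
        exact ⟨_, rfl⟩
      rw [h6, sub_zero] at h5
      exact h5)
    intro c hc
    have h1 := hz _ ⟨_, ⟨cls ℤ c hc, rfl⟩, rfl⟩
    rw [Submodule.mkQ_apply, Submodule.Quotient.mk_eq_zero] at h1
    obtain ⟨u, hu⟩ := h1
    obtain ⟨c', hc', rfl⟩ := cls_surj u
    refine ⟨c', hc', ?_⟩
    have h2 : cls ℤ c (CyO.mono hc hV'V) = cls ℤ c' (CyO.mono hc' hWV) := hu.symm
    exact (cls_eq (R := ℤ) _ _).1 h2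

end BBH


end
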