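import Mathlib
import Pool.Agent.BBM.C16

/-! Parts: BBH.B_CUT, BBH.B_FIO, BBH.C_NZA, BBH.C_NZB, BBH.C_HAR, BBH.D_SLL, BBH.F_KH -/

section

/-!
# BBH, CUT: cutting off
-/

set_option autoImplicit false

namespace BBH

open Set Topology CTO

namespace CUT

variable {M X : Type} [AddCommGroup M] [MetricSpace X]

/-- the lists of points near `D` -/
def KD (D : Set X) (δ : ℝ) : Set (List X) := {l | ∀ x ∈ l, x ∈ Metric.thickening δ D}

theorem far {D B : Set X} {δ : ℝ} (h : Metric.thickening (2 * δ) D ⊆ B) {x : X}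
    (h1 : x ∈ Metric.thickening δ D) (h2 : x ∈ Metric.thickening δ Bᶜ) : False := by
  rw [Metric.mem_thickening_iff] at h1 h2
  obtain ⟨d, hd, hxd⟩ := h1
  obtain ⟨z, hz, hxz⟩ := h2
  refine hz (h ?_)
  rw [Metric.mem_thickening_iff]
  refine ⟨d, hd, ?_⟩
  have h3 := dist_triangle z x d
  rw [dist_comm z x] at h3
  linarith

end CUT

theorem t_CUT : S_CUT := by
  intro M X _ _ _ p c D B hD hB hDB hc
  obtain ⟨δ', hδ', hsub⟩ := hD.isCompact.exists_thickening_subset_open hB hDB
  have h2 : Metric.thickening (2 * (δ' / 2)) D ⊆ B := by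
    have h3 : 2 * (δ' / 2) = δ' := by ring
    rw [h3]
    exact hsub
  have hδ : 0 < δ' / 2 := by positivity
  refine ⟨ind (CUT.KD D (δ' / 2)) c, hc.ind, ⟨δ' / 2, hδ, fun l hl => ?_⟩,
    ⟨δ' / 2, hδ, fun l hl => ?_⟩, fun A hA => hA.ind⟩
  · rcases l with _ | ⟨x, l⟩
    · exact ind_van hc.nil
    · refine ind_of_notMem fun h => ?_
      exact CUT.far h2 (h x (by simp)) (hl.1 x (by simp))
  · rw [Pi.sub_apply, ind_of_mem (show l ∈ CUT.KD D (δ' / 2) from hl.1), sub_self]

end BBH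


end

section

/-!
# BBH FIO: extensions by zero have finitely generated range
-/

set_option autoImplicit false
set_option linter.unusedSectionVars false
set_option linter.unusedSimpArgs false

namespace BBH

open Set Topology CTO

namespace FIO

/-- a decreasing sequence of submodules, the first of them finite dimensional, is stationary -/
theorem stat {k E : Type} [Field k] [AddCommGroup E] [Module k E] (D : ℕ → Submodule k E)
    (hD : Antitone D) (h0 : (D 0).FG) : ∃ n, ∀ m, n ≤ m → D n = D m := by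
  have : Module.Finite k (D 0) := Module.Finite.iff_fg.2 h0
  have hanti : Antitone fun n => (D n).comap (D 0).subtype := fun a b hab =>
    Submodule.comap_mono (hD hab)
  obtain ⟨n, hn⟩ := IsArtinian.monotone_stabilizes (R := k) (M := D 0)
    ⟨fun n => OrderDual.toDual ((D n).comap (D 0).subtype), fun a b hab => hanti hab⟩
  refine ⟨n, fun m hm => ?_⟩
  have h1 : (D n).comap (D 0).subtype = (D m).comap (D 0).subtype := hn m hm
  refine le_antisymm (fun x hx => ?_) (hD hm)
  have hx0 : x ∈ D 0 := hD (Nat.zero_le n) hx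
  have h2 : (⟨x, hx0⟩ : D 0) ∈ (D n).comap (D 0).subtype := hx
  rw [h1] at h2
  exact h2

theorem part1 (hF : S_FIN) (R M X : Type) [CommRing R] [IsNoetherianRing R] [AddCommGroup M]
    [Module R M] [Module.Finite R M] [MetricSpace X] [CompactSpace X] (hX : IsANR X)
    (p : ℤ) (W V : Set X) (hV : IsOpen V) (hc : closure W ⊆ V) (h : W ⊆ V) :
    (LinearMap.range (ext R M (p := p) h)).FG := by
  refine hF R M X hX p univ univ Vᶜ Wᶜ isClosed_univ hV.isClosed_compl ?_ ?_
    (subset_univ _) (subset_univ _) Subset.rfl (compl_subset_compl.2 h)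
  · rw [interior_univ]
  · rw [interior_compl]
    exact compl_subset_compl.2 hc

theorem part2 (hF : S_FIN) (k X : Type) [Field k] [MetricSpace X] [CompactSpace X]
    (hX : IsANR X) (p : ℤ) (V : Set X) (x₀ : X) (hV : IsOpen V) (hx : x₀ ∈ V) :
    ∃ W ⊆ V, IsOpen W ∧ x₀ ∈ W ∧ ∀ W' ⊆ W, IsOpen W' → x₀ ∈ W' → ∀ c : Cc k X, CyO p W c →
    ∃ c', CyO p W' c' ∧ BdO p V (c - c') := by
  obtain ⟨ε, hε, hb⟩ := Metric.isOpen_iff.1 hV x₀ hx
  set U : ℕ → Set X := fun n => Metric.ball x₀ ((ε / 2) / ((n : ℝ) + 1)) with hU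
  have hpos : ∀ n : ℕ, 0 < (ε / 2) / ((n : ℝ) + 1) := fun n => by positivity
  have hUanti : Antitone U := fun a b hab => by
    refine Metric.ball_subset_ball ?_
    have h1 : (a : ℝ) + 1 ≤ (b : ℝ) + 1 := by
      have : (a : ℝ) ≤ (b : ℝ) := Nat.cast_le.2 hab
      linarith
    have h2 : (0 : ℝ) < (a : ℝ) + 1 := by positivity
    exact div_le_div_of_nonneg_left (by positivity) h2 h1
  have hUc : closure (U 0) ⊆ V := by
    refine Subset.trans (Metric.closure_ball_subset_closedBall) (Subset.trans ?_ hb)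
    refine Metric.closedBall_subset_ball ?_
    have : (ε / 2) / (((0 : ℕ) : ℝ) + 1) = ε / 2 := by simp
    rw [this]
    linarith
  have hUV : ∀ n, U n ⊆ V := fun n =>
    (hUanti (Nat.zero_le n)).trans (subset_closure.trans hUc)
  let D : ℕ → Submodule k (HO k k p V) := fun n => LinearMap.range (ext k k (p := p) (hUV n))
  have hD : Antitone D := by
    rintro a b hab _ ⟨y, rfl⟩
    exact ⟨ext k k (hUanti hab) y, ext_ext _ _ _⟩
  obtain ⟨n, hn⟩ := stat D hD (part1 hF k k X hX p (U 0) V hV hUc (hUV 0))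
  refine ⟨U n, hUV n, Metric.isOpen_ball, Metric.mem_ball_self (hpos n),
    fun W' hW' hWo hxW' c hc => ?_⟩
  obtain ⟨δ, hδ, hbδ⟩ := Metric.isOpen_iff.1 hWo x₀ hxW'
  obtain ⟨m, hm⟩ := exists_nat_gt ((ε / 2) / δ)
  have hUm : U (max n m) ⊆ W' := by
    refine Subset.trans (Metric.ball_subset_ball ?_) hbδ
    rw [div_le_iff₀ (by positivity)]
    rw [div_lt_iff₀ hδ] at hm
    have h1 : (m : ℝ) ≤ ((max n m : ℕ) : ℝ) := Nat.cast_le.2 (le_max_right _ _)
    nlinarith
  have h3 : ext k k (hUV n) (cls k c hc) ∈ D (max n m) := by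
    rw [← hn _ (le_max_left n m)]
    exact ⟨_, rfl⟩
  obtain ⟨y, hy⟩ := h3
  obtain ⟨c', hc', rfl⟩ := cls_surj y
  refine ⟨c', CyO.mono hc' hUm, ?_⟩
  have hy2 : cls k c (CyO.mono hc (hUV n)) = cls (R := k) (p := p) (A := univ) (B := Vᶜ) c'
      (CyO.mono hc' (hUV _)) := hy.symm
  exact (cls_eq _ _).1 hy2

end FIO

theorem t_FIO : M_FIO := fun hF =>
  ⟨fun R M X _ _ _ _ _ _ _ hX p W V _ hV hc h => FIO.part1 hF R M X hX p W V hV hc h,
    fun k X _ _ _ hX p V x₀ hV hx => FIO.part2 hF k X hX p V x₀ hV hx⟩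

end BBH


end

section

/-!
# Module NZA: nonvanishing local groups
-/

set_option autoImplicit false

namespace BBH

open Set Topology CTO

theorem t_NZA : M_NZA := by
  intro hGEN hTRP k X _ _ _ hhom hshr hV
  obtain ⟨V, hVo, hVn⟩ := hV
  have h1 : ∃ y ∈ V, NZat k y := by
    by_contra hcon
    push Not at hcon
    apply hVn
    have h2 : ∀ y ∈ V, ∃ W ⊆ V, IsOpen W ∧ y ∈ W ∧ ∀ c : Cc k X, CyO ((3 : ℕ) : ℤ) W c →
        BdO (3 : ℤ) V c := by
      intro y hy
      have h3 := hcon y hy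
      unfold NZat at h3
      push Not at h3
      obtain ⟨W, hWV, hWo, hyW, hW⟩ := h3 V hVo hy
      exact ⟨W, hWV, hWo, hyW, fun c hc => (hW c hc).mono hWV⟩
    have h4 := hGEN k X 3 hshr V (fun c => BdO (3 : ℤ) V c) hVo (fun a b ha hb => Bd.add ha hb)
      (fun c _ hb => hb) h2
    exact fun c hc => h4 c hc
  obtain ⟨y, hyV, U, hUo, hyU, hU⟩ := h1
  intro x
  obtain ⟨h, hh⟩ := hhom x y
  refine ⟨h ⁻¹' U, hUo.preimage h.continuous, ?_, ?_⟩
  · change h x ∈ U
    rw [hh]
    exact hyU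
  · intro V' hV'U hV'o hxV' hvan
    have hpre : h ⁻¹' (h.symm ⁻¹' V') = V' := by
      ext z
      simp
    apply hU (h.symm ⁻¹' V') ?_ (hV'o.preimage h.symm.continuous) ?_
    · intro c hc
      have h5 := hTRP k X h 3 (h.symm ⁻¹' V') c
      rw [hpre] at h5
      exact h5.2.2 (hvan _ (h5.1.1 hc))
    · intro z hz
      have h6 : h (h.symm z) ∈ U := hV'U hz
      rwa [h.apply_symm_apply] at h6
    · change h.symm y ∈ V'
      rw [← hh, h.symm_apply_apply]
      exact hxV'

end BBH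


end

section

/-!
# Module NZB: good sets exist
-/

set_option autoImplicit false

namespace BBH

open Set Topology CTO

theorem t_NZB : S_NZB := by
  intro k X _ _ _ hLPC hSj hNZ x N hN hxN
  obtain ⟨U, hUo, hxU, hU⟩ := hNZ x
  have hUN : IsOpen (U ∩ N) := hUo.inter hN
  have hxUN : x ∈ U ∩ N := ⟨hxU, hxN⟩
  have hBo : IsOpen (connectedComponentIn (U ∩ N) x) := hUN.connectedComponentIn
  have hxB : x ∈ connectedComponentIn (U ∩ N) x := mem_connectedComponentIn hxUN
  have hBs : connectedComponentIn (U ∩ N) x ⊆ U ∩ N := connectedComponentIn_subset _ _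
  have hBc : IsConnected (connectedComponentIn (U ∩ N) x) :=
    isConnected_connectedComponentIn_iff.2 hxUN
  refine ⟨connectedComponentIn (U ∩ N) x, fun y hy => (hBs hy).2, hxB, hBo, hBc, ?_⟩
  intro V hVB hVo hVn hvan
  refine hU _ (fun y hy => (hBs hy).1) hBo hxB ?_
  intro c hc
  obtain ⟨c', hc', hcc⟩ := hSj _ V hBo hBc hVo hVB hVn c hc
  have h1 : BdO 3 (connectedComponentIn (U ∩ N) x) c' := (hvan c' hc').mono hVB
  have h2 := hcc.add h1
  rwa [sub_add_cancel] at h2

end BBH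


end

section

/-!
# BBH, HAR: Hartogs
-/

set_option autoImplicit false

namespace BBH

open Set Topology CTO

namespace HAR

/-- an antitone sequence of natural numbers attains its minimum -/
theorem exists_min (f : ℕ → ℕ) : ∃ i, ∀ j, f i ≤ f j := by
  obtain ⟨i, hi⟩ := WellFounded.has_min (measure f).wf (univ : Set ℕ) ⟨0, mem_univ 0⟩
  exact ⟨i, fun j => not_lt.1 (hi.2 j (mem_univ j))⟩

theorem ext_surj {k X : Type} [Field k] [MetricSpace X] (hS : Sj k X) {V W : Set X}
    (hV : IsOpen V) (hVc : IsConnected V) (hW : IsOpen W) (hWn : W.Nonempty) (h : W ⊆ V) :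
    Function.Surjective (ext k k (p := 3) h) := by
  intro a
  obtain ⟨c, hc, rfl⟩ := cls_surj a
  obtain ⟨c', hc', hb⟩ := hS V W hV hVc hW h hWn c hc
  refine ⟨cls k c' hc', ?_⟩
  rw [ext_cls]
  have h1 : CyO 3 V c' := hc'.mono h
  exact (cls_eq (R := k) h1 hc).2 (Bd.symm hb)

end HAR

theorem t_HAR : M_HAR := by
  intro hF hO hL hE hN hP k X _ _ _ hX hS B N x hG hGN hxB hNo hxN
  have hBo : IsOpen B := hG.1
  have hBc : IsConnected B := hG.2.1
  have hBx : IsConnected (B \ {x}) := (hGN.2.2 B Subset.rfl hBo hBc).1 x hxB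
  obtain ⟨W, hWm, hWo, hWc, hWU, hWK, hWN, hWi⟩ :=
    hO X (hL X hX).1 B N x hBo hBc hxB hBx hNo hxN
  have hfin : ∀ i, Module.Finite k (HO k k 3 (W i)) := fun i => hF k X hX hS (W i) (hWo i) (hWc i)
  have hsurj : ∀ i j (hij : i ≤ j), Function.Surjective (ext k k (p := 3) (hWm hij)) :=
    fun i j hij => HAR.ext_surj hS (hWo j) (hWc j) (hWo i) (hWc i).nonempty (hWm hij)
  obtain ⟨i₀, hi₀⟩ := HAR.exists_min (fun i => Module.finrank k (HO k k 3 (W i)))
  have hinj : ∀ j (hij : i₀ ≤ j), Function.Injective (ext k k (p := 3) (hWm hij)) := by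
    intro j hij
    have h1 := hfin i₀
    have h2 := hfin j
    have h3 : Module.finrank k (HO k k 3 (W j)) ≤ Module.finrank k (HO k k 3 (W i₀)) :=
      LinearMap.finrank_le_finrank_of_surjective (hsurj i₀ j hij)
    have h4 : Module.finrank k (HO k k 3 (W i₀)) = Module.finrank k (HO k k 3 (W j)) :=
      le_antisymm (hi₀ j) h3
    exact (LinearMap.injective_iff_surjective_of_finrank_eq_finrank h4).2 (hsurj i₀ j hij)
  have hWB : ∀ i, W i ⊆ B \ {x} := by
    intro i
    rw [← hWU]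
    exact subset_iUnion W i
  have hD : B \ (B \ W i₀) = W i₀ := by
    rw [sdiff_sdiff_cancel_left]
    exact (hWB i₀).trans sdiff_subset
  refine ⟨B \ W i₀, hWK i₀, subset_inter sdiff_subset (hWN i₀), hWi i₀, ?_, ?_⟩
  · rw [hD]
    exact hWc i₀
  · intro c hc hb
    rw [hD] at hc ⊢
    have h23 : (2 : ℤ) + 1 = 3 := by norm_num
    have hcx : CyO (2 + 1) (B \ {x}) c := by
      rw [h23]
      exact hc.mono (hWB i₀)
    have hbx : BdO (2 + 1) (B \ {x}) c := by
      refine (hE k X 2 B {x} hBo isCompact_singleton (singleton_subset_iff.2 hxB)).1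
        ((hP k X x).1 2 (by norm_num)) c hcx ?_
      rw [h23]
      exact hb
    rw [h23] at hbx
    obtain ⟨b, hb1, hb2, hb3⟩ := hbx
    rw [← hWU] at hb2
    obtain ⟨i, hi⟩ := (hN k X b).2.1 W hWm hWo hb2
    have hle : i₀ ≤ max i i₀ := le_max_right _ _
    have hbj : BdO 3 (W (max i i₀)) c :=
      ⟨b, hb1, hi.anti (compl_subset_compl.2 (hWm (le_max_left i i₀))), hb3⟩
    have h5 : ext k k (p := 3) (hWm hle) (cls k c hc) = 0 := by
      rw [ext_cls]
      have h6 : CyO 3 (W (max i i₀)) c := hc.mono (hWm hle)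
      exact (cls_eq_zero (R := k) h6).2 hbj
    have h7 : cls k c hc = 0 := by
      apply hinj _ hle
      rw [h5, map_zero]
    exact (cls_eq_zero (R := k) hc).1 h7

end BBH


end

section

/-!
# BBH, module SLL: the sections over `L`
-/

set_option autoImplicit false

namespace BBH

open Set Topology CTO

namespace SLL

/-- the point of the unit circle with the argument `r` in full turns -/
noncomputable def ex (r : ℝ) : ℂ := Complex.exp (2 * Real.pi * r * Complex.I)

theorem ex_add (a b : ℝ) : ex (a + b) = ex a * ex b := by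
  unfold ex
  rw [← Complex.exp_add]
  congr 1
  push_cast
  ring

theorem ex_int (n : ℤ) : ex n = 1 := by
  unfold ex
  rw [← Complex.exp_int_mul_two_pi_mul_I n]
  congr 1
  push_cast
  ring

theorem ex_eq (r : ℝ) : ex r = Complex.exp (((2 * Real.pi * r : ℝ) : ℂ) * Complex.I) := by
  unfold ex
  congr 1
  push_cast
  ring

theorem norm_ex (r : ℝ) : ‖ex r‖ = 1 := by
  rw [ex_eq, Complex.norm_exp_ofReal_mul_I]

theorem ex_cont : Continuous ex := by
  unfold ex
  fun_prop

theorem conj_ex (r : ℝ) : (starRingEnd ℂ) (ex r) = ex (-r) := by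
  rw [ex_eq, ex_eq, ← Complex.exp_conj, map_mul, Complex.conj_ofReal, Complex.conj_I]
  congr 1
  push_cast
  ring

theorem arg_ex {a r : ℝ} (ha : 0 < a) (hr : |r| ≤ 1 / 16) :
    Complex.arg ((a : ℂ) * ex r) = 2 * Real.pi * r := by
  have hpi := Real.pi_pos
  obtain ⟨h1, h2⟩ := abs_le.1 hr
  rw [Complex.arg_real_mul _ ha, ex_eq, Complex.exp_mul_I]
  apply Complex.arg_cos_add_sin_mul_I
  constructor
  · nlinarith
  · nlinarith

theorem slit_ex {a r : ℝ} (ha : 0 < a) (hr : |r| ≤ 1 / 16) :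
    (a : ℂ) * ex r ∈ Complex.slitPlane := by
  rw [Complex.mem_slitPlane_iff_arg, arg_ex ha hr]
  have hpi := Real.pi_pos
  obtain ⟨h1, h2⟩ := abs_le.1 hr
  refine ⟨?_, mul_ne_zero (by exact_mod_cast ha.ne') ?_⟩
  · nlinarith
  · intro h
    have := norm_ex r
    rw [h, norm_zero] at this
    norm_num at this

theorem ip_conj (v w : ℂ × ℂ) : ip w v = (starRingEnd ℂ) (ip v w) := by
  unfold ip
  rw [map_add, map_mul, map_mul, Complex.conj_conj, Complex.conj_conj]
  ring

theorem ip_smul (v w : ℂ × ℂ) (z : ℂ) : ip v (z • w) = z * ip v w := by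
  unfold ip
  rw [Prod.smul_fst, Prod.smul_snd, smul_eq_mul, smul_eq_mul]
  ring

theorem ip_cont (v : ℂ × ℂ) : Continuous (ip v) := by
  unfold ip
  fun_prop

/-- smallness of lists of a point of `L` and nearby points -/
theorem small {X : Type} [MetricSpace X] {L : Set X} {ε : ℝ} (hε : 0 < ε) {x : X} (hx : x ∈ L)
    {l : List X} (h : ∀ y ∈ l, dist x y < ε / 4) : x :: l ∈ Small L ε := by
  have key : ∀ y ∈ x :: l, dist x y < ε / 4 := by
    intro y hy
    rcases List.mem_cons.1 hy with rfl | hy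
    · rw [dist_self]
      positivity
    · exact h y hy
  refine ⟨fun y hy => ?_, fun y hy z hz => ?_⟩
  · refine Metric.mem_thickening_iff.2 ⟨x, hx, ?_⟩
    rw [dist_comm]
    have := key y hy
    linarith
  · have h2 := key y hy
    have h3 := key z hz
    have h4 := dist_triangle_left y z x
    linarith

theorem small_tail {X : Type} [MetricSpace X] {L : Set X} {ε : ℝ} {x : X} {l : List X}
    (h : x :: l ∈ Small L ε) : l ∈ Small L ε :=
  Small.cl L ε _ h _ (fun _ hy => List.mem_cons_of_mem _ hy)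

/-- the defect -/
def sg {X : Type} (t : X → X → ℝ) (c : X → X → X → ℤ) (x y z : X) : ℝ :=
  t y z - t x z + t x y - c x y z

/-- the sections -/
noncomputable def F {X : Type} {n : ℕ} (v : X → ℂ × ℂ) (t : X → X → ℝ) (c : X → X → X → ℤ)
    (κ : X → X → ℤ) (φ : Fin n → X → ℝ) (q : Fin n → X) (j : Fin n) (x : X) : ℂ × ℂ :=
  ex (∑ m, φ m x * (t x (q m) + c x (q j) (q m) - κ (q j) (q m))) • v x

/-- the second formula -/
noncomputable def G {X : Type} {n : ℕ} (Q : R3 × (ℂ × ℂ) → ℂ × ℂ) (v : X → ℂ × ℂ)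
    (t : X → X → ℝ) (c : X → X → X → ℤ)
    (κ : X → X → ℤ) (φ : Fin n → X → ℝ) (q : Fin n → X) (j : Fin n) (x : X) : ℂ × ℂ :=
  ex (∑ m, (φ m x * (t (q j) (q m) - κ (q j) (q m)) - φ m x * sg t c x (q j) (q m))) •
    (((1 / Real.sqrt (‖(Q (hp (v x), v (q j))).1‖ ^ 2 + ‖(Q (hp (v x), v (q j))).2‖ ^ 2) : ℝ) : ℂ) •
      Q (hp (v x), v (q j)))

variable {X : Type} [MetricSpace X] {n : ℕ} {L : Set X} {v : X → ℂ × ℂ}
  {t : X → X → ℝ} {c : X → X → X → ℤ} {κ : X → X → ℤ} {ε : ℝ} {φ : Fin n → X → ℝ} {q : Fin n → X}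
  {Q : R3 × (ℂ × ℂ) → ℂ × ℂ}

theorem F_eq_G (hQ : ∀ v u : ℂ × ℂ, ‖v.1‖ ^ 2 + ‖v.2‖ ^ 2 = 1 → Q (hp v, u) = ip v u • v)
    (hL : Lin L v t c ε) (hs : ∀ x, ∑ j, φ j x = 1) (j : Fin n) (x : X)
    (hne : ip (v x) (v (q j)) ≠ 0) : F v t c κ φ q j x = G Q v t c κ φ q j x := by
  unfold G
  rw [hQ _ _ (hL.unit x)]
  set a : ℂ := ip (v x) (v (q j)) with ha
  have hρ : 0 < ‖a‖ := norm_pos_iff.2 hne
  have h1 : ‖(a • v x).1‖ ^ 2 + ‖(a • v x).2‖ ^ 2 = ‖a‖ ^ 2 := by
    rw [Prod.smul_fst, Prod.smul_snd, smul_eq_mul, smul_eq_mul, norm_mul, norm_mul, mul_pow, mul_pow,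
      ← mul_add, hL.unit x, mul_one]
  rw [h1, Real.sqrt_sq hρ.le, smul_smul, smul_smul]
  have h2 : a = ‖a‖ * ex (t x (q j)) := hL.ph x (q j)
  have h3 : ((1 / ‖a‖ : ℝ) : ℂ) * a = ex (t x (q j)) := by
    have h4 : (‖a‖ : ℂ) ≠ 0 := by exact_mod_cast hρ.ne'
    calc ((1 / ‖a‖ : ℝ) : ℂ) * a = ((1 / ‖a‖ : ℝ) : ℂ) * (‖a‖ * ex (t x (q j))) := by rw [← h2]
      _ = ex (t x (q j)) := by
        push_cast
        field_simp
  rw [mul_assoc, h3, ← ex_add]
  unfold F
  congr 2
  have h5 : t x (q j) = ∑ m, φ m x * t x (q j) := by rw [← Finset.sum_mul, hs x, one_mul]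
  rw [h5, ← Finset.sum_add_distrib]
  refine Finset.sum_congr rfl fun m _ => ?_
  unfold sg
  ring

/-- continuity of the terms with the defect -/
theorem sg_cont (hQc : Continuous Q)
    (hQ : ∀ v u : ℂ × ℂ, ‖v.1‖ ^ 2 + ‖v.2‖ ^ 2 = 1 → Q (hp v, u) = ip v u • v)
    (hL : Lin L v t c ε) (hv : ContinuousOn (fun x => hp (v x)) L) (hφ : ∀ j, Continuous (φ j))
    (hnn : ∀ j x, 0 ≤ φ j x) (hd : ∀ j x, φ j x ≠ 0 → dist x (q j) < ε / 4) (j m : Fin n) :
    ContinuousOn (fun x => φ m x * sg t c x (q j) (q m)) {x | x ∈ L ∧ φ j x ≠ 0} := by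
  have hsm : ∀ x ∈ L, φ j x ≠ 0 → φ m x ≠ 0 → [x, q j, q m] ∈ Small L ε := by
    intro x hx hj hm
    refine small hL.pos hx fun y hy => ?_
    simp only [List.mem_cons, List.not_mem_nil, or_false] at hy
    rcases hy with rfl | rfl
    · exact hd _ _ hj
    · exact hd _ _ hm
  have hbd : ∀ x ∈ L, φ j x ≠ 0 → φ m x ≠ 0 → |sg t c x (q j) (q m)| ≤ 1 / 16 :=
    fun x hx hj hm => hL.sm _ _ _ (hsm x hx hj hm)
  intro x₀ hx₀
  by_cases hm₀ : φ m x₀ = 0
  · have h0 : φ m x₀ * sg t c x₀ (q j) (q m) = 0 := by rw [hm₀, zero_mul]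
    show Filter.Tendsto _ _ _
    simp only [h0]
    have h1 : Filter.Tendsto (φ m) (𝓝[{x | x ∈ L ∧ φ j x ≠ 0}] x₀) (𝓝 0) := by
      have := ((hφ m).continuousAt (x := x₀)).mono_left (nhdsWithin_le_nhds
        (s := {x | x ∈ L ∧ φ j x ≠ 0}))
      rwa [hm₀] at this
    refine squeeze_zero_norm' ?_ h1
    filter_upwards [self_mem_nhdsWithin] with x hx
    rw [Real.norm_eq_abs, abs_mul, abs_of_nonneg (hnn m x)]
    by_cases hm : φ m x = 0
    · rw [hm, zero_mul]
    · have h2 := hbd x hx.1 hx.2 hm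
      have h3 := hnn m x
      nlinarith
  · set B : X → ℂ := fun x => ip (v (q j)) (v (q m)) * ip (v (q m)) (Q (hp (v x), v (q j)))
      with hB
    have hBc : ContinuousOn B L := by
      refine continuousOn_const.mul ((ip_cont _).comp_continuousOn (hQc.comp_continuousOn ?_))
      exact hv.prodMk continuousOn_const
    have hBe : ∀ x ∈ L, φ j x ≠ 0 → φ m x ≠ 0 →
        ∃ a : ℝ, 0 < a ∧ B x = (a : ℂ) * ex (sg t c x (q j) (q m)) := by
      intro x hx hj hm
      have h1 := hsm x hx hj hm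
      have n1 : ip (v x) (v (q j)) ≠ 0 := hL.ne _ _ (Small.cl L ε _ h1 _ (by
        intro y hy
        simp only [List.mem_cons, List.not_mem_nil, or_false] at hy ⊢
        tauto))
      have n2 : ip (v (q j)) (v (q m)) ≠ 0 := hL.ne _ _ (small_tail h1)
      have n3 : ip (v x) (v (q m)) ≠ 0 := hL.ne _ _ (Small.cl L ε _ h1 _ (by
        intro y hy
        simp only [List.mem_cons, List.not_mem_nil, or_false] at hy ⊢
        tauto))
      refine ⟨‖ip (v x) (v (q j))‖ * ‖ip (v (q j)) (v (q m))‖ * ‖ip (v x) (v (q m))‖,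
        mul_pos (mul_pos (norm_pos_iff.2 n1) (norm_pos_iff.2 n2)) (norm_pos_iff.2 n3), ?_⟩
      have e1 : ip (v x) (v (q j)) = ‖ip (v x) (v (q j))‖ * ex (t x (q j)) := hL.ph _ _
      have e2 : ip (v (q j)) (v (q m)) = ‖ip (v (q j)) (v (q m))‖ * ex (t (q j) (q m)) := hL.ph _ _
      have e3 : ip (v (q m)) (v x) = ‖ip (v x) (v (q m))‖ * ex (-t x (q m)) := by
        have e4 : ip (v x) (v (q m)) = ‖ip (v x) (v (q m))‖ * ex (t x (q m)) := hL.ph _ _
        rw [ip_conj]
        conv_lhs => rw [e4]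
        rw [map_mul, conj_ex, Complex.conj_ofReal]
      have e5 : ex (sg t c x (q j) (q m)) = ex (t x (q j)) * ex (t (q j) (q m)) *
          ex (-t x (q m)) := by
        rw [← ex_add, ← ex_add]
        have e6 : t x (q j) + t (q j) (q m) + -t x (q m) =
            sg t c x (q j) (q m) + (c x (q j) (q m) : ℤ) := by
          unfold sg
          ring
        rw [e6, ex_add, ex_int, mul_one]
      show ip (v (q j)) (v (q m)) * ip (v (q m)) (Q (hp (v x), v (q j))) = _
      rw [hQ _ _ (hL.unit x), ip_smul, e5, e3]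
      conv_lhs => rw [e1, e2]
      push_cast
      ring
    have hO : IsOpen {x | φ m x ≠ 0} := isOpen_ne_fun (hφ m) continuous_const
    have hcw : ContinuousWithinAt (fun x => φ m x * (Complex.arg (B x) / (2 * Real.pi)))
        {x | x ∈ L ∧ φ j x ≠ 0} x₀ := by
      refine (hφ m).continuousWithinAt.mul (ContinuousWithinAt.div_const ?_ _)
      obtain ⟨a, ha, hBx⟩ := hBe x₀ hx₀.1 hx₀.2 hm₀
      have h1 : B x₀ ∈ Complex.slitPlane := by
        rw [hBx]
        exact slit_ex ha (hbd x₀ hx₀.1 hx₀.2 hm₀)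
      exact (Complex.continuousAt_arg h1).comp_continuousWithinAt
        ((hBc x₀ hx₀.1).mono fun x hx => hx.1)
    have heq : ∀ x ∈ L, φ j x ≠ 0 → φ m x ≠ 0 → φ m x * sg t c x (q j) (q m) =
        φ m x * (Complex.arg (B x) / (2 * Real.pi)) := by
      intro x hx hj hm
      obtain ⟨a, ha, hBx⟩ := hBe x hx hj hm
      rw [hBx, arg_ex ha (hbd x hx hj hm)]
      have hpi := Real.pi_pos
      field_simp
    refine hcw.congr_of_eventuallyEq ?_ (heq x₀ hx₀.1 hx₀.2 hm₀)
    filter_upwards [self_mem_nhdsWithin, mem_nhdsWithin_of_mem_nhds (hO.mem_nhds hm₀)] with x hx hm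
    exact heq x hx.1 hx.2 hm

end SLL

open SLL in
theorem t_SLL : M_SLL := by
  intro hH X _ _ L v t c C κ ε n φ q hLc hL hφ hnn hs hd hκ
  obtain ⟨-, -, -, -, -, ⟨Q, hQc, hQ⟩, -⟩ := hH
  have hv : ContinuousOn (fun x => hp (v x)) L := by
    intro a ha
    rw [Metric.continuousWithinAt_iff]
    intro η hη
    obtain ⟨δ, hδ, h⟩ := hL.uat η hη
    exact ⟨δ, hδ, fun x _ hx => h a ha x hx⟩
  have hne : ∀ j, ∀ x ∈ L, φ j x ≠ 0 → ip (v x) (v (q j)) ≠ 0 := by
    intro j x hx hj
    refine hL.ne _ _ (small hL.pos hx fun y hy => ?_)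
    simp only [List.mem_cons, List.not_mem_nil, or_false] at hy
    rw [hy]
    exact hd _ _ hj
  have hv0 : ∀ x, v x ≠ 0 := by
    intro x h
    have := hL.unit x
    rw [h] at this
    simp at this
  refine ⟨F v t c κ φ q, ⟨?_, ?_, ?_⟩, ?_⟩
  · intro j
    have h1 : ContinuousOn (G Q v t c κ φ q j) {x | x ∈ L ∧ φ j x ≠ 0} := by
      have hQv : ContinuousOn (fun x => Q (hp (v x), v (q j))) {x | x ∈ L ∧ φ j x ≠ 0} :=
        hQc.comp_continuousOn ((hv.mono fun x hx => hx.1).prodMk continuousOn_const)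
      unfold G
      refine ContinuousOn.smul (ex_cont.comp_continuousOn ?_) (ContinuousOn.smul
        (Complex.continuous_ofReal.comp_continuousOn ?_) hQv)
      · refine continuousOn_finsetSum _ fun m _ => ContinuousOn.sub ?_ ?_
        · exact ((hφ m).mul continuous_const).continuousOn
        · exact sg_cont hQc hQ hL hv hφ hnn hd j m
      · refine ContinuousOn.div continuousOn_const (Real.continuous_sqrt.comp_continuousOn ?_) ?_
        · exact ((continuous_fst.comp_continuousOn hQv).norm.pow 2).add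
            ((continuous_snd.comp_continuousOn hQv).norm.pow 2)
        · intro x hx
          have h2 := hne j x hx.1 hx.2
          rw [hQ _ _ (hL.unit x), Prod.smul_fst, Prod.smul_snd, smul_eq_mul, smul_eq_mul, norm_mul,
            norm_mul, mul_pow, mul_pow, ← mul_add, hL.unit x, mul_one, Real.sqrt_sq (norm_nonneg _)]
          exact norm_ne_zero_iff.2 h2
    exact h1.congr fun x hx => F_eq_G hQ hL hs j x (hne j x hx.1 hx.2)
  · intro j x _ _
    refine smul_ne_zero ?_ (hv0 x)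
    exact Complex.exp_ne_zero _
  · intro j k x hx hj hk
    have htr : trn q φ C j k x = ex (∑ m, φ m x * C (q j) (q k) (q m)) := rfl
    rw [htr]
    unfold F
    rw [smul_smul, ← ex_add]
    congr 1
    have h1 : ∑ m, φ m x * (t x (q m) + c x (q k) (q m) - κ (q k) (q m)) =
        (∑ m, φ m x * C (q j) (q k) (q m)) +
        (∑ m, φ m x * (t x (q m) + c x (q j) (q m) - κ (q j) (q m))) +
        ((κ (q j) (q k) - c x (q j) (q k) : ℤ) : ℝ) := by
      have h2 : ((κ (q j) (q k) - c x (q j) (q k) : ℤ) : ℝ) =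
          ∑ m, φ m x * ((κ (q j) (q k) - c x (q j) (q k) : ℤ) : ℝ) := by
        rw [← Finset.sum_mul, hs x, one_mul]
      rw [h2, ← Finset.sum_add_distrib, ← Finset.sum_add_distrib]
      refine Finset.sum_congr rfl fun m _ => ?_
      by_cases hm : φ m x = 0
      · rw [hm]
        ring
      · have hsm : [x, q j, q k, q m] ∈ Small L ε := by
          refine small hL.pos hx fun y hy => ?_
          simp only [List.mem_cons, List.not_mem_nil, or_false] at hy
          rcases hy with rfl | rfl | rfl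
          · exact hd _ _ hj
          · exact hd _ _ hk
          · exact hd _ _ hm
        have h3 := hL.cy _ _ _ _ hsm
        have h4 := hκ _ _ _ (small_tail hsm)
        have h5 : (c (q j) (q k) (q m) : ℝ) - c x (q k) (q m) + c x (q j) (q m) -
            c x (q j) (q k) = 0 := by exact_mod_cast h3
        have h6 : (c (q j) (q k) (q m) : ℝ) - C (q j) (q k) (q m) =
            κ (q k) (q m) - κ (q j) (q m) + κ (q j) (q k) := by exact_mod_cast h4
        rw [← mul_add, ← mul_add]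
        congr 1
        push_cast
        linarith
    rw [h1, ex_add, ex_int, mul_one]
  · intro j x _ _
    exact ⟨_, norm_ex _, rfl⟩

end BBH


end

section

/-!
# KH: the end of the proof of the key lemma
-/

set_option autoImplicit false

namespace BBH

open Set Topology CTO

theorem t_KH : S_KH := by
  intro k X _ _ _ B B' D O N K W N' θ Θ U hKy hPri hloc hUD hUW hN' hBW
  have hU : ∀ y ∉ D, U y = 0 := by
    intro y hy
    by_cases hyB : y ∈ B
    · exact hUD y ⟨hyB, hy⟩
    · exact hUW y (fun h => hyB (hKy.subW h).1)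
  have hdd : Dg X 1 (dd (c0 U)) := by
    have h := (Dg.c0 (X := X) U).dd
    simpa using h
  have hdeg : Dg X 1 (Θ - dd (c0 U)) := hPri.deg.sub hdd
  refine ⟨Θ - dd (c0 U), by simpa using hdeg, ?_, ?_⟩
  · refine Zr.local hN'.isClosed_compl.isCompact hdeg.nil ?_
    intro y hy
    by_cases hyD : y ∈ D
    · refine hloc y ?_
      by_contra hyW
      exact hy (hBW ⟨hKy.subD hyD, hyW⟩)
    · obtain ⟨r, hr, hball⟩ := Metric.isOpen_iff.1 hKy.cD.isClosed.isOpen_compl y hyD
      refine ⟨Metric.ball y (r / 2), Metric.isOpen_ball, Metric.mem_ball_self (by linarith), ?_⟩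
      refine Zr.sub (hPri.zer.anti ?_) (Zr.dd ?_)
      · intro x hx hxO
        exact hball (Metric.ball_subset_ball (by linarith) hx) (hKy.subO hxO)
      · refine ⟨r / 2, by linarith, fun l hl => ?_⟩
        rcases l with _ | ⟨x, _ | ⟨z, l⟩⟩
        · rfl
        · rw [c0_single]
          apply hU
          have hx := hl.1 x (by simp)
          obtain ⟨w, hw, hxw⟩ := Metric.mem_thickening_iff.1 hx
          apply hball
          rw [Metric.mem_ball] at hw ⊢
          have := dist_triangle x w y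
          linarith
        · rfl
  · rw [dd_sub, dd_dd, sub_zero]
    exact hPri.eq

end BBH


end
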