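import Mathlib
import Pool.Agent.BBM.C16

/-! Parts: BBH.B_ARC, BBH.D_LNA, BBH.E_LT2 -/

section

/-!
# Module ARC: closed subsets of arcs, finite unions of arcs
-/

set_option autoImplicit false

namespace BBH

open Set Topology

namespace ARC

variable {M X : Type} [AddCommGroup M] [MetricSpace X]

/-- Mayer-Vietoris, vanishing -/
theorem mv (hM : S_MVC) {p : ℤ} {A B : Set X} (hA : IsCompact A) (hB : IsClosed B)
    (h : Van M (p - 1) (A ∩ B) ∅) (h1 : Van M p A ∅) (h2 : Van M p B ∅) :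
    Van M p (A ∪ B) ∅ := by
  intro c hc
  obtain ⟨e, he, h3⟩ := hM M X p A B c hA hB (h1 c (hc.mono subset_union_left Subset.rfl))
    (h2 c (hc.mono subset_union_right Subset.rfl))
  refine h3 0 0 Cyc.zero Cyc.zero ?_
  rw [sub_zero, sub_zero]
  exact h e he

theorem arc_compact {A : Set X} {a b : X} (h : BBP.Arc A a b) : IsCompact A := by
  obtain ⟨α, hc, -, -, -, rfl⟩ := h
  exact isCompact_Icc.image_of_continuousOn hc

/-- the inverse of the parametrisation -/
theorem arc_inv {A : Set X} {a b : X} (h : BBP.Arc A a b) :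
    ∃ f : X → ℝ, ContinuousOn f A ∧ InjOn f A := by
  obtain ⟨α, hc, hi, -, -, rfl⟩ := h
  have hl : ∀ t ∈ Icc (0 : ℝ) 1, Function.invFunOn α (Icc 0 1) (α t) = t := fun t ht =>
    hi.leftInvOn_invFunOn ht
  refine ⟨Function.invFunOn α (Icc 0 1), ?_, ?_⟩
  · rw [continuousOn_iff_isClosed]
    intro C hC
    refine ⟨α '' (Icc 0 1 ∩ C), ((isCompact_Icc.inter_right hC).image_of_continuousOn
      (hc.mono inter_subset_left)).isClosed, ?_⟩
    ext x
    constructor
    · rintro ⟨hx, t, ht, rfl⟩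
      have hx' : Function.invFunOn α (Icc 0 1) (α t) ∈ C := hx
      rw [hl t ht] at hx'
      exact ⟨⟨t, ⟨ht, hx'⟩, rfl⟩, ⟨t, ht, rfl⟩⟩
    · rintro ⟨⟨t, ⟨ht, htC⟩, rfl⟩, -⟩
      refine ⟨?_, ⟨t, ht, rfl⟩⟩
      show Function.invFunOn α (Icc 0 1) (α t) ∈ C
      rw [hl t ht]
      exact htC
  · rintro _ ⟨s, hs, rfl⟩ _ ⟨t, ht, rfl⟩ he
    rw [hl s hs, hl t ht] at he
    rw [he]

theorem closed (hV : S_VA1) {A F : Set X} {a b : X} (h : BBP.Arc A a b) (hF : IsClosed F)
    (hFA : F ⊆ A) {p : ℤ} (hp : 1 ≤ p) : Van M p F ∅ := by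
  obtain ⟨f, hc, hi⟩ := arc_inv h
  exact hV M X F f ((arc_compact h).of_isClosed_subset hF hFA) (hc.mono hFA) (hi.mono hFA) p hp

theorem fin (hM : S_MVC) (hV : S_VA1) (n : ℕ) : ∀ (A : Fin n → Set X) (a b : Fin n → X),
    (∀ i, BBP.Arc (A i) (a i) (b i)) → ∀ p : ℤ, 2 ≤ p → Van M p (⋃ i, A i) ∅ := by
  induction n with
  | zero =>
    intro A a b _ p _
    have e : (⋃ i, A i) = (∅ : Set X) := by
      rw [iUnion_eq_empty]
      exact fun i => i.elim0
    rw [e]
    exact Van.empty p ∅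
  | succ n ih =>
    intro A a b h p hp
    have e : (⋃ i, A i) = A (Fin.last n) ∪ ⋃ i : Fin n, A i.castSucc := by
      ext x
      rw [mem_union, mem_iUnion, mem_iUnion]
      constructor
      · rintro ⟨i, hi⟩
        refine Fin.lastCases (motive := fun i => x ∈ A i → x ∈ A (Fin.last n) ∨
          ∃ i : Fin n, x ∈ A i.castSucc) (fun hx => Or.inl hx) (fun i hx => Or.inr ⟨i, hx⟩) i hi
      · rintro (hx | ⟨i, hx⟩)
        · exact ⟨_, hx⟩
        · exact ⟨_, hx⟩
    have hcl : IsClosed (⋃ i : Fin n, A i.castSucc) :=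
      isClosed_iUnion_of_finite fun i => (arc_compact (h i.castSucc)).isClosed
    rw [e]
    refine mv hM (arc_compact (h (Fin.last n))) hcl ?_ ?_ ?_
    · exact closed hV (h (Fin.last n)) ((arc_compact (h (Fin.last n))).isClosed.inter hcl)
        inter_subset_left (by omega)
    · exact closed hV (h (Fin.last n)) (arc_compact (h (Fin.last n))).isClosed Subset.rfl
        (by omega)
    · exact ih (fun i => A i.castSucc) (fun i => a i.castSucc) (fun i => b i.castSucc)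
        (fun i => h i.castSucc) p hp

end ARC

theorem t_ARC : M_ARC := by
  intro hM hV
  refine ⟨?_, ?_, ?_⟩
  · intro M X _ _ A F a b h hF hFA p hp
    exact ARC.closed hV h hF hFA hp
  · intro M X _ _ n A a b h p hp
    exact ARC.fin hM hV n A a b h p hp
  · intro M X _ _ D A a b hD h p hp hDv
    have hA := (ARC.arc_compact h).isClosed
    refine ARC.mv hM hD hA ?_ hDv ?_
    · exact ARC.closed hV h (hD.isClosed.inter hA) inter_subset_right (by omega)
    · exact ARC.closed hV h hA Subset.rfl (by omega)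

end BBH


end

section

/-!
# BBH, module LNA: the data of the line bundle exist
-/

set_option autoImplicit false

namespace BBH

open Set Topology CTO

namespace LNA

theorem ip_smul_right (z : ℂ) (v w : ℂ × ℂ) : ip v (z • w) = z * ip v w := by
  simp only [ip, Prod.smul_fst, Prod.smul_snd, smul_eq_mul]
  ring

theorem ip_smul_left (z : ℂ) (v w : ℂ × ℂ) : ip (z • v) w = (starRingEnd ℂ) z * ip v w := by
  simp only [ip, Prod.smul_fst, Prod.smul_snd, smul_eq_mul, map_mul]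
  ring

theorem ip_conj (v w : ℂ × ℂ) : ip w v = (starRingEnd ℂ) (ip v w) := by
  simp only [ip, map_add, map_mul, Complex.conj_conj]
  ring

theorem ip_add_right (v w u : ℂ × ℂ) : ip v (w + u) = ip v w + ip v u := by
  simp only [ip, Prod.fst_add, Prod.snd_add]
  ring

theorem ip_self {v : ℂ × ℂ} (hv : ‖v.1‖ ^ 2 + ‖v.2‖ ^ 2 = 1) : ip v v = 1 := by
  have h : ip v v = ((‖v.1‖ ^ 2 + ‖v.2‖ ^ 2 : ℝ) : ℂ) := by
    simp only [ip, Complex.conj_mul']
    push_cast
    ring
  rw [h, hv]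
  simp

theorem fst_le {v : ℂ × ℂ} (hv : ‖v.1‖ ^ 2 + ‖v.2‖ ^ 2 = 1) : ‖v.1‖ ≤ 1 := by
  nlinarith [norm_nonneg v.1, norm_nonneg v.2, sq_nonneg ‖v.2‖]

theorem snd_le {v : ℂ × ℂ} (hv : ‖v.1‖ ^ 2 + ‖v.2‖ ^ 2 = 1) : ‖v.2‖ ≤ 1 := by
  nlinarith [norm_nonneg v.1, norm_nonneg v.2, sq_nonneg ‖v.1‖]

theorem ip_le {v d : ℂ × ℂ} (hv : ‖v.1‖ ^ 2 + ‖v.2‖ ^ 2 = 1) : ‖ip v d‖ ≤ 2 * ‖d‖ := by
  have h1 : ‖ip v d‖ ≤ ‖v.1‖ * ‖d.1‖ + ‖v.2‖ * ‖d.2‖ := by
    refine (norm_add_le _ _).trans ?_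
    simp only [norm_mul, RCLike.norm_conj]
    exact le_refl _
  have h2 := norm_fst_le d
  have h3 := norm_snd_le d
  have h4 := fst_le hv
  have h5 := snd_le hv
  have h6 : ‖v.1‖ * ‖d.1‖ ≤ 1 * ‖d‖ := mul_le_mul h4 h2 (norm_nonneg _) zero_le_one
  have h7 : ‖v.2‖ * ‖d.2‖ ≤ 1 * ‖d‖ := mul_le_mul h5 h3 (norm_nonneg _) zero_le_one
  linarith

theorem ip_near {v w : ℂ × ℂ} (hv : ‖v.1‖ ^ 2 + ‖v.2‖ ^ 2 = 1) : ‖ip v w - 1‖ ≤ 2 * ‖w - v‖ := by
  have h : ip v w - 1 = ip v (w - v) := by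
    have h1 := ip_add_right v v (w - v)
    rw [add_sub_cancel, ip_self hv] at h1
    rw [h1]
    ring
  rw [h]
  exact ip_le hv

theorem unit_smul {z : ℂ} (hz : ‖z‖ = 1) {v : ℂ × ℂ} (hv : ‖v.1‖ ^ 2 + ‖v.2‖ ^ 2 = 1) :
    ‖(z • v).1‖ ^ 2 + ‖(z • v).2‖ ^ 2 = 1 := by
  simp only [Prod.smul_fst, Prod.smul_snd, smul_eq_mul, norm_mul, hz, one_mul]
  exact hv

theorem conj_mul_one {z : ℂ} (hz : ‖z‖ = 1) : (starRingEnd ℂ) z * z = 1 := by
  rw [Complex.conj_mul', hz]
  norm_num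

/-- the product of the three products is near `1` -/
theorem tri {a b c : ℂ × ℂ} (ha : ‖a.1‖ ^ 2 + ‖a.2‖ ^ 2 = 1) (hb : ‖b.1‖ ^ 2 + ‖b.2‖ ^ 2 = 1)
    (hc : ‖c.1‖ ^ 2 + ‖c.2‖ ^ 2 = 1) {z w : ℂ} (hz : ‖z‖ = 1) (hw : ‖w‖ = 1)
    (h1 : ‖z • b - a‖ < 1 / 200) (h2 : ‖w • c - a‖ < 1 / 200) :
    ‖ip a b * ip b c * ip c a - 1‖ ≤ 1 / 8 := by
  have hb' := unit_smul hz hb
  have hc' := unit_smul hw hc
  have e : ip a b * ip b c * ip c a = ip a (z • b) * ip (z • b) (w • c) * ip (w • c) a := by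
    rw [ip_smul_right, ip_smul_left, ip_smul_right, ip_smul_left]
    have e1 := conj_mul_one hz
    have e2 := conj_mul_one hw
    calc ip a b * ip b c * ip c a = 1 * 1 * (ip a b * ip b c * ip c a) := by ring
      _ = ((starRingEnd ℂ) z * z) * ((starRingEnd ℂ) w * w) * (ip a b * ip b c * ip c a) := by
          rw [e1, e2]
      _ = _ := by ring
  rw [e]
  have n1 : ‖ip a (z • b) - 1‖ ≤ 1 / 50 := by
    have := ip_near (w := z • b) ha
    linarith
  have n2 : ‖ip (z • b) (w • c) - 1‖ ≤ 1 / 50 := by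
    have h3 := ip_near (w := w • c) hb'
    have h4 : ‖w • c - z • b‖ ≤ ‖w • c - a‖ + ‖z • b - a‖ := by
      have h5 : w • c - z • b = (w • c - a) - (z • b - a) := by abel
      rw [h5]
      exact norm_sub_le _ _
    linarith
  have n3 : ‖ip (w • c) a - 1‖ ≤ 1 / 50 := by
    have h3 := ip_near (w := a) hc'
    rw [norm_sub_rev] at h2
    linarith
  set P := ip a (z • b)
  set Q := ip (z • b) (w • c)
  set R := ip (w • c) a
  have e3 : P * Q * R - 1 = (P - 1) * (Q * R) + (Q - 1) * R + (R - 1) := by ring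
  have q1 : ‖Q‖ ≤ 51 / 50 := by
    have h5 : Q = (Q - 1) + 1 := by ring
    calc ‖Q‖ = ‖(Q - 1) + 1‖ := by rw [← h5]
      _ ≤ ‖Q - 1‖ + ‖(1 : ℂ)‖ := norm_add_le _ _
      _ ≤ 51 / 50 := by
        rw [norm_one]
        linarith
  have r1 : ‖R‖ ≤ 51 / 50 := by
    have h5 : R = (R - 1) + 1 := by ring
    calc ‖R‖ = ‖(R - 1) + 1‖ := by rw [← h5]
      _ ≤ ‖R - 1‖ + ‖(1 : ℂ)‖ := norm_add_le _ _
      _ ≤ 51 / 50 := by
        rw [norm_one]
        linarith
  rw [e3]
  have m1 : ‖(P - 1) * (Q * R)‖ ≤ 1 / 50 * (51 / 50 * (51 / 50)) := by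
    rw [norm_mul, norm_mul]
    exact mul_le_mul n1 (mul_le_mul q1 r1 (norm_nonneg _) (by norm_num))
      (mul_nonneg (norm_nonneg _) (norm_nonneg _)) (by norm_num)
  have m2 : ‖(Q - 1) * R‖ ≤ 1 / 50 * (51 / 50) := by
    rw [norm_mul]
    exact mul_le_mul n2 r1 (norm_nonneg _) (by norm_num)
  calc ‖(P - 1) * (Q * R) + (Q - 1) * R + (R - 1)‖
      ≤ ‖(P - 1) * (Q * R)‖ + ‖(Q - 1) * R‖ + ‖R - 1‖ := norm_add₃_le
    _ ≤ 1 / 8 := by linarith

/-- a positive multiple of `exp (2 π i θ)` near `1` -/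
theorem ang {θ r : ℝ} (hr : 0 ≤ r)
    (h : ‖(r : ℂ) * Complex.exp (2 * Real.pi * θ * Complex.I) - 1‖ ≤ 1 / 8) :
    |θ - round θ| ≤ 1 / 16 := by
  set s : ℝ := θ - round θ with hs
  have hs2 : |s| ≤ 1 / 2 := abs_sub_round θ
  have e1 : Complex.exp (2 * Real.pi * θ * Complex.I) =
      Complex.exp (((2 * Real.pi * s : ℝ) : ℂ) * Complex.I) := by
    rw [Complex.exp_eq_exp_iff_exists_int]
    refine ⟨round θ, ?_⟩
    rw [hs]
    push_cast
    ring
  rw [e1, Complex.exp_mul_I] at h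
  have hre := (Complex.abs_re_le_norm _).trans h
  have him := (Complex.abs_im_le_norm _).trans h
  rw [← Complex.ofReal_cos, ← Complex.ofReal_sin] at hre him
  simp only [Complex.sub_re, Complex.mul_re, Complex.ofReal_re, Complex.add_re, Complex.I_re,
    mul_zero, Complex.ofReal_im, Complex.I_im, mul_one, sub_zero, Complex.one_re, Complex.add_im,
    Complex.mul_im, zero_mul, add_zero, sub_self, Complex.sub_im, Complex.one_im, zero_add] at hre him
  have h1 := (abs_le.1 hre).1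
  have hpi := Real.pi_pos
  have hcos : 0 < Real.cos (2 * Real.pi * s) := by
    by_contra hc
    push Not at hc
    nlinarith
  have hcos1 := Real.cos_le_one (2 * Real.pi * s)
  have hr2 : 7 / 8 ≤ r := by nlinarith
  have hlt : |2 * Real.pi * s| < Real.pi / 2 := by
    by_contra hc
    push Not at hc
    have h2 : |2 * Real.pi * s| ≤ Real.pi := by
      rw [abs_mul, abs_of_pos (by positivity)]
      nlinarith
    have h3 : Real.cos |2 * Real.pi * s| ≤ 0 :=
      Real.cos_nonpos_of_pi_div_two_le_of_le hc (by linarith)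
    rw [Real.cos_abs] at h3
    linarith
  have hsin : 4 * |s| ≤ |Real.sin (2 * Real.pi * s)| := by
    have h4 := Real.mul_le_sin (abs_nonneg (2 * Real.pi * s)) hlt.le
    have h5 : Real.sin |2 * Real.pi * s| ≤ |Real.sin (2 * Real.pi * s)| := by
      rcases abs_cases (2 * Real.pi * s) with h6 | h6
      · rw [h6.1]
        exact le_abs_self _
      · rw [h6.1, Real.sin_neg]
        exact neg_le_abs _
    have h7 : 2 / Real.pi * |2 * Real.pi * s| = 4 * |s| := by
      rw [abs_mul, abs_of_pos (by positivity : (0 : ℝ) < 2 * Real.pi)]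
      field_simp
      ring
    linarith
  rw [abs_mul, abs_of_nonneg hr] at him
  have h8 : 7 / 8 * (4 * |s|) ≤ r * |Real.sin (2 * Real.pi * s)| :=
    mul_le_mul hr2 hsin (by positivity) hr
  have h9 : 0 ≤ |s| := abs_nonneg s
  linarith

end LNA

open LNA in
theorem t_LNA : M_LNA := by
  intro hH X _ _ L f hL hne hf hf0
  obtain ⟨-, hn, -, hs, -, -, h7⟩ := hH
  obtain ⟨f', he, hu, hi⟩ := exists_extend (φ := fun x => (1 / ‖f x‖) • f x) hL.isCompact hne
    ((continuousOn_const.div hf.norm fun x hx => norm_ne_zero_iff.2 (hf0 x hx)).smul hf)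
  choose v hv using fun x => hs (f' x)
  have hunit : ∀ x, ‖(v x).1‖ ^ 2 + ‖(v x).2‖ ^ 2 = 1 := by
    intro x
    rw [← hn, hv]
    obtain ⟨a, ha, hax⟩ := hi x
    rw [← hax]
    have h0 : ‖f a‖ ≠ 0 := norm_ne_zero_iff.2 (hf0 a ha)
    simp only [norm_smul, norm_div, norm_one, norm_norm]
    field_simp
  obtain ⟨δ, hδ, h8⟩ := h7 (1 / 200) (by norm_num)
  obtain ⟨ρ, hρ, h9⟩ := hu (δ / 2) (by linarith)
  have hnear : ∀ x y, x ∈ Metric.thickening (ρ / 2) L → dist x y < ρ / 2 →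
      ∃ z : ℂ, ‖z‖ = 1 ∧ ‖z • v y - v x‖ < 1 / 200 := by
    intro x y hx hxy
    obtain ⟨a, ha, hxa⟩ := Metric.mem_thickening_iff.1 hx
    refine h8 (v x) (v y) (hunit x) (hunit y) ?_
    rw [hv, hv, ← dist_eq_norm]
    have d1 := h9 a ha x (by linarith)
    have d2 := h9 a ha y (by
      have := dist_triangle_left y a x
      linarith)
    have d3 := dist_triangle_right (f' x) (f' y) (f' a)
    linarith
  have hph : ∀ x y, ip (v x) (v y) = ‖ip (v x) (v y)‖ *
      Complex.exp (2 * Real.pi * ((Complex.arg (ip (v x) (v y)) / (2 * Real.pi) : ℝ) : ℂ) *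
        Complex.I) := by
    intro x y
    have h := Complex.norm_mul_exp_arg_mul_I (ip (v x) (v y))
    have e : (2 * Real.pi * ((Complex.arg (ip (v x) (v y)) / (2 * Real.pi) : ℝ) : ℂ) *
        Complex.I) = (Complex.arg (ip (v x) (v y)) : ℂ) * Complex.I := by
      have hpi : (Real.pi : ℂ) ≠ 0 := by exact_mod_cast Real.pi_ne_zero
      push_cast
      field_simp
    rw [e]
    exact h.symm
  set t : X → X → ℝ := fun x y => Complex.arg (ip (v x) (v y)) / (2 * Real.pi) with ht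
  have hsm : ∀ x y z, [x, y, z] ∈ Small L (ρ / 2) →
      |(t y z - t x z + t x y) - round (t y z - t x z + t x y)| ≤ 1 / 16 := by
    intro x y z hl
    obtain ⟨hl1, hl2⟩ := hl
    obtain ⟨z1, hz1, hz1'⟩ := hnear x y (hl1 x (by simp)) (hl2 x (by simp) y (by simp))
    obtain ⟨z2, hz2, hz2'⟩ := hnear x z (hl1 x (by simp)) (hl2 x (by simp) z (by simp))
    have h := tri (hunit x) (hunit y) (hunit z) hz1 hz2 hz1' hz2'
    have e : ip (v x) (v y) * ip (v y) (v z) * ip (v z) (v x) =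
        ((‖ip (v x) (v y)‖ * ‖ip (v y) (v z)‖ * ‖ip (v x) (v z)‖ : ℝ) : ℂ) *
          Complex.exp (2 * Real.pi * ((t y z - t x z + t x y : ℝ) : ℂ) * Complex.I) := by
      rw [ip_conj (v x) (v z)]
      have e1 := hph x y
      have e2 := hph y z
      have e3 := hph x z
      have e4 : (starRingEnd ℂ) (ip (v x) (v z)) = ‖ip (v x) (v z)‖ *
          Complex.exp (-(2 * Real.pi * (t x z : ℂ) * Complex.I)) := by
        conv_lhs => rw [e3]
        rw [map_mul, Complex.conj_ofReal, ← Complex.exp_conj]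
        congr 2
        simp only [map_mul, Complex.conj_ofReal, Complex.conj_I, map_ofNat]
        ring
      calc ip (v x) (v y) * ip (v y) (v z) * (starRingEnd ℂ) (ip (v x) (v z))
          = (‖ip (v x) (v y)‖ * Complex.exp (2 * Real.pi * (t x y : ℂ) * Complex.I)) *
            (‖ip (v y) (v z)‖ * Complex.exp (2 * Real.pi * (t y z : ℂ) * Complex.I)) *
            (‖ip (v x) (v z)‖ * Complex.exp (-(2 * Real.pi * (t x z : ℂ) * Complex.I))) := by
              rw [e4, ← e1, ← e2]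
        _ = ((‖ip (v x) (v y)‖ : ℂ) * ‖ip (v y) (v z)‖ * ‖ip (v x) (v z)‖) *
            (Complex.exp (2 * Real.pi * (t x y : ℂ) * Complex.I) *
            Complex.exp (2 * Real.pi * (t y z : ℂ) * Complex.I) *
            Complex.exp (-(2 * Real.pi * (t x z : ℂ) * Complex.I))) := by ring
        _ = _ := by
          rw [← Complex.exp_add, ← Complex.exp_add]
          push_cast
          congr 2
          ring
    rw [e] at h
    exact ang (by positivity) h
  refine ⟨v, t, fun x y z => round (t y z - t x z + t x y), ρ / 2, ⟨by linarith, hunit, hph, ?_, ?_,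
    hsm, ?_⟩, ?_⟩
  · have e : (fun x => hp (v x)) = f' := funext hv
    rw [e]
    exact hu
  · intro x y hl
    obtain ⟨hl1, hl2⟩ := hl
    obtain ⟨z1, hz1, hz1'⟩ := hnear x y (hl1 x (by simp)) (hl2 x (by simp) y (by simp))
    intro h0
    have h1 := ip_near (w := z1 • v y) (hunit x)
    rw [ip_smul_right, h0, mul_zero, zero_sub, norm_neg, norm_one] at h1
    linarith
  · intro x y z w hl
    have hc := Small.cl L (ρ / 2)
    have a1 := hsm y z w (hc _ hl _ (by intro u; simp; tauto))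
    have a2 := hsm x z w (hc _ hl _ (by intro u; simp; tauto))
    have a3 := hsm x y w (hc _ hl _ (by intro u; simp; tauto))
    have a4 := hsm x y z (hc _ hl _ (by intro u; simp; tauto))
    simp only [abs_le] at a1 a2 a3 a4
    have h1 : (((round (t z w - t y w + t y z) - round (t z w - t x w + t x z) +
        round (t y w - t x w + t x y) - round (t y z - t x z + t x y) : ℤ)) : ℝ) < 1 := by
      push_cast
      linarith [a1.1, a1.2, a2.1, a2.2, a3.1, a3.2, a4.1, a4.2]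
    have h2 : -1 < (((round (t z w - t y w + t y z) - round (t z w - t x w + t x z) +
        round (t y w - t x w + t x y) - round (t y z - t x z + t x y) : ℤ)) : ℝ) := by
      push_cast
      linarith [a1.1, a1.2, a2.1, a2.2, a3.1, a3.2, a4.1, a4.2]
    have h3 : (round (t z w - t y w + t y z) - round (t z w - t x w + t x z) +
        round (t y w - t x w + t x y) - round (t y z - t x z + t x y) : ℤ) < 1 := by exact_mod_cast h1
    have h4 : -1 < (round (t z w - t y w + t y z) - round (t z w - t x w + t x z) +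
        round (t y w - t x w + t x y) - round (t y z - t x z + t x y) : ℤ) := by exact_mod_cast h2
    show round (t z w - t y w + t y z) - round (t z w - t x w + t x z) +
        round (t y w - t x w + t x y) - round (t y z - t x z + t x y) = 0
    omega
  · intro x hx
    rw [hv, he hx]
    have h0 : ‖f x‖ ≠ 0 := norm_ne_zero_iff.2 (hf0 x hx)
    simp only [smul_smul]
    rw [mul_one_div_cancel h0, one_smul]

end BBH


end

section

/-!
# BBH, module LT2: the local groups in degree two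
-/

set_option autoImplicit false

namespace BBH

open Set Topology CTO

namespace LT2

theorem ctr_mono {X : Type} [TopologicalSpace X] {K K' K'' : Set X} (h : Ctr K K')
    (hK : K' ⊆ K'') : Ctr K K'' := by
  obtain ⟨w, F, hw, hF, hm, h0, h1⟩ := h
  exact ⟨w, F, hK hw, hF, hm.mono_right hK, h0, h1⟩

/-- small open neighbourhoods -/
theorem exists_nhd {X : Type} [MetricSpace X] {x : X} {O : Set X} (hO : IsOpen O) (hx : x ∈ O) :
    ∃ V : Set X, IsOpen V ∧ x ∈ V ∧ closure V ⊆ O := by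
  obtain ⟨t, ht, htc, hts⟩ := exists_mem_nhds_isClosed_subset (hO.mem_nhds hx)
  exact ⟨interior t, isOpen_interior, mem_interior_iff_mem_nhds.2 ht,
    (closure_minimal interior_subset htc).trans hts⟩

/-- the monodromies of the zero cochain -/
theorem mo_zero {k X : Type} [Field k] [MetricSpace X] (A : Set X) (a b : X) :
    Mo A a b (0 : Cc k X) 0 := by
  refine ⟨fun _ => 0, ?_, by simp⟩
  have h : c0 (fun _ : X => (0 : k)) = 0 := by
    funext l
    rcases l with _ | ⟨x, _ | ⟨y, l⟩⟩ <;> simp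
  rw [h, dd_zero, sub_zero]
  exact Zr.zero _

/-- cutting off -/
theorem cut {k X : Type} [Field k] [MetricSpace X] [CompactSpace X] {W U₁ V₂ Q' K : Set X}
    {c e : Cc k X} (hQ' : IsCompact Q') (hU₁ : IsOpen U₁) (hV₂ : IsOpen V₂) (hV₂Q : V₂ ⊆ Q')
    (hcl : closure U₁ ⊆ V₂) (hQK : Q' ⊆ K) (hW : W ⊆ U₁) (hc : Zr Wᶜ c) (he : Dg X 1 e)
    (hz : Zr (Q' \ U₁) e) (hce : Zr K (c - dd e)) : BdO 2 U₁ c := by
  obtain ⟨ε, hε, h⟩ := hz
  obtain ⟨η, hη, hsub⟩ := exists_thickening_inter hQ' hU₁.isClosed_compl hε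
  have hb : Zr U₁ᶜ (ind {l | ∀ y ∈ l, y ∈ Q'} e) := by
    refine ⟨min η ε, lt_min hη hε, fun l hl => ?_⟩
    by_cases h1 : ∀ y ∈ l, y ∈ Q'
    · refine ind_van (h l ⟨fun x hx => ?_, fun x hx y hy =>
        lt_of_lt_of_le (hl.2 x hx y hy) (min_le_right _ _)⟩)
      have h2 : x ∈ Metric.thickening ε (Q' ∩ U₁ᶜ) :=
        hsub ⟨Metric.self_subset_thickening hη _ (h1 x hx),
          Metric.thickening_mono (min_le_left _ _) _ (hl.1 x hx)⟩
      rwa [← sdiff_eq] at h2
    · exact ind_of_notMem h1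
  refine ⟨ind {l | ∀ y ∈ l, y ∈ Q'} e, ?_, hb, ?_⟩
  · exact he.ind
  · have h1 : Zr U₁ᶜ (c - dd (ind {l | ∀ y ∈ l, y ∈ Q'} e)) :=
      (hc.anti (compl_subset_compl.2 hW)).sub hb.dd
    have h2 : Zr (closure U₁) (c - dd (ind {l | ∀ y ∈ l, y ∈ Q'} e)) := by
      obtain ⟨δ, hδ, hδs⟩ := isClosed_closure.isCompact.exists_thickening_subset_open hV₂ hcl
      have h3 : Zr (closure U₁) (c - dd e) := hce.anti (hcl.trans (hV₂Q.trans hQK))
      obtain ⟨ρ, hρ, h4⟩ := h3
      refine ⟨min δ ρ, lt_min hδ hρ, fun l hl => ?_⟩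
      have h5 : dd (ind {l | ∀ y ∈ l, y ∈ Q'} e) l = dd e l := by
        refine dd_congr (Small.cl (closure U₁) δ) ?_ l
          (Small.mono Subset.rfl (min_le_left _ _) hl)
        intro l' hl'
        exact ind_of_mem fun y hy => hV₂Q (hδs (hl'.1 y hy))
      rw [Pi.sub_apply, h5]
      exact h4 l (Small.mono Subset.rfl (min_le_right _ _) hl)
    refine (h2.union h1).anti ?_
    intro y _
    by_cases hy : y ∈ U₁
    · exact Or.inl (subset_closure hy)
    · exact Or.inr hy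

end LT2

open LT2 in
theorem t_LT2 : M_LT2 := by
  intro hUC hFIO hCTR hLPX hMOA hMOC hMOD hMOE k X _ _ _ _ hX hH hG x U hU hxU
  obtain ⟨hlpc, hlp⟩ := hLPX X hX
  -- the good set `B`
  obtain ⟨B, -, hxB, hGN⟩ := hG x univ isOpen_univ (mem_univ x)
  obtain ⟨w, hwB, hwx⟩ := ((hGN.2.2 B Subset.rfl hGN.1 hGN.2.1).1 x hxB).nonempty
  rw [mem_singleton_iff] at hwx
  -- `K = closure V₀`
  obtain ⟨V₀, hV₀, hxV₀, hV₀cl, hV₀ctr⟩ := hlp x (B \ {w})
    (hGN.1.sdiff isClosed_singleton) ⟨hxB, fun h => hwx (mem_singleton_iff.1 h).symm⟩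
  -- `Q = closure V₁`
  obtain ⟨V₁, hV₁, hxV₁, hV₁cl, hV₁ctr⟩ := hlp x V₀ hV₀ hxV₀
  obtain ⟨V₂, hV₂, hxV₂, hV₂cl⟩ := exists_nhd hV₁ hxV₁
  obtain ⟨U₁, hU₁, hxU₁, hU₁cl⟩ := exists_nhd (hV₂.inter hU) ⟨hxV₂, hxU⟩
  obtain ⟨U', hU', hxU', hU'cl⟩ := exists_nhd hU₁ hxU₁
  obtain ⟨W, hWU', hW, hxW, hfio⟩ := hFIO.2 k X hX 2 U' x hU' hxU'
  have hU'U₁ : U' ⊆ U₁ := subset_closure.trans hU'cl
  have hU₁U : U₁ ⊆ U := subset_closure.trans (hU₁cl.trans inter_subset_right)
  have hV₁K : V₁ ⊆ closure V₀ := subset_closure.trans (hV₁cl.trans subset_closure)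
  refine ⟨W, hWU'.trans (hU'U₁.trans hU₁U), hW, hxW, ?_⟩
  intro c hc
  refine BdO.mono ?_ hU₁U
  -- a primitive near `K`
  obtain ⟨g, hgd, -, hg⟩ := hCTR k X (closure V₀) univ isClosed_closure.isCompact
    (subset_univ _) (ctr_mono hV₀ctr (subset_univ _)) 2 (by norm_num) c
    (Cyc.mono hc Subset.rfl (empty_subset _))
  have hgd1 : Dg X 1 g := by
    have h : (2 : ℤ) - 1 = 1 := by norm_num
    rwa [h] at hgd
  have hO : IsOpen (V₁ \ closure U') := hV₁.sdiff isClosed_closure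
  have hOW : V₁ \ closure U' ⊆ Wᶜ := fun y hy hyW => hy.2 (subset_closure (hWU' hyW))
  have hOg : Zr (V₁ \ closure U') (dd g) := by
    have h1 := (hc.rel.anti hOW).sub (hg.anti (sdiff_subset.trans hV₁K))
    rwa [sub_sub_cancel] at h1
  by_cases hA : ∀ (n : ℕ) (A : Fin n → Set X) (a b : Fin n → X) (z m : Fin n → k), ACy A a b z →
    (∀ i, A i ⊆ V₁ \ closure U') → (∀ i, Mo (A i) (a i) (b i) g (m i)) → ∑ i, z i * m i = 0
  · -- no monodromy
    obtain ⟨f, hf⟩ := hMOC k X (V₁ \ closure U') g hgd1 hOg hA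
    have hC : IsCompact (closure V₂ \ U₁) := isClosed_closure.isCompact.diff hU₁
    have hCO : closure V₂ \ U₁ ⊆ V₁ \ closure U' :=
      fun y hy => ⟨hV₂cl hy.1, fun h => hy.2 (hU'cl h)⟩
    have he := hMOD k X hlpc (V₁ \ closure U') (closure V₂ \ U₁) g f hO hC hCO hgd1 hOg hf
    refine cut (Q' := closure V₂) (K := closure V₀) isClosed_closure.isCompact hU₁ hV₂
      subset_closure (hU₁cl.trans inter_subset_left) (hV₂cl.trans hV₁K) (hWU'.trans hU'U₁)
      hc.rel (e := g - dd (c0 f)) ?_ he ?_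
    · have h1 : Dg X (0 + 1) (dd (c0 f)) := (Dg.c0 f).dd
      rw [zero_add] at h1
      exact hgd1.sub h1
    · rw [dd_sub, dd_dd, sub_zero]
      exact hg
  · -- a cycle with monodromy
    exfalso
    push Not at hA
    obtain ⟨n, A, a, b, z, m, hcy, hAO, hmo, hne⟩ := hA
    have hZO : (⋃ i, A i) ⊆ V₁ \ closure U' := iUnion_subset hAO
    have hZK : (⋃ i, A i) ⊆ closure V₀ := hZO.trans (sdiff_subset.trans hV₁K)
    have hZB : (⋃ i, A i) ⊆ B := hZK.trans (hV₀cl.trans sdiff_subset)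
    obtain ⟨s, hs, hsv⟩ := hMOE k X (closure V₀) (closure V₁) n A a b z hcy
      (hV₁cl.trans subset_closure) (hZO.trans (sdiff_subset.trans subset_closure)) (by
        intro g' hg'
        exact hCTR k X (closure V₁) V₀ isClosed_closure.isCompact hV₁cl hV₁ctr 1 le_rfl g'
          (hg'.mono subset_closure Subset.rfl))
    have hAc : ∀ i, IsCompact (A i) := by
      intro i
      obtain ⟨α, hα, -, -, -, hA⟩ := hcy.arc i
      rw [hA]
      exact isCompact_Icc.image_of_continuousOn hα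
    have hZc : IsClosed (⋃ i, A i) := (isCompact_iUnion hAc).isClosed
    have hVo : IsOpen (B \ ⋃ i, A i) := hGN.1.sdiff hZc
    have hVp : IsPreconnected (B \ ⋃ i, A i) := by
      refine (hGN.2.2 B Subset.rfl hGN.1 hGN.2.1).2 n A (fun i => ?_) hZB
      obtain ⟨α, hα, hi, -, -, hA⟩ := hcy.arc i
      exact ⟨α, hα, hi, hA⟩
    have hwK : w ∉ closure V₀ := fun h => (hV₀cl h).2 rfl
    have hZU' : (⋃ i, A i) ⊆ U'ᶜ := fun y hy h => (hZO hy).2 (subset_closure h)
    have hxZ : x ∉ ⋃ i, A i := fun h => hZU' h hxU'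
    have hzw : Zg 2 s w := by
      refine ⟨(closure V₀)ᶜ, isClosed_closure.isOpen_compl, hwK, ?_⟩
      intro c' hc'
      have h1 : s c' = ∑ i, z i * (0 : k) := by
        refine hsv c' 0 (fun _ => 0) (hc'.mono (compl_subset_compl.2 hZK)) Dg.zero ?_
          fun i => mo_zero _ _ _
        rw [dd_zero, sub_zero]
        have h2 := hc'.rel
        rwa [compl_compl] at h2
      rw [h1]
      simp
    have hzx := hUC k X hX hH 2 (B \ ⋃ i, A i) s hVo hVp (hs.mono fun y hy => hy.2)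
      ⟨w, ⟨hwB, fun h => hwK (hZK h)⟩, hzw⟩ x ⟨hxB, hxZ⟩
    obtain ⟨W₃, hW₃, hxW₃, hzero⟩ := hzx
    obtain ⟨c', hc', e, hed, hez, hce⟩ := hfio (W₃ ∩ W) inter_subset_right (hW₃.inter hW)
      ⟨hxW₃, hxW⟩ c hc
    have hed1 : Dg X 1 e := by
      have h : (2 : ℤ) - 1 = 1 := by norm_num
      rwa [h] at hed
    have h0 : s c' = 0 := hzero c' (hc'.mono inter_subset_left)
    have h1 : s c' = ∑ i, z i * m i := by
      refine hsv c' (g - e) m (hc'.mono ?_) (hgd1.sub hed1) ?_ fun i => ?_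
      · intro y hy hyZ
        exact hZU' hyZ (hWU' hy.2)
      · have h2 := hg.sub (hce.anti (subset_univ (closure V₀)))
        have h3 : c - dd g - (c - c' - dd e) = c' - dd (g - e) := by
          rw [dd_sub]
          abel
        rwa [h3] at h2
      · refine (hMOA k X (A i) (a i) (b i) (hcy.arc i)).2.2.2.2.1 g (g - e) (m i) ?_ (hmo i)
        rw [sub_sub_cancel]
        exact hez.anti ((subset_iUnion A i).trans hZU')
    exact hne (h1.symm.trans h0)

end BBH


end
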