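import Mathlib
import Pool.Agent.BBH.AS
import Pool.Agent.BBM.C04
import Pool.Agent.BBM.C06
import Pool.Agent.BBM.C12
import Pool.Agent.BBM.C17
import Pool.Agent.BBM.C18
import Pool.Agent.BBM.C19
import Pool.Agent.BBM.C20
import Pool.Agent.BBM.C21
import Pool.Agent.BBM.C22
import Pool.Agent.BBM.C23
import Pool.Agent.BBM.C24
import Pool.Agent.BBM.C25
import Pool.Agent.BBM.C26

/-! Parts: BBH.Main, BBH.ASB -/

section

/-!
# BBH: assembly
-/

set_option autoImplicit false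

namespace BBH

open Set Topology CTO

theorem s_EXT4 : S_EXT4 := CTO.t_EXT4 (CTO.t_APX4 CTO.t_GP)
theorem s_OBS0 : S_OBS0 := CTO.t_OBS0
theorem bbpPTA : BBP.S_PTA := BBP.t_PTA BBP.t_PTM
theorem bbpARB : BBP.S_ARB := BBP.t_ARB
theorem bbpGLU : BBP.S_GLU := BBP.t_GLU
theorem s_PNT : S_PNT := t_PNT
theorem s_CTR : S_CTR := t_CTR s_PNT
theorem s_CON : S_CON := t_CON
theorem s_MVC : S_MVC := t_MVC
theorem s_MVO : S_MVO := t_MVO
theorem s_NBH : S_NBH := t_NBH
theorem s_CUT : S_CUT := t_CUT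
theorem s_TRP : S_TRP := t_TRP
theorem s_VA1 : S_VA1 := t_VA1 s_PNT s_MVC
theorem s_ARC : S_ARC := t_ARC s_MVC s_VA1
theorem s_FGU : S_FGU := t_FGU
theorem s_FGR : S_FGR := t_FGR
theorem s_FGC : S_FGC := t_FGC s_CTR s_CON s_FGU
theorem s_HUL : S_HUL := t_HUL
theorem s_FIN : S_FIN := t_FIN s_FGR s_FGC s_HUL
theorem s_FIO : S_FIO := t_FIO s_FIN
theorem s_CMB : S_CMB := t_CMB
theorem s_DIM : S_DIM := t_DIM s_CMB
theorem s_LPX : S_LPX := t_LPX
theorem s_OUT : S_OUT := t_OUT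
theorem s_OUS : S_OUS := t_OUS
theorem s_UCA : S_UCA := t_UCA s_FIO
theorem s_UCB : S_UCB := t_UCB s_TRP
theorem s_UC : S_UC := t_UC s_UCA s_UCB
theorem s_GEN : S_GEN := t_GEN s_DIM s_MVO s_NBH
theorem s_SRJ : S_SRJ := t_SRJ s_UC s_GEN
theorem s_FDV : S_FDV := t_FDV s_FIO
theorem s_EXJ : S_EXJ := t_EXJ s_CUT
theorem s_NZA : S_NZA := t_NZA s_GEN s_TRP
theorem s_NZB : S_NZB := t_NZB
theorem s_NSB : S_NSB := t_NSB s_EXJ s_MVO
theorem s_GNB : S_GNB := t_GNB s_PNT s_CUT s_ARC s_NSB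
theorem s_HAR : S_HAR := t_HAR s_FDV s_OUS s_LPX s_EXJ s_NBH s_PNT
theorem s_HAS : S_HAS := t_HAS s_EXJ
theorem s_HPF : S_HPF := t_HPF
theorem s_LNA : S_LNA := t_LNA s_HPF
theorem s_EXS : S_EXS := t_EXS s_EXT4
theorem s_TRN : S_TRN := t_TRN
theorem s_SLL : S_SLL := t_SLL s_HPF
theorem s_ALX : S_ALX := t_ALX s_HPF s_LNA s_EXS s_TRN s_SLL
theorem s_ZNZ : S_ZNZ := t_ZNZ s_OBS0 s_ALX s_DIM
theorem s_DVP : S_DVP := t_DVP
theorem s_FGD : S_FGD := t_FGD
theorem s_PRM : S_PRM := t_PRM s_NBH s_FIO s_ZNZ s_DVP s_FGD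
theorem s_GNX : S_GNX := t_GNX s_LPX s_PRM s_SRJ s_NZA s_NZB s_GNB
theorem s_GEQ : S_GEQ := t_GEQ s_MVO s_NBH
theorem s_LT0 : S_LT0 := t_LT0 s_CON
theorem s_LT1 : S_LT1 := t_LT1 s_CTR s_CON s_OUT s_LPX
theorem s_MOA : S_MOA := t_MOA s_ARC s_CON
theorem s_MOC : S_MOC := t_MOC s_MOA
theorem s_MOD : S_MOD := t_MOD s_MOA bbpPTA
theorem s_MOE : S_MOE := t_MOE s_MOA
theorem s_LT2 : S_LT2 := t_LT2 s_UC s_FIO s_CTR s_LPX s_MOA s_MOC s_MOD s_MOE
theorem s_NZK : S_NZK := t_NZK s_NZA s_GEQ s_LT0 s_LT1 s_LT2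
theorem s_KA : S_KA := t_KA
theorem s_KB : S_KB := t_KB
theorem s_KC : S_KC := t_KC
theorem s_KD : S_KD := t_KD s_PNT
theorem s_KE : S_KE := t_KE
theorem s_KF : S_KF := t_KF s_CON s_KD s_KE
theorem s_KG : S_KG := t_KG s_CON s_KE
theorem s_KH : S_KH := t_KH
theorem s_KEY : S_KEY := t_KEY s_KA s_KB s_KC s_KF s_KG s_KH
theorem s_ARI : S_ARI := t_ARI
theorem s_LAM : S_LAM := t_LAM bbpPTA bbpARB bbpGLU s_ARI
theorem s_CFG : S_CFG := t_CFG s_LAM
theorem s_THK : S_THK := t_THK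
theorem s_STP : S_STP := t_STP s_NZB s_HAR
theorem s_DPL : S_DPL := t_DPL s_HAR s_HAS s_LPX s_CTR
theorem s_RKA : S_RKA := t_RKA s_PNT s_ARC
theorem s_RKB : S_RKB := t_RKB s_NBH s_FIN
theorem s_PRG : S_PRG := t_PRG
theorem s_FRS : S_FRS := t_FRS s_FDV
theorem s_FRH : S_FRH := t_FRH s_TRP s_FRS
theorem s_LNL : S_LNL := t_LNL
theorem s_CNT : S_CNT := t_CNT s_LNL s_FDV s_MVO
theorem s_LEC : S_LEC := t_LEC s_DPL s_CFG s_ARC s_FRH s_THK s_OUT s_NSB s_RKA s_RKB s_FRS s_PRG
theorem s_LED : S_LED := t_LED s_CNT s_MVO s_KEY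
theorem s_LEV : S_LEV := t_LEV s_STP s_LEC s_LED s_FRS
theorem s_ONE : S_ONE := t_ONE s_LEV s_LPX s_SRJ s_GNX s_NZK s_LT2 s_FDV s_NZB
theorem s_DVU : S_DVU := t_DVU
theorem s_LFT : S_LFT := t_LFT s_DIM
theorem s_FSL : S_FSL := t_FSL
theorem s_TOR : S_TOR := t_TOR s_FSL
theorem s_RAT : S_RAT := t_RAT s_FSL
theorem s_SZN : S_SZN := t_SZN s_DVU
theorem s_LTZ : S_LTZ := t_LTZ s_TOR s_SZN s_FIO
theorem s_SJZ : S_SJZ := t_SJZ s_GEN s_THK s_FIO s_LFT s_DVU s_FGD
theorem s_ALZ : S_ALZ := t_ALZ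
theorem s_HZ3 : S_HZ3 := t_HZ3 s_ALZ s_FIO s_RAT s_DVU
theorem s_ORA : S_ORA := t_ORA s_GEN
theorem s_ORG : S_ORG := t_ORG s_DIM s_MVO s_ORA
theorem s_ORI : S_ORI := t_ORI s_ORG
theorem s_CLA : S_CLA := t_CLA s_DIM
theorem s_NCT : S_NCT := t_NCT s_CTR
theorem s_CMK : S_CMK := t_CMK s_LT0 s_LT1 s_LT2 s_GNX s_DIM s_ONE s_SRJ
theorem s_CMZ : S_CMZ := t_CMZ s_LPX s_LT0 s_LT1 s_LT2 s_LTZ s_GNX s_DIM s_ONE s_SRJ s_SJZ s_HZ3
theorem s_COR : S_COR := t_COR s_LPX s_ORI s_SRJ s_ONE s_NSB s_NCT s_CLA s_CMZ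

/-- MAIN. Homogeneous compact ANRs of dimension 3 are cohomology 3-manifolds over `ℤ` and over all countable fields. -/
theorem main (X : Type) [MetricSpace X] [CompactSpace X] (hA : IsANR X) (hH : Homog X)
    (h3 : CovDimLE X 3) (h2 : ¬ CovDimLE X 2) :
    CohMfd ℤ 3 X ∧ ∀ (k : Type) [Field k] [Countable k], CohMfd k 3 X := by
  have h3' : ShrLE X 3 := (CTO.t_SHR X 3).1 h3
  have h2' : ¬ ShrLE X 2 := fun h => h2 ((CTO.t_SHR X 2).2 h)
  exact ⟨(s_CMZ X hA hH h3' h2').2, fun k _ _ => s_CMK k X hA hH h3' h2'⟩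

end BBH


end

section

/-!
# BBH: comparison of the cochains on lists with the definitions of `Pool/Agent/BBH/AS.lean`
-/

set_option autoImplicit false

namespace BBH

open Set Topology AlexanderSpanier

section bridge

variable {R X : Type} [CommRing R]

/-- tuples to lists -/
def toL {p : ℕ} (c : Coch R X p) : Cc R X := fun l =>
  if h : l.length = p + 1 then c (fun i => l.get (Fin.cast h.symm i)) else 0

/-- lists to tuples -/
def toT (p : ℕ) (c : Cc R X) : Coch R X p := fun x => c (List.ofFn x)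

theorem ofFn_get' (l : List X) (n : ℕ) (h : l.length = n) :
    List.ofFn (fun i : Fin n => l.get (Fin.cast h.symm i)) = l := by
  subst h
  exact List.ofFn_get l

theorem toL_of_len {p : ℕ} (c : Cc R X) (l : List X) (h : l.length = p + 1) :
    toL (toT p c) l = c l := by
  rw [toL, dif_pos h, toT, ofFn_get' l (p + 1) h]

theorem toL_dg {p : ℕ} (c : Coch R X p) : Dg X p (toL c) := by
  intro l hl
  by_cases h : l.length = p + 1
  · refine ⟨?_, by rw [h]; push_cast; ring⟩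
    rintro rfl
    simp at h
  · exact absurd (by rw [toL, dif_neg h]) hl

theorem toL_toT {p : ℕ} {c : Cc R X} (h : Dg X p c) : toL (toT p c) = c := by
  funext l
  by_cases hl : l.length = p + 1
  · exact toL_of_len c l hl
  · rw [toL, dif_neg hl]
    by_contra h1
    have h2 := (h l (fun h3 => h1 h3.symm)).2
    exact hl (by omega)

theorem toT_toL {p : ℕ} (c : Coch R X p) : toT p (toL c) = c := by
  funext x
  have h : (List.ofFn x).length = p + 1 := List.length_ofFn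
  rw [toT, toL, dif_pos h]
  congr 1
  funext i
  exact List.get_ofFn x _

theorem dd_ofFn (m : ℕ) : ∀ (c : Cc R X) (x : Fin (m + 1) → X), dd c (List.ofFn x) =
    ∑ i : Fin (m + 1), (-1) ^ (i : ℕ) * c (List.ofFn fun j => x (i.succAbove j)) := by
  induction m with
  | zero =>
    intro c x
    rw [List.ofFn_succ, List.ofFn_zero]
    simp
  | succ m ih =>
    intro c x
    have h1 : dd c (List.ofFn x) = c (List.ofFn fun i : Fin (m + 1) => x i.succ) -
        ∑ i : Fin (m + 1), (-1) ^ (i : ℕ) *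
          sh c (x 0) (List.ofFn fun j => x (i.succAbove j).succ) := by
      rw [List.ofFn_succ, dd_cons, ih]
    have h2 : ∑ i : Fin (m + 1 + 1), (-1) ^ (i : ℕ) * c (List.ofFn fun j => x (i.succAbove j)) =
        (-1) ^ ((0 : Fin (m + 1 + 1)) : ℕ) *
          c (List.ofFn fun j => x ((0 : Fin (m + 1 + 1)).succAbove j)) +
        ∑ i : Fin (m + 1), (-1) ^ (i.succ : ℕ) *
          c (List.ofFn fun j => x (i.succ.succAbove j)) := Fin.sum_univ_succ _
    rw [h1, h2, sub_eq_add_neg, ← Finset.sum_neg_distrib]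
    congr 1
    · simp
    · refine Finset.sum_congr rfl fun i _ => ?_
      have h3 : (List.ofFn fun j : Fin (m + 1) => x (i.succ.succAbove j)) =
          x 0 :: List.ofFn fun j : Fin m => x (i.succAbove j).succ := by
        rw [List.ofFn_succ]
        simp only [Fin.succ_succAbove_zero, Fin.succ_succAbove_succ]
      rw [h3, sh_apply, Fin.val_succ]
      ring

theorem toT_dd {p : ℕ} (c : Cc R X) : toT (p + 1) (dd c) = delta R p (toT p c) := by
  funext x
  exact dd_ofFn (p + 1) c x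

theorem toL_delta {p : ℕ} (c : Coch R X p) : toL (delta R p c) = dd (toL c) := by
  have h : Dg X ((p + 1 : ℕ) : ℤ) (dd (toL c)) := by
    have := (toL_dg c).dd
    push_cast
    exact this
  have h2 := toL_toT h
  rwa [toT_dd, toT_toL] at h2

theorem toL_add {p : ℕ} (c e : Coch R X p) : toL (c + e) = toL c + toL e := by
  funext l
  rw [Pi.add_apply]
  by_cases h : l.length = p + 1
  · rw [toL, toL, toL, dif_pos h, dif_pos h, dif_pos h, Pi.add_apply]
  · rw [toL, toL, toL, dif_neg h, dif_neg h, dif_neg h, add_zero]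

theorem toL_sub {p : ℕ} (c e : Coch R X p) : toL (c - e) = toL c - toL e := by
  funext l
  rw [Pi.sub_apply]
  by_cases h : l.length = p + 1
  · rw [toL, toL, toL, dif_pos h, dif_pos h, dif_pos h, Pi.sub_apply]
  · rw [toL, toL, toL, dif_neg h, dif_neg h, dif_neg h, sub_zero]

theorem toL_smul {p : ℕ} (a : R) (c : Coch R X p) : toL (a • c) = a • toL c := by
  funext l
  rw [Pi.smul_apply]
  by_cases h : l.length = p + 1
  · rw [toL, toL, dif_pos h, dif_pos h, Pi.smul_apply]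
  · rw [toL, toL, dif_neg h, dif_neg h, smul_zero]

theorem toT_sub {p : ℕ} (c e : Cc R X) : toT p (c - e) = toT p c - toT p e := rfl

variable [MetricSpace X] [CompactSpace X]

theorem zr_iff {p : ℕ} {c : Cc R X} (h : Dg X p c) {A : Set X} (hA : IsClosed A) :
    Zr A c ↔ supp R p (toT p c) ⊆ Aᶜ := by
  constructor
  · rintro ⟨ε, hε, hc⟩ x hx hxA
    refine hx ⟨Metric.ball x (ε / 2), Metric.isOpen_ball, Metric.mem_ball_self (by positivity),
      fun y hy => hc _ ⟨fun z hz => ?_, fun z hz w hw => ?_⟩⟩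
    · obtain ⟨i, rfl⟩ := (List.mem_ofFn' y z).1 hz
      have := Metric.mem_ball.1 (hy i)
      exact Metric.mem_thickening_iff.2 ⟨x, hxA, by linarith⟩
    · obtain ⟨i, rfl⟩ := (List.mem_ofFn' y z).1 hz
      obtain ⟨j, rfl⟩ := (List.mem_ofFn' y w).1 hw
      have h1 := Metric.mem_ball.1 (hy i)
      have h2 := Metric.mem_ball'.1 (hy j)
      have h3 := dist_triangle (y i) x (y j)
      linarith
  · intro hs
    have h1 : ∀ x : A, ∃ U : Set X, IsOpen U ∧ (x : X) ∈ U ∧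
        ∀ y : Fin (p + 1) → X, (∀ i, y i ∈ U) → toT p c y = 0 := by
      intro x
      by_contra h2
      exact hs h2 x.2
    choose U hU hxU hcU using h1
    obtain ⟨δ, hδ, hL⟩ := lebesgue_number_lemma_of_metric hA.isCompact hU
      (fun x hx => mem_iUnion.2 ⟨⟨x, hx⟩, hxU ⟨x, hx⟩⟩)
    refine ⟨δ / 2, by positivity, fun l hl => ?_⟩
    by_contra h2
    obtain ⟨h3, h4⟩ := h l h2
    have h5 : l.length = p + 1 := by omega
    obtain ⟨y, hy⟩ := List.exists_mem_of_ne_nil l h3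
    obtain ⟨a, ha, hya⟩ := Metric.mem_thickening_iff.1 (hl.1 y hy)
    obtain ⟨x, hx⟩ := hL a ha
    have h6 := hcU x (fun i => l.get (Fin.cast h5.symm i)) (fun i => hx (by
      rw [Metric.mem_ball]
      have h7 := hl.2 (l.get (Fin.cast h5.symm i)) (List.get_mem _ _) y hy
      have h8 := dist_triangle (l.get (Fin.cast h5.symm i)) y a
      linarith))
    rw [toT, ofFn_get' l (p + 1) h5] at h6
    exact h2 h6

theorem zr_univ_iff {p : ℕ} {c : Cc R X} (h : Dg X p c) :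
    Zr univ c ↔ supp R p (toT p c) = ∅ := by
  rw [zr_iff h isClosed_univ, compl_univ, subset_empty_iff]

theorem cyO_iff {p : ℕ} {c : Cc R X} (h : Dg X p c) {V : Set X} (hV : IsOpen V) :
    CyO p V c ↔ IsCocycle R p V (toT p c) := by
  have h1 : Dg X ((p + 1 : ℕ) : ℤ) (dd c) := by
    have := h.dd
    push_cast
    exact this
  have e1 : Zr Vᶜ c ↔ supp R p (toT p c) ⊆ V := by
    rw [zr_iff h hV.isClosed_compl, compl_compl]
  have e2 : Zr univ (dd c) ↔ supp R (p + 1) (delta R p (toT p c)) = ∅ := by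
    rw [zr_univ_iff h1, toT_dd]
  exact ⟨fun hc => ⟨e1.1 hc.rel, e2.1 hc.cyc⟩, fun hc => ⟨h, e1.2 hc.1, e2.2 hc.2⟩⟩

theorem bdO_iff {p : ℕ} {c : Cc R X} (h : Dg X p c) {V : Set X} (hV : IsOpen V) :
    BdO p V c ↔ IsCob R p V (toT p c) := by
  cases p with
  | zero =>
    constructor
    · rintro ⟨b, hb, -, h3⟩
      rw [hb.eq_zero (by norm_num), dd_zero, sub_zero] at h3
      exact (zr_univ_iff h).1 h3
    · intro h1
      exact ⟨0, Dg.zero, Zr.zero _, by rw [dd_zero, sub_zero]; exact (zr_univ_iff h).2 h1⟩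
  | succ p =>
    constructor
    · rintro ⟨b, hb, h2, h3⟩
      have hb' : Dg X p b := by
        have : ((p + 1 : ℕ) : ℤ) - 1 = p := by push_cast; ring
        rwa [this] at hb
      have hd : Dg X ((p + 1 : ℕ) : ℤ) (dd b) := by
        have := hb'.dd
        push_cast
        exact this
      refine ⟨toT p b, ?_, ?_⟩
      · rw [zr_iff hb' hV.isClosed_compl, compl_compl] at h2
        exact h2
      · rw [zr_univ_iff (h.sub hd), toT_sub, toT_dd] at h3
        exact h3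
    · rintro ⟨b, h2, h3⟩
      have hb' : Dg X p (toL b) := toL_dg b
      have hd : Dg X ((p + 1 : ℕ) : ℤ) (dd (toL b)) := by
        have := hb'.dd
        push_cast
        exact this
      refine ⟨toL b, ?_, ?_, ?_⟩
      · have : ((p + 1 : ℕ) : ℤ) - 1 = p := by push_cast; ring
        rw [this]
        exact hb'
      · rw [zr_iff hb' hV.isClosed_compl, compl_compl, toT_toL]
        exact h2
      · rw [zr_univ_iff (h.sub hd), toT_sub, toT_dd, toT_toL]
        exact h3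

omit [MetricSpace X] [CompactSpace X] in
theorem toT_smul {p : ℕ} (a : R) (c : Cc R X) : toT p (a • c) = a • toT p c := rfl

/-- a module isomorphic to the ring has a generator -/
theorem exists_generator {n : ℕ} {V : Set X} (hV : IsOpen V) (e : HO R R (n : ℤ) V ≃ₗ[R] R) :
    ∃ g, IsGenerator R n V g := by
  obtain ⟨g, hg, hge⟩ := cls_surj (e.symm 1)
  have hg' : CyO n V g := hg
  refine ⟨toT n g, (cyO_iff hg'.deg hV).1 hg', fun c hc => ?_⟩
  have hcd := toL_dg c
  have hc' : CyO n V (toL c) := (cyO_iff hcd hV).2 (by rw [toT_toL]; exact hc)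
  have key : ∀ t : R, IsCob R n V (c - t • toT n g) ↔ e (cls R (toL c) hc') = t := by
    intro t
    have h1 : Dg X n (toL c - t • g) := hcd.sub (hg'.deg.smul t)
    have h2 := bdO_iff h1 hV
    rw [toT_sub, toT_toL, toT_smul] at h2
    rw [← h2]
    have h3 : BdO n V (toL c - t • g) ↔ cls R (toL c) hc' = cls R (t • g) (hg.smul t) :=
      (cls_eq (R := R) hc' (hg.smul t)).symm
    have h4 : cls R (t • g) (hg.smul t) = e.symm t := by
      rw [cls_smul t hg, hge, ← map_smul, smul_eq_mul, mul_one]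
    rw [h3, h4, LinearEquiv.eq_symm_apply]
  exact ⟨_, (key _).2 rfl, fun t ht => ((key t).1 ht).symm⟩

/-- comparison of the two definitions of cohomology manifolds -/
theorem cohomologyManifold {n : ℕ} (hLC : LocallyConnectedSpace X) (h : CohMfd R n X) :
    CohomologyManifold R n X := by
  intro x N hN hx
  obtain ⟨⟨V, hVN, hV, hxV, h1⟩, B, hBN, hB, hxB, h2⟩ := h x N hN hx
  refine ⟨⟨V, hVN, hV, hxV, fun p hp c hc => ?_⟩, connectedComponentIn B x,
    (connectedComponentIn_subset B x).trans hBN, hB.connectedComponentIn,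
    isConnected_connectedComponentIn_iff.2 hxB, mem_connectedComponentIn hxB,
    fun V hVB' hV hVc => ?_⟩
  · have h3 := h1 p (by exact_mod_cast hp) (toL c)
      ((cyO_iff (toL_dg c) hV).2 (by rw [toT_toL]; exact hc))
    have h4 := (bdO_iff (toL_dg c) hN).1 h3
    rwa [toT_toL] at h4
  · have hVB : V ⊆ B := hVB'.trans (connectedComponentIn_subset B x)
    obtain ⟨⟨e⟩, h3⟩ := h2 V hVB hV hVc
    refine ⟨exists_generator hV e, fun W hWV hW hWc g hg => ?_⟩
    have hb := h3 W hWV hW hWc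
    have hgW : CyO n W (toL g) := (cyO_iff (toL_dg g) hW).2 (by rw [toT_toL]; exact hg.1)
    have hgV : CyO n V (toL g) := hgW.mono hWV
    refine ⟨?_, fun c hc => ?_⟩
    · have := (cyO_iff (toL_dg g) hV).1 hgV
      rwa [toT_toL] at this
    have hcV : CyO n V (toL c) := (cyO_iff (toL_dg c) hV).2 (by rw [toT_toL]; exact hc)
    obtain ⟨a, ha⟩ := hb.2 (cls R (toL c) hcV)
    obtain ⟨c', hc', rfl⟩ := cls_surj a
    rw [ext_cls hc' hWV] at ha
    have hcc : BdO n V (c' - toL c) := (cls_eq (R := R) (CyO.mono hc' hWV) hcV).1 ha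
    have hcW : CyO n W c' := hc'
    obtain ⟨t, ht, hu⟩ := hg.2 (toT n c') ((cyO_iff hcW.deg hW).1 hcW)
    have tr : ∀ s : R, IsCob R n V (c - s • g) ↔ IsCob R n W (toT n c' - s • g) := by
      intro s
      have d1 : Dg X n (toL c - s • toL g) := (toL_dg c).sub ((toL_dg g).smul s)
      have d2 : Dg X n (c' - s • toL g) := hcW.deg.sub ((toL_dg g).smul s)
      have b1 := bdO_iff d1 hV
      rw [toT_sub, toT_smul, toT_toL, toT_toL] at b1
      have b2 := bdO_iff d2 hW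
      rw [toT_sub, toT_smul, toT_toL] at b2
      rw [← b1, ← b2]
      have hsW : CyO n W (c' - s • toL g) := hcW.sub (hgW.smul s)
      constructor
      · intro h4
        have h5 : BdO n V (c' - s • toL g) := by
          have := Bd.add hcc h4
          rwa [sub_add_sub_cancel] at this
        have h6 : ext R R hWV (cls R _ hsW) = 0 := by
          rw [ext_cls hsW hWV]
          exact (cls_eq_zero (R := R) (CyO.mono hsW hWV)).2 h5
        rw [← map_zero (ext R R hWV)] at h6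
        exact (cls_eq_zero (R := R) hsW).1 (hb.1 h6)
      · intro h4
        have h5 : BdO n V (c' - s • toL g) := BdO.mono h4 hWV
        have := Bd.add (Bd.neg hcc) h5
        rwa [neg_sub, sub_add_sub_cancel] at this
    exact ⟨t, (tr t).2 ht, fun s hs => hu s ((tr s).1 hs)⟩

theorem exists_class (p : ℕ) (h : ¬ VanO R p (univ : Set X)) :
    ∃ c : Coch R X p, IsCocycle R p univ c ∧ ¬ IsCob R p univ c := by
  by_contra h1
  push Not at h1
  apply h
  intro c hc
  exact (bdO_iff hc.deg isOpen_univ).2 (h1 (toT p c) ((cyO_iff hc.deg isOpen_univ).1 hc))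

end bridge

end BBH


end
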